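import Pool.Agent.Work.MP_ebc928_an.Defs

open MeasureTheory Complex Set Filter Topology
open scoped ContDiff ComplexConjugate

noncomputable section
namespace EBC

/-- A sequence of even smooth mollifiers. -/
structure Moll (ρ : ℕ → ℂ → ℝ) : Prop where
  smooth : ∀ n, ContDiff ℝ ∞ (ρ n)
  supp : ∀ n, tsupport (ρ n) ⊆ Metric.closedBall 0 (1 / ((n : ℝ) + 1))
  nonneg : ∀ n z, 0 ≤ ρ n z
  even : ∀ n z, ρ n (-z) = ρ n z
  int_one : ∀ n, ∫ z, ρ n z = 1

theorem exists_moll : ∃ ρ : ℕ → ℂ → ℝ, Moll ρ := by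
  have hpos : ∀ n : ℕ, (0 : ℝ) < 1 / ((n : ℝ) + 1) := fun n => by positivity
  let f : ∀ n : ℕ, ContDiffBump (0 : ℂ) := fun n =>
    ⟨1 / ((n : ℝ) + 1) / 2, 1 / ((n : ℝ) + 1), half_pos (hpos n), half_lt_self (hpos n)⟩
  refine ⟨fun n => (f n).normed volume, ?_, ?_, ?_, ?_, ?_⟩
  · intro n
    exact (f n).contDiff_normed
  · intro n
    rw [(f n).tsupport_normed_eq]
  · intro n z
    exact (f n).nonneg_normed z
  · intro n z
    exact (f n).normed_neg z
  · intro n
    exact (f n).integral_normed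

/-- mollification -/
def mol (r : ℂ → ℝ) (g : ℂ → ℂ) (z : ℂ) : ℂ := ∫ w, r w • g (z - w)

theorem Moll.hcs {ρ : ℕ → ℂ → ℝ} (hρ : Moll ρ) (n : ℕ) : HasCompactSupport (ρ n) :=
  (isCompact_closedBall _ _).of_isClosed_subset (isClosed_tsupport _) (hρ.supp n)

theorem Moll.integrable {ρ : ℕ → ℂ → ℝ} (hρ : Moll ρ) (n : ℕ) : Integrable (ρ n) :=
  (hρ.smooth n).continuous.integrable_of_hasCompactSupport (hρ.hcs n)

theorem mol_eq_conv (r : ℂ → ℝ) (g : ℂ → ℂ) :
    mol r g = convolution r g (ContinuousLinearMap.lsmul ℝ ℝ) volume := by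
  funext z
  simp [mol, convolution_def]

/-! fundamental domain -/

theorem mol_cell_eq : cell = ZSpan.fundamentalDomain Complex.basisOneI := by
  ext z
  simp only [cell, Set.mem_ofPred_eq, ZSpan.mem_fundamentalDomain, Complex.basisOneI]
  constructor
  · rintro ⟨h1, h2⟩ i
    fin_cases i
    · simpa using h1
    · simpa using h2
  · intro h
    exact ⟨by simpa using h 0, by simpa using h 1⟩

theorem mol_measurable_cell : MeasurableSet cell := by
  have : cell = Complex.re ⁻¹' (Ico 0 1) ∩ Complex.im ⁻¹' (Ico 0 1) := rfl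
  rw [this]
  exact (Complex.measurable_re measurableSet_Ico).inter (Complex.measurable_im measurableSet_Ico)

abbrev molLat : Submodule ℤ ℂ := Submodule.span ℤ (Set.range Complex.basisOneI)

theorem mol_isFD : IsAddFundamentalDomain molLat.toAddSubgroup cell volume := by
  rw [mol_cell_eq]
  exact ZSpan.isAddFundamentalDomain Complex.basisOneI volume

theorem mol_per_lat {α : Type*} {g : ℂ → α} (hg : Per g) {v : ℂ} (hv : v ∈ molLat) :
    ∀ z, g (v + z) = g z := by
  induction hv using Submodule.span_induction with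
  | mem x hx =>
    obtain ⟨i, rfl⟩ := hx
    intro z
    fin_cases i
    · simpa [add_comm] using (hg z).1
    · simpa [add_comm] using (hg z).2
  | zero => intro z; simp
  | add x y _ _ hx hy => intro z; rw [add_assoc, hx, hy]
  | smul a x _ hx =>
    intro z
    have key : ∀ n : ℕ, ∀ z, g ((n : ℤ) • x + z) = g z := by
      intro n
      induction n with
      | zero => intro z; simp
      | succ n ih =>
        intro z
        rw [Nat.cast_succ, add_smul, one_smul, add_assoc, ih, hx]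
    rcases Int.eq_nat_or_neg a with ⟨n, rfl | rfl⟩
    · exact key n z
    · rw [← key n (-(n : ℤ) • x + z)]
      congr 1
      module

theorem mol_mem_one : (1 : ℂ) ∈ molLat :=
  Submodule.subset_span ⟨0, by simp⟩

theorem mol_mem_I : (I : ℂ) ∈ molLat :=
  Submodule.subset_span ⟨1, by simp⟩

theorem mol_per_int {α : Type*} {g : ℂ → α} (hg : Per g) (m n : ℤ) (z : ℂ) :
    g (z + ((m : ℂ) + n * I)) = g z := by
  have : (m : ℂ) + n * I = m • (1 : ℂ) + n • I := by simp
  rw [this, add_comm]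
  exact mol_per_lat hg (molLat.add_mem (molLat.smul_mem _ mol_mem_one)
    (molLat.smul_mem _ mol_mem_I)) z

theorem mol_setIntegral_cell_add {E : Type*} [NormedAddCommGroup E] [NormedSpace ℝ E] {g : ℂ → E}
    (hg : Per g) (w : ℂ) : ∫ z in cell, g (z + w) = ∫ z in cell, g z := by
  have h1 : ∫ z in cell, g (z + w) = ∫ z in (fun z => z + w) '' cell, g z := by
    have := (measurePreserving_add_right (volume : Measure ℂ) w).setIntegral_image_emb
      (MeasurableEquiv.addRight w).measurableEmbedding g cell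
    rw [this]
  rw [h1]
  have h2 : IsAddFundamentalDomain molLat.toAddSubgroup ((fun z => z + w) '' cell) volume := by
    have := mol_isFD.image_of_equiv (Equiv.addRight w)
      (measurePreserving_sub_right (volume : Measure ℂ) w).quasiMeasurePreserving
      (Equiv.refl _) (by
        intro g x
        simp [AddSubgroup.vadd_def, add_assoc])
    exact this
  have : Countable molLat.toAddSubgroup :=
    inferInstanceAs (Countable (Submodule.span ℤ (Set.range Complex.basisOneI)))
  exact h2.setIntegral_eq mol_isFD (f := g) (fun v x => by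
    have := mol_per_lat hg v.2 x
    simpa [AddSubgroup.vadd_def] using this)


theorem mol_integrableOn_add {E : Type*} [NormedAddCommGroup E] {g : ℂ → E} (hg : Per g) (hi : IntegrableOn g cell) (m n : ℤ) :
    IntegrableOn g ((fun z => z - ((m : ℂ) + n * I)) ⁻¹' cell) := by
  have h1 := (measurePreserving_sub_right (volume : Measure ℂ)
    ((m : ℂ) + n * I)).integrableOn_comp_preimage
    (MeasurableEquiv.subRight ((m : ℂ) + n * I)).measurableEmbedding (f := g) (s := cell)
  have h2 : g ∘ (fun z => z - ((m : ℂ) + n * I)) = g := by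
    funext z
    have := mol_per_int hg m n (z - ((m : ℂ) + n * I))
    simp only [Function.comp]
    rw [← this]
    congr 1
    ring
  rw [h2] at h1
  exact h1.2 hi

theorem mol_finite : IsFiniteMeasure (volume.restrict cell : Measure ℂ) := by
  constructor
  rw [Measure.restrict_apply_univ, mol_cell_eq]
  exact (ZSpan.fundamentalDomain_isBounded Complex.basisOneI).measure_lt_top

theorem mol_locInt {E : Type*} [NormedAddCommGroup E] {g : ℂ → E} (hg : Per g)
    (hi : IntegrableOn g cell) : LocallyIntegrable g volume := by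
  intro z
  have hcov : Metric.ball z 1 ⊆ ⋃ p ∈ (Finset.Icc (⌊z.re⌋ - 1) (⌊z.re⌋ + 1) ×ˢ
      Finset.Icc (⌊z.im⌋ - 1) (⌊z.im⌋ + 1)),
      ((fun w => w - ((p.1 : ℂ) + p.2 * I)) ⁻¹' cell) := by
    intro w hw
    have hw' : ‖w - z‖ < 1 := by simpa [dist_eq_norm] using hw
    have h1 : |w.re - z.re| < 1 := by
      have := Complex.abs_re_le_norm (w - z)
      simp only [Complex.sub_re] at this
      linarith
    have h2 : |w.im - z.im| < 1 := by
      have := Complex.abs_im_le_norm (w - z)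
      simp only [Complex.sub_im] at this
      linarith
    rw [abs_lt] at h1 h2
    simp only [mem_iUnion, Finset.mem_product, Finset.mem_Icc]
    refine ⟨(⌊w.re⌋, ⌊w.im⌋), ⟨⟨?_, ?_⟩, ?_, ?_⟩, ?_⟩
    · apply Int.le_floor.2
      push_cast
      have := Int.floor_le z.re
      linarith
    · rw [← Int.lt_add_one_iff]
      apply Int.floor_lt.2
      push_cast
      have := Int.lt_floor_add_one z.re
      linarith
    · apply Int.le_floor.2
      push_cast
      have := Int.floor_le z.im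
      linarith
    · rw [← Int.lt_add_one_iff]
      apply Int.floor_lt.2
      push_cast
      have := Int.lt_floor_add_one z.im
      linarith
    · have a1 := Int.floor_le w.re
      have a2 := Int.lt_floor_add_one w.re
      have a3 := Int.floor_le w.im
      have a4 := Int.lt_floor_add_one w.im
      simp only [cell, mem_preimage, Set.mem_ofPred_eq, mem_Ico]
      simp
      exact ⟨Int.fract_lt_one _, Int.fract_lt_one _⟩
  refine ⟨Metric.ball z 1, Metric.ball_mem_nhds _ one_pos, IntegrableOn.mono_set ?_ hcov⟩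
  rw [integrableOn_finset_iUnion]
  intro p _
  exact mol_integrableOn_add hg hi p.1 p.2

/-- periodic functions, square integrable on the cell, are locally integrable. -/
theorem locallyIntegrable_of_per {g : ℂ → ℂ} (hg : Per g)
    (hm : MemLp g 2 (volume.restrict cell)) : LocallyIntegrable g volume := by
  have hfin := mol_finite
  exact mol_locInt hg (hm.integrable (by norm_num))

theorem mol_smooth {ρ : ℕ → ℂ → ℝ} (hρ : Moll ρ) {g : ℂ → ℂ} (hg : Per g)
    (hm : MemLp g 2 (volume.restrict cell)) (n : ℕ) :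
    ContDiff ℝ ∞ (mol (ρ n) g) ∧ Per (mol (ρ n) g) := by
  constructor
  · rw [mol_eq_conv]
    exact (hρ.hcs n).contDiff_convolution_left _ (hρ.smooth n) (locallyIntegrable_of_per hg hm)
  · intro z
    constructor
    · unfold mol
      congr 1
      funext w
      rw [show z + 1 - w = z - w + 1 by ring, (hg _).1]
    · unfold mol
      congr 1
      funext w
      rw [show z + I - w = z - w + I by ring, (hg _).2]

theorem mol_deriv {ρ : ℕ → ℂ → ℝ} (hρ : Moll ρ) {u g : ℂ → ℂ} {e : ℂ}
    (hu : LocallyIntegrable u volume) (_hg : LocallyIntegrable g volume)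
    (hw : WeakDeriv e u g) (n : ℕ) (z : ℂ) :
    fderiv ℝ (mol (ρ n) u) z e = mol (ρ n) g z := by
  have hfd := (hρ.hcs n).hasFDerivAt_convolution_left (μ := volume)
    (ContinuousLinearMap.lsmul ℝ ℝ) ((hρ.smooth n).of_le (by norm_cast)) hu z
  rw [mol_eq_conv, hfd.fderiv]
  rw [convolution_def]
  have hex : ConvolutionExistsAt (fderiv ℝ (ρ n)) u z
      (ContinuousLinearMap.precompL ℂ (ContinuousLinearMap.lsmul ℝ ℝ)) volume :=
    ((hρ.hcs n).fderiv ℝ).convolutionExists_left _
      ((hρ.smooth n).continuous_fderiv (by simp)) hu z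
  rw [ContinuousLinearMap.integral_apply hex.integrable]
  simp only [ContinuousLinearMap.precompL_apply, ContinuousLinearMap.lsmul_apply]
  have h1 : ∫ t, (fderiv ℝ (ρ n) t e) • u (z - t) = ∫ t, (fderiv ℝ (ρ n) (z - t) e) • u t := by
    rw [← integral_sub_left_eq_self (fun t => (fderiv ℝ (ρ n) (z - t) e) • u t) volume z]
    simp
  rw [h1]
  have hφs : ContDiff ℝ ∞ (fun t : ℂ => ρ n (z - t)) :=
    (hρ.smooth n).comp (contDiff_const.sub contDiff_id)
  have hφc : HasCompactSupport (fun t : ℂ => ρ n (z - t)) :=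
    (hρ.hcs n).comp_homeomorph (Homeomorph.subLeft z)
  have h2 := hw (fun t => ρ n (z - t)) hφs hφc
  have h3 : ∀ t, fderiv ℝ (fun t : ℂ => ρ n (z - t)) t e = - fderiv ℝ (ρ n) (z - t) e := by
    intro t
    have hd : HasFDerivAt (ρ n) (fderiv ℝ (ρ n) (z - t)) (z - t) :=
      ((hρ.smooth n).differentiable (by simp) _).hasFDerivAt
    have hd2 : HasFDerivAt (fun t : ℂ => z - t) (-(ContinuousLinearMap.id ℝ ℂ)) t := by
      simpa using (hasFDerivAt_id t).const_sub z
    have := (hd.comp t hd2).fderiv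
    simp only [Function.comp_def] at this
    rw [this]
    simp
  simp only [h3, neg_smul, integral_neg, neg_inj] at h2
  rw [h2]
  unfold mol
  rw [← integral_sub_left_eq_self (fun t => ρ n (z - t) • g t) volume z]
  simp


/-! Young's inequality for the `L²` norm -/

theorem mol_ptwise {r : ℂ → ℝ} (hr0 : ∀ w, 0 ≤ r w) (hr : Integrable r) (hr1 : ∫ w, r w = 1)
    {k : ℂ → ℂ} (hk : AEStronglyMeasurable k volume) (z : ℂ) :
    ‖mol r k z‖ₑ ^ (2 : ℝ) ≤ ∫⁻ w, ENNReal.ofReal (r w) * ‖k (z - w)‖ₑ ^ (2 : ℝ) := by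
  have h1 : ‖mol r k z‖ₑ ≤ ∫⁻ w, ENNReal.ofReal (r w) * ‖k (z - w)‖ₑ := by
    unfold mol
    refine (enorm_integral_le_lintegral_enorm _).trans (le_of_eq ?_)
    congr 1
    funext w
    rw [enorm_smul, Real.enorm_of_nonneg (hr0 w)]
  have hm1 : AEMeasurable (fun w => ENNReal.ofReal (r w) ^ (1 / 2 : ℝ)) volume :=
    (hr.aestronglyMeasurable.aemeasurable.ennreal_ofReal).pow_const _
  have hkz : AEStronglyMeasurable (fun w => k (z - w)) volume :=
    hk.comp_measurePreserving (Measure.measurePreserving_sub_left volume z)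
  have hm2 : AEMeasurable (fun w => ENNReal.ofReal (r w) ^ (1 / 2 : ℝ) * ‖k (z - w)‖ₑ) volume :=
    hm1.mul hkz.enorm
  have h2 := ENNReal.lintegral_mul_le_Lp_mul_Lq (volume : Measure ℂ)
    (Real.HolderConjugate.two_two) hm1 hm2
  have h3 : ∀ w, (fun w => ENNReal.ofReal (r w) ^ (1 / 2 : ℝ)) w *
      (fun w => ENNReal.ofReal (r w) ^ (1 / 2 : ℝ) * ‖k (z - w)‖ₑ) w =
      ENNReal.ofReal (r w) * ‖k (z - w)‖ₑ := by
    intro w
    simp only
    rw [← mul_assoc, ← ENNReal.rpow_add_of_nonneg _ _ (by norm_num) (by norm_num)]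
    norm_num
  have h4 : ∫⁻ w, ((fun w => ENNReal.ofReal (r w) ^ (1 / 2 : ℝ)) *
      (fun w => ENNReal.ofReal (r w) ^ (1 / 2 : ℝ) * ‖k (z - w)‖ₑ)) w =
      ∫⁻ w, ENNReal.ofReal (r w) * ‖k (z - w)‖ₑ := by
    congr 1
    funext w
    exact h3 w
  rw [h4] at h2
  have h5 : ∫⁻ w, (ENNReal.ofReal (r w) ^ (1 / 2 : ℝ)) ^ (2 : ℝ) = 1 := by
    have : ∀ w, (ENNReal.ofReal (r w) ^ (1 / 2 : ℝ)) ^ (2 : ℝ) = ENNReal.ofReal (r w) := by
      intro w
      rw [← ENNReal.rpow_mul]
      norm_num
    simp only [this]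
    rw [← ofReal_integral_eq_lintegral_ofReal hr (Eventually.of_forall hr0), hr1]
    simp
  rw [h5] at h2
  simp only [ENNReal.one_rpow, one_mul] at h2
  have h6 : ∀ w, (ENNReal.ofReal (r w) ^ (1 / 2 : ℝ) * ‖k (z - w)‖ₑ) ^ (2 : ℝ) =
      ENNReal.ofReal (r w) * ‖k (z - w)‖ₑ ^ (2 : ℝ) := by
    intro w
    rw [ENNReal.mul_rpow_of_nonneg _ _ (by norm_num), ← ENNReal.rpow_mul]
    norm_num
  simp only [h6] at h2
  calc ‖mol r k z‖ₑ ^ (2 : ℝ) ≤ (∫⁻ w, ENNReal.ofReal (r w) * ‖k (z - w)‖ₑ) ^ (2 : ℝ) :=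
        ENNReal.rpow_le_rpow h1 (by norm_num)
    _ ≤ ((∫⁻ w, ENNReal.ofReal (r w) * ‖k (z - w)‖ₑ ^ (2 : ℝ)) ^ (1 / 2 : ℝ)) ^ (2 : ℝ) :=
        ENNReal.rpow_le_rpow h2 (by norm_num)
    _ = _ := by
        rw [← ENNReal.rpow_mul]
        norm_num

theorem mol_young {r : ℂ → ℝ} (hr0 : ∀ w, 0 ≤ r w) (hr : Integrable r) (hr1 : ∫ w, r w = 1)
    {k : ℂ → ℂ} (hk : AEStronglyMeasurable k volume) :
    ∫⁻ z, ‖mol r k z‖ₑ ^ (2 : ℝ) ≤ ∫⁻ z, ‖k z‖ₑ ^ (2 : ℝ) := by
  calc ∫⁻ z, ‖mol r k z‖ₑ ^ (2 : ℝ)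
      ≤ ∫⁻ z, ∫⁻ w, ENNReal.ofReal (r w) * ‖k (z - w)‖ₑ ^ (2 : ℝ) :=
        lintegral_mono fun z => mol_ptwise hr0 hr hr1 hk z
    _ = ∫⁻ w, ∫⁻ z, ENNReal.ofReal (r w) * ‖k (z - w)‖ₑ ^ (2 : ℝ) := by
        apply lintegral_lintegral_swap
        have h1 : AEMeasurable (fun p : ℂ × ℂ => ENNReal.ofReal (r p.2)) (volume.prod volume) :=
          (hr.aestronglyMeasurable.aemeasurable.ennreal_ofReal).comp_snd
        have h2 : AEStronglyMeasurable (fun p : ℂ × ℂ => k (p.1 - p.2)) (volume.prod volume) :=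
          hk.comp_quasiMeasurePreserving
            (quasiMeasurePreserving_sub_of_right_invariant volume volume)
        exact h1.mul (h2.enorm.pow_const _)
    _ = ∫⁻ w, ENNReal.ofReal (r w) * ∫⁻ z, ‖k z‖ₑ ^ (2 : ℝ) := by
        congr 1
        funext w
        rw [lintegral_const_mul'' _ ?_]
        · rw [lintegral_sub_right_eq_self (fun z => ‖k z‖ₑ ^ (2 : ℝ)) w]
        · exact ((hk.comp_measurePreserving (measurePreserving_sub_right volume w)).enorm).pow_const _
    _ = ∫⁻ z, ‖k z‖ₑ ^ (2 : ℝ) := by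
        rw [lintegral_mul_const'' _ (hr.aestronglyMeasurable.aemeasurable.ennreal_ofReal),
          ← ofReal_integral_eq_lintegral_ofReal hr (Eventually.of_forall hr0), hr1]
        simp

theorem mol_eLpNorm_le {r : ℂ → ℝ} (hr0 : ∀ w, 0 ≤ r w) (hr : Integrable r)
    (hr1 : ∫ w, r w = 1) {k : ℂ → ℂ} (hk : AEStronglyMeasurable k volume) :
    eLpNorm (mol r k) 2 volume ≤ eLpNorm k 2 volume := by
  rw [eLpNorm_eq_lintegral_rpow_enorm_toReal (by norm_num) (by norm_num),
    eLpNorm_eq_lintegral_rpow_enorm_toReal (by norm_num) (by norm_num)]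
  apply ENNReal.rpow_le_rpow _ (by norm_num)
  simpa using mol_young hr0 hr hr1 hk


theorem mol_memLp_ball {g : ℂ → ℂ} (hg : Per g) (hm : MemLp g 2 (volume.restrict cell)) (R : ℝ) :
    MemLp ((Metric.closedBall (0 : ℂ) R).indicator g) 2 volume := by
  have hm' : AEStronglyMeasurable g volume :=
    (locallyIntegrable_of_per hg hm).aestronglyMeasurable
  rw [memLp_indicator_iff_restrict Metric.isClosed_closedBall.measurableSet]
  rw [memLp_two_iff_integrable_sq_norm hm'.restrict]
  have h1 : IntegrableOn (fun z => ‖g z‖ ^ 2) cell := by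
    exact (memLp_two_iff_integrable_sq_norm hm.aestronglyMeasurable).1 hm
  have h2 : Per (fun z => ‖g z‖ ^ 2) := fun z => by
    simp only [(hg z).1, (hg z).2, and_self]
  exact (mol_locInt h2 h1).integrableOn_isCompact (isCompact_closedBall _ _)

theorem mol_sub_unif {ρ : ℕ → ℂ → ℝ} (hρ : Moll ρ) {h : ℂ → ℂ} (hc : Continuous h)
    (hs : HasCompactSupport h) {δ : ℝ} (hδ : 0 < δ) :
    ∀ᶠ n in atTop, ∀ z, ‖h z - mol (ρ n) h z‖ ≤ δ := by
  have huc := hc.uniformContinuous_of_tendsto_cocompact (x := (0 : ℂ)) (by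
    exact (hs.is_zero_at_infty))
  rw [Metric.uniformContinuous_iff] at huc
  obtain ⟨η, hη, hη'⟩ := huc δ hδ
  have ht : Tendsto (fun n : ℕ => 1 / ((n : ℝ) + 1)) atTop (𝓝 0) :=
    tendsto_one_div_add_atTop_nhds_zero_nat
  filter_upwards [ht.eventually_lt_const hη] with n hn z
  have := dist_convolution_le (μ := volume) (f := ρ n) (g := h) (x₀ := z) (R := η) (ε := δ)
    (z₀ := h z) hδ.le (by
      intro w hw
      have := hρ.supp n (subset_tsupport _ hw)
      rw [Metric.mem_closedBall] at this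
      exact Metric.mem_ball.2 (this.trans_lt hn)) (hρ.nonneg n) (hρ.int_one n)
    hc.aestronglyMeasurable (by
      intro x hx
      exact (hη' (Metric.mem_ball.1 hx)).le)
  rw [mol_eq_conv, ← dist_eq_norm, dist_comm]
  exact this

theorem mol_zero_out {ρ : ℕ → ℂ → ℝ} (hρ : Moll ρ) {h : ℂ → ℂ} {R : ℝ}
    (hs : ∀ z, z ∉ Metric.closedBall (0 : ℂ) R → h z = 0) (n : ℕ) {z : ℂ}
    (hz : z ∉ Metric.closedBall (0 : ℂ) (R + 1)) : mol (ρ n) h z = 0 := by
  unfold mol
  rw [← integral_zero ℂ ℂ (μ := volume)]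
  congr 1
  funext w
  by_cases hw : w ∈ tsupport (ρ n)
  · have h1 := hρ.supp n hw
    rw [hs, smul_zero]
    intro h2
    apply hz
    simp only [Metric.mem_closedBall, dist_zero_right] at h1 h2 ⊢
    have h3 : 1 / ((n : ℝ) + 1) ≤ 1 := by
      rw [div_le_one (by positivity)]
      have : (0 : ℝ) ≤ n := by positivity
      linarith
    calc ‖z‖ = ‖(z - w) + w‖ := by ring_nf
      _ ≤ ‖z - w‖ + ‖w‖ := norm_add_le _ _
      _ ≤ R + 1 := by linarith
  · rw [image_eq_zero_of_notMem_tsupport hw, zero_smul]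

theorem mol_eLpNorm_cont {ρ : ℕ → ℂ → ℝ} (hρ : Moll ρ) {h : ℂ → ℂ} (hc : Continuous h)
    (hs : HasCompactSupport h) :
    Tendsto (fun n => eLpNorm (fun z => h z - mol (ρ n) h z) 2 volume) atTop (𝓝 0) := by
  obtain ⟨R, hR⟩ := (Metric.isBounded_iff_subset_closedBall (0 : ℂ)).1 hs.isBounded
  have hz : ∀ z, z ∉ Metric.closedBall (0 : ℂ) R → h z = 0 := fun z hz =>
    image_eq_zero_of_notMem_tsupport (fun h' => hz (hR h'))
  have hvol : volume (Metric.closedBall (0 : ℂ) (R + 1)) < ⊤ := measure_closedBall_lt_top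
  set V : ENNReal := volume (Metric.closedBall (0 : ℂ) (R + 1)) with hV
  have hbd : ∀ (δ : ℝ), 0 < δ → ∀ᶠ n in atTop,
      eLpNorm (fun z => h z - mol (ρ n) h z) 2 volume ≤ V ^ (1 / 2 : ℝ) * ENNReal.ofReal δ := by
    intro δ hδ
    filter_upwards [mol_sub_unif hρ hc hs hδ] with n hn
    have h1 : eLpNorm (fun z => h z - mol (ρ n) h z) 2 volume =
        eLpNorm (fun z => h z - mol (ρ n) h z) 2
          (volume.restrict (Metric.closedBall (0 : ℂ) (R + 1))) := by
      rw [eLpNorm_restrict_eq_of_support_subset]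
      intro z hz'
      by_contra hcon
      apply hz'
      simp only
      rw [mol_zero_out hρ hz n hcon, hz, sub_zero]
      intro h2
      apply hcon
      simp only [Metric.mem_closedBall, dist_zero_right] at h2 ⊢
      linarith
    rw [h1]
    refine (eLpNorm_le_of_ae_bound (C := δ) (Eventually.of_forall hn)).trans ?_
    rw [Measure.restrict_apply_univ, ← hV]
    norm_num
  rw [ENNReal.tendsto_nhds_zero]
  intro ε hε
  have hVt : V ^ (1 / 2 : ℝ) ≠ ⊤ := ENNReal.rpow_ne_top_of_nonneg (by norm_num) hvol.ne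
  obtain ⟨δ, hδ, hδ'⟩ : ∃ δ : ℝ, 0 < δ ∧ V ^ (1 / 2 : ℝ) * ENNReal.ofReal δ ≤ ε := by
    have ht : Tendsto (fun δ : ℝ => V ^ (1 / 2 : ℝ) * ENNReal.ofReal δ) (𝓝[>] 0) (𝓝 0) := by
      have : Tendsto (fun δ : ℝ => V ^ (1 / 2 : ℝ) * ENNReal.ofReal δ) (𝓝[>] 0)
          (𝓝 (V ^ (1 / 2 : ℝ) * ENNReal.ofReal 0)) := by
        apply ENNReal.Tendsto.const_mul _ (Or.inr hVt)
        exact (ENNReal.tendsto_ofReal tendsto_id).mono_left nhdsWithin_le_nhds
      simpa using this
    have := (ENNReal.tendsto_nhds_zero.1 ht ε hε).and self_mem_nhdsWithin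
    obtain ⟨δ, h1, h2⟩ := this.exists
    exact ⟨δ, h2, h1⟩
  filter_upwards [hbd δ hδ] with n hn
  exact hn.trans hδ'

theorem mol_exists {ρ : ℕ → ℂ → ℝ} (hρ : Moll ρ) {g : ℂ → ℂ} (hg : LocallyIntegrable g volume)
    (n : ℕ) (z : ℂ) : Integrable (fun w => ρ n w • g (z - w)) := by
  have := (hρ.hcs n).convolutionExists_left (ContinuousLinearMap.lsmul ℝ ℝ)
    (hρ.smooth n).continuous hg z
  exact this

theorem mol_eLpNorm_tendsto {ρ : ℕ → ℂ → ℝ} (hρ : Moll ρ) {G : ℂ → ℂ} (hG : MemLp G 2 volume) :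
    Tendsto (fun n => eLpNorm (fun z => G z - mol (ρ n) G z) 2 volume) atTop (𝓝 0) := by
  rw [ENNReal.tendsto_nhds_zero]
  intro ε hε
  have hε3 : ε / 3 ≠ 0 := (ENNReal.div_pos hε.ne' (by norm_num)).ne'
  obtain ⟨h, hs, hle, hc, hmem⟩ := hG.exists_hasCompactSupport_eLpNorm_sub_le (by norm_num) hε3
  filter_upwards [ENNReal.tendsto_nhds_zero.1 (mol_eLpNorm_cont hρ hc hs) (ε / 3)
    (pos_iff_ne_zero.2 hε3)] with n hn
  have hGl : LocallyIntegrable G volume := hG.locallyIntegrable (by norm_num)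
  have hhl : LocallyIntegrable h volume := hmem.locallyIntegrable (by norm_num)
  have e1 : (fun z => G z - mol (ρ n) G z) = (fun z => G z - h z) + (fun z => h z - mol (ρ n) h z)
      + mol (ρ n) (fun z => h z - G z) := by
    funext z
    simp only [Pi.add_apply]
    have : mol (ρ n) (fun z => h z - G z) z = mol (ρ n) h z - mol (ρ n) G z := by
      unfold mol
      rw [← integral_sub (mol_exists hρ hhl n z) (mol_exists hρ hGl n z)]
      congr 1
      funext w
      rw [smul_sub]
    rw [this]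
    ring
  have m1 : AEStronglyMeasurable (fun z => G z - h z) volume :=
    hG.aestronglyMeasurable.sub hmem.aestronglyMeasurable
  have m3 : AEStronglyMeasurable (fun z => h z - G z) volume :=
    hmem.aestronglyMeasurable.sub hG.aestronglyMeasurable
  have c1 : ∀ {k : ℂ → ℂ}, LocallyIntegrable k volume → Continuous (mol (ρ n) k) := by
    intro k hk
    rw [mol_eq_conv]
    exact ((hρ.hcs n).contDiff_convolution_left _ (hρ.smooth n) hk).continuous
  have m2 : AEStronglyMeasurable (fun z => h z - mol (ρ n) h z) volume :=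
    (hc.sub (c1 hhl)).aestronglyMeasurable
  have m4 : AEStronglyMeasurable (mol (ρ n) (fun z => h z - G z)) volume :=
    (c1 (hhl.sub hGl)).aestronglyMeasurable
  rw [e1]
  calc _ ≤ eLpNorm ((fun z => G z - h z) + (fun z => h z - mol (ρ n) h z)) 2 volume +
        eLpNorm (mol (ρ n) (fun z => h z - G z)) 2 volume :=
        eLpNorm_add_le (m1.add m2) m4 (by norm_num)
    _ ≤ (eLpNorm (fun z => G z - h z) 2 volume + eLpNorm (fun z => h z - mol (ρ n) h z) 2 volume) +
        eLpNorm (fun z => h z - G z) 2 volume := by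
        apply add_le_add
        · exact eLpNorm_add_le m1 m2 (by norm_num)
        · exact mol_eLpNorm_le (hρ.nonneg n) (hρ.integrable n) (hρ.int_one n) m3
    _ ≤ (ε / 3 + ε / 3) + ε / 3 := by
        apply add_le_add (add_le_add hle hn)
        have : (fun z => h z - G z) = -(fun z => G z - h z) := by
          funext z; simp
        rw [this, eLpNorm_neg]
        exact hle
    _ = ε := ENNReal.add_thirds ε

theorem mol_tendsto {ρ : ℕ → ℂ → ℝ} (hρ : Moll ρ) {g : ℂ → ℂ} (hg : Per g)
    (hm : MemLp g 2 (volume.restrict cell)) :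
    Tendsto (fun n => ∫ z in cell, ‖g z - mol (ρ n) g z‖ ^ 2) atTop (𝓝 0) := by
  set G : ℂ → ℂ := (Metric.closedBall (0 : ℂ) 5).indicator g with hGdef
  have hG : MemLp G 2 volume := mol_memLp_ball hg hm 5
  have ht := mol_eLpNorm_tendsto hρ hG
  have hcell : ∀ z ∈ cell, ‖z‖ ≤ 2 := by
    intro z hz
    have h1 := Complex.norm_le_abs_re_add_abs_im z
    obtain ⟨⟨h2, h3⟩, h4, h5⟩ := hz
    rw [abs_of_nonneg h2, abs_of_nonneg h4] at h1
    linarith
  have heq : ∀ n, ∀ z ∈ cell, g z - mol (ρ n) g z = G z - mol (ρ n) G z := by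
    intro n z hz
    have h1 : G z = g z := by
      rw [hGdef, indicator_of_mem]
      simp only [Metric.mem_closedBall, dist_zero_right]
      linarith [hcell z hz]
    have h2 : mol (ρ n) G z = mol (ρ n) g z := by
      unfold mol
      congr 1
      funext w
      by_cases hw : w ∈ tsupport (ρ n)
      · have h3 := hρ.supp n hw
        rw [hGdef, indicator_of_mem]
        simp only [Metric.mem_closedBall, dist_zero_right] at h3 ⊢
        have h4 : 1 / ((n : ℝ) + 1) ≤ 1 := by
          rw [div_le_one (by positivity)]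
          have : (0 : ℝ) ≤ n := by positivity
          linarith
        calc ‖z - w‖ ≤ ‖z‖ + ‖w‖ := norm_sub_le _ _
          _ ≤ 5 := by linarith [hcell z hz]
      · rw [image_eq_zero_of_notMem_tsupport hw, zero_smul, zero_smul]
    rw [h1, h2]
  have hlim : Tendsto (fun n => ∫⁻ z in cell, ‖g z - mol (ρ n) g z‖ₑ ^ (2 : ℝ)) atTop (𝓝 0) := by
    have h1 : ∀ n, ∫⁻ z in cell, ‖g z - mol (ρ n) g z‖ₑ ^ (2 : ℝ) ≤
        (eLpNorm (fun z => G z - mol (ρ n) G z) 2 volume) ^ (2 : ℝ) := by
      intro n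
      rw [eLpNorm_eq_lintegral_rpow_enorm_toReal (by norm_num) (by norm_num),
        ← ENNReal.rpow_mul]
      have : (1 / (2 : ENNReal).toReal) * 2 = 1 := by norm_num
      rw [this, ENNReal.rpow_one]
      calc ∫⁻ z in cell, ‖g z - mol (ρ n) g z‖ₑ ^ (2 : ℝ)
          = ∫⁻ z in cell, ‖G z - mol (ρ n) G z‖ₑ ^ (2 : ℝ) := by
            apply setLIntegral_congr_fun mol_measurable_cell
            intro z hz
            simp only
            rw [heq n z hz]
        _ ≤ ∫⁻ z, ‖G z - mol (ρ n) G z‖ₑ ^ (2 : ℝ) := setLIntegral_le_lintegral _ _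
        _ = _ := by simp
    refine tendsto_of_tendsto_of_tendsto_of_le_of_le tendsto_const_nhds ?_
      (fun n => zero_le) h1
    have := ht.ennrpow_const (2 : ℝ)
    simpa using this
  have h2 : ∀ n, ∫ z in cell, ‖g z - mol (ρ n) g z‖ ^ 2 =
      (∫⁻ z in cell, ‖g z - mol (ρ n) g z‖ₑ ^ (2 : ℝ)).toReal := by
    intro n
    rw [integral_eq_lintegral_of_nonneg_ae (Eventually.of_forall fun z => by positivity)]
    · congr 2
      funext z
      rw [ENNReal.ofReal_pow (norm_nonneg _), ofReal_norm]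
      norm_num
    · exact ((hm.aestronglyMeasurable.sub
        (mol_smooth hρ hg hm n).1.continuous.aestronglyMeasurable).norm.pow 2)
  simp only [h2]
  have := (ENNReal.tendsto_toReal (ENNReal.zero_ne_top)).comp hlim
  simpa [Function.comp_def] using this


theorem mol_memLp_shift {g : ℂ → ℂ} (hg : Per g) (hm : MemLp g 2 (volume.restrict cell)) (w : ℂ) :
    MemLp (fun z => g (z - w)) 2 (volume.restrict cell) := by
  have h1 := mol_memLp_ball hg hm (2 + ‖w‖)
  have h2 := h1.comp_measurePreserving (measurePreserving_sub_right volume w)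
  refine (memLp_congr_ae ?_).1 (h2.restrict cell)
  filter_upwards [ae_restrict_mem mol_measurable_cell] with z hz
  simp only [Function.comp]
  rw [indicator_of_mem]
  simp only [Metric.mem_closedBall, dist_zero_right]
  have h1 := Complex.norm_le_abs_re_add_abs_im z
  obtain ⟨⟨h2, h3⟩, h4, h5⟩ := hz
  rw [abs_of_nonneg h2, abs_of_nonneg h4] at h1
  calc ‖z - w‖ ≤ ‖z‖ + ‖w‖ := norm_sub_le _ _
    _ ≤ 2 + ‖w‖ := by linarith

theorem mol_fubini {ρ : ℕ → ℂ → ℝ} (hρ : Moll ρ) {g k : ℂ → ℂ} (hg : Per g)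
    (hm : MemLp g 2 (volume.restrict cell)) (_hk : Per k)
    (hkm : MemLp k 2 (volume.restrict cell)) (n : ℕ) :
    Integrable (fun p : ℂ × ℂ => ρ n p.2 • (g (p.1 - p.2) * k p.1))
      ((volume.restrict cell).prod volume) := by
  have hgm : AEStronglyMeasurable g volume :=
    (locallyIntegrable_of_per hg hm).aestronglyMeasurable
  have ms : AEStronglyMeasurable (fun p : ℂ × ℂ => ρ n p.2 • (g (p.1 - p.2) * k p.1))
      ((volume.restrict cell).prod volume) := by
    have a1 : AEStronglyMeasurable (fun p : ℂ × ℂ => g (p.1 - p.2)) (volume.prod volume) :=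
      hgm.comp_quasiMeasurePreserving
        (quasiMeasurePreserving_sub_of_right_invariant volume volume)
    have a2 : AEStronglyMeasurable (fun p : ℂ × ℂ => g (p.1 - p.2))
        ((volume.restrict cell).prod volume) := by
      have : (volume.restrict cell).prod (volume : Measure ℂ) =
          (volume.prod volume).restrict (cell ×ˢ univ) := by
        rw [← Measure.prod_restrict, Measure.restrict_univ]
      rw [this]
      exact a1.restrict
    have a3 : AEStronglyMeasurable (fun p : ℂ × ℂ => k p.1)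
        ((volume.restrict cell).prod volume) := hkm.aestronglyMeasurable.comp_fst
    have a4 : AEStronglyMeasurable (fun p : ℂ × ℂ => ρ n p.2)
        ((volume.restrict cell).prod volume) :=
      ((hρ.smooth n).continuous.comp continuous_snd).aestronglyMeasurable
    exact a4.smul (a2.mul a3)
  rw [integrable_prod_iff' ms]
  have hsq : ∀ {f : ℂ → ℂ}, MemLp f 2 (volume.restrict cell) →
      Integrable (fun z => ‖f z‖ ^ 2) (volume.restrict cell) := fun {f} hf =>
    (memLp_two_iff_integrable_sq_norm hf.aestronglyMeasurable).1 hf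
  have hint : ∀ w, Integrable (fun z => g (z - w) * k z) (volume.restrict cell) := fun w =>
    (mol_memLp_shift hg hm w).integrable_mul hkm
  refine ⟨Eventually.of_forall fun w => (hint w).smul (ρ n w), ?_⟩
  set C : ℝ := ((∫ z in cell, ‖g z‖ ^ 2) + ∫ z in cell, ‖k z‖ ^ 2) / 2 with hC
  refine Integrable.mono' ((hρ.integrable n).mul_const C)
    (ms.norm.prod_swap.integral_prod_right') (Eventually.of_forall fun w => ?_)
  rw [Real.norm_of_nonneg (integral_nonneg fun z => norm_nonneg _)]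
  have e1 : ∀ z, ‖ρ n w • (g (z - w) * k z)‖ = ρ n w * ‖g (z - w) * k z‖ := fun z => by
    rw [norm_smul, Real.norm_of_nonneg (hρ.nonneg n w)]
  simp only [e1]
  rw [integral_const_mul]
  apply mul_le_mul_of_nonneg_left _ (hρ.nonneg n w)
  have e2 : ∫ z in cell, ‖g (z - w)‖ ^ 2 = ∫ z in cell, ‖g z‖ ^ 2 := by
    have h2 : Per (fun z => ‖g z‖ ^ 2) := fun z => by
      simp only [(hg z).1, (hg z).2, and_self]
    have := mol_setIntegral_cell_add h2 (-w)
    simpa [sub_eq_add_neg] using this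
  rw [hC, ← e2, ← integral_add (hsq (mol_memLp_shift hg hm w)) (hsq hkm), ← integral_div]
  apply integral_mono (hint w).norm
    (((hsq (mol_memLp_shift hg hm w)).add (hsq hkm)).div_const 2)
  intro z
  simp only [norm_mul, Pi.add_apply]
  nlinarith [sq_nonneg (‖g (z - w)‖ - ‖k z‖)]

/-- moving the mollifier to the other factor (periodic functions). -/
theorem integral_mol_mul {ρ : ℕ → ℂ → ℝ} (hρ : Moll ρ) {g k : ℂ → ℂ} (hg : Per g)
    (hm : MemLp g 2 (volume.restrict cell)) (hk : Per k)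
    (hkm : MemLp k 2 (volume.restrict cell)) (n : ℕ) :
    ∫ z in cell, mol (ρ n) g z * k z = ∫ z in cell, g z * mol (ρ n) k z := by
  have key : ∀ {g k : ℂ → ℂ}, Per g → MemLp g 2 (volume.restrict cell) → Per k →
      MemLp k 2 (volume.restrict cell) →
      ∫ z in cell, mol (ρ n) g z * k z = ∫ w, ρ n w • ∫ z in cell, g (z - w) * k z := by
    intro g k hg hm hk hkm
    have h1 : ∀ z, mol (ρ n) g z * k z = ∫ w, ρ n w • (g (z - w) * k z) := by
      intro z
      unfold mol
      rw [← integral_mul_const]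
      congr 1
      funext w
      rw [smul_mul_assoc]
    simp only [h1]
    rw [integral_integral_swap (mol_fubini hρ hg hm hk hkm n)]
    congr 1
    funext w
    rw [integral_smul]
  have hr : ∫ z in cell, g z * mol (ρ n) k z = ∫ z in cell, mol (ρ n) k z * g z := by
    congr 1
    funext z
    rw [mul_comm]
  rw [hr, key hg hm hk hkm, key hk hkm hg hm,
    ← integral_neg_eq_self (fun w => ρ n w • ∫ z in cell, g (z - w) * k z)]
  congr 1
  funext w
  rw [hρ.even]
  congr 1
  have hp : Per (fun z => g (z - -w) * k z) := by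
    intro z
    simp only
    rw [show z + 1 - -w = z - -w + 1 by ring, show z + I - -w = z - -w + I by ring,
      (hg _).1, (hg _).2, (hk _).1, (hk _).2]
    exact ⟨rfl, rfl⟩
  rw [← mol_setIntegral_cell_add hp (-w)]
  congr 1
  funext z
  rw [mul_comm]
  congr 2
  ring

end EBC
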