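import Pool.Agent.Work.MP_ebc928_an.BaseDefs

open MeasureTheory Complex Set
open scoped ContDiff ComplexConjugate

noncomputable section
namespace EBC

/-- similarities with ratio `ρ` -/
def SimR (ρ : ℝ) (τ : ℂ → ℂ) : Prop :=
  ∃ a b : ℂ, a ≠ 0 ∧ ‖a‖ = ρ ∧ ((∀ z, τ z = a * z + b) ∨ (∀ z, τ z = a * conj z + b))

theorem SimR.isSim {ρ : ℝ} {τ : ℂ → ℂ} (h : SimR ρ τ) : IsSim τ := by
  obtain ⟨a, b, ha, -, h⟩ := h
  exact ⟨a, b, ha, h⟩

theorem IsSim.exists_simR {τ : ℂ → ℂ} (h : IsSim τ) : ∃ ρ > 0, SimR ρ τ := by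
  obtain ⟨a, b, ha, h⟩ := h
  exact ⟨‖a‖, norm_pos_iff.2 ha, a, b, ha, rfl, h⟩

theorem SimR.pos {ρ : ℝ} {τ : ℂ → ℂ} (h : SimR ρ τ) : 0 < ρ := by
  obtain ⟨a, b, ha, rfl, -⟩ := h
  exact norm_pos_iff.2 ha

theorem SimR.comp {ρ ρ' : ℝ} {τ τ' : ℂ → ℂ} (h : SimR ρ τ) (h' : SimR ρ' τ') :
    SimR (ρ * ρ') (τ ∘ τ') := by
  obtain ⟨a, b, ha, rfl, h⟩ := h
  obtain ⟨a', b', ha', rfl, h'⟩ := h'
  rcases h with h | h <;> rcases h' with h' | h'
  · refine ⟨a * a', a * b' + b, mul_ne_zero ha ha', norm_mul _ _, Or.inl fun z => ?_⟩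
    simp only [Function.comp, h, h']; ring
  · refine ⟨a * a', a * b' + b, mul_ne_zero ha ha', norm_mul _ _, Or.inr fun z => ?_⟩
    simp only [Function.comp, h, h']; ring
  · refine ⟨a * conj a', a * conj b' + b, mul_ne_zero ha ((map_ne_zero _).2 ha'), ?_,
      Or.inr fun z => ?_⟩
    · rw [norm_mul, RCLike.norm_conj]
    · simp only [Function.comp, h, h', map_add, map_mul]; ring
  · refine ⟨a * conj a', a * conj b' + b, mul_ne_zero ha ((map_ne_zero _).2 ha'), ?_,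
      Or.inl fun z => ?_⟩
    · rw [norm_mul, RCLike.norm_conj]
    · simp only [Function.comp, h, h', map_add, map_mul, Complex.conj_conj]; ring

/-- distances are multiplied by `ρ` -/
theorem SimR.dist_eq {ρ : ℝ} {τ : ℂ → ℂ} (h : SimR ρ τ) (z w : ℂ) :
    dist (τ z) (τ w) = ρ * dist z w := by
  obtain ⟨a, b, ha, rfl, h⟩ := h
  rcases h with h | h
  · rw [h, h, dist_eq_norm, dist_eq_norm, show a * z + b - (a * w + b) = a * (z - w) by ring,
      norm_mul]
  · rw [h, h, dist_eq_norm, dist_eq_norm,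
      show a * conj z + b - (a * conj w + b) = a * conj (z - w) by rw [map_sub]; ring,
      norm_mul, RCLike.norm_conj]

theorem SimR.injective {ρ : ℝ} {τ : ℂ → ℂ} (h : SimR ρ τ) : Function.Injective τ := by
  intro z w hzw
  have h1 := h.dist_eq z w
  rw [hzw, dist_self] at h1
  have h2 := h.pos
  have h3 : dist z w = 0 := by
    rcases mul_eq_zero.1 h1.symm with h4 | h4
    · exact absurd h4 h2.ne'
    · exact h4
  exact dist_eq_zero.1 h3

theorem SimR.continuous {ρ : ℝ} {τ : ℂ → ℂ} (h : SimR ρ τ) : Continuous τ := by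
  obtain ⟨a, b, ha, rfl, h⟩ := h
  rcases h with h | h
  · rw [show τ = fun z => a * z + b from funext h]; fun_prop
  · rw [show τ = fun z => a * conj z + b from funext h]
    exact (continuous_const.mul Complex.continuous_conj).add continuous_const

/-- the inverse similarity -/
theorem SimR.exists_inv {ρ : ℝ} {τ : ℂ → ℂ} (h : SimR ρ τ) :
    ∃ σ : ℂ → ℂ, SimR ρ⁻¹ σ ∧ (∀ z, σ (τ z) = z) ∧ (∀ z, τ (σ z) = z) := by
  obtain ⟨a, b, ha, rfl, h⟩ := h
  have hca : conj a ≠ 0 := (map_ne_zero _).2 ha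
  rcases h with h | h
  · refine ⟨fun z => a⁻¹ * z + (-(a⁻¹ * b)), ⟨a⁻¹, -(a⁻¹ * b), inv_ne_zero ha, norm_inv _,
      Or.inl fun z => rfl⟩, fun z => ?_, fun z => ?_⟩
    · simp only [h]; field_simp; ring
    · simp only [h]; field_simp; ring
  · refine ⟨fun z => (conj a)⁻¹ * conj z + (-((conj a)⁻¹ * conj b)),
      ⟨(conj a)⁻¹, -((conj a)⁻¹ * conj b), inv_ne_zero hca, ?_,
      Or.inr fun z => rfl⟩, fun z => ?_, fun z => ?_⟩
    · rw [norm_inv, RCLike.norm_conj]
    · simp only [h, map_add, map_mul, Complex.conj_conj]; field_simp; ring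
    · simp only [h, map_add, map_mul, map_neg, map_inv₀, Complex.conj_conj]; field_simp; ring

/-- a similarity as a measurable equivalence -/
def SimR.homeo {ρ : ℝ} {τ : ℂ → ℂ} (h : SimR ρ τ) : ℂ ≃ₜ ℂ where
  toFun := τ
  invFun := h.exists_inv.choose
  left_inv := h.exists_inv.choose_spec.2.1
  right_inv := h.exists_inv.choose_spec.2.2
  continuous_toFun := h.continuous
  continuous_invFun := h.exists_inv.choose_spec.1.continuous

theorem SimR.coe_homeo {ρ : ℝ} {τ : ℂ → ℂ} (h : SimR ρ τ) : ⇑h.homeo = τ := rfl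

theorem SimR.measurableSet_image {ρ : ℝ} {τ : ℂ → ℂ} (h : SimR ρ τ) {V : Set ℂ}
    (hV : MeasurableSet V) : MeasurableSet (τ '' V) := by
  rw [← h.coe_homeo]
  exact h.homeo.measurableEmbedding.measurableSet_image.2 hV

theorem SimR.volume_image {ρ : ℝ} {τ : ℂ → ℂ} (h : SimR ρ τ) (V : Set ℂ) :
    volume (τ '' V) = ENNReal.ofReal (ρ ^ 2) * volume V := by
  obtain ⟨a, b, ha, rfl, h⟩ := h
  have key : ∀ U : Set ℂ, volume ((fun z => a * z + b) '' U) =
      ENNReal.ofReal (‖a‖ ^ 2) * volume U := by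
    intro U
    have e1 : (fun z => a * z + b) '' U = (fun w => w + b) '' ((fun z => a * z) '' U) := by
      rw [image_image]
    have e2 : volume ((fun z : ℂ => a * z) '' U) = ENNReal.ofReal (‖a‖ ^ 2) * volume U := by
      have h3 := Measure.addHaar_image_linearMap (volume : Measure ℂ)
        ((LinearMap.mulLeft ℝ a : ℂ →ₗ[ℝ] ℂ)) U
      have h4 : LinearMap.det (LinearMap.mulLeft ℝ a : ℂ →ₗ[ℝ] ℂ) = ‖a‖ ^ 2 := by
        have h5 : LinearMap.det (LinearMap.mulLeft ℝ a : ℂ →ₗ[ℝ] ℂ) = Algebra.norm ℝ a := rfl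
        rw [h5, Algebra.norm_complex_apply, Complex.normSq_eq_norm_sq]
      rw [h4, abs_of_nonneg (by positivity)] at h3
      exact h3
    rw [e1, image_add_right, measure_preimage_add_right, e2]
  rcases h with h | h
  · rw [show τ = fun z => a * z + b from funext h]
    exact key V
  · rw [show τ = fun z => a * conj z + b from funext h]
    have e1 : (fun z : ℂ => a * conj z + b) '' V = (fun z => a * z + b) '' (conj '' V) := by
      rw [image_image]
    rw [e1, key]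
    congr 1
    have h5 : (conj : ℂ → ℂ) '' V = (conjLIE : ℂ → ℂ) '' V := rfl
    rw [h5, LinearIsometryEquiv.image_eq_preimage_symm]
    exact (conjLIE.symm.measurePreserving).measure_preimage_equiv
      (f := conjLIE.symm.toHomeomorph.toMeasurableEquiv) V

theorem SimR.ae_image {ρ : ℝ} {τ : ℂ → ℂ} (h : SimR ρ τ) {V V' : Set ℂ}
    (hVV : ∀ᵐ z, z ∈ V ↔ z ∈ V') : ∀ᵐ z, z ∈ τ '' V ↔ z ∈ τ '' V' := by
  have h1 : {z | ¬ (z ∈ τ '' V ↔ z ∈ τ '' V')} = τ '' {z | ¬ (z ∈ V ↔ z ∈ V')} := by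
    obtain ⟨σ, -, hσ, hτ⟩ := h.exists_inv
    have hm : ∀ (U : Set ℂ) z, z ∈ τ '' U ↔ σ z ∈ U := by
      intro U z
      constructor
      · rintro ⟨w, hw, rfl⟩; rwa [hσ]
      · intro hz; exact ⟨σ z, hz, hτ z⟩
    ext z
    simp only [Set.mem_ofPred_eq, hm]
  have h2 : volume {z | ¬ (z ∈ V ↔ z ∈ V')} = 0 := hVV
  have h3 : volume {z | ¬ (z ∈ τ '' V ↔ z ∈ τ '' V')} = 0 := by
    rw [h1, h.volume_image, h2, mul_zero]
  exact h3

theorem simR_hom {s : ℝ} (hs : 0 < s) : SimR s (hom s) := by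
  refine ⟨(s : ℂ), cen - s * cen, by exact_mod_cast hs.ne', ?_, Or.inl fun z => ?_⟩
  · rw [Complex.norm_real, Real.norm_of_nonneg hs.le]
  · simp only [hom, Complex.real_smul]; ring

theorem hom_hom (s s' : ℝ) (z : ℂ) : hom s (hom s' z) = hom (s * s') z := by
  simp only [hom, Complex.real_smul, Complex.ofReal_mul]; ring

theorem hom_image_subset {s : ℝ} (h0 : 0 ≤ s) (h1 : s ≤ 1) : hom s '' tri ⊆ tri := by
  rintro _ ⟨z, ⟨hz1, hz2, hz3⟩, rfl⟩
  have hre : (hom s z).re = 3 / 8 + s * (z.re - 3 / 8) := by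
    simp [hom, cen]
  have him : (hom s z).im = 1 / 8 + s * (z.im - 1 / 8) := by
    simp [hom, cen]
  refine ⟨?_, ?_, ?_⟩
  · rw [him]; nlinarith
  · rw [him, hre]; nlinarith
  · rw [hre]; nlinarith

theorem hom_image_mono {s s' : ℝ} (h0 : 0 ≤ s) (h1 : s ≤ s') : hom s '' tri ⊆ hom s' '' tri := by
  rcases (h0.trans h1).eq_or_lt with h | h
  · have : s = s' := le_antisymm h1 (by rw [← h]; exact h0)
    rw [this]
  · rintro _ ⟨z, hz, rfl⟩
    refine ⟨hom (s / s') z, hom_image_subset (by positivity) ((div_le_one h).2 h1)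
      (mem_image_of_mem _ hz), ?_⟩
    rw [hom_hom, mul_div_cancel₀ _ h.ne']

theorem measurableSet_tri : MeasurableSet tri := by
  have h : IsClosed tri := by
    have : tri = {z : ℂ | 0 ≤ z.im} ∩ ({z : ℂ | z.im ≤ z.re} ∩ {z : ℂ | z.re ≤ 1 / 2}) := by
      ext z; simp [tri]
    rw [this]
    exact (isClosed_le continuous_const Complex.continuous_im).inter
      ((isClosed_le Complex.continuous_im Complex.continuous_re).inter
      (isClosed_le Complex.continuous_re continuous_const))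
  exact h.measurableSet

theorem volume_tri' : volume tri = ENNReal.ofReal (1 / 8) := by
  have h1 : volume tri = volume (Complex.measurableEquivRealProd '' tri) := by
    rw [MeasurableEquiv.image_eq_preimage_symm]
    exact (Complex.volume_preserving_equiv_real_prod.symm.measure_preimage_equiv tri).symm
  have h2 : Complex.measurableEquivRealProd '' tri =
      {p : ℝ × ℝ | 0 ≤ p.2 ∧ p.2 ≤ p.1 ∧ p.1 ≤ 1 / 2} := by
    ext ⟨x, y⟩
    constructor
    · rintro ⟨z, hz, h⟩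
      simp only [Complex.measurableEquivRealProd_apply, Prod.mk.injEq] at h
      obtain ⟨rfl, rfl⟩ := h
      exact hz
    · intro h
      exact ⟨⟨x, y⟩, h, by simp [Complex.measurableEquivRealProd_apply]⟩
  rw [h1, h2]
  have hms : MeasurableSet {p : ℝ × ℝ | 0 ≤ p.2 ∧ p.2 ≤ p.1 ∧ p.1 ≤ 1 / 2} := by
    measurability
  rw [Measure.volume_eq_prod, Measure.prod_apply hms]
  have h3 : ∀ x : ℝ, volume (Prod.mk x ⁻¹' {p : ℝ × ℝ | 0 ≤ p.2 ∧ p.2 ≤ p.1 ∧ p.1 ≤ 1 / 2}) =
      (Icc (0 : ℝ) (1 / 2)).indicator (fun x => ENNReal.ofReal x) x := by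
    intro x
    by_cases hx : x ∈ Icc (0 : ℝ) (1 / 2)
    · rw [indicator_of_mem hx]
      have : Prod.mk x ⁻¹' {p : ℝ × ℝ | 0 ≤ p.2 ∧ p.2 ≤ p.1 ∧ p.1 ≤ 1 / 2} = Icc 0 x := by
        ext y
        simp only [mem_preimage, mem_Icc]
        constructor
        · rintro ⟨h1, h2, -⟩; exact ⟨h1, h2⟩
        · rintro ⟨h1, h2⟩; exact ⟨h1, h2, hx.2⟩
      rw [this, Real.volume_Icc, sub_zero]
    · rw [indicator_of_notMem hx]
      have : Prod.mk x ⁻¹' {p : ℝ × ℝ | 0 ≤ p.2 ∧ p.2 ≤ p.1 ∧ p.1 ≤ 1 / 2} = ∅ := by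
        ext y
        simp only [mem_preimage, mem_empty_iff_false, iff_false]
        rintro ⟨h1, h2, h3⟩
        exact hx ⟨le_trans h1 h2, h3⟩
      rw [this, measure_empty]
  rw [lintegral_congr h3, lintegral_indicator measurableSet_Icc]
  have h4 : ∫⁻ x in Icc (0 : ℝ) (1 / 2), ENNReal.ofReal x =
      ENNReal.ofReal (∫ x in Icc (0 : ℝ) (1 / 2), x) := by
    rw [ofReal_integral_eq_lintegral_ofReal]
    · exact (continuous_id.integrableOn_Icc)
    · filter_upwards [ae_restrict_mem measurableSet_Icc] with x hx using hx.1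
  rw [h4, integral_Icc_eq_integral_Ioc, ← intervalIntegral.integral_of_le (by norm_num),
    integral_id]
  norm_num

end EBC
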