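import Pool.Agent.Work.MP_ebc928_an.AsmSim

open MeasureTheory Complex Set
open scoped ContDiff ComplexConjugate

noncomputable section
namespace EBC

/-- the four triangles of ratio `1/2` -/
def t4 : Fin 4 → ℂ → ℂ :=
  ![fun p => p / 2, fun p => (1 - conj p) / 2, fun p => (1 + I * p) / 2,
    fun p => (1 + I - I * conj p) / 2]

/-- the two triangles of ratio `1/√2` -/
def t2 : Fin 2 → ℂ → ℂ := ![fun p => (1 + I) * conj p / 2, fun p => (1 + I) * (1 - p) / 2]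

/-- content: `V i` in the `i`-th quarter triangle -/
def sub4 (V : Fin 4 → Set ℂ) : Set ℂ := ⋃ i, t4 i '' V i

/-- content: `V i` in the `i`-th half triangle -/
def sub2 (V : Fin 2 → Set ℂ) : Set ℂ := ⋃ i, t2 i '' V i

private theorem t40 (p : ℂ) : (t4 0 p).re = p.re / 2 ∧ (t4 0 p).im = p.im / 2 := by
  simp [t4]
private theorem t41 (p : ℂ) : (t4 1 p).re = (1 - p.re) / 2 ∧ (t4 1 p).im = p.im / 2 := by
  simp [t4]
private theorem t42 (p : ℂ) : (t4 2 p).re = (1 - p.im) / 2 ∧ (t4 2 p).im = p.re / 2 := by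
  simp [t4, sub_eq_add_neg]
private theorem t43 (p : ℂ) : (t4 3 p).re = (1 - p.im) / 2 ∧ (t4 3 p).im = (1 - p.re) / 2 := by
  simp [t4]
private theorem t20 (p : ℂ) :
    (t2 0 p).re = (p.re + p.im) / 2 ∧ (t2 0 p).im = (p.re - p.im) / 2 := by
  constructor <;> simp [t2] <;> ring
private theorem t21 (p : ℂ) :
    (t2 1 p).re = (1 - p.re + p.im) / 2 ∧ (t2 1 p).im = (1 - p.re - p.im) / 2 := by
  constructor <;> simp [t2] <;> ring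

theorem simR_t4 (i : Fin 4) : SimR (1 / 2) (t4 i) := by
  fin_cases i
  · refine ⟨1 / 2, 0, by norm_num, by norm_num, Or.inl fun z => ?_⟩
    simp [t4]; ring
  · refine ⟨-(1 / 2), 1 / 2, by norm_num, by norm_num, Or.inr fun z => ?_⟩
    simp [t4]; ring
  · refine ⟨I / 2, 1 / 2, by simp, by simp, Or.inl fun z => ?_⟩
    simp [t4]; ring
  · refine ⟨-(I / 2), (1 + I) / 2, by simp, by simp, Or.inr fun z => ?_⟩
    simp [t4]; ring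

private theorem norm_one_add_I_half : ‖(1 + I) / 2‖ = 1 / Real.sqrt 2 := by
  have h : ‖(1 + I) / 2‖ ^ 2 = 1 / 2 := by
    rw [← Complex.normSq_eq_norm_sq, Complex.normSq_apply]
    norm_num
  have h2 : ‖(1 + I) / 2‖ = Real.sqrt (1 / 2) := by
    rw [← h, Real.sqrt_sq (norm_nonneg _)]
  rw [h2, Real.sqrt_div zero_le_one, Real.sqrt_one]

theorem simR_t2 (i : Fin 2) : SimR (1 / Real.sqrt 2) (t2 i) := by
  have hne : (1 + I) / 2 ≠ 0 := by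
    intro h
    have := norm_one_add_I_half
    rw [h, norm_zero] at this
    have h2 : 0 < 1 / Real.sqrt 2 := by positivity
    linarith
  fin_cases i
  · refine ⟨(1 + I) / 2, 0, hne, norm_one_add_I_half, Or.inr fun z => ?_⟩
    simp [t2]; ring
  · refine ⟨-((1 + I) / 2), (1 + I) / 2, neg_ne_zero.2 hne, ?_, Or.inl fun z => ?_⟩
    · rw [norm_neg, norm_one_add_I_half]
    · simp [t2]; ring

theorem t4_sub (i : Fin 4) : t4 i '' tri ⊆ tri := by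
  rintro _ ⟨p, ⟨h1, h2, h3⟩, rfl⟩
  fin_cases i
  · obtain ⟨e1, e2⟩ := t40 p
    change 0 ≤ (t4 0 p).im ∧ (t4 0 p).im ≤ (t4 0 p).re ∧ (t4 0 p).re ≤ 1 / 2
    rw [e1, e2]
    refine ⟨?_, ?_, ?_⟩ <;> linarith
  · obtain ⟨e1, e2⟩ := t41 p
    change 0 ≤ (t4 1 p).im ∧ (t4 1 p).im ≤ (t4 1 p).re ∧ (t4 1 p).re ≤ 1 / 2
    rw [e1, e2]
    refine ⟨?_, ?_, ?_⟩ <;> linarith
  · obtain ⟨e1, e2⟩ := t42 p
    change 0 ≤ (t4 2 p).im ∧ (t4 2 p).im ≤ (t4 2 p).re ∧ (t4 2 p).re ≤ 1 / 2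
    rw [e1, e2]
    refine ⟨?_, ?_, ?_⟩ <;> linarith
  · obtain ⟨e1, e2⟩ := t43 p
    change 0 ≤ (t4 3 p).im ∧ (t4 3 p).im ≤ (t4 3 p).re ∧ (t4 3 p).re ≤ 1 / 2
    rw [e1, e2]
    refine ⟨?_, ?_, ?_⟩ <;> linarith

theorem t2_sub (i : Fin 2) : t2 i '' tri ⊆ tri := by
  rintro _ ⟨p, ⟨h1, h2, h3⟩, rfl⟩
  fin_cases i
  · obtain ⟨e1, e2⟩ := t20 p
    change 0 ≤ (t2 0 p).im ∧ (t2 0 p).im ≤ (t2 0 p).re ∧ (t2 0 p).re ≤ 1 / 2
    rw [e1, e2]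
    refine ⟨?_, ?_, ?_⟩ <;> linarith
  · obtain ⟨e1, e2⟩ := t21 p
    change 0 ≤ (t2 1 p).im ∧ (t2 1 p).im ≤ (t2 1 p).re ∧ (t2 1 p).re ≤ 1 / 2
    rw [e1, e2]
    refine ⟨?_, ?_, ?_⟩ <;> linarith

theorem t4_cover : ∀ z ∈ tri, ∃ i, z ∈ t4 i '' tri := by
  rintro z ⟨h1, h2, h3⟩
  by_cases ha : z.re ≤ 1 / 4
  · refine ⟨0, ⟨2 * z.re, 2 * z.im⟩, ⟨?_, ?_, ?_⟩, ?_⟩
    · show 0 ≤ 2 * z.im; linarith
    · show 2 * z.im ≤ 2 * z.re; linarith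
    · show 2 * z.re ≤ 1 / 2; linarith
    · obtain ⟨e1, e2⟩ := t40 ⟨2 * z.re, 2 * z.im⟩
      apply Complex.ext
      · rw [e1]; ring
      · rw [e2]; ring
  by_cases hb : 1 / 4 ≤ z.im
  · refine ⟨3, ⟨1 - 2 * z.im, 1 - 2 * z.re⟩, ⟨?_, ?_, ?_⟩, ?_⟩
    · show 0 ≤ 1 - 2 * z.re; linarith
    · show 1 - 2 * z.re ≤ 1 - 2 * z.im; linarith
    · show 1 - 2 * z.im ≤ 1 / 2; linarith
    · obtain ⟨e1, e2⟩ := t43 ⟨1 - 2 * z.im, 1 - 2 * z.re⟩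
      apply Complex.ext
      · rw [e1]; ring
      · rw [e2]; ring
  by_cases hc : z.re + z.im ≤ 1 / 2
  · refine ⟨1, ⟨1 - 2 * z.re, 2 * z.im⟩, ⟨?_, ?_, ?_⟩, ?_⟩
    · show 0 ≤ 2 * z.im; linarith
    · show 2 * z.im ≤ 1 - 2 * z.re; linarith
    · show 1 - 2 * z.re ≤ 1 / 2; linarith
    · obtain ⟨e1, e2⟩ := t41 ⟨1 - 2 * z.re, 2 * z.im⟩
      apply Complex.ext
      · rw [e1]; ring
      · rw [e2]; ring
  · refine ⟨2, ⟨2 * z.im, 1 - 2 * z.re⟩, ⟨?_, ?_, ?_⟩, ?_⟩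
    · show 0 ≤ 1 - 2 * z.re; linarith
    · show 1 - 2 * z.re ≤ 2 * z.im; linarith
    · show 2 * z.im ≤ 1 / 2; linarith
    · obtain ⟨e1, e2⟩ := t42 ⟨2 * z.im, 1 - 2 * z.re⟩
      apply Complex.ext
      · rw [e1]; ring
      · rw [e2]; ring

theorem t2_cover : ∀ z ∈ tri, ∃ i, z ∈ t2 i '' tri := by
  rintro z ⟨h1, h2, h3⟩
  by_cases ha : z.re + z.im ≤ 1 / 2
  · refine ⟨0, ⟨z.re + z.im, z.re - z.im⟩, ⟨?_, ?_, ?_⟩, ?_⟩
    · show 0 ≤ z.re - z.im; linarith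
    · show z.re - z.im ≤ z.re + z.im; linarith
    · show z.re + z.im ≤ 1 / 2; linarith
    · obtain ⟨e1, e2⟩ := t20 ⟨z.re + z.im, z.re - z.im⟩
      apply Complex.ext
      · rw [e1]; ring
      · rw [e2]; ring
  · refine ⟨1, ⟨1 - z.re - z.im, z.re - z.im⟩, ⟨?_, ?_, ?_⟩, ?_⟩
    · show 0 ≤ z.re - z.im; linarith
    · show z.re - z.im ≤ 1 - z.re - z.im; linarith
    · show 1 - z.re - z.im ≤ 1 / 2; linarith
    · obtain ⟨e1, e2⟩ := t21 ⟨1 - z.re - z.im, z.re - z.im⟩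
      apply Complex.ext
      · rw [e1]; ring
      · rw [e2]; ring

/-- the open triangles are disjoint from the other closed triangles -/
theorem t4_disj (i j : Fin 4) (h : i ≠ j) : Disjoint (t4 i '' triO) (t4 j '' tri) := by
  rw [Set.disjoint_left]
  rintro z ⟨p, ⟨p1, p2, p3⟩, hp⟩ ⟨q, ⟨q1, q2, q3⟩, hq⟩
  have hO : (i = 0 → z.re < 1 / 4 ∧ z.im < 1 / 4 ∧ z.re + z.im < 1 / 2) ∧
      (i = 1 → 1 / 4 < z.re ∧ z.im < 1 / 4 ∧ z.re + z.im < 1 / 2) ∧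
      (i = 2 → 1 / 4 < z.re ∧ z.im < 1 / 4 ∧ 1 / 2 < z.re + z.im) ∧
      (i = 3 → 1 / 4 < z.re ∧ 1 / 4 < z.im ∧ 1 / 2 < z.re + z.im) := by
    refine ⟨?_, ?_, ?_, ?_⟩ <;> rintro rfl
    · obtain ⟨e1, e2⟩ := t40 p
      rw [← hp, e1, e2]; refine ⟨?_, ?_, ?_⟩ <;> linarith
    · obtain ⟨e1, e2⟩ := t41 p
      rw [← hp, e1, e2]; refine ⟨?_, ?_, ?_⟩ <;> linarith
    · obtain ⟨e1, e2⟩ := t42 p
      rw [← hp, e1, e2]; refine ⟨?_, ?_, ?_⟩ <;> linarith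
    · obtain ⟨e1, e2⟩ := t43 p
      rw [← hp, e1, e2]; refine ⟨?_, ?_, ?_⟩ <;> linarith
  have hC : (j = 0 → z.re ≤ 1 / 4) ∧
      (j = 1 → 1 / 4 ≤ z.re ∧ z.re + z.im ≤ 1 / 2) ∧
      (j = 2 → z.im ≤ 1 / 4 ∧ 1 / 2 ≤ z.re + z.im) ∧
      (j = 3 → 1 / 4 ≤ z.im) := by
    refine ⟨?_, ?_, ?_, ?_⟩ <;> rintro rfl
    · obtain ⟨e1, e2⟩ := t40 q
      rw [← hq, e1]; linarith
    · obtain ⟨e1, e2⟩ := t41 q
      rw [← hq, e1, e2]; refine ⟨?_, ?_⟩ <;> linarith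
    · obtain ⟨e1, e2⟩ := t42 q
      rw [← hq, e1, e2]; refine ⟨?_, ?_⟩ <;> linarith
    · obtain ⟨e1, e2⟩ := t43 q
      rw [← hq, e2]; linarith
  obtain ⟨o0, o1, o2, o3⟩ := hO
  obtain ⟨c0, c1, c2, c3⟩ := hC
  have hi : i = 0 ∨ i = 1 ∨ i = 2 ∨ i = 3 := by omega
  have hj : j = 0 ∨ j = 1 ∨ j = 2 ∨ j = 3 := by omega
  rcases hi with hi | hi | hi | hi <;> rcases hj with hj | hj | hj | hj
  · exact h (hi.trans hj.symm)
  · linarith [(o0 hi).1, (c1 hj).1]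
  · linarith [(o0 hi).2.2, (c2 hj).2]
  · linarith [(o0 hi).2.1, c3 hj]
  · linarith [(o1 hi).1, c0 hj]
  · exact h (hi.trans hj.symm)
  · linarith [(o1 hi).2.2, (c2 hj).2]
  · linarith [(o1 hi).2.1, c3 hj]
  · linarith [(o2 hi).1, c0 hj]
  · linarith [(o2 hi).2.2, (c1 hj).2]
  · exact h (hi.trans hj.symm)
  · linarith [(o2 hi).2.1, c3 hj]
  · linarith [(o3 hi).1, c0 hj]
  · linarith [(o3 hi).2.2, (c1 hj).2]
  · linarith [(o3 hi).2.1, (c2 hj).1]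
  · exact h (hi.trans hj.symm)

theorem t2_disj (i j : Fin 2) (h : i ≠ j) : Disjoint (t2 i '' triO) (t2 j '' tri) := by
  rw [Set.disjoint_left]
  rintro z ⟨p, ⟨p1, p2, p3⟩, hp⟩ ⟨q, ⟨q1, q2, q3⟩, hq⟩
  have hi : i = 0 ∨ i = 1 := by omega
  have hj : j = 0 ∨ j = 1 := by omega
  obtain ⟨a1, a2⟩ := t20 p
  obtain ⟨a3, a4⟩ := t21 p
  obtain ⟨b1, b2⟩ := t20 q
  obtain ⟨b3, b4⟩ := t21 q
  rcases hi with rfl | rfl <;> rcases hj with rfl | rfl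
  · exact h rfl
  · have e1 := congrArg Complex.re (hp.trans hq.symm)
    have e2 := congrArg Complex.im (hp.trans hq.symm)
    rw [a1, b3] at e1
    rw [a2, b4] at e2
    linarith
  · have e1 := congrArg Complex.re (hp.trans hq.symm)
    have e2 := congrArg Complex.im (hp.trans hq.symm)
    rw [a3, b1] at e1
    rw [a4, b2] at e2
    linarith
  · exact h rfl

/-- the scaled third cluster is disjoint from the scaled clusters of the half triangles -/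
theorem t2_hom_disj (i : Fin 2) :
    Disjoint (t2 i '' (hom (1 / 10) '' tri)) (hom (1 / 10) '' tri) := by
  rw [Set.disjoint_left]
  rintro z ⟨w, ⟨p, ⟨p1, p2, p3⟩, hw⟩, hp⟩ ⟨q, ⟨q1, q2, q3⟩, hq⟩
  have hre : ∀ u : ℂ, (hom (1 / 10) u).re = 3 / 8 + (1 / 10) * (u.re - 3 / 8) := fun u => by
    simp [hom, cen]
  have him : ∀ u : ℂ, (hom (1 / 10) u).im = 1 / 8 + (1 / 10) * (u.im - 1 / 8) := fun u => by
    simp [hom, cen]
  have hi : i = 0 ∨ i = 1 := by omega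
  have w1 := congrArg Complex.re hw
  have w2 := congrArg Complex.im hw
  rw [hre] at w1
  rw [him] at w2
  have z1 := congrArg Complex.re (hp.trans hq.symm)
  have z2 := congrArg Complex.im (hp.trans hq.symm)
  rw [hre] at z1
  rw [him] at z2
  obtain ⟨a1, a2⟩ := t20 w
  obtain ⟨a3, a4⟩ := t21 w
  rcases hi with rfl | rfl
  · rw [a1] at z1
    rw [a2] at z2
    linarith
  · rw [a3] at z1
    rw [a4] at z2
    linarith

theorem triO_subset : triO ⊆ tri := fun _ h => ⟨h.1.le, h.2.1.le, h.2.2.le⟩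

end EBC
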