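import Pool.Agent.Work.MP_ebc928_an.AsmSim

open MeasureTheory Complex Set Filter
open scoped ContDiff ComplexConjugate Topology NNReal

noncomputable section
namespace EBC

/-- multiplication by a nonzero complex number -/
private def mulE (a : ℂ) (ha : a ≠ 0) : ℂ ≃L[ℝ] ℂ :=
  ContinuousLinearEquiv.equivOfInverse (ContinuousLinearMap.mul ℝ ℂ a)
    (ContinuousLinearMap.mul ℝ ℂ a⁻¹) (fun z => by simp [ha]) (fun z => by simp [ha])

private theorem mulE_apply (a : ℂ) (ha : a ≠ 0) (z : ℂ) : mulE a ha z = a * z := rfl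
private theorem mulE_symm_apply (a : ℂ) (ha : a ≠ 0) (z : ℂ) : (mulE a ha).symm z = a⁻¹ * z := rfl

/-- the second symmetric derivative entries suffice -/
private theorem D2_symm {Ξ : ℂ → ℂ} (h : ContDiff ℝ 1 Ξ) (z a b : ℂ) : D2 Ξ z a b = D2 Ξ z b a := by
  unfold D2
  by_cases hd : DifferentiableAt ℝ (fderiv ℝ Ξ) z
  · exact second_derivative_symmetric (𝕜 := ℝ)
      (fun y => (h.differentiable (by norm_num) y).hasFDerivAt) hd.hasFDerivAt a b
  · rw [fderiv_zero_of_not_differentiableAt hd]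
    rfl

/-- transported field -/
private def push (L M : ℂ ≃L[ℝ] ℂ) (b : ℂ) (f : ℂ → ℂ) (z : ℂ) : ℂ := M (f (L.symm (z - b)))

private theorem fderiv_push (L M : ℂ ≃L[ℝ] ℂ) (b : ℂ) (f : ℂ → ℂ) (z : ℂ) :
    fderiv ℝ (push L M b f) z =
      (M : ℂ →L[ℝ] ℂ).comp ((fderiv ℝ f (L.symm (z - b))).comp (L.symm : ℂ →L[ℝ] ℂ)) := by
  have e1 : push L M b f = fun z => (M ∘ (f ∘ L.symm)) (z - b) := rfl
  rw [e1, fderiv_comp_sub, ContinuousLinearEquiv.comp_fderiv,
    ContinuousLinearEquiv.comp_right_fderiv]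

/-- conjugation of linear maps -/
private def conjMap (L M : ℂ ≃L[ℝ] ℂ) : (ℂ →L[ℝ] ℂ) ≃L[ℝ] (ℂ →L[ℝ] ℂ) := L.arrowCongr M

private theorem conjMap_apply (L M : ℂ ≃L[ℝ] ℂ) (A : ℂ →L[ℝ] ℂ) :
    conjMap L M A = (M : ℂ →L[ℝ] ℂ).comp (A.comp (L.symm : ℂ →L[ℝ] ℂ)) := by
  ext <;>
  simp [conjMap]

private theorem D2_push (L M : ℂ ≃L[ℝ] ℂ) (b : ℂ) (f : ℂ → ℂ) (z h k : ℂ) :
    D2 (push L M b f) z h k = M (D2 f (L.symm (z - b)) (L.symm h) (L.symm k)) := by
  have e1 : fderiv ℝ (push L M b f) =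
      fun z => (conjMap L M ∘ (fderiv ℝ f ∘ L.symm)) (z - b) := by
    funext w
    rw [fderiv_push]
    simp only [Function.comp]
    rw [conjMap_apply]
  unfold D2
  rw [e1, fderiv_comp_sub, ContinuousLinearEquiv.comp_fderiv,
    ContinuousLinearEquiv.comp_right_fderiv]
  simp only [ContinuousLinearMap.coe_comp, Function.comp, ContinuousLinearEquiv.coe_coe]
  rw [conjMap_apply]
  simp

private theorem lip_push {L M : ℂ ≃L[ℝ] ℂ} {b : ℂ} {f : ℂ → ℂ} (h : ∃ K, LipschitzWith K f) :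
    ∃ K, LipschitzWith K (push L M b f) := by
  obtain ⟨K, hK⟩ := h
  have h1 : LipschitzWith 1 (fun z : ℂ => z - b) :=
    LipschitzWith.of_dist_le_mul fun x y => by simp
  exact ⟨_, (M : ℂ →L[ℝ] ℂ).lipschitz.comp (hK.comp ((L.symm : ℂ →L[ℝ] ℂ).lipschitz.comp h1))⟩

private theorem c11_push {L M : ℂ ≃L[ℝ] ℂ} {b : ℂ} {f : ℂ → ℂ} (h : C11 f) :
    C11 (push L M b f) := by
  obtain ⟨h0, K, hK⟩ := h
  have h1 : LipschitzWith 1 (fun z : ℂ => z - b) :=
    LipschitzWith.of_dist_le_mul fun x y => by simp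
  refine ⟨M.contDiff.comp (h0.comp (L.symm.contDiff.comp (contDiff_id.sub contDiff_const))),
    ‖(conjMap L M : (ℂ →L[ℝ] ℂ) →L[ℝ] (ℂ →L[ℝ] ℂ))‖₊ *
      (K * (‖(L.symm : ℂ →L[ℝ] ℂ)‖₊ * 1)), ?_⟩
  · have e1 : fderiv ℝ (push L M b f) =
        fun z => (conjMap L M ∘ (fderiv ℝ f ∘ L.symm)) (z - b) := by
      funext w
      rw [fderiv_push]
      simp only [Function.comp]
      rw [conjMap_apply]
    rw [e1]
    exact (conjMap L M : (ℂ →L[ℝ] ℂ) →L[ℝ] (ℂ →L[ℝ] ℂ)).lipschitz.comp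
      (hK.comp ((L.symm : ℂ →L[ℝ] ℂ).lipschitz.comp h1))

private theorem conj_xy (x y : ℝ) : conj ((x : ℂ) + y * I) = (x : ℂ) - y * I := by
  apply Complex.ext <;> simp

private theorem lin_xy {F : Type*} [NormedAddCommGroup F] [NormedSpace ℝ F] (D : ℂ →L[ℝ] F)
    (x y : ℝ) : D ((x : ℂ) + y * I) = x • D 1 + y • D I := by
  have h : (x : ℂ) + y * I = x • (1 : ℂ) + y • I := by
    simp only [Complex.real_smul, mul_one]
  rw [h, map_add, map_smul, map_smul]

/-- decomposition of a real linear map -/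
private theorem lin_decomp (D : ℂ →L[ℝ] ℂ) (w : ℂ) :
    D w = (D 1 - I * D I) / 2 * w + (D 1 + I * D I) / 2 * conj w := by
  obtain ⟨x, y, rfl⟩ : ∃ x y : ℝ, w = x + y * I := ⟨w.re, w.im, (Complex.re_add_im w).symm⟩
  rw [conj_xy, lin_xy, Complex.real_smul, Complex.real_smul]
  linear_combination (y * D I : ℂ) * Complex.I_sq

/-- the complex derivatives of a bilinear form in the second derivative -/
private theorem bil_decomp (B : ℂ →L[ℝ] ℂ →L[ℝ] ℂ) (hs : ∀ a b, B a b = B b a) (v w : ℂ) :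
    B v w = (B 1 1 - B I I - 2 * I * B 1 I) / 4 * (v * w) +
      (B 1 1 + B I I) / 4 * (v * conj w + conj v * w) +
      (B 1 1 - B I I + 2 * I * B 1 I) / 4 * (conj v * conj w) := by
  obtain ⟨x, y, rfl⟩ : ∃ x y : ℝ, w = x + y * I := ⟨w.re, w.im, (Complex.re_add_im w).symm⟩
  obtain ⟨p, q, rfl⟩ : ∃ x y : ℝ, v = x + y * I := ⟨v.re, v.im, (Complex.re_add_im v).symm⟩
  rw [conj_xy, conj_xy, lin_xy B, _root_.add_apply, _root_.smul_apply, _root_.smul_apply,
    lin_xy (B 1), lin_xy (B I), hs I 1]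
  simp only [Complex.real_smul]
  linear_combination ((B 1 I) * (p * y + q * x) + B I I * (q * y)) * Complex.I_sq

private theorem tr_of {E : ℂ → ℂ} {α β : ℂ} (hE : ∀ w, E w = α * w + β * conj w) :
    (E 1).re + (E I).im = 2 * α.re ∧ (E 1 + I * E I) / 2 = β := by
  rw [hE, hE]
  constructor
  · simp; ring
  · simp only [map_one, mul_one, Complex.conj_I]
    linear_combination ((α - β) / 2) * Complex.I_sq

private theorem bil_of {E : ℂ → ℂ → ℂ} {P Q R : ℂ}
    (hE : ∀ v w, E v w = P * (v * w) + Q * (v * conj w + conj v * w) + R * (conj v * conj w)) :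
    (E 1 1 - E I I - 2 * I * E 1 I) / 4 = P ∧ (E 1 1 - E I I + 2 * I * E 1 I) / 4 = R := by
  rw [hE, hE, hE]
  simp only [map_one, mul_one, Complex.conj_I]
  constructor
  · linear_combination ((-3 * P + 2 * Q + R) / 4) * Complex.I_sq
  · linear_combination ((P + 2 * Q - 3 * R) / 4) * Complex.I_sq

/-- data of a similarity acting on displacement fields -/
private theorem pushA {ρ : ℝ} {τ : ℂ → ℂ} (h : SimR ρ τ) {ψ : ℂ → ℂ}
    (hl : ∃ K, LipschitzWith K ψ) (h0 : ∀ z ∉ tri, ψ z = 0) :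
    ∃ ψ' : ℂ → ℂ, (∃ K, LipschitzWith K ψ') ∧ (∀ z ∉ τ '' tri, ψ' z = 0) ∧
      (∀ p, dv ψ' (τ p) = dv ψ p) ∧ (∀ p, ‖dbar ψ' (τ p)‖ = ‖dbar ψ p‖) := by
  obtain ⟨a, b, ha, -, h⟩ := h
  have hca : conj a ≠ 0 := (map_ne_zero _).2 ha
  have hn : ∀ β : ℂ, ‖a * β * conj a⁻¹‖ = ‖β‖ := fun β => by
    rw [norm_mul, norm_mul, RCLike.norm_conj, norm_inv]
    have : ‖a‖ ≠ 0 := norm_ne_zero_iff.2 ha
    field_simp
  rcases h with h | h
  · refine ⟨push (mulE a ha) (mulE a ha) b ψ, lip_push hl, fun z hz => ?_, fun p => ?_,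
      fun p => ?_⟩
    · have h1 : (mulE a ha).symm (z - b) ∉ tri := fun h2 => hz
        ⟨_, h2, by rw [h, mulE_symm_apply, mul_inv_cancel_left₀ ha]; ring⟩
      rw [push, h0 _ h1, map_zero]
    all_goals
      have h1 : (mulE a ha).symm (τ p - b) = p := by
        rw [h, mulE_symm_apply, add_sub_cancel_right, inv_mul_cancel_left₀ ha]
      have hD := tr_of (lin_decomp (fderiv ℝ ψ p))
      have hE := tr_of (E := fun w => fderiv ℝ (push (mulE a ha) (mulE a ha) b ψ) (τ p) w)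
        (α := (fderiv ℝ ψ p 1 - I * fderiv ℝ ψ p I) / 2)
        (β := a * ((fderiv ℝ ψ p 1 + I * fderiv ℝ ψ p I) / 2) * conj a⁻¹) (fun w => by
          show _ = _
          rw [fderiv_push, h1]
          simp only [ContinuousLinearMap.coe_comp, Function.comp, ContinuousLinearEquiv.coe_coe,
            mulE_apply, mulE_symm_apply]
          rw [lin_decomp _ (a⁻¹ * w), map_mul]
          field_simp)
    · rw [dv, dv]
      exact hE.1.trans hD.1.symm
    · rw [dbar, dbar]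
      exact (congrArg norm hE.2).trans (hn _)
  · have hL : ∀ z, ((conjCLE : ℂ ≃L[ℝ] ℂ).trans (mulE a ha)) z = a * conj z := fun z => rfl
    have hLs : ∀ z, ((conjCLE : ℂ ≃L[ℝ] ℂ).trans (mulE a ha)).symm z = conj (a⁻¹ * z) :=
      fun z => rfl
    refine ⟨push ((conjCLE : ℂ ≃L[ℝ] ℂ).trans (mulE a ha))
      ((conjCLE : ℂ ≃L[ℝ] ℂ).trans (mulE a ha)) b ψ, lip_push hl, fun z hz => ?_, fun p => ?_,
      fun p => ?_⟩
    · have h1 : ((conjCLE : ℂ ≃L[ℝ] ℂ).trans (mulE a ha)).symm (z - b) ∉ tri := fun h2 => hz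
        ⟨_, h2, by rw [h, hLs, Complex.conj_conj, mul_inv_cancel_left₀ ha]; ring⟩
      rw [push, h0 _ h1, map_zero]
    all_goals
      have h1 : ((conjCLE : ℂ ≃L[ℝ] ℂ).trans (mulE a ha)).symm (τ p - b) = p := by
        rw [h, hLs, add_sub_cancel_right, inv_mul_cancel_left₀ ha, Complex.conj_conj]
      have hD := tr_of (lin_decomp (fderiv ℝ ψ p))
      have hE := tr_of (E := fun w => fderiv ℝ (push ((conjCLE : ℂ ≃L[ℝ] ℂ).trans (mulE a ha))
          ((conjCLE : ℂ ≃L[ℝ] ℂ).trans (mulE a ha)) b ψ) (τ p) w)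
        (α := conj ((fderiv ℝ ψ p 1 - I * fderiv ℝ ψ p I) / 2))
        (β := a * conj ((fderiv ℝ ψ p 1 + I * fderiv ℝ ψ p I) / 2) * conj a⁻¹) (fun w => by
          show _ = _
          rw [fderiv_push, h1]
          simp only [ContinuousLinearMap.coe_comp, Function.comp, ContinuousLinearEquiv.coe_coe,
            hL, hLs]
          rw [lin_decomp _ (conj (a⁻¹ * w))]
          simp only [map_add, map_mul, Complex.conj_conj]
          field_simp)
    · rw [dv, dv]
      have h3 := hE.1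
      rw [Complex.conj_re] at h3
      exact h3.trans hD.1.symm
    · rw [dbar, dbar]
      exact (congrArg norm hE.2).trans ((hn _).trans (RCLike.norm_conj _))

/-- data of a similarity acting on stress functions -/
private theorem pushB {ρ : ℝ} {τ : ℂ → ℂ} (h : SimR ρ τ) {Ξ : ℂ → ℂ}
    (hl : C11 Ξ) (h0 : ∀ z ∉ tri, Ξ z = 0) :
    ∃ Ξ' : ℂ → ℂ, C11 Ξ' ∧ (∀ z ∉ τ '' tri, Ξ' z = 0) ∧
      (∀ p, EB Ξ' (τ p) = EB Ξ p) ∧
      (∀ p, (∀ u v, D2 Ξ p u v = -(u * v)) → ∀ u v, D2 Ξ' (τ p) u v = -(u * v)) := by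
  obtain ⟨a, b, ha, -, h⟩ := h
  have hca : conj a ≠ 0 := (map_ne_zero _).2 ha
  have hn : ∀ β : ℂ, ‖a ^ 2 * β * (conj a⁻¹) ^ 2‖ = ‖β‖ := fun β => by
    rw [norm_mul, norm_mul, norm_pow, norm_pow, RCLike.norm_conj, norm_inv]
    have : ‖a‖ ≠ 0 := norm_ne_zero_iff.2 ha
    field_simp
  have ha2 : a ^ 2 ≠ 0 := pow_ne_zero _ ha
  rcases h with h | h
  · refine ⟨push (mulE a ha) (mulE (a ^ 2) ha2) b Ξ, c11_push hl, fun z hz => ?_, fun p => ?_,
      fun p hp u v => ?_⟩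
    · have h1 : (mulE a ha).symm (z - b) ∉ tri := fun h2 => hz
        ⟨_, h2, by rw [h, mulE_symm_apply, mul_inv_cancel_left₀ ha]; ring⟩
      rw [push, h0 _ h1, map_zero]
    · have h1 : (mulE a ha).symm (τ p - b) = p := by
        rw [h, mulE_symm_apply, add_sub_cancel_right, inv_mul_cancel_left₀ ha]
      have hB := bil_decomp (fderiv ℝ (fderiv ℝ Ξ) p) (fun u v => D2_symm hl.1 p u v)
      have hE := bil_of (E := fun u v => D2 (push (mulE a ha) (mulE (a ^ 2) ha2) b Ξ) (τ p) u v)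
        (P := (D2 Ξ p 1 1 - D2 Ξ p I I - 2 * I * D2 Ξ p 1 I) / 4)
        (Q := a * conj a⁻¹ * ((D2 Ξ p 1 1 + D2 Ξ p I I) / 4))
        (R := a ^ 2 * ((D2 Ξ p 1 1 - D2 Ξ p I I + 2 * I * D2 Ξ p 1 I) / 4) * (conj a⁻¹) ^ 2)
        (fun u v => by
          show _ = _
          rw [D2_push, h1, mulE_apply, mulE_symm_apply, mulE_symm_apply]
          unfold D2
          rw [hB (a⁻¹ * u) (a⁻¹ * v)]
          simp only [map_mul]
          field_simp)
      rw [EB, EB, hE.1, hE.2, hn]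
    · have h1 : (mulE a ha).symm (τ p - b) = p := by
        rw [h, mulE_symm_apply, add_sub_cancel_right, inv_mul_cancel_left₀ ha]
      rw [D2_push, h1, mulE_apply, mulE_symm_apply, mulE_symm_apply, hp]
      field_simp
  · have hL : ∀ z, ((conjCLE : ℂ ≃L[ℝ] ℂ).trans (mulE (a ^ 2) ha2)) z = a ^ 2 * conj z :=
      fun z => rfl
    have hLs : ∀ z, ((conjCLE : ℂ ≃L[ℝ] ℂ).trans (mulE a ha)).symm z = conj (a⁻¹ * z) :=
      fun z => rfl
    refine ⟨push ((conjCLE : ℂ ≃L[ℝ] ℂ).trans (mulE a ha))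
      ((conjCLE : ℂ ≃L[ℝ] ℂ).trans (mulE (a ^ 2) ha2)) b Ξ, c11_push hl, fun z hz => ?_,
      fun p => ?_, fun p hp u v => ?_⟩
    · have h1 : ((conjCLE : ℂ ≃L[ℝ] ℂ).trans (mulE a ha)).symm (z - b) ∉ tri := fun h2 => hz
        ⟨_, h2, by rw [h, hLs, Complex.conj_conj, mul_inv_cancel_left₀ ha]; ring⟩
      rw [push, h0 _ h1, map_zero]
    · have h1 : ((conjCLE : ℂ ≃L[ℝ] ℂ).trans (mulE a ha)).symm (τ p - b) = p := by
        rw [h, hLs, add_sub_cancel_right, inv_mul_cancel_left₀ ha, Complex.conj_conj]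
      have hB := bil_decomp (fderiv ℝ (fderiv ℝ Ξ) p) (fun u v => D2_symm hl.1 p u v)
      have hE := bil_of (E := fun u v => D2 (push ((conjCLE : ℂ ≃L[ℝ] ℂ).trans (mulE a ha))
          ((conjCLE : ℂ ≃L[ℝ] ℂ).trans (mulE (a ^ 2) ha2)) b Ξ) (τ p) u v)
        (P := conj ((D2 Ξ p 1 1 - D2 Ξ p I I - 2 * I * D2 Ξ p 1 I) / 4))
        (Q := a * conj a⁻¹ * conj ((D2 Ξ p 1 1 + D2 Ξ p I I) / 4))
        (R := a ^ 2 * conj ((D2 Ξ p 1 1 - D2 Ξ p I I + 2 * I * D2 Ξ p 1 I) / 4) *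
          (conj a⁻¹) ^ 2)
        (fun u v => by
          show _ = _
          rw [D2_push, h1, hL, hLs, hLs]
          unfold D2
          rw [hB (conj (a⁻¹ * u)) (conj (a⁻¹ * v))]
          simp only [map_add, map_mul, Complex.conj_conj]
          field_simp)
      rw [EB, EB, hE.1, hE.2, hn, RCLike.norm_conj]
      congr 2
      rw [← RCLike.norm_conj (1 + (D2 Ξ p 1 1 - D2 Ξ p I I - 2 * I * D2 Ξ p 1 I) / 4), map_add,
        map_one]
    · have h1 : ((conjCLE : ℂ ≃L[ℝ] ℂ).trans (mulE a ha)).symm (τ p - b) = p := by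
        rw [h, hLs, add_sub_cancel_right, inv_mul_cancel_left₀ ha, Complex.conj_conj]
      rw [D2_push, h1, hL, hLs, hLs, hp]
      simp only [map_neg, map_mul, Complex.conj_conj]
      field_simp

/-! ### measure theoretic part -/

private theorem isClosed_tri' : IsClosed tri := by
  have : tri = {z : ℂ | 0 ≤ z.im} ∩ ({z : ℂ | z.im ≤ z.re} ∩ {z : ℂ | z.re ≤ 1 / 2}) := by
    ext z; simp [tri]
  rw [this]
  exact (isClosed_le continuous_const Complex.continuous_im).inter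
    ((isClosed_le Complex.continuous_im Complex.continuous_re).inter
    (isClosed_le Complex.continuous_re continuous_const))

private theorem isOpen_triO' : IsOpen triO := by
  have : triO = {z : ℂ | 0 < z.im} ∩ ({z : ℂ | z.im < z.re} ∩ {z : ℂ | z.re < 1 / 2}) := by
    ext z; simp [triO]
  rw [this]
  exact (isOpen_lt continuous_const Complex.continuous_im).inter
    ((isOpen_lt Complex.continuous_im Complex.continuous_re).inter
    (isOpen_lt Complex.continuous_re continuous_const))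

private theorem triO_subset' : triO ⊆ tri := fun _ h => ⟨h.1.le, h.2.1.le, h.2.2.le⟩

private theorem volume_triO' : volume triO = ENNReal.ofReal (1 / 8) := by
  have h1 : volume triO = volume (Complex.measurableEquivRealProd '' triO) := by
    rw [MeasurableEquiv.image_eq_preimage_symm]
    exact (Complex.volume_preserving_equiv_real_prod.symm.measure_preimage_equiv triO).symm
  have h2 : Complex.measurableEquivRealProd '' triO =
      {p : ℝ × ℝ | 0 < p.2 ∧ p.2 < p.1 ∧ p.1 < 1 / 2} := by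
    ext ⟨x, y⟩
    constructor
    · rintro ⟨z, hz, h⟩
      simp only [Complex.measurableEquivRealProd_apply, Prod.mk.injEq] at h
      obtain ⟨rfl, rfl⟩ := h
      exact hz
    · intro h
      exact ⟨⟨x, y⟩, h, by simp [Complex.measurableEquivRealProd_apply]⟩
  rw [h1, h2]
  have hms : MeasurableSet {p : ℝ × ℝ | 0 < p.2 ∧ p.2 < p.1 ∧ p.1 < 1 / 2} := by
    measurability
  rw [Measure.volume_eq_prod, Measure.prod_apply hms]
  have h3 : ∀ x : ℝ, volume (Prod.mk x ⁻¹' {p : ℝ × ℝ | 0 < p.2 ∧ p.2 < p.1 ∧ p.1 < 1 / 2}) =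
      (Ioo (0 : ℝ) (1 / 2)).indicator (fun x => ENNReal.ofReal x) x := by
    intro x
    by_cases hx : x ∈ Ioo (0 : ℝ) (1 / 2)
    · rw [indicator_of_mem hx]
      have : Prod.mk x ⁻¹' {p : ℝ × ℝ | 0 < p.2 ∧ p.2 < p.1 ∧ p.1 < 1 / 2} = Ioo 0 x := by
        ext y
        simp only [mem_preimage, mem_Ioo]
        constructor
        · rintro ⟨h1, h2, -⟩; exact ⟨h1, h2⟩
        · rintro ⟨h1, h2⟩; exact ⟨h1, h2, hx.2⟩
      rw [this, Real.volume_Ioo, sub_zero]
    · rw [indicator_of_notMem hx]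
      have : Prod.mk x ⁻¹' {p : ℝ × ℝ | 0 < p.2 ∧ p.2 < p.1 ∧ p.1 < 1 / 2} = ∅ := by
        ext y
        simp only [mem_preimage, mem_empty_iff_false, iff_false]
        rintro ⟨h1, h2, h3⟩
        exact hx ⟨lt_trans h1 h2, h3⟩
      rw [this, measure_empty]
  rw [lintegral_congr h3, lintegral_indicator measurableSet_Ioo]
  have h4 : ∫⁻ x in Ioo (0 : ℝ) (1 / 2), ENNReal.ofReal x =
      ENNReal.ofReal (∫ x in Ioo (0 : ℝ) (1 / 2), x) := by
    rw [ofReal_integral_eq_lintegral_ofReal]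
    · exact (continuous_id.integrableOn_Icc (a := (0 : ℝ)) (b := 1 / 2)).mono_set Ioo_subset_Icc_self
    · filter_upwards [ae_restrict_mem measurableSet_Ioo] with x hx using hx.1.le
  rw [h4, ← integral_Ioc_eq_integral_Ioo, ← intervalIntegral.integral_of_le (by norm_num),
    integral_id]
  norm_num

private theorem volume_tri_diff : volume (tri \ triO) = 0 := by
  rw [measure_sdiff triO_subset' isOpen_triO'.measurableSet.nullMeasurableSet
    (by rw [volume_triO']; exact ENNReal.ofReal_ne_top), volume_tri', volume_triO', tsub_self]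

private theorem volume_tri_ne_top : volume tri ≠ ⊤ := by
  rw [volume_tri']; exact ENNReal.ofReal_ne_top

private theorem int_dbar {ψ : ℂ → ℂ} (h : ∃ K, LipschitzWith K ψ) {s : Set ℂ}
    (hs : volume s ≠ ⊤) : IntegrableOn (fun z => 4 * ‖dbar ψ z‖ ^ 2) s := by
  obtain ⟨K, hK⟩ := h
  have hm : Measurable (dbar ψ) :=
    ((measurable_fderiv_apply_const ℝ ψ 1).add
      (measurable_const.mul (measurable_fderiv_apply_const ℝ ψ I))).div_const 2
  have hb : ∀ z, ‖dbar ψ z‖ ≤ K := by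
    intro z
    have h1 : ‖fderiv ℝ ψ z‖ ≤ K := norm_fderiv_le_of_lipschitz ℝ hK
    have h2 : ‖fderiv ℝ ψ z 1‖ ≤ K := by
      have := (fderiv ℝ ψ z).le_opNorm 1
      rw [norm_one, mul_one] at this
      exact this.trans h1
    have h3 : ‖fderiv ℝ ψ z I‖ ≤ K := by
      have := (fderiv ℝ ψ z).le_opNorm I
      rw [Complex.norm_I, mul_one] at this
      exact this.trans h1
    rw [dbar, norm_div]
    have h4 : ‖fderiv ℝ ψ z 1 + I * fderiv ℝ ψ z I‖ ≤ K + K := by
      refine (norm_add_le _ _).trans (add_le_add h2 ?_)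
      rw [norm_mul, Complex.norm_I, one_mul]
      exact h3
    have h5 : ‖(2 : ℂ)‖ = 2 := by simp
    rw [h5]
    linarith
  refine Measure.integrableOn_of_bounded (M := 4 * (K : ℝ) ^ 2) hs
    (((hm.norm.pow_const 2).const_mul 4).aestronglyMeasurable) (Filter.Eventually.of_forall ?_)
  intro z
  rw [Real.norm_of_nonneg (by positivity)]
  have := pow_le_pow_left₀ (norm_nonneg _) (hb z) 2
  linarith

private theorem int_EB {Ξ : ℂ → ℂ} (h : C11 Ξ) {s : Set ℂ} (hs : volume s ≠ ⊤) :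
    IntegrableOn (EB Ξ) s := by
  obtain ⟨-, K, hK⟩ := h
  have hm : ∀ a b : ℂ, Measurable (fun z => D2 Ξ z a b) := fun a b =>
    (ContinuousLinearMap.measurable_apply b).comp
      (measurable_fderiv_apply_const ℝ (fderiv ℝ Ξ) a)
  have hb : ∀ z a b, ‖a‖ = 1 → ‖b‖ = 1 → ‖D2 Ξ z a b‖ ≤ K := by
    intro z a b ha hb
    have h1 : ‖fderiv ℝ (fderiv ℝ Ξ) z‖ ≤ K := norm_fderiv_le_of_lipschitz ℝ hK
    have h2 := (fderiv ℝ (fderiv ℝ Ξ) z).le_opNorm a
    rw [ha, mul_one] at h2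
    have h3 := (fderiv ℝ (fderiv ℝ Ξ) z a).le_opNorm b
    rw [hb, mul_one] at h3
    exact h3.trans (h2.trans h1)
  have hmE : Measurable (EB Ξ) := by
    unfold EB
    refine Measurable.add ?_ ?_
    · exact ((measurable_const.add (((((hm 1 1).sub (hm I I)).sub
        ((hm 1 I).const_mul (2 * I)))).div_const 4)).norm.pow_const 2)
    · exact ((((((hm 1 1).sub (hm I I)).add
        ((hm 1 I).const_mul (2 * I)))).div_const 4).norm.pow_const 2)
  refine Measure.integrableOn_of_bounded (M := (1 + (K : ℝ)) ^ 2 + (K : ℝ) ^ 2) hs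
    hmE.aestronglyMeasurable (Filter.Eventually.of_forall ?_)
  intro z
  have hz : 0 ≤ EB Ξ z := by unfold EB; positivity
  rw [Real.norm_of_nonneg hz]
  have e1 := hb z 1 1 (by simp) (by simp)
  have e2 := hb z I I (by simp) (by simp)
  have e3 := hb z 1 I (by simp) (by simp)
  have e3' : ‖2 * I * D2 Ξ z 1 I‖ ≤ 2 * K := by
    rw [norm_mul, norm_mul, Complex.norm_I]
    simp only [Complex.norm_ofNat, mul_one]
    linarith
  have h4 : ‖(4 : ℂ)‖ = 4 := by simp
  have f1 : ‖(D2 Ξ z 1 1 - D2 Ξ z I I - 2 * I * D2 Ξ z 1 I) / 4‖ ≤ K := by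
    rw [norm_div, h4]
    have := norm_sub_le (D2 Ξ z 1 1 - D2 Ξ z I I) (2 * I * D2 Ξ z 1 I)
    have := norm_sub_le (D2 Ξ z 1 1) (D2 Ξ z I I)
    linarith
  have f2 : ‖(D2 Ξ z 1 1 - D2 Ξ z I I + 2 * I * D2 Ξ z 1 I) / 4‖ ≤ K := by
    rw [norm_div, h4]
    have := norm_add_le (D2 Ξ z 1 1 - D2 Ξ z I I) (2 * I * D2 Ξ z 1 I)
    have := norm_sub_le (D2 Ξ z 1 1) (D2 Ξ z I I)
    linarith
  have f3 : ‖1 + (D2 Ξ z 1 1 - D2 Ξ z I I - 2 * I * D2 Ξ z 1 I) / 4‖ ≤ 1 + K := by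
    refine (norm_add_le _ _).trans ?_
    rw [norm_one]
    linarith
  unfold EB
  exact add_le_add (pow_le_pow_left₀ (norm_nonneg _) f3 2)
    (pow_le_pow_left₀ (norm_nonneg _) f2 2)

private theorem map_vol {ρ : ℝ} {τ : ℂ → ℂ} (h : SimR ρ τ) :
    volume = ENNReal.ofReal (ρ ^ 2) • Measure.map τ volume := by
  obtain ⟨σ, -, hσ, hτ⟩ := h.exists_inv
  ext s hs
  rw [Measure.smul_apply, Measure.map_apply h.continuous.measurable hs, smul_eq_mul,
    ← h.volume_image]
  congr 1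
  ext z
  constructor
  · intro hz; exact ⟨σ z, by rw [mem_preimage, hτ]; exact hz, hτ z⟩
  · rintro ⟨w, hw, rfl⟩; exact hw

private theorem setIntegral_simR {ρ : ℝ} {τ : ℂ → ℂ} (h : SimR ρ τ) (F : ℂ → ℝ) (U : Set ℂ) :
    ∫ z in τ '' U, F z = ρ ^ 2 * ∫ p in U, F (τ p) := by
  have hme : MeasurableEmbedding τ := by
    rw [← h.coe_homeo]; exact h.homeo.measurableEmbedding
  conv_lhs => rw [map_vol h]
  rw [Measure.restrict_smul, integral_smul_measure, hme.setIntegral_map, h.injective.preimage_image,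
    ENNReal.toReal_ofReal (by positivity), smul_eq_mul]

private theorem ae_simR {ρ : ℝ} {τ : ℂ → ℂ} (h : SimR ρ τ) {P : ℂ → Prop} (hP : ∀ᵐ p, P p) :
    ∀ᵐ z, ∀ p, τ p = z → P p := by
  have h1 : volume {p | ¬ P p} = 0 := hP
  have h2 : volume (τ '' {p | ¬ P p}) = 0 := by rw [h.volume_image, h1, mul_zero]
  refine measure_mono_null (fun z hz => ?_) h2
  simp only [Set.mem_compl_iff, Set.mem_ofPred_eq, not_forall] at hz
  obtain ⟨p, hp, hPp⟩ := hz
  exact ⟨p, hPp, hp⟩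

private theorem loc_sum {ι : Type} [Fintype ι] {τ : ι → ℂ → ℂ} {ρ : ι → ℝ}
    (hs : ∀ i, SimR (ρ i) (τ i))
    (hdisj : ∀ i j, i ≠ j → Disjoint (τ i '' triO) (τ j '' triO)) {f : ι → ℂ → ℂ}
    (h0 : ∀ j, ∀ z ∉ τ j '' tri, f j z = 0) :
    ∀ᵐ z, (∀ i, z ∈ τ i '' tri → z ∈ τ i '' triO ∧ (fun w => ∑ j, f j w) =ᶠ[𝓝 z] f i) ∧
      ((∀ i, z ∉ τ i '' triO) → (fun w => ∑ j, f j w) =ᶠ[𝓝 z] fun _ => 0) := by
  have hN : ∀ᵐ z, ∀ i, z ∉ τ i '' (tri \ triO) := by
    rw [ae_all_iff]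
    intro i
    have h2 : volume (τ i '' (tri \ triO)) = 0 := by
      rw [(hs i).volume_image, volume_tri_diff, mul_zero]
    refine measure_mono_null (fun z hz => ?_) h2
    exact not_not.1 hz
  have hcl : ∀ j, IsClosed (τ j '' tri) := fun j => by
    rw [← (hs j).coe_homeo]; exact (hs j).homeo.isClosedMap _ isClosed_tri'
  have hev : ∀ j z, z ∉ τ j '' tri → f j =ᶠ[𝓝 z] fun _ => 0 := fun j z hz =>
    Filter.eventually_of_mem ((hcl j).isOpen_compl.mem_nhds hz) (fun w hw => h0 j w hw)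
  filter_upwards [hN] with z hz
  have hOT : ∀ i, z ∈ τ i '' tri → z ∈ τ i '' triO := by
    rintro i ⟨p, hp, rfl⟩
    by_contra hcon
    refine hz i ⟨p, ⟨hp, fun h => hcon ⟨p, h, rfl⟩⟩, rfl⟩
  classical
  constructor
  · intro i hi
    have hi' := hOT i hi
    refine ⟨hi', ?_⟩
    have h1 : ∀ j, j ≠ i → f j =ᶠ[𝓝 z] fun _ => 0 := by
      intro j hj
      refine hev j z (fun h => ?_)
      exact Set.disjoint_left.1 (hdisj j i hj) (hOT j h) hi'
    have h2 : ∀ᶠ w in 𝓝 z, ∀ j, j ≠ i → f j w = 0 := by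
      rw [Filter.eventually_all]
      intro j
      by_cases hj : j = i
      · exact Filter.Eventually.of_forall fun w h => absurd hj h
      · filter_upwards [h1 j hj] with w hw _ using hw
    filter_upwards [h2] with w hw
    exact Finset.sum_eq_single i (fun j _ hj => hw j hj) (fun h => absurd (Finset.mem_univ i) h)
  · intro hi
    have h2 : ∀ᶠ w in 𝓝 z, ∀ j, f j w = 0 := by
      rw [Filter.eventually_all]
      intro j
      exact hev j z (fun h => hi j (hOT j h))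
    filter_upwards [h2] with w hw
    exact Finset.sum_eq_zero fun j _ => hw j

private theorem dv_congr' {ψ ψ' : ℂ → ℂ} {z : ℂ} (h : ψ =ᶠ[𝓝 z] ψ') : dv ψ z = dv ψ' z := by
  rw [dv, dv, h.fderiv_eq]
private theorem dbar_congr' {ψ ψ' : ℂ → ℂ} {z : ℂ} (h : ψ =ᶠ[𝓝 z] ψ') :
    dbar ψ z = dbar ψ' z := by
  rw [dbar, dbar, h.fderiv_eq]
private theorem D2_congr' {ψ ψ' : ℂ → ℂ} {z : ℂ} (h : ψ =ᶠ[𝓝 z] ψ') (a b : ℂ) :
    D2 ψ z a b = D2 ψ' z a b := by
  rw [D2, D2, h.fderiv.fderiv_eq]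
private theorem EB_congr' {ψ ψ' : ℂ → ℂ} {z : ℂ} (h : ψ =ᶠ[𝓝 z] ψ') : EB ψ z = EB ψ' z := by
  unfold EB
  simp only [D2_congr' h]

private theorem lip_sum {ι : Type} (s : Finset ι) {f : ι → ℂ → ℂ}
    (h : ∀ i, ∃ K, LipschitzWith K (f i)) : ∃ K, LipschitzWith K (fun z => ∑ j ∈ s, f j z) := by
  classical
  induction s using Finset.induction_on with
  | empty => exact ⟨0, by simpa using LipschitzWith.const (0 : ℂ)⟩
  | insert a s ha ih =>
    obtain ⟨K, hK⟩ := ih
    obtain ⟨K', hK'⟩ := h a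
    refine ⟨K' + K, ?_⟩
    simp only [Finset.sum_insert ha]
    exact hK'.add hK

private theorem c11_sum {ι : Type} (s : Finset ι) {f : ι → ℂ → ℂ}
    (h : ∀ i, C11 (f i)) : C11 (fun z => ∑ j ∈ s, f j z) := by
  classical
  induction s using Finset.induction_on with
  | empty =>
    refine ⟨by simpa using (contDiff_const : ContDiff ℝ 1 fun _ : ℂ => (0 : ℂ)), 0, ?_⟩
    have : fderiv ℝ (fun z : ℂ => ∑ j ∈ (∅ : Finset ι), f j z) = fun _ => 0 := by
      funext z; simp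
    rw [this]
    exact LipschitzWith.const _
  | insert a s ha ih =>
    obtain ⟨h1, K, hK⟩ := ih
    obtain ⟨h1', K', hK'⟩ := h a
    simp only [Finset.sum_insert ha]
    refine ⟨h1'.add h1, K' + K, ?_⟩
    have : fderiv ℝ (fun z : ℂ => f a z + ∑ j ∈ s, f j z) =
        fun z => fderiv ℝ (f a) z + fderiv ℝ (fun z => ∑ j ∈ s, f j z) z := by
      funext z
      exact fderiv_add (h1'.differentiable (by norm_num) z) (h1.differentiable (by norm_num) z)
    rw [this]
    exact hK'.add hK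

theorem GoodA.mono {V V' : Set ℂ} {e e' : ℝ} (h : GoodA V e) (hV : V ⊆ V') (hm : MeasurableSet V)
    (hm' : MeasurableSet V') (he : e ≤ e') : GoodA V' e' := by
  obtain ⟨ψ, hl, h0, hd, hi⟩ := h
  refine ⟨ψ, hl, h0, ?_, ?_⟩
  · filter_upwards [hd] with z hz h1 h2
    exact hz h1 (fun h => h2 (hV h))
  · refine le_trans (le_trans ?_ hi) he
    refine setIntegral_mono_set (int_dbar hl ?_) (Filter.Eventually.of_forall fun z => ?_)
      (Filter.Eventually.of_forall fun z hz => ⟨hz.1, fun h => hz.2 (hV h)⟩)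
    · exact ne_top_of_le_ne_top volume_tri_ne_top (measure_mono sdiff_subset)
    · simp only [Pi.zero_apply]; positivity

theorem GoodA.congr {V V' : Set ℂ} {e : ℝ} (h : GoodA V e) (hV : ∀ᵐ z, z ∈ V ↔ z ∈ V') :
    GoodA V' e := by
  obtain ⟨ψ, hl, h0, hd, hi⟩ := h
  refine ⟨ψ, hl, h0, ?_, ?_⟩
  · filter_upwards [hd, hV] with z hz hv h1 h2
    exact hz h1 (fun h => h2 (hv.1 h))
  · rw [setIntegral_congr_set (t := tri \ V)]
    · exact hi
    · filter_upwards [hV] with z hv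
      exact propext ⟨fun h => ⟨h.1, fun h' => h.2 (hv.1 h')⟩,
        fun h => ⟨h.1, fun h' => h.2 (hv.2 h')⟩⟩

theorem GoodB.mono {V : Set ℂ} {J J' : ℝ} (h : GoodB V J) (hJ : J ≤ J') : GoodB V J' := by
  obtain ⟨Ξ, h1, h2, h3, h4⟩ := h
  exact ⟨Ξ, h1, h2, h3, h4.trans hJ⟩

theorem GoodB.congr {V V' : Set ℂ} {J : ℝ} (h : GoodB V J) (hV : ∀ᵐ z, z ∈ V ↔ z ∈ V') :
    GoodB V' J := by
  obtain ⟨Ξ, h1, h2, h3, h4⟩ := h
  refine ⟨Ξ, h1, h2, ?_, h4⟩
  filter_upwards [h3, hV] with z hz hv h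
  exact hz (hv.2 h)

private theorem EB_zero (z : ℂ) : EB (fun _ => 0) z = 1 := by
  have h : ∀ a b : ℂ, D2 (fun _ : ℂ => (0 : ℂ)) z a b = 0 := by
    intro a b
    have h1 : fderiv ℝ (fun _ : ℂ => (0 : ℂ)) = fun _ => 0 := by funext z; simp
    rw [D2, h1]
    simp
  unfold EB
  rw [h, h, h]
  simp

theorem goodB_empty : GoodB ∅ 1 := by
  refine ⟨fun _ => 0, ⟨contDiff_const, 0, ?_⟩, fun _ _ => rfl, ?_, ?_⟩
  · have h1 : fderiv ℝ (fun _ : ℂ => (0 : ℂ)) = fun _ => 0 := by funext z; simp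
    rw [h1]; exact LipschitzWith.const _
  · exact Filter.Eventually.of_forall fun z hz => absurd hz (by simp)
  · simp only [EB_zero]
    rw [setIntegral_const, smul_eq_mul, mul_one, Measure.real, volume_tri',
      ENNReal.toReal_ofReal (by norm_num)]
    norm_num

theorem goodB_null {V : Set ℂ} (hV : volume V = 0) : GoodB V 1 := by
  refine goodB_empty.congr ?_
  have h : ∀ᵐ z, z ∉ V := by
    refine measure_mono_null (fun z hz => ?_) hV
    simpa using hz
  filter_upwards [h] with z hz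
  simp [hz]

/-- displacement fields: union over a decomposition of the triangle into similar triangles -/
theorem goodA_union {ι : Type} [Fintype ι] {τ : ι → ℂ → ℂ} {ρ : ι → ℝ}
    (hs : ∀ i, SimR (ρ i) (τ i)) (hsub : ∀ i, τ i '' tri ⊆ tri)
    (hdisj : ∀ i j, i ≠ j → Disjoint (τ i '' triO) (τ j '' triO))
    (hcov : ∀ z ∈ tri, ∃ i, z ∈ τ i '' tri) {V : ι → Set ℂ} {e : ι → ℝ} (hV : ∀ i, V i ⊆ tri)
    (hm : ∀ i, MeasurableSet (V i)) (h : ∀ i, GoodA (V i) (e i)) :
    GoodA (⋃ i, τ i '' V i) (∑ i, ρ i ^ 2 * e i) := by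
  choose ψ hl h0 hd hi using h
  choose ψ' hl' h0' hd' hn' using fun i => pushA (hs i) (hl i) (h0 i)
  have hloc := loc_sum hs hdisj h0'
  have hLip : ∃ K, LipschitzWith K (fun z => ∑ j, ψ' j z) := lip_sum Finset.univ hl'
  refine ⟨fun z => ∑ j, ψ' j z, hLip, ?_, ?_, ?_⟩
  · intro z hz
    exact Finset.sum_eq_zero fun j _ => h0' j z (fun h => hz (hsub j h))
  · have hd2 : ∀ᵐ z, ∀ i, ∀ p, τ i p = z → (p ∈ tri → p ∉ V i → 2 + dv (ψ i) p = 0) := by
      rw [ae_all_iff]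
      exact fun i => ae_simR (hs i) (hd i)
    filter_upwards [hloc, hd2] with z hz hz2 hzt hzV
    obtain ⟨i, p, hp, rfl⟩ := hcov z hzt
    rw [dv_congr' (hz.1 i ⟨p, hp, rfl⟩).2, hd']
    exact hz2 i p rfl hp (fun h => hzV (mem_iUnion.2 ⟨i, p, h, rfl⟩))
  · have hU : ∀ i, MeasurableSet (τ i '' (triO \ V i)) := fun i =>
      (hs i).measurableSet_image (isOpen_triO'.measurableSet.diff (hm i))
    have hfin : ∀ i, volume (τ i '' (triO \ V i)) ≠ ⊤ := by
      intro i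
      refine ne_top_of_le_ne_top volume_tri_ne_top (measure_mono ?_)
      exact (image_mono (sdiff_subset.trans triO_subset')).trans (hsub i)
    have hstep : ∫ z in tri \ ⋃ i, τ i '' V i, 4 * ‖dbar (fun z => ∑ j, ψ' j z) z‖ ^ 2 ≤
        ∫ z in ⋃ i, τ i '' (triO \ V i), 4 * ‖dbar (fun z => ∑ j, ψ' j z) z‖ ^ 2 := by
      refine setIntegral_mono_set (int_dbar hLip ?_) (Filter.Eventually.of_forall fun z => ?_) ?_
      · refine ne_top_of_le_ne_top volume_tri_ne_top (measure_mono (iUnion_subset fun i => ?_))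
        exact (image_mono (sdiff_subset.trans triO_subset')).trans (hsub i)
      · simp only [Pi.zero_apply]; positivity
      · filter_upwards [hloc] with z hz hzS
        obtain ⟨i, hzi⟩ := hcov z hzS.1
        obtain ⟨p, hp, hpz⟩ := (hz.1 i hzi).1
        exact mem_iUnion.2 ⟨i, p, ⟨hp, fun h => hzS.2 (mem_iUnion.2 ⟨i, p, h, hpz⟩)⟩, hpz⟩
    refine hstep.trans ?_
    rw [integral_iUnion_fintype hU (fun i j hij => (hdisj i j hij).mono
      (image_mono sdiff_subset) (image_mono sdiff_subset)) (fun i => int_dbar hLip (hfin i))]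
    refine Finset.sum_le_sum fun i _ => ?_
    have h1 : ∫ z in τ i '' (triO \ V i), 4 * ‖dbar (fun z => ∑ j, ψ' j z) z‖ ^ 2 =
        ∫ z in τ i '' (triO \ V i), 4 * ‖dbar (ψ' i) z‖ ^ 2 := by
      refine setIntegral_congr_ae (hU i) ?_
      filter_upwards [hloc] with z hz hzU
      rw [dbar_congr' (hz.1 i (image_mono (sdiff_subset.trans triO_subset') hzU)).2]
    rw [h1, setIntegral_simR (hs i)]
    refine mul_le_mul_of_nonneg_left ?_ (by positivity)
    simp only [hn']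
    refine le_trans ?_ (hi i)
    refine setIntegral_mono_set (int_dbar (hl i) ?_) (Filter.Eventually.of_forall fun z => ?_)
      (Filter.Eventually.of_forall fun z hz => ⟨triO_subset' hz.1, hz.2⟩)
    · exact ne_top_of_le_ne_top volume_tri_ne_top (measure_mono sdiff_subset)
    · simp only [Pi.zero_apply]; positivity

/-- stress fields: union over disjoint similar triangles (not necessarily filling). -/
theorem goodB_union {ι : Type} [Fintype ι] {τ : ι → ℂ → ℂ} {ρ : ι → ℝ}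
    (hs : ∀ i, SimR (ρ i) (τ i)) (hsub : ∀ i, τ i '' tri ⊆ tri)
    (hdisj : ∀ i j, i ≠ j → Disjoint (τ i '' triO) (τ j '' triO))
    {V : ι → Set ℂ} (hV : ∀ i, V i ⊆ tri) (hm : ∀ i, MeasurableSet (V i)) {J : ℝ} (hJ : 1 ≤ J)
    (h : ∀ i, GoodB (V i) J) : GoodB (⋃ i, τ i '' V i) J := by
  choose Ξ hl h0 hd hi using h
  choose Ξ' hl' h0' hd' hn' using fun i => pushB (hs i) (hl i) (h0 i)
  have hloc := loc_sum hs hdisj h0'
  have hC : C11 (fun z => ∑ j, Ξ' j z) := c11_sum Finset.univ hl'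
  refine ⟨fun z => ∑ j, Ξ' j z, hC, ?_, ?_, ?_⟩
  · intro z hz
    exact Finset.sum_eq_zero fun j _ => h0' j z (fun h => hz (hsub j h))
  · have hd2 : ∀ᵐ z, ∀ i, ∀ p, τ i p = z → (p ∈ V i → ∀ a b : ℂ, D2 (Ξ i) p a b = -(a * b)) := by
      rw [ae_all_iff]
      exact fun i => ae_simR (hs i) (hd i)
    filter_upwards [hloc, hd2] with z hz hz2 hzV a b
    obtain ⟨i, p, hp, rfl⟩ := mem_iUnion.1 hzV
    rw [D2_congr' (hz.1 i ⟨p, hV i hp, rfl⟩).2]
    exact hn' i p (hz2 i p rfl hp) a b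
  · have hU : ∀ i, MeasurableSet (τ i '' triO) := fun i =>
      (hs i).measurableSet_image isOpen_triO'.measurableSet
    have hUsub : (⋃ i, τ i '' triO) ⊆ tri := iUnion_subset fun i =>
      (image_mono triO_subset').trans (hsub i)
    have hfin : ∀ i, volume (τ i '' triO) ≠ ⊤ := fun i =>
      ne_top_of_le_ne_top volume_tri_ne_top (measure_mono ((subset_iUnion _ i).trans hUsub))
    have hUm : MeasurableSet (⋃ i, τ i '' triO) := MeasurableSet.iUnion hU
    have hdj : Pairwise (Function.onFun Disjoint fun i => τ i '' triO) :=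
      fun i j hij => hdisj i j hij
    -- the part inside the small triangles
    have hin : ∫ z in ⋃ i, τ i '' triO, EB (fun z => ∑ j, Ξ' j z) z =
        ∑ i, ρ i ^ 2 * ∫ z in tri, EB (Ξ i) z := by
      rw [integral_iUnion_fintype hU hdj (fun i => int_EB hC (hfin i))]
      refine Finset.sum_congr rfl fun i _ => ?_
      have h1 : ∫ z in τ i '' triO, EB (fun z => ∑ j, Ξ' j z) z =
          ∫ z in τ i '' triO, EB (Ξ' i) z := by
        refine setIntegral_congr_ae (hU i) ?_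
        filter_upwards [hloc] with z hz hzU
        rw [EB_congr' (hz.1 i (image_mono triO_subset' hzU)).2]
      rw [h1, setIntegral_simR (hs i)]
      simp only [hd']
      congr 1
      refine setIntegral_congr_set ?_
      have h2 : ∀ᵐ z, z ∉ tri \ triO := by
        refine measure_mono_null (fun z hz => ?_) volume_tri_diff
        simpa using hz
      filter_upwards [h2] with z hz
      refine propext ⟨fun h => triO_subset' h, fun h => ?_⟩
      by_contra hcon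
      exact hz ⟨h, hcon⟩
    -- the rest
    have hvU : volume.real (⋃ i, τ i '' triO) = ∑ i, ρ i ^ 2 * (1 / 8) := by
      rw [measureReal_def, measure_iUnion hdj hU, tsum_fintype, ENNReal.toReal_sum
        (fun i _ => hfin i)]
      refine Finset.sum_congr rfl fun i _ => ?_
      rw [(hs i).volume_image, volume_triO', ENNReal.toReal_mul, ENNReal.toReal_ofReal
        (by positivity), ENNReal.toReal_ofReal (by norm_num)]
    have hvT : volume.real tri = 1 / 8 := by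
      rw [measureReal_def, volume_tri', ENNReal.toReal_ofReal (by norm_num)]
    have hout : ∫ z in tri \ ⋃ i, τ i '' triO, EB (fun z => ∑ j, Ξ' j z) z =
        1 / 8 - ∑ i, ρ i ^ 2 * (1 / 8) := by
      have h1 : ∫ z in tri \ ⋃ i, τ i '' triO, EB (fun z => ∑ j, Ξ' j z) z =
          ∫ z in tri \ ⋃ i, τ i '' triO, (1 : ℝ) := by
        refine setIntegral_congr_ae (measurableSet_tri.diff hUm) ?_
        filter_upwards [hloc] with z hz hzU
        have h3 : ∀ i, z ∉ τ i '' triO := fun i h => hzU.2 (mem_iUnion.2 ⟨i, h⟩)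
        rw [EB_congr' (hz.2 h3), EB_zero]
      rw [h1, setIntegral_const, smul_eq_mul, mul_one, measureReal_sdiff hUsub hUm
        volume_tri_ne_top, hvT, hvU]
    have hsum1 : ∑ i, ρ i ^ 2 ≤ 1 := by
      have h1 : volume.real (⋃ i, τ i '' triO) ≤ volume.real tri :=
        measureReal_mono hUsub volume_tri_ne_top
      rw [hvU, hvT, ← Finset.sum_mul] at h1
      linarith
    have htot : ∫ z in tri, EB (fun z => ∑ j, Ξ' j z) z =
        (∫ z in ⋃ i, τ i '' triO, EB (fun z => ∑ j, Ξ' j z) z) +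
          ∫ z in tri \ ⋃ i, τ i '' triO, EB (fun z => ∑ j, Ξ' j z) z := by
      have := integral_inter_add_sdiff (μ := volume) (s := tri) hUm
        (int_EB hC volume_tri_ne_top)
      rw [inter_eq_self_of_subset_right hUsub] at this
      exact this.symm
    rw [htot, hin, hout]
    have h5 : ∑ i, ρ i ^ 2 * ∫ z in tri, EB (Ξ i) z ≤ ∑ i, ρ i ^ 2 * (J / 8) := by
      refine Finset.sum_le_sum fun i _ => mul_le_mul_of_nonneg_left ?_ (by positivity)
      linarith [hi i]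
    rw [← Finset.sum_mul] at h5
    rw [← Finset.sum_mul]
    nlinarith

end EBC
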