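import Pool.Agent.Work.MP_ebc928_an.AsmUnion
import Pool.Agent.Work.MP_ebc928_an.AsmSub

open MeasureTheory Complex Set
open scoped ContDiff ComplexConjugate

noncomputable section
namespace EBC

private theorem t4_disjO (i j : Fin 4) (h : i ≠ j) :
    Disjoint (t4 i '' triO) (t4 j '' triO) :=
  (t4_disj i j h).mono_right (image_mono triO_subset)
private theorem t2_disjO (i j : Fin 2) (h : i ≠ j) :
    Disjoint (t2 i '' triO) (t2 j '' triO) :=
  (t2_disj i j h).mono_right (image_mono triO_subset)
private theorem sq_sqrt2 : (1 / Real.sqrt 2) ^ 2 = 1 / 2 := by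
  rw [div_pow, one_pow, Real.sq_sqrt (by norm_num)]

theorem goodA_sub4 {V : Fin 4 → Set ℂ} {e : Fin 4 → ℝ} (hV : ∀ i, V i ⊆ tri)
    (hm : ∀ i, MeasurableSet (V i)) (h : ∀ i, GoodA (V i) (e i)) :
    GoodA (sub4 V) ((e 0 + e 1 + e 2 + e 3) / 4) := by
  have h1 := goodA_union (ρ := fun _ => 1 / 2) simR_t4 t4_sub t4_disjO t4_cover hV hm h
  have h2 : ∑ i : Fin 4, (1 / 2 : ℝ) ^ 2 * e i = (e 0 + e 1 + e 2 + e 3) / 4 := by
    rw [Fin.sum_univ_four]; ring
  rw [h2] at h1
  exact h1

theorem goodA_sub2 {V : Fin 2 → Set ℂ} {e : ℝ} (hV : ∀ i, V i ⊆ tri)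
    (hm : ∀ i, MeasurableSet (V i)) (h : ∀ i, GoodA (V i) e) : GoodA (sub2 V) e := by
  have h1 := goodA_union (ρ := fun _ => 1 / Real.sqrt 2) simR_t2 t2_sub t2_disjO t2_cover hV hm h
  have h2 : ∑ i : Fin 2, (1 / Real.sqrt 2) ^ 2 * e = e := by
    rw [Fin.sum_univ_two, sq_sqrt2]; ring
  rw [h2] at h1
  exact h1

theorem goodB_sub4 {V : Fin 4 → Set ℂ} {J : ℝ} (hJ : 1 ≤ J) (hV : ∀ i, V i ⊆ tri)
    (hm : ∀ i, MeasurableSet (V i)) (h : ∀ i, GoodB (V i) J) : GoodB (sub4 V) J :=
  goodB_union (ρ := fun _ => 1 / 2) simR_t4 t4_sub t4_disjO hV hm hJ h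

theorem goodB_sub2 {V : Fin 2 → Set ℂ} {J : ℝ} (hJ : 1 ≤ J) (hV : ∀ i, V i ⊆ tri)
    (hm : ∀ i, MeasurableSet (V i)) (h : ∀ i, GoodB (V i) J) : GoodB (sub2 V) J :=
  goodB_union (ρ := fun _ => 1 / Real.sqrt 2) simR_t2 t2_sub t2_disjO hV hm hJ h

private theorem hom_zero_image {V : Set ℂ} : hom 0 '' V ⊆ {cen} := by
  rintro _ ⟨z, -, rfl⟩
  simp [hom]

theorem goodB_hom {V : Set ℂ} {J s : ℝ} (hJ : 1 ≤ J) (hV : V ⊆ tri)
    (hm : MeasurableSet V) (h : GoodB V J) (h0 : 0 ≤ s) (h1 : s ≤ 1) : GoodB (hom s '' V) J := by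
  rcases h0.eq_or_lt with hs | hs
  · subst hs
    refine (goodB_null ?_).mono hJ
    exact measure_mono_null hom_zero_image (measure_singleton _)
  · have h2 := goodB_union (ι := Unit) (τ := fun _ => hom s) (ρ := fun _ => s)
      (fun _ => simR_hom hs) (fun _ => hom_image_subset h0 h1)
      (fun i j hij => absurd (Subsingleton.elim i j) hij) (V := fun _ => V) (fun _ => hV)
      (fun _ => hm) hJ (fun _ => h)
    rwa [iUnion_const] at h2

theorem sub4_subset {V : Fin 4 → Set ℂ} (hV : ∀ i, V i ⊆ tri) : sub4 V ⊆ tri :=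
  iUnion_subset fun i => (image_mono (hV i)).trans (t4_sub i)
theorem sub2_subset {V : Fin 2 → Set ℂ} (hV : ∀ i, V i ⊆ tri) : sub2 V ⊆ tri :=
  iUnion_subset fun i => (image_mono (hV i)).trans (t2_sub i)
theorem measurableSet_sub4 {V : Fin 4 → Set ℂ} (hm : ∀ i, MeasurableSet (V i)) :
    MeasurableSet (sub4 V) :=
  MeasurableSet.iUnion fun i => (simR_t4 i).measurableSet_image (hm i)
theorem measurableSet_sub2 {V : Fin 2 → Set ℂ} (hm : ∀ i, MeasurableSet (V i)) :
    MeasurableSet (sub2 V) :=
  MeasurableSet.iUnion fun i => (simR_t2 i).measurableSet_image (hm i)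

/-- the scaled clusters with ratio at most `1/10`, rewritten with ratio exactly `1/10` -/
private theorem hom_factor {V : Set ℂ} {s : ℝ} : hom s '' V = hom (1 / 10) '' (hom (10 * s) '' V) := by
  rw [image_image]
  refine image_congr' fun z => ?_
  rw [hom_hom]
  congr 1
  ring

private theorem measurableSet_hom {V : Set ℂ} (hm : MeasurableSet V) {s : ℝ} (h0 : 0 ≤ s) :
    MeasurableSet (hom s '' V) := by
  rcases h0.eq_or_lt with hs | hs
  · subst hs
    exact (Set.Subsingleton.measurableSet
      ((Set.subsingleton_singleton (a := cen)).anti hom_zero_image))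
  · exact (simR_hom hs).measurableSet_image hm

/-- the union of the two clusters of the half triangles and of the central cluster -/
theorem goodB_three {V : Set ℂ} {J : ℝ} (hJ : 1 ≤ J) (hV : V ⊆ tri) (hm : MeasurableSet V)
    (h : GoodB V J) {s : Fin 2 → ℝ} {s' : ℝ} (h0 : ∀ i, 0 ≤ s i) (h1 : ∀ i, s i ≤ 1 / 10)
    (h0' : 0 ≤ s') (h1' : s' ≤ 1 / 10) :
    GoodB (sub2 (fun i => hom (s i) '' V) ∪ hom s' '' V) J := by
  have hten : (0 : ℝ) < 1 / 10 := by norm_num
  have key := goodB_union (ι := Option (Fin 2))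
    (τ := fun o => o.elim (hom (1 / 10)) (fun i => t2 i ∘ hom (1 / 10)))
    (ρ := fun o => o.elim (1 / 10) (fun _ => 1 / Real.sqrt 2 * (1 / 10)))
    (V := fun o => o.elim (hom (10 * s') '' V) (fun i => hom (10 * s i) '' V)) (J := J)
    (by
      rintro (_ | i)
      · exact simR_hom hten
      · exact (simR_t2 i).comp (simR_hom hten))
    (by
      rintro (_ | i)
      · exact hom_image_subset hten.le (by norm_num)
      · show (t2 i ∘ hom (1 / 10)) '' tri ⊆ tri
        rw [image_comp]
        exact (image_mono (hom_image_subset hten.le (by norm_num))).trans (t2_sub i))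
    (by
      have hA : ∀ i : Fin 2, Disjoint ((t2 i ∘ hom (1 / 10)) '' triO) (hom (1 / 10) '' triO) := by
        intro i
        rw [image_comp]
        exact (t2_hom_disj i).mono (image_mono (image_mono triO_subset)) (image_mono triO_subset)
      rintro (_ | i) (_ | j) hij
      · exact absurd rfl hij
      · exact (hA j).symm
      · exact hA i
      · have hij' : i ≠ j := fun h => hij (by rw [h])
        have hO : hom (1 / 10) '' triO ⊆ triO := by
          rintro _ ⟨z, ⟨hz1, hz2, hz3⟩, rfl⟩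
          have hre : (hom (1 / 10) z).re = 3 / 8 + (1 / 10) * (z.re - 3 / 8) := by
            simp [hom, cen]
          have him : (hom (1 / 10) z).im = 1 / 8 + (1 / 10) * (z.im - 1 / 8) := by
            simp [hom, cen]
          refine ⟨?_, ?_, ?_⟩
          · rw [him]; linarith
          · rw [him, hre]; linarith
          · rw [hre]; linarith
        show Disjoint ((t2 i ∘ hom (1 / 10)) '' triO) ((t2 j ∘ hom (1 / 10)) '' triO)
        rw [image_comp, image_comp]
        exact (t2_disjO i j hij').mono (image_mono hO) (image_mono hO))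
    (by
      rintro (_ | i)
      · exact (image_mono hV).trans (hom_image_subset (by positivity) (by linarith))
      · exact (image_mono hV).trans (hom_image_subset (by have := h0 i; positivity)
          (by linarith [h1 i])))
    (by
      rintro (_ | i)
      · exact measurableSet_hom hm (by positivity)
      · exact measurableSet_hom hm (by have := h0 i; positivity))
    hJ
    (by
      rintro (_ | i)
      · exact goodB_hom hJ hV hm h (by positivity) (by linarith)
      · exact goodB_hom hJ hV hm h (by have := h0 i; positivity) (by linarith [h1 i]))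
  have hset : (⋃ o : Option (Fin 2), (fun o : Option (Fin 2) => o.elim (hom (1 / 10))
      (fun i => t2 i ∘ hom (1 / 10))) o '' ((fun o : Option (Fin 2) => o.elim
        (hom (10 * s') '' V) (fun i => hom (10 * s i) '' V)) o)) =
      sub2 (fun i => hom (s i) '' V) ∪ hom s' '' V := by
    rw [iUnion_option, Set.union_comm]
    congr 1
    · refine iUnion_congr fun i => ?_
      show (t2 i ∘ hom (1 / 10)) '' (hom (10 * s i) '' V) = t2 i '' (hom (s i) '' V)
      rw [image_comp, ← hom_factor]
    · exact hom_factor.symm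
  rw [← hset]
  exact key

end EBC
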