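import Pool.Agent.Work.MP_ebc928_an.Defs

/-! Periodic base structures (arbitrary lattice) and the void content cut out of them. -/

open MeasureTheory Complex Set
open scoped ContDiff ComplexConjugate

noncomputable section
namespace EBC

/-- periodicity with respect to the lattice `ℤω₁ + ℤω₂` -/
def PerL {α : Type*} (ω₁ ω₂ : ℂ) (f : ℂ → α) : Prop := ∀ z, f (z + ω₁) = f z ∧ f (z + ω₂) = f z

/-- fundamental parallelogram -/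
def par (ω₁ ω₂ : ℂ) : Set ℂ :=
  {z | ∃ s t : ℝ, s ∈ Ico (0 : ℝ) 1 ∧ t ∈ Ico (0 : ℝ) 1 ∧ z = s • ω₁ + t • ω₂}

/-- A base structure: void set `Vd`, displacement `z + ψ(z)` with energy density `≤ e` in the
mean, complex Airy function `z²/2 + Ξ(z)` with mean energy `≤ J`. -/
structure IsBase (ω₁ ω₂ : ℂ) (Vd : Set ℂ) (ψ Ξ : ℂ → ℂ) (p₀ : ℂ) (r₀ e J : ℝ) : Prop where
  pos : 0 < (conj ω₁ * ω₂).im
  isOpen : IsOpen Vd
  nonempty : Vd.Nonempty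
  perV : ∀ z, (z + ω₁ ∈ Vd ↔ z ∈ Vd) ∧ (z + ω₂ ∈ Vd ↔ z ∈ Vd)
  smooth : ContDiff ℝ ∞ ψ
  perψ : PerL ω₁ ω₂ ψ
  div0 : ∀ z ∉ Vd, 2 + dv ψ z = 0
  enA : ∫ z in par ω₁ ω₂ \ Vd, 4 * ‖dbar ψ z‖ ^ 2 ≤ e * (conj ω₁ * ω₂).im
  c11 : C11 Ξ
  perΞ : PerL ω₁ ω₂ Ξ
  flat : Flat Ξ Vd
  enB : ∫ z in par ω₁ ω₂, EB Ξ z ≤ J * (conj ω₁ * ω₂).im
  r₀pos : 0 < r₀
  solid : ∀ m n : ℤ, Metric.ball (p₀ + m • ω₁ + n • ω₂) r₀ ∩ Vd = ∅

/-- distance to the boundary of the scaled triangle `n • tri` -/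
def mm (n : ℝ) (z : ℂ) : ℝ := min (min z.im (n / 2 - z.re)) (z.re - z.im)

/-- the void content of `tri` obtained from a base structure scaled by `1/n`: the voids of the
base structure well inside, and round holes in a ring near the boundary. -/
def content (ω₁ ω₂ : ℂ) (Vd : Set ℂ) (p₀ : ℂ) (r₀ D n : ℝ) : Set ℂ :=
  {z | ((n : ℂ) * z ∈ Vd ∧ 20 * D < mm n (n * z)) ∨
    ∃ k l : ℤ, 5 * D ≤ mm n (p₀ + k • ω₁ + l • ω₂) ∧ mm n (p₀ + k • ω₁ + l • ω₂) ≤ 30 * D ∧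
      dist ((n : ℂ) * z) (p₀ + k • ω₁ + l • ω₂) < r₀ / 2}

end EBC
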