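import Pool.Agent.Work.MP_ebc928_an.WBasic

open MeasureTheory Complex Set Filter Topology
open scoped ContDiff ComplexConjugate ENNReal

noncomputable section
namespace EBC

theorem br_density_adm {S : Set ℂ} (hS : Composite S) {μ : ℝ} (hμ : 0 < μ) (a b c : ℝ)
    {u ux uy : ℂ → ℂ} (hu : Adm S ((a + b) / 2) u ux uy) :
    ∫⁻ z in cell, density μ S z (a + (ux z).re) (b + (uy z).im) (c + ((ux z).im + (uy z).re) / 2)
      = ENNReal.ofReal (μ * energy S (((a - b) / 2 : ℝ) + (c : ℂ) * I) ux uy) := by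
  classical
  set β : ℂ := (((a - b) / 2 : ℝ) : ℂ) + (c : ℂ) * I with hβ
  have hi : IntegrableOn (fun z => μ * (4 * ‖β + (ux z + I * uy z) / 2‖ ^ 2)) (cell ∩ S) :=
    (hu.1.wb_integrable_energy₁ β S).const_mul μ
  have h1 : ENNReal.ofReal (μ * energy S β ux uy)
      = ∫⁻ z in cell ∩ S, ENNReal.ofReal (μ * (4 * ‖β + (ux z + I * uy z) / 2‖ ^ 2)) := by
    unfold energy
    rw [← integral_const_mul]
    exact ofReal_integral_eq_lintegral_ofReal hi (ae_of_all _ (fun z => by positivity))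
  rw [h1, inter_comm, ← Measure.restrict_restrict hS.meas, ← lintegral_indicator hS.meas]
  apply lintegral_congr_ae
  filter_upwards [hu.2] with z hz
  by_cases hzS : z ∈ S
  · have h2 := hz hzS
    have h3 : a + (ux z).re + (b + (uy z).im) = 0 := by linarith
    rw [Set.indicator_of_mem hzS]
    unfold density
    rw [if_pos hzS, if_pos h3]
    congr 1
    have h4 : ‖β + (ux z + I * uy z) / 2‖ ^ 2
        = ((a + (ux z).re - (b + (uy z).im)) / 2) ^ 2 + (c + ((ux z).im + (uy z).re) / 2) ^ 2 := by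
      rw [← Complex.normSq_eq_norm_sq, Complex.normSq_apply]
      have e1 : (β + (ux z + I * uy z) / 2).re = (a + (ux z).re - (b + (uy z).im)) / 2 := by
        rw [hβ]
        simp
        ring
      have e2 : (β + (ux z + I * uy z) / 2).im = c + ((ux z).im + (uy z).re) / 2 := by
        rw [hβ]
        simp
      rw [e1, e2]
      ring
    rw [h4]
    have h5 : b + (uy z).im = -(a + (ux z).re) := by linarith
    rw [h5]
    ring
  · rw [Set.indicator_of_notMem hzS]
    unfold density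
    rw [if_neg hzS]

theorem br_aemeasurable {S : Set ℂ} (hS : Composite S) (μ a b c : ℝ)
    {u ux uy : ℂ → ℂ} (hu : Fluct u ux uy) :
    AEMeasurable (fun z => density μ S z (a + (ux z).re) (b + (uy z).im)
      (c + ((ux z).im + (uy z).re) / 2)) (volume.restrict cell) := by
  classical
  set vx := hu.memx.1.mk ux with hvx
  set vy := hu.memy.1.mk uy with hvy
  have mx : Measurable vx := hu.memx.1.stronglyMeasurable_mk.measurable
  have my : Measurable vy := hu.memy.1.stronglyMeasurable_mk.measurable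
  refine ⟨fun z => density μ S z (a + (vx z).re) (b + (vy z).im)
      (c + ((vx z).im + (vy z).re) / 2), ?_, ?_⟩
  · unfold density
    have m1 : Measurable fun z => a + (vx z).re := (Complex.measurable_re.comp mx).const_add a
    have m2 : Measurable fun z => b + (vy z).im := (Complex.measurable_im.comp my).const_add b
    have m3 : Measurable fun z => c + ((vx z).im + (vy z).re) / 2 :=
      (((Complex.measurable_im.comp mx).add (Complex.measurable_re.comp my)).div_const 2).const_add c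
    refine Measurable.ite hS.meas (Measurable.ite ?_ ?_ measurable_const) measurable_const
    · exact measurableSet_eq_fun (m1.add m2) measurable_const
    · exact ENNReal.measurable_ofReal.comp
        (((((m1.pow_const 2).add (m2.pow_const 2))).add ((m3.pow_const 2).const_mul 2)).const_mul
          (2 * μ))
  · filter_upwards [hu.memx.1.ae_eq_mk, hu.memy.1.ae_eq_mk] with z h1 h2
    simp only [h1, h2, hvx, hvy]

theorem br_density_not {S : Set ℂ} (hS : Composite S) {μ : ℝ} (a b c : ℝ)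
    {u ux uy : ℂ → ℂ} (hu : Fluct u ux uy) (hn : ¬ Adm S ((a + b) / 2) u ux uy) :
    ∫⁻ z in cell, density μ S z (a + (ux z).re) (b + (uy z).im) (c + ((ux z).im + (uy z).re) / 2)
      = ⊤ := by
  classical
  have h1 : ¬ ∀ᵐ z ∂(volume.restrict cell), z ∈ S →
      2 * ((a + b) / 2) + (ux z).re + (uy z).im = 0 := fun h => hn ⟨hu, h⟩
  apply lintegral_eq_top_of_measure_eq_top_ne_zero (br_aemeasurable hS μ a b c hu)
  intro h0
  apply h1
  rw [ae_iff]
  refine measure_mono_null ?_ h0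
  intro z hz
  simp only [mem_ofPred_eq, Classical.not_imp] at hz ⊢
  obtain ⟨hzS, hz2⟩ := hz
  unfold density
  rw [if_pos hzS, if_neg]
  intro h3
  apply hz2
  linarith

theorem effEnergy_eq {S : Set ℂ} (hS : Composite S) (hne : ∀ α : ℝ, ∃ u ux uy, Adm S α u ux uy)
    {μ : ℝ} (hμ : 0 < μ) (a b c : ℝ) :
    effEnergy μ S a b c =
      ENNReal.ofReal (μ * W S ((a + b) / 2) (((a - b) / 2 : ℝ) + (c : ℂ) * I)) := by
  set β : ℂ := (((a - b) / 2 : ℝ) : ℂ) + (c : ℂ) * I with hβ
  apply le_antisymm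
  · apply le_of_forall_gt_imp_ge_of_dense
    intro x hx
    by_cases hxt : x = ⊤
    · rw [hxt]; exact le_top
    · have hx2 : μ * W S ((a + b) / 2) β < x.toReal := by
        rwa [← ENNReal.ofReal_lt_iff_lt_toReal (mul_nonneg hμ.le (W_nonneg _ _ _)) hxt]
      have hx3 : W S ((a + b) / 2) β < x.toReal / μ := by
        rw [lt_div_iff₀ hμ]; linarith
      obtain ⟨u, ux, uy, hu, he⟩ := exists_lt_of_W_lt (hne _) hx3
      have h1 : effEnergy μ S a b c ≤ ENNReal.ofReal (μ * energy S β ux uy) := by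
        rw [← br_density_adm hS hμ a b c hu]
        unfold effEnergy
        exact iInf_le_of_le u (iInf_le_of_le ux (iInf_le_of_le uy (iInf_le_of_le hu.1 le_rfl)))
      refine h1.trans ?_
      rw [lt_div_iff₀ hμ] at he
      calc ENNReal.ofReal (μ * energy S β ux uy) ≤ ENNReal.ofReal x.toReal :=
            ENNReal.ofReal_le_ofReal (by linarith)
        _ = x := ENNReal.ofReal_toReal hxt
  · unfold effEnergy
    refine le_iInf fun u => le_iInf fun ux => le_iInf fun uy => le_iInf fun hu => ?_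
    by_cases hA : Adm S ((a + b) / 2) u ux uy
    · rw [br_density_adm hS hμ a b c hA]
      apply ENNReal.ofReal_le_ofReal
      have := W_le hA β
      gcongr
    · rw [br_density_not hS a b c hu hA]
      exact le_top

theorem br_isoPairs_le {μ : ℝ} (hμ : 0 < μ) {p : ℝ × ℝ} (hp : p ∈ isoPairs μ) : p.2 ≤ μ := by
  obtain ⟨_, h2, S, hS, hI⟩ := hp
  have h3 := hI 1 (-1) 0
  have h4 : effEnergy μ S 1 (-1) 0 ≤ ENNReal.ofReal (4 * μ) := by
    have h5 : effEnergy μ S 1 (-1) 0 ≤ ∫⁻ z in cell, density μ S z (1 + ((0 : ℂ)).re)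
        (-1 + ((0 : ℂ)).im) (0 + (((0 : ℂ)).im + ((0 : ℂ)).re) / 2) := by
      unfold effEnergy
      exact iInf_le_of_le (fun _ => 0) (iInf_le_of_le (fun _ => 0) (iInf_le_of_le (fun _ => 0)
        (iInf_le_of_le fluct_zero le_rfl)))
    refine h5.trans ?_
    have h6 : ∀ z, density μ S z (1 + ((0 : ℂ)).re)
        (-1 + ((0 : ℂ)).im) (0 + (((0 : ℂ)).im + ((0 : ℂ)).re) / 2) ≤ ENNReal.ofReal (4 * μ) := by
      intro z
      unfold density
      split_ifs with h7 h8
      · apply ENNReal.ofReal_le_ofReal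
        simp only [Complex.zero_re, Complex.zero_im]
        linarith
      · exfalso
        apply h8
        simp
      · exact zero_le
    refine (lintegral_mono h6).trans ?_
    rw [lintegral_const, Measure.restrict_apply_univ, wb_volume_cell₁, mul_one]
  rw [h3] at h4
  have h8 := (ENNReal.ofReal_le_ofReal_iff (by positivity)).1 h4
  linarith

/-- From nearly optimal exactly isotropic composites to the statement about the closure. -/
theorem final_of_main {c₀ : ℝ} (hc : 4 / 5 < c₀)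
    (main : ∀ η > 0, ∃ (S : Set ℂ) (κ m : ℝ), Composite S ∧ (∃ u ux uy, Adm S 1 u ux uy) ∧
      0 ≤ κ ∧ κ ≤ η ∧ c₀ ≤ m ∧ ∀ (α : ℝ) (β : ℂ), W S α β = 4 * κ * α ^ 2 + 4 * m * ‖β‖ ^ 2)
    {μ : ℝ} (hμ : 0 < μ) :
    (∃ m : ℝ, c₀ * μ ≤ m ∧ ((0 : ℝ), m) ∈ closure (isoPairs μ)) ∧
      (∀ m : ℝ, ((0 : ℝ), m) ∈ closure (isoPairs μ) → m ≤ μ) ∧
      sSup {m : ℝ | ((0 : ℝ), m) ∈ closure (isoPairs μ)} ≠ 4 * μ / 5 := by
  have hpairs : ∀ η > 0, ∃ κ m : ℝ, 0 ≤ κ ∧ κ ≤ η ∧ c₀ ≤ m ∧ m ≤ 1 ∧
      (κ * μ, m * μ) ∈ isoPairs μ := by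
    intro η hη
    obtain ⟨S, κ, m, hS, hne, hκ, hκη, hm, hW⟩ := main η hη
    have hm1 : m ≤ 1 := by
      have h1 := W_zero_le S 1
      rw [hW 0 1] at h1
      simp at h1
      linarith
    refine ⟨κ, m, hκ, hκη, hm, hm1, ?_, ?_, S, hS, ?_⟩
    · exact mul_nonneg hκ hμ.le
    · exact mul_nonneg (by linarith) hμ.le
    · intro a b c
      rw [effEnergy_eq hS (wb_adm_ne hne) hμ, hW]
      congr 1
      rw [← Complex.normSq_eq_norm_sq, Complex.normSq_apply]
      simp
      ring
  have hub : ∀ m : ℝ, ((0 : ℝ), m) ∈ closure (isoPairs μ) → m ≤ μ := by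
    intro m hm
    have hcl : IsClosed {p : ℝ × ℝ | p.2 ≤ μ} := isClosed_le continuous_snd continuous_const
    exact (closure_minimal (fun p hp => br_isoPairs_le hμ hp) hcl) hm
  have hex : ∃ m : ℝ, c₀ * μ ≤ m ∧ ((0 : ℝ), m) ∈ closure (isoPairs μ) := by
    choose κ m h0 h1 h2 h3 h4 using fun n : ℕ => hpairs (1 / ((n : ℝ) + 1)) (by positivity)
    have hcomp : ∀ n, m n * μ ∈ Icc (c₀ * μ) μ := fun n =>
      ⟨by have := h2 n; gcongr, by have := h3 n; nlinarith⟩
    obtain ⟨m', hm', φ, hφ, hlim⟩ := isCompact_Icc.tendsto_subseq hcomp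
    refine ⟨m', hm'.1, ?_⟩
    refine mem_closure_of_tendsto (f := fun n => (κ (φ n) * μ, m (φ n) * μ)) (b := atTop) ?_
      (Eventually.of_forall fun n => h4 (φ n))
    refine Tendsto.prodMk_nhds ?_ hlim
    have hk : Tendsto κ atTop (𝓝 0) :=
      squeeze_zero h0 h1 tendsto_one_div_add_atTop_nhds_zero_nat
    have hk2 : Tendsto (fun n => κ n * μ) atTop (𝓝 0) := by
      simpa using hk.mul_const μ
    exact hk2.comp hφ.tendsto_atTop
  refine ⟨hex, hub, ?_⟩
  obtain ⟨m, hm, hmc⟩ := hex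
  have h1 : m ≤ sSup {m : ℝ | ((0 : ℝ), m) ∈ closure (isoPairs μ)} :=
    le_csSup ⟨μ, fun x hx => hub x hx⟩ hmc
  have h2 : 4 * μ / 5 < c₀ * μ := by nlinarith
  exact ne_of_gt (by linarith)

end EBC
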