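import Pool.Agent.Work.MP_ebc928_an.WBasic

open MeasureTheory Complex Set Filter Topology
open scoped ContDiff ComplexConjugate ENNReal

noncomputable section
namespace EBC

/-- multiplication by a nonzero complex number -/
def simMul (G : ℂ) (hG0 : G ≠ 0) : ℂ ≃L[ℝ] ℂ :=
  ContinuousLinearEquiv.smulLeft (Units.mk0 G hG0)

theorem simMul_apply (G : ℂ) (hG0 : G ≠ 0) (z : ℂ) : simMul G hG0 z = G * z := rfl

theorem simMul_lat {G : ℂ} {m n : ℤ} (hG : G = (m : ℂ) + (n : ℂ) * I) (hG0 : G ≠ 0) :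
    LatMap (simMul G hG0) := by
  refine ⟨⟨m, n, ?_⟩, ⟨-n, m, ?_⟩⟩
  · rw [simMul_apply, mul_one, hG]
  · rw [simMul_apply, hG]
    push_cast
    linear_combination (n : ℂ) * Complex.I_sq

/-- integral over the cell of `F(G z)` for a nonzero Gaussian integer `G` -/
theorem setIntegral_cell_gauss {E : Type*} [NormedAddCommGroup E] [NormedSpace ℝ E]
    {F : ℂ → E} (hF : Per F) {G : ℂ} {m n : ℤ} (hG : G = (m : ℂ) + (n : ℂ) * I) (hG0 : G ≠ 0) :
    ∫ z in cell, F (G * z) = ∫ z in cell, F z :=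
  wb_setIntegral_cell_comp hF (simMul_lat hG hG0)

theorem Composite.sim_perP {S : Set ℂ} (hS : Composite S) : Per (fun z => z ∈ S) := by
  intro z
  exact ⟨propext (hS.per z).1, propext (hS.per z).2⟩

theorem composite_gauss {S : Set ℂ} (hS : Composite S) {G : ℂ} {m n : ℤ}
    (hG : G = (m : ℂ) + (n : ℂ) * I) : Composite {z | G * z ∈ S} := by
  constructor
  · exact (measurable_const_mul G) hS.meas
  · intro z
    have h1 := hS.sim_perP.wb_add_lat m n (G * z)
    have h2 := hS.sim_perP.wb_add_lat (-n) m (G * z)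
    constructor
    · have e : G * (z + 1) = G * z + ((m : ℂ) + (n : ℂ) * I) := by rw [mul_add, mul_one, ← hG]
      simp only [mem_ofPred_eq, e]
      exact Iff.of_eq h1
    · have e : G * (z + I) = G * z + (((-n : ℤ) : ℂ) + (m : ℂ) * I) := by
        rw [hG]
        push_cast
        linear_combination (n : ℂ) * Complex.I_sq
      simp only [mem_ofPred_eq, e]
      exact Iff.of_eq h2

/-- pull back of an admissible field -/
theorem Adm.sim_pull {S : Set ℂ} (hS : Composite S) {G : ℂ} {m n : ℤ}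
    (hG : G = (m : ℂ) + (n : ℂ) * I) (hG0 : G ≠ 0) {u ux uy : ℂ → ℂ} (hu : Adm S 0 u ux uy) :
    Adm {z | G * z ∈ S} 0 (fun z => G⁻¹ * u (G * z))
      (fun z => G⁻¹ * (G.re • ux (G * z) + G.im • uy (G * z)))
      (fun z => G⁻¹ * ((-G.im) • ux (G * z) + G.re • uy (G * z))) := by
  have hT := simMul_lat hG hG0
  constructor
  · have h1 := (hu.1.wb_comp hT).const_mul G⁻¹
    have e1 : ((simMul G hG0) 1).re = G.re := by rw [simMul_apply, mul_one]
    have e2 : ((simMul G hG0) 1).im = G.im := by rw [simMul_apply, mul_one]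
    have e3 : ((simMul G hG0) I).re = -G.im := by rw [simMul_apply]; simp
    have e4 : ((simMul G hG0) I).im = G.re := by rw [simMul_apply]; simp
    rw [e1, e2, e3, e4] at h1
    exact h1
  · have hP : Per (fun z => z ∈ S → 2 * (0 : ℝ) + (ux z).re + (uy z).im = 0) := by
      intro z
      simp only [(hS.per z).1, (hS.per z).2, (hu.1.perx z).1, (hu.1.perx z).2, (hu.1.pery z).1,
        (hu.1.pery z).2, and_self]
    have h2 := wb_ae_cell_comp hT hP hu.2
    filter_upwards [h2] with z hz hzS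
    have h3 := hz hzS
    rw [simMul_apply] at h3
    rw [mul_zero, zero_add] at h3 ⊢
    have hn : G.re ^ 2 + G.im ^ 2 ≠ 0 := by
      intro h0
      apply hG0
      have h5 : G.re = 0 := by nlinarith [sq_nonneg G.re, sq_nonneg G.im]
      have h6 : G.im = 0 := by nlinarith [sq_nonneg G.re, sq_nonneg G.im]
      exact Complex.ext h5 h6
    have hns : Complex.normSq G = G.re ^ 2 + G.im ^ 2 := by
      rw [Complex.normSq_apply]; ring
    simp only [Complex.mul_re, Complex.mul_im, Complex.inv_re, Complex.inv_im, Complex.add_re,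
      Complex.add_im, Complex.real_smul, Complex.ofReal_re, Complex.ofReal_im, Complex.ofReal_neg,
      Complex.neg_re, Complex.neg_im, hns]
    field_simp
    linear_combination (G.re ^ 2 + G.im ^ 2) * h3

theorem sim_energy_pull {S : Set ℂ} (hS : Composite S) {G : ℂ} {m n : ℤ}
    (hG : G = (m : ℂ) + (n : ℂ) * I) (hG0 : G ≠ 0) {u ux uy : ℂ → ℂ} (hu : Fluct u ux uy) (β : ℂ) :
    energy {z | G * z ∈ S} (conj G / G * β)
      (fun z => G⁻¹ * (G.re • ux (G * z) + G.im • uy (G * z)))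
      (fun z => G⁻¹ * ((-G.im) • ux (G * z) + G.re • uy (G * z))) = energy S β ux uy := by
  have hT := simMul_lat hG hG0
  have hF : Per (fun z => 4 * ‖β + (ux z + I * uy z) / 2‖ ^ 2) := by
    intro z
    simp only [(hu.perx z).1, (hu.perx z).2, (hu.pery z).1, (hu.pery z).2, and_self]
  have h1 := wb_setIntegral_cell_inter_comp hS hT hF
  unfold energy
  rw [← h1]
  refine integral_congr_ae (ae_of_all _ fun z => ?_)
  simp only [simMul_apply]
  have hGc : (G.re : ℂ) - I * (G.im : ℂ) = conj G := by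
    apply Complex.ext <;> simp
  have h3 : conj G / G * β + (G⁻¹ * (G.re • ux (G * z) + G.im • uy (G * z))
        + I * (G⁻¹ * ((-G.im) • ux (G * z) + G.re • uy (G * z)))) / 2
      = (conj G / G) * (β + (ux (G * z) + I * uy (G * z)) / 2) := by
    rw [← hGc]
    simp only [Complex.real_smul]
    push_cast
    field_simp
    linear_combination ((G.im : ℂ) * uy (G * z)) * Complex.I_sq
  rw [h3, norm_mul, norm_div, Complex.norm_conj, div_self (norm_ne_zero_iff.2 hG0), one_mul]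

theorem sim_le {S : Set ℂ} (hS : Composite S) {G : ℂ} {m n : ℤ}
    (hG : G = (m : ℂ) + (n : ℂ) * I) (hG0 : G ≠ 0) (β : ℂ) :
    W {z | G * z ∈ S} 0 (conj G / G * β) ≤ W S 0 β :=
  wb_W_le_of_map ⟨_, _, _, adm_zero S⟩ (fun _ _ _ hu =>
    ⟨_, _, _, hu.sim_pull hS hG hG0, (sim_energy_pull hS hG hG0 hu.1 β).le⟩)

/-- translations -/
theorem Fluct.sim_translate {u ux uy : ℂ → ℂ} (hu : Fluct u ux uy) (w : ℂ) :
    Fluct (fun z => u (z + w)) (fun z => ux (z + w)) (fun z => uy (z + w)) := by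
  have hp : ∀ {f : ℂ → ℂ}, Per f → Per (fun z => f (z + w)) := by
    intro f hf z
    constructor
    · change f (z + 1 + w) = f (z + w)
      rw [← (hf (z + w)).1]; congr 1; ring
    · change f (z + I + w) = f (z + w)
      rw [← (hf (z + w)).2]; congr 1; ring
  have hmp : MeasurePreserving (fun z => wbRed (z + w)) (volume.restrict cell)
      (volume.restrict cell) := by
    have hmeas : Measurable (fun z => wbRed (z + w)) :=
      wb_measurable_redC.comp (measurable_add_const w)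
    refine ⟨hmeas, ?_⟩
    ext A hA
    rw [Measure.map_apply hmeas hA]
    have h1 : Per (fun z => A.indicator (1 : ℂ → ℝ≥0∞) (wbRed z)) := by
      intro z
      constructor
      · simp only [(wb_redC_per z).1]
      · simp only [(wb_redC_per z).2]
    have h2 := wb_setLIntegral_cell_add h1 w
    have h3 : ∫⁻ z in cell, A.indicator (1 : ℂ → ℝ≥0∞) (wbRed (z + w))
        = (volume.restrict cell) ((fun z => wbRed (z + w)) ⁻¹' A) :=
      lintegral_indicator_one (μ := volume.restrict cell) (hmeas hA)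
    have h4 : ∫⁻ z in cell, A.indicator (1 : ℂ → ℝ≥0∞) (wbRed z) = (volume.restrict cell) A := by
      rw [← lintegral_indicator_one hA]
      refine setLIntegral_congr_fun wb_measurableSet_cell₁ (fun z hz => ?_)
      rw [wb_redC_of_mem hz]
    rw [← h3, h2, h4]
  have hm : ∀ {f : ℂ → ℂ}, Per f → MemLp f 2 (volume.restrict cell) →
      MemLp (fun z => f (z + w)) 2 (volume.restrict cell) := by
    intro f hf h
    have h1 := h.comp_measurePreserving hmp
    have h2 : (f ∘ fun z => wbRed (z + w)) = fun z => f (z + w) := by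
      funext z; exact hf.wb_red (z + w)
    rwa [h2] at h1
  have hw : ∀ (e : ℂ) (g : ℂ → ℂ), WeakDeriv e u g →
      WeakDeriv e (fun z => u (z + w)) (fun z => g (z + w)) := by
    intro e g h φ hφ hφs
    have h1 := h (fun z => φ (z - w)) (hφ.comp (contDiff_id.sub contDiff_const))
      (hφs.comp_homeomorph (Homeomorph.subRight w))
    have h2 : ∀ z, fderiv ℝ (fun z => φ (z - w)) z = fderiv ℝ φ (z - w) := by
      intro z
      exact fderiv_comp_sub w
    simp only [h2] at h1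
    have h3 := integral_add_right_eq_self (μ := (volume : Measure ℂ))
      (fun z => (fderiv ℝ φ (z - w)) e • u z) w
    have h4 := integral_add_right_eq_self (μ := (volume : Measure ℂ))
      (fun z => φ (z - w) • g z) w
    simp only [add_sub_cancel_right] at h3 h4
    rw [h3, h4, h1]
  exact
    { per := hp hu.per
      perx := hp hu.perx
      pery := hp hu.pery
      mem := hm hu.per hu.mem
      memx := hm hu.perx hu.memx
      memy := hm hu.pery hu.memy
      wx := hw 1 ux hu.wx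
      wy := hw I uy hu.wy }

theorem sim_ae_translate {P : ℂ → Prop} (hP : Per P) (w : ℂ)
    (h : ∀ᵐ z ∂(volume.restrict cell), P z) : ∀ᵐ z ∂(volume.restrict cell), P (z + w) := by
  have hall : ∀ᵐ z ∂(volume : Measure ℂ), P z := by
    have h1 : ∀ᵐ z ∂(volume.restrict (⋃ l : ℤ × ℤ,
        (fun z : ℂ => z + ((l.1 : ℂ) + (l.2 : ℂ) * I)) ⁻¹' cell)), P z := by
      rw [ae_restrict_iUnion_iff]
      intro l
      have h2 : MeasurePreserving (fun z : ℂ => z + ((l.1 : ℂ) + (l.2 : ℂ) * I))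
          (volume.restrict ((fun z : ℂ => z + ((l.1 : ℂ) + (l.2 : ℂ) * I)) ⁻¹' cell))
          (volume.restrict cell) :=
        (measurePreserving_add_right volume _).restrict_preimage_emb
          (MeasurableEquiv.addRight _).measurableEmbedding _
      have h3 := h2.quasiMeasurePreserving.ae h
      filter_upwards [h3] with z hz
      rwa [hP.wb_add_lat] at hz
    have h4 : (⋃ l : ℤ × ℤ, (fun z : ℂ => z + ((l.1 : ℂ) + (l.2 : ℂ) * I)) ⁻¹' cell) = univ := by
      rw [eq_univ_iff_forall]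
      intro z
      refine mem_iUnion.2 ⟨(-⌊z.re⌋, -⌊z.im⌋), ?_⟩
      have e : z + (((-⌊z.re⌋ : ℤ) : ℂ) + ((-⌊z.im⌋ : ℤ) : ℂ) * I) = wbRed z := by
        apply Complex.ext
        · simp [wbRed, Int.fract, sub_eq_add_neg]
        · simp [wbRed, Int.fract, sub_eq_add_neg]
      change z + (((-⌊z.re⌋ : ℤ) : ℂ) + ((-⌊z.im⌋ : ℤ) : ℂ) * I) ∈ cell
      rw [e]
      exact wb_redC_mem z
    rwa [h4, Measure.restrict_univ] at h1
  have h5 := (measurePreserving_add_right (volume : Measure ℂ) w).quasiMeasurePreserving.ae hall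
  exact ae_restrict_of_ae h5


/-- partial sums of translates -/
def simSum (u : ℂ → ℂ) (w : ℂ) (n : ℕ) : ℂ → ℂ := fun z => ∑ j ∈ Finset.range n, u (z + j * w)

theorem simSum_per {u : ℂ → ℂ} {w v : ℂ} (h : ∀ z, u (z + v) = u z) (n : ℕ) (z : ℂ) :
    simSum u w n (z + v) = simSum u w n z := by
  unfold simSum
  refine Finset.sum_congr rfl (fun j _ => ?_)
  rw [← h (z + j * w)]
  congr 1
  ring

theorem simSum_self {u : ℂ → ℂ} {w : ℂ} {n : ℕ} (h : ∀ z, u (z + n * w) = u z) (z : ℂ) :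
    simSum u w n (z + w) = simSum u w n z := by
  unfold simSum
  have h1 := Finset.sum_range_succ (fun j : ℕ => u (z + j * w)) n
  have h2 := Finset.sum_range_succ' (fun j : ℕ => u (z + j * w)) n
  rw [h1] at h2
  simp only [Nat.cast_zero, zero_mul, add_zero] at h2
  rw [h z] at h2
  have h3 := add_right_cancel h2
  rw [h3]
  refine Finset.sum_congr rfl (fun j _ => ?_)
  congr 1
  push_cast
  ring

theorem Fluct.sim_sum {u ux uy : ℂ → ℂ} (hu : Fluct u ux uy) (w : ℂ) (n : ℕ) :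
    Fluct (simSum u w n) (simSum ux w n) (simSum uy w n) := by
  induction n with
  | zero =>
    have e : ∀ f : ℂ → ℂ, simSum f w 0 = fun _ => 0 := by
      intro f; funext z; simp [simSum]
    rw [e, e, e]
    exact fluct_zero
  | succ n ih =>
    have e : ∀ f : ℂ → ℂ, simSum f w (n + 1) = fun z => simSum f w n z + f (z + n * w) := by
      intro f; funext z; simp [simSum, Finset.sum_range_succ]
    rw [e, e, e]
    exact ih.add (hu.sim_translate (n * w))

theorem Adm.sim_avg {S : Set ℂ} (hS : Composite S) {u ux uy : ℂ → ℂ} (hu : Adm S 0 u ux uy)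
    {w : ℂ} (hw : ∀ z, z + w ∈ S ↔ z ∈ S) (n : ℕ) (c : ℝ) :
    Adm S 0 (fun z => (c : ℂ) * simSum u w n z) (fun z => (c : ℂ) * simSum ux w n z)
      (fun z => (c : ℂ) * simSum uy w n z) := by
  have hj : ∀ (j : ℕ) (z : ℂ), z + j * w ∈ S ↔ z ∈ S := by
    intro j
    induction j with
    | zero => intro z; simp
    | succ j ih =>
      intro z
      have e : z + ((j + 1 : ℕ) : ℂ) * w = (z + j * w) + w := by push_cast; ring
      rw [e, hw, ih]
  have hP : Per (fun z => z ∈ S → (ux z).re + (uy z).im = 0) := by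
    intro z
    simp only [(hS.per z).1, (hS.per z).2, (hu.1.perx z).1, (hu.1.perx z).2, (hu.1.pery z).1,
      (hu.1.pery z).2, and_self]
  have h0 : ∀ᵐ z ∂(volume.restrict cell), z ∈ S → (ux z).re + (uy z).im = 0 := by
    filter_upwards [hu.2] with z h1 h2
    have := h1 h2
    linarith
  have hall : ∀ᵐ z ∂(volume.restrict cell), ∀ j : ℕ, z + j * w ∈ S →
      (ux (z + j * w)).re + (uy (z + j * w)).im = 0 := by
    rw [ae_all_iff]
    intro j
    exact sim_ae_translate hP (j * w) h0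
  refine ⟨(hu.1.sim_sum w n).const_mul c, ?_⟩
  filter_upwards [hall] with z hz hzS
  have h1 : (simSum ux w n z).re + (simSum uy w n z).im = 0 := by
    unfold simSum
    rw [Complex.re_sum, Complex.im_sum, ← Finset.sum_add_distrib]
    exact Finset.sum_eq_zero (fun j _ => hz j ((hj j z).2 hzS))
  simp only [Complex.mul_re, Complex.mul_im, Complex.ofReal_re, Complex.ofReal_im]
  linear_combination c * h1

theorem sim_energy_avg {S : Set ℂ} (hS : Composite S) {u ux uy : ℂ → ℂ} (hu : Fluct u ux uy)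
    {w : ℂ} (hw : ∀ z, z + w ∈ S ↔ z ∈ S) {n : ℕ} (hn : 0 < n) (β : ℂ) :
    energy S β (fun z => (((n : ℝ)⁻¹ : ℝ) : ℂ) * simSum ux w n z)
      (fun z => (((n : ℝ)⁻¹ : ℝ) : ℂ) * simSum uy w n z) ≤ energy S β ux uy := by
  classical
  have hj : ∀ (j : ℕ) (z : ℂ), z + j * w ∈ S ↔ z ∈ S := by
    intro j
    induction j with
    | zero => intro z; simp
    | succ j ih =>
      intro z
      have e : z + ((j + 1 : ℕ) : ℂ) * w = (z + j * w) + w := by push_cast; ring
      rw [e, hw, ih]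
  set F : ℂ → ℝ := fun z => 4 * ‖β + (ux z + I * uy z) / 2‖ ^ 2 with hF
  have hFp : Per F := by
    intro z
    simp only [hF, (hu.perx z).1, (hu.perx z).2, (hu.pery z).1, (hu.pery z).2, and_self]
  have hSF : Per (S.indicator F) := by
    intro z
    simp only [Set.indicator, (hS.per z).1, (hS.per z).2, (hFp z).1, (hFp z).2, and_self]
  have hinv : ∀ j : ℕ, ∫ z in cell ∩ S, F (z + j * w) = ∫ z in cell ∩ S, F z := by
    intro j
    rw [← setIntegral_indicator hS.meas, ← setIntegral_indicator hS.meas,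
      ← setIntegral_cell_add hSF (j * w)]
    refine integral_congr_ae (ae_of_all _ fun z => ?_)
    simp only [Set.indicator]
    by_cases hz : z ∈ S
    · rw [if_pos hz, if_pos ((hj j z).2 hz)]
    · rw [if_neg hz, if_neg (fun h => hz ((hj j z).1 h))]
  have hint : ∀ j : ℕ, IntegrableOn (fun z => F (z + j * w)) (cell ∩ S) := fun j =>
    (hu.sim_translate (j * w)).wb_integrable_energy₁ β S
  have hn' : (n : ℝ) ≠ 0 := by exact_mod_cast hn.ne'
  have hpt : ∀ z, 4 * ‖β + ((((n : ℝ)⁻¹ : ℝ) : ℂ) * simSum ux w n z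
      + I * ((((n : ℝ)⁻¹ : ℝ) : ℂ) * simSum uy w n z)) / 2‖ ^ 2
      ≤ (n : ℝ)⁻¹ * ∑ j ∈ Finset.range n, F (z + j * w) := by
    intro z
    have hnc : (n : ℂ) ≠ 0 := by exact_mod_cast hn.ne'
    have e1 : β + ((((n : ℝ)⁻¹ : ℝ) : ℂ) * simSum ux w n z
        + I * ((((n : ℝ)⁻¹ : ℝ) : ℂ) * simSum uy w n z)) / 2
        = (((n : ℝ)⁻¹ : ℝ) : ℂ) * ∑ j ∈ Finset.range n,
          (β + (ux (z + j * w) + I * uy (z + j * w)) / 2) := by
      rw [Finset.sum_add_distrib, Finset.sum_const, Finset.card_range, ← Finset.sum_div,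
        Finset.sum_add_distrib, ← Finset.mul_sum]
      unfold simSum
      rw [nsmul_eq_mul]
      push_cast
      generalize (∑ j ∈ Finset.range n, ux (z + j * w)) = X
      generalize (∑ j ∈ Finset.range n, uy (z + j * w)) = Y
      field_simp
    rw [e1, norm_mul, mul_pow, Complex.norm_real, Real.norm_eq_abs, sq_abs]
    have h1 : ‖∑ j ∈ Finset.range n, (β + (ux (z + j * w) + I * uy (z + j * w)) / 2)‖ ^ 2
        ≤ n * ∑ j ∈ Finset.range n, ‖β + (ux (z + j * w) + I * uy (z + j * w)) / 2‖ ^ 2 := by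
      have h2 := norm_sum_le (Finset.range n)
        (fun j : ℕ => β + (ux (z + j * w) + I * uy (z + j * w)) / 2)
      have h3 := sq_sum_le_card_mul_sum_sq (s := Finset.range n)
        (f := fun j : ℕ => ‖β + (ux (z + j * w) + I * uy (z + j * w)) / 2‖)
      rw [Finset.card_range] at h3
      refine le_trans ?_ h3
      gcongr
    have h4 : ∑ j ∈ Finset.range n, F (z + j * w)
        = 4 * ∑ j ∈ Finset.range n, ‖β + (ux (z + j * w) + I * uy (z + j * w)) / 2‖ ^ 2 := by
      rw [Finset.mul_sum]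
    rw [h4]
    have hnp : (0 : ℝ) < n := by exact_mod_cast hn
    calc 4 * ((n : ℝ)⁻¹ ^ 2 * ‖∑ j ∈ Finset.range n,
          (β + (ux (z + j * w) + I * uy (z + j * w)) / 2)‖ ^ 2)
        ≤ 4 * ((n : ℝ)⁻¹ ^ 2 * (n * ∑ j ∈ Finset.range n,
          ‖β + (ux (z + j * w) + I * uy (z + j * w)) / 2‖ ^ 2)) := by gcongr
      _ = (n : ℝ)⁻¹ * (4 * ∑ j ∈ Finset.range n,
          ‖β + (ux (z + j * w) + I * uy (z + j * w)) / 2‖ ^ 2) := by
        generalize (∑ j ∈ Finset.range n,
          ‖β + (ux (z + j * w) + I * uy (z + j * w)) / 2‖ ^ 2) = X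
        field_simp
  have hsum : ∫ z in cell ∩ S, (n : ℝ)⁻¹ * ∑ j ∈ Finset.range n, F (z + j * w)
      = ∫ z in cell ∩ S, F z := by
    rw [integral_const_mul, integral_finsetSum _ (fun j _ => hint j)]
    simp only [hinv, Finset.sum_const, Finset.card_range, nsmul_eq_mul]
    field_simp
  have hL : IntegrableOn (fun z => 4 * ‖β + ((((n : ℝ)⁻¹ : ℝ) : ℂ) * simSum ux w n z
      + I * ((((n : ℝ)⁻¹ : ℝ) : ℂ) * simSum uy w n z)) / 2‖ ^ 2) (cell ∩ S) :=
    ((hu.sim_sum w n).const_mul _).wb_integrable_energy₁ β S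
  have hR : IntegrableOn (fun z => (n : ℝ)⁻¹ * ∑ j ∈ Finset.range n, F (z + j * w)) (cell ∩ S) :=
    (integrable_finsetSum _ (fun j _ => hint j)).const_mul _
  unfold energy
  calc ∫ z in cell ∩ S, 4 * ‖β + ((((n : ℝ)⁻¹ : ℝ) : ℂ) * simSum ux w n z
      + I * ((((n : ℝ)⁻¹ : ℝ) : ℂ) * simSum uy w n z)) / 2‖ ^ 2
      ≤ ∫ z in cell ∩ S, (n : ℝ)⁻¹ * ∑ j ∈ Finset.range n, F (z + j * w) :=
        integral_mono hL hR hpt
    _ = ∫ z in cell ∩ S, F z := hsum


theorem LatMap.sim_memLp {E : Type*} [NormedAddCommGroup E] {f : ℂ → E} {T : ℂ ≃L[ℝ] ℂ}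
    (hT : LatMap T) (hf : Per f) {p : ℝ≥0∞} (h : MemLp (fun z => f (T z)) p (volume.restrict cell)) :
    MemLp f p (volume.restrict cell) := by
  have h1 : AEStronglyMeasurable f (volume.restrict cell) := (hT.wb_aesm_iff hf).1 h.1
  refine ⟨h1, ?_⟩
  have h2 := eLpNorm_comp_measurePreserving (p := p) h1 (wb_mp_redC hT)
  have h3 : (f ∘ fun z => wbRed (T z)) = fun z => f (T z) := by
    funext z; exact hf.wb_red (T z)
  rw [h3] at h2
  rw [← h2]
  exact h.2

/-- scaling back: a `1/N`-periodic field of `N⁻¹ S` gives a field of `S`. -/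
theorem Fluct.sim_push {u ux uy : ℂ → ℂ} (hu : Fluct u ux uy) {N : ℕ} (hN : 0 < N)
    (hp : ∀ f ∈ ({u, ux, uy} : Set (ℂ → ℂ)), (∀ z, f (z + (N : ℂ)⁻¹) = f z) ∧
      ∀ z, f (z + (N : ℂ)⁻¹ * I) = f z) :
    Fluct (fun z => (N : ℂ) * u ((N : ℂ)⁻¹ * z)) (fun z => ux ((N : ℂ)⁻¹ * z))
      (fun z => uy ((N : ℂ)⁻¹ * z)) := by
  have hN0 : (N : ℂ) ≠ 0 := by exact_mod_cast hN.ne'
  have hT : LatMap (simMul (N : ℂ) hN0) :=
    simMul_lat (m := N) (n := 0) (by push_cast; ring) hN0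
  have hper : ∀ f ∈ ({u, ux, uy} : Set (ℂ → ℂ)), Per (fun z => f ((N : ℂ)⁻¹ * z)) := by
    intro f hf z
    constructor
    · change f ((N : ℂ)⁻¹ * (z + 1)) = f ((N : ℂ)⁻¹ * z)
      rw [mul_add, mul_one, (hp f hf).1]
    · change f ((N : ℂ)⁻¹ * (z + I)) = f ((N : ℂ)⁻¹ * z)
      rw [mul_add, (hp f hf).2]
  have hmem : ∀ f ∈ ({u, ux, uy} : Set (ℂ → ℂ)), MemLp f 2 (volume.restrict cell) →
      MemLp (fun z => f ((N : ℂ)⁻¹ * z)) 2 (volume.restrict cell) := by
    intro f hf h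
    apply hT.sim_memLp (hper f hf)
    have e : (fun z => f ((N : ℂ)⁻¹ * (simMul (N : ℂ) hN0) z)) = f := by
      funext z
      rw [simMul_apply, inv_mul_cancel_left₀ hN0]
    rw [e]
    exact h
  have hmu : u ∈ ({u, ux, uy} : Set (ℂ → ℂ)) := by simp
  have hmx : ux ∈ ({u, ux, uy} : Set (ℂ → ℂ)) := by simp
  have hmy : uy ∈ ({u, ux, uy} : Set (ℂ → ℂ)) := by simp
  have hw : ∀ (e : ℂ) (g : ℂ → ℂ), WeakDeriv e u g →
      WeakDeriv e (fun z => (N : ℂ) * u ((N : ℂ)⁻¹ * z)) (fun z => g ((N : ℂ)⁻¹ * z)) := by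
    intro e g h φ hφ hφs
    set T := simMul (N : ℂ) hN0 with hTd
    have h1 := h (fun z => φ (T z)) (hφ.comp T.contDiff) (hφs.comp_homeomorph T.toHomeomorph)
    have hint : ∀ f : ℂ → ℂ, ∫ z, f (T z)
        = |(LinearMap.det (T : ℂ →ₗ[ℝ] ℂ))⁻¹| • ∫ z, f z := by
      intro f
      have h1 := integral_map_equiv T.toHomeomorph.toMeasurableEquiv f (μ := (volume : Measure ℂ))
      have h2 : (volume : Measure ℂ).map T.toHomeomorph.toMeasurableEquiv
          = ENNReal.ofReal |(LinearMap.det (T : ℂ →ₗ[ℝ] ℂ))⁻¹| • (volume : Measure ℂ) :=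
        wb_map_clequiv_eq T
      rw [h2, integral_smul_measure, ENNReal.toReal_ofReal (abs_nonneg _)] at h1
      exact h1.symm
    have hfd : ∀ z, fderiv ℝ (fun z => φ (T z)) z e = (N : ℝ) * fderiv ℝ φ (T z) e := by
      intro z
      have h2 : fderiv ℝ (fun w => φ (T w)) z = (fderiv ℝ φ (T z)).comp (T : ℂ →L[ℝ] ℂ) := by
        have h3 : DifferentiableAt ℝ φ (T z) := (hφ.differentiable (by simp)) (T z)
        exact (h3.hasFDerivAt.comp z T.hasFDerivAt).fderiv
      rw [h2]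
      change fderiv ℝ φ (T z) (T e) = _
      have h4 : T e = (N : ℝ) • e := by
        rw [hTd, simMul_apply]; simp
      rw [h4, map_smul, smul_eq_mul]
    have e1 : ∫ z, (fderiv ℝ (fun z => φ (T z)) z e) • u z
        = |(LinearMap.det (T : ℂ →ₗ[ℝ] ℂ))⁻¹| •
          ∫ z, (fderiv ℝ φ z e) • ((N : ℂ) * u ((N : ℂ)⁻¹ * z)) := by
      rw [← hint]
      refine integral_congr_ae (ae_of_all _ fun z => ?_)
      simp only [hfd]
      have e2 : (N : ℂ)⁻¹ * T z = z := by rw [hTd, simMul_apply, inv_mul_cancel_left₀ hN0]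
      rw [e2]
      simp only [Complex.real_smul]
      push_cast
      ring
    have e3 : ∫ z, φ (T z) • g z
        = |(LinearMap.det (T : ℂ →ₗ[ℝ] ℂ))⁻¹| • ∫ z, φ z • g ((N : ℂ)⁻¹ * z) := by
      rw [← hint]
      refine integral_congr_ae (ae_of_all _ fun z => ?_)
      have e2 : (N : ℂ)⁻¹ * T z = z := by rw [hTd, simMul_apply, inv_mul_cancel_left₀ hN0]
      simp only [e2]
    rw [e1, e3, ← smul_neg] at h1
    have hd : LinearMap.det (T : ℂ →ₗ[ℝ] ℂ) ≠ 0 := T.toLinearEquiv.isUnit_det'.ne_zero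
    exact smul_right_injective ℂ (abs_ne_zero.2 (inv_ne_zero hd)) h1
  exact
    { per := by
        intro z
        have := hper u hmu z
        simp only at this ⊢
        rw [this.1, this.2]
        exact ⟨rfl, rfl⟩
      perx := hper ux hmx
      pery := hper uy hmy
      mem := (hmem u hmu hu.mem).const_mul _
      memx := hmem ux hmx hu.memx
      memy := hmem uy hmy hu.memy
      wx := hw 1 ux hu.wx
      wy := hw I uy hu.wy }

theorem sim_push_le {S : Set ℂ} (hS : Composite S) {N : ℕ} (hN : 0 < N) (β : ℂ)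
    {v vx vy : ℂ → ℂ} (hv : Adm {z | (N : ℂ) * z ∈ S} 0 v vx vy)
    (hp : ∀ f ∈ ({v, vx, vy} : Set (ℂ → ℂ)), (∀ z, f (z + (N : ℂ)⁻¹) = f z) ∧
      ∀ z, f (z + (N : ℂ)⁻¹ * I) = f z) :
    ∃ u ux uy, Adm S 0 u ux uy ∧ energy S β ux uy = energy {z | (N : ℂ) * z ∈ S} β vx vy := by
  have hN0 : (N : ℂ) ≠ 0 := by exact_mod_cast hN.ne'
  have hGN : (N : ℂ) = ((N : ℤ) : ℂ) + ((0 : ℤ) : ℂ) * I := by push_cast; ring
  have hT : LatMap (simMul (N : ℂ) hN0) := simMul_lat hGN hN0
  have hw := hv.1.sim_push hN hp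
  refine ⟨_, _, _, ⟨hw, ?_⟩, ?_⟩
  · have h1 : ∀ᵐ w ∂(volume : Measure ℂ), w ∈ cell → ((N : ℂ) * w ∈ S →
        2 * (0 : ℝ) + (vx w).re + (vy w).im = 0) :=
      (ae_restrict_iff' wb_measurableSet_cell₁).1 hv.2
    have hq : Measure.QuasiMeasurePreserving (simMul (N : ℂ) hN0).symm volume volume :=
      ⟨(simMul (N : ℂ) hN0).symm.continuous.measurable, wb_map_clequiv_ac _⟩
    have h2 := hq.ae h1
    rw [ae_restrict_iff' wb_measurableSet_cell₁]
    filter_upwards [h2] with z hz hzc hzS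
    have e : (simMul (N : ℂ) hN0).symm z = (N : ℂ)⁻¹ * z := by
      rw [ContinuousLinearEquiv.symm_apply_eq, simMul_apply, mul_inv_cancel_left₀ hN0]
    rw [e] at hz
    have hNp : (0 : ℝ) < N := by exact_mod_cast hN
    have hN1 : (1 : ℝ) ≤ N := by exact_mod_cast hN
    have hre : ((N : ℂ)⁻¹ * z).re = z.re / N := by
      have : (N : ℂ)⁻¹ * z = (((N : ℝ)⁻¹ : ℝ) : ℂ) * z := by push_cast; rfl
      rw [this, Complex.re_ofReal_mul]
      field_simp
    have him : ((N : ℂ)⁻¹ * z).im = z.im / N := by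
      have : (N : ℂ)⁻¹ * z = (((N : ℝ)⁻¹ : ℝ) : ℂ) * z := by push_cast; rfl
      rw [this, Complex.im_ofReal_mul]
      field_simp
    have hc : (N : ℂ)⁻¹ * z ∈ cell := by
      obtain ⟨⟨a1, a2⟩, ⟨b1, b2⟩⟩ := hzc
      refine ⟨⟨?_, ?_⟩, ⟨?_, ?_⟩⟩
      · rw [hre]; positivity
      · rw [hre, div_lt_one hNp]; linarith
      · rw [him]; positivity
      · rw [him, div_lt_one hNp]; linarith
    have h3 := hz hc
    rw [mul_inv_cancel_left₀ hN0] at h3
    exact h3 hzS
  · have hF : Per (fun z => 4 * ‖β + (vx ((N : ℂ)⁻¹ * z)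
        + I * vy ((N : ℂ)⁻¹ * z)) / 2‖ ^ 2) := by
      intro z
      have p1 := hw.perx z
      have p2 := hw.pery z
      simp only [p1.1, p1.2, p2.1, p2.2, and_self]
    have h1 := wb_setIntegral_cell_inter_comp hS hT hF
    unfold energy
    rw [← h1]
    simp only [simMul_apply, inv_mul_cancel_left₀ hN0]

theorem sim_nat_ge {S : Set ℂ} (hS : Composite S) {N : ℕ} (hN : 0 < N) (β : ℂ) :
    W S 0 β ≤ W {z | (N : ℂ) * z ∈ S} 0 β := by
  have hN0 : (N : ℂ) ≠ 0 := by exact_mod_cast hN.ne'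
  have hGN : (N : ℂ) = ((N : ℤ) : ℂ) + ((0 : ℤ) : ℂ) * I := by push_cast; ring
  have hS' : Composite {z | (N : ℂ) * z ∈ S} := composite_gauss hS hGN
  set w₁ : ℂ := (N : ℂ)⁻¹ with hw₁
  set w₂ : ℂ := (N : ℂ)⁻¹ * I with hw₂
  have hi1 : ∀ z, z + w₁ ∈ {z | (N : ℂ) * z ∈ S} ↔ z ∈ {z | (N : ℂ) * z ∈ S} := by
    intro z
    simp only [mem_ofPred_eq, hw₁, mul_add, mul_inv_cancel₀ hN0]
    exact (hS.per _).1
  have hi2 : ∀ z, z + w₂ ∈ {z | (N : ℂ) * z ∈ S} ↔ z ∈ {z | (N : ℂ) * z ∈ S} := by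
    intro z
    simp only [mem_ofPred_eq, hw₂, mul_add, mul_inv_cancel_left₀ hN0]
    exact (hS.per _).2
  refine wb_W_le_of_map ⟨_, _, _, adm_zero _⟩ (fun u ux uy hu => ?_)
  have a1 := hu.sim_avg hS' hi1 N ((N : ℝ)⁻¹)
  have g1 := sim_energy_avg hS' hu.1 hi1 hN β
  have a2 := a1.sim_avg hS' hi2 N ((N : ℝ)⁻¹)
  have g2 := sim_energy_avg hS' a1.1 hi2 hN β
  have key : ∀ f : ℂ → ℂ, Per f →
      (∀ z, (fun z => (((N : ℝ)⁻¹ : ℝ) : ℂ) * simSum (fun z => (((N : ℝ)⁻¹ : ℝ) : ℂ)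
          * simSum f w₁ N z) w₂ N z) (z + w₁)
        = (fun z => (((N : ℝ)⁻¹ : ℝ) : ℂ) * simSum (fun z => (((N : ℝ)⁻¹ : ℝ) : ℂ)
          * simSum f w₁ N z) w₂ N z) z) ∧
      (∀ z, (fun z => (((N : ℝ)⁻¹ : ℝ) : ℂ) * simSum (fun z => (((N : ℝ)⁻¹ : ℝ) : ℂ)
          * simSum f w₁ N z) w₂ N z) (z + w₂)
        = (fun z => (((N : ℝ)⁻¹ : ℝ) : ℂ) * simSum (fun z => (((N : ℝ)⁻¹ : ℝ) : ℂ)
          * simSum f w₁ N z) w₂ N z) z) := by
    intro f hf
    have b1 : ∀ z, (fun z => (((N : ℝ)⁻¹ : ℝ) : ℂ) * simSum f w₁ N z) (z + w₁)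
        = (fun z => (((N : ℝ)⁻¹ : ℝ) : ℂ) * simSum f w₁ N z) z := by
      intro z
      simp only
      rw [simSum_self]
      intro z
      rw [hw₁, mul_inv_cancel₀ hN0]
      exact (hf z).1
    have b2 : Per (fun z => (((N : ℝ)⁻¹ : ℝ) : ℂ) * simSum f w₁ N z) := by
      intro z
      simp only
      rw [simSum_per (fun z => (hf z).1), simSum_per (fun z => (hf z).2)]
      exact ⟨rfl, rfl⟩
    constructor
    · intro z
      simp only
      rw [simSum_per b1]
    · intro z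
      simp only
      rw [simSum_self]
      intro z
      rw [hw₂, mul_inv_cancel_left₀ hN0]
      exact (b2 z).2
  obtain ⟨v, vx, vy, hv, he⟩ := sim_push_le hS hN β a2 (by
    intro f hf
    simp only [mem_insert_iff, mem_singleton_iff] at hf
    rcases hf with rfl | rfl | rfl
    · exact key u hu.1.per
    · exact key ux hu.1.perx
    · exact key uy hu.1.pery)
  exact ⟨v, vx, vy, hv, he.le.trans (g2.trans g1)⟩

/-- scaling, rotation and change of the period lattice: the composite `G⁻¹ S`. -/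
theorem W_gauss {S : Set ℂ} (hS : Composite S) {G : ℂ} {m n : ℤ}
    (hG : G = (m : ℂ) + (n : ℂ) * I) (hG0 : G ≠ 0) (β : ℂ) :
    W {z | G * z ∈ S} 0 (conj G / G * β) = W S 0 β := by
  apply le_antisymm (sim_le hS hG hG0 β)
  have hGc : conj G = (m : ℂ) + ((-n : ℤ) : ℂ) * I := by
    rw [hG]
    simp
  have hGc0 : conj G ≠ 0 := (map_ne_zero _).2 hG0
  have hS' := composite_gauss hS hG
  have h1 := sim_le hS' hGc hGc0 (conj G / G * β)
  rw [Complex.conj_conj] at h1
  have e1 : G / conj G * (conj G / G * β) = β := by field_simp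
  rw [e1] at h1
  set N : ℕ := (m ^ 2 + n ^ 2).toNat with hNdef
  have hNn : (N : ℤ) = m ^ 2 + n ^ 2 := Int.toNat_of_nonneg (by positivity)
  have hNC : (N : ℂ) = G * conj G := by
    have h2 : ((N : ℤ) : ℂ) = ((m ^ 2 + n ^ 2 : ℤ) : ℂ) := by rw [hNn]
    rw [hG, ← hG, hGc, hG]
    push_cast at h2 ⊢
    rw [h2]
    linear_combination ((n : ℂ) ^ 2) * Complex.I_sq
  have hNpos : 0 < N := by
    rcases Nat.eq_zero_or_pos N with h | h
    · exfalso
      rw [h] at hNC
      simp only [Nat.cast_zero] at hNC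
      rcases mul_eq_zero.1 hNC.symm with h | h
      · exact hG0 h
      · exact hGc0 h
    · exact h
  have h3 := sim_nat_ge hS hNpos β
  have e2 : {z | conj G * z ∈ {z | G * z ∈ S}} = {z | (N : ℂ) * z ∈ S} := by
    ext z
    simp only [mem_ofPred_eq]
    rw [hNC, mul_assoc]
  rw [e2] at h1
  exact h3.trans h1

end EBC
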