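import Pool.Agent.Work.MP_ebc928_an.Fold
import Pool.Agent.Work.MP_ebc928_an.Similar
import Pool.Agent.Work.MP_ebc928_an.AsmSub

open MeasureTheory Complex Set
open scoped ContDiff ComplexConjugate

noncomputable section
namespace EBC

private theorem ks_fold_neg (z : ℂ) : fold (-z) = fold z := by
  have h : -z = I * (I * z) := by
    rw [← mul_assoc, I_mul_I]; ring
  rw [h, fold_I_mul, fold_I_mul]

private theorem ks_fold_t4 (i : Fin 4) {v : ℂ} (hv : v ∈ tri) : fold (2 * t4 i v) = v := by
  have h0 := fold_of_mem hv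
  fin_cases i
  · have : 2 * t4 0 v = v := by simp only [t4, Matrix.cons_val_zero]; ring
    exact (congrArg fold this).trans h0
  · have : 2 * t4 1 v = -conj v + 1 := by
      simp only [t4, Matrix.cons_val_one, Matrix.cons_val_zero]; ring
    refine (congrArg fold this).trans ?_
    rw [fold_add_one, ks_fold_neg, fold_conj, h0]
  · have : 2 * t4 2 v = I * v + 1 := by
      simp only [t4, Matrix.cons_val]; ring
    refine (congrArg fold this).trans ?_
    rw [fold_add_one, fold_I_mul, h0]
  · have : 2 * t4 3 v = -(I * conj v) + 1 + I := by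
      simp only [t4, Matrix.cons_val]; ring
    refine (congrArg fold this).trans ?_
    rw [fold_add_I, fold_add_one, ks_fold_neg, fold_I_mul, fold_conj, h0]

private theorem ks_fold_t2 (i : Fin 2) {v : ℂ} (hv : v ∈ tri) :
    fold ((1 + I) * t2 i v) = v := by
  have h0 := fold_of_mem hv
  have hI : (1 + I) * (1 + I) = 2 * I := by
    have := I_mul_I
    linear_combination this
  fin_cases i
  · have : (1 + I) * t2 0 v = I * conj v := by
      simp only [t2, Matrix.cons_val_zero]
      linear_combination (conj v / 2) * hI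
    refine (congrArg fold this).trans ?_
    rw [fold_I_mul, fold_conj, h0]
  · have : (1 + I) * t2 1 v = I * (-v + 1) := by
      simp only [t2, Matrix.cons_val_one, Matrix.cons_val_zero]
      linear_combination ((1 - v) / 2) * hI
    refine (congrArg fold this).trans ?_
    rw [fold_I_mul, fold_add_one, ks_fold_neg, h0]

theorem KS_sub4 {V : Set ℂ} (hV : V ⊆ tri) (z : ℂ) :
    z ∈ KS (sub4 fun _ => V) ↔ 2 * z ∈ KS V := by
  have key : fold z ∈ sub4 (fun _ => V) ↔ fold (2 * z) ∈ V := by
    rw [← fold_two_fold z]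
    constructor
    · intro h
      obtain ⟨i, v, hv, hvz⟩ := mem_iUnion.1 h
      rw [← hvz, ks_fold_t4 i (hV hv)]
      exact hv
    · intro h
      obtain ⟨i, q, hq, hqz⟩ := t4_cover (fold z) (fold_mem z)
      rw [← hqz, ks_fold_t4 i hq] at h
      exact mem_iUnion.2 ⟨i, q, h, hqz⟩
  exact not_congr key

theorem KS_sub2 {V : Set ℂ} (hV : V ⊆ tri) (z : ℂ) :
    z ∈ KS (sub2 fun _ => V) ↔ (1 + I) * z ∈ KS V := by
  have key : fold z ∈ sub2 (fun _ => V) ↔ fold ((1 + I) * z) ∈ V := by
    rw [← fold_oneI_fold z]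
    constructor
    · intro h
      obtain ⟨i, v, hv, hvz⟩ := mem_iUnion.1 h
      rw [← hvz, ks_fold_t2 i (hV hv)]
      exact hv
    · intro h
      obtain ⟨i, q, hq, hqz⟩ := t2_cover (fold z) (fold_mem z)
      rw [← hqz, ks_fold_t2 i hq] at h
      exact mem_iUnion.2 ⟨i, q, h, hqz⟩
  exact not_congr key

theorem W_KS_sub4 {V : Set ℂ} (hV : V ⊆ tri) (hm : MeasurableSet V) (β : ℂ) :
    W (KS (sub4 fun _ => V)) 0 β = W (KS V) 0 β := by
  have hset : KS (sub4 fun _ => V) = {z | (2 : ℂ) * z ∈ KS V} := by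
    ext z; exact KS_sub4 hV z
  have h := W_gauss (composite_KS hm) (G := 2) (m := 2) (n := 0) (by simp) (by norm_num) β
  have h2 : conj (2 : ℂ) / 2 * β = β := by
    have h3 : conj (2 : ℂ) = 2 := map_ofNat _ 2
    rw [h3, div_self (by norm_num), one_mul]
  rw [h2] at h
  rw [hset, h]

private theorem ks_W_even {V : Set ℂ} (hm : MeasurableSet V) (β : ℂ) :
    W (KS V) 0 (-β) = W (KS V) 0 β := by
  have hset : {z | I * z ∈ KS V} = KS V := by
    ext z
    show fold (I * z) ∉ V ↔ fold z ∉ V
    rw [fold_I_mul]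
  have h := W_gauss (composite_KS hm) (G := I) (m := 0) (n := 1) (by simp) I_ne_zero β
  have h2 : conj I / I * β = -β := by
    rw [conj_I, neg_div, div_self I_ne_zero]; ring
  rw [h2, hset] at h
  exact h

theorem W_KS_sub2 {V : Set ℂ} (hV : V ⊆ tri) (hm : MeasurableSet V) :
    W (KS (sub2 fun _ => V)) 0 1 = W (KS V) 0 I ∧ W (KS (sub2 fun _ => V)) 0 I = W (KS V) 0 1 := by
  have hset : KS (sub2 fun _ => V) = {z | (1 + I : ℂ) * z ∈ KS V} := by
    ext z; exact KS_sub2 hV z
  have hne : (1 + I : ℂ) ≠ 0 := by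
    intro h
    have := congrArg Complex.re h
    simp at this
  have hc : conj (1 + I) / (1 + I) = -I := by
    rw [div_eq_iff hne, map_add, map_one, conj_I]
    linear_combination I_mul_I
  have h : ∀ β : ℂ, W (KS (sub2 fun _ => V)) 0 (-I * β) = W (KS V) 0 β := by
    intro β
    have h := W_gauss (composite_KS hm) (G := 1 + I) (m := 1) (n := 1) (by simp) hne β
    rw [hc] at h
    rw [hset, h]
  constructor
  · have h1 := h I
    have : -I * I = 1 := by
      have := I_mul_I
      linear_combination -this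
    rwa [this] at h1
  · have h1 := h (-1)
    have : -I * (-1) = I := by ring
    rw [this, ks_W_even hm] at h1
    exact h1

end EBC
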