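import Pool.Agent.Work.MP_ebc928_an.Fold

/-! The reflection group `p4m`, gluing of functions over its chambers. -/

open MeasureTheory Complex Set Filter Topology
open scoped ContDiff ComplexConjugate

noncomputable section
namespace EBC

/-- conditional conjugation -/
def cj (c : Bool) (v : ℂ) : ℂ := if c then conj v else v

theorem cj_cj (c : Bool) (v : ℂ) : cj c (cj c v) = v := by
  cases c <;> simp [cj]

theorem norm_cj (c : Bool) (v : ℂ) : ‖cj c v‖ = ‖v‖ := by
  cases c <;> simp [cj]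

theorem cj_zero (c : Bool) : cj c 0 = 0 := by cases c <;> simp [cj]

/-- conditional conjugation as a linear map -/
def cjE (c : Bool) : ℂ ≃L[ℝ] ℂ := if c then conjCLE else ContinuousLinearEquiv.refl ℝ ℂ

theorem cjE_apply (c : Bool) (v : ℂ) : cjE c v = cj c v := by
  cases c <;> simp [cj, cjE]

/-- Elements of the group `p4m`: `p ↦ a p + b` or `p ↦ a p̄ + b`. -/
@[ext] structure GE where
  a : ℂ
  b : ℂ
  c : Bool
  ha : a = 1 ∨ a = I ∨ a = -1 ∨ a = -I
  hb : ∃ m n : ℤ, b = ⟨m, n⟩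

namespace GE

def act (g : GE) (p : ℂ) : ℂ := g.a * cj g.c p + g.b

def inv (g : GE) (z : ℂ) : ℂ := cj g.c (conj g.a * (z - g.b))

theorem norm_a (g : GE) : ‖g.a‖ = 1 := by
  rcases g.ha with h | h | h | h <;> simp [h]

theorem a_conj (g : GE) : g.a * conj g.a = 1 := by
  rcases g.ha with h | h | h | h <;> simp [h]

theorem a_ne (g : GE) : g.a ≠ 0 := by
  intro h
  have := g.norm_a
  rw [h] at this
  simp at this

theorem act_inv (g : GE) (z : ℂ) : g.act (g.inv z) = z := by
  unfold act inv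
  rw [cj_cj, ← mul_assoc, g.a_conj]
  ring

theorem inv_act (g : GE) (p : ℂ) : g.inv (g.act p) = p := by
  unfold act inv
  rw [add_sub_cancel_right, ← mul_assoc, mul_comm (conj g.a), g.a_conj, one_mul, cj_cj]

theorem norm_act_sub (g : GE) (p q : ℂ) : ‖g.act p - g.act q‖ = ‖p - q‖ := by
  unfold act
  have : g.a * cj g.c p + g.b - (g.a * cj g.c q + g.b) = g.a * cj g.c (p - q) := by
    cases g.c <;> simp [cj] <;> ring
  rw [this, norm_mul, g.norm_a, one_mul, norm_cj]

theorem norm_inv_sub (g : GE) (z w : ℂ) : ‖g.inv z - g.inv w‖ = ‖z - w‖ := by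
  rw [← g.norm_act_sub (g.inv z) (g.inv w), g.act_inv, g.act_inv]

theorem continuous_inv (g : GE) : Continuous g.inv := by
  refine (LipschitzWith.of_dist_le_mul (K := 1) fun x y => ?_).continuous
  rw [dist_eq_norm, dist_eq_norm, NNReal.coe_one, one_mul, g.norm_inv_sub]

/-- homotheties commute with the group -/
theorem act_hom (g : GE) (c p : ℂ) (t : ℝ) :
    g.act (c + t • (p - c)) = g.act c + t • (g.act p - g.act c) := by
  unfold act
  cases g.c <;> simp [cj] <;> ring

/-- translate by `w` -/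
def tr (g : GE) (m n : ℤ) : GE where
  a := g.a
  b := g.b + ⟨m, n⟩
  c := g.c
  ha := g.ha
  hb := by
    obtain ⟨m', n', h⟩ := g.hb
    exact ⟨m' + m, n' + n, by rw [h]; exact Complex.ext (by simp) (by simp)⟩

theorem tr_act (g : GE) (m n : ℤ) (p : ℂ) : (g.tr m n).act p = g.act p + ⟨m, n⟩ := by
  unfold act tr
  ring

theorem tr_inv (g : GE) (m n : ℤ) (z : ℂ) : (g.tr m n).inv (z + ⟨m, n⟩) = g.inv z := by
  unfold inv tr
  simp

end GE

private theorem fold_add_int' (z : ℂ) (m n : ℤ) : fold (z + ⟨m, n⟩) = fold z := by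
  have h1 : ∀ (z : ℂ) (m : ℕ), fold (z + m) = fold z := by
    intro z m
    induction m with
    | zero => simp
    | succ m ih => rw [Nat.cast_succ, ← add_assoc, fold_add_one, ih]
  have h2 : ∀ (z : ℂ) (m : ℤ), fold (z + m) = fold z := by
    intro z m
    obtain ⟨k, rfl | rfl⟩ := m.eq_nat_or_neg
    · exact_mod_cast h1 z k
    · have := h1 (z + ((-(k : ℤ) : ℤ) : ℂ)) k
      rw [← this]; congr 1; push_cast; ring
  have h3 : ∀ (z : ℂ) (m : ℕ), fold (z + m * I) = fold z := by
    intro z m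
    induction m with
    | zero => simp
    | succ m ih => rw [Nat.cast_succ, add_mul, one_mul, ← add_assoc, fold_add_I, ih]
  have h4 : ∀ (z : ℂ) (m : ℤ), fold (z + m * I) = fold z := by
    intro z m
    obtain ⟨k, rfl | rfl⟩ := m.eq_nat_or_neg
    · exact_mod_cast h3 z k
    · have := h3 (z + ((-(k : ℤ) : ℤ) : ℂ) * I) k
      rw [← this]; congr 1; push_cast; ring
  have h5 : z + (⟨m, n⟩ : ℂ) = z + m + n * I := by
    exact Complex.ext (by simp) (by simp)
  rw [h5, h4, h2]

theorem fold_act (g : GE) (p : ℂ) : fold (g.act p) = fold p := by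
  obtain ⟨m, n, hb⟩ := g.hb
  unfold GE.act
  rw [hb, fold_add_int']
  have hc : fold (cj g.c p) = fold p := by
    cases g.c
    · rfl
    · exact fold_conj p
  have hneg : ∀ z : ℂ, fold (-z) = fold z := by
    intro z
    rw [show -z = I * (I * z) by rw [← mul_assoc, I_mul_I]; ring, fold_I_mul, fold_I_mul]
  rcases g.ha with h | h | h | h
  · rw [h, one_mul, hc]
  · rw [h, fold_I_mul, hc]
  · rw [h, neg_one_mul, hneg, hc]
  · rw [h, neg_mul, hneg, fold_I_mul, hc]

theorem exists_chart (z : ℂ) : ∃ g : GE, g.act (fold z) = z := by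
  set m := round z.re with hm
  set n := round z.im with hn
  have hfold : fold z = ⟨max |z.re - m| |z.im - n|, min |z.re - m| |z.im - n|⟩ := rfl
  have hb : ∃ m' n' : ℤ, (⟨m, n⟩ : ℂ) = ⟨m', n'⟩ := ⟨m, n, rfl⟩
  rw [hfold]
  rcases le_total 0 (z.re - m) with hx | hx <;> rcases le_total 0 (z.im - n) with hy | hy <;>
    rcases le_total |z.re - m| |z.im - n| with hxy | hxy
  · refine ⟨⟨I, _, true, by simp, hb⟩, ?_⟩
    rw [max_eq_right hxy, min_eq_left hxy, abs_of_nonneg hx, abs_of_nonneg hy]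
    exact Complex.ext (by simp [GE.act, cj]) (by simp [GE.act, cj])
  · refine ⟨⟨1, _, false, by simp, hb⟩, ?_⟩
    rw [max_eq_left hxy, min_eq_right hxy, abs_of_nonneg hx, abs_of_nonneg hy]
    exact Complex.ext (by simp [GE.act, cj]) (by simp [GE.act, cj])
  · refine ⟨⟨-I, _, false, by simp, hb⟩, ?_⟩
    rw [max_eq_right hxy, min_eq_left hxy, abs_of_nonneg hx, abs_of_nonpos hy]
    exact Complex.ext (by simp [GE.act, cj]) (by simp [GE.act, cj])
  · refine ⟨⟨1, _, true, by simp, hb⟩, ?_⟩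
    rw [max_eq_left hxy, min_eq_right hxy, abs_of_nonneg hx, abs_of_nonpos hy]
    exact Complex.ext (by simp [GE.act, cj]) (by simp [GE.act, cj])
  · refine ⟨⟨I, _, false, by simp, hb⟩, ?_⟩
    rw [max_eq_right hxy, min_eq_left hxy, abs_of_nonpos hx, abs_of_nonneg hy]
    exact Complex.ext (by simp [GE.act, cj]) (by simp [GE.act, cj])
  · refine ⟨⟨-1, _, true, by simp, hb⟩, ?_⟩
    rw [max_eq_left hxy, min_eq_right hxy, abs_of_nonpos hx, abs_of_nonneg hy]
    exact Complex.ext (by simp [GE.act, cj]) (by simp [GE.act, cj])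
  · refine ⟨⟨-I, _, true, by simp, hb⟩, ?_⟩
    rw [max_eq_right hxy, min_eq_left hxy, abs_of_nonpos hx, abs_of_nonpos hy]
    exact Complex.ext (by simp [GE.act, cj]) (by simp [GE.act, cj])
  · refine ⟨⟨-1, _, false, by simp, hb⟩, ?_⟩
    rw [max_eq_left hxy, min_eq_right hxy, abs_of_nonpos hx, abs_of_nonpos hy]
    exact Complex.ext (by simp [GE.act, cj]) (by simp [GE.act, cj])

theorem triO_subset_tri : triO ⊆ tri := fun _ h => ⟨h.1.le, h.2.1.le, h.2.2.le⟩

theorem isOpen_triO : IsOpen triO := by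
  unfold triO
  exact (isOpen_lt continuous_const continuous_im).inter
    ((isOpen_lt continuous_im continuous_re).inter (isOpen_lt continuous_re continuous_const))

theorem isClosed_tri : IsClosed tri := by
  unfold tri
  exact (isClosed_le continuous_const continuous_im).inter
    ((isClosed_le continuous_im continuous_re).inter (isClosed_le continuous_re continuous_const))

theorem GE.eq_of_act {g h : GE} {p : ℂ} (hp : p ∈ triO) (he : g.act p = h.act p) : g = h := by
  obtain ⟨h0, h1, h2⟩ := hp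
  obtain ⟨a, b, c, ha, m, n, hb⟩ := g
  obtain ⟨a', b', c', ha', m', n', hb'⟩ := h
  simp only [GE.act] at he
  have hbd : ∀ (a : ℂ) (c : Bool), (a = 1 ∨ a = I ∨ a = -1 ∨ a = -I) →
      |(a * cj c p).re| < 1 / 2 ∧ |(a * cj c p).im| < 1 / 2 := by
    rintro a c (rfl | rfl | rfl | rfl) <;> cases c <;> simp only [cj] <;>
      constructor <;> rw [abs_lt] <;> constructor <;> simp <;> linarith
  have e1 := hbd a c ha
  have e2 := hbd a' c' ha'
  have hre := congrArg Complex.re he
  have him := congrArg Complex.im he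
  rw [add_re, add_re, hb, hb'] at hre
  rw [add_im, add_im, hb, hb'] at him
  simp only at hre him
  rw [abs_lt, abs_lt] at e1 e2
  have hm : m = m' := by
    have h3 : (-1 : ℝ) < (m : ℝ) - m' := by linarith [e1.1.1, e1.1.2, e2.1.1, e2.1.2]
    have h4 : (m : ℝ) - m' < 1 := by linarith [e1.1.1, e1.1.2, e2.1.1, e2.1.2]
    have h5 : (-1 : ℤ) < m - m' := by exact_mod_cast h3
    have h6 : m - m' < 1 := by exact_mod_cast h4
    omega
  have hn : n = n' := by
    have h3 : (-1 : ℝ) < (n : ℝ) - n' := by linarith [e1.2.1, e1.2.2, e2.2.1, e2.2.2]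
    have h4 : (n : ℝ) - n' < 1 := by linarith [e1.2.1, e1.2.2, e2.2.1, e2.2.2]
    have h5 : (-1 : ℤ) < n - n' := by exact_mod_cast h3
    have h6 : n - n' < 1 := by exact_mod_cast h4
    omega
  subst hm hn hb hb'
  have hre' : (a * cj c p).re = (a' * cj c' p).re := by linarith
  have him' : (a * cj c p).im = (a' * cj c' p).im := by linarith
  clear hre him he e1 e2 hbd
  rcases ha with rfl | rfl | rfl | rfl <;> rcases ha' with rfl | rfl | rfl | rfl <;>
    cases c <;> cases c' <;> simp [cj] at hre' him' ⊢ <;> first | done | (exfalso; linarith)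

/-- a chart at `z` -/
def chart (z : ℂ) : GE := Classical.choose (exists_chart z)

theorem chart_act (z : ℂ) : (chart z).act (fold z) = z := Classical.choose_spec (exists_chart z)

theorem chart_inv (z : ℂ) : (chart z).inv z = fold z := by
  have h := (chart z).inv_act (fold z)
  rwa [chart_act] at h

theorem fold_of_inv {g : GE} {z : ℂ} (h : g.inv z ∈ tri) : fold z = g.inv z := by
  conv_lhs => rw [← g.act_inv z]
  rw [fold_act, fold_of_mem h]

theorem chart_eq {g : GE} {z : ℂ} (h : g.inv z ∈ triO) : chart z = g := by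
  have h1 := fold_of_inv (triO_subset_tri h)
  refine GE.eq_of_act (p := g.inv z) h ?_
  rw [g.act_inv, ← h1, chart_act]

/-- push forward of a field of weight `k` by `g` -/
def GE.push (g : GE) (k : ℕ) (f : ℂ → ℂ) (z : ℂ) : ℂ := g.a ^ k * cj g.c (f (g.inv z))

/-- the field of weight `k` that is invariant under the group and equals `f` on the triangle -/
def lift (k : ℕ) (f : ℂ → ℂ) (z : ℂ) : ℂ := (chart z).a ^ k * cj (chart z).c (f (fold z))

theorem lift_eq_push (k : ℕ) (f : ℂ → ℂ) (z : ℂ) : lift k f z = (chart z).push k f z := by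
  unfold lift GE.push
  rw [chart_inv]

theorem lift_eq_of_inv {k : ℕ} {f : ℂ → ℂ} {g : GE} {z : ℂ} (h : g.inv z ∈ triO) :
    lift k f z = g.push k f z := by
  rw [lift_eq_push, chart_eq h]

/-- near a point of an open chamber, the lift is one push forward -/
theorem lift_eventually {z : ℂ} (hz : fold z ∈ triO) (k : ℕ) (f : ℂ → ℂ) :
    lift k f =ᶠ[𝓝 z] (chart z).push k f := by
  have h1 : (chart z).inv z ∈ triO := by rwa [chart_inv]
  filter_upwards [(chart z).continuous_inv.continuousAt.preimage_mem_nhds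
    (isOpen_triO.mem_nhds h1)] with w hw
  exact lift_eq_of_inv hw

/-- outside the support -/
theorem lift_eventually_zero {z : ℂ} {f : ℂ → ℂ} (hz : fold z ∉ tsupport f) (k : ℕ) :
    lift k f =ᶠ[𝓝 z] fun _ => 0 := by
  have h1 : (tsupport f)ᶜ ∈ 𝓝 (fold z) := (isClosed_tsupport f).isOpen_compl.mem_nhds hz
  filter_upwards [continuous_fold.continuousAt.preimage_mem_nhds h1] with w hw
  have h2 : f (fold w) = 0 := image_eq_zero_of_notMem_tsupport hw
  unfold lift
  rw [h2, cj_zero, mul_zero]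

theorem chart_tr {z : ℂ} (hz : fold z ∈ triO) (m n : ℤ) :
    chart (z + ⟨m, n⟩) = (chart z).tr m n := by
  refine chart_eq ?_
  rw [GE.tr_inv, chart_inv]
  exact hz

theorem lift_add_int {f : ℂ → ℂ} (hf : ∀ p ∉ triO, f p = 0) (k : ℕ) (z : ℂ) (m n : ℤ) :
    lift k f (z + ⟨m, n⟩) = lift k f z := by
  unfold lift
  rw [fold_add_int']
  by_cases hz : fold z ∈ triO
  · rw [chart_tr hz]; rfl
  · rw [hf _ hz, cj_zero, cj_zero, mul_zero, mul_zero]

theorem per_lift {f : ℂ → ℂ} (hf : ∀ p ∉ triO, f p = 0) (k : ℕ) : Per (lift k f) := by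
  intro z
  have h1 := lift_add_int hf k z 1 0
  have h2 := lift_add_int hf k z 0 1
  have e1 : (⟨(1 : ℤ), (0 : ℤ)⟩ : ℂ) = 1 := Complex.ext (by simp) (by simp)
  have e2 : (⟨(0 : ℤ), (1 : ℤ)⟩ : ℂ) = I := Complex.ext (by simp) (by simp)
  rw [e1] at h1
  rw [e2] at h2
  exact ⟨h1, h2⟩

/-! ### derivatives -/

namespace GE

/-- inverse linear part -/
def Me (g : GE) : ℂ ≃L[ℝ] ℂ :=
  (ContinuousLinearEquiv.restrictScalars ℝ (ContinuousLinearEquiv.unitsEquivAut ℂ
    (Units.mk0 (conj g.a) (by simpa using g.a_ne)))).trans (cjE g.c)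

theorem Me_apply (g : GE) (h : ℂ) : g.Me h = cj g.c (conj g.a * h) := by
  unfold Me
  rw [ContinuousLinearEquiv.trans_apply, cjE_apply]
  congr 1
  simp [ContinuousLinearEquiv.unitsEquivAut_apply, mul_comm]

/-- the linear map `v ↦ a ^ k v` or `v ↦ a ^ k v̄` -/
def Te (g : GE) (k : ℕ) : ℂ ≃L[ℝ] ℂ :=
  (cjE g.c).trans (ContinuousLinearEquiv.restrictScalars ℝ (ContinuousLinearEquiv.unitsEquivAut ℂ
    (Units.mk0 (g.a ^ k) (pow_ne_zero _ g.a_ne))))

theorem Te_apply (g : GE) (k : ℕ) (h : ℂ) : g.Te k h = g.a ^ k * cj g.c h := by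
  unfold Te
  rw [ContinuousLinearEquiv.trans_apply, cjE_apply]
  simp [ContinuousLinearEquiv.unitsEquivAut_apply, mul_comm]

theorem push_eq (g : GE) (k : ℕ) (f : ℂ → ℂ) :
    g.push k f = fun z => g.Te k (f (g.Me (z - g.b))) := by
  funext z
  rw [Te_apply, Me_apply]
  rfl

end GE

private theorem fderiv_comp_aff {E F : Type*} [NormedAddCommGroup E] [NormedSpace ℝ E]
    [NormedAddCommGroup F] [NormedSpace ℝ F]
    (T : E ≃L[ℝ] F) (M : ℂ ≃L[ℝ] ℂ) (b : ℂ) (f : ℂ → E) (z : ℂ) :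
    fderiv ℝ (fun z => T (f (M (z - b)))) z =
      (T : E →L[ℝ] F).comp ((fderiv ℝ f (M (z - b))).comp (M : ℂ →L[ℝ] ℂ)) := by
  have h1 : (fun z => T (f (M (z - b)))) = T ∘ (fun z => (f ∘ M) (z - b)) := rfl
  rw [h1, T.comp_fderiv, fderiv_comp_sub, M.comp_right_fderiv]

theorem GE.fderiv_push (g : GE) (k : ℕ) (f : ℂ → ℂ) (z : ℂ) :
    fderiv ℝ (g.push k f) z =
      (g.Te k : ℂ →L[ℝ] ℂ).comp ((fderiv ℝ f (g.inv z)).comp (g.Me : ℂ →L[ℝ] ℂ)) := by
  have h := fderiv_comp_aff (g.Te k) g.Me g.b f z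
  rw [g.push_eq, h, g.Me_apply]
  rfl

theorem GE.fderiv_push_apply (g : GE) (k : ℕ) (f : ℂ → ℂ) (z h : ℂ) :
    fderiv ℝ (g.push k f) z h =
      g.a ^ k * cj g.c (fderiv ℝ f (g.inv z) (cj g.c (conj g.a * h))) := by
  rw [g.fderiv_push]
  simp only [ContinuousLinearMap.comp_apply, ContinuousLinearEquiv.coe_coe]
  rw [g.Te_apply, g.Me_apply]

theorem GE.D2_push (g : GE) (k : ℕ) (f : ℂ → ℂ) (z h h' : ℂ) :
    D2 (g.push k f) z h h' =
      g.a ^ k * cj g.c (D2 f (g.inv z) (cj g.c (conj g.a * h)) (cj g.c (conj g.a * h'))) := by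
  unfold D2
  set Φ : (ℂ →L[ℝ] ℂ) ≃L[ℝ] (ℂ →L[ℝ] ℂ) :=
    ContinuousLinearEquiv.arrowCongr g.Me.symm (g.Te k) with hΦ
  have h1 : fderiv ℝ (g.push k f) = fun z => Φ (fderiv ℝ f (g.Me (z - g.b))) := by
    funext z
    rw [g.fderiv_push, g.Me_apply]
    rfl
  rw [h1, fderiv_comp_aff Φ g.Me g.b (fderiv ℝ f) z]
  simp only [ContinuousLinearMap.comp_apply, ContinuousLinearEquiv.coe_coe]
  rw [hΦ]
  simp only [ContinuousLinearEquiv.arrowCongr_apply, ContinuousLinearMap.comp_apply,
    ContinuousLinearEquiv.coe_coe, ContinuousLinearEquiv.symm_symm]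
  rw [g.Te_apply, g.Me_apply, g.Me_apply, g.Me_apply]
  rfl

/-! ### gluing -/

theorem glue_lip {ι E : Type*} [NormedAddCommGroup E] {f : ι → ℂ → E} {U : ℂ → E} {K : NNReal}
    (hf : ∀ g, LipschitzWith K (f g)) (h1 : ∀ z, ∃ g, U z = f g z)
    (h2 : ∀ z g, f g z = U z ∨ f g z = 0) : LipschitzWith (2 * K) U := by
  refine LipschitzWith.of_dist_le_mul fun z w => ?_
  obtain ⟨g, hg⟩ := h1 z
  obtain ⟨h, hh⟩ := h1 w
  have e1 := (hf g).dist_le_mul z w
  have e2 := (hf h).dist_le_mul z w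
  have hd : (0 : ℝ) ≤ K * dist z w := by positivity
  push_cast
  rcases h2 w g with h3 | h3
  · rw [← hg, h3] at e1; linarith
  · rcases h2 z h with h4 | h4
    · rw [← hh, h4] at e2; linarith
    · rw [← hg, h3, dist_zero_right] at e1
      rw [h4, ← hh, dist_zero_left] at e2
      have := dist_triangle (U z) 0 (U w)
      rw [dist_zero_right, dist_zero_left] at this
      linarith

private theorem quad {E : Type*} [NormedAddCommGroup E] [NormedSpace ℝ E] {f : ℂ → E}
    {f' : ℂ → (ℂ →L[ℝ] E)} {K : NNReal} (hf : ∀ z, HasFDerivAt f (f' z) z)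
    (hf' : LipschitzWith K f') (z w : ℂ) :
    ‖f w - f z - f' z (w - z)‖ ≤ K * ‖w - z‖ * ‖w - z‖ := by
  refine Convex.norm_image_sub_le_of_norm_hasFDerivWithin_le' (s := Metric.closedBall z ‖w - z‖)
    (f' := f') (φ := f' z) (fun x _ => (hf x).hasFDerivWithinAt) (fun x hx => ?_)
    (convex_closedBall _ _) (Metric.mem_closedBall_self (norm_nonneg _)) ?_
  · rw [← dist_eq_norm]
    refine (hf'.dist_le_mul x z).trans ?_
    exact mul_le_mul_of_nonneg_left (Metric.mem_closedBall.1 hx) K.2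
  · rw [Metric.mem_closedBall, dist_eq_norm]

theorem glue_deriv {ι E : Type*} [NormedAddCommGroup E] [NormedSpace ℝ E] {f : ι → ℂ → E}
    {f' : ι → ℂ → (ℂ →L[ℝ] E)} {U : ℂ → E} {U' : ℂ → (ℂ →L[ℝ] E)} {K : NNReal}
    (hf : ∀ g z, HasFDerivAt (f g) (f' g z) z) (hf' : ∀ g, LipschitzWith K (f' g))
    (h1 : ∀ z, ∃ g, U z = f g z ∧ U' z = f' g z)
    (h2 : ∀ z g, (f g z = U z ∧ f' g z = U' z) ∨ (f g z = 0 ∧ f' g z = 0)) (z : ℂ) :
    HasFDerivAt U (U' z) z := by
  have key : ∀ w, ‖U w - U z - U' z (w - z)‖ ≤ 2 * K * ‖w - z‖ * ‖w - z‖ := by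
    intro w
    obtain ⟨g, hg, hg'⟩ := h1 z
    obtain ⟨h, hh, hh'⟩ := h1 w
    have e1 := quad (hf g) (hf' g) z w
    have e2 := quad (hf h) (hf' h) z w
    have hd : (0 : ℝ) ≤ K * ‖w - z‖ * ‖w - z‖ := by positivity
    rcases h2 w g with ⟨h3, -⟩ | ⟨h3, -⟩
    · rw [← hg, ← hg', h3] at e1; linarith
    · rcases h2 z h with ⟨h4, h4'⟩ | ⟨h4, h4'⟩
      · rw [← hh, h4, h4'] at e2; linarith
      · rw [h3, ← hg, ← hg'] at e1
        rw [h4, h4', ← hh] at e2
        have e3 : U w - U z - U' z (w - z) =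
            (U w - 0 - (0 : ℂ →L[ℝ] E) (w - z)) + (0 - U z - U' z (w - z)) := by
          simp; abel
        rw [e3]
        refine (norm_add_le _ _).trans ?_
        linarith
  rw [hasFDerivAt_iff_isLittleO_nhds_zero]
  rw [Asymptotics.isLittleO_iff]
  intro ε hε
  have h3 : ∀ᶠ h : ℂ in 𝓝 0, 2 * K * ‖h‖ < ε := by
    have : Tendsto (fun h : ℂ => 2 * (K : ℝ) * ‖h‖) (𝓝 0) (𝓝 (2 * K * ‖(0 : ℂ)‖)) :=
      (continuous_const.mul continuous_norm).tendsto 0
    rw [norm_zero, mul_zero] at this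
    exact this.eventually_lt_const hε
  filter_upwards [h3] with h hh
  have h4 := key (z + h)
  rw [add_sub_cancel_left] at h4
  refine h4.trans ?_
  exact mul_le_mul_of_nonneg_right hh.le (norm_nonneg _)

theorem mem_closure_compl_tri {p : ℂ} (hp : p ∉ triO) : p ∈ closure (triᶜ) := by
  by_cases h : p ∈ tri
  · rw [Metric.mem_closure_iff]
    intro ε hε
    obtain ⟨h0, h1, h2⟩ := h
    have hdist : ∀ v : ℂ, ‖v‖ ≤ 1 → dist p (p + (ε / 2 : ℝ) • v) < ε := by
      intro v hv
      rw [dist_eq_norm, sub_add_cancel_left, norm_neg, norm_smul, Real.norm_of_nonneg (by linarith)]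
      nlinarith [norm_nonneg v]
    by_cases a : 0 < p.im
    · by_cases b : p.im < p.re
      · have c : ¬ p.re < 1 / 2 := fun c => hp ⟨a, b, c⟩
        refine ⟨p + (ε / 2 : ℝ) • 1, fun h => ?_, hdist _ (by simp)⟩
        have := h.2.2
        simp at this
        linarith
      · refine ⟨p + (ε / 2 : ℝ) • I, fun h => ?_, hdist _ (by simp)⟩
        have := h.2.1
        simp at this
        linarith
    · refine ⟨p + (ε / 2 : ℝ) • (-I), fun h => ?_, hdist _ (by simp)⟩
      have := h.1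
      simp at this
      linarith
  · exact subset_closure h

/-- a continuous function vanishing off the triangle vanishes off the open triangle -/
theorem zero_off_triO {E : Type*} [NormedAddCommGroup E] {f : ℂ → E} (hf : Continuous f)
    (h0 : ∀ z ∉ tri, f z = 0) : ∀ p ∉ triO, f p = 0 := by
  intro p hp
  have h1 : IsClosed {z | f z = 0} := isClosed_eq hf continuous_const
  have h2 : closure (triᶜ) ⊆ {z | f z = 0} := h1.closure_subset_iff.2 h0
  exact h2 (mem_closure_compl_tri hp)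

theorem fderiv_zero_off_tri {E : Type*} [NormedAddCommGroup E] [NormedSpace ℝ E] {f : ℂ → E}
    (h0 : ∀ z ∉ tri, f z = 0) : ∀ z ∉ tri, fderiv ℝ f z = 0 := by
  intro z hz
  have h1 : f =ᶠ[𝓝 z] fun _ => 0 := by
    filter_upwards [isClosed_tri.isOpen_compl.mem_nhds hz] with w hw
    exact h0 w hw
  rw [h1.fderiv_eq]
  simp

theorem GE.push_zero {f : ℂ → ℂ} (g : GE) (k : ℕ) {z : ℂ} (h : f (g.inv z) = 0) :
    g.push k f z = 0 := by
  unfold GE.push
  rw [h, cj_zero, mul_zero]

theorem lift_act {f : ℂ → ℂ} (hf : ∀ p ∉ triO, f p = 0) (k : ℕ) (g : GE) {z : ℂ}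
    (hz : g.inv z ∈ tri) : lift k f z = g.push k f z := by
  by_cases h : g.inv z ∈ triO
  · exact lift_eq_of_inv h
  · rw [GE.push_zero g k (hf _ h), lift_eq_push, GE.push_zero]
    rw [chart_inv, fold_of_inv hz]
    exact hf _ h

theorem norm_push (g : GE) (k : ℕ) (f : ℂ → ℂ) (z : ℂ) : ‖g.push k f z‖ = ‖f (g.inv z)‖ := by
  unfold GE.push
  rw [norm_mul, norm_pow, g.norm_a, one_pow, one_mul, norm_cj]

theorem push_lip (g : GE) (k : ℕ) {f : ℂ → ℂ} {K : NNReal} (hf : LipschitzWith K f) :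
    LipschitzWith K (g.push k f) := by
  refine LipschitzWith.of_dist_le_mul fun z w => ?_
  have h1 : g.push k f z - g.push k f w = g.a ^ k * cj g.c (f (g.inv z) - f (g.inv w)) := by
    unfold GE.push
    cases g.c <;> simp [cj] <;> ring
  rw [dist_eq_norm, h1, norm_mul, norm_pow, g.norm_a, one_pow, one_mul, norm_cj, ← dist_eq_norm]
  refine (hf.dist_le_mul _ _).trans ?_
  rw [dist_eq_norm, dist_eq_norm, g.norm_inv_sub]

theorem lift_lip (k : ℕ) {f : ℂ → ℂ} {K : NNReal} (hf : LipschitzWith K f)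
    (h0 : ∀ z ∉ tri, f z = 0) : LipschitzWith (2 * K) (lift k f) := by
  have h0' := zero_off_triO hf.continuous h0
  refine glue_lip (f := fun g : GE => g.push k f) (fun g => push_lip g k hf)
    (fun z => ⟨chart z, lift_eq_push k f z⟩) (fun z g => ?_)
  by_cases h : g.inv z ∈ tri
  · exact Or.inl (lift_act h0' k g h).symm
  · exact Or.inr (GE.push_zero g k (h0 _ h))

theorem norm_Te (g : GE) (k : ℕ) (h : ℂ) : ‖g.Te k h‖ = ‖h‖ := by
  rw [g.Te_apply, norm_mul, norm_pow, g.norm_a, one_pow, one_mul, norm_cj]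

theorem norm_Me (g : GE) (h : ℂ) : ‖g.Me h‖ = ‖h‖ := by
  rw [g.Me_apply, norm_cj, norm_mul, RCLike.norm_conj, g.norm_a, one_mul]

theorem push_fderiv_lip (g : GE) (k : ℕ) {f : ℂ → ℂ} {K : NNReal}
    (hf : LipschitzWith K (fderiv ℝ f)) : LipschitzWith K (fderiv ℝ (g.push k f)) := by
  refine LipschitzWith.of_dist_le_mul fun z w => ?_
  have h1 : fderiv ℝ (g.push k f) z - fderiv ℝ (g.push k f) w =
      (g.Te k : ℂ →L[ℝ] ℂ).comp ((fderiv ℝ f (g.inv z) - fderiv ℝ f (g.inv w)).comp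
        (g.Me : ℂ →L[ℝ] ℂ)) := by
    rw [g.fderiv_push, g.fderiv_push, ContinuousLinearMap.sub_comp, ContinuousLinearMap.comp_sub]
  rw [dist_eq_norm, h1]
  refine (ContinuousLinearMap.opNorm_le_bound _ (norm_nonneg (fderiv ℝ f (g.inv z) -
    fderiv ℝ f (g.inv w))) (fun v => ?_)).trans ?_
  · simp only [ContinuousLinearMap.comp_apply, ContinuousLinearEquiv.coe_coe]
    rw [norm_Te]
    refine (ContinuousLinearMap.le_opNorm _ _).trans ?_
    rw [norm_Me]
  · rw [← dist_eq_norm]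
    refine (hf.dist_le_mul _ _).trans ?_
    rw [dist_eq_norm, dist_eq_norm, g.norm_inv_sub]

theorem differentiable_push (g : GE) (k : ℕ) {f : ℂ → ℂ} (hf : Differentiable ℝ f) :
    Differentiable ℝ (g.push k f) := by
  rw [g.push_eq]
  intro z
  exact (g.Te k).differentiableAt.comp z ((hf _).comp z
    (g.Me.differentiableAt.comp z (differentiableAt_id.sub_const _)))

theorem contDiff_push (g : GE) (k : ℕ) {f : ℂ → ℂ} {n : ℕ∞} (hf : ContDiff ℝ n f) :
    ContDiff ℝ n (g.push k f) := by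
  rw [g.push_eq]
  exact (g.Te k).contDiff.comp (hf.comp (g.Me.contDiff.comp (contDiff_id.sub contDiff_const)))

theorem lift_c11 (k : ℕ) {f : ℂ → ℂ} (hf : C11 f) (h0 : ∀ z ∉ tri, f z = 0) :
    C11 (lift k f) := by
  obtain ⟨hf1, K, hK⟩ := hf
  have hdf : Differentiable ℝ f := hf1.differentiable (by norm_num)
  have hz := zero_off_triO hf1.continuous h0
  have hz' := zero_off_triO hK.continuous (fderiv_zero_off_tri h0)
  set U' : ℂ → (ℂ →L[ℝ] ℂ) := fun z => fderiv ℝ ((chart z).push k f) z with hU'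
  have h2 : ∀ z (g : GE), (g.push k f z = lift k f z ∧ fderiv ℝ (g.push k f) z = U' z) ∨
      (g.push k f z = 0 ∧ fderiv ℝ (g.push k f) z = 0) := by
    intro z g
    by_cases h : g.inv z ∈ triO
    · left
      rw [lift_eq_of_inv h, hU']
      simp only [chart_eq h, and_self]
    · right
      refine ⟨GE.push_zero g k (hz _ h), ?_⟩
      rw [g.fderiv_push, hz' _ h]
      simp
  have hd : ∀ z, HasFDerivAt (lift k f) (U' z) z := by
    refine glue_deriv (f := fun g : GE => g.push k f) (f' := fun g => fderiv ℝ (g.push k f))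
      (fun g z => ((differentiable_push g k hdf) z).hasFDerivAt)
      (fun g => push_fderiv_lip g k hK) (fun z => ⟨chart z, lift_eq_push k f z, rfl⟩) h2
  have hfd : fderiv ℝ (lift k f) = U' := funext fun z => (hd z).fderiv
  have hlip : LipschitzWith (2 * K) (fderiv ℝ (lift k f)) := by
    rw [hfd]
    refine glue_lip (f := fun g : GE => fderiv ℝ (g.push k f)) (fun g => push_fderiv_lip g k hK)
      (fun z => ⟨chart z, rfl⟩) (fun z g => ?_)
    rcases h2 z g with ⟨_, h⟩ | ⟨_, h⟩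
    · exact Or.inl h
    · exact Or.inr h
  exact ⟨contDiff_one_iff_fderiv.2 ⟨fun z => (hd z).differentiableAt, hlip.continuous⟩, _, hlip⟩

/-- a smooth function supported in the open triangle has a smooth lift -/
theorem lift_smooth (k : ℕ) {f : ℂ → ℂ} (hf : ContDiff ℝ ∞ f) (hs : tsupport f ⊆ triO) :
    ContDiff ℝ ∞ (lift k f) := by
  rw [contDiff_iff_contDiffAt]
  intro z
  by_cases h : fold z ∈ triO
  · exact (contDiff_push (chart z) k (n := ⊤) hf).contDiffAt.congr_of_eventuallyEq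
      (lift_eventually h k f)
  · exact contDiffAt_const.congr_of_eventuallyEq
      (lift_eventually_zero (fun h' => h (hs h')) k)

/-- almost every point is in an open chamber -/
theorem ae_fold_triO : ∀ᵐ z, fold z ∈ triO := by
  refine ae_fold (p := fun z => z ∈ triO) ?_
  have h1 : volume (tri \ triO) = 0 := by
    have h2 : tri \ triO ⊆ frontier tri := by
      rintro p ⟨h, h'⟩
      rw [frontier_eq_closure_inter_closure]
      exact ⟨subset_closure h, mem_closure_compl_tri h'⟩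
    have h3 : Convex ℝ tri := by
      unfold tri
      intro x hx y hy a b ha hb hab
      obtain ⟨x1, x2, x3⟩ := hx
      obtain ⟨y1, y2, y3⟩ := hy
      refine ⟨?_, ?_, ?_⟩
      · simp; positivity
      · simp; nlinarith
      · simp; nlinarith
    exact measure_mono_null h2 (h3.addHaar_frontier volume)
  have h4 : ∀ᵐ z : ℂ, z ∉ tri \ triO := measure_eq_zero_iff_ae_notMem.1 h1
  filter_upwards [h4] with z hz hz'
  by_contra h
  exact hz ⟨hz', h⟩

end EBC
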