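import Pool.Agent.Work.MP_ebc928_an.Fold
import Pool.Agent.Work.MP_ebc928_an.FoldG

open MeasureTheory Complex Set Filter Topology
open scoped ContDiff ComplexConjugate

noncomputable section
namespace EBC

/-- a real-linear map of the plane is `h ↦ P h + Q h̄` -/
private theorem lin_PQ (A : ℂ →L[ℝ] ℂ) (h : ℂ) :
    A h = ((A 1 - I * A I) / 2) * h + ((A 1 + I * A I) / 2) * conj h := by
  obtain ⟨x, y⟩ := h
  have e1 : (⟨x, y⟩ : ℂ) = (x : ℂ) + y * I := Complex.ext (by simp) (by simp)
  have e2 : conj (⟨x, y⟩ : ℂ) = (x : ℂ) - y * I := Complex.ext (by simp) (by simp)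
  have e3 : (⟨x, y⟩ : ℂ) = x • (1 : ℂ) + y • I := Complex.ext (by simp) (by simp)
  have e4 : A ⟨x, y⟩ = x * A 1 + y * A I := by
    rw [e3, map_add, map_smul, map_smul, real_smul, real_smul]
  have hI : I * I = -1 := I_mul_I
  rw [e4, e2, e1]
  linear_combination ((y : ℂ) * A I) * hI

private theorem lin_push (A : ℂ →L[ℝ] ℂ) (a : ℂ) (ha : a * conj a = 1) (c : Bool) :
    ((a * cj c (A (cj c (conj a * 1)))).re + (a * cj c (A (cj c (conj a * I)))).im =
      (A 1).re + (A I).im) ∧
    ‖(a * cj c (A (cj c (conj a * 1))) + I * (a * cj c (A (cj c (conj a * I))))) / 2‖ =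
      ‖(A 1 + I * A I) / 2‖ := by
  have hI : I * I = -1 := I_mul_I
  set P := (A 1 - I * A I) / 2 with hP
  set Q := (A 1 + I * A I) / 2 with hQ
  have hA : ∀ h, A h = P * h + Q * conj h := lin_PQ A
  have htr : ∀ B : ℂ → ℂ, (B 1).re + (B I).im = (B 1 - I * B I).re := by
    intro B; simp
  have hlhs : ∀ x y : ℂ, x.re + y.im = (x - I * y).re := by intro x y; simp
  have hn : ‖a‖ = 1 := by
    have h1 : ‖a * conj a‖ = 1 := by rw [ha]; simp
    rw [norm_mul, RCLike.norm_conj] at h1
    nlinarith [norm_nonneg a]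
  cases c
  · simp only [cj, Bool.false_eq_true, if_false]
    have e1 : a * A (conj a * 1) = P + Q * a ^ 2 := by
      rw [hA]; simp only [mul_one, conj_conj]; linear_combination P * ha
    have e2 : a * A (conj a * I) = P * I - Q * a ^ 2 * I := by
      rw [hA]; simp only [map_mul, conj_conj, conj_I]; linear_combination P * I * ha
    rw [e1, e2]
    constructor
    · rw [hlhs, hlhs]
      have : A 1 - I * A I = 2 * P := by rw [hP]; ring
      rw [this]
      congr 1
      linear_combination (-P + Q * a ^ 2) * hI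
    · have e3 : (P + Q * a ^ 2 + I * (P * I - Q * a ^ 2 * I)) / 2 = Q * a ^ 2 := by
        linear_combination ((P - Q * a ^ 2) / 2) * hI
      rw [e3, norm_mul, norm_pow, hn]; ring
  · simp only [cj, if_true]
    have e1 : a * conj (A (conj (conj a * 1))) = conj P + conj Q * a ^ 2 := by
      rw [hA]; simp only [mul_one, conj_conj, map_add, map_mul]
      linear_combination conj P * ha
    have e2 : a * conj (A (conj (conj a * I))) = conj P * I - conj Q * a ^ 2 * I := by
      rw [hA]; simp only [map_mul, conj_conj, conj_I, map_add, map_neg]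
      linear_combination conj P * I * ha
    rw [e1, e2]
    constructor
    · rw [hlhs, hlhs]
      have : A 1 - I * A I = 2 * P := by rw [hP]; ring
      rw [this]
      have e4 : conj P + conj Q * a ^ 2 - I * (conj P * I - conj Q * a ^ 2 * I) = 2 * conj P := by
        linear_combination (-conj P + conj Q * a ^ 2) * hI
      rw [e4]
      simp
    · have e3 : (conj P + conj Q * a ^ 2 + I * (conj P * I - conj Q * a ^ 2 * I)) / 2 =
          conj Q * a ^ 2 := by
        linear_combination ((conj P - conj Q * a ^ 2) / 2) * hI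
      rw [e3, norm_mul, norm_pow, hn, RCLike.norm_conj]; ring

private theorem dv_lift (ψ : ℂ → ℂ) {z : ℂ} (hz : fold z ∈ triO) :
    dv (lift 1 ψ) z = dv ψ (fold z) ∧ ‖dbar (lift 1 ψ) z‖ = ‖dbar ψ (fold z)‖ := by
  have h1 : fderiv ℝ (lift 1 ψ) z = fderiv ℝ ((chart z).push 1 ψ) z :=
    (lift_eventually hz 1 ψ).fderiv_eq
  have h2 := lin_push (fderiv ℝ ψ (fold z)) (chart z).a (chart z).a_conj (chart z).c
  unfold dv dbar
  rw [h1, GE.fderiv_push_apply, GE.fderiv_push_apply, chart_inv, pow_one]
  exact h2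

/-- The kaleidoscopic displacement. -/
theorem W_KS_A {V : Set ℂ} (hV : MeasurableSet V) (hVt : V ⊆ tri) {e : ℝ} (h : GoodA V e) :
    (∃ u ux uy, Adm (KS V) 1 u ux uy) ∧ W (KS V) 1 0 ≤ 8 * e := by
  obtain ⟨ψ, ⟨K, hK⟩, h0, hdiv, hen⟩ := h
  have hlip := lift_lip 1 hK h0
  have hper : Per (lift 1 ψ) := per_lift (zero_off_triO hK.continuous h0) 1
  have hflu := fluct_of_lipschitz hlip hper
  have hadm : Adm (KS V) 1 (lift 1 ψ) (fun z => fderiv ℝ (lift 1 ψ) z 1)
      (fun z => fderiv ℝ (lift 1 ψ) z I) := by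
    refine ⟨hflu, ?_⟩
    have h1 : ∀ᵐ z, z ∈ tri → z ∉ V → 2 + dv ψ z = 0 := hdiv
    have h2 := ae_fold (p := fun z => z ∉ V → 2 + dv ψ z = 0) h1
    refine ae_restrict_of_ae ?_
    filter_upwards [h2, ae_fold_triO] with z hz hz' hzS
    have h3 := hz hzS
    rw [← (dv_lift ψ hz').1] at h3
    unfold dv at h3
    linarith
  refine ⟨⟨_, _, _, hadm⟩, (W_le hadm 0).trans ?_⟩
  have hmc : MeasurableSet cell := by
    unfold cell
    exact (Complex.measurable_re measurableSet_Ico).inter (Complex.measurable_im measurableSet_Ico)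
  have hmK : MeasurableSet (KS V) := (composite_KS hV).meas
  have e1 : energy (KS V) 0 (fun z => fderiv ℝ (lift 1 ψ) z 1)
      (fun z => fderiv ℝ (lift 1 ψ) z I) =
      ∫ z in cell, (Vᶜ.indicator (fun p => 4 * ‖dbar ψ p‖ ^ 2)) (fold z) := by
    unfold energy
    rw [← setIntegral_indicator hmK]
    refine integral_congr_ae ?_
    refine ae_restrict_of_ae ?_
    filter_upwards [ae_fold_triO] with z hz
    by_cases hzV : fold z ∈ V
    · rw [indicator_of_notMem (show z ∉ KS V from fun h => h hzV),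
        indicator_of_notMem (show fold z ∉ Vᶜ from fun h => h hzV)]
    · rw [indicator_of_mem (show z ∈ KS V from hzV), indicator_of_mem (show fold z ∈ Vᶜ from hzV),
        ← (dv_lift ψ hz).2, zero_add]
      rfl
  have hmt : MeasurableSet tri := isClosed_tri.measurableSet
  rw [e1, setIntegral_fold, setIntegral_indicator hV.compl, smul_eq_mul, ← diff_eq]
  linarith

end EBC
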