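import Pool.Agent.Work.MP_ebc928_an.FluctBasic

open MeasureTheory Complex Set Filter Topology
open scoped ContDiff ComplexConjugate

noncomputable section
namespace EBC

theorem wd_cont_D2 {φ : ℂ → ℝ} (hφ : ContDiff ℝ ∞ φ) (a b : ℂ) :
    Continuous (fun z => D2 φ z a b) := by
  have h1 : ContDiff ℝ ∞ (fderiv ℝ φ) := hφ.fderiv_right (by simp)
  have h2 : Continuous (fderiv ℝ (fderiv ℝ φ)) := h1.continuous_fderiv (by simp)
  unfold D2
  exact (h2.clm_apply continuous_const).clm_apply continuous_const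

theorem wd_cont_hf {φ : ℂ → ℝ} (hφ : ContDiff ℝ ∞ φ) : Continuous (hf φ) := by
  unfold hf
  exact ((wd_cont_D2 hφ 1 1).add (wd_cont_D2 hφ I I)).div_const 2

theorem wd_cont_hh {φ : ℂ → ℝ} (hφ : ContDiff ℝ ∞ φ) : Continuous (hh φ) := by
  unfold hh
  exact (continuous_ofReal.comp (((wd_cont_D2 hφ 1 1).sub (wd_cont_D2 hφ I I)).div_const 2)).add
    ((continuous_ofReal.comp (wd_cont_D2 hφ 1 I)).mul continuous_const)

theorem wd_meas_cell : MeasurableSet cell := by
  have : cell = Complex.re ⁻¹' (Ico 0 1) ∩ Complex.im ⁻¹' (Ico 0 1) := rfl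
  rw [this]
  exact (Complex.measurable_re measurableSet_Ico).inter (Complex.measurable_im measurableSet_Ico)

theorem wd_cell_sub : cell ⊆ Metric.closedBall (0 : ℂ) 2 := by
  intro z hz
  have h1 := Complex.norm_le_abs_re_add_abs_im z
  obtain ⟨⟨h2, h3⟩, h4, h5⟩ := hz
  rw [abs_of_nonneg h2, abs_of_nonneg h4] at h1
  simp only [Metric.mem_closedBall, dist_zero_right]
  linarith

theorem wd_finite : IsFiniteMeasure (volume.restrict cell : Measure ℂ) := by
  constructor
  rw [Measure.restrict_apply_univ]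
  exact (measure_mono wd_cell_sub).trans_lt measure_closedBall_lt_top

theorem wd_vol_cell : volume cell = 1 := by
  have h1 : cell = Complex.measurableEquivRealProd ⁻¹' (Ico (0 : ℝ) 1 ×ˢ Ico (0 : ℝ) 1) := by
    ext z
    simp [cell, Complex.measurableEquivRealProd_apply]
  rw [h1, Complex.volume_preserving_equiv_real_prod.measure_preimage
    (measurableSet_Ico.prod measurableSet_Ico).nullMeasurableSet]
  rw [Measure.volume_eq_prod, Measure.prod_prod]
  simp

theorem wd_memLp_cont {E : Type*} [NormedAddCommGroup E] {f : ℂ → E} (hf : Continuous f) :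
    MemLp f 2 (volume.restrict cell) := by
  have := wd_finite
  obtain ⟨C, hC⟩ := (isCompact_closedBall (0 : ℂ) 2).exists_bound_of_continuousOn hf.continuousOn
  refine MemLp.of_bound hf.aestronglyMeasurable C ?_
  filter_upwards [ae_restrict_mem wd_meas_cell] with z hz
  exact hC z (wd_cell_sub hz)

theorem wd_sq_int {E : Type*} [NormedAddCommGroup E] {f : ℂ → E} {s : Set ℂ}
    (hf : MemLp f 2 (volume.restrict s)) : Integrable (fun z => ‖f z‖ ^ 2) (volume.restrict s) :=
  (memLp_two_iff_integrable_sq_norm hf.aestronglyMeasurable).1 hf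

theorem wd_sq_int_real {f : ℂ → ℝ} {s : Set ℂ}
    (hf : MemLp f 2 (volume.restrict s)) : Integrable (fun z => f z ^ 2) (volume.restrict s) := by
  have := wd_sq_int hf
  simpa using this

theorem DualField.toSeq {S : Set ℂ} (hS : Composite S) {b : ℂ} {E : ℝ} (h : DualField S b E) :
    DualSeq S b E := by
  obtain ⟨f, h, a, hf2, hh2, h0, hE, happ⟩ := h
  have hE0 : 0 ≤ E := le_trans (integral_nonneg fun z => by positivity) hE
  intro ε hε
  set t : ℝ := ε / (2 * (E + 1)) with ht
  have htpos : 0 < t := by positivity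
  have htE : t * E ≤ ε / 2 := by
    rw [ht, div_mul_eq_mul_div, div_le_div_iff₀ (by positivity) (by norm_num)]
    nlinarith
  obtain ⟨φ, hφ, hle⟩ := happ (min ε (ε / 2 / (1 + 1 / t))) (by positivity)
  have i1 : MemLp (fun z => f z - (a + hf φ z)) 2 (volume.restrict cell) :=
    hf2.sub (wd_memLp_cont (continuous_const.add (wd_cont_hf hφ.1)))
  have i2 : MemLp (fun z => h z - (b + hh φ z)) 2 (volume.restrict cell) :=
    hh2.sub (wd_memLp_cont (continuous_const.add (wd_cont_hh hφ.1)))
  have i3 : Integrable (fun z => (f z - (a + hf φ z)) ^ 2 + ‖h z - (b + hh φ z)‖ ^ 2)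
      (volume.restrict cell) := (wd_sq_int_real i1).add (wd_sq_int i2)
  refine ⟨a, φ, hφ, ?_, ?_⟩
  · have e1 : ∫ z in cell \ S, ((a + hf φ z) ^ 2 + ‖b + hh φ z‖ ^ 2) =
        ∫ z in cell \ S, ((f z - (a + hf φ z)) ^ 2 + ‖h z - (b + hh φ z)‖ ^ 2) := by
      apply integral_congr_ae
      have h0' : ∀ᵐ z ∂(volume.restrict (cell \ S)), z ∉ S → f z = 0 ∧ h z = 0 :=
        ae_mono (Measure.restrict_mono sdiff_subset le_rfl) h0
      filter_upwards [h0', ae_restrict_mem (wd_meas_cell.diff hS.meas)] with z hz hz2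
      obtain ⟨h1, h2⟩ := hz hz2.2
      rw [h1, h2]
      simp only [zero_sub, norm_neg, even_two.neg_pow]
    rw [e1]
    calc _ ≤ ∫ z in cell, ((f z - (a + hf φ z)) ^ 2 + ‖h z - (b + hh φ z)‖ ^ 2) := by
          apply setIntegral_mono_set i3 (Eventually.of_forall fun z => by positivity)
          exact LE.le.eventuallyLE sdiff_subset
      _ ≤ ε := hle.trans (min_le_left _ _)
  · have e2 : ∀ z, ‖b + hh φ z‖ ^ 2 ≤ (1 + t) * ‖h z‖ ^ 2 +
        (1 + 1 / t) * ((f z - (a + hf φ z)) ^ 2 + ‖h z - (b + hh φ z)‖ ^ 2) := by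
      intro z
      have h1 : ‖b + hh φ z‖ ≤ ‖h z‖ + ‖h z - (b + hh φ z)‖ := by
        calc ‖b + hh φ z‖ = ‖h z - (h z - (b + hh φ z))‖ := by congr 1; ring
          _ ≤ _ := norm_sub_le _ _
      set A := ‖h z‖
      set B := ‖h z - (b + hh φ z)‖
      have hA : 0 ≤ A := norm_nonneg _
      have hB : 0 ≤ B := norm_nonneg _
      have h2 : ‖b + hh φ z‖ ^ 2 ≤ (A + B) ^ 2 := by
        apply pow_le_pow_left₀ (norm_nonneg _) h1
      have h3 : (A + B) ^ 2 ≤ (1 + t) * A ^ 2 + (1 + 1 / t) * B ^ 2 := by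
        have h4 : 0 ≤ (t * A - B) ^ 2 / t := by positivity
        have h5 : (1 + t) * A ^ 2 + (1 + 1 / t) * B ^ 2 - (A + B) ^ 2 = (t * A - B) ^ 2 / t := by
          field_simp
          ring
        linarith
      have h6 : (1 + 1 / t) * B ^ 2 ≤ (1 + 1 / t) * ((f z - (a + hf φ z)) ^ 2 + B ^ 2) := by
        apply mul_le_mul_of_nonneg_left _ (by positivity)
        nlinarith [sq_nonneg (f z - (a + hf φ z))]
      linarith
    calc ∫ z in cell, ‖b + hh φ z‖ ^ 2
        ≤ ∫ z in cell, ((1 + t) * ‖h z‖ ^ 2 +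
          (1 + 1 / t) * ((f z - (a + hf φ z)) ^ 2 + ‖h z - (b + hh φ z)‖ ^ 2)) := by
          apply integral_mono
            (wd_sq_int (wd_memLp_cont (continuous_const.add (wd_cont_hh hφ.1))))
            (((wd_sq_int hh2).const_mul _).add (i3.const_mul _))
          exact e2
      _ = (1 + t) * (∫ z in cell, ‖h z‖ ^ 2) + (1 + 1 / t) *
          (∫ z in cell, ((f z - (a + hf φ z)) ^ 2 + ‖h z - (b + hh φ z)‖ ^ 2)) := by
          rw [integral_add ((wd_sq_int hh2).const_mul _) (i3.const_mul _), integral_const_mul,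
            integral_const_mul]
      _ ≤ (1 + t) * E + (1 + 1 / t) * (ε / 2 / (1 + 1 / t)) := by
          apply add_le_add
          · exact mul_le_mul_of_nonneg_left hE (by positivity)
          · exact mul_le_mul_of_nonneg_left (hle.trans (min_le_right _ _)) (by positivity)
      _ ≤ E + ε := by
          have : (1 + 1 / t) * (ε / 2 / (1 + 1 / t)) = ε / 2 := by field_simp
          rw [this]
          nlinarith


theorem wd_norm_conj_mul_re (X Y : ℂ) : |(conj X * Y).re| ≤ ‖X‖ * ‖Y‖ := by
  calc |(conj X * Y).re| ≤ ‖conj X * Y‖ := Complex.abs_re_le_norm _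
    _ = ‖X‖ * ‖Y‖ := by simp

theorem wd_per_fderiv {E : Type*} [NormedAddCommGroup E] [NormedSpace ℝ E] {φ : ℂ → E}
    (hp : Per φ) : Per (fderiv ℝ φ) := by
  intro z
  have h1 : (fun z => φ (z + 1)) = φ := funext fun z => (hp z).1
  have h2 : (fun z => φ (z + I)) = φ := funext fun z => (hp z).2
  constructor
  · rw [← fderiv_comp_add_right, h1]
  · rw [← fderiv_comp_add_right, h2]

theorem wd_mean_D2 {φ : ℂ → ℝ} (hφ : SmoothPer φ) (b : ℂ) :
    ∫ z in cell, ((D2 φ z 1 b : ℝ) : ℂ) = 0 ∧ ∫ z in cell, ((D2 φ z I b : ℝ) : ℂ) = 0 := by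
  have h1 : ContDiff ℝ ∞ (fderiv ℝ φ) := hφ.1.fderiv_right (by simp)
  have h2 : ContDiff ℝ ∞ (fun z => ((fderiv ℝ φ z b : ℝ) : ℂ)) :=
    ofRealCLM.contDiff.comp (h1.clm_apply contDiff_const)
  have h3 : Per (fun z => ((fderiv ℝ φ z b : ℝ) : ℂ)) := by
    intro z
    simp only
    rw [(wd_per_fderiv hφ.2 z).1, (wd_per_fderiv hφ.2 z).2]
    exact ⟨rfl, rfl⟩
  have h4 := (fluct_of_smooth h2 h3).mean_zero
  have h5 : ∀ z a, fderiv ℝ (fun z => ((fderiv ℝ φ z b : ℝ) : ℂ)) z a = ((D2 φ z a b : ℝ) : ℂ) := by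
    intro z a
    have hd : HasFDerivAt (fderiv ℝ φ) (fderiv ℝ (fderiv ℝ φ) z) z :=
      (h1.differentiable (by simp) z).hasFDerivAt
    have hd2 := ofRealCLM.hasFDerivAt.comp z (hd.clm_apply (hasFDerivAt_const b z))
    have hd3 := hd2.fderiv
    simp only [Function.comp_def, ofRealCLM_apply] at hd3
    rw [hd3]
    simp [D2]
  simp only [h5] at h4
  exact h4

theorem wd_mean_hh {φ : ℂ → ℝ} (hφ : SmoothPer φ) : ∫ z in cell, hh φ z = 0 := by
  have hfin := wd_finite
  have hi : ∀ a b, Integrable (fun z => ((D2 φ z a b : ℝ) : ℂ)) (volume.restrict cell) :=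
    fun a b => (wd_memLp_cont (continuous_ofReal.comp (wd_cont_D2 hφ.1 a b))).integrable
      (by norm_num)
  have e1 : ∀ z, hh φ z = ((D2 φ z 1 1 : ℝ) : ℂ) / 2 - ((D2 φ z I I : ℝ) : ℂ) / 2 +
      ((D2 φ z 1 I : ℝ) : ℂ) * I := by
    intro z
    unfold hh
    push_cast
    ring
  simp only [e1]
  rw [integral_add, integral_sub, integral_div, integral_div, integral_mul_const,
    (wd_mean_D2 hφ 1).1, (wd_mean_D2 hφ I).2, (wd_mean_D2 hφ I).1]
  · simp
  · exact (hi 1 1).div_const 2
  · exact (hi I I).div_const 2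
  · exact ((hi 1 1).div_const 2).sub ((hi I I).div_const 2)
  · exact (hi 1 I).mul_const I

/-- the key identity -/
theorem wd_key {u ux uy : ℂ → ℂ} (hu : Fluct u ux uy) {φ : ℂ → ℝ} (hφ : SmoothPer φ)
    (a : ℝ) (b β : ℂ) :
    (conj b * β).re = ∫ z in cell, ((conj (b + hh φ z) * (β + (ux z + I * uy z) / 2)).re -
      (a + hf φ z) * ((ux z - I * uy z) / 2).re) := by
  have hfin := wd_finite
  have mi : Integrable ux (volume.restrict cell) := hu.memx.integrable (by norm_num)
  have mj : Integrable uy (volume.restrict cell) := hu.memy.integrable (by norm_num)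
  have iz : Integrable (fun z => (ux z - I * uy z) / 2) (volume.restrict cell) :=
    (mi.sub (mj.const_mul I)).div_const 2
  have izb : Integrable (fun z => (ux z + I * uy z) / 2) (volume.restrict cell) :=
    (mi.add (mj.const_mul I)).div_const 2
  have mz : MemLp (fun z => (ux z - I * uy z) / 2) 2 (volume.restrict cell) := by
    have := (hu.memx.sub (hu.memy.const_mul I)).mul_const (2 : ℂ)⁻¹
    exact this
  have mzb : MemLp (fun z => (ux z + I * uy z) / 2) 2 (volume.restrict cell) := by
    have := (hu.memx.add (hu.memy.const_mul I)).mul_const (2 : ℂ)⁻¹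
    exact this
  have chh : Continuous (hh φ) := wd_cont_hh hφ.1
  have chf : Continuous (hf φ) := wd_cont_hf hφ.1
  have mhh : MemLp (fun z => conj (hh φ z)) 2 (volume.restrict cell) :=
    wd_memLp_cont (continuous_conj.comp chh)
  have mhf : MemLp (fun z => (hf φ z : ℂ)) 2 (volume.restrict cell) :=
    wd_memLp_cont (continuous_ofReal.comp chf)
  have i1 : Integrable (fun z => conj (hh φ z) * ((ux z + I * uy z) / 2)) (volume.restrict cell) :=
    mhh.integrable_mul mzb
  have i2 : Integrable (fun z => (hf φ z : ℂ) * ((ux z - I * uy z) / 2)) (volume.restrict cell) :=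
    mhf.integrable_mul mz
  have ihh : Integrable (fun z => conj (hh φ z)) (volume.restrict cell) :=
    mhh.integrable (by norm_num)
  -- means
  have z1 : ∫ z in cell, (ux z + I * uy z) / 2 = 0 := by
    rw [integral_div, integral_add mi (mj.const_mul I), integral_const_mul, hu.mean_zero.1,
      hu.mean_zero.2]
    simp
  have z2 : ∫ z in cell, (ux z - I * uy z) / 2 = 0 := by
    rw [integral_div, integral_sub mi (mj.const_mul I), integral_const_mul, hu.mean_zero.1,
      hu.mean_zero.2]
    simp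
  have z3 : ∫ z in cell, conj (hh φ z) = 0 := by
    rw [integral_conj, wd_mean_hh hφ, map_zero]
  have z4 := hu.null hφ
  have main : ∫ z in cell, (conj (b + hh φ z) * (β + (ux z + I * uy z) / 2) -
      ((a + hf φ z : ℝ) : ℂ) * ((ux z - I * uy z) / 2)) = conj b * β := by
    have e1 : ∀ z, (conj (b + hh φ z) * (β + (ux z + I * uy z) / 2) -
      ((a + hf φ z : ℝ) : ℂ) * ((ux z - I * uy z) / 2)) =
      (conj b * β + conj b * ((ux z + I * uy z) / 2)) + (conj (hh φ z) * β +
        -(a : ℂ) * ((ux z - I * uy z) / 2)) +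
        (conj (hh φ z) * ((ux z + I * uy z) / 2) - (hf φ z : ℂ) * ((ux z - I * uy z) / 2)) := by
      intro z
      push_cast
      rw [map_add]
      ring
    simp only [e1]
    rw [integral_add, integral_add, integral_add, integral_add, z4]
    · simp only [integral_const_mul, integral_mul_const, z1, z2, z3]
      simp [Measure.real, wd_vol_cell]
    · exact ihh.mul_const β
    · exact iz.const_mul _
    · exact integrable_const _
    · exact izb.const_mul _
    · exact (integrable_const _).add (izb.const_mul _)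
    · exact (ihh.mul_const β).add (iz.const_mul _)
    · exact ((integrable_const _).add (izb.const_mul _)).add
        ((ihh.mul_const β).add (iz.const_mul _))
    · exact i1.sub i2
  rw [← main]
  have hint : Integrable (fun z => conj (b + hh φ z) * (β + (ux z + I * uy z) / 2) -
      ((a + hf φ z : ℝ) : ℂ) * ((ux z - I * uy z) / 2)) (volume.restrict cell) := by
    have w1 : MemLp (fun z => conj (b + hh φ z)) 2 (volume.restrict cell) :=
      wd_memLp_cont (continuous_conj.comp (continuous_const.add chh))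
    have w2 : MemLp (fun z => β + (ux z + I * uy z) / 2) 2 (volume.restrict cell) :=
      (memLp_const β).add mzb
    have w3 : MemLp (fun z => ((a + hf φ z : ℝ) : ℂ)) 2 (volume.restrict cell) :=
      wd_memLp_cont (continuous_ofReal.comp (continuous_const.add chf))
    exact (w1.integrable_mul w2).sub (w3.integrable_mul mz)
  have := (reCLM.integral_comp_comm hint).symm
  simp only [reCLM_apply] at this
  rw [this]
  congr 1
  funext z
  rw [sub_re, re_ofReal_mul]


theorem wd_W_nonempty (S : Set ℂ) (β : ℂ) :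
    ({e | ∃ u ux uy, Adm S 0 u ux uy ∧ e = energy S β ux uy} : Set ℝ).Nonempty := by
  refine ⟨_, fun _ => 0, fun _ => 0, fun _ => 0, ⟨fluct_zero, ?_⟩, rfl⟩
  exact Eventually.of_forall fun z _ => by simp

theorem wd_energy_nonneg (S : Set ℂ) (β : ℂ) (ux uy : ℂ → ℂ) : 0 ≤ energy S β ux uy :=
  integral_nonneg fun z => by positivity

theorem wd_bound {S : Set ℂ} (hS : Composite S) {b : ℂ} {E : ℝ} (h : DualSeq S b E)
    (β : ℂ) {u ux uy : ℂ → ℂ} (hu : Adm S 0 u ux uy) :
    4 * ((conj b * β).re) ^ 2 ≤ energy S β ux uy * E := by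
  obtain ⟨hF, hdiv⟩ := hu
  have hfin := wd_finite
  set Y : ℂ → ℂ := fun z => β + (ux z + I * uy z) / 2 with hY
  set Q : ℂ → ℂ := fun z => (ux z - I * uy z) / 2 with hQ
  have mY : MemLp Y 2 (volume.restrict cell) := by
    have := (hF.memx.add (hF.memy.const_mul I)).mul_const (2 : ℂ)⁻¹
    exact (memLp_const β).add this
  have mQ : MemLp Q 2 (volume.restrict cell) := by
    have := (hF.memx.sub (hF.memy.const_mul I)).mul_const (2 : ℂ)⁻¹
    exact this
  have mQr : MemLp (fun z => (Q z).re) 2 (volume.restrict cell) := mQ.re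
  set C : ℝ := (∫ z in cell, ‖Y z‖ ^ 2) + ∫ z in cell, (Q z).re ^ 2 with hC
  set e : ℝ := energy S β ux uy with he
  have he' : e = 4 * ∫ z in cell ∩ S, ‖Y z‖ ^ 2 := by
    rw [he, energy, integral_const_mul]
  have he0 : 0 ≤ e := wd_energy_nonneg S β ux uy
  -- bound for a fixed pair of parameters
  have step : ∀ s t : ℝ, 0 < s → 0 < t →
      |(conj b * β).re| ≤ s / 2 * (E + t ^ 2) + e / (8 * s) + t / 2 * (C + 1) := by
    intro s t hs ht
    obtain ⟨a, φ, hφ, h1, h2⟩ := h (t ^ 2) (by positivity)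
    rw [wd_key hF hφ a b β]
    set X : ℂ → ℂ := fun z => b + hh φ z with hX
    set p : ℂ → ℝ := fun z => a + hf φ z with hp
    have mX : MemLp X 2 (volume.restrict cell) :=
      wd_memLp_cont (continuous_const.add (wd_cont_hh hφ.1))
    have mXc : MemLp (fun z => conj (X z)) 2 (volume.restrict cell) :=
      wd_memLp_cont (continuous_conj.comp (continuous_const.add (wd_cont_hh hφ.1)))
    have mp : MemLp p 2 (volume.restrict cell) :=
      wd_memLp_cont (continuous_const.add (wd_cont_hf hφ.1))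
    set F : ℂ → ℝ := fun z => (conj (X z) * Y z).re - p z * (Q z).re with hFdef
    have iF : Integrable F (volume.restrict cell) :=
      ((mXc.integrable_mul mY).re).sub (mp.integrable_mul mQr)
    have e0 : ∫ z in cell, F z = (∫ z in cell ∩ S, F z) + ∫ z in cell \ S, F z :=
      (integral_inter_add_sdiff hS.meas iF).symm
    have iX : Integrable (fun z => ‖X z‖ ^ 2) (volume.restrict cell) := wd_sq_int mX
    have iY : Integrable (fun z => ‖Y z‖ ^ 2) (volume.restrict cell) := wd_sq_int mY
    have ip : Integrable (fun z => p z ^ 2) (volume.restrict cell) := wd_sq_int_real mp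
    have iq : Integrable (fun z => (Q z).re ^ 2) (volume.restrict cell) := wd_sq_int_real mQr
    have rest1 : ∀ {f : ℂ → ℝ}, Integrable f (volume.restrict cell) →
        Integrable f (volume.restrict (cell ∩ S)) := fun hf =>
      hf.mono_measure (Measure.restrict_mono inter_subset_left le_rfl)
    have rest2 : ∀ {f : ℂ → ℝ}, Integrable f (volume.restrict cell) →
        Integrable f (volume.restrict (cell \ S)) := fun hf =>
      hf.mono_measure (Measure.restrict_mono sdiff_subset le_rfl)
    -- part in the solid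
    have p1 : |∫ z in cell ∩ S, F z| ≤ s / 2 * (E + t ^ 2) + e / (8 * s) := by
      have hb : ∀ᵐ z ∂(volume.restrict (cell ∩ S)), ‖F z‖ ≤
          s / 2 * ‖X z‖ ^ 2 + 1 / (2 * s) * ‖Y z‖ ^ 2 := by
        have hdiv' : ∀ᵐ z ∂(volume.restrict (cell ∩ S)), z ∈ S →
            2 * (0 : ℝ) + (ux z).re + (uy z).im = 0 :=
          ae_mono (Measure.restrict_mono inter_subset_left le_rfl) hdiv
        filter_upwards [hdiv', ae_restrict_mem (wd_meas_cell.inter hS.meas)] with z hz hz2
        have hq : (Q z).re = 0 := by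
          have := hz hz2.2
          simp only [hQ]
          simp
          linarith
        simp only [hFdef]
        rw [hq, mul_zero, sub_zero, Real.norm_eq_abs]
        refine (wd_norm_conj_mul_re _ _).trans ?_
        have h4 : 0 ≤ (s * ‖X z‖ - ‖Y z‖) ^ 2 / (2 * s) := by positivity
        have h5 : s / 2 * ‖X z‖ ^ 2 + 1 / (2 * s) * ‖Y z‖ ^ 2 - ‖X z‖ * ‖Y z‖ =
            (s * ‖X z‖ - ‖Y z‖) ^ 2 / (2 * s) := by
          field_simp
          ring
        linarith
      calc |∫ z in cell ∩ S, F z| = ‖∫ z in cell ∩ S, F z‖ := rfl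
        _ ≤ ∫ z in cell ∩ S, (s / 2 * ‖X z‖ ^ 2 + 1 / (2 * s) * ‖Y z‖ ^ 2) :=
          norm_integral_le_of_norm_le
            (((rest1 iX).const_mul _).add ((rest1 iY).const_mul _)) hb
        _ = s / 2 * (∫ z in cell ∩ S, ‖X z‖ ^ 2) + 1 / (2 * s) * (∫ z in cell ∩ S, ‖Y z‖ ^ 2) := by
          rw [integral_add ((rest1 iX).const_mul _) ((rest1 iY).const_mul _), integral_const_mul,
            integral_const_mul]
        _ ≤ s / 2 * (E + t ^ 2) + e / (8 * s) := by
          apply add_le_add
          · apply mul_le_mul_of_nonneg_left _ (by positivity)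
            refine le_trans ?_ h2
            apply setIntegral_mono_set iX (Eventually.of_forall fun z => by positivity)
            exact LE.le.eventuallyLE inter_subset_left
          · rw [he']
            apply le_of_eq
            field_simp
            ring
    have p2 : |∫ z in cell \ S, F z| ≤ t / 2 * (C + 1) := by
      have hb : ∀ᵐ z ∂(volume.restrict (cell \ S)), ‖F z‖ ≤
          1 / (2 * t) * (p z ^ 2 + ‖X z‖ ^ 2) + t / 2 * (‖Y z‖ ^ 2 + (Q z).re ^ 2) := by
        refine Eventually.of_forall fun z => ?_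
        simp only [hFdef]
        have h3 : ‖(conj (X z) * Y z).re - p z * (Q z).re‖ ≤ ‖X z‖ * ‖Y z‖ + |p z| * |(Q z).re| := by
          refine (norm_sub_le _ _).trans ?_
          apply add_le_add
          · exact wd_norm_conj_mul_re _ _
          · rw [Real.norm_eq_abs, abs_mul]
        refine h3.trans ?_
        have h4 : 0 ≤ (‖X z‖ - t * ‖Y z‖) ^ 2 / (2 * t) := by positivity
        have h5 : 0 ≤ (|p z| - t * |(Q z).re|) ^ 2 / (2 * t) := by positivity
        have h6 : 1 / (2 * t) * (|p z| ^ 2 + ‖X z‖ ^ 2) + t / 2 * (‖Y z‖ ^ 2 + |(Q z).re| ^ 2) -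
            (‖X z‖ * ‖Y z‖ + |p z| * |(Q z).re|) =
            (‖X z‖ - t * ‖Y z‖) ^ 2 / (2 * t) + (|p z| - t * |(Q z).re|) ^ 2 / (2 * t) := by
          field_simp
          ring
        rw [sq_abs, sq_abs] at h6
        linarith
      have j1 : Integrable (fun z => 1 / (2 * t) * (p z ^ 2 + ‖X z‖ ^ 2))
          (volume.restrict (cell \ S)) := ((rest2 ip).add (rest2 iX)).const_mul _
      have j2 : Integrable (fun z => t / 2 * (‖Y z‖ ^ 2 + (Q z).re ^ 2))
          (volume.restrict (cell \ S)) := ((rest2 iY).add (rest2 iq)).const_mul _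
      have j3 : Integrable (fun z => ‖Y z‖ ^ 2 + (Q z).re ^ 2) (volume.restrict cell) :=
        iY.add iq
      calc |∫ z in cell \ S, F z| = ‖∫ z in cell \ S, F z‖ := rfl
        _ ≤ ∫ z in cell \ S, (1 / (2 * t) * (p z ^ 2 + ‖X z‖ ^ 2) +
            t / 2 * (‖Y z‖ ^ 2 + (Q z).re ^ 2)) :=
          norm_integral_le_of_norm_le (j1.add j2) hb
        _ = 1 / (2 * t) * (∫ z in cell \ S, (p z ^ 2 + ‖X z‖ ^ 2)) +
            t / 2 * (∫ z in cell \ S, (‖Y z‖ ^ 2 + (Q z).re ^ 2)) := by
          rw [integral_add j1 j2, integral_const_mul, integral_const_mul]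
        _ ≤ 1 / (2 * t) * t ^ 2 + t / 2 * C := by
          apply add_le_add
          · exact mul_le_mul_of_nonneg_left h1 (by positivity)
          · apply mul_le_mul_of_nonneg_left _ (by positivity)
            rw [hC, ← integral_add iY iq]
            apply setIntegral_mono_set j3 (Eventually.of_forall fun z => by positivity)
            exact LE.le.eventuallyLE sdiff_subset
        _ = t / 2 * (C + 1) := by
          field_simp
          ring
    calc |∫ z in cell, F z| = |(∫ z in cell ∩ S, F z) + ∫ z in cell \ S, F z| := by rw [e0]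
      _ ≤ |∫ z in cell ∩ S, F z| + |∫ z in cell \ S, F z| := abs_add_le _ _
      _ ≤ _ := by linarith
  have step2 : ∀ s : ℝ, 0 < s → |(conj b * β).re| ≤ s / 2 * E + e / (8 * s) := by
    intro s hs
    have hc : Tendsto (fun t : ℝ => s / 2 * (E + t ^ 2) + e / (8 * s) + t / 2 * (C + 1))
        (𝓝[>] 0) (𝓝 (s / 2 * (E + 0 ^ 2) + e / (8 * s) + 0 / 2 * (C + 1))) := by
      have : Continuous (fun t : ℝ => s / 2 * (E + t ^ 2) + e / (8 * s) + t / 2 * (C + 1)) := by
        fun_prop
      exact this.continuousAt.tendsto.mono_left nhdsWithin_le_nhds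
    have := ge_of_tendsto hc (by
      filter_upwards [self_mem_nhdsWithin] with t ht
      exact step s t hs ht)
    simpa using this
  have hE0 : 0 ≤ E := by
    have : ∀ ε > 0, 0 ≤ E + ε := by
      intro ε hε
      obtain ⟨a, φ, hφ, h1, h2⟩ := h ε hε
      exact le_trans (integral_nonneg fun z => by positivity) h2
    exact le_of_forall_pos_le_add this
  set R : ℝ := |(conj b * β).re| with hR
  have hR0 : 0 ≤ R := abs_nonneg _
  have hdisc : ∀ x : ℝ, 0 ≤ (4 * E) * (x * x) + (-(8 * R)) * x + e := by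
    intro x
    rcases lt_or_ge 0 x with hx | hx
    · have h1 := step2 x hx
      have h2 : R * (8 * x) ≤ (x / 2 * E + e / (8 * x)) * (8 * x) :=
        mul_le_mul_of_nonneg_right h1 (by positivity)
      have h3 : (x / 2 * E + e / (8 * x)) * (8 * x) = 4 * E * (x * x) + e := by
        field_simp
        ring
      nlinarith
    · have h1 : 0 ≤ 4 * E * (x * x) := mul_nonneg (by linarith) (mul_self_nonneg x)
      have h2 : 0 ≤ -(8 * R) * x := by nlinarith
      linarith
  have := discrim_le_zero hdisc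
  unfold discrim at this
  rw [← sq_abs]
  nlinarith

theorem weak_dual {S : Set ℂ} (hS : Composite S) {b : ℂ} {E : ℝ} (h : DualSeq S b E)
    (β : ℂ) : 4 * ((conj b * β).re) ^ 2 ≤ W S 0 β * E := by
  have hE0 : 0 ≤ E := by
    have : ∀ ε > 0, 0 ≤ E + ε := by
      intro ε hε
      obtain ⟨a, φ, hφ, h1, h2⟩ := h ε hε
      exact le_trans (integral_nonneg fun z => by positivity) h2
    exact le_of_forall_pos_le_add this
  rcases hE0.eq_or_lt with hE | hE
  · obtain ⟨e, u, ux, uy, hu, he⟩ := wd_W_nonempty S β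
    have := wd_bound hS h β hu
    rw [← hE, mul_zero] at this ⊢
    exact this
  · have : 4 * ((conj b * β).re) ^ 2 / E ≤ W S 0 β := by
      apply le_csInf (wd_W_nonempty S β)
      rintro e ⟨u, ux, uy, hu, rfl⟩
      rw [div_le_iff₀ hE]
      exact wd_bound hS h β hu
    rwa [div_le_iff₀ hE] at this

end EBC
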