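import Pool.Agent.Work.MP_ebc928_an.Mollify
import Pool.Agent.Work.MP_ebc928_an.WeakDual

open MeasureTheory Complex Set Filter Topology
open scoped ContDiff ComplexConjugate

noncomputable section
namespace EBC

theorem td_weakDeriv_lip {f : ℂ → ℝ} {K : NNReal} (hf : LipschitzWith K f) (e : ℂ) :
    WeakDeriv e (fun z => (f z : ℂ)) (fun z => ((fderiv ℝ f z e : ℝ) : ℂ)) := by
  intro χ hχ hc
  obtain ⟨D, hD⟩ := hχ.lipschitzWith_of_hasCompactSupport hc (by simp)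
  have h1 := hf.integral_lineDeriv_mul_eq (μ := volume) hD hc e
  have h2 : ∫ x, lineDeriv ℝ f x e * χ x = ∫ x, χ x * fderiv ℝ f x e := by
    apply integral_congr_ae
    filter_upwards [hf.ae_differentiableAt (μ := volume)] with x hx
    rw [hx.lineDeriv_eq_fderiv, mul_comm]
  have h3 : ∀ x, lineDeriv ℝ χ x (-e) * f x = -(fderiv ℝ χ x e * f x) := by
    intro x
    rw [(hχ.differentiable (by simp) x).lineDeriv_eq_fderiv, map_neg, neg_mul]
  rw [h2] at h1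
  simp only [h3, integral_neg] at h1
  have h4 : ∫ x, fderiv ℝ χ x e * f x = -∫ x, χ x * fderiv ℝ f x e := by linarith
  calc ∫ z, (fderiv ℝ χ z e) • ((f z : ℝ) : ℂ) = ∫ z, ((fderiv ℝ χ z e * f z : ℝ) : ℂ) := by
        congr 1
        funext z
        simp
    _ = ((∫ z, fderiv ℝ χ z e * f z : ℝ) : ℂ) := integral_ofReal
    _ = -((∫ x, χ x * fderiv ℝ f x e : ℝ) : ℂ) := by rw [h4]; push_cast; rfl
    _ = -∫ z, ((χ z * fderiv ℝ f z e : ℝ) : ℂ) := by
        congr 1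
        exact integral_ofReal.symm
    _ = -∫ z, χ z • ((fderiv ℝ f z e : ℝ) : ℂ) := by
        congr 2
        funext z
        simp

theorem td_per_int {α : Type*} {g : ℂ → α} (hg : Per g) (z : ℂ) :
    ∃ w ∈ cell, g z = g w := by
  refine ⟨z - ((⌊z.re⌋ : ℂ) + ⌊z.im⌋ * I), ?_, ?_⟩
  · simp only [cell, Set.mem_ofPred_eq, mem_Ico]
    simp
    exact ⟨Int.fract_lt_one _, Int.fract_lt_one _⟩
  · have := mol_per_int hg ⌊z.re⌋ ⌊z.im⌋ (z - ((⌊z.re⌋ : ℂ) + ⌊z.im⌋ * I))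
    rw [← this]
    congr 1
    ring

theorem td_lip {φ : ℂ → ℝ} (hφ : C11 φ) (hp : Per φ) : ∃ K, LipschitzWith K φ := by
  have hc : Continuous (fderiv ℝ φ) := hφ.1.continuous_fderiv (by simp)
  obtain ⟨C, hC⟩ := (isCompact_closedBall (0 : ℂ) 2).exists_bound_of_continuousOn hc.continuousOn
  have hb : ∀ z, ‖fderiv ℝ φ z‖ ≤ C := by
    intro z
    obtain ⟨w, hw, he⟩ := td_per_int (wd_per_fderiv hp) z
    rw [he]
    exact hC w (wd_cell_sub hw)
  have hC0 : 0 ≤ C := (norm_nonneg _).trans (hb 0)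
  refine ⟨⟨C, hC0⟩, lipschitzWith_of_nnnorm_fderiv_le (𝕜 := ℝ) (hφ.1.differentiable (by simp)) ?_⟩
  intro z
  exact hb z

theorem td_D2_ae {φ : ℂ → ℝ} (hφ : C11 φ) (e b : ℂ) :
    ∀ᵐ z, fderiv ℝ (fun z => fderiv ℝ φ z b) z e = D2 φ z e b := by
  obtain ⟨K, hK⟩ := hφ.2
  filter_upwards [hK.ae_differentiableAt (μ := volume)] with z hz
  have := (hz.hasFDerivAt.clm_apply (hasFDerivAt_const b z)).fderiv
  rw [this]
  simp [D2]

theorem td_weak2 {φ : ℂ → ℝ} (hφ : C11 φ) (e b : ℂ) :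
    WeakDeriv e (fun z => ((fderiv ℝ φ z b : ℝ) : ℂ)) (fun z => ((D2 φ z e b : ℝ) : ℂ)) := by
  obtain ⟨K, hK⟩ := hφ.2
  have hl : LipschitzWith (‖b‖₊ * K) (fun z => fderiv ℝ φ z b) := by
    apply LipschitzWith.of_dist_le_mul
    intro x y
    rw [Real.dist_eq]
    calc |fderiv ℝ φ x b - fderiv ℝ φ y b| = ‖(fderiv ℝ φ x - fderiv ℝ φ y) b‖ := by
          simp
      _ ≤ ‖fderiv ℝ φ x - fderiv ℝ φ y‖ * ‖b‖ := ContinuousLinearMap.le_opNorm _ _
      _ ≤ (K * dist x y) * ‖b‖ := by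
          apply mul_le_mul_of_nonneg_right _ (norm_nonneg _)
          rw [← dist_eq_norm]
          exact hK.dist_le_mul x y
      _ = _ := by
          push_cast
          ring
  intro χ hχ hc
  rw [td_weakDeriv_lip hl e χ hχ hc]
  congr 1
  apply integral_congr_ae
  filter_upwards [td_D2_ae hφ e b] with z hz
  rw [hz]

theorem td_meas_D2 {φ : ℂ → ℝ} (e b : ℂ) : Measurable (fun z => D2 φ z e b) := by
  have h1 : Measurable (fderiv ℝ (fderiv ℝ φ)) := measurable_fderiv ℝ (fderiv ℝ φ)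
  have h2 := (ContinuousLinearMap.apply ℝ ℝ b).continuous.measurable.comp
    ((ContinuousLinearMap.apply ℝ (ℂ →L[ℝ] ℝ) e).continuous.measurable.comp h1)
  exact h2

theorem td_bdd_D2 {φ : ℂ → ℝ} (hφ : C11 φ) (e b : ℂ) : ∃ C : ℝ, ∀ z, |D2 φ z e b| ≤ C := by
  obtain ⟨K, hK⟩ := hφ.2
  refine ⟨K * ‖e‖ * ‖b‖, fun z => ?_⟩
  have h1 : ‖fderiv ℝ (fderiv ℝ φ) z‖ ≤ K := norm_fderiv_le_of_lipschitz ℝ hK
  calc |D2 φ z e b| = ‖fderiv ℝ (fderiv ℝ φ) z e b‖ := rfl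
    _ ≤ ‖fderiv ℝ (fderiv ℝ φ) z e‖ * ‖b‖ := ContinuousLinearMap.le_opNorm _ _
    _ ≤ (‖fderiv ℝ (fderiv ℝ φ) z‖ * ‖e‖) * ‖b‖ :=
        mul_le_mul_of_nonneg_right (ContinuousLinearMap.le_opNorm _ _) (norm_nonneg _)
    _ ≤ K * ‖e‖ * ‖b‖ := by gcongr

theorem td_memLp_D2 {φ : ℂ → ℝ} (hφ : C11 φ) (e b : ℂ) :
    MemLp (fun z => D2 φ z e b) 2 (volume.restrict cell) := by
  have := wd_finite
  obtain ⟨C, hC⟩ := td_bdd_D2 hφ e b
  exact MemLp.of_bound (td_meas_D2 e b).aestronglyMeasurable C (Eventually.of_forall hC)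

theorem td_per_D2 {φ : ℂ → ℝ} (hp : Per φ) (e b : ℂ) : Per (fun z => D2 φ z e b) := by
  intro z
  have := wd_per_fderiv (wd_per_fderiv hp) z
  simp only [D2, this.1, this.2, and_self]

theorem td_D2_re {F : ℂ → ℂ} (hF : ContDiff ℝ ∞ F) (z e b : ℂ) :
    D2 (fun z => (F z).re) z e b = (fderiv ℝ (fun z => fderiv ℝ F z b) z e).re := by
  have hF1 : ContDiff ℝ ∞ (fderiv ℝ F) := hF.fderiv_right (by simp)
  have h1 : ∀ z, fderiv ℝ (fun z => (F z).re) z = reCLM.comp (fderiv ℝ F z) := by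
    intro z
    exact (reCLM.hasFDerivAt.comp z (hF.differentiable (by simp) z).hasFDerivAt).fderiv
  have h2 : fderiv ℝ (fun z => (F z).re) = fun z => reCLM.comp (fderiv ℝ F z) := funext h1
  have hd : HasFDerivAt (fderiv ℝ F) (fderiv ℝ (fderiv ℝ F) z) z :=
    (hF1.differentiable (by simp) z).hasFDerivAt
  unfold D2
  rw [h2]
  have h3 : HasFDerivAt (fun z => reCLM.comp (fderiv ℝ F z))
      ((ContinuousLinearMap.compL ℝ ℂ ℂ ℝ reCLM).comp (fderiv ℝ (fderiv ℝ F) z)) z :=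
    (ContinuousLinearMap.compL ℝ ℂ ℂ ℝ reCLM).hasFDerivAt.comp z hd
  rw [h3.fderiv, (hd.clm_apply (hasFDerivAt_const b z)).fderiv]
  simp

theorem dualSeq_of_C11 {S : Set ℂ} (hS : Composite S) {φ : ℂ → ℝ} (hφ : C11 φ) (hp : Per φ)
    {b : ℂ} (hflat : ∀ᵐ z, z ∉ S → hf φ z = 0 ∧ b + hh φ z = 0) :
    DualSeq S b (∫ z in cell, ‖b + hh φ z‖ ^ 2) := by
  apply DualField.toSeq hS
  obtain ⟨ρ, hρ⟩ := exists_moll
  obtain ⟨K, hK⟩ := td_lip hφ hp
  have hfin := wd_finite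
  have mC : ∀ e b, MemLp (fun z => ((D2 φ z e b : ℝ) : ℂ)) 2 (volume.restrict cell) :=
    fun e b => (td_memLp_D2 hφ e b).ofReal
  have pC : ∀ e b, Per (fun z => ((D2 φ z e b : ℝ) : ℂ)) := fun e b z => by
    have := td_per_D2 hp e b z
    simp only at this ⊢
    rw [this.1, this.2]
    exact ⟨rfl, rfl⟩
  have m1 : MemLp (hf φ) 2 (volume.restrict cell) := by
    have := ((td_memLp_D2 hφ 1 1).add (td_memLp_D2 hφ I I)).mul_const (2 : ℝ)⁻¹
    exact this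
  have m2 : MemLp (hh φ) 2 (volume.restrict cell) := by
    have h1 := ((td_memLp_D2 hφ 1 1).sub (td_memLp_D2 hφ I I)).mul_const (2 : ℝ)⁻¹
    have h2 : MemLp (fun z => (((D2 φ z 1 1 - D2 φ z I I) / 2 : ℝ) : ℂ)) 2
        (volume.restrict cell) := h1.ofReal
    exact h2.add ((mC 1 I).mul_const I)
  refine ⟨hf φ, fun z => b + hh φ z, 0, m1, (memLp_const b).add m2, ?_, le_rfl, ?_⟩
  · filter_upwards [ae_restrict_of_ae (s := cell) hflat] with z hz hzS
    exact hz hzS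
  intro ε hε
  have pφ : Per (fun z => ((φ z : ℝ) : ℂ)) := fun z => by
    simp only [(hp z).1, (hp z).2, and_self]
  have mφ : MemLp (fun z => ((φ z : ℝ) : ℂ)) 2 (volume.restrict cell) :=
    wd_memLp_cont (continuous_ofReal.comp hφ.1.continuous)
  have pΨ : ∀ b, Per (fun z => ((fderiv ℝ φ z b : ℝ) : ℂ)) := fun b z => by
    have := wd_per_fderiv hp z
    simp only [this.1, this.2, and_self]
  have mΨ : ∀ b, MemLp (fun z => ((fderiv ℝ φ z b : ℝ) : ℂ)) 2 (volume.restrict cell) := fun b =>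
    wd_memLp_cont (continuous_ofReal.comp
      ((hφ.1.continuous_fderiv (by simp)).clm_apply continuous_const))
  set F : ℕ → ℂ → ℂ := fun n => mol (ρ n) (fun z => ((φ z : ℝ) : ℂ)) with hF
  have sF : ∀ n, ContDiff ℝ ∞ (F n) := fun n => (mol_smooth hρ pφ mφ n).1
  have dF : ∀ n z e b, fderiv ℝ (fun z => fderiv ℝ (F n) z b) z e =
      mol (ρ n) (fun z => ((D2 φ z e b : ℝ) : ℂ)) z := by
    intro n z e b
    have h1 : (fun z => fderiv ℝ (F n) z b) = mol (ρ n) (fun z => ((fderiv ℝ φ z b : ℝ) : ℂ)) := by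
      funext z
      exact mol_deriv hρ (locallyIntegrable_of_per pφ mφ)
        (locallyIntegrable_of_per (pΨ b) (mΨ b)) (td_weakDeriv_lip hK b) n z
    rw [h1]
    exact mol_deriv hρ (locallyIntegrable_of_per (pΨ b) (mΨ b))
      (locallyIntegrable_of_per (pC e b) (mC e b)) (td_weak2 hφ e b) n z
  set ψ : ℕ → ℂ → ℝ := fun n z => (F n z).re with hψ
  have sψ : ∀ n, SmoothPer (ψ n) := fun n =>
    ⟨reCLM.contDiff.comp (sF n), fun z => by
      have := (mol_smooth hρ pφ mφ n).2 z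
      simp only [hψ, hF, this.1, this.2, and_self]⟩
  have dψ : ∀ n z e b, D2 (ψ n) z e b = (mol (ρ n) (fun z => ((D2 φ z e b : ℝ) : ℂ)) z).re := by
    intro n z e b
    rw [hψ]
    simp only
    rw [td_D2_re (sF n), dF]
  have tend : ∀ e b, Tendsto (fun n => ∫ z in cell, (D2 φ z e b - D2 (ψ n) z e b) ^ 2) atTop
      (𝓝 0) := by
    intro e b
    refine tendsto_of_tendsto_of_tendsto_of_le_of_le tendsto_const_nhds
      (mol_tendsto hρ (pC e b) (mC e b)) (fun n => integral_nonneg fun z => by positivity)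
      (fun n => ?_)
    have i1 : MemLp (fun z => ((D2 φ z e b : ℝ) : ℂ) -
        mol (ρ n) (fun z => ((D2 φ z e b : ℝ) : ℂ)) z) 2 (volume.restrict cell) :=
      (mC e b).sub (wd_memLp_cont (mol_smooth hρ (pC e b) (mC e b) n).1.continuous)
    have i2 : MemLp (fun z => D2 φ z e b - D2 (ψ n) z e b) 2 (volume.restrict cell) :=
      (td_memLp_D2 hφ e b).sub (wd_memLp_cont (wd_cont_D2 (sψ n).1 e b))
    apply integral_mono (wd_sq_int_real i2) (wd_sq_int i1)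
    intro z
    simp only
    rw [dψ, ← sq_abs]
    apply pow_le_pow_left₀ (abs_nonneg _)
    have := Complex.abs_re_le_norm (((D2 φ z e b : ℝ) : ℂ) -
        mol (ρ n) (fun z => ((D2 φ z e b : ℝ) : ℂ)) z)
    simpa using this
  have tsum := ((tend 1 1).add (tend I I)).add (tend 1 I)
  simp only [add_zero] at tsum
  obtain ⟨n, hn⟩ := (tsum.eventually_lt_const hε).exists
  refine ⟨ψ n, sψ n, ?_⟩
  have i2 : ∀ e b, Integrable (fun z => (D2 φ z e b - D2 (ψ n) z e b) ^ 2)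
      (volume.restrict cell) := fun e b =>
    wd_sq_int_real ((td_memLp_D2 hφ e b).sub (wd_memLp_cont (wd_cont_D2 (sψ n).1 e b)))
  have i3 : Integrable (fun z => (D2 φ z 1 1 - D2 (ψ n) z 1 1) ^ 2 +
      (D2 φ z I I - D2 (ψ n) z I I) ^ 2) (volume.restrict cell) := (i2 1 1).add (i2 I I)
  rw [← integral_add (i2 1 1) (i2 I I), ← integral_add i3 (i2 1 I)] at hn
  refine le_trans ?_ hn.le
  apply integral_mono_of_nonneg (Eventually.of_forall fun z => by positivity) (i3.add (i2 1 I))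
  refine Eventually.of_forall fun z => ?_
  simp only
  have e1 : (b + hh φ z) - (b + hh (ψ n) z) =
      ((((D2 φ z 1 1 - D2 (ψ n) z 1 1) - (D2 φ z I I - D2 (ψ n) z I I)) / 2 : ℝ) : ℂ) +
        ((D2 φ z 1 I - D2 (ψ n) z 1 I : ℝ) : ℂ) * I := by
    unfold hh
    push_cast
    ring
  have e2 : hf φ z - (0 + hf (ψ n) z) =
      ((D2 φ z 1 1 - D2 (ψ n) z 1 1) + (D2 φ z I I - D2 (ψ n) z I I)) / 2 := by
    unfold hf
    ring
  rw [e1, e2]
  set x := D2 φ z 1 1 - D2 (ψ n) z 1 1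
  set y := D2 φ z I I - D2 (ψ n) z I I
  set w := D2 φ z 1 I - D2 (ψ n) z 1 I
  have e3 : ‖((((x - y) / 2 : ℝ) : ℂ) + (w : ℂ) * I)‖ ^ 2 = ((x - y) / 2) ^ 2 + w ^ 2 := by
    rw [← Complex.normSq_eq_norm_sq, Complex.normSq_add_mul_I]
  rw [e3]
  change _ ≤ x ^ 2 + y ^ 2 + w ^ 2
  nlinarith [sq_nonneg x, sq_nonneg y]

end EBC
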