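import Pool.Agent.Work.MP_ebc928_an.Fold
import Pool.Agent.Work.MP_ebc928_an.FoldG
import Pool.Agent.Work.MP_ebc928_an.TrialDual
import Pool.Agent.Work.MP_ebc928_an.WeakDual

open MeasureTheory Complex Set Filter Topology
open scoped ContDiff ComplexConjugate

noncomputable section
namespace EBC

/-- symmetry of second derivatives (also where they do not exist) -/
private theorem D2_symmLB {Ξ : ℂ → ℂ} (h : Differentiable ℝ Ξ) (z a b : ℂ) :
    D2 Ξ z a b = D2 Ξ z b a := by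
  unfold D2
  by_cases hd : DifferentiableAt ℝ (fderiv ℝ Ξ) z
  · exact second_derivative_symmetric (fun y => (h y).hasFDerivAt) hd.hasFDerivAt a b
  · rw [fderiv_zero_of_not_differentiableAt hd]; simp

private theorem D2_smul_left (Ξ : ℂ → ℂ) (z a b : ℂ) (t : ℝ) :
    D2 Ξ z (t • a) b = t • D2 Ξ z a b := by
  unfold D2; rw [map_smul]; rfl

private theorem D2_add_left (Ξ : ℂ → ℂ) (z a a' b : ℂ) :
    D2 Ξ z (a + a') b = D2 Ξ z a b + D2 Ξ z a' b := by
  unfold D2; simp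

private theorem D2_smul_right (Ξ : ℂ → ℂ) (z a b : ℂ) (t : ℝ) :
    D2 Ξ z a (t • b) = t • D2 Ξ z a b := by
  unfold D2; rw [map_smul]

private theorem D2_add_right (Ξ : ℂ → ℂ) (z a b b' : ℂ) :
    D2 Ξ z a (b + b') = D2 Ξ z a b + D2 Ξ z a b' := by
  unfold D2; simp

private theorem D2_neg_left (Ξ : ℂ → ℂ) (z a b : ℂ) : D2 Ξ z (-a) b = - D2 Ξ z a b := by
  unfold D2; simp

private theorem D2_neg_right (Ξ : ℂ → ℂ) (z a b : ℂ) : D2 Ξ z a (-b) = - D2 Ξ z a b := by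
  unfold D2; simp

private def XA (Ξ : ℂ → ℂ) (z : ℂ) : ℂ := (D2 Ξ z 1 1 - D2 Ξ z I I - 2 * I * D2 Ξ z 1 I) / 4
private def XC (Ξ : ℂ → ℂ) (z : ℂ) : ℂ := (D2 Ξ z 1 1 - D2 Ξ z I I + 2 * I * D2 Ξ z 1 I) / 4

private theorem EB_eq (Ξ : ℂ → ℂ) (z : ℂ) : EB Ξ z = ‖1 + XA Ξ z‖ ^ 2 + ‖XC Ξ z‖ ^ 2 := rfl

private def XB (Ξ : ℂ → ℂ) (z : ℂ) : ℂ := (D2 Ξ z 1 1 + D2 Ξ z I I) / 4

private theorem D2_rep {Ξ : ℂ → ℂ} (h : Differentiable ℝ Ξ) (z a b : ℂ) :
    D2 Ξ z a b = XA Ξ z * (a * b) + XB Ξ z * (a * conj b + conj a * b) +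
      XC Ξ z * (conj a * conj b) := by
  have hs := D2_symmLB h z I 1
  have e : ∀ a : ℂ, a = a.re • (1 : ℂ) + a.im • I := fun a => Complex.ext (by simp) (by simp)
  have h1 : D2 Ξ z a b = a.re • b.re • D2 Ξ z 1 1 + a.re • b.im • D2 Ξ z 1 I +
      (a.im • b.re • D2 Ξ z 1 I + a.im • b.im • D2 Ξ z I I) := by
    conv_lhs => rw [e a, e b, D2_add_left, D2_smul_left, D2_smul_left, D2_add_right, D2_add_right,
      D2_smul_right, D2_smul_right, D2_smul_right, D2_smul_right, hs]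
    rw [smul_add, smul_add]
  rw [h1]
  unfold XA XB XC
  apply Complex.ext
  · simp
    ring
  · simp
    ring

private theorem push_EB (g : GE) {Ξ : ℂ → ℂ} (h : Differentiable ℝ Ξ) (z : ℂ) :
    EB (g.push 2 Ξ) z = EB Ξ (g.inv z) := by
  have key : (XA (g.push 2 Ξ) z = XA Ξ (g.inv z) ∧ XC (g.push 2 Ξ) z = g.a ^ 4 * XC Ξ (g.inv z)) ∨
      (XA (g.push 2 Ξ) z = conj (XA Ξ (g.inv z)) ∧
        XC (g.push 2 Ξ) z = g.a ^ 4 * conj (XC Ξ (g.inv z))) := by
    have hab := g.a_conj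
    have hI : I * I = -1 := I_mul_I
    have eA : XA (g.push 2 Ξ) z = (D2 (g.push 2 Ξ) z 1 1 - D2 (g.push 2 Ξ) z I I
      - 2 * I * D2 (g.push 2 Ξ) z 1 I) / 4 := rfl
    have eC : XC (g.push 2 Ξ) z = (D2 (g.push 2 Ξ) z 1 1 - D2 (g.push 2 Ξ) z I I
      + 2 * I * D2 (g.push 2 Ξ) z 1 I) / 4 := rfl
    rw [eA, eC]
    simp only [g.D2_push, D2_rep h]
    set a := g.a
    set A := XA Ξ (g.inv z)
    set B := XB Ξ (g.inv z)
    set C := XC Ξ (g.inv z)
    cases g.c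
    · left
      simp only [cj, Bool.false_eq_true, if_false, map_mul, conj_conj, conj_I, map_one, mul_one]
      constructor
      · linear_combination A * (a * conj a + 1) * hab + (-3 / 4 * a ^ 2 * (conj a) ^ 2 * A +
          1 / 2 * a ^ 3 * conj a * B + 1 / 4 * C * a ^ 4) * hI
      · linear_combination (1 / 4 * a ^ 2 * (conj a) ^ 2 * A +
          1 / 2 * a ^ 3 * conj a * B - 3 / 4 * C * a ^ 4) * hI
    · right
      simp only [cj, if_true, map_mul, conj_conj, conj_I, map_one, mul_one, map_add, map_neg]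
      constructor
      · linear_combination conj A * (a * conj a + 1) * hab + (-3 / 4 * a ^ 2 * (conj a) ^ 2 * conj A
          + 1 / 2 * a ^ 3 * conj a * conj B + 1 / 4 * conj C * a ^ 4) * hI
      · linear_combination (1 / 4 * a ^ 2 * (conj a) ^ 2 * conj A +
          1 / 2 * a ^ 3 * conj a * conj B - 3 / 4 * conj C * a ^ 4) * hI
  rw [EB_eq, EB_eq]
  rcases key with ⟨h1, h2⟩ | ⟨h1, h2⟩
  · rw [h1, h2, norm_mul, norm_pow, g.norm_a, one_pow, one_mul]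
  · rw [h1, h2, norm_mul, norm_pow, g.norm_a, one_pow, one_mul, RCLike.norm_conj]
    congr 2
    rw [← RCLike.norm_conj (1 + conj (XA Ξ (g.inv z)))]
    simp

private theorem D2_congr {E : Type*} [NormedAddCommGroup E] [NormedSpace ℝ E] {f g : ℂ → E}
    {z : ℂ} (h : f =ᶠ[𝓝 z] g) (a b : ℂ) : D2 f z a b = D2 g z a b := by
  unfold D2
  rw [(h.fderiv).fderiv_eq]

private theorem EB_lift {Ξ : ℂ → ℂ} (h : Differentiable ℝ Ξ) {z : ℂ} (hz : fold z ∈ triO) :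
    EB (lift 2 Ξ) z = EB Ξ (fold z) := by
  have h1 : EB (lift 2 Ξ) z = EB ((chart z).push 2 Ξ) z := by
    unfold EB
    simp only [D2_congr (lift_eventually hz 2 Ξ)]
  rw [h1, push_EB _ h, chart_inv]

private theorem flat_lift {Ξ : ℂ → ℂ} {z : ℂ} (hz : fold z ∈ triO)
    (h : ∀ a b : ℂ, D2 Ξ (fold z) a b = -(a * b)) (a b : ℂ) :
    D2 (lift 2 Ξ) z a b = -(a * b) := by
  rw [D2_congr (lift_eventually hz 2 Ξ), GE.D2_push, chart_inv, h]
  have h1 := (chart z).a_conj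
  cases (chart z).c
  · simp only [cj, Bool.false_eq_true, if_false]
    linear_combination (-(a * b) * ((chart z).a * conj (chart z).a + 1)) * h1
  · simp only [cj, if_true, map_neg, map_mul, conj_conj]
    linear_combination (-(a * b) * ((chart z).a * conj (chart z).a + 1)) * h1

/-- real part of `conj β * Ξ` -/
private def ph (Ξ : ℂ → ℂ) (β : ℂ) (z : ℂ) : ℝ := (conj β * Ξ z).re

private def reL (β : ℂ) : ℂ →L[ℝ] ℝ := reCLM.comp ((ContinuousLinearMap.mul ℝ ℂ) (conj β))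

private theorem reL_apply (β v : ℂ) : reL β v = (conj β * v).re := by
  simp [reL]

private theorem fderiv_ph {Ξ : ℂ → ℂ} (h : Differentiable ℝ Ξ) (β z : ℂ) :
    fderiv ℝ (ph Ξ β) z = (reL β).comp (fderiv ℝ Ξ z) := by
  have h1 : ph Ξ β = fun z => reL β (Ξ z) := by
    funext z; rw [reL_apply]; rfl
  rw [h1]
  exact ((reL β).hasFDerivAt.comp z (h z).hasFDerivAt).fderiv

private theorem ph_c11 {Ξ : ℂ → ℂ} (h : C11 Ξ) (β : ℂ) : C11 (ph Ξ β) := by
  obtain ⟨h1, K, hK⟩ := h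
  have hd : Differentiable ℝ Ξ := h1.differentiable (by norm_num)
  have e1 : ph Ξ β = fun z => reL β (Ξ z) := by
    funext z; rw [reL_apply]; rfl
  refine ⟨by rw [e1]; exact (reL β).contDiff.comp h1, ‖reL β‖₊ * K, ?_⟩
  refine LipschitzWith.of_dist_le_mul fun z w => ?_
  rw [fderiv_ph hd, fderiv_ph hd, dist_eq_norm, ← ContinuousLinearMap.comp_sub]
  refine (ContinuousLinearMap.opNorm_comp_le _ _).trans ?_
  rw [← dist_eq_norm, NNReal.coe_mul, mul_assoc]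
  exact mul_le_mul_of_nonneg_left (hK.dist_le_mul z w) (norm_nonneg _)

/-- second derivatives of the real parts, at points of differentiability -/
private theorem D2_ph {Ξ : ℂ → ℂ} (h : Differentiable ℝ Ξ) (β : ℂ) {z : ℂ}
    (hz : DifferentiableAt ℝ (fderiv ℝ Ξ) z) (a b : ℂ) :
    D2 (ph Ξ β) z a b = (conj β * D2 Ξ z a b).re := by
  unfold D2
  have h1 : fderiv ℝ (ph Ξ β) = fun z => (ContinuousLinearMap.compL ℝ ℂ ℂ ℝ (reL β))
      (fderiv ℝ Ξ z) := by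
    funext z; rw [fderiv_ph h]; rfl
  rw [h1]
  have h2 := ((ContinuousLinearMap.compL ℝ ℂ ℂ ℝ (reL β)).hasFDerivAt.comp z
    hz.hasFDerivAt).fderiv
  have h3 : (fun z => (ContinuousLinearMap.compL ℝ ℂ ℂ ℝ (reL β)) (fderiv ℝ Ξ z)) =
    (ContinuousLinearMap.compL ℝ ℂ ℂ ℝ (reL β)) ∘ (fderiv ℝ Ξ) := rfl
  rw [h3, h2]
  simp [reL_apply]

private theorem hh_sum {Ξ : ℂ → ℂ} (h : Differentiable ℝ Ξ) {z : ℂ}
    (hz : DifferentiableAt ℝ (fderiv ℝ Ξ) z) :
    ‖1 + hh (ph Ξ 1) z‖ ^ 2 + ‖I + hh (ph Ξ I) z‖ ^ 2 = 2 * EB Ξ z := by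
  unfold hh EB
  simp only [D2_ph h _ hz]
  set p := D2 Ξ z 1 1
  set q := D2 Ξ z I I
  set r := D2 Ξ z 1 I
  simp only [← normSq_eq_norm_sq, normSq_apply]
  simp
  ring

private theorem hf_hh_flat {Ξ : ℂ → ℂ} (h : Differentiable ℝ Ξ) (β : ℂ) {z : ℂ}
    (hz : DifferentiableAt ℝ (fderiv ℝ Ξ) z) (hfl : ∀ a b : ℂ, D2 Ξ z a b = -(a * b)) :
    hf (ph Ξ β) z = 0 ∧ β + hh (ph Ξ β) z = 0 := by
  unfold hf hh
  simp only [D2_ph h _ hz, hfl]
  constructor
  · simp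
  · apply Complex.ext
    · simp
      ring
    · simp

private theorem measurable_D2 (φ : ℂ → ℝ) (a b : ℂ) : Measurable fun z => D2 φ z a b := by
  have h1 : Measurable fun z => fderiv ℝ (fderiv ℝ φ) z a :=
    measurable_fderiv_apply_const ℝ (fderiv ℝ φ) a
  have h2 : (fun z => D2 φ z a b) = (ContinuousLinearMap.apply ℝ ℝ b) ∘
      fun z => fderiv ℝ (fderiv ℝ φ) z a := rfl
  rw [h2]
  exact (ContinuousLinearMap.apply ℝ ℝ b).continuous.measurable.comp h1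

private theorem norm_D2_le {φ : ℂ → ℝ} {K : NNReal} (hK : LipschitzWith K (fderiv ℝ φ))
    (z a b : ℂ) : |D2 φ z a b| ≤ K * ‖a‖ * ‖b‖ := by
  unfold D2
  have h1 : ‖fderiv ℝ (fderiv ℝ φ) z‖ ≤ K := norm_fderiv_le_of_lipschitz ℝ hK
  have h2 := (fderiv ℝ (fderiv ℝ φ) z a).le_opNorm b
  have h3 := (fderiv ℝ (fderiv ℝ φ) z).le_opNorm a
  rw [Real.norm_eq_abs] at h2
  refine h2.trans ?_
  refine mul_le_mul_of_nonneg_right (h3.trans ?_) (norm_nonneg _)
  exact mul_le_mul_of_nonneg_right h1 (norm_nonneg _)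

private theorem measurableSet_cellLB : MeasurableSet cell := by
  unfold cell
  exact (Complex.measurable_re measurableSet_Ico).inter (Complex.measurable_im measurableSet_Ico)

private theorem volume_cell_lt : volume cell < ⊤ := by
  have h1 : cell ⊆ Metric.closedBall 0 2 := by
    rintro z ⟨⟨h1, h2⟩, ⟨h3, h4⟩⟩
    rw [Metric.mem_closedBall, dist_zero_right]
    refine (norm_le_abs_re_add_abs_im z).trans ?_
    rw [abs_of_nonneg h1, abs_of_nonneg h3]
    linarith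
  exact (measure_mono h1).trans_lt measure_closedBall_lt_top

private theorem integrable_hh {φ : ℂ → ℝ} (h : C11 φ) (b : ℂ) :
    Integrable (fun z => ‖b + hh φ z‖ ^ 2) (volume.restrict cell) := by
  obtain ⟨_, K, hK⟩ := h
  have hm : Measurable fun z => ‖b + hh φ z‖ ^ 2 := by
    unfold hh
    have m1 := measurable_D2 φ 1 1
    have m2 := measurable_D2 φ I I
    have m3 := measurable_D2 φ 1 I
    fun_prop
  haveI : IsFiniteMeasure (volume.restrict cell) := ⟨by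
    rw [Measure.restrict_apply_univ]; exact volume_cell_lt⟩
  refine Integrable.of_bound hm.aestronglyMeasurable ((‖b‖ + 2 * K) ^ 2)
    (Eventually.of_forall fun z => ?_)
  rw [norm_pow, norm_norm]
  refine pow_le_pow_left₀ (norm_nonneg _) ((norm_add_le _ _).trans ?_) 2
  gcongr
  have h1 := norm_D2_le hK z 1 1
  have h2 := norm_D2_le hK z I I
  have h3 := norm_D2_le hK z 1 I
  simp only [norm_one, norm_I, mul_one] at h1 h2 h3
  unfold hh
  refine (norm_add_le _ _).trans ?_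
  rw [norm_mul, norm_I, mul_one, norm_real, norm_real, Real.norm_eq_abs, Real.norm_eq_abs]
  have h4 : |(D2 φ z 1 1 - D2 φ z I I) / 2| ≤ K := by
    rw [abs_le] at h1 h2 ⊢
    constructor <;> linarith
  linarith

/-- The kaleidoscopic Airy functions. -/
theorem W_KS_B {V : Set ℂ} (hV : MeasurableSet V) (hVt : V ⊆ tri) {J : ℝ} (h : GoodB V J) :
    ∃ E₁ E₂ : ℝ, 0 ≤ E₁ ∧ 0 ≤ E₂ ∧ E₁ + E₂ ≤ 2 * J ∧
      4 ≤ W (KS V) 0 1 * E₁ ∧ 4 ≤ W (KS V) 0 I * E₂ := by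
  obtain ⟨Ξ, hΞ, h0, hfl, hJ⟩ := h
  have hc := lift_c11 2 hΞ h0
  have hd0 : Differentiable ℝ Ξ := hΞ.1.differentiable (by norm_num)
  have hd : Differentiable ℝ (lift 2 Ξ) := hc.1.differentiable (by norm_num)
  have hper : Per (lift 2 Ξ) := per_lift (zero_off_triO hΞ.1.continuous h0) 2
  have hperβ : ∀ β, Per (ph (lift 2 Ξ) β) := by
    intro β z
    unfold ph
    rw [(hper z).1, (hper z).2]
    exact ⟨rfl, rfl⟩
  have hae : ∀ᵐ z, DifferentiableAt ℝ (fderiv ℝ (lift 2 Ξ)) z := by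
    obtain ⟨K, hK⟩ := hc.2
    exact hK.ae_differentiableAt
  have hS := composite_KS hV
  have hflat : ∀ᵐ z, z ∉ KS V → ∀ a b : ℂ, D2 (lift 2 Ξ) z a b = -(a * b) := by
    have h1 := ae_fold (p := fun z => z ∈ V → ∀ a b : ℂ, D2 Ξ z a b = -(a * b))
      (by filter_upwards [hfl] with z hz _ using hz)
    filter_upwards [h1, ae_fold_triO] with z hz hz' hzS
    exact flat_lift hz' (hz (not_not.1 hzS))
  have hflatβ : ∀ β : ℂ, ∀ᵐ z, z ∉ KS V → hf (ph (lift 2 Ξ) β) z = 0 ∧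
      β + hh (ph (lift 2 Ξ) β) z = 0 := by
    intro β
    filter_upwards [hflat, hae] with z hz hz' hzS
    exact hf_hh_flat hd β hz' (hz hzS)
  have hdual : ∀ β : ℂ, DualSeq (KS V) β (∫ z in cell, ‖β + hh (ph (lift 2 Ξ) β) z‖ ^ 2) :=
    fun β => dualSeq_of_C11 hS (ph_c11 hc β) (hperβ β) (hflatβ β)
  refine ⟨∫ z in cell, ‖1 + hh (ph (lift 2 Ξ) 1) z‖ ^ 2,
    ∫ z in cell, ‖I + hh (ph (lift 2 Ξ) I) z‖ ^ 2, integral_nonneg fun _ => by positivity,
    integral_nonneg fun _ => by positivity, ?_, ?_, ?_⟩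
  · rw [← integral_add (integrable_hh (ph_c11 hc 1) 1) (integrable_hh (ph_c11 hc I) I)]
    have h1 : ∫ z in cell, (‖1 + hh (ph (lift 2 Ξ) 1) z‖ ^ 2 + ‖I + hh (ph (lift 2 Ξ) I) z‖ ^ 2) =
        ∫ z in cell, 2 * EB Ξ (fold z) := by
      refine integral_congr_ae (ae_restrict_of_ae ?_)
      filter_upwards [hae, ae_fold_triO] with z hz hz'
      rw [hh_sum hd hz, EB_lift hd0 hz']
    have h2 : ∫ z in cell, 2 * EB Ξ (fold z) = (8 : ℝ) • ∫ z in tri, 2 * EB Ξ z :=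
      setIntegral_fold (fun p => 2 * EB Ξ p)
    rw [h1, h2, smul_eq_mul, integral_const_mul]
    linarith
  · have h1 := weak_dual hS (hdual 1) 1
    simpa using h1
  · have h1 := weak_dual hS (hdual I) I
    simpa using h1

end EBC
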