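import Pool.Agent.Work.MP_ebc928_an.RouteDefs

open MeasureTheory Complex Set
open scoped ContDiff ComplexConjugate

noncomputable section
namespace EBC

/-- the other three quarters -/
def sub4R (Vs : Fin 4 → Set ℂ) (k : Fin 4) : Set ℂ := ⋃ i, ⋃ (_ : i ≠ k), t4 i '' Vs i

theorem sub4_update (Vs : Fin 4 → Set ℂ) (k : Fin 4) (X : Set ℂ) :
    sub4 (Function.update Vs k X) = sub4R Vs k ∪ t4 k '' X := by
  ext z
  simp only [sub4, sub4R, mem_iUnion, mem_union, exists_prop]
  constructor
  · rintro ⟨i, hi⟩
    by_cases h : i = k
    · subst h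
      rw [Function.update_self] at hi
      exact Or.inr hi
    · rw [Function.update_of_ne h] at hi
      exact Or.inl ⟨i, h, hi⟩
  · rintro (⟨i, hne, hi⟩ | hi)
    · exact ⟨i, by rwa [Function.update_of_ne hne]⟩
    · exact ⟨k, by rwa [Function.update_self]⟩

theorem sub4_eq (Vs : Fin 4 → Set ℂ) (k : Fin 4) : sub4 Vs = sub4R Vs k ∪ t4 k '' Vs k := by
  rw [← sub4_update, Function.update_eq_self]

/-- one move -/
theorem route_one {e e₀ J : ℝ} {V V' : Set ℂ} (h : Route e J V V') (hJ : 1 ≤ J)
    (Vs : Fin 4 → Set ℂ) (hVs : ∀ i, MeasurableSet (Vs i)) (hVt : ∀ i, Vs i ⊆ tri)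
    (hA : ∀ i, GoodA (Vs i) e₀) (hB : ∀ i, GoodB (Vs i) J) (k : Fin 4) (hk : Vs k = V) :
    Route ((e + 3 * e₀) / 4) J (sub4 Vs) (sub4 (Function.update Vs k V')) := by
  rw [sub4_eq Vs k, sub4_update, hk]
  refine h.move (simR_t4 k).isSim (t4_sub k) ?_ ?_ ?_
  · exact MeasurableSet.iUnion fun i => MeasurableSet.iUnion fun _ =>
      (simR_t4 i).measurableSet_image (hVs i)
  · intro z hz
    simp only [sub4R, mem_iUnion, exists_prop] at hz
    obtain ⟨i, hne, hi⟩ := hz
    refine ⟨t4_sub i (image_mono (hVt i) hi), fun h' => ?_⟩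
    exact (t4_disj k i (Ne.symm hne)).le_bot ⟨h', image_mono (hVt i) hi⟩
  · intro X hX hXt hXA hXB
    rw [← sub4_update]
    have hm : ∀ i, MeasurableSet (Function.update Vs k X i) := by
      intro i
      by_cases h : i = k
      · subst h; rwa [Function.update_self]
      · rw [Function.update_of_ne h]; exact hVs i
    have ht : ∀ i, Function.update Vs k X i ⊆ tri := by
      intro i
      by_cases h : i = k
      · subst h; rwa [Function.update_self]
      · rw [Function.update_of_ne h]; exact hVt i
    constructor
    · have hA' : ∀ i, GoodA (Function.update Vs k X i) (Function.update (fun _ => e₀) k e i) := by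
        intro i
        by_cases h : i = k
        · subst h; rw [Function.update_self, Function.update_self]; exact hXA
        · rw [Function.update_of_ne h, Function.update_of_ne h]; exact hA i
      have := goodA_sub4 ht hm hA'
      convert this using 1
      fin_cases k <;> simp [Function.update] <;> ring
    · refine goodB_sub4 hJ ht hm fun i => ?_
      by_cases h : i = k
      · subst h; rwa [Function.update_self]
      · rw [Function.update_of_ne h]; exact hB i

theorem route_sub4 {e e₀ J : ℝ} {V V' : Set ℂ} (h : Route e J V V') (hJ : 1 ≤ J)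
    (hV : MeasurableSet V) (hV' : MeasurableSet V') (hVt : V ⊆ tri) (hVt' : V' ⊆ tri)
    (hA : GoodA V e₀) (hA' : GoodA V' e₀) (hB : GoodB V J) (hB' : GoodB V' J) :
    Route ((e + 3 * e₀) / 4) J (sub4 fun _ => V) (sub4 fun _ => V') := by
  have step := fun (Vs : Fin 4 → Set ℂ) (hs : ∀ i, Vs i = V ∨ Vs i = V') (k : Fin 4)
      (hk : Vs k = V) =>
    route_one h hJ Vs (fun i => by rcases hs i with h | h <;> rwa [h])
      (fun i => by rcases hs i with h | h <;> rwa [h])
      (fun i => by rcases hs i with h | h <;> rwa [h])
      (fun i => by rcases hs i with h | h <;> rwa [h]) k hk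
  have s0 := step (fun _ => V) (by simp) 0 rfl
  have s1 := step (Function.update (fun _ => V) 0 V') (by
    intro i; fin_cases i <;> simp) 1 (by simp)
  have s2 := step (Function.update (Function.update (fun _ => V) 0 V') 1 V') (by
    intro i; fin_cases i <;> simp) 2 (by simp)
  have s3 := step (Function.update (Function.update (Function.update (fun _ => V) 0 V') 1 V') 2 V')
    (by intro i; fin_cases i <;> simp [Function.update]) 3 (by simp [Function.update])
  have hfin : Function.update (Function.update (Function.update (Function.update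
      (fun _ => V) 0 V') 1 V') 2 V') (3 : Fin 4) V' = fun _ => V' := by
    funext i; fin_cases i <;> simp [Function.update]
  rw [hfin] at s3
  exact ((s0.trans s1).trans s2).trans s3

end EBC
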