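import Pool.Agent.Work.MP_ebc928_an.RouteBase
import Pool.Agent.Work.MP_ebc928_an.RouteSub
import Pool.Agent.Work.MP_ebc928_an.KSSub
import Pool.Agent.Work.MP_ebc928_an.LiftA
import Pool.Agent.Work.MP_ebc928_an.LiftB

open MeasureTheory Complex Set
open scoped ContDiff ComplexConjugate

noncomputable section
namespace EBC

/-- iterated subdivision -/
private def chIt : ℕ → Set ℂ → Set ℂ
  | 0, V => V
  | k + 1, V => sub4 fun _ => chIt k V

private theorem chIt_sub {V : Set ℂ} (hV : V ⊆ tri) : ∀ k, chIt k V ⊆ tri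
  | 0 => hV
  | k + 1 => sub4_subset fun _ => chIt_sub hV k

private theorem chIt_meas {V : Set ℂ} (hV : MeasurableSet V) : ∀ k, MeasurableSet (chIt k V)
  | 0 => hV
  | k + 1 => measurableSet_sub4 fun _ => chIt_meas hV k

private theorem chIt_goodA {V : Set ℂ} (hV : V ⊆ tri) (hm : MeasurableSet V) {e : ℝ}
    (h : GoodA V e) : ∀ k, GoodA (chIt k V) e
  | 0 => h
  | k + 1 => by
    have h1 := goodA_sub4 (V := fun _ => chIt k V) (e := fun _ => e) (fun _ => chIt_sub hV k)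
      (fun _ => chIt_meas hm k) (fun _ => chIt_goodA hV hm h k)
    have h2 : (e + e + e + e) / 4 = e := by ring
    have h3 : GoodA (sub4 fun _ => chIt k V) ((e + e + e + e) / 4) := h1
    rw [h2] at h3
    exact h3

private theorem chIt_goodB {V : Set ℂ} (hV : V ⊆ tri) (hm : MeasurableSet V) {J : ℝ} (hJ : 1 ≤ J)
    (h : GoodB V J) : ∀ k, GoodB (chIt k V) J
  | 0 => h
  | k + 1 => goodB_sub4 hJ (fun _ => chIt_sub hV k) (fun _ => chIt_meas hm k)
      (fun _ => chIt_goodB hV hm hJ h k)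

private theorem chIt_W {V : Set ℂ} (hV : V ⊆ tri) (hm : MeasurableSet V) (β : ℂ) :
    ∀ k, W (KS (chIt k V)) 0 β = W (KS V) 0 β
  | 0 => rfl
  | k + 1 => (W_KS_sub4 (chIt_sub hV k) (chIt_meas hm k) β).trans (chIt_W hV hm β k)

private theorem chRoute {V V' : Set ℂ} {G e J : ℝ} (h : Route G J V V') (hJ : 1 ≤ J)
    (hV : MeasurableSet V) (hV' : MeasurableSet V') (hVt : V ⊆ tri) (hVt' : V' ⊆ tri)
    (hA : GoodA V e) (hA' : GoodA V' e) (hB : GoodB V J) (hB' : GoodB V' J) :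
    ∀ k : ℕ, Route (e + (G - e) / 4 ^ k) J (chIt k V) (chIt k V')
  | 0 => by simpa [chIt] using h
  | k + 1 => by
    have h1 := route_sub4 (e₀ := e) (chRoute h hJ hV hV' hVt hVt' hA hA' hB hB' k) hJ
      (chIt_meas hV k) (chIt_meas hV' k) (chIt_sub hVt k) (chIt_sub hVt' k)
      (chIt_goodA hVt hV hA k) (chIt_goodA hVt' hV' hA' k)
      (chIt_goodB hVt hV hJ hB k) (chIt_goodB hVt' hV' hJ hB' k)
    have h2 : (e + (G - e) / 4 ^ k + 3 * e) / 4 = e + (G - e) / 4 ^ (k + 1) := by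
      rw [pow_succ]
      field_simp
      ring
    rw [h2] at h1
    exact h1

private theorem ch_W_ae {V V' : Set ℂ} (hVV : ∀ᵐ z, z ∈ V ↔ z ∈ V') (β : ℂ) :
    W (KS V) 0 β = W (KS V') 0 β := by
  apply W_congr
  have h1 : ∀ᵐ z, (fold z ∈ V ↔ fold z ∈ V') :=
    ae_fold (p := fun w => (w ∈ V ↔ w ∈ V')) (by filter_upwards [hVV] with z hz _ using hz)
  apply ae_restrict_of_ae
  filter_upwards [h1] with z hz
  show (fold z ∉ V ↔ fold z ∉ V')
  exact not_congr hz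

/-- an exactly isotropic composite from a neutral void content -/
theorem chain {C : Set ℂ} (hC : MeasurableSet C) {ρ₀ : ℝ} (h0 : 0 < ρ₀) (h1 : ρ₀ < 1)
    (hCsub : C ⊆ hom ρ₀ '' tri) {z₀ : ℂ} {r : ℝ} (hr : 0 < r) (hball : Metric.ball z₀ r ⊆ C)
    {e J : ℝ} (he : 0 < e) (hA : GoodA C e) (hJ : 1 ≤ J) (hB : GoodB C J) :
    ∃ (S : Set ℂ) (κ m : ℝ), Composite S ∧ (∃ u ux uy, Adm S 1 u ux uy) ∧
      0 ≤ κ ∧ κ ≤ 4 * e ∧ 1 / J ≤ m ∧
      ∀ (α : ℝ) (β : ℂ), W S α β = 4 * κ * α ^ 2 + 4 * m * ‖β‖ ^ 2 := by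
  have hCt : C ⊆ tri := hCsub.trans (hom_image_subset h0.le h1.le)
  obtain ⟨G₀, hroute₀⟩ := route_base hC h0 h1 hCsub hr hball hA hJ hB
  set G : ℝ := max G₀ e with hG
  have hroute := hroute₀.mono (le_max_left G₀ e)
  have hGe : e ≤ G := le_max_right _ _
  have hS2t : (sub2 fun _ => C) ⊆ tri := sub2_subset fun _ => hCt
  have hS2m : MeasurableSet (sub2 fun _ => C) := measurableSet_sub2 fun _ => hC
  have hS2A : GoodA (sub2 fun _ => C) e := goodA_sub2 (fun _ => hCt) (fun _ => hC) fun _ => hA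
  have hS2B : GoodB (sub2 fun _ => C) J := goodB_sub2 hJ (fun _ => hCt) (fun _ => hC) fun _ => hB
  have hR := chRoute hroute hJ hS2m hC hS2t hCt hS2A hA hS2B hB
  -- choice of k
  obtain ⟨k, hk⟩ : ∃ k : ℕ, e + (G - e) / 4 ^ k ≤ 2 * e := by
    obtain ⟨k, hk⟩ := pow_unbounded_of_one_lt ((G - e) / e) (by norm_num : (1 : ℝ) < 4)
    refine ⟨k, ?_⟩
    have h4 : (0 : ℝ) < 4 ^ k := by positivity
    have : (G - e) / 4 ^ k ≤ e := by
      rw [div_le_iff₀ h4]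
      rw [div_lt_iff₀ he] at hk
      linarith
    linarith
  obtain ⟨γ, hγm, hγt, hγg, hγ0, hγ1, hγc⟩ := (hR k).mono hk
  -- continuity
  have hcont : ∀ β : ℂ, ContinuousOn (fun t : ℝ => W (KS (γ t)) 0 β) (Icc 0 1) := by
    intro β
    have h2 := hγc id ⟨1, 0, one_ne_zero, Or.inl fun z => by simp⟩ (by simp) ∅
      MeasurableSet.empty (empty_subset _) β
    simpa using h2
  have e0 : ∀ β, W (KS (γ 0)) 0 β = W (KS (sub2 fun _ => C)) 0 β := fun β =>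
    (ch_W_ae hγ0 β).trans (chIt_W hS2t hS2m β k)
  have e1 : ∀ β, W (KS (γ 1)) 0 β = W (KS C) 0 β := fun β =>
    (ch_W_ae hγ1 β).trans (chIt_W hCt hC β k)
  have hs2 := W_KS_sub2 hCt hC
  set F : ℝ → ℝ := fun t => W (KS (γ t)) 0 1 - W (KS (γ t)) 0 I with hF
  have hFc : ContinuousOn F (Icc 0 1) := (hcont 1).sub (hcont I)
  have hF01 : F 0 = -F 1 := by
    simp only [hF, e0, e1, hs2.1, hs2.2]
    ring
  obtain ⟨t, ht, hFt⟩ : ∃ t ∈ Icc (0 : ℝ) 1, F t = 0 := by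
    rcases le_total (F 0) 0 with h | h
    · have h3 : (0 : ℝ) ∈ Icc (F 0) (F 1) := ⟨h, by linarith⟩
      obtain ⟨t, ht, hFt⟩ := intermediate_value_Icc (zero_le_one) hFc h3
      exact ⟨t, ht, hFt⟩
    · have h3 : (0 : ℝ) ∈ Icc (F 1) (F 0) := ⟨by linarith, h⟩
      obtain ⟨t, ht, hFt⟩ := intermediate_value_Icc' (zero_le_one) hFc h3
      exact ⟨t, ht, hFt⟩
  obtain ⟨hgA, hgB⟩ := hγg t ht
  have hcomp := composite_KS (hγm t)
  obtain ⟨hadm, hWA⟩ := W_KS_A (hγm t) (hγt t) hgA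
  obtain ⟨E₁, E₂, hE1, hE2, hEs, h41, h42⟩ := W_KS_B (hγm t) (hγt t) hgB
  have hiso := W_iso hcomp hadm (fun z => KS_conj (γ t) z) (fun z => KS_swap (γ t) z)
  have heq : W (KS (γ t)) 0 I = W (KS (γ t)) 0 1 := by
    have : W (KS (γ t)) 0 1 - W (KS (γ t)) 0 I = 0 := hFt
    linarith
  have hJ0 : (0 : ℝ) < J := by linarith
  refine ⟨KS (γ t), W (KS (γ t)) 1 0 / 4, W (KS (γ t)) 0 1 / 4, hcomp, hadm, ?_, ?_, ?_, ?_⟩
  · have := W_nonneg (KS (γ t)) 1 0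
    positivity
  · linarith
  · rw [heq] at h42
    have hw := W_nonneg (KS (γ t)) 0 1
    have h5 : 8 ≤ W (KS (γ t)) 0 1 * (2 * J) := by
      nlinarith
    rw [div_le_iff₀ hJ0]
    linarith
  · intro α β
    rw [hiso α β, heq]
    have h6 : ‖β‖ ^ 2 = β.re ^ 2 + β.im ^ 2 := by
      rw [Complex.sq_norm, normSq_apply]; ring
    rw [h6]
    ring

end EBC
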