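import Pool.Agent.Work.MP_ebc928_an.Laplace

open MeasureTheory Complex Set Filter Topology
open scoped ContDiff ComplexConjugate

noncomputable section
namespace EBC

namespace SD

theorem cell_eq : cell = Complex.measurableEquivRealProd ⁻¹' (Ico (0 : ℝ) 1 ×ˢ Ico (0 : ℝ) 1) := by
  ext z
  simp [cell]

theorem measurableSet_cell : MeasurableSet cell := by
  rw [cell_eq]
  exact Complex.measurableEquivRealProd.measurable (measurableSet_Ico.prod measurableSet_Ico)

theorem volume_cell : volume cell = 1 := by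
  rw [cell_eq, Complex.volume_preserving_equiv_real_prod.measure_preimage
    (measurableSet_Ico.prod measurableSet_Ico).nullMeasurableSet, Measure.volume_eq_prod,
    Measure.prod_prod]
  simp

instance : IsProbabilityMeasure (volume.restrict cell) :=
  ⟨by rw [Measure.restrict_apply_univ, volume_cell]⟩

/-- reduction to the cell -/
def fr (z : ℂ) : ℂ := ⟨Int.fract z.re, Int.fract z.im⟩

theorem fr_mem (z : ℂ) : fr z ∈ cell :=
  ⟨⟨Int.fract_nonneg _, Int.fract_lt_one _⟩, ⟨Int.fract_nonneg _, Int.fract_lt_one _⟩⟩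

theorem fr_cell {z : ℂ} (hz : z ∈ cell) : fr z = z := by
  apply Complex.ext
  · exact Int.fract_eq_self.2 ⟨hz.1.1, hz.1.2⟩
  · exact Int.fract_eq_self.2 ⟨hz.2.1, hz.2.2⟩

theorem fr_add_one (z : ℂ) : fr (z + 1) = fr z := by
  apply Complex.ext <;> simp [fr]

theorem fr_add_I (z : ℂ) : fr (z + I) = fr z := by
  apply Complex.ext <;> simp [fr]

/-- periodic extension -/
def pext {α : Type*} (g : ℂ → α) : ℂ → α := fun z => g (fr z)

theorem per_pext {α : Type*} (g : ℂ → α) : Per (pext g) := fun z => by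
  simp only [pext, fr_add_one, fr_add_I, and_self]

theorem pext_ae {α : Type*} (g : ℂ → α) : pext g =ᵐ[volume.restrict cell] g := by
  filter_upwards [ae_restrict_mem measurableSet_cell] with z hz
  simp only [pext, fr_cell hz]

theorem int_per {S : Set ℂ} (hS : Composite S) (z : ℂ) (m n : ℤ) :
    (z + (m + n * I) ∈ S ↔ z ∈ S) := by
  have h1 : ∀ (m : ℤ) (z : ℂ), (z + m ∈ S ↔ z ∈ S) := by
    intro m
    induction m using Int.induction_on with
    | zero => intro z; simp
    | succ i ih => intro z; rw [← ih z, ← (hS.per (z + (i : ℤ))).1]; push_cast; rw [add_assoc]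
    | pred i ih =>
      intro z; rw [← ih z, ← (hS.per (z + ((-(i : ℤ) - 1 : ℤ) : ℂ))).1]; push_cast; ring_nf
  have h2 : ∀ (n : ℤ) (z : ℂ), (z + n * I ∈ S ↔ z ∈ S) := by
    intro m
    induction m using Int.induction_on with
    | zero => intro z; simp
    | succ i ih => 
      intro z; rw [← ih z, ← (hS.per (z + (i : ℤ) * I)).2]; push_cast; ring_nf
    | pred i ih =>
      intro z; rw [← ih z, ← (hS.per (z + ((-(i : ℤ) - 1 : ℤ) : ℂ) * I)).2]; push_cast; ring_nf
  rw [← add_assoc, h2, h1]

theorem void_pos {S : Set ℂ} (hS : Composite S) {z₀ : ℂ} {r : ℝ} (hr : 0 < r)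
    (hball : Metric.ball z₀ r ⊆ Sᶜ) : 0 < volume (cell \ S) := by
  rw [pos_iff_ne_zero]
  intro h
  have hb : volume (Metric.ball z₀ r) = 0 := by
    have hsub : Metric.ball z₀ r ⊆
        ⋃ p : ℤ × ℤ, (fun z : ℂ => z + (p.1 + p.2 * I)) ⁻¹' (cell \ S) := by
      intro z hz
      rw [mem_iUnion]
      refine ⟨(-⌊z.re⌋, -⌊z.im⌋), ?_⟩
      have hfr : z + (((-⌊z.re⌋ : ℤ) : ℂ) + ((-⌊z.im⌋ : ℤ) : ℂ) * I) = fr z := by
        have e1 := Int.self_sub_floor z.re
        have e2 := Int.self_sub_floor z.im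
        apply Complex.ext
        · simp [fr]; linarith
        · simp [fr]; linarith
      show z + (((-⌊z.re⌋ : ℤ) : ℂ) + ((-⌊z.im⌋ : ℤ) : ℂ) * I) ∈ cell \ S
      refine ⟨?_, ?_⟩
      · rw [hfr]; exact fr_mem z
      · rw [int_per hS]; exact hball hz
    refine measure_mono_null hsub (measure_iUnion_null fun p => ?_)
    rw [measure_preimage_add_right]
    exact h
  exact (Metric.measure_ball_pos volume z₀ hr).ne' hb

/-! ### basic facts on fluctuations -/

theorem memLp_zb {u ux uy : ℂ → ℂ} (hu : Fluct u ux uy) :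
    MemLp (fun z => (ux z + I * uy z) / 2) 2 (volume.restrict cell) := by
  have h := (hu.memx.add (hu.memy.const_mul I)).const_mul (1 / 2 : ℂ)
  refine h.ae_eq (Eventually.of_forall fun z => ?_)
  simp only [Pi.add_apply]
  ring

theorem memLp_zz {u ux uy : ℂ → ℂ} (hu : Fluct u ux uy) :
    MemLp (fun z => (ux z - I * uy z) / 2) 2 (volume.restrict cell) := by
  have h := (hu.memx.sub (hu.memy.const_mul I)).const_mul (1 / 2 : ℂ)
  refine h.ae_eq (Eventually.of_forall fun z => ?_)
  simp only [Pi.sub_apply]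
  ring

theorem memLp_re {f : ℂ → ℂ} {μ : Measure ℂ} (h : MemLp f 2 μ) :
    MemLp (fun z => (f z).re) 2 μ := h.re

theorem restrict_le (S : Set ℂ) : volume.restrict (cell ∩ S) ≤ volume.restrict cell :=
  Measure.restrict_mono_set _ inter_subset_left

instance (S : Set ℂ) : IsFiniteMeasure (volume.restrict (cell ∩ S)) :=
  ⟨by
    rw [Measure.restrict_apply_univ]
    exact (measure_mono inter_subset_left).trans_lt (by rw [volume_cell]; exact ENNReal.one_lt_top)⟩

theorem memS {E : Type*} [NormedAddCommGroup E] {f : ℂ → E} (S : Set ℂ)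
    (h : MemLp f 2 (volume.restrict cell)) : MemLp f 2 (volume.restrict (cell ∩ S)) :=
  h.mono_measure (restrict_le S)

theorem norm_sq_eq {E : Type*} [NormedAddCommGroup E] [InnerProductSpace ℝ E] {μ : Measure ℂ}
    (f : Lp E 2 μ) : ‖f‖ ^ 2 = ∫ z, ‖f z‖ ^ 2 ∂μ := by
  rw [← real_inner_self_eq_norm_sq, L2.inner_def]
  simp only [real_inner_self_eq_norm_sq]

theorem re_zz (a b : ℂ) : ((a - I * b) / 2).re = (a.re + b.im) / 2 := by
  have : (a - I * b) / 2 = ((a - I * b) : ℂ) / ((2 : ℝ) : ℂ) := by norm_num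
  rw [this, Complex.div_ofReal_re]
  simp

theorem adm_iff {S : Set ℂ} (hS : MeasurableSet S) {u ux uy : ℂ → ℂ} (hu : Fluct u ux uy) :
    Adm S 0 u ux uy ↔
      ∀ᵐ z ∂(volume.restrict (cell ∩ S)), ((ux z - I * uy z) / 2).re = 0 := by
  have e : volume.restrict (cell ∩ S) = (volume.restrict cell).restrict S := by
    rw [Measure.restrict_restrict hS, inter_comm]
  rw [e, ae_restrict_iff' hS]
  constructor
  · intro h
    filter_upwards [h.2] with z hz hzS
    rw [re_zz]
    have := hz hzS
    linarith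
  · intro h
    refine ⟨hu, ?_⟩
    filter_upwards [h] with z hz hzS
    have := hz hzS
    rw [re_zz] at this
    linarith

/-! ### the projection -/

/-- strains of admissible fluctuations on the solid -/
def Msub (S : Set ℂ) : Submodule ℝ (Lp ℂ 2 (volume.restrict (cell ∩ S))) where
  carrier := {m | ∃ u ux uy, Adm S 0 u ux uy ∧
    (m : ℂ → ℂ) =ᵐ[volume.restrict (cell ∩ S)] fun z => (ux z + I * uy z) / 2}
  add_mem' := by
    rintro a b ⟨u, ux, uy, hu, ha⟩ ⟨v, vx, vy, hv, hb⟩
    refine ⟨_, _, _, ⟨hu.1.add hv.1, ?_⟩, ?_⟩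
    · filter_upwards [hu.2, hv.2] with z h1 h2 hz
      have h1 := h1 hz
      have h2 := h2 hz
      simp only [add_re, add_im]
      linarith
    · filter_upwards [Lp.coeFn_add a b, ha, hb] with z h1 h2 h3
      rw [h1, Pi.add_apply, h2, h3]
      ring
  zero_mem' := by
    refine ⟨_, _, _, ⟨fluct_zero, ?_⟩, ?_⟩
    · filter_upwards with z hz
      simp
    · filter_upwards [Lp.coeFn_zero ℂ 2 (volume.restrict (cell ∩ S))] with z h1
      rw [h1]
      simp
  smul_mem' := by
    rintro c a ⟨u, ux, uy, hu, ha⟩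
    refine ⟨_, _, _, ⟨hu.1.const_mul (c : ℂ), ?_⟩, ?_⟩
    · filter_upwards [hu.2] with z h1 hz
      have h1 := h1 hz
      simp only [re_ofReal_mul, im_ofReal_mul]
      linear_combination c * h1
    · filter_upwards [Lp.coeFn_smul c a, ha] with z h1 h2
      rw [h1, Pi.smul_apply, h2, real_smul]
      ring

theorem energy_eq {S : Set ℂ} (β : ℂ) {ux uy : ℂ → ℂ}
    (b : Lp ℂ 2 (volume.restrict (cell ∩ S)))
    (hb : (b : ℂ → ℂ) =ᵐ[volume.restrict (cell ∩ S)] fun z => β + (ux z + I * uy z) / 2) :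
    energy S β ux uy = 4 * ‖b‖ ^ 2 := by
  rw [norm_sq_eq, energy, integral_const_mul]
  congr 1
  refine integral_congr_ae ?_
  filter_upwards [hb] with z hz
  simp only [hz]

theorem exists_proj (S : Set ℂ) (β : ℂ) :
    ∃ h₀ : Lp ℂ 2 (volume.restrict (cell ∩ S)),
      (∀ m ∈ Msub S, inner ℝ h₀ m = 0) ∧
      inner ℝ h₀ ((memLp_const β : MemLp (fun _ : ℂ => β) 2
        (volume.restrict (cell ∩ S))).toLp) = ‖h₀‖ ^ 2 ∧
      W S 0 β = 4 * ‖h₀‖ ^ 2 := by
  set β' := (memLp_const β : MemLp (fun _ : ℂ => β) 2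
        (volume.restrict (cell ∩ S))).toLp with hβ'
  have hβc : (β' : ℂ → ℂ) =ᵐ[volume.restrict (cell ∩ S)] fun _ => β := MemLp.coeFn_toLp _
  obtain ⟨v, hvK, hv⟩ := (Msub S).topologicalClosure.exists_norm_eq_iInf_of_complete_subspace
    ((Msub S).isClosed_topologicalClosure.isComplete) (-β')
  have horth := (Submodule.norm_eq_iInf_iff_real_inner_eq_zero _ hvK).1 hv
  have hK : ∀ w ∈ (Msub S).topologicalClosure, inner ℝ (β' + v) w = 0 := by
    intro w hw
    have h1 := horth w hw
    have h2 : β' + v = -(-β' - v) := by abel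
    rw [h2, inner_neg_left, h1, neg_zero]
  have key : ∀ w ∈ (Msub S).topologicalClosure,
      ‖β' + w‖ ^ 2 = ‖β' + v‖ ^ 2 + ‖w - v‖ ^ 2 := by
    intro w hw
    have h1 : β' + w = (β' + v) + (w - v) := by abel
    have h2 := hK (w - v) (Submodule.sub_mem _ hw hvK)
    rw [h1, norm_add_sq_real, h2]
    ring
  have hen : ∀ u ux uy, Adm S 0 u ux uy → ∃ m ∈ Msub S, energy S β ux uy = 4 * ‖β' + m‖ ^ 2 := by
    intro u ux uy hu
    have hm := memS S (memLp_zb hu.1)
    refine ⟨hm.toLp, ⟨u, ux, uy, hu, hm.coeFn_toLp⟩, ?_⟩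
    refine energy_eq β _ ?_
    filter_upwards [Lp.coeFn_add β' hm.toLp, hβc, hm.coeFn_toLp] with z h1 h2 h3
    rw [h1, Pi.add_apply, h2, h3]
  refine ⟨β' + v, fun m hm => hK m ((Msub S).le_topologicalClosure hm), ?_, ?_⟩
  · have h1 : β' = (β' + v) - v := by abel
    conv_lhs => rw [h1]
    rw [sub_add_cancel, inner_sub_right, hK v hvK, sub_zero, real_inner_self_eq_norm_sq]
  · apply le_antisymm
    · refine le_of_forall_pos_le_add fun δ hδ => ?_
      have hcl : v ∈ closure ((Msub S : Submodule ℝ _) : Set (Lp ℂ 2 (volume.restrict (cell ∩ S)))) := by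
        rw [← Submodule.topologicalClosure_coe]; exact hvK
      obtain ⟨m, hm, hmv⟩ := Metric.mem_closure_iff.1 hcl (Real.sqrt (δ / 4))
        (Real.sqrt_pos.2 (by positivity))
      have hmK := (Msub S).le_topologicalClosure hm
      obtain ⟨u, ux, uy, hu, hmu⟩ := hm
      have hW : W S 0 β ≤ energy S β ux uy := by
        refine csInf_le ⟨0, ?_⟩ ⟨u, ux, uy, hu, rfl⟩
        rintro e ⟨a, ax, ay, ha, rfl⟩
        exact integral_nonneg fun z => by positivity
      have he : energy S β ux uy = 4 * ‖β' + m‖ ^ 2 := by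
        refine energy_eq β _ ?_
        filter_upwards [Lp.coeFn_add β' m, hβc, hmu] with z h1 h2 h3
        rw [h1, Pi.add_apply, h2, h3]
      rw [he, key m hmK] at hW
      have h3 : ‖m - v‖ ^ 2 ≤ δ / 4 := by
        rw [dist_comm, dist_eq_norm] at hmv
        have := Real.sq_sqrt (show (0 : ℝ) ≤ δ / 4 by positivity)
        nlinarith [norm_nonneg (m - v), Real.sqrt_nonneg (δ / 4)]
      linarith
    · refine le_csInf ⟨_, _, _, _, ⟨fluct_zero, ?_⟩, rfl⟩ ?_
      · filter_upwards with z hz
        simp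
      · rintro e ⟨a, ax, ay, ha, rfl⟩
        obtain ⟨m, hm, he⟩ := hen a ax ay ha
        rw [he, key m ((Msub S).le_topologicalClosure hm)]
        nlinarith [sq_nonneg ‖m - v‖]

/-! ### the pressure -/

/-- the pairing of `h₀` with the strain deviator -/
def J {S : Set ℂ} (h₀ : Lp ℂ 2 (volume.restrict (cell ∩ S))) (ux uy : ℂ → ℂ) : ℝ :=
  ∫ z in cell ∩ S, (conj (h₀ z) * ((ux z + I * uy z) / 2)).re

theorem J_eq {S : Set ℂ} (h₀ : Lp ℂ 2 (volume.restrict (cell ∩ S))) {ux uy : ℂ → ℂ}
    (b : Lp ℂ 2 (volume.restrict (cell ∩ S)))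
    (hb : (b : ℂ → ℂ) =ᵐ[volume.restrict (cell ∩ S)] fun z => (ux z + I * uy z) / 2) :
    J h₀ ux uy = inner ℝ h₀ b := by
  rw [L2.inner_def, J]
  refine integral_congr_ae ?_
  filter_upwards [hb] with z hz
  rw [hz, Complex.inner, mul_comm]

/-- uniqueness: the pairing only depends on the divergence -/
theorem J_unique {S : Set ℂ} (hS : MeasurableSet S)
    (h₀ : Lp ℂ 2 (volume.restrict (cell ∩ S))) (h0 : ∀ m ∈ Msub S, inner ℝ h₀ m = 0)
    {u ux uy v vx vy : ℂ → ℂ} (hu : Fluct u ux uy) (hv : Fluct v vx vy)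
    (h : ∀ᵐ z ∂(volume.restrict (cell ∩ S)),
      ((ux z - I * uy z) / 2).re = ((vx z - I * vy z) / 2).re) :
    J h₀ ux uy = J h₀ vx vy := by
  have hmu := memS S (memLp_zb hu)
  have hmv := memS S (memLp_zb hv)
  rw [J_eq h₀ _ hmu.coeFn_toLp, J_eq h₀ _ hmv.coeFn_toLp, ← sub_eq_zero, ← inner_sub_right]
  refine h0 _ ?_
  have hw := hu.add (hv.const_mul (-1))
  refine ⟨_, _, _, (adm_iff hS hw).2 ?_, ?_⟩
  · filter_upwards [h] with z hz
    rw [re_zz] at hz ⊢
    rw [re_zz] at hz
    simp only [add_re, add_im, neg_mul, one_mul, neg_re, neg_im]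
    linarith
  · filter_upwards [Lp.coeFn_sub hmu.toLp hmv.toLp, hmu.coeFn_toLp, hmv.coeFn_toLp]
      with z h1 h2 h3
    rw [h1, Pi.sub_apply, h2, h3]
    ring

theorem sq_integral_le {μ : Measure ℂ} [IsFiniteMeasure μ] (hμ : μ.real univ ≤ 1) {g : ℂ → ℝ}
    (hg : MemLp g 2 μ) : (∫ z, g z ∂μ) ^ 2 ≤ ∫ z, (g z) ^ 2 ∂μ := by
  set t := ∫ z, g z ∂μ with ht
  have hi : Integrable g μ := hg.integrable (by norm_num)
  have h2 : Integrable (fun z => (g z) ^ 2) μ := hg.integrable_sq
  have h : 0 ≤ ∫ z, (g z - t) ^ 2 ∂μ := integral_nonneg fun z => sq_nonneg _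
  have e : ∫ z, (g z - t) ^ 2 ∂μ = ∫ z, (g z) ^ 2 ∂μ - 2 * t * t + t ^ 2 * μ.real univ := by
    have e1 : ∀ z, (g z - t) ^ 2 = (g z) ^ 2 - 2 * t * g z + t ^ 2 := fun z => by ring
    simp_rw [e1]
    rw [integral_add (f := fun z => (g z) ^ 2 - 2 * t * g z) (g := fun _ => t ^ 2)
        (h2.sub (hi.const_mul _)) (integrable_const _),
      integral_sub (f := fun z => (g z) ^ 2) (g := fun z => 2 * t * g z) h2 (hi.const_mul _),
      integral_const_mul, integral_const, smul_eq_mul, ← ht, mul_comm (μ.real univ)]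
  rw [e] at h
  nlinarith [sq_nonneg t]

theorem exists_sol {S : Set ℂ} (hS : MeasurableSet S) (hv : 0 < volume (cell \ S))
    {g : ℂ → ℝ} (hg : MemLp g 2 (volume.restrict (cell ∩ S))) :
    ∃ w wx wy : ℂ → ℂ, Fluct w wx wy ∧
      (∀ᵐ z ∂(volume.restrict (cell ∩ S)), ((wx z - I * wy z) / 2).re = g z) ∧
      ∫ z in cell, ‖(wx z + I * wy z) / 2‖ ^ 2 ≤
        (1 + 1 / volume.real (cell \ S)) * ∫ z in cell ∩ S, (g z) ^ 2 := by
  have hvt : volume (cell \ S) ≠ ⊤ :=
    ((measure_mono sdiff_subset).trans_lt (by rw [volume_cell]; exact ENNReal.one_lt_top)).ne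
  have hθ : 0 < volume.real (cell \ S) := ENNReal.toReal_pos hv.ne' hvt
  set θ := volume.real (cell \ S) with hθd
  have eS : (volume.restrict cell).restrict S = volume.restrict (cell ∩ S) := by
    rw [Measure.restrict_restrict hS, inter_comm]
  set c : ℝ := (∫ z in cell ∩ S, g z) / θ with hc
  set G : ℂ → ℝ := fun z => S.indicator g z + Sᶜ.indicator (fun _ => -c) z with hG
  have hm1 : MemLp (S.indicator g) 2 (volume.restrict cell) := by
    rw [memLp_indicator_iff_restrict hS, eS]; exact hg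
  have hm2 : MemLp (Sᶜ.indicator fun _ : ℂ => -c) 2 (volume.restrict cell) :=
    (memLp_const _).indicator hS.compl
  have hGm : MemLp G 2 (volume.restrict cell) := hm1.add hm2
  have hgi : Integrable g (volume.restrict (cell ∩ S)) := hg.integrable (by norm_num)
  have hG0 : ∫ z in cell, G z = 0 := by
    rw [hG, integral_add (hm1.integrable (by norm_num)) (hm2.integrable (by norm_num)),
      setIntegral_indicator hS, setIntegral_indicator hS.compl, setIntegral_const, smul_eq_mul,
      ← sdiff_eq, ← hθd, hc]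
    field_simp
    ring
  have hG2 : ∫ z in cell, (G z) ^ 2 ≤ (1 + 1 / θ) * ∫ z in cell ∩ S, (g z) ^ 2 := by
    have e1 : ∀ z, (G z) ^ 2 = S.indicator (fun z => (g z) ^ 2) z
        + Sᶜ.indicator (fun _ => c ^ 2) z := by
      intro z
      by_cases hz : z ∈ S
      · simp [hG, hz]
      · simp [hG, hz]
    simp_rw [e1]
    have hi1 : Integrable (S.indicator fun z => (g z) ^ 2) (volume.restrict cell) := by
      rw [integrable_indicator_iff hS, IntegrableOn, eS]
      exact hg.integrable_sq
    have hi2 : Integrable (Sᶜ.indicator fun _ : ℂ => c ^ 2) (volume.restrict cell) :=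
      (integrable_const _).indicator hS.compl
    rw [integral_add hi1 hi2, setIntegral_indicator hS, setIntegral_indicator hS.compl,
      setIntegral_const, smul_eq_mul, ← sdiff_eq, ← hθd, hc]
    have hle : (volume.restrict (cell ∩ S)).real univ ≤ 1 := by
      rw [Measure.real, Measure.restrict_apply_univ]
      have : volume (cell ∩ S) ≤ 1 := by
        rw [← volume_cell]; exact measure_mono inter_subset_left
      exact ENNReal.toReal_mono ENNReal.one_ne_top this
    have h3 := sq_integral_le hle hg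
    have h4 : θ * ((∫ z in cell ∩ S, g z) / θ) ^ 2 = (∫ z in cell ∩ S, g z) ^ 2 / θ := by
      field_simp
    rw [h4, add_mul, one_mul]
    gcongr
    rw [one_div, inv_mul_eq_div]
    gcongr
  have hpm : MemLp (pext G) 2 (volume.restrict cell) := hGm.ae_eq (pext_ae G).symm
  have hp0 : ∫ z in cell, pext G z = 0 := by rw [integral_congr_ae (pext_ae G), hG0]
  obtain ⟨w, wx, wy, hw, h1, h2, -⟩ := exists_w (per_pext G) hpm hp0
  refine ⟨w, wx, wy, hw, ?_, ?_⟩
  · rw [← eS, ae_restrict_iff' hS]
    filter_upwards [h1, pext_ae G] with z hz hz2 hzS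
    rw [hz, ofReal_re, hz2]
    simp [hG, hzS]
  · rw [h2]
    refine le_trans (le_of_eq ?_) hG2
    refine integral_congr_ae ?_
    filter_upwards [pext_ae G] with z hz
    rw [hz]

theorem exists_pressure {S : Set ℂ} (hS : MeasurableSet S) (hv : 0 < volume (cell \ S))
    (h₀ : Lp ℂ 2 (volume.restrict (cell ∩ S))) (h0 : ∀ m ∈ Msub S, inner ℝ h₀ m = 0) :
    ∃ f : Lp ℝ 2 (volume.restrict (cell ∩ S)), ∀ u ux uy, Fluct u ux uy →
      J h₀ ux uy = ∫ z in cell ∩ S, f z * ((ux z - I * uy z) / 2).re := by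
  classical
  have hsol : ∀ g : Lp ℝ 2 (volume.restrict (cell ∩ S)), ∃ p : (ℂ → ℂ) × (ℂ → ℂ) × (ℂ → ℂ),
      Fluct p.1 p.2.1 p.2.2 ∧
      (∀ᵐ z ∂(volume.restrict (cell ∩ S)), ((p.2.1 z - I * p.2.2 z) / 2).re = g z) ∧
      ∫ z in cell, ‖(p.2.1 z + I * p.2.2 z) / 2‖ ^ 2 ≤
        (1 + 1 / volume.real (cell \ S)) * ∫ z in cell ∩ S, (g z) ^ 2 := by
    intro g
    obtain ⟨w, wx, wy, h⟩ := exists_sol hS hv (Lp.memLp g)
    exact ⟨⟨w, wx, wy⟩, h⟩
  choose p hp1 hp2 hp3 using hsol
  have huniq : ∀ (g : Lp ℝ 2 (volume.restrict (cell ∩ S))) {u ux uy : ℂ → ℂ}, Fluct u ux uy →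
      (∀ᵐ z ∂(volume.restrict (cell ∩ S)), ((ux z - I * uy z) / 2).re = g z) →
      J h₀ (p g).2.1 (p g).2.2 = J h₀ ux uy := by
    intro g u ux uy hu hg
    refine J_unique hS h₀ h0 (hp1 g) hu ?_
    filter_upwards [hp2 g, hg] with z h1 h2
    rw [h1, h2]
  have hJadd : ∀ {u ux uy v vx vy : ℂ → ℂ}, Fluct u ux uy → Fluct v vx vy →
      J h₀ (fun z => ux z + vx z) (fun z => uy z + vy z) = J h₀ ux uy + J h₀ vx vy := by
    intro u ux uy v vx vy hu hv
    have hmu := memS S (memLp_zb hu)
    have hmv := memS S (memLp_zb hv)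
    rw [J_eq h₀ (hmu.toLp + hmv.toLp), J_eq h₀ _ hmu.coeFn_toLp, J_eq h₀ _ hmv.coeFn_toLp,
      inner_add_right]
    filter_upwards [Lp.coeFn_add hmu.toLp hmv.toLp, hmu.coeFn_toLp, hmv.coeFn_toLp]
      with z h1 h2 h3
    rw [h1, Pi.add_apply, h2, h3]
    ring
  have hJsmul : ∀ (c : ℝ) {u ux uy : ℂ → ℂ}, Fluct u ux uy →
      J h₀ (fun z => (c : ℂ) * ux z) (fun z => (c : ℂ) * uy z) = c * J h₀ ux uy := by
    intro c u ux uy hu
    have hmu := memS S (memLp_zb hu)
    rw [J_eq h₀ (c • hmu.toLp), J_eq h₀ _ hmu.coeFn_toLp, real_inner_smul_right]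
    filter_upwards [Lp.coeFn_smul c hmu.toLp, hmu.coeFn_toLp]
      with z h1 h2
    rw [h1, Pi.smul_apply, h2, real_smul]
    ring
  let L : Lp ℝ 2 (volume.restrict (cell ∩ S)) →ₗ[ℝ] ℝ :=
    { toFun := fun g => J h₀ (p g).2.1 (p g).2.2
      map_add' := by
        intro g g'
        rw [← hJadd (hp1 g) (hp1 g')]
        refine huniq _ ((hp1 g).add (hp1 g')) ?_
        filter_upwards [hp2 g, hp2 g', Lp.coeFn_add g g'] with z h1 h2 h3
        rw [h3, Pi.add_apply, ← h1, ← h2, re_zz, re_zz, re_zz]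
        simp only [add_re, add_im]
        ring
      map_smul' := by
        intro c g
        rw [RingHom.id_apply, smul_eq_mul, ← hJsmul c (hp1 g)]
        refine huniq _ ((hp1 g).const_mul (c : ℂ)) ?_
        filter_upwards [hp2 g, Lp.coeFn_smul c g] with z h1 h3
        rw [h3, Pi.smul_apply, ← h1, re_zz, re_zz, smul_eq_mul]
        simp only [re_ofReal_mul, im_ofReal_mul]
        ring }
  have hLb : ∀ g, ‖L g‖ ≤ (‖h₀‖ * Real.sqrt (1 + 1 / volume.real (cell \ S))) * ‖g‖ := by
    intro g
    have hm := memS S (memLp_zb (hp1 g))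
    have e1 : L g = inner ℝ h₀ hm.toLp := J_eq h₀ _ hm.coeFn_toLp
    rw [e1]
    refine (norm_inner_le_norm _ _).trans ?_
    rw [mul_assoc]
    refine mul_le_mul_of_nonneg_left ?_ (norm_nonneg _)
    have h1 : ‖hm.toLp‖ ^ 2 ≤ (1 + 1 / volume.real (cell \ S)) * ‖g‖ ^ 2 := by
      rw [norm_sq_eq, norm_sq_eq]
      have e2 : ∫ z in cell ∩ S, ‖((hm.toLp : Lp ℂ 2 (volume.restrict (cell ∩ S))) : ℂ → ℂ) z‖ ^ 2 =
          ∫ z in cell ∩ S, ‖((p g).2.1 z + I * (p g).2.2 z) / 2‖ ^ 2 := by
        refine integral_congr_ae ?_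
        filter_upwards [hm.coeFn_toLp] with z hz
        rw [hz]
      have e3 : ∫ z in cell ∩ S, ‖g z‖ ^ 2 = ∫ z in cell ∩ S, (g z) ^ 2 := by
        simp only [Real.norm_eq_abs, sq_abs]
      rw [e2, e3]
      refine le_trans ?_ (hp3 g)
      refine setIntegral_mono_set ?_ ?_ ?_
      · exact (memLp_zb (hp1 g)).integrable_norm_pow (by norm_num)
      · exact Eventually.of_forall fun z => by positivity
      · exact (inter_subset_left : cell ∩ S ⊆ cell).eventuallyLE
    have h2 : ‖hm.toLp‖ ≤ Real.sqrt ((1 + 1 / volume.real (cell \ S)) * ‖g‖ ^ 2) :=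
      Real.le_sqrt_of_sq_le h1
    rwa [Real.sqrt_mul' _ (sq_nonneg _), Real.sqrt_sq (norm_nonneg _)] at h2
  let Lc := L.mkContinuous _ hLb
  refine ⟨(InnerProductSpace.toDual ℝ _).symm Lc, fun u ux uy hu => ?_⟩
  have hm := memS S (memLp_re (memLp_zz hu))
  have h1 : J h₀ ux uy = L hm.toLp := (huniq _ hu (by
    filter_upwards [hm.coeFn_toLp] with z hz
    rw [hz])).symm
  have h2 : L hm.toLp = Lc hm.toLp := rfl
  rw [h1, h2, ← InnerProductSpace.toDual_symm_apply, L2.inner_def]
  refine integral_congr_ae ?_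
  filter_upwards [hm.coeFn_toLp] with z hz
  rw [hz]
  simp [mul_comm]

/-! ### closure -/

theorem memLp_cont {E : Type*} [NormedAddCommGroup E] [SecondCountableTopology E] {F : ℂ → E}
    (hF : Continuous F) : MemLp F 2 (volume.restrict cell) := by
  obtain ⟨C, hC⟩ := (isCompact_closedBall (0 : ℂ) 2).exists_bound_of_continuousOn hF.continuousOn
  refine MemLp.of_bound hF.aestronglyMeasurable C ?_
  filter_upwards [ae_restrict_mem measurableSet_cell] with z hz
  refine hC z ?_
  rw [mem_closedBall_zero_iff]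
  have h1 := Complex.norm_le_abs_re_add_abs_im z
  have h2 : |z.re| ≤ 1 := abs_le.2 ⟨by linarith [hz.1.1], hz.1.2.le⟩
  have h3 : |z.im| ≤ 1 := abs_le.2 ⟨by linarith [hz.2.1], hz.2.2.le⟩
  linarith

theorem continuous_D2 {φ : ℂ → ℝ} (hφ : ContDiff ℝ ∞ φ) (a b : ℂ) :
    Continuous fun z => D2 φ z a b := by
  have h1 : ContDiff ℝ ∞ (fderiv ℝ φ) := hφ.fderiv_right (by norm_num)
  have h2 : Continuous (fderiv ℝ (fderiv ℝ φ)) := h1.continuous_fderiv (by norm_num)
  exact (h2.clm_apply continuous_const).clm_apply continuous_const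

theorem continuous_hf {φ : ℂ → ℝ} (hφ : SmoothPer φ) : Continuous (hf φ) :=
  ((continuous_D2 hφ.1 1 1).add (continuous_D2 hφ.1 I I)).div_const 2

theorem continuous_hh {φ : ℂ → ℝ} (hφ : SmoothPer φ) : Continuous (hh φ) := by
  have h1 := ((continuous_D2 hφ.1 1 1).sub (continuous_D2 hφ.1 I I)).div_const 2
  have h2 := continuous_D2 hφ.1 1 I
  exact (continuous_ofReal.comp h1).add ((continuous_ofReal.comp h2).mul continuous_const)

theorem integral_reC {μ : Measure ℂ} {f : ℂ → ℂ} (hf : Integrable f μ) :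
    ∫ z, (f z).re ∂μ = (∫ z, f z ∂μ).re := integral_re (𝕜 := ℂ) hf

theorem integral_imC {μ : Measure ℂ} {f : ℂ → ℂ} (hf : Integrable f μ) :
    ∫ z, (f z).im ∂μ = (∫ z, f z ∂μ).im := integral_im (𝕜 := ℂ) hf

theorem memLp_ofReal {f : ℂ → ℝ} {μ : Measure ℂ} (h : MemLp f 2 μ) :
    MemLp (fun z => (f z : ℂ)) 2 μ := h.ofReal

theorem eq_zero_of_orth {k : ℂ → ℂ} (hk : MemLp k 2 (volume.restrict cell))
    (h0 : ∫ z in cell, k z = 0)
    (h : ∀ u ux uy, Fluct u ux uy →
      ∫ z in cell, (conj (k z) * ((ux z + I * uy z) / 2)).re = 0) :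
    ∀ᵐ z ∂(volume.restrict cell), k z = 0 := by
  have hki : Integrable k (volume.restrict cell) := hk.integrable (by norm_num)
  have hsol : ∀ g : ℂ → ℝ, MemLp g 2 (volume.restrict cell) → ∫ z in cell, g z = 0 →
      ∃ w wx wy : ℂ → ℂ, Fluct w wx wy ∧
        ∀ᵐ z ∂(volume.restrict cell), (wx z + I * wy z) / 2 = (g z : ℂ) := by
    intro g hg hg0
    obtain ⟨w, wx, wy, hw, h1, -⟩ := exists_w (per_pext g) (hg.ae_eq (pext_ae g).symm)
      (by rw [integral_congr_ae (pext_ae g), hg0])
    refine ⟨_, _, _, hw.star, ?_⟩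
    filter_upwards [h1, pext_ae g] with z h2 h3
    rw [← h3]
    have h4 := congrArg conj h2
    rw [conj_ofReal] at h4
    rw [← h4]
    simp only [map_div₀, map_sub, map_mul, conj_I, map_ofNat]
    ring
  obtain ⟨u, ux, uy, hu, hu1⟩ := hsol (fun z => (k z).re) hk.re (by
    rw [integral_reC hki, h0, zero_re])
  obtain ⟨v, vx, vy, hv, hv1⟩ := hsol (fun z => (k z).im) hk.im (by
    rw [integral_imC hki, h0, zero_im])
  have h1 := h _ _ _ (hu.add (hv.const_mul I))
  have h2 : ∫ z in cell, ‖k z‖ ^ 2 = 0 := by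
    rw [← h1]
    refine integral_congr_ae ?_
    filter_upwards [hu1, hv1] with z hz1 hz2
    have e : (ux z + I * vx z + I * (uy z + I * vy z)) / 2 = k z := by
      have e1 : (ux z + I * vx z + I * (uy z + I * vy z)) / 2
        = (ux z + I * uy z) / 2 + I * ((vx z + I * vy z) / 2) := by ring
      rw [e1, hz1, hz2, mul_comm, re_add_im]
    rw [e, ← Complex.normSq_eq_conj_mul_self, ofReal_re, Complex.normSq_eq_norm_sq]
  have h3 := (integral_eq_zero_iff_of_nonneg (fun z => by positivity)
    (hk.integrable_norm_pow (by norm_num))).1 h2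
  filter_upwards [h3] with z hz
  simpa using hz

theorem closure_aux {f : ℂ → ℝ} {h : ℂ → ℂ} (hfm : MemLp f 2 (volume.restrict cell))
    (hhm : MemLp h 2 (volume.restrict cell))
    (H : ∀ u ux uy, Fluct u ux uy → ∫ z in cell, (conj (h z) * ((ux z + I * uy z) / 2)).re
      = ∫ z in cell, f z * ((ux z - I * uy z) / 2).re) :
    ∀ ε > 0, ∃ φ : ℂ → ℝ, SmoothPer φ ∧
      ∫ z in cell, ((f z - ((∫ z in cell, f z) + hf φ z)) ^ 2
        + ‖h z - ((∫ z in cell, h z) + hh φ z)‖ ^ 2) ≤ ε := by
  set a := ∫ z in cell, f z with ha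
  set b := ∫ z in cell, h z with hb
  set g := pext (fun z => f z - a) with hg
  have hgm' : MemLp (fun z => f z - a) 2 (volume.restrict cell) := hfm.sub (memLp_const a)
  have hgm : MemLp g 2 (volume.restrict cell) := hgm'.ae_eq (pext_ae _).symm
  have hfi : Integrable f (volume.restrict cell) := hfm.integrable (by norm_num)
  have hhi : Integrable h (volume.restrict cell) := hhm.integrable (by norm_num)
  have hg0 : ∫ z in cell, g z = 0 := by
    rw [integral_congr_ae (pext_ae _), integral_sub hfi (integrable_const _), ← ha,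
      integral_const]
    simp
  obtain ⟨w, wx, wy, hw, -, -, hwφ⟩ := exists_w (per_pext (fun z => f z - a)) hgm hg0
  set B : ℂ → ℂ := fun z => (wx z + I * wy z) / 2 with hB
  have hBm : MemLp B 2 (volume.restrict cell) := memLp_zb hw
  -- the limit identity
  have key : ∀ u ux uy, Fluct u ux uy →
      ∫ z in cell, (conj (B z) * ((ux z + I * uy z) / 2)).re
        = ∫ z in cell, g z * ((ux z - I * uy z) / 2).re := by
    intro u ux uy hu
    have hzb := memLp_zb hu
    have hzz := memLp_zz hu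
    set P : ℂ → ℂ := fun z => (ux z + I * uy z) / 2 with hP
    set Q : ℂ → ℂ := fun z => (ux z - I * uy z) / 2 with hQ
    have i1 : Integrable (fun z => (conj (B z) * P z).re) (volume.restrict cell) :=
      (MemLp.integrable_mul hBm.star hzb).re
    have i2 : Integrable (fun z => g z * (Q z).re) (volume.restrict cell) :=
      MemLp.integrable_mul hgm hzz.re
    set C := ∫ z in cell, (‖P z‖ ^ 2 + ‖Q z‖ ^ 2) with hC
    have hC0 : 0 ≤ C := integral_nonneg fun z => by positivity
    have iC : Integrable (fun z => ‖P z‖ ^ 2 + ‖Q z‖ ^ 2) (volume.restrict cell) :=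
      (hzb.integrable_norm_pow (by norm_num)).add (hzz.integrable_norm_pow (by norm_num))
    have main : ∀ s > 0, |(∫ z in cell, (conj (B z) * P z).re) - ∫ z in cell, g z * (Q z).re| ≤
        s * ((1 + C) / 2) := by
      intro s hs
      obtain ⟨φ, hφ, hφ2⟩ := hwφ (s ^ 2) (by positivity)
      have mf : MemLp (hf φ) 2 (volume.restrict cell) := memLp_cont (continuous_hf hφ)
      have mh : MemLp (hh φ) 2 (volume.restrict cell) := memLp_cont (continuous_hh hφ)
      have n1 : ∫ z in cell, ((conj (hh φ z) * P z).re - hf φ z * (Q z).re) = 0 := by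
        have h1 := hu.null hφ
        have i3 : Integrable (fun z => conj (hh φ z) * P z - (hf φ z : ℂ) * Q z)
            (volume.restrict cell) :=
          (MemLp.integrable_mul mh.star hzb).sub
            (MemLp.integrable_mul (memLp_ofReal mf) hzz)
        have h2 := integral_reC i3
        rw [h1, zero_re] at h2
        rw [← h2]
        refine integral_congr_ae (Eventually.of_forall fun z => ?_)
        simp only [sub_re, re_ofReal_mul]
      have i3 : Integrable (fun z => (conj (hh φ z) * P z).re) (volume.restrict cell) :=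
        (MemLp.integrable_mul mh.star hzb).re
      have i4 : Integrable (fun z => hf φ z * (Q z).re) (volume.restrict cell) :=
        MemLp.integrable_mul mf hzz.re
      have i12 : Integrable (fun z => (conj (B z) * P z).re - g z * (Q z).re)
          (volume.restrict cell) := i1.sub i2
      have i34 : Integrable (fun z => (conj (hh φ z) * P z).re - hf φ z * (Q z).re)
          (volume.restrict cell) := i3.sub i4
      have e1 : (∫ z in cell, (conj (B z) * P z).re) - ∫ z in cell, g z * (Q z).re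
          = ∫ z in cell, ((conj (B z - hh φ z) * P z).re - (g z - hf φ z) * (Q z).re) := by
        rw [← integral_sub i1 i2]
        have e2 : ∫ z in cell, ((conj (B z - hh φ z) * P z).re - (g z - hf φ z) * (Q z).re)
          = ∫ z in cell, (((conj (B z) * P z).re - g z * (Q z).re)
            - ((conj (hh φ z) * P z).re - hf φ z * (Q z).re)) := by
          refine integral_congr_ae (Eventually.of_forall fun z => ?_)
          simp only [map_sub, sub_mul, sub_re]
          ring
        rw [e2, integral_sub i12 i34, n1, sub_zero]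
      rw [e1]
      have i5 : Integrable (fun z => (g z - hf φ z) ^ 2 + ‖B z - hh φ z‖ ^ 2)
          (volume.restrict cell) := by
        have h1 := (hgm.sub mf).integrable_sq
        have h2 := (hBm.sub mh).integrable_norm_pow (by norm_num)
        exact h1.add h2
      calc |∫ z in cell, ((conj (B z - hh φ z) * P z).re - (g z - hf φ z) * (Q z).re)|
          ≤ ∫ z in cell, |((conj (B z - hh φ z) * P z).re - (g z - hf φ z) * (Q z).re)| :=
            abs_integral_le_integral_abs
        _ ≤ ∫ z in cell, (((g z - hf φ z) ^ 2 + ‖B z - hh φ z‖ ^ 2) * (1 / (2 * s))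
              + (‖P z‖ ^ 2 + ‖Q z‖ ^ 2) * (s / 2)) := by
            refine integral_mono_of_nonneg (Eventually.of_forall fun z => abs_nonneg _)
              ((i5.mul_const _).add (iC.mul_const _)) (Eventually.of_forall fun z => ?_)
            simp only
            have b1 : |(conj (B z - hh φ z) * P z).re| ≤ ‖B z - hh φ z‖ * ‖P z‖ := by
              refine (Complex.abs_re_le_norm _).trans ?_
              rw [norm_mul, Complex.norm_conj]
            have b2 : |(g z - hf φ z) * (Q z).re| ≤ |g z - hf φ z| * ‖Q z‖ := by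
              rw [abs_mul]
              exact mul_le_mul_of_nonneg_left (Complex.abs_re_le_norm _) (abs_nonneg _)
            have am : ∀ x y : ℝ, x * y ≤ x ^ 2 * (1 / (2 * s)) + y ^ 2 * (s / 2) := by
              intro x y
              have : x ^ 2 * (1 / (2 * s)) + y ^ 2 * (s / 2) - x * y
                = (x - s * y) ^ 2 * (1 / (2 * s)) := by
                field_simp
                ring
              have h3 : 0 ≤ (x - s * y) ^ 2 * (1 / (2 * s)) := by positivity
              linarith
            have c1 := am ‖B z - hh φ z‖ ‖P z‖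
            have c2 := am |g z - hf φ z| ‖Q z‖
            rw [sq_abs] at c2
            have c3 := abs_sub (conj (B z - hh φ z) * P z).re ((g z - hf φ z) * (Q z).re)
            nlinarith
        _ = (∫ z in cell, ((g z - hf φ z) ^ 2 + ‖B z - hh φ z‖ ^ 2)) * (1 / (2 * s))
              + C * (s / 2) := by
            rw [integral_add (i5.mul_const _) (iC.mul_const _), integral_mul_const,
              integral_mul_const]
        _ ≤ s ^ 2 * (1 / (2 * s)) + C * (s / 2) := by gcongr
        _ = s * ((1 + C) / 2) := by field_simp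
    have h0 : |(∫ z in cell, (conj (B z) * P z).re) - ∫ z in cell, g z * (Q z).re| ≤ 0 := by
      refine le_of_forall_pos_le_add fun δ hδ => ?_
      have h1 := main (δ / ((1 + C) / 2)) (by positivity)
      rw [div_mul_cancel₀ _ (by positivity)] at h1
      linarith
    exact sub_eq_zero.1 (abs_nonpos_iff.1 h0)
  -- `h - b - B` vanishes
  have hkm : MemLp (fun z => h z - b - B z) 2 (volume.restrict cell) :=
    (hhm.sub (memLp_const b)).sub hBm
  have hBi : Integrable B (volume.restrict cell) := hBm.integrable (by norm_num)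
  have hB0 : ∫ z in cell, B z = 0 := by
    have h1 := hw.mean_zero
    have i1 : Integrable wx (volume.restrict cell) := hw.memx.integrable (by norm_num)
    have i2 : Integrable wy (volume.restrict cell) := hw.memy.integrable (by norm_num)
    simp only [hB]
    rw [integral_div, integral_add i1 (i2.const_mul I), integral_const_mul, h1.1, h1.2]
    simp
  have hk0 : ∫ z in cell, (h z - b - B z) = 0 := by
    have i1 : Integrable (fun z => h z - b) (volume.restrict cell) :=
      hhi.sub (integrable_const _)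
    rw [integral_sub i1 hBi, integral_sub hhi (integrable_const _), hB0, ← hb, integral_const]
    simp
  have hkz := eq_zero_of_orth hkm hk0 (by
    intro u ux uy hu
    have hzb := memLp_zb hu
    have hzz := memLp_zz hu
    have i1 : Integrable (fun z => (conj (h z) * ((ux z + I * uy z) / 2)).re)
      (volume.restrict cell) := (MemLp.integrable_mul hhm.star hzb).re
    have i2 : Integrable (fun z => (conj b * ((ux z + I * uy z) / 2)).re)
      (volume.restrict cell) := ((hzb.integrable (by norm_num)).const_mul (conj b)).re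
    have i3 : Integrable (fun z => (conj (B z) * ((ux z + I * uy z) / 2)).re)
      (volume.restrict cell) := (MemLp.integrable_mul hBm.star hzb).re
    have e1 : ∫ z in cell, (conj (h z - b - B z) * ((ux z + I * uy z) / 2)).re
      = ∫ z in cell, ((conj (h z) * ((ux z + I * uy z) / 2)).re
        - (conj b * ((ux z + I * uy z) / 2)).re
        - (conj (B z) * ((ux z + I * uy z) / 2)).re) := by
      refine integral_congr_ae (Eventually.of_forall fun z => ?_)
      simp only [map_sub, sub_mul, sub_re]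
    have j1 : Integrable ux (volume.restrict cell) := hu.memx.integrable (by norm_num)
    have j2 : Integrable uy (volume.restrict cell) := hu.memy.integrable (by norm_num)
    have e2 : ∫ z in cell, (conj b * ((ux z + I * uy z) / 2)).re = 0 := by
      have h2 := integral_reC ((hzb.integrable (by norm_num)).const_mul (conj b))
      rw [h2, integral_const_mul, integral_div, integral_add j1 (j2.const_mul I),
        integral_const_mul, hu.mean_zero.1, hu.mean_zero.2]
      simp
    have i4 : Integrable (fun z => f z * ((ux z - I * uy z) / 2).re) (volume.restrict cell) :=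
      MemLp.integrable_mul hfm hzz.re
    have i5 : Integrable (fun z => ((ux z - I * uy z) / 2).re) (volume.restrict cell) :=
      (hzz.integrable (by norm_num)).re
    have e3 : ∫ z in cell, g z * ((ux z - I * uy z) / 2).re
        = ∫ z in cell, f z * ((ux z - I * uy z) / 2).re := by
      have e4 : ∫ z in cell, g z * ((ux z - I * uy z) / 2).re
        = ∫ z in cell, (f z * ((ux z - I * uy z) / 2).re
          - a * ((ux z - I * uy z) / 2).re) := by
        refine integral_congr_ae ?_
        filter_upwards [pext_ae (fun z => f z - a)] with z hz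
        rw [hg, hz]
        ring
      have e5 : ∫ z in cell, ((ux z - I * uy z) / 2).re = 0 := by
        have h2 := integral_reC (hzz.integrable (by norm_num))
        rw [h2, integral_div, integral_sub j1 (j2.const_mul I),
          integral_const_mul, hu.mean_zero.1, hu.mean_zero.2]
        simp
      rw [e4, integral_sub i4 (i5.const_mul a), integral_const_mul, e5]
      ring
    have i12 : Integrable (fun z => (conj (h z) * ((ux z + I * uy z) / 2)).re
        - (conj b * ((ux z + I * uy z) / 2)).re) (volume.restrict cell) := i1.sub i2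
    rw [e1, integral_sub i12 i3, integral_sub i1 i2, e2, H u ux uy hu, key u ux uy hu, e3]
    ring)
  intro ε hε
  obtain ⟨φ, hφ, hφ2⟩ := hwφ ε hε
  refine ⟨φ, hφ, le_trans (le_of_eq ?_) hφ2⟩
  refine integral_congr_ae ?_
  filter_upwards [hkz, pext_ae (fun z => f z - a)] with z h1 h2
  have h3 : h z = b + B z := by linear_combination h1
  rw [h2, h3]
  have h4 : b + B z - (b + hh φ z) = (wx z + I * wy z) / 2 - hh φ z := by
    simp only [hB]; ring
  rw [h4]
  ring

end SD

theorem strong_dual {S : Set ℂ} (hS : Composite S) {z₀ : ℂ} {r : ℝ} (hr : 0 < r)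
    (hball : Metric.ball z₀ r ⊆ Sᶜ) (β : ℂ) :
    ∃ b : ℂ, DualField S b (W S 0 β / 4) ∧ (conj b * β).re = W S 0 β / 4 := by
  obtain ⟨h₀, h0, h1, h2⟩ := SD.exists_proj S β
  obtain ⟨f₀, hf₀⟩ := SD.exists_pressure hS.meas (SD.void_pos hS hr hball) h₀ h0
  have eS : (volume.restrict cell).restrict S = volume.restrict (cell ∩ S) := by
    rw [Measure.restrict_restrict hS.meas, inter_comm]
  have hfm : MemLp (S.indicator (f₀ : ℂ → ℝ)) 2 (volume.restrict cell) := by
    rw [memLp_indicator_iff_restrict hS.meas, eS]; exact Lp.memLp f₀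
  have hhm : MemLp (S.indicator (h₀ : ℂ → ℂ)) 2 (volume.restrict cell) := by
    rw [memLp_indicator_iff_restrict hS.meas, eS]; exact Lp.memLp h₀
  have hW : W S 0 β / 4 = ‖h₀‖ ^ 2 := by rw [h2]; ring
  refine ⟨∫ z in cell, S.indicator (h₀ : ℂ → ℂ) z, ⟨S.indicator f₀, S.indicator h₀,
    ∫ z in cell, S.indicator (f₀ : ℂ → ℝ) z, hfm, hhm, ?_, ?_, ?_⟩, ?_⟩
  · exact Eventually.of_forall fun z hz => by simp [hz]
  · rw [hW, SD.norm_sq_eq]
    refine le_of_eq ?_
    have e : ∀ z, ‖S.indicator (h₀ : ℂ → ℂ) z‖ ^ 2 = S.indicator (fun z => ‖h₀ z‖ ^ 2) z := by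
      intro z
      by_cases hz : z ∈ S <;> simp [hz]
    simp_rw [e]
    rw [setIntegral_indicator hS.meas]
  · refine SD.closure_aux hfm hhm fun u ux uy hu => ?_
    have h3 := hf₀ u ux uy hu
    have e1 : ∀ z, (conj (S.indicator (h₀ : ℂ → ℂ) z) * ((ux z + I * uy z) / 2)).re
        = S.indicator (fun z => (conj (h₀ z) * ((ux z + I * uy z) / 2)).re) z := by
      intro z
      by_cases hz : z ∈ S <;> simp [hz]
    have e2 : ∀ z, S.indicator (f₀ : ℂ → ℝ) z * ((ux z - I * uy z) / 2).re
        = S.indicator (fun z => f₀ z * ((ux z - I * uy z) / 2).re) z := by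
      intro z
      by_cases hz : z ∈ S <;> simp [hz]
    simp_rw [e1, e2]
    rw [setIntegral_indicator hS.meas, setIntegral_indicator hS.meas]
    exact h3
  · rw [hW, ← h1, L2.inner_def, setIntegral_indicator hS.meas, ← integral_conj,
      ← integral_mul_const]
    have hi : Integrable (fun z => conj (h₀ z) * β) (volume.restrict (cell ∩ S)) :=
      (((Lp.memLp h₀).star.integrable (by norm_num)).mul_const β)
    rw [← SD.integral_reC hi]
    refine integral_congr_ae ?_
    filter_upwards [(memLp_const β : MemLp (fun _ : ℂ => β) 2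
        (volume.restrict (cell ∩ S))).coeFn_toLp] with z hz
    rw [hz, Complex.inner, mul_comm]

end EBC
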