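import Pool.Agent.Work.MP_ebc928_an.TransportB

open MeasureTheory Complex Set Filter Topology
open scoped ContDiff ComplexConjugate

noncomputable section
namespace EBC
namespace Tr1

theorem centres {κ : ℂ → ℝ} {X : ℂ → ℂ} {N1 : ℂ → ℝ} {N2 : ℂ → ℂ} (hF : HomField κ X N1 N2) :
    ∃ R : ℝ, 0 ≤ R ∧ ∀ z ∈ cell, ∃ c₀ : ℂ, ‖c₀‖ ≤ R ∧ ∀ᶠ w in 𝓝 z, X w = κ w • (w - c₀) ∧
      N1 w = κ w * ‖w - c₀‖ ^ 2 ∧ N2 w = κ w • (w - c₀) ^ 2 := by
  classical
  have hK : IsCompact (Metric.closedBall (0 : ℂ) 2) := isCompact_closedBall _ _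
  have hsub : cell ⊆ Metric.closedBall (0 : ℂ) 2 := by
    rintro w ⟨⟨h1, h2⟩, ⟨h3, h4⟩⟩
    rw [mem_closedBall_zero_iff]
    refine (Complex.norm_le_abs_re_add_abs_im _).trans ?_
    rw [abs_of_nonneg h1, abs_of_nonneg h3]
    linarith
  choose c hc using hF.loc
  have hc' : ∀ z₀, ∃ U : Set ℂ, IsOpen U ∧ z₀ ∈ U ∧ ∀ w ∈ U, X w = κ w • (w - c z₀) ∧
      N1 w = κ w * ‖w - c z₀‖ ^ 2 ∧ N2 w = κ w • (w - c z₀) ^ 2 := by
    intro z₀
    obtain ⟨U, hU1, hU2, hU3⟩ := eventually_nhds_iff.mp (hc z₀)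
    exact ⟨U, hU2, hU3, hU1⟩
  choose U hU1 hU2 hU3 using hc'
  obtain ⟨T, -, hT⟩ := hK.elim_nhds_subcover U (fun x _ => (hU1 x).mem_nhds (hU2 x))
  refine ⟨∑ x ∈ T, ‖c x‖, Finset.sum_nonneg fun _ _ => norm_nonneg _, fun z hz => ?_⟩
  have := hT (hsub hz)
  simp only [mem_iUnion] at this
  obtain ⟨x, hx, hzx⟩ := this
  refine ⟨c x, Finset.single_le_sum (f := fun x => ‖c x‖) (fun _ _ => norm_nonneg _) hx, ?_⟩
  filter_upwards [(hU1 x).mem_nhds hzx] with w hw
  exact hU3 x w hw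

theorem clm_bound (L : ℂ →L[ℝ] ℝ) (v : ℂ) : |L v| ≤ ‖v‖ * (|L 1| + |L I|) := by
  have : L v = v.re * L 1 + v.im * L I := by
    have hv : v = v.re • (1 : ℂ) + v.im • I := by simp
    conv_lhs => rw [hv]
    simp only [map_add, map_smul, smul_eq_mul]
  rw [this]
  have h1 := Complex.abs_re_le_norm v
  have h2 := Complex.abs_im_le_norm v
  calc |v.re * L 1 + v.im * L I| ≤ |v.re| * |L 1| + |v.im| * |L I| := by
        rw [← abs_mul, ← abs_mul]; exact abs_add_le _ _
    _ ≤ ‖v‖ * |L 1| + ‖v‖ * |L I| := by gcongr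
    _ = _ := by ring

theorem six_sq (a b c d e f : ℝ) : (a + b + c + d + e + f) ^ 2 ≤
    6 * (a ^ 2 + b ^ 2 + c ^ 2 + d ^ 2 + e ^ 2 + f ^ 2) := by
  nlinarith [sq_nonneg (a - b), sq_nonneg (a - c), sq_nonneg (a - d), sq_nonneg (a - e),
    sq_nonneg (a - f), sq_nonneg (b - c), sq_nonneg (b - d), sq_nonneg (b - e), sq_nonneg (b - f),
    sq_nonneg (c - d), sq_nonneg (c - e), sq_nonneg (c - f), sq_nonneg (d - e), sq_nonneg (d - f),
    sq_nonneg (e - f)]

/-- pointwise energy estimate -/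
theorem pointwise {κ : ℂ → ℝ} {X : ℂ → ℂ} {N1 : ℂ → ℝ} {N2 : ℂ → ℂ} (hF : HomField κ X N1 N2)
    {M : ℝ} (hM0 : 0 ≤ M) (hM : ∀ z, ‖fderiv ℝ X z‖ ≤ M) :
    ∃ C₁ ≥ 0, ∀ (t : ℝ), |t| ≤ 1 → ∀ (a : ℝ) (b : ℂ) (φ : ℂ → ℝ), ContDiff ℝ ∞ φ → ∀ z ∈ cell,
      ‖b + hh (phi' κ X N1 N2 a b φ t) z‖ ^ 2 ≤
        (1 + |t|) * ‖b + hh φ (z + t • X z)‖ ^ 2 + |t| * (C₁ * ((a + hf φ (z + t • X z)) ^ 2 +
          ‖b + hh φ (z + t • X z)‖ ^ 2 + a ^ 2 + ‖b‖ ^ 2 + (fderiv ℝ φ (z + t • X z) 1) ^ 2 +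
          (fderiv ℝ φ (z + t • X z) I) ^ 2)) := by
  obtain ⟨R, hR0, hR⟩ := centres hF
  obtain ⟨MX, hMX0, hMX⟩ := bounded_of_per hF.sX.continuous hF.pX
  have c2 : Continuous (fderiv ℝ (fderiv ℝ X)) :=
    (hF.sX.fderiv_right (m := ∞) (by simp)).continuous_fderiv (by simp)
  obtain ⟨M2, hM20, hM2⟩ := bounded_of_per c2 (per_fderiv (per_fderiv hF.pX))
  set R' := 2 + MX + R with hR'
  set C := 2 * (2 * M + M ^ 2) + 2 * (R' * M2 + M2) with hC
  refine ⟨12 * C ^ 2, by positivity, ?_⟩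
  intro t ht a b φ hφ z hz
  obtain ⟨c₀, hc0, hl⟩ := hR z hz
  have hsub : ‖z‖ ≤ 2 := by
    obtain ⟨⟨h1, h2⟩, ⟨h3, h4⟩⟩ := hz
    refine (Complex.norm_le_abs_re_add_abs_im _).trans ?_
    rw [abs_of_nonneg h1, abs_of_nonneg h3]
    linarith
  have hRn : ‖z + t • X z - c₀‖ ≤ R' := by
    calc ‖z + t • X z - c₀‖ ≤ ‖z‖ + ‖t • X z‖ + ‖c₀‖ := (norm_sub_le _ _).trans (by gcongr; exact norm_add_le _ _)
      _ ≤ 2 + MX + R := by
        have : ‖t • X z‖ ≤ MX := by
          rw [norm_smul, Real.norm_eq_abs]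
          calc |t| * ‖X z‖ ≤ 1 * MX := mul_le_mul ht (hMX z) (norm_nonneg _) zero_le_one
            _ = MX := one_mul _
        gcongr
  have hv : ∀ h k : ℂ, ‖h‖ = 1 → ‖k‖ = 1 → ‖D2 X z h k‖ ≤ M2 := by
    intro h k hh hk
    unfold D2
    calc _ ≤ ‖fderiv ℝ (fderiv ℝ X) z h‖ * ‖k‖ := ContinuousLinearMap.le_opNorm _ _
      _ ≤ (‖fderiv ℝ (fderiv ℝ X) z‖ * ‖h‖) * ‖k‖ := by gcongr; exact ContinuousLinearMap.le_opNorm _ _
      _ ≤ M2 := by rw [hh, hk, mul_one, mul_one]; exact hM2 z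
  set w := z + t • X z with hw
  set g1 := fderiv ℝ φ w 1 with hg1
  set gI := fderiv ℝ φ w I with hgI
  set B := (|a| + ‖b‖) * (R' * M2) + M2 * (|g1| + |gI|) with hB
  have hx : ∀ h k : ℂ, ‖h‖ = 1 → ‖k‖ = 1 →
      |a * (conj (w - c₀) * D2 X z h k).re + (conj b * (w - c₀) * D2 X z h k).re +
        fderiv ℝ φ w (D2 X z h k)| ≤ B := by
    intro h k hh hk
    have b0 := hv h k hh hk
    set v := D2 X z h k
    have hvn : 0 ≤ ‖v‖ := norm_nonneg _
    have b1 : |a * (conj (w - c₀) * v).re| ≤ |a| * (R' * M2) := by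
      rw [abs_mul]
      gcongr
      refine (Complex.abs_re_le_norm _).trans ?_
      rw [norm_mul, Complex.norm_conj]
      gcongr
    have b2 : |(conj b * (w - c₀) * v).re| ≤ ‖b‖ * (R' * M2) := by
      refine (Complex.abs_re_le_norm _).trans ?_
      rw [norm_mul, norm_mul, Complex.norm_conj, mul_assoc]
      gcongr
    have b3 : |fderiv ℝ φ w v| ≤ M2 * (|g1| + |gI|) := (clm_bound _ _).trans (by gcongr)
    calc _ ≤ |a * (conj (w - c₀) * v).re| + |(conj b * (w - c₀) * v).re| + |fderiv ℝ φ w v| :=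
          abs_add_three _ _ _
      _ ≤ |a| * (R' * M2) + ‖b‖ * (R' * M2) + M2 * (|g1| + |gI|) := by gcongr
      _ = B := by rw [hB]; ring
  have hsm := phi'_contDiff hF a b hφ t
  have htd := (tr_dev a b hsm z).2
  have hp : ‖fderiv ℝ X z 1‖ ≤ M := ((fderiv ℝ X z).le_opNorm 1).trans (by simpa using hM z)
  have hq : ‖fderiv ℝ X z I‖ ≤ M := ((fderiv ℝ X z).le_opNorm I).trans (by simpa using hM z)
  have hdb := dev_bound (α := a + hf φ w) (η := b + hh φ w) hM0 ht hp hq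
    (hx 1 1 (by simp) (by simp)) (hx I I (by simp) (by simp)) (hx 1 I (by simp) (by simp))
  rw [D2_phi' hF a b hφ t hl 1 1, D2_phi' hF a b hφ t hl I I, D2_phi' hF a b hφ t hl 1 I] at htd
  rw [← hw] at htd
  rw [← htd] at hdb
  set N := ‖b + hh (phi' κ X N1 N2 a b φ t) z‖ with hN
  set al' := |a + hf φ w| with hal
  set et := ‖b + hh φ w‖ with het
  have hy : 2 * ((2 * M + M ^ 2) * (al' + et)) + 2 * B ≤
      C * (al' + et + |a| + ‖b‖ + |g1| + |gI|) := by
    have h1 : 0 ≤ al' := abs_nonneg _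
    have h2 : 0 ≤ et := norm_nonneg _
    have h3 : 0 ≤ |a| := abs_nonneg _
    have h4 : 0 ≤ ‖b‖ := norm_nonneg _
    have h5 : 0 ≤ |g1| := abs_nonneg _
    have h6 : 0 ≤ |gI| := abs_nonneg _
    have hR'0 : 0 ≤ R' := by positivity
    have q1 : 0 ≤ 2 * M + M ^ 2 := by positivity
    have q2 : 0 ≤ R' * M2 := by positivity
    rw [hC, hB]
    have e : (2 * (2 * M + M ^ 2) + 2 * (R' * M2 + M2)) * (al' + et + |a| + ‖b‖ + |g1| + |gI|) -
      (2 * ((2 * M + M ^ 2) * (al' + et)) + 2 * ((|a| + ‖b‖) * (R' * M2) + M2 * (|g1| + |gI|))) =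
      2 * (2 * M + M ^ 2) * (|a| + ‖b‖ + |g1| + |gI|) + 2 * (R' * M2) * (al' + et + |g1| + |gI|) +
        2 * M2 * (al' + et + |a| + ‖b‖) := by ring
    have : 0 ≤ 2 * (2 * M + M ^ 2) * (|a| + ‖b‖ + |g1| + |gI|) + 2 * (R' * M2) * (al' + et + |g1| + |gI|) +
        2 * M2 * (al' + et + |a| + ‖b‖) := by positivity
    linarith
  have hC0 : 0 ≤ C := by
    have hR'0 : 0 ≤ R' := by positivity
    positivity
  set Y := C * (al' + et + |a| + ‖b‖ + |g1| + |gI|) with hY
  have hY0 : 0 ≤ Y := by positivity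
  have hN' : N ≤ et + |t| * Y := hdb.trans (by gcongr)
  have hsq := sq_bound (abs_nonneg t) ht (norm_nonneg (b + hh φ w)) hY0 (norm_nonneg _) hN'
  have h6 := six_sq al' et |a| ‖b‖ |g1| |gI|
  have hY2 : Y ^ 2 ≤ C ^ 2 * (6 * ((a + hf φ w) ^ 2 + et ^ 2 + a ^ 2 + ‖b‖ ^ 2 + g1 ^ 2 + gI ^ 2)) := by
    rw [hY, mul_pow]
    refine mul_le_mul_of_nonneg_left ?_ (sq_nonneg _)
    have e1 : al' ^ 2 = (a + hf φ w) ^ 2 := sq_abs _
    rw [e1, sq_abs, sq_abs, sq_abs] at h6
    exact h6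
  calc N ^ 2 ≤ (1 + |t|) * et ^ 2 + 2 * |t| * Y ^ 2 := hsq
    _ ≤ (1 + |t|) * et ^ 2 + 2 * |t| * (C ^ 2 * (6 * ((a + hf φ w) ^ 2 + et ^ 2 + a ^ 2 + ‖b‖ ^ 2 +
        g1 ^ 2 + gI ^ 2))) := by gcongr
    _ = _ := by ring

/-- on the voids of the transported composite -/
theorem pointwise_void {κ : ℂ → ℝ} {X : ℂ → ℂ} {N1 : ℂ → ℝ} {N2 : ℂ → ℂ} (hF : HomField κ X N1 N2)
    {Mκ : ℝ} (hMκ : ∀ z, |κ z| ≤ Mκ) (t : ℝ) (ht : |t| ≤ 1) (a : ℝ) (b : ℂ) (φ : ℂ → ℝ)
    (hφ : ContDiff ℝ ∞ φ) (z : ℂ) (hz : ∀ᶠ w in 𝓝 z, κ w = κ z) :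
      (a + hf (phi' κ X N1 N2 a b φ t) z) ^ 2 + ‖b + hh (phi' κ X N1 N2 a b φ t) z‖ ^ 2 ≤
        (1 + Mκ) ^ 4 * ((a + hf φ (z + t • X z)) ^ 2 + ‖b + hh φ (z + t • X z)‖ ^ 2) := by
  obtain ⟨c₀, hl⟩ := hF.loc z
  have eX : X =ᶠ[𝓝 z] fun w => κ z • (w - c₀) := by
    filter_upwards [hl, hz] with w h1 h2
    rw [h1.1, h2]
  have dX : ∀ w, HasFDerivAt (fun w => κ z • (w - c₀)) (κ z • ContinuousLinearMap.id ℝ ℂ) w := by
    intro w
    exact ((hasFDerivAt_id w).sub_const c₀).const_smul (κ z)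
  have d1 : ∀ h, fderiv ℝ X z h = κ z • h := by
    intro h
    rw [eX.fderiv_eq, (dX z).fderiv]; rfl
  have d2 : ∀ h k, D2 X z h k = 0 := by
    intro h k
    rw [D2_congr eX]
    unfold D2
    have : fderiv ℝ (fun w => κ z • (w - c₀)) = fun _ => κ z • ContinuousLinearMap.id ℝ ℂ := by
      ext1 w; exact (dX w).fderiv
    rw [this]; simp
  have hsm := phi'_contDiff hF a b hφ t
  obtain ⟨htr, hdv⟩ := tr_dev a b hsm z
  rw [D2_phi' hF a b hφ t hl 1 1, D2_phi' hF a b hφ t hl I I] at htr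
  rw [D2_phi' hF a b hφ t hl 1 1, D2_phi' hF a b hφ t hl I I, D2_phi' hF a b hφ t hl 1 I] at hdv
  simp only [d1, d2] at htr hdv
  set w := z + t • X z
  set m := 1 + t * κ z with hm
  have e1 : a + hf (phi' κ X N1 N2 a b φ t) z = m ^ 2 * (a + hf φ w) := by
    rw [htr]
    unfold Sf
    simp [hm]
    ring
  have e2 : b + hh (phi' κ X N1 N2 a b φ t) z = ((m ^ 2 : ℝ) : ℂ) * (b + hh φ w) := by
    rw [hdv]
    unfold Sf
    apply Complex.ext
    · rw [Complex.re_ofReal_mul, hm]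
      simp
      ring
    · rw [Complex.im_ofReal_mul, hm]
      simp
      ring
  have hm1 : |m| ≤ 1 + Mκ := by
    rw [hm]
    calc |1 + t * κ z| ≤ |(1 : ℝ)| + |t * κ z| := abs_add_le _ _
      _ ≤ 1 + 1 * Mκ := by
        rw [abs_one, abs_mul]
        gcongr
        exact hMκ z
      _ = _ := by ring
  have hm4 : m ^ 4 ≤ (1 + Mκ) ^ 4 := by
    calc m ^ 4 = |m| ^ 4 := by rw [← abs_pow]; exact (abs_of_nonneg (by positivity)).symm
      _ ≤ _ := pow_le_pow_left₀ (abs_nonneg _) hm1 4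
  rw [e1, e2, norm_mul, Complex.norm_real, Real.norm_eq_abs, abs_of_nonneg (sq_nonneg m)]
  calc (m ^ 2 * (a + hf φ w)) ^ 2 + (m ^ 2 * ‖b + hh φ w‖) ^ 2 =
      m ^ 4 * ((a + hf φ w) ^ 2 + ‖b + hh φ w‖ ^ 2) := by ring
    _ ≤ _ := mul_le_mul_of_nonneg_right hm4 (by positivity)

end Tr1

open Tr1

/-- Transport of dual fields by `z ↦ z + t X(z)`. -/
theorem transport {κ : ℂ → ℝ} {X : ℂ → ℂ} {N1 : ℂ → ℝ} {N2 : ℂ → ℂ}
    (hF : HomField κ X N1 N2) {θ : ℝ} (hθ : 0 < θ) :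
    ∃ t₀ > 0, ∃ C ≥ 0, ∀ t : ℝ, |t| ≤ t₀ → ∀ S S' : Set ℂ, Composite S → Composite S' →
      θ ≤ (volume (cell \ S)).toReal →
      (∀ᵐ z, z ∉ S' → z + t • X z ∉ S ∧ ∀ᶠ w in 𝓝 z, κ w = κ z) →
      ∀ (b : ℂ) (E : ℝ), DualField S b E → DualSeq S' b (E * (1 + C * |t|)) := by
  have c1 : Continuous (fderiv ℝ X) := hF.sX.continuous_fderiv (by simp)
  obtain ⟨M, hM0, hM⟩ := bounded_of_per c1 (per_fderiv hF.pX)
  obtain ⟨Mκ, hMκ0, hMκ⟩ := bounded_of_per hF.sκ.continuous hF.pκ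
  obtain ⟨C₁, hC₁0, hpt⟩ := pointwise hF hM0 hM
  obtain ⟨Cθ, hCθ0, hco⟩ := coercive hθ
  set C := 1 + 8 * M + 2 * (C₁ * (Cθ + 1)) with hC
  set C3 := 2 * (C₁ * Cθ) with hC3
  set K := 2 * (1 + Mκ) ^ 4 with hK
  have hC0 : 0 ≤ C := by positivity
  have hC30 : 0 ≤ C3 := by positivity
  have hK0 : 0 ≤ K := by positivity
  refine ⟨min 1 (1 / (4 * (M + 1))), by positivity, C, hC0, ?_⟩
  intro t ht S S' hS hS' hvol hvoid b E hD ε hε
  have ht1 : |t| ≤ 1 := ht.trans (min_le_left _ _)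
  have htM : |t| * M ≤ 1 / 4 := by
    have h1 : |t| ≤ 1 / (4 * (M + 1)) := ht.trans (min_le_right _ _)
    calc |t| * M ≤ 1 / (4 * (M + 1)) * (M + 1) := by gcongr; linarith
      _ = 1 / 4 := by field_simp
  obtain ⟨f, h, a, hf2, hh2, hz0, hE, happ⟩ := hD
  have hE0 : 0 ≤ E := le_trans (integral_nonneg fun z => sq_nonneg _) hE
  set δ := ε / (4 * ((1 + C) * (E + 1))) with hδ
  have hδ0 : 0 < δ := by positivity
  set ε' := ε / (4 * ((1 + C) * (1 + 1 / δ) + C3 + K + 1)) with hε'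
  have hε'0 : 0 < ε' := by positivity
  obtain ⟨φ, hφ, herr⟩ := happ ε' hε'0
  have hfin : volume cell ≠ ⊤ := by rw [volume_cell]; simp
  -- continuity / integrability of the data
  have chf := cont_hf hφ.1
  have chh := cont_hh hφ.1
  have cα : Continuous fun z => a + hf φ z := continuous_const.add chf
  have cη : Continuous fun z => b + hh φ z := continuous_const.add chh
  have cd : ∀ v : ℂ, Continuous fun z => fderiv ℝ φ z v := fun v =>
    (hφ.1.continuous_fderiv (by simp)).clm_apply continuous_const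
  have pα : Per fun z => a + hf φ z := by
    intro z; have := per_hf hφ.2 z; simp only; rw [this.1, this.2]; exact ⟨rfl, rfl⟩
  have pη : Per fun z => b + hh φ z := by
    intro z; have := per_hh hφ.2 z; simp only; rw [this.1, this.2]; exact ⟨rfl, rfl⟩
  have pd : ∀ v : ℂ, Per fun z => fderiv ℝ φ z v := by
    intro v z; have := per_fderiv hφ.2 z; simp only; rw [this.1, this.2]; exact ⟨rfl, rfl⟩
  have mα : MemLp (fun z => a + hf φ z) 2 (volume.restrict cell) := by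
    haveI : IsFiniteMeasure (volume.restrict cell) := ⟨by simpa using hfin.lt_top⟩
    obtain ⟨B, -, hB⟩ := bounded_of_per cα pα
    exact MemLp.of_bound cα.aestronglyMeasurable B (Filter.Eventually.of_forall hB)
  have mη : MemLp (fun z => b + hh φ z) 2 (volume.restrict cell) := by
    haveI : IsFiniteMeasure (volume.restrict cell) := ⟨by simpa using hfin.lt_top⟩
    obtain ⟨B, -, hB⟩ := bounded_of_per cη pη
    exact MemLp.of_bound cη.aestronglyMeasurable B (Filter.Eventually.of_forall hB)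
  have i_fα : Integrable (fun z => (f z - (a + hf φ z)) ^ 2) (volume.restrict cell) := by
    have := (hf2.sub mα).integrable_norm_pow (by norm_num)
    refine this.congr (Filter.Eventually.of_forall fun z => ?_)
    simp [sq_abs]
  have i_hη : Integrable (fun z => ‖h z - (b + hh φ z)‖ ^ 2) (volume.restrict cell) :=
    (hh2.sub mη).integrable_norm_pow (by norm_num)
  have i_h : Integrable (fun z => ‖h z‖ ^ 2) (volume.restrict cell) :=
    hh2.integrable_norm_pow (by norm_num)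
  set P := ∫ z in cell, ‖b + hh φ z‖ ^ 2 with hP
  have i_η : IntegrableOn (fun z => ‖b + hh φ z‖ ^ 2) cell volume := int_cell (cη.norm.pow 2)
  have i_α : IntegrableOn (fun z => (a + hf φ z) ^ 2) cell volume := int_cell (cα.pow 2)
  have hP0 : 0 ≤ P := integral_nonneg fun z => sq_nonneg _
  have hPE : P ≤ E + (δ * E + (1 + 1 / δ) * ε') := by
    have h1 : P ≤ ∫ z in cell, ((1 + δ) * ‖h z‖ ^ 2 + (1 + 1 / δ) * ‖h z - (b + hh φ z)‖ ^ 2) := by
      refine integral_mono_of_nonneg (Filter.Eventually.of_forall fun z => sq_nonneg _)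
        ((i_h.const_mul _).add (i_hη.const_mul _)) (Filter.Eventually.of_forall fun z => ?_)
      simp only
      have n1 : ‖b + hh φ z‖ ≤ ‖h z‖ + ‖h z - (b + hh φ z)‖ := by
        have : b + hh φ z = h z - (h z - (b + hh φ z)) := by ring
        conv_lhs => rw [this]
        exact norm_sub_le _ _
      set x := ‖h z‖
      set y := ‖h z - (b + hh φ z)‖
      have hx : 0 ≤ x := norm_nonneg _
      have hy : 0 ≤ y := norm_nonneg _
      have n2 : ‖b + hh φ z‖ ^ 2 ≤ (x + y) ^ 2 := pow_le_pow_left₀ (norm_nonneg _) n1 2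
      have n3 : 2 * x * y ≤ δ * x ^ 2 + 1 / δ * y ^ 2 := by
        have : 0 ≤ (δ * x - y) ^ 2 / δ := by positivity
        have e : (δ * x - y) ^ 2 / δ = δ * x ^ 2 - 2 * x * y + 1 / δ * y ^ 2 := by
          field_simp
          ring
        linarith
      nlinarith
    have h2 : ∫ z in cell, ((1 + δ) * ‖h z‖ ^ 2 + (1 + 1 / δ) * ‖h z - (b + hh φ z)‖ ^ 2) =
        (1 + δ) * (∫ z in cell, ‖h z‖ ^ 2) + (1 + 1 / δ) * ∫ z in cell, ‖h z - (b + hh φ z)‖ ^ 2 := by
      rw [integral_add (i_h.const_mul _) (i_hη.const_mul _), integral_const_mul, integral_const_mul]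
    have h3 : ∫ z in cell, ‖h z - (b + hh φ z)‖ ^ 2 ≤ ε' := by
      refine le_trans ?_ herr
      refine integral_mono_of_nonneg (Filter.Eventually.of_forall fun z => sq_nonneg _)
        (i_fα.add i_hη) (Filter.Eventually.of_forall fun z => ?_)
      simp only
      linarith [sq_nonneg (f z - (a + hf φ z))]
    have hd0 : 0 ≤ 1 + 1 / δ := by positivity
    calc P ≤ _ := h1
      _ = _ := h2
      _ ≤ (1 + δ) * E + (1 + 1 / δ) * ε' := by gcongr
      _ = _ := by ring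
  -- void error
  have hverr : ∫ z in cell \ S, ((a + hf φ z) ^ 2 + ‖b + hh φ z‖ ^ 2) ≤ ε' := by
    have hms : MeasurableSet (cell \ S) := measurableSet_cell.diff hS.meas
    have h1 : ∫ z in cell \ S, ((a + hf φ z) ^ 2 + ‖b + hh φ z‖ ^ 2) =
        ∫ z in cell \ S, ((f z - (a + hf φ z)) ^ 2 + ‖h z - (b + hh φ z)‖ ^ 2) := by
      refine setIntegral_congr_ae hms ?_
      rw [ae_restrict_iff' measurableSet_cell] at hz0
      filter_upwards [hz0] with z hz hzm
      obtain ⟨q1, q2⟩ := hz hzm.1 hzm.2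
      rw [q1, q2, zero_sub, zero_sub, norm_neg, neg_sq]
    rw [h1]
    refine le_trans ?_ herr
    exact setIntegral_mono_set (i_fα.add i_hη) (Filter.Eventually.of_forall fun z => by
      simp only [Pi.zero_apply]; positivity) (Filter.Eventually.of_forall fun z hz => hz.1)
  have hcoer := hco S hS hvol a b φ ε' hφ hverr
  rw [← hP] at hcoer
  refine ⟨a, phi' κ X N1 N2 a b φ t, ⟨phi'_contDiff hF a b hφ.1 t, phi'_per hF a b hφ.2 t⟩, ?_, ?_⟩
  · -- small on the void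
    set g : ℂ → ℝ := Sᶜ.indicator fun z => (a + hf φ z) ^ 2 + ‖b + hh φ z‖ ^ 2 with hg
    have cg : Continuous fun z => (a + hf φ z) ^ 2 + ‖b + hh φ z‖ ^ 2 :=
      (cα.pow 2).add (cη.norm.pow 2)
    have pg0 : Per fun z => (a + hf φ z) ^ 2 + ‖b + hh φ z‖ ^ 2 := by
      intro z
      have h1 := pα z
      have h2 := pη z
      simp only at h1 h2 ⊢
      rw [h1.1, h1.2, h2.1, h2.2]; exact ⟨rfl, rfl⟩
    have pg : Per g := by
      intro z
      have h1 := pg0 z
      have h2 := hS.per z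
      simp only at h1
      by_cases hz : z ∈ S
      · have z1 : z + 1 ∈ S := h2.1.mpr hz
        have z2 : z + I ∈ S := h2.2.mpr hz
        simp [hg, hz, z1, z2]
      · have z1 : z + 1 ∉ S := fun h => hz (h2.1.mp h)
        have z2 : z + I ∉ S := fun h => hz (h2.2.mp h)
        simp only [hg]
        rw [indicator_of_mem (show z + 1 ∈ Sᶜ from z1), indicator_of_mem (show z + I ∈ Sᶜ from z2),
          indicator_of_mem (show z ∈ Sᶜ from hz), h1.1, h1.2]
        exact ⟨rfl, rfl⟩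
    have mg : Measurable g := cg.measurable.indicator hS.meas.compl
    have g0 : ∀ z, 0 ≤ g z := fun z => indicator_nonneg (fun z _ => by positivity) z
    have bg : ∃ B, ∀ z, ‖g z‖ ≤ B := by
      obtain ⟨B, -, hB⟩ := bounded_of_per cg pg0
      exact ⟨B, fun z => (norm_indicator_le_norm_self _ z).trans (hB z)⟩
    have hch := change_le (X := X) hF.sX hM htM hM0 hF.pX pg mg bg g0
    have hgi : ∫ z in cell, g z = ∫ z in cell \ S, ((a + hf φ z) ^ 2 + ‖b + hh φ z‖ ^ 2) := by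
      rw [hg, setIntegral_indicator hS.meas.compl, diff_eq]
    have hms : MeasurableSet (cell \ S') := measurableSet_cell.diff hS'.meas
    have icomp : IntegrableOn (fun z => g (z + t • X z)) cell volume := by
      obtain ⟨B, hB⟩ := bg
      refine Measure.integrableOn_of_bounded (M := B) hfin
        (mg.comp (continuous_id.add (hF.sX.continuous.const_smul t)).measurable).aestronglyMeasurable ?_
      exact Filter.Eventually.of_forall fun z => hB _
    calc ∫ z in cell \ S', ((a + hf (phi' κ X N1 N2 a b φ t) z) ^ 2 +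
          ‖b + hh (phi' κ X N1 N2 a b φ t) z‖ ^ 2)
        ≤ ∫ z in cell \ S', (1 + Mκ) ^ 4 * g (z + t • X z) := by
          refine integral_mono_of_nonneg (Filter.Eventually.of_forall fun z => by
            simp only [Pi.zero_apply]; positivity)
            ((icomp.mono_set diff_subset).const_mul _) ?_
          rw [Filter.EventuallyLE, ae_restrict_iff' hms]
          filter_upwards [hvoid] with z hz hzm
          obtain ⟨q1, q2⟩ := hz hzm.2
          have := pointwise_void hF (fun z => by simpa using hMκ z) t ht1 a b φ hφ.1 z q2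
          simp only [hg]
          rw [indicator_of_mem (show z + t • X z ∈ Sᶜ from q1)]
          exact this
      _ = (1 + Mκ) ^ 4 * ∫ z in cell \ S', g (z + t • X z) := by rw [integral_const_mul]
      _ ≤ (1 + Mκ) ^ 4 * ∫ z in cell, g (z + t • X z) := by
          refine mul_le_mul_of_nonneg_left ?_ (by positivity)
          exact setIntegral_mono_set icomp (Filter.Eventually.of_forall fun z => g0 _)
            (Filter.Eventually.of_forall fun z hz => hz.1)
      _ ≤ (1 + Mκ) ^ 4 * ((1 + 4 * (|t| * M)) * ε') := by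
          refine mul_le_mul_of_nonneg_left (hch.trans ?_) (by positivity)
          rw [hgi]
          exact mul_le_mul_of_nonneg_left hverr (by positivity)
      _ ≤ (1 + Mκ) ^ 4 * (2 * ε') := by
          gcongr
          linarith
      _ = K * ε' := by rw [hK]; ring
      _ ≤ ε := by
          rw [hε', mul_div_assoc', div_le_iff₀ (by positivity)]
          have h1 : 0 ≤ (1 + C) * (1 + 1 / δ) := by positivity
          nlinarith [mul_nonneg hε.le h1, mul_nonneg hε.le hC30, mul_nonneg hε.le hK0]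
  · -- energy
    set G : ℂ → ℝ := fun w => (1 + |t|) * ‖b + hh φ w‖ ^ 2 + |t| * (C₁ * ((a + hf φ w) ^ 2 +
          ‖b + hh φ w‖ ^ 2 + a ^ 2 + ‖b‖ ^ 2 + (fderiv ℝ φ w 1) ^ 2 +
          (fderiv ℝ φ w I) ^ 2)) with hG
    have c1' := cd 1
    have cI' := cd I
    have cG : Continuous G := by
      have e1 := cη.norm.pow 2
      have e2 := cα.pow 2
      have e3 := c1'.pow 2
      have e4 := cI'.pow 2
      exact (continuous_const.mul e1).add (continuous_const.mul (continuous_const.mul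
        (((((e2.add e1).add continuous_const).add continuous_const).add e3).add e4)))
    have pG : Per G := by
      intro z
      have h1 := pα z
      have h2 := pη z
      have h3 := pd 1 z
      have h4 := pd I z
      simp only at h1 h2 h3 h4
      simp only [hG]
      rw [h1.1, h1.2, h2.1, h2.2, h3.1, h3.2, h4.1, h4.2]
      exact ⟨rfl, rfl⟩
    have G0 : ∀ z, 0 ≤ G z := fun z => by simp only [hG]; positivity
    obtain ⟨BG, -, hBG⟩ := bounded_of_per cG pG
    have hch := change_le (X := X) hF.sX hM htM hM0 hF.pX pG cG.measurable ⟨BG, hBG⟩ G0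
    have iGc : IntegrableOn (fun z => G (z + t • X z)) cell volume :=
      int_cell (cG.comp (continuous_id.add (hF.sX.continuous.const_smul t)))
    set Q := ∫ z in cell, (a + hf φ z) ^ 2 with hQ
    set Gr := ∫ z in cell, ((fderiv ℝ φ z 1) ^ 2 + (fderiv ℝ φ z I) ^ 2) with hGr
    have hIG : ∫ z in cell, G z = (1 + |t|) * P + |t| * (C₁ * (Q + P + (a ^ 2 + ‖b‖ ^ 2) + Gr)) := by
      have i_d : IntegrableOn (fun z => (fderiv ℝ φ z 1) ^ 2 + (fderiv ℝ φ z I) ^ 2) cell volume :=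
        int_cell ((c1'.pow 2).add (cI'.pow 2))
      have i_c : IntegrableOn (fun _ : ℂ => a ^ 2 + ‖b‖ ^ 2) cell volume := int_cell continuous_const
      have e : G = fun w => (1 + |t|) * ‖b + hh φ w‖ ^ 2 + |t| * (C₁ * ((((a + hf φ w) ^ 2 +
          ‖b + hh φ w‖ ^ 2) + (a ^ 2 + ‖b‖ ^ 2)) + ((fderiv ℝ φ w 1) ^ 2 +
          (fderiv ℝ φ w I) ^ 2))) := by
        ext w; simp only [hG]; ring
      have iA : Integrable (fun z => (a + hf φ z) ^ 2 + ‖b + hh φ z‖ ^ 2) (volume.restrict cell) :=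
        i_α.add i_η
      have iB : Integrable (fun z => ((a + hf φ z) ^ 2 + ‖b + hh φ z‖ ^ 2) + (a ^ 2 + ‖b‖ ^ 2))
        (volume.restrict cell) := iA.add i_c
      have iC : Integrable (fun z => (((a + hf φ z) ^ 2 + ‖b + hh φ z‖ ^ 2) + (a ^ 2 + ‖b‖ ^ 2)) +
        ((fderiv ℝ φ z 1) ^ 2 + (fderiv ℝ φ z I) ^ 2)) (volume.restrict cell) := iB.add i_d
      rw [e, integral_add (i_η.const_mul _) ((iC.const_mul _).const_mul _), integral_const_mul,
        integral_const_mul, integral_const_mul, integral_add iB i_d, integral_add iA i_c,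
        integral_add i_α i_η, integral_const]
      simp only [Measure.real, Measure.restrict_apply MeasurableSet.univ, univ_inter, volume_cell,
        ENNReal.toReal_one, one_smul]
      rw [← hP, ← hQ, ← hGr]
    have hsum : Q + P + (a ^ 2 + ‖b‖ ^ 2) + Gr ≤ (Cθ + 1) * P + Cθ * ε' := by linarith
    have hGle : ∫ z in cell, G z ≤ (1 + |t|) * P + |t| * (C₁ * ((Cθ + 1) * P + Cθ * ε')) := by
      rw [hIG]; gcongr
    calc ∫ z in cell, ‖b + hh (phi' κ X N1 N2 a b φ t) z‖ ^ 2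
        ≤ ∫ z in cell, G (z + t • X z) := by
          refine integral_mono_of_nonneg (Filter.Eventually.of_forall fun z => sq_nonneg _) iGc ?_
          rw [Filter.EventuallyLE, ae_restrict_iff' measurableSet_cell]
          exact Filter.Eventually.of_forall fun z hz => hpt t ht1 a b φ hφ.1 z hz
      _ ≤ (1 + 4 * (|t| * M)) * ∫ z in cell, G z := hch
      _ ≤ (1 + 4 * (|t| * M)) * ((1 + |t|) * P + |t| * (C₁ * ((Cθ + 1) * P + Cθ * ε'))) :=
          mul_le_mul_of_nonneg_left hGle (by positivity)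
      _ ≤ (1 + C * |t|) * P + C3 * ε' := by
          have t0 : 0 ≤ |t| := abs_nonneg t
          have e1 : (1 + 4 * (|t| * M)) * (1 + |t|) ≤ 1 + (1 + 8 * M) * |t| := by
            have : |t| * |t| ≤ |t| * 1 := mul_le_mul_of_nonneg_left ht1 t0
            nlinarith [mul_nonneg t0 hM0]
          have e2 : 1 + 4 * (|t| * M) ≤ 2 := by linarith
          have a1 : (1 + 4 * (|t| * M)) * ((1 + |t|) * P) ≤ (1 + (1 + 8 * M) * |t|) * P := by
            calc _ = ((1 + 4 * (|t| * M)) * (1 + |t|)) * P := by ring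
              _ ≤ _ := mul_le_mul_of_nonneg_right e1 hP0
          have a2 : (1 + 4 * (|t| * M)) * (|t| * (C₁ * ((Cθ + 1) * P))) ≤
              2 * (|t| * (C₁ * ((Cθ + 1) * P))) :=
            mul_le_mul_of_nonneg_right e2 (by positivity)
          have a3 : (1 + 4 * (|t| * M)) * (|t| * (C₁ * (Cθ * ε'))) ≤
              2 * (1 * (C₁ * (Cθ * ε'))) := by
            have : |t| * (C₁ * (Cθ * ε')) ≤ 1 * (C₁ * (Cθ * ε')) :=
              mul_le_mul_of_nonneg_right ht1 (by positivity)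
            exact mul_le_mul e2 this (by positivity) (by norm_num)
          have e3 : (1 + C * |t|) * P + C3 * ε' = (1 + (1 + 8 * M) * |t|) * P +
              2 * (|t| * (C₁ * ((Cθ + 1) * P))) + 2 * (1 * (C₁ * (Cθ * ε'))) := by
            rw [hC, hC3]; ring
          rw [e3]
          have e4 : (1 + 4 * (|t| * M)) * ((1 + |t|) * P + |t| * (C₁ * ((Cθ + 1) * P + Cθ * ε'))) =
              (1 + 4 * (|t| * M)) * ((1 + |t|) * P) +
              (1 + 4 * (|t| * M)) * (|t| * (C₁ * ((Cθ + 1) * P))) +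
              (1 + 4 * (|t| * M)) * (|t| * (C₁ * (Cθ * ε'))) := by ring
          rw [e4]
          linarith
      _ ≤ (1 + C * |t|) * (E + (δ * E + (1 + 1 / δ) * ε')) + C3 * ε' := by gcongr
      _ ≤ E * (1 + C * |t|) + ε := by
          have s1 : (1 + C * |t|) * (δ * E + (1 + 1 / δ) * ε') ≤ (1 + C) * (δ * E + (1 + 1 / δ) * ε') := by
            have : 1 + C * |t| ≤ 1 + C := by nlinarith
            exact mul_le_mul_of_nonneg_right this (by positivity)
          have s2 : (1 + C) * (δ * E) ≤ ε / 4 := by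
            rw [hδ]
            rw [show (1 + C) * (ε / (4 * ((1 + C) * (E + 1))) * E) = ε / 4 * (E / (E + 1)) by
              field_simp]
            have : E / (E + 1) ≤ 1 := by rw [div_le_one (by linarith)]; linarith
            nlinarith
          have s3 : ((1 + C) * (1 + 1 / δ) + C3) * ε' ≤ ε / 4 := by
            rw [hε', mul_div_assoc', div_le_iff₀ (by positivity)]
            nlinarith [mul_nonneg hε.le hK0]
          nlinarith

end EBC
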