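import Pool.Agent.Work.MP_ebc928_an.Laplace
import Pool.Agent.Work.MP_ebc928_an.WeakDual

open MeasureTheory Complex Set Filter Topology
open scoped ContDiff ComplexConjugate

noncomputable section
namespace EBC

/-- closed square -/
def vsq (R : ℝ) : Set ℂ := {w | w.re ∈ Icc (-R) R ∧ w.im ∈ Icc (-R) R}

theorem vsq_eq (R : ℝ) : vsq R =
    Complex.measurableEquivRealProd ⁻¹' (Icc (-R) R ×ˢ Icc (-R) R) := by
  ext z
  simp [vsq, Complex.measurableEquivRealProd_apply]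
  tauto

theorem vsq_meas (R : ℝ) : MeasurableSet (vsq R) := by
  rw [vsq_eq]
  exact Complex.measurableEquivRealProd.measurable (measurableSet_Icc.prod measurableSet_Icc)

/-- the point `x + i y` -/
def vpt (x y : ℝ) : ℂ := (x : ℂ) + (y : ℂ) * I

theorem vpt_cont : Continuous (fun p : ℝ × ℝ => vpt p.1 p.2) := by
  unfold vpt
  fun_prop

theorem vsq_int_prod (F : ℂ → ℝ) (R : ℝ) : ∫ w in vsq R, F w =
    ∫ p in Icc (-R) R ×ˢ Icc (-R) R, F (vpt p.1 p.2) := by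
  have h := Complex.volume_preserving_equiv_real_prod.setIntegral_preimage_emb
    Complex.measurableEquivRealProd.measurableEmbedding (fun p => F (vpt p.1 p.2))
    (Icc (-R) R ×ˢ Icc (-R) R)
  rw [← h, vsq_eq]
  congr 1
  funext z
  congr 1
  simp [vpt, Complex.measurableEquivRealProd_apply]

theorem vsq_cont_int {F : ℝ × ℝ → ℝ} (hF : Continuous F) (R : ℝ) :
    IntegrableOn F (Icc (-R) R ×ˢ Icc (-R) R) :=
  hF.continuousOn.integrableOn_compact (isCompact_Icc.prod isCompact_Icc)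

theorem vsq_int {F : ℂ → ℝ} (hF : Continuous F) (R : ℝ) : ∫ w in vsq R, F w =
    ∫ x in Icc (-R) R, ∫ y in Icc (-R) R, F (vpt x y) := by
  rw [vsq_int_prod, Measure.volume_eq_prod, setIntegral_prod]
  exact vsq_cont_int (hF.comp vpt_cont) R

theorem vsq_int' {F : ℂ → ℝ} (hF : Continuous F) (R : ℝ) : ∫ w in vsq R, F w =
    ∫ y in Icc (-R) R, ∫ x in Icc (-R) R, F (vpt x y) := by
  rw [vsq_int hF, integral_integral_swap]
  have := vsq_cont_int (hF.comp vpt_cont) R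
  rw [IntegrableOn, Measure.volume_eq_prod, ← Measure.prod_restrict] at this
  exact this

theorem vsq_cs {u : ℝ → ℝ} (hu : Continuous u) {R : ℝ} (hR : 0 < R) :
    (∫ t in Icc (-R) R, |u t|) ^ 2 ≤ 2 * R * ∫ t in Icc (-R) R, u t ^ 2 := by
  set A := ∫ t in Icc (-R) R, |u t| with hA
  have i1 : IntegrableOn (fun t => |u t|) (Icc (-R) R) :=
    hu.abs.continuousOn.integrableOn_compact isCompact_Icc
  have i2 : IntegrableOn (fun t => u t ^ 2) (Icc (-R) R) :=
    (hu.pow 2).continuousOn.integrableOn_compact isCompact_Icc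
  have i3 : IntegrableOn (fun _ : ℝ => (A / (2 * R)) ^ 2) (Icc (-R) R) :=
    continuousOn_const.integrableOn_compact isCompact_Icc
  have h0 : 0 ≤ ∫ t in Icc (-R) R, (|u t| - A / (2 * R)) ^ 2 :=
    integral_nonneg fun t => by positivity
  have e1 : ∀ t, (|u t| - A / (2 * R)) ^ 2 =
      u t ^ 2 - (2 * (A / (2 * R))) * |u t| + (A / (2 * R)) ^ 2 := by
    intro t
    rw [sub_sq, sq_abs]
    ring
  simp only [e1] at h0
  have i4 : IntegrableOn (fun t => (2 * (A / (2 * R))) * |u t|) (Icc (-R) R) := i1.const_mul _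
  have i5 : IntegrableOn (fun t => u t ^ 2 - (2 * (A / (2 * R))) * |u t|) (Icc (-R) R) :=
    i2.sub i4
  rw [integral_add i5 i3, integral_sub i2 i4, integral_const_mul, ← hA] at h0
  simp only [integral_const, MeasurableSet.univ, measureReal_restrict_apply, univ_inter,
    Real.volume_real_Icc, sub_neg_eq_add, smul_eq_mul] at h0
  rw [max_eq_left (by linarith)] at h0
  have e2 : (R + R) * (A / (2 * R)) ^ 2 = A ^ 2 / (2 * R) := by
    field_simp
    ring
  have e3 : 2 * (A / (2 * R)) * A = 2 * (A ^ 2 / (2 * R)) := by ring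
  rw [e2, e3] at h0
  have h1 : A ^ 2 / (2 * R) ≤ ∫ t in Icc (-R) R, u t ^ 2 := by linarith
  rw [div_le_iff₀ (by positivity)] at h1
  linarith

theorem vsq_1d {u u' : ℝ → ℝ} (hd : ∀ t, HasDerivAt u (u' t) t) (hu' : Continuous u') {R : ℝ}
    (hR : 0 < R) {x x' : ℝ} (hx : x ∈ Icc (-R) R) (hx' : x' ∈ Icc (-R) R) :
    (u x - u x') ^ 2 ≤ 2 * R * ∫ t in Icc (-R) R, u' t ^ 2 := by
  have h1 : ∫ t in x'..x, u' t = u x - u x' :=
    intervalIntegral.integral_eq_sub_of_hasDerivAt (fun t _ => hd t) (hu'.intervalIntegrable _ _)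
  have h2 : |u x - u x'| ≤ ∫ t in Icc (-R) R, |u' t| := by
    rw [← h1]
    refine (intervalIntegral.norm_integral_le_integral_norm_uIoc (f := u') (μ := volume)
      (a := x') (b := x)).trans ?_
    apply setIntegral_mono_set
    · exact hu'.abs.continuousOn.integrableOn_compact isCompact_Icc
    · exact Eventually.of_forall fun t => norm_nonneg _
    · apply LE.le.eventuallyLE
      refine uIoc_subset_uIcc.trans ?_
      exact (convex_Icc (-R) R).ordConnected.uIcc_subset hx' hx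
  calc (u x - u x') ^ 2 = |u x - u x'| ^ 2 := (sq_abs _).symm
    _ ≤ (∫ t in Icc (-R) R, |u' t|) ^ 2 := pow_le_pow_left₀ (abs_nonneg _) h2 2
    _ ≤ _ := vsq_cs hu' hR

theorem vpt_hasDerivAt_x (g : ℂ → ℝ) (hg : ContDiff ℝ 1 g) (x y : ℝ) :
    HasDerivAt (fun x => g (vpt x y)) (fderiv ℝ g (vpt x y) 1) x := by
  have h1 : HasDerivAt (fun x : ℝ => vpt x y) 1 x := by
    unfold vpt
    exact (Complex.ofRealCLM.hasDerivAt (x := x)).add_const _
  exact ((hg.differentiable (by simp) _).hasFDerivAt).comp_hasDerivAt x h1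

theorem vpt_hasDerivAt_y (g : ℂ → ℝ) (hg : ContDiff ℝ 1 g) (x y : ℝ) :
    HasDerivAt (fun y => g (vpt x y)) (fderiv ℝ g (vpt x y) I) y := by
  have h1 : HasDerivAt (fun y : ℝ => vpt x y) I y := by
    unfold vpt
    have := ((Complex.ofRealCLM.hasDerivAt (x := y)).mul_const I).const_add (x : ℂ)
    simpa using this
  exact ((hg.differentiable (by simp) _).hasFDerivAt).comp_hasDerivAt y h1

theorem vsq_poincare {g : ℂ → ℝ} (hg : ContDiff ℝ 1 g) {R : ℝ} (hR : 0 < R) :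
    ∃ κ : ℝ, ∫ w in vsq R, (g w - κ) ^ 2 ≤
      8 * R ^ 2 * ((∫ w in vsq R, (fderiv ℝ g w 1) ^ 2) + ∫ w in vsq R, (fderiv ℝ g w I) ^ 2) := by
  have cg : Continuous g := hg.continuous
  have cx : Continuous (fun w => (fderiv ℝ g w 1) ^ 2) :=
    ((hg.continuous_fderiv (by simp)).clm_apply continuous_const).pow 2
  have cy : Continuous (fun w => (fderiv ℝ g w I) ^ 2) :=
    ((hg.continuous_fderiv (by simp)).clm_apply continuous_const).pow 2
  have c1 : ∀ y, Continuous (fun t => fderiv ℝ g (vpt t y) 1) := fun y =>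
    ((hg.continuous_fderiv (by simp)).clm_apply continuous_const).comp
      (vpt_cont.comp (continuous_id.prodMk continuous_const))
  have c2 : ∀ x, Continuous (fun t => fderiv ℝ g (vpt x t) I) := fun x =>
    ((hg.continuous_fderiv (by simp)).clm_apply continuous_const).comp
      (vpt_cont.comp (continuous_const.prodMk continuous_id))
  set A : ℝ → ℝ := fun y => ∫ t in Icc (-R) R, (fderiv ℝ g (vpt t y) 1) ^ 2 with hA
  set B : ℝ → ℝ := fun x => ∫ t in Icc (-R) R, (fderiv ℝ g (vpt x t) I) ^ 2 with hB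
  have iA : IntegrableOn A (Icc (-R) R) := by
    have := vsq_cont_int (cx.comp vpt_cont) R
    rw [IntegrableOn, Measure.volume_eq_prod, ← Measure.prod_restrict] at this
    exact this.integral_prod_right
  have iB : IntegrableOn B (Icc (-R) R) := by
    have := vsq_cont_int (cy.comp vpt_cont) R
    rw [IntegrableOn, Measure.volume_eq_prod, ← Measure.prod_restrict] at this
    exact this.integral_prod_left
  have hAint : ∫ y in Icc (-R) R, A y = ∫ w in vsq R, (fderiv ℝ g w 1) ^ 2 := (vsq_int' cx R).symm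
  have hBint : ∫ x in Icc (-R) R, B x = ∫ w in vsq R, (fderiv ℝ g w I) ^ 2 := (vsq_int cy R).symm
  -- good vertical line
  obtain ⟨x₀, hx₀, hB₀⟩ : ∃ x₀ ∈ Icc (-R) R, 2 * R * B x₀ ≤ ∫ w in vsq R, (fderiv ℝ g w I) ^ 2 := by
    have hv : volume (Icc (-R) R) ≠ 0 := by
      rw [Real.volume_Icc]
      simp
      linarith
    have hv2 : volume (Icc (-R) R) ≠ ⊤ := by
      rw [Real.volume_Icc]
      exact ENNReal.ofReal_ne_top
    obtain ⟨x₀, h1, h2⟩ := exists_le_setAverage hv hv2 iB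
    refine ⟨x₀, h1, ?_⟩
    rw [setAverage_eq, hBint] at h2
    simp only [Real.volume_real_Icc, sub_neg_eq_add, smul_eq_mul] at h2
    rw [max_eq_left (by linarith)] at h2
    calc 2 * R * B x₀ ≤ 2 * R * ((R + R)⁻¹ * ∫ w in vsq R, (fderiv ℝ g w I) ^ 2) :=
          mul_le_mul_of_nonneg_left h2 (by positivity)
      _ = _ := by
          field_simp
          ring
  have h0 : (0 : ℝ) ∈ Icc (-R) R := ⟨by linarith, hR.le⟩
  refine ⟨g (vpt x₀ 0), ?_⟩
  have cF : Continuous (fun w => (g w - g (vpt x₀ 0)) ^ 2) := (cg.sub continuous_const).pow 2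
  rw [vsq_int cF]
  have key : ∀ x ∈ Icc (-R) R, ∫ y in Icc (-R) R, (g (vpt x y) - g (vpt x₀ 0)) ^ 2 ≤
      4 * R * (∫ y in Icc (-R) R, A y) + 8 * R ^ 2 * B x₀ := by
    intro x hx
    have hb : ∀ y ∈ Icc (-R) R, (g (vpt x y) - g (vpt x₀ 0)) ^ 2 ≤ 4 * R * A y + 4 * R * B x₀ := by
      intro y hy
      have b1 := vsq_1d (fun t => vpt_hasDerivAt_x g hg t y) (c1 y) hR hx hx₀
      have b2 := vsq_1d (fun t => vpt_hasDerivAt_y g hg x₀ t) (c2 x₀) hR hy h0
      have b3 : (g (vpt x y) - g (vpt x₀ 0)) ^ 2 ≤ 2 * (g (vpt x y) - g (vpt x₀ y)) ^ 2 +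
          2 * (g (vpt x₀ y) - g (vpt x₀ 0)) ^ 2 := by
        nlinarith [sq_nonneg ((g (vpt x y) - g (vpt x₀ y)) - (g (vpt x₀ y) - g (vpt x₀ 0)))]
      simp only [hA, hB]
      linarith
    calc ∫ y in Icc (-R) R, (g (vpt x y) - g (vpt x₀ 0)) ^ 2
        ≤ ∫ y in Icc (-R) R, (4 * R * A y + 4 * R * B x₀) := by
          apply setIntegral_mono_on _ _ measurableSet_Icc hb
          · exact ((cF.comp (vpt_cont.comp (continuous_const.prodMk
              continuous_id))).continuousOn).integrableOn_compact isCompact_Icc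
          · exact (iA.const_mul _).add (continuousOn_const.integrableOn_compact isCompact_Icc)
      _ = 4 * R * (∫ y in Icc (-R) R, A y) + 8 * R ^ 2 * B x₀ := by
          rw [integral_add (iA.const_mul _)
            (continuousOn_const.integrableOn_compact isCompact_Icc), integral_const_mul]
          simp only [integral_const, MeasurableSet.univ, measureReal_restrict_apply, univ_inter,
            Real.volume_real_Icc, sub_neg_eq_add, smul_eq_mul]
          rw [max_eq_left (by linarith)]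
          ring
  calc ∫ x in Icc (-R) R, ∫ y in Icc (-R) R, (g (vpt x y) - g (vpt x₀ 0)) ^ 2
      ≤ ∫ x in Icc (-R) R, (4 * R * (∫ y in Icc (-R) R, A y) + 8 * R ^ 2 * B x₀) := by
        apply setIntegral_mono_on _ _ measurableSet_Icc key
        · have := vsq_cont_int (cF.comp vpt_cont) R
          rw [IntegrableOn, Measure.volume_eq_prod, ← Measure.prod_restrict] at this
          exact this.integral_prod_left
        · exact continuousOn_const.integrableOn_compact isCompact_Icc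
    _ = (R + R) * (4 * R * (∫ y in Icc (-R) R, A y) + 8 * R ^ 2 * B x₀) := by
        simp only [integral_const, MeasurableSet.univ, measureReal_restrict_apply, univ_inter,
            Real.volume_real_Icc, sub_neg_eq_add, smul_eq_mul]
        rw [max_eq_left (by linarith)]
    _ = 8 * R ^ 2 * (∫ y in Icc (-R) R, A y) + 8 * R ^ 2 * (2 * R * B x₀) := by ring
    _ ≤ _ := by
        rw [hAint, mul_add]
        have := mul_le_mul_of_nonneg_left hB₀ (show 0 ≤ 8 * R ^ 2 by positivity)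
        linarith


/-! second derivatives -/

theorem van_fderiv_contDiff {F : ℂ → ℝ} (hF : ContDiff ℝ ∞ F) : ContDiff ℝ ∞ (fderiv ℝ F) :=
  hF.fderiv_right (by simp)

theorem van_fderiv_apply {F : ℂ → ℝ} (hF : ContDiff ℝ ∞ F) (b : ℂ) :
    ContDiff ℝ ∞ (fun z => fderiv ℝ F z b) :=
  (van_fderiv_contDiff hF).clm_apply contDiff_const

theorem van_D2_eq {F : ℂ → ℝ} (hF : ContDiff ℝ ∞ F) (z a b : ℂ) :
    D2 F z a b = fderiv ℝ (fun z => fderiv ℝ F z b) z a := by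
  have hd : HasFDerivAt (fderiv ℝ F) (fderiv ℝ (fderiv ℝ F) z) z :=
    ((van_fderiv_contDiff hF).differentiable (by simp) z).hasFDerivAt
  rw [(hd.clm_apply (hasFDerivAt_const b z)).fderiv]
  simp [D2]

theorem van_D2_symm {F : ℂ → ℝ} (hF : ContDiff ℝ ∞ F) (z a b : ℂ) :
    D2 F z a b = D2 F z b a := by
  have h : IsSymmSndFDerivAt ℝ F z := (hF.contDiffAt).isSymmSndFDerivAt (by simp; norm_cast)
  exact h.eq a b

/-- squared Hessian -/
def vhess (F : ℂ → ℝ) (z : ℂ) : ℝ := (D2 F z 1 1) ^ 2 + 2 * (D2 F z 1 I) ^ 2 + (D2 F z I I) ^ 2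

theorem vhess_cont {F : ℂ → ℝ} (hF : ContDiff ℝ ∞ F) : Continuous (vhess F) := by
  unfold vhess
  exact (((wd_cont_D2 hF 1 1).pow 2).add (((wd_cont_D2 hF 1 I).pow 2).const_mul 2)).add
    ((wd_cont_D2 hF I I).pow 2)

theorem vhess_nonneg (F : ℂ → ℝ) (z : ℂ) : 0 ≤ vhess F z := by
  unfold vhess
  positivity

theorem vhess_eq (F : ℂ → ℝ) (z : ℂ) : vhess F z = 2 * ((hf F z) ^ 2 + ‖hh F z‖ ^ 2) := by
  unfold hh hf vhess
  rw [← Complex.normSq_eq_norm_sq, Complex.normSq_add_mul_I]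
  ring

/-- affine functions -/
def vaffn (p : ℝ × ℝ × ℝ) (w : ℂ) : ℝ := p.1 + p.2.1 * w.re + p.2.2 * w.im

theorem vaffn_hasFDerivAt (p : ℝ × ℝ × ℝ) (w : ℂ) :
    HasFDerivAt (vaffn p) (p.2.1 • reCLM + p.2.2 • imCLM) w := by
  have h1 : HasFDerivAt (fun w : ℂ => p.2.1 * w.re) (p.2.1 • reCLM) w :=
    (reCLM.hasFDerivAt (x := w)).const_mul p.2.1
  have h2 : HasFDerivAt (fun w : ℂ => p.2.2 * w.im) (p.2.2 • imCLM) w :=
    (imCLM.hasFDerivAt (x := w)).const_mul p.2.2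
  exact (h1.const_add p.1).add h2

theorem vaffn_smooth (p : ℝ × ℝ × ℝ) : ContDiff ℝ ∞ (vaffn p) := by
  unfold vaffn
  exact (contDiff_const.add (contDiff_const.mul reCLM.contDiff)).add
    (contDiff_const.mul imCLM.contDiff)

theorem vaffn_fderiv (p : ℝ × ℝ × ℝ) (w : ℂ) :
    fderiv ℝ (vaffn p) w = p.2.1 • reCLM + p.2.2 • imCLM := (vaffn_hasFDerivAt p w).fderiv

theorem van_sub_fderiv {G : ℂ → ℝ} (hG : ContDiff ℝ ∞ G) (p : ℝ × ℝ × ℝ) (w : ℂ) :
    fderiv ℝ (fun w => G w - vaffn p w) w 1 = fderiv ℝ G w 1 - p.2.1 ∧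
    fderiv ℝ (fun w => G w - vaffn p w) w I = fderiv ℝ G w I - p.2.2 := by
  have h1 : HasFDerivAt (fun w => G w - vaffn p w)
      (fderiv ℝ G w - (p.2.1 • reCLM + p.2.2 • imCLM)) w :=
    ((hG.differentiable (by simp) w).hasFDerivAt).sub (vaffn_hasFDerivAt p w)
  rw [h1.fderiv]
  simp

theorem van_sub_D2 {G : ℂ → ℝ} (hG : ContDiff ℝ ∞ G) (p : ℝ × ℝ × ℝ) (w a b : ℂ) :
    D2 (fun w => G w - vaffn p w) w a b = D2 G w a b := by
  have h1 : fderiv ℝ (fun w => G w - vaffn p w) =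
      fun w => fderiv ℝ G w - (p.2.1 • reCLM + p.2.2 • imCLM) := by
    funext w
    exact (((hG.differentiable (by simp) w).hasFDerivAt).sub (vaffn_hasFDerivAt p w)).fderiv
  unfold D2
  rw [h1, fderiv_sub_const]

theorem van_affine {G : ℂ → ℝ} (hG : ContDiff ℝ ∞ G) {R : ℝ} (hR : 0 < R) :
    ∃ p : ℝ × ℝ × ℝ,
      ∫ w in vsq R, (G w - vaffn p w) ^ 2 ≤ 64 * R ^ 4 * ∫ w in vsq R, vhess G w ∧
      (∫ w in vsq R, (fderiv ℝ (fun w => G w - vaffn p w) w 1) ^ 2) +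
        (∫ w in vsq R, (fderiv ℝ (fun w => G w - vaffn p w) w I) ^ 2) ≤
        8 * R ^ 2 * ∫ w in vsq R, vhess G w := by
  have s1 : ContDiff ℝ 1 (fun z => fderiv ℝ G z 1) := (van_fderiv_apply hG 1).of_le (by norm_cast)
  have s2 : ContDiff ℝ 1 (fun z => fderiv ℝ G z I) := (van_fderiv_apply hG I).of_le (by norm_cast)
  obtain ⟨p1, hp1⟩ := vsq_poincare s1 hR
  obtain ⟨p2, hp2⟩ := vsq_poincare s2 hR
  simp only [← van_D2_eq hG] at hp1 hp2
  set q : ℝ × ℝ × ℝ := (0, p1, p2) with hq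
  have s3 : ContDiff ℝ 1 (fun w => G w - vaffn q w) := (hG.sub (vaffn_smooth q)).of_le (by norm_cast)
  obtain ⟨p0, hp0⟩ := vsq_poincare s3 hR
  have e0 : ∀ w, G w - vaffn q w - p0 = G w - vaffn (p0, p1, p2) w := by
    intro w
    simp only [hq, vaffn]
    ring
  simp only [e0] at hp0
  have e1 : ∀ w, fderiv ℝ (fun w => G w - vaffn q w) w 1 = fderiv ℝ G w 1 - p1 :=
    fun w => (van_sub_fderiv hG q w).1
  have e2 : ∀ w, fderiv ℝ (fun w => G w - vaffn q w) w I = fderiv ℝ G w I - p2 :=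
    fun w => (van_sub_fderiv hG q w).2
  simp only [e1, e2] at hp0
  have e3 : ∀ w, fderiv ℝ (fun w => G w - vaffn (p0, p1, p2) w) w 1 = fderiv ℝ G w 1 - p1 :=
    fun w => (van_sub_fderiv hG (p0, p1, p2) w).1
  have e4 : ∀ w, fderiv ℝ (fun w => G w - vaffn (p0, p1, p2) w) w I = fderiv ℝ G w I - p2 :=
    fun w => (van_sub_fderiv hG (p0, p1, p2) w).2
  have iD : ∀ a b, IntegrableOn (fun w => D2 G w a b ^ 2) (vsq R) := by
    intro a b
    apply ((wd_cont_D2 hG a b).pow 2).continuousOn.integrableOn_compact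
    have : vsq R = Complex.equivRealProdCLM.toHomeomorph ⁻¹' (Icc (-R) R ×ˢ Icc (-R) R) := by
      ext z
      simp [vsq]
      tauto
    rw [this]
    exact (Homeomorph.isCompact_preimage _).2 (isCompact_Icc.prod isCompact_Icc)
  have hsum : ∫ w in vsq R, vhess G w = (∫ w in vsq R, D2 G w 1 1 ^ 2) +
      2 * (∫ w in vsq R, D2 G w 1 I ^ 2) + ∫ w in vsq R, D2 G w I I ^ 2 := by
    unfold vhess
    have j1 : IntegrableOn (fun w => 2 * D2 G w 1 I ^ 2) (vsq R) := (iD 1 I).const_mul 2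
    have j2 : IntegrableOn (fun w => D2 G w 1 1 ^ 2 + 2 * D2 G w 1 I ^ 2) (vsq R) :=
      (iD 1 1).add j1
    rw [integral_add j2 (iD I I), integral_add (iD 1 1) j1, integral_const_mul]
  have hsym : ∫ w in vsq R, D2 G w I 1 ^ 2 = ∫ w in vsq R, D2 G w 1 I ^ 2 := by
    congr 1
    funext w
    rw [van_D2_symm hG w I 1]
  rw [hsym] at hp1
  have hgrad : (∫ w in vsq R, (fderiv ℝ G w 1 - p1) ^ 2) +
      (∫ w in vsq R, (fderiv ℝ G w I - p2) ^ 2) ≤ 8 * R ^ 2 * ∫ w in vsq R, vhess G w := by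
    rw [hsum]
    linarith
  refine ⟨(p0, p1, p2), ?_, ?_⟩
  · refine hp0.trans ?_
    calc 8 * R ^ 2 * ((∫ w in vsq R, (fderiv ℝ G w 1 - p1) ^ 2) +
        (∫ w in vsq R, (fderiv ℝ G w I - p2) ^ 2))
        ≤ 8 * R ^ 2 * (8 * R ^ 2 * ∫ w in vsq R, vhess G w) :=
          mul_le_mul_of_nonneg_left hgrad (by positivity)
      _ = _ := by ring
  · simp only [e3, e4]
    exact hgrad


/-! cutoff -/

/-- a smooth bump, `1` near the closed unit ball, supported in the ball of radius `2` -/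
def vchi : ContDiffBump (0 : ℂ) := ⟨3 / 2, 2, by norm_num, by norm_num⟩

theorem vchi_smooth : ContDiff ℝ ∞ (vchi : ℂ → ℝ) := vchi.contDiff

/-- rescaled cutoff -/
def veta (s : ℝ) (w : ℂ) : ℝ := vchi (s⁻¹ • w)

theorem veta_smooth (s : ℝ) : ContDiff ℝ ∞ (veta s) :=
  vchi_smooth.comp (contDiff_const_smul s⁻¹)

theorem veta_fderiv (s : ℝ) (w a : ℂ) :
    fderiv ℝ (veta s) w a = s⁻¹ * fderiv ℝ (vchi : ℂ → ℝ) (s⁻¹ • w) a := by
  have h1 : HasFDerivAt (fun w : ℂ => s⁻¹ • w) (s⁻¹ • ContinuousLinearMap.id ℝ ℂ) w :=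
    (hasFDerivAt_id w).const_smul s⁻¹
  have h2 := ((vchi_smooth.differentiable (by simp) (s⁻¹ • w)).hasFDerivAt).comp w h1
  have h3 : fderiv ℝ (veta s) w = (fderiv ℝ (vchi : ℂ → ℝ) (s⁻¹ • w)).comp
      (s⁻¹ • ContinuousLinearMap.id ℝ ℂ) := h2.fderiv
  rw [h3]
  simp

theorem veta_D2 (s : ℝ) (w a b : ℂ) :
    D2 (veta s) w a b = s⁻¹ ^ 2 * D2 (vchi : ℂ → ℝ) (s⁻¹ • w) a b := by
  rw [van_D2_eq (veta_smooth s), van_D2_eq vchi_smooth]
  have h0 : (fun z => fderiv ℝ (veta s) z b) =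
      fun z => s⁻¹ * fderiv ℝ (vchi : ℂ → ℝ) (s⁻¹ • z) b := funext fun z => veta_fderiv s z b
  rw [h0]
  have h1 : HasFDerivAt (fun w : ℂ => s⁻¹ • w) (s⁻¹ • ContinuousLinearMap.id ℝ ℂ) w :=
    (hasFDerivAt_id w).const_smul s⁻¹
  have h2 := (((van_fderiv_apply vchi_smooth b).differentiable (by simp)
    (s⁻¹ • w)).hasFDerivAt).comp w h1
  have h3 := (h2.const_mul s⁻¹).fderiv
  simp only [Function.comp_def] at h3
  rw [h3]
  simp
  ring

theorem van_bound1 {F : ℂ → ℝ} (hF : ContDiff ℝ ∞ F) (hc : HasCompactSupport F) (a : ℂ) :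
    ∃ C : ℝ, ∀ w, |fderiv ℝ F w a| ≤ C :=
  (hc.fderiv_apply ℝ a).exists_bound_of_continuous (van_fderiv_apply hF a).continuous

theorem van_bound2 {F : ℂ → ℝ} (hF : ContDiff ℝ ∞ F) (hc : HasCompactSupport F) (a b : ℂ) :
    ∃ C : ℝ, ∀ w, |D2 F w a b| ≤ C := by
  obtain ⟨C, hC⟩ := van_bound1 (van_fderiv_apply hF b) (hc.fderiv_apply ℝ b) a
  refine ⟨C, fun w => ?_⟩
  rw [van_D2_eq hF]
  exact hC w

theorem vchi_bound : ∃ C : ℝ, 1 ≤ C ∧ (∀ w, |vchi w| ≤ 1) ∧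
    (∀ w a : ℂ, (a = 1 ∨ a = I) → |fderiv ℝ (vchi : ℂ → ℝ) w a| ≤ C) ∧
    (∀ w a b : ℂ, (a = 1 ∨ a = I) → (b = 1 ∨ b = I) → |D2 (vchi : ℂ → ℝ) w a b| ≤ C) := by
  have hc := vchi.hasCompactSupport
  obtain ⟨C1, h1⟩ := van_bound1 vchi_smooth hc 1
  obtain ⟨C2, h2⟩ := van_bound1 vchi_smooth hc I
  obtain ⟨C3, h3⟩ := van_bound2 vchi_smooth hc 1 1
  obtain ⟨C4, h4⟩ := van_bound2 vchi_smooth hc 1 I
  obtain ⟨C5, h5⟩ := van_bound2 vchi_smooth hc I 1
  obtain ⟨C6, h6⟩ := van_bound2 vchi_smooth hc I I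
  have p1 := (abs_nonneg _).trans (h1 0)
  have p2 := (abs_nonneg _).trans (h2 0)
  have p3 := (abs_nonneg _).trans (h3 0)
  have p4 := (abs_nonneg _).trans (h4 0)
  have p5 := (abs_nonneg _).trans (h5 0)
  have p6 := (abs_nonneg _).trans (h6 0)
  refine ⟨1 + C1 + C2 + C3 + C4 + C5 + C6, by linarith, ?_, ?_, ?_⟩
  · intro w
    rw [abs_of_nonneg vchi.nonneg]
    exact vchi.le_one
  · rintro w a (rfl | rfl)
    · linarith [h1 w]
    · linarith [h2 w]
  · rintro w a b (rfl | rfl) (rfl | rfl)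
    · linarith [h3 w]
    · linarith [h4 w]
    · linarith [h5 w]
    · linarith [h6 w]

theorem van_mul_D2 {η P : ℂ → ℝ} (hη : ContDiff ℝ ∞ η) (hP : ContDiff ℝ ∞ P) (w a b : ℂ) :
    D2 (fun w => η w * P w) w a b = η w * D2 P w a b + fderiv ℝ η w a * fderiv ℝ P w b +
      fderiv ℝ η w b * fderiv ℝ P w a + D2 η w a b * P w := by
  rw [van_D2_eq (hη.mul hP), van_D2_eq hη, van_D2_eq hP]
  have h0 : (fun z => fderiv ℝ (fun w => η w * P w) z b) =
      fun z => η z * fderiv ℝ P z b + P z * fderiv ℝ η z b := by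
    funext z
    have h1 := (((hη.differentiable (by simp) z).hasFDerivAt).mul
      ((hP.differentiable (by simp) z).hasFDerivAt)).fderiv
    have h2 : fderiv ℝ (fun w => η w * P w) z = η z • fderiv ℝ P z + P z • fderiv ℝ η z := h1
    rw [h2]
    simp
  rw [h0]
  have d1 := ((hη.differentiable (by simp) w).hasFDerivAt).mul
    (((van_fderiv_apply hP b).differentiable (by simp) w).hasFDerivAt)
  have d2 := ((hP.differentiable (by simp) w).hasFDerivAt).mul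
    (((van_fderiv_apply hη b).differentiable (by simp) w).hasFDerivAt)
  have d3 := (d1.add d2).fderiv
  have d4 : fderiv ℝ (fun z => η z * fderiv ℝ P z b + P z * fderiv ℝ η z b) w =
      (η w • fderiv ℝ (fun z => fderiv ℝ P z b) w + fderiv ℝ P w b • fderiv ℝ η w) +
      (P w • fderiv ℝ (fun z => fderiv ℝ η z b) w + fderiv ℝ η w b • fderiv ℝ P w) := d3
  rw [d4]
  simp
  ring

theorem van_sq4 {x y z t X Y Z T : ℝ} (hx : |x| ≤ X) (hy : |y| ≤ Y) (hz : |z| ≤ Z) (ht : |t| ≤ T) :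
    (x + y + z + t) ^ 2 ≤ 4 * (X ^ 2 + Y ^ 2 + Z ^ 2 + T ^ 2) := by
  have h1 : x ^ 2 ≤ X ^ 2 := by
    rw [← sq_abs x]; exact pow_le_pow_left₀ (abs_nonneg _) hx 2
  have h2 : y ^ 2 ≤ Y ^ 2 := by
    rw [← sq_abs y]; exact pow_le_pow_left₀ (abs_nonneg _) hy 2
  have h3 : z ^ 2 ≤ Z ^ 2 := by
    rw [← sq_abs z]; exact pow_le_pow_left₀ (abs_nonneg _) hz 2
  have h4 : t ^ 2 ≤ T ^ 2 := by
    rw [← sq_abs t]; exact pow_le_pow_left₀ (abs_nonneg _) ht 2
  nlinarith [sq_nonneg (x - y), sq_nonneg (x - z), sq_nonneg (x - t), sq_nonneg (y - z),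
    sq_nonneg (y - t), sq_nonneg (z - t)]

theorem vsq_compact (R : ℝ) : IsCompact (vsq R) := by
  have : vsq R = Complex.equivRealProdCLM.toHomeomorph ⁻¹' (Icc (-R) R ×ˢ Icc (-R) R) := by
    ext z
    simp [vsq]
    tauto
  rw [this]
  exact (Homeomorph.isCompact_preimage _).2 (isCompact_Icc.prod isCompact_Icc)

theorem van_cut : ∃ K : ℝ, 0 < K ∧ ∀ s : ℝ, 0 < s → ∀ G : ℂ → ℝ, ContDiff ℝ ∞ G →
    ∃ p : ℝ × ℝ × ℝ, ∫ w in vsq (2 * s), vhess (fun w => veta s w * (G w - vaffn p w)) w ≤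
      K * ∫ w in vsq (2 * s), vhess G w := by
  obtain ⟨C, hC1, hCa, hCb, hCc⟩ := vchi_bound
  refine ⟨20000 * C ^ 2, by positivity, fun s hs G hG => ?_⟩
  obtain ⟨p, hp1, hp2⟩ := van_affine hG (R := 2 * s) (by positivity)
  refine ⟨p, ?_⟩
  set P : ℂ → ℝ := fun w => G w - vaffn p w with hP
  have sP : ContDiff ℝ ∞ P := hG.sub (vaffn_smooth p)
  have hPD : ∀ w a b, D2 P w a b = D2 G w a b := fun w a b => van_sub_D2 hG p w a b
  have hs0 : 0 < s⁻¹ := inv_pos.2 hs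
  have e1 : ∀ w a : ℂ, (a = 1 ∨ a = I) → |fderiv ℝ (veta s) w a| ≤ s⁻¹ * C := by
    intro w a ha
    rw [veta_fderiv, abs_mul, abs_of_pos hs0]
    exact mul_le_mul_of_nonneg_left (hCb _ a ha) hs0.le
  have e2 : ∀ w a b : ℂ, (a = 1 ∨ a = I) → (b = 1 ∨ b = I) →
      |D2 (veta s) w a b| ≤ s⁻¹ ^ 2 * C := by
    intro w a b ha hb
    rw [veta_D2, abs_mul, abs_of_pos (pow_pos hs0 2)]
    exact mul_le_mul_of_nonneg_left (hCc _ a b ha hb) (pow_pos hs0 2).le
  have e3 : ∀ w, |veta s w| ≤ 1 := fun w => hCa _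
  have ptw : ∀ w a b : ℂ, (a = 1 ∨ a = I) → (b = 1 ∨ b = I) →
      (D2 (fun w => veta s w * P w) w a b) ^ 2 ≤
      4 * (|D2 G w a b| ^ 2 + (s⁻¹ * C * |fderiv ℝ P w b|) ^ 2 +
        (s⁻¹ * C * |fderiv ℝ P w a|) ^ 2 + (s⁻¹ ^ 2 * C * |P w|) ^ 2) := by
    intro w a b ha hb
    rw [van_mul_D2 (veta_smooth s) sP, hPD]
    apply van_sq4
    · rw [abs_mul]
      exact mul_le_of_le_one_left (abs_nonneg _) (e3 w)
    · rw [abs_mul]
      exact mul_le_mul_of_nonneg_right (e1 w a ha) (abs_nonneg _)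
    · rw [abs_mul]
      exact mul_le_mul_of_nonneg_right (e1 w b hb) (abs_nonneg _)
    · rw [abs_mul]
      exact mul_le_mul_of_nonneg_right (e2 w a b ha hb) (abs_nonneg _)
  have m1 : (1 : ℂ) = 1 ∨ (1 : ℂ) = I := Or.inl rfl
  have mI : (I : ℂ) = 1 ∨ (I : ℂ) = I := Or.inr rfl
  have ptw2 : ∀ w, vhess (fun w => veta s w * P w) w ≤ 4 * vhess G w +
      16 * C ^ 2 * s⁻¹ ^ 2 * ((fderiv ℝ P w 1) ^ 2 + (fderiv ℝ P w I) ^ 2) +
      16 * C ^ 2 * s⁻¹ ^ 4 * (P w) ^ 2 := by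
    intro w
    have a1 := ptw w 1 1 m1 m1
    have a2 := ptw w 1 I m1 mI
    have a3 := ptw w I I mI mI
    simp only [mul_pow, sq_abs] at a1 a2 a3
    unfold vhess
    nlinarith
  have cf : ∀ a, Continuous (fun w => (fderiv ℝ P w a) ^ 2) := fun a =>
    (van_fderiv_apply sP a).continuous.pow 2
  have ion : ∀ {F : ℂ → ℝ}, Continuous F → IntegrableOn F (vsq (2 * s)) := fun hF =>
    hF.continuousOn.integrableOn_compact (vsq_compact _)
  have j1 : IntegrableOn (fun w => 4 * vhess G w) (vsq (2 * s)) := (ion (vhess_cont hG)).const_mul 4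
  have j2 : IntegrableOn (fun w => (fderiv ℝ P w 1) ^ 2 + (fderiv ℝ P w I) ^ 2) (vsq (2 * s)) :=
    (ion (cf 1)).add (ion (cf I))
  have j3 : IntegrableOn (fun w => 16 * C ^ 2 * s⁻¹ ^ 2 *
      ((fderiv ℝ P w 1) ^ 2 + (fderiv ℝ P w I) ^ 2)) (vsq (2 * s)) := j2.const_mul _
  have j4 : IntegrableOn (fun w => 16 * C ^ 2 * s⁻¹ ^ 4 * (P w) ^ 2) (vsq (2 * s)) :=
    (ion (sP.continuous.pow 2)).const_mul _
  have j5 : IntegrableOn (fun w => 4 * vhess G w + 16 * C ^ 2 * s⁻¹ ^ 2 *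
      ((fderiv ℝ P w 1) ^ 2 + (fderiv ℝ P w I) ^ 2)) (vsq (2 * s)) := j1.add j3
  calc ∫ w in vsq (2 * s), vhess (fun w => veta s w * P w) w
      ≤ ∫ w in vsq (2 * s), (4 * vhess G w +
      16 * C ^ 2 * s⁻¹ ^ 2 * ((fderiv ℝ P w 1) ^ 2 + (fderiv ℝ P w I) ^ 2) +
      16 * C ^ 2 * s⁻¹ ^ 4 * (P w) ^ 2) := by
        apply integral_mono (ion (vhess_cont ((veta_smooth s).mul sP))) (j5.add j4) ptw2
    _ = 4 * (∫ w in vsq (2 * s), vhess G w) + 16 * C ^ 2 * s⁻¹ ^ 2 *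
        ((∫ w in vsq (2 * s), (fderiv ℝ P w 1) ^ 2) + ∫ w in vsq (2 * s), (fderiv ℝ P w I) ^ 2) +
        16 * C ^ 2 * s⁻¹ ^ 4 * ∫ w in vsq (2 * s), (P w) ^ 2 := by
        rw [integral_add j5 j4, integral_add j1 j3, integral_const_mul, integral_const_mul,
          integral_const_mul, integral_add (ion (cf 1)) (ion (cf I))]
    _ ≤ 4 * (∫ w in vsq (2 * s), vhess G w) + 16 * C ^ 2 * s⁻¹ ^ 2 *
        (8 * (2 * s) ^ 2 * ∫ w in vsq (2 * s), vhess G w) +
        16 * C ^ 2 * s⁻¹ ^ 4 * (64 * (2 * s) ^ 4 * ∫ w in vsq (2 * s), vhess G w) := by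
        apply add_le_add (add_le_add le_rfl _)
        · exact mul_le_mul_of_nonneg_left hp1 (by positivity)
        · exact mul_le_mul_of_nonneg_left hp2 (by positivity)
    _ = (4 + 16896 * C ^ 2) * ∫ w in vsq (2 * s), vhess G w := by
        have h1 : s⁻¹ ^ 2 * (2 * s) ^ 2 = 4 := by
          field_simp
          norm_num
        have h2 : s⁻¹ ^ 4 * (2 * s) ^ 4 = 16 := by
          field_simp
          norm_num
        have : 16 * C ^ 2 * s⁻¹ ^ 2 * (8 * (2 * s) ^ 2 * ∫ w in vsq (2 * s), vhess G w) =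
            16 * C ^ 2 * 8 * (s⁻¹ ^ 2 * (2 * s) ^ 2) * ∫ w in vsq (2 * s), vhess G w := by ring
        rw [this, h1]
        have : 16 * C ^ 2 * s⁻¹ ^ 4 * (64 * (2 * s) ^ 4 * ∫ w in vsq (2 * s), vhess G w) =
            16 * C ^ 2 * 64 * (s⁻¹ ^ 4 * (2 * s) ^ 4) * ∫ w in vsq (2 * s), vhess G w := by ring
        rw [this, h2]
        ring
    _ ≤ 20000 * C ^ 2 * ∫ w in vsq (2 * s), vhess G w := by
        apply mul_le_mul_of_nonneg_right _ (integral_nonneg fun w => vhess_nonneg G w)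
        nlinarith


/-! local potential -/

theorem van_add_D2 {F G : ℂ → ℝ} (hF : ContDiff ℝ ∞ F) (hG : ContDiff ℝ ∞ G) (z a b : ℂ) :
    D2 (fun w => F w + G w) z a b = D2 F z a b + D2 G z a b := by
  have h1 : fderiv ℝ (fun w => F w + G w) = fun w => fderiv ℝ F w + fderiv ℝ G w := by
    funext w
    exact fderiv_fun_add (hF.differentiable (by simp) w) (hG.differentiable (by simp) w)
  unfold D2
  rw [h1, fderiv_fun_add ((van_fderiv_contDiff hF).differentiable (by simp) z)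
    ((van_fderiv_contDiff hG).differentiable (by simp) z)]
  rfl

theorem van_subf_D2 {F G : ℂ → ℝ} (hF : ContDiff ℝ ∞ F) (hG : ContDiff ℝ ∞ G) (z a b : ℂ) :
    D2 (fun w => F w - G w) z a b = D2 F z a b - D2 G z a b := by
  have h1 : fderiv ℝ (fun w => F w - G w) = fun w => fderiv ℝ F w - fderiv ℝ G w := by
    funext w
    exact fderiv_fun_sub (hF.differentiable (by simp) w) (hG.differentiable (by simp) w)
  unfold D2
  rw [h1, fderiv_fun_sub ((van_fderiv_contDiff hF).differentiable (by simp) z)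
    ((van_fderiv_contDiff hG).differentiable (by simp) z)]
  rfl

theorem van_shift_D2 (F : ℂ → ℝ) (c z a b : ℂ) :
    D2 (fun w => F (w + c)) z a b = D2 F (z + c) a b := by
  have h1 : fderiv ℝ (fun w => F (w + c)) = fun w => fderiv ℝ F (w + c) := by
    funext w
    exact fderiv_comp_add_right c
  unfold D2
  rw [h1, fderiv_comp_add_right]

theorem van_D2_congr {F G : ℂ → ℝ} {z : ℂ} (h : F =ᶠ[𝓝 z] G) (a b : ℂ) :
    D2 F z a b = D2 G z a b := by
  unfold D2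
  rw [h.fderiv.fderiv_eq]

theorem van_hf_congr {F G : ℂ → ℝ} {z w : ℂ} (h : ∀ a b, D2 F z a b = D2 G w a b) :
    hf F z = hf G w ∧ hh F z = hh G w := by
  unfold hf hh
  rw [h, h, h]
  exact ⟨rfl, rfl⟩

/-- quadratic part -/
def vq (a : ℝ) (b : ℂ) (w : ℂ) : ℝ :=
  (a + b.re) / 2 * w.re ^ 2 + (a - b.re) / 2 * w.im ^ 2 + b.im * (w.re * w.im)

theorem vq_smooth (a : ℝ) (b : ℂ) : ContDiff ℝ ∞ (vq a b) := by
  unfold vq
  exact ((contDiff_const.mul (reCLM.contDiff.pow 2)).add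
    (contDiff_const.mul (imCLM.contDiff.pow 2))).add
    (contDiff_const.mul (reCLM.contDiff.mul imCLM.contDiff))

theorem vq_fderiv (a : ℝ) (b : ℂ) (w v : ℂ) : fderiv ℝ (vq a b) w v =
    ((a + b.re) * w.re + b.im * w.im) * v.re + ((a - b.re) * w.im + b.im * w.re) * v.im := by
  have hr : HasFDerivAt (fun w : ℂ => w.re) reCLM w := reCLM.hasFDerivAt
  have hi : HasFDerivAt (fun w : ℂ => w.im) imCLM w := imCLM.hasFDerivAt
  have h1 := (((hr.pow 2).const_mul ((a + b.re) / 2)).add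
    ((hi.pow 2).const_mul ((a - b.re) / 2))).add ((hr.mul hi).const_mul b.im)
  have h2 : fderiv ℝ (vq a b) w = _ := h1.fderiv
  rw [h2]
  simp
  ring

theorem vq_D2 (a : ℝ) (b : ℂ) (w u v : ℂ) : D2 (vq a b) w u v =
    ((a + b.re) * u.re + b.im * u.im) * v.re + ((a - b.re) * u.im + b.im * u.re) * v.im := by
  rw [van_D2_eq (vq_smooth a b)]
  have h0 : (fun z => fderiv ℝ (vq a b) z v) = fun w => ((a + b.re) * w.re + b.im * w.im) * v.re +
      ((a - b.re) * w.im + b.im * w.re) * v.im := funext fun z => vq_fderiv a b z v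
  rw [h0]
  have hr : HasFDerivAt (fun w : ℂ => w.re) reCLM w := reCLM.hasFDerivAt
  have hi : HasFDerivAt (fun w : ℂ => w.im) imCLM w := imCLM.hasFDerivAt
  have h1 := (((hr.const_mul (a + b.re)).add (hi.const_mul b.im)).mul_const v.re).add
    (((hi.const_mul (a - b.re)).add (hr.const_mul b.im)).mul_const v.im)
  have h2 : fderiv ℝ (fun w : ℂ => ((a + b.re) * w.re + b.im * w.im) * v.re +
      ((a - b.re) * w.im + b.im * w.re) * v.im) w = _ := h1.fderiv
  rw [h2]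
  simp
  ring

/-- local potential at the centre `c` -/
def vG (a : ℝ) (b : ℂ) (φ : ℂ → ℝ) (c : ℂ) (w : ℂ) : ℝ := vq a b w + φ (w + c)

theorem vG_smooth {φ : ℂ → ℝ} (hφ : ContDiff ℝ ∞ φ) (a : ℝ) (b c : ℂ) :
    ContDiff ℝ ∞ (vG a b φ c) :=
  (vq_smooth a b).add (hφ.comp (contDiff_id.add contDiff_const))

theorem vG_D2 {φ : ℂ → ℝ} (hφ : ContDiff ℝ ∞ φ) (a : ℝ) (b c w u v : ℂ) :
    D2 (vG a b φ c) w u v = D2 (vq a b) w u v + D2 φ (w + c) u v := by
  rw [← van_shift_D2 φ c]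
  exact van_add_D2 (vq_smooth a b) (hφ.comp (contDiff_id.add contDiff_const)) w u v

theorem vG_hf {φ : ℂ → ℝ} (hφ : ContDiff ℝ ∞ φ) (a : ℝ) (b c w : ℂ) :
    hf (vG a b φ c) w = a + hf φ (w + c) ∧ hh (vG a b φ c) w = b + hh φ (w + c) := by
  constructor
  · unfold hf
    rw [vG_D2 hφ, vG_D2 hφ, vq_D2, vq_D2]
    simp
    ring
  · unfold hh
    rw [vG_D2 hφ, vG_D2 hφ, vG_D2 hφ, vq_D2, vq_D2, vq_D2]
    apply Complex.ext
    · simp
      ring
    · simp

theorem vG_per {φ : ℂ → ℝ} (hp : Per φ) (a : ℝ) (b c : ℂ) :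
    vG a b φ (c + 1) = vG a b φ c ∧ vG a b φ (c + I) = vG a b φ c := by
  constructor
  · funext w
    unfold vG
    rw [← add_assoc, (hp _).1]
  · funext w
    unfold vG
    rw [← add_assoc, (hp _).2]

/-! gluing of local modifications -/

open Classical in
/-- the glued modification -/
def vglue (Z : Set ℂ) (ρ : ℝ) (L : ℂ → ℂ → ℝ) (z : ℂ) : ℝ :=
  if h : ∃ c, c ∈ Z ∧ dist z c < 2 * ρ then L h.choose (z - h.choose) else 0

section glue
variable {Z : Set ℂ} {ρ : ℝ} {L : ℂ → ℂ → ℝ}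

theorem vglue_in (hsep : ∀ c ∈ Z, ∀ c' ∈ Z, c ≠ c' → 4 * ρ ≤ dist c c') {z c : ℂ} (hc : c ∈ Z)
    (hd : dist z c < 2 * ρ) : vglue Z ρ L z = L c (z - c) := by
  have h : ∃ c, c ∈ Z ∧ dist z c < 2 * ρ := ⟨c, hc, hd⟩
  have h2 : h.choose = c := by
    by_contra hne
    have h3 := hsep _ h.choose_spec.1 c hc hne
    have h4 := dist_triangle_left h.choose c z
    linarith [h.choose_spec.2]
  unfold vglue
  rw [dif_pos h, h2]

theorem vglue_out {z : ℂ} (hd : ∀ c ∈ Z, 2 * ρ ≤ dist z c) : vglue Z ρ L z = 0 := by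
  unfold vglue
  rw [dif_neg]
  rintro ⟨c, hc, hlt⟩
  exact absurd hlt (not_lt.2 (hd c hc))

theorem vglue_ev_in (hsep : ∀ c ∈ Z, ∀ c' ∈ Z, c ≠ c' → 4 * ρ ≤ dist c c') {z c : ℂ} (hc : c ∈ Z)
    (hd : dist z c < 2 * ρ) : vglue Z ρ L =ᶠ[𝓝 z] fun z => L c (z - c) := by
  filter_upwards [Metric.isOpen_ball.mem_nhds (Metric.mem_ball.2 hd)] with w hw
  exact vglue_in hsep hc (Metric.mem_ball.1 hw)

theorem vglue_ev_out (hρ : 0 < ρ) (hsep : ∀ c ∈ Z, ∀ c' ∈ Z, c ≠ c' → 4 * ρ ≤ dist c c')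
    (hL : ∀ c w, ρ ≤ ‖w‖ → L c w = 0) {z : ℂ}
    (hd : ∀ c ∈ Z, 2 * ρ ≤ dist z c) : vglue Z ρ L =ᶠ[𝓝 z] fun _ => 0 := by
  filter_upwards [Metric.ball_mem_nhds z hρ] with w hw
  by_cases h : ∃ c, c ∈ Z ∧ dist w c < 2 * ρ
  · obtain ⟨c, hc, hlt⟩ := h
    rw [vglue_in hsep hc hlt]
    apply hL
    rw [← dist_eq_norm]
    have h1 := dist_triangle_left z c w
    have h2 := Metric.mem_ball.1 hw
    linarith [hd c hc]
  · push Not at h
    exact vglue_out h

theorem vglue_smooth (hρ : 0 < ρ) (hsep : ∀ c ∈ Z, ∀ c' ∈ Z, c ≠ c' → 4 * ρ ≤ dist c c')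
    (hL : ∀ c w, ρ ≤ ‖w‖ → L c w = 0) (hs : ∀ c, ContDiff ℝ ∞ (L c)) :
    ContDiff ℝ ∞ (vglue Z ρ L) := by
  rw [contDiff_iff_contDiffAt]
  intro z
  by_cases h : ∃ c, c ∈ Z ∧ dist z c < 2 * ρ
  · obtain ⟨c, hc, hlt⟩ := h
    exact (((hs c).comp (contDiff_id.sub contDiff_const)).contDiffAt).congr_of_eventuallyEq
      (vglue_ev_in hsep hc hlt)
  · push Not at h
    exact contDiffAt_const.congr_of_eventuallyEq (vglue_ev_out hρ hsep hL h)

theorem vglue_D2_in (hsep : ∀ c ∈ Z, ∀ c' ∈ Z, c ≠ c' → 4 * ρ ≤ dist c c') {z c : ℂ} (hc : c ∈ Z)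
    (hd : dist z c < 2 * ρ) (a b : ℂ) : D2 (vglue Z ρ L) z a b = D2 (L c) (z - c) a b := by
  rw [van_D2_congr (vglue_ev_in hsep hc hd)]
  have := van_shift_D2 (L c) (-c) z a b
  simp only [← sub_eq_add_neg] at this
  exact this

theorem van_zero_D2 (z a b : ℂ) : D2 (fun _ : ℂ => (0 : ℝ)) z a b = 0 := by
  unfold D2
  simp

theorem vglue_D2_out (hρ : 0 < ρ) (hsep : ∀ c ∈ Z, ∀ c' ∈ Z, c ≠ c' → 4 * ρ ≤ dist c c')
    (hL : ∀ c w, ρ ≤ ‖w‖ → L c w = 0) {z : ℂ}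
    (hd : ∀ c ∈ Z, 2 * ρ ≤ dist z c) (a b : ℂ) : D2 (vglue Z ρ L) z a b = 0 := by
  rw [van_D2_congr (vglue_ev_out hρ hsep hL hd), van_zero_D2]

theorem vglue_shift (hsep : ∀ c ∈ Z, ∀ c' ∈ Z, c ≠ c' → 4 * ρ ≤ dist c c') {t : ℂ}
    (hZ : ∀ z, z + t ∈ Z ↔ z ∈ Z) (hLp : ∀ c, L (c + t) = L c) (z : ℂ) :
    vglue Z ρ L (z + t) = vglue Z ρ L z := by
  by_cases h : ∃ c, c ∈ Z ∧ dist z c < 2 * ρ
  · obtain ⟨c, hc, hlt⟩ := h
    have h1 : dist (z + t) (c + t) < 2 * ρ := by simpa using hlt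
    rw [vglue_in hsep hc hlt, vglue_in hsep ((hZ c).2 hc) h1, hLp]
    congr 1
    ring
  · push Not at h
    rw [vglue_out h, vglue_out]
    intro c hc
    have h1 : c - t ∈ Z := by
      rw [← hZ]
      simpa using hc
    have h2 := h _ h1
    have h3 : dist (z + t) c = dist z (c - t) := by
      rw [dist_eq_norm, dist_eq_norm]
      congr 1
      ring
    rw [h3]
    exact h2

end glue


open Classical in
/-- chosen affine correction -/
def vaff (K s : ℝ) (G : ℂ → ℝ) : ℝ × ℝ × ℝ :=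
  if h : ∃ p : ℝ × ℝ × ℝ, ∫ w in vsq (2 * s), vhess (fun w => veta s w * (G w - vaffn p w)) w ≤
      K * ∫ w in vsq (2 * s), vhess G w then h.choose else 0

/-- local modification -/
def vL (K s : ℝ) (G : ℂ → ℝ) (w : ℂ) : ℝ := veta s w * (G w - vaffn (vaff K s G) w)

theorem vL_smooth (K s : ℝ) {G : ℂ → ℝ} (hG : ContDiff ℝ ∞ G) : ContDiff ℝ ∞ (vL K s G) :=
  (veta_smooth s).mul (hG.sub (vaffn_smooth _))

theorem vL_bound {K : ℝ} (hK : ∀ s : ℝ, 0 < s → ∀ G : ℂ → ℝ, ContDiff ℝ ∞ G →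
    ∃ p : ℝ × ℝ × ℝ, ∫ w in vsq (2 * s), vhess (fun w => veta s w * (G w - vaffn p w)) w ≤
      K * ∫ w in vsq (2 * s), vhess G w) {s : ℝ} (hs : 0 < s) {G : ℂ → ℝ}
    (hG : ContDiff ℝ ∞ G) : ∫ w in vsq (2 * s), vhess (vL K s G) w ≤
      K * ∫ w in vsq (2 * s), vhess G w := by
  have h := hK s hs G hG
  have e : vL K s G = fun w => veta s w * (G w - vaffn h.choose w) := by
    funext w
    unfold vL vaff
    rw [dif_pos h]
  rw [e]
  exact h.choose_spec

theorem veta_zero {s : ℝ} (hs : 0 < s) {w : ℂ} (hw : 2 * s ≤ ‖w‖) : veta s w = 0 := by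
  unfold veta
  apply vchi.zero_of_le_dist
  rw [dist_zero_right, norm_smul, Real.norm_of_nonneg (inv_pos.2 hs).le]
  change 2 ≤ _
  rw [inv_mul_eq_div, le_div_iff₀ hs]
  exact hw

theorem veta_one {s : ℝ} (hs : 0 < s) {w : ℂ} (hw : ‖w‖ ≤ 3 / 2 * s) : veta s w = 1 := by
  unfold veta
  apply vchi.one_of_mem_closedBall
  rw [mem_closedBall_zero_iff, norm_smul, Real.norm_of_nonneg (inv_pos.2 hs).le]
  change _ ≤ 3 / 2
  rw [inv_mul_eq_div, div_le_iff₀ hs]
  exact hw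

theorem vL_zero (K : ℝ) {s : ℝ} (hs : 0 < s) (G : ℂ → ℝ) {w : ℂ} (hw : 2 * s ≤ ‖w‖) :
    vL K s G w = 0 := by
  unfold vL
  rw [veta_zero hs hw, zero_mul]

theorem vL_D2_out (K : ℝ) {s : ℝ} (hs : 0 < s) (G : ℂ → ℝ) {w : ℂ} (hw : 2 * s < ‖w‖) (a b : ℂ) :
    D2 (vL K s G) w a b = 0 := by
  have h : vL K s G =ᶠ[𝓝 w] fun _ => 0 := by
    have ho : IsOpen {w : ℂ | 2 * s < ‖w‖} := isOpen_lt continuous_const continuous_norm
    filter_upwards [ho.mem_nhds hw] with v hv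
    exact vL_zero K hs G (le_of_lt hv)
  rw [van_D2_congr h, van_zero_D2]

theorem vL_D2_in (K : ℝ) {s : ℝ} (hs : 0 < s) {G : ℂ → ℝ} (hG : ContDiff ℝ ∞ G) {w : ℂ}
    (hw : ‖w‖ ≤ s) (a b : ℂ) : D2 (vL K s G) w a b = D2 G w a b := by
  have h : vL K s G =ᶠ[𝓝 w] fun w => G w - vaffn (vaff K s G) w := by
    have ho : IsOpen {w : ℂ | ‖w‖ < 3 / 2 * s} := isOpen_lt continuous_norm continuous_const
    have hw' : w ∈ {w : ℂ | ‖w‖ < 3 / 2 * s} := by
      change ‖w‖ < 3 / 2 * s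
      linarith
    filter_upwards [ho.mem_nhds hw'] with v hv
    unfold vL
    rw [veta_one hs (le_of_lt hv), one_mul]
  rw [van_D2_congr h, van_sub_D2 hG]

theorem van_finite {Z : Set ℂ} {ρ : ℝ} (hρ : 0 < ρ)
    (hsep : ∀ c ∈ Z, ∀ c' ∈ Z, c ≠ c' → 4 * ρ ≤ dist c c') :
    (Z ∩ Metric.closedBall 0 3).Finite := by
  obtain ⟨t, -, ht, hcov⟩ := (isCompact_closedBall (0 : ℂ) 3).finite_cover_balls hρ
  apply (ht.biUnion (t := fun x => Z ∩ Metric.ball x ρ) (fun x _ => ?_)).subset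
  · rintro z ⟨hz, hz2⟩
    have := hcov hz2
    simp only [mem_iUnion] at this ⊢
    obtain ⟨x, hx, hx2⟩ := this
    exact ⟨x, hx, hz, hx2⟩
  · apply Set.Subsingleton.finite
    rintro c ⟨hc, hc2⟩ c' ⟨hc', hc2'⟩
    by_contra hne
    have h1 := hsep c hc c' hc' hne
    have h2 := dist_triangle_right c c' x
    have h3 := Metric.mem_ball.1 hc2
    have h4 := Metric.mem_ball.1 hc2'
    linarith

theorem van_hh_sq_le_hess (F : ℂ → ℝ) (z : ℂ) : ‖hh F z‖ ^ 2 ≤ vhess F z := by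
  rw [vhess_eq]
  nlinarith [sq_nonneg (hf F z), sq_nonneg ‖hh F z‖]

theorem van_hh_zero_of_D2 {F : ℂ → ℝ} {z : ℂ} (h : ∀ a b, D2 F z a b = 0) :
    hf F z = 0 ∧ hh F z = 0 := by
  unfold hf hh
  rw [h, h, h]
  simp

theorem vsq_of_norm {R : ℝ} {w : ℂ} (hw : ‖w‖ ≤ R) : w ∈ vsq R := by
  have h1 := abs_le.1 ((Complex.abs_re_le_norm w).trans hw)
  have h2 := abs_le.1 ((Complex.abs_im_le_norm w).trans hw)
  exact ⟨⟨h1.1, h1.2⟩, h2.1, h2.2⟩

/-- energy of the modification -/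
theorem van_energy {Z : Set ℂ} {ρ : ℝ} (hρ : 0 < ρ) (hρ1 : ρ ≤ 1)
    (hsep : ∀ c ∈ Z, ∀ c' ∈ Z, c ≠ c' → 4 * ρ ≤ dist c c') {L : ℂ → ℂ → ℝ} {s : ℝ} (_hs : 0 < s)
    (hsρ : 2 * s ≤ ρ) (hL : ∀ c w, 2 * s ≤ ‖w‖ → L c w = 0)
    (hL2 : ∀ c w a b, 2 * s < ‖w‖ → D2 (L c) w a b = 0)
    (hsm : ∀ c, ContDiff ℝ ∞ (L c)) (T : Finset ℂ)
    (hT : ∀ c ∈ Z, c ∈ Metric.closedBall (0 : ℂ) 3 → c ∈ T) :
    ∫ z in cell, ‖hh (vglue Z ρ L) z‖ ^ 2 ≤ ∑ c ∈ T, ∫ w in vsq (2 * s), vhess (L c) w := by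
  have hL' : ∀ c w, ρ ≤ ‖w‖ → L c w = 0 := fun c w h => hL c w (hsρ.trans h)
  have hsmooth := vglue_smooth hρ hsep hL' hsm
  set g : ℂ → ℂ → ℝ := fun c => (vsq (2 * s)).indicator (vhess (L c)) with hg
  have g0 : ∀ c w, 0 ≤ g c w := fun c w => by
    apply indicator_nonneg
    intro x _
    exact vhess_nonneg _ _
  have gi : ∀ c, Integrable (g c) := fun c => by
    rw [hg]
    simp only
    rw [integrable_indicator_iff (vsq_meas _)]
    exact (vhess_cont (hsm c)).continuousOn.integrableOn_compact (vsq_compact _)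
  have ptw : ∀ z ∈ cell, ‖hh (vglue Z ρ L) z‖ ^ 2 ≤ ∑ c ∈ T, g c (z - c) := by
    intro z hz
    have hnn : 0 ≤ ∑ c ∈ T, g c (z - c) := Finset.sum_nonneg fun c _ => g0 c _
    by_cases h : ∃ c, c ∈ Z ∧ dist z c < 2 * ρ
    · obtain ⟨c, hc, hlt⟩ := h
      have e1 := (van_hf_congr (F := vglue Z ρ L) (G := L c) (z := z) (w := z - c)
        (fun a b => vglue_D2_in hsep hc hlt a b)).2
      rw [e1]
      by_cases hn : ‖z - c‖ ≤ 2 * s
      · have hcT : c ∈ T := by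
          apply hT c hc
          rw [mem_closedBall_zero_iff]
          have h1 : ‖z‖ ≤ 2 := by
            have := wd_cell_sub hz
            rwa [mem_closedBall_zero_iff] at this
          calc ‖c‖ = ‖z - (z - c)‖ := by congr 1; ring
            _ ≤ ‖z‖ + ‖z - c‖ := norm_sub_le _ _
            _ ≤ 3 := by linarith
        calc ‖hh (L c) (z - c)‖ ^ 2 ≤ vhess (L c) (z - c) := van_hh_sq_le_hess _ _
          _ = g c (z - c) := by
              rw [hg]
              simp only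
              rw [indicator_of_mem (vsq_of_norm hn)]
          _ ≤ _ := Finset.single_le_sum (f := fun c => g c (z - c)) (fun c _ => g0 c _) hcT
      · rw [(van_hh_zero_of_D2 (fun a b => hL2 c (z - c) a b (not_le.1 hn))).2]
        simpa using hnn
    · push Not at h
      rw [(van_hh_zero_of_D2 (fun a b => vglue_D2_out hρ hsep hL' h a b)).2]
      simpa using hnn
  have si : Integrable (fun z => ∑ c ∈ T, g c (z - c)) :=
    integrable_finsetSum _ fun c _ => (gi c).comp_sub_right c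
  calc ∫ z in cell, ‖hh (vglue Z ρ L) z‖ ^ 2 ≤ ∫ z in cell, ∑ c ∈ T, g c (z - c) := by
        apply setIntegral_mono_on
          (wd_sq_int (wd_memLp_cont (wd_cont_hh hsmooth))) si.integrableOn wd_meas_cell ptw
    _ ≤ ∫ z, ∑ c ∈ T, g c (z - c) :=
        setIntegral_le_integral si (Eventually.of_forall fun z =>
          Finset.sum_nonneg fun c _ => g0 c _)
    _ = ∑ c ∈ T, ∫ z, g c (z - c) := integral_finsetSum _ fun c _ => (gi c).comp_sub_right c
    _ = ∑ c ∈ T, ∫ w in vsq (2 * s), vhess (L c) w := by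
        apply Finset.sum_congr rfl
        intro c _
        rw [integral_sub_right_eq_self (g c) c, hg]
        simp only
        rw [integral_indicator (vsq_meas _)]

theorem vsq_vol {R : ℝ} (hR : 0 ≤ R) : volume.real (vsq R) = (2 * R) ^ 2 := by
  rw [Measure.real, vsq_eq, Complex.volume_preserving_equiv_real_prod.measure_preimage
    (measurableSet_Icc.prod measurableSet_Icc).nullMeasurableSet]
  rw [Measure.volume_eq_prod, Measure.prod_prod, Real.volume_Icc]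
  rw [← ENNReal.ofReal_mul (by linarith), ENNReal.toReal_ofReal (by nlinarith)]
  ring

/-- a small square carries at most the integral over the cell -/
theorem van_square_le_cell {d : ℂ → ℝ} (hd : Continuous d) (h0 : ∀ z, 0 ≤ d z) (hp : Per d)
    {s : ℝ} (hs : 4 * s < 1) (c : ℂ) :
    ∫ w in vsq (2 * s), d (w + c) ≤ ∫ z in cell, d z := by
  set τ : ℂ := ⟨1 / 2, 1 / 2⟩ with hτ
  have hsub : vsq (2 * s) ⊆ (fun w => w + τ) ⁻¹' cell := by
    rintro w ⟨⟨h1, h2⟩, h3, h4⟩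
    simp only [cell, mem_preimage, Set.mem_ofPred_eq, mem_Ico, add_re, add_im, hτ]
    refine ⟨⟨?_, ?_⟩, ?_, ?_⟩ <;> linarith
  have hpi : IntegrableOn (fun w => d (w + c)) ((fun w => w + τ) ⁻¹' cell) := by
    apply (Continuous.continuousOn (by fun_prop)).integrableOn_compact
      (isCompact_closedBall (0 : ℂ) 4) |>.mono_set
    intro w hw
    have h1 : ‖w + τ‖ ≤ 2 := by
      have := wd_cell_sub hw
      rwa [mem_closedBall_zero_iff] at this
    have h2 : ‖τ‖ ≤ 1 := by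
      have := Complex.norm_le_abs_re_add_abs_im τ
      simp only [hτ] at this ⊢
      norm_num at this ⊢
      linarith
    rw [mem_closedBall_zero_iff]
    calc ‖w‖ = ‖(w + τ) - τ‖ := by congr 1; ring
      _ ≤ ‖w + τ‖ + ‖τ‖ := norm_sub_le _ _
      _ ≤ 4 := by linarith
  calc ∫ w in vsq (2 * s), d (w + c) ≤ ∫ w in (fun w => w + τ) ⁻¹' cell, d (w + c) := by
        apply setIntegral_mono_set hpi (Eventually.of_forall fun w => h0 _)
        exact LE.le.eventuallyLE hsub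
    _ = ∫ z in cell, d (z + (c - τ)) := by
        have := (measurePreserving_add_right (volume : Measure ℂ) τ).setIntegral_preimage_emb
          (MeasurableEquiv.addRight τ).measurableEmbedding (fun z => d (z + (c - τ))) cell
        rw [← this]
        congr 1
        funext w
        congr 1
        ring
    _ = ∫ z in cell, d z := setIntegral_cell_add hp _


theorem van_per_hf {φ : ℂ → ℝ} (hp : Per φ) : Per (hf φ) ∧ Per (hh φ) := by
  have h := wd_per_fderiv (wd_per_fderiv hp)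
  have h1 : ∀ z a b, D2 φ (z + 1) a b = D2 φ z a b := fun z a b => by
    unfold D2
    rw [(h z).1]
  have h2 : ∀ z a b, D2 φ (z + I) a b = D2 φ z a b := fun z a b => by
    unfold D2
    rw [(h z).2]
  constructor
  · intro z
    exact ⟨(van_hf_congr (fun a b => h1 z a b)).1, (van_hf_congr (fun a b => h2 z a b)).1⟩
  · intro z
    exact ⟨(van_hf_congr (fun a b => h1 z a b)).2, (van_hf_congr (fun a b => h2 z a b)).2⟩

theorem van_hf_sub {F G : ℂ → ℝ} (hF : ContDiff ℝ ∞ F) (hG : ContDiff ℝ ∞ G) (z : ℂ) :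
    hf (fun w => F w - G w) z = hf F z - hf G z ∧
    hh (fun w => F w - G w) z = hh F z - hh G z := by
  unfold hf hh
  rw [van_subf_D2 hF hG, van_subf_D2 hF hG, van_subf_D2 hF hG]
  constructor
  · ring
  · push_cast
    ring

/-- the local Hessian of the total potential is controlled by a fixed approximant. -/
theorem van_local {φ φ₀ : ℂ → ℝ} (hφ : SmoothPer φ) (hφ₀ : SmoothPer φ₀) (a : ℝ) (b : ℂ)
    {M : ℝ} (hM : ∀ z ∈ Metric.closedBall (0 : ℂ) 5, (a + hf φ₀ z) ^ 2 + ‖b + hh φ₀ z‖ ^ 2 ≤ M)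
    {s : ℝ} (hs : 0 < s) (hs8 : s ≤ 1 / 8) {c : ℂ} (hc : c ∈ Metric.closedBall (0 : ℂ) 3) :
    ∫ w in vsq (2 * s), vhess (vG a b φ c) w ≤ 64 * M * s ^ 2 +
      4 * ∫ z in cell, ((hf φ z - hf φ₀ z) ^ 2 + ‖hh φ z - hh φ₀ z‖ ^ 2) := by
  set d : ℂ → ℝ := fun z => (hf φ z - hf φ₀ z) ^ 2 + ‖hh φ z - hh φ₀ z‖ ^ 2 with hd
  have cd : Continuous d := (((wd_cont_hf hφ.1).sub (wd_cont_hf hφ₀.1)).pow 2).add
    ((((wd_cont_hh hφ.1).sub (wd_cont_hh hφ₀.1)).norm).pow 2)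
  have d0 : ∀ z, 0 ≤ d z := fun z => by
    simp only [hd]
    positivity
  have dp : Per d := by
    intro z
    simp only [hd]
    rw [((van_per_hf hφ.2).1 z).1, ((van_per_hf hφ.2).1 z).2, ((van_per_hf hφ.2).2 z).1,
      ((van_per_hf hφ.2).2 z).2, ((van_per_hf hφ₀.2).1 z).1, ((van_per_hf hφ₀.2).1 z).2,
      ((van_per_hf hφ₀.2).2 z).1, ((van_per_hf hφ₀.2).2 z).2]
    exact ⟨rfl, rfl⟩
  have hb : ∀ w ∈ vsq (2 * s), vhess (vG a b φ c) w ≤ 4 * M + 4 * d (w + c) := by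
    rintro w ⟨⟨h1, h2⟩, h3, h4⟩
    rw [vhess_eq, (vG_hf hφ.1 a b c w).1, (vG_hf hφ.1 a b c w).2]
    have hw : w + c ∈ Metric.closedBall (0 : ℂ) 5 := by
      rw [mem_closedBall_zero_iff] at hc ⊢
      have h5 : ‖w‖ ≤ 1 := by
        refine (Complex.norm_le_abs_re_add_abs_im w).trans ?_
        have h6 : |w.re| ≤ 2 * s := abs_le.2 ⟨h1, h2⟩
        have h7 : |w.im| ≤ 2 * s := abs_le.2 ⟨h3, h4⟩
        linarith
      calc ‖w + c‖ ≤ ‖w‖ + ‖c‖ := norm_add_le _ _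
        _ ≤ 5 := by linarith
    have h8 := hM _ hw
    have h9 : (a + hf φ (w + c)) ^ 2 ≤ 2 * (a + hf φ₀ (w + c)) ^ 2 +
        2 * (hf φ (w + c) - hf φ₀ (w + c)) ^ 2 := by
      nlinarith [sq_nonneg ((a + hf φ₀ (w + c)) - (hf φ (w + c) - hf φ₀ (w + c)))]
    have h10 : ‖b + hh φ (w + c)‖ ^ 2 ≤ 2 * ‖b + hh φ₀ (w + c)‖ ^ 2 +
        2 * ‖hh φ (w + c) - hh φ₀ (w + c)‖ ^ 2 := by
      have h11 : ‖b + hh φ (w + c)‖ ≤ ‖b + hh φ₀ (w + c)‖ + ‖hh φ (w + c) - hh φ₀ (w + c)‖ := by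
        calc ‖b + hh φ (w + c)‖ = ‖(b + hh φ₀ (w + c)) + (hh φ (w + c) - hh φ₀ (w + c))‖ := by
              congr 1; ring
          _ ≤ _ := norm_add_le _ _
      have h12 : ‖b + hh φ (w + c)‖ ^ 2 ≤
          (‖b + hh φ₀ (w + c)‖ + ‖hh φ (w + c) - hh φ₀ (w + c)‖) ^ 2 :=
        pow_le_pow_left₀ (norm_nonneg _) h11 2
      nlinarith [sq_nonneg (‖b + hh φ₀ (w + c)‖ - ‖hh φ (w + c) - hh φ₀ (w + c)‖)]
    simp only [hd]
    linarith
  have ion : ∀ {F : ℂ → ℝ}, Continuous F → IntegrableOn F (vsq (2 * s)) := fun hF =>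
    hF.continuousOn.integrableOn_compact (vsq_compact _)
  have cdc : Continuous (fun w => d (w + c)) := cd.comp (continuous_id.add continuous_const)
  have i1 : IntegrableOn (fun w => 4 * d (w + c)) (vsq (2 * s)) := (ion cdc).const_mul 4
  have i2 : IntegrableOn (fun _ : ℂ => 4 * M) (vsq (2 * s)) := ion continuous_const
  calc ∫ w in vsq (2 * s), vhess (vG a b φ c) w
      ≤ ∫ w in vsq (2 * s), (4 * M + 4 * d (w + c)) :=
        setIntegral_mono_on (ion (vhess_cont (vG_smooth hφ.1 a b c))) (i2.add i1) (vsq_meas _) hb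
    _ = 64 * M * s ^ 2 + 4 * ∫ w in vsq (2 * s), d (w + c) := by
        rw [integral_add i2 i1, integral_const_mul 4 (fun w => d (w + c))]
        simp only [integral_const, MeasurableSet.univ, measureReal_restrict_apply, univ_inter,
          smul_eq_mul]
        rw [vsq_vol (by positivity)]
        congr 1
        ring
    _ ≤ 64 * M * s ^ 2 + 4 * ∫ z in cell, d z := by
        have := van_square_le_cell cd d0 dp (s := s) (by linarith) c
        linarith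

theorem van_norm3 (t : ℝ) (ht : 0 < t) (h x y : ℂ) :
    ‖h - x + y‖ ^ 2 ≤ (1 + t) * ‖h‖ ^ 2 + (1 + 1 / t) * (2 * ‖x‖ ^ 2 + 2 * ‖y‖ ^ 2) := by
  have h1 : ‖h - x + y‖ ≤ ‖h‖ + (‖x‖ + ‖y‖) := by
    calc ‖h - x + y‖ ≤ ‖h - x‖ + ‖y‖ := norm_add_le _ _
      _ ≤ (‖h‖ + ‖x‖) + ‖y‖ := by linarith [norm_sub_le h x]
      _ = _ := by ring
  have hA : 0 ≤ ‖h‖ := norm_nonneg _
  have hx : 0 ≤ ‖x‖ := norm_nonneg _
  have hy : 0 ≤ ‖y‖ := norm_nonneg _
  set A := ‖h‖
  set B := ‖x‖ + ‖y‖ with hB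
  have h2 : ‖h - x + y‖ ^ 2 ≤ (A + B) ^ 2 := pow_le_pow_left₀ (norm_nonneg _) h1 2
  have h4 : 0 ≤ (t * A - B) ^ 2 / t := by positivity
  have h5 : (1 + t) * A ^ 2 + (1 + 1 / t) * B ^ 2 - (A + B) ^ 2 = (t * A - B) ^ 2 / t := by
    field_simp
    ring
  have h6 : B ^ 2 ≤ 2 * ‖x‖ ^ 2 + 2 * ‖y‖ ^ 2 := by
    rw [hB]
    nlinarith [sq_nonneg (‖x‖ - ‖y‖)]
  have h7 : (1 + 1 / t) * B ^ 2 ≤ (1 + 1 / t) * (2 * ‖x‖ ^ 2 + 2 * ‖y‖ ^ 2) :=
    mul_le_mul_of_nonneg_left h6 (by positivity)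
  linarith

/-- Small voids near isolated centres change the dual problem by little. -/
theorem vanish {S₀ : Set ℂ} (hS₀ : Composite S₀) {b : ℂ} {E : ℝ} (hD : DualField S₀ b E)
    {Z : Set ℂ} (hZ : ∀ z, (z + 1 ∈ Z ↔ z ∈ Z) ∧ (z + I ∈ Z ↔ z ∈ Z)) {ρ : ℝ} (hρ : 0 < ρ)
    (hsep : ∀ c ∈ Z, ∀ c' ∈ Z, c ≠ c' → 4 * ρ ≤ dist c c')
    (hsol : ∀ c ∈ Z, Metric.ball c (2 * ρ) ⊆ S₀) :
    ∀ δ > 0, ∃ s₀ > 0, ∀ s : ℝ, 0 < s → s ≤ s₀ → ∀ S' : Set ℂ, Composite S' →
      (∀ᵐ z, z ∉ S' → z ∉ S₀ ∨ ∃ c ∈ Z, dist z c ≤ s) → DualSeq S' b (E + δ) := by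
  -- we may shrink `ρ`
  wlog hρ1 : ρ ≤ 1 generalizing ρ
  · apply this (ρ := 1) one_pos _ _ le_rfl
    · intro c hc c' hc' hne
      have := hsep c hc c' hc' hne
      linarith [not_le.1 hρ1]
    · intro c hc
      refine (Metric.ball_subset_ball ?_).trans (hsol c hc)
      linarith [not_le.1 hρ1]
  intro δ hδ
  obtain ⟨f, h, a, hf2, hh2, h0, hE, happ⟩ := hD
  have hE0 : 0 ≤ E := le_trans (integral_nonneg fun z => by positivity) hE
  obtain ⟨K, hK0, hK⟩ := van_cut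
  set T : Finset ℂ := (van_finite hρ hsep).toFinset with hT
  set N : ℝ := (T.card : ℝ) with hN
  have hN0 : 0 ≤ N := Nat.cast_nonneg _
  set N' : ℝ := K * N + 1 with hN'
  have hN'1 : 1 ≤ N' := by
    have : 0 ≤ K * N := by positivity
    linarith
  set t : ℝ := δ / (2 * (E + 1)) with ht
  have htpos : 0 < t := by positivity
  have htE : t * E ≤ δ / 2 := by
    rw [ht, div_mul_eq_mul_div, div_le_div_iff₀ (by positivity) (by norm_num)]
    nlinarith
  set κ : ℝ := δ / (4 * (1 + 1 / t)) with hκ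
  have hκ0 : 0 < κ := by positivity
  obtain ⟨φ₀, hφ₀, hφ₀e⟩ := happ (κ / (32 * N')) (by positivity)
  obtain ⟨M, hM⟩ : ∃ M : ℝ, ∀ z ∈ Metric.closedBall (0 : ℂ) 5,
      (a + hf φ₀ z) ^ 2 + ‖b + hh φ₀ z‖ ^ 2 ≤ M := by
    have c1 : Continuous (fun z => (a + hf φ₀ z) ^ 2 + ‖b + hh φ₀ z‖ ^ 2) :=
      ((continuous_const.add (wd_cont_hf hφ₀.1)).pow 2).add
        (((continuous_const.add (wd_cont_hh hφ₀.1)).norm).pow 2)
    obtain ⟨M, hM⟩ := (isCompact_closedBall (0 : ℂ) 5).exists_bound_of_continuousOn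
      c1.continuousOn
    exact ⟨M, fun z hz => (le_abs_self _).trans (hM z hz)⟩
  have hM0 : 0 ≤ M := by
    refine le_trans ?_ (hM 0 (by simp))
    positivity
  set s₀ : ℝ := min (ρ / 2) (min (1 / 8) (κ / (256 * (M + 1) * N'))) with hs₀
  have hs₀pos : 0 < s₀ := by
    rw [hs₀]
    positivity
  refine ⟨s₀, hs₀pos, fun s hs hss₀ S' hS' hsub => ?_⟩
  have hs1 : s ≤ ρ / 2 := hss₀.trans (min_le_left _ _)
  have hs2 : s ≤ 1 / 8 := hss₀.trans ((min_le_right _ _).trans (min_le_left _ _))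
  have hs3 : s ≤ κ / (256 * (M + 1) * N') := hss₀.trans ((min_le_right _ _).trans (min_le_right _ _))
  intro ε hε
  obtain ⟨φ, hφ, hφe⟩ := happ (min ε (κ / (32 * N'))) (by positivity)
  have hφe1 := hφe.trans (min_le_left _ _)
  have hφe2 := hφe.trans (min_le_right _ _)
  set L : ℂ → ℂ → ℝ := fun c => vL K s (vG a b φ c) with hL
  have Lsm : ∀ c, ContDiff ℝ ∞ (L c) := fun c => vL_smooth K s (vG_smooth hφ.1 a b c)
  have L0 : ∀ c w, 2 * s ≤ ‖w‖ → L c w = 0 := fun c w hw => vL_zero K hs _ hw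
  have L0' : ∀ c w, ρ ≤ ‖w‖ → L c w = 0 := fun c w hw => L0 c w (by linarith)
  have L2 : ∀ c w a b, 2 * s < ‖w‖ → D2 (L c) w a b = 0 := fun c w a b hw =>
    vL_D2_out K hs _ hw a b
  have L3 : ∀ c w u v, ‖w‖ ≤ s → D2 (L c) w u v = D2 (vG a b φ c) w u v := fun c w u v hw =>
    vL_D2_in K hs (vG_smooth hφ.1 a b c) hw u v
  have Lp1 : ∀ c, L (c + 1) = L c := fun c => by
    simp only [hL]
    rw [(vG_per hφ.2 a b c).1]
  have LpI : ∀ c, L (c + I) = L c := fun c => by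
    simp only [hL]
    rw [(vG_per hφ.2 a b c).2]
  set ψ : ℂ → ℝ := vglue Z ρ L with hψ
  have ψs : ContDiff ℝ ∞ ψ := vglue_smooth hρ hsep L0' Lsm
  have ψp : Per ψ := fun z =>
    ⟨vglue_shift hsep (fun z => (hZ z).1) Lp1 z, vglue_shift hsep (fun z => (hZ z).2) LpI z⟩
  -- error between the two approximants
  have m1 : ∀ {φ : ℂ → ℝ}, SmoothPer φ →
      MemLp (fun z => f z - (a + hf φ z)) 2 (volume.restrict cell) := fun {φ} hφ =>
    hf2.sub (wd_memLp_cont (continuous_const.add (wd_cont_hf hφ.1)))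
  have m2 : ∀ {φ : ℂ → ℝ}, SmoothPer φ →
      MemLp (fun z => h z - (b + hh φ z)) 2 (volume.restrict cell) := fun {φ} hφ =>
    hh2.sub (wd_memLp_cont (continuous_const.add (wd_cont_hh hφ.1)))
  have m3 : ∀ {φ : ℂ → ℝ}, SmoothPer φ → Integrable (fun z => (f z - (a + hf φ z)) ^ 2 +
      ‖h z - (b + hh φ z)‖ ^ 2) (volume.restrict cell) := fun {φ} hφ =>
    (wd_sq_int_real (m1 hφ)).add (wd_sq_int (m2 hφ))
  have herr : ∫ z in cell, ((hf φ z - hf φ₀ z) ^ 2 + ‖hh φ z - hh φ₀ z‖ ^ 2) ≤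
      2 * (κ / (32 * N')) + 2 * (κ / (32 * N')) := by
    calc ∫ z in cell, ((hf φ z - hf φ₀ z) ^ 2 + ‖hh φ z - hh φ₀ z‖ ^ 2)
        ≤ ∫ z in cell, (2 * ((f z - (a + hf φ z)) ^ 2 + ‖h z - (b + hh φ z)‖ ^ 2) +
          2 * ((f z - (a + hf φ₀ z)) ^ 2 + ‖h z - (b + hh φ₀ z)‖ ^ 2)) := by
          apply integral_mono_of_nonneg (Eventually.of_forall fun z => by positivity)
            (((m3 hφ).const_mul 2).add ((m3 hφ₀).const_mul 2))
          refine Eventually.of_forall fun z => ?_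
          simp only
          have e1 : (hf φ z - hf φ₀ z) ^ 2 ≤ 2 * (f z - (a + hf φ z)) ^ 2 +
              2 * (f z - (a + hf φ₀ z)) ^ 2 := by
            nlinarith [sq_nonneg ((f z - (a + hf φ z)) + (f z - (a + hf φ₀ z)))]
          have e2 : ‖hh φ z - hh φ₀ z‖ ^ 2 ≤ 2 * ‖h z - (b + hh φ z)‖ ^ 2 +
              2 * ‖h z - (b + hh φ₀ z)‖ ^ 2 := by
            have e3 : ‖hh φ z - hh φ₀ z‖ ≤ ‖h z - (b + hh φ z)‖ + ‖h z - (b + hh φ₀ z)‖ := by
              calc ‖hh φ z - hh φ₀ z‖ = ‖(h z - (b + hh φ₀ z)) - (h z - (b + hh φ z))‖ := by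
                    congr 1; ring
                _ ≤ ‖h z - (b + hh φ₀ z)‖ + ‖h z - (b + hh φ z)‖ := norm_sub_le _ _
                _ = _ := add_comm _ _
            have e4 := pow_le_pow_left₀ (norm_nonneg _) e3 2
            nlinarith [sq_nonneg (‖h z - (b + hh φ z)‖ - ‖h z - (b + hh φ₀ z)‖)]
          simp only [Pi.add_apply]
          linarith
      _ = 2 * (∫ z in cell, ((f z - (a + hf φ z)) ^ 2 + ‖h z - (b + hh φ z)‖ ^ 2)) +
          2 * (∫ z in cell, ((f z - (a + hf φ₀ z)) ^ 2 + ‖h z - (b + hh φ₀ z)‖ ^ 2)) := by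
          rw [integral_add ((m3 hφ).const_mul 2) ((m3 hφ₀).const_mul 2), integral_const_mul,
            integral_const_mul]
      _ ≤ _ := by linarith
  -- energy of the modification
  have hen : ∫ z in cell, ‖hh ψ z‖ ^ 2 ≤ 3 * κ / 4 := by
    have e1 := van_energy hρ hρ1 hsep hs (by linarith) L0 L2 Lsm T (by
      intro c hc hc3
      rw [hT, Set.Finite.mem_toFinset]
      exact ⟨hc, hc3⟩)
    have e2 : ∀ c ∈ T, ∫ w in vsq (2 * s), vhess (L c) w ≤
        K * (64 * M * s ^ 2 + 4 * (2 * (κ / (32 * N')) + 2 * (κ / (32 * N')))) := by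
      intro c hc
      rw [hT, Set.Finite.mem_toFinset] at hc
      have e3 := vL_bound hK hs (vG_smooth hφ.1 a b c)
      have e4 := van_local hφ hφ₀ a b hM hs hs2 hc.2
      refine e3.trans (mul_le_mul_of_nonneg_left (e4.trans ?_) hK0.le)
      linarith
    have e5 := Finset.sum_le_sum e2
    rw [Finset.sum_const, nsmul_eq_mul, ← hN] at e5
    have e6 : 64 * M * s ^ 2 ≤ κ / (4 * N') := by
      have q1 : s ^ 2 ≤ s := by nlinarith
      have q2 : 64 * M * s ^ 2 ≤ 64 * (M + 1) * (κ / (256 * (M + 1) * N')) := by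
        apply mul_le_mul (by linarith) (q1.trans hs3) (by positivity) (by positivity)
      refine q2.trans (le_of_eq ?_)
      field_simp
      norm_num
    have e7 : 4 * (2 * (κ / (32 * N')) + 2 * (κ / (32 * N'))) = κ / (2 * N') := by
      field_simp
      norm_num
    have e8 : N * (K * (64 * M * s ^ 2 + 4 * (2 * (κ / (32 * N')) + 2 * (κ / (32 * N'))))) ≤
        N' * (κ / (4 * N') + κ / (2 * N')) := by
      rw [e7]
      have q3 : N * (K * (64 * M * s ^ 2 + κ / (2 * N'))) =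
          (K * N) * (64 * M * s ^ 2 + κ / (2 * N')) := by ring
      rw [q3]
      apply mul_le_mul (by linarith) (by linarith) (by positivity) (by positivity)
    have e9 : N' * (κ / (4 * N') + κ / (2 * N')) = 3 * κ / 4 := by
      field_simp
      norm_num
    calc ∫ z in cell, ‖hh ψ z‖ ^ 2 ≤ _ := e1
      _ ≤ _ := e5
      _ ≤ _ := e8
      _ = _ := e9
  have φsub : ∀ z, hf (fun w => φ w - ψ w) z = hf φ z - hf ψ z ∧
      hh (fun w => φ w - ψ w) z = hh φ z - hh ψ z := fun z => van_hf_sub hφ.1 ψs z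
  refine ⟨a, fun w => φ w - ψ w, ⟨hφ.1.sub ψs, fun z => ?_⟩, ?_, ?_⟩
  · simp only
    rw [(hφ.2 z).1, (hφ.2 z).2, (ψp z).1, (ψp z).2]
    exact ⟨rfl, rfl⟩
  · -- the void
    simp only [(φsub _).1, (φsub _).2]
    set e : ℂ → ℝ := fun z => (a + hf φ z) ^ 2 + ‖b + hh φ z‖ ^ 2 with he
    have ce : Continuous e := ((continuous_const.add (wd_cont_hf hφ.1)).pow 2).add
        (((continuous_const.add (wd_cont_hh hφ.1)).norm).pow 2)
    have ie : Integrable e (volume.restrict cell) := by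
      have := wd_finite
      exact (wd_memLp_cont ce).integrable (by norm_num)
    have e0 : ∀ z, 0 ≤ e z := fun z => by
      simp only [he]
      positivity
    have ii : Integrable (S₀ᶜ.indicator e) (volume.restrict cell) := ie.indicator hS₀.meas.compl
    have hpt : ∀ᵐ z ∂(volume.restrict (cell \ S')),
        (a + (hf φ z - hf ψ z)) ^ 2 + ‖b + (hh φ z - hh ψ z)‖ ^ 2 ≤ S₀ᶜ.indicator e z := by
      filter_upwards [ae_restrict_of_ae (s := cell \ S') hsub,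
        ae_restrict_mem (wd_meas_cell.diff hS'.meas)] with z hz hz2
      rcases hz hz2.2 with hz3 | ⟨c, hc, hd⟩
      · have hout : ∀ c ∈ Z, 2 * ρ ≤ dist z c := by
          intro c hc
          by_contra hcon
          exact hz3 (hsol c hc (Metric.mem_ball.2 (not_le.1 hcon)))
        have q := van_hh_zero_of_D2 (fun u v => vglue_D2_out hρ hsep L0' hout u v)
        rw [hψ, q.1, q.2, indicator_of_mem (show z ∈ S₀ᶜ from hz3)]
        simp [he]
      · have hlt : dist z c < 2 * ρ := by linarith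
        have q1 : ∀ u v, D2 ψ z u v = D2 (vG a b φ c) (z - c) u v := by
          intro u v
          rw [hψ, vglue_D2_in hsep hc hlt]
          apply L3
          rw [← dist_eq_norm]
          exact hd
        have q2 := van_hf_congr q1
        rw [(vG_hf hφ.1 a b c (z - c)).1, (vG_hf hφ.1 a b c (z - c)).2, sub_add_cancel] at q2
        rw [q2.1, q2.2]
        have q3 : a + (hf φ z - (a + hf φ z)) = 0 := by ring
        have q4 : b + (hh φ z - (b + hh φ z)) = 0 := by ring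
        rw [q3, q4]
        simp only [norm_zero, ne_eq, OfNat.ofNat_ne_zero, not_false_eq_true, zero_pow, add_zero]
        exact indicator_nonneg (fun z _ => e0 z) z
    calc ∫ z in cell \ S', ((a + (hf φ z - hf ψ z)) ^ 2 + ‖b + (hh φ z - hh ψ z)‖ ^ 2)
        ≤ ∫ z in cell \ S', S₀ᶜ.indicator e z := by
          apply integral_mono_of_nonneg (Eventually.of_forall fun z => by positivity)
            (ii.mono_measure (Measure.restrict_mono sdiff_subset le_rfl)) hpt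
      _ ≤ ∫ z in cell, S₀ᶜ.indicator e z := by
          apply setIntegral_mono_set ii
            (Eventually.of_forall fun z => indicator_nonneg (fun z _ => e0 z) z)
          exact LE.le.eventuallyLE sdiff_subset
      _ ≤ ∫ z in cell, ((f z - (a + hf φ z)) ^ 2 + ‖h z - (b + hh φ z)‖ ^ 2) := by
          apply integral_mono_ae ii (m3 hφ)
          filter_upwards [h0] with z hz
          by_cases hzS : z ∈ S₀
          · rw [indicator_of_notMem (show z ∉ S₀ᶜ from fun hn => hn hzS)]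
            positivity
          · rw [indicator_of_mem (show z ∈ S₀ᶜ from hzS), (hz hzS).1, (hz hzS).2]
            simp only [he, zero_sub, norm_neg, even_two.neg_pow]
            exact le_rfl
      _ ≤ ε := hφe1
  · -- the energy
    simp only [(φsub _).2]
    have i1 : Integrable (fun z => 2 * ‖h z - (b + hh φ z)‖ ^ 2 + 2 * ‖hh ψ z‖ ^ 2)
        (volume.restrict cell) :=
      ((wd_sq_int (m2 hφ)).const_mul 2).add ((wd_sq_int (wd_memLp_cont (wd_cont_hh ψs))).const_mul 2)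
    have q1 : ∫ z in cell, ‖h z - (b + hh φ z)‖ ^ 2 ≤ κ / 4 := by
      have w1 : ∫ z in cell, ‖h z - (b + hh φ z)‖ ^ 2 ≤
          ∫ z in cell, ((f z - (a + hf φ z)) ^ 2 + ‖h z - (b + hh φ z)‖ ^ 2) := by
        apply integral_mono (wd_sq_int (m2 hφ)) (m3 hφ)
        intro z
        simp only
        nlinarith [sq_nonneg (f z - (a + hf φ z))]
      have w2 : κ / (32 * N') ≤ κ / 4 := by
        rw [div_le_div_iff₀ (by positivity) (by norm_num)]
        nlinarith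
      exact (w1.trans hφe2).trans w2
    have fin : ∀ H A B : ℝ, H ≤ E → A ≤ κ / 4 → B ≤ 3 * κ / 4 →
        (1 + t) * H + (1 + 1 / t) * (2 * A + 2 * B) ≤ E + δ + ε := by
      intro H A B hH hA hB
      have r1 : (1 + t) * H ≤ (1 + t) * E := mul_le_mul_of_nonneg_left hH (by positivity)
      have r2 : (1 + 1 / t) * (2 * A + 2 * B) ≤ (1 + 1 / t) * (2 * κ) :=
        mul_le_mul_of_nonneg_left (by linarith) (by positivity)
      have r3 : (1 + 1 / t) * (2 * κ) = δ / 2 := by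
        rw [hκ]
        field_simp
        norm_num
      rw [r3] at r2
      nlinarith
    calc ∫ z in cell, ‖b + (hh φ z - hh ψ z)‖ ^ 2
        ≤ ∫ z in cell, ((1 + t) * ‖h z‖ ^ 2 + (1 + 1 / t) *
          (2 * ‖h z - (b + hh φ z)‖ ^ 2 + 2 * ‖hh ψ z‖ ^ 2)) := by
          apply integral_mono_of_nonneg (Eventually.of_forall fun z => by positivity)
            (((wd_sq_int hh2).const_mul _).add (i1.const_mul _))
          refine Eventually.of_forall fun z => ?_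
          have q := van_norm3 t htpos (h z) (h z - (b + hh φ z)) (-(hh ψ z))
          rw [norm_neg] at q
          have q2 : h z - (h z - (b + hh φ z)) + -(hh ψ z) = b + (hh φ z - hh ψ z) := by ring
          rw [q2] at q
          exact q
      _ = (1 + t) * (∫ z in cell, ‖h z‖ ^ 2) + (1 + 1 / t) *
          (2 * (∫ z in cell, ‖h z - (b + hh φ z)‖ ^ 2) + 2 * ∫ z in cell, ‖hh ψ z‖ ^ 2) := by
          rw [integral_add ((wd_sq_int hh2).const_mul _) (i1.const_mul _), integral_const_mul,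
            integral_const_mul, integral_add ((wd_sq_int (m2 hφ)).const_mul 2)
              ((wd_sq_int (wd_memLp_cont (wd_cont_hh ψs))).const_mul 2), integral_const_mul,
            integral_const_mul]
      _ ≤ E + δ + ε := fin _ _ _ hE q1 hen

end EBC
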