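import Pool.Agent.Work.MP_ebc928_an.Fold
import Pool.Agent.Work.MP_ebc928_an.FoldG
import Pool.Agent.Work.MP_ebc928_an.StrongDual
import Pool.Agent.Work.MP_ebc928_an.WeakDual
import Pool.Agent.Work.MP_ebc928_an.Transport
import Pool.Agent.Work.MP_ebc928_an.Vanish

open MeasureTheory Complex Set Filter Topology
open scoped ContDiff ComplexConjugate

noncomputable section
namespace EBC

/-- data of a similarity -/
private structure SD (τ σ : ℂ → ℂ) (M : ℝ) : Prop where
  pos : 0 < M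
  nrm : ∀ z w, ‖τ z - τ w‖ = M * ‖z - w‖
  ri : ∀ z, τ (σ z) = z
  li : ∀ z, σ (τ z) = z
  hom : ∀ (c p : ℂ) (t : ℝ), τ (c + t • (p - c)) = τ c + t • (τ p - τ c)

private theorem IsSim.sd {τ : ℂ → ℂ} (h : IsSim τ) : ∃ σ M, SD τ σ M := by
  obtain ⟨a, b, ha, h | h⟩ := h
  · refine ⟨fun z => (z - b) / a, ‖a‖, norm_pos_iff.2 ha, fun z w => ?_, fun z => ?_, fun z => ?_,
      fun c p t => ?_⟩
    · rw [h, h, ← norm_mul]; congr 1; ring
    · rw [h]; field_simp; ring
    · simp only [h]; field_simp; ring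
    · rw [h, h, h]; simp only [real_smul]; ring
  · refine ⟨fun z => conj ((z - b) / a), ‖a‖, norm_pos_iff.2 ha, fun z w => ?_, fun z => ?_,
      fun z => ?_, fun c p t => ?_⟩
    · rw [h, h, ← RCLike.norm_conj (z - w), ← norm_mul]; congr 1; rw [map_sub]; ring
    · rw [h, conj_conj]; field_simp; ring
    · simp only [h]
      rw [show (a * conj z + b - b) / a = conj z by field_simp; ring, conj_conj]
    · rw [h, h, h]
      simp only [real_smul, map_add, map_mul, map_sub, conj_ofReal]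
      ring

namespace SD

variable {τ σ : ℂ → ℂ} {M : ℝ}

private theorem symm_nrm (h : SD τ σ M) (z w : ℂ) : ‖σ z - σ w‖ = M⁻¹ * ‖z - w‖ := by
  have := h.nrm (σ z) (σ w)
  rw [h.ri, h.ri] at this
  have hM := h.pos
  rw [this]; field_simp

private theorem image_eq (h : SD τ σ M) (A : Set ℂ) : τ '' A = σ ⁻¹' A := by
  ext z
  constructor
  · rintro ⟨x, hx, rfl⟩
    show σ (τ x) ∈ A
    rw [h.li]; exact hx
  · intro hz
    exact ⟨σ z, hz, h.ri z⟩

private theorem cont_symm (h : SD τ σ M) : Continuous σ := by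
  refine (LipschitzWith.of_dist_le_mul (K := ⟨M⁻¹, (inv_pos.2 h.pos).le⟩) fun x y => ?_).continuous
  rw [dist_eq_norm, dist_eq_norm, h.symm_nrm]
  rfl

private theorem measurableSet_image (h : SD τ σ M) {A : Set ℂ} (hA : MeasurableSet A) :
    MeasurableSet (τ '' A) := by
  rw [h.image_eq]; exact h.cont_symm.measurable hA

private theorem isOpen_image (h : SD τ σ M) {A : Set ℂ} (hA : IsOpen A) : IsOpen (τ '' A) := by
  rw [h.image_eq]; exact hA.preimage h.cont_symm

private theorem isClosed_image (h : SD τ σ M) {A : Set ℂ} (hA : IsClosed A) :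
    IsClosed (τ '' A) := by
  rw [h.image_eq]; exact hA.preimage h.cont_symm

private theorem ball_subset (h : SD τ σ M) (z : ℂ) (r : ℝ) :
    Metric.ball (τ z) (M * r) ⊆ τ '' Metric.ball z r := by
  intro w hw
  rw [Metric.mem_ball, dist_eq_norm] at hw
  refine ⟨σ w, ?_, h.ri w⟩
  rw [Metric.mem_ball, dist_eq_norm]
  have h1 := h.nrm (σ w) z
  rw [h.ri] at h1
  rw [h1] at hw
  exact lt_of_mul_lt_mul_left hw h.pos.le

end SD

private theorem hom_sd {s : ℝ} (hs : 0 < s) : SD (hom s) (hom s⁻¹) s where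
  pos := hs
  nrm z w := by
    unfold EBC.hom
    rw [show cen + s • (z - cen) - (cen + s • (w - cen)) = s • (z - w) by
      simp only [smul_sub]; ring, norm_smul, Real.norm_of_nonneg hs.le]
  ri z := by
    unfold EBC.hom
    rw [add_sub_cancel_left, smul_smul, mul_inv_cancel₀ hs.ne', one_smul]; ring
  li z := by
    unfold EBC.hom
    rw [add_sub_cancel_left, smul_smul, inv_mul_cancel₀ hs.ne', one_smul]; ring
  hom c p t := by
    unfold EBC.hom
    simp only [real_smul]; ring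

private theorem comp_sd {τ σ τ' σ' : ℂ → ℂ} {M M' : ℝ} (h : SD τ σ M) (h' : SD τ' σ' M') :
    SD (fun z => τ (τ' z)) (fun z => σ' (σ z)) (M * M') where
  pos := mul_pos h.pos h'.pos
  nrm z w := by rw [h.nrm, h'.nrm, mul_assoc]
  ri z := by rw [h'.ri, h.ri]
  li z := by rw [h.li, h'.li]
  hom c p t := by rw [h'.hom, h.hom]

private theorem cen_mem_triO : cen ∈ triO := by
  unfold cen triO
  refine ⟨?_, ?_, ?_⟩ <;> norm_num

private theorem hom_mem_triO {s : ℝ} (h0 : 0 ≤ s) (h1 : s < 1) {p : ℂ} (hp : p ∈ tri) :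
    hom s p ∈ triO := by
  obtain ⟨p1, p2, p3⟩ := hp
  unfold EBC.hom cen
  refine ⟨?_, ?_, ?_⟩
  · simp; nlinarith
  · simp; nlinarith
  · simp; nlinarith

private theorem hom_mem_tri {s : ℝ} (h0 : 0 ≤ s) (h1 : s ≤ 1) {p : ℂ} (hp : p ∈ tri) :
    hom s p ∈ tri := by
  rcases h1.lt_or_eq with h | h
  · exact triO_subset_tri (hom_mem_triO h0 h hp)
  · subst h
    unfold EBC.hom
    rw [one_smul, add_sub_cancel]
    exact hp

private theorem hom_hom (s t : ℝ) (p : ℂ) : hom s (hom t p) = hom (s * t) p := by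
  unfold EBC.hom
  rw [add_sub_cancel_left, smul_smul]

private theorem hom_cen (s : ℝ) : hom s cen = cen := by
  unfold EBC.hom; simp

private theorem hom_zero (p : ℂ) : hom 0 p = cen := by
  unfold EBC.hom; simp

/-- the setting -/
private structure Setting (C : Set ℂ) (ρ₀ : ℝ) (τ σ : ℂ → ℂ) (M : ℝ) (R : Set ℂ) : Prop where
  mC : MeasurableSet C
  h0 : 0 < ρ₀
  h1 : ρ₀ < 1
  sub : C ⊆ hom ρ₀ '' tri
  sd : SD τ σ M
  maps : τ '' tri ⊆ tri
  mR : MeasurableSet R
  Rt : R ⊆ tri \ τ '' triO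

private def VC (C : Set ℂ) (τ : ℂ → ℂ) (R : Set ℂ) (s : ℝ) : Set ℂ := R ∪ τ '' (hom s '' C)

section

variable {C : Set ℂ} {ρ₀ : ℝ} {τ σ : ℂ → ℂ} {M : ℝ} {R : Set ℂ}

private theorem Setting.C_tri (h : Setting C ρ₀ τ σ M R) : C ⊆ tri := by
  intro p hp
  obtain ⟨q, hq, rfl⟩ := h.sub hp
  exact hom_mem_tri h.h0.le h.h1.le hq

private theorem Setting.VC_tri (h : Setting C ρ₀ τ σ M R) {s : ℝ} (h0 : 0 ≤ s) (h1 : s ≤ 1) :
    VC C τ R s ⊆ tri := by
  rintro z (hz | ⟨_, ⟨q, hq, rfl⟩, rfl⟩)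
  · exact (h.Rt hz).1
  · exact h.maps ⟨_, hom_mem_tri h0 h1 (h.C_tri hq), rfl⟩

private theorem Setting.VC_meas (h : Setting C ρ₀ τ σ M R) {s : ℝ} (h0 : 0 ≤ s) :
    MeasurableSet (VC C τ R s) := by
  refine h.mR.union (h.sd.measurableSet_image ?_)
  rcases h0.lt_or_eq with h0 | h0
  · exact (hom_sd h0).measurableSet_image h.mC
  · subst h0
    have : hom 0 '' C ⊆ {cen} := by
      rintro _ ⟨q, _, rfl⟩
      exact hom_zero q
    exact (Set.finite_singleton cen |>.subset this).measurableSet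

private theorem Setting.comp (h : Setting C ρ₀ τ σ M R) {s : ℝ} (h0 : 0 ≤ s) :
    Composite (KS (VC C τ R s)) := composite_KS (h.VC_meas h0)

private theorem Setting.open_image (h : Setting C ρ₀ τ σ M R) : IsOpen (τ '' triO) :=
  h.sd.isOpen_image isOpen_triO

private theorem Setting.image_sub (h : Setting C ρ₀ τ σ M R) : τ '' triO ⊆ triO := by
  intro z hz
  by_contra hcon
  have h1 := mem_closure_compl_tri hcon
  rw [mem_closure_iff] at h1
  obtain ⟨w, hw, hw'⟩ := h1 _ h.open_image hz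
  obtain ⟨p, hp, rfl⟩ := hw
  exact hw' (h.maps ⟨p, triO_subset_tri hp, rfl⟩)

private theorem act_sub (g : GE) (p q : ℂ) : g.act p - g.act q = g.a * cj g.c (p - q) := by
  unfold GE.act
  cases g.c <;> simp [cj] <;> ring

private theorem cj_real_smul (c : Bool) (t : ℝ) (v : ℂ) : cj c (t • v) = t • cj c v := by
  cases c <;> simp [cj]

private theorem cj_pow (c : Bool) (v : ℂ) (n : ℕ) : cj c (v ^ n) = (cj c v) ^ n := by
  cases c <;> simp [cj]

private theorem cj_real (c : Bool) (t : ℝ) : cj c (t : ℂ) = t := by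
  cases c <;> simp [cj]

/-- the homothetic fields of the kaleidoscope -/
private theorem homField_of_bump {η : ℂ → ℝ} (hη : ContDiff ℝ ∞ η) (hs : tsupport η ⊆ triO)
    (c : ℂ) : ∃ (N1 : ℂ → ℝ) (N2 : ℂ → ℂ), HomField (fun z => η (fold z))
      (lift 1 (fun p => η p • (p - c))) N1 N2 := by
  set f0 : ℂ → ℂ := fun p => (η p : ℂ) with hf0
  set f1 : ℂ → ℂ := fun p => η p • (p - c) with hf1
  set f2 : ℂ → ℂ := fun p => ((η p * ‖p - c‖ ^ 2 : ℝ) : ℂ) with hf2
  set f3 : ℂ → ℂ := fun p => η p • (p - c) ^ 2 with hf3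
  have hz : ∀ p ∉ triO, η p = 0 := fun p hp => image_eq_zero_of_notMem_tsupport (fun h => hp (hs h))
  have t0 : tsupport f0 ⊆ triO := by
    refine (closure_mono ?_).trans hs
    intro p hp
    simp only [hf0, Function.mem_support] at hp ⊢
    exact fun h => hp (by rw [h]; simp)
  have t1 : tsupport f1 ⊆ triO := by
    refine (closure_mono ?_).trans hs
    intro p hp
    simp only [hf1, Function.mem_support] at hp ⊢
    exact fun h => hp (by rw [h]; simp)
  have t2 : tsupport f2 ⊆ triO := by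
    refine (closure_mono ?_).trans hs
    intro p hp
    simp only [hf2, Function.mem_support] at hp ⊢
    exact fun h => hp (by rw [h]; simp)
  have t3 : tsupport f3 ⊆ triO := by
    refine (closure_mono ?_).trans hs
    intro p hp
    simp only [hf3, Function.mem_support] at hp ⊢
    exact fun h => hp (by rw [h]; simp)
  have s0 : ContDiff ℝ ∞ f0 := ofRealCLM.contDiff.comp hη
  have s1 : ContDiff ℝ ∞ f1 := hη.smul (contDiff_id.sub contDiff_const)
  have s2 : ContDiff ℝ ∞ f2 :=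
    ofRealCLM.contDiff.comp (hη.mul ((contDiff_id.sub contDiff_const).norm_sq ℝ))
  have s3 : ContDiff ℝ ∞ f3 := hη.smul ((contDiff_id.sub contDiff_const).pow 2)
  have r0 : (fun z => η (fold z)) = fun z => reCLM (lift 0 f0 z) := by
    funext z
    simp only [lift, hf0, pow_zero, one_mul, cj_real]
    simp
  have r2 : (fun z => η (fold z) * ‖fold z - c‖ ^ 2) = fun z => reCLM (lift 0 f2 z) := by
    funext z
    simp only [lift, hf2, pow_zero, one_mul, cj_real]
    rw [reCLM_apply, ofReal_re]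
  refine ⟨fun z => η (fold z) * ‖fold z - c‖ ^ 2, lift 2 f3, ?_, lift_smooth 1 s1 t1, ?_,
    lift_smooth 2 s3 t3, ?_, ?_, ?_, ?_, ?_⟩
  · rw [r0]
    exact reCLM.contDiff.comp (lift_smooth 0 s0 t0)
  · rw [r2]
    exact reCLM.contDiff.comp (lift_smooth 0 s2 t2)
  · intro z
    simp only [fold_add_one, fold_add_I, and_self]
  · exact per_lift (fun p hp => by simp [hf1, hz p hp]) 1
  · intro z
    simp only [fold_add_one, fold_add_I, and_self]
  · exact per_lift (fun p hp => by simp [hf3, hz p hp]) 2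
  · intro z₀
    by_cases h : fold z₀ ∈ triO
    · refine ⟨(chart z₀).act c, ?_⟩
      have h1 : (chart z₀).inv z₀ ∈ triO := by rwa [chart_inv]
      filter_upwards [(chart z₀).continuous_inv.continuousAt.preimage_mem_nhds
        (isOpen_triO.mem_nhds h1)] with w hw
      have hw' : (chart z₀).inv w ∈ triO := hw
      have hfw := fold_of_inv (triO_subset_tri hw')
      have hsub : w - (chart z₀).act c = (chart z₀).a * cj (chart z₀).c ((chart z₀).inv w - c) := by
        rw [← act_sub, GE.act_inv]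
      refine ⟨?_, ?_, ?_⟩
      · rw [lift_eq_of_inv hw', hfw, hsub]
        simp only [GE.push, hf1, cj_real_smul, pow_one]
        rw [mul_smul_comm]
      · rw [hfw, hsub, norm_mul, GE.norm_a, one_mul, norm_cj]
      · rw [lift_eq_of_inv hw', hfw, hsub]
        simp only [GE.push, hf3, cj_real_smul, cj_pow]
        rw [mul_smul_comm, mul_pow]
    · refine ⟨0, ?_⟩
      have h1 : (tsupport η)ᶜ ∈ 𝓝 (fold z₀) :=
        (isClosed_tsupport η).isOpen_compl.mem_nhds (fun h' => h (hs h'))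
      filter_upwards [continuous_fold.continuousAt.preimage_mem_nhds h1] with w hw
      have h2 : η (fold w) = 0 := image_eq_zero_of_notMem_tsupport hw
      refine ⟨?_, ?_, ?_⟩
      · simp [lift, hf1, h2, cj_zero]
      · simp [h2]
      · simp [lift, hf3, h2, cj_zero]

private theorem exists_bump {O K : Set ℂ} (hO : IsOpen O) (hK : IsClosed K) (hKO : K ⊆ O) :
    ∃ η : ℂ → ℝ, ContDiff ℝ ∞ η ∧ (∀ p ∉ O, ∀ᶠ q in 𝓝 p, η q = 0) ∧
      ∀ p ∈ K, ∀ᶠ q in 𝓝 p, η q = 1 := by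
  obtain ⟨f, h0, h1, _⟩ := exists_contMDiffMap_zero_one_nhds_of_isClosed (n := (⊤ : ℕ∞))
    (modelWithCornersSelf ℝ ℂ) (s := Oᶜ) (t := K) hO.isClosed_compl hK
    (Set.disjoint_left.2 fun p hp hp' => hp (hKO hp'))
  refine ⟨f, f.contMDiff.contDiff, fun p hp => ?_, fun p hp => ?_⟩
  · exact h0.filter_mono (nhds_le_nhdsSet hp)
  · exact h1.filter_mono (nhds_le_nhdsSet hp)

private theorem measurableSet_cell' : MeasurableSet cell := by
  unfold cell
  exact (Complex.measurable_re measurableSet_Ico).inter (Complex.measurable_im measurableSet_Ico)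

private theorem volume_cell_lt' : volume cell < ⊤ := by
  have h1 : cell ⊆ Metric.closedBall 0 2 := by
    rintro z ⟨⟨h1, h2⟩, ⟨h3, h4⟩⟩
    rw [Metric.mem_closedBall, dist_zero_right]
    refine (norm_le_abs_re_add_abs_im z).trans ?_
    rw [abs_of_nonneg h1, abs_of_nonneg h3]
    linarith
  exact (measure_mono h1).trans_lt measure_closedBall_lt_top

private theorem tri_sub_cell : tri ⊆ cell := by
  rintro z ⟨h0, h1, h2⟩
  exact ⟨⟨by linarith, by linarith⟩, ⟨h0, by linarith⟩⟩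

/-- volume of the void -/
private theorem Setting.vol (h : Setting C ρ₀ τ σ M R) {z₀ : ℂ} {r : ℝ}
    (hball : Metric.ball z₀ r ⊆ C) {s s₁ : ℝ} (h0 : 0 < s) (h1 : s ≤ 1)
    (hs : s₁ ≤ s) (hr : 0 ≤ r) :
    (volume (Metric.ball (0 : ℂ) (M * s₁ * r))).toReal ≤
      (volume (cell \ KS (VC C τ R s))).toReal := by
  have hfin : volume (cell \ KS (VC C τ R s)) ≠ ⊤ :=
    ((measure_mono diff_subset).trans_lt volume_cell_lt').ne
  refine ENNReal.toReal_mono hfin ?_
  have h2 := comp_sd h.sd (hom_sd h0)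
  have h3 := h2.ball_subset z₀ r
  have h4 : Metric.ball (τ (hom s z₀)) (M * s₁ * r) ⊆ cell \ KS (VC C τ R s) := by
    intro w hw
    have hw' : w ∈ Metric.ball (τ (hom s z₀)) (M * s * r) := by
      refine Metric.ball_subset_ball ?_ hw
      have := h.sd.pos
      gcongr
    obtain ⟨q, hq, rfl⟩ := h3 hw'
    have h5 : τ (hom s q) ∈ VC C τ R s := Or.inr ⟨_, ⟨q, hball hq, rfl⟩, rfl⟩
    have h6 := h.VC_tri h0.le h1 h5
    refine ⟨tri_sub_cell h6, fun hcon => hcon ?_⟩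
    show fold (τ (hom s q)) ∈ VC C τ R s
    rw [fold_of_mem h6]
    exact h5
  calc volume (Metric.ball (0 : ℂ) (M * s₁ * r))
      = volume (Metric.ball (τ (hom s z₀)) (M * s₁ * r)) :=
        (Measure.addHaar_ball_center volume _ _).symm
    _ ≤ _ := measure_mono h4

private theorem Setting.void_ball (h : Setting C ρ₀ τ σ M R) {z₀ : ℂ} {r : ℝ}
    (hball : Metric.ball z₀ r ⊆ C) {s : ℝ} (h0 : 0 < s) (h1 : s ≤ 1) :
    Metric.ball (τ (hom s z₀)) (M * s * r) ⊆ (KS (VC C τ R s))ᶜ := by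
  have h2 := comp_sd h.sd (hom_sd h0)
  intro w hw
  obtain ⟨q, hq, rfl⟩ := h2.ball_subset z₀ r hw
  have h5 : τ (hom s q) ∈ VC C τ R s := Or.inr ⟨_, ⟨q, hball hq, rfl⟩, rfl⟩
  have h6 := h.VC_tri h0.le h1 h5
  refine fun hcon => hcon ?_
  show fold (τ (hom s q)) ∈ VC C τ R s
  rw [fold_of_mem h6]
  exact h5

/-- transport of the voids -/
private theorem Setting.move (h : Setting C ρ₀ τ σ M R) {η : ℂ → ℝ}
    (hη0 : ∀ p ∉ τ '' triO, ∀ᶠ q in 𝓝 p, η q = 0)
    (hη1 : ∀ p ∈ τ '' (hom ρ₀ '' tri), ∀ᶠ q in 𝓝 p, η q = 1) {s s' t : ℝ} (hs0 : 0 ≤ s)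
    (hs1 : s ≤ 1) (hs0' : 0 ≤ s') (hs1' : s' ≤ 1) (ht : s = (1 + t) * s') (z : ℂ)
    (hz : z ∉ KS (VC C τ R s')) :
    z + t • lift 1 (fun p => η p • (p - τ cen)) z ∉ KS (VC C τ R s) ∧
      ∀ᶠ w in 𝓝 z, η (fold w) = η (fold z) := by
  have hz' : fold z ∈ VC C τ R s' := not_not.1 hz
  rcases hz' with hR | ⟨_, ⟨q, hq, rfl⟩, hq'⟩
  · have h1 := hη0 (fold z) (h.Rt hR).2
    have h2 : η (fold z) = 0 := h1.self_of_nhds
    have h3 : ∀ᶠ w in 𝓝 z, η (fold w) = 0 := continuous_fold.continuousAt.eventually h1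
    refine ⟨?_, by rw [h2]; exact h3⟩
    have h4 : lift 1 (fun p => η p • (p - τ cen)) z = 0 := by
      unfold lift
      simp only [h2, zero_smul, cj_zero, mul_zero]
    rw [h4, smul_zero, add_zero]
    exact fun hcon => hcon (Or.inl hR)
  · have hqt := h.C_tri hq
    have hK : fold z ∈ τ '' (hom ρ₀ '' tri) := by
      obtain ⟨q', hq1, hq2⟩ := h.sub hq
      rw [← hq', ← hq2]
      refine ⟨_, ⟨hom s' q', hom_mem_tri hs0' hs1' hq1, ?_⟩, rfl⟩
      rw [hom_hom, hom_hom, mul_comm]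
    have h1 := hη1 (fold z) hK
    have h2 : η (fold z) = 1 := h1.self_of_nhds
    have h3 : ∀ᶠ w in 𝓝 z, η (fold w) = 1 := continuous_fold.continuousAt.eventually h1
    refine ⟨?_, by rw [h2]; exact h3⟩
    have h4 : lift 1 (fun p => η p • (p - τ cen)) z = z - (chart z).act (τ cen) := by
      unfold lift
      simp only [h2, one_smul, pow_one]
      rw [← act_sub, chart_act]
    have h5 : z + t • (z - (chart z).act (τ cen)) = (chart z).act (τ (hom s q)) := by
      have e1 : τ (hom s q) = τ cen + (1 + t) • (fold z - τ cen) := by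
        rw [← hq', ← h.sd.hom, ht]
        congr 1
        unfold EBC.hom
        rw [add_sub_cancel_left, smul_smul]
      rw [e1, GE.act_hom, chart_act]
      simp only [real_smul, ofReal_add, ofReal_one]
      ring
    rw [h4, h5]
    have h6 : τ (hom s q) ∈ VC C τ R s := Or.inr ⟨_, ⟨q, hq, rfl⟩, rfl⟩
    refine fun hcon => hcon ?_
    rw [fold_act, fold_of_mem (h.VC_tri hs0 hs1 h6)]
    exact h6

private theorem ineq_of_dual {S S' : Set ℂ} (hS' : Composite S') {b β : ℂ} {x : ℝ}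
    (hre : (conj b * β).re = W S 0 β / 4) (hseq : DualSeq S' b (W S 0 β / 4 * x)) (hx : 0 ≤ x) :
    W S 0 β ≤ x * W S' 0 β := by
  have h1 := weak_dual hS' hseq β
  rw [hre] at h1
  have h2 := W_nonneg S 0 β
  have h3 := W_nonneg S' 0 β
  rcases h2.lt_or_eq with h4 | h4
  · have h5 : W S 0 β * W S 0 β ≤ W S 0 β * (x * W S' 0 β) := by nlinarith
    exact le_of_mul_le_mul_left h5 h4
  · rw [← h4]; positivity

/-- comparison at two nearby scales -/
private theorem Setting.compare (h : Setting C ρ₀ τ σ M R) {z₀ : ℂ} {r : ℝ} (hr : 0 < r)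
    (hball : Metric.ball z₀ r ⊆ C) (β : ℂ) {s₁ : ℝ} (hs₁ : 0 < s₁) :
    ∃ t₀ > 0, ∃ D ≥ 0, ∀ s s' t : ℝ, s₁ ≤ s → s ≤ 1 → 0 < s' → s' ≤ 1 → s = (1 + t) * s' →
      |t| ≤ t₀ → W (KS (VC C τ R s)) 0 β ≤ (1 + D * |t|) * W (KS (VC C τ R s')) 0 β := by
  obtain ⟨η, hη, hη0, hη1⟩ := exists_bump h.open_image
    (K := τ '' (hom ρ₀ '' tri)) (h.sd.isClosed_image ((hom_sd h.h0).isClosed_image isClosed_tri))
    (by
      rintro _ ⟨_, ⟨p, hp, rfl⟩, rfl⟩
      exact ⟨_, hom_mem_triO h.h0.le h.h1 hp, rfl⟩)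
  have hsupp : tsupport η ⊆ triO := by
    refine Set.Subset.trans ?_ h.image_sub
    intro p hp
    by_contra hcon
    exact notMem_tsupport_iff_eventuallyEq.2 (hη0 p hcon) hp
  obtain ⟨N1, N2, hF⟩ := homField_of_bump hη hsupp (τ cen)
  have hθ : 0 < (volume (Metric.ball (0 : ℂ) (M * s₁ * r))).toReal := by
    refine ENNReal.toReal_pos ?_ measure_ball_lt_top.ne
    have := h.sd.pos
    exact (Metric.measure_ball_pos volume _ (by positivity)).ne'
  obtain ⟨t₀, ht₀, D, hD, htr⟩ := transport hF hθ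
  refine ⟨t₀, ht₀, D, hD, fun s s' t hs hs1 hs' hs1' ht htt => ?_⟩
  have hs0 : 0 < s := hs₁.trans_le hs
  have hcS := h.comp hs0.le
  have hcS' := h.comp hs'.le
  have hpos : 0 < M * s * r := by
    have := h.sd.pos
    positivity
  obtain ⟨b, hb, hre⟩ := strong_dual hcS hpos (h.void_ball hball hs0 hs1) β
  refine ineq_of_dual hcS' hre ?_ (by positivity)
  exact htr t htt _ _ hcS hcS' (h.vol hball hs0 hs1 hs hr.le)
    (Eventually.of_forall fun z hz => h.move hη0 hη1 hs0.le hs1 hs'.le hs1' ht z hz) b _ hb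

private theorem Setting.cont_at (h : Setting C ρ₀ τ σ M R) {z₀ : ℂ} {r : ℝ} (hr : 0 < r)
    (hball : Metric.ball z₀ r ⊆ C) (β : ℂ) {s₀ : ℝ} (hs₀ : 0 < s₀) (hs₀1 : s₀ ≤ 1) :
    ContinuousWithinAt (fun s : ℝ => W (KS (VC C τ R s)) 0 β) (Iic 1) s₀ := by
  obtain ⟨t₀, ht₀, D, hD, hcmp⟩ := h.compare hr hball β (half_pos hs₀)
  have hlim : Tendsto (fun s : ℝ => D * (|s / s₀ - 1| + |s₀ / s - 1|) * (4 * ‖β‖ ^ 2))
      (𝓝 s₀) (𝓝 0) := by
    have h1 : ContinuousAt (fun s : ℝ => D * (|s / s₀ - 1| + |s₀ / s - 1|) * (4 * ‖β‖ ^ 2)) s₀ := by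
      have : s₀ ≠ 0 := hs₀.ne'
      fun_prop (disch := assumption)
    have h2 := h1.tendsto
    simpa [div_self hs₀.ne'] using h2
  have e1 : ∀ᶠ s : ℝ in 𝓝 s₀, |s / s₀ - 1| ≤ t₀ := by
    have h1 : ContinuousAt (fun s : ℝ => |s / s₀ - 1|) s₀ := by fun_prop
    have h2 := h1.tendsto
    simp only [div_self hs₀.ne', sub_self, abs_zero] at h2
    exact h2.eventually_le_const ht₀
  have e2 : ∀ᶠ s : ℝ in 𝓝 s₀, |s₀ / s - 1| ≤ t₀ := by
    have h1 : ContinuousAt (fun s : ℝ => |s₀ / s - 1|) s₀ := by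
      have : s₀ ≠ 0 := hs₀.ne'
      fun_prop (disch := assumption)
    have h2 := h1.tendsto
    simp only [div_self hs₀.ne', sub_self, abs_zero] at h2
    exact h2.eventually_le_const ht₀
  have e3 : ∀ᶠ s : ℝ in 𝓝 s₀, s₀ / 2 ≤ s := by
    filter_upwards [lt_mem_nhds (show s₀ / 2 < s₀ by linarith)] with s hs using hs.le
  rw [ContinuousWithinAt, tendsto_iff_dist_tendsto_zero]
  refine squeeze_zero' (Eventually.of_forall fun _ => dist_nonneg) ?_
    (hlim.mono_left nhdsWithin_le_nhds)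
  filter_upwards [mem_nhdsWithin_of_mem_nhds e1, mem_nhdsWithin_of_mem_nhds e2,
    mem_nhdsWithin_of_mem_nhds e3, self_mem_nhdsWithin] with s h1 h2 h3 h4
  have hs : 0 < s := by linarith
  have h4' : s ≤ 1 := h4
  have k1 := hcmp s s₀ (s / s₀ - 1) h3 h4' hs₀ hs₀1 (by field_simp; ring) h1
  have k2 := hcmp s₀ s (s₀ / s - 1) (by linarith) hs₀1 hs h4' (by field_simp; ring) h2
  have k3 := W_zero_le (KS (VC C τ R s)) β
  have k4 := W_zero_le (KS (VC C τ R s₀)) β
  have k5 := W_nonneg (KS (VC C τ R s)) 0 β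
  have k6 := W_nonneg (KS (VC C τ R s₀)) 0 β
  rw [Real.dist_eq, abs_le]
  have a1 := abs_nonneg (s / s₀ - 1)
  have a2 := abs_nonneg (s₀ / s - 1)
  have m1 : D * |s / s₀ - 1| * W (KS (VC C τ R s₀)) 0 β ≤ D * |s / s₀ - 1| * (4 * ‖β‖ ^ 2) := by
    gcongr
  have m2 : D * |s₀ / s - 1| * W (KS (VC C τ R s)) 0 β ≤ D * |s₀ / s - 1| * (4 * ‖β‖ ^ 2) := by
    gcongr
  have m3 : 0 ≤ D * |s / s₀ - 1| * (4 * ‖β‖ ^ 2) := by positivity
  have m4 : 0 ≤ D * |s₀ / s - 1| * (4 * ‖β‖ ^ 2) := by positivity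
  constructor <;> nlinarith

end

private theorem setting_of {C : Set ℂ} (hC : MeasurableSet C) {ρ₀ : ℝ} (h0 : 0 < ρ₀) (h1 : ρ₀ < 1)
    (hCsub : C ⊆ hom ρ₀ '' tri) {τ : ℂ → ℂ} (hτ : IsSim τ) (hτt : τ '' tri ⊆ tri)
    {R : Set ℂ} (hR : MeasurableSet R) (hRt : R ⊆ tri \ τ '' triO) :
    ∃ σ M, Setting C ρ₀ τ σ M R := by
  obtain ⟨σ, M, h⟩ := hτ.sd
  exact ⟨σ, M, hC, h0, h1, hCsub, h, hτt, hR, hRt⟩

/-- continuity while a cluster `C` of voids is scaled by a factor `s ∈ (0,1]` inside the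
triangle `τ(tri)` -/
theorem cont_pos {C : Set ℂ} (hC : MeasurableSet C) {ρ₀ : ℝ} (h0 : 0 < ρ₀) (h1 : ρ₀ < 1)
    (hCsub : C ⊆ hom ρ₀ '' tri) {z₀ : ℂ} {r : ℝ} (hr : 0 < r) (hball : Metric.ball z₀ r ⊆ C)
    {τ : ℂ → ℂ} (hτ : IsSim τ) (hτt : τ '' tri ⊆ tri)
    {R : Set ℂ} (hR : MeasurableSet R) (hRt : R ⊆ tri \ τ '' triO) (β : ℂ) :
    ContinuousOn (fun s : ℝ => W (KS (R ∪ τ '' (hom s '' C))) 0 β) (Ioc 0 1) := by
  obtain ⟨σ, M, h⟩ := setting_of hC h0 h1 hCsub hτ hτt hR hRt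
  intro s₀ hs₀
  exact (h.cont_at hr hball β hs₀.1 hs₀.2).mono fun s hs => hs.2

/-- continuity down to `s = 0` if there is another void -/
theorem cont_all {C : Set ℂ} (hC : MeasurableSet C) {ρ₀ : ℝ} (h0 : 0 < ρ₀) (h1 : ρ₀ < 1)
    (hCsub : C ⊆ hom ρ₀ '' tri) {z₀ : ℂ} {r : ℝ} (hr : 0 < r) (hball : Metric.ball z₀ r ⊆ C)
    {τ : ℂ → ℂ} (hτ : IsSim τ) (hτt : τ '' tri ⊆ tri)
    {R : Set ℂ} (hR : MeasurableSet R) (hRt : R ⊆ tri \ τ '' triO)
    {z₁ : ℂ} {r₁ : ℝ} (hr₁ : 0 < r₁) (hball₁ : Metric.ball z₁ r₁ ⊆ R) (β : ℂ) :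
    ContinuousOn (fun s : ℝ => W (KS (R ∪ τ '' (hom s '' C))) 0 β) (Icc 0 1) := by
  obtain ⟨σ, M, h⟩ := setting_of hC h0 h1 hCsub hτ hτt hR hRt
  intro s₀ hs₀
  rcases hs₀.1.lt_or_eq with hpos | hzero
  · exact (h.cont_at hr hball β hpos hs₀.2).mono fun s hs => hs.2
  subst hzero
  have hcR : Composite (KS R) := composite_KS hR
  have hcen : τ cen ∈ τ '' triO := ⟨cen, cen_mem_triO, rfl⟩
  have hcenT : τ cen ∈ tri := triO_subset_tri (h.image_sub hcen)
  obtain ⟨ρ', hρ', hball'⟩ := Metric.isOpen_iff.1 h.open_image _ hcen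
  -- value at zero
  have hF0 : W (KS (R ∪ τ '' (hom 0 '' C))) 0 β = W (KS R) 0 β := by
    refine W_congr (ae_restrict_of_ae ?_) 0 β
    have h2 : ∀ᵐ z : ℂ, fold z ≠ τ cen := by
      refine ae_fold (p := fun z => z ≠ τ cen) ?_
      have h3 : ∀ᵐ z : ℂ, z ≠ τ cen := by
        have := measure_singleton (μ := (volume : Measure ℂ)) (τ cen)
        exact measure_eq_zero_iff_ae_notMem.1 this
      filter_upwards [h3] with z hz _ using hz
    filter_upwards [h2] with z hz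
    show fold z ∉ R ∪ τ '' (hom 0 '' C) ↔ fold z ∉ R
    constructor
    · exact fun h' h'' => h' (Or.inl h'')
    · rintro h' (h'' | ⟨_, ⟨q, _, rfl⟩, h''⟩)
      · exact h' h''
      · rw [hom_zero] at h''
        exact hz h''.symm
  have hup : ∀ s : ℝ, 0 ≤ s → W (KS (R ∪ τ '' (hom s '' C))) 0 β ≤ W (KS R) 0 β := by
    intro s hs
    refine W_mono hcR.meas (h.comp hs).meas (Eventually.of_forall fun z hz => ?_) β
    exact fun hcon => hz (Or.inl hcon)
  -- the dual field of `KS R`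
  have hvoid : Metric.ball z₁ r₁ ⊆ (KS R)ᶜ := by
    intro z hz
    have hzR := hball₁ hz
    refine fun hcon => hcon ?_
    rw [fold_of_mem (hRt hzR).1]
    exact hzR
  obtain ⟨b, hb, hre⟩ := strong_dual hcR hr₁ hvoid β
  have hnear : ∀ c : ℂ, fold c = τ cen → ∀ z, dist z c < ρ' →
      fold z ∈ τ '' triO ∧ fold z = (chart c).inv z := by
    intro c hc z hz
    have h2 : (chart c).inv z ∈ Metric.ball (τ cen) ρ' := by
      rw [Metric.mem_ball, dist_eq_norm, ← hc, ← chart_inv c, GE.norm_inv_sub, ← dist_eq_norm]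
      exact hz
    have h3 := hball' h2
    have h4 := fold_of_inv (triO_subset_tri (h.image_sub h3))
    exact ⟨by rw [h4]; exact h3, h4⟩
  have hsep : ∀ c ∈ {z : ℂ | fold z = τ cen}, ∀ c' ∈ {z : ℂ | fold z = τ cen}, c ≠ c' →
      4 * (ρ' / 4) ≤ dist c c' := by
    intro c hc c' hc' hne
    by_contra hcon
    push Not at hcon
    obtain ⟨_, h3⟩ := hnear c hc c' (by rw [dist_comm]; linarith)
    apply hne
    have e1 : (chart c).act (fold c') = c' := by rw [h3, GE.act_inv]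
    have e2 : (chart c).act (fold c) = c := chart_act c
    have e3 : fold c' = τ cen := hc'
    have e4 : fold c = τ cen := hc
    rw [← e1, e3, ← e4, e2]
  have hsol : ∀ c ∈ {z : ℂ | fold z = τ cen}, Metric.ball c (2 * (ρ' / 4)) ⊆ KS R := by
    intro c hc z hz
    obtain ⟨h3, _⟩ := hnear c hc z (by rw [Metric.mem_ball] at hz; linarith)
    exact fun hcon => (hRt hcon).2 h3
  have hlow : ∀ δ > 0, ∃ s₁ > 0, ∀ s : ℝ, 0 < s → s ≤ s₁ → s ≤ 1 →
      W (KS R) 0 β - 4 * δ ≤ W (KS (R ∪ τ '' (hom s '' C))) 0 β := by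
    intro δ hδ
    obtain ⟨sv, hsv, hv⟩ := vanish hcR hb (Z := {z : ℂ | fold z = τ cen})
      (fun z => ⟨by simp only [mem_setOf_eq, fold_add_one], by simp only [mem_setOf_eq, fold_add_I]⟩)
      (by positivity : 0 < ρ' / 4) hsep hsol δ hδ
    have hM := h.sd.pos
    refine ⟨sv / M, by positivity, fun s hs hs1 hs1' => ?_⟩
    have hseq := hv sv hsv le_rfl (KS (R ∪ τ '' (hom s '' C))) (h.comp hs.le)
      (Eventually.of_forall fun z hz => ?_)
    · have h2 := weak_dual (h.comp hs.le) hseq β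
      rw [hre] at h2
      have h3 := W_nonneg (KS R) 0 β
      have h4 := W_nonneg (KS (R ∪ τ '' (hom s '' C))) 0 β
      by_contra hcon
      push Not at hcon
      have h5 : W (KS (R ∪ τ '' (hom s '' C))) 0 β * (W (KS R) 0 β + 4 * δ) <
          (W (KS R) 0 β - 4 * δ) * (W (KS R) 0 β + 4 * δ) :=
        mul_lt_mul_of_pos_right hcon (by positivity)
      have h6 : W (KS (R ∪ τ '' (hom s '' C))) 0 β * (W (KS R) 0 β / 4 + δ) * 4 =
          W (KS (R ∪ τ '' (hom s '' C))) 0 β * (W (KS R) 0 β + 4 * δ) := by ring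
      change 4 * (W (KS R) 0 β / 4) ^ 2 ≤
        W (KS (R ∪ τ '' (hom s '' C))) 0 β * (W (KS R) 0 β / 4 + δ) at h2
      nlinarith
    · have hz' : fold z ∈ R ∪ τ '' (hom s '' C) := not_not.1 hz
      rcases hz' with hz' | ⟨_, ⟨q, hq, rfl⟩, hq'⟩
      · exact Or.inl fun hcon => hcon hz'
      · right
        refine ⟨(chart z).act (τ cen), ?_, ?_⟩
        · show fold ((chart z).act (τ cen)) = τ cen
          rw [fold_act, fold_of_mem hcenT]
        · have h7 : dist z ((chart z).act (τ cen)) = M * (s * ‖q - cen‖) := by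
            conv_lhs => rw [← chart_act z]
            rw [dist_eq_norm]
            have h8 := (chart z).norm_act_sub (fold z) (τ cen)
            rw [chart_act] at h8 ⊢
            rw [h8, ← hq', h.sd.nrm]
            congr 1
            have h9 := (hom_sd hs).nrm q cen
            rw [hom_cen] at h9
            exact h9
          have h10 : ‖q - cen‖ ≤ 1 := by
            have hqt := h.C_tri hq
            obtain ⟨q1, q2, q3⟩ := hqt
            refine (norm_le_abs_re_add_abs_im _).trans ?_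
            have e1 : |(q - cen).re| ≤ 1 / 2 := by
              rw [abs_le]; unfold cen; constructor <;> simp <;> linarith
            have e2 : |(q - cen).im| ≤ 1 / 2 := by
              rw [abs_le]; unfold cen; constructor <;> simp <;> linarith
            linarith
          rw [h7]
          calc M * (s * ‖q - cen‖) ≤ M * (sv / M * 1) := by gcongr
            _ = sv := by field_simp
  rw [Metric.continuousWithinAt_iff]
  intro ε hε
  obtain ⟨s₁, hs₁, hl⟩ := hlow (ε / 8) (by positivity)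
  refine ⟨s₁, hs₁, fun {s} hs hd => ?_⟩
  rw [Real.dist_eq, sub_zero, abs_of_nonneg hs.1] at hd
  show dist (W (KS (R ∪ τ '' (hom s '' C))) 0 β) (W (KS (R ∪ τ '' (hom 0 '' C))) 0 β) < ε
  rw [hF0]
  rcases hs.1.lt_or_eq with hp | hp
  · have k1 := hl s hp hd.le hs.2
    have k2 := hup s hp.le
    rw [Real.dist_eq, abs_lt]
    constructor <;> linarith
  · subst hp
    rw [hF0, dist_self]
    exact hε

end EBC
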