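import Mathlib

/-!
# MP_ebc928_an : definitions

The plane `ℝ²` is identified with `ℂ` (`z = x + i y`), a displacement `(u₁,u₂)` with the complex
valued function `u = u₁ + i u₂`.  `ux`, `uy` are its partial derivatives, so
`∂₁u₁ = (ux z).re`, `∂₁u₂ = (ux z).im`, `∂₂u₁ = (uy z).re`, `∂₂u₂ = (uy z).im`.
-/

open MeasureTheory Complex Set
open scoped ContDiff ENNReal ComplexConjugate

noncomputable section

namespace EBC

/-- The unit cell of the lattice `ℤ²`. -/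
def cell : Set ℂ := {z | z.re ∈ Ico (0 : ℝ) 1 ∧ z.im ∈ Ico (0 : ℝ) 1}

/-- `ℤ²`-periodic functions on the plane. -/
def Per {α : Type*} (f : ℂ → α) : Prop := ∀ z, f (z + 1) = f z ∧ f (z + I) = f z

/-- `g` is the weak (distributional) derivative of `u` in the direction `e`. -/
def WeakDeriv (e : ℂ) (u g : ℂ → ℂ) : Prop :=
  ∀ φ : ℂ → ℝ, ContDiff ℝ ∞ φ → HasCompactSupport φ →
    ∫ z, (fderiv ℝ φ z e) • u z = - ∫ z, φ z • g z

/-- Periodic displacement fluctuations of class `H¹`: `u` is periodic, square integrable on the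
cell, and `ux`, `uy` are its weak partial derivatives, periodic and square integrable. -/
structure Fluct (u ux uy : ℂ → ℂ) : Prop where
  per : Per u
  perx : Per ux
  pery : Per uy
  mem : MemLp u 2 (volume.restrict cell)
  memx : MemLp ux 2 (volume.restrict cell)
  memy : MemLp uy 2 (volume.restrict cell)
  wx : WeakDeriv 1 u ux
  wy : WeakDeriv I u uy

/-- A composite: a measurable `ℤ²`-periodic set `S` (the elastic phase; the complement is void). -/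
structure Composite (S : Set ℂ) : Prop where
  meas : MeasurableSet S
  per : ∀ z, (z + 1 ∈ S ↔ z ∈ S) ∧ (z + I ∈ S ↔ z ∈ S)

open Classical in
/-- Energy density at the point `z` for the strain `[[a,c],[c,b]]`: in the elastic phase it is
`2μ(a²+b²+2c²)` if the trace `a+b` vanishes and `+∞` otherwise; the void stores no energy. -/
def density (μ : ℝ) (S : Set ℂ) (z : ℂ) (a b c : ℝ) : ℝ≥0∞ :=
  if z ∈ S then (if a + b = 0 then ENNReal.ofReal (2 * μ * (a ^ 2 + b ^ 2 + 2 * c ^ 2)) else ⊤)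
  else 0

/-- `ε : C_* ε` for the average strain `ε = [[a,c],[c,b]]`: the infimum over the periodic
displacement fluctuations of the cell average of the energy density at `ε + ∇ˢu`. -/
def effEnergy (μ : ℝ) (S : Set ℂ) (a b c : ℝ) : ℝ≥0∞ :=
  ⨅ (u : ℂ → ℂ) (ux : ℂ → ℂ) (uy : ℂ → ℂ) (_ : Fluct u ux uy),
    ∫⁻ z in cell, density μ S z (a + (ux z).re) (b + (uy z).im) (c + ((ux z).im + (uy z).re) / 2)

/-- The composite `S` is isotropic with bulk modulus `κ` and shear modulus `m`: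
`ε : C_* ε = κ (tr ε)² + 2 m |dev ε|²`, where `|dev ε|² = (a-b)²/2 + 2c²`. -/
def IsIsotropic (μ : ℝ) (S : Set ℂ) (κ m : ℝ) : Prop :=
  ∀ a b c : ℝ, effEnergy μ S a b c =
    ENNReal.ofReal (κ * (a + b) ^ 2 + 2 * m * ((a - b) ^ 2 / 2 + 2 * c ^ 2))

/-- The pairs `(κ_*, μ_*)` of all isotropic composites. -/
def isoPairs (μ : ℝ) : Set (ℝ × ℝ) :=
  {p | 0 ≤ p.1 ∧ 0 ≤ p.2 ∧ ∃ S : Set ℂ, Composite S ∧ IsIsotropic μ S p.1 p.2}

/-! ## internal notions (shear modulus of the phase normalised to `1`) -/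

/-- Fluctuations admissible for the load with trace `2α`. -/
def Adm (S : Set ℂ) (α : ℝ) (u ux uy : ℂ → ℂ) : Prop :=
  Fluct u ux uy ∧ ∀ᵐ z ∂(volume.restrict cell), z ∈ S → 2 * α + (ux z).re + (uy z).im = 0

/-- the energy `∫_{cell ∩ S} 4 |β + ∂_z̄ u|²`. -/
def energy (S : Set ℂ) (β : ℂ) (ux uy : ℂ → ℂ) : ℝ :=
  ∫ z in cell ∩ S, 4 * ‖β + (ux z + I * uy z) / 2‖ ^ 2

/-- real version of the effective energy (`α = tr ε / 2`, `β = (a-b)/2 + i c`). -/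
def W (S : Set ℂ) (α : ℝ) (β : ℂ) : ℝ :=
  sInf {e | ∃ u ux uy, Adm S α u ux uy ∧ e = energy S β ux uy}

/-- second derivative -/
def D2 {E : Type*} [NormedAddCommGroup E] [NormedSpace ℝ E] (φ : ℂ → E) (z a b : ℂ) : E :=
  fderiv ℝ (fderiv ℝ φ) z a b

/-- half the Laplacian of `φ` -/
def hf (φ : ℂ → ℝ) (z : ℂ) : ℝ := (D2 φ z 1 1 + D2 φ z I I) / 2

/-- `2 ∂_z̄ ∂_z̄ φ` -/
def hh (φ : ℂ → ℝ) (z : ℂ) : ℂ :=
  (((D2 φ z 1 1 - D2 φ z I I) / 2 : ℝ) : ℂ) + ((D2 φ z 1 I : ℝ) : ℂ) * I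

/-- a smooth periodic real function -/
def SmoothPer (φ : ℂ → ℝ) : Prop := ContDiff ℝ ∞ φ ∧ Per φ

/-- approximate dual fields: average stress `b`, stress small on the void, energy `≤ E`. -/
def DualSeq (S : Set ℂ) (b : ℂ) (E : ℝ) : Prop :=
  ∀ ε > 0, ∃ (a : ℝ) (φ : ℂ → ℝ), SmoothPer φ ∧
    ∫ z in cell \ S, ((a + hf φ z) ^ 2 + ‖b + hh φ z‖ ^ 2) ≤ ε ∧
    ∫ z in cell, ‖b + hh φ z‖ ^ 2 ≤ E + ε

/-- exact dual fields in the closure of smooth ones. -/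
def DualField (S : Set ℂ) (b : ℂ) (E : ℝ) : Prop :=
  ∃ (f : ℂ → ℝ) (h : ℂ → ℂ) (a : ℝ), MemLp f 2 (volume.restrict cell) ∧
    MemLp h 2 (volume.restrict cell) ∧
    (∀ᵐ z ∂(volume.restrict cell), z ∉ S → f z = 0 ∧ h z = 0) ∧
    ∫ z in cell, ‖h z‖ ^ 2 ≤ E ∧
    ∀ ε > 0, ∃ φ : ℂ → ℝ, SmoothPer φ ∧
      ∫ z in cell, ((f z - (a + hf φ z)) ^ 2 + ‖h z - (b + hh φ z)‖ ^ 2) ≤ ε

/-- `C^{1,1}` functions -/
def C11 {E : Type*} [NormedAddCommGroup E] [NormedSpace ℝ E] (Ξ : ℂ → E) : Prop :=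
  ContDiff ℝ 1 Ξ ∧ ∃ K, LipschitzWith K (fderiv ℝ Ξ)

/-- `z²/2 + Ξ` is locally affine on `V` (a.e.) -/
def Flat (Ξ : ℂ → ℂ) (V : Set ℂ) : Prop :=
  ∀ᵐ z, z ∈ V → ∀ a b : ℂ, D2 Ξ z a b = -(a * b)

/-- energy density of the complex Airy function `z²/2 + Ξ` -/
def EB (Ξ : ℂ → ℂ) (z : ℂ) : ℝ :=
  ‖1 + (D2 Ξ z 1 1 - D2 Ξ z I I - 2 * I * D2 Ξ z 1 I) / 4‖ ^ 2 +
    ‖(D2 Ξ z 1 1 - D2 Ξ z I I + 2 * I * D2 Ξ z 1 I) / 4‖ ^ 2

/-- divergence of a displacement -/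
def dv (ψ : ℂ → ℂ) (z : ℂ) : ℝ := (fderiv ℝ ψ z 1).re + (fderiv ℝ ψ z I).im

/-- `∂_z̄ ψ` -/
def dbar (ψ : ℂ → ℂ) (z : ℂ) : ℂ := (fderiv ℝ ψ z 1 + I * fderiv ℝ ψ z I) / 2

/-! ## the fundamental triangle of the reflection group `p4m` -/

/-- the triangle `0 ≤ y ≤ x ≤ 1/2` (area `1/8`) -/
def tri : Set ℂ := {z | 0 ≤ z.im ∧ z.im ≤ z.re ∧ z.re ≤ 1 / 2}

/-- the open triangle -/
def triO : Set ℂ := {z | 0 < z.im ∧ z.im < z.re ∧ z.re < 1 / 2}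

/-- distance to the nearest integer -/
def rd (x : ℝ) : ℝ := |x - round x|

/-- folding map of the plane onto the triangle -/
def fold (z : ℂ) : ℂ := ⟨max (rd z.re) (rd z.im), min (rd z.re) (rd z.im)⟩

/-- the solid phase of the kaleidoscopic composite with void content `V ⊆ tri`. -/
def KS (V : Set ℂ) : Set ℂ := {z | fold z ∉ V}

/-- centre of the triangle used for homotheties -/
def cen : ℂ := ⟨3 / 8, 1 / 8⟩

/-- homothety with centre `cen` -/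
def hom (s : ℝ) (z : ℂ) : ℂ := cen + s • (z - cen)

/-- similarities of the plane -/
def IsSim (τ : ℂ → ℂ) : Prop :=
  ∃ a b : ℂ, a ≠ 0 ∧ ((∀ z, τ z = a * z + b) ∨ (∀ z, τ z = a * conj z + b))

/-- displacement trial field for the void content `V` in the triangle -/
def GoodA (V : Set ℂ) (e : ℝ) : Prop :=
  ∃ ψ : ℂ → ℂ, (∃ K, LipschitzWith K ψ) ∧ (∀ z ∉ tri, ψ z = 0) ∧
    (∀ᵐ z, z ∈ tri → z ∉ V → 2 + dv ψ z = 0) ∧ ∫ z in tri \ V, 4 * ‖dbar ψ z‖ ^ 2 ≤ e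

/-- stress trial field for the void content `V` in the triangle -/
def GoodB (V : Set ℂ) (J : ℝ) : Prop :=
  ∃ Ξ : ℂ → ℂ, C11 Ξ ∧ (∀ z ∉ tri, Ξ z = 0) ∧ Flat Ξ V ∧ 8 * ∫ z in tri, EB Ξ z ≤ J

end EBC
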