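import Pool.Agent.Work.MP_ebc928_an.NeutralA

open MeasureTheory Complex Set
open scoped ContDiff ComplexConjugate

noncomputable section
namespace EBC

section Gen
variable {E : Type*} [NormedAddCommGroup E] [NormedSpace ℝ E]

omit [NormedSpace ℝ E] in
/-- sums of Lipschitz functions with disjoint supports -/
theorem nx_lip_sum {ι : Type*} (F : Finset ι) {g : ι → ℂ → E} {S : ι → Set ℂ} {K : ℝ} (hK : 0 ≤ K)
    (hg : ∀ i ∈ F, ∀ z z', ‖g i z - g i z'‖ ≤ K * ‖z - z'‖)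
    (hS : ∀ i ∈ F, ∀ z, z ∉ S i → g i z = 0)
    (hd : ∀ i ∈ F, ∀ j ∈ F, ∀ z, z ∈ S i → z ∈ S j → i = j) (z z' : ℂ) :
    ‖∑ i ∈ F, g i z - ∑ i ∈ F, g i z'‖ ≤ 2 * K * ‖z - z'‖ := by
  classical
  have hn : 0 ≤ K * ‖z - z'‖ := by positivity
  rw [← Finset.sum_sub_distrib]
  have hone : ∀ w : ℂ, ∑ i ∈ F, (if w ∈ S i then K * ‖z - z'‖ else 0) ≤ K * ‖z - z'‖ := by
    intro w
    rw [← Finset.sum_filter, Finset.sum_const, nsmul_eq_mul]
    have hc : (F.filter fun i => w ∈ S i).card ≤ 1 := by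
      rw [Finset.card_le_one]
      intro i hi j hj
      rw [Finset.mem_filter] at hi hj
      exact hd i hi.1 j hj.1 w hi.2 hj.2
    have hc' : ((F.filter fun i => w ∈ S i).card : ℝ) ≤ 1 := by exact_mod_cast hc
    nlinarith
  calc ‖∑ i ∈ F, (g i z - g i z')‖ ≤ ∑ i ∈ F, ‖g i z - g i z'‖ := norm_sum_le _ _
    _ ≤ ∑ i ∈ F, ((if z ∈ S i then K * ‖z - z'‖ else 0) + (if z' ∈ S i then K * ‖z - z'‖ else 0)) := by
        refine Finset.sum_le_sum fun i hi => ?_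
        by_cases h1 : z ∈ S i
        · rw [if_pos h1]
          have : 0 ≤ (if z' ∈ S i then K * ‖z - z'‖ else 0) := by split_ifs <;> simp [hn]
          have := hg i hi z z'
          linarith
        · by_cases h2 : z' ∈ S i
          · rw [if_neg h1, if_pos h2]
            have := hg i hi z z'
            linarith
          · rw [hS i hi z h1, hS i hi z' h2, if_neg h1, if_neg h2]
            simp
    _ ≤ K * ‖z - z'‖ + K * ‖z - z'‖ := by
        rw [Finset.sum_add_distrib]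
        exact add_le_add (hone z) (hone z')
    _ = 2 * K * ‖z - z'‖ := by ring

theorem neu_D2_congr {f g : ℂ → E} {z : ℂ} (h : f =ᶠ[nhds z] g) (a b : ℂ) : D2 f z a b = D2 g z a b := by
  unfold D2
  rw [h.fderiv.fderiv_eq]

theorem neu_norm_D2_le {f : ℂ → E} {K : ℝ} (hK : 0 ≤ K)
    (h : ∀ z z', ‖fderiv ℝ f z - fderiv ℝ f z'‖ ≤ K * ‖z - z'‖) (z a b : ℂ) (ha : ‖a‖ ≤ 1)
    (hb : ‖b‖ ≤ 1) : ‖D2 f z a b‖ ≤ K := by
  have hL : LipschitzWith (Real.toNNReal K) (fderiv ℝ f) := LipschitzWith.of_dist_le_mul fun z z' => by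
    rw [dist_eq_norm, dist_eq_norm, Real.coe_toNNReal _ hK]; exact h z z'
  have h1 := norm_fderiv_le_of_lipschitz ℝ hL (x₀ := z)
  rw [Real.coe_toNNReal _ hK] at h1
  unfold D2
  calc ‖fderiv ℝ (fderiv ℝ f) z a b‖ ≤ ‖fderiv ℝ (fderiv ℝ f) z a‖ * ‖b‖ := ContinuousLinearMap.le_opNorm _ _
    _ ≤ (‖fderiv ℝ (fderiv ℝ f) z‖ * ‖a‖) * ‖b‖ := by
        gcongr
        exact ContinuousLinearMap.le_opNorm _ _
    _ ≤ (K * 1) * 1 := by gcongr
    _ = K := by ring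

end Gen

theorem neu_EB_congr {f g : ℂ → ℂ} {z : ℂ} (h : f =ᶠ[nhds z] g) : EB f z = EB g z := by
  unfold EB
  rw [neu_D2_congr h, neu_D2_congr h, neu_D2_congr h]

theorem neu_EB_nonneg (f : ℂ → ℂ) (z : ℂ) : 0 ≤ EB f z := by unfold EB; positivity

theorem neu_EB_le {f : ℂ → ℂ} {K : ℝ} (hK : 0 ≤ K)
    (h : ∀ z z', ‖fderiv ℝ f z - fderiv ℝ f z'‖ ≤ K * ‖z - z'‖) (z : ℂ) :
    EB f z ≤ (1 + K) ^ 2 + K ^ 2 := by
  have h1 := neu_norm_D2_le hK h z 1 1 (by simp) (by simp)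
  have h2 := neu_norm_D2_le hK h z I I (by simp) (by simp)
  have h3 := neu_norm_D2_le hK h z 1 I (by simp) (by simp)
  have h2I : ‖(2 * I * D2 f z 1 I : ℂ)‖ ≤ 2 * K := by
    rw [norm_mul, norm_mul, Complex.norm_I]
    have : ‖(2 : ℂ)‖ = 2 := by simp
    rw [this]
    linarith
  have n4 : ‖(4 : ℂ)‖ = 4 := by simp
  have e1 : ‖(D2 f z 1 1 - D2 f z I I - 2 * I * D2 f z 1 I) / 4‖ ≤ K := by
    rw [norm_div, n4]
    have a1 := norm_sub_le (D2 f z 1 1 - D2 f z I I) (2 * I * D2 f z 1 I)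
    have a2 := norm_sub_le (D2 f z 1 1) (D2 f z I I)
    linarith
  have e2 : ‖(D2 f z 1 1 - D2 f z I I + 2 * I * D2 f z 1 I) / 4‖ ≤ K := by
    rw [norm_div, n4]
    have a1 := norm_add_le (D2 f z 1 1 - D2 f z I I) (2 * I * D2 f z 1 I)
    have a2 := norm_sub_le (D2 f z 1 1) (D2 f z I I)
    linarith
  unfold EB
  have e3 : ‖1 + (D2 f z 1 1 - D2 f z I I - 2 * I * D2 f z 1 I) / 4‖ ≤ 1 + K := by
    refine (norm_add_le _ _).trans ?_
    rw [norm_one]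
    linarith
  gcongr

theorem neu_measurable_D2 (f : ℂ → ℂ) (a b : ℂ) : Measurable fun z => D2 f z a b := by
  unfold D2
  have h1 := measurable_fderiv_apply_const ℝ (fderiv ℝ f) a
  exact (ContinuousLinearMap.apply ℝ ℂ b).continuous.measurable.comp h1

theorem neu_measurable_EB (f : ℂ → ℂ) : Measurable (EB f) := by
  have h1 := neu_measurable_D2 f 1 1
  have h2 := neu_measurable_D2 f I I
  have h3 := neu_measurable_D2 f 1 I
  unfold EB
  refine Measurable.add ?_ ?_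
  · refine (Measurable.norm ?_).pow_const 2
    exact measurable_const.add (((h1.sub h2).sub (measurable_const.mul h3)).div_const 4)
  · refine (Measurable.norm ?_).pow_const 2
    exact ((h1.sub h2).add (measurable_const.mul h3)).div_const 4

/-! ### `z²/2` -/

theorem neu_hasFDerivAt_sq (z : ℂ) : HasFDerivAt (fun z : ℂ => z ^ 2 / 2) (ContinuousLinearMap.mul ℝ ℂ z) z := by
  have h1 : HasDerivAt (fun z : ℂ => z ^ 2 / 2) z z := by
    have := (hasDerivAt_pow 2 z).div_const 2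
    simpa using this
  have h2 := h1.hasFDerivAt.restrictScalars ℝ
  refine h2.congr_fderiv ?_
  ext v
  simp [mul_comm]

theorem neu_fderiv_sq : fderiv ℝ (fun z : ℂ => z ^ 2 / 2) = fun z => ContinuousLinearMap.mul ℝ ℂ z := by
  funext z
  exact (neu_hasFDerivAt_sq z).fderiv

theorem neu_D2_affine_sub_sq (c : ℂ) (L : ℂ →L[ℝ] ℂ) (p z a b : ℂ) :
    D2 (fun z : ℂ => c + L (z - p) - z ^ 2 / 2) z a b = -(a * b) := by
  have h1 : fderiv ℝ (fun z : ℂ => c + L (z - p) - z ^ 2 / 2) = fun z => L - ContinuousLinearMap.mul ℝ ℂ z := by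
    funext w
    have e1 : HasFDerivAt (fun z : ℂ => c + L (z - p)) L w := by
      have := (L.hasFDerivAt (x := w - p)).comp w ((hasFDerivAt_id w).sub_const p)
      have h2 := this.const_add c
      simpa using h2
    exact (e1.sub (neu_hasFDerivAt_sq w)).fderiv
  unfold D2
  rw [h1]
  have h2 : HasFDerivAt (fun z => L - ContinuousLinearMap.mul ℝ ℂ z) (-(ContinuousLinearMap.mul ℝ ℂ)) z := by
    have := ((ContinuousLinearMap.mul ℝ ℂ).hasFDerivAt (x := z)).const_sub L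
    exact this
  rw [h2.fderiv]
  simp

/-! ### the local correction -/

/-- correction at a hole -/
def neu_corr (bmp : ℂ → ℝ) (A : ℂ → ℂ) (p z : ℂ) : ℂ := bmp (z - p) • (A z - A p - fderiv ℝ A p (z - p))

theorem neu_corr_contDiff {bmp : ℂ → ℝ} {A : ℂ → ℂ} (hb : ContDiff ℝ 1 bmp) (hA : ContDiff ℝ 1 A) (p : ℂ) :
    ContDiff ℝ 1 (neu_corr bmp A p) := by
  unfold neu_corr
  have h1 : ContDiff ℝ 1 (fun z : ℂ => z - p) := contDiff_id.sub contDiff_const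
  exact (hb.comp h1).smul ((hA.sub contDiff_const).sub ((fderiv ℝ A p).contDiff.comp h1))

theorem neu_corr_lip {bmp : ℂ → ℝ} {A : ℂ → ℂ} {Kb K₅ r : ℝ} (hr : 0 < r) (hb : NeuNice Kb bmp)
    (hb0 : ∀ z, r ≤ ‖z‖ → bmp z = 0) (hb0' : ∀ z, r ≤ ‖z‖ → fderiv ℝ bmp z = 0)
    (hA : Differentiable ℝ A) (hK₅ : 0 ≤ K₅)
    (hAl : ∀ z z', ‖fderiv ℝ A z - fderiv ℝ A z'‖ ≤ K₅ * ‖z - z'‖) (p z z' : ℂ) :
    ‖fderiv ℝ (neu_corr bmp A p) z - fderiv ℝ (neu_corr bmp A p) z'‖ ≤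
      (Kb * (K₅ * r) + Kb * K₅ + (Kb * (K₅ * r * r) + Kb * (K₅ * r))) * ‖z - z'‖ := by
  have hKb := hb.nonneg
  have hbp := hb.comp_sub p
  set Q : ℂ → ℂ := fun z => A z - A p - fderiv ℝ A p (z - p) with hQ
  have hQd : ∀ w, HasFDerivAt Q (fderiv ℝ A w - fderiv ℝ A p) w := by
    intro w
    have h1 := ((hA w).hasFDerivAt.sub_const (A p))
    have h2 := ((fderiv ℝ A p).hasFDerivAt (x := w - p)).comp w ((hasFDerivAt_id w).sub_const p)
    have h3 : HasFDerivAt Q (fderiv ℝ A w - (fderiv ℝ A p).comp (ContinuousLinearMap.id ℝ ℂ)) w :=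
      h1.sub h2
    rwa [ContinuousLinearMap.comp_id] at h3
  have hQdiff : Differentiable ℝ Q := fun w => (hQd w).differentiableAt
  have hQf : ∀ w, fderiv ℝ Q w = fderiv ℝ A w - fderiv ℝ A p := fun w => (hQd w).fderiv
  set S := Metric.ball p r with hS
  have hQb1 : ∀ w ∈ S, ‖fderiv ℝ Q w‖ ≤ K₅ * r := by
    intro w hw
    rw [hQf]
    refine (hAl w p).trans ?_
    rw [hS, Metric.mem_ball, dist_eq_norm] at hw
    gcongr
  have hQl : ∀ w ∈ S, ∀ w' ∈ S, ‖Q w - Q w'‖ ≤ K₅ * r * ‖w - w'‖ := by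
    intro w hw w' hw'
    exact Convex.norm_image_sub_le_of_norm_fderiv_le (𝕜 := ℝ) (fun x _ => hQdiff x) hQb1
      (convex_ball p r) hw' hw
  have hQb0 : ∀ w ∈ S, ‖Q w‖ ≤ K₅ * r * r := by
    intro w hw
    have h1 := hQl w hw p (Metric.mem_ball_self hr)
    have h2 : Q p = 0 := by simp [hQ]
    rw [h2, sub_zero] at h1
    refine h1.trans ?_
    rw [hS, Metric.mem_ball, dist_eq_norm] at hw
    gcongr
  have hfz : ∀ w, w ∉ S → bmp (w - p) = 0 := by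
    intro w hw
    rw [hS, Metric.mem_ball, dist_eq_norm, not_lt] at hw
    exact hb0 _ hw
  have hfz' : ∀ w, w ∉ S → fderiv ℝ (fun z => bmp (z - p)) w = 0 := by
    intro w hw
    rw [hS, Metric.mem_ball, dist_eq_norm, not_lt] at hw
    rw [fderiv_comp_sub]
    exact hb0' _ hw
  refine ContinuousLinearMap.opNorm_le_bound _ (by positivity) (fun v => ?_)
  have hv : 0 ≤ ‖v‖ := norm_nonneg _
  have hcorr : neu_corr bmp A p = fun z => (fun z => bmp (z - p)) z • Q z := rfl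
  rw [hcorr, sub_apply, nx_fderiv_smul hbp.diff hQdiff, nx_fderiv_smul hbp.diff hQdiff]
  have e1 := nx_lip_smul (f := fun z => bmp (z - p)) (g := fun z => fderiv ℝ Q z v) (S := S) (a := Kb) (A := Kb)
    (b := K₅ * ‖v‖) (B := K₅ * r * ‖v‖)
    (fun z z' => by rw [← Real.norm_eq_abs]; exact hbp.lip z z')
    (fun z => by rw [← Real.norm_eq_abs]; exact hbp.bd z) hfz
    (fun z _ z' _ => by
      have := (fderiv ℝ Q z - fderiv ℝ Q z').le_opNorm v
      rw [sub_apply] at this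
      refine this.trans ?_
      rw [hQf, hQf, sub_sub_sub_cancel_right]
      calc _ ≤ (K₅ * ‖z - z'‖) * ‖v‖ := mul_le_mul_of_nonneg_right (hAl z z') hv
        _ = _ := by ring)
    (fun z hz => ((fderiv ℝ Q z).le_opNorm v).trans (mul_le_mul_of_nonneg_right (hQb1 z hz) hv))
    hKb (by positivity) (by positivity) z z'
  have e2 := nx_lip_smul (f := fun z => fderiv ℝ (fun z => bmp (z - p)) z v) (g := Q) (S := S) (a := Kb * ‖v‖)
    (A := Kb * ‖v‖) (b := K₅ * r) (B := K₅ * r * r)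
    (fun z z' => by
      have := (fderiv ℝ (fun z => bmp (z - p)) z - fderiv ℝ (fun z => bmp (z - p)) z').le_opNorm v
      rw [sub_apply, Real.norm_eq_abs] at this
      refine this.trans ?_
      calc _ ≤ (Kb * ‖z - z'‖) * ‖v‖ := mul_le_mul_of_nonneg_right (hbp.lip' z z') hv
        _ = _ := by ring)
    (fun z => by
      rw [← Real.norm_eq_abs]
      exact ((fderiv ℝ (fun z => bmp (z - p)) z).le_opNorm v).trans (mul_le_mul_of_nonneg_right (hbp.bd' z) hv))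
    (fun z hz => by rw [hfz' z hz]; simp) hQl hQb0 (by positivity) (by positivity) (by positivity) z z'
  calc ‖bmp (z - p) • fderiv ℝ Q z v + (fderiv ℝ (fun z => bmp (z - p)) z v) • Q z
          - (bmp (z' - p) • fderiv ℝ Q z' v + (fderiv ℝ (fun z => bmp (z - p)) z' v) • Q z')‖
      = ‖(bmp (z - p) • fderiv ℝ Q z v - bmp (z' - p) • fderiv ℝ Q z' v)
          + ((fderiv ℝ (fun z => bmp (z - p)) z v) • Q z - (fderiv ℝ (fun z => bmp (z - p)) z' v) • Q z')‖ := by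
        congr 1; abel
    _ ≤ _ := (norm_add_le _ _).trans (add_le_add e1 e2)
    _ = _ := by ring

/-! ### the bump -/

theorem neu_nice_of_compact {E : Type*} [NormedAddCommGroup E] [NormedSpace ℝ E] {f : ℂ → E}
    (hcd : ContDiff ℝ ∞ f) (hcs : HasCompactSupport f) : ∃ K, NeuNice K f := by
  have h1 : ContDiff ℝ ∞ (fderiv ℝ f) := hcd.fderiv_right (by norm_num)
  have hcs1 : HasCompactSupport (fderiv ℝ f) := hcs.fderiv (𝕜 := ℝ)
  obtain ⟨C0, hC0⟩ := hcd.continuous.bounded_above_of_compact_support hcs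
  obtain ⟨C1, hC1⟩ := h1.continuous.bounded_above_of_compact_support hcs1
  obtain ⟨C2, hC2⟩ := ContDiff.lipschitzWith_of_hasCompactSupport hcs1 h1 (by norm_num)
  have h3 : ContDiff ℝ 1 f := hcd.of_le (by exact_mod_cast le_top)
  refine ⟨max C0 (max C1 C2), ⟨h3, fun z => ?_, fun z => ?_, fun z z' => ?_⟩⟩
  · exact (hC0 z).trans (le_max_left _ _)
  · exact (hC1 z).trans ((le_max_left _ _).trans (le_max_right _ _))
  · have := hC2.dist_le_mul z z'
    rw [dist_eq_norm, dist_eq_norm] at this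
    exact this.trans
      (mul_le_mul_of_nonneg_right ((le_max_right _ _).trans (le_max_right _ _)) (norm_nonneg _))

theorem neu_exists_bump {r : ℝ} (hr : 0 < r) : ∃ (bmp : ℂ → ℝ) (Kb : ℝ), NeuNice Kb bmp ∧
    (∀ z, ‖z‖ < r / 2 → bmp z = 1) ∧ (∀ z, 3 * r / 4 ≤ ‖z‖ → bmp z = 0) := by
  obtain ⟨B, hB1, hB2⟩ : ∃ B : ContDiffBump (0 : ℂ), B.rIn = r / 2 ∧ B.rOut = 3 * r / 4 :=
    ⟨⟨r / 2, 3 * r / 4, by positivity, by linarith⟩, rfl, rfl⟩
  have hcd : ContDiff ℝ ∞ (B : ℂ → ℝ) := B.contDiff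
  have hcs : HasCompactSupport (B : ℂ → ℝ) := B.hasCompactSupport
  obtain ⟨K, hK⟩ := neu_nice_of_compact hcd hcs
  refine ⟨B, K, hK, fun z hz => ?_, fun z hz => ?_⟩
  · apply B.one_of_mem_closedBall
    rw [Metric.mem_closedBall, dist_zero_right, hB1]
    exact hz.le
  · apply B.zero_of_le_dist
    rw [dist_zero_right, hB2]
    exact hz

/-! ### finiteness -/

theorem neu_ring_finite {ω₁ ω₂ : ℂ} (hpos : 0 < (conj ω₁ * ω₂).im) (p₀ : ℂ) {n a : ℝ} (ha : 0 ≤ a) (P : ℂ → Prop) :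
    {q : ℤ × ℤ | a ≤ mm n (p₀ + q.1 • ω₁ + q.2 • ω₂) ∧ P (p₀ + q.1 • ω₁ + q.2 • ω₂)}.Finite := by
  set A := (conj ω₁ * ω₂).im with hA
  -- bound on the norm
  have hb : ∀ z : ℂ, a ≤ mm n z → ‖z‖ ≤ n := by
    intro z hz
    rw [neu_le_mm_iff] at hz
    obtain ⟨h1, h2, h3⟩ := hz
    refine (Complex.norm_le_abs_re_add_abs_im z).trans ?_
    rw [abs_of_nonneg (by linarith), abs_of_nonneg (by linarith)]
    linarith
  set N : ℝ := (n + ‖p₀‖) * (‖ω₁‖ + ‖ω₂‖) / A with hN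
  refine Set.Finite.subset ((Set.finite_Icc (-⌈N⌉) ⌈N⌉).prod (Set.finite_Icc (-⌈N⌉) ⌈N⌉)) ?_
  rintro ⟨k, l⟩ ⟨hq, -⟩
  have h1 := hb _ hq
  simp only at h1
  have h2 : ‖(k • ω₁ + l • ω₂ : ℂ)‖ ≤ n + ‖p₀‖ := by
    have e : (k • ω₁ + l • ω₂ : ℂ) = (p₀ + k • ω₁ + l • ω₂) - p₀ := by ring
    rw [e]
    exact (norm_sub_le _ _).trans (by linarith)
  have h3 := neu_cs_comb hpos (k : ℝ) (l : ℝ)
  rw [← neu_zsmul_comb] at h3
  have hw : ∀ x : ℝ, |x| ≤ N → ∀ m : ℤ, x = m → m ∈ Icc (-⌈N⌉) ⌈N⌉ := by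
    intro x hx m hm
    rw [abs_le, hm] at hx
    have hceil := Int.le_ceil N
    constructor
    · have : (-(⌈N⌉ : ℝ)) ≤ (m : ℝ) := by linarith [hx.1]
      exact_mod_cast this
    · have : (m : ℝ) ≤ (⌈N⌉ : ℝ) := by linarith [hx.2]
      exact_mod_cast this
  have hn0 : 0 ≤ n + ‖p₀‖ := (norm_nonneg _).trans h2
  constructor
  · refine hw (neu_cs ω₁ ω₂ (k • ω₁ + l • ω₂)) ?_ k h3.1
    unfold neu_cs
    rw [abs_div, abs_of_pos hpos, hN]
    gcongr
    refine (Complex.abs_im_le_norm _).trans ?_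
    rw [norm_mul, RCLike.norm_conj]
    have := norm_nonneg ω₁
    gcongr
    linarith
  · refine hw (neu_ct ω₁ ω₂ (k • ω₁ + l • ω₂)) ?_ l h3.2
    unfold neu_ct
    rw [abs_div, abs_of_pos hpos, hN]
    gcongr
    refine (Complex.abs_im_le_norm _).trans ?_
    rw [norm_mul, RCLike.norm_conj, mul_comm]
    have := norm_nonneg ω₂
    gcongr
    linarith


theorem neu_norm_mul_sub_le (z z' : ℂ) :
    ‖ContinuousLinearMap.mul ℝ ℂ z - ContinuousLinearMap.mul ℝ ℂ z'‖ ≤ ‖z - z'‖ := by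
  rw [← map_sub]
  exact ContinuousLinearMap.opNorm_mul_apply_le ℝ ℂ (z - z')

/-- the Airy function at scale `n` -/
theorem neutralB_main {ω₁ ω₂ : ℂ} {Vd : Set ℂ} {ψ Ξ : ℂ → ℂ} {p₀ : ℂ} {r₀ e J : ℝ}
    (h : IsBase ω₁ ω₂ Vd ψ Ξ p₀ r₀ e J)
    (hsep : ∀ k l : ℤ, ¬ (k = 0 ∧ l = 0) → 2 * r₀ ≤ ‖(k • ω₁ + l • ω₂ : ℂ)‖) :
    ∃ D₀ > 0, ∀ D : ℝ, D₀ ≤ D → ∃ K : ℝ, 0 ≤ K ∧ ∀ n : ℝ, 0 < n →
      ∃ X : ℂ → ℂ, ContDiff ℝ 1 X ∧ (∀ z z', ‖fderiv ℝ X z - fderiv ℝ X z'‖ ≤ K * ‖z - z'‖) ∧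
        (∀ z, mm n z < 0 → X z = 0) ∧
        (∀ᵐ z, z ∈ neu_contS ω₁ ω₂ Vd p₀ r₀ D n → ∀ a b, D2 X z a b = -(a * b)) ∧
        (∀ z, 35 * D < mm n z → X =ᶠ[nhds z] Ξ) := by
  have hr₀ := h.r₀pos
  obtain ⟨KΞ, hΞ⟩ := neu_nice_of_per h.pos h.perΞ h.c11
  have hKΞ := hΞ.nonneg
  refine ⟨r₀ + 1, by positivity, fun D hD => ?_⟩
  have hD0 : 0 < D := by linarith
  obtain ⟨K1, hχ⟩ := neu_chi_nice (a := 10 * D) (b := 10 * D) (by linarith)
  have hK1 : 0 ≤ K1 := (hχ 1).nonneg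
  obtain ⟨bmp, Kb, hb, hb1, hb0⟩ := neu_exists_bump hr₀
  have hKb := hb.nonneg
  set K₅ : ℝ := 1 + 4 * K1 * KΞ with hK₅def
  have hK₅ : 0 ≤ K₅ := by positivity
  set K₆ : ℝ := Kb * (K₅ * r₀) + Kb * K₅ + (Kb * (K₅ * r₀ * r₀) + Kb * (K₅ * r₀)) with hK₆def
  have hK₆ : 0 ≤ K₆ := by positivity
  refine ⟨4 * K1 * KΞ + 2 * K₆, by positivity, fun n hn => ?_⟩
  have hb10 : 0 < 10 * D := by linarith
  set χ := neu_chi (10 * D) (10 * D) n with hχdef
  have hχn : NeuNice K1 χ := hχ n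
  set X1 : ℂ → ℂ := fun z => χ z • Ξ z with hX1def
  have hX1 : NeuNice (4 * K1 * KΞ) X1 := hχn.smul hΞ
  set A : ℂ → ℂ := fun z => z ^ 2 / 2 + X1 z with hAdef
  have hAfd : ∀ z, HasFDerivAt A (ContinuousLinearMap.mul ℝ ℂ z + fderiv ℝ X1 z) z := fun z =>
    (neu_hasFDerivAt_sq z).add (hX1.diff z).hasFDerivAt
  have hAd : Differentiable ℝ A := fun z => (hAfd z).differentiableAt
  have hAl : ∀ z z', ‖fderiv ℝ A z - fderiv ℝ A z'‖ ≤ K₅ * ‖z - z'‖ := by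
    intro z z'
    rw [(hAfd z).fderiv, (hAfd z').fderiv, add_sub_add_comm]
    refine (norm_add_le _ _).trans ?_
    have h1 := neu_norm_mul_sub_le z z'
    have h2 := hX1.lip' z z'
    rw [hK₅def, add_mul, one_mul]
    exact add_le_add h1 h2
  have hsqcd : ContDiff ℝ 1 (fun z : ℂ => z ^ 2 / 2) := by
    exact (contDiff_id.pow 2).div_const 2
  have hAcd : ContDiff ℝ 1 A := hsqcd.add hX1.cd
  -- support of the bump
  have hb0a : ∀ z, r₀ ≤ ‖z‖ → bmp z = 0 := fun z hz => hb0 z (by linarith)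
  have hb0b : ∀ z, r₀ ≤ ‖z‖ → fderiv ℝ bmp z = 0 := by
    intro z hz
    have h1 : bmp =ᶠ[nhds z] fun _ => 0 := by
      filter_upwards [(isOpen_lt continuous_const continuous_norm).mem_nhds
        (show 3 * r₀ / 4 < ‖z‖ by linarith)] with z' hz'
      exact hb0 z' (le_of_lt hz')
    rw [h1.fderiv_eq]; simp
  -- points
  set pt : ℤ × ℤ → ℂ := fun q => p₀ + q.1 • ω₁ + q.2 • ω₂ with hpt
  have hfin := neu_ring_finite h.pos p₀ (n := n) (a := 5 * D) (by positivity) (fun z => mm n z ≤ 30 * D)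
  set F : Finset (ℤ × ℤ) := hfin.toFinset with hF
  have hmemF : ∀ q, q ∈ F ↔ 5 * D ≤ mm n (pt q) ∧ mm n (pt q) ≤ 30 * D := by
    intro q
    rw [hF, Set.Finite.mem_toFinset]
    rfl
  have hcl : ∀ q z z', ‖fderiv ℝ (neu_corr bmp A (pt q)) z - fderiv ℝ (neu_corr bmp A (pt q)) z'‖ ≤ K₆ * ‖z - z'‖ :=
    fun q z z' => neu_corr_lip hr₀ hb hb0a hb0b hAd hK₅ hAl (pt q) z z'
  have hccd : ∀ q, ContDiff ℝ 1 (neu_corr bmp A (pt q)) := fun q => neu_corr_contDiff hb.cd hAcd (pt q)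
  have hcd : ∀ q, Differentiable ℝ (neu_corr bmp A (pt q)) := fun q => (hccd q).differentiable (by norm_num)
  have hc0 : ∀ q z, 3 * r₀ / 4 ≤ ‖z - pt q‖ → neu_corr bmp A (pt q) z = 0 := by
    intro q z hz
    unfold neu_corr
    rw [hb0 _ hz, zero_smul]
  have hc0' : ∀ q z, z ∉ Metric.ball (pt q) r₀ → fderiv ℝ (neu_corr bmp A (pt q)) z = 0 := by
    intro q z hz
    rw [Metric.mem_ball, dist_eq_norm, not_lt] at hz
    have hc : Continuous fun z' : ℂ => ‖z' - pt q‖ := by fun_prop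
    have h1 : neu_corr bmp A (pt q) =ᶠ[nhds z] fun _ => 0 := by
      filter_upwards [(isOpen_lt continuous_const hc).mem_nhds
        (show 3 * r₀ / 4 < ‖z - pt q‖ by linarith)] with z' hz'
      exact hc0 q z' (le_of_lt hz')
    rw [h1.fderiv_eq]; simp
  have hdisj : ∀ q q' z, z ∈ Metric.ball (pt q) r₀ → z ∈ Metric.ball (pt q') r₀ → q = q' := by
    intro q q' z hz hz'
    by_contra hne
    have h1 : ¬ (q.1 - q'.1 = 0 ∧ q.2 - q'.2 = 0) := by
      rintro ⟨h2, h3⟩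
      exact hne (Prod.ext (sub_eq_zero.1 h2) (sub_eq_zero.1 h3))
    have h2 := hsep _ _ h1
    have h3 : ((q.1 - q'.1) • ω₁ + (q.2 - q'.2) • ω₂ : ℂ) = pt q - pt q' := by
      simp only [hpt, sub_smul]; ring
    rw [h3] at h2
    rw [Metric.mem_ball, dist_eq_norm] at hz hz'
    have h4 : ‖pt q - pt q'‖ ≤ ‖z - pt q'‖ + ‖z - pt q‖ := by
      have : pt q - pt q' = (z - pt q') - (z - pt q) := by ring
      rw [this]; exact norm_sub_le _ _
    linarith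
  set X : ℂ → ℂ := fun z => X1 z - ∑ q ∈ F, neu_corr bmp A (pt q) z with hXdef
  have hXf : ∀ z, fderiv ℝ X z = fderiv ℝ X1 z - ∑ q ∈ F, fderiv ℝ (neu_corr bmp A (pt q)) z := by
    intro z
    have h1 : HasFDerivAt (fun z => ∑ q ∈ F, neu_corr bmp A (pt q) z)
        (∑ q ∈ F, fderiv ℝ (neu_corr bmp A (pt q)) z) z :=
      HasFDerivAt.fun_sum fun q _ => (hcd q z).hasFDerivAt
    exact ((hX1.diff z).hasFDerivAt.sub h1).fderiv
  refine ⟨X, ?_, ?_, ?_, ?_, ?_⟩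
  · exact hX1.cd.sub (ContDiff.sum fun q _ => hccd q)
  · intro z z'
    rw [hXf, hXf]
    have h1 := nx_lip_sum F (g := fun q z => fderiv ℝ (neu_corr bmp A (pt q)) z)
      (S := fun q => Metric.ball (pt q) r₀) hK₆ (fun q _ z z' => hcl q z z') (fun q _ z hz => hc0' q z hz)
      (fun q _ q' _ z hz hz' => hdisj q q' z hz hz') z z'
    have h2 := hX1.lip' z z'
    rw [sub_sub_sub_comm]
    refine (norm_sub_le _ _).trans ?_
    rw [add_mul]
    exact add_le_add h2 h1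
  · intro z hz
    have h1 : χ z = 0 := neu_chi_zero hb10 (by linarith)
    have h2 : ∑ q ∈ F, neu_corr bmp A (pt q) z = 0 := by
      refine Finset.sum_eq_zero fun q hq => hc0 q z ?_
      have h3 := ((hmemF q).1 hq).1
      have h4 := neu_mm_lip1 n (pt q) z
      rw [norm_sub_rev] at h4
      linarith
    simp only [hXdef, hX1def]
    rw [h1, h2]
    simp
  · filter_upwards [h.flat] with z hz hzc a b
    rcases hzc with ⟨hzV, hzm⟩ | ⟨k, l, h1, h2, h3⟩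
    · have hnear : X =ᶠ[nhds z] Ξ := by
        filter_upwards [(neu_isOpen_mm_gt n (20 * D)).mem_nhds hzm,
          Metric.ball_mem_nhds z (show 0 < r₀ / 4 by positivity)] with z' hz1 hz2
        have hz1' : 20 * D < mm n z' := hz1
        have h1 : χ z' = 1 := neu_chi_one hb10 (by linarith)
        have h2 : ∑ q ∈ F, neu_corr bmp A (pt q) z' = 0 := by
          refine Finset.sum_eq_zero fun q hq => hc0 q z' ?_
          have h3 := h.solid q.1 q.2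
          have h4 : z ∉ Metric.ball (pt q) r₀ := by
            intro h5
            have : z ∈ Metric.ball (p₀ + q.1 • ω₁ + q.2 • ω₂) r₀ ∩ Vd := ⟨h5, hzV⟩
            rw [h3] at this
            exact this
          rw [Metric.mem_ball, dist_eq_norm, not_lt] at h4
          rw [Metric.mem_ball, dist_comm, dist_eq_norm] at hz2
          have h5 : ‖z - pt q‖ ≤ ‖z - z'‖ + ‖z' - pt q‖ := by
            have : z - pt q = (z - z') + (z' - pt q) := by ring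
            rw [this]; exact norm_add_le _ _
          linarith
        simp only [hXdef, hX1def]
        rw [h1, h2]
        simp
      rw [neu_D2_congr hnear]
      exact hz hzV a b
    · have hq : (k, l) ∈ F := (hmemF (k, l)).2 ⟨h1, h2⟩
      have hnear : X =ᶠ[nhds z] fun z' => A (pt (k, l)) + fderiv ℝ A (pt (k, l)) (z' - pt (k, l)) - z' ^ 2 / 2 := by
        filter_upwards [Metric.isOpen_ball.mem_nhds (show z ∈ Metric.ball (pt (k, l)) (r₀ / 2) from h3)]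
          with z' hz'
        have hz'' : ‖z' - pt (k, l)‖ < r₀ / 2 := by
          rwa [Metric.mem_ball, dist_eq_norm] at hz'
        have h4 : ∑ q ∈ F, neu_corr bmp A (pt q) z' = neu_corr bmp A (pt (k, l)) z' := by
          refine Finset.sum_eq_single_of_mem (k, l) hq fun q _ hne => hc0 q z' ?_
          by_contra hc
          push Not at hc
          apply hne
          refine hdisj q (k, l) z' ?_ ?_
          · rw [Metric.mem_ball, dist_eq_norm]; linarith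
          · rw [Metric.mem_ball, dist_eq_norm]; linarith
        simp only [hXdef]
        rw [h4]
        unfold neu_corr
        rw [hb1 _ hz'', one_smul]
        simp only [hAdef]
        ring
      rw [neu_D2_congr hnear]
      exact neu_D2_affine_sub_sq _ _ _ z a b
  · intro z hz
    filter_upwards [(neu_isOpen_mm_gt n (35 * D)).mem_nhds hz] with z' hz'
    have hz'' : 35 * D < mm n z' := hz'
    have h1 : χ z' = 1 := neu_chi_one hb10 (by linarith)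
    have h2 : ∑ q ∈ F, neu_corr bmp A (pt q) z' = 0 := by
      refine Finset.sum_eq_zero fun q hq => hc0 q z' ?_
      have h3 := ((hmemF q).1 hq).2
      have h4 := neu_mm_lip1 n z' (pt q)
      linarith
    simp only [hXdef, hX1def]
    rw [h1, h2]
    simp

/-- stress part of the neutral inclusion -/
theorem neutralB {ω₁ ω₂ : ℂ} {Vd : Set ℂ} {ψ Ξ : ℂ → ℂ} {p₀ : ℂ} {r₀ e J : ℝ}
    (h : IsBase ω₁ ω₂ Vd ψ Ξ p₀ r₀ e J)
    (hsep : ∀ k l : ℤ, ¬ (k = 0 ∧ l = 0) → 2 * r₀ ≤ ‖(k • ω₁ + l • ω₂ : ℂ)‖) :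
    ∃ D₀ > 0, ∀ D : ℝ, D₀ ≤ D → ∃ C N₀ : ℝ, 0 < N₀ ∧ ∀ n : ℝ, N₀ ≤ n →
      GoodB (content ω₁ ω₂ Vd p₀ r₀ D n) (J + C / n) := by
  obtain ⟨D₀, hD₀, hmain⟩ := neutralB_main h hsep
  obtain ⟨KΞ, hΞ⟩ := neu_nice_of_per h.pos h.perΞ h.c11
  have hKΞ := hΞ.nonneg
  refine ⟨D₀, hD₀, fun D hD => ?_⟩
  have hDpos : 0 < D := lt_of_lt_of_le hD₀ hD
  obtain ⟨K, hK0, hX⟩ := hmain D hD
  have hgper : PerL ω₁ ω₂ (EB Ξ) := by
    have hD2 : ∀ a b z, D2 Ξ (z + ω₁) a b = D2 Ξ z a b ∧ D2 Ξ (z + ω₂) a b = D2 Ξ z a b := by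
      intro a b z
      have h1 := h.perΞ.fderiv.fderiv z
      unfold D2
      rw [h1.1, h1.2]
      exact ⟨rfl, rfl⟩
    intro z
    unfold EB
    rw [(hD2 1 1 z).1, (hD2 I I z).1, (hD2 1 I z).1, (hD2 1 1 z).2, (hD2 I I z).2, (hD2 1 I z).2]
    exact ⟨rfl, rfl⟩
  obtain ⟨C₁, N₂, hN₂, hI⟩ := integral_ntri_le h.pos hgper (neu_EB_nonneg Ξ) (neu_EB_le hKΞ hΞ.lip')
    (neu_measurable_EB Ξ).aestronglyMeasurable h.enB
  obtain ⟨C₂, hring⟩ := volume_ring (A := 35 * D) (by positivity)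
  set B : ℝ := (1 + K) ^ 2 + K ^ 2 with hB
  have hB0 : 0 ≤ B := by positivity
  refine ⟨8 * (C₁ + B * C₂), max N₂ 1, by positivity, fun n hn => ?_⟩
  have hn2 : N₂ ≤ n := (le_max_left _ _).trans hn
  have hn3 : 1 ≤ n := (le_max_right _ _).trans hn
  have hn0 : 0 < n := by linarith
  obtain ⟨X, hXcd, hXl, hXz, hXflat, hXdeep⟩ := hX n hn0
  have hXd : Differentiable ℝ X := hXcd.differentiable (by norm_num)
  have hfdf : ∀ z, fderiv ℝ (fun z => ((n ^ 2)⁻¹ : ℝ) • X (n • z)) z = (n⁻¹ : ℝ) • fderiv ℝ X (n • z) := by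
    intro z
    have h1 : HasFDerivAt (fun z : ℂ => X (n • z)) ((fderiv ℝ X (n • z)).comp (n • ContinuousLinearMap.id ℝ ℂ)) z :=
      ((hXd (n • z)).hasFDerivAt).comp z ((hasFDerivAt_id z).const_smul n)
    have h2 : HasFDerivAt (fun z : ℂ => ((n ^ 2)⁻¹ : ℝ) • X (n • z))
        (((n ^ 2)⁻¹ : ℝ) • ((fderiv ℝ X (n • z)).comp (n • ContinuousLinearMap.id ℝ ℂ))) z :=
      h1.fun_const_smul ((n ^ 2)⁻¹ : ℝ)
    rw [h2.fderiv]
    ext v
    simp only [smul_apply, ContinuousLinearMap.comp_apply, ContinuousLinearMap.id_apply, map_smul, smul_smul]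
    congr 1
    field_simp
  have hfdfun : fderiv ℝ (fun z => ((n ^ 2)⁻¹ : ℝ) • X (n • z)) = fun z => (n⁻¹ : ℝ) • fderiv ℝ X (n • z) :=
    funext hfdf
  have hD2f : ∀ z a b, D2 (fun z => ((n ^ 2)⁻¹ : ℝ) • X (n • z)) z a b = D2 X (n • z) a b := by
    intro z a b
    unfold D2
    rw [hfdfun]
    have e3 := fderiv_comp_smul (𝕜 := ℝ) (f := fderiv ℝ X) (x := z) (n : ℝ)
    have e4 : fderiv ℝ ((n⁻¹ : ℝ) • (fun z => fderiv ℝ X (n • z))) z = (n⁻¹ : ℝ) • fderiv ℝ (fun z => fderiv ℝ X (n • z)) z := by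
      rw [fderiv_const_smul_field]
      rfl
    have e5 : (fun z => (n⁻¹ : ℝ) • fderiv ℝ X (n • z)) = (n⁻¹ : ℝ) • (fun z => fderiv ℝ X (n • z)) := rfl
    rw [e5, e4, e3, smul_smul, inv_mul_cancel₀ hn0.ne', one_smul]
  have hmem : ∀ z, z ∈ tri ↔ 0 ≤ mm n (n • z) := by
    intro z
    rw [neu_mem_tri_scale hn0, smul_smul, inv_mul_cancel₀ hn0.ne', one_smul]
  refine ⟨fun z => ((n ^ 2)⁻¹ : ℝ) • X (n • z), ⟨?_, Real.toNNReal K, ?_⟩, ?_, ?_, ?_⟩
  · exact (hXcd.comp (contDiff_const_smul n)).const_smul _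
  · refine LipschitzWith.of_dist_le_mul fun z z' => ?_
    rw [hfdf, hfdf, dist_eq_norm, dist_eq_norm, Real.coe_toNNReal _ hK0, ← smul_sub, norm_smul,
      Real.norm_eq_abs, abs_of_pos (inv_pos.2 hn0)]
    have := hXl (n • z) (n • z')
    rw [← smul_sub, norm_smul, Real.norm_eq_abs, abs_of_pos hn0] at this
    calc n⁻¹ * ‖fderiv ℝ X (n • z) - fderiv ℝ X (n • z')‖ ≤ n⁻¹ * (K * (n * ‖z - z'‖)) :=
          mul_le_mul_of_nonneg_left this (inv_pos.2 hn0).le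
      _ = K * ‖z - z'‖ := by field_simp
  · intro z hz
    rw [hmem] at hz
    push Not at hz
    simp only
    rw [hXz _ hz, smul_zero]
  · have hqmp : ∀ᵐ z : ℂ, n • z ∈ neu_contS ω₁ ω₂ Vd p₀ r₀ D n → ∀ a b, D2 X (n • z) a b = -(a * b) := by
      rw [ae_iff] at hXflat ⊢
      have := Measure.addHaar_preimage_smul (volume : Measure ℂ) hn0.ne'
        {c : ℂ | ¬ (c ∈ neu_contS ω₁ ω₂ Vd p₀ r₀ D n → ∀ a b, D2 X c a b = -(a * b))}
      rw [hXflat, mul_zero] at this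
      exact this
    unfold Flat
    filter_upwards [hqmp] with z hz h1 a b
    rw [neu_mem_content_iff] at h1
    rw [hD2f]
    exact hz h1 a b
  · have e1 : ∀ z, EB (fun z => ((n ^ 2)⁻¹ : ℝ) • X (n • z)) z = EB X (n • z) := by
      intro z
      unfold EB
      rw [hD2f, hD2f, hD2f]
    simp only [e1]
    rw [neu_setIntegral_tri_scale (F := EB X) hn0]
    have hT : {z : ℂ | n⁻¹ • z ∈ tri} = {z : ℂ | 0 ≤ mm n z} := by
      ext z
      exact (neu_mem_tri_scale hn0 z).symm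
    rw [hT]
    have hbound := neu_integral_le_bulk_ring (g := EB Ξ) (F := EB X) (A := 35 * D)
      (B := B) hn0 hB0 {z : ℂ | 0 ≤ mm n z} subset_rfl (neu_measurableSet_mm_ge n 0) (neu_EB_nonneg X) (neu_EB_nonneg Ξ)
      (neu_EB_le hKΞ hΞ.lip') (neu_measurable_EB Ξ).aestronglyMeasurable
      (fun z _ hd => le_of_eq (neu_EB_congr (hXdeep z hd)))
      (neu_EB_le hK0 hXl) (hI n hn2) (hring n hn3)
    calc 8 * ((n ^ 2)⁻¹ * ∫ z in {z : ℂ | 0 ≤ mm n z}, EB X z)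
        ≤ 8 * ((n ^ 2)⁻¹ * (J * (n ^ 2 / 8) + C₁ * n + B * (C₂ * n))) := by gcongr
      _ = J + 8 * (C₁ + B * C₂) / n := by field_simp; ring

end EBC
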