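import Pool.Agent.Work.MP_ebc928_an.NeutralA
import Pool.Agent.Work.MP_ebc928_an.NeutralB

open MeasureTheory Complex Set
open scoped ContDiff ComplexConjugate

noncomputable section
namespace EBC

/-- nonzero lattice vectors are bounded below -/
theorem neu_lattice_sep {ω₁ ω₂ : ℂ} (hpos : 0 < (conj ω₁ * ω₂).im) :
    ∃ δ > 0, ∀ k l : ℤ, ¬ (k = 0 ∧ l = 0) → δ ≤ ‖(k • ω₁ + l • ω₂ : ℂ)‖ := by
  set A := (conj ω₁ * ω₂).im with hA
  have hω : 0 < ‖ω₁‖ + ‖ω₂‖ := by
    by_contra hc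
    push Not at hc
    have h1 : ‖ω₁‖ = 0 := by linarith [norm_nonneg ω₁, norm_nonneg ω₂]
    rw [norm_eq_zero] at h1
    rw [hA, h1] at hpos
    simp at hpos
  refine ⟨A / (‖ω₁‖ + ‖ω₂‖), by positivity, fun k l hkl => ?_⟩
  set w : ℂ := k • ω₁ + l • ω₂ with hw
  have h3 := neu_cs_comb hpos (k : ℝ) (l : ℝ)
  rw [← neu_zsmul_comb, ← hw] at h3
  rw [div_le_iff₀ hω]
  have hone : ∀ m : ℤ, m ≠ 0 → (1 : ℝ) ≤ |(m : ℝ)| := by
    intro m hm
    have : (1 : ℤ) ≤ |m| := Int.one_le_abs hm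
    exact_mod_cast this
  by_cases hk : k = 0
  · have hl : l ≠ 0 := fun h => hkl ⟨hk, h⟩
    have h4 := hone l hl
    rw [← h3.2] at h4
    unfold neu_ct at h4
    rw [abs_div, abs_of_pos hpos, le_div_iff₀ hpos, one_mul] at h4
    refine h4.trans ((Complex.abs_im_le_norm _).trans ?_)
    rw [norm_mul, RCLike.norm_conj, mul_comm]
    have := norm_nonneg ω₂
    gcongr
    linarith
  · have h4 := hone k hk
    rw [← h3.1] at h4
    unfold neu_cs at h4
    rw [abs_div, abs_of_pos hpos, le_div_iff₀ hpos, one_mul] at h4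
    refine h4.trans ((Complex.abs_im_le_norm _).trans ?_)
    rw [norm_mul, RCLike.norm_conj]
    have := norm_nonneg ω₁
    gcongr
    linarith

theorem IsBase.shrink {ω₁ ω₂ : ℂ} {Vd : Set ℂ} {ψ Ξ : ℂ → ℂ} {p₀ : ℂ} {r₀ r e J : ℝ}
    (h : IsBase ω₁ ω₂ Vd ψ Ξ p₀ r₀ e J) (hr : 0 < r) (hle : r ≤ r₀) :
    IsBase ω₁ ω₂ Vd ψ Ξ p₀ r e J :=
  { h with
    r₀pos := hr
    solid := fun m n => by
      have h1 := h.solid m n
      rw [Set.eq_empty_iff_forall_notMem] at h1 ⊢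
      intro z hz
      exact h1 z ⟨Metric.ball_subset_ball hle hz.1, hz.2⟩ }

/-- a void content which is neutral for the displacement and the stress fields -/
theorem neutral {ω₁ ω₂ : ℂ} {Vd : Set ℂ} {ψ Ξ : ℂ → ℂ} {p₀ : ℂ} {r₀ e J : ℝ}
    (h : IsBase ω₁ ω₂ Vd ψ Ξ p₀ r₀ e J) {ε : ℝ} (hε : 0 < ε) :
    ∃ C : Set ℂ, MeasurableSet C ∧ (∃ ρ₀ : ℝ, 0 < ρ₀ ∧ ρ₀ < 1 ∧ C ⊆ hom ρ₀ '' tri) ∧
      (∃ (z₀ : ℂ) (r : ℝ), 0 < r ∧ Metric.ball z₀ r ⊆ C) ∧
      GoodA C (e / 8 + ε) ∧ GoodB C (J + ε) := by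
  obtain ⟨δ, hδ, hsep⟩ := neu_lattice_sep h.pos
  have hr₀ := h.r₀pos
  set r := min r₀ (δ / 2) with hr
  have hrpos : 0 < r := lt_min hr₀ (by positivity)
  have h' := h.shrink hrpos (min_le_left _ _)
  have hsep' : ∀ k l : ℤ, ¬ (k = 0 ∧ l = 0) → 2 * r ≤ ‖(k • ω₁ + l • ω₂ : ℂ)‖ := by
    intro k l hkl
    have h1 := hsep k l hkl
    have h2 : r ≤ δ / 2 := min_le_right _ _
    linarith
  obtain ⟨DA, hDA, hA⟩ := neutralA h'
  obtain ⟨DB, hDB, hB⟩ := neutralB h' hsep'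
  set D := max (max DA DB) (r + 1) with hD
  have hD1 : DA ≤ D := (le_max_left _ _).trans (le_max_left _ _)
  have hD2 : DB ≤ D := (le_max_right _ _).trans (le_max_left _ _)
  have hD3 : r + 1 ≤ D := le_max_right _ _
  have hD0 : 0 < D := by linarith
  obtain ⟨CA, NA, hNA, hA'⟩ := hA D hD1
  obtain ⟨CB, NB, hNB, hB'⟩ := hB D hD2
  obtain ⟨v₀, hv₀⟩ := h.nonempty
  obtain ⟨η, hη, hball⟩ := Metric.isOpen_iff.1 h.isOpen v₀ hv₀
  set R := ‖ω₁‖ + ‖ω₂‖ with hR
  have hR0 : 0 ≤ R := by positivity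
  -- choose n
  set n := max (max NA NB) (max (max (|CA| / ε) (|CB| / ε)) (8 * (2 * R + 2 * η + 20 * D + 1))) with hn
  have hn1 : NA ≤ n := (le_max_left _ _).trans (le_max_left _ _)
  have hn2 : NB ≤ n := (le_max_right _ _).trans (le_max_left _ _)
  have hn3 : |CA| / ε ≤ n := (le_max_left _ _).trans ((le_max_left _ _).trans (le_max_right _ _))
  have hn4 : |CB| / ε ≤ n := (le_max_right _ _).trans ((le_max_left _ _).trans (le_max_right _ _))
  have hn5 : 8 * (2 * R + 2 * η + 20 * D + 1) ≤ n := (le_max_right _ _).trans (le_max_right _ _)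
  have hn0 : 0 < n := by nlinarith
  have hεA : CA / n ≤ ε := by
    rw [div_le_iff₀ hε] at hn3
    rw [div_le_iff₀ hn0]
    have := le_abs_self CA
    linarith
  have hεB : CB / n ≤ ε := by
    rw [div_le_iff₀ hε] at hn4
    rw [div_le_iff₀ hn0]
    have := le_abs_self CB
    linarith
  have hmono : ∀ {V : Set ℂ} {a b : ℝ}, a ≤ b → GoodA V a → GoodA V b := by
    rintro V a b hab ⟨ψ', h1, h2, h3, h4⟩
    exact ⟨ψ', h1, h2, h3, h4.trans hab⟩
  have hmonoB : ∀ {V : Set ℂ} {a b : ℝ}, a ≤ b → GoodB V a → GoodB V b := by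
    rintro V a b hab ⟨ψ', h1, h2, h3, h4⟩
    exact ⟨ψ', h1, h2, h3, h4.trans hab⟩
  refine ⟨content ω₁ ω₂ Vd p₀ r D n, (neu_isOpen_content h.isOpen).measurableSet, ?_, ?_,
    hmono (by linarith) (hA' n hn1), hmonoB (by linarith) (hB' n hn2)⟩
  · -- inside a smaller triangle
    have hDn : 16 * D / n < 1 := by
      rw [div_lt_one hn0]
      nlinarith
    refine ⟨1 - 16 * D / n, by linarith, by have : 0 < 16 * D / n := by positivity
                                            linarith, ?_⟩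
    rw [hom_image_tri (by linarith)]
    intro z hz
    rw [neu_mem_content_iff] at hz
    have hmm : 4 * D ≤ mm n (n • z) := by
      rcases hz with ⟨-, h1⟩ | ⟨k, l, h1, -, h3⟩
      · linarith
      · have h4 := neu_mm_lip1 n (p₀ + k • ω₁ + l • ω₂) (n • z)
        rw [norm_sub_rev, ← dist_eq_norm] at h4
        linarith
    show gau z ≤ 1 - 16 * D / n
    rw [neu_le_mm_iff] at hmm
    obtain ⟨h1, h2, h3⟩ := hmm
    simp only [Complex.smul_re, Complex.smul_im, smul_eq_mul] at h1 h2 h3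
    have e1 : 4 * D / n ≤ z.im := by rw [div_le_iff₀ hn0]; linarith
    have e2 : z.re ≤ 1 / 2 - 4 * D / n := by
      have : 4 * D / n ≤ 1 / 2 - z.re := by rw [div_le_iff₀ hn0]; linarith
      linarith
    have e3 : 4 * D / n ≤ z.re - z.im := by rw [div_le_iff₀ hn0]; linarith
    have e4 : 16 * D / n = 4 * (4 * D / n) := by ring
    have e5 : 0 < 4 * D / n := by positivity
    rw [e4]
    unfold gau cen
    simp only [Complex.sub_re, Complex.sub_im]
    refine max_le (max_le ?_ ?_) ?_ <;> linarith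
  · -- contains a ball
    obtain ⟨q, hq⟩ := neu_exists_lattice h.pos (n • cen - v₀)
    have hq' := neu_norm_par_le hq
    set c : ℂ := v₀ + (q.1 • ω₁ + q.2 • ω₂) with hc
    have hcd : ‖n • cen - c‖ ≤ R := by
      have : n • cen - c = n • cen - v₀ - (q.1 • ω₁ + q.2 • ω₂) := by rw [hc]; ring
      rw [this]; exact hq'
    have hcen : mm n (n • cen) = n / 8 := by
      unfold mm cen
      simp only [Complex.smul_re, Complex.smul_im, smul_eq_mul]
      rw [show n / 2 - n * (3 / 8) = n / 8 by ring, show n * (1 / 8) = n / 8 by ring,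
        show n * (3 / 8) - n / 8 = n / 4 by ring, min_self]
      exact min_eq_left (by linarith)
    have hVc : Metric.ball c η ⊆ Vd := by
      have hperV : ∀ w, w + (q.1 • ω₁ + q.2 • ω₂) ∈ Vd ↔ w ∈ Vd := by
        have hp : PerL ω₁ ω₂ (fun w => w ∈ Vd) := fun w =>
          ⟨propext (h.perV w).1, propext (h.perV w).2⟩
        intro w
        exact iff_of_eq (hp.int q.1 q.2 w)
      intro w hw
      have e1 : w = (w - (q.1 • ω₁ + q.2 • ω₂)) + (q.1 • ω₁ + q.2 • ω₂) := by ring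
      rw [e1, hperV]
      apply hball
      rw [Metric.mem_ball, dist_eq_norm] at hw ⊢
      rw [hc] at hw
      have e2 : w - (q.1 • ω₁ + q.2 • ω₂) - v₀ = w - (v₀ + (q.1 • ω₁ + q.2 • ω₂)) := by ring
      rw [e2]; exact hw
    refine ⟨n⁻¹ • c, η / n, by positivity, fun z hz => ?_⟩
    rw [neu_mem_content_iff]
    have hz1 : n • z ∈ Metric.ball c η := by
      rw [Metric.mem_ball, dist_eq_norm] at hz ⊢
      have e1 : n • z - c = n • (z - n⁻¹ • c) := by
        rw [smul_sub, smul_smul, mul_inv_cancel₀ hn0.ne', one_smul]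
      rw [e1, norm_smul, Real.norm_eq_abs, abs_of_pos hn0]
      rw [lt_div_iff₀ hn0] at hz
      linarith
    refine Or.inl ⟨hVc hz1, ?_⟩
    rw [Metric.mem_ball, dist_eq_norm] at hz1
    have h1 := neu_mm_lip1 n (n • cen) (n • z)
    have h2 : ‖n • cen - n • z‖ ≤ ‖n • cen - c‖ + ‖n • z - c‖ := by
      have : n • cen - n • z = (n • cen - c) - (n • z - c) := by ring
      rw [this]; exact norm_sub_le _ _
    rw [hcen] at h1
    linarith

end EBC
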