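import Pool.Agent.Work.MP_ebc928_an.HexBase
import Pool.Agent.Work.MP_ebc928_an.Neutral
import Pool.Agent.Work.MP_ebc928_an.Chain
import Pool.Agent.Work.MP_ebc928_an.Bridge

open MeasureTheory Complex Set
open scoped ContDiff ComplexConjugate

noncomputable section
namespace EBC

theorem main_exists : ∀ η > 0, ∃ (S : Set ℂ) (κ m : ℝ), Composite S ∧
    (∃ u ux uy, Adm S 1 u ux uy) ∧ 0 ≤ κ ∧ κ ≤ η ∧ 41 / 50 ≤ m ∧
    ∀ (α : ℝ) (β : ℂ), W S α β = 4 * κ * α ^ 2 + 4 * m * ‖β‖ ^ 2 := by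
  intro η hη
  obtain ⟨ω₁, ω₂, V, ψ, Ξ, p₀, r₀, hb⟩ := hex_base (ε := min (1 / 10000) (η / 8))
    (lt_min (by norm_num) (by positivity))
  obtain ⟨C, hC, ⟨ρ₀, h0, h1, hsub⟩, ⟨z₀, r, hr, hball⟩, hA, hB⟩ :=
    neutral hb (ε := min (1 / 10000) (η / 8)) (lt_min (by norm_num) (by positivity))
  have hp : 0 < min (1 / 10000 : ℝ) (η / 8) := lt_min (by norm_num) (by positivity)
  have hm1 : min (1 / 10000 : ℝ) (η / 8) ≤ 1 / 10000 := min_le_left _ _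
  have hm2 : min (1 / 10000 : ℝ) (η / 8) ≤ η / 8 := min_le_right _ _
  set ε := min (1 / 10000 : ℝ) (η / 8) with hε
  obtain ⟨S, κ, m, h1', h2', h3', h4', h5', h6'⟩ := chain hC h0 h1 hsub hr hball
    (e := ε / 8 + ε) (J := 68579 / 56250 + ε + ε) (by positivity) hA
    (by linarith) hB
  refine ⟨S, κ, m, h1', h2', h3', by linarith, ?_, h6'⟩
  refine le_trans ?_ h5'
  rw [div_le_div_iff₀ (by norm_num) (by linarith)]
  linarith

theorem final {μ : ℝ} (hμ : 0 < μ) :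
    (∃ m : ℝ, 41 / 50 * μ ≤ m ∧ ((0 : ℝ), m) ∈ closure (isoPairs μ)) ∧
      (∀ m : ℝ, ((0 : ℝ), m) ∈ closure (isoPairs μ) → m ≤ μ) ∧
      sSup {m : ℝ | ((0 : ℝ), m) ∈ closure (isoPairs μ)} ≠ 4 * μ / 5 :=
  final_of_main (by norm_num) main_exists hμ

end EBC
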