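import Pool.Agent.Work.MP_ebc928_an.Defs

open MeasureTheory Complex Set Filter Topology
open scoped ContDiff ComplexConjugate

noncomputable section
namespace EBC

/-! ### the lattice and the cell -/

/-- translates of the cell -/
def fb_cellT (m n : ℤ) : Set ℂ :=
  {z | z.re ∈ Ico (m : ℝ) (m + 1) ∧ z.im ∈ Ico (n : ℝ) (n + 1)}

lemma fb_measurableSet_cellT (m n : ℤ) : MeasurableSet (fb_cellT m n) := by
  have h1 : MeasurableSet {z : ℂ | z.re ∈ Ico (m : ℝ) (m + 1)} :=
    measurableSet_Ico.preimage Complex.measurable_re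
  have h2 : MeasurableSet {z : ℂ | z.im ∈ Ico (n : ℝ) (n + 1)} :=
    measurableSet_Ico.preimage Complex.measurable_im
  exact h1.inter h2

lemma measurableSet_cell : MeasurableSet cell := by
  have h1 : MeasurableSet {z : ℂ | z.re ∈ Ico (0 : ℝ) 1} :=
    measurableSet_Ico.preimage Complex.measurable_re
  have h2 : MeasurableSet {z : ℂ | z.im ∈ Ico (0 : ℝ) 1} :=
    measurableSet_Ico.preimage Complex.measurable_im
  exact h1.inter h2

lemma cell_subset_closedBall : cell ⊆ Metric.closedBall (0 : ℂ) 2 := by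
  intro z hz
  rw [mem_closedBall_zero_iff]
  have h1 := Complex.norm_le_abs_re_add_abs_im z
  have h2 : |z.re| ≤ 1 := abs_le.2 ⟨by linarith [hz.1.1], hz.1.2.le⟩
  have h3 : |z.im| ≤ 1 := abs_le.2 ⟨by linarith [hz.2.1], hz.2.2.le⟩
  linarith

lemma volume_cell_lt_top : volume cell < ⊤ :=
  lt_of_le_of_lt (measure_mono cell_subset_closedBall)
    (isCompact_closedBall (0 : ℂ) 2).measure_lt_top

instance isFiniteMeasure_cell : IsFiniteMeasure (volume.restrict cell) :=
  ⟨by rw [Measure.restrict_apply_univ]; exact volume_cell_lt_top⟩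

lemma Per.add_int {α : Type*} {f : ℂ → α} (hf : Per f) (m : ℤ) (z : ℂ) :
    f (z + m) = f z := by
  have h : Function.Periodic f 1 := fun z => (hf z).1
  have := h.int_mul m z
  simpa using this

lemma Per.add_int_I {α : Type*} {f : ℂ → α} (hf : Per f) (m : ℤ) (z : ℂ) :
    f (z + m * I) = f z := by
  have h : Function.Periodic f I := fun z => (hf z).2
  have := h.int_mul m z
  simpa using this

lemma Per.map {α β : Type*} {f : ℂ → α} (hf : Per f) (F : α → β) : Per (fun z => F (f z)) :=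
  fun z => ⟨congrArg F (hf z).1, congrArg F (hf z).2⟩

lemma Per.map2 {α β γ : Type*} {f : ℂ → α} {g : ℂ → β} (hf : Per f) (hg : Per g)
    (F : α → β → γ) : Per (fun z => F (f z) (g z)) :=
  fun z => ⟨congrArg₂ F (hf z).1 (hg z).1, congrArg₂ F (hf z).2 (hg z).2⟩

/-- the lattice `ℤ[i]` as an additive subgroup of `ℂ` -/
private def lat0 : AddSubgroup ℂ where
  carrier := {z | ∃ m n : ℤ, z = m + n * I}
  zero_mem' := ⟨0, 0, by simp⟩
  add_mem' := by
    rintro a b ⟨m, n, rfl⟩ ⟨m', n', rfl⟩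
    exact ⟨m + m', n + n', by push_cast; ring⟩
  neg_mem' := by
    rintro a ⟨m, n, rfl⟩
    exact ⟨-m, -n, by push_cast; ring⟩

private instance : Countable lat0 := by
  have : (lat0 : Set ℂ) = range (fun p : ℤ × ℤ => (p.1 : ℂ) + p.2 * I) := by
    ext z
    constructor
    · rintro ⟨m, n, rfl⟩; exact ⟨(m, n), rfl⟩
    · rintro ⟨⟨m, n⟩, rfl⟩; exact ⟨m, n, rfl⟩
  have h : (lat0 : Set ℂ).Countable := by
    rw [this]; exact countable_range _
  exact h.to_subtype

private lemma per_vadd {α : Type*} {f : ℂ → α} (hf : Per f) (g : lat0) (z : ℂ) :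
    f (g +ᵥ z) = f z := by
  obtain ⟨g, m, n, rfl⟩ := g
  have : ((⟨(m : ℂ) + n * I, ⟨m, n, rfl⟩⟩ : lat0) +ᵥ z) = z + m + n * I := by
    change (m : ℂ) + n * I + z = _
    ring
  rw [this, hf.add_int_I, hf.add_int]

/-- translated cells are fundamental domains -/
private lemma fund (w : ℂ) :
    IsAddFundamentalDomain lat0 {z : ℂ | z - w ∈ cell} (volume : Measure ℂ) := by
  refine IsAddFundamentalDomain.mk' ?_ ?_
  · exact ((measurable_id.sub_const w) measurableSet_cell).nullMeasurableSet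
  · intro x
    refine ⟨⟨(((-⌊(x - w).re⌋ : ℤ) : ℂ) + ((-⌊(x - w).im⌋ : ℤ) : ℂ) * I), ⟨_, _, rfl⟩⟩, ?_, ?_⟩
    · change ((((-⌊(x - w).re⌋ : ℤ) : ℂ) + ((-⌊(x - w).im⌋ : ℤ) : ℂ) * I) + x) - w ∈ cell
      refine ⟨?_, ?_⟩
      · have : (((((-⌊(x - w).re⌋ : ℤ) : ℂ) + ((-⌊(x - w).im⌋ : ℤ) : ℂ) * I) + x) - w).re
            = (x - w).re - ⌊(x - w).re⌋ := by
          simp only [sub_re, add_re, mul_re, intCast_re, intCast_im, I_re, I_im]
          push_cast
          ring
        rw [this]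
        exact ⟨by linarith [Int.floor_le (x - w).re], by linarith [Int.lt_floor_add_one (x - w).re]⟩
      · have : (((((-⌊(x - w).re⌋ : ℤ) : ℂ) + ((-⌊(x - w).im⌋ : ℤ) : ℂ) * I) + x) - w).im
            = (x - w).im - ⌊(x - w).im⌋ := by
          simp only [sub_im, add_im, mul_im, intCast_re, intCast_im, I_re, I_im]
          push_cast
          ring
        rw [this]
        exact ⟨by linarith [Int.floor_le (x - w).im], by linarith [Int.lt_floor_add_one (x - w).im]⟩
    · rintro ⟨g, m, n, rfl⟩ hg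
      have hg' : ((m : ℂ) + n * I) + x - w ∈ cell := hg
      have hre : (((m : ℂ) + n * I) + x - w).re = m + (x - w).re := by simp; ring
      have him : (((m : ℂ) + n * I) + x - w).im = n + (x - w).im := by simp; ring
      have h1 := hg'.1
      have h2 := hg'.2
      rw [hre] at h1
      rw [him] at h2
      have e1 : m = -⌊(x - w).re⌋ := by
        have : ⌊(x - w).re⌋ = -m := by
          rw [Int.floor_eq_iff]
          push_cast
          exact ⟨by linarith [h1.1], by linarith [h1.2]⟩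
        rw [this]; simp
      have e2 : n = -⌊(x - w).im⌋ := by
        have : ⌊(x - w).im⌋ = -n := by
          rw [Int.floor_eq_iff]
          push_cast
          exact ⟨by linarith [h2.1], by linarith [h2.2]⟩
        rw [this]; simp
      apply Subtype.ext
      change (m : ℂ) + n * I = _
      rw [e1, e2]

private lemma fund0 : IsAddFundamentalDomain lat0 cell (volume : Measure ℂ) := by
  simpa using fund 0

/-- the integral of a periodic function over the cell is translation invariant -/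
theorem setIntegral_cell_add {E : Type*} [NormedAddCommGroup E] [NormedSpace ℝ E] {g : ℂ → E}
    (hg : Per g) (w : ℂ) : ∫ z in cell, g (z + w) = ∫ z in cell, g z := by
  have h1 : ∫ z in {z : ℂ | z - w ∈ cell}, g z = ∫ z in cell, g z :=
    (fund w).setIntegral_eq fund0 (fun γ x => per_vadd hg γ x)
  rw [← h1]
  have hmp : MeasurePreserving (fun z : ℂ => z + w) volume volume :=
    measurePreserving_add_right volume w
  have hemb : MeasurableEmbedding (fun z : ℂ => z + w) :=
    (Homeomorph.addRight w).measurableEmbedding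
  have h2 := hmp.setIntegral_preimage_emb hemb g {z : ℂ | z - w ∈ cell}
  rw [← h2]
  congr 1
  congr 1
  ext z
  simp

/-! ### local integrability -/

lemma fb_memLp_cellT {E : Type*} [NormedAddCommGroup E] {g : ℂ → E} (hg : Per g)
    {p : ENNReal} (hm : MemLp g p (volume.restrict cell)) (m n : ℤ) :
    MemLp g p (volume.restrict (fb_cellT m n)) := by
  have hmp : MeasurePreserving (fun z : ℂ => z + (-(m : ℂ) - n * I)) volume volume :=
    measurePreserving_add_right volume _
  have hpre : (fun z : ℂ => z + (-(m : ℂ) - n * I)) ⁻¹' cell = fb_cellT m n := by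
    ext z
    simp only [mem_preimage, cell, fb_cellT, mem_ofPred_eq, mem_Ico]
    have h1 : (z + (-(m : ℂ) - n * I)).re = z.re - m := by simp; ring
    have h2 : (z + (-(m : ℂ) - n * I)).im = z.im - n := by simp; ring
    rw [h1, h2]
    constructor
    · rintro ⟨⟨a, b⟩, c, d⟩; exact ⟨⟨by linarith, by linarith⟩, by linarith, by linarith⟩
    · rintro ⟨⟨a, b⟩, c, d⟩; exact ⟨⟨by linarith, by linarith⟩, by linarith, by linarith⟩
  have h2 : MeasurePreserving (fun z : ℂ => z + (-(m : ℂ) - n * I))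
      (volume.restrict (fb_cellT m n)) (volume.restrict cell) := by
    rw [← hpre]
    exact hmp.restrict_preimage measurableSet_cell
  have h3 := hm.comp_measurePreserving h2
  have h4 : g ∘ (fun z : ℂ => z + (-(m : ℂ) - n * I)) = g := by
    funext z
    have := hg.add_int_I (-n) (z + ((-m : ℤ) : ℂ))
    rw [hg.add_int] at this
    rw [← this]
    simp only [Function.comp]
    congr 1
    push_cast
    ring
  rwa [h4] at h3

lemma fb_exists_cellT_cover (R : ℝ) : ∃ s : Finset (ℤ × ℤ),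
    Metric.closedBall (0 : ℂ) R ⊆ ⋃ p ∈ s, fb_cellT p.1 p.2 := by
  refine ⟨(Finset.Icc ⌊-R⌋ ⌊R⌋) ×ˢ (Finset.Icc ⌊-R⌋ ⌊R⌋), ?_⟩
  intro z hz
  rw [mem_closedBall_zero_iff] at hz
  have h1 := (abs_le.1 ((Complex.abs_re_le_norm z).trans hz))
  have h2 := (abs_le.1 ((Complex.abs_im_le_norm z).trans hz))
  simp only [mem_iUnion]
  refine ⟨(⌊z.re⌋, ⌊z.im⌋), ?_, ?_⟩
  · simp only [Finset.mem_product, Finset.mem_Icc]
    exact ⟨⟨Int.floor_le_floor h1.1, Int.floor_le_floor h1.2⟩,
      Int.floor_le_floor h2.1, Int.floor_le_floor h2.2⟩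
  · exact ⟨⟨Int.floor_le _, Int.lt_floor_add_one _⟩, Int.floor_le _, Int.lt_floor_add_one _⟩

lemma integrableOn_closedBall_of_per {E : Type*} [NormedAddCommGroup E] {g : ℂ → E} (hg : Per g)
    (hm : IntegrableOn g cell) (R : ℝ) : IntegrableOn g (Metric.closedBall (0 : ℂ) R) := by
  obtain ⟨s, hs⟩ := fb_exists_cellT_cover R
  refine IntegrableOn.mono_set ?_ hs
  rw [integrableOn_finset_iUnion]
  intro p _
  have h := fb_memLp_cellT hg (p := 1) (memLp_one_iff_integrable.2 hm) p.1 p.2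
  exact memLp_one_iff_integrable.1 h

lemma locallyIntegrable_of_per_integrableOn {E : Type*} [NormedAddCommGroup E] {g : ℂ → E}
    (hg : Per g) (hm : IntegrableOn g cell) : LocallyIntegrable g volume := by
  intro x
  refine ⟨Metric.closedBall (0 : ℂ) (‖x‖ + 1), ?_, integrableOn_closedBall_of_per hg hm _⟩
  refine mem_of_superset (Metric.ball_mem_nhds x one_pos) ?_
  intro y hy
  rw [mem_closedBall_zero_iff]
  have h1 : ‖y - x‖ < 1 := by rwa [← dist_eq_norm]
  have h2 : ‖y‖ ≤ ‖x‖ + ‖y - x‖ := by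
    calc ‖y‖ = ‖x + (y - x)‖ := by congr 1; ring
      _ ≤ _ := norm_add_le _ _
  linarith

lemma locInt_of_memLp {E : Type*} [NormedAddCommGroup E] {g : ℂ → E} (hg : Per g)
    (hm : MemLp g 2 (volume.restrict cell)) : LocallyIntegrable g volume :=
  locallyIntegrable_of_per_integrableOn hg (hm.integrable (by norm_num))

/-! ### the partition of unity -/

/-- one dimensional partition function -/
private def ch1 (x : ℝ) : ℝ := Real.smoothTransition (x + 1) - Real.smoothTransition x

private lemma ch1_smooth : ContDiff ℝ ∞ ch1 := by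
  unfold ch1
  exact (Real.smoothTransition.contDiff.comp (contDiff_id.add contDiff_const)).sub
    Real.smoothTransition.contDiff

private lemma ch1_zero {x : ℝ} (hx : x ≤ -1 ∨ 1 ≤ x) : ch1 x = 0 := by
  unfold ch1
  rcases hx with h | h
  · rw [Real.smoothTransition.zero_of_nonpos (by linarith),
      Real.smoothTransition.zero_of_nonpos (by linarith)]; ring
  · rw [Real.smoothTransition.one_of_one_le (by linarith),
      Real.smoothTransition.one_of_one_le (by linarith)]; ring

private lemma ch1_add {x : ℝ} (h0 : 0 ≤ x) (h1 : x ≤ 1) : ch1 x + ch1 (x - 1) = 1 := by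
  unfold ch1
  rw [Real.smoothTransition.one_of_one_le (by linarith : 1 ≤ x + 1),
    Real.smoothTransition.zero_of_nonpos (by linarith : x - 1 ≤ 0)]
  simp

/-- two dimensional partition function -/
private def chi (z : ℂ) : ℝ := ch1 z.re * ch1 z.im

private lemma chi_smooth : ContDiff ℝ ∞ chi := by
  unfold chi
  exact (ch1_smooth.comp Complex.reCLM.contDiff).mul (ch1_smooth.comp Complex.imCLM.contDiff)

private lemma chi_supp : HasCompactSupport chi := by
  refine HasCompactSupport.intro (isCompact_closedBall (0 : ℂ) 2) ?_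
  intro z hz
  rw [mem_closedBall_zero_iff, not_le] at hz
  by_contra hne
  have h1 : ¬ (z.re ≤ -1 ∨ 1 ≤ z.re) := by
    intro h; exact hne (by unfold chi; rw [ch1_zero h, zero_mul])
  have h2 : ¬ (z.im ≤ -1 ∨ 1 ≤ z.im) := by
    intro h; exact hne (by unfold chi; rw [ch1_zero h, mul_zero])
  push Not at h1 h2
  have h3 : |z.re| ≤ 1 := abs_le.2 ⟨h1.1.le, h1.2.le⟩
  have h4 : |z.im| ≤ 1 := abs_le.2 ⟨h2.1.le, h2.2.le⟩
  have := Complex.norm_le_abs_re_add_abs_im z
  linarith

private lemma chi_sum {z : ℂ} (hz : z ∈ cell) :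
    chi z + chi (z + (-1)) + chi (z + (-I)) + chi (z + (-1 - I)) = 1 := by
  unfold chi
  have e1 : (z + (-1)).re = z.re - 1 := by simp; ring
  have e2 : (z + (-1)).im = z.im := by simp
  have e3 : (z + (-I)).re = z.re := by simp
  have e4 : (z + (-I)).im = z.im - 1 := by simp; ring
  have e5 : (z + (-1 - I)).re = z.re - 1 := by simp; ring
  have e6 : (z + (-1 - I)).im = z.im - 1 := by simp; ring
  rw [e1, e2, e3, e4, e5, e6]
  have h1 := ch1_add hz.1.1 hz.1.2.le
  have h2 := ch1_add hz.2.1 hz.2.2.le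
  calc _ = (ch1 z.re + ch1 (z.re - 1)) * (ch1 z.im + ch1 (z.im - 1)) := by ring
    _ = 1 := by rw [h1, h2]; ring

private lemma deriv_smoothTransition_of_one_le {x : ℝ} (hx : 1 ≤ x) :
    deriv Real.smoothTransition x = 0 := by
  apply IsLocalMax.deriv_eq_zero
  refine Filter.Eventually.of_forall fun y => ?_
  rw [Real.smoothTransition.one_of_one_le hx]
  exact Real.smoothTransition.le_one y

private lemma deriv_smoothTransition_of_nonpos {x : ℝ} (hx : x ≤ 0) :
    deriv Real.smoothTransition x = 0 := by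
  apply IsLocalMin.deriv_eq_zero
  refine Filter.Eventually.of_forall fun y => ?_
  rw [Real.smoothTransition.zero_of_nonpos hx]
  exact Real.smoothTransition.nonneg y

private lemma hasDerivAt_smoothTransition (x : ℝ) :
    HasDerivAt Real.smoothTransition (deriv Real.smoothTransition x) x :=
  ((Real.smoothTransition.contDiff (n := 1)).differentiable (by simp) x).hasDerivAt

private lemma hasDerivAt_ch1 (x : ℝ) : HasDerivAt ch1
    (deriv Real.smoothTransition (x + 1) - deriv Real.smoothTransition x) x := by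
  have h1 : HasDerivAt (fun y : ℝ => Real.smoothTransition (y + 1))
      (deriv Real.smoothTransition (x + 1)) x :=
    (hasDerivAt_smoothTransition (x + 1)).comp_add_const x 1
  exact h1.sub (hasDerivAt_smoothTransition x)

private lemma deriv_ch1_add {x : ℝ} (h0 : 0 ≤ x) (h1 : x ≤ 1) :
    deriv ch1 x + deriv ch1 (x - 1) = 0 := by
  rw [(hasDerivAt_ch1 x).deriv, (hasDerivAt_ch1 (x - 1)).deriv,
    deriv_smoothTransition_of_one_le (by linarith : 1 ≤ x + 1),
    deriv_smoothTransition_of_nonpos (by linarith : x - 1 ≤ 0)]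
  simp

private lemma fderiv_chi (z e : ℂ) : fderiv ℝ chi z e =
    e.re * (deriv ch1 z.re * ch1 z.im) + e.im * (ch1 z.re * deriv ch1 z.im) := by
  have h1 : HasFDerivAt (fun z : ℂ => ch1 z.re) ((deriv ch1 z.re) • reCLM) z := by
    have := (hasDerivAt_ch1 z.re).hasFDerivAt.comp z reCLM.hasFDerivAt
    rw [← (hasDerivAt_ch1 z.re).deriv] at this
    refine this.congr_fderiv ?_
    ext v
    simp [mul_comm]
  have h2 : HasFDerivAt (fun z : ℂ => ch1 z.im) ((deriv ch1 z.im) • imCLM) z := by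
    have := (hasDerivAt_ch1 z.im).hasFDerivAt.comp z imCLM.hasFDerivAt
    rw [← (hasDerivAt_ch1 z.im).deriv] at this
    refine this.congr_fderiv ?_
    ext v
    simp [mul_comm]
  have h3 : HasFDerivAt chi _ z := h1.mul h2
  rw [h3.fderiv]
  simp
  ring

private lemma fderiv_chi_sum {z : ℂ} (hz : z ∈ cell) (e : ℂ) :
    fderiv ℝ chi z e + fderiv ℝ chi (z + (-1)) e + fderiv ℝ chi (z + (-I)) e
      + fderiv ℝ chi (z + (-1 - I)) e = 0 := by
  simp only [fderiv_chi]
  have e1 : (z + (-1)).re = z.re - 1 := by simp; ring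
  have e2 : (z + (-1)).im = z.im := by simp
  have e3 : (z + (-I)).re = z.re := by simp
  have e4 : (z + (-I)).im = z.im - 1 := by simp; ring
  have e5 : (z + (-1 - I)).re = z.re - 1 := by simp; ring
  have e6 : (z + (-1 - I)).im = z.im - 1 := by simp; ring
  rw [e1, e2, e3, e4, e5, e6]
  have h1 := deriv_ch1_add hz.1.1 hz.1.2.le
  have h2 := deriv_ch1_add hz.2.1 hz.2.2.le
  calc _ = e.re * ((deriv ch1 z.re + deriv ch1 (z.re - 1)) * (ch1 z.im + ch1 (z.im - 1)))
      + e.im * ((ch1 z.re + ch1 (z.re - 1)) * (deriv ch1 z.im + deriv ch1 (z.im - 1))) := by ring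
    _ = 0 := by rw [h1, h2]; ring

private lemma chi_ne {z : ℂ} (h : chi z ≠ 0) : (-1 < z.re ∧ z.re < 1) ∧ (-1 < z.im ∧ z.im < 1) := by
  have h1 : ¬ (z.re ≤ -1 ∨ 1 ≤ z.re) := by
    intro h'; exact h (by unfold chi; rw [ch1_zero h', zero_mul])
  have h2 : ¬ (z.im ≤ -1 ∨ 1 ≤ z.im) := by
    intro h'; exact h (by unfold chi; rw [ch1_zero h', mul_zero])
  push Not at h1 h2
  exact ⟨h1, h2⟩

private lemma deriv_ch1_zero {x : ℝ} (hx : x ≤ -1 ∨ 1 ≤ x) : deriv ch1 x = 0 := by
  rw [(hasDerivAt_ch1 x).deriv]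
  rcases hx with h | h
  · rw [deriv_smoothTransition_of_nonpos (by linarith : x + 1 ≤ 0),
      deriv_smoothTransition_of_nonpos (by linarith : x ≤ 0)]; ring
  · rw [deriv_smoothTransition_of_one_le (by linarith : 1 ≤ x + 1),
      deriv_smoothTransition_of_one_le h]; ring

private lemma fderiv_chi_ne {z e : ℂ} (h : fderiv ℝ chi z e ≠ 0) :
    (-1 < z.re ∧ z.re < 1) ∧ (-1 < z.im ∧ z.im < 1) := by
  rw [fderiv_chi] at h
  have h1 : ¬ (z.re ≤ -1 ∨ 1 ≤ z.re) := by
    intro h'; exact h (by rw [ch1_zero h', deriv_ch1_zero h']; ring)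
  have h2 : ¬ (z.im ≤ -1 ∨ 1 ≤ z.im) := by
    intro h'; exact h (by rw [ch1_zero h', deriv_ch1_zero h']; ring)
  push Not at h1 h2
  exact ⟨h1, h2⟩

/-! ### unfolding integrals over the plane -/

lemma fb_setIntegral_cellT {E : Type*} [NormedAddCommGroup E] [NormedSpace ℝ E]
    (F : ℂ → E) (m n : ℤ) :
    ∫ z in fb_cellT m n, F z = ∫ z in cell, F (z + ((m : ℂ) + n * I)) := by
  have hmp : MeasurePreserving (fun z : ℂ => z + ((m : ℂ) + n * I)) volume volume :=
    measurePreserving_add_right volume _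
  have hemb : MeasurableEmbedding (fun z : ℂ => z + ((m : ℂ) + n * I)) :=
    (Homeomorph.addRight _).measurableEmbedding
  rw [← hmp.setIntegral_preimage_emb hemb F (fb_cellT m n)]
  congr 2
  ext z
  simp only [mem_preimage, cell, fb_cellT, mem_ofPred_eq, mem_Ico]
  have h1 : (z + ((m : ℂ) + n * I)).re = z.re + m := by simp
  have h2 : (z + ((m : ℂ) + n * I)).im = z.im + n := by simp
  rw [h1, h2]
  constructor
  · rintro ⟨⟨a, b⟩, c, d⟩; exact ⟨⟨by linarith, by linarith⟩, by linarith, by linarith⟩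
  · rintro ⟨⟨a, b⟩, c, d⟩; exact ⟨⟨by linarith, by linarith⟩, by linarith, by linarith⟩

lemma fb_disj_cellT {m n m' n' : ℤ} (h : (m, n) ≠ (m', n')) :
    Disjoint (fb_cellT m n) (fb_cellT m' n') := by
  rw [Set.disjoint_left]
  rintro z ⟨h1, h2⟩ ⟨h3, h4⟩
  apply h
  have e1 : ⌊z.re⌋ = m := Int.floor_eq_iff.2 h1
  have e2 : ⌊z.re⌋ = m' := Int.floor_eq_iff.2 h3
  have e3 : ⌊z.im⌋ = n := Int.floor_eq_iff.2 h2
  have e4 : ⌊z.im⌋ = n' := Int.floor_eq_iff.2 h4
  rw [← e1, ← e2, ← e3, ← e4]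

private lemma integral_fold {E : Type*} [NormedAddCommGroup E] [NormedSpace ℝ E] [CompleteSpace E]
    {K : ℂ → ℝ} (hK : Continuous K)
    (hs : ∀ z, K z ≠ 0 → (-1 < z.re ∧ z.re < 1) ∧ (-1 < z.im ∧ z.im < 1))
    {G : ℂ → E} (hG : Per G) (hint : LocallyIntegrable G volume) :
    ∫ z, K z • G z = ∫ z in cell, (K z + K (z + (-1)) + K (z + (-I)) + K (z + (-1 - I))) • G z := by
  have hKc : HasCompactSupport K := by
    refine HasCompactSupport.intro (isCompact_closedBall (0 : ℂ) 2) ?_
    intro z hz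
    rw [mem_closedBall_zero_iff, not_le] at hz
    by_contra hne
    obtain ⟨h1, h2⟩ := hs z hne
    have h3 : |z.re| ≤ 1 := abs_le.2 ⟨h1.1.le, h1.2.le⟩
    have h4 : |z.im| ≤ 1 := abs_le.2 ⟨h2.1.le, h2.2.le⟩
    have := Complex.norm_le_abs_re_add_abs_im z
    linarith
  have hI : Integrable (fun z => K z • G z) volume :=
    hint.integrable_smul_left_of_hasCompactSupport hK hKc
  have hU : ∫ z, K z • G z = ∫ z in (fb_cellT 0 0 ∪ fb_cellT (-1) 0) ∪ (fb_cellT 0 (-1) ∪ fb_cellT (-1) (-1)),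
      K z • G z := by
    rw [setIntegral_eq_integral_of_forall_compl_eq_zero]
    intro z hz
    by_contra hne
    have hKz : K z ≠ 0 := by
      intro h0; exact hne (by rw [h0, zero_smul])
    obtain ⟨h1, h2⟩ := hs z hKz
    apply hz
    by_cases a : 0 ≤ z.re
    · by_cases b : 0 ≤ z.im
      · exact Or.inl (Or.inl ⟨⟨by push_cast; linarith, by push_cast; linarith⟩,
          by push_cast; linarith, by push_cast; linarith⟩)
      · exact Or.inr (Or.inl ⟨⟨by push_cast; linarith, by push_cast; linarith⟩,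
          by push_cast; linarith, by push_cast; linarith⟩)
    · by_cases b : 0 ≤ z.im
      · exact Or.inl (Or.inr ⟨⟨by push_cast; linarith, by push_cast; linarith⟩,
          by push_cast; linarith, by push_cast; linarith⟩)
      · exact Or.inr (Or.inr ⟨⟨by push_cast; linarith, by push_cast; linarith⟩,
          by push_cast; linarith, by push_cast; linarith⟩)
  rw [hU, setIntegral_union, setIntegral_union, setIntegral_union]
  rotate_left
  · exact fb_disj_cellT (by decide)
  · exact fb_measurableSet_cellT _ _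
  · exact hI.integrableOn
  · exact hI.integrableOn
  · exact fb_disj_cellT (by decide)
  · exact fb_measurableSet_cellT _ _
  · exact hI.integrableOn
  · exact hI.integrableOn
  · rw [Set.disjoint_union_left, Set.disjoint_union_right, Set.disjoint_union_right]
    exact ⟨⟨fb_disj_cellT (by decide), fb_disj_cellT (by decide)⟩,
      fb_disj_cellT (by decide), fb_disj_cellT (by decide)⟩
  · exact (fb_measurableSet_cellT _ _).union (fb_measurableSet_cellT _ _)
  · exact hI.integrableOn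
  · exact hI.integrableOn
  rw [fb_setIntegral_cellT, fb_setIntegral_cellT, fb_setIntegral_cellT, fb_setIntegral_cellT]
  have q : ∀ (w : ℂ), Integrable (fun z => K (z + w) • G (z + w)) volume := fun w =>
    hI.comp_add_right w
  have q2 : ∀ (w w' : ℂ), IntegrableOn (fun z => K (z + w) • G (z + w)
      + K (z + w') • G (z + w')) cell volume := fun w w' => ((q w).add (q w')).integrableOn
  rw [← integral_add (q _).integrableOn (q _).integrableOn,
    ← integral_add (q _).integrableOn (q _).integrableOn, ← integral_add (q2 _ _) (q2 _ _)]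
  refine setIntegral_congr_fun measurableSet_cell ?_
  intro z _
  have g1 : G (z + (((-1 : ℤ) : ℂ) + ((0 : ℤ) : ℂ) * I)) = G z := by
    rw [← add_assoc, hG.add_int_I, hG.add_int]
  have g2 : G (z + (((0 : ℤ) : ℂ) + ((-1 : ℤ) : ℂ) * I)) = G z := by
    rw [← add_assoc, hG.add_int_I, hG.add_int]
  have g3 : G (z + (((-1 : ℤ) : ℂ) + ((-1 : ℤ) : ℂ) * I)) = G z := by
    rw [← add_assoc, hG.add_int_I, hG.add_int]
  have g0 : G (z + (((0 : ℤ) : ℂ) + ((0 : ℤ) : ℂ) * I)) = G z := by
    rw [← add_assoc, hG.add_int_I, hG.add_int]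
  simp only
  rw [g0, g1, g2, g3]
  have k0 : z + (((0 : ℤ) : ℂ) + ((0 : ℤ) : ℂ) * I) = z := by simp
  have k1 : z + (((-1 : ℤ) : ℂ) + ((0 : ℤ) : ℂ) * I) = z + (-1) := by simp
  have k2 : z + (((0 : ℤ) : ℂ) + ((-1 : ℤ) : ℂ) * I) = z + (-I) := by simp
  have k3 : z + (((-1 : ℤ) : ℂ) + ((-1 : ℤ) : ℂ) * I) = z + (-1 - I) := by simp; ring
  rw [k0, k1, k2, k3]
  module

private lemma integral_chi {G : ℂ → ℂ} (hG : Per G) (hint : LocallyIntegrable G volume) :
    ∫ z, chi z • G z = ∫ z in cell, G z := by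
  rw [integral_fold chi_smooth.continuous (fun z h => chi_ne h) hG hint]
  refine setIntegral_congr_fun measurableSet_cell ?_
  intro z hz
  simp only
  rw [chi_sum hz, one_smul]

private lemma integral_fderiv_chi {G : ℂ → ℂ} (hG : Per G) (hint : LocallyIntegrable G volume)
    (e : ℂ) : ∫ z, (fderiv ℝ chi z e) • G z = 0 := by
  rw [integral_fold (K := fun z => fderiv ℝ chi z e)
    ((chi_smooth.continuous_fderiv (by simp)).clm_apply continuous_const)
    (fun z h => fderiv_chi_ne h) hG hint]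
  rw [setIntegral_congr_fun (g := fun _ => (0 : ℂ)) measurableSet_cell, integral_zero]
  intro z hz
  simp only
  rw [fderiv_chi_sum hz, zero_smul]

/-! ### fluctuations -/

private lemma int_fderiv_smul {φ : ℂ → ℝ} (h1 : ContDiff ℝ ∞ φ) (h2 : HasCompactSupport φ) (e : ℂ)
    {u : ℂ → ℂ} (hu : LocallyIntegrable u volume) :
    Integrable (fun z => (fderiv ℝ φ z e) • u z) volume :=
  hu.integrable_smul_left_of_hasCompactSupport
    ((h1.continuous_fderiv (by simp)).clm_apply continuous_const) (h2.fderiv_apply (𝕜 := ℝ) e)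

private lemma int_smul {φ : ℂ → ℝ} (h1 : ContDiff ℝ ∞ φ) (h2 : HasCompactSupport φ)
    {u : ℂ → ℂ} (hu : LocallyIntegrable u volume) :
    Integrable (fun z => φ z • u z) volume :=
  hu.integrable_smul_left_of_hasCompactSupport h1.continuous h2

private lemma WeakDeriv.add {e : ℂ} {u g v h : ℂ → ℂ} (hu : LocallyIntegrable u volume)
    (hg : LocallyIntegrable g volume) (hv : LocallyIntegrable v volume)
    (hh : LocallyIntegrable h volume) (h1 : WeakDeriv e u g) (h2 : WeakDeriv e v h) :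
    WeakDeriv e (fun z => u z + v z) (fun z => g z + h z) := by
  intro φ hφ hc
  simp only [smul_add]
  rw [integral_add (int_fderiv_smul hφ hc e hu) (int_fderiv_smul hφ hc e hv),
    integral_add (int_smul hφ hc hg) (int_smul hφ hc hh), h1 φ hφ hc, h2 φ hφ hc]
  ring

private lemma WeakDeriv.const_mul {e : ℂ} {u g : ℂ → ℂ} (h1 : WeakDeriv e u g) (c : ℂ) :
    WeakDeriv e (fun z => c * u z) (fun z => c * g z) := by
  intro φ hφ hc
  have a1 : ∀ z, (fderiv ℝ φ z e) • (c * u z) = c * ((fderiv ℝ φ z e) • u z) := by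
    intro z; rw [mul_smul_comm]
  have a2 : ∀ z, φ z • (c * g z) = c * (φ z • g z) := by
    intro z; rw [mul_smul_comm]
  simp only [a1, a2]
  rw [integral_const_mul, integral_const_mul, h1 φ hφ hc]
  ring

private lemma WeakDeriv.star {e : ℂ} {u g : ℂ → ℂ} (h1 : WeakDeriv e u g) :
    WeakDeriv e (fun z => conj (u z)) (fun z => conj (g z)) := by
  intro φ hφ hc
  have a1 : ∀ z, (fderiv ℝ φ z e) • (conj (u z)) = conj ((fderiv ℝ φ z e) • u z) := by
    intro z; simp
  have a2 : ∀ z, φ z • (conj (g z)) = conj (φ z • g z) := by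
    intro z; simp
  simp only [a1, a2]
  rw [integral_conj, integral_conj, h1 φ hφ hc, map_neg]

theorem fluct_zero : Fluct (fun _ => 0) (fun _ => 0) (fun _ => 0) := by
  refine ⟨fun z => ⟨rfl, rfl⟩, fun z => ⟨rfl, rfl⟩, fun z => ⟨rfl, rfl⟩, MemLp.zero', MemLp.zero',
    MemLp.zero', ?_, ?_⟩ <;>
  · intro φ _ _
    simp

theorem Fluct.add {u ux uy v vx vy : ℂ → ℂ} (hu : Fluct u ux uy) (hv : Fluct v vx vy) :
    Fluct (fun z => u z + v z) (fun z => ux z + vx z) (fun z => uy z + vy z) where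
  per := hu.per.map2 hv.per fun a b => a + b
  perx := hu.perx.map2 hv.perx fun a b => a + b
  pery := hu.pery.map2 hv.pery fun a b => a + b
  mem := hu.mem.add hv.mem
  memx := hu.memx.add hv.memx
  memy := hu.memy.add hv.memy
  wx := WeakDeriv.add (locInt_of_memLp hu.per hu.mem) (locInt_of_memLp hu.perx hu.memx)
    (locInt_of_memLp hv.per hv.mem) (locInt_of_memLp hv.perx hv.memx) hu.wx hv.wx
  wy := WeakDeriv.add (locInt_of_memLp hu.per hu.mem) (locInt_of_memLp hu.pery hu.memy)
    (locInt_of_memLp hv.per hv.mem) (locInt_of_memLp hv.pery hv.memy) hu.wy hv.wy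

theorem Fluct.const_mul {u ux uy : ℂ → ℂ} (hu : Fluct u ux uy) (c : ℂ) :
    Fluct (fun z => c * u z) (fun z => c * ux z) (fun z => c * uy z) where
  per := hu.per.map fun a => c * a
  perx := hu.perx.map fun a => c * a
  pery := hu.pery.map fun a => c * a
  mem := hu.mem.const_mul c
  memx := hu.memx.const_mul c
  memy := hu.memy.const_mul c
  wx := hu.wx.const_mul c
  wy := hu.wy.const_mul c

private lemma memLp_conj {u : ℂ → ℂ} {μ : Measure ℂ} (hu : MemLp u 2 μ) :
    MemLp (fun z => conj (u z)) 2 μ := by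
  have := (conjCLE : ℂ ≃L[ℝ] ℂ).toContinuousLinearMap.comp_memLp' hu
  exact this

theorem Fluct.star {u ux uy : ℂ → ℂ} (hu : Fluct u ux uy) :
    Fluct (fun z => conj (u z)) (fun z => conj (ux z)) (fun z => conj (uy z)) where
  per := hu.per.map fun a => conj a
  perx := hu.perx.map fun a => conj a
  pery := hu.pery.map fun a => conj a
  mem := memLp_conj hu.mem
  memx := memLp_conj hu.memx
  memy := memLp_conj hu.memy
  wx := hu.wx.star
  wy := hu.wy.star

private lemma weakDeriv_of_lipschitz {ψ : ℂ → ℂ} {K : NNReal} (hψ : LipschitzWith K ψ) (e : ℂ) :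
    WeakDeriv e ψ (fun z => fderiv ℝ ψ z e) := by
  intro φ hφ hc
  obtain ⟨D, hD⟩ : ∃ D, LipschitzWith D φ :=
    ContDiff.lipschitzWith_of_hasCompactSupport hc hφ (by simp)
  have hfd : ∀ z, fderiv ℝ φ z e = lineDeriv ℝ φ z e := fun z =>
    ((hφ.differentiable (by simp)) z).lineDeriv_eq_fderiv.symm
  have hψd : ∀ᵐ z, fderiv ℝ ψ z e = lineDeriv ℝ ψ z e := by
    filter_upwards [hψ.ae_differentiableAt (μ := volume)] with z hz
    exact hz.lineDeriv_eq_fderiv.symm
  -- real and imaginary parts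
  have key : ∀ (L : ℂ →L[ℝ] ℝ), ∫ z, (fderiv ℝ φ z e) * L (ψ z)
      = - ∫ z, φ z * L (fderiv ℝ ψ z e) := by
    intro L
    have hL : LipschitzWith (‖L‖₊ * K) (fun z => L (ψ z)) := L.lipschitz.comp hψ
    have h := LipschitzWith.integral_lineDeriv_mul_eq (μ := volume) hL hD hc e
    have h1 : ∫ z, lineDeriv ℝ (fun z => L (ψ z)) z e * φ z = ∫ z, φ z * L (fderiv ℝ ψ z e) := by
      refine integral_congr_ae ?_
      filter_upwards [hψ.ae_differentiableAt (μ := volume)] with z hz
      have hz2 : HasFDerivAt (fun z => L (ψ z)) (L ∘L fderiv ℝ ψ z) z :=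
        L.hasFDerivAt.comp z hz.hasFDerivAt
      rw [hz2.differentiableAt.lineDeriv_eq_fderiv, hz2.fderiv]
      simp [mul_comm]
    have h2 : ∫ z, lineDeriv ℝ φ z (-e) * L (ψ z) = - ∫ z, (fderiv ℝ φ z e) * L (ψ z) := by
      rw [← integral_neg]
      congr 1
      funext z
      rw [((hφ.differentiable (by simp)) z).lineDeriv_eq_fderiv, map_neg, neg_mul]
    rw [h1, h2] at h
    rw [h, neg_neg]
  have hψi : LocallyIntegrable ψ volume := hψ.continuous.locallyIntegrable
  have hm : Measurable fun z => fderiv ℝ ψ z e := measurable_fderiv_apply_const ℝ ψ e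
  have hdi : LocallyIntegrable (fun z => fderiv ℝ ψ z e) volume := by
    refine (locallyIntegrable_const ((K : ℝ) * ‖e‖)).mono hm.aestronglyMeasurable ?_
    refine Filter.Eventually.of_forall fun z => ?_
    calc ‖fderiv ℝ ψ z e‖ ≤ ‖fderiv ℝ ψ z‖ * ‖e‖ := ContinuousLinearMap.le_opNorm _ _
      _ ≤ K * ‖e‖ := by
        gcongr
        exact norm_fderiv_le_of_lipschitz ℝ hψ
      _ ≤ ‖(K : ℝ) * ‖e‖‖ := le_abs_self _
  have i1 := int_fderiv_smul hφ hc e hψi
  have i2 := int_smul hφ hc hdi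
  apply Complex.ext
  · have := key reCLM
    rw [neg_re]
    have e1 : (∫ z, (fderiv ℝ φ z e) • ψ z).re = ∫ z, (fderiv ℝ φ z e) * reCLM (ψ z) := by
      have := (reCLM.integral_comp_comm i1).symm
      simpa using this
    have e2 : (∫ z, φ z • (fderiv ℝ ψ z e)).re = ∫ z, φ z * reCLM (fderiv ℝ ψ z e) := by
      have := (reCLM.integral_comp_comm i2).symm
      simpa using this
    rw [e1, e2, this]
  · have := key imCLM
    rw [neg_im]
    have e1 : (∫ z, (fderiv ℝ φ z e) • ψ z).im = ∫ z, (fderiv ℝ φ z e) * imCLM (ψ z) := by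
      have := (imCLM.integral_comp_comm i1).symm
      simpa using this
    have e2 : (∫ z, φ z • (fderiv ℝ ψ z e)).im = ∫ z, φ z * imCLM (fderiv ℝ ψ z e) := by
      have := (imCLM.integral_comp_comm i2).symm
      simpa using this
    rw [e1, e2, this]

lemma per_fderiv {E : Type*} [NormedAddCommGroup E] [NormedSpace ℝ E] {ψ : ℂ → E} (hp : Per ψ) :
    Per (fderiv ℝ ψ) := by
  intro z
  constructor
  · have h : (fun w => ψ (w + 1)) = ψ := funext fun w => (hp w).1
    have h2 := fderiv_comp_add_right (𝕜 := ℝ) (f := ψ) (x := z) (1 : ℂ)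
    rw [h] at h2
    exact h2.symm
  · have h : (fun w => ψ (w + I)) = ψ := funext fun w => (hp w).2
    have h2 := fderiv_comp_add_right (𝕜 := ℝ) (f := ψ) (x := z) (I : ℂ)
    rw [h] at h2
    exact h2.symm

/-- Lipschitz periodic functions are admissible fluctuations (Rademacher). -/
theorem fluct_of_lipschitz {ψ : ℂ → ℂ} {K : NNReal} (hψ : LipschitzWith K ψ) (hp : Per ψ) :
    Fluct ψ (fun z => fderiv ℝ ψ z 1) (fun z => fderiv ℝ ψ z I) := by
  have hb : ∀ e : ℂ, MemLp (fun z => fderiv ℝ ψ z e) 2 (volume.restrict cell) := by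
    intro e
    have hm : Measurable fun z => fderiv ℝ ψ z e := measurable_fderiv_apply_const ℝ ψ e
    refine MemLp.of_bound hm.aestronglyMeasurable (K * ‖e‖) ?_
    refine Filter.Eventually.of_forall fun z => ?_
    calc ‖fderiv ℝ ψ z e‖ ≤ ‖fderiv ℝ ψ z‖ * ‖e‖ := ContinuousLinearMap.le_opNorm _ _
      _ ≤ K * ‖e‖ := by
        gcongr
        exact norm_fderiv_le_of_lipschitz ℝ hψ
  refine ⟨hp, (per_fderiv hp).map fun L => L 1, (per_fderiv hp).map fun L => L I, ?_, hb 1, hb I,
    weakDeriv_of_lipschitz hψ 1, weakDeriv_of_lipschitz hψ I⟩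
  · obtain ⟨C, hC⟩ := (isCompact_closedBall (0 : ℂ) 2).exists_bound_of_continuousOn
      hψ.continuous.continuousOn
    refine MemLp.of_bound hψ.continuous.aestronglyMeasurable C ?_
    rw [ae_restrict_iff' measurableSet_cell]
    exact Filter.Eventually.of_forall fun z hz => hC z (cell_subset_closedBall hz)

lemma per_bounded {E : Type*} [NormedAddCommGroup E] {g : ℂ → E} (hg : Per g)
    (hc : Continuous g) : ∃ C, ∀ z, ‖g z‖ ≤ C := by
  obtain ⟨C, hC⟩ := (isCompact_closedBall (0 : ℂ) 2).exists_bound_of_continuousOn hc.continuousOn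
  refine ⟨C, fun z => ?_⟩
  have h1 : g z = g (z + ((-⌊z.re⌋ : ℤ) : ℂ) + ((-⌊z.im⌋ : ℤ) : ℂ) * I) := by
    rw [hg.add_int_I, hg.add_int]
  rw [h1]
  apply hC
  apply cell_subset_closedBall
  refine ⟨?_, ?_⟩
  · have : (z + ((-⌊z.re⌋ : ℤ) : ℂ) + ((-⌊z.im⌋ : ℤ) : ℂ) * I).re = z.re - ⌊z.re⌋ := by
      simp only [add_re, mul_re, intCast_re, intCast_im, I_re, I_im]
      push_cast
      ring
    rw [this]
    exact ⟨by linarith [Int.floor_le z.re], by linarith [Int.lt_floor_add_one z.re]⟩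
  · have : (z + ((-⌊z.re⌋ : ℤ) : ℂ) + ((-⌊z.im⌋ : ℤ) : ℂ) * I).im = z.im - ⌊z.im⌋ := by
      simp only [add_im, mul_im, intCast_re, intCast_im, I_re, I_im]
      push_cast
      ring
    rw [this]
    exact ⟨by linarith [Int.floor_le z.im], by linarith [Int.lt_floor_add_one z.im]⟩

theorem fluct_of_smooth {ψ : ℂ → ℂ} (hψ : ContDiff ℝ ∞ ψ) (hp : Per ψ) :
    Fluct ψ (fun z => fderiv ℝ ψ z 1) (fun z => fderiv ℝ ψ z I) := by
  obtain ⟨C, hC⟩ := per_bounded (per_fderiv hp) (hψ.continuous_fderiv (by simp))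
  have hC0 : 0 ≤ C := (norm_nonneg _).trans (hC 0)
  have hL : LipschitzWith ⟨C, hC0⟩ ψ :=
    lipschitzWith_of_nnnorm_fderiv_le (hψ.differentiable (by simp)) (fun z => hC z)
  exact fluct_of_lipschitz hL hp

private lemma ibp_aux {e : ℂ} {u g : ℂ → ℂ} (hu : Per u) (hg : Per g)
    (mu : LocallyIntegrable u volume) (mg : LocallyIntegrable g volume) (hw : WeakDeriv e u g)
    {φ : ℂ → ℝ} (hφ : SmoothPer φ) :
    ∫ z in cell, (fderiv ℝ φ z e) • u z = - ∫ z in cell, φ z • g z := by
  have hcd : Continuous (fun z => fderiv ℝ φ z e) :=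
    (hφ.1.continuous_fderiv (by simp)).clm_apply continuous_const
  have p1 : Per (fun z => (fderiv ℝ φ z e) • u z) :=
    (per_fderiv hφ.2).map2 hu fun L a => L e • a
  have p2 : Per (fun z => φ z • g z) := hφ.2.map2 hg fun a b => a • b
  have p3 : Per (fun z => φ z • u z) := hφ.2.map2 hu fun a b => a • b
  have l1 : LocallyIntegrable (fun z => (fderiv ℝ φ z e) • u z) volume :=
    mu.continuous_smul hcd
  have l2 : LocallyIntegrable (fun z => φ z • g z) volume :=
    mg.continuous_smul hφ.1.continuous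
  have l3 : LocallyIntegrable (fun z => φ z • u z) volume :=
    mu.continuous_smul hφ.1.continuous
  rw [← integral_chi p1 l1, ← integral_chi p2 l2]
  have hcs : HasCompactSupport (fun z => chi z * φ z) := chi_supp.mul_right
  have h := hw (fun z => chi z * φ z) (chi_smooth.mul hφ.1) hcs
  have hf : ∀ z, fderiv ℝ (fun z => chi z * φ z) z e
      = chi z * fderiv ℝ φ z e + φ z * fderiv ℝ chi z e := by
    intro z
    have : fderiv ℝ (fun z => chi z * φ z) z = _ :=
      ((chi_smooth.differentiable (by simp) z).hasFDerivAt.mul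
        (hφ.1.differentiable (by simp) z).hasFDerivAt).fderiv
    rw [this]
    simp
  have h0 := integral_fderiv_chi p3 l3 e
  have i1 : Integrable (fun z => chi z • ((fderiv ℝ φ z e) • u z)) volume :=
    l1.integrable_smul_left_of_hasCompactSupport chi_smooth.continuous chi_supp
  have i2 : Integrable (fun z => (fderiv ℝ chi z e) • (φ z • u z)) volume :=
    int_fderiv_smul chi_smooth chi_supp e l3
  have e1 : ∫ z, (fderiv ℝ (fun z => chi z * φ z) z e) • u z
      = ∫ z, chi z • ((fderiv ℝ φ z e) • u z) := by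
    rw [← add_zero (∫ z, chi z • ((fderiv ℝ φ z e) • u z)), ← h0, ← integral_add i1 i2]
    congr 1
    funext z
    rw [hf z]
    module
  have e2 : ∫ z, (chi z * φ z) • g z = ∫ z, chi z • (φ z • g z) := by
    congr 1
    funext z
    rw [mul_smul]
  rw [e1, e2] at h
  exact h

/-- integration by parts against smooth periodic functions -/
theorem Fluct.ibp {u ux uy : ℂ → ℂ} (hu : Fluct u ux uy) {φ : ℂ → ℝ} (hφ : SmoothPer φ) :
    ∫ z in cell, (fderiv ℝ φ z 1) • u z = - ∫ z in cell, φ z • ux z ∧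
    ∫ z in cell, (fderiv ℝ φ z I) • u z = - ∫ z in cell, φ z • uy z :=
  ⟨ibp_aux hu.per hu.perx (locInt_of_memLp hu.per hu.mem) (locInt_of_memLp hu.perx hu.memx)
      hu.wx hφ,
    ibp_aux hu.per hu.pery (locInt_of_memLp hu.per hu.mem) (locInt_of_memLp hu.pery hu.memy)
      hu.wy hφ⟩

theorem Fluct.mean_zero {u ux uy : ℂ → ℂ} (hu : Fluct u ux uy) :
    ∫ z in cell, ux z = 0 ∧ ∫ z in cell, uy z = 0 := by
  have h1 : SmoothPer (fun _ : ℂ => (1 : ℝ)) := ⟨contDiff_const, fun z => ⟨rfl, rfl⟩⟩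
  have h := hu.ibp h1
  simp at h
  exact ⟨h.1, h.2⟩

lemma smoothPer_fderiv {φ : ℂ → ℝ} (hφ : SmoothPer φ) (e : ℂ) :
    SmoothPer (fun z => fderiv ℝ φ z e) := by
  refine ⟨?_, ?_⟩
  · have h : ContDiff ℝ ∞ (fderiv ℝ φ) := hφ.1.fderiv_right (by simp)
    exact h.clm_apply contDiff_const
  · exact (per_fderiv hφ.2).map fun L => L e

lemma D2_eq {φ : ℂ → ℝ} (hφ : ContDiff ℝ ∞ φ) (z a b : ℂ) :
    D2 φ z a b = fderiv ℝ (fun w => fderiv ℝ φ w b) z a := by
  have h : ContDiff ℝ ∞ (fderiv ℝ φ) := hφ.fderiv_right (by simp)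
  have h2 : HasFDerivAt (fun w => fderiv ℝ φ w b) _ z :=
    ((h.differentiable (by simp)) z).hasFDerivAt.clm_apply (hasFDerivAt_const b z)
  rw [h2.fderiv]
  simp [D2]

lemma D2_symm {φ : ℂ → ℝ} (hφ : ContDiff ℝ ∞ φ) (z a b : ℂ) : D2 φ z a b = D2 φ z b a := by
  have h : ContDiff ℝ ∞ (fderiv ℝ φ) := hφ.fderiv_right (by simp)
  exact second_derivative_symmetric (fun y => ((hφ.differentiable (by simp)) y).hasFDerivAt)
    ((h.differentiable (by simp)) z).hasFDerivAt a b

lemma smoothPer_D2 {φ : ℂ → ℝ} (hφ : SmoothPer φ) (a b : ℂ) :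
    SmoothPer (fun z => D2 φ z a b) := by
  have : (fun z => D2 φ z a b) = fun z => fderiv ℝ (fun w => fderiv ℝ φ w b) z a :=
    funext fun z => D2_eq hφ.1 z a b
  rw [this]
  exact smoothPer_fderiv (smoothPer_fderiv hφ b) a

/-- third derivatives commute -/
private lemma third_swap {φ : ℂ → ℝ} (hφ : SmoothPer φ) (z a b c : ℂ) :
    fderiv ℝ (fun w => D2 φ w a b) z c = fderiv ℝ (fun w => D2 φ w c b) z a := by
  have h1 : (fun w => D2 φ w a b) = fun w => fderiv ℝ (fun v => fderiv ℝ φ v b) w a :=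
    funext fun w => D2_eq hφ.1 w a b
  have h2 : (fun w => D2 φ w c b) = fun w => fderiv ℝ (fun v => fderiv ℝ φ v b) w c :=
    funext fun w => D2_eq hφ.1 w c b
  have hs := (smoothPer_fderiv hφ b).1
  rw [h1, h2, ← D2_eq hs, ← D2_eq hs, D2_symm hs]

/-- `∫ (conj (2φ_z̄z̄) v_z̄ - (½Δφ) v_z) = 0` -/
theorem Fluct.null {u ux uy : ℂ → ℂ} (hu : Fluct u ux uy) {φ : ℂ → ℝ} (hφ : SmoothPer φ) :
    ∫ z in cell, (conj (hh φ z) * ((ux z + I * uy z) / 2)
      - (hf φ z : ℂ) * ((ux z - I * uy z) / 2)) = 0 := by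
  have ha := smoothPer_D2 hφ 1 1
  have hb := smoothPer_D2 hφ I I
  have hc := smoothPer_D2 hφ 1 I
  have e1 := (hu.ibp hb).1
  have e2 := (hu.ibp hc).2
  have e3 := (hu.ibp hc).1
  have e4 := (hu.ibp ha).2
  -- integrability
  have hint : ∀ {g : ℂ → ℝ} {v : ℂ → ℂ}, SmoothPer g → MemLp v 2 (volume.restrict cell) →
      Integrable (fun z => g z • v z) (volume.restrict cell) := by
    intro g v hg hv
    obtain ⟨C, hC⟩ := per_bounded hg.2 hg.1.continuous
    have hv1 : Integrable v (volume.restrict cell) := hv.integrable (by norm_num)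
    exact hv1.bdd_smul C hg.1.continuous.aestronglyMeasurable (Filter.Eventually.of_forall hC)
  have i1 := hint hb hu.memx
  have i2 := hint hc hu.memy
  have i3 := hint hc hu.memx
  have i4 := hint ha hu.memy
  have hpt : ∀ z, (conj (hh φ z) * ((ux z + I * uy z) / 2)
      - (hf φ z : ℂ) * ((ux z - I * uy z) / 2)) =
      (-(1/2 : ℂ)) * (D2 φ z I I • ux z) + (1/2 : ℂ) * (D2 φ z 1 I • uy z)
      + ((-(I/2) : ℂ) * (D2 φ z 1 I • ux z) + (I/2 : ℂ) * (D2 φ z 1 1 • uy z)) := by
    intro z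
    unfold hh hf
    simp only [map_add, map_mul, conj_ofReal, conj_I, real_smul]
    push_cast
    linear_combination (-((D2 φ z 1 I : ℝ) : ℂ) * uy z / 2) * I_mul_I
  simp only [hpt]
  have j1 := i1.const_mul (-(1/2 : ℂ))
  have j2 := i2.const_mul (1/2 : ℂ)
  have j3 := i3.const_mul (-(I/2) : ℂ)
  have j4 := i4.const_mul (I/2 : ℂ)
  have j12 : Integrable (fun z => (-(1/2 : ℂ)) * (D2 φ z I I • ux z)
      + (1/2 : ℂ) * (D2 φ z 1 I • uy z)) (volume.restrict cell) := j1.add j2
  have j34 : Integrable (fun z => (-(I/2) : ℂ) * (D2 φ z 1 I • ux z)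
      + (I/2 : ℂ) * (D2 φ z 1 1 • uy z)) (volume.restrict cell) := j3.add j4
  rw [integral_add j12 j34, integral_add j1 j2, integral_add j3 j4,
    integral_const_mul, integral_const_mul, integral_const_mul, integral_const_mul]
  have f1 : ∫ z in cell, D2 φ z I I • ux z = -∫ z in cell, (fderiv ℝ (fun z => D2 φ z I I) z 1) • u z := by
    rw [e1, neg_neg]
  have f2 : ∫ z in cell, D2 φ z 1 I • uy z = -∫ z in cell, (fderiv ℝ (fun z => D2 φ z I I) z 1) • u z := by
    rw [← neg_neg (∫ z in cell, D2 φ z 1 I • uy z), ← e2]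
    congr 2
    funext z
    rw [third_swap hφ z 1 I I]
  have f3 : ∫ z in cell, D2 φ z 1 I • ux z = -∫ z in cell, (fderiv ℝ (fun z => D2 φ z 1 I) z 1) • u z := by
    rw [e3, neg_neg]
  have f4 : ∫ z in cell, D2 φ z 1 1 • uy z = -∫ z in cell, (fderiv ℝ (fun z => D2 φ z 1 I) z 1) • u z := by
    rw [← neg_neg (∫ z in cell, D2 φ z 1 1 • uy z), ← e4]
    congr 2
    funext z
    have hsym : (fun w => D2 φ w I 1) = fun w => D2 φ w 1 I :=
      funext fun w => D2_symm hφ.1 w I 1
    rw [third_swap hφ z 1 1 I, hsym]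
  rw [f1, f2, f3, f4]
  ring

end EBC
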