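import Pool.Agent.Work.MP_ebc928_an.Mollify
import Pool.Agent.Work.MP_ebc928_an.FluctBasic

open MeasureTheory Complex Set Filter Topology
open scoped ContDiff ComplexConjugate

noncomputable section
namespace EBC

/-! ### the Poincaré inequality -/

private lemma volume_cell : volume cell = 1 := by
  have h : cell = (equivRealProdCLM : ℂ → ℝ × ℝ) ⁻¹' (Ico (0 : ℝ) 1 ×ˢ Ico (0 : ℝ) 1) := by
    ext z
    rfl
  rw [h]
  have h2 := Complex.volume_preserving_equiv_real_prod.measure_preimage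
    (s := Ico (0 : ℝ) 1 ×ˢ Ico (0 : ℝ) 1)
    (measurableSet_Ico.prod measurableSet_Ico).nullMeasurableSet
  have h3 : volume (Ico (0 : ℝ) 1 ×ˢ Ico (0 : ℝ) 1) = 1 := by
    rw [Measure.volume_eq_prod, Measure.prod_prod]
    simp
  rw [h3] at h2
  exact h2

private instance : IsProbabilityMeasure (volume.restrict cell) :=
  ⟨by rw [Measure.restrict_apply_univ]; exact volume_cell⟩

/-- Jensen for the square on a probability space -/
private lemma norm_integral_sq_le {α : Type*} {m : MeasurableSpace α} {μ : Measure α}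
    [IsProbabilityMeasure μ] {f : α → ℂ} (hf : Integrable f μ)
    (hf2 : Integrable (fun x => ‖f x‖ ^ 2) μ) : ‖∫ x, f x ∂μ‖ ^ 2 ≤ ∫ x, ‖f x‖ ^ 2 ∂μ := by
  set c := ∫ x, ‖f x‖ ∂μ with hc
  have h1 : ‖∫ x, f x ∂μ‖ ≤ c := norm_integral_le_integral_norm f
  have h2 : 0 ≤ ∫ x, (‖f x‖ - c) ^ 2 ∂μ := integral_nonneg fun x => sq_nonneg _
  have h3 : ∫ x, (‖f x‖ - c) ^ 2 ∂μ = ∫ x, ‖f x‖ ^ 2 ∂μ - c ^ 2 := by
    have e : ∀ x, (‖f x‖ - c) ^ 2 = ‖f x‖ ^ 2 - (2 * c * ‖f x‖ - c ^ 2) := by intro x; ring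
    simp only [e]
    have hi : Integrable (fun x => 2 * c * ‖f x‖ - c ^ 2) μ :=
      (hf.norm.const_mul _).sub (integrable_const _)
    rw [integral_sub hf2 hi,
      integral_sub (hf.norm.const_mul _) (integrable_const _), integral_const_mul, ← hc]
    simp
    ring
  have h4 : ‖∫ x, f x ∂μ‖ ^ 2 ≤ c ^ 2 := pow_le_pow_left₀ (norm_nonneg _) h1 2
  linarith

private lemma integrableOn_cell_of_continuous {E : Type*} [NormedAddCommGroup E] {g : ℂ → E}
    (hg : Continuous g) : IntegrableOn g cell :=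
  (hg.continuousOn.integrableOn_compact (isCompact_closedBall (0 : ℂ) 2)).mono_set
    cell_subset_closedBall

/-- difference estimate -/
private lemma diff_le {φ : ℂ → ℂ} (hφ : ContDiff ℝ ∞ φ) (hp : Per φ) (w : ℂ) :
    ∫ z in cell, ‖φ (z + w) - φ z‖ ^ 2 ≤ ∫ z in cell, ‖fderiv ℝ φ z w‖ ^ 2 := by
  have hcd : Continuous (fun z => fderiv ℝ φ z w) :=
    (hφ.continuous_fderiv (by simp)).clm_apply continuous_const
  -- pointwise
  have h1 : ∀ z, ‖φ (z + w) - φ z‖ ^ 2 ≤ ∫ t in (0 : ℝ)..1, ‖fderiv ℝ φ (z + t • w) w‖ ^ 2 := by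
    intro z
    have hd : ∀ t ∈ uIcc (0 : ℝ) 1, HasDerivAt (fun t : ℝ => φ (z + t • w))
        (fderiv ℝ φ (z + t • w) w) t := by
      intro t _
      have h := ((hφ.differentiable (by simp)) (z + t • w)).hasFDerivAt
      have h2 : HasDerivAt (fun t : ℝ => z + t • w) w t := by
        have := ((hasDerivAt_id t).smul_const w).const_add z
        simpa using this
      exact h.comp_hasDerivAt t h2
    have hc : Continuous (fun t : ℝ => fderiv ℝ φ (z + t • w) w) :=
      hcd.comp (continuous_const.add (continuous_id.smul continuous_const))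
    have h := intervalIntegral.integral_eq_sub_of_hasDerivAt hd (hc.intervalIntegrable _ _)
    simp only [one_smul, zero_smul, add_zero] at h
    rw [← h, intervalIntegral.integral_of_le zero_le_one,
      intervalIntegral.integral_of_le zero_le_one]
    have : IsProbabilityMeasure (volume.restrict (Ioc (0 : ℝ) 1)) :=
      ⟨by rw [Measure.restrict_apply_univ]; simp⟩
    refine norm_integral_sq_le ?_ ?_
    · exact (hc.integrableOn_Icc.mono_set Ioc_subset_Icc_self)
    · exact ((hc.norm.pow 2).integrableOn_Icc.mono_set Ioc_subset_Icc_self)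
  -- integrate
  have hcc : Continuous (fun z => ‖φ (z + w) - φ z‖ ^ 2) :=
    ((((hφ.continuous).comp (continuous_id.add continuous_const)).sub hφ.continuous).norm.pow 2)
  have hF : Continuous (fun p : ℂ × ℝ => ‖fderiv ℝ φ (p.1 + p.2 • w) w‖ ^ 2) :=
    ((hcd.comp (continuous_fst.add (continuous_snd.smul continuous_const))).norm.pow 2)
  have hFi : Integrable (fun p : ℂ × ℝ => ‖fderiv ℝ φ (p.1 + p.2 • w) w‖ ^ 2)
      ((volume.restrict cell).prod (volume.restrict (Ioc (0 : ℝ) 1))) := by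
    rw [Measure.prod_restrict]
    have hK : IsCompact (Metric.closedBall (0 : ℂ) 2 ×ˢ Icc (0 : ℝ) 1) :=
      (isCompact_closedBall _ _).prod isCompact_Icc
    exact (hF.continuousOn.integrableOn_compact hK).mono_set
      (prod_mono cell_subset_closedBall Ioc_subset_Icc_self)
  have h2 : ∫ z in cell, (∫ t in Ioc (0 : ℝ) 1, ‖fderiv ℝ φ (z + t • w) w‖ ^ 2) =
      ∫ t in Ioc (0 : ℝ) 1, (∫ z in cell, ‖fderiv ℝ φ (z + t • w) w‖ ^ 2) :=
    integral_integral_swap hFi
  have hpd : Per (fun z => ‖fderiv ℝ φ z w‖ ^ 2) := (per_fderiv hp).map fun L => ‖L w‖ ^ 2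
  have h3 : ∀ t : ℝ, ∫ z in cell, ‖fderiv ℝ φ (z + t • w) w‖ ^ 2
      = ∫ z in cell, ‖fderiv ℝ φ z w‖ ^ 2 := fun t => setIntegral_cell_add hpd (t • w)
  calc ∫ z in cell, ‖φ (z + w) - φ z‖ ^ 2
      ≤ ∫ z in cell, (∫ t in Ioc (0 : ℝ) 1, ‖fderiv ℝ φ (z + t • w) w‖ ^ 2) := by
        refine setIntegral_mono_on (integrableOn_cell_of_continuous hcc)
          hFi.integral_prod_left measurableSet_cell ?_
        intro z _
        rw [← intervalIntegral.integral_of_le zero_le_one]
        exact h1 z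
    _ = ∫ t in Ioc (0 : ℝ) 1, ∫ z in cell, ‖fderiv ℝ φ z w‖ ^ 2 := by
        rw [h2]
        simp only [h3]
    _ = ∫ z in cell, ‖fderiv ℝ φ z w‖ ^ 2 := by
        rw [setIntegral_const]
        simp

/-- Poincaré inequality for mean zero smooth periodic functions. -/
theorem poincare_zero : ∃ C : ℝ, 0 < C ∧ ∀ φ : ℂ → ℂ, ContDiff ℝ ∞ φ → Per φ →
    ∫ z in cell, φ z = 0 →
    ∫ z in cell, ‖φ z‖ ^ 2 ≤
      C * ∫ z in cell, (‖fderiv ℝ φ z 1‖ ^ 2 + ‖fderiv ℝ φ z I‖ ^ 2) := by
  refine ⟨2, by norm_num, ?_⟩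
  intro φ hφ hp h0
  have hc := hφ.continuous
  -- pointwise estimate
  have h1 : ∀ z, ‖φ z‖ ^ 2 ≤ ∫ w in cell, ‖φ (z + w) - φ z‖ ^ 2 := by
    intro z
    have hcw : Continuous (fun w => φ (z + w)) := hc.comp (continuous_const.add continuous_id)
    have h2 : ∫ w in cell, (φ (z + w) - φ z) = - φ z := by
      rw [integral_sub (integrableOn_cell_of_continuous hcw) (integrable_const _)]
      have e : ∫ w in cell, φ (z + w) = 0 := by
        have := setIntegral_cell_add hp z
        rw [h0] at this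
        rw [← this]
        simp only [add_comm]
      rw [e]
      simp
    have h3 := norm_integral_sq_le (μ := volume.restrict cell) (f := fun w => φ (z + w) - φ z)
      (integrableOn_cell_of_continuous (hcw.sub continuous_const))
      (integrableOn_cell_of_continuous ((hcw.sub continuous_const).norm.pow 2))
    rw [h2, norm_neg] at h3
    exact h3
  have hF : Continuous (fun p : ℂ × ℂ => ‖φ (p.1 + p.2) - φ p.1‖ ^ 2) :=
    (((hc.comp (continuous_fst.add continuous_snd)).sub (hc.comp continuous_fst)).norm.pow 2)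
  have hFi : Integrable (fun p : ℂ × ℂ => ‖φ (p.1 + p.2) - φ p.1‖ ^ 2)
      ((volume.restrict cell).prod (volume.restrict cell)) := by
    rw [Measure.prod_restrict]
    have hK : IsCompact (Metric.closedBall (0 : ℂ) 2 ×ˢ Metric.closedBall (0 : ℂ) 2) :=
      (isCompact_closedBall _ _).prod (isCompact_closedBall _ _)
    exact (hF.continuousOn.integrableOn_compact hK).mono_set
      (prod_mono cell_subset_closedBall cell_subset_closedBall)
  set A : ℝ := ∫ z in cell, (‖fderiv ℝ φ z 1‖ ^ 2 + ‖fderiv ℝ φ z I‖ ^ 2) with hA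
  have hcd : ∀ e : ℂ, Continuous (fun z => fderiv ℝ φ z e) := fun e =>
    (hφ.continuous_fderiv (by simp)).clm_apply continuous_const
  have h4 : ∀ w ∈ cell, ∫ z in cell, ‖φ (z + w) - φ z‖ ^ 2 ≤ 2 * A := by
    intro w hw
    refine (diff_le hφ hp w).trans ?_
    rw [hA, ← integral_const_mul]
    refine setIntegral_mono_on (integrableOn_cell_of_continuous ((hcd w).norm.pow 2))
      (integrableOn_cell_of_continuous
        ((((hcd 1).norm.pow 2).add ((hcd I).norm.pow 2)).const_mul 2)) measurableSet_cell ?_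
    intro z _
    have e : fderiv ℝ φ z w = w.re • fderiv ℝ φ z 1 + w.im • fderiv ℝ φ z I := by
      rw [← map_smul, ← map_smul, ← map_add]
      congr 1
      apply Complex.ext <;> simp
    rw [e]
    have a1 : ‖w.re • fderiv ℝ φ z 1‖ ≤ ‖fderiv ℝ φ z 1‖ := by
      rw [norm_smul, Real.norm_eq_abs, abs_of_nonneg hw.1.1]
      exact mul_le_of_le_one_left (norm_nonneg _) hw.1.2.le
    have a2 : ‖w.im • fderiv ℝ φ z I‖ ≤ ‖fderiv ℝ φ z I‖ := by
      rw [norm_smul, Real.norm_eq_abs, abs_of_nonneg hw.2.1]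
      exact mul_le_of_le_one_left (norm_nonneg _) hw.2.2.le
    have a3 := norm_add_le (w.re • fderiv ℝ φ z 1) (w.im • fderiv ℝ φ z I)
    have a4 : ‖w.re • fderiv ℝ φ z 1 + w.im • fderiv ℝ φ z I‖
        ≤ ‖fderiv ℝ φ z 1‖ + ‖fderiv ℝ φ z I‖ := by linarith
    have a5 := pow_le_pow_left₀ (norm_nonneg _) a4 2
    nlinarith [sq_nonneg (‖fderiv ℝ φ z 1‖ - ‖fderiv ℝ φ z I‖)]
  calc ∫ z in cell, ‖φ z‖ ^ 2 ≤ ∫ z in cell, ∫ w in cell, ‖φ (z + w) - φ z‖ ^ 2 := by
        refine setIntegral_mono_on (integrableOn_cell_of_continuous (hc.norm.pow 2))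
          hFi.integral_prod_left measurableSet_cell ?_
        intro z _
        exact h1 z
    _ = ∫ w in cell, ∫ z in cell, ‖φ (z + w) - φ z‖ ^ 2 := integral_integral_swap hFi
    _ ≤ ∫ w in cell, 2 * A := by
        refine setIntegral_mono_on hFi.integral_prod_right (integrable_const _)
          measurableSet_cell h4
    _ = 2 * A := by simp

/-- Poincaré inequality for smooth periodic functions: `∫|∇φ|² ≤ ∫|∇²φ|²`
(with some absolute constant). -/
theorem poincare_grad : ∃ C : ℝ, 0 < C ∧ ∀ φ : ℂ → ℝ, SmoothPer φ →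
    ∫ z in cell, ((fderiv ℝ φ z 1) ^ 2 + (fderiv ℝ φ z I) ^ 2) ≤
      C * ∫ z in cell, ((D2 φ z 1 1) ^ 2 + 2 * (D2 φ z 1 I) ^ 2 + (D2 φ z I I) ^ 2) := by
  obtain ⟨C, hC, H⟩ := poincare_zero
  refine ⟨C, hC, ?_⟩
  intro φ hφ
  have key : ∀ e : ℂ, ∫ z in cell, (fderiv ℝ φ z e) ^ 2 ≤
      C * ∫ z in cell, ((D2 φ z 1 e) ^ 2 + (D2 φ z I e) ^ 2) := by
    intro e
    have hs := smoothPer_fderiv hφ e
    have h1 : ContDiff ℝ ∞ (fun z => ((fderiv ℝ φ z e : ℝ) : ℂ)) :=
      ofRealCLM.contDiff.comp hs.1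
    have h2 : Per (fun z => ((fderiv ℝ φ z e : ℝ) : ℂ)) := hs.2.map fun x => (x : ℂ)
    have hdd : ∀ z d, fderiv ℝ (fun z => ((fderiv ℝ φ z e : ℝ) : ℂ)) z d = ((D2 φ z d e : ℝ) : ℂ) := by
      intro z d
      have h := ofRealCLM.hasFDerivAt.comp z ((hs.1.differentiable (by simp)) z).hasFDerivAt
      have h' : fderiv ℝ (fun z => ((fderiv ℝ φ z e : ℝ) : ℂ)) z = _ := h.fderiv
      rw [h', D2_eq hφ.1]
      rfl
    have h0 : ∫ z in cell, ((fderiv ℝ φ z e : ℝ) : ℂ) = 0 := by
      have hc : ContDiff ℝ ∞ (fun z => ((φ z : ℝ) : ℂ)) := ofRealCLM.contDiff.comp hφ.1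
      have hcp : Per (fun z => ((φ z : ℝ) : ℂ)) := hφ.2.map fun x => (x : ℂ)
      have hm := (fluct_of_smooth hc hcp).mean_zero
      have hd1 : ∀ z d, fderiv ℝ (fun z => ((φ z : ℝ) : ℂ)) z d = ((fderiv ℝ φ z d : ℝ) : ℂ) := by
        intro z d
        have h := ofRealCLM.hasFDerivAt.comp z ((hφ.1.differentiable (by simp)) z).hasFDerivAt
        have h' : fderiv ℝ (fun z => ((φ z : ℝ) : ℂ)) z = _ := h.fderiv
        rw [h']
        rfl
      simp only [hd1] at hm
      have hdec : ∀ z, ((fderiv ℝ φ z e : ℝ) : ℂ) = (e.re : ℂ) * ((fderiv ℝ φ z 1 : ℝ) : ℂ)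
          + (e.im : ℂ) * ((fderiv ℝ φ z I : ℝ) : ℂ) := by
        intro z
        rw [← ofReal_mul, ← ofReal_mul, ← ofReal_add]
        congr 1
        have : e = e.re • (1 : ℂ) + e.im • I := by apply Complex.ext <;> simp
        conv_lhs => rw [this]
        rw [map_add, map_smul, map_smul]
        rfl
      simp only [hdec]
      have hci : ∀ d : ℂ, Integrable (fun z => ((fderiv ℝ φ z d : ℝ) : ℂ)) (volume.restrict cell) :=
        fun d => integrableOn_cell_of_continuous
          (continuous_ofReal.comp (smoothPer_fderiv hφ d).1.continuous)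
      rw [integral_add ((hci 1).const_mul _) ((hci I).const_mul _), integral_const_mul,
        integral_const_mul, hm.1, hm.2]
      simp
    have h := H _ h1 h2 h0
    simp only [hdd] at h
    simpa using h
  have k1 := key 1
  have k2 := key I
  have hcf : ∀ d : ℂ, Integrable (fun z => (fderiv ℝ φ z d) ^ 2) (volume.restrict cell) :=
    fun d => integrableOn_cell_of_continuous ((smoothPer_fderiv hφ d).1.continuous.pow 2)
  have hcD : ∀ d e : ℂ, Integrable (fun z => (D2 φ z d e) ^ 2) (volume.restrict cell) :=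
    fun d e => integrableOn_cell_of_continuous ((smoothPer_D2 hφ d e).1.continuous.pow 2)
  rw [integral_add (hcf 1) (hcf I)]
  have e1 : ∫ z in cell, ((D2 φ z 1 1) ^ 2 + 2 * (D2 φ z 1 I) ^ 2 + (D2 φ z I I) ^ 2)
      = (∫ z in cell, ((D2 φ z 1 1) ^ 2 + (D2 φ z I 1) ^ 2))
        + ∫ z in cell, ((D2 φ z 1 I) ^ 2 + (D2 φ z I I) ^ 2) := by
    have j1 : Integrable (fun z => (D2 φ z 1 1) ^ 2 + (D2 φ z I 1) ^ 2) (volume.restrict cell) :=
      (hcD 1 1).add (hcD I 1)
    have j2 : Integrable (fun z => (D2 φ z 1 I) ^ 2 + (D2 φ z I I) ^ 2) (volume.restrict cell) :=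
      (hcD 1 I).add (hcD I I)
    rw [← integral_add j1 j2]
    congr 1
    funext z
    rw [D2_symm hφ.1 z I 1]
    ring
  rw [e1, mul_add]
  linarith

/-! ### limits of fluctuations -/

private lemma bound_smul {K : ℂ → ℝ} (hK : Continuous K) (hc : HasCompactSupport K) :
    ∃ M : ℝ, ∀ G : ℂ → ℂ, Per G → IntegrableOn G cell →
      ‖∫ z, K z • G z‖ ≤ M * ∫ z in cell, ‖G z‖ := by
  obtain ⟨B, hB⟩ := hK.bounded_above_of_compact_support hc
  obtain ⟨R, hR⟩ := hc.isCompact.isBounded.subset_closedBall (0 : ℂ)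
  obtain ⟨s, hs⟩ := fb_exists_cellT_cover R
  have hB0 : 0 ≤ B := (norm_nonneg _).trans (hB 0)
  refine ⟨B * s.card, ?_⟩
  intro G hG hi
  have hGn : Per (fun z => ‖G z‖) := hG.map fun a => ‖a‖
  have hin : ∀ p : ℤ × ℤ, IntegrableOn (fun z => ‖G z‖) (fb_cellT p.1 p.2) := by
    intro p
    exact memLp_one_iff_integrable.1
      (fb_memLp_cellT hGn (p := 1) (memLp_one_iff_integrable.2 hi.norm) p.1 p.2)
  have hG1 : LocallyIntegrable G volume := locallyIntegrable_of_per_integrableOn hG hi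
  have hKG : Integrable (fun z => K z • G z) volume :=
    hG1.integrable_smul_left_of_hasCompactSupport hK hc
  have e : ∫ z, ‖K z • G z‖ = ∫ z in ⋃ p ∈ s, fb_cellT p.1 p.2, ‖K z • G z‖ := by
    rw [setIntegral_eq_integral_of_forall_compl_eq_zero]
    intro z hz
    have : K z = 0 := by
      by_contra h
      exact hz (hs (hR (subset_tsupport _ h)))
    rw [this]; simp
  calc ‖∫ z, K z • G z‖ ≤ ∫ z, ‖K z • G z‖ := norm_integral_le_integral_norm _
    _ = ∫ z in ⋃ p ∈ s, fb_cellT p.1 p.2, ‖K z • G z‖ := e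
    _ ≤ ∫ z in ⋃ p ∈ s, fb_cellT p.1 p.2, B * ‖G z‖ := by
        refine setIntegral_mono_on hKG.norm.integrableOn ?_ ?_ ?_
        · exact (integrableOn_finset_iUnion.2 fun p _ => (hin p)).const_mul B
        · exact Finset.measurableSet_biUnion _ fun p _ => fb_measurableSet_cellT _ _
        · intro z _
          rw [norm_smul]
          exact mul_le_mul_of_nonneg_right (hB z) (norm_nonneg _)
    _ = B * ∫ z in ⋃ p ∈ s, fb_cellT p.1 p.2, ‖G z‖ := integral_const_mul _ _
    _ ≤ B * (s.card * ∫ z in cell, ‖G z‖) := by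
        refine mul_le_mul_of_nonneg_left ?_ hB0
        rw [integral_biUnion_finset s (fun p _ => fb_measurableSet_cellT _ _)
          (fun p _ q _ hpq => fb_disj_cellT hpq) (fun p _ => hin p)]
        rw [Finset.sum_congr rfl (g := fun _ => ∫ z in cell, ‖G z‖), Finset.sum_const,
          nsmul_eq_mul]
        intro p _
        rw [fb_setIntegral_cellT]
        congr 1
        funext z
        rw [← add_assoc, hG.add_int_I, hG.add_int]
    _ = B * s.card * ∫ z in cell, ‖G z‖ := by ring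

private lemma tendsto_smul {K : ℂ → ℝ} (hK : Continuous K) (hc : HasCompactSupport K)
    {f : ℕ → ℂ → ℂ} {g : ℂ → ℂ} (hf : ∀ n, Per (f n)) (hg : Per g)
    (hfm : ∀ n, MemLp (f n) 2 (volume.restrict cell)) (hgm : MemLp g 2 (volume.restrict cell))
    (ht : Tendsto (fun n => ∫ z in cell, ‖g z - f n z‖ ^ 2) atTop (𝓝 0)) :
    Tendsto (fun n => ∫ z, K z • f n z) atTop (𝓝 (∫ z, K z • g z)) := by
  obtain ⟨M, hM⟩ := bound_smul hK hc
  have hd : ∀ n, MemLp (fun z => g z - f n z) 2 (volume.restrict cell) :=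
    fun n => hgm.sub (hfm n)
  have h1 : ∀ n, ∫ z in cell, ‖g z - f n z‖ ≤ Real.sqrt (∫ z in cell, ‖g z - f n z‖ ^ 2) := by
    intro n
    apply Real.le_sqrt_of_sq_le
    have hi : Integrable (fun z => ((‖g z - f n z‖ : ℝ) : ℂ)) (volume.restrict cell) :=
      ((hd n).integrable (by norm_num)).norm.ofReal
    have hi2 : Integrable (fun z => ‖((‖g z - f n z‖ : ℝ) : ℂ)‖ ^ 2) (volume.restrict cell) := by
      have := (hd n).integrable_norm_pow (p := 2) (by norm_num)
      simpa using this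
    have h := norm_integral_sq_le hi hi2
    rw [integral_complex_ofReal] at h
    simpa using h
  have h2 : ∀ n, ‖(∫ z, K z • f n z) - ∫ z, K z • g z‖
      ≤ |M| * Real.sqrt (∫ z in cell, ‖g z - f n z‖ ^ 2) := by
    intro n
    have i1 : Integrable (fun z => K z • f n z) volume :=
      (locInt_of_memLp (hf n) (hfm n)).integrable_smul_left_of_hasCompactSupport hK hc
    have i2 : Integrable (fun z => K z • g z) volume :=
      (locInt_of_memLp hg hgm).integrable_smul_left_of_hasCompactSupport hK hc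
    rw [norm_sub_rev, ← integral_sub i2 i1]
    have e : ∀ z, K z • g z - K z • f n z = K z • (g z - f n z) := fun z => (smul_sub _ _ _).symm
    simp only [e]
    refine (hM (fun z => g z - f n z) (hg.map2 (hf n) fun a b => a - b)
      ((hd n).integrable (by norm_num))).trans ?_
    have h3 : 0 ≤ ∫ z in cell, ‖g z - f n z‖ := integral_nonneg fun _ => norm_nonneg _
    calc M * ∫ z in cell, ‖g z - f n z‖ ≤ |M| * ∫ z in cell, ‖g z - f n z‖ :=
          mul_le_mul_of_nonneg_right (le_abs_self M) h3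
      _ ≤ _ := mul_le_mul_of_nonneg_left (h1 n) (abs_nonneg M)
  have h4 : Tendsto (fun n => |M| * Real.sqrt (∫ z in cell, ‖g z - f n z‖ ^ 2)) atTop (𝓝 0) := by
    have := (Real.continuous_sqrt.tendsto 0).comp ht
    rw [Real.sqrt_zero] at this
    simpa using this.const_mul |M|
  rw [tendsto_iff_norm_sub_tendsto_zero]
  exact squeeze_zero (fun n => norm_nonneg _) h2 h4

private lemma normSq_toLp {f : ℂ → ℂ} (hf : MemLp f 2 (volume.restrict cell)) :
    ‖hf.toLp f‖ ^ 2 = ∫ z in cell, ‖f z‖ ^ 2 := by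
  rw [Lp.norm_toLp, hf.eLpNorm_eq_integral_rpow_norm (by norm_num) (by norm_num)]
  rw [ENNReal.toReal_ofReal (by positivity)]
  have h0 : 0 ≤ ∫ z in cell, ‖f z‖ ^ 2 := integral_nonneg fun _ => by positivity
  simp only [ENNReal.toReal_ofNat, Real.rpow_ofNat]
  rw [← Real.rpow_natCast, ← Real.rpow_mul h0]
  norm_num

/-- fluctuations are closed under `L²` limits of gradients -/
theorem fluct_limit {v : ℕ → ℂ → ℂ} (hv : ∀ n, ContDiff ℝ ∞ (v n)) (hvp : ∀ n, Per (v n))
    {gx gy : ℂ → ℂ} (hx : Per gx) (hy : Per gy)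
    (hmx : MemLp gx 2 (volume.restrict cell)) (hmy : MemLp gy 2 (volume.restrict cell))
    (tx : Tendsto (fun n => ∫ z in cell, ‖gx z - fderiv ℝ (v n) z 1‖ ^ 2) atTop (𝓝 0))
    (ty : Tendsto (fun n => ∫ z in cell, ‖gy z - fderiv ℝ (v n) z I‖ ^ 2) atTop (𝓝 0)) :
    ∃ u, Fluct u gx gy := by
  obtain ⟨C, hC, H⟩ := poincare_zero
  -- subtract the means
  set w : ℕ → ℂ → ℂ := fun n z => v n z - ∫ z in cell, v n z with hw
  have hws : ∀ n, ContDiff ℝ ∞ (w n) := fun n => (hv n).sub contDiff_const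
  have hwp : ∀ n, Per (w n) := fun n => (hvp n).map fun a => a - ∫ z in cell, v n z
  have hwd : ∀ n z, fderiv ℝ (w n) z = fderiv ℝ (v n) z := fun n z => by
    simp only [hw]
    rw [fderiv_sub_const]
  have hwm : ∀ n, MemLp (w n) 2 (volume.restrict cell) := fun n =>
    (fluct_of_smooth (hws n) (hwp n)).mem
  have hmean : ∀ n, ∫ z in cell, w n z = 0 := by
    intro n
    simp only [hw]
    rw [integral_sub (integrableOn_cell_of_continuous (hv n).continuous) (integrable_const _)]
    simp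
  set S : ℕ → ℝ := fun n => (∫ z in cell, ‖gx z - fderiv ℝ (v n) z 1‖ ^ 2)
    + ∫ z in cell, ‖gy z - fderiv ℝ (v n) z I‖ ^ 2 with hS
  have hSt : Tendsto S atTop (𝓝 0) := by simpa using tx.add ty
  have hfx : ∀ n, MemLp (fun z => fderiv ℝ (v n) z 1) 2 (volume.restrict cell) := fun n =>
    (fluct_of_smooth (hv n) (hvp n)).memx
  have hfy : ∀ n, MemLp (fun z => fderiv ℝ (v n) z I) 2 (volume.restrict cell) := fun n =>
    (fluct_of_smooth (hv n) (hvp n)).memy
  have hsq : ∀ {g f1 f2 : ℂ → ℂ}, MemLp g 2 (volume.restrict cell) →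
      MemLp f1 2 (volume.restrict cell) → MemLp f2 2 (volume.restrict cell) →
      ∫ z in cell, ‖f1 z - f2 z‖ ^ 2 ≤ 2 * (∫ z in cell, ‖g z - f1 z‖ ^ 2)
        + 2 * ∫ z in cell, ‖g z - f2 z‖ ^ 2 := by
    intro g f1 f2 hg h1 h2
    have i1 : Integrable (fun z => ‖g z - f1 z‖ ^ 2) (volume.restrict cell) :=
      (hg.sub h1).integrable_norm_pow (p := 2) (by norm_num)
    have i2 : Integrable (fun z => ‖g z - f2 z‖ ^ 2) (volume.restrict cell) :=
      (hg.sub h2).integrable_norm_pow (p := 2) (by norm_num)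
    have i3 : Integrable (fun z => ‖f1 z - f2 z‖ ^ 2) (volume.restrict cell) :=
      (h1.sub h2).integrable_norm_pow (p := 2) (by norm_num)
    rw [← integral_const_mul, ← integral_const_mul, ← integral_add (i1.const_mul 2)
      (i2.const_mul 2)]
    refine integral_mono i3 ((i1.const_mul 2).add (i2.const_mul 2)) ?_
    intro z
    have e : f1 z - f2 z = (g z - f2 z) - (g z - f1 z) := by ring
    have h := norm_sub_le (g z - f2 z) (g z - f1 z)
    rw [← e] at h
    have h' := pow_le_pow_left₀ (norm_nonneg _) h 2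
    simp only
    nlinarith [sq_nonneg (‖g z - f1 z‖ - ‖g z - f2 z‖)]
  have hdist : ∀ n m, ∫ z in cell, ‖w n z - w m z‖ ^ 2 ≤ 2 * C * (S n + S m) := by
    intro n m
    have h1 := H (fun z => w n z - w m z) ((hws n).sub (hws m))
      ((hwp n).map2 (hwp m) fun a b => a - b) (by
        rw [integral_sub (integrableOn_cell_of_continuous (hws n).continuous)
          (integrableOn_cell_of_continuous (hws m).continuous), hmean, hmean, sub_zero])
    have hd : ∀ z e, fderiv ℝ (fun z => w n z - w m z) z e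
        = fderiv ℝ (v n) z e - fderiv ℝ (v m) z e := by
      intro z e
      have h : fderiv ℝ (fun z => w n z - w m z) z = _ :=
        fderiv_sub ((hws n).differentiable (by simp) z) ((hws m).differentiable (by simp) z)
      rw [h, hwd, hwd]
      rfl
    simp only [hd] at h1
    have i1 : Integrable (fun z => ‖fderiv ℝ (v n) z 1 - fderiv ℝ (v m) z 1‖ ^ 2)
        (volume.restrict cell) := ((hfx n).sub (hfx m)).integrable_norm_pow (p := 2) (by norm_num)
    have i2 : Integrable (fun z => ‖fderiv ℝ (v n) z I - fderiv ℝ (v m) z I‖ ^ 2)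
        (volume.restrict cell) := ((hfy n).sub (hfy m)).integrable_norm_pow (p := 2) (by norm_num)
    rw [integral_add i1 i2] at h1
    have a1 := hsq hmx (hfx n) (hfx m)
    have a2 := hsq hmy (hfy n) (hfy m)
    have a3 : (∫ z in cell, ‖fderiv ℝ (v n) z 1 - fderiv ℝ (v m) z 1‖ ^ 2)
        + (∫ z in cell, ‖fderiv ℝ (v n) z I - fderiv ℝ (v m) z I‖ ^ 2) ≤ 2 * (S n + S m) := by
      simp only [hS]
      linarith
    calc _ ≤ _ := h1
      _ ≤ C * (2 * (S n + S m)) := mul_le_mul_of_nonneg_left a3 hC.le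
      _ = 2 * C * (S n + S m) := by ring
  -- completeness
  set Wn : ℕ → Lp ℂ 2 (volume.restrict cell) := fun n => (hwm n).toLp (w n) with hWn
  have hcs : CauchySeq Wn := by
    rw [Metric.cauchySeq_iff]
    intro ε hε
    have h1 : ∀ᶠ n in atTop, S n < ε ^ 2 / (4 * C + 1) / 2 := by
      apply hSt.eventually_lt_const
      positivity
    obtain ⟨N, hN⟩ := eventually_atTop.1 h1
    refine ⟨N, fun m hm n hn => ?_⟩
    have h2 : dist (Wn m) (Wn n) ^ 2 = ∫ z in cell, ‖w m z - w n z‖ ^ 2 := by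
      rw [dist_eq_norm, hWn]
      simp only
      rw [← MemLp.toLp_sub, normSq_toLp]
      rfl
    have h3 := hdist m n
    rw [← h2] at h3
    have h4 := hN m hm
    have h5 := hN n hn
    have h6 : 2 * C * (S m + S n) < ε ^ 2 := by
      have h7 : S m + S n < ε ^ 2 / (4 * C + 1) := by linarith
      have h8 : 2 * C * (S m + S n) ≤ 2 * C * (ε ^ 2 / (4 * C + 1)) :=
        mul_le_mul_of_nonneg_left h7.le (by positivity)
      have h9 : 2 * C * (ε ^ 2 / (4 * C + 1)) < ε ^ 2 := by
        rw [← mul_div_assoc, div_lt_iff₀ (by positivity)]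
        nlinarith [sq_pos_of_pos hε]
      linarith
    have h7 : dist (Wn m) (Wn n) ^ 2 < ε ^ 2 := lt_of_le_of_lt h3 h6
    exact lt_of_pow_lt_pow_left₀ 2 hε.le h7
  obtain ⟨U, hU⟩ := cauchySeq_tendsto_of_complete hcs
  -- periodic extension
  set u : ℂ → ℂ := fun z => U (z - (⌊z.re⌋ : ℂ) - (⌊z.im⌋ : ℂ) * I) with hu
  have hup : Per u := by
    intro z
    constructor
    · simp only [hu]
      congr 1
      simp
    · simp only [hu]
      congr 1
      simp
      ring
  have huc : ∀ z ∈ cell, u z = U z := by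
    intro z hz
    have h1 : ⌊z.re⌋ = 0 := Int.floor_eq_zero_iff.2 hz.1
    have h2 : ⌊z.im⌋ = 0 := Int.floor_eq_zero_iff.2 hz.2
    simp only [hu]
    rw [h1, h2]
    simp
  have huU : u =ᵐ[volume.restrict cell] U := by
    rw [Filter.EventuallyEq, ae_restrict_iff' measurableSet_cell]
    exact Filter.Eventually.of_forall huc
  have hum : MemLp u 2 (volume.restrict cell) := (memLp_congr_ae huU).2 (Lp.memLp U)
  have hlim : Tendsto (fun n => ∫ z in cell, ‖u z - w n z‖ ^ 2) atTop (𝓝 0) := by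
    have h1 : Tendsto (fun n => ‖U - Wn n‖ ^ 2) atTop (𝓝 0) := by
      have h2 : Tendsto (fun n => ‖U - Wn n‖) atTop (𝓝 0) := by
        have := tendsto_iff_norm_sub_tendsto_zero.1 hU
        simpa only [norm_sub_rev] using this
      simpa using h2.pow 2
    refine h1.congr fun n => ?_
    have h3 : U - Wn n = (hum.sub (hwm n)).toLp (fun z => u z - w n z) := by
      have h4 : hum.toLp u = U := by
        rw [← Lp.toLp_coeFn U (Lp.memLp U)]
        exact MemLp.toLp_congr _ _ huU
      rw [← h4, hWn]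
      simp only
      rw [← MemLp.toLp_sub]
      rfl
    rw [h3, normSq_toLp]
  refine ⟨u, hup, hx, hy, hum, hmx, hmy, ?_, ?_⟩
  · intro φ hφ hc
    have t1 := tendsto_smul (K := fun z => fderiv ℝ φ z 1)
      ((hφ.continuous_fderiv (by simp)).clm_apply continuous_const) (hc.fderiv_apply (𝕜 := ℝ) 1)
      hwp hup hwm hum hlim
    have t2 := tendsto_smul hφ.continuous hc (fun n => (per_fderiv (hvp n)).map fun L => L 1)
      hx hfx hmx tx
    have e : ∀ n, ∫ z, (fderiv ℝ φ z 1) • w n z = - ∫ z, φ z • fderiv ℝ (v n) z 1 := by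
      intro n
      have := (fluct_of_smooth (hws n) (hwp n)).wx φ hφ hc
      simpa only [hwd] using this
    simp only [e] at t1
    exact tendsto_nhds_unique t1 t2.neg
  · intro φ hφ hc
    have t1 := tendsto_smul (K := fun z => fderiv ℝ φ z I)
      ((hφ.continuous_fderiv (by simp)).clm_apply continuous_const) (hc.fderiv_apply (𝕜 := ℝ) I)
      hwp hup hwm hum hlim
    have t2 := tendsto_smul hφ.continuous hc (fun n => (per_fderiv (hvp n)).map fun L => L I)
      hy hfy hmy ty
    have e : ∀ n, ∫ z, (fderiv ℝ φ z I) • w n z = - ∫ z, φ z • fderiv ℝ (v n) z I := by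
      intro n
      have := (fluct_of_smooth (hws n) (hwp n)).wy φ hφ hc
      simpa only [hwd] using this
    simp only [e] at t1
    exact tendsto_nhds_unique t1 t2.neg

end EBC
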