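import Pool.Agent.Work.MP_ebc928_an.WBasic

open MeasureTheory Complex Set Filter Topology
open scoped ContDiff ComplexConjugate

noncomputable section
namespace EBC

/-! ### distance to the nearest integer -/

private theorem rd_nonneg (x : ℝ) : 0 ≤ rd x := abs_nonneg _

private theorem rd_le_half (x : ℝ) : rd x ≤ 1 / 2 := abs_sub_round x

private theorem rd_le (x : ℝ) (n : ℤ) : rd x ≤ |x - n| := round_le x n

private theorem rd_add_int (x : ℝ) (n : ℤ) : rd (x + n) = rd x := by
  apply le_antisymm
  · refine (rd_le (x + n) (round x + n)).trans (le_of_eq ?_)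
    unfold rd; congr 1; push_cast; ring
  · refine (rd_le x (round (x + n) - n)).trans (le_of_eq ?_)
    unfold rd; congr 1; push_cast; ring

private theorem rd_neg (x : ℝ) : rd (-x) = rd x := by
  apply le_antisymm
  · refine (rd_le (-x) (-round x)).trans (le_of_eq ?_)
    unfold rd; rw [← abs_neg]; congr 1; push_cast; ring
  · refine (rd_le x (-round (-x))).trans (le_of_eq ?_)
    unfold rd; rw [← abs_neg]; congr 1; push_cast; ring

private theorem rd_of_mem {x : ℝ} (h0 : 0 ≤ x) (h1 : x ≤ 1 / 2) : rd x = x := by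
  apply le_antisymm
  · refine (rd_le x 0).trans (le_of_eq ?_)
    rw [Int.cast_zero, sub_zero, abs_of_nonneg h0]
  · unfold rd
    rcases le_or_gt (round x) 0 with h | h
    · have : ((round x : ℤ) : ℝ) ≤ 0 := by exact_mod_cast h
      rw [le_abs]; left; linarith
    · have : (1 : ℝ) ≤ ((round x : ℤ) : ℝ) := by exact_mod_cast h
      rw [le_abs]; right; linarith

private theorem rd_of_mem' {x : ℝ} (h0 : 1 / 2 ≤ x) (h1 : x ≤ 1) : rd x = 1 - x := by
  have h := rd_of_mem (x := 1 - x) (by linarith) (by linarith)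
  have h2 : rd (1 - x) = rd x := by
    rw [← rd_neg (1 - x), show -(1 - x) = x + ((-1 : ℤ) : ℝ) by push_cast; ring, rd_add_int]
  rw [← h2, h]

/-- `rd x` is `± (x - n)` -/
private theorem rd_cases (x : ℝ) : ∃ n : ℤ, rd x = x + n ∨ rd x = -x + n := by
  unfold rd
  rcases abs_cases (x - round x) with h | h
  · exact ⟨-round x, Or.inl (by rw [h.1]; push_cast; ring)⟩
  · exact ⟨round x, Or.inr (by rw [h.1]; ring)⟩

private theorem rd_lip (x y : ℝ) : |rd x - rd y| ≤ |x - y| := by
  have key : ∀ x y : ℝ, rd x ≤ |x - y| + rd y := by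
    intro x y
    refine (rd_le x (round y)).trans ?_
    unfold rd
    exact abs_sub_le x y _
  rw [abs_le]
  have h1 := key x y
  have h2 := key y x
  rw [abs_sub_comm y x] at h2
  constructor <;> linarith

private theorem continuous_rd : Continuous rd := by
  refine (LipschitzWith.of_dist_le_mul (K := 1) fun x y => ?_).continuous
  rw [Real.dist_eq, Real.dist_eq, NNReal.coe_one, one_mul]
  exact rd_lip x y

/-! ### symmetric pairs -/

/-- the symmetrised pair -/
private def sg (p : ℝ × ℝ) : ℝ × ℝ := (max p.1 p.2, min p.1 p.2)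

private theorem sg_swap (a b : ℝ) : sg (a, b) = sg (b, a) := by
  unfold sg; simp [max_comm, min_comm]

private theorem sg_sg_cases (a b : ℝ) : sg (a, b) = (a, b) ∨ sg (a, b) = (b, a) := by
  unfold sg
  rcases le_total a b with h | h
  · right; simp [h]
  · left; simp [h]

private def mkc (p : ℝ × ℝ) : ℂ := ⟨p.1, p.2⟩

private theorem fold_eq (z : ℂ) : fold z = mkc (sg (rd z.re, rd z.im)) := rfl

private theorem fold_congr {z w : ℂ} (h1 : rd z.re = rd w.re) (h2 : rd z.im = rd w.im) :
    fold z = fold w := by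
  rw [fold_eq, fold_eq, h1, h2]

private theorem fold_congr' {z w : ℂ} (h1 : rd z.re = rd w.im) (h2 : rd z.im = rd w.re) :
    fold z = fold w := by
  rw [fold_eq, fold_eq, h1, h2, sg_swap]

theorem fold_mem (z : ℂ) : fold z ∈ tri := by
  refine ⟨le_min (rd_nonneg _) (rd_nonneg _), min_le_max, max_le (rd_le_half _) (rd_le_half _)⟩

theorem fold_of_mem {z : ℂ} (hz : z ∈ tri) : fold z = z := by
  obtain ⟨h0, h1, h2⟩ := hz
  unfold fold
  rw [rd_of_mem (x := z.re) (by linarith) h2, rd_of_mem (x := z.im) h0 (by linarith)]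
  exact Complex.ext (by simp [h1]) (by simp [h1])

theorem fold_add_one (z : ℂ) : fold (z + 1) = fold z := by
  refine fold_congr ?_ ?_
  · have := rd_add_int z.re 1
    simpa using this
  · simp

theorem fold_add_I (z : ℂ) : fold (z + I) = fold z := by
  refine fold_congr ?_ ?_
  · simp
  · have := rd_add_int z.im 1
    simpa using this

theorem fold_conj (z : ℂ) : fold (conj z) = fold z := by
  refine fold_congr ?_ ?_
  · simp
  · rw [conj_im, rd_neg]

theorem fold_I_mul (z : ℂ) : fold (I * z) = fold z := by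
  refine fold_congr' ?_ ?_
  · rw [show (I * z).re = -z.im by simp, rd_neg]
  · simp

private theorem fold_two_aux {a b x y : ℝ} (ha : a = rd x) (hb : b = rd y) :
    rd (2 * a) = rd (2 * x) ∧ rd (2 * b) = rd (2 * y) := by
  have key : ∀ x : ℝ, rd (2 * rd x) = rd (2 * x) := by
    intro x
    obtain ⟨n, h | h⟩ := rd_cases x
    · rw [h, show 2 * (x + n) = 2 * x + ((2 * n : ℤ) : ℝ) by push_cast; ring, rd_add_int]
    · rw [h, show 2 * (-x + n) = -(2 * x) + ((2 * n : ℤ) : ℝ) by push_cast; ring, rd_add_int, rd_neg]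
  subst ha hb
  exact ⟨key x, key y⟩

/-- `fold` is invariant under the reflection group, which contains its conjugates by `2` and
`1 + i`. -/
theorem fold_two_fold (z : ℂ) : fold (2 * fold z) = fold (2 * z) := by
  obtain ⟨h1, h2⟩ := fold_two_aux (x := z.re) (y := z.im) rfl rfl
  rcases sg_sg_cases (rd z.re) (rd z.im) with h | h
  · refine fold_congr ?_ ?_
    · rw [fold_eq, h]; simpa [mkc] using h1
    · rw [fold_eq, h]; simpa [mkc] using h2
  · refine fold_congr' ?_ ?_
    · rw [fold_eq, h]; simpa [mkc] using h2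
    · rw [fold_eq, h]; simpa [mkc] using h1

private theorem fold_oneI_aux (x y : ℝ) :
    (rd (rd x - rd y) = rd (x - y) ∧ rd (rd x + rd y) = rd (x + y)) ∨
    (rd (rd x - rd y) = rd (x + y) ∧ rd (rd x + rd y) = rd (x - y)) := by
  obtain ⟨n, h | h⟩ := rd_cases x <;> obtain ⟨m, h' | h'⟩ := rd_cases y
  · left
    constructor
    · rw [h, h', show x + n - (y + m) = (x - y) + ((n - m : ℤ) : ℝ) by push_cast; ring, rd_add_int]
    · rw [h, h', show x + n + (y + m) = (x + y) + ((n + m : ℤ) : ℝ) by push_cast; ring, rd_add_int]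
  · right
    constructor
    · rw [h, h', show x + n - (-y + m) = (x + y) + ((n - m : ℤ) : ℝ) by push_cast; ring, rd_add_int]
    · rw [h, h', show x + n + (-y + m) = (x - y) + ((n + m : ℤ) : ℝ) by push_cast; ring, rd_add_int]
  · right
    constructor
    · rw [h, h', show -x + n - (y + m) = -(x + y) + ((n - m : ℤ) : ℝ) by push_cast; ring,
        rd_add_int, rd_neg]
    · rw [h, h', show -x + n + (y + m) = -(x - y) + ((n + m : ℤ) : ℝ) by push_cast; ring,
        rd_add_int, rd_neg]
  · left
    constructor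
    · rw [h, h', show -x + n - (-y + m) = -(x - y) + ((n - m : ℤ) : ℝ) by push_cast; ring,
        rd_add_int, rd_neg]
    · rw [h, h', show -x + n + (-y + m) = -(x + y) + ((n + m : ℤ) : ℝ) by push_cast; ring,
        rd_add_int, rd_neg]

theorem fold_oneI_fold (z : ℂ) : fold ((1 + I) * fold z) = fold ((1 + I) * z) := by
  have e1 : ∀ w : ℂ, ((1 + I) * w).re = w.re - w.im := by intro w; simp
  have e2 : ∀ w : ℂ, ((1 + I) * w).im = w.re + w.im := by intro w; simp [add_comm]
  have h0 : rd ((1 + I) * fold z).re = rd (rd z.re - rd z.im) ∧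
      rd ((1 + I) * fold z).im = rd (rd z.re + rd z.im) := by
    rw [e1, e2, fold_eq]
    rcases sg_sg_cases (rd z.re) (rd z.im) with h | h
    · rw [h]; exact ⟨rfl, rfl⟩
    · rw [h]
      refine ⟨?_, ?_⟩
      · show rd (rd z.im - rd z.re) = _
        rw [← rd_neg]; congr 1; ring
      · show rd (rd z.im + rd z.re) = _
        rw [add_comm]
  rcases fold_oneI_aux z.re z.im with ⟨h1, h2⟩ | ⟨h1, h2⟩
  · refine fold_congr ?_ ?_
    · rw [h0.1, h1, e1]
    · rw [h0.2, h2, e2]
  · refine fold_congr' ?_ ?_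
    · rw [h0.1, h1, e2]
    · rw [h0.2, h2, e1]

private theorem continuous_mkc : Continuous mkc := by
  have : mkc = Complex.equivRealProdCLM.symm := by
    funext p
    exact Complex.ext (by simp [mkc]) (by simp [mkc])
  rw [this]
  exact Complex.equivRealProdCLM.symm.continuous

private theorem continuous_sg : Continuous sg :=
  (continuous_fst.max continuous_snd).prodMk (continuous_fst.min continuous_snd)

theorem continuous_fold : Continuous fold := by
  have : fold = fun z : ℂ => mkc (sg (rd z.re, rd z.im)) := rfl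
  rw [this]
  exact continuous_mkc.comp (continuous_sg.comp
    ((continuous_rd.comp Complex.continuous_re).prodMk (continuous_rd.comp Complex.continuous_im)))

/-! ### push-forward of the measure -/

private theorem map_rd : Measure.map rd (volume.restrict (Ico (0 : ℝ) 1)) =
    (2 : ENNReal) • volume.restrict (Icc (0 : ℝ) (1 / 2)) := by
  ext s hs
  rw [Measure.map_apply continuous_rd.measurable hs,
    Measure.restrict_apply (continuous_rd.measurable hs), Measure.smul_apply,
    Measure.restrict_apply hs]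
  have h1 : rd ⁻¹' s ∩ Ico 0 1 = (rd ⁻¹' s ∩ Ico 0 (1 / 2)) ∪ (rd ⁻¹' s ∩ Ico (1 / 2) 1) := by
    rw [← inter_union_distrib_left, Ico_union_Ico_eq_Ico (by norm_num) (by norm_num)]
  have h2 : rd ⁻¹' s ∩ Ico 0 (1 / 2) = s ∩ Ico 0 (1 / 2) := by
    ext x
    simp only [mem_inter_iff, mem_preimage]
    refine and_congr_left fun hx => ?_
    rw [rd_of_mem hx.1 hx.2.le]
  have h3 : rd ⁻¹' s ∩ Ico (1 / 2) 1 = (fun x => 1 - x) ⁻¹' (s ∩ Ioc 0 (1 / 2)) := by
    ext x
    simp only [mem_inter_iff, mem_preimage]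
    constructor
    · rintro ⟨h, h'⟩
      rw [rd_of_mem' h'.1 h'.2.le] at h
      exact ⟨h, by linarith [h'.2], by linarith [h'.1]⟩
    · rintro ⟨h, h'⟩
      have h4 : x ∈ Ico (1 / 2 : ℝ) 1 := ⟨by linarith [h'.2], by linarith [h'.1]⟩
      refine ⟨?_, h4⟩
      rw [rd_of_mem' h4.1 h4.2.le]
      exact h
  have h5 : volume (s ∩ Ico 0 (1 / 2)) = volume (s ∩ Icc (0 : ℝ) (1 / 2)) :=
    measure_congr ((ae_eq_refl s).inter Ico_ae_eq_Icc)
  have h6 : volume (s ∩ Ioc 0 (1 / 2)) = volume (s ∩ Icc (0 : ℝ) (1 / 2)) :=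
    measure_congr ((ae_eq_refl s).inter Ioc_ae_eq_Icc)
  have h7 : volume ((fun x : ℝ => 1 - x) ⁻¹' (s ∩ Ioc 0 (1 / 2))) = volume (s ∩ Ioc 0 (1 / 2)) :=
    (Measure.measurePreserving_sub_left volume (1 : ℝ)).measure_preimage
      (hs.inter measurableSet_Ioc).nullMeasurableSet
  have hdis : Disjoint (rd ⁻¹' s ∩ Ico 0 (1 / 2)) (rd ⁻¹' s ∩ Ico (1 / 2) 1) := by
    refine Disjoint.mono inter_subset_right inter_subset_right ?_
    exact Ico_disjoint_Ico_same
  rw [h1, measure_union hdis ((continuous_rd.measurable hs).inter measurableSet_Ico), h2, h3, h7,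
    h5, h6, smul_eq_mul, two_mul]

private def tri2 : Set (ℝ × ℝ) := {p | 0 ≤ p.2 ∧ p.2 ≤ p.1 ∧ p.1 ≤ 1 / 2}

private theorem measurableSet_tri2 : MeasurableSet tri2 := by
  unfold tri2
  refine (measurableSet_le measurable_const measurable_snd).inter
    ((measurableSet_le measurable_snd measurable_fst).inter
      (measurableSet_le measurable_fst measurable_const))

private theorem volume_diag : volume {p : ℝ × ℝ | p.1 = p.2} = 0 := by
  have hm : MeasurableSet {p : ℝ × ℝ | p.1 = p.2} :=
    measurableSet_eq_fun measurable_fst measurable_snd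
  rw [Measure.volume_eq_prod, Measure.measure_prod_null hm]
  refine Eventually.of_forall fun x => ?_
  have : Prod.mk x ⁻¹' {p : ℝ × ℝ | p.1 = p.2} = {x} := by
    ext y; simp [eq_comm]
  show volume (Prod.mk x ⁻¹' {p : ℝ × ℝ | p.1 = p.2}) = 0
  rw [this]
  simp

private theorem map_sg : Measure.map sg (volume.restrict
      ((Icc (0 : ℝ) (1 / 2)) ×ˢ (Icc (0 : ℝ) (1 / 2)))) =
    (2 : ENNReal) • volume.restrict tri2 := by
  ext s hs
  rw [Measure.map_apply continuous_sg.measurable hs,
    Measure.restrict_apply (continuous_sg.measurable hs), Measure.smul_apply,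
    Measure.restrict_apply hs]
  set Q : Set (ℝ × ℝ) := (Icc (0 : ℝ) (1 / 2)) ×ˢ (Icc (0 : ℝ) (1 / 2)) with hQ
  have h1 : sg ⁻¹' s ∩ Q = (s ∩ tri2) ∪ Prod.swap ⁻¹' ((s ∩ tri2) \ {p | p.1 = p.2}) := by
    ext ⟨a, b⟩
    simp only [hQ, mem_inter_iff, mem_preimage, mem_prod, mem_Icc, mem_union, tri2, mem_setOf_eq,
      Prod.swap_prod_mk, mem_diff, sg]
    rcases le_or_gt b a with h | h
    · rw [max_eq_left h, min_eq_right h]
      constructor
      · rintro ⟨h1, h2⟩
        exact Or.inl ⟨h1, h2.2.1, h, h2.1.2⟩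
      · rintro (⟨h1, h2⟩ | ⟨⟨h1, h2⟩, h3⟩)
        · exact ⟨h1, ⟨h2.1.trans h2.2.1, h2.2.2⟩, h2.1, h.trans h2.2.2⟩
        · exact absurd (le_antisymm h h2.2.1) h3
    · rw [max_eq_right h.le, min_eq_left h.le]
      constructor
      · rintro ⟨h1, h2⟩
        exact Or.inr ⟨⟨h1, h2.1.1, h.le, h2.2.2⟩, h.ne'⟩
      · rintro (⟨h1, h2⟩ | ⟨⟨h1, h2⟩, h3⟩)
        · exact absurd h2.2.1 (not_le.2 h)
        · exact ⟨h1, ⟨h2.1, h.le.trans h2.2.2⟩, h2.1.trans h.le, h2.2.2⟩
  have hm : MeasurableSet ((s ∩ tri2) \ {p : ℝ × ℝ | p.1 = p.2}) :=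
    (hs.inter measurableSet_tri2).diff (measurableSet_eq_fun measurable_fst measurable_snd)
  have hdis : Disjoint (s ∩ tri2) (Prod.swap ⁻¹' ((s ∩ tri2) \ {p : ℝ × ℝ | p.1 = p.2})) := by
    rw [Set.disjoint_left]
    rintro ⟨a, b⟩ ⟨_, h2⟩ ⟨⟨_, h3⟩, h4⟩
    simp only [tri2, mem_setOf_eq, Prod.swap_prod_mk] at h2 h3 h4
    exact h4 (le_antisymm h2.2.1 h3.2.1)
  have h2 : volume (Prod.swap ⁻¹' ((s ∩ tri2) \ {p : ℝ × ℝ | p.1 = p.2})) =
      volume ((s ∩ tri2) \ {p : ℝ × ℝ | p.1 = p.2}) := by
    have := (Measure.measurePreserving_swap (μ := (volume : Measure ℝ))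
      (ν := (volume : Measure ℝ))).measure_preimage hm.nullMeasurableSet
    simpa [Measure.volume_eq_prod] using this
  have h3 : volume ((s ∩ tri2) \ {p : ℝ × ℝ | p.1 = p.2}) = volume (s ∩ tri2) :=
    measure_diff_null volume_diag
  rw [h1, measure_union hdis (measurable_swap hm), h2, h3, smul_eq_mul, two_mul]

private theorem map_mkc_tri2 : Measure.map mkc (volume.restrict tri2) = volume.restrict tri := by
  have hmk : mkc = Complex.measurableEquivRealProd.symm := by
    funext p
    exact Complex.ext (by simp [mkc]) (by simp [mkc])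
  have h := Complex.volume_preserving_equiv_real_prod.symm
  have h2 := h.restrict_preimage (s := tri) ?_
  · have h3 : (Complex.measurableEquivRealProd.symm : ℝ × ℝ → ℂ) ⁻¹' tri = tri2 := by
      ext p
      simp [tri, tri2]
    rw [h3] at h2
    rw [hmk]
    exact h2.map_eq
  · unfold tri
    exact (measurableSet_le measurable_const Complex.measurable_im).inter
      ((measurableSet_le Complex.measurable_im Complex.measurable_re).inter
        (measurableSet_le Complex.measurable_re measurable_const))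

private theorem map_cell : Measure.map Complex.measurableEquivRealProd (volume.restrict cell) =
    (volume.restrict (Ico (0 : ℝ) 1)).prod (volume.restrict (Ico (0 : ℝ) 1)) := by
  have h2 := Complex.volume_preserving_equiv_real_prod.restrict_preimage
    (s := (Ico (0 : ℝ) 1) ×ˢ (Ico (0 : ℝ) 1)) (measurableSet_Ico.prod measurableSet_Ico)
  have h3 : (Complex.measurableEquivRealProd : ℂ → ℝ × ℝ) ⁻¹'
      ((Ico (0 : ℝ) 1) ×ˢ (Ico (0 : ℝ) 1)) = cell := by
    ext p
    simp [cell]
  rw [h3] at h2
  rw [h2.map_eq, Measure.prod_restrict, Measure.volume_eq_prod]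

/-- push-forward of the measure of the cell -/
theorem Fold.map_fold : Measure.map fold (volume.restrict cell) =
    (8 : ENNReal) • volume.restrict tri := by
  have h1 : fold = mkc ∘ sg ∘ (Prod.map rd rd) ∘ Complex.measurableEquivRealProd := by
    funext z
    simp [fold_eq]
  have hr : Measurable (Prod.map rd rd) := continuous_rd.measurable.prodMap continuous_rd.measurable
  rw [h1, ← Measure.map_map continuous_mkc.measurable (continuous_sg.measurable.comp
    (hr.comp Complex.measurableEquivRealProd.measurable)),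
    ← Measure.map_map continuous_sg.measurable
      (hr.comp Complex.measurableEquivRealProd.measurable),
    ← Measure.map_map hr Complex.measurableEquivRealProd.measurable, map_cell,
    ← Measure.map_prod_map _ _ continuous_rd.measurable continuous_rd.measurable, map_rd]
  rw [Measure.prod_smul_left, Measure.prod_smul_right, Measure.prod_restrict,
    ← Measure.volume_eq_prod, smul_smul, Measure.map_smul, map_sg, smul_smul, Measure.map_smul,
    map_mkc_tri2]
  norm_num

private theorem tri_ae_sub_cell : ∀ z ∈ tri, z ∈ cell := by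
  rintro z ⟨h0, h1, h2⟩
  exact ⟨⟨by linarith, by linarith⟩, ⟨h0, by linarith⟩⟩

private theorem measurableSet_tri' : MeasurableSet tri := by
  unfold tri
  exact (measurableSet_le measurable_const Complex.measurable_im).inter
    ((measurableSet_le Complex.measurable_im Complex.measurable_re).inter
      (measurableSet_le Complex.measurable_re measurable_const))

/-- integration over the cell of a function of `fold z` -/
theorem setIntegral_fold {E : Type*} [NormedAddCommGroup E] [NormedSpace ℝ E] (F : ℂ → E) :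
    ∫ z in cell, F (fold z) = (8 : ℝ) • ∫ z in tri, F z := by
  by_cases hF : AEStronglyMeasurable F (volume.restrict tri)
  · have hF' : AEStronglyMeasurable F (Measure.map fold (volume.restrict cell)) := by
      rw [Fold.map_fold]
      exact hF.smul_measure 8
    rw [← integral_map continuous_fold.measurable.aemeasurable hF', Fold.map_fold,
      integral_smul_measure]
    norm_num
  · have h1 : ¬ Integrable F (volume.restrict tri) := fun h => hF h.1
    have h2 : ¬ Integrable (fun z => F (fold z)) (volume.restrict cell) := by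
      intro h
      apply hF
      have h3 : AEStronglyMeasurable (fun z => F (fold z)) (volume.restrict tri) :=
        h.1.mono_measure (Measure.restrict_mono tri_ae_sub_cell le_rfl)
      refine h3.congr ?_
      filter_upwards [ae_restrict_mem measurableSet_tri'] with z hz
      rw [fold_of_mem hz]
    rw [integral_undef h1, integral_undef h2, smul_zero]

private theorem fold_add_int (z : ℂ) (m n : ℤ) : fold (z + ⟨m, n⟩) = fold z := by
  refine fold_congr ?_ ?_
  · rw [add_re]; exact rd_add_int _ _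
  · rw [add_im]; exact rd_add_int _ _

/-- null sets are preserved -/
theorem ae_fold {p : ℂ → Prop} (h : ∀ᵐ z, z ∈ tri → p z) : ∀ᵐ z, p (fold z) := by
  have h1 : ∀ᵐ z ∂(volume.restrict cell), p (fold z) := by
    refine ae_of_ae_map continuous_fold.measurable.aemeasurable ?_
    rw [Fold.map_fold]
    refine Measure.ae_smul_measure ?_ _
    rw [ae_restrict_iff' measurableSet_tri']
    exact h
  have hcell : MeasurableSet cell := by
    unfold cell
    exact (Complex.measurable_re measurableSet_Ico).inter (Complex.measurable_im measurableSet_Ico)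
  rw [ae_restrict_iff' hcell] at h1
  have h2 : ∀ᵐ z : ℂ, ∀ q : ℤ × ℤ, z + ⟨q.1, q.2⟩ ∈ cell → p (fold (z + ⟨q.1, q.2⟩)) := by
    rw [ae_all_iff]
    intro q
    exact (measurePreserving_add_right volume (⟨q.1, q.2⟩ : ℂ)).quasiMeasurePreserving.ae h1
  filter_upwards [h2] with z hz
  have h3 := hz (-⌊z.re⌋, -⌊z.im⌋) ?_
  · rwa [fold_add_int] at h3
  · constructor
    · rw [add_re]
      push_cast
      exact ⟨by linarith [Int.floor_le z.re], by linarith [Int.lt_floor_add_one z.re]⟩
    · rw [add_im]
      push_cast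
      exact ⟨by linarith [Int.floor_le z.im], by linarith [Int.lt_floor_add_one z.im]⟩

theorem composite_KS {V : Set ℂ} (hV : MeasurableSet V) : Composite (KS V) := by
  refine ⟨(continuous_fold.measurable hV).compl, fun z => ⟨?_, ?_⟩⟩
  · show fold (z + 1) ∉ V ↔ fold z ∉ V
    rw [fold_add_one]
  · show fold (z + I) ∉ V ↔ fold z ∉ V
    rw [fold_add_I]

theorem KS_conj (V : Set ℂ) (z : ℂ) : conj z ∈ KS V ↔ z ∈ KS V := by
  show fold (conj z) ∉ V ↔ fold z ∉ V
  rw [fold_conj]

theorem KS_swap (V : Set ℂ) (z : ℂ) : I * conj z ∈ KS V ↔ z ∈ KS V := by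
  show fold (I * conj z) ∉ V ↔ fold z ∉ V
  rw [fold_I_mul, fold_conj]

end EBC
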