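import Pool.Agent.Work.MP_ebc928_an.Defs

open MeasureTheory Complex Set
open scoped ContDiff ComplexConjugate

noncomputable section
namespace EBC

/-- gauge function of `tri` with respect to `cen` -/
def gau (z : ℂ) : ℝ :=
  max (max (-8 * (z - cen).im) (8 * (z - cen).re)) (4 * ((z - cen).im - (z - cen).re))

/-- the divergence free field `cen + (z - cen)/gau²`, equal to `z` on the boundary of `tri`. -/
def gfield (z : ℂ) : ℂ := cen + ((gau z) ^ 2)⁻¹ • (z - cen)


theorem gau_re (z : ℂ) : (z - cen).re = z.re - 3 / 8 := by simp [cen]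
theorem gau_im (z : ℂ) : (z - cen).im = z.im - 1 / 8 := by simp [cen]

theorem gau_eq (z : ℂ) :
    gau z = max (max (1 - 8 * z.im) (8 * z.re - 3)) (1 - 4 * (z.re - z.im)) := by
  unfold gau
  rw [gau_re, gau_im]
  congr 1
  · congr 1 <;> ring
  · ring

theorem gau_ge1 (z : ℂ) : 1 - 8 * z.im ≤ gau z := by
  rw [gau_eq]; exact le_max_of_le_left (le_max_left _ _)
theorem gau_ge2 (z : ℂ) : 8 * z.re - 3 ≤ gau z := by
  rw [gau_eq]; exact le_max_of_le_left (le_max_right _ _)
theorem gau_ge3 (z : ℂ) : 1 - 4 * (z.re - z.im) ≤ gau z := by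
  rw [gau_eq]; exact le_max_right _ _
theorem gau_le {z : ℂ} {t : ℝ} (h1 : 1 - 8 * z.im ≤ t) (h2 : 8 * z.re - 3 ≤ t)
    (h3 : 1 - 4 * (z.re - z.im) ≤ t) : gau z ≤ t := by
  rw [gau_eq]; exact max_le (max_le h1 h2) h3

theorem mem_tri_iff_gau (z : ℂ) : z ∈ tri ↔ gau z ≤ 1 := by
  constructor
  · rintro ⟨h1, h2, h3⟩
    exact gau_le (by linarith) (by linarith) (by linarith)
  · intro h
    have h1 := gau_ge1 z
    have h2 := gau_ge2 z
    have h3 := gau_ge3 z
    exact ⟨by linarith, by linarith, by linarith⟩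

theorem gau_nonneg (z : ℂ) : 0 ≤ gau z := by
  have h1 := gau_ge1 z
  have h2 := gau_ge2 z
  have h3 := gau_ge3 z
  linarith

theorem gau_lower (z : ℂ) : 2 * ‖z - cen‖ ≤ gau z := by
  have h1 := gau_ge1 z
  have h2 := gau_ge2 z
  have h3 := gau_ge3 z
  have h0 := gau_nonneg z
  set M := gau z with hM
  have hn : ‖z - cen‖ ^ 2 = (z.re - 3 / 8) ^ 2 + (z.im - 1 / 8) ^ 2 := by
    rw [← Complex.normSq_eq_norm_sq, Complex.normSq_apply, gau_re, gau_im]; ring
  obtain ⟨p, hp⟩ : ∃ p, p = M / 8 - (z.re - 3 / 8) := ⟨_, rfl⟩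
  obtain ⟨q, hq⟩ : ∃ q, q = M / 8 + (z.im - 1 / 8) := ⟨_, rfl⟩
  obtain ⟨t, ht⟩ : ∃ t, t = M / 4 - (z.im - 1 / 8) + (z.re - 3 / 8) := ⟨_, rfl⟩
  have hp0 : 0 ≤ p := by linarith
  have hq0 : 0 ≤ q := by linarith
  have ht0 : 0 ≤ t := by linarith
  have hM2 : M = 2 * (p + q + t) := by linarith
  have hx : z.re - 3 / 8 = (-3 * p + q + t) / 4 := by linarith
  have hy : z.im - 1 / 8 = (3 * q - p - t) / 4 := by linarith
  have hsq : (2 * ‖z - cen‖) ^ 2 ≤ M ^ 2 := by
    rw [mul_pow, hn, hx, hy, hM2]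
    nlinarith [mul_nonneg hp0 hq0, mul_nonneg hp0 ht0, mul_nonneg hq0 ht0, sq_nonneg p,
      sq_nonneg q, sq_nonneg t]
  exact le_of_sq_le_sq hsq h0

theorem gau_lipschitz : LipschitzWith 16 gau := by
  refine LipschitzWith.of_le_add_mul 16 ?_
  intro z z'
  have h1 := gau_ge1 z'
  have h2 := gau_ge2 z'
  have h3 := gau_ge3 z'
  have hre : |z.re - z'.re| ≤ dist z z' := by
    rw [dist_eq_norm, ← Complex.sub_re]; exact Complex.abs_re_le_norm _
  have him : |z.im - z'.im| ≤ dist z z' := by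
    rw [dist_eq_norm, ← Complex.sub_im]; exact Complex.abs_im_le_norm _
  have a1 := abs_le.mp hre
  have a2 := abs_le.mp him
  have : ((16 : NNReal) : ℝ) = 16 := rfl
  rw [this]
  exact gau_le (by linarith) (by linarith) (by linarith)

theorem hom_re (s : ℝ) (z : ℂ) : (hom s z).re = 3 / 8 + s * (z.re - 3 / 8) := by
  simp [hom, cen]
theorem hom_im (s : ℝ) (z : ℂ) : (hom s z).im = 1 / 8 + s * (z.im - 1 / 8) := by
  simp [hom, cen]

theorem gau_hom {s : ℝ} (hs : 0 ≤ s) (z : ℂ) : gau (hom s z) = s * gau z := by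
  have e : hom s z - cen = s • (z - cen) := by simp [hom]
  unfold gau
  rw [e]
  simp only [Complex.smul_re, Complex.smul_im, smul_eq_mul]
  rw [mul_max_of_nonneg _ _ hs, mul_max_of_nonneg _ _ hs]
  congr 1
  · congr 1 <;> ring
  · ring

theorem hom_image_tri {s : ℝ} (hs : 0 < s) : hom s '' tri = {z | gau z ≤ s} := by
  ext z
  constructor
  · rintro ⟨w, hw, rfl⟩
    have h1 := (mem_tri_iff_gau w).mp hw
    simp only [mem_ofPred_eq]
    rw [gau_hom hs.le]
    nlinarith
  · intro hz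
    simp only [mem_ofPred_eq] at hz
    refine ⟨hom s⁻¹ z, ?_, ?_⟩
    · rw [mem_tri_iff_gau, gau_hom (inv_nonneg.mpr hs.le)]
      rw [inv_mul_le_iff₀ hs, mul_one]
      exact hz
    · simp [hom, hs.ne']

theorem gfield_of_gau_one {z : ℂ} (hz : gau z = 1) : gfield z = z := by
  simp [gfield, hz]

theorem gfield_lip_aux {s : ℝ} (hs : 0 < s) (z z' : ℂ) (h : s ≤ gau z) (h' : s ≤ gau z') :
    ‖gfield z - gfield z'‖ ≤ 17 / s ^ 2 * ‖z - z'‖ := by
  set g := gau z with hg
  set g' := gau z' with hg'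
  have g0 : 0 < g := lt_of_lt_of_le hs h
  have g0' : 0 < g' := lt_of_lt_of_le hs h'
  have hl : |g' - g| ≤ 16 * ‖z - z'‖ := by
    have := gau_lipschitz.dist_le_mul z' z
    rw [Real.dist_eq, dist_eq_norm, norm_sub_rev] at this
    exact this
  have hlow := gau_lower z'
  rw [← hg'] at hlow
  have e : gfield z - gfield z' = (g ^ 2)⁻¹ • (z - z') + ((g ^ 2)⁻¹ - (g' ^ 2)⁻¹) • (z' - cen) := by
    simp only [gfield, ← hg, ← hg']
    module
  rw [e]
  refine (norm_add_le _ _).trans ?_
  rw [norm_smul, norm_smul, Real.norm_eq_abs, Real.norm_eq_abs]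
  have i1 : |(g ^ 2)⁻¹| ≤ 1 / s ^ 2 := by
    rw [abs_of_nonneg (by positivity), one_div]
    exact inv_anti₀ (by positivity) (pow_le_pow_left₀ hs.le h 2)
  have i2 : |(g ^ 2)⁻¹ - (g' ^ 2)⁻¹| * ‖z' - cen‖ ≤ 16 / s ^ 2 * ‖z - z'‖ := by
    have e2 : (g ^ 2)⁻¹ - (g' ^ 2)⁻¹ = (g' - g) * ((g + g') / (g ^ 2 * g' ^ 2)) := by
      field_simp; ring
    rw [e2, abs_mul, abs_of_nonneg (by positivity : (0 : ℝ) ≤ (g + g') / (g ^ 2 * g' ^ 2))]
    have i3 : (g + g') / (g ^ 2 * g' ^ 2) * ‖z' - cen‖ ≤ 1 / s ^ 2 := by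
      calc (g + g') / (g ^ 2 * g' ^ 2) * ‖z' - cen‖ ≤ (g + g') / (g ^ 2 * g' ^ 2) * (g' / 2) := by
            refine mul_le_mul_of_nonneg_left (by linarith) (by positivity)
        _ = (1 / (g * g') + 1 / g ^ 2) / 2 := by field_simp
        _ ≤ (1 / s ^ 2 + 1 / s ^ 2) / 2 := by
            have j1 : 1 / (g * g') ≤ 1 / s ^ 2 := by
              refine one_div_le_one_div_of_le (by positivity) ?_
              rw [pow_two]
              exact mul_le_mul h h' hs.le g0.le
            have j2 : 1 / g ^ 2 ≤ 1 / s ^ 2 :=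
              one_div_le_one_div_of_le (by positivity) (pow_le_pow_left₀ hs.le h 2)
            linarith
        _ = 1 / s ^ 2 := by ring
    calc |g' - g| * ((g + g') / (g ^ 2 * g' ^ 2)) * ‖z' - cen‖
        = |g' - g| * ((g + g') / (g ^ 2 * g' ^ 2) * ‖z' - cen‖) := by ring
      _ ≤ (16 * ‖z - z'‖) * (1 / s ^ 2) :=
          mul_le_mul hl i3 (by positivity) (by positivity)
      _ = 16 / s ^ 2 * ‖z - z'‖ := by ring
  calc |(g ^ 2)⁻¹| * ‖z - z'‖ + |(g ^ 2)⁻¹ - (g' ^ 2)⁻¹| * ‖z' - cen‖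
      ≤ 1 / s ^ 2 * ‖z - z'‖ + 16 / s ^ 2 * ‖z - z'‖ :=
        add_le_add (mul_le_mul_of_nonneg_right i1 (norm_nonneg _)) i2
    _ = 17 / s ^ 2 * ‖z - z'‖ := by ring

/-- Lipschitz on `{gau ≥ s}` -/
theorem gfield_lipschitz : ∃ C : ℝ, 0 < C ∧ ∀ s : ℝ, 0 < s → ∀ z z' : ℂ, s ≤ gau z → s ≤ gau z' →
    ‖gfield z - gfield z'‖ ≤ C / s ^ 2 * ‖z - z'‖ :=
  ⟨17, by norm_num, fun _ hs z z' h h' => gfield_lip_aux hs z z' h h'⟩

/-- a line is a null set -/
theorem null_line (a b c : ℝ) (hab : a ≠ 0 ∨ b ≠ 0) :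
    volume {z : ℂ | a * z.re + b * z.im = c} = 0 := by
  set l : ℂ →ₗ[ℝ] ℝ := a • Complex.reLm + b • Complex.imLm with hl
  have hle : ∀ z, l z = a * z.re + b * z.im := by
    intro z
    simp [hl]
  have hker : LinearMap.ker l ≠ ⊤ := by
    intro h
    rw [LinearMap.ker_eq_top] at h
    have h1 : l 1 = 0 := by rw [h]; rfl
    have h2 : l I = 0 := by rw [h]; rfl
    rw [hle] at h1 h2
    simp only [one_re, one_im, I_re, I_im, mul_one, mul_zero, add_zero, zero_add] at h1 h2
    rcases hab with h3 | h3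
    · exact h3 h1
    · exact h3 h2
  have h0 : volume (LinearMap.ker l : Set ℂ) = 0 := Measure.addHaar_submodule volume _ hker
  by_cases hex : ∃ z0, l z0 = c
  · obtain ⟨z0, hz0⟩ := hex
    have : {z : ℂ | a * z.re + b * z.im = c} = (fun z => z + -z0) ⁻¹' (LinearMap.ker l : Set ℂ) := by
      ext z
      simp only [mem_ofPred_eq, mem_preimage, SetLike.mem_coe, LinearMap.mem_ker, map_add, map_neg,
        hle z, hz0]
      constructor
      · intro h; rw [h]; ring
      · intro h; linarith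
    rw [this, measure_preimage_add_right, h0]
  · have : {z : ℂ | a * z.re + b * z.im = c} = ∅ := by
      ext z
      simp only [mem_ofPred_eq, mem_empty_iff_false, iff_false]
      intro h
      exact hex ⟨z, by rw [hle, h]⟩
    rw [this, measure_empty]

/-- the field for a linear gauge -/
theorem gfield_lin (a b : ℝ) (z : ℂ) (hz : a * (z - cen).re + b * (z - cen).im ≠ 0) :
    DifferentiableAt ℝ (fun w : ℂ => cen + ((a * (w - cen).re + b * (w - cen).im) ^ 2)⁻¹ •
      (w - cen)) z ∧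
    dv (fun w : ℂ => cen + ((a * (w - cen).re + b * (w - cen).im) ^ 2)⁻¹ • (w - cen)) z = 0 := by
  set t := a * (z - cen).re + b * (z - cen).im with ht
  have h1 : HasFDerivAt (fun w : ℂ => w - cen) (ContinuousLinearMap.id ℝ ℂ) z :=
    (hasFDerivAt_id z).sub_const cen
  have h2 : HasFDerivAt (fun w : ℂ => a * (w - cen).re + b * (w - cen).im)
      (a • Complex.reCLM + b • Complex.imCLM) z := by
    have hre : HasFDerivAt (fun w : ℂ => (w - cen).re) Complex.reCLM z := by
      have h4 : HasFDerivAt (fun w : ℂ => Complex.reCLM (w - cen))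
          (Complex.reCLM.comp (ContinuousLinearMap.id ℝ ℂ)) z :=
        Complex.reCLM.hasFDerivAt.comp z h1
      rw [ContinuousLinearMap.comp_id] at h4
      exact h4
    have him : HasFDerivAt (fun w : ℂ => (w - cen).im) Complex.imCLM z := by
      have h4 : HasFDerivAt (fun w : ℂ => Complex.imCLM (w - cen))
          (Complex.imCLM.comp (ContinuousLinearMap.id ℝ ℂ)) z :=
        Complex.imCLM.hasFDerivAt.comp z h1
      rw [ContinuousLinearMap.comp_id] at h4
      exact h4
    exact (hre.const_mul a).add (him.const_mul b)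
  have h3 : HasFDerivAt (fun w : ℂ => ((a * (w - cen).re + b * (w - cen).im) ^ 2)⁻¹)
      ((-2 * (t ^ 3)⁻¹) • (a • Complex.reCLM + b • Complex.imCLM)) z := by
    have hd : HasDerivAt (fun x : ℝ => (x ^ 2)⁻¹) (-2 * (t ^ 3)⁻¹) t := by
      have h4 : HasDerivAt (fun x : ℝ => (x ^ 2)⁻¹) (-(2 * t) / (t ^ 2) ^ 2) t := by
        simpa using (hasDerivAt_pow 2 t).fun_inv (pow_ne_zero 2 hz)
      have h6 : -(2 * t) / (t ^ 2) ^ 2 = -2 * (t ^ 3)⁻¹ := by
        field_simp
      rw [h6] at h4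
      exact h4
    have h7 := hd.comp_hasFDerivAt z h2
    exact h7
  have h5 : HasFDerivAt (fun w : ℂ => cen + ((a * (w - cen).re + b * (w - cen).im) ^ 2)⁻¹ •
      (w - cen)) (((a * (z - cen).re + b * (z - cen).im) ^ 2)⁻¹ • ContinuousLinearMap.id ℝ ℂ +
      ((-2 * (t ^ 3)⁻¹) • (a • Complex.reCLM + b • Complex.imCLM)).smulRight (z - cen)) z :=
    (h3.smul h1).const_add cen
  refine ⟨h5.differentiableAt, ?_⟩
  unfold dv
  rw [h5.fderiv]
  simp only [ContinuousLinearMap.add_apply, ContinuousLinearMap.smul_apply,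
    ContinuousLinearMap.smulRight_apply, ContinuousLinearMap.id_apply, Complex.reCLM_apply,
    Complex.imCLM_apply, smul_eq_mul, one_re, one_im, I_re, I_im, Complex.add_re, Complex.add_im,
    Complex.smul_re, Complex.smul_im, mul_one, mul_zero, add_zero, zero_add]
  have e1 : a * (z - cen).re + b * (z - cen).im = t := rfl
  rw [e1]
  have e2 : (t ^ 2)⁻¹ = t * (t ^ 3)⁻¹ := by field_simp
  rw [e2]
  have e3 : t = a * (z - cen).re + b * (z - cen).im := rfl
  linear_combination (2 * (t ^ 3)⁻¹) * e3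

theorem gfield_div : ∀ᵐ z : ℂ, DifferentiableAt ℝ gfield z ∧ dv gfield z = 0 := by
  have n1 : volume {z : ℂ | 8 * z.re + 8 * z.im = 4} = 0 := null_line 8 8 4 (by norm_num)
  have n2 : volume {z : ℂ | 12 * z.re + -4 * z.im = 4} = 0 := null_line 12 (-4) 4 (by norm_num)
  have n3 : volume {z : ℂ | 4 * z.re + -12 * z.im = 0} = 0 := null_line 4 (-12) 0 (by norm_num)
  have hae : ∀ᵐ z : ℂ, ¬ (8 * z.re + 8 * z.im = 4) ∧ ¬ (12 * z.re + -4 * z.im = 4) ∧
      ¬ (4 * z.re + -12 * z.im = 0) := by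
    rw [ae_iff]
    refine measure_mono_null ?_ (measure_union_null (measure_union_null n1 n2) n3)
    intro z hz
    simp only [mem_ofPred_eq] at hz
    by_contra hcon
    simp only [mem_union, mem_ofPred_eq, not_or] at hcon
    exact hz ⟨hcon.1.1, hcon.1.2, hcon.2⟩
  filter_upwards [hae] with z hz
  obtain ⟨hz1, hz2, hz3⟩ := hz
  -- generic lemma
  have key : ∀ (a b : ℝ), (∀ᶠ w in nhds z, gau w = a * (w - cen).re + b * (w - cen).im) →
      a * (z - cen).re + b * (z - cen).im ≠ 0 →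
      DifferentiableAt ℝ gfield z ∧ dv gfield z = 0 := by
    intro a b he hne
    obtain ⟨hd, hdv⟩ := gfield_lin a b z hne
    have hee : gfield =ᶠ[nhds z] (fun w : ℂ => cen + ((a * (w - cen).re + b * (w - cen).im) ^ 2)⁻¹ •
      (w - cen)) := by
      filter_upwards [he] with w hw
      simp only [gfield, hw]
    refine ⟨hd.congr_of_eventuallyEq hee, ?_⟩
    have hf := hee.fderiv_eq (𝕜 := ℝ)
    unfold dv at hdv ⊢
    rw [hf]
    exact hdv
  have c1 : Continuous (fun w : ℂ => 1 - 8 * w.im) := by fun_prop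
  have c2 : Continuous (fun w : ℂ => 8 * w.re - 3) := by fun_prop
  have c3 : Continuous (fun w : ℂ => 1 - 4 * (w.re - w.im)) := by fun_prop
  rcases lt_or_gt_of_ne (show 1 - 8 * z.im ≠ 8 * z.re - 3 from fun h => hz1 (by linarith)) with
    h12 | h12
  · rcases lt_or_gt_of_ne (show 8 * z.re - 3 ≠ 1 - 4 * (z.re - z.im) from
      fun h => hz2 (by linarith)) with h23 | h23
    · -- third is maximal
      refine key (-4) 4 ?_ ?_
      · have e1 : ∀ᶠ w in nhds z, 1 - 8 * w.im < 1 - 4 * (w.re - w.im) :=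
          (c1.continuousAt.eventually_lt c3.continuousAt
            (show 1 - 8 * z.im < 1 - 4 * (z.re - z.im) by linarith))
        have e2 : ∀ᶠ w in nhds z, 8 * w.re - 3 < 1 - 4 * (w.re - w.im) :=
          (c2.continuousAt.eventually_lt c3.continuousAt h23)
        filter_upwards [e1, e2] with w w1 w2
        rw [gau_eq, max_eq_right (max_le w1.le w2.le), gau_re, gau_im]
        ring
      · rw [gau_re, gau_im]
        intro h
        linarith
    · refine key 8 0 ?_ ?_
      · have e1 : ∀ᶠ w in nhds z, 1 - 8 * w.im < 8 * w.re - 3 :=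
          (c1.continuousAt.eventually_lt c2.continuousAt h12)
        have e2 : ∀ᶠ w in nhds z, 1 - 4 * (w.re - w.im) < 8 * w.re - 3 :=
          (c3.continuousAt.eventually_lt c2.continuousAt h23)
        filter_upwards [e1, e2] with w w1 w2
        rw [gau_eq, max_eq_right w1.le, max_eq_left w2.le, gau_re, gau_im]
        ring
      · rw [gau_re, gau_im]
        intro h
        linarith
  · rcases lt_or_gt_of_ne (show 1 - 8 * z.im ≠ 1 - 4 * (z.re - z.im) from
      fun h => hz3 (by linarith)) with h13 | h13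
    · refine key (-4) 4 ?_ ?_
      · have e1 : ∀ᶠ w in nhds z, 1 - 8 * w.im < 1 - 4 * (w.re - w.im) :=
          (c1.continuousAt.eventually_lt c3.continuousAt h13)
        have e2 : ∀ᶠ w in nhds z, 8 * w.re - 3 < 1 - 4 * (w.re - w.im) :=
          (c2.continuousAt.eventually_lt c3.continuousAt
            (show 8 * z.re - 3 < 1 - 4 * (z.re - z.im) by linarith))
        filter_upwards [e1, e2] with w w1 w2
        rw [gau_eq, max_eq_right (max_le w1.le w2.le), gau_re, gau_im]
        ring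
      · rw [gau_re, gau_im]
        intro h
        linarith
    · refine key 0 (-8) ?_ ?_
      · have e1 : ∀ᶠ w in nhds z, 8 * w.re - 3 < 1 - 8 * w.im :=
          (c2.continuousAt.eventually_lt c1.continuousAt h12)
        have e2 : ∀ᶠ w in nhds z, 1 - 4 * (w.re - w.im) < 1 - 8 * w.im :=
          (c3.continuousAt.eventually_lt c1.continuousAt h13)
        filter_upwards [e1, e2] with w w1 w2
        rw [gau_eq, max_eq_left w1.le, max_eq_left w2.le, gau_re, gau_im]
        ring
      · rw [gau_re, gau_im]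
        intro h
        linarith

theorem null_gau_level (s : ℝ) (hs : 0 < s) : volume {z : ℂ | gau z = s} = 0 := by
  have n1 : volume {z : ℂ | 0 * z.re + -8 * z.im = s - 1} = 0 := null_line 0 (-8) _ (by norm_num)
  have n2 : volume {z : ℂ | 8 * z.re + 0 * z.im = s + 3} = 0 := null_line 8 0 _ (by norm_num)
  have n3 : volume {z : ℂ | -4 * z.re + 4 * z.im = s - 1} = 0 := null_line (-4) 4 _ (by norm_num)
  refine measure_mono_null ?_ (measure_union_null (measure_union_null n1 n2) n3)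
  intro z hz
  simp only [mem_ofPred_eq] at hz
  rw [gau_eq] at hz
  simp only [mem_union, mem_ofPred_eq]
  rcases max_cases (max (1 - 8 * z.im) (8 * z.re - 3)) (1 - 4 * (z.re - z.im)) with h | h
  · rcases max_cases (1 - 8 * z.im) (8 * z.re - 3) with h' | h'
    · left; left
      rw [h.1, h'.1] at hz
      linarith
    · left; right
      rw [h.1, h'.1] at hz
      linarith
  · right
    rw [h.1] at hz
    linarith

theorem volume_tri : volume tri = ENNReal.ofReal (1 / 8) := by
  have hm : MeasurableSet {p : ℝ × ℝ | 0 ≤ p.2 ∧ p.2 ≤ p.1 ∧ p.1 ≤ 1 / 2} := by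
    refine MeasurableSet.inter (measurableSet_le measurable_const measurable_snd)
      (MeasurableSet.inter (measurableSet_le measurable_snd measurable_fst)
        (measurableSet_le measurable_fst measurable_const))
  have h1 : tri = Complex.measurableEquivRealProd ⁻¹'
      {p : ℝ × ℝ | 0 ≤ p.2 ∧ p.2 ≤ p.1 ∧ p.1 ≤ 1 / 2} := by
    ext z
    simp [tri, Complex.measurableEquivRealProd]
  rw [h1, Complex.volume_preserving_equiv_real_prod.measure_preimage hm.nullMeasurableSet]
  rw [Measure.volume_eq_prod, Measure.prod_apply hm]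
  have h2 : ∀ x : ℝ, volume (Prod.mk x ⁻¹' {p : ℝ × ℝ | 0 ≤ p.2 ∧ p.2 ≤ p.1 ∧ p.1 ≤ 1 / 2}) =
      (Set.Icc (0 : ℝ) (1 / 2)).indicator (fun x => ENNReal.ofReal x) x := by
    intro x
    by_cases hx : x ∈ Set.Icc (0 : ℝ) (1 / 2)
    · rw [Set.indicator_of_mem hx]
      have : Prod.mk x ⁻¹' {p : ℝ × ℝ | 0 ≤ p.2 ∧ p.2 ≤ p.1 ∧ p.1 ≤ 1 / 2} = Set.Icc 0 x := by
        ext y
        simp only [mem_preimage, mem_ofPred_eq, mem_Icc]
        exact ⟨fun h => ⟨h.1, h.2.1⟩, fun h => ⟨h.1, h.2, hx.2⟩⟩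
      rw [this, Real.volume_Icc, sub_zero]
    · rw [Set.indicator_of_notMem hx]
      have : Prod.mk x ⁻¹' {p : ℝ × ℝ | 0 ≤ p.2 ∧ p.2 ≤ p.1 ∧ p.1 ≤ 1 / 2} = ∅ := by
        ext y
        simp only [mem_preimage, mem_ofPred_eq, mem_empty_iff_false, iff_false]
        rintro ⟨h1, h2, h3⟩
        exact hx ⟨by linarith, h3⟩
      rw [this, measure_empty]
  rw [lintegral_congr h2, lintegral_indicator measurableSet_Icc]
  rw [← ofReal_integral_eq_lintegral_ofReal]
  · congr 1
    rw [integral_Icc_eq_integral_Ioc, ← intervalIntegral.integral_of_le (by norm_num)]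
    rw [integral_id]
    norm_num
  · exact (continuous_id.integrableOn_Icc)
  · filter_upwards [ae_restrict_mem measurableSet_Icc] with x hx
    exact hx.1

/-- scaled version on `n • tri`: close to the boundary the field is close to the identity,
with constants independent of `n`. -/
theorem gfield_scaled (A : ℝ) (hA : 0 < A) : ∃ (C N₀ : ℝ), 0 < C ∧ 0 < N₀ ∧ ∀ n : ℝ, N₀ ≤ n →
    (∀ z : ℂ, 0 ≤ min (min z.im (n / 2 - z.re)) (z.re - z.im) →
      min (min z.im (n / 2 - z.re)) (z.re - z.im) ≤ A → ‖n * gfield (z / n) - z‖ ≤ C) ∧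
    (∀ z z' : ℂ, 1 / 2 ≤ gau (z / n) → 1 / 2 ≤ gau (z' / n) →
      ‖n * gfield (z / n) - n * gfield (z' / n)‖ ≤ C * ‖z - z'‖) ∧
    (∀ z : ℂ, min (min z.im (n / 2 - z.re)) (z.re - z.im) ≤ A → 1 / 2 ≤ gau (z / n)) := by
  refine ⟨32 * A + 68, 16 * A, by positivity, by positivity, ?_⟩
  intro n hn
  have hn0 : 0 < n := lt_of_lt_of_le (by positivity) hn
  have hnC : (n : ℂ) ≠ 0 := by exact_mod_cast hn0.ne'
  have hre : ∀ z : ℂ, (z / n).re = z.re / n := fun z => Complex.div_ofReal_re z n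
  have him : ∀ z : ℂ, (z / n).im = z.im / n := fun z => Complex.div_ofReal_im z n
  have hlow : ∀ z : ℂ, 1 - 8 * min (min z.im (n / 2 - z.re)) (z.re - z.im) / n ≤ gau (z / n) ∨
      1 - 4 * min (min z.im (n / 2 - z.re)) (z.re - z.im) / n ≤ gau (z / n) := by
    intro z
    have g1 := gau_ge1 (z / n)
    have g2 := gau_ge2 (z / n)
    have g3 := gau_ge3 (z / n)
    rw [him] at g1
    rw [hre] at g2
    rw [hre, him] at g3
    rcases min_cases (min z.im (n / 2 - z.re)) (z.re - z.im) with h | h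
    · rcases min_cases z.im (n / 2 - z.re) with h' | h'
      · left
        rw [h.1, h'.1]
        refine le_trans (le_of_eq ?_) g1
        ring
      · left
        rw [h.1, h'.1]
        refine le_trans (le_of_eq ?_) g2
        field_simp
        ring
    · right
      rw [h.1]
      refine le_trans (le_of_eq ?_) g3
      ring
  have hthird : ∀ z : ℂ, min (min z.im (n / 2 - z.re)) (z.re - z.im) ≤ A →
      1 / 2 ≤ gau (z / n) ∧ 1 - 8 * A / n ≤ gau (z / n) := by
    intro z hz
    have hAn : 8 * A / n ≤ 1 / 2 := by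
      rw [div_le_iff₀ hn0]
      linarith
    have hAn0 : 0 ≤ A / n := by positivity
    have h4 : min (min z.im (n / 2 - z.re)) (z.re - z.im) / n ≤ A / n :=
      div_le_div_of_nonneg_right hz hn0.le
    have h5 : 1 - 8 * A / n ≤ gau (z / n) := by
      rcases hlow z with h | h
      · have : 8 * min (min z.im (n / 2 - z.re)) (z.re - z.im) / n =
          8 * (min (min z.im (n / 2 - z.re)) (z.re - z.im) / n) := by ring
        have : 8 * A / n = 8 * (A / n) := by ring
        linarith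
      · have : 4 * min (min z.im (n / 2 - z.re)) (z.re - z.im) / n =
          4 * (min (min z.im (n / 2 - z.re)) (z.re - z.im) / n) := by ring
        have : 8 * A / n = 8 * (A / n) := by ring
        linarith
    exact ⟨by linarith, h5⟩
  refine ⟨?_, ?_, fun z hz => (hthird z hz).1⟩
  · intro z hz0 hz
    obtain ⟨t1, t2⟩ := hthird z hz
    set g := gau (z / n) with hg
    have hg1 : g ≤ 1 := by
      have m1 : 0 ≤ z.im := hz0.trans ((min_le_left _ _).trans (min_le_left _ _))
      have m2 : 0 ≤ n / 2 - z.re := hz0.trans ((min_le_left _ _).trans (min_le_right _ _))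
      have m3 : 0 ≤ z.re - z.im := hz0.trans (min_le_right _ _)
      rw [hg]
      refine gau_le ?_ ?_ ?_
      · rw [him]
        have : 0 ≤ z.im / n := div_nonneg m1 hn0.le
        linarith
      · rw [hre]
        have : z.re / n ≤ 1 / 2 := by
          rw [div_le_iff₀ hn0]; linarith
        linarith
      · rw [hre, him, ← sub_div]
        have : 0 ≤ (z.re - z.im) / n := div_nonneg m3 hn0.le
        linarith
    have hg0 : 0 < g := by linarith
    have hlw := gau_lower (z / n)
    rw [← hg] at hlw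
    have e : (n : ℂ) * gfield (z / n) - z = (((g ^ 2)⁻¹ - 1 : ℝ) : ℂ) * (n * (z / n - cen)) := by
      simp only [gfield, ← hg, Complex.real_smul]
      push_cast
      field_simp
      ring
    rw [e, norm_mul, norm_mul, Complex.norm_real, Complex.norm_real, Real.norm_eq_abs,
      Real.norm_eq_abs, abs_of_pos hn0]
    have i1 : |(g ^ 2)⁻¹ - 1| ≤ 64 * A / n := by
      have e2 : (g ^ 2)⁻¹ - 1 = (1 - g) * (1 + g) * (g ^ 2)⁻¹ := by
        field_simp; ring
      have i3 : (g ^ 2)⁻¹ ≤ 4 := by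
        rw [inv_le_comm₀ (by positivity) (by norm_num)]
        nlinarith
      rw [e2, abs_of_nonneg (by
        have : 0 ≤ 1 - g := by linarith
        positivity)]
      calc (1 - g) * (1 + g) * (g ^ 2)⁻¹ ≤ (8 * A / n) * 2 * 4 := by
            refine mul_le_mul (mul_le_mul (by linarith) (by linarith) (by linarith) (by positivity))
              i3 (by positivity) (by positivity)
        _ = 64 * A / n := by ring
    calc |(g ^ 2)⁻¹ - 1| * (n * ‖z / n - cen‖) ≤ (64 * A / n) * (n * (1 / 2)) := by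
          refine mul_le_mul i1 (mul_le_mul_of_nonneg_left (by linarith) hn0.le) (by positivity)
            (by positivity)
      _ = 32 * A := by field_simp; norm_num
      _ ≤ 32 * A + 68 := by linarith
  · intro z z' hz hz'
    have h1 := gfield_lip_aux (by norm_num : (0 : ℝ) < 1 / 2) (z / n) (z' / n) hz hz'
    rw [← mul_sub, norm_mul, Complex.norm_real, Real.norm_eq_abs, abs_of_pos hn0]
    have h2 : ‖z / n - z' / n‖ = ‖z - z'‖ / n := by
      rw [← sub_div, norm_div, Complex.norm_real, Real.norm_eq_abs, abs_of_pos hn0]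
    rw [h2] at h1
    calc n * ‖gfield (z / n) - gfield (z' / n)‖ ≤ n * (17 / (1 / 2) ^ 2 * (‖z - z'‖ / n)) :=
          mul_le_mul_of_nonneg_left h1 hn0.le
      _ = 68 * ‖z - z'‖ := by field_simp; ring
      _ ≤ (32 * A + 68) * ‖z - z'‖ := by
          refine mul_le_mul_of_nonneg_right (by linarith) (norm_nonneg _)

end EBC
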