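import Mathlib

open MeasureTheory Complex Set
open scoped ContDiff ComplexConjugate NNReal

noncomputable section
namespace EBC

theorem lipschitz_glue_lf {E : Type*} [NormedAddCommGroup E] {ι : Type*}
    {A : ι → Set ℂ} (hlf : LocallyFinite A) (hc : ∀ i, IsClosed (A i))
    (hx : ∀ i, Convex ℝ (A i)) (hcov : ⋃ i, A i = univ)
    {g : ℂ → E} {K : ℝ≥0} (hg : ∀ i, LipschitzOnWith K g (A i)) : LipschitzWith K g := by
  have hcont : Continuous g :=
    hlf.continuous hcov hc (fun i => (hg i).continuousOn)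
  refine LipschitzWith.of_dist_le_mul ?_
  intro x y
  set γ : ℝ → ℂ := fun t => x + t • (y - x) with hγ
  have hγc : Continuous γ := by fun_prop
  set S : Set ℝ := {t | dist (g (γ t)) (g x) ≤ K * (t * dist y x)} with hS
  have hSc : IsClosed S := by
    refine isClosed_le ?_ ?_
    · exact (hcont.comp hγc).dist continuous_const
    · fun_prop
  have hsub : Set.Icc (0 : ℝ) 1 ⊆ S := by
    refine IsClosed.Icc_subset_of_forall_exists_gt ?_ ?_ ?_
    · exact hSc.inter isClosed_Icc
    · simp [hS, hγ]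
    · rintro t ⟨htS, ht0, ht1⟩ y' hy'
      -- some member of the family is met frequently on the right of t
      obtain ⟨i, hi⟩ : ∃ i, ∃ᶠ s in nhdsWithin t (Set.Ioi t), γ s ∈ A i := by
        by_contra hcon
        push Not at hcon
        obtain ⟨U, hU, hfin⟩ := hlf (γ t)
        have h1 : ∀ᶠ s in nhdsWithin t (Set.Ioi t), γ s ∈ U :=
          (hγc.continuousAt (x := t)).continuousWithinAt.eventually_mem hU
        have h2 : ∀ᶠ s in nhdsWithin t (Set.Ioi t), ∀ i ∈ {i | (A i ∩ U).Nonempty}, γ s ∉ A i := by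
          rw [Filter.eventually_all_finite hfin]
          intro i _
          exact hcon i
        obtain ⟨s, hs1, hs2⟩ := (h1.and h2).exists
        have hs3 : γ s ∈ ⋃ i, A i := by rw [hcov]; trivial
        obtain ⟨j, hj⟩ := Set.mem_iUnion.mp hs3
        exact hs2 j ⟨γ s, hj, hs1⟩ hj
      have hti : γ t ∈ A i := by
        have h1 : Filter.Tendsto γ (nhdsWithin t (Set.Ioi t)) (nhds (γ t)) :=
          (hγc.continuousAt (x := t)).continuousWithinAt
        rw [← (hc i).closure_eq]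
        exact mem_closure_of_frequently_of_tendsto hi h1
      have h3 : ∀ᶠ s in nhdsWithin t (Set.Ioi t), s ∈ Set.Ioc t y' :=
        Ioc_mem_nhdsGT hy'
      obtain ⟨s, hs1, hs2⟩ := (hi.and_eventually h3).exists
      refine ⟨s, ?_, hs2⟩
      have h4 := (hg i).dist_le_mul _ hs1 _ hti
      have h5 : dist (γ s) (γ t) = (s - t) * dist y x := by
        rw [dist_eq_norm, dist_eq_norm]
        have : γ s - γ t = (s - t) • (y - x) := by
          simp only [hγ]
          module
        rw [this, norm_smul, Real.norm_eq_abs, abs_of_nonneg (by linarith [hs2.1])]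
      rw [h5] at h4
      simp only [hS, mem_ofPred_eq] at htS ⊢
      calc dist (g (γ s)) (g x) ≤ dist (g (γ s)) (g (γ t)) + dist (g (γ t)) (g x) :=
            dist_triangle _ _ _
        _ ≤ K * ((s - t) * dist y x) + K * (t * dist y x) := add_le_add h4 htS
        _ = K * (s * dist y x) := by ring
  have h1 := hsub (Set.right_mem_Icc.mpr zero_le_one)
  simp only [hS, mem_ofPred_eq, hγ, one_smul, one_mul, add_sub_cancel] at h1
  rw [dist_comm, dist_comm x y]
  exact h1

/-- A Lipschitz gluing lemma: if the plane is covered by finitely many closed convex sets and `g`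
is `K`-Lipschitz on each of them, then `g` is `K`-Lipschitz. -/
theorem lipschitz_glue {E : Type*} [NormedAddCommGroup E] [NormedSpace ℝ E] {ι : Type} [Finite ι]
    {A : ι → Set ℂ} (hc : ∀ i, IsClosed (A i)) (hx : ∀ i, Convex ℝ (A i)) (hcov : ⋃ i, A i = univ)
    {g : ℂ → E} {K : ℝ≥0} (hg : ∀ i, LipschitzOnWith K g (A i)) : LipschitzWith K g :=
  lipschitz_glue_lf (locallyFinite_of_finite A) hc hx hcov hg

theorem c11_glue_lf {E : Type*} [NormedAddCommGroup E] [NormedSpace ℝ E]
    {ι : Type*} {A : ι → Set ℂ} (hlf : LocallyFinite A) (hc : ∀ i, IsClosed (A i))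
    (hx : ∀ i, Convex ℝ (A i)) (hcov : ⋃ i, A i = univ)
    {F : ℂ → E} {f : ι → ℂ → E} (hf : ∀ i, ContDiff ℝ 1 (f i)) (hF : ∀ i, ∀ z ∈ A i, F z = f i z)
    {K : ℝ≥0} (hK : ∀ i, LipschitzOnWith K (fderiv ℝ (f i)) (A i))
    (hd : ∀ i j, ∀ z ∈ A i ∩ A j, fderiv ℝ (f i) z = fderiv ℝ (f j) z) :
    ContDiff ℝ 1 F ∧ LipschitzWith K (fderiv ℝ F) ∧
      ∀ i, ∀ z ∈ A i, fderiv ℝ F z = fderiv ℝ (f i) z := by
  have hder : ∀ i, ∀ z ∈ A i, HasFDerivAt F (fderiv ℝ (f i) z) z := by
    intro i z hz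
    rw [hasFDerivAt_iff_isLittleO, Asymptotics.isLittleO_iff]
    intro c hcpos
    obtain ⟨U, hU, hfin⟩ := hlf z
    have h1 : ∀ᶠ w in nhds z, w ∈ U := hU
    have h2 : ∀ᶠ w in nhds z, ∀ j ∈ {j | (A j ∩ U).Nonempty}, w ∈ A j →
        ‖F w - F z - (fderiv ℝ (f i) z) (w - z)‖ ≤ c * ‖w - z‖ := by
      rw [Filter.eventually_all_finite hfin]
      intro j _
      by_cases hzj : z ∈ A j
      · have h3 : HasFDerivAt (f j) (fderiv ℝ (f j) z) z :=
          (((hf j).differentiable one_ne_zero) z).hasFDerivAt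
        rw [hasFDerivAt_iff_isLittleO, Asymptotics.isLittleO_iff] at h3
        filter_upwards [h3 hcpos] with w hw hwj
        rw [hF j w hwj, hF j z hzj, hd i j z ⟨hz, hzj⟩]
        exact hw
      · have h3 : (A j)ᶜ ∈ nhds z := (hc j).isOpen_compl.mem_nhds hzj
        filter_upwards [h3] with w hw hwj
        exact absurd hwj hw
    filter_upwards [h1, h2] with w hw1 hw2
    have hw3 : w ∈ ⋃ i, A i := by rw [hcov]; trivial
    obtain ⟨j, hj⟩ := Set.mem_iUnion.mp hw3
    exact hw2 j ⟨w, hj, hw1⟩ hj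
  have hfd : ∀ i, ∀ z ∈ A i, fderiv ℝ F z = fderiv ℝ (f i) z := fun i z hz => (hder i z hz).fderiv
  have hdiff : Differentiable ℝ F := by
    intro z
    have hz : z ∈ ⋃ i, A i := by rw [hcov]; trivial
    obtain ⟨j, hj⟩ := Set.mem_iUnion.mp hz
    exact (hder j z hj).differentiableAt
  have hlip : LipschitzWith K (fderiv ℝ F) := by
    refine lipschitz_glue_lf hlf hc hx hcov ?_
    intro i z hz w hw
    rw [hfd i z hz, hfd i w hw]
    exact hK i hz hw
  exact ⟨contDiff_one_iff_fderiv.mpr ⟨hdiff, hlip.continuous⟩, hlip, hfd⟩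

/-- `C^{1,1}` gluing: `F` equals the `C¹` function `f i` on the closed convex set `A i`, the
derivative of `f i` is `K`-Lipschitz on `A i`, and the derivatives agree on the overlaps. -/
theorem c11_glue {E : Type*} [NormedAddCommGroup E] [NormedSpace ℝ E] [FiniteDimensional ℝ E]
    {ι : Type} [Finite ι]
    {A : ι → Set ℂ} (hc : ∀ i, IsClosed (A i)) (hx : ∀ i, Convex ℝ (A i)) (hcov : ⋃ i, A i = univ)
    {F : ℂ → E} {f : ι → ℂ → E} (hf : ∀ i, ContDiff ℝ 1 (f i)) (hF : ∀ i, ∀ z ∈ A i, F z = f i z)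
    {K : ℝ≥0} (hK : ∀ i, LipschitzOnWith K (fderiv ℝ (f i)) (A i))
    (hd : ∀ i j, ∀ z ∈ A i ∩ A j, fderiv ℝ (f i) z = fderiv ℝ (f j) z) :
    ContDiff ℝ 1 F ∧ LipschitzWith K (fderiv ℝ F) ∧
      ∀ i, ∀ z ∈ A i, fderiv ℝ F z = fderiv ℝ (f i) z :=
  c11_glue_lf (locallyFinite_of_finite A) hc hx hcov hf hF hK hd

/-- periodic version: a function which is piecewise (on the translates of a bounded closed
convex set) `C^{1,1}` with matching derivatives. -/
theorem c11_glue_per {ι : Type} [Countable ι] {P : Set ℂ} (hPc : IsClosed P) (hPx : Convex ℝ P)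
    {c : ι → ℂ} (hcov : ∀ z, ∃ i, z - c i ∈ P)
    (hlf : LocallyFinite fun i => {z : ℂ | z - c i ∈ P})
    {F f : ℂ → ℂ} (hf : ContDiff ℝ 1 f) (hF : ∀ i z, z - c i ∈ P → F z = f (z - c i))
    {K : ℝ≥0} (hK : LipschitzWith K (fderiv ℝ f))
    (hd : ∀ i j z, z - c i ∈ P → z - c j ∈ P →
      fderiv ℝ f (z - c i) = fderiv ℝ f (z - c j)) :
    ContDiff ℝ 1 F ∧ LipschitzWith K (fderiv ℝ F) ∧
      ∀ i z, z - c i ∈ P → fderiv ℝ F z = fderiv ℝ f (z - c i) := by
  have hfd : ∀ i z, fderiv ℝ (fun w => f (w - c i)) z = fderiv ℝ f (z - c i) := fun i z =>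
    fderiv_comp_sub (c i)
  have h := c11_glue_lf (A := fun i => {z : ℂ | z - c i ∈ P}) (F := F)
    (f := fun i z => f (z - c i)) (K := K) hlf
    (fun i => hPc.preimage (continuous_id.sub continuous_const))
    (fun i => by
      have := hPx.affine_preimage ((AffineMap.id ℝ ℂ) - AffineMap.const ℝ ℂ (c i))
      exact this)
    (by
      ext z
      simp only [mem_iUnion, mem_ofPred_eq, mem_univ, iff_true]
      exact hcov z)
    (fun i => hf.comp (contDiff_id.sub contDiff_const))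
    (fun i z hz => hF i z hz)
    (fun i => by
      intro z _ w _
      rw [hfd, hfd]
      have := hK (z - c i) (w - c i)
      rwa [edist_sub_right] at this)
    (fun i j z hz => by
      rw [hfd, hfd]
      exact hd i j z hz.1 hz.2)
  refine ⟨h.1, h.2.1, ?_⟩
  intro i z hz
  rw [h.2.2 i z hz, hfd]

end EBC
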