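import Pool.Agent.Work.MP_ebc928_an.BaseDefs

open MeasureTheory Complex Set
open scoped ContDiff ComplexConjugate

noncomputable section
namespace EBC

namespace GridAux

/-- hat function -/
def hat (t : ℝ) : ℝ := max 0 (1 - |t|)

theorem hat_nonneg (t : ℝ) : 0 ≤ hat t := le_max_left _ _
theorem hat_le_one (t : ℝ) : hat t ≤ 1 := max_le zero_le_one (by linarith [abs_nonneg t])
theorem hat_lip (t t' : ℝ) : |hat t - hat t'| ≤ |t - t'| := by
  unfold hat
  have h := abs_max_sub_max_le_max 0 (1 - |t|) 0 (1 - |t'|)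
  refine h.trans ?_
  rw [sub_self, abs_zero]
  refine max_le (abs_nonneg _) ?_
  have e : 1 - |t| - (1 - |t'|) = -(|t| - |t'|) := by ring
  rw [e, abs_neg]
  exact abs_abs_sub_abs_le_abs_sub t t'
theorem hat_zero {t : ℝ} (h : 1 ≤ |t|) : hat t = 0 := max_eq_left (by linarith)
theorem hat_ne {t : ℝ} (h : hat t ≠ 0) : |t| < 1 := by
  by_contra hcon
  exact h (hat_zero (not_lt.mp hcon))

/-- cutoff on `[0, L]` -/
def kap (r L t : ℝ) : ℝ := max 0 (min 1 (min (2 * t / r) (2 * (L - t) / r)))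

theorem kap_nonneg (r L t : ℝ) : 0 ≤ kap r L t := le_max_left _ _
theorem kap_le_one (r L t : ℝ) : kap r L t ≤ 1 := max_le zero_le_one (min_le_left _ _)
theorem kap_lip {r : ℝ} (hr : 0 < r) (L t t' : ℝ) :
    |kap r L t - kap r L t'| ≤ 2 / r * |t - t'| := by
  unfold kap
  have h := abs_max_sub_max_le_max 0 (min 1 (min (2 * t / r) (2 * (L - t) / r))) 0
    (min 1 (min (2 * t' / r) (2 * (L - t') / r)))
  have h2 := abs_min_sub_min_le_max 1 (min (2 * t / r) (2 * (L - t) / r)) 1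
    (min (2 * t' / r) (2 * (L - t') / r))
  have h3 := abs_min_sub_min_le_max (2 * t / r) (2 * (L - t) / r) (2 * t' / r) (2 * (L - t') / r)
  have hpos : 0 ≤ 2 / r * |t - t'| := by positivity
  have e1 : |2 * t / r - 2 * t' / r| = 2 / r * |t - t'| := by
    have : 2 * t / r - 2 * t' / r = 2 / r * (t - t') := by ring
    rw [this, abs_mul, abs_of_pos (by positivity : 0 < 2 / r)]
  have e2 : |2 * (L - t) / r - 2 * (L - t') / r| = 2 / r * |t - t'| := by
    have : 2 * (L - t) / r - 2 * (L - t') / r = -(2 / r * (t - t')) := by ring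
    rw [this, abs_neg, abs_mul, abs_of_pos (by positivity : 0 < 2 / r)]
  rw [e1, e2, max_self] at h3
  rw [sub_self, abs_zero] at h h2
  exact h.trans (max_le hpos (h2.trans (max_le hpos h3)))
theorem kap_zero_left {r : ℝ} (hr : 0 < r) {L t : ℝ} (h : t ≤ 0) : kap r L t = 0 := by
  refine max_eq_left ((min_le_right _ _).trans ((min_le_left _ _).trans ?_))
  exact div_nonpos_of_nonpos_of_nonneg (by linarith) hr.le
theorem kap_zero_right {r : ℝ} (hr : 0 < r) {L t : ℝ} (h : L ≤ t) : kap r L t = 0 := by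
  refine max_eq_left ((min_le_right _ _).trans ((min_le_right _ _).trans ?_))
  exact div_nonpos_of_nonpos_of_nonneg (by linarith) hr.le
theorem kap_ne {r : ℝ} (hr : 0 < r) {L t : ℝ} (h : kap r L t ≠ 0) : 0 < t ∧ t < L := by
  constructor
  · by_contra hcon; exact h (kap_zero_left hr (not_lt.mp hcon))
  · by_contra hcon; exact h (kap_zero_right hr (not_lt.mp hcon))
theorem kap_one {r : ℝ} (hr : 0 < r) {L t : ℝ} (h1 : r / 2 ≤ t) (h2 : t ≤ L - r / 2) :
    kap r L t = 1 := by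
  have e1 : 1 ≤ 2 * t / r := by rw [le_div_iff₀ hr]; linarith
  have e2 : 1 ≤ 2 * (L - t) / r := by rw [le_div_iff₀ hr]; linarith
  unfold kap
  rw [min_eq_left (le_min e1 e2), max_eq_right zero_le_one]

/-- clamp to `[c, c + L]` -/
def clp (c L x : ℝ) : ℝ := max c (min x (c + L))

theorem clp_lip (c L x x' : ℝ) : |clp c L x - clp c L x'| ≤ |x - x'| := by
  unfold clp
  have h := abs_max_sub_max_le_max c (min x (c + L)) c (min x' (c + L))
  have h2 := abs_min_sub_min_le_max x (c + L) x' (c + L)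
  rw [sub_self, abs_zero] at h h2
  exact h.trans (max_le (abs_nonneg _) (h2.trans (max_le le_rfl (abs_nonneg _))))
theorem clp_ge (c L x : ℝ) : c ≤ clp c L x := le_max_left _ _
theorem clp_le {L : ℝ} (hL : 0 ≤ L) (c x : ℝ) : clp c L x ≤ c + L :=
  max_le (by linarith) (min_le_right _ _)
theorem clp_eq {c L x : ℝ} (h1 : c ≤ x) (h2 : x ≤ c + L) : clp c L x = x := by
  unfold clp
  rw [min_eq_left h2, max_eq_right h1]

/-- coordinates -/
def X (p₀ e z : ℂ) : ℝ := (conj e * (z - p₀)).re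
def Y (p₀ e z : ℂ) : ℝ := (conj e * (z - p₀)).im
def P (p₀ e : ℂ) (s y : ℝ) : ℂ := p₀ + e * (s + y * I)

theorem conj_mul_self' {e : ℂ} (he : ‖e‖ = 1) : conj e * e = 1 := by
  rw [mul_comm, Complex.mul_conj, Complex.normSq_eq_norm_sq, he]; norm_num

theorem P_XY (p₀ : ℂ) {e : ℂ} (he : ‖e‖ = 1) (z : ℂ) : P p₀ e (X p₀ e z) (Y p₀ e z) = z := by
  unfold P X Y
  rw [Complex.re_add_im]
  have := conj_mul_self' he
  linear_combination (z - p₀) * this

theorem X_sub_le (p₀ : ℂ) {e : ℂ} (he : ‖e‖ = 1) (z z' : ℂ) :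
    |X p₀ e z - X p₀ e z'| ≤ dist z z' := by
  have e1 : X p₀ e z - X p₀ e z' = (conj e * (z - z')).re := by
    unfold X
    rw [← Complex.sub_re]; congr 1; ring
  rw [e1]
  refine (Complex.abs_re_le_norm _).trans ?_
  rw [norm_mul, Complex.norm_conj, he, one_mul, dist_eq_norm]
theorem Y_sub_le (p₀ : ℂ) {e : ℂ} (he : ‖e‖ = 1) (z z' : ℂ) :
    |Y p₀ e z - Y p₀ e z'| ≤ dist z z' := by
  have e1 : Y p₀ e z - Y p₀ e z' = (conj e * (z - z')).im := by
    unfold Y
    rw [← Complex.sub_im]; congr 1; ring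
  rw [e1]
  refine (Complex.abs_im_le_norm _).trans ?_
  rw [norm_mul, Complex.norm_conj, he, one_mul, dist_eq_norm]

theorem dist_P (p₀ : ℂ) {e : ℂ} (he : ‖e‖ = 1) (s y s' y' : ℝ) :
    dist (P p₀ e s y) (P p₀ e s' y') ^ 2 = (s - s') ^ 2 + (y - y') ^ 2 := by
  rw [dist_eq_norm]
  have e1 : P p₀ e s y - P p₀ e s' y' = e * (((s - s' : ℝ) : ℂ) + ((y - y' : ℝ) : ℂ) * I) := by
    unfold P; push_cast; ring
  rw [e1, norm_mul, he, one_mul, ← Complex.normSq_eq_norm_sq, Complex.normSq_add_mul_I]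

theorem X_P (p₀ : ℂ) {e : ℂ} (he : ‖e‖ = 1) (s y : ℝ) : X p₀ e (P p₀ e s y) = s := by
  have h := conj_mul_self' he
  have e1 : conj e * (P p₀ e s y - p₀) = (s : ℂ) + y * I := by
    unfold P; linear_combination ((s : ℂ) + y * I) * h
  unfold X
  rw [e1]; simp
theorem Y_P (p₀ : ℂ) {e : ℂ} (he : ‖e‖ = 1) (s y : ℝ) : Y p₀ e (P p₀ e s y) = y := by
  have h := conj_mul_self' he
  have e1 : conj e * (P p₀ e s y - p₀) = (s : ℂ) + y * I := by
    unfold P; linear_combination ((s : ℂ) + y * I) * h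
  unfold Y
  rw [e1]; simp

theorem continuous_P (p₀ e : ℂ) (y : ℝ) : Continuous (fun s : ℝ => P p₀ e s y) := by
  unfold P; fun_prop

/-- primitive along the line -/
def Gf (p₀ e : ℂ) (L : ℝ) (f : ℂ → ℝ) (c : ℝ) (z : ℂ) : ℝ :=
  ∫ s in c..(clp c L (X p₀ e z)), f (P p₀ e s (Y p₀ e z))

theorem Gf_bound (p₀ e : ℂ) {L : ℝ} (hL : 0 ≤ L) (f : ℂ → ℝ) {M : ℝ} (hM0 : 0 ≤ M)
    (hM : ∀ z, |f z| ≤ M) (c : ℝ) (z : ℂ) : |Gf p₀ e L f c z| ≤ L * M := by
  have h := intervalIntegral.norm_integral_le_of_norm_le_const (a := c)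
    (b := clp c L (X p₀ e z)) (f := fun s => f (P p₀ e s (Y p₀ e z))) (C := M)
    (fun s _ => hM _)
  rw [Real.norm_eq_abs] at h
  refine h.trans ?_
  rw [abs_of_nonneg (by linarith [clp_ge c L (X p₀ e z)]), mul_comm]
  refine mul_le_mul_of_nonneg_right ?_ hM0
  linarith [clp_le hL c (X p₀ e z)]

theorem Gf_lip (p₀ : ℂ) {e : ℂ} (he : ‖e‖ = 1) {L : ℝ} (hL : 0 ≤ L) (f : ℂ → ℝ) {K M : ℝ}
    (hM0 : 0 ≤ M) (hK0 : 0 ≤ K) (hf : Continuous f) (hK : ∀ z z', |f z - f z'| ≤ K * dist z z')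
    (hM : ∀ z, |f z| ≤ M) (c : ℝ) (z z' : ℂ) :
    |Gf p₀ e L f c z - Gf p₀ e L f c z'| ≤ (M + L * K) * dist z z' := by
  have hint : ∀ (y a b : ℝ), IntervalIntegrable (fun s => f (P p₀ e s y)) volume a b := fun y a b =>
    (hf.comp (continuous_P p₀ e y)).intervalIntegrable a b
  have e1 : Gf p₀ e L f c z - Gf p₀ e L f c z' =
      (∫ s in (clp c L (X p₀ e z'))..(clp c L (X p₀ e z)), f (P p₀ e s (Y p₀ e z))) +
      ∫ s in c..(clp c L (X p₀ e z')), (f (P p₀ e s (Y p₀ e z)) - f (P p₀ e s (Y p₀ e z'))) := by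
    unfold Gf
    rw [intervalIntegral.integral_sub (hint _ _ _) (hint _ _ _),
      ← intervalIntegral.integral_add_adjacent_intervals (hint (Y p₀ e z) c (clp c L (X p₀ e z')))
        (hint (Y p₀ e z) (clp c L (X p₀ e z')) (clp c L (X p₀ e z)))]
    ring
  rw [e1]
  have b1 : |∫ s in (clp c L (X p₀ e z'))..(clp c L (X p₀ e z)), f (P p₀ e s (Y p₀ e z))| ≤
      M * dist z z' := by
    have h := intervalIntegral.norm_integral_le_of_norm_le_const (a := clp c L (X p₀ e z'))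
      (b := clp c L (X p₀ e z)) (f := fun s => f (P p₀ e s (Y p₀ e z))) (C := M)
      (fun s _ => hM _)
    rw [Real.norm_eq_abs] at h
    exact h.trans (mul_le_mul_of_nonneg_left ((clp_lip c L _ _).trans (X_sub_le p₀ he z z')) hM0)
  have b2 : |∫ s in c..(clp c L (X p₀ e z')), (f (P p₀ e s (Y p₀ e z)) -
      f (P p₀ e s (Y p₀ e z')))| ≤ (L * K) * dist z z' := by
    have h := intervalIntegral.norm_integral_le_of_norm_le_const (a := c)
      (b := clp c L (X p₀ e z')) (f := fun s => f (P p₀ e s (Y p₀ e z)) -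
      f (P p₀ e s (Y p₀ e z'))) (C := K * dist z z')
      (fun s _ => by
        rw [Real.norm_eq_abs]
        refine (hK _ _).trans (mul_le_mul_of_nonneg_left ?_ hK0)
        have h2 := dist_P p₀ he s (Y p₀ e z) s (Y p₀ e z')
        have h3 := Y_sub_le p₀ he z z'
        refine le_of_sq_le_sq ?_ dist_nonneg
        rw [h2, sub_self]
        have h4 : (Y p₀ e z - Y p₀ e z') ^ 2 = |Y p₀ e z - Y p₀ e z'| ^ 2 := (sq_abs _).symm
        rw [h4]
        nlinarith [abs_nonneg (Y p₀ e z - Y p₀ e z'), dist_nonneg (x := z) (y := z')])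
    rw [Real.norm_eq_abs] at h
    refine h.trans ?_
    rw [abs_of_nonneg (by linarith [clp_ge c L (X p₀ e z')])]
    have h5 : clp c L (X p₀ e z') - c ≤ L := by linarith [clp_le hL c (X p₀ e z')]
    calc K * dist z z' * (clp c L (X p₀ e z') - c) ≤ K * dist z z' * L :=
          mul_le_mul_of_nonneg_left h5 (mul_nonneg hK0 dist_nonneg)
      _ = L * K * dist z z' := by ring
  refine (abs_add_le _ _).trans ((add_le_add b1 b2).trans (le_of_eq ?_))
  ring

/-- one term of the corrector -/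
def Tm (p₀ e : ℂ) (a b L r : ℝ) (f : ℂ → ℝ) (i : ℤ × ℤ) (z : ℂ) : ℝ :=
  hat (Y p₀ e z / b - i.1) * kap r L (X p₀ e z - (i.1 * a + i.2 * L)) *
    Gf p₀ e L f (i.1 * a + i.2 * L) z

theorem Tm_bound (p₀ e : ℂ) (a b : ℝ) {L r : ℝ} (hL : 0 ≤ L) (f : ℂ → ℝ) {M : ℝ} (hM0 : 0 ≤ M)
    (hM : ∀ z, |f z| ≤ M) (i : ℤ × ℤ) (z : ℂ) : |Tm p₀ e a b L r f i z| ≤ L * M := by
  unfold Tm
  rw [abs_mul, abs_mul, abs_of_nonneg (hat_nonneg _), abs_of_nonneg (kap_nonneg _ _ _)]
  have h1 := Gf_bound p₀ e hL f hM0 hM (i.1 * a + i.2 * L) z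
  have h2 := hat_le_one (Y p₀ e z / b - i.1)
  have h3 := kap_le_one r L (X p₀ e z - (i.1 * a + i.2 * L))
  have h4 := hat_nonneg (Y p₀ e z / b - i.1)
  have h5 := kap_nonneg r L (X p₀ e z - (i.1 * a + i.2 * L))
  calc _ ≤ 1 * 1 * (L * M) := mul_le_mul (mul_le_mul h2 h3 h5 zero_le_one) h1 (abs_nonneg _)
        (by norm_num)
    _ = L * M := by ring

theorem Tm_lip (p₀ : ℂ) {e : ℂ} (he : ‖e‖ = 1) (a : ℝ) {b L r : ℝ} (hb : 0 < b) (hr : 0 < r)
    (hL : 0 ≤ L) (f : ℂ → ℝ) {K M : ℝ}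
    (hM0 : 0 ≤ M) (hK0 : 0 ≤ K) (hf : Continuous f) (hK : ∀ z z', |f z - f z'| ≤ K * dist z z')
    (hM : ∀ z, |f z| ≤ M) (i : ℤ × ℤ) (z z' : ℂ) :
    |Tm p₀ e a b L r f i z - Tm p₀ e a b L r f i z'| ≤
      (L / b * M + 2 * L / r * M + M + L * K) * dist z z' := by
  unfold Tm
  set A := hat (Y p₀ e z / b - i.1)
  set A' := hat (Y p₀ e z' / b - i.1)
  set B := kap r L (X p₀ e z - (i.1 * a + i.2 * L))
  set B' := kap r L (X p₀ e z' - (i.1 * a + i.2 * L))
  set G := Gf p₀ e L f (i.1 * a + i.2 * L) z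
  set G' := Gf p₀ e L f (i.1 * a + i.2 * L) z'
  have hA : |A - A'| ≤ 1 / b * dist z z' := by
    refine (hat_lip _ _).trans ?_
    have e1 : Y p₀ e z / b - i.1 - (Y p₀ e z' / b - i.1) = 1 / b * (Y p₀ e z - Y p₀ e z') := by ring
    rw [e1, abs_mul, abs_of_pos (by positivity : 0 < 1 / b)]
    exact mul_le_mul_of_nonneg_left (Y_sub_le p₀ he z z') (by positivity)
  have hB : |B - B'| ≤ 2 / r * dist z z' := by
    refine (kap_lip hr L _ _).trans ?_
    have e1 : X p₀ e z - (i.1 * a + i.2 * L) - (X p₀ e z' - (i.1 * a + i.2 * L)) =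
      X p₀ e z - X p₀ e z' := by ring
    rw [e1]
    exact mul_le_mul_of_nonneg_left (X_sub_le p₀ he z z') (by positivity)
  have hG : |G - G'| ≤ (M + L * K) * dist z z' := Gf_lip p₀ he hL f hM0 hK0 hf hK hM _ z z'
  have hGb : |G| ≤ L * M := Gf_bound p₀ e hL f hM0 hM _ z
  have hA0 : 0 ≤ A' := hat_nonneg _
  have hA1 : A' ≤ 1 := hat_le_one _
  have hB0 : 0 ≤ B := kap_nonneg _ _ _
  have hB1 : B ≤ 1 := kap_le_one _ _ _
  have hB0' : 0 ≤ B' := kap_nonneg _ _ _
  have hB1' : B' ≤ 1 := kap_le_one _ _ _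
  have e1 : A * B * G - A' * B' * G' = (A - A') * B * G + A' * (B - B') * G + A' * B' * (G - G') := by
    ring
  rw [e1]
  have hd : 0 ≤ dist z z' := dist_nonneg
  have t1 : |(A - A') * B * G| ≤ (1 / b * dist z z') * 1 * (L * M) := by
    rw [abs_mul, abs_mul, abs_of_nonneg hB0]
    exact mul_le_mul (mul_le_mul hA hB1 hB0 (by positivity)) hGb (abs_nonneg _) (by positivity)
  have t2 : |A' * (B - B') * G| ≤ 1 * (2 / r * dist z z') * (L * M) := by
    rw [abs_mul, abs_mul, abs_of_nonneg hA0]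
    exact mul_le_mul (mul_le_mul hA1 hB (abs_nonneg _) zero_le_one) hGb (abs_nonneg _)
      (by positivity)
  have t3 : |A' * B' * (G - G')| ≤ 1 * 1 * ((M + L * K) * dist z z') := by
    rw [abs_mul, abs_mul, abs_of_nonneg hA0, abs_of_nonneg hB0']
    exact mul_le_mul (mul_le_mul hA1 hB1' hB0' zero_le_one) hG (abs_nonneg _) (by norm_num)
  refine (abs_add_le _ _).trans ((add_le_add ((abs_add_le _ _).trans (add_le_add t1 t2)) t3).trans
    (le_of_eq ?_))
  ring

/-- indices of the possibly non vanishing terms -/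
def idx (p₀ e : ℂ) (a b L : ℝ) (z : ℂ) : Finset (ℤ × ℤ) :=
  {(⌊Y p₀ e z / b⌋, ⌊(X p₀ e z - (⌊Y p₀ e z / b⌋ : ℤ) * a) / L⌋),
    (⌊Y p₀ e z / b⌋ + 1, ⌊(X p₀ e z - ((⌊Y p₀ e z / b⌋ + 1 : ℤ) : ℝ) * a) / L⌋)}

theorem idx_card (p₀ e : ℂ) (a b L : ℝ) (z : ℂ) : (idx p₀ e a b L z).card ≤ 2 :=
  Finset.card_le_two

theorem hat_int {t : ℝ} {j : ℤ} (h : hat (t - j) ≠ 0) : j = ⌊t⌋ ∨ j = ⌊t⌋ + 1 := by
  have h1 := abs_lt.mp (hat_ne h)
  have h2 : (j : ℝ) < ⌊t⌋ + 2 := by
    have := Int.lt_floor_add_one t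
    linarith [h1.1]
  have h3 : (⌊t⌋ : ℝ) - 1 < j := by
    have := Int.floor_le t
    linarith [h1.2]
  have h4 : j < ⌊t⌋ + 2 := by exact_mod_cast h2
  have h5 : ⌊t⌋ - 1 < j := by exact_mod_cast h3
  omega

theorem Tm_zero (p₀ e : ℂ) (a : ℝ) {b L r : ℝ} (hr : 0 < r) (hL : 0 < L) (f : ℂ → ℝ)
    (z : ℂ) (i : ℤ × ℤ) (hi : i ∉ idx p₀ e a b L z) : Tm p₀ e a b L r f i z = 0 := by
  by_contra hne
  have hA : hat (Y p₀ e z / b - i.1) ≠ 0 := by
    intro h; apply hne; unfold Tm; rw [h]; ring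
  have hB : kap r L (X p₀ e z - (i.1 * a + i.2 * L)) ≠ 0 := by
    intro h; apply hne; unfold Tm; rw [h]; ring
  have h1 := kap_ne hr hB
  have h2 : i.2 = ⌊(X p₀ e z - (i.1 : ℝ) * a) / L⌋ := by
    symm
    rw [Int.floor_eq_iff]
    constructor
    · rw [le_div_iff₀ hL]; linarith [h1.1]
    · rw [div_lt_iff₀ hL]; linarith [h1.2]
  apply hi
  unfold idx
  rw [Finset.mem_insert, Finset.mem_singleton]
  rcases hat_int hA with h3 | h3
  · left
    refine Prod.ext h3 ?_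
    rw [h2, h3]
  · right
    refine Prod.ext h3 ?_
    rw [h2, h3]

/-- the corrector (scalar part) -/
def uu (p₀ e : ℂ) (a b L r : ℝ) (f : ℂ → ℝ) (z : ℂ) : ℝ := ∑' i : ℤ × ℤ, Tm p₀ e a b L r f i z

theorem uu_eq (p₀ e : ℂ) (a : ℝ) {b L r : ℝ} (hr : 0 < r) (hL : 0 < L) (f : ℂ → ℝ) (z : ℂ)
    (S : Finset (ℤ × ℤ)) (hS : idx p₀ e a b L z ⊆ S) :
    uu p₀ e a b L r f z = ∑ i ∈ S, Tm p₀ e a b L r f i z :=
  tsum_eq_sum (fun i hi => Tm_zero p₀ e a hr hL f z i (fun h => hi (hS h)))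

theorem uu_lip (p₀ : ℂ) {e : ℂ} (he : ‖e‖ = 1) (a : ℝ) {b L r : ℝ} (hb : 0 < b) (hr : 0 < r)
    (hL : 0 < L) (f : ℂ → ℝ) {K M : ℝ}
    (hM0 : 0 ≤ M) (hK0 : 0 ≤ K) (hf : Continuous f) (hK : ∀ z z', |f z - f z'| ≤ K * dist z z')
    (hM : ∀ z, |f z| ≤ M) (z z' : ℂ) :
    |uu p₀ e a b L r f z - uu p₀ e a b L r f z'| ≤
      4 * ((L / b * M + 2 * L / r * M + M + L * K) * dist z z') := by
  rw [uu_eq p₀ e a hr hL f z _ Finset.subset_union_left,
    uu_eq p₀ e a hr hL f z' (idx p₀ e a b L z ∪ idx p₀ e a b L z') Finset.subset_union_right,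
    ← Finset.sum_sub_distrib]
  refine (Finset.abs_sum_le_sum_abs _ _).trans ?_
  refine (Finset.sum_le_card_nsmul _ _ _ (fun i _ => Tm_lip p₀ he a hb hr hL.le f hM0 hK0 hf hK hM
    i z z')).trans ?_
  rw [nsmul_eq_mul]
  refine mul_le_mul_of_nonneg_right ?_ (by positivity)
  have h1 := Finset.card_union_le (idx p₀ e a b L z) (idx p₀ e a b L z')
  have h2 := idx_card p₀ e a b L z
  have h3 := idx_card p₀ e a b L z'
  have h4 : (idx p₀ e a b L z ∪ idx p₀ e a b L z').card ≤ 4 := by omega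
  exact_mod_cast h4

theorem uu_bound (p₀ e : ℂ) (a : ℝ) {b L r : ℝ} (hr : 0 < r)
    (hL : 0 < L) (f : ℂ → ℝ) {M : ℝ} (hM0 : 0 ≤ M) (hM : ∀ z, |f z| ≤ M) (z : ℂ) :
    |uu p₀ e a b L r f z| ≤ 2 * (L * M) := by
  rw [uu_eq p₀ e a hr hL f z _ subset_rfl]
  refine (Finset.abs_sum_le_sum_abs _ _).trans ?_
  refine (Finset.sum_le_card_nsmul _ _ _ (fun i _ => Tm_bound p₀ e a b hL.le f hM0 hM
    i z)).trans ?_
  rw [nsmul_eq_mul]
  refine mul_le_mul_of_nonneg_right ?_ (by positivity)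
  exact_mod_cast idx_card p₀ e a b L z

theorem uu_local (p₀ : ℂ) {e : ℂ} (he : ‖e‖ = 1) (a b : ℝ) {L r : ℝ} (hr : 0 < r)
    (hL : 0 < L) (f : ℂ → ℝ) (z : ℂ) (h : ∀ z', dist z z' ≤ L → f z' = 0) :
    uu p₀ e a b L r f z = 0 := by
  unfold uu
  rw [show (fun i : ℤ × ℤ => Tm p₀ e a b L r f i z) = fun _ => 0 from ?_, tsum_zero]
  funext i
  by_contra hne
  have hB : kap r L (X p₀ e z - (i.1 * a + i.2 * L)) ≠ 0 := by
    intro h; apply hne; unfold Tm; rw [h]; ring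
  have h1 := kap_ne hr hB
  apply hne
  unfold Tm
  have hG : Gf p₀ e L f (i.1 * a + i.2 * L) z = 0 := by
    unfold Gf
    rw [clp_eq (by linarith [h1.1]) (by linarith [h1.2])]
    refine intervalIntegral.integral_zero_ae (Filter.Eventually.of_forall ?_)
    intro s hs
    apply h
    rw [Set.uIoc_of_le (by linarith [h1.1])] at hs
    have h3 : z = P p₀ e (X p₀ e z) (Y p₀ e z) := (P_XY p₀ he z).symm
    have h4 := dist_P p₀ he (X p₀ e z) (Y p₀ e z) s (Y p₀ e z)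
    rw [← h3] at h4
    refine le_of_sq_le_sq ?_ hL.le
    rw [h4, sub_self]
    have h5 : 0 ≤ X p₀ e z - s := by linarith [hs.2]
    have h6 : X p₀ e z - s ≤ L := by linarith [hs.1, h1.2]
    nlinarith
  rw [hG, mul_zero]

theorem X_add (p₀ : ℂ) {e : ℂ} (he : ‖e‖ = 1) (z : ℂ) (t : ℝ) :
    X p₀ e (z + t * e) = X p₀ e z + t := by
  have h := conj_mul_self' he
  have e1 : conj e * (z + t * e - p₀) = conj e * (z - p₀) + t := by
    linear_combination (t : ℂ) * h
  unfold X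
  rw [e1]; simp
theorem Y_add (p₀ : ℂ) {e : ℂ} (he : ‖e‖ = 1) (z : ℂ) (t : ℝ) :
    Y p₀ e (z + t * e) = Y p₀ e z := by
  have h := conj_mul_self' he
  have e1 : conj e * (z + t * e - p₀) = conj e * (z - p₀) + t := by
    linear_combination (t : ℂ) * h
  unfold Y
  rw [e1]; simp

theorem far_of_hole (p₀ : ℂ) {e : ℂ} (he : ‖e‖ = 1) {b r : ℝ} (hb : 0 < b) (hbr : b ≤ r / 2)
    (z : ℂ) (c : ℝ) (j : ℤ)
    (hz : r ≤ dist z (P p₀ e c (j * b))) (hj : hat (Y p₀ e z / b - j) ≠ 0) :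
    17 / 20 * r ≤ |X p₀ e z - c| := by
  have h1 := hat_ne hj
  have h2 : |Y p₀ e z - j * b| < b := by
    have e1 : Y p₀ e z - j * b = (Y p₀ e z / b - j) * b := by field_simp
    rw [e1, abs_mul, abs_of_pos hb]
    nlinarith
  have h3 := dist_P p₀ he (X p₀ e z) (Y p₀ e z) c (j * b)
  rw [P_XY p₀ he z] at h3
  have h4 : r ^ 2 ≤ dist z (P p₀ e c (j * b)) ^ 2 := pow_le_pow_left₀ (by linarith) hz 2
  rw [h3] at h4
  have h5 : (Y p₀ e z - j * b) ^ 2 ≤ (r / 2) ^ 2 := by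
    rw [← sq_abs]
    exact pow_le_pow_left₀ (abs_nonneg _) (h2.le.trans hbr) 2
  refine le_of_sq_le_sq ?_ (abs_nonneg _)
  rw [sq_abs]
  nlinarith [sq_nonneg r]

theorem uu_deriv (p₀ : ℂ) {e : ℂ} (he : ‖e‖ = 1) (a : ℝ) {b L r : ℝ} (hb : 0 < b)
    (hbr : b ≤ r / 2) (hr : 0 < r) (hL : 0 < L) (f : ℂ → ℝ) (hf : Continuous f) (z : ℂ)
    (hz : ∀ j m : ℤ, r ≤ dist z (P p₀ e (j * a + m * L) (j * b))) :
    HasDerivAt (fun t : ℝ => uu p₀ e a b L r f (z + t * e)) (f z) 0 := by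
  set x := X p₀ e z with hx
  set y := Y p₀ e z with hy
  -- local form
  have hpos : ∀ i : ℤ × ℤ, hat (y / b - i.1) ≠ 0 → ∀ t : ℝ, |t| < r / 8 →
      kap r L (x + t - (i.1 * a + i.2 * L)) ≠ 0 →
      i ∈ idx p₀ e a b L z := by
    intro i hA t ht hB
    have ht' := abs_lt.mp ht
    have h1 := kap_ne hr hB
    have f1 := far_of_hole p₀ he hb hbr z _ i.1 (hz i.1 i.2) hA
    have f2 := far_of_hole p₀ he hb hbr z _ i.1 (hz i.1 (i.2 + 1)) hA
    rw [← hx] at f1 f2
    push_cast at f2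
    have g1 : i.1 * a + i.2 * L < x := by
      rcases le_abs.mp f1 with h | h
      · linarith
      · linarith [h1.1, ht'.2]
    have g2 : x < i.1 * a + (i.2 + 1) * L := by
      rcases le_abs.mp f2 with h | h
      · linarith [h1.2, ht'.1]
      · linarith
    have h2 : i.2 = ⌊(X p₀ e z - (i.1 : ℝ) * a) / L⌋ := by
      symm
      rw [Int.floor_eq_iff, ← hx]
      constructor
      · rw [le_div_iff₀ hL]; linarith
      · rw [div_lt_iff₀ hL]; linarith
    unfold idx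
    rw [Finset.mem_insert, Finset.mem_singleton]
    rcases hat_int hA with h3 | h3
    · left
      refine Prod.ext h3 ?_
      rw [h2, h3, ← hy]
    · right
      refine Prod.ext h3 ?_
      rw [h2, h3, ← hy]
  have hloc : ∀ t : ℝ, |t| < r / 8 → uu p₀ e a b L r f (z + t * e) =
      ∑ i ∈ idx p₀ e a b L z, hat (y / b - i.1) *
        ∫ s in (i.1 * a + i.2 * L)..(x + t), f (P p₀ e s y) := by
    intro t ht
    have ht' := abs_lt.mp ht
    have hsum : uu p₀ e a b L r f (z + t * e) =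
        ∑ i ∈ idx p₀ e a b L z, Tm p₀ e a b L r f i (z + t * e) := by
      refine tsum_eq_sum (fun i hi => ?_)
      unfold Tm
      rw [X_add p₀ he, Y_add p₀ he, ← hx, ← hy]
      by_cases hA : hat (y / b - i.1) = 0
      · rw [hA]; ring
      · by_cases hB : kap r L (x + t - (i.1 * a + i.2 * L)) = 0
        · rw [hB]; ring
        · exact absurd (hpos i hA t ht hB) hi
    rw [hsum]
    refine Finset.sum_congr rfl (fun i hi => ?_)
    unfold Tm Gf
    rw [X_add p₀ he, Y_add p₀ he, ← hx, ← hy]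
    by_cases hA : hat (y / b - i.1) = 0
    · rw [hA]; ring
    · have f1 := far_of_hole p₀ he hb hbr z _ i.1 (hz i.1 i.2) hA
      have f2 := far_of_hole p₀ he hb hbr z _ i.1 (hz i.1 (i.2 + 1)) hA
      rw [← hx] at f1 f2
      push_cast at f2
      have h2 : i.2 = ⌊(x - (i.1 : ℝ) * a) / L⌋ := by
        unfold idx at hi
        rw [Finset.mem_insert, Finset.mem_singleton] at hi
        rcases hi with h | h
        · rw [h]
        · rw [h]
      have h3 := Int.floor_le ((x - (i.1 : ℝ) * a) / L)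
      have h4 := Int.lt_floor_add_one ((x - (i.1 : ℝ) * a) / L)
      rw [← h2] at h3 h4
      rw [le_div_iff₀ hL] at h3
      rw [div_lt_iff₀ hL] at h4
      have g1 : 17 / 20 * r ≤ x - (i.1 * a + i.2 * L) := by
        rcases le_abs.mp f1 with h | h
        · exact h
        · linarith
      have g2 : 17 / 20 * r ≤ i.1 * a + (i.2 + 1) * L - x := by
        rcases le_abs.mp f2 with h | h
        · linarith
        · linarith
      rw [kap_one hr (by linarith [ht'.1]) (by linarith [ht'.2]), mul_one,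
        clp_eq (by linarith [ht'.1]) (by linarith [ht'.2])]
  have hev : (fun t : ℝ => uu p₀ e a b L r f (z + t * e)) =ᶠ[nhds 0]
      fun t : ℝ => ∑ i ∈ idx p₀ e a b L z, hat (y / b - i.1) *
        ∫ s in (i.1 * a + i.2 * L)..(x + t), f (P p₀ e s y) := by
    have : Set.Ioo (-(r / 8)) (r / 8) ∈ nhds (0 : ℝ) := Ioo_mem_nhds (by linarith) (by linarith)
    filter_upwards [this] with t ht
    exact hloc t (abs_lt.mpr ht)
  have hcont : Continuous (fun s : ℝ => f (P p₀ e s y)) := hf.comp (continuous_P p₀ e y)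
  have hder : HasDerivAt (fun t : ℝ => ∑ i ∈ idx p₀ e a b L z, hat (y / b - i.1) *
        ∫ s in (i.1 * a + i.2 * L)..(x + t), f (P p₀ e s y))
      (∑ i ∈ idx p₀ e a b L z, hat (y / b - i.1) * f (P p₀ e x y)) 0 := by
    refine HasDerivAt.fun_sum (fun i _ => ?_)
    refine HasDerivAt.const_mul _ ?_
    have h1 : HasDerivAt (fun v : ℝ => ∫ s in (i.1 * a + i.2 * L)..v, f (P p₀ e s y))
        (f (P p₀ e x y)) (x + 0) := by
      rw [add_zero]
      exact intervalIntegral.integral_hasDerivAt_right (hcont.intervalIntegrable _ _)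
        hcont.aestronglyMeasurable.stronglyMeasurableAtFilter hcont.continuousAt
    have h2 : HasDerivAt (fun t : ℝ => x + t) 1 0 := (hasDerivAt_id 0).const_add x
    have h3 := h1.comp (0 : ℝ) h2
    rw [mul_one] at h3
    exact h3
  have hval : ∑ i ∈ idx p₀ e a b L z, hat (y / b - i.1) * f (P p₀ e x y) = f z := by
    rw [hx, hy, P_XY p₀ he z, ← Finset.sum_mul]
    unfold idx
    rw [Finset.sum_pair (by
      intro h
      have := congrArg Prod.fst h
      simp at this)]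
    simp only
    have hfr : Y p₀ e z / b - ⌊Y p₀ e z / b⌋ = Int.fract (Y p₀ e z / b) := rfl
    have f0 := Int.fract_nonneg (Y p₀ e z / b)
    have f1 := (Int.fract_lt_one (Y p₀ e z / b)).le
    have e2 : Y p₀ e z / b - ((⌊Y p₀ e z / b⌋ + 1 : ℤ) : ℝ) =
      -(1 - Int.fract (Y p₀ e z / b)) := by
      rw [← hfr]; push_cast; ring
    rw [e2, hfr]
    unfold hat
    rw [abs_neg, abs_of_nonneg f0, abs_of_nonneg (by linarith : 0 ≤ 1 - Int.fract (Y p₀ e z / b)),
      max_eq_right (by linarith), max_eq_right (by linarith)]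
    ring
  rw [hval] at hder
  exact hder.congr_of_eventuallyEq hev

end GridAux

open GridAux in
/-- Grid divergence corrector: `div w = f` outside small holes around the lattice points
`p₀ + kω₁ + lω₂`, `w` local. -/
theorem grid_corrector {ω₁ ω₂ : ℂ} (hpos : 0 < (conj ω₁ * ω₂).im) (p₀ : ℂ) {r : ℝ} (hr : 0 < r) :
    ∃ (C D : ℝ), 0 < C ∧ 0 < D ∧ ∀ (f : ℂ → ℝ) (K M : NNReal), LipschitzWith K f →
      (∀ z, |f z| ≤ M) → ∃ w : ℂ → ℂ, LipschitzWith (Real.toNNReal (C * (K + M))) w ∧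
        (∀ z, ‖w z‖ ≤ C * M) ∧
        (∀ᵐ z, (∀ k l : ℤ, r ≤ dist z (p₀ + k • ω₁ + l • ω₂)) → dv w z = f z) ∧
        (∀ z, (∀ z', dist z z' ≤ D → f z' = 0) → w z = 0) := by
  have hω : 0 < ‖ω₂‖ := by
    rw [norm_pos_iff]
    rintro rfl
    simp at hpos
  set det := (conj ω₁ * ω₂).im with hdet
  obtain ⟨N, hN⟩ := exists_nat_ge ((2 * det / r + ‖ω₁‖) / ‖ω₂‖)
  rw [div_le_iff₀ hω] at hN
  set E : ℂ := ω₁ + N * ω₂ with hE
  set L := ‖E‖ with hLdef
  have hLlow : 2 * det / r ≤ L := by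
    have h1 : ‖(N : ℂ) * ω₂‖ ≤ ‖E‖ + ‖ω₁‖ := by
      have : (N : ℂ) * ω₂ = E - ω₁ := by rw [hE]; ring
      rw [this]
      exact norm_sub_le _ _
    rw [norm_mul, Complex.norm_natCast] at h1
    linarith
  have hL : 0 < L := lt_of_lt_of_le (by positivity) hLlow
  have hLC : (L : ℂ) ≠ 0 := by exact_mod_cast hL.ne'
  set e : ℂ := E / L with hedef
  have he : ‖e‖ = 1 := by
    rw [hedef, norm_div, Complex.norm_real, Real.norm_eq_abs, abs_of_pos hL]
    exact div_self hL.ne'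
  have hLe : (L : ℂ) * e = E := by rw [hedef]; field_simp
  set a := (conj e * ω₂).re with ha
  set b := (conj e * ω₂).im with hb
  have hω2 : ω₂ = e * (a + b * I) := by
    rw [ha, hb, Complex.re_add_im]
    have := conj_mul_self' he
    linear_combination -ω₂ * this
  have hbval : b = det / L := by
    rw [eq_div_iff hL.ne', hb, hdet]
    have h1 : conj e * ω₂ * L = conj ω₁ * ω₂ + N * (conj ω₂ * ω₂) := by
      have h2 : conj e * (L : ℂ) = conj E := by
        rw [← hLe, map_mul, Complex.conj_ofReal]; ring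
      calc conj e * ω₂ * L = (conj e * L) * ω₂ := by ring
        _ = conj E * ω₂ := by rw [h2]
        _ = _ := by rw [hE, map_add, map_mul, Complex.conj_natCast]; ring
    have h3 : (conj e * ω₂ * L).im = (conj e * ω₂).im * L := by
      rw [Complex.mul_im, Complex.ofReal_re, Complex.ofReal_im]; ring
    rw [← h3, h1, Complex.add_im]
    have h4 : ((N : ℂ) * (conj ω₂ * ω₂)).im = 0 := by
      rw [mul_comm (conj ω₂), Complex.mul_conj]
      simp
    rw [h4, add_zero]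
  have hb0 : 0 < b := by rw [hbval]; positivity
  have hbr : b ≤ r / 2 := by
    rw [hbval, div_le_iff₀ hL]
    rw [div_le_iff₀ hr] at hLlow
    linarith
  have hpt : ∀ j m : ℤ, P p₀ e (j * a + m * L) (j * b) = p₀ + m • ω₁ + (j + m * (N : ℤ)) • ω₂ := by
    intro j m
    unfold P
    rw [zsmul_eq_mul, zsmul_eq_mul]
    push_cast
    have h1 : e * ((j : ℂ) * a + m * L + j * b * I) = j * (e * (a + b * I)) + m * (L * e) := by ring
    rw [h1, ← hω2, hLe, hE]
    ring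
  refine ⟨4 * (L / b + 2 * L / r + 1 + L), L, by positivity, hL, ?_⟩
  intro f K M hK hM
  have hfc : Continuous f := hK.continuous
  have hK' : ∀ z z', |f z - f z'| ≤ K * dist z z' := by
    intro z z'
    have := hK.dist_le_mul z z'
    rwa [Real.dist_eq] at this
  have hlip : ∀ z z', |uu p₀ e a b L r f z - uu p₀ e a b L r f z'| ≤
      4 * (L / b + 2 * L / r + 1 + L) * (K + M) * dist z z' := by
    intro z z'
    refine (uu_lip p₀ he a hb0 hr hL f M.2 K.2 hfc hK' hM z z').trans ?_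
    have h1 : 0 ≤ (L / b + 2 * L / r + 1) * (K : ℝ) + L * M := by positivity
    have h2 : 4 * ((L / b * M + 2 * L / r * M + M + L * K) * dist z z') +
        4 * ((L / b + 2 * L / r + 1) * (K : ℝ) + L * M) * dist z z' =
        4 * (L / b + 2 * L / r + 1 + L) * (K + M) * dist z z' := by ring
    have h3 : 0 ≤ 4 * ((L / b + 2 * L / r + 1) * (K : ℝ) + L * M) * dist z z' := by positivity
    calc _ ≤ 4 * ((L / b * M + 2 * L / r * M + M + L * K) * dist z z') +
        4 * ((L / b + 2 * L / r + 1) * (K : ℝ) + L * M) * dist z z' := le_add_of_nonneg_right h3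
      _ = _ := h2
  have hulip : LipschitzWith (Real.toNNReal (4 * (L / b + 2 * L / r + 1 + L) * (K + M)))
      (uu p₀ e a b L r f) := by
    refine LipschitzWith.of_dist_le_mul (fun z z' => ?_)
    rw [Real.dist_eq, Real.coe_toNNReal _ (by positivity)]
    exact hlip z z'
  refine ⟨fun z => uu p₀ e a b L r f z • e, ?_, ?_, ?_, ?_⟩
  · refine LipschitzWith.of_dist_le_mul (fun z z' => ?_)
    rw [dist_eq_norm, ← sub_smul, norm_smul, he, mul_one, Real.norm_eq_abs,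
      Real.coe_toNNReal _ (by positivity)]
    exact hlip z z'
  · intro z
    rw [norm_smul, he, mul_one, Real.norm_eq_abs]
    refine (uu_bound p₀ e a hr hL f M.2 hM z).trans ?_
    have h1 : 0 ≤ 4 * (L / b + 2 * L / r + 1) * (M : ℝ) + 2 * L * M := by positivity
    have h2 : 2 * (L * (M : ℝ)) + (4 * (L / b + 2 * L / r + 1) * (M : ℝ) + 2 * L * M) =
      4 * (L / b + 2 * L / r + 1 + L) * M := by ring
    calc _ ≤ 2 * (L * (M : ℝ)) + (4 * (L / b + 2 * L / r + 1) * (M : ℝ) + 2 * L * M) :=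
          le_add_of_nonneg_right h1
      _ = _ := h2
  · filter_upwards [hulip.ae_differentiableAt] with z hz hfar
    have hzd : ∀ j m : ℤ, r ≤ dist z (P p₀ e (j * a + m * L) (j * b)) := by
      intro j m
      rw [hpt]
      exact hfar m (j + m * (N : ℤ))
    have h1 := uu_deriv p₀ he a hb0 hbr hr hL f hfc z hzd
    have h2 : HasDerivAt (fun t : ℝ => z + t * e) e 0 := by
      have h3 : HasDerivAt (fun t : ℝ => (t : ℂ) * e) (1 * e) 0 :=
        (Complex.ofRealCLM.hasDerivAt (x := (0 : ℝ))).mul_const e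
      rw [one_mul] at h3
      exact h3.const_add z
    have hz' : HasFDerivAt (uu p₀ e a b L r f) (fderiv ℝ (uu p₀ e a b L r f) z)
        (z + ((0 : ℝ) : ℂ) * e) := by
      rw [Complex.ofReal_zero, zero_mul, add_zero]
      exact hz.hasFDerivAt
    have h4' := HasFDerivAt.comp_hasDerivAt (f := fun t : ℝ => z + t * e) (0 : ℝ) hz' h2
    have h4 : HasDerivAt (fun t : ℝ => uu p₀ e a b L r f (z + t * e))
        (fderiv ℝ (uu p₀ e a b L r f) z e) 0 := h4'
    have h5 : fderiv ℝ (uu p₀ e a b L r f) z e = f z := h4.unique h1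
    have h6 : HasFDerivAt (fun z => uu p₀ e a b L r f z • e)
        ((fderiv ℝ (uu p₀ e a b L r f) z).smulRight e) z := hz.hasFDerivAt.smul_const e
    unfold dv
    rw [h6.fderiv]
    simp only [ContinuousLinearMap.smulRight_apply, Complex.smul_re, Complex.smul_im, smul_eq_mul]
    have h7 : e.re • (1 : ℂ) + e.im • I = e := by
      apply Complex.ext <;> simp
    have h8 : fderiv ℝ (uu p₀ e a b L r f) z e =
        e.re * fderiv ℝ (uu p₀ e a b L r f) z 1 + e.im * fderiv ℝ (uu p₀ e a b L r f) z I := by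
      have h9 : fderiv ℝ (uu p₀ e a b L r f) z (e.re • (1 : ℂ) + e.im • I) =
        e.re * fderiv ℝ (uu p₀ e a b L r f) z 1 + e.im * fderiv ℝ (uu p₀ e a b L r f) z I := by
        rw [map_add, map_smul, map_smul, smul_eq_mul, smul_eq_mul]
      rwa [h7] at h9
    rw [← h5, h8]
    ring
  · intro z hz
    show uu p₀ e a b L r f z • e = 0
    rw [uu_local p₀ he a b hr hL f z hz, zero_smul]

end EBC
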