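import Pool.Agent.Work.MP_ebc928_an.HexGeom

open MeasureTheory Complex Set
open scoped ContDiff ComplexConjugate

noncomputable section
namespace EBC

theorem cc_eq (r : ℝ) : (1 - I * om r) * (2 * lam r) = 2 * cc r * I * al := by
  apply Complex.ext
  · simp [lam, al]; unfold cc om; ring
  · simp [lam, al]; unfold cc om; ring

/-! ### cutoff functions -/

private theorem hp_stp_one {r x : ℝ} (h0 : 0 < r) (h : x ≤ 1 + r / 6) : stp r x = 1 := by
  unfold stp
  apply Real.smoothTransition.one_of_one_le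
  rw [le_div_iff₀ (by positivity)]
  linarith

private theorem hp_stp_zero {r x : ℝ} (h0 : 0 < r) (h : 1 + r / 4 ≤ x) : stp r x = 0 := by
  unfold stp
  apply Real.smoothTransition.zero_of_nonpos
  apply div_nonpos_of_nonpos_of_nonneg <;> linarith

private theorem hp_Tr_zero_left {r s : ℝ} (h0 : 0 < r) (h : s ≤ r / 6) : Tr r s = 0 := by
  unfold Tr
  rw [hp_stp_one h0 (by linarith), hp_stp_zero h0 (by linarith)]; ring

private theorem hp_Tr_zero_right {r s : ℝ} (h0 : 0 < r) (h : 5 / 6 * r ≤ s) : Tr r s = 0 := by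
  unfold Tr
  rw [hp_stp_zero h0 (by linarith), hp_stp_one h0 (by linarith)]; ring

private theorem hp_bmp_one {t : ℝ} (h : |t| ≤ 13 / 32) : bmp t = 1 := by
  have := abs_le.1 h
  unfold bmp
  rw [Real.smoothTransition.one_of_one_le (by linarith), Real.smoothTransition.one_of_one_le (by linarith),
    one_mul]

private theorem hp_bmp_zero {t : ℝ} (h : 7 / 16 ≤ |t|) : bmp t = 0 := by
  unfold bmp
  rcases le_abs.1 h with h | h
  · rw [Real.smoothTransition.zero_of_nonpos (x := 14 - 32 * t) (by linarith), zero_mul]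
  · rw [Real.smoothTransition.zero_of_nonpos (x := 14 + 32 * t) (by linarith), mul_zero]

private theorem hp_PP_pos {N : ℕ} (hN : 10 ≤ N) : 0 < PP N := by
  unfold PP
  have : (0 : ℝ) < N := by exact_mod_cast (by omega : 0 < N)
  have := YY_pos
  positivity

private theorem hp_N_PP {N : ℕ} (hN : 10 ≤ N) : N * PP N = 2 * YY := by
  unfold PP
  have : (N : ℝ) ≠ 0 := by exact_mod_cast (by omega : N ≠ 0)
  field_simp

/-- positions of the struts -/
private theorem hp_ym_bd {N : ℕ} (hN : 10 ≤ N) {j : ℕ} (hj : j < N) : |ym N j| ≤ YY - PP N / 2 := by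
  have hP := hp_PP_pos hN
  have h1 := hp_N_PP hN
  have h2 : ((j : ℝ) + 1) * PP N ≤ N * PP N :=
    mul_le_mul_of_nonneg_right (by exact_mod_cast hj) hP.le
  have h3 : 0 ≤ (j : ℝ) * PP N := by positivity
  rw [abs_le]
  unfold ym
  constructor <;> nlinarith

private theorem hp_ym_sep {N : ℕ} (hN : 10 ≤ N) {i j : ℕ} (hij : i ≠ j) : PP N ≤ |ym N i - ym N j| := by
  have hP := hp_PP_pos hN
  have h : ym N i - ym N j = ((i : ℝ) - j) * PP N := by unfold ym; ring
  rw [h, abs_mul, abs_of_pos hP]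
  have h1 : (1 : ℝ) ≤ |(i : ℝ) - j| := by
    have : (1 : ℤ) ≤ |(i : ℤ) - j| := Int.one_le_abs (by omega)
    exact_mod_cast this
  nlinarith

private theorem hp_YY_lt : YY < 3 / 5 := by
  have h := YY_sq
  have h2 := YY_pos
  nlinarith

private theorem hp_YY_gt : 57 / 100 < YY := by
  have h := YY_sq
  have h2 := YY_pos
  nlinarith

private theorem hp_PP_lt {N : ℕ} (hN : 10 ≤ N) : PP N < 12 / 100 := by
  have h1 := hp_N_PP hN
  have h2 := hp_YY_lt
  have hP := hp_PP_pos hN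
  have h3 : (10 : ℝ) * PP N ≤ N * PP N :=
    mul_le_mul_of_nonneg_right (by exact_mod_cast hN) hP.le
  linarith

/-! ### smoothness -/

private theorem hp_cd_xk (k : ℕ) : ContDiff ℝ ∞ (xk k) := by
  unfold xk
  exact Complex.reCLM.contDiff.comp (contDiff_id.mul contDiff_const)

private theorem hp_cd_yk (k : ℕ) : ContDiff ℝ ∞ (yk k) := by
  unfold yk
  refine ContDiff.sub (Complex.imCLM.contDiff.comp (contDiff_id.mul contDiff_const)) ?_
  exact ((hp_cd_xk k).sub contDiff_const).div_const 7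

private theorem hp_c_xk (k : ℕ) : Continuous (xk k) := (hp_cd_xk k).continuous
private theorem hp_c_yk (k : ℕ) : Continuous (yk k) := (hp_cd_yk k).continuous

private theorem hp_cd_stp (r : ℝ) : ContDiff ℝ ∞ (stp r) := by
  unfold stp
  exact Real.smoothTransition.contDiff.comp ((contDiff_const.sub contDiff_id).div_const _)

private theorem hp_cd_Tr (r : ℝ) : ContDiff ℝ ∞ (Tr r) := by
  unfold Tr
  exact (contDiff_const.sub ((hp_cd_stp r).comp (contDiff_const.add contDiff_id))).sub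
    ((hp_cd_stp r).comp (contDiff_const.sub contDiff_id))

private theorem hp_cd_bmp : ContDiff ℝ ∞ bmp := by
  unfold bmp
  exact (Real.smoothTransition.contDiff.comp (contDiff_const.sub (contDiff_const.mul contDiff_id))).mul
    (Real.smoothTransition.contDiff.comp (contDiff_const.add (contDiff_const.mul contDiff_id)))

private theorem hp_cd_gst (r : ℝ) : ContDiff ℝ ∞ (gst r) := by
  unfold gst
  exact Real.smoothTransition.contDiff.comp
    (((contDiff_id.div_const _).sub contDiff_const).div_const _)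

private theorem hp_cd_deriv {f : ℝ → ℝ} (h : ContDiff ℝ ∞ f) : ContDiff ℝ ∞ (deriv f) :=
  (contDiff_infty_iff_deriv.1 h).2

private theorem hp_cd_ofReal {f : ℂ → ℝ} (h : ContDiff ℝ ∞ f) : ContDiff ℝ ∞ (fun z => (f z : ℂ)) :=
  Complex.ofRealCLM.contDiff.comp h

private theorem hp_cd_re : ContDiff ℝ ∞ (fun z : ℂ => z.re) := Complex.reCLM.contDiff
private theorem hp_cd_im : ContDiff ℝ ∞ (fun z : ℂ => z.im) := Complex.imCLM.contDiff

private theorem hp_cd_Vst (r : ℝ) : ContDiff ℝ ∞ (Vst r) := by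
  unfold Vst
  have h0 := hp_cd_gst r
  have h1 := hp_cd_deriv h0
  have h2 := hp_cd_deriv h1
  refine ContDiff.sub (contDiff_const.mul (hp_cd_ofReal ?_)) (hp_cd_ofReal ?_)
  · exact (h0.comp hp_cd_re).add ((((hp_cd_im.pow 2).div_const 2)).mul (h2.comp hp_cd_re))
  · exact hp_cd_im.mul (h1.comp hp_cd_re)

private theorem hp_cd_W0 (r : ℝ) (N j : ℕ) : ContDiff ℝ ∞ (W0 r N j) := by
  unfold W0
  refine contDiff_const.mul ((hp_cd_Vst r).comp ?_)
  exact ((contDiff_id.sub contDiff_const).sub contDiff_const).div_const _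

theorem contDiff_psi0 (r : ℝ) (N : ℕ) : ContDiff ℝ ∞ (psi0 r N) := by
  unfold psi0
  refine ContDiff.add (ContDiff.mul (hp_cd_ofReal ?_) ?_) (ContDiff.sum fun k _ => ContDiff.sum fun j _ =>
    ContDiff.mul (hp_cd_ofReal ?_) ?_)
  · exact contDiff_prod fun k _ => (hp_cd_stp r).comp (hp_cd_xk k)
  · exact (contDiff_const.mul contDiff_id).sub contDiff_id
  · exact (hp_cd_bmp.comp (((hp_cd_yk k).sub contDiff_const).div_const _)).mul
      ((hp_cd_Tr r).comp ((hp_cd_xk k).sub contDiff_const))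
  · exact ((contDiff_const.mul contDiff_id).sub contDiff_id).add
      (contDiff_const.mul ((hp_cd_W0 r N j).comp (contDiff_id.mul contDiff_const)))


/-! ### supports -/

private theorem hp_norm_rot (k : ℕ) (w : ℂ) : ‖w * conj (zt ^ k)‖ = ‖w‖ := by
  rw [norm_mul, RCLike.norm_conj, norm_pow, norm_zt, one_pow, mul_one]

private theorem hp_norm_zt_pow (k : ℕ) : ‖zt ^ k‖ = 1 := by
  rw [norm_pow, norm_zt, one_pow]

private theorem hp_norm_al : ‖al‖ ≤ 51 / 50 := by
  have h : ‖al‖ ^ 2 = 50 / 49 := by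
    rw [← Complex.normSq_eq_norm_sq]
    simp [Complex.normSq_apply, al]; norm_num
  nlinarith [norm_nonneg al]

/-- `psi0` product part -/
private theorem hp_prod_zero {r : ℝ} (h0 : 0 < r) {w : ℂ} {i : ℕ} (hi : i < 6)
    (h : 1 + r / 4 ≤ xk i w) : ∏ k ∈ Finset.range 6, stp r (xk k w) = 0 :=
  Finset.prod_eq_zero (Finset.mem_range.2 hi) (hp_stp_zero h0 h)

private theorem hp_gap_norm {r : ℝ} (h0 : 0 < r) (h1 : r ≤ 1 / 100) {w : ℂ} {k : ℕ}
    (hx : 0 ≤ xk k w - 1) (hx' : xk k w - 1 ≤ r) (hy : |yk k w| ≤ YY + 1 / 10) : ‖w‖ < 2 := by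
  have h := eq_of_coord k w
  have h2 : ‖w‖ ≤ 1 + |yk k w| + (xk k w - 1) * (51 / 50) := by
    calc ‖w‖ = ‖zt ^ k * (1 + yk k w * I + (xk k w - 1 : ℝ) * al)‖ := by rw [← h]
      _ = ‖1 + yk k w * I + (xk k w - 1 : ℝ) * al‖ := by rw [norm_mul, hp_norm_zt_pow, one_mul]
      _ ≤ ‖(1 : ℂ)‖ + ‖(yk k w : ℂ) * I‖ + ‖((xk k w - 1 : ℝ) : ℂ) * al‖ := norm_add₃_le
      _ = 1 + |yk k w| + |xk k w - 1| * ‖al‖ := by
          rw [norm_one, norm_mul, norm_mul, Complex.norm_I, Complex.norm_real, Complex.norm_real]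
          simp
      _ ≤ _ := by
          rw [abs_of_nonneg hx]
          have := mul_le_mul_of_nonneg_left hp_norm_al hx
          linarith
  have := hp_YY_lt
  nlinarith

/-- a strut term which does not vanish forces `w` to be in the open gap -/
private theorem hp_strut_ne {r : ℝ} (h0 : 0 < r) {N : ℕ} {k j : ℕ} {w : ℂ}
    (h : bmp ((yk k w - ym N j) / PP N) * Tr r (xk k w - 1) ≠ 0) :
    |(yk k w - ym N j) / PP N| < 7 / 16 ∧ r / 6 < xk k w - 1 ∧ xk k w - 1 < 5 / 6 * r := by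
  refine ⟨?_, ?_, ?_⟩
  · by_contra hc
    exact h (by rw [hp_bmp_zero (not_lt.1 hc), zero_mul])
  · by_contra hc
    exact h (by rw [hp_Tr_zero_left h0 (not_lt.1 hc), mul_zero])
  · by_contra hc
    exact h (by rw [hp_Tr_zero_right h0 (not_lt.1 hc), mul_zero])

theorem psi0_support {r : ℝ} (h0 : 0 < r) (h1 : r ≤ 1 / 100) {N : ℕ} (hN : 10 ≤ N) {w : ℂ}
    (hw : 2 ≤ ‖w‖) : psi0 r N w = 0 := by
  obtain ⟨k, hk, hmax⟩ := exists_max w
  have h2 := norm_le_xk w hmax
  have hP := hp_PP_pos hN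
  have hP2 := hp_PP_lt hN
  unfold psi0
  rw [hp_prod_zero h0 hk (by linarith)]
  simp only [ofReal_zero, zero_mul, zero_add]
  refine Finset.sum_eq_zero fun k hk => Finset.sum_eq_zero fun j hj => ?_
  have hj' := Finset.mem_range.1 hj
  by_cases hz : bmp ((yk k w - ym N j) / PP N) * Tr r (xk k w - 1) = 0
  · rw [hz, ofReal_zero, zero_mul]
  · exfalso
    obtain ⟨ha, hb, hc⟩ := hp_strut_ne h0 hz
    have h3 : |yk k w - ym N j| < 7 / 16 * PP N := by
      rw [abs_div, abs_of_pos hP, div_lt_iff₀ hP] at ha; exact ha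
    have h4 := hp_ym_bd hN hj'
    have h5 : |yk k w| ≤ |yk k w - ym N j| + |ym N j| := by
      have := abs_add_le (yk k w - ym N j) (ym N j)
      simpa using this
    have := hp_gap_norm h0 h1 (k := k) (w := w) (by linarith) (by linarith) (by linarith)
    linarith

/-! ### local finiteness -/

private theorem hp_lat_sq (r : ℝ) (m : ℤ × ℤ) :
    ‖lat r m‖ ^ 2 = 4 * ‖lam r‖ ^ 2 * ((m.1 : ℝ) ^ 2 + m.1 * m.2 + (m.2 : ℝ) ^ 2) := by
  have h : ‖(m.1 : ℂ) + m.2 * zt‖ ^ 2 = (m.1 : ℝ) ^ 2 + m.1 * m.2 + (m.2 : ℝ) ^ 2 := by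
    rw [← Complex.normSq_eq_norm_sq]
    have h3 : Real.sqrt 3 * Real.sqrt 3 = 3 := Real.mul_self_sqrt (by norm_num)
    simp only [Complex.normSq_apply, zt, add_re, mul_re, add_im, mul_im, intCast_re, intCast_im]
    linear_combination ((m.2 : ℝ) ^ 2 / 4) * h3
  unfold lat
  rw [norm_mul, norm_mul, mul_pow, mul_pow, h]
  norm_num

private theorem hp_lam_ge {r : ℝ} (h0 : 0 < r) : 1 ≤ ‖lam r‖ ^ 2 := by
  rw [← Complex.normSq_eq_norm_sq]
  have h1 : (lam r).re = 1 + r / 2 := by simp [lam, al]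
  have h2 : (lam r).im = r / 14 := by simp [lam, al]; ring
  rw [Complex.normSq_apply, h1, h2]
  nlinarith

private theorem hp_finite {r : ℝ} (h0 : 0 < r) (z : ℂ) : {m : ℤ × ℤ | ‖z - lat r m‖ < 3}.Finite := by
  obtain ⟨K, hK⟩ := exists_nat_ge (‖z‖ + 3)
  refine ((Set.finite_Icc (-(K : ℤ)) K).prod (Set.finite_Icc (-(K : ℤ)) K)).subset fun m hm => ?_
  have h1 : ‖lat r m‖ < K := by
    have : ‖lat r m‖ ≤ ‖z‖ + ‖z - lat r m‖ := by
      calc ‖lat r m‖ = ‖z - (z - lat r m)‖ := by ring_nf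
        _ ≤ _ := norm_sub_le _ _
    have h3 : ‖z - lat r m‖ < 3 := hm
    linarith
  have h2 := hp_lat_sq r m
  have h3 := hp_lam_ge h0
  have h4 : ‖lat r m‖ ^ 2 < (K : ℝ) ^ 2 := by
    apply pow_lt_pow_left₀ h1 (norm_nonneg _) (by norm_num)
  have h5 : (0 : ℝ) ≤ (m.1 : ℝ) ^ 2 + m.1 * m.2 + (m.2 : ℝ) ^ 2 := by nlinarith [sq_nonneg ((m.1 : ℝ) + m.2)]
  have h6 : 4 * ((m.1 : ℝ) ^ 2 + m.1 * m.2 + (m.2 : ℝ) ^ 2) < (K : ℝ) ^ 2 := by nlinarith
  have h7 : (m.1 : ℝ) ^ 2 ≤ (K : ℝ) ^ 2 := by nlinarith [sq_nonneg ((m.1 : ℝ) + 2 * m.2)]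
  have h8 : (m.2 : ℝ) ^ 2 ≤ (K : ℝ) ^ 2 := by nlinarith [sq_nonneg (2 * (m.1 : ℝ) + m.2)]
  have h9 := abs_le_of_sq_le_sq' h7 (Nat.cast_nonneg K)
  have h10 := abs_le_of_sq_le_sq' h8 (Nat.cast_nonneg K)
  refine ⟨⟨?_, ?_⟩, ⟨?_, ?_⟩⟩
  · exact_mod_cast h9.1
  · exact_mod_cast h9.2
  · exact_mod_cast h10.1
  · exact_mod_cast h10.2

/-- near every point `psi` is a fixed finite sum -/
private theorem hp_psi_local {r : ℝ} (h0 : 0 < r) (h1 : r ≤ 1 / 100) {N : ℕ} (hN : 10 ≤ N) (z : ℂ) :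
    ∀ᶠ z' in nhds z, psi r N z' = ∑ m ∈ (hp_finite h0 z).toFinset, psi0 r N (z' - lat r m) := by
  filter_upwards [Metric.ball_mem_nhds z one_pos] with z' hz'
  unfold psi
  refine tsum_eq_sum fun m hm => psi0_support h0 h1 hN ?_
  have h2 : ¬ ‖z - lat r m‖ < 3 := by simpa using hm
  have h3 : ‖z - lat r m‖ ≤ ‖z' - lat r m‖ + ‖z - z'‖ := by
    have := norm_add_le (z' - lat r m) (z - z')
    have e : z' - lat r m + (z - z') = z - lat r m := by ring
    rwa [e] at this
  have h4 : ‖z - z'‖ < 1 := by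
    rw [Metric.mem_ball, dist_comm, dist_eq_norm] at hz'; exact hz'
  linarith

theorem contDiff_psi {r : ℝ} (h0 : 0 < r) (h1 : r ≤ 1 / 100) {N : ℕ} (hN : 10 ≤ N) :
    ContDiff ℝ ∞ (psi r N) := by
  rw [contDiff_iff_contDiffAt]
  intro z
  refine ContDiffAt.congr_of_eventuallyEq ?_ (hp_psi_local h0 h1 hN z)
  exact (ContDiff.sum fun m _ => (contDiff_psi0 r N).comp (contDiff_id.sub contDiff_const)).contDiffAt

private theorem hp_psi_add (r : ℝ) (N : ℕ) (z : ℂ) (m₀ : ℤ × ℤ) :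
    psi r N (z + lat r m₀) = psi r N z := by
  unfold psi
  rw [← (Equiv.addRight m₀).tsum_eq (fun m => psi0 r N (z + lat r m₀ - lat r m))]
  refine tsum_congr fun m => ?_
  rw [Equiv.coe_addRight, lat_add]
  ring_nf

theorem psi_per {r : ℝ} (_h0 : 0 < r) (N : ℕ) :
    PerL (2 * lam r) (2 * lam r * zt) (psi r N) := by
  intro z
  have e1 : lat r (1, 0) = 2 * lam r := by unfold lat; push_cast; ring
  have e2 : lat r (0, 1) = 2 * lam r * zt := by unfold lat; push_cast; ring
  exact ⟨by rw [← e1]; exact hp_psi_add r N z _, by rw [← e2]; exact hp_psi_add r N z _⟩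

/-- if all terms except those in a finite set vanish near `z` -/
private theorem hp_psi_eq {r : ℝ} (h0 : 0 < r) (h1 : r ≤ 1 / 100) {N : ℕ} (hN : 10 ≤ N) (z : ℂ)
    (S : Finset (ℤ × ℤ)) (hS : ∀ m ∉ S, ∀ᶠ z' in nhds z, psi0 r N (z' - lat r m) = 0) :
    ∀ᶠ z' in nhds z, psi r N z' = ∑ m ∈ S, psi0 r N (z' - lat r m) := by
  have h2 : ∀ᶠ z' in nhds z, ∀ m ∈ (hp_finite h0 z).toFinset, m ∉ S → psi0 r N (z' - lat r m) = 0 := by
    rw [Filter.eventually_all_finset]
    intro m _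
    by_cases hm : m ∈ S
    · exact Filter.Eventually.of_forall fun _ h => absurd hm h
    · filter_upwards [hS m hm] with z' h _ using h
  have h3 : ∀ᶠ z' in nhds z, ∀ m ∈ S, m ∉ (hp_finite h0 z).toFinset → psi0 r N (z' - lat r m) = 0 := by
    filter_upwards [Metric.ball_mem_nhds z one_pos] with z' hz' m _ hm
    refine psi0_support h0 h1 hN ?_
    have h2 : ¬ ‖z - lat r m‖ < 3 := by simpa using hm
    have h3 : ‖z - lat r m‖ ≤ ‖z' - lat r m‖ + ‖z - z'‖ := by
      have := norm_add_le (z' - lat r m) (z - z')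
      have e : z' - lat r m + (z - z') = z - lat r m := by ring
      rwa [e] at this
    have h4 : ‖z - z'‖ < 1 := by
      rw [Metric.mem_ball, dist_comm, dist_eq_norm] at hz'; exact hz'
    linarith
  filter_upwards [hp_psi_local h0 h1 hN z, h2, h3] with z' e a b
  rw [e]
  have e1 : ∑ m ∈ (hp_finite h0 z).toFinset, psi0 r N (z' - lat r m)
      = ∑ m ∈ (hp_finite h0 z).toFinset ∪ S, psi0 r N (z' - lat r m) := by
    refine Finset.sum_subset Finset.subset_union_left fun m hm hm' => ?_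
    exact b m ((Finset.mem_union.1 hm).resolve_left hm') hm'
  have e2 : ∑ m ∈ S, psi0 r N (z' - lat r m)
      = ∑ m ∈ (hp_finite h0 z).toFinset ∪ S, psi0 r N (z' - lat r m) := by
    refine Finset.sum_subset Finset.subset_union_right fun m hm hm' => ?_
    exact a m ((Finset.mem_union.1 hm).resolve_right hm') hm'
  rw [e1, e2]

/-! ### eventual behaviour of the cutoffs -/

private theorem hp_ev_lt {f : ℂ → ℝ} (hf : Continuous f) {z c : ℂ} {a : ℝ} (h : f (z - c) < a) :
    ∀ᶠ z' in nhds z, f (z' - c) < a :=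
  (hf.comp (continuous_id.sub continuous_const)).continuousAt.eventually_lt continuousAt_const h

private theorem hp_ev_gt {f : ℂ → ℝ} (hf : Continuous f) {z c : ℂ} {a : ℝ} (h : a < f (z - c)) :
    ∀ᶠ z' in nhds z, a < f (z' - c) :=
  continuousAt_const.eventually_lt (hf.comp (continuous_id.sub continuous_const)).continuousAt h

/-- the product term vanishes near `z` -/
private theorem hp_ev_prod_zero {r : ℝ} (h0 : 0 < r) {z c : ℂ} {i : ℕ} (hi : i < 6)
    (h : 1 + r / 4 < xk i (z - c)) :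
    ∀ᶠ z' in nhds z, ∏ k ∈ Finset.range 6, stp r (xk k (z' - c)) = 0 := by
  filter_upwards [hp_ev_gt (hp_c_xk i) h] with z' h' using hp_prod_zero h0 hi h'.le

/-- a strut term vanishes near `z` -/
private theorem hp_ev_strut_zero {r : ℝ} (h0 : 0 < r) {N : ℕ} {k j : ℕ} {z c : ℂ}
    (h : xk k (z - c) - 1 ≤ 0 ∨ r ≤ xk k (z - c) - 1 ∨
      7 / 16 * PP N < |yk k (z - c) - ym N j|) (hN : 10 ≤ N) :
    ∀ᶠ z' in nhds z, bmp ((yk k (z' - c) - ym N j) / PP N) * Tr r (xk k (z' - c) - 1) = 0 := by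
  rcases h with h | h | h
  · filter_upwards [hp_ev_lt (hp_c_xk k) (show xk k (z - c) < 1 + r / 6 by linarith)] with z' h'
    rw [hp_Tr_zero_left h0 (by linarith), mul_zero]
  · filter_upwards [hp_ev_gt (hp_c_xk k) (show 1 + 5 / 6 * r < xk k (z - c) by linarith)] with z' h'
    rw [hp_Tr_zero_right h0 (by linarith), mul_zero]
  · have hP := hp_PP_pos hN
    have hc : Continuous fun w => |yk k w - ym N j| := ((hp_c_yk k).sub continuous_const).abs
    filter_upwards [hp_ev_gt hc h] with z' h'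
    rw [hp_bmp_zero, zero_mul]
    rw [abs_div, abs_of_pos hP, le_div_iff₀ hP]
    exact h'.le

private theorem hp_far {N : ℕ} (hN : 10 ≤ N) {j : ℕ} (hj : j < N) {y : ℝ} (h : YY ≤ |y|) :
    7 / 16 * PP N < |y - ym N j| := by
  have hP := hp_PP_pos hN
  have h2 := hp_ym_bd hN hj
  have h3 : |y| ≤ |y - ym N j| + |ym N j| := by
    have := abs_add_le (y - ym N j) (ym N j)
    simpa using this
  linarith

/-- the term `m'` of `psi` vanishes near `z` -/
private theorem hp_ev_psi0_zero {r : ℝ} (h0 : 0 < r) {N : ℕ} (hN : 10 ≤ N) {z c : ℂ}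
    (hp : ∃ i < 6, 1 + r / 4 < xk i (z - c))
    (hs : ∀ k < 3, ∀ j < N, xk k (z - c) - 1 ≤ 0 ∨ r ≤ xk k (z - c) - 1 ∨
      7 / 16 * PP N < |yk k (z - c) - ym N j|) :
    ∀ᶠ z' in nhds z, psi0 r N (z' - c) = 0 := by
  obtain ⟨i, hi, hx⟩ := hp
  have h2 : ∀ᶠ z' in nhds z, ∀ k ∈ Finset.range 3, ∀ j ∈ Finset.range N,
      bmp ((yk k (z' - c) - ym N j) / PP N) * Tr r (xk k (z' - c) - 1) = 0 := by
    rw [Filter.eventually_all_finset]
    intro k hk
    rw [Filter.eventually_all_finset]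
    intro j hj
    exact hp_ev_strut_zero h0 (hs k (Finset.mem_range.1 hk) j (Finset.mem_range.1 hj)) hN
  filter_upwards [hp_ev_prod_zero h0 hi hx, h2] with z' ha hb
  unfold psi0
  rw [ha, Finset.sum_eq_zero fun k hk => Finset.sum_eq_zero fun j hj => by
    rw [hb k hk j hj, ofReal_zero, zero_mul]]
  simp

/-- near a closed tile the displacement is a rigid motion -/
theorem psi_tile {r : ℝ} (h0 : 0 < r) (h1 : r ≤ 1 / 100) {N : ℕ} (hN : 10 ≤ N) {m : ℤ × ℤ} {z : ℂ}
    (hz : ∀ k < 6, xk k (z - lat r m) ≤ 1) :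
    ∀ᶠ z' in nhds z, z' + psi r N z' = lat r m + I * om r * (z' - lat r m) := by
  have hsh : ∀ m' : ℤ × ℤ, z - lat r m' = z - lat r m - lat r (m' - m) := by
    intro m'
    have : lat r m' = lat r m + lat r (m' - m) := by rw [← lat_add]; congr 1; ring
    rw [this]; ring
  have hS : ∀ m' ∉ ({m} : Finset (ℤ × ℤ)), ∀ᶠ z' in nhds z, psi0 r N (z' - lat r m') = 0 := by
    intro m' hm'
    have hne : m' - m ≠ 0 := sub_ne_zero.2 (by simpa using hm')
    refine hp_ev_psi0_zero h0 hN ?_ ?_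
    · obtain ⟨i, hi, hx⟩ := sep_tile h0 h1 hz hne
      rw [← hsh] at hx
      exact ⟨i, hi, by linarith⟩
    · intro k hk j hj
      by_cases ha : xk k (z - lat r m') - 1 ≤ 0
      · exact Or.inl ha
      · by_cases hb : r ≤ xk k (z - lat r m') - 1
        · exact Or.inr (Or.inl hb)
        · refine Or.inr (Or.inr (hp_far hN hj ?_))
          rw [hsh]
          rw [hsh] at ha hb
          exact sep_tile_gap h0 h1 hz _ (by omega) (not_le.1 ha) (not_le.1 hb)
  have h2 : ∀ᶠ z' in nhds z, ∀ k ∈ Finset.range 6, xk k (z' - lat r m) < 1 + r / 6 := by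
    rw [Filter.eventually_all_finset]
    intro k hk
    exact hp_ev_lt (hp_c_xk k) (by linarith [hz k (Finset.mem_range.1 hk)])
  filter_upwards [hp_psi_eq h0 h1 hN z {m} hS, h2] with z' e h3
  rw [e, Finset.sum_singleton]
  unfold psi0
  rw [Finset.prod_eq_one fun k hk => hp_stp_one h0 (h3 k hk).le,
    Finset.sum_eq_zero fun k hk => Finset.sum_eq_zero fun j _ => by
      rw [hp_Tr_zero_left h0 (by
        have := h3 k (Finset.mem_range.2 (by have := Finset.mem_range.1 hk; omega))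
        linarith), mul_zero, ofReal_zero, zero_mul]]
  push_cast
  ring

/-! ### the struts -/

private theorem hp_coord_bd {s y : ℝ} (hs : 0 ≤ s) (hy : |y| ≤ YY) {i : ℕ} (hi : 1 ≤ i) (hi' : i ≤ 5) :
    xk i (1 + y * I + s * al) ≤ 1 + 63 / 100 * s := by
  have hc := xk_coord y s
  have h0 := (coord_eq y s).1
  set w : ℂ := 1 + y * I + s * al
  have h3 := xk_add_three 0 w
  have h4 := xk_add_three 1 w
  have h5 := xk_add_three 2 w
  norm_num at h3 h4 h5
  have hq : Real.sqrt 3 * YY = 1 := sqrt3_mul_YY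
  have hs3 : Real.sqrt 3 < 1.74 := by
    rw [Real.sqrt_lt' (by norm_num)]; norm_num
  have hs3' : 0 < Real.sqrt 3 := Real.sqrt_pos.2 (by norm_num)
  have hy1 := abs_le.1 hy
  have hx2 : xk 2 w = xk 1 w - xk 0 w := by
    unfold xk
    rw [zt_sq]
    simp [mul_sub]
  have hmul1 : Real.sqrt 3 * (y - YY) ≤ 0 := mul_nonpos_of_nonneg_of_nonpos hs3'.le (by linarith)
  have hmul2 : 0 ≤ Real.sqrt 3 * (y + YY) := mul_nonneg hs3'.le (by linarith)
  have hmul3 : s * Real.sqrt 3 ≤ s * 1.74 := mul_le_mul_of_nonneg_left hs3.le hs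
  have hmul4 : 0 ≤ s * Real.sqrt 3 := mul_nonneg hs hs3'.le
  obtain ⟨c1, c5⟩ := hc
  have c1' : xk 1 w = 1 + s / 2 + s * Real.sqrt 3 / 14 + Real.sqrt 3 * (y - YY) / 2 := by
    rw [c1]; ring
  have c1'' : xk 1 w = s / 2 + s * Real.sqrt 3 / 14 + Real.sqrt 3 * (y + YY) / 2 := by
    rw [c1]; linear_combination (-1 : ℝ) * hq
  have c5' : xk 5 w = 1 + s / 2 - s * Real.sqrt 3 / 14 - Real.sqrt 3 * (y + YY) / 2 := by
    rw [c5]; ring
  interval_cases i
  · linarith
  · linarith
  · linarith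
  · linarith
  · linarith

private theorem hp_other {r : ℝ} {w : ℂ} {k : ℕ} (hk : k < 6) (hs : 0 ≤ xk k w - 1) (hy : |yk k w| ≤ YY)
    {i : ℕ} (hi : i < 6) (hik : i ≠ k) (hr : xk k w - 1 ≤ r / 4) (h0 : 0 < r) :
    xk i w < 1 + r / 6 := by
  obtain ⟨j, hj1, hj5, hj⟩ : ∃ j, 1 ≤ j ∧ j ≤ 5 ∧ (i = j + k ∨ i + 6 = j + k) := by
    rcases lt_or_gt_of_ne hik with h | h
    · exact ⟨i + 6 - k, by omega, by omega, Or.inr (by omega)⟩
    · exact ⟨i - k, by omega, by omega, Or.inl (by omega)⟩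
  have h1 : xk i w = xk (j + k) w := by
    rcases hj with h | h
    · rw [h]
    · rw [← h, (xk_add_six i w).1]
  have h2 : w * conj (zt ^ k) = 1 + (yk k w : ℝ) * I + ((xk k w - 1 : ℝ) : ℂ) * al := by
    have h := eq_of_coord k w
    have h3 := zt_mul_conj_pow k
    calc w * conj (zt ^ k) = zt ^ k * (1 + yk k w * I + (xk k w - 1 : ℝ) * al) * conj (zt ^ k) := by
          rw [← h]
      _ = (zt ^ k * conj (zt ^ k)) * (1 + yk k w * I + (xk k w - 1 : ℝ) * al) := by ring
      _ = _ := by rw [h3, one_mul]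
  rw [h1, (xk_rot j k w).1, h2]
  have := hp_coord_bd hs hy hj1 hj5
  linarith

/-- near a gap the product term only depends on the coordinate across the gap -/
private theorem hp_ev_prod {r : ℝ} (h0 : 0 < r) {z c : ℂ} {k : ℕ} (hk : k < 6)
    (hs : 0 ≤ xk k (z - c) - 1) (hy : |yk k (z - c)| ≤ YY) :
    ∀ᶠ z' in nhds z, ∏ i ∈ Finset.range 6, stp r (xk i (z' - c)) = stp r (xk k (z' - c)) := by
  by_cases hr : xk k (z - c) - 1 ≤ r / 4
  · have h2 : ∀ᶠ z' in nhds z, ∀ i ∈ Finset.range 6, i ≠ k → xk i (z' - c) < 1 + r / 6 := by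
      rw [Filter.eventually_all_finset]
      intro i hi
      by_cases hik : i = k
      · exact Filter.Eventually.of_forall fun _ h => absurd hik h
      · filter_upwards [hp_ev_lt (hp_c_xk i)
          (hp_other hk hs hy (Finset.mem_range.1 hi) hik hr h0)] with z' h _ using h
    filter_upwards [h2] with z' h3
    exact Finset.prod_eq_single k (fun i hi hik => hp_stp_one h0 (h3 i hi hik).le)
      (fun h => absurd (Finset.mem_range.2 hk) h)
  · have hr' : 1 + r / 4 < xk k (z - c) := by linarith [not_le.1 hr]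
    filter_upwards [hp_ev_prod_zero h0 hk hr', hp_ev_gt (hp_c_xk k) hr'] with z' a b
    rw [a, hp_stp_zero h0 b.le]

/-! the profile `gst` -/

private theorem hp_gst_zero {r X : ℝ} (h0 : 0 < r) (h : X ≤ 7 / 20 * r) : gst r X = 0 := by
  unfold gst
  apply Real.smoothTransition.zero_of_nonpos
  have : X / r ≤ 7 / 20 := by rw [div_le_iff₀ h0]; exact h
  apply div_nonpos_of_nonpos_of_nonneg <;> linarith

private theorem hp_gst_one {r X : ℝ} (h0 : 0 < r) (h : 13 / 20 * r ≤ X) : gst r X = 1 := by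
  unfold gst
  apply Real.smoothTransition.one_of_one_le
  have : 13 / 20 ≤ X / r := by rw [le_div_iff₀ h0]; exact h
  rw [le_div_iff₀ (by norm_num)]
  linarith

private theorem hp_deriv_const {f : ℝ → ℝ} {X c : ℝ} (h : ∀ᶠ x in nhds X, f x = c) :
    deriv f X = 0 := by
  have : f =ᶠ[nhds X] fun _ => c := h
  rw [this.deriv_eq]; simp

private theorem hp_gst_d {r X : ℝ} (h0 : 0 < r) (h : X < 7 / 20 * r ∨ 13 / 20 * r < X) :
    deriv (gst r) X = 0 := by
  rcases h with h | h
  · exact hp_deriv_const (c := 0) (by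
      filter_upwards [Iio_mem_nhds h] with x hx using hp_gst_zero h0 (le_of_lt hx))
  · exact hp_deriv_const (c := 1) (by
      filter_upwards [Ioi_mem_nhds h] with x hx using hp_gst_one h0 (le_of_lt hx))

private theorem hp_gst_dd {r X : ℝ} (h0 : 0 < r) (h : X < 7 / 20 * r ∨ 13 / 20 * r < X) :
    deriv (deriv (gst r)) X = 0 := by
  rcases h with h | h
  · exact hp_deriv_const (c := 0) (by
      filter_upwards [Iio_mem_nhds h] with x hx using hp_gst_d h0 (Or.inl hx))
  · exact hp_deriv_const (c := 0) (by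
      filter_upwards [Ioi_mem_nhds h] with x hx using hp_gst_d h0 (Or.inr hx))

private theorem hp_gst_ddd {r X : ℝ} (h0 : 0 < r) (h : X < 7 / 20 * r ∨ 13 / 20 * r < X) :
    deriv (deriv (deriv (gst r))) X = 0 := by
  rcases h with h | h
  · exact hp_deriv_const (c := 0) (by
      filter_upwards [Iio_mem_nhds h] with x hx using hp_gst_dd h0 (Or.inl hx))
  · exact hp_deriv_const (c := 0) (by
      filter_upwards [Ioi_mem_nhds h] with x hx using hp_gst_dd h0 (Or.inr hx))

/-- strut coordinates -/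
private theorem hp_strut_coord (N j : ℕ) (w : ℂ) :
    ((w - 1 - ym N j * I) / al).re = xk 0 w - 1 + 7 / 50 * (yk 0 w - ym N j) ∧
    ((w - 1 - ym N j * I) / al).im = 49 / 50 * (yk 0 w - ym N j) := by
  have hal : al ≠ 0 := by
    intro h; have := congrArg Complex.re h; simp [al] at this
  have h : (w - 1 - ym N j * I) / al =
      ⟨xk 0 w - 1 + 7 / 50 * (yk 0 w - ym N j), 49 / 50 * (yk 0 w - ym N j)⟩ := by
    rw [div_eq_iff hal]
    apply Complex.ext
    · simp [xk, yk, al]; ring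
    · simp [xk, yk, al]; ring
  rw [h]
  exact ⟨rfl, rfl⟩

private theorem hp_W0_left {r : ℝ} (h0 : 0 < r) {N j : ℕ} {w : ℂ}
    (h : xk 0 w - 1 + 7 / 50 * (yk 0 w - ym N j) < 7 / 20 * r) : W0 r N j w = 0 := by
  obtain ⟨e1, e2⟩ := hp_strut_coord N j w
  unfold W0 Vst
  rw [e1, e2, hp_gst_zero h0 h.le, hp_gst_d h0 (Or.inl h), hp_gst_dd h0 (Or.inl h)]
  simp

private theorem hp_W0_right {r : ℝ} (h0 : 0 < r) {N j : ℕ} {w : ℂ}
    (h : 13 / 20 * r < xk 0 w - 1 + 7 / 50 * (yk 0 w - ym N j)) : W0 r N j w = 2 * cc r * I * al := by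
  obtain ⟨e1, e2⟩ := hp_strut_coord N j w
  unfold W0 Vst
  rw [e1, e2, hp_gst_one h0 h.le, hp_gst_d h0 (Or.inr h), hp_gst_dd h0 (Or.inr h)]
  simp
  ring

/-- the partition of unity across a gap -/
private theorem hp_combine {r : ℝ} (h0 : 0 < r) {N j : ℕ} (hP : PP N ≤ r) (hN : 10 ≤ N) {w : ℂ}
    (hy : |yk 0 w - ym N j| ≤ 13 / 32 * PP N) :
    ((Tr r (xk 0 w - 1) : ℝ) : ℂ) * W0 r N j w +
      ((stp r (1 + r - (xk 0 w - 1)) : ℝ) : ℂ) * (2 * cc r * I * al) = W0 r N j w := by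
  have hPP := hp_PP_pos hN
  have hy' := abs_le.1 hy
  set s := xk 0 w - 1
  by_cases h1 : s < r / 4
  · rw [hp_W0_left h0 (by linarith), hp_stp_zero h0 (by linarith)]
    simp
  · by_cases h2 : 3 / 4 * r < s
    · rw [hp_W0_right h0 (by linarith)]
      have : Tr r s = 1 - stp r (1 + r - s) := by
        unfold Tr; rw [hp_stp_zero h0 (by linarith)]; ring
      rw [this]; push_cast; ring
    · have e1 : stp r (1 + r - s) = 0 := hp_stp_zero h0 (by linarith)
      have e2 : Tr r s = 1 := by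
        unfold Tr; rw [e1, hp_stp_zero h0 (by linarith)]; ring
      rw [e1, e2]; simp

/-- near a closed strut -/
theorem psi_strut {r : ℝ} (h0 : 0 < r) (h1 : r ≤ 1 / 100) {N : ℕ} (hN : 10 ≤ N) (hP : PP N ≤ r)
    {m : ℤ × ℤ} {k j : ℕ} (hk : k < 3) (hj : j < N) {z : ℂ}
    (hx0 : 1 ≤ xk k (z - lat r m)) (hx1 : xk k (z - lat r m) ≤ 1 + r)
    (hy : |yk k (z - lat r m) - ym N j| ≤ 3 / 8 * PP N) :
    ∀ᶠ z' in nhds z, z' + psi r N z' = lat r m + I * om r * (z' - lat r m)
      + zt ^ k * W0 r N j ((z' - lat r m) * conj (zt ^ k)) := by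
  have hPP := hp_PP_pos hN
  have hym := hp_ym_bd hN hj
  have hyY : |yk k (z - lat r m)| < YY := by
    have : |yk k (z - lat r m)| ≤ |yk k (z - lat r m) - ym N j| + |ym N j| := by
      have := abs_add_le (yk k (z - lat r m) - ym N j) (ym N j)
      simpa using this
    linarith
  have hsh : ∀ m' : ℤ × ℤ, z - lat r m' = z - lat r m - lat r (m' - m) := by
    intro m'
    have : lat r m' = lat r m + lat r (m' - m) := by rw [← lat_add]; congr 1; ring
    rw [this]; ring
  -- strut terms which vanish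
  have hst : ∀ m' : ℤ × ℤ, ∀ k' < 3, (m' - m ≠ 0 ∨ k' ≠ k) → ∀ j' < N,
      xk k' (z - lat r m') - 1 ≤ 0 ∨ r ≤ xk k' (z - lat r m') - 1 ∨
        7 / 16 * PP N < |yk k' (z - lat r m') - ym N j'| := by
    intro m' k' hk' hne j' hj'
    by_cases ha : xk k' (z - lat r m') - 1 ≤ 0
    · exact Or.inl ha
    · by_cases hb : r ≤ xk k' (z - lat r m') - 1
      · exact Or.inr (Or.inl hb)
      · refine Or.inr (Or.inr (hp_far hN hj' ?_))
        by_contra hc
        have ha' := not_le.1 ha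
        have hb' := not_le.1 hb
        have hc' := not_le.1 hc
        rw [hsh] at ha' hb' hc'
        exact sep_gap_gap h0 h1 hk hk' hne hx0 hx1 hyY (by linarith) (by linarith) hc'
  obtain ⟨u, hu0, hu⟩ := lat_unit r k
  have hmu : m + u - m = u := by ring
  have hmne : m ≠ m + u := fun h => hu0 (by
    have := congrArg (fun v => v - m) h
    simp only [sub_self, hmu] at this
    exact this.symm)
  have hS : ∀ m' ∉ ({m, m + u} : Finset (ℤ × ℤ)), ∀ᶠ z' in nhds z, psi0 r N (z' - lat r m') = 0 := by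
    intro m' hm'
    have hm1 : m' ≠ m := fun h => hm' (by simp [h])
    have hm2 : m' ≠ m + u := fun h => hm' (by simp [h])
    have hne : m' - m ≠ 0 := sub_ne_zero.2 hm1
    have hne2 : lat r (m' - m) ≠ 2 * lam r * zt ^ k := by
      rw [← hu]
      intro h
      have := lat_injective h0 h
      exact hm2 (by rw [← this]; ring)
    refine hp_ev_psi0_zero h0 hN ?_ fun k' hk' j' hj' => hst m' k' hk' (Or.inl hne) j' hj'
    obtain ⟨i, hi, hx⟩ := sep_gap h0 h1 (by omega : k < 6) hx0 hx1 hyY.le hne hne2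
    rw [← hsh] at hx
    exact ⟨i, hi, by linarith⟩
  -- the second tile
  have hop := fun z' : ℂ => xk_opp (r := r) k (z' - lat r m)
  have hc2 : ∀ z' : ℂ, z' - lat r (m + u) = z' - lat r m - 2 * lam r * zt ^ k := by
    intro z'; rw [lat_add, hu]; ring
  have hp2 : ∀ᶠ z' in nhds z, ∏ i ∈ Finset.range 6, stp r (xk i (z' - lat r (m + u)))
      = stp r (xk (k + 3) (z' - lat r (m + u))) := by
    refine hp_ev_prod h0 (by omega) ?_ ?_
    · rw [hc2, (hop z).1]; linarith
    · rw [hc2, (hop z).2, abs_neg]; exact hyY.le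
  have hst2 : ∀ᶠ z' in nhds z, ∀ k' ∈ Finset.range 3, ∀ j' ∈ Finset.range N,
      bmp ((yk k' (z' - lat r (m + u)) - ym N j') / PP N) * Tr r (xk k' (z' - lat r (m + u)) - 1) = 0 := by
    rw [Filter.eventually_all_finset]
    intro k' hk'
    rw [Filter.eventually_all_finset]
    intro j' hj'
    exact hp_ev_strut_zero h0 (hst _ k' (Finset.mem_range.1 hk') (Or.inl (by rw [hmu]; exact hu0)) j'
      (Finset.mem_range.1 hj')) hN
  -- the first tile
  have hp1 : ∀ᶠ z' in nhds z, ∏ i ∈ Finset.range 6, stp r (xk i (z' - lat r m))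
      = stp r (xk k (z' - lat r m)) := hp_ev_prod h0 (by omega) (by linarith) hyY.le
  have hst1 : ∀ᶠ z' in nhds z, ∀ k' ∈ Finset.range 3, ∀ j' ∈ Finset.range N, (k' ≠ k ∨ j' ≠ j) →
      bmp ((yk k' (z' - lat r m) - ym N j') / PP N) * Tr r (xk k' (z' - lat r m) - 1) = 0 := by
    rw [Filter.eventually_all_finset]
    intro k' hk'
    rw [Filter.eventually_all_finset]
    intro j' hj'
    by_cases hkk : k' = k
    · by_cases hjj : j' = j
      · exact Filter.Eventually.of_forall fun _ h => absurd h (by simp [hkk, hjj])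
      · have h3 : 7 / 16 * PP N < |yk k' (z - lat r m) - ym N j'| := by
          rw [hkk]
          have h4 := hp_ym_sep hN (Ne.symm hjj : j ≠ j')
          have h5 : |ym N j - ym N j'| ≤ |yk k (z - lat r m) - ym N j| + |yk k (z - lat r m) - ym N j'| := by
            have e : ym N j - ym N j' = -(yk k (z - lat r m) - ym N j) + (yk k (z - lat r m) - ym N j') := by
              ring
            rw [e]
            exact (abs_add_le _ _).trans (by rw [abs_neg])
          linarith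
        filter_upwards [hp_ev_strut_zero h0 (Or.inr (Or.inr h3)) hN] with z' h _ using h
    · filter_upwards [hp_ev_strut_zero h0 (hst m k' (Finset.mem_range.1 hk') (Or.inr hkk) j'
        (Finset.mem_range.1 hj')) hN] with z' h _ using h
  have hyc : Continuous fun w => |yk k w - ym N j| := ((hp_c_yk k).sub continuous_const).abs
  have hy2 : ∀ᶠ z' in nhds z, |yk k (z' - lat r m) - ym N j| < 13 / 32 * PP N :=
    hp_ev_lt hyc (by linarith)
  filter_upwards [hp_psi_eq h0 h1 hN z _ hS, hp2, hst2, hp1, hst1, hy2] with z' e a2 b2 a1 b1 y2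
  have ha2 : psi0 r N (z' - lat r (m + u)) =
      ((stp r (xk (k + 3) (z' - lat r (m + u))) : ℝ) : ℂ) *
        (I * om r * (z' - lat r (m + u)) - (z' - lat r (m + u))) := by
    unfold psi0
    rw [a2, Finset.sum_eq_zero fun k' hk' => Finset.sum_eq_zero fun j' hj' => by
      rw [b2 k' hk' j' hj', ofReal_zero, zero_mul], add_zero]
  have hb1 : bmp ((yk k (z' - lat r m) - ym N j) / PP N) = 1 := by
    apply hp_bmp_one
    rw [abs_div, abs_of_pos hPP, div_le_iff₀ hPP]
    exact y2.le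
  have ha1 : psi0 r N (z' - lat r m) =
      ((stp r (xk k (z' - lat r m)) : ℝ) : ℂ) * (I * om r * (z' - lat r m) - (z' - lat r m)) +
      ((Tr r (xk k (z' - lat r m) - 1) : ℝ) : ℂ) * (I * om r * (z' - lat r m) - (z' - lat r m) +
        zt ^ k * W0 r N j ((z' - lat r m) * conj (zt ^ k))) := by
    unfold psi0
    rw [a1, Finset.sum_eq_single k, Finset.sum_eq_single j]
    · rw [hb1, one_mul]
    · intro j' hj' hjj
      rw [b1 k (Finset.mem_range.2 hk) j' hj' (Or.inr hjj), ofReal_zero, zero_mul]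
    · intro h; exact absurd (Finset.mem_range.2 hj) h
    · intro k' hk' hkk
      exact Finset.sum_eq_zero fun j' hj' => by
        rw [b1 k' hk' j' hj' (Or.inl hkk), ofReal_zero, zero_mul]
    · intro h; exact absurd (Finset.mem_range.2 hk) h
  rw [e, Finset.sum_pair hmne, ha1, ha2, hc2, show xk (k + 3) (z' - lat r m - 2 * lam r * zt ^ k)
    = 1 + r - (xk k (z' - lat r m) - 1) by linarith [(hop z').1]]
  have hx : xk 0 ((z' - lat r m) * conj (zt ^ k)) = xk k (z' - lat r m) := by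
    have := (xk_rot 0 k (z' - lat r m)).1
    rw [zero_add] at this; exact this.symm
  have hy3 : yk 0 ((z' - lat r m) * conj (zt ^ k)) = yk k (z' - lat r m) := by
    have := (xk_rot 0 k (z' - lat r m)).2
    rw [zero_add] at this; exact this.symm
  have hcomb := hp_combine h0 hP hN (j := j) (w := (z' - lat r m) * conj (zt ^ k))
    (by rw [hy3]; exact y2.le)
  rw [hx] at hcomb
  set w := z' - lat r m
  have hsum : ((stp r (xk k w) : ℝ) : ℂ) + ((Tr r (xk k w - 1) : ℝ) : ℂ)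
      + ((stp r (1 + r - (xk k w - 1)) : ℝ) : ℂ) = 1 := by
    have : stp r (xk k w) + Tr r (xk k w - 1) + stp r (1 + r - (xk k w - 1)) = 1 := by
      unfold Tr
      rw [show 1 + (xk k w - 1) = xk k w by ring]; ring
    exact_mod_cast this
  have hz' : z' = lat r m + w := by simp [w]
  have hcc := cc_eq r
  conv_lhs => rw [hz']
  linear_combination (I * om r * w - w) * hsum + zt ^ k * hcomb
    + ((stp r (1 + r - (xk k w - 1)) : ℝ) : ℂ) * zt ^ k * hcc

/-! ### strains -/

private theorem hp_lin (L : ℂ →L[ℝ] ℂ) (v : ℂ) : L v = v.re * L 1 + v.im * L I := by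
  have h : v = v.re • (1 : ℂ) + v.im • I := by
    simp [Complex.re_add_im]
  conv_lhs => rw [h]
  rw [map_add, map_smul, map_smul]
  simp

private theorem hp_dv_comp {g : ℂ → ℂ} (hg : Differentiable ℝ g) (A B C w : ℂ) :
    dv (fun w => A * g (B * w + C)) w =
      (A * B * (fderiv ℝ g (B * w + C) 1 - I * fderiv ℝ g (B * w + C) I)).re ∧
    dbar (fun w => A * g (B * w + C)) w = A * conj B * dbar g (B * w + C) := by
  have h1 : HasFDerivAt (fun w : ℂ => B * w + C) (B • ContinuousLinearMap.id ℝ ℂ) w := by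
    have := ((hasFDerivAt_id (𝕜 := ℝ) w).const_mul B).add_const C
    exact this
  have h2 : HasFDerivAt (fun w => A * g (B * w + C))
      (A • ((fderiv ℝ g (B * w + C)).comp (B • ContinuousLinearMap.id ℝ ℂ))) w :=
    ((hg (B * w + C)).hasFDerivAt.comp w h1).const_mul A
  have e1 : fderiv ℝ (fun w => A * g (B * w + C)) w 1 = A * fderiv ℝ g (B * w + C) B := by
    rw [h2.fderiv]; simp
  have e2 : fderiv ℝ (fun w => A * g (B * w + C)) w I = A * fderiv ℝ g (B * w + C) (B * I) := by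
    rw [h2.fderiv]; simp
  set L := fderiv ℝ g (B * w + C)
  have l1 := hp_lin L B
  have l2 := hp_lin L (B * I)
  have r1 : (B * I).re = -B.im := by simp
  have r2 : (B * I).im = B.re := by simp
  rw [r1, r2] at l2
  have hB : (B.re : ℂ) + B.im * I = B := Complex.re_add_im B
  have hB' : (B.re : ℂ) - B.im * I = conj B := by
    apply Complex.ext <;> simp
  constructor
  · unfold dv
    rw [e1, e2, l1, l2]
    have key : A * B * (L 1 - I * L I) = A * (B.re * L 1 + B.im * L I)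
        + (-I) * (A * (((-B.im : ℝ) : ℂ) * L 1 + B.re * L I)) := by
      conv_lhs => rw [← hB]
      push_cast
      linear_combination (A * B.im * L I) * (-1 : ℂ) * Complex.I_mul_I
    rw [key, Complex.add_re]
    congr 1
    simp [Complex.mul_re]
  · unfold dbar
    rw [e1, e2, l1, l2, ← hB']
    push_cast
    linear_combination ((A * B.im * L I) / 2) * Complex.I_mul_I

private theorem hp_Vst_fderiv (r : ℝ) (q : ℂ) :
    fderiv ℝ (Vst r) q 1 = I * ((deriv (gst r) q.re
        + q.im ^ 2 / 2 * deriv (deriv (deriv (gst r))) q.re : ℝ) : ℂ)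
      - ((q.im * deriv (deriv (gst r)) q.re : ℝ) : ℂ) ∧
    fderiv ℝ (Vst r) q I = I * ((q.im * deriv (deriv (gst r)) q.re : ℝ) : ℂ)
      - ((deriv (gst r) q.re : ℝ) : ℂ) := by
  have c0 := hp_cd_gst r
  have c1 := hp_cd_deriv c0
  have c2 := hp_cd_deriv c1
  have top : (∞ : WithTop ℕ∞) ≠ 0 := by simp
  have g0 : HasDerivAt (gst r) (deriv (gst r) q.re) q.re := (c0.differentiable top _).hasDerivAt
  have g1 : HasDerivAt (deriv (gst r)) (deriv (deriv (gst r)) q.re) q.re :=
    (c1.differentiable top _).hasDerivAt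
  have g2 : HasDerivAt (deriv (deriv (gst r))) (deriv (deriv (deriv (gst r))) q.re) q.re :=
    (c2.differentiable top _).hasDerivAt
  have hre : HasFDerivAt (fun z : ℂ => z.re) Complex.reCLM q := Complex.reCLM.hasFDerivAt
  have him : HasFDerivAt (fun z : ℂ => z.im) Complex.imCLM q := Complex.imCLM.hasFDerivAt
  have k0 := g0.comp_hasFDerivAt q hre
  have k1 := g1.comp_hasFDerivAt q hre
  have k2 := g2.comp_hasFDerivAt q hre
  have hsq : HasFDerivAt (fun z : ℂ => z.im ^ 2 / 2) (q.im • Complex.imCLM) q := by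
    have h := (him.mul him).mul_const (1 / 2 : ℝ)
    refine (h.congr_fderiv ?_).congr_of_eventuallyEq ?_
    · ext
      simp
      ring
    · exact Filter.Eventually.of_forall fun z => by simp; ring
  have hu := k0.add (hsq.mul k2)
  have hv := him.mul k1
  have hV := ((Complex.ofRealCLM.hasFDerivAt.comp q hu).const_mul I).sub
    (Complex.ofRealCLM.hasFDerivAt.comp q hv)
  have hV' : HasFDerivAt (Vst r) _ q := hV
  rw [hV'.fderiv]
  constructor
  · simp; ring
  · simp; ring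

private theorem hp_re_im (x y : ℝ) : (I * (x : ℂ) - (y : ℂ)).re = -y ∧ (I * (x : ℂ) - (y : ℂ)).im = x := by
  constructor <;> simp

private theorem hp_sub_re (X Y : ℂ) : (X - I * Y).re = X.re + Y.im := by simp

private theorem hp_Vst_strain (r : ℝ) (q : ℂ) : dv (Vst r) q = 0 ∧
    ‖dbar (Vst r) q‖ ≤ q.im ^ 2 / 4 * |deriv (deriv (deriv (gst r))) q.re|
      + |q.im| * |deriv (deriv (gst r)) q.re| := by
  obtain ⟨e1, e2⟩ := hp_Vst_fderiv r q
  constructor
  · unfold dv
    rw [e1, e2, (hp_re_im _ _).1, (hp_re_im _ _).2]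
    ring
  · unfold dbar
    rw [e1, e2]
    have e : (I * ((deriv (gst r) q.re + q.im ^ 2 / 2 * deriv (deriv (deriv (gst r))) q.re : ℝ) : ℂ)
      - ((q.im * deriv (deriv (gst r)) q.re : ℝ) : ℂ)
      + I * (I * ((q.im * deriv (deriv (gst r)) q.re : ℝ) : ℂ) - ((deriv (gst r) q.re : ℝ) : ℂ))) / 2
      = I * ((q.im ^ 2 / 4 * deriv (deriv (deriv (gst r))) q.re : ℝ) : ℂ)
        - ((q.im * deriv (deriv (gst r)) q.re : ℝ) : ℂ) := by
      push_cast
      linear_combination ((q.im : ℂ) * (deriv (deriv (gst r)) q.re : ℝ) / 2) * Complex.I_mul_I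
    rw [e]
    refine (norm_sub_le _ _).trans ?_
    rw [norm_mul, Complex.norm_I, one_mul, Complex.norm_real, Complex.norm_real, Real.norm_eq_abs,
      Real.norm_eq_abs, abs_mul, abs_mul, abs_of_nonneg (by positivity : 0 ≤ q.im ^ 2 / 4)]

private theorem hp_bounded {f : ℝ → ℝ} (hf : Continuous f) {a b : ℝ}
    (h : ∀ x, x < a ∨ b < x → f x = 0) : ∃ M, 0 ≤ M ∧ ∀ x, |f x| ≤ M := by
  obtain ⟨M, hM⟩ := (isCompact_Icc (a := a) (b := b)).exists_bound_of_continuousOn hf.continuousOn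
  refine ⟨max M 0, le_max_right _ _, fun x => ?_⟩
  by_cases hx : x < a ∨ b < x
  · rw [h x hx, abs_zero]; exact le_max_right _ _
  · push Not at hx
    exact (hM x ⟨hx.1, hx.2⟩).trans (le_max_left _ _)

/-- strain in the struts -/
theorem W0_strain {r : ℝ} (h0 : 0 < r) (h1 : r ≤ 1 / 100) : ∃ C : ℝ, ∀ N : ℕ, 10 ≤ N → ∀ j < N,
    ∀ w : ℂ, |yk 0 w - ym N j| ≤ 3 / 8 * PP N →
      dv (W0 r N j) w = 0 ∧ ‖dbar (W0 r N j) w‖ ≤ C * PP N := by
  have c0 := hp_cd_gst r
  have c1 := hp_cd_deriv c0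
  have c2 := hp_cd_deriv c1
  have c3 := hp_cd_deriv c2
  obtain ⟨M2, hM2, hb2⟩ := hp_bounded c2.continuous (fun x hx => hp_gst_dd h0 hx)
  obtain ⟨M3, hM3, hb3⟩ := hp_bounded c3.continuous (fun x hx => hp_gst_ddd h0 hx)
  refine ⟨2 * |cc r| * (M3 + M2), fun N hN j hj w hy => ?_⟩
  have hPP := hp_PP_pos hN
  have hPl := hp_PP_lt hN
  have hal : al ≠ 0 := by
    intro h; have := congrArg Complex.re h; simp [al] at this
  have hW : W0 r N j = fun w => (2 * cc r * al) * Vst r (al⁻¹ * w + (-(1 + ym N j * I) / al)) := by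
    funext w
    unfold W0
    congr 2
    field_simp
    ring
  have hd : Differentiable ℝ (Vst r) := (hp_cd_Vst r).differentiable (by simp)
  have hq : al⁻¹ * w + (-(1 + ym N j * I) / al) = (w - 1 - ym N j * I) / al := by
    field_simp
    ring
  obtain ⟨d1, d2⟩ := hp_dv_comp hd (2 * cc r * al) al⁻¹ (-(1 + ym N j * I) / al) w
  rw [← hW, hq] at d1 d2
  obtain ⟨s1, s2⟩ := hp_Vst_strain r ((w - 1 - ym N j * I) / al)
  obtain ⟨q1, q2⟩ := hp_strut_coord N j w
  constructor
  · rw [d1]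
    have : (2 * cc r * al * al⁻¹ : ℂ) = ((2 * cc r : ℝ) : ℂ) := by
      rw [mul_assoc, mul_inv_cancel₀ hal]; push_cast; ring
    unfold dv at s1
    rw [this, Complex.re_ofReal_mul, hp_sub_re, s1, mul_zero]
  · rw [d2, norm_mul]
    have hn : ‖2 * cc r * al * conj al⁻¹‖ = 2 * |cc r| := by
      rw [norm_mul, norm_mul, norm_mul, RCLike.norm_conj, norm_inv, Complex.norm_real, Real.norm_eq_abs]
      have : ‖al‖ ≠ 0 := norm_ne_zero_iff.2 hal
      field_simp
      norm_num
      ring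
    rw [hn]
    set q := (w - 1 - ym N j * I) / al
    have him : |q.im| ≤ PP N := by
      rw [q2, abs_mul, abs_of_pos (by norm_num : (0 : ℝ) < 49 / 50)]
      linarith [abs_nonneg (yk 0 w - ym N j)]
    have hsq : q.im ^ 2 ≤ PP N := by
      rw [← sq_abs]
      nlinarith [abs_nonneg q.im]
    have t1 : q.im ^ 2 / 4 * |deriv (deriv (deriv (gst r))) q.re| ≤ PP N * M3 :=
      mul_le_mul (by linarith) (hb3 _) (abs_nonneg _) hPP.le
    have t2 : |q.im| * |deriv (deriv (gst r)) q.re| ≤ PP N * M2 :=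
      mul_le_mul him (hb2 _) (abs_nonneg _) hPP.le
    have t3 : ‖dbar (Vst r) q‖ ≤ PP N * (M3 + M2) := by linarith
    calc 2 * |cc r| * ‖dbar (Vst r) q‖ ≤ 2 * |cc r| * (PP N * (M3 + M2)) :=
          mul_le_mul_of_nonneg_left t3 (by positivity)
      _ = _ := by ring

private theorem hp_dv_congr {f g : ℂ → ℂ} {z : ℂ} (h : f =ᶠ[nhds z] g) :
    dv f z = dv g z ∧ dbar f z = dbar g z := by
  unfold dv dbar
  rw [h.fderiv_eq]
  exact ⟨rfl, rfl⟩

private theorem hp_dv_aff {g : ℂ → ℂ} {z : ℂ} (hg : DifferentiableAt ℝ g z) (a b : ℂ) :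
    dv (fun z => a + b * z + g z) z = 2 * b.re + dv g z ∧
    dbar (fun z => a + b * z + g z) z = dbar g z := by
  have h1 : HasFDerivAt (fun z : ℂ => a + b * z) (b • ContinuousLinearMap.id ℝ ℂ) z :=
    ((hasFDerivAt_id (𝕜 := ℝ) z).const_mul b).const_add a
  have h2 := h1.add hg.hasFDerivAt
  have h3 : HasFDerivAt (fun z => a + b * z + g z) _ z := h2
  unfold dv dbar
  rw [h3.fderiv]
  constructor
  · simp; ring
  · simp
    linear_combination b * Complex.I_mul_I

theorem psi_solid {r : ℝ} (h0 : 0 < r) (h1 : r ≤ 1 / 100) : ∃ C : ℝ, ∀ N : ℕ, 10 ≤ N →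
    PP N ≤ r → ∀ z ∉ Vd r N, 2 + dv (psi r N) z = 0 ∧ ‖dbar (psi r N) z‖ ≤ C * PP N := by
  obtain ⟨C, hC⟩ := W0_strain h0 h1
  refine ⟨|C|, fun N hN hP z hz => ?_⟩
  have hPP := hp_PP_pos hN
  have hd : ∀ j, Differentiable ℝ (W0 r N j) := fun j => (hp_cd_W0 r N j).differentiable (by simp)
  rcases classify' h0 h1 hN hz with ⟨m, hm⟩ | ⟨m, k, hk, j, hj, hx0, hx1, hy⟩
  · have h := psi_tile h0 h1 hN hm
    have h2 : psi r N =ᶠ[nhds z] fun z' => (lat r m - I * om r * lat r m) + (I * om r - 1) * z' + (fun _ : ℂ => (0 : ℂ)) z' := by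
      filter_upwards [h] with z' e
      linear_combination e
    obtain ⟨e1, e2⟩ := hp_dv_congr h2
    obtain ⟨f1, f2⟩ := hp_dv_aff (g := fun _ : ℂ => (0 : ℂ)) (z := z) (differentiableAt_const _)
      (lat r m - I * om r * lat r m) (I * om r - 1)
    have g1 : dv (fun _ : ℂ => (0 : ℂ)) z = 0 := by unfold dv; simp
    have g2 : dbar (fun _ : ℂ => (0 : ℂ)) z = 0 := by unfold dbar; simp
    constructor
    · rw [e1, f1, g1]; simp
    · rw [e2, f2, g2, norm_zero]; positivity
  · have h := psi_strut h0 h1 hN hP hk hj hx0 hx1 hy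
    set g : ℂ → ℂ := fun z' => zt ^ k * W0 r N j (conj (zt ^ k) * z' + (-(lat r m * conj (zt ^ k))))
    have h2 : psi r N =ᶠ[nhds z] fun z' => (lat r m - I * om r * lat r m) + (I * om r - 1) * z' + g z' := by
      filter_upwards [h] with z' e
      have e3 : conj (zt ^ k) * z' + (-(lat r m * conj (zt ^ k))) = (z' - lat r m) * conj (zt ^ k) := by
        ring
      simp only [g, e3]
      linear_combination e
    obtain ⟨e1, e2⟩ := hp_dv_congr h2
    have hgd : DifferentiableAt ℝ g z := by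
      simp only [g]
      exact ((hd j _).comp z (((differentiableAt_id).const_mul _).add_const _)).const_mul _
    obtain ⟨f1, f2⟩ := hp_dv_aff hgd (lat r m - I * om r * lat r m) (I * om r - 1)
    obtain ⟨d1, d2⟩ := hp_dv_comp (hd j) (zt ^ k) (conj (zt ^ k)) (-(lat r m * conj (zt ^ k))) z
    have hq : conj (zt ^ k) * z + (-(lat r m * conj (zt ^ k))) = (z - lat r m) * conj (zt ^ k) := by ring
    rw [hq] at d1 d2
    have hyy : |yk 0 ((z - lat r m) * conj (zt ^ k)) - ym N j| ≤ 3 / 8 * PP N := by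
      have := (xk_rot 0 k (z - lat r m)).2
      rw [zero_add] at this
      rw [← this]; exact hy
    obtain ⟨s1, s2⟩ := hC N hN j hj _ hyy
    constructor
    · unfold dv at s1
      rw [e1, f1, d1, zt_mul_conj_pow, one_mul, hp_sub_re, s1]
      simp
    · rw [e2, f2, d2, norm_mul, norm_mul, RCLike.norm_conj, RCLike.norm_conj, hp_norm_zt_pow, one_mul,
        one_mul]
      exact s2.trans (mul_le_mul_of_nonneg_right (le_abs_self C) hPP.le)

end EBC
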