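import Pool.Agent.Work.MP_ebc928_an.HexEnergy
import Pool.Agent.Work.MP_ebc928_an.HexPsi

open MeasureTheory Complex Set
open scoped ContDiff ComplexConjugate

noncomputable section
namespace EBC

theorem hexB_volume_par (p q : ℂ) (h : 0 < (conj p * q).im) :
    volume (par p q) ≤ ENNReal.ofReal ((conj p * q).im) := by
  set L : ℂ →ₗ[ℝ] ℂ := Matrix.toLin basisOneI basisOneI !![p.re, q.re; p.im, q.im] with hL
  have hLa : ∀ z : ℂ, L z = z.re • p + z.im • q := by
    intro z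
    rw [hL]
    apply Complex.ext
    · simp [Matrix.toLin_apply, Matrix.mulVec, dotProduct, Fin.sum_univ_two]
      ring
    · simp [Matrix.toLin_apply, Matrix.mulVec, dotProduct, Fin.sum_univ_two]
      ring
  have hdet : LinearMap.det L = (conj p * q).im := by
    rw [hL, LinearMap.det_toLin, Matrix.det_fin_two_of]
    simp
    ring
  have hsub : par p q ⊆ L '' {w : ℂ | w.re ∈ Icc (0 : ℝ) 1 ∧ w.im ∈ Icc (0 : ℝ) 1} := by
    rintro z ⟨s, t, hs, ht, rfl⟩
    refine ⟨⟨s, t⟩, ⟨⟨hs.1, hs.2.le⟩, ⟨ht.1, ht.2.le⟩⟩, ?_⟩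
    rw [hLa]
  refine (measure_mono hsub).trans ?_
  rw [Measure.addHaar_image_linearMap, hdet, abs_of_pos h, hexE_rect _ _ _ _ (by norm_num)]
  simp

theorem hex_base {ε : ℝ} (hε : 0 < ε) : ∃ (ω₁ ω₂ : ℂ) (V : Set ℂ) (ψ Ξ : ℂ → ℂ) (p₀ : ℂ) (r₀ : ℝ),
    IsBase ω₁ ω₂ V ψ Ξ p₀ r₀ ε (68579 / 56250 + ε) := by
  obtain ⟨C, hC⟩ := Xi_energy
  -- the gap width
  obtain ⟨r, h0, h1, hr⟩ : ∃ r : ℝ, 0 < r ∧ r ≤ 1 / 100 ∧ |C| * r ≤ ε / 2 := by
    refine ⟨min (1 / 100) (ε / (2 * (|C| + 1))), by positivity, min_le_left _ _, ?_⟩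
    have h2 : min (1 / 100) (ε / (2 * (|C| + 1))) ≤ ε / (2 * (|C| + 1)) := min_le_right _ _
    have h3 : |C| * min (1 / 100) (ε / (2 * (|C| + 1))) ≤ |C| * (ε / (2 * (|C| + 1))) :=
      mul_le_mul_of_nonneg_left h2 (abs_nonneg C)
    refine h3.trans ?_
    have h4 : 0 < |C| + 1 := by positivity
    have h5 : |C| * (ε / (2 * (|C| + 1))) = (ε / 2) * (|C| / (|C| + 1)) := by
      field_simp
    rw [h5]
    have h6 : |C| / (|C| + 1) ≤ 1 := by
      rw [div_le_one h4]
      linarith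
    nlinarith
  obtain ⟨C', hC'⟩ := psi_solid h0 h1
  obtain ⟨N, hN⟩ := exists_nat_gt
    (10 + 2 * YY / r + 2 * |C| / ε + (2 * YY) * (4 * C' ^ 2 * (2 * YY)) / ε)
  have hY := YY_pos
  have t1 : 0 ≤ 2 * YY / r := by positivity
  have t2 : 0 ≤ 2 * |C| / ε := by positivity
  have t3 : 0 ≤ (2 * YY) * (4 * C' ^ 2 * (2 * YY)) / ε := by positivity
  have hN10 : 10 ≤ N := by
    have : (10 : ℝ) < N := by linarith
    have : 10 < N := by exact_mod_cast this
    omega
  have hNpos : (0 : ℝ) < N := by linarith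
  have hN1 : (1 : ℝ) ≤ N := by linarith
  have hP0 : 0 < PP N := by
    unfold PP
    positivity
  have hPr : PP N ≤ r := by
    unfold PP
    rw [div_le_iff₀ hNpos]
    have : 2 * YY / r ≤ N := by linarith
    rw [div_le_iff₀ h0] at this
    linarith
  have hCN : |C| * (1 / N) ≤ ε / 2 := by
    have : 2 * |C| / ε ≤ N := by linarith
    rw [div_le_iff₀ hε] at this
    rw [mul_one_div, div_le_iff₀ hNpos]
    linarith
  have hCP : 4 * (C' * PP N) ^ 2 ≤ ε := by
    have h2 : (2 * YY) * (4 * C' ^ 2 * (2 * YY)) / ε ≤ N := by linarith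
    rw [div_le_iff₀ hε] at h2
    unfold PP
    have h3 : 4 * (C' * (2 * YY / N)) ^ 2 = (2 * YY) * (4 * C' ^ 2 * (2 * YY)) / N / N := by
      field_simp
    rw [h3, div_le_iff₀ hNpos, div_le_iff₀ hNpos]
    have h4 : ε * N ≤ ε * N * N := le_mul_of_one_le_right (by positivity) hN1
    linarith
  have hlam : 0 < ‖lam r‖ ^ 2 := by
    rw [← Complex.normSq_eq_norm_sq]
    unfold lam al
    rw [Complex.normSq_apply]
    simp
    nlinarith
  have hpos : 0 < (conj (2 * lam r) * (2 * lam r * zt)).im := by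
    rw [im_par]
    positivity
  have hl1 : lat r (1, 0) = 2 * lam r := by simp [lat]
  have hl2 : lat r (0, 1) = 2 * lam r * zt := by simp [lat]
  have hsol := hC' N hN10 hPr
  refine ⟨2 * lam r, 2 * lam r * zt, Vd r N, psi r N, Xi r N, 0, 1 / 2, ?_⟩
  refine
    { pos := hpos
      isOpen := isOpen_Vd h0 h1 hN10
      nonempty := Vd_nonempty h0 h1 hN10
      perV := ?_
      smooth := contDiff_psi h0 h1 hN10
      perψ := psi_per h0 N
      div0 := fun z hz => (hsol z hz).1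
      enA := ?_
      c11 := Xi_c11 h0 h1 hN10
      perΞ := Xi_per h0 h1 hN10
      flat := Xi_flat h0 h1 hN10
      enB := ?_
      r₀pos := by norm_num
      solid := ?_ }
  · intro z
    rw [← hl2, ← hl1]
    exact ⟨Vd_per r N z (1, 0), Vd_per r N z (0, 1)⟩
  · refine hexE_small hpos.le ((measure_mono sdiff_subset).trans (hexB_volume_par _ _ hpos)) hε.le ?_
    have hm : MeasurableSet (Vd r N)ᶜ := (isOpen_Vd h0 h1 hN10).measurableSet.compl
    have h2 : ∀ᵐ z ∂(volume.restrict (Vd r N)ᶜ), ‖4 * ‖dbar (psi r N) z‖ ^ 2‖ ≤ ε := by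
      rw [ae_restrict_iff' hm]
      refine Filter.Eventually.of_forall fun z hz => ?_
      have h3 := (hsol z hz).2
      rw [Real.norm_of_nonneg (by positivity)]
      have h4 := pow_le_pow_left₀ (norm_nonneg _) h3 2
      linarith
    exact ae_restrict_of_ae_restrict_of_subset (fun z hz => hz.2) h2
  · refine (hC r h0 h1 N hN10).trans ?_
    refine mul_le_mul_of_nonneg_right ?_ hpos.le
    have h2 : C * (r + 1 / N) ≤ |C| * (r + 1 / N) :=
      mul_le_mul_of_nonneg_right (le_abs_self C) (by positivity)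
    linarith
  · intro m n
    have := Vd_solid h0 h1 hN10 (m, n)
    have h2 : lat r (m, n) = 0 + m • (2 * lam r) + n • (2 * lam r * zt) := by
      simp only [lat, zsmul_eq_mul]
      ring
    rwa [h2] at this

end EBC
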