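import Pool.Agent.Work.MP_ebc928_an.BaseDefs

/-! Explicit formulas for the hexagonal base structure.  Parameters: `r` (relative gap width,
`0 < r ≤ 1/100`) and `N` (number of struts per side, `N ≥ 10`, `P = 2Y/N ≤ r` for the
displacement). -/

open MeasureTheory Complex Set
open scoped ContDiff ComplexConjugate

noncomputable section
namespace EBC

/-- `e^{iπ/3}` -/
def zt : ℂ := ⟨1 / 2, Real.sqrt 3 / 2⟩
/-- strut direction `1 + i/7` (`|al|² = 50/49`) -/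
def al : ℂ := ⟨1, 1 / 7⟩
def lam (r : ℝ) : ℂ := 1 + (r / 2 : ℝ) * al
/-- half the side length of the hexagon with apothem `1` -/
def YY : ℝ := 1 / Real.sqrt 3
def PP (N : ℕ) : ℝ := 2 * YY / N
/-- positions of the voids on a side -/
def yj (N : ℕ) (j : ℕ) : ℝ := -YY + j * PP N
/-- positions of the struts on a side -/
def ym (N : ℕ) (j : ℕ) : ℝ := -YY + (j + 1 / 2) * PP N
/-- the corners `V`, `V̄` of the hexagonal tile -/
def VV : ℂ := ⟨1, YY⟩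

/-- coordinates adapted to side `k`: `w = ζ^k (1 + i yk + (xk - 1) al)`. -/
def xk (k : ℕ) (w : ℂ) : ℝ := (w * conj (zt ^ k)).re
def yk (k : ℕ) (w : ℂ) : ℝ := (w * conj (zt ^ k)).im - (xk k w - 1) / 7

/-- lattice points `2 λ (a + b ζ)` -/
def lat (r : ℝ) (m : ℤ × ℤ) : ℂ := 2 * lam r * (m.1 + m.2 * zt)
/-- the closed Voronoi cell of `0` -/
def Vor (r : ℝ) : Set ℂ := {w | ∀ k < 6, (w * conj (zt ^ k * lam r)).re ≤ ‖lam r‖ ^ 2}

/-- the void set in the Voronoi cell -/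
def V6 (N : ℕ) : Set ℂ := {w | ∃ k < 6,
  (1 < xk k w ∧ ∃ j, 1 ≤ j ∧ j ≤ N - 1 ∧ |yk k w - yj N j| < PP N / 4) ∨
  (YY - PP N / 8 < yk k w ∧ yk (k + 1) w < -YY + PP N / 8)}

/-- the periodic void set -/
def Vd (r : ℝ) (N : ℕ) : Set ℂ := {z | ∀ m : ℤ × ℤ, z - lat r m ∈ Vor r → z - lat r m ∈ V6 N}

/-! ### the stress function -/

/-- the polynomial complex Airy function on the tile (sector `|arg| ≤ π/6`) -/
def Phi0 (z : ℂ) : ℂ :=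
  (141 + 7 * I) / 250 * z ^ 2 +
  (88 + 21 * I) / 750 * (z ^ 3 + 2 * z ^ 2 * conj z - z * conj z ^ 2 / 2) +
  (-64 + 147 * I) / 1500 * (z ^ 2 * conj z - z * conj z ^ 2 + conj z ^ 3) -
  1 / 10 * (z ^ 4 + 3 * z ^ 2 * conj z ^ 2 - 2 * z * conj z ^ 3) +
  (-2 - 14 * I) / 125 * (z ^ 3 * conj z) + (-1 - 7 * I) / 250 * conj z ^ 4

/-- `1` for `t ≤ 1/4`, `0` for `t ≥ 1/2` -/
def chi1 (t : ℝ) : ℝ := Real.smoothTransition (2 - 4 * t)
def chi (t : ℝ) : ℝ := chi1 t * chi1 (-t)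

/-- boundary values on the side `1 + i y` -/
def GG (r : ℝ) (y : ℝ) : ℂ := lam r * Phi0 (1 + y * I)
/-- the affine function of the junction at `V` -/
def lV (r : ℝ) (w : ℂ) : ℂ :=
  lam r * (Phi0 VV + VV * (w - VV) - I * al / (Real.sqrt 3 * conj al) * conj (w - VV))
/-- the affine function of the junction at `V̄` -/
def lVb (r : ℝ) (w : ℂ) : ℂ := conj (zt ^ 2) * lV r (zt * w)
/-- second order remainders at the voids `yj`, `1 ≤ j ≤ N-1` -/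
def RR (r : ℝ) (N : ℕ) (y : ℝ) : ℂ := ∑ j ∈ Finset.Icc 1 (N - 1),
  (chi ((y - yj N j) / PP N) : ℂ) * (GG r y - GG r (yj N j) - (y - yj N j) * deriv (GG r) (yj N j))
def GN (r : ℝ) (N : ℕ) (y : ℝ) : ℂ :=
  GG r y - chi1 ((YY - y) / PP N) * (GG r y - lV r (1 + y * I))
    - chi1 ((YY + y) / PP N) * (GG r y - lVb r (1 + y * I)) - RR r N y
def XV (N : ℕ) (w : ℂ) : ℝ := chi1 ((YY - yk 0 w) / PP N) * chi1 ((YY + yk 1 w) / PP N)
def XVb (N : ℕ) (w : ℂ) : ℝ := chi1 ((YY + yk 0 w) / PP N) * chi1 ((YY - yk 5 w) / PP N)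
def Fin0 (r : ℝ) (N : ℕ) (w : ℂ) : ℂ :=
  lam r * Phi0 w - XV N w * (lam r * Phi0 w - lV r w) - XVb N w * (lam r * Phi0 w - lVb r w)
    - chi1 ((1 - xk 0 w) / PP N) * RR r N (yk 0 w)
def Fout0 (r : ℝ) (N : ℕ) (w : ℂ) : ℂ :=
  GN r N (yk 0 w) + ((xk 0 w - 1 : ℝ) : ℂ) * (al * lam r)

/-- the twelve pieces: sectors `k`, inside the tile (`false`) or outside (`true`) -/
def pieceS (i : Fin 6 × Bool) : Set ℂ :=
  {w | (∀ j < 6, xk j w ≤ xk i.1 w) ∧ (if i.2 then 1 ≤ xk i.1 w else xk i.1 w ≤ 1)}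
def pieceF (r : ℝ) (N : ℕ) (i : Fin 6 × Bool) (w : ℂ) : ℂ :=
  zt ^ (2 * (i.1 : ℕ)) *
    (if i.2 then Fout0 r N (w * conj (zt ^ (i.1 : ℕ))) else Fin0 r N (w * conj (zt ^ (i.1 : ℕ))))

open Classical in
/-- glued functions -/
def glue {ι : Type} (A : ι → Set ℂ) (f : ι → ℂ → ℂ) (z : ℂ) : ℂ :=
  if h : ∃ i, z ∈ A i then f h.choose z else 0

/-- the complex Airy function in the Voronoi cell -/
def FF (r : ℝ) (N : ℕ) : ℂ → ℂ := glue pieceS (pieceF r N)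
/-- the periodic complex Airy function -/
def Xi (r : ℝ) (N : ℕ) : ℂ → ℂ :=
  glue (fun m : ℤ × ℤ => {z | z - lat r m ∈ Vor r})
    (fun m z => FF r N (z - lat r m) - (z - lat r m) ^ 2 / 2)

/-- twice the energy density `|F_zz|² + |F_z̄z̄|²` -/
def E2 (F : ℂ → ℂ) (z : ℂ) : ℝ :=
  ‖(D2 F z 1 1 - D2 F z I I - 2 * I * D2 F z 1 I) / 4‖ ^ 2 +
    ‖(D2 F z 1 1 - D2 F z I I + 2 * I * D2 F z 1 I) / 4‖ ^ 2

/-! ### the displacement -/

/-- rotation rate of the tiles: `(1 + r|al|²/2)/(1/7)` -/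
def om (r : ℝ) : ℝ := 7 * (1 + r / 2 * (50 / 49))
/-- `(1 - i ω) 2λ = 2 c i al` -/
def cc (r : ℝ) : ℝ := -(7 / 50) * (1 + om r ^ 2)
/-- `1` for `x ≤ 1 + r/6`, `0` for `x ≥ 1 + r/4` -/
def stp (r : ℝ) (x : ℝ) : ℝ := Real.smoothTransition ((1 + r / 4 - x) / (r / 12))
/-- `0` for `s ≤ r/6`, `1` for `r/4 ≤ s ≤ 3r/4`, `0` for `s ≥ 5r/6` -/
def Tr (r : ℝ) (s : ℝ) : ℝ := 1 - stp r (1 + s) - stp r (1 + r - s)
/-- `1` for `|t| ≤ 13/32`, `0` for `|t| ≥ 7/16` -/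
def bmp (t : ℝ) : ℝ := Real.smoothTransition (14 - 32 * t) * Real.smoothTransition (14 + 32 * t)
/-- `0` for `X ≤ 7r/20`, `1` for `X ≥ 13r/20` -/
def gst (r : ℝ) (X : ℝ) : ℝ := Real.smoothTransition ((X / r - 7 / 20) / (3 / 10))
/-- divergence free field in the strut coordinates `X + iσ` -/
def Vst (r : ℝ) (q : ℂ) : ℂ :=
  I * ((gst r q.re + q.im ^ 2 / 2 * deriv (deriv (gst r)) q.re : ℝ) : ℂ)
    - ((q.im * deriv (gst r) q.re : ℝ) : ℂ)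
def W0 (r : ℝ) (N : ℕ) (j : ℕ) (w : ℂ) : ℂ := 2 * cc r * al * Vst r ((w - 1 - ym N j * I) / al)
def psi0 (r : ℝ) (N : ℕ) (w : ℂ) : ℂ :=
  ((∏ k ∈ Finset.range 6, stp r (xk k w) : ℝ) : ℂ) * (I * om r * w - w) +
  ∑ k ∈ Finset.range 3, ∑ j ∈ Finset.range N,
    ((bmp ((yk k w - ym N j) / PP N) * Tr r (xk k w - 1) : ℝ) : ℂ) *
      (I * om r * w - w + zt ^ k * W0 r N j (w * conj (zt ^ k)))
def psi (r : ℝ) (N : ℕ) (z : ℂ) : ℂ := ∑' m : ℤ × ℤ, psi0 r N (z - lat r m)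

end EBC
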