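import Pool.Agent.Work.MP_ebc928_an.HexPoly

open MeasureTheory Complex Set
open scoped ContDiff ComplexConjugate

noncomputable section
namespace EBC

/-- the sector of the tile -/
def sec0 : Set ℂ := {z | z.re ∈ Icc (0 : ℝ) 1 ∧ |z.im| ≤ z.re * YY}

theorem isCompact_sec0 : IsCompact sec0 := by
  have hcl : IsClosed sec0 := by
    have e : sec0 = {z : ℂ | 0 ≤ z.re} ∩ {z : ℂ | z.re ≤ 1} ∩ {z : ℂ | |z.im| ≤ z.re * YY} := by
      ext z; simp [sec0]
    rw [e]
    refine ((isClosed_le continuous_const continuous_re).inter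
      (isClosed_le continuous_re continuous_const)).inter
      (isClosed_le (continuous_abs.comp continuous_im) (continuous_re.mul continuous_const))
  have hb : Bornology.IsBounded sec0 := by
    rw [Metric.isBounded_iff_subset_closedBall 0]
    refine ⟨1 + YY, fun z hz => ?_⟩
    rw [mem_closedBall_zero_iff]
    obtain ⟨⟨h0, h1⟩, h2⟩ := hz
    have := Complex.norm_le_abs_re_add_abs_im z
    rw [abs_of_nonneg h0] at this
    have h3 := YY_pos
    nlinarith
  exact Metric.isCompact_of_isClosed_isBounded hcl hb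

theorem integral_sec0 (f : ℂ → ℝ) (hf : Continuous f) :
    ∫ z in sec0, f z =
      ∫ x in (0 : ℝ)..1, ∫ y in (-(x * YY))..(x * YY), f (⟨x, y⟩ : ℂ) := by
  have hint : IntegrableOn f sec0 := hf.continuousOn.integrableOn_compact isCompact_sec0
  have hms : MeasurableSet sec0 := isCompact_sec0.isClosed.measurableSet
  have hint2 : Integrable (sec0.indicator f) := hint.integrable_indicator hms
  rw [← integral_indicator hms]
  have hvp := Complex.volume_preserving_equiv_real_prod.symm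
  rw [← hvp.integral_comp (Complex.measurableEquivRealProd.symm.measurableEmbedding)]
  have hint3 : Integrable (fun p : ℝ × ℝ => sec0.indicator f (Complex.measurableEquivRealProd.symm p))
      (volume.prod volume) :=
    (hvp.integrable_comp_emb (Complex.measurableEquivRealProd.symm.measurableEmbedding)).2 hint2
  have : (volume : Measure (ℝ × ℝ)) = volume.prod volume := rfl
  rw [this, integral_prod _ hint3]
  have hin : ∀ x : ℝ, (∫ y, sec0.indicator f (Complex.measurableEquivRealProd.symm (x, y))) =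
      (Icc (0 : ℝ) 1).indicator (fun x => ∫ y in (-(x * YY))..(x * YY), f (⟨x, y⟩ : ℂ)) x := by
    intro x
    by_cases hx : x ∈ Icc (0 : ℝ) 1
    · rw [indicator_of_mem hx]
      have hx2 : 0 ≤ x * YY := mul_nonneg hx.1 YY_pos.le
      rw [intervalIntegral.integral_of_le (by linarith), ← integral_Icc_eq_integral_Ioc,
        ← integral_indicator measurableSet_Icc]
      refine integral_congr_ae (Filter.Eventually.of_forall fun y => ?_)
      have e : Complex.measurableEquivRealProd.symm (x, y) = (⟨x, y⟩ : ℂ) := rfl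
      simp only [e]
      by_cases hy : y ∈ Icc (-(x * YY)) (x * YY)
      · rw [indicator_of_mem hy, indicator_of_mem]
        exact ⟨hx, abs_le.2 hy⟩
      · rw [indicator_of_notMem hy, indicator_of_notMem]
        rintro ⟨_, h⟩
        exact hy (abs_le.1 h)
    · rw [indicator_of_notMem hx]
      refine (integral_congr_ae (Filter.Eventually.of_forall fun y => ?_)).trans
        (integral_zero _ _)
      show sec0.indicator f (⟨x, y⟩ : ℂ) = 0
      rw [indicator_of_notMem]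
      rintro ⟨h, _⟩
      exact hx h
  simp_rw [hin]
  rw [integral_indicator measurableSet_Icc, integral_Icc_eq_integral_Ioc,
    intervalIntegral.integral_of_le zero_le_one]

theorem int_poly4 (c0 c1 c2 c3 c4 a : ℝ) :
    ∫ y in (-a)..a, (c0 + c1 * y + c2 * y ^ 2 + c3 * y ^ 3 + c4 * y ^ 4) =
      2 * a * c0 + 2 * a ^ 3 / 3 * c2 + 2 * a ^ 5 / 5 * c4 := by
  have h : ∀ y : ℝ, HasDerivAt (fun y => c0 * y + c1 * (y ^ 2 / 2) + c2 * (y ^ 3 / 3) +
      c3 * (y ^ 4 / 4) + c4 * (y ^ 5 / 5))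
      (c0 + c1 * y + c2 * y ^ 2 + c3 * y ^ 3 + c4 * y ^ 4) y := by
    intro y
    have h1 : HasDerivAt (fun y : ℝ => y) 1 y := hasDerivAt_id y
    have h2 := (((((h1.const_mul c0).add (((h1.pow 2).div_const 2).const_mul c1)).add
      (((h1.pow 3).div_const 3).const_mul c2)).add
      (((h1.pow 4).div_const 4).const_mul c3)).add (((h1.pow 5).div_const 5).const_mul c4))
    refine h2.congr_deriv ?_
    simp
  rw [intervalIntegral.integral_eq_sub_of_hasDerivAt (fun y _ => h y)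
    (by apply Continuous.intervalIntegrable; fun_prop)]
  ring

theorem int_poly5 (b1 b2 b3 b4 b5 : ℝ) :
    ∫ x in (0 : ℝ)..1, (b1 * x + b2 * x ^ 2 + b3 * x ^ 3 + b4 * x ^ 4 + b5 * x ^ 5) =
      b1 / 2 + b2 / 3 + b3 / 4 + b4 / 5 + b5 / 6 := by
  have h : ∀ y : ℝ, HasDerivAt (fun y => b1 * (y ^ 2 / 2) + b2 * (y ^ 3 / 3) +
      b3 * (y ^ 4 / 4) + b4 * (y ^ 5 / 5) + b5 * (y ^ 6 / 6))
      (b1 * y + b2 * y ^ 2 + b3 * y ^ 3 + b4 * y ^ 4 + b5 * y ^ 5) y := by
    intro y
    have h1 : HasDerivAt (fun y : ℝ => y) 1 y := hasDerivAt_id y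
    have h2 := ((((((h1.pow 2).div_const 2).const_mul b1).add
      (((h1.pow 3).div_const 3).const_mul b2)).add
      (((h1.pow 4).div_const 4).const_mul b3)).add (((h1.pow 5).div_const 5).const_mul b4)).add
      (((h1.pow 6).div_const 6).const_mul b5)
    refine h2.congr_deriv ?_
    simp
  rw [intervalIntegral.integral_eq_sub_of_hasDerivAt (fun y _ => h y)
    (by apply Continuous.intervalIntegrable; fun_prop)]
  ring

/-- second derivatives -/
def hpA (z : ℂ) : ℂ :=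
  (141 + 7 * I) / 125 + (88 + 21 * I) / 750 * (6 * z + 4 * conj z) +
  (-64 + 147 * I) / 1500 * (2 * conj z) - 1 / 10 * (12 * z ^ 2 + 6 * conj z ^ 2) +
  (-2 - 14 * I) / 125 * (6 * z * conj z)

def hpB (z : ℂ) : ℂ :=
  (88 + 21 * I) / 750 * (-z) + (-64 + 147 * I) / 1500 * (-2 * z + 6 * conj z) -
  1 / 10 * (6 * z ^ 2 - 12 * z * conj z) + (-1 - 7 * I) / 250 * (12 * conj z ^ 2)

def hpC (z : ℂ) : ℂ :=
  (88 + 21 * I) / 750 * (4 * z - conj z) + (-64 + 147 * I) / 1500 * (2 * z - 2 * conj z) -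
  1 / 10 * (12 * z * conj z - 6 * conj z ^ 2) + (-2 - 14 * I) / 125 * (3 * z ^ 2)

theorem hasFDerivAt_hpPz (z : ℂ) :
    HasFDerivAt hpPz (hpA z • (1 : ℂ →L[ℝ] ℂ) + hpC z • (Complex.conjCLE : ℂ →L[ℝ] ℂ)) z := by
  have hz : HasFDerivAt (fun z : ℂ => z) (1 : ℂ →L[ℝ] ℂ) z := hasFDerivAt_id z
  have hc : HasFDerivAt (fun z : ℂ => conj z) (Complex.conjCLE : ℂ →L[ℝ] ℂ) z :=
    Complex.conjCLE.hasFDerivAt
  have e1 := (hz.const_mul 2).const_mul ((141 + 7 * I) / 250)
  have e2 := (((((hz.pow 2).const_mul 3).add ((hz.mul hc).const_mul 4)).sub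
    ((hc.pow 2).const_mul (1 / 2)))).const_mul ((88 + 21 * I) / 750)
  have e3 := (((hz.mul hc).const_mul 2).sub (hc.pow 2)).const_mul ((-64 + 147 * I) / 1500)
  have e4 := ((((hz.pow 3).const_mul 4).add ((hz.mul (hc.pow 2)).const_mul 6)).sub
    ((hc.pow 3).const_mul 2)).const_mul (1 / 10)
  have e5 := (((hz.pow 2).mul hc).const_mul 3).const_mul ((-2 - 14 * I) / 125)
  have e := (((e1.add e2).add e3).sub e4).add e5
  refine (e.congr_of_eventuallyEq (Filter.Eventually.of_forall fun z => ?_)).congr_fderiv ?_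
  · simp only [hpPz, Pi.add_apply, Pi.sub_apply, Pi.mul_apply]
    ring
  · ext h
    simp [hpA, hpC]
    ring

theorem hasFDerivAt_hpPw (z : ℂ) :
    HasFDerivAt hpPw (hpC z • (1 : ℂ →L[ℝ] ℂ) + hpB z • (Complex.conjCLE : ℂ →L[ℝ] ℂ)) z := by
  have hz : HasFDerivAt (fun z : ℂ => z) (1 : ℂ →L[ℝ] ℂ) z := hasFDerivAt_id z
  have hc : HasFDerivAt (fun z : ℂ => conj z) (Complex.conjCLE : ℂ →L[ℝ] ℂ) z :=
    Complex.conjCLE.hasFDerivAt
  have e2 := (((hz.pow 2).const_mul 2).sub (hz.mul hc)).const_mul ((88 + 21 * I) / 750)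
  have e3 := ((((hz.pow 2)).sub ((hz.mul hc).const_mul 2)).add ((hc.pow 2).const_mul 3)).const_mul
    ((-64 + 147 * I) / 1500)
  have e4 := ((((hz.pow 2).mul hc).const_mul 6).sub
    ((hz.mul (hc.pow 2)).const_mul 6)).const_mul (1 / 10)
  have e5 := (hz.pow 3).const_mul ((-2 - 14 * I) / 125)
  have e6 := ((hc.pow 3).const_mul 4).const_mul ((-1 - 7 * I) / 250)
  have e := ((((e2.add e3)).sub e4).add e5).add e6
  refine (e.congr_of_eventuallyEq (Filter.Eventually.of_forall fun z => ?_)).congr_fderiv ?_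
  · simp only [hpPw, Pi.add_apply, Pi.sub_apply, Pi.mul_apply]
    ring
  · ext h
    simp [hpC, hpB]
    ring

theorem D2_Phi0 (z a b : ℂ) : D2 Phi0 z a b =
    (hpA z * a + hpC z * conj a) * b + (hpC z * a + hpB z * conj a) * conj b := by
  have h0 : fderiv ℝ Phi0 = fun z => hpPz z • (1 : ℂ →L[ℝ] ℂ) +
      hpPw z • (Complex.conjCLE : ℂ →L[ℝ] ℂ) := by
    funext z
    exact (hasFDerivAt_Phi0 z).fderiv
  have h1 : HasFDerivAt (fun z => hpPz z • (1 : ℂ →L[ℝ] ℂ)) _ z :=
    (hasFDerivAt_hpPz z).smul_const (1 : ℂ →L[ℝ] ℂ)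
  have h2 : HasFDerivAt (fun z => hpPw z • (Complex.conjCLE : ℂ →L[ℝ] ℂ)) _ z :=
    (hasFDerivAt_hpPw z).smul_const (Complex.conjCLE : ℂ →L[ℝ] ℂ)
  have h3 := (h1.add h2).fderiv
  unfold D2
  rw [h0]
  erw [h3]
  simp

theorem E2_Phi0 (z : ℂ) : E2 Phi0 z = ‖hpA z‖ ^ 2 + ‖hpB z‖ ^ 2 := by
  unfold E2
  rw [D2_Phi0, D2_Phi0, D2_Phi0]
  have e1 : ((hpA z * 1 + hpC z * conj 1) * 1 + (hpC z * 1 + hpB z * conj 1) * conj 1 -
      ((hpA z * I + hpC z * conj I) * I + (hpC z * I + hpB z * conj I) * conj I) -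
      2 * I * ((hpA z * 1 + hpC z * conj 1) * I + (hpC z * 1 + hpB z * conj 1) * conj I)) / 4
      = hpA z := by
    have hI : I ^ 2 = -1 := Complex.I_sq
    simp only [map_one, Complex.conj_I]
    ring_nf
    simp only [hI]
    ring
  have e2 : ((hpA z * 1 + hpC z * conj 1) * 1 + (hpC z * 1 + hpB z * conj 1) * conj 1 -
      ((hpA z * I + hpC z * conj I) * I + (hpC z * I + hpB z * conj I) * conj I) +
      2 * I * ((hpA z * 1 + hpC z * conj 1) * I + (hpC z * 1 + hpB z * conj 1) * conj I)) / 4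
      = hpB z := by
    have hI : I ^ 2 = -1 := Complex.I_sq
    simp only [map_one, Complex.conj_I]
    ring_nf
    simp only [hI]
    ring
  rw [e1, e2]

theorem hpA_eq (x y : ℝ) : hpA ⟨x, y⟩ =
    ⟨141/125 + 7/50 * y + 213/125 * y ^ 2 + 136/125 * x - 237/125 * x ^ 2,
     7/125 + 8/25 * y - 84/125 * y ^ 2 + 119/250 * x - 6/5 * x * y - 84/125 * x ^ 2⟩ := by
  have e : (⟨x, y⟩ : ℂ) = x + y * I := by apply Complex.ext <;> simp
  have e2 : ∀ a b : ℝ, (⟨a, b⟩ : ℂ) = a + b * I := fun a b => by apply Complex.ext <;> simp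
  have hI : I ^ 2 = -1 := Complex.I_sq
  have hI3 : I ^ 3 = -I := by linear_combination I * hI
  rw [e2, e2]
  unfold hpA
  have e3 : conj ((x : ℂ) + y * I) = x - y * I := by simp; ring
  rw [e3]
  push_cast
  ring_nf
  simp only [hI, hI3]
  ring

theorem hpB_eq (x y : ℝ) : hpB ⟨x, y⟩ =
    ⟨203/250 * y + 231/125 * y ^ 2 - 36/125 * x - 84/125 * x * y + 69/125 * x ^ 2,
     28/125 * y + 42/125 * y ^ 2 + 91/250 * x - 138/125 * x * y - 42/125 * x ^ 2⟩ := by
  have e2 : ∀ a b : ℝ, (⟨a, b⟩ : ℂ) = a + b * I := fun a b => by apply Complex.ext <;> simp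
  have hI : I ^ 2 = -1 := Complex.I_sq
  have hI3 : I ^ 3 = -I := by linear_combination I * hI
  rw [e2, e2]
  unfold hpB
  have e3 : conj ((x : ℂ) + y * I) = x - y * I := by simp; ring
  rw [e3]
  push_cast
  ring_nf
  simp only [hI, hI3]
  ring

theorem E2_Phi0_poly (x y : ℝ) : E2 Phi0 ⟨x, y⟩ =
    (3986/3125 + 7837/3125 * x - 17043/6250 * x ^ 2 - 666/125 * x ^ 3 + 558/125 * x ^ 4) +
    (1099/3125 + 532/3125 * x - 5544/3125 * x ^ 2 + 1008/625 * x ^ 3) * y +
    (28753/6250 - 66/625 * x - 396/625 * x ^ 2) * y ^ 2 +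
    (9996/3125 - 1008/625 * x) * y ^ 3 + 4302/625 * y ^ 4 := by
  rw [E2_Phi0, hpA_eq, hpB_eq, ← Complex.normSq_eq_norm_sq, ← Complex.normSq_eq_norm_sq,
    Complex.normSq_mk, Complex.normSq_mk]
  ring

theorem continuous_E2_Phi0 : Continuous (E2 Phi0) := by
  have hc : Continuous (fun z : ℂ => conj z) := Complex.continuous_conj
  have h1 : Continuous hpA := by unfold hpA; fun_prop
  have h2 : Continuous hpB := by unfold hpB; fun_prop
  have : E2 Phi0 = fun z => ‖hpA z‖ ^ 2 + ‖hpB z‖ ^ 2 := funext E2_Phi0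
  rw [this]
  fun_prop

/-- the energy of the polynomial stress function: mean `68579/56250` on the sector (of area
`Y = 1/√3`). -/
theorem Phi0_energy : ∫ z in sec0, E2 Phi0 z = 68579 / 56250 * YY := by
  have h2 := YY_sq
  have h3 : YY ^ 3 = YY / 3 := by linear_combination YY * h2
  have h5 : YY ^ 5 = YY / 9 := by linear_combination YY ^ 3 * h2 + 1 / 3 * h3
  have e : ∀ x : ℝ, (∫ y in (-(x * YY))..(x * YY), E2 Phi0 (⟨x, y⟩ : ℂ)) =
      (7972/3125 * YY) * x + (15674/3125 * YY) * x ^ 2 + (-124634/28125 * YY) * x ^ 3 +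
      (-20024/1875 * YY) * x ^ 4 + (28416/3125 * YY) * x ^ 5 := by
    intro x
    have e1 : (fun y : ℝ => E2 Phi0 (⟨x, y⟩ : ℂ)) = fun y : ℝ =>
        (3986/3125 + 7837/3125 * x - 17043/6250 * x ^ 2 - 666/125 * x ^ 3 + 558/125 * x ^ 4) +
        (1099/3125 + 532/3125 * x - 5544/3125 * x ^ 2 + 1008/625 * x ^ 3) * y +
        (28753/6250 - 66/625 * x - 396/625 * x ^ 2) * y ^ 2 +
        (9996/3125 - 1008/625 * x) * y ^ 3 + 4302/625 * y ^ 4 :=
      funext fun y => E2_Phi0_poly x y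
    rw [e1, int_poly4, mul_pow, mul_pow, h3, h5]
    ring
  rw [integral_sec0 _ continuous_E2_Phi0]
  have e2 : (fun x : ℝ => ∫ y in (-(x * YY))..(x * YY), E2 Phi0 (⟨x, y⟩ : ℂ)) = fun x : ℝ =>
      (7972/3125 * YY) * x + (15674/3125 * YY) * x ^ 2 + (-124634/28125 * YY) * x ^ 3 +
      (-20024/1875 * YY) * x ^ 4 + (28416/3125 * YY) * x ^ 5 := funext e
  rw [e2, int_poly5]
  ring

theorem volume_sec0 : volume sec0 = ENNReal.ofReal YY := by
  have h := integral_sec0 (fun _ => 1) continuous_const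
  have h1 : ∫ x in (0 : ℝ)..1, ∫ y in (-(x * YY))..(x * YY), (1 : ℝ) = YY := by
    have e : ∀ x : ℝ, ∫ y in (-(x * YY))..(x * YY), (1 : ℝ) = (2 * YY) * x := by
      intro x
      rw [intervalIntegral.integral_const]
      simp; ring
    simp_rw [e]
    rw [intervalIntegral.integral_const_mul, integral_id]
    ring
  rw [h1, setIntegral_const, smul_eq_mul, mul_one, Measure.real] at h
  rw [← h, ENNReal.ofReal_toReal]
  exact isCompact_sec0.measure_lt_top.ne

end EBC
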