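import Pool.Agent.Work.MP_ebc928_an.HexXi
import Pool.Agent.Work.MP_ebc928_an.HexPolyE

open MeasureTheory Complex Set
open scoped ContDiff ComplexConjugate

noncomputable section
namespace EBC

theorem hexE_D2_congr {F G : ℂ → ℂ} {z : ℂ} (h : F =ᶠ[nhds z] G) (a b : ℂ) :
    D2 F z a b = D2 G z a b := by
  unfold D2
  rw [Filter.EventuallyEq.fderiv_eq h.fderiv]

theorem hexE_D2_apply {F : ℂ → ℂ} (hF : ContDiff ℝ 2 F) (z a b : ℂ) :
    D2 F z a b = fderiv ℝ (fun w => fderiv ℝ F w b) z a := by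
  unfold D2
  have h1 : DifferentiableAt ℝ (fderiv ℝ F) z :=
    ((hF.fderiv_right (m := 1) (by norm_num)).differentiable (by norm_num)) z
  have h2 := (h1.hasFDerivAt.clm_apply (hasFDerivAt_const b z)).fderiv
  rw [h2]
  simp

theorem hexE_D2_comp {G : ℂ → ℂ} (hG : ContDiff ℝ 2 G) (c u : ℂ) (z a b : ℂ) :
    D2 (fun w => c * G (w * u)) z a b = c * D2 G (z * u) (a * u) (b * u) := by
  have hL : ∀ w : ℂ, HasFDerivAt (fun w : ℂ => w * u)
      ((ContinuousLinearMap.mul ℝ ℂ).flip u) w := fun w =>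
    ((ContinuousLinearMap.mul ℝ ℂ).flip u).hasFDerivAt
  have hd : ∀ w, fderiv ℝ (fun w => c * G (w * u)) w b = c * fderiv ℝ G (w * u) (b * u) := by
    intro w
    have h1 : HasFDerivAt (fun w => G (w * u))
        ((fderiv ℝ G (w * u)).comp ((ContinuousLinearMap.mul ℝ ℂ).flip u)) w :=
      HasFDerivAt.comp w ((hG.differentiable (by norm_num)) (w * u)).hasFDerivAt (hL w)
    have h2 := (h1.const_mul c).fderiv
    rw [h2]
    simp [mul_comm u b]
  have hF : ContDiff ℝ 2 (fun w => c * G (w * u)) := by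
    exact contDiff_const.mul (hG.comp (contDiff_id.mul contDiff_const))
  rw [hexE_D2_apply hF, hexE_D2_apply hG]
  have h3 : (fun w => fderiv ℝ (fun w => c * G (w * u)) w b)
      = fun w => c * (fun y => fderiv ℝ G y (b * u)) (w * u) := by
    funext w
    exact hd w
  rw [h3]
  have hG' : DifferentiableAt ℝ (fun y => fderiv ℝ G y (b * u)) (z * u) :=
    (((hG.fderiv_right (m := 1) (by norm_num)).differentiable (by norm_num)) (z * u)).clm_apply
      (differentiableAt_const _)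
  have h1 : HasFDerivAt (fun w => (fun y => fderiv ℝ G y (b * u)) (w * u))
      ((fderiv ℝ (fun y => fderiv ℝ G y (b * u)) (z * u)).comp
        ((ContinuousLinearMap.mul ℝ ℂ).flip u)) z :=
    HasFDerivAt.comp (g := fun y => fderiv ℝ G y (b * u)) z hG'.hasFDerivAt (hL z)
  rw [(h1.const_mul c).fderiv]
  simp [mul_comm u a]

theorem hexE_D2_symm {G : ℂ → ℂ} (hG : ContDiff ℝ 2 G) (z a b : ℂ) :
    D2 G z a b = D2 G z b a := by
  have h : IsSymmSndFDerivAt ℝ G z := by
    apply ContDiffAt.isSymmSndFDerivAt hG.contDiffAt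
    simp
  exact h a b

/-- expansion of the second derivative in a rotated frame -/
theorem hexE_E2_rot {G : ℂ → ℂ} (hG : ContDiff ℝ 2 G) (c u : ℂ) (hc : c * u ^ 2 = 1)
    (hu : ‖u‖ = 1) (z : ℂ) :
    E2 (fun w => c * G (w * u)) z = E2 G (z * u) := by
  set B : ℂ → ℂ → ℂ := fun a b => D2 G (z * u) a b with hB
  have hlin : ∀ x y : ℝ, ∀ x' y' : ℝ, B (x + y * I) (x' + y' * I) =
      x * x' * B 1 1 + (x * y' + y * x') * B 1 I + y * y' * B I I := by
    intro x y x' y'
    have e1 : ∀ (s : ℝ) (v : ℂ), ((s : ℂ) * v) = s • v := fun s v => by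
      rw [Complex.real_smul]
    have s1 : B I 1 = B 1 I := hexE_D2_symm hG _ _ _
    have h1 : (x : ℂ) + y * I = x • (1 : ℂ) + y • I := by
      simp [Complex.real_smul]
    have h2 : (x' : ℂ) + y' * I = x' • (1 : ℂ) + y' • I := by
      simp [Complex.real_smul]
    rw [h1, h2]
    simp only [hB, D2, map_add, map_smul, add_apply, smul_apply] at s1 ⊢
    rw [s1]
    simp only [Complex.real_smul]
    ring
  obtain ⟨p, q, hpq⟩ : ∃ p q : ℝ, u = p + q * I := ⟨u.re, u.im, (Complex.re_add_im u).symm⟩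
  have hn : (p : ℂ) ^ 2 + q ^ 2 = 1 := by
    have h1 : ‖u‖ ^ 2 = 1 := by rw [hu]; norm_num
    rw [← Complex.normSq_eq_norm_sq, hpq, Complex.normSq_add_mul_I] at h1
    exact_mod_cast h1
  have hc' : c = ((p : ℂ) - q * I) ^ 2 := by
    have h3 : u * ((p : ℂ) - q * I) = 1 := by
      rw [hpq]
      linear_combination hn - (q : ℂ) ^ 2 * I_sq
    linear_combination c * (- (u * ((p : ℂ) - q * I) + 1)) * h3 + ((p : ℂ) - q * I) ^ 2 * hc
  have b11 : B (1 * u) (1 * u) = p * p * B 1 1 + (p * q + q * p) * B 1 I + q * q * B I I := by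
    have := hlin p q p q
    rw [← hpq] at this
    simpa using this
  have hIu : I * u = ((-q : ℝ) : ℂ) + (p : ℝ) * I := by
    rw [hpq]
    push_cast
    linear_combination (q : ℂ) * I_sq
  have bII : B (I * u) (I * u) = q * q * B 1 1 - (p * q + q * p) * B 1 I + p * p * B I I := by
    have := hlin (-q) p (-q) p
    rw [← hIu] at this
    rw [this]
    push_cast
    ring
  have b1I : B (1 * u) (I * u) = -p * q * B 1 1 + (p * p - q * q) * B 1 I + q * p * B I I := by
    have := hlin p q (-q) p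
    rw [← hIu, ← hpq] at this
    rw [one_mul, this]
    push_cast
    ring
  unfold E2
  simp only [hexE_D2_comp hG]
  change ‖(c * B (1 * u) (1 * u) - c * B (I * u) (I * u) - 2 * I * (c * B (1 * u) (I * u))) / 4‖ ^ 2
    + ‖(c * B (1 * u) (1 * u) - c * B (I * u) (I * u) + 2 * I * (c * B (1 * u) (I * u))) / 4‖ ^ 2
    = ‖(B 1 1 - B I I - 2 * I * B 1 I) / 4‖ ^ 2 + ‖(B 1 1 - B I I + 2 * I * B 1 I) / 4‖ ^ 2
  rw [b11, bII, b1I]
  have e1 : (c * (p * p * B 1 1 + (p * q + q * p) * B 1 I + q * q * B I I) -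
      c * (q * q * B 1 1 - (p * q + q * p) * B 1 I + p * p * B I I) -
      2 * I * (c * (-p * q * B 1 1 + (p * p - q * q) * B 1 I + q * p * B I I))) / 4
      = c * u ^ 2 * ((B 1 1 - B I I - 2 * I * B 1 I) / 4) := by
    rw [hpq]
    ring_nf
    simp only [I_sq, show (I : ℂ) ^ 3 = -I by rw [pow_succ, I_sq]; ring]
    ring
  have e2 : (c * (p * p * B 1 1 + (p * q + q * p) * B 1 I + q * q * B I I) -
      c * (q * q * B 1 1 - (p * q + q * p) * B 1 I + p * p * B I I) +
      2 * I * (c * (-p * q * B 1 1 + (p * p - q * q) * B 1 I + q * p * B I I))) / 4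
      = c * ((p : ℂ) - q * I) ^ 2 * ((B 1 1 - B I I + 2 * I * B 1 I) / 4) := by
    ring_nf
    simp only [I_sq, show (I : ℂ) ^ 3 = -I by rw [pow_succ, I_sq]; ring]
    ring
  rw [e1, e2, hc, one_mul, norm_mul]
  have h4 : ‖c * ((p : ℂ) - q * I) ^ 2‖ = 1 := by
    have h5 : ‖(p : ℂ) - q * I‖ = 1 := by
      have : (p : ℂ) - q * I = conj u := by rw [hpq]; simp [sub_eq_add_neg]
      rw [this, Complex.norm_conj, hu]
    rw [hc', norm_mul, norm_pow, h5]
    norm_num
  rw [h4, one_mul]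


theorem hexE_D2_sub {F : ℂ → ℂ} (hF : ContDiff ℝ 2 F) (z a b : ℂ) :
    D2 (fun w => F w - w ^ 2 / 2) z a b = D2 F z a b - a * b := by
  have hsq : ∀ w : ℂ, HasFDerivAt (fun w : ℂ => w ^ 2 / 2) (ContinuousLinearMap.mul ℝ ℂ w) w := by
    intro w
    have h1 : HasDerivAt (fun w : ℂ => w ^ 2 / 2) w w := by
      have := ((hasDerivAt_id w).pow 2).div_const 2
      simpa using this
    have h2 := h1.hasFDerivAt.restrictScalars ℝ
    refine h2.congr_fderiv ?_
    ext v
    all_goals simp [mul_comm]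
  have hG : ContDiff ℝ 2 (fun w : ℂ => F w - w ^ 2 / 2) :=
    hF.sub ((contDiff_id.pow 2).div_const 2)
  rw [hexE_D2_apply hG, hexE_D2_apply hF]
  have h3 : (fun w => fderiv ℝ (fun w => F w - w ^ 2 / 2) w b)
      = fun w => fderiv ℝ F w b - w * b := by
    funext w
    have h4 : HasFDerivAt (fun w : ℂ => F w - w ^ 2 / 2)
        (fderiv ℝ F w - ContinuousLinearMap.mul ℝ ℂ w) w :=
      ((hF.differentiable (by norm_num)) w).hasFDerivAt.sub (hsq w)
    rw [h4.fderiv]
    simp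
  rw [h3]
  have hG' : DifferentiableAt ℝ (fun y => fderiv ℝ F y b) z :=
    (((hF.fderiv_right (m := 1) (by norm_num)).differentiable (by norm_num)) z).clm_apply
      (differentiableAt_const _)
  have hL : HasFDerivAt (fun w : ℂ => w * b) ((ContinuousLinearMap.mul ℝ ℂ).flip b) z :=
    ((ContinuousLinearMap.mul ℝ ℂ).flip b).hasFDerivAt
  have h5 : HasFDerivAt (fun w : ℂ => fderiv ℝ F w b - w * b)
      (fderiv ℝ (fun y => fderiv ℝ F y b) z - (ContinuousLinearMap.mul ℝ ℂ).flip b) z :=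
    hG'.hasFDerivAt.sub hL
  rw [h5.fderiv]
  simp [mul_comm]

theorem hexE_EB_eq {Ξ F : ℂ → ℂ} (hF : ContDiff ℝ 2 F) {z : ℂ}
    (h : Ξ =ᶠ[nhds z] fun w => F w - w ^ 2 / 2) : EB Ξ z = E2 F z := by
  unfold EB E2
  simp only [hexE_D2_congr h, hexE_D2_sub hF]
  have e1 : (1 : ℂ) + (D2 F z 1 1 - 1 * 1 - (D2 F z I I - I * I) - 2 * I * (D2 F z 1 I - 1 * I)) / 4
      = (D2 F z 1 1 - D2 F z I I - 2 * I * D2 F z 1 I) / 4 := by
    linear_combination (3 / 4 : ℂ) * I_sq
  have e2 : (D2 F z 1 1 - 1 * 1 - (D2 F z I I - I * I) + 2 * I * (D2 F z 1 I - 1 * I)) / 4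
      = (D2 F z 1 1 - D2 F z I I + 2 * I * D2 F z 1 I) / 4 := by
    linear_combination (-1 / 4 : ℂ) * I_sq
  rw [e1, e2]

theorem hexE_E2_const_mul {G : ℂ → ℂ} (hG : ContDiff ℝ 2 G) (c z : ℂ) :
    E2 (fun w => c * G w) z = ‖c‖ ^ 2 * E2 G z := by
  have h : ∀ a b, D2 (fun w => c * G w) z a b = c * D2 G z a b := by
    intro a b
    have := hexE_D2_comp hG c 1 z a b
    simpa using this
  unfold E2
  simp only [h]
  have e1 : (c * D2 G z 1 1 - c * D2 G z I I - 2 * I * (c * D2 G z 1 I)) / 4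
      = c * ((D2 G z 1 1 - D2 G z I I - 2 * I * D2 G z 1 I) / 4) := by ring
  have e2 : (c * D2 G z 1 1 - c * D2 G z I I + 2 * I * (c * D2 G z 1 I)) / 4
      = c * ((D2 G z 1 1 - D2 G z I I + 2 * I * D2 G z 1 I) / 4) := by ring
  rw [e1, e2, norm_mul, norm_mul]
  ring

theorem hexE_D2_norm {F : ℂ → ℂ} {z : ℂ} {K : ℝ} (hK : ‖fderiv ℝ (fderiv ℝ F) z‖ ≤ K) (a b : ℂ) :
    ‖D2 F z a b‖ ≤ K * ‖a‖ * ‖b‖ := by
  unfold D2
  refine (ContinuousLinearMap.le_opNorm _ _).trans ?_
  refine mul_le_mul_of_nonneg_right ?_ (norm_nonneg _)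
  refine (ContinuousLinearMap.le_opNorm _ _).trans ?_
  exact mul_le_mul_of_nonneg_right hK (norm_nonneg _)

theorem hexE_quarter {a b c : ℂ} {K : ℝ} (ha : ‖a‖ ≤ K) (hb : ‖b‖ ≤ K) (hc : ‖c‖ ≤ K) :
    ‖(a - b - 2 * I * c) / 4‖ ≤ K ∧ ‖(a - b + 2 * I * c) / 4‖ ≤ K := by
  have h2 : ‖(2 : ℂ) * I * c‖ ≤ 2 * K := by
    rw [norm_mul, norm_mul, Complex.norm_I]
    have : ‖(2 : ℂ)‖ = 2 := by norm_num
    rw [this]
    linarith
  constructor
  · rw [norm_div]
    have h4 : ‖(4 : ℂ)‖ = 4 := by norm_num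
    rw [h4]
    have := norm_sub_le (a - b) (2 * I * c)
    have := norm_sub_le a b
    linarith
  · rw [norm_div]
    have h4 : ‖(4 : ℂ)‖ = 4 := by norm_num
    rw [h4]
    have := norm_add_le (a - b) (2 * I * c)
    have := norm_sub_le a b
    linarith

theorem hexE_E2_le {F : ℂ → ℂ} {z : ℂ} {K : ℝ} (hK : ‖fderiv ℝ (fderiv ℝ F) z‖ ≤ K) :
    E2 F z ≤ 2 * K ^ 2 := by
  have h : ∀ a b : ℂ, ‖a‖ = 1 → ‖b‖ = 1 → ‖D2 F z a b‖ ≤ K := by
    intro a b ha hb
    have := hexE_D2_norm hK a b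
    rw [ha, hb] at this
    linarith
  obtain ⟨h1, h2⟩ := hexE_quarter (h 1 1 norm_one norm_one) (h I I norm_I norm_I)
    (h 1 I norm_one norm_I)
  unfold E2
  have h3 := pow_le_pow_left₀ (norm_nonneg _) h1 2
  have h4 := pow_le_pow_left₀ (norm_nonneg _) h2 2
  linarith

theorem hexE_EB_le {F : ℂ → ℂ} {z : ℂ} {K : ℝ} (hK : ‖fderiv ℝ (fderiv ℝ F) z‖ ≤ K) :
    EB F z ≤ (1 + K) ^ 2 + K ^ 2 := by
  have h : ∀ a b : ℂ, ‖a‖ = 1 → ‖b‖ = 1 → ‖D2 F z a b‖ ≤ K := by
    intro a b ha hb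
    have := hexE_D2_norm hK a b
    rw [ha, hb] at this
    linarith
  obtain ⟨h1, h2⟩ := hexE_quarter (h 1 1 norm_one norm_one) (h I I norm_I norm_I)
    (h 1 I norm_one norm_I)
  unfold EB
  have h0 : ‖(1 : ℂ) + (D2 F z 1 1 - D2 F z I I - 2 * I * D2 F z 1 I) / 4‖ ≤ 1 + K := by
    refine (norm_add_le _ _).trans ?_
    rw [norm_one]
    linarith
  have h3 := pow_le_pow_left₀ (norm_nonneg _) h0 2
  have h4 := pow_le_pow_left₀ (norm_nonneg _) h2 2
  linarith

theorem hexE_EB_nonneg (F : ℂ → ℂ) (z : ℂ) : 0 ≤ EB F z := by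
  unfold EB
  positivity

theorem hexE_E2_nonneg (F : ℂ → ℂ) (z : ℂ) : 0 ≤ E2 F z := by
  unfold E2
  positivity

theorem hexE_E2_cont {F : ℂ → ℂ} (hF : ContDiff ℝ 2 F) : Continuous (E2 F) := by
  have h : ∀ a b : ℂ, Continuous fun z => D2 F z a b := by
    intro a b
    unfold D2
    have h1 : Continuous (fderiv ℝ (fderiv ℝ F)) :=
      (hF.fderiv_right (m := 1) (by norm_num)).continuous_fderiv (by norm_num)
    exact (h1.clm_apply continuous_const).clm_apply continuous_const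
  unfold E2
  have h1 := h 1 1
  have h2 := h I I
  have h3 := h 1 I
  fun_prop

theorem hexE_EB_meas (F : ℂ → ℂ) : Measurable (EB F) := by
  have h : ∀ a b : ℂ, Measurable fun z => D2 F z a b := by
    intro a b
    unfold D2
    exact (ContinuousLinearMap.measurable_apply b).comp
      (measurable_fderiv_apply_const ℝ (fderiv ℝ F) a)
  unfold EB
  have h1 := h 1 1
  have h2 := h I I
  have h3 := h 1 I
  fun_prop

theorem hexE_EB_per {Ξ : ℂ → ℂ} {ω₁ ω₂ : ℂ} (h : PerL ω₁ ω₂ Ξ) : PerL ω₁ ω₂ (EB Ξ) := by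
  have key : ∀ p : ℂ, (∀ z, Ξ (z + p) = Ξ z) → ∀ z, EB Ξ (z + p) = EB Ξ z := by
    intro p hp z
    have h1 : ∀ z, fderiv ℝ Ξ (z + p) = fderiv ℝ Ξ z := by
      intro z
      rw [← fderiv_comp_add_right p]
      congr 1
      funext w
      exact hp w
    have h2 : ∀ z, fderiv ℝ (fderiv ℝ Ξ) (z + p) = fderiv ℝ (fderiv ℝ Ξ) z := by
      intro z
      rw [← fderiv_comp_add_right p]
      congr 1
      funext w
      exact h1 w
    unfold EB D2
    rw [h2]
  exact fun z => ⟨key ω₁ (fun z => (h z).1) z, key ω₂ (fun z => (h z).2) z⟩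


theorem hexE_ae_interior {S : Set ℂ} (hc : IsClosed S) (hx : Convex ℝ S) :
    ∀ᵐ z ∂(volume.restrict S), z ∈ interior S := by
  rw [ae_restrict_iff' hc.measurableSet]
  have h0 : volume (frontier S) = 0 := hx.addHaar_frontier volume
  rw [ae_iff]
  refine measure_mono_null ?_ h0
  intro z hz
  simp only [Set.mem_ofPred_eq, Classical.not_imp] at hz
  exact ⟨subset_closure hz.1, hz.2⟩

theorem hexE_cover {ι : Type} [Fintype ι] {A : Set ℂ} {S : ι → Set ℂ} (hA : MeasurableSet A)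
    (hS : ∀ i, MeasurableSet (S i)) (hc : A ⊆ ⋃ i, S i) {g : ℂ → ℝ} (hg : ∀ z, 0 ≤ g z)
    (hi : ∀ i, IntegrableOn g (S i)) (hiA : IntegrableOn g A) :
    ∫ z in A, g z ≤ ∑ i, ∫ z in S i, g z := by
  have h1 : ∀ i, ∫ z in S i, g z = ∫ z, (S i).indicator g z := fun i =>
    (integral_indicator (hS i)).symm
  simp only [h1]
  rw [← integral_indicator hA, ← integral_finsetSum]
  · refine integral_mono (hiA.integrable_indicator hA) ?_ ?_
    · exact integrable_finsetSum _ fun i _ => (hi i).integrable_indicator (hS i)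
    · intro z
      by_cases hz : z ∈ A
      · simp only [indicator_of_mem hz]
        obtain ⟨i, hzi⟩ := mem_iUnion.mp (hc hz)
        have h2 : g z = (S i).indicator g z := (indicator_of_mem hzi g).symm
        rw [h2]
        exact Finset.single_le_sum (f := fun i => (S i).indicator g z)
          (fun j _ => indicator_nonneg (fun z _ => hg z) z) (Finset.mem_univ i)
      · simp only [indicator_of_notMem hz]
        exact Finset.sum_nonneg fun j _ => indicator_nonneg (fun z _ => hg z) z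
  · exact fun i _ => (hi i).integrable_indicator (hS i)

theorem hexE_small {S : Set ℂ} {V : ℝ} (hV : 0 ≤ V)
    (hvol : volume S ≤ ENNReal.ofReal V) {g : ℂ → ℝ} {M : ℝ} (hM : 0 ≤ M)
    (hb : ∀ᵐ z ∂(volume.restrict S), ‖g z‖ ≤ M) : ∫ z in S, g z ≤ M * V := by
  have h1 : volume S < ⊤ := lt_of_le_of_lt hvol ENNReal.ofReal_lt_top
  have h2 := norm_setIntegral_le_of_norm_le_const_ae h1 hb
  have h3 : volume.real S ≤ V := by
    rw [Measure.real]
    exact ENNReal.toReal_le_of_le_ofReal hV hvol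
  calc ∫ z in S, g z ≤ ‖∫ z in S, g z‖ := le_abs_self _
    _ ≤ M * volume.real S := h2
    _ ≤ M * V := by gcongr

theorem hexE_rect (a b c d : ℝ) (hab : a ≤ b) :
    volume {w : ℂ | w.re ∈ Icc a b ∧ w.im ∈ Icc c d} = ENNReal.ofReal ((b - a) * (d - c)) := by
  have h1 : {w : ℂ | w.re ∈ Icc a b ∧ w.im ∈ Icc c d} =
      Complex.measurableEquivRealProd ⁻¹' (Icc a b ×ˢ Icc c d) := by
    ext w
    simp only [Set.mem_ofPred_eq, mem_preimage, mem_prod]
    rfl
  rw [h1, Complex.volume_preserving_equiv_real_prod.measure_preimage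
    (measurableSet_Icc.prod measurableSet_Icc).nullMeasurableSet]
  rw [Measure.volume_eq_prod, Measure.prod_prod, Real.volume_Icc, Real.volume_Icc,
    ENNReal.ofReal_mul (by linarith)]

/-- rotation by `conj (zt ^ k)` -/
def hexE_rot (k : ℕ) : ℂ ≃ₗᵢ[ℝ] ℂ :=
  rotation ⟨conj (zt ^ k), mem_sphere_zero_iff_norm.mpr (by
    rw [Complex.norm_conj, norm_pow, norm_zt, one_pow])⟩

theorem hexE_rot_apply (k : ℕ) (w : ℂ) : hexE_rot k w = w * conj (zt ^ k) := by
  change conj (zt ^ k) * w = w * conj (zt ^ k)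
  exact mul_comm _ _

theorem hexE_volume_rot (k : ℕ) (S : Set ℂ) :
    volume ((fun w : ℂ => w * conj (zt ^ k)) ⁻¹' S) = volume S := by
  have h1 : (fun w : ℂ => w * conj (zt ^ k)) = hexE_rot k := by
    funext w
    rw [hexE_rot_apply]
  rw [h1]
  exact (hexE_rot k).measurePreserving.measure_preimage_emb
    (hexE_rot k).toHomeomorph.measurableEmbedding S

theorem hexE_integral_rot (k : ℕ) (S : Set ℂ) (g : ℂ → ℝ) :
    ∫ z in (fun w : ℂ => w * conj (zt ^ k)) ⁻¹' S, g (z * conj (zt ^ k)) = ∫ z in S, g z := by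
  have h1 : (fun w : ℂ => w * conj (zt ^ k)) = hexE_rot k := by
    funext w
    rw [hexE_rot_apply]
  have h2 : ∀ z, g (z * conj (zt ^ k)) = g (hexE_rot k z) := by
    intro z
    rw [hexE_rot_apply]
  simp only [h2]
  rw [h1]
  exact (hexE_rot k).measurePreserving.setIntegral_preimage_emb
    (hexE_rot k).toHomeomorph.measurableEmbedding g S

theorem hexE_mem_rot (k : Fin 6) (w : ℂ) :
    w ∈ pieceS (k, false) ↔ w * conj (zt ^ (k : ℕ)) ∈ pieceS (0, false) := by
  have hk := k.2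
  unfold pieceS
  simp only [Set.mem_ofPred_eq, Bool.false_eq_true, if_false]
  have e0 : xk ((0 : Fin 6) : ℕ) (w * conj (zt ^ (k : ℕ))) = xk k w := by
    rw [← (xk_rot _ _ _).1]
    simp
  rw [e0]
  refine and_congr_left fun _ => ?_
  constructor
  · intro h j hj
    rw [← (xk_rot _ _ _).1]
    by_cases h6 : j + k < 6
    · exact h _ h6
    · have : j + (k : ℕ) = (j + k - 6) + 6 := by omega
      rw [this, (xk_add_six _ _).1]
      exact h _ (by omega)
  · intro h j hj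
    by_cases h6 : (k : ℕ) ≤ j
    · have := h (j - k) (by omega)
      rw [← (xk_rot _ _ _).1] at this
      rwa [show j - (k : ℕ) + k = j by omega] at this
    · have := h (j + 6 - k) (by omega)
      rw [← (xk_rot _ _ _).1] at this
      rwa [show j + 6 - (k : ℕ) + k = j + 6 by omega, (xk_add_six _ _).1] at this

theorem hexE_xk0 (w : ℂ) : xk 0 w = w.re := by
  unfold xk
  simp

theorem hexE_xk1 (w : ℂ) : xk 1 w = w.re / 2 + Real.sqrt 3 / 2 * w.im := by
  unfold xk zt
  simp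
  ring

theorem hexE_xk5 (w : ℂ) : xk 5 w = w.re / 2 - Real.sqrt 3 / 2 * w.im := by
  rw [show 5 = 2 + 3 from rfl, xk_add_three]
  unfold xk
  rw [zt_sq]
  unfold zt
  simp
  ring

theorem hexE_sub_sec0 : pieceS (0, false) ⊆ sec0 := by
  intro w hw
  unfold pieceS at hw
  simp only [Set.mem_ofPred_eq, Bool.false_eq_true, if_false] at hw
  obtain ⟨h, h1⟩ := hw
  have e0 : xk ((0 : Fin 6) : ℕ) w = w.re := hexE_xk0 w
  rw [e0] at h h1
  have a1 := h 1 (by norm_num)
  have a5 := h 5 (by norm_num)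
  have a3 := h 3 (by norm_num)
  rw [hexE_xk1] at a1
  rw [hexE_xk5] at a5
  rw [show 3 = 0 + 3 from rfl, xk_add_three, hexE_xk0] at a3
  have hs : Real.sqrt 3 * YY = 1 := sqrt3_mul_YY
  have hY := YY_pos
  refine ⟨⟨by linarith, h1⟩, ?_⟩
  have e1 : Real.sqrt 3 * w.im * YY = w.im := by rw [mul_right_comm, hs, one_mul]
  rw [abs_le]
  constructor
  · have : Real.sqrt 3 * w.im * YY ≥ - w.re * YY := by
      have : Real.sqrt 3 * w.im ≥ - w.re := by linarith
      exact mul_le_mul_of_nonneg_right this hY.le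
    linarith
  · have : Real.sqrt 3 * w.im * YY ≤ w.re * YY := by
      have : Real.sqrt 3 * w.im ≤ w.re := by linarith
      exact mul_le_mul_of_nonneg_right this hY.le
    linarith

theorem hexE_closed (i : Fin 6 × Bool) : IsClosed (pieceS i) := isClosed_pieceS i

theorem hexE_norm_piece {k : Fin 6} {w : ℂ} (hw : w ∈ pieceS (k, false)) : ‖w‖ ≤ 6 / 5 := by
  unfold pieceS at hw
  simp only [Set.mem_ofPred_eq, Bool.false_eq_true, if_false] at hw
  have := norm_le_xk w hw.1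
  linarith [hw.2]


theorem hexE_Xi_vor {r : ℝ} (h0 : 0 < r) (h1 : r ≤ 1 / 100) {N : ℕ} (hN : 10 ≤ N) {z : ℂ}
    (hz : z ∈ Vor r) : Xi r N z = FF r N z - z ^ 2 / 2 := by
  have h2 : lat r 0 = 0 := by simp [lat]
  have := Xi_eq h0 h1 hN (m := 0) (z := z) (by rw [h2, sub_zero]; exact hz)
  rwa [h2, sub_zero] at this

theorem hexE_int_bdd {F : ℂ → ℝ} (hF : Continuous F) {S : Set ℂ} {R : ℝ}
    (hS : ∀ w ∈ S, ‖w‖ ≤ R) : IntegrableOn F S := by
  have h1 : IntegrableOn F (Metric.closedBall 0 R) :=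
    hF.continuousOn.integrableOn_compact (isCompact_closedBall 0 R)
  refine h1.mono_set ?_
  intro w hw
  rw [mem_closedBall_zero_iff]
  exact hS w hw

theorem hexE_piece {r : ℝ} (h0 : 0 < r) (h1 : r ≤ 1 / 100) {N : ℕ} (hN : 10 ≤ N) (k : Fin 6) :
    ∫ z in Vor r ∩ pieceS (k, false), EB (Xi r N) z ≤
      ∫ z in pieceS (0, false), E2 (Fin0 r N) z := by
  have hS : IsClosed (Vor r ∩ pieceS (k, false)) := (isClosed_Vor r).inter (isClosed_pieceS _)
  have hX : Convex ℝ (Vor r ∩ pieceS (k, false)) := (convex_Vor r).inter (convex_pieceS _)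
  have hc2 : ContDiff ℝ 2 (pieceF r N (k, false)) :=
    by exact_mod_cast contDiff_infty.mp (contDiff_piece r N (k, false)) 2
  have hf2 : ContDiff ℝ 2 (Fin0 r N) := by exact_mod_cast contDiff_infty.mp (contDiff_Fin0 r N) 2
  have e1 : ∫ z in Vor r ∩ pieceS (k, false), EB (Xi r N) z =
      ∫ z in Vor r ∩ pieceS (k, false), E2 (pieceF r N (k, false)) z := by
    refine integral_congr_ae ?_
    filter_upwards [hexE_ae_interior hS hX] with z hz
    refine hexE_EB_eq hc2 ?_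
    filter_upwards [isOpen_interior.mem_nhds hz] with w hw
    have hw' := interior_subset hw
    rw [hexE_Xi_vor h0 h1 hN hw'.1, (FF_eq h0 h1 hN _ hw'.2).1]
  have e2 : ∀ z, E2 (pieceF r N (k, false)) z = E2 (Fin0 r N) (z * conj (zt ^ (k : ℕ))) := by
    intro z
    have h3 : pieceF r N (k, false) =
        fun w => zt ^ (2 * (k : ℕ)) * Fin0 r N (w * conj (zt ^ (k : ℕ))) := by
      funext w
      unfold pieceF
      simp
    rw [h3]
    refine hexE_E2_rot hf2 _ _ ?_ ?_ z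
    · rw [mul_comm 2, pow_mul, ← mul_pow, zt_mul_conj_pow, one_pow]
    · rw [Complex.norm_conj, norm_pow, norm_zt, one_pow]
  have hi : IntegrableOn (E2 (pieceF r N (k, false))) (pieceS (k, false)) :=
    hexE_int_bdd (hexE_E2_cont hc2) fun w hw => hexE_norm_piece hw
  have e3 : pieceS (k, false) = (fun w : ℂ => w * conj (zt ^ (k : ℕ))) ⁻¹' pieceS (0, false) := by
    ext w
    exact hexE_mem_rot k w
  calc ∫ z in Vor r ∩ pieceS (k, false), EB (Xi r N) z
      = ∫ z in Vor r ∩ pieceS (k, false), E2 (pieceF r N (k, false)) z := e1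
    _ ≤ ∫ z in pieceS (k, false), E2 (pieceF r N (k, false)) z := by
        refine setIntegral_mono_set hi ?_ ?_
        · exact Filter.Eventually.of_forall fun z => hexE_E2_nonneg _ z
        · exact inter_subset_right.eventuallyLE
    _ = ∫ z in (fun w : ℂ => w * conj (zt ^ (k : ℕ))) ⁻¹' pieceS (0, false),
          E2 (Fin0 r N) (z * conj (zt ^ (k : ℕ))) := by
        simp only [e2]
        rw [e3]
    _ = ∫ z in pieceS (0, false), E2 (Fin0 r N) z := hexE_integral_rot _ _ _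

theorem hexE_YY_le : YY ≤ 3 / 5 := by
  have h1 := YY_sq
  have h2 := YY_pos
  nlinarith

theorem hexE_sec {C : NNReal} {r : ℝ} {N : ℕ} (hN : 10 ≤ N)
    (hC : LipschitzOnWith C (fderiv ℝ (Fin0 r N)) (pieceS (0, false))) :
    ∫ z in pieceS (0, false), E2 (Fin0 r N) z ≤
      ‖lam r‖ ^ 2 * (68579 / 56250 * YY) + 2 * (C : ℝ) ^ 2 * (PP N * (2 * YY)) := by
  have hY := YY_pos
  have hY' := hexE_YY_le
  have hPpos : 0 < PP N := by
    unfold PP
    have : (0 : ℝ) < N := by
      have : 0 < N := by omega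
      exact_mod_cast this
    positivity
  have hf2 : ContDiff ℝ 2 (Fin0 r N) := by exact_mod_cast contDiff_infty.mp (contDiff_Fin0 r N) 2
  have hp2 : ContDiff ℝ 2 Phi0 := by exact_mod_cast contDiff_infty.mp contDiff_Phi0 2
  set t : Set ℂ := {w | w.re < 1 - PP N} with ht
  have htm : MeasurableSet t := measurableSet_lt Complex.measurable_re measurable_const
  have hi : IntegrableOn (E2 (Fin0 r N)) (pieceS (0, false)) :=
    hexE_int_bdd (hexE_E2_cont hf2) fun w hw => hexE_norm_piece hw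
  have hsec : ∀ w ∈ sec0, ‖w‖ ≤ 2 := by
    intro w hw
    obtain ⟨⟨a1, a2⟩, a3⟩ := hw
    have h3 := Complex.norm_le_abs_re_add_abs_im w
    rw [abs_of_nonneg a1] at h3
    nlinarith
  have hi0 : IntegrableOn (E2 Phi0) sec0 := hexE_int_bdd (hexE_E2_cont hp2) hsec
  rw [← integral_inter_add_sdiff htm hi]
  refine add_le_add ?_ ?_
  · have e1 : ∫ z in pieceS (0, false) ∩ t, E2 (Fin0 r N) z =
        ∫ z in pieceS (0, false) ∩ t, ‖lam r‖ ^ 2 * E2 Phi0 z := by
      refine setIntegral_congr_fun ((isClosed_pieceS _).measurableSet.inter htm) ?_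
      intro w hw
      have h4 := Fin0_eq (r := r) hN hw.1 (by rw [hexE_xk0]; exact hw.2)
      change E2 (Fin0 r N) w = ‖lam r‖ ^ 2 * E2 Phi0 w
      rw [← hexE_E2_const_mul hp2]
      unfold E2
      simp only [hexE_D2_congr h4]
    rw [e1, integral_const_mul]
    refine mul_le_mul_of_nonneg_left ?_ (by positivity)
    rw [← Phi0_energy]
    refine setIntegral_mono_set hi0 ?_ ?_
    · exact Filter.Eventually.of_forall fun z => hexE_E2_nonneg _ z
    · exact (inter_subset_left.trans hexE_sub_sec0).eventuallyLE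
  · refine hexE_small (by positivity) ?_ (by positivity) ?_
    · have h5 : pieceS (0, false) \ t ⊆ {w : ℂ | w.re ∈ Icc (1 - PP N) 1 ∧ w.im ∈ Icc (-YY) YY} := by
        intro w hw
        obtain ⟨⟨a1, a2⟩, a3⟩ := hexE_sub_sec0 hw.1
        have h6 : ¬ (w.re < 1 - PP N) := hw.2
        have h7 : |w.im| ≤ YY := by nlinarith
        exact ⟨⟨not_lt.mp h6, a2⟩, abs_le.mp h7⟩
      refine (measure_mono h5).trans ?_
      rw [hexE_rect _ _ _ _ (by linarith)]
      apply ENNReal.ofReal_le_ofReal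
      apply le_of_eq
      ring
    · refine ae_restrict_of_ae_restrict_of_subset (t := pieceS (0, false)) sdiff_subset ?_
      filter_upwards [hexE_ae_interior (isClosed_pieceS _) (convex_pieceS (0, false))] with z hz
      rw [Real.norm_of_nonneg (hexE_E2_nonneg _ z)]
      refine hexE_E2_le ?_
      exact norm_fderiv_le_of_lipschitzOn ℝ (mem_interior_iff_mem_nhds.mp hz) hC

theorem hexE_out {C : NNReal} {r : ℝ} (h0 : 0 < r) (h1 : r ≤ 1 / 100) {N : ℕ} (hN : 10 ≤ N)
    (hd : ContDiff ℝ 1 (FF r N)) (hC : LipschitzWith C (fderiv ℝ (FF r N))) (k : Fin 6) :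
    ∫ z in Vor r ∩ {w | 1 < xk k w}, EB (Xi r N) z ≤
      ((1 + ((C : ℝ) + 1)) ^ 2 + ((C : ℝ) + 1) ^ 2) * (r * (12 / 5)) := by
  refine hexE_small (by positivity) ?_ (by positivity) ?_
  · have h5 : Vor r ∩ {w | 1 < xk k w} ⊆ (fun w : ℂ => w * conj (zt ^ (k : ℕ))) ⁻¹'
        {w : ℂ | w.re ∈ Icc 1 (1 + r) ∧ w.im ∈ Icc (-(6 / 5)) (6 / 5)} := by
      intro w hw
      obtain ⟨a1, a2⟩ := vor_bounded h0 h1 hw.1
      refine ⟨⟨le_of_lt hw.2, a2 k k.2⟩, ?_⟩
      have h6 : |(w * conj (zt ^ (k : ℕ))).im| ≤ 6 / 5 := by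
        refine (Complex.abs_im_le_norm _).trans ?_
        rw [norm_mul, Complex.norm_conj, norm_pow, norm_zt, one_pow, mul_one]
        exact a1
      exact abs_le.mp h6
    refine (measure_mono h5).trans ?_
    rw [hexE_volume_rot, hexE_rect _ _ _ _ (by linarith)]
    apply ENNReal.ofReal_le_ofReal
    apply le_of_eq
    ring
  · refine ae_restrict_of_ae_restrict_of_subset (t := Vor r) inter_subset_left ?_
    filter_upwards [hexE_ae_interior (isClosed_Vor r) (convex_Vor r)] with z hz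
    rw [Real.norm_of_nonneg (hexE_EB_nonneg _ z)]
    refine hexE_EB_le ?_
    have hsq : ∀ w : ℂ, HasFDerivAt (fun w : ℂ => w ^ 2 / 2) (ContinuousLinearMap.mul ℝ ℂ w) w := by
      intro w
      have h1 : HasDerivAt (fun w : ℂ => w ^ 2 / 2) w w := by
        have := ((hasDerivAt_id w).pow 2).div_const 2
        simpa using this
      have h2 := h1.hasFDerivAt.restrictScalars ℝ
      refine h2.congr_fderiv ?_
      ext v
      all_goals simp [mul_comm]
    have key : ∀ w ∈ interior (Vor r), fderiv ℝ (Xi r N) w =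
        fderiv ℝ (FF r N) w - ContinuousLinearMap.mul ℝ ℂ w := by
      intro w hw
      have h6 : Xi r N =ᶠ[nhds w] fun w => FF r N w - w ^ 2 / 2 := by
        filter_upwards [isOpen_interior.mem_nhds hw] with v hv
        exact hexE_Xi_vor h0 h1 hN (interior_subset hv)
      rw [h6.fderiv_eq]
      have h7 : HasFDerivAt (fun w : ℂ => FF r N w - w ^ 2 / 2)
          (fderiv ℝ (FF r N) w - ContinuousLinearMap.mul ℝ ℂ w) w :=
        ((hd.differentiable (by norm_num)) w).hasFDerivAt.sub (hsq w)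
      exact h7.fderiv
    have hL : LipschitzOnWith (C + 1) (fderiv ℝ (Xi r N)) (interior (Vor r)) := by
      refine LipschitzOnWith.of_dist_le_mul ?_
      intro w hw v hv
      rw [key w hw, key v hv, dist_eq_norm, dist_eq_norm]
      have e1 : fderiv ℝ (FF r N) w - ContinuousLinearMap.mul ℝ ℂ w -
          (fderiv ℝ (FF r N) v - ContinuousLinearMap.mul ℝ ℂ v) =
          (fderiv ℝ (FF r N) w - fderiv ℝ (FF r N) v) - ContinuousLinearMap.mul ℝ ℂ (w - v) := by
        rw [map_sub]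
        abel
      rw [e1]
      have h8 := hC.dist_le_mul w v
      rw [dist_eq_norm, dist_eq_norm] at h8
      have h9 : ‖ContinuousLinearMap.mul ℝ ℂ (w - v)‖ ≤ ‖w - v‖ :=
        ContinuousLinearMap.opNorm_mul_apply_le ℝ ℂ _
      refine (norm_sub_le _ _).trans ?_
      push_cast
      linarith
    have := norm_fderiv_le_of_lipschitzOn ℝ (isOpen_interior.mem_nhds hz) hL
    simpa using this

/-- the mean energy of the stress function is at most `68579/56250 + O(r + 1/N)`. -/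
theorem Xi_energy : ∃ C : ℝ, ∀ r : ℝ, 0 < r → r ≤ 1 / 100 → ∀ N : ℕ, 10 ≤ N →
    ∫ z in par (2 * lam r) (2 * lam r * zt), EB (Xi r N) z ≤
      (68579 / 56250 + C * (r + 1 / N)) * (conj (2 * lam r) * (2 * lam r * zt)).im := by
  obtain ⟨C1, hC1⟩ := Fin0_bounds
  obtain ⟨C2, hC2⟩ := FF_c11
  set M : ℝ := (1 + ((C2 : ℝ) + 1)) ^ 2 + ((C2 : ℝ) + 1) ^ 2 with hM
  refine ⟨16 * (C1 : ℝ) ^ 2 + 15 * M, ?_⟩
  intro r h0 h1 N hN
  obtain ⟨hd, hL⟩ := hC2 r h0 h1 N hN
  have hF := hC1 r h0 h1 N hN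
  obtain ⟨hX1, K, hK⟩ := Xi_c11 h0 h1 hN
  -- global bound for the density
  have hbd : ∀ z, EB (Xi r N) z ≤ (1 + (K : ℝ)) ^ 2 + (K : ℝ) ^ 2 := fun z =>
    hexE_EB_le (norm_fderiv_le_of_lipschitz ℝ hK)
  have hmeas : AEStronglyMeasurable (EB (Xi r N)) volume := (hexE_EB_meas _).aestronglyMeasurable
  refine (integral_par_le h0 h1 (hexE_EB_per (Xi_per h0 h1 hN)) (hexE_EB_nonneg _) hbd hmeas).trans ?_
  have hint : ∀ S : Set ℂ, S ⊆ Vor r → IntegrableOn (EB (Xi r N)) S := by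
    intro S hS
    refine Measure.integrableOn_of_bounded (M := (1 + (K : ℝ)) ^ 2 + (K : ℝ) ^ 2) ?_ hmeas ?_
    · refine ne_of_lt (lt_of_le_of_lt (measure_mono (hS.trans fun w hw => ?_))
        (measure_closedBall_lt_top (x := (0 : ℂ)) (r := 6 / 5)))
      rw [mem_closedBall_zero_iff]
      exact (vor_bounded h0 h1 hw).1
    · refine Filter.Eventually.of_forall fun z => ?_
      rw [Real.norm_of_nonneg (hexE_EB_nonneg _ z)]
      exact hbd z
  have hcov := hexE_cover (ι := Fin 6 × Bool) (A := Vor r)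
    (S := fun i => Vor r ∩ (if i.2 then {w | 1 < xk i.1 w} else pieceS (i.1, false)))
    (isClosed_Vor r).measurableSet ?_ ?_ (hexE_EB_nonneg (Xi r N)) ?_ (hint _ subset_rfl)
  rotate_left
  · rintro ⟨k, b⟩
    refine (isClosed_Vor r).measurableSet.inter ?_
    cases b
    · simpa using (isClosed_pieceS (k, false)).measurableSet
    · simp only [if_true]
      refine measurableSet_lt measurable_const ?_
      unfold xk
      exact Complex.measurable_re.comp (measurable_id.mul_const _)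
  · intro w hw
    obtain ⟨k, hk, hmax⟩ := exists_max w
    rw [mem_iUnion]
    by_cases hx : 1 < xk k w
    · exact ⟨(⟨k, hk⟩, true), hw, by simpa using hx⟩
    · refine ⟨(⟨k, hk⟩, false), hw, ?_⟩
      simp only [Bool.false_eq_true, if_false]
      unfold pieceS
      simp only [Set.mem_ofPred_eq, Bool.false_eq_true, if_false]
      exact ⟨hmax, not_lt.mp hx⟩
  · exact fun i => hint _ inter_subset_left
  refine hcov.trans ?_
  rw [Fintype.sum_prod_type]
  simp only [Fintype.sum_bool, if_true, Bool.false_eq_true, if_false]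
  have hsum : ∑ k : Fin 6, ((∫ z in Vor r ∩ {w | 1 < xk k w}, EB (Xi r N) z) +
      ∫ z in Vor r ∩ pieceS (k, false), EB (Xi r N) z) ≤
      ∑ _k : Fin 6, (M * (r * (12 / 5)) +
        (‖lam r‖ ^ 2 * (68579 / 56250 * YY) + 2 * (C1 : ℝ) ^ 2 * (PP N * (2 * YY)))) := by
    refine Finset.sum_le_sum fun k _ => ?_
    exact add_le_add (hexE_out h0 h1 hN hd hL k)
      ((hexE_piece h0 h1 hN k).trans (hexE_sec hN hF))
  refine hsum.trans ?_
  rw [im_par]
  simp only [Finset.sum_const, Finset.card_univ, Fintype.card_fin, nsmul_eq_mul]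
  have hN0 : (0 : ℝ) < N := by
    have : 0 < N := by omega
    exact_mod_cast this
  have hY2 := YY_sq
  have hP : PP N * (2 * YY) = 4 / 3 * (1 / N) := by
    unfold PP
    field_simp
    linear_combination (12 : ℝ) * hY2
  have hs3 : (1 : ℝ) ≤ Real.sqrt 3 := by
    rw [Real.one_le_sqrt]
    norm_num
  have hY : YY = Real.sqrt 3 / 3 := by
    have hs : Real.sqrt 3 * YY = 1 := sqrt3_mul_YY
    have h3 : Real.sqrt 3 * Real.sqrt 3 = 3 := Real.mul_self_sqrt (by norm_num)
    have : Real.sqrt 3 * (Real.sqrt 3 * YY) = Real.sqrt 3 := by rw [hs, mul_one]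
    rw [← mul_assoc, h3] at this
    linarith
  have hlam : 1 ≤ ‖lam r‖ ^ 2 := by
    rw [← Complex.normSq_eq_norm_sq]
    unfold lam al
    rw [Complex.normSq_apply]
    simp
    nlinarith
  have hM0 : 0 ≤ M := by positivity
  have hC0 : 0 ≤ (C1 : ℝ) ^ 2 := by positivity
  have hN1 : (0 : ℝ) < 1 / N := by positivity
  rw [hP, hY]
  have h5 : (1 : ℝ) ≤ 2 * Real.sqrt 3 * ‖lam r‖ ^ 2 := by nlinarith
  have h6 : (16 * (C1 : ℝ) ^ 2 + 15 * M) * (r + 1 / N) ≤
      (16 * (C1 : ℝ) ^ 2 + 15 * M) * (r + 1 / N) * (2 * Real.sqrt 3 * ‖lam r‖ ^ 2) :=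
    le_mul_of_one_le_right (by positivity) h5
  have h7 : 0 ≤ (C1 : ℝ) ^ 2 * r := by positivity
  have h8 : 0 ≤ M * (1 / N) := by positivity
  have h9 : 0 ≤ M * r := by positivity
  push_cast
  nlinarith [h6, h7, h8, h9]

end EBC
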