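import Pool.Agent.Work.MP_ebc928_an.HexPoly

open MeasureTheory Complex Set
open scoped ContDiff ComplexConjugate

noncomputable section
namespace EBC

private theorem gA_zc : zt * conj zt = 1 := by
  simpa using zt_mul_conj_pow 1

private theorem gA_cz : conj zt * zt = 1 := by
  rw [mul_comm]; exact gA_zc

private theorem gA_ccp (k : ℕ) : conj (zt ^ k) * zt ^ k = 1 := by
  rw [mul_comm]; exact zt_mul_conj_pow k

private theorem gA_zt_ne : zt ≠ 0 := by
  intro h
  have := norm_zt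
  rw [h] at this
  simp at this

private theorem gA_pow_mod (k : ℕ) : zt ^ (k % 6) = zt ^ k := by
  conv_rhs => rw [← Nat.div_add_mod k 6, pow_add, pow_mul, zt_six, one_pow, one_mul]

theorem xk_mod (k : ℕ) (w : ℂ) : xk (k % 6) w = xk k w ∧ yk (k % 6) w = yk k w := by
  simp only [yk, xk, gA_pow_mod, and_self]

theorem xk_add_six (k : ℕ) (w : ℂ) : xk (k + 6) w = xk k w ∧ yk (k + 6) w = yk k w := by
  simp only [yk, xk, pow_add, zt_six, mul_one, and_self]

theorem xk_mul_zt (k : ℕ) (w : ℂ) : xk (k + 1) (zt * w) = xk k w ∧ yk (k + 1) (zt * w) = yk k w := by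
  have h : zt * w * conj (zt ^ (k + 1)) = w * conj (zt ^ k) := by
    rw [pow_succ, map_mul]
    linear_combination (w * conj (zt ^ k)) * gA_zc
  simp only [yk, xk, h, and_self]

theorem xk_rot (j k : ℕ) (w : ℂ) : xk (j + k) w = xk j (w * conj (zt ^ k)) ∧
    yk (j + k) w = yk j (w * conj (zt ^ k)) := by
  have h : w * conj (zt ^ (j + k)) = w * conj (zt ^ k) * conj (zt ^ j) := by
    rw [pow_add, map_mul]; ring
  simp only [yk, xk, h, and_self]

theorem xk_add_three (k : ℕ) (w : ℂ) : xk (k + 3) w = - xk k w := by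
  simp only [xk, pow_add, zt_cube, mul_neg, mul_one, map_neg, neg_re]

/-- reconstruction of `w` -/
theorem eq_of_coord (k : ℕ) (w : ℂ) :
    w = zt ^ k * (1 + yk k w * I + (xk k w - 1 : ℝ) * al) := by
  have h : (1 + yk k w * I + (xk k w - 1 : ℝ) * al : ℂ) = w * conj (zt ^ k) := by
    apply Complex.ext
    · simp [yk, xk, al]
    · simp [yk, xk, al]; ring
  rw [h]
  linear_combination (-w) * zt_mul_conj_pow k

theorem coord_eq (y s : ℝ) : xk 0 (1 + y * I + s * al) = 1 + s ∧ yk 0 (1 + y * I + s * al) = y := by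
  constructor
  · simp [xk, al]
  · simp [yk, xk, al]; ring

private theorem gA_s3 : Real.sqrt 3 * Real.sqrt 3 = 3 := Real.mul_self_sqrt (by norm_num)

private theorem gA_s3pos : 0 < Real.sqrt 3 := Real.sqrt_pos.2 (by norm_num)

private theorem gA_x1 (w : ℂ) : xk 1 w = w.re / 2 + Real.sqrt 3 / 2 * w.im := by
  simp [xk, zt]; ring

private theorem gA_zt5 : zt ^ 5 = conj zt := by
  have h : zt ^ 5 * zt = conj zt * zt := by
    rw [gA_cz, ← pow_succ, zt_six]
  exact mul_right_cancel₀ gA_zt_ne h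

private theorem gA_x5 (w : ℂ) : xk 5 w = w.re / 2 - Real.sqrt 3 / 2 * w.im := by
  simp only [xk, gA_zt5, Complex.conj_conj]
  simp [zt]; ring

theorem xk_coord (y s : ℝ) :
    xk 1 (1 + y * I + s * al) = 1 + s * (1 / 2 + Real.sqrt 3 / 14) + Real.sqrt 3 / 2 * (y - YY) ∧
    xk 5 (1 + y * I + s * al) = 1 + s * (1 / 2 - Real.sqrt 3 / 14) - Real.sqrt 3 / 2 * (y + YY) := by
  have h := sqrt3_mul_YY
  rw [gA_x1, gA_x5]
  constructor
  · simp [al]; linear_combination (1 / 2 : ℝ) * h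
  · simp [al]; linear_combination (1 / 2 : ℝ) * h

/-- change of coordinates between consecutive sides -/
theorem xk_one (w : ℂ) : xk 1 w = 1 + (xk 0 w - 1) * (1 / 2 + Real.sqrt 3 / 14)
      + Real.sqrt 3 / 2 * (yk 0 w - YY) := by
  have h := (xk_coord (yk 0 w) (xk 0 w - 1)).1
  have h2 := eq_of_coord 0 w
  rw [pow_zero, one_mul] at h2
  rw [← h2] at h
  exact h

private theorem gA_lam_re (r : ℝ) : (lam r).re = 1 + r / 2 := by simp [lam, al]
private theorem gA_lam_im (r : ℝ) : (lam r).im = r / 14 := by simp [lam, al]; ring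

/-- the opposite side seen from the neighbouring tile -/
theorem xk_opp {r : ℝ} (k : ℕ) (w : ℂ) :
    xk (k + 3) (w - 2 * lam r * zt ^ k) - 1 = r - (xk k w - 1) ∧
    yk (k + 3) (w - 2 * lam r * zt ^ k) = - yk k w := by
  have h : (w - 2 * lam r * zt ^ k) * conj (zt ^ (k + 3)) = 2 * lam r - w * conj (zt ^ k) := by
    rw [pow_add, zt_cube, mul_neg, mul_one, map_neg]
    linear_combination (2 * lam r) * zt_mul_conj_pow k
  have hre : (2 * lam r - w * conj (zt ^ k)).re = 2 + r - xk k w := by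
    rw [sub_re]; simp only [mul_re, gA_lam_re, xk]; simp; ring
  have him : (2 * lam r - w * conj (zt ^ k)).im = r / 7 - (w * conj (zt ^ k)).im := by
    rw [sub_im]; simp only [mul_im, gA_lam_im]; simp; ring
  constructor
  · rw [xk, h, hre]; ring
  · rw [yk, yk, xk, h, him, hre]; ring

/-- a maximal coordinate is at least half the modulus -/
theorem exists_max (w : ℂ) : ∃ k < 6, ∀ j < 6, xk j w ≤ xk k w := by
  obtain ⟨k, hk, h⟩ := Finset.exists_max_image (Finset.range 6) (fun k => xk k w) ⟨0, by simp⟩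
  exact ⟨k, Finset.mem_range.1 hk, fun j hj => h j (Finset.mem_range.2 hj)⟩

private theorem gA_max_all {w : ℂ} {c : ℝ} (h : ∀ j < 6, xk j w ≤ c) (j : ℕ) : xk j w ≤ c := by
  rw [← (xk_mod j w).1]; exact h _ (Nat.mod_lt _ (by norm_num))

private theorem gA_norm_sq (w : ℂ) (k : ℕ) : ‖w‖ ^ 2 = ‖w * conj (zt ^ k)‖ ^ 2 := by
  rw [norm_mul, RCLike.norm_conj, norm_pow, norm_zt, one_pow, mul_one]

private theorem gA_sq_le {w : ℂ} {k : ℕ} (h : ∀ j < 6, xk j w ≤ xk k w) :
    0 ≤ xk k w ∧ ‖w‖ ^ 2 ≤ 4 / 3 * (xk k w) ^ 2 := by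
  have h1 := gA_max_all h (1 + k)
  have h5 := gA_max_all h (5 + k)
  rw [(xk_rot 1 k w).1, gA_x1] at h1
  rw [(xk_rot 5 k w).1, gA_x5] at h5
  rw [gA_norm_sq w k, ← Complex.normSq_eq_norm_sq, Complex.normSq_apply]
  have hx : xk k w = (w * conj (zt ^ k)).re := rfl
  rw [hx] at h1 h5 ⊢
  clear hx
  generalize (w * conj (zt ^ k)).re = x at *
  generalize (w * conj (zt ^ k)).im = y at *
  have h0 : 0 ≤ x := by linarith
  refine ⟨h0, ?_⟩
  have ha : Real.sqrt 3 * y ≤ x := by linarith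
  have hb : -x ≤ Real.sqrt 3 * y := by linarith
  have hc : (Real.sqrt 3 * y) ^ 2 ≤ x ^ 2 := by
    apply sq_le_sq'
    · exact hb
    · exact ha
  have hd : (Real.sqrt 3 * y) ^ 2 = 3 * y ^ 2 := by
    rw [mul_pow, sq, gA_s3]
  nlinarith

theorem norm_le_xk (w : ℂ) {k : ℕ} (h : ∀ j < 6, xk j w ≤ xk k w) : ‖w‖ ≤ 6 / 5 * xk k w := by
  obtain ⟨h0, h1⟩ := gA_sq_le h
  apply abs_le_of_sq_le_sq' _ (by positivity) |>.2
  nlinarith [sq_nonneg (xk k w)]

/-! ### the lattice -/

private theorem gA_zt2 : zt ^ 2 = zt - 1 := zt_sq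
private theorem gA_zt4 : zt ^ 4 = -zt := by
  rw [show (4 : ℕ) = 3 + 1 by norm_num, pow_add, zt_cube]; ring
private theorem gA_zt5' : zt ^ 5 = 1 - zt := by rw [gA_zt5, conj_zt]

/-- every nonzero lattice point is `2 λ ζ^k (a + b ζ̄)` with `a ≥ 1`, `b ≥ 0`. -/
theorem lat_sector (r : ℝ) {m : ℤ × ℤ} (hm : m ≠ 0) : ∃ (k : ℕ) (a b : ℕ), k < 6 ∧ 1 ≤ a ∧
    lat r m = 2 * lam r * zt ^ k * (a + b * conj zt) := by
  obtain ⟨p, q⟩ := m
  have key : ∀ (k : ℕ) (a b : ℤ), k < 6 → 1 ≤ a → 0 ≤ b →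
      ((p : ℂ) + q * zt = zt ^ k * (a + b * conj zt)) →
      ∃ (k : ℕ) (a b : ℕ), k < 6 ∧ 1 ≤ a ∧
        lat r (p, q) = 2 * lam r * zt ^ k * (a + b * conj zt) := by
    intro k a b hk ha hb he
    refine ⟨k, a.toNat, b.toNat, hk, by omega, ?_⟩
    have ha' : ((a.toNat : ℕ) : ℂ) = (a : ℂ) := by
      have : ((a.toNat : ℕ) : ℤ) = a := Int.toNat_of_nonneg (by omega)
      exact_mod_cast congrArg (Int.cast : ℤ → ℂ) this
    have hb' : ((b.toNat : ℕ) : ℂ) = (b : ℂ) := by
      have : ((b.toNat : ℕ) : ℤ) = b := Int.toNat_of_nonneg (by omega)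
      exact_mod_cast congrArg (Int.cast : ℤ → ℂ) this
    rw [ha', hb']
    simp only [lat]
    rw [he]; ring
  have hz2 := gA_zt2
  have hcz := conj_zt
  rcases lt_trichotomy q 0 with hq | hq | hq
  · rcases le_or_gt p 0 with hp | hp
    · refine key 4 (-q) (-p) (by norm_num) (by omega) (by omega) ?_
      rw [gA_zt4, hcz]; push_cast
      linear_combination ((p : ℂ)) * hz2
    · rcases le_or_gt (p + q) 0 with hpq | hpq
      · refine key 5 p (-(p + q)) (by norm_num) (by omega) (by omega) ?_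
        rw [gA_zt5', hcz]; push_cast
        linear_combination ((p : ℂ) + q) * hz2
      · refine key 0 (p + q) (-q) (by norm_num) (by omega) (by omega) ?_
        rw [hcz]; push_cast; ring
  · subst hq
    rcases lt_trichotomy p 0 with hp | hp | hp
    · refine key 3 (-p) 0 (by norm_num) (by omega) (by omega) ?_
      rw [zt_cube]; push_cast; ring
    · exact absurd (by rw [hp]; rfl) hm
    · refine key 0 p 0 (by norm_num) (by omega) (by omega) ?_
      push_cast; ring
  · rcases le_or_gt 0 p with hp | hp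
    · refine key 1 q p (by norm_num) (by omega) (by omega) ?_
      rw [hcz]; linear_combination (p : ℂ) * hz2
    · rcases le_or_gt 0 (p + q) with hpq | hpq
      · refine key 2 (-p) (p + q) (by norm_num) (by omega) (by omega) ?_
        rw [hcz]; push_cast
        linear_combination ((p : ℂ) + (p + q) * (zt - 1) + (p + q)) * hz2 
      · refine key 3 (-(p + q)) q (by norm_num) (by omega) (by omega) ?_
        rw [zt_cube, hcz]; push_cast; ring

theorem lat_unit (r : ℝ) (k : ℕ) : ∃ m : ℤ × ℤ, m ≠ 0 ∧ lat r m = 2 * lam r * zt ^ k := by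
  rw [← gA_pow_mod k]
  have hk : k % 6 < 6 := Nat.mod_lt _ (by norm_num)
  generalize k % 6 = j at hk
  have hz2 := gA_zt2
  interval_cases j
  · exact ⟨(1, 0), by decide, by simp [lat]⟩
  · exact ⟨(0, 1), by decide, by simp [lat]⟩
  · refine ⟨(-1, 1), by decide, ?_⟩
    simp only [lat]; push_cast; linear_combination (-2 * lam r) * hz2
  · refine ⟨(-1, 0), by decide, ?_⟩
    rw [zt_cube]; simp [lat]
  · refine ⟨(0, -1), by decide, ?_⟩
    rw [gA_zt4]; simp [lat]
  · refine ⟨(1, -1), by decide, ?_⟩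
    rw [gA_zt5']; simp only [lat]; push_cast; ring

theorem lat_add (r : ℝ) (m m' : ℤ × ℤ) : lat r (m + m') = lat r m + lat r m' := by
  simp only [lat, Prod.fst_add, Prod.snd_add]; push_cast; ring
theorem lat_neg (r : ℝ) (m : ℤ × ℤ) : lat r (-m) = - lat r m := by
  simp only [lat, Prod.fst_neg, Prod.snd_neg]; push_cast; ring

private theorem gA_lam_sq (r : ℝ) : ‖lam r‖ ^ 2 = (1 + r / 2) ^ 2 + (r / 14) ^ 2 := by
  rw [← Complex.normSq_eq_norm_sq, Complex.normSq_apply, gA_lam_re, gA_lam_im]; ring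

private theorem gA_lam_mul (r : ℝ) : lam r * conj (lam r) = ((‖lam r‖ ^ 2 : ℝ) : ℂ) := by
  rw [Complex.mul_conj, Complex.normSq_eq_norm_sq]

private theorem gA_lam_gt {r : ℝ} (hr : 0 < r) : 1 < ‖lam r‖ ^ 2 := by
  rw [gA_lam_sq]; nlinarith

private theorem gA_lam_ne {r : ℝ} (hr : 0 < r) : lam r ≠ 0 := by
  intro h
  have := gA_lam_gt hr
  rw [h] at this
  norm_num at this

private theorem gA_lat_sq (r : ℝ) (m : ℤ × ℤ) :
    ‖lat r m‖ ^ 2 = 4 * ‖lam r‖ ^ 2 * ((m.1 : ℝ) ^ 2 + m.1 * m.2 + (m.2 : ℝ) ^ 2) := by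
  have h : ‖(m.1 + m.2 * zt : ℂ)‖ ^ 2 = (m.1 : ℝ) ^ 2 + m.1 * m.2 + (m.2 : ℝ) ^ 2 := by
    rw [← Complex.normSq_eq_norm_sq, Complex.normSq_apply]
    have h3 := gA_s3
    simp [zt]
    linear_combination ((m.2 : ℝ) ^ 2 / 4) * h3
  rw [lat, norm_mul, norm_mul, mul_pow, mul_pow, h]
  norm_num

private theorem gA_lat_bd {r : ℝ} (hr : 0 < r) (m : ℤ × ℤ) :
    |(m.1 : ℝ)| ≤ ‖lat r m‖ ∧ |(m.2 : ℝ)| ≤ ‖lat r m‖ := by
  have h := gA_lat_sq r m
  have h1 := gA_lam_gt hr
  have h2 : (m.1 : ℝ) ^ 2 ≤ ‖lat r m‖ ^ 2 := by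
    rw [h]; nlinarith [sq_nonneg ((m.1 : ℝ) + 2 * m.2), sq_nonneg (m.1 : ℝ),
      mul_nonneg (sub_nonneg.2 h1.le) (add_nonneg (mul_nonneg (by norm_num : (0:ℝ) ≤ 3) (sq_nonneg (m.1 : ℝ))) (sq_nonneg ((m.1 : ℝ) + 2 * m.2)))]
  have h3 : (m.2 : ℝ) ^ 2 ≤ ‖lat r m‖ ^ 2 := by
    rw [h]; nlinarith [sq_nonneg ((m.2 : ℝ) + 2 * m.1), sq_nonneg (m.2 : ℝ),
      mul_nonneg (sub_nonneg.2 h1.le) (add_nonneg (mul_nonneg (by norm_num : (0:ℝ) ≤ 3) (sq_nonneg (m.2 : ℝ))) (sq_nonneg ((m.2 : ℝ) + 2 * m.1)))]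
  exact ⟨abs_le_of_sq_le_sq h2 (norm_nonneg _), abs_le_of_sq_le_sq h3 (norm_nonneg _)⟩

theorem lat_injective {r : ℝ} (hr : 0 < r) : Function.Injective (lat r) := by
  intro m m' h
  have h0 : lat r (m + -m') = 0 := by rw [lat_add, lat_neg, h]; ring
  have hb := gA_lat_bd hr (m + -m')
  rw [h0, norm_zero] at hb
  have h1 : ((m + -m').1 : ℝ) = 0 := abs_eq_zero.1 (le_antisymm hb.1 (abs_nonneg _))
  have h2 : ((m + -m').2 : ℝ) = 0 := abs_eq_zero.1 (le_antisymm hb.2 (abs_nonneg _))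
  have h1' : (m + -m').1 = 0 := by exact_mod_cast h1
  have h2' : (m + -m').2 = 0 := by exact_mod_cast h2
  simp only [Prod.fst_add, Prod.snd_add, Prod.fst_neg, Prod.snd_neg] at h1' h2'
  ext <;> omega

private theorem gA_finite {r : ℝ} (hr : 0 < r) (C : ℝ) : {m : ℤ × ℤ | ‖lat r m‖ ≤ C}.Finite := by
  apply Set.Finite.subset (Set.finite_Icc ((-⌈C⌉, -⌈C⌉) : ℤ × ℤ) (⌈C⌉, ⌈C⌉))
  intro m hm
  have hb := gA_lat_bd hr m
  have h1 : |(m.1 : ℝ)| ≤ ⌈C⌉ := (hb.1.trans hm).trans (Int.le_ceil C)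
  have h2 : |(m.2 : ℝ)| ≤ ⌈C⌉ := (hb.2.trans hm).trans (Int.le_ceil C)
  have h1' : |m.1| ≤ ⌈C⌉ := by exact_mod_cast h1
  have h2' : |m.2| ≤ ⌈C⌉ := by exact_mod_cast h2
  rw [abs_le] at h1' h2'
  exact ⟨⟨h1'.1, h2'.1⟩, ⟨h1'.2, h2'.2⟩⟩

theorem vor_cover {r : ℝ} (hr : 0 < r) (z : ℂ) : ∃ m : ℤ × ℤ, z - lat r m ∈ Vor r := by
  have ht : Filter.Tendsto (fun m : ℤ × ℤ => ‖z - lat r m‖) Filter.cofinite Filter.atTop := by
    rw [Filter.tendsto_atTop]
    intro b
    rw [Filter.eventually_cofinite]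
    apply (gA_finite hr (‖z‖ + b)).subset
    intro m hm
    have hm' : ‖z - lat r m‖ < b := not_le.1 hm
    have := norm_sub_norm_le (lat r m) z
    rw [norm_sub_rev] at this
    show ‖lat r m‖ ≤ ‖z‖ + b
    linarith
  obtain ⟨m, hm⟩ := ht.exists_forall_le
  refine ⟨m, fun k hk => ?_⟩
  obtain ⟨u, -, hu⟩ := lat_unit r k
  have h1 := hm (m + u)
  simp only [lat_add, hu] at h1
  set v := z - lat r m with hv
  have h2 : z - (lat r m + 2 * lam r * zt ^ k) = v - 2 * (zt ^ k * lam r) := by rw [hv]; ring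
  rw [h2] at h1
  have h3 : ‖v‖ ^ 2 ≤ ‖v - 2 * (zt ^ k * lam r)‖ ^ 2 := by gcongr
  have h4 : ‖v - 2 * (zt ^ k * lam r)‖ ^ 2
      = ‖v‖ ^ 2 - 4 * (v * conj (zt ^ k * lam r)).re + 4 * ‖zt ^ k * lam r‖ ^ 2 := by
    rw [← Complex.normSq_eq_norm_sq, Complex.normSq_sub, Complex.normSq_eq_norm_sq,
      Complex.normSq_eq_norm_sq, norm_mul, map_mul]
    have : (v * (conj 2 * conj (zt ^ k * lam r))).re = 2 * (v * conj (zt ^ k * lam r)).re := by
      have h2 : (conj (2 : ℂ)) = 2 := map_ofNat _ 2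
      rw [h2, show v * (2 * conj (zt ^ k * lam r)) = 2 * (v * conj (zt ^ k * lam r)) by ring]
      simp
    rw [this]
    norm_num
    ring
  have h5 : ‖zt ^ k * lam r‖ ^ 2 = ‖lam r‖ ^ 2 := by
    rw [norm_mul, norm_pow, norm_zt, one_pow, one_mul]
  rw [h4, h5] at h3
  linarith

theorem isClosed_Vor (r : ℝ) : IsClosed (Vor r) := by
  have : Vor r = ⋂ k ∈ {k : ℕ | k < 6}, {w | (w * conj (zt ^ k * lam r)).re ≤ ‖lam r‖ ^ 2} := by
    ext w; simp [Vor]
  rw [this]
  apply isClosed_biInter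
  intro k _
  apply isClosed_le _ continuous_const
  exact Complex.continuous_re.comp (continuous_id.mul continuous_const)

theorem convex_Vor (r : ℝ) : Convex ℝ (Vor r) := by
  intro x hx y hy a b ha hb hab k hk
  have h1 := hx k hk
  have h2 := hy k hk
  have h3 : ((a • x + b • y) * conj (zt ^ k * lam r)).re
      = a * (x * conj (zt ^ k * lam r)).re + b * (y * conj (zt ^ k * lam r)).re := by
    rw [add_mul, add_re, smul_mul_assoc, smul_mul_assoc, Complex.smul_re, Complex.smul_re,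
      smul_eq_mul, smul_eq_mul]
  rw [h3]
  calc a * (x * conj (zt ^ k * lam r)).re + b * (y * conj (zt ^ k * lam r)).re
      ≤ a * ‖lam r‖ ^ 2 + b * ‖lam r‖ ^ 2 := by gcongr
    _ = ‖lam r‖ ^ 2 := by rw [← add_mul, hab, one_mul]

private theorem gA_vor_iff {r : ℝ} {w : ℂ} : w ∈ Vor r ↔ ∀ k < 6, xk k (w * conj (lam r)) ≤ ‖lam r‖ ^ 2 := by
  constructor
  · intro h k hk
    have := h k hk
    rwa [map_mul, show w * (conj (zt ^ k) * conj (lam r)) = w * conj (lam r) * conj (zt ^ k) by ring] at this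
  · intro h k hk
    have := h k hk
    rw [map_mul, show w * (conj (zt ^ k) * conj (lam r)) = w * conj (lam r) * conj (zt ^ k) by ring]
    exact this

theorem vor_all {r : ℝ} {w : ℂ} (h : w ∈ Vor r) (k : ℕ) :
    (w * conj (zt ^ k * lam r)).re ≤ ‖lam r‖ ^ 2 := by
  have := h (k % 6) (Nat.mod_lt _ (by norm_num))
  rwa [gA_pow_mod] at this

/-- sharp bound for the modulus on the Voronoi cell -/
theorem vor_norm_sq {r : ℝ} (hr : 0 < r) {w : ℂ} (hw : w ∈ Vor r) :
    ‖w‖ ^ 2 ≤ 4 / 3 * ‖lam r‖ ^ 2 := by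
  obtain ⟨k, hk, hmax⟩ := exists_max (w * conj (lam r))
  obtain ⟨h0, h1⟩ := gA_sq_le hmax
  have h2 := gA_vor_iff.1 hw k hk
  rw [norm_mul, RCLike.norm_conj, mul_pow] at h1
  have h3 : (xk k (w * conj (lam r))) ^ 2 ≤ (‖lam r‖ ^ 2) ^ 2 := by gcongr
  have h4 : ‖w‖ ^ 2 * ‖lam r‖ ^ 2 ≤ (4 / 3 * ‖lam r‖ ^ 2) * ‖lam r‖ ^ 2 := by nlinarith
  exact le_of_mul_le_mul_right h4 (by linarith [gA_lam_gt hr])

theorem vor_rot {r : ℝ} {w : ℂ} (hw : w ∈ Vor r) (k : ℕ) : w * conj (zt ^ k) ∈ Vor r := by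
  intro j hj
  have := vor_all hw (j + k)
  rwa [show w * conj (zt ^ (j + k) * lam r) = w * conj (zt ^ k) * conj (zt ^ j * lam r) by
    rw [pow_add]; simp only [map_mul]; ring] at this

theorem vor_neg {r : ℝ} {w : ℂ} (hw : w ∈ Vor r) : -w ∈ Vor r := by
  have := vor_rot hw 3
  rw [zt_cube] at this
  simpa using this

/-- sharper bound of the coordinates on the Voronoi cell -/
theorem vor_xk_le {r : ℝ} (h0 : 0 < r) (h1 : r ≤ 1 / 100) {w : ℂ} (hw : w ∈ Vor r) (k : ℕ) :
    xk k w ≤ 1 + 6 / 10 * r := by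
  have hv := vor_rot hw k
  have hn := vor_norm_sq h0 hv
  have h2 := vor_all hv 0
  rw [gA_lam_sq] at hn
  rw [pow_zero, one_mul, gA_lam_sq] at h2
  have hx : xk k w = (w * conj (zt ^ k)).re := rfl
  rw [hx]
  generalize w * conj (zt ^ k) = v at *
  have h3 : (v * conj (lam r)).re = v.re * (1 + r / 2) + v.im * (r / 14) := by
    rw [mul_re, conj_re, conj_im, gA_lam_re, gA_lam_im]; ring
  rw [h3] at h2
  rw [← Complex.normSq_eq_norm_sq, Complex.normSq_apply] at hn
  have h4 : -(12 / 10) ≤ v.im := by nlinarith [mul_self_nonneg v.re]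
  by_contra hcon
  push Not at hcon
  nlinarith

theorem vor_bounded {r : ℝ} (h0 : 0 < r) (h1 : r ≤ 1 / 100) {w : ℂ} (hw : w ∈ Vor r) :
    ‖w‖ ≤ 6 / 5 ∧ ∀ k < 6, xk k w ≤ 1 + r := by
  constructor
  · have hn := vor_norm_sq h0 hw
    rw [gA_lam_sq] at hn
    apply abs_le_of_sq_le_sq' _ (by norm_num) |>.2
    nlinarith
  · intro k _
    have := vor_xk_le h0 h1 hw k
    linarith

theorem vor_locallyFinite {r : ℝ} (hr : 0 < r) :
    LocallyFinite fun m : ℤ × ℤ => {z : ℂ | z - lat r m ∈ Vor r} := by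
  intro z
  refine ⟨Metric.ball z 1, Metric.ball_mem_nhds _ one_pos, ?_⟩
  apply (gA_finite hr (‖z‖ + 1 + 2 * ‖lam r‖)).subset
  rintro m ⟨w, hw1, hw2⟩
  have hn := vor_norm_sq hr hw1
  have h1 : ‖w - lat r m‖ ≤ 2 * ‖lam r‖ := by
    apply abs_le_of_sq_le_sq' _ (by positivity) |>.2
    nlinarith [sq_nonneg ‖lam r‖]
  have h2 : ‖w - z‖ < 1 := by simpa [dist_eq_norm] using hw2
  show ‖lat r m‖ ≤ ‖z‖ + 1 + 2 * ‖lam r‖
  calc ‖lat r m‖ = ‖z + (w - z) - (w - lat r m)‖ := by congr 1; ring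
    _ ≤ ‖z‖ + ‖w - z‖ + ‖w - lat r m‖ := by
      refine (norm_sub_le _ _).trans ?_
      gcongr
      exact norm_add_le _ _
    _ ≤ _ := by linarith

/-- two cells meet only along the sides -/
theorem vor_side {r : ℝ} (h0 : 0 < r) (h1 : r ≤ 1 / 100) {m : ℤ × ℤ} (hm : m ≠ 0) {w : ℂ}
    (hw : w ∈ Vor r) (hw' : w - lat r m ∈ Vor r) :
    ∃ k < 6, lat r m = 2 * lam r * zt ^ k ∧ ∃ τ : ℝ, |τ| ≤ YY ∧
      w = zt ^ k * (lam r * (1 + τ * I)) := by
  obtain ⟨k, a, b, hk, ha, he⟩ := lat_sector r hm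
  have hl := gA_lam_gt h0
  have hL := gA_lam_mul r
  set L : ℝ := ‖lam r‖ ^ 2 with hLdef
  have e1 := vor_all hw k
  have e2 := vor_all hw' (k + 3)
  have hb2 : (w - lat r m) * conj (zt ^ (k + 3) * lam r)
      = 2 * (L : ℂ) * (a + b * conj zt) - w * conj (zt ^ k * lam r) := by
    rw [he, pow_add, zt_cube]
    simp only [map_mul, mul_neg, mul_one, neg_mul, map_neg]
    rw [← hL]
    linear_combination (2 * lam r * conj (lam r) * (a + b * conj zt)) * zt_mul_conj_pow k
  rw [hb2] at e2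
  have hre : (2 * (L : ℂ) * (a + b * conj zt)).re = 2 * L * (a + b / 2) := by
    simp [zt]; left; ring
  rw [sub_re, hre] at e2
  have e3 : 2 * L * (a + b / 2) ≤ 2 * L := by linarith
  have e4 : (a : ℝ) + b / 2 ≤ 1 := by
    have : 0 < 2 * L := by linarith
    exact le_of_mul_le_mul_left (by linarith) this
  have ha1 : a = 1 := by
    have h5 : (a : ℝ) ≤ 1 := by
      have : (0 : ℝ) ≤ b := Nat.cast_nonneg b
      linarith
    have : a ≤ 1 := by exact_mod_cast h5
    omega
  have hb0 : b = 0 := by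
    rw [ha1] at e4
    have h5 : (b : ℝ) ≤ 0 := by push_cast at e4; linarith
    have : b ≤ 0 := by exact_mod_cast h5
    omega
  subst ha1 hb0
  have heq : (w * conj (zt ^ k * lam r)).re = L := by
    push_cast at e2
    linarith
  refine ⟨k, hk, by rw [he]; push_cast; ring, (w * conj (zt ^ k * lam r)).im / L, ?_, ?_⟩
  · have f1 := vor_all hw (1 + k)
    have f5 := vor_all hw (5 + k)
    have g1 : w * conj (zt ^ (1 + k) * lam r) = w * conj (zt ^ k * lam r) * conj (zt ^ 1) := by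
      rw [pow_add]; simp only [map_mul]; ring
    have g5 : w * conj (zt ^ (5 + k) * lam r) = w * conj (zt ^ k * lam r) * conj (zt ^ 5) := by
      rw [pow_add]; simp only [map_mul]; ring
    rw [g1] at f1
    rw [g5] at f5
    have f1' : xk 1 (w * conj (zt ^ k * lam r)) ≤ L := f1
    have f5' : xk 5 (w * conj (zt ^ k * lam r)) ≤ L := f5
    rw [gA_x1, heq] at f1'
    rw [gA_x5, heq] at f5'
    have h3 := sqrt3_mul_YY
    have hLpos : 0 < L := by linarith
    rw [abs_div, abs_of_pos hLpos, div_le_iff₀ hLpos, abs_le]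
    have hs := gA_s3pos
    constructor
    · have : Real.sqrt 3 * (-(YY * L)) ≤ Real.sqrt 3 * (w * conj (zt ^ k * lam r)).im := by
        rw [show Real.sqrt 3 * (-(YY * L)) = -(Real.sqrt 3 * YY) * L by ring, h3]
        linarith
      exact le_of_mul_le_mul_left this hs
    · have : Real.sqrt 3 * (w * conj (zt ^ k * lam r)).im ≤ Real.sqrt 3 * (YY * L) := by
        rw [show Real.sqrt 3 * ((YY * L)) = (Real.sqrt 3 * YY) * L by ring, h3]
        linarith
      exact le_of_mul_le_mul_left this hs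
  · have hLne : (L : ℂ) ≠ 0 := by
      have : L ≠ 0 := by linarith
      exact_mod_cast this
    have hv : w * conj (zt ^ k * lam r)
        = (L : ℂ) * (1 + (((w * conj (zt ^ k * lam r)).im / L : ℝ) : ℂ) * I) := by
      have hLne' : L ≠ 0 := by linarith
      apply Complex.ext
      · rw [heq]; simp
      · simp only [mul_im, add_re, add_im, ofReal_re, ofReal_im, mul_re, I_re, I_im, one_re,
          one_im]
        field_simp
        ring
    have hw2 : w * (L : ℂ) = zt ^ k * lam r * (w * conj (zt ^ k * lam r)) := by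
      rw [← hL]
      simp only [map_mul]
      linear_combination (-(w * lam r * conj (lam r))) * zt_mul_conj_pow k
    rw [hv] at hw2
    apply mul_right_cancel₀ hLne
    rw [hw2]; ring

theorem ball_subset_Vor {r : ℝ} (h0 : 0 < r) (h1 : r ≤ 1 / 100) : Metric.ball 0 (1 / 2) ⊆ Vor r := by
  intro w hw k _
  have hw' : ‖w‖ < 1 / 2 := by simpa using hw
  have hl := gA_lam_gt h0
  have h2 : (w * conj (zt ^ k * lam r)).re ≤ ‖w‖ * ‖lam r‖ := by
    refine (Complex.re_le_norm _).trans ?_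
    rw [norm_mul, RCLike.norm_conj, norm_mul, norm_pow, norm_zt, one_pow, one_mul]
  have h3 : 1 ≤ ‖lam r‖ := by
    by_contra hc
    push Not at hc
    nlinarith [norm_nonneg (lam r)]
  nlinarith [norm_nonneg (lam r)]

private theorem re_ofReal_mul_im_aux (r : ℝ) :
    (((4 * ‖lam r‖ ^ 2 : ℝ) : ℂ) * zt).im = 2 * Real.sqrt 3 * ‖lam r‖ ^ 2 := by
  rw [mul_im, ofReal_re, ofReal_im]
  simp only [zt]
  ring

/-- periodicity under the whole lattice -/
theorem perL_lat {α : Type*} {r : ℝ} {g : ℂ → α} (hg : PerL (2 * lam r) (2 * lam r * zt) g)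
    (m : ℤ × ℤ) (z : ℂ) : g (z + lat r m) = g z := by
  have h1 : Function.Periodic g (2 * lam r) := fun z => (hg z).1
  have h2 : Function.Periodic g (2 * lam r * zt) := fun z => (hg z).2
  have h3 := (h1.int_mul m.1)
  have h4 := (h2.int_mul m.2)
  have h5 : z + lat r m = z + m.1 * (2 * lam r) + m.2 * (2 * lam r * zt) := by
    simp only [lat]; ring
  rw [h5, h4, h3]

private theorem gA_coord_re (r : ℝ) (hr : 0 < r) (z : ℂ) :
    z = ((z / (2 * lam r)).re - (z / (2 * lam r)).im / Real.sqrt 3 : ℝ) • (2 * lam r)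
      + (2 * (z / (2 * lam r)).im / Real.sqrt 3 : ℝ) • (2 * lam r * zt) := by
  have hne : (2 * lam r) ≠ 0 := mul_ne_zero two_ne_zero (gA_lam_ne hr)
  have hs : Real.sqrt 3 ≠ 0 := gA_s3pos.ne'
  have h : z / (2 * lam r) = (((z / (2 * lam r)).re - (z / (2 * lam r)).im / Real.sqrt 3 : ℝ) : ℂ)
      + ((2 * (z / (2 * lam r)).im / Real.sqrt 3 : ℝ) : ℂ) * zt := by
    generalize z / (2 * lam r) = v
    apply Complex.ext
    · rw [add_re, mul_re, ofReal_re, ofReal_re, ofReal_im]
      simp only [zt]; field_simp; ring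
    · rw [add_im, mul_im, ofReal_re, ofReal_im, ofReal_im]
      simp only [zt]; field_simp; ring
  rw [Complex.real_smul, Complex.real_smul]
  have h2 : z = (z / (2 * lam r)) * (2 * lam r) := (div_mul_cancel₀ z hne).symm
  generalize z / (2 * lam r) = v at h h2 ⊢
  rw [h2]
  nth_rw 1 [h]
  ring

private theorem gA_indep (r : ℝ) (hr : 0 < r) {s t s' t' : ℝ}
    (h : s • (2 * lam r) + t • (2 * lam r * zt) = s' • (2 * lam r) + t' • (2 * lam r * zt)) :
    s = s' ∧ t = t' := by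
  have hne : (2 * lam r) ≠ 0 := mul_ne_zero two_ne_zero (gA_lam_ne hr)
  simp only [Complex.real_smul] at h
  have h2 : (s : ℂ) + t * zt = s' + t' * zt := by
    apply mul_right_cancel₀ hne
    linear_combination h
  have him := congrArg Complex.im h2
  have hre := congrArg Complex.re h2
  simp only [add_im, add_re, mul_im, mul_re, ofReal_re, ofReal_im, zt] at him hre
  have hs := gA_s3pos
  have ht : t = t' := by
    have : t * (Real.sqrt 3 / 2) = t' * (Real.sqrt 3 / 2) := by linarith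
    exact mul_right_cancel₀ (by positivity) this
  subst ht
  exact ⟨by linarith, rfl⟩

private theorem gA_measurable_par (r : ℝ) (hr : 0 < r) :
    MeasurableSet (par (2 * lam r) (2 * lam r * zt)) := by
  have he : par (2 * lam r) (2 * lam r * zt) =
      {z : ℂ | ((z / (2 * lam r)).re - (z / (2 * lam r)).im / Real.sqrt 3) ∈ Ico (0 : ℝ) 1} ∩
      {z : ℂ | (2 * (z / (2 * lam r)).im / Real.sqrt 3) ∈ Ico (0 : ℝ) 1} := by
    ext z
    constructor
    · rintro ⟨s, t, hs, ht, hz⟩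
      have h := gA_coord_re r hr z
      rw [hz] at h
      have := gA_indep r hr h
      rw [← hz] at this
      exact ⟨by rw [Set.mem_ofPred_eq, ← this.1]; exact hs,
        by rw [Set.mem_ofPred_eq, ← this.2]; exact ht⟩
    · rintro ⟨h1, h2⟩
      exact ⟨_, _, h1, h2, gA_coord_re r hr z⟩
  rw [he]
  have hc : Continuous fun z : ℂ => z / (2 * lam r) := continuous_id.div_const _
  apply MeasurableSet.inter
  · apply measurableSet_Ico.preimage
    exact ((Complex.continuous_re.comp hc).sub ((Complex.continuous_im.comp hc).div_const _)).measurable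
  · apply measurableSet_Ico.preimage
    exact ((continuous_const.mul (Complex.continuous_im.comp hc)).div_const _).measurable

/-- comparison of the two fundamental domains -/
theorem integral_par_le {r : ℝ} (h0 : 0 < r) (h1 : r ≤ 1 / 100) {g : ℂ → ℝ}
    (hg : PerL (2 * lam r) (2 * lam r * zt) g) (hn : ∀ z, 0 ≤ g z) {M : ℝ} (hM : ∀ z, g z ≤ M)
    (hm : AEStronglyMeasurable g volume) :
    ∫ z in par (2 * lam r) (2 * lam r * zt), g z ≤ ∫ z in Vor r, g z := by
  have hmV : MeasurableSet (Vor r) := (isClosed_Vor r).measurableSet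
  have hmP := gA_measurable_par r h0
  have hbV : Vor r ⊆ Metric.closedBall 0 (6 / 5) := by
    intro w hw
    simpa using (vor_bounded h0 h1 hw).1
  have hfin : volume (Vor r) < ⊤ := (measure_mono hbV).trans_lt measure_closedBall_lt_top
  set G : ℂ → ENNReal := fun z => ENNReal.ofReal (g z) with hG
  have hGm : AEMeasurable G volume := hm.aemeasurable.ennreal_ofReal
  have hGper : ∀ (m : ℤ × ℤ) z, G (z + lat r m) = G z := fun m z => by
    simp only [hG, perL_lat hg m z]
  -- main inequality for the lower integrals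
  have key : ∫⁻ z in par (2 * lam r) (2 * lam r * zt), G z ≤ ∫⁻ z in Vor r, G z := by
    have hcov : par (2 * lam r) (2 * lam r * zt) ⊆
        ⋃ m : ℤ × ℤ, (par (2 * lam r) (2 * lam r * zt) ∩ {z | z - lat r m ∈ Vor r}) := by
      intro z hz
      obtain ⟨m, hm⟩ := vor_cover h0 z
      exact Set.mem_iUnion.2 ⟨m, hz, hm⟩
    have hmeas : ∀ m : ℤ × ℤ, MeasurableSet {z : ℂ | z - lat r m ∈ Vor r} := fun m =>
      hmV.preimage (measurable_id.sub_const _)
    have hmeas' : ∀ m : ℤ × ℤ,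
        MeasurableSet {z : ℂ | z + lat r m ∈ par (2 * lam r) (2 * lam r * zt)} := fun m =>
      hmP.preimage (measurable_id.add_const _)
    calc ∫⁻ z in par (2 * lam r) (2 * lam r * zt), G z
        ≤ ∫⁻ z in ⋃ m : ℤ × ℤ, (par (2 * lam r) (2 * lam r * zt) ∩ {z | z - lat r m ∈ Vor r}),
            G z := lintegral_mono_set hcov
      _ ≤ ∑' m : ℤ × ℤ, ∫⁻ z in par (2 * lam r) (2 * lam r * zt) ∩ {z | z - lat r m ∈ Vor r},
            G z := lintegral_iUnion_le _ _
      _ = ∑' m : ℤ × ℤ, ∫⁻ z in {z | z + lat r m ∈ par (2 * lam r) (2 * lam r * zt)} ∩ Vor r,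
            G z := by
          congr 1
          ext m
          rw [← lintegral_indicator (hmP.inter (hmeas m)),
            ← lintegral_indicator ((hmeas' m).inter hmV)]
          rw [← lintegral_add_right_eq_self _ (lat r m)]
          congr 1
          ext z
          by_cases hz : z ∈ {z | z + lat r m ∈ par (2 * lam r) (2 * lam r * zt)} ∩ Vor r
          · rw [Set.indicator_of_mem hz, Set.indicator_of_mem, hGper]
            refine ⟨hz.1, ?_⟩
            show z + lat r m - lat r m ∈ Vor r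
            rw [add_sub_cancel_right]; exact hz.2
          · rw [Set.indicator_of_notMem hz, Set.indicator_of_notMem]
            rintro ⟨ha, hb⟩
            apply hz
            refine ⟨ha, ?_⟩
            have hb' : z + lat r m - lat r m ∈ Vor r := hb
            rwa [add_sub_cancel_right] at hb'
      _ = ∫⁻ z in ⋃ m : ℤ × ℤ, ({z | z + lat r m ∈ par (2 * lam r) (2 * lam r * zt)} ∩ Vor r),
            G z := by
          rw [lintegral_iUnion]
          · intro m
            exact (hmeas' m).inter hmV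
          · intro m m' hne
            rw [Function.onFun, Set.disjoint_left]
            rintro z ⟨⟨s, t, hs, ht, hz⟩, -⟩ ⟨⟨s', t', hs', ht', hz'⟩, -⟩
            apply hne
            have hl : ∀ m : ℤ × ℤ, lat r m = (m.1 : ℝ) • (2 * lam r) + (m.2 : ℝ) • (2 * lam r * zt) := by
              intro m
              simp only [lat, Complex.real_smul]; push_cast; ring
            have h3 : (s - m.1 : ℝ) • (2 * lam r) + (t - m.2 : ℝ) • (2 * lam r * zt)
                = (s' - m'.1 : ℝ) • (2 * lam r) + (t' - m'.2 : ℝ) • (2 * lam r * zt) := by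
              have e1 : z = s • (2 * lam r) + t • (2 * lam r * zt) - lat r m := by rw [← hz]; ring
              have e2 : z = s' • (2 * lam r) + t' • (2 * lam r * zt) - lat r m' := by rw [← hz']; ring
              rw [sub_smul, sub_smul, sub_smul, sub_smul]
              rw [hl] at e1 e2
              linear_combination e2 - e1
            obtain ⟨h4, h5⟩ := gA_indep r h0 h3
            have h6 : (m.1 : ℝ) - m'.1 = s - s' := by linarith
            have h7 : (m.2 : ℝ) - m'.2 = t - t' := by linarith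
            have h8 : |((m.1 - m'.1 : ℤ) : ℝ)| < 1 := by
              push_cast; rw [h6, abs_lt]; constructor <;> linarith [hs.1, hs.2, hs'.1, hs'.2]
            have h9 : |((m.2 - m'.2 : ℤ) : ℝ)| < 1 := by
              push_cast; rw [h7, abs_lt]; constructor <;> linarith [ht.1, ht.2, ht'.1, ht'.2]
            have h8' : |m.1 - m'.1| < 1 := by exact_mod_cast h8
            have h9' : |m.2 - m'.2| < 1 := by exact_mod_cast h9
            rw [Int.abs_lt_one_iff] at h8' h9'
            ext <;> omega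
      _ ≤ ∫⁻ z in Vor r, G z := by
          apply lintegral_mono_set
          exact Set.iUnion_subset fun m => Set.inter_subset_right
  have hfinV : ∫⁻ z in Vor r, G z < ⊤ := by
    calc ∫⁻ z in Vor r, G z ≤ ∫⁻ _ in Vor r, ENNReal.ofReal M := by
          apply lintegral_mono
          intro z
          exact ENNReal.ofReal_le_ofReal (hM z)
      _ = ENNReal.ofReal M * volume (Vor r) := by rw [lintegral_const, Measure.restrict_apply_univ]
      _ < ⊤ := ENNReal.mul_lt_top ENNReal.ofReal_lt_top hfin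
  rw [integral_eq_lintegral_of_nonneg_ae (Filter.Eventually.of_forall hn) hm.restrict,
    integral_eq_lintegral_of_nonneg_ae (Filter.Eventually.of_forall hn) hm.restrict]
  exact ENNReal.toReal_mono hfinV.ne key

theorem im_par (r : ℝ) : (conj (2 * lam r) * (2 * lam r * zt)).im
    = 2 * Real.sqrt 3 * ‖lam r‖ ^ 2 := by
  have h : conj (2 * lam r) * (2 * lam r * zt) = ((4 * ‖lam r‖ ^ 2 : ℝ) : ℂ) * zt := by
    push_cast
    have := gA_lam_mul r
    push_cast at this
    rw [← this, map_mul]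
    have h2 : (conj (2 : ℂ)) = 2 := map_ofNat _ 2
    rw [h2]; ring
  rw [h, re_ofReal_mul_im_aux]

end EBC
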