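import Pool.Agent.Work.MP_ebc928_an.HexF1a
import Pool.Agent.Work.MP_ebc928_an.HexGeomA

open MeasureTheory Complex Set
open scoped ContDiff ComplexConjugate

noncomputable section
namespace EBC

/-! ### calculus helpers -/

private theorem n2_eq {E : Type*} [NormedAddCommGroup E] [NormedSpace ℝ E] (f : ℂ → E) (w : ℂ) :
    ‖fderiv ℝ (fderiv ℝ f) w‖ = ‖iteratedFDeriv ℝ 2 f w‖ := by
  rw [← norm_iteratedFDeriv_one, norm_iteratedFDeriv_fderiv]

private theorem contDiff_fderiv_of {E : Type*} [NormedAddCommGroup E] [NormedSpace ℝ E] {f : ℂ → E}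
    (hf : ContDiff ℝ ∞ f) : ContDiff ℝ ∞ (fderiv ℝ f) :=
  hf.fderiv_right (m := ∞) (by simp)

/-- second derivative of a product with a real function -/
private theorem n2_smul {a : ℂ → ℝ} {E : ℂ → ℂ} (ha : ContDiff ℝ ∞ a) (hE : ContDiff ℝ ∞ E) (w : ℂ) :
    ‖fderiv ℝ (fderiv ℝ (fun w => (a w : ℂ) * E w)) w‖ ≤ ‖a w‖ * ‖fderiv ℝ (fderiv ℝ E) w‖ +
      2 * (‖fderiv ℝ a w‖ * ‖fderiv ℝ E w‖) + ‖fderiv ℝ (fderiv ℝ a) w‖ * ‖E w‖ := by
  have e : (fun w => (a w : ℂ) * E w) = fun w => a w • E w := by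
    funext w; rw [Complex.real_smul]
  rw [e, n2_eq, n2_eq, n2_eq]
  have h := norm_iteratedFDeriv_smul_le (n := 2) ha hE w (WithTop.coe_le_coe.2 le_top)
  refine h.trans (le_of_eq ?_)
  rw [Finset.sum_range_succ, Finset.sum_range_succ, Finset.sum_range_succ, Finset.sum_range_zero]
  simp only [Nat.sub_zero, Nat.reduceSub, norm_iteratedFDeriv_zero,
    norm_iteratedFDeriv_one, Nat.choose_zero_right, Nat.choose_one_right, Nat.choose_self]
  push_cast
  ring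

/-- second derivative of a product of real functions -/
private theorem n2_mul {a b : ℂ → ℝ} (ha : ContDiff ℝ ∞ a) (hb : ContDiff ℝ ∞ b) (w : ℂ) :
    ‖fderiv ℝ (fderiv ℝ (fun w => a w * b w)) w‖ ≤ ‖a w‖ * ‖fderiv ℝ (fderiv ℝ b) w‖ +
      2 * (‖fderiv ℝ a w‖ * ‖fderiv ℝ b w‖) + ‖fderiv ℝ (fderiv ℝ a) w‖ * ‖b w‖ := by
  rw [n2_eq, n2_eq, n2_eq]
  have h := norm_iteratedFDeriv_mul_le (n := 2) ha hb w (WithTop.coe_le_coe.2 le_top)
  refine h.trans (le_of_eq ?_)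
  rw [Finset.sum_range_succ, Finset.sum_range_succ, Finset.sum_range_succ, Finset.sum_range_zero]
  simp only [Nat.sub_zero, Nat.reduceSub, norm_iteratedFDeriv_zero,
    norm_iteratedFDeriv_one, Nat.choose_zero_right, Nat.choose_one_right, Nat.choose_self]
  push_cast
  ring

private theorem n1_mul {a b : ℂ → ℝ} (ha : ContDiff ℝ ∞ a) (hb : ContDiff ℝ ∞ b) (w : ℂ) :
    ‖fderiv ℝ (fun w => a w * b w) w‖ ≤ ‖a w‖ * ‖fderiv ℝ b w‖ + ‖fderiv ℝ a w‖ * ‖b w‖ := by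
  rw [← norm_iteratedFDeriv_one, ← norm_iteratedFDeriv_one, ← norm_iteratedFDeriv_one]
  have h := norm_iteratedFDeriv_mul_le (n := 1) ha hb w (WithTop.coe_le_coe.2 le_top)
  refine h.trans (le_of_eq ?_)
  rw [Finset.sum_range_succ, Finset.sum_range_succ, Finset.sum_range_zero]
  simp only [Nat.sub_zero, Nat.reduceSub, norm_iteratedFDeriv_zero, norm_iteratedFDeriv_one,
    Nat.choose_zero_right, Nat.choose_self]
  push_cast
  ring

/-- composition with a real affine function -/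
private theorem fderiv_comp_aff {E : Type*} [NormedAddCommGroup E] [NormedSpace ℝ E] {c : ℝ → E}
    (hc : ContDiff ℝ ∞ c) (L : ℂ →L[ℝ] ℝ) (a : ℝ) :
    fderiv ℝ (fun w => c (a + L w)) = fun w => L.smulRight (deriv c (a + L w)) := by
  funext w
  have h1 : HasFDerivAt (fun w : ℂ => a + L w) L w := L.hasFDerivAt.const_add a
  have h2 := ((hc.differentiable (by simp) (a + L w)).hasDerivAt.hasFDerivAt).comp w h1
  have h3 : HasFDerivAt (fun w => c (a + L w)) _ w := h2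
  rw [h3.fderiv]
  ext h
  simp

private theorem fderiv2_comp_aff {E : Type*} [NormedAddCommGroup E] [NormedSpace ℝ E] {c : ℝ → E}
    (hc : ContDiff ℝ ∞ c) (L : ℂ →L[ℝ] ℝ) (a : ℝ) (w : ℂ) :
    ‖fderiv ℝ (fun w => c (a + L w)) w‖ ≤ ‖L‖ * ‖deriv c (a + L w)‖ ∧
    ‖fderiv ℝ (fderiv ℝ (fun w => c (a + L w))) w‖ ≤
      ‖L‖ ^ 2 * ‖deriv (deriv c) (a + L w)‖ := by
  constructor
  · rw [fderiv_comp_aff hc]
    exact (ContinuousLinearMap.norm_smulRight_apply _ _).le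
  · rw [fderiv_comp_aff hc]
    have h1 : ContDiff ℝ ∞ (fun w : ℂ => deriv c (a + L w)) :=
      (f1_contDiff_deriv hc).comp (contDiff_const.add L.contDiff)
    have h2 : HasFDerivAt (fun w => deriv c (a + L w)) (L.smulRight (deriv (deriv c) (a + L w))) w := by
      have := (h1.differentiable (by simp) w).hasFDerivAt
      rw [fderiv_comp_aff (f1_contDiff_deriv hc)] at this
      exact this
    have h3 := ((ContinuousLinearMap.smulRightL ℝ ℂ E L).hasFDerivAt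
      (x := deriv c (a + L w))).comp w h2
    have h4 : HasFDerivAt (fun w => L.smulRight (deriv c (a + L w))) _ w := h3
    rw [h4.fderiv]
    refine (ContinuousLinearMap.opNorm_comp_le _ _).trans ?_
    rw [ContinuousLinearMap.norm_smulRight_apply, pow_two, mul_assoc]
    gcongr
    refine ContinuousLinearMap.opNorm_le_bound _ (norm_nonneg _) fun x => ?_
    rw [ContinuousLinearMap.smulRightL_apply_apply]
    exact (ContinuousLinearMap.norm_smulRight_apply _ _).le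

/-- first and second order remainders -/
private theorem rem_bounds {F l : ℂ → ℂ} (hF : ContDiff ℝ ∞ F) (hl : ContDiff ℝ ∞ l)
    (hconst : ∀ w, fderiv ℝ l w = fderiv ℝ l 0) {V : ℂ} (hV : ‖V‖ ≤ 2) (h0 : l V = F V)
    (h1 : ∀ h, fderiv ℝ F V h = fderiv ℝ l V h) {B : ℝ}
    (hB : ∀ w, ‖w‖ ≤ 2 → ‖fderiv ℝ (fderiv ℝ F) w‖ ≤ B) {w : ℂ} (hw : ‖w‖ ≤ 2) :
    ‖F w - l w‖ ≤ B * ‖w - V‖ ^ 2 ∧ ‖fderiv ℝ (fun w => F w - l w) w‖ ≤ B * ‖w - V‖ ∧
      ‖fderiv ℝ (fderiv ℝ (fun w => F w - l w)) w‖ ≤ B := by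
  have hd : fderiv ℝ (fun w => F w - l w) = fun w => fderiv ℝ F w - fderiv ℝ l 0 := by
    funext w
    have e := (hF.differentiable (by simp) w).hasFDerivAt.sub
      (hl.differentiable (by simp) w).hasFDerivAt
    have e' : HasFDerivAt (fun w => F w - l w) _ w := e
    rw [e'.fderiv, hconst w]
  have hd2 : fderiv ℝ (fderiv ℝ (fun w => F w - l w)) = fderiv ℝ (fderiv ℝ F) := by
    rw [hd]
    funext w
    have e := ((contDiff_fderiv_of hF).differentiable (by simp) w).hasFDerivAt.sub_const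
      (fderiv ℝ l 0)
    rw [e.fderiv]
  have hball : Convex ℝ (Metric.closedBall (0 : ℂ) 2) := convex_closedBall 0 2
  have hdV : fderiv ℝ (fun w => F w - l w) V = 0 := by
    rw [hd]
    ext1 h
    simp [h1, hconst V]
  have key : ∀ w, ‖w‖ ≤ 2 → ‖fderiv ℝ (fun w => F w - l w) w‖ ≤ B * ‖w - V‖ := by
    intro w hw
    have h := hball.norm_image_sub_le_of_norm_fderiv_le (𝕜 := ℝ)
      (f := fderiv ℝ (fun w => F w - l w)) (C := B) (x := V) (y := w)
      (fun z _ => by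
        exact (contDiff_fderiv_of (hF.sub hl)).differentiable (by simp) z)
      (fun z hz => by
        rw [hd2]
        exact hB z (by simpa using hz)) (by simpa using hV) (by simpa using hw)
    rwa [hdV, sub_zero] at h
  refine ⟨?_, key w hw, ?_⟩
  · have hc : Convex ℝ (Metric.closedBall (0 : ℂ) 2 ∩ Metric.closedBall V ‖w - V‖) :=
      hball.inter (convex_closedBall _ _)
    have hB0 : 0 ≤ B := (ContinuousLinearMap.opNorm_nonneg _).trans (hB w hw)
    have h := hc.norm_image_sub_le_of_norm_fderiv_le (𝕜 := ℝ)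
      (f := fun w => F w - l w) (C := B * ‖w - V‖) (x := V) (y := w)
      (fun z _ => (hF.sub hl).differentiable (by simp) z)
      (fun z hz => by
        have hz1 : ‖z‖ ≤ 2 := by simpa using hz.1
        have hz2 : ‖z - V‖ ≤ ‖w - V‖ := by simpa [dist_eq_norm] using hz.2
        exact (key z hz1).trans (by gcongr))
      ⟨by simpa using hV, by simp⟩ ⟨by simpa using hw, by simp [dist_eq_norm]⟩
    simp only [h0, sub_self, sub_zero] at h
    refine h.trans (le_of_eq ?_)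
    ring
  · rw [hd2]; exact hB w hw

/-! ### coordinates as affine functions -/

private def Lx (k : ℕ) : ℂ →L[ℝ] ℝ :=
  Complex.reCLM.comp ((ContinuousLinearMap.mul ℝ ℂ).flip (conj (zt ^ k)))
private def Ly (k : ℕ) : ℂ →L[ℝ] ℝ :=
  Complex.imCLM.comp ((ContinuousLinearMap.mul ℝ ℂ).flip (conj (zt ^ k))) - (1 / 7 : ℝ) • Lx k

private theorem Lx_apply (k : ℕ) (w : ℂ) : Lx k w = xk k w := rfl
private theorem Ly_apply (k : ℕ) (w : ℂ) : yk k w = 1 / 7 + Ly k w := by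
  simp only [Ly, sub_apply, smul_apply, Lx_apply,
    smul_eq_mul, yk]
  simp only [ContinuousLinearMap.comp_apply, ContinuousLinearMap.flip_apply,
    ContinuousLinearMap.mul_apply', Complex.imCLM_apply]
  ring
private theorem norm_zp (k : ℕ) : ‖conj (zt ^ k)‖ = 1 := by
  rw [Complex.norm_conj, norm_pow, norm_zt, one_pow]
private theorem norm_Lx (k : ℕ) : ‖Lx k‖ ≤ 1 := by
  refine ContinuousLinearMap.opNorm_le_bound _ zero_le_one fun w => ?_
  rw [Lx_apply, xk, Real.norm_eq_abs, one_mul]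
  refine (Complex.abs_re_le_norm _).trans ?_
  rw [norm_mul, norm_zp, mul_one]
private theorem norm_Ly (k : ℕ) : ‖Ly k‖ ≤ 2 := by
  have h1 : ‖Complex.imCLM.comp ((ContinuousLinearMap.mul ℝ ℂ).flip (conj (zt ^ k)))‖ ≤ 1 := by
    refine ContinuousLinearMap.opNorm_le_bound _ zero_le_one fun w => ?_
    simp only [ContinuousLinearMap.comp_apply, ContinuousLinearMap.flip_apply,
      ContinuousLinearMap.mul_apply', Complex.imCLM_apply, Real.norm_eq_abs, one_mul]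
    refine (Complex.abs_im_le_norm _).trans ?_
    rw [norm_mul, norm_zp, mul_one]
  unfold Ly
  refine (norm_sub_le _ _).trans ?_
  rw [norm_smul]
  have h2 := norm_Lx k
  have h3 : ‖(1 / 7 : ℝ)‖ = 1 / 7 := by rw [Real.norm_eq_abs]; norm_num
  rw [h3]
  linarith

/-- value and first two derivatives of `f` at `w` vanish -/
private def Z3 {E : Type*} [NormedAddCommGroup E] [NormedSpace ℝ E] (f : ℂ → E) (w : ℂ) : Prop :=
  f w = 0 ∧ fderiv ℝ f w = 0 ∧ ‖fderiv ℝ (fderiv ℝ f) w‖ = 0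

private theorem z_of_le {E : Type*} [NormedAddCommGroup E] [NormedSpace ℝ E] {f : ℂ → E} {w : ℂ}
    (h : ‖fderiv ℝ (fderiv ℝ f) w‖ ≤ 0) : ‖fderiv ℝ (fderiv ℝ f) w‖ = 0 :=
  le_antisymm h (ContinuousLinearMap.opNorm_nonneg _)

/-- bounds for the value and the first two derivatives -/
private def B3 {E : Type*} [NormedAddCommGroup E] [NormedSpace ℝ E] (f : ℂ → E) (w : ℂ)
    (a b c : ℝ) : Prop :=
  ‖f w‖ ≤ a ∧ ‖fderiv ℝ f w‖ ≤ b ∧ ‖fderiv ℝ (fderiv ℝ f) w‖ ≤ c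

private theorem cut_zero {L : ℂ →L[ℝ] ℝ} {a : ℝ} {w : ℂ} (h : 1 / 2 ≤ a + L w) :
    Z3 (fun w => chi1 (a + L w)) w := by
  obtain ⟨h1, h2, h3, h4⟩ := chi1_facts
  obtain ⟨e1, e2⟩ := fderiv2_comp_aff h1 L a w
  obtain ⟨z1, z2⟩ := f1_chi1_flat (Or.inr h)
  rw [z1, norm_zero, mul_zero] at e1
  rw [z2, norm_zero, mul_zero] at e2
  exact ⟨h4 _ h, norm_le_zero_iff.1 e1, z_of_le e2⟩

private theorem cut_bounds {M : ℝ} (hM : ∀ t : ℝ, |chi t| ≤ M ∧ |deriv chi t| ≤ M ∧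
    |deriv (deriv chi) t| ≤ M ∧ |chi1 t| ≤ M ∧ |deriv chi1 t| ≤ M ∧ |deriv (deriv chi1) t| ≤ M)
    {L : ℂ →L[ℝ] ℝ} {a K : ℝ} (hK : ‖L‖ ≤ K) (w : ℂ) :
    B3 (fun w => chi1 (a + L w)) w M (K * M) (K ^ 2 * M) := by
  obtain ⟨h1, h2, h3, h4⟩ := chi1_facts
  obtain ⟨e1, e2⟩ := fderiv2_comp_aff h1 L a w
  obtain ⟨-, -, -, b0, b1, b2⟩ := hM (a + L w)
  have hK0 : 0 ≤ K := (norm_nonneg _).trans hK
  refine ⟨b0, e1.trans ?_, e2.trans ?_⟩
  · rw [Real.norm_eq_abs]; gcongr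
  · rw [Real.norm_eq_abs]; gcongr

private theorem prod_cut {a b : ℂ → ℝ} (ha : ContDiff ℝ ∞ a) (hb : ContDiff ℝ ∞ b) {w : ℂ}
    {M K : ℝ} (hM : 0 ≤ M) (hK : 0 ≤ K) (h1 : B3 a w M (K * M) (K ^ 2 * M))
    (h2 : B3 b w M (K * M) (K ^ 2 * M)) :
    B3 (fun w => a w * b w) w (M ^ 2) (2 * K * M ^ 2) (4 * K ^ 2 * M ^ 2) := by
  obtain ⟨a0, a1, a2⟩ := h1
  obtain ⟨b0, b1, b2⟩ := h2
  refine ⟨?_, ?_, ?_⟩
  · rw [norm_mul, pow_two]; gcongr
  · refine (n1_mul ha hb w).trans ?_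
    calc _ ≤ M * (K * M) + (K * M) * M := by gcongr
      _ = _ := by ring
  · refine (n2_mul ha hb w).trans ?_
    calc _ ≤ M * (K ^ 2 * M) + 2 * ((K * M) * (K * M)) + (K ^ 2 * M) * M := by gcongr
      _ = _ := by ring

private theorem prod_zero {a b : ℂ → ℝ} (ha : ContDiff ℝ ∞ a) (hb : ContDiff ℝ ∞ b) {w : ℂ}
    (h : Z3 a w ∨ Z3 b w) : Z3 (fun w => a w * b w) w := by
  have k1 := n1_mul ha hb w
  have k2 := n2_mul ha hb w
  rcases h with ⟨z0, z1, z2⟩ | ⟨z0, z1, z2⟩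
  · rw [z0, z1, norm_zero, zero_mul, norm_zero, zero_mul, zero_add] at k1
    rw [z0, z1, z2, norm_zero, zero_mul, norm_zero, zero_mul, zero_mul, mul_zero,
      zero_add, zero_add] at k2
    exact ⟨by simp [z0], norm_le_zero_iff.1 k1, z_of_le k2⟩
  · rw [z0, z1, norm_zero, mul_zero, norm_zero, mul_zero, zero_add] at k1
    rw [z0, z1, z2, norm_zero, mul_zero, norm_zero, mul_zero, mul_zero, mul_zero,
      zero_add, zero_add] at k2
    exact ⟨by simp [z0], norm_le_zero_iff.1 k1, z_of_le k2⟩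

private theorem smul_zero3 {a : ℂ → ℝ} {E : ℂ → ℂ} (ha : ContDiff ℝ ∞ a) (hE : ContDiff ℝ ∞ E)
    {w : ℂ} (h : Z3 a w) : ‖fderiv ℝ (fderiv ℝ (fun w => (a w : ℂ) * E w)) w‖ = 0 := by
  have k2 := n2_smul ha hE w
  obtain ⟨z0, z1, z2⟩ := h
  rw [z0, z1, z2, norm_zero, zero_mul, norm_zero, zero_mul, zero_mul, mul_zero,
    zero_add, zero_add] at k2
  exact z_of_le k2

private theorem n2_sub {f g : ℂ → ℂ} (hf : ContDiff ℝ ∞ f) (hg : ContDiff ℝ ∞ g) (w : ℂ) :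
    ‖fderiv ℝ (fderiv ℝ (fun w => f w - g w)) w‖ ≤
      ‖fderiv ℝ (fderiv ℝ f) w‖ + ‖fderiv ℝ (fderiv ℝ g) w‖ := by
  have h1 : fderiv ℝ (fun w => f w - g w) = fun w => fderiv ℝ f w - fderiv ℝ g w := by
    funext w
    have e := (hf.differentiable (by simp) w).hasFDerivAt.sub
      (hg.differentiable (by simp) w).hasFDerivAt
    have e' : HasFDerivAt (fun w => f w - g w) _ w := e
    exact e'.fderiv
  have e := ((contDiff_fderiv_of hf).differentiable (by simp) w).hasFDerivAt.sub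
    ((contDiff_fderiv_of hg).differentiable (by simp) w).hasFDerivAt
  have e' : HasFDerivAt (fun w => fderiv ℝ f w - fderiv ℝ g w) _ w := e
  rw [h1, e'.fderiv]
  exact norm_sub_le (fderiv ℝ (fderiv ℝ f) w) (fderiv ℝ (fderiv ℝ g) w)

private theorem n2_const_mul {f : ℂ → ℂ} (hf : ContDiff ℝ ∞ f) (c w : ℂ) :
    ‖fderiv ℝ (fderiv ℝ (fun w => c * f w)) w‖ ≤ ‖c‖ * ‖fderiv ℝ (fderiv ℝ f) w‖ := by
  have h1 : fderiv ℝ (fun w => c * f w) = fun w => c • fderiv ℝ f w := by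
    funext w
    exact ((hf.differentiable (by simp) w).hasFDerivAt.const_mul c).fderiv
  have e := ((contDiff_fderiv_of hf).differentiable (by simp) w).hasFDerivAt.const_smul c
  have e' : HasFDerivAt (fun w => c • fderiv ℝ f w) _ w := e
  rw [h1, e'.fderiv]
  refine ContinuousLinearMap.opNorm_le_bound _
    (mul_nonneg (norm_nonneg c) (ContinuousLinearMap.opNorm_nonneg _)) fun x => ?_
  refine ContinuousLinearMap.opNorm_le_bound _
    (mul_nonneg (mul_nonneg (norm_nonneg c) (ContinuousLinearMap.opNorm_nonneg _))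
      (norm_nonneg _)) fun y => ?_
  show ‖c * (fderiv ℝ (fderiv ℝ f) w x y)‖ ≤ _
  rw [norm_mul]
  have h2 : ‖fderiv ℝ (fderiv ℝ f) w x y‖ ≤ ‖fderiv ℝ (fderiv ℝ f) w‖ * ‖x‖ * ‖y‖ :=
    ContinuousLinearMap.le_opNorm₂ _ _ _
  calc ‖c‖ * _ ≤ ‖c‖ * (‖fderiv ℝ (fderiv ℝ f) w‖ * ‖x‖ * ‖y‖) := by gcongr
    _ = _ := by ring

/-! ### geometry of the supports -/

private theorem s3_bounds : 173 / 100 ≤ Real.sqrt 3 ∧ Real.sqrt 3 ≤ 17321 / 10000 := by
  constructor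
  · exact Real.le_sqrt_of_sq_le (by norm_num)
  · rw [Real.sqrt_le_left (by norm_num)]; norm_num

private theorem s3_sq : Real.sqrt 3 * Real.sqrt 3 = 3 := Real.mul_self_sqrt (by norm_num)

private theorem x0_eq (w : ℂ) : xk 0 w = w.re := by simp [xk]
private theorem y0_eq (w : ℂ) : yk 0 w = w.im - (w.re - 1) / 7 := by simp [xk, yk]
private theorem x1_eq (w : ℂ) : xk 1 w = w.re / 2 + Real.sqrt 3 / 2 * w.im := by
  simp [xk, zt]; ring
private theorem y1_eq (w : ℂ) : yk 1 w = w.im / 2 - Real.sqrt 3 / 2 * w.re - (xk 1 w - 1) / 7 := by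
  simp [yk, zt]; ring
private theorem zt5 : zt ^ 5 = conj zt := by
  have h0 : zt ≠ 0 := by
    intro h
    have := norm_zt
    rw [h] at this
    simp at this
  have h1 : conj zt * zt = 1 := by
    rw [mul_comm]; simpa using zt_mul_conj_pow 1
  have h : zt ^ 5 * zt = conj zt * zt := by
    rw [h1, ← pow_succ, zt_six]
  exact mul_right_cancel₀ h0 h
private theorem x5_eq (w : ℂ) : xk 5 w = w.re / 2 - Real.sqrt 3 / 2 * w.im := by
  simp only [xk, zt5, Complex.conj_conj]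
  simp [zt]; ring
private theorem y5_eq (w : ℂ) : yk 5 w = w.im / 2 + Real.sqrt 3 / 2 * w.re - (xk 5 w - 1) / 7 := by
  simp only [yk, zt5, Complex.conj_conj]
  simp [zt]; ring

private theorem y1_formula (w : ℂ) : YY + yk 1 w = (yk 0 w - YY) * (1 / 2 - Real.sqrt 3 / 14) +
    (1 - xk 0 w) * (25 * Real.sqrt 3 / 49) := by
  have h := sqrt3_mul_YY
  have h2 : 2 * Real.sqrt 3 = 6 * YY := by
    have : Real.sqrt 3 * (Real.sqrt 3 * YY) = Real.sqrt 3 := by rw [h, mul_one]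
    linear_combination (-2 : ℝ) * this + 2 * YY * s3_sq
  rw [y1_eq, x1_eq, x0_eq, y0_eq]
  linear_combination (-1 / 14 : ℝ) * h - (1 / 4 : ℝ) * h2
private theorem x5_formula (w : ℂ) : xk 5 w = 1 + (xk 0 w - 1) * (1 / 2 - Real.sqrt 3 / 14) -
    Real.sqrt 3 / 2 * (yk 0 w + YY) := by
  have h := sqrt3_mul_YY
  rw [x5_eq, x0_eq, y0_eq]
  linear_combination (1 / 2 : ℝ) * h
private theorem y5_formula (w : ℂ) : YY - yk 5 w = -((yk 0 w + YY) * (1 / 2 + Real.sqrt 3 / 14)) +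
    (1 - xk 0 w) * (25 * Real.sqrt 3 / 49) := by
  have h := sqrt3_mul_YY
  have h2 : 2 * Real.sqrt 3 = 6 * YY := by
    have : Real.sqrt 3 * (Real.sqrt 3 * YY) = Real.sqrt 3 := by rw [h, mul_one]
    linear_combination (-2 : ℝ) * this + 2 * YY * s3_sq
  rw [y5_eq, x5_eq, x0_eq, y0_eq]
  linear_combination (1 / 14 : ℝ) * h - (1 / 4 : ℝ) * h2

private theorem norm_al_le : ‖al‖ ≤ 8 / 7 := by
  have : ‖al‖ ≤ |al.re| + |al.im| := Complex.norm_le_abs_re_add_abs_im al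
  simp only [al] at this
  refine this.trans ?_
  rw [abs_of_pos (by norm_num), abs_of_pos (by norm_num)]
  norm_num

private theorem norm_sub_corner (w : ℂ) (t : ℝ) :
    ‖w - (1 + t * I)‖ ≤ |yk 0 w - t| + |xk 0 w - 1| * (8 / 7) := by
  have h := eq_of_coord 0 w
  rw [pow_zero, one_mul] at h
  have e : w - (1 + t * I) = ((yk 0 w - t : ℝ) : ℂ) * I + ((xk 0 w - 1 : ℝ) : ℂ) * al := by
    conv_lhs => rw [h]
    push_cast
    ring
  rw [e]
  refine (norm_add_le _ _).trans ?_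
  rw [norm_mul, norm_mul, Complex.norm_I, mul_one, Complex.norm_real, Complex.norm_real,
    Real.norm_eq_abs, Real.norm_eq_abs]
  have := norm_al_le
  gcongr

private theorem VV_eq' : VV = 1 + YY * I := by
  apply Complex.ext <;> simp [VV]
private theorem VVb_eq' : conj VV = 1 + ((-YY : ℝ) : ℂ) * I := by
  apply Complex.ext <;> simp [VV]

private theorem supp_V {N : ℕ} (hN : 10 ≤ N) {w : ℂ} (hw : w ∈ pieceS (0, false))
    (h1 : YY - yk 0 w ≤ PP N / 2) (h2 : YY + yk 1 w ≤ PP N / 2) :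
    1 - xk 0 w ≤ 4 / 5 * PP N ∧ ‖w - VV‖ ≤ 2 * PP N := by
  have hP := f1_PP_pos hN
  obtain ⟨hs1, hs2⟩ := s3_bounds
  have hw1 : xk 1 w ≤ xk 0 w := hw.1 1 (by norm_num)
  have hw2 : xk 0 w ≤ 1 := by simpa using hw.2
  rw [xk_one] at hw1
  rw [y1_formula] at h2
  set s := Real.sqrt 3
  set d := yk 0 w - YY with hd
  set x := xk 0 w
  have hd1 : -(PP N / 2) ≤ d := by linarith
  have hd2 : d ≤ 0 := by nlinarith
  have h3 : (1 - x) * (25 * s / 49) ≤ PP N / 2 * (3 / 2 - s / 14) := by nlinarith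
  have h4 : 1 - x ≤ 4 / 5 * PP N := by nlinarith
  refine ⟨h4, ?_⟩
  rw [VV_eq']
  refine (norm_sub_corner w YY).trans ?_
  rw [← hd, abs_of_nonpos hd2, abs_of_nonpos (by linarith)]
  linarith

private theorem supp_Vb {N : ℕ} (hN : 10 ≤ N) {w : ℂ} (hw : w ∈ pieceS (0, false))
    (h1 : YY + yk 0 w ≤ PP N / 2) (h2 : YY - yk 5 w ≤ PP N / 2) :
    1 - xk 0 w ≤ 19 / 20 * PP N ∧ ‖w - conj VV‖ ≤ 2 * PP N := by
  have hP := f1_PP_pos hN
  obtain ⟨hs1, hs2⟩ := s3_bounds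
  have hw1 : xk 5 w ≤ xk 0 w := hw.1 5 (by norm_num)
  have hw2 : xk 0 w ≤ 1 := by simpa using hw.2
  rw [x5_formula] at hw1
  rw [y5_formula] at h2
  set s := Real.sqrt 3
  set d := yk 0 w + YY with hd
  set x := xk 0 w
  have hd1 : d ≤ PP N / 2 := by linarith
  have hd2 : 0 ≤ d := by nlinarith
  have h3 : (1 - x) * (25 * s / 49) ≤ PP N / 2 * (3 / 2 + s / 14) := by nlinarith
  have h4 : 1 - x ≤ 19 / 20 * PP N := by nlinarith
  refine ⟨h4, ?_⟩
  rw [VVb_eq']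
  refine (norm_sub_corner w (-YY)).trans ?_
  have e : yk 0 w - -YY = d := by rw [hd]; ring
  rw [e, abs_of_nonneg hd2, abs_of_nonpos (by linarith)]
  linarith

/-! ### the inner piece -/

private def cV0 (N : ℕ) (w : ℂ) : ℝ := chi1 ((YY - 1 / 7) / PP N + (-(1 / PP N) • Ly 0) w)
private def cV1 (N : ℕ) (w : ℂ) : ℝ := chi1 ((YY + 1 / 7) / PP N + ((1 / PP N) • Ly 1) w)
private def cB0 (N : ℕ) (w : ℂ) : ℝ := chi1 ((YY + 1 / 7) / PP N + ((1 / PP N) • Ly 0) w)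
private def cB5 (N : ℕ) (w : ℂ) : ℝ := chi1 ((YY - 1 / 7) / PP N + (-(1 / PP N) • Ly 5) w)
private def cX (N : ℕ) (w : ℂ) : ℝ := chi1 (1 / PP N + (-(1 / PP N) • Lx 0) w)

private theorem cV0_eq (N : ℕ) (w : ℂ) : (YY - 1 / 7) / PP N + (-(1 / PP N) • Ly 0) w =
    (YY - yk 0 w) / PP N := by
  rw [Ly_apply, smul_apply, smul_eq_mul]; ring
private theorem cV1_eq (N : ℕ) (w : ℂ) : (YY + 1 / 7) / PP N + ((1 / PP N) • Ly 1) w =
    (YY + yk 1 w) / PP N := by
  rw [Ly_apply, smul_apply, smul_eq_mul]; ring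
private theorem cB0_eq (N : ℕ) (w : ℂ) : (YY + 1 / 7) / PP N + ((1 / PP N) • Ly 0) w =
    (YY + yk 0 w) / PP N := by
  rw [Ly_apply, smul_apply, smul_eq_mul]; ring
private theorem cB5_eq (N : ℕ) (w : ℂ) : (YY - 1 / 7) / PP N + (-(1 / PP N) • Ly 5) w =
    (YY - yk 5 w) / PP N := by
  rw [Ly_apply, smul_apply, smul_eq_mul]; ring
private theorem cX_eq (N : ℕ) (w : ℂ) : 1 / PP N + (-(1 / PP N) • Lx 0) w =
    (1 - xk 0 w) / PP N := by
  rw [smul_apply, smul_eq_mul, Lx_apply]; ring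

private theorem XV_eq (N : ℕ) : XV N = fun w => cV0 N w * cV1 N w := by
  funext w
  simp only [XV, cV0, cV1, cV0_eq, cV1_eq]
private theorem XVb_eq (N : ℕ) : XVb N = fun w => cB0 N w * cB5 N w := by
  funext w
  simp only [XVb, cB0, cB5, cB0_eq, cB5_eq]

private theorem cut_contDiff (L : ℂ →L[ℝ] ℝ) (a : ℝ) :
    ContDiff ℝ ∞ (fun w => chi1 (a + L w)) :=
  chi1_facts.1.comp (contDiff_const.add L.contDiff)

private theorem contDiff_XV (N : ℕ) : ContDiff ℝ ∞ (XV N) := by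
  rw [XV_eq]; exact (cut_contDiff _ _).mul (cut_contDiff _ _)
private theorem contDiff_XVb (N : ℕ) : ContDiff ℝ ∞ (XVb N) := by
  rw [XVb_eq]; exact (cut_contDiff _ _).mul (cut_contDiff _ _)

private theorem contDiff_lV (r : ℝ) : ContDiff ℝ ∞ (lV r) := by
  obtain ⟨a, b, c, h⟩ := lV_affine r
  rw [funext h]
  have : ContDiff ℝ ∞ (fun z : ℂ => conj z) := Complex.conjCLE.contDiff
  fun_prop
private theorem contDiff_lVb (r : ℝ) : ContDiff ℝ ∞ (lVb r) := by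
  obtain ⟨a, b, c, h⟩ := lVb_affine r
  rw [funext h]
  have : ContDiff ℝ ∞ (fun z : ℂ => conj z) := Complex.conjCLE.contDiff
  fun_prop
private theorem contDiff_lP (r : ℝ) : ContDiff ℝ ∞ (fun w => lam r * Phi0 w) :=
  contDiff_const.mul contDiff_Phi0

/-- the correction near the side -/
private def T3 (r : ℝ) (N : ℕ) (w : ℂ) : ℂ := ((cX N w : ℝ) : ℂ) * RR r N (1 / 7 + Ly 0 w)

private theorem contDiff_RRy (r : ℝ) (N : ℕ) : ContDiff ℝ ∞ (fun w => RR r N (1 / 7 + Ly 0 w)) :=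
  (contDiff_RR r N).comp (contDiff_const.add (Ly 0).contDiff)

private theorem Fin0_form (r : ℝ) (N : ℕ) : Fin0 r N = fun w => lam r * Phi0 w -
    ((XV N w : ℝ) : ℂ) * (lam r * Phi0 w - lV r w) -
    ((XVb N w : ℝ) : ℂ) * (lam r * Phi0 w - lVb r w) - T3 r N w := by
  funext w
  have e : (1 : ℝ) / 7 + Ly 0 w = yk 0 w := (Ly_apply 0 w).symm
  simp only [Fin0, T3, cX, cX_eq, e]

private theorem cd1 (r : ℝ) (N : ℕ) : ContDiff ℝ ∞ (fun w => ((XV N w : ℝ) : ℂ) *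
    (lam r * Phi0 w - lV r w)) :=
  (Complex.ofRealCLM.contDiff.comp (contDiff_XV N)).mul ((contDiff_lP r).sub (contDiff_lV r))
private theorem cd2 (r : ℝ) (N : ℕ) : ContDiff ℝ ∞ (fun w => ((XVb N w : ℝ) : ℂ) *
    (lam r * Phi0 w - lVb r w)) :=
  (Complex.ofRealCLM.contDiff.comp (contDiff_XVb N)).mul ((contDiff_lP r).sub (contDiff_lVb r))
private theorem cd3 (r : ℝ) (N : ℕ) : ContDiff ℝ ∞ (T3 r N) :=
  (Complex.ofRealCLM.contDiff.comp (cut_contDiff _ _)).mul (contDiff_RRy r N)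

theorem contDiff_Fin0 (r : ℝ) (N : ℕ) : ContDiff ℝ ∞ (Fin0 r N) := by
  rw [Fin0_form]
  exact (((contDiff_lP r).sub (cd1 r N)).sub (cd2 r N)).sub (cd3 r N)

theorem contDiff_Fout0 (r : ℝ) (N : ℕ) : ContDiff ℝ ∞ (Fout0 r N) := by
  have h1 : ContDiff ℝ ∞ (fun w => GN r N (1 / 7 + Ly 0 w)) :=
    (contDiff_GN r N).comp (contDiff_const.add (Ly 0).contDiff)
  have h2 : ContDiff ℝ ∞ (fun w => ((Lx 0 w - 1 : ℝ) : ℂ) * (al * lam r)) :=
    (Complex.ofRealCLM.contDiff.comp ((Lx 0).contDiff.sub contDiff_const)).mul contDiff_const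
  have e : Fout0 r N = fun w => GN r N (1 / 7 + Ly 0 w) + ((Lx 0 w - 1 : ℝ) : ℂ) * (al * lam r) := by
    funext w
    have e : (1 : ℝ) / 7 + Ly 0 w = yk 0 w := (Ly_apply 0 w).symm
    rw [e]; rfl
  rw [e]
  exact h1.add h2

theorem convex_pieceS_in : Convex ℝ (pieceS (0, false)) := by
  intro x hx y hy a b ha hb hab
  have hlin : ∀ j, xk j (a • x + b • y) = a * xk j x + b * xk j y := by
    intro j
    rw [← Lx_apply, ← Lx_apply, ← Lx_apply, map_add, map_smul, map_smul, smul_eq_mul, smul_eq_mul]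
  have hx2 : xk 0 x ≤ 1 := by simpa using hx.2
  have hy2 : xk 0 y ≤ 1 := by simpa using hy.2
  refine ⟨fun j hj => ?_, ?_⟩
  · rw [hlin, hlin]
    have h1 := hx.1 j hj
    have h2 := hy.1 j hj
    exact add_le_add (mul_le_mul_of_nonneg_left h1 ha) (mul_le_mul_of_nonneg_left h2 hb)
  · simp only [Bool.false_eq_true, if_false]
    show xk 0 (a • x + b • y) ≤ 1
    rw [hlin]
    nlinarith

private theorem piece_norm {w : ℂ} (hw : w ∈ pieceS (0, false)) : ‖w‖ ≤ 2 := by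
  have h1 := norm_le_xk w (k := 0) hw.1
  have hw2 : xk 0 w ≤ 1 := by simpa using hw.2
  linarith

private theorem norm_VV : ‖VV‖ ≤ 2 ∧ ‖conj VV‖ ≤ 2 := by
  have h : ‖VV‖ ≤ 2 := by
    have : ‖VV‖ ≤ |VV.re| + |VV.im| := Complex.norm_le_abs_re_add_abs_im VV
    simp only [VV] at this
    have h1 := f1_YY_le
    have h2 := YY_pos
    rw [abs_one, abs_of_pos h2] at this
    exact this.trans (by linarith)
  exact ⟨h, by rwa [Complex.norm_conj]⟩

private theorem norm_scaled {N : ℕ} (hN : 10 ≤ N) {L : ℂ →L[ℝ] ℝ} (hL : ‖L‖ ≤ 2) :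
    ‖(1 / PP N) • L‖ ≤ 2 / PP N ∧ ‖(-(1 / PP N)) • L‖ ≤ 2 / PP N := by
  have hP := f1_PP_pos hN
  have h : ‖(1 / PP N) • L‖ ≤ 2 / PP N := by
    rw [norm_smul, Real.norm_eq_abs, abs_of_pos (by positivity)]
    calc 1 / PP N * ‖L‖ ≤ 1 / PP N * 2 := by gcongr
      _ = _ := by ring
  refine ⟨h, ?_⟩
  rw [norm_smul] at h ⊢
  rwa [norm_neg]

private theorem T_bound {a : ℂ → ℝ} {E : ℂ → ℂ} (ha : ContDiff ℝ ∞ a) (hE : ContDiff ℝ ∞ E)
    {w : ℂ} {M B P : ℝ} (hP : 0 < P)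
    (h1 : B3 a w (M ^ 2) (2 * (2 / P) * M ^ 2) (4 * (2 / P) ^ 2 * M ^ 2))
    (h2 : B3 E w (B * (2 * P) ^ 2) (B * (2 * P)) B) :
    ‖fderiv ℝ (fderiv ℝ (fun w => (a w : ℂ) * E w)) w‖ ≤ 81 * (M ^ 2 * B) := by
  obtain ⟨a0, a1, a2⟩ := h1
  obtain ⟨b0, b1, b2⟩ := h2
  refine (n2_smul ha hE w).trans ?_
  calc _ ≤ M ^ 2 * B + 2 * ((2 * (2 / P) * M ^ 2) * (B * (2 * P))) +
        (4 * (2 / P) ^ 2 * M ^ 2) * (B * (2 * P) ^ 2) := by gcongr
    _ = _ := by field_simp; ring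

private theorem fderiv_lV_const (r : ℝ) (w : ℂ) : fderiv ℝ (lV r) w = fderiv ℝ (lV r) 0 := by
  rw [(hasFDerivAt_lV r w).fderiv, (hasFDerivAt_lV r 0).fderiv]
private theorem fderiv_lVb_const (r : ℝ) (w : ℂ) : fderiv ℝ (lVb r) w = fderiv ℝ (lVb r) 0 := by
  ext1 h
  simp only [fderiv_lVb]

private theorem Fin0_n2 : ∃ C : ℝ, 0 ≤ C ∧ ∀ r : ℝ, 0 < r → r ≤ 1 / 100 → ∀ N : ℕ, 10 ≤ N →
    ∀ w ∈ pieceS (0, false), ‖fderiv ℝ (fderiv ℝ (Fin0 r N)) w‖ ≤ C := by
  obtain ⟨M, hM, hb⟩ := f1_exists_M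
  obtain ⟨CR, hCR⟩ := RR_bounds
  have hcont : Continuous (fun w => ‖fderiv ℝ (fderiv ℝ Phi0) w‖) :=
    continuous_norm.comp (contDiff_fderiv_of (contDiff_fderiv_of contDiff_Phi0)).continuous
  obtain ⟨B1, hB1'⟩ := (isCompact_closedBall (0 : ℂ) 2).exists_bound_of_continuousOn
    hcont.continuousOn
  have hB1 : ∀ w ∈ Metric.closedBall (0 : ℂ) 2, ‖fderiv ℝ (fderiv ℝ Phi0) w‖ ≤ B1 := fun w hw =>
    (le_abs_self _).trans (hB1' w hw)
  have hB10 : 0 ≤ B1 := (ContinuousLinearMap.opNorm_nonneg _).trans (hB1 0 (by simp))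
  have hCR0 : 0 ≤ CR := (norm_nonneg _).trans (hCR (1 / 100) (by norm_num) le_rfl 10 le_rfl 0).2.2
  set B := 2 * B1 with hBdef
  have hB0 : 0 ≤ B := by positivity
  refine ⟨B + 81 * (M ^ 2 * B) + 81 * (M ^ 2 * B) + 16 * (M * CR), by positivity,
    fun r h0 h1 N hN w hw => ?_⟩
  have hP := f1_PP_pos hN
  have hM0 : (0 : ℝ) ≤ M := by linarith
  have hF : ∀ w, ‖w‖ ≤ 2 → ‖fderiv ℝ (fderiv ℝ (fun w => lam r * Phi0 w)) w‖ ≤ B := by
    intro w hw
    refine (n2_const_mul contDiff_Phi0 (lam r) w).trans ?_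
    have := hB1 w (by simpa using hw)
    exact mul_le_mul (f1_norm_lam h0 h1) this (ContinuousLinearMap.opNorm_nonneg _) (by norm_num)
  have hwn := piece_norm hw
  -- the corner terms
  have k1 : ‖fderiv ℝ (fderiv ℝ (fun w => ((XV N w : ℝ) : ℂ) * (lam r * Phi0 w - lV r w))) w‖ ≤
      81 * (M ^ 2 * B) := by
    have hE : ContDiff ℝ ∞ (fun w => lam r * Phi0 w - lV r w) := (contDiff_lP r).sub (contDiff_lV r)
    by_cases hc : YY - yk 0 w ≤ PP N / 2 ∧ YY + yk 1 w ≤ PP N / 2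
    · obtain ⟨-, hd⟩ := supp_V hN hw hc.1 hc.2
      obtain ⟨r0, r1, r2⟩ := rem_bounds (contDiff_lP r) (contDiff_lV r) (fderiv_lV_const r)
        norm_VV.1 (lV_jet r).1 (lV_jet r).2 hF hwn
      refine T_bound (contDiff_XV N) hE hP ?_ ⟨r0.trans (by gcongr), r1.trans (by gcongr), r2⟩
      rw [XV_eq]
      exact prod_cut (cut_contDiff _ _) (cut_contDiff _ _) hM0 (by positivity)
        (cut_bounds hb (norm_scaled hN (norm_Ly 0)).2 w)
        (cut_bounds hb (norm_scaled hN (norm_Ly 1)).1 w)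
    · have hz : Z3 (XV N) w := by
        rw [XV_eq]
        refine prod_zero (cut_contDiff _ _) (cut_contDiff _ _) ?_
        by_cases hc1 : YY - yk 0 w ≤ PP N / 2
        · right
          refine cut_zero ?_
          rw [cV1_eq, le_div_iff₀ hP]
          have : ¬ (YY + yk 1 w ≤ PP N / 2) := fun h => hc ⟨hc1, h⟩
          linarith
        · left
          refine cut_zero ?_
          rw [cV0_eq, le_div_iff₀ hP]
          linarith
      rw [smul_zero3 (contDiff_XV N) hE hz]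
      positivity
  have k2 : ‖fderiv ℝ (fderiv ℝ (fun w => ((XVb N w : ℝ) : ℂ) * (lam r * Phi0 w - lVb r w))) w‖ ≤
      81 * (M ^ 2 * B) := by
    have hE : ContDiff ℝ ∞ (fun w => lam r * Phi0 w - lVb r w) :=
      (contDiff_lP r).sub (contDiff_lVb r)
    by_cases hc : YY + yk 0 w ≤ PP N / 2 ∧ YY - yk 5 w ≤ PP N / 2
    · obtain ⟨-, hd⟩ := supp_Vb hN hw hc.1 hc.2
      obtain ⟨r0, r1, r2⟩ := rem_bounds (contDiff_lP r) (contDiff_lVb r) (fderiv_lVb_const r)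
        norm_VV.2 (lVb_jet r).1 (lVb_jet r).2 hF hwn
      refine T_bound (contDiff_XVb N) hE hP ?_ ⟨r0.trans (by gcongr), r1.trans (by gcongr), r2⟩
      rw [XVb_eq]
      exact prod_cut (cut_contDiff _ _) (cut_contDiff _ _) hM0 (by positivity)
        (cut_bounds hb (norm_scaled hN (norm_Ly 0)).1 w)
        (cut_bounds hb (norm_scaled hN (norm_Ly 5)).2 w)
    · have hz : Z3 (XVb N) w := by
        rw [XVb_eq]
        refine prod_zero (cut_contDiff _ _) (cut_contDiff _ _) ?_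
        by_cases hc1 : YY + yk 0 w ≤ PP N / 2
        · right
          refine cut_zero ?_
          rw [cB5_eq, le_div_iff₀ hP]
          have : ¬ (YY - yk 5 w ≤ PP N / 2) := fun h => hc ⟨hc1, h⟩
          linarith
        · left
          refine cut_zero ?_
          rw [cB0_eq, le_div_iff₀ hP]
          linarith
      rw [smul_zero3 (contDiff_XVb N) hE hz]
      positivity
  have k3 : ‖fderiv ℝ (fderiv ℝ (T3 r N)) w‖ ≤ 16 * (M * CR) := by
    obtain ⟨c0, c1, c2⟩ := hCR r h0 h1 N hN (1 / 7 + Ly 0 w)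
    obtain ⟨e1, e2⟩ := fderiv2_comp_aff (contDiff_RR r N) (Ly 0) (1 / 7) w
    have hL := norm_Ly 0
    have e1' := e1.trans (mul_le_mul hL c1 (norm_nonneg _) (by norm_num))
    have e2' := e2.trans (mul_le_mul (pow_le_pow_left₀ (norm_nonneg _) hL 2) c2 (norm_nonneg _)
      (by norm_num))
    obtain ⟨a0, a1, a2⟩ := cut_bounds (a := 1 / PP N) hb
      (norm_scaled hN ((norm_Lx 0).trans (by norm_num))).2 w
    refine (n2_smul (cut_contDiff _ _) (contDiff_RRy r N) w).trans ?_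
    calc _ ≤ M * (2 ^ 2 * CR) + 2 * ((2 / PP N * M) * (2 * (CR * PP N))) +
          ((2 / PP N) ^ 2 * M) * (CR * PP N ^ 2) := by gcongr
      _ = _ := by field_simp; ring
  rw [Fin0_form]
  refine (n2_sub (((contDiff_lP r).sub (cd1 r N)).sub (cd2 r N)) (cd3 r N) w).trans ?_
  refine (add_le_add (n2_sub ((contDiff_lP r).sub (cd1 r N)) (cd2 r N) w) le_rfl).trans ?_
  refine (add_le_add (add_le_add (n2_sub (contDiff_lP r) (cd1 r N) w) le_rfl) le_rfl).trans ?_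
  have := hF w hwn
  linarith

/-- uniform bound for the derivative of `D Fin0` on the sector of the tile -/
theorem Fin0_bounds : ∃ C : NNReal, ∀ r : ℝ, 0 < r → r ≤ 1 / 100 → ∀ N : ℕ, 10 ≤ N →
    LipschitzOnWith C (fderiv ℝ (Fin0 r N)) (pieceS (0, false)) := by
  obtain ⟨C, hC0, hC⟩ := Fin0_n2
  refine ⟨⟨C, hC0⟩, fun r h0 h1 N hN => ?_⟩
  refine Convex.lipschitzOnWith_of_nnnorm_fderiv_le (𝕜 := ℝ) (fun w _ =>
    (contDiff_fderiv_of (contDiff_Fin0 r N)).differentiable (by simp) w) (fun w hw => ?_)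
    convex_pieceS_in
  exact hC r h0 h1 N hN w hw

theorem Fout0_bounds : ∃ C : NNReal, ∀ r : ℝ, 0 < r → r ≤ 1 / 100 → ∀ N : ℕ, 10 ≤ N →
    LipschitzWith C (fderiv ℝ (Fout0 r N)) := by
  obtain ⟨C, hC⟩ := GN_bounds
  have hC0 : 0 ≤ C := (norm_nonneg _).trans (hC (1 / 100) (by norm_num) le_rfl 10 le_rfl 0)
  refine ⟨⟨4 * C, by positivity⟩, fun r h0 h1 N hN => ?_⟩
  refine lipschitzWith_of_nnnorm_fderiv_le (𝕜 := ℝ)
    ((contDiff_fderiv_of (contDiff_Fout0 r N)).differentiable (by simp)) fun w => ?_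
  have hG : ContDiff ℝ ∞ (fun w => GN r N (1 / 7 + Ly 0 w)) :=
    (contDiff_GN r N).comp (contDiff_const.add (Ly 0).contDiff)
  have e : Fout0 r N = fun w => GN r N (1 / 7 + Ly 0 w) + ((Lx 0 w - 1 : ℝ) : ℂ) * (al * lam r) := by
    funext w
    have e : (1 : ℝ) / 7 + Ly 0 w = yk 0 w := (Ly_apply 0 w).symm
    rw [e]; rfl
  have hlin : ∀ w, HasFDerivAt (fun w => ((Lx 0 w - 1 : ℝ) : ℂ) * (al * lam r))
      ((al * lam r) • (Complex.ofRealCLM.comp (Lx 0))) w := fun w =>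
    (Complex.ofRealCLM.hasFDerivAt.comp w ((Lx 0).hasFDerivAt.sub_const 1)).mul_const (al * lam r)
  have hd : fderiv ℝ (Fout0 r N) = fun w => fderiv ℝ (fun w => GN r N (1 / 7 + Ly 0 w)) w +
      (al * lam r) • (Complex.ofRealCLM.comp (Lx 0)) := by
    funext w
    rw [e]
    have := (hG.differentiable (by simp) w).hasFDerivAt.add (hlin w)
    exact this.fderiv
  have hd2 : fderiv ℝ (fderiv ℝ (Fout0 r N)) w =
      fderiv ℝ (fderiv ℝ (fun w => GN r N (1 / 7 + Ly 0 w))) w := by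
    rw [hd]
    exact (((contDiff_fderiv_of hG).differentiable (by simp) w).hasFDerivAt.add_const _).fderiv
  have hb : ‖fderiv ℝ (fderiv ℝ (Fout0 r N)) w‖ ≤ 4 * C := by
    rw [hd2]
    obtain ⟨-, e2⟩ := fderiv2_comp_aff (contDiff_GN r N) (Ly 0) (1 / 7) w
    refine e2.trans ?_
    have h3 := hC r h0 h1 N hN (1 / 7 + Ly 0 w)
    calc _ ≤ 2 ^ 2 * C := mul_le_mul (pow_le_pow_left₀ (norm_nonneg _) (norm_Ly 0) 2) h3
          (norm_nonneg _) (by norm_num)
      _ = _ := by norm_num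
  exact hb

private theorem ev_lt {f : ℂ → ℝ} (hf : Continuous f) {c : ℝ} {w : ℂ} (h : c < f w) :
    ∀ᶠ z in nhds w, c < f z := (isOpen_lt continuous_const hf).mem_nhds h

/-- away from the side, `Fin0` is the polynomial. -/
theorem Fin0_eq {r : ℝ} {N : ℕ} (hN : 10 ≤ N) {w : ℂ} (hw : w ∈ pieceS (0, false))
    (h : xk 0 w < 1 - PP N) : ∀ᶠ z in nhds w, Fin0 r N z = lam r * Phi0 z := by
  have hP := f1_PP_pos hN
  have cy : ∀ k, Continuous (yk k) := fun k => by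
    have : yk k = fun w => 1 / 7 + Ly k w := funext (Ly_apply k)
    rw [this]
    exact continuous_const.add (Ly k).continuous
  have cx : Continuous (xk 0) := (Lx 0).continuous
  have c1 : ∀ᶠ z in nhds w, PP N / 2 < 1 - xk 0 z :=
    ev_lt (f := fun z => 1 - xk 0 z) (continuous_const.sub cx) (by linarith)
  have c2 : ∀ᶠ z in nhds w, XV N z = 0 := by
    by_cases hc : YY - yk 0 w ≤ PP N / 2 ∧ YY + yk 1 w ≤ PP N / 2
    · have := (supp_V hN hw hc.1 hc.2).1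
      linarith
    · by_cases hc1 : YY - yk 0 w ≤ PP N / 2
      · have hc2 : PP N / 2 < YY + yk 1 w := by
          by_contra h
          exact hc ⟨hc1, not_lt.1 h⟩
        filter_upwards [ev_lt (f := fun z => YY + yk 1 z) (continuous_const.add (cy 1)) hc2] with z hz
        unfold XV
        rw [chi1_facts.2.2.2 ((YY + yk 1 z) / PP N) (by rw [le_div_iff₀ hP]; linarith), mul_zero]
      · filter_upwards [ev_lt (f := fun z => YY - yk 0 z) (continuous_const.sub (cy 0))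
          (not_le.1 hc1)] with z hz
        unfold XV
        rw [chi1_facts.2.2.2 ((YY - yk 0 z) / PP N) (by rw [le_div_iff₀ hP]; linarith), zero_mul]
  have c3 : ∀ᶠ z in nhds w, XVb N z = 0 := by
    by_cases hc : YY + yk 0 w ≤ PP N / 2 ∧ YY - yk 5 w ≤ PP N / 2
    · have := (supp_Vb hN hw hc.1 hc.2).1
      linarith
    · by_cases hc1 : YY + yk 0 w ≤ PP N / 2
      · have hc2 : PP N / 2 < YY - yk 5 w := by
          by_contra h
          exact hc ⟨hc1, not_lt.1 h⟩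
        filter_upwards [ev_lt (f := fun z => YY - yk 5 z) (continuous_const.sub (cy 5)) hc2] with z hz
        unfold XVb
        rw [chi1_facts.2.2.2 ((YY - yk 5 z) / PP N) (by rw [le_div_iff₀ hP]; linarith), mul_zero]
      · filter_upwards [ev_lt (f := fun z => YY + yk 0 z) (continuous_const.add (cy 0))
          (not_le.1 hc1)] with z hz
        unfold XVb
        rw [chi1_facts.2.2.2 ((YY + yk 0 z) / PP N) (by rw [le_div_iff₀ hP]; linarith), zero_mul]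
  filter_upwards [c1, c2, c3] with z h1 h2 h3
  unfold Fin0
  rw [h2, h3, chi1_facts.2.2.2 ((1 - xk 0 z) / PP N) (by rw [le_div_iff₀ hP]; linarith)]
  simp

theorem contDiff_piece (r : ℝ) (N : ℕ) (i : Fin 6 × Bool) : ContDiff ℝ ∞ (pieceF r N i) := by
  have hm : ContDiff ℝ ∞ (fun w : ℂ => w * conj (zt ^ (i.1 : ℕ))) := contDiff_id.mul contDiff_const
  unfold pieceF
  rcases hi : i.2 with _ | _
  · simp only [Bool.false_eq_true, if_false]
    exact contDiff_const.mul ((contDiff_Fin0 r N).comp hm)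
  · simp only [if_true]
    exact contDiff_const.mul ((contDiff_Fout0 r N).comp hm)

/-- rotating a function -/
private theorem rot_lip {F : ℂ → ℂ} (hF : ContDiff ℝ ∞ F) {C : NNReal} {a b : ℂ} (ha : ‖a‖ = 1)
    (hb : ‖b‖ = 1) {S S' : Set ℂ} (h : LipschitzOnWith C (fderiv ℝ F) S)
    (hS : ∀ w ∈ S', w * b ∈ S) : LipschitzOnWith C (fderiv ℝ (fun w => a * F (w * b))) S' := by
  have hd : ∀ w, fderiv ℝ (fun w => a * F (w * b)) w =
      a • ((fderiv ℝ F (w * b)).comp (b • (1 : ℂ →L[ℝ] ℂ))) := by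
    intro w
    have h1 : HasFDerivAt (fun w : ℂ => w * b) (b • (1 : ℂ →L[ℝ] ℂ)) w :=
      (hasFDerivAt_id (𝕜 := ℝ) w).mul_const b
    have h2 := ((hF.differentiable (by simp) (w * b)).hasFDerivAt.comp w h1).const_mul a
    exact h2.fderiv
  refine LipschitzOnWith.of_dist_le_mul fun x hx y hy => ?_
  rw [dist_eq_norm, dist_eq_norm, hd, hd]
  have h1 := h.dist_le_mul (x * b) (hS x hx) (y * b) (hS y hy)
  rw [dist_eq_norm, dist_eq_norm, ← sub_mul, norm_mul, hb, mul_one] at h1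
  refine le_trans ?_ h1
  refine ContinuousLinearMap.opNorm_le_bound _ (norm_nonneg _) fun v => ?_
  have e : (a • ((fderiv ℝ F (x * b)).comp (b • (1 : ℂ →L[ℝ] ℂ))) -
      a • ((fderiv ℝ F (y * b)).comp (b • (1 : ℂ →L[ℝ] ℂ)))) v =
      a * ((fderiv ℝ F (x * b) - fderiv ℝ F (y * b)) (b * v)) := by
    simp [mul_sub]
  rw [e, norm_mul, ha, one_mul]
  refine (ContinuousLinearMap.le_opNorm _ _).trans ?_
  rw [norm_mul, hb, one_mul]

theorem piece_bounds : ∃ C : NNReal, ∀ r : ℝ, 0 < r → r ≤ 1 / 100 → ∀ N : ℕ, 10 ≤ N →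
    ∀ i, LipschitzOnWith C (fderiv ℝ (pieceF r N i)) (pieceS i) := by
  obtain ⟨C1, h1⟩ := Fin0_bounds
  obtain ⟨C2, h2⟩ := Fout0_bounds
  refine ⟨max C1 C2, fun r h0 hr N hN i => ?_⟩
  have hz1 : ‖zt ^ (2 * (i.1 : ℕ))‖ = 1 := by rw [norm_pow, norm_zt, one_pow]
  have hz2 := norm_zp (i.1 : ℕ)
  unfold pieceF
  rcases hi : i.2 with _ | _
  · simp only [Bool.false_eq_true, if_false]
    refine (rot_lip (contDiff_Fin0 r N) hz1 hz2 (h1 r h0 hr N hN) fun w hw => ?_).weaken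
      (le_max_left _ _)
    unfold pieceS at hw
    rw [hi] at hw
    simp only [Bool.false_eq_true, if_false, Set.mem_ofPred_eq] at hw
    refine ⟨fun j hj => ?_, ?_⟩
    · have e1 := (xk_rot j (i.1 : ℕ) w).1
      have e2 := (xk_rot 0 (i.1 : ℕ) w).1
      rw [zero_add] at e2
      show xk j (w * conj (zt ^ (i.1 : ℕ))) ≤ xk 0 (w * conj (zt ^ (i.1 : ℕ)))
      rw [← e1, ← e2, ← (xk_mod (j + (i.1 : ℕ)) w).1]
      exact hw.1 _ (Nat.mod_lt _ (by norm_num))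
    · simp only [Bool.false_eq_true, if_false]
      have e2 := (xk_rot 0 (i.1 : ℕ) w).1
      rw [zero_add] at e2
      show xk 0 (w * conj (zt ^ (i.1 : ℕ))) ≤ 1
      rw [← e2]
      exact hw.2
  · simp only [if_true]
    exact (rot_lip (contDiff_Fout0 r N) hz1 hz2 ((h2 r h0 hr N hN).lipschitzOnWith (s := univ))
      fun w _ => mem_univ _).weaken (le_max_right _ _)

end EBC
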