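import Pool.Agent.Work.MP_ebc928_an.HexPoly

open MeasureTheory Complex Set
open scoped ContDiff ComplexConjugate

noncomputable section
namespace EBC

theorem chi1_facts : ContDiff ℝ ∞ chi1 ∧ (∀ t, 0 ≤ chi1 t ∧ chi1 t ≤ 1) ∧
    (∀ t ≤ 1 / 4, chi1 t = 1) ∧ (∀ t, 1 / 2 ≤ t → chi1 t = 0) := by
  refine ⟨?_, fun t => ⟨Real.smoothTransition.nonneg _, Real.smoothTransition.le_one _⟩,
    fun t ht => Real.smoothTransition.one_of_one_le (by linarith),
    fun t ht => Real.smoothTransition.zero_of_nonpos (by linarith)⟩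
  unfold chi1
  exact Real.smoothTransition.contDiff.comp (by fun_prop)
theorem chi_facts : ContDiff ℝ ∞ chi ∧ (∀ t, 0 ≤ chi t ∧ chi t ≤ 1) ∧
    (∀ t, |t| ≤ 1 / 4 → chi t = 1) ∧ (∀ t, 1 / 2 ≤ |t| → chi t = 0) ∧ (∀ t, chi (-t) = chi t) := by
  obtain ⟨h1, h2, h3, h4⟩ := chi1_facts
  refine ⟨?_, fun t => ⟨mul_nonneg (h2 t).1 (h2 (-t)).1, mul_le_one₀ (h2 t).2 (h2 (-t)).1 (h2 (-t)).2⟩,
    fun t ht => ?_, fun t ht => ?_, fun t => ?_⟩
  · unfold chi
    exact h1.mul (h1.comp contDiff_neg)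
  · rw [abs_le] at ht
    unfold chi
    rw [h3 t ht.2, h3 (-t) (by linarith), one_mul]
  · unfold chi
    rcases le_abs.1 ht with h | h
    · rw [h4 t h, zero_mul]
    · rw [h4 (-t) h, mul_zero]
  · unfold chi
    rw [neg_neg, mul_comm]

/-- explicit form of the boundary values -/
theorem f1_GG_eq (r y : ℝ) : GG r y = lam r * ((223 / 375 + 7 / 125 * I) + I * y +
    (-147 / 250 - 49 / 250 * I) * y ^ 2 + (-147 / 250 + 21 / 250 * I) * y ^ 4) := by
  have h1 : conj (1 + y * I : ℂ) = 1 - y * I := by simp; ring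
  unfold GG Phi0
  rw [h1]
  congr 1
  have hI : I ^ 2 = -1 := Complex.I_sq
  have hI3 : I ^ 3 = -I := by linear_combination I * hI
  have hI4 : I ^ 4 = 1 := by linear_combination (I ^ 2 - 1) * hI
  have hI5 : I ^ 5 = I := by linear_combination (I ^ 3 - I) * hI
  ring_nf
  simp only [hI, hI3, hI4, hI5]
  ring

theorem contDiff_GG (r : ℝ) : ContDiff ℝ ∞ (GG r) := by
  rw [funext (f1_GG_eq r)]
  have : ContDiff ℝ ∞ (fun y : ℝ => (y : ℂ)) := Complex.ofRealCLM.contDiff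
  fun_prop

theorem f1_hasDeriv_GG (r y : ℝ) : HasDerivAt (GG r) (lam r * (I +
    (-147 / 250 - 49 / 250 * I) * (2 * y) + (-147 / 250 + 21 / 250 * I) * (4 * y ^ 3))) y := by
  rw [funext (f1_GG_eq r)]
  have h : HasDerivAt (fun y : ℝ => (y : ℂ)) 1 y := Complex.ofRealCLM.hasDerivAt
  have e := ((((h.const_mul I).const_add (223 / 375 + 7 / 125 * I)).add
    ((h.pow 2).const_mul (-147 / 250 - 49 / 250 * I))).add
    ((h.pow 4).const_mul (-147 / 250 + 21 / 250 * I))).const_mul (lam r)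
  refine HasDerivAt.congr_deriv e ?_
  push_cast
  ring

theorem f1_deriv_GG (r : ℝ) : deriv (GG r) = fun y : ℝ => lam r * (I +
    (-147 / 250 - 49 / 250 * I) * (2 * y) + (-147 / 250 + 21 / 250 * I) * (4 * y ^ 3)) :=
  funext fun y => (f1_hasDeriv_GG r y).deriv

theorem f1_deriv2_GG (r : ℝ) : deriv (deriv (GG r)) = fun y : ℝ => lam r * (
    (-147 / 250 - 49 / 250 * I) * 2 + (-147 / 250 + 21 / 250 * I) * (12 * y ^ 2)) := by
  funext y
  rw [f1_deriv_GG]
  have h : HasDerivAt (fun y : ℝ => (y : ℂ)) 1 y := Complex.ofRealCLM.hasDerivAt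
  have e := ((((h.const_mul 2).const_mul (-147 / 250 - 49 / 250 * I)).const_add I).add
    (((h.pow 3).const_mul 4).const_mul (-147 / 250 + 21 / 250 * I))).const_mul (lam r)
  refine HasDerivAt.deriv (HasDerivAt.congr_deriv e ?_)
  push_cast
  ring

/-- second order remainder of the boundary values -/
def f1_h (r t y : ℝ) : ℂ := GG r y - GG r t - (y - t) * deriv (GG r) t

theorem f1_h_eq (r t y : ℝ) : f1_h r t y = lam r * (y - t) ^ 2 * (
    (-147 / 250 - 49 / 250 * I) + (-147 / 250 + 21 / 250 * I) * (y ^ 2 + 2 * y * t + 3 * t ^ 2)) := by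
  unfold f1_h
  rw [f1_GG_eq, f1_GG_eq, f1_deriv_GG]
  ring

theorem contDiff_f1_h (r t : ℝ) : ContDiff ℝ ∞ (f1_h r t) := by
  have h := contDiff_GG r
  have : ContDiff ℝ ∞ (fun y : ℝ => (y : ℂ)) := Complex.ofRealCLM.contDiff
  unfold f1_h
  fun_prop

theorem f1_deriv_h (r t : ℝ) : deriv (f1_h r t) = fun y => deriv (GG r) y - deriv (GG r) t := by
  funext y
  have h : HasDerivAt (fun y : ℝ => (y : ℂ)) 1 y := Complex.ofRealCLM.hasDerivAt
  have h1 := (contDiff_GG r).differentiable (by simp) y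
  have e := (h1.hasDerivAt.sub_const (GG r t)).sub ((h.sub_const (t : ℂ)).mul_const (deriv (GG r) t))
  have e' : HasDerivAt (f1_h r t) _ y := e
  rw [e'.deriv, one_mul]

theorem f1_deriv_h_eq (r t y : ℝ) : deriv (f1_h r t) y = lam r * (y - t) * (
    (-147 / 250 - 49 / 250 * I) * 2 + (-147 / 250 + 21 / 250 * I) * (4 * (y ^ 2 + y * t + t ^ 2))) := by
  rw [f1_deriv_h, f1_deriv_GG]
  ring

theorem f1_deriv2_h (r t : ℝ) : deriv (deriv (f1_h r t)) = deriv (deriv (GG r)) := by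
  rw [f1_deriv_h]
  funext y
  rw [deriv_sub_const]

theorem f1_norm_lam {r : ℝ} (h0 : 0 < r) (h1 : r ≤ 1 / 100) : ‖lam r‖ ≤ 2 := by
  have h2 : ‖al‖ ≤ 2 := by
    have : ‖al‖ ≤ |al.re| + |al.im| := Complex.norm_le_abs_re_add_abs_im al
    simp only [al] at this
    norm_num [abs_of_pos] at this
    have h3 : (1 : ℝ) + 1 / 7 ≤ 2 := by norm_num
    exact this.trans (by norm_num)
  unfold lam
  calc ‖(1 : ℂ) + ((r / 2 : ℝ) : ℂ) * al‖ ≤ ‖(1 : ℂ)‖ + ‖((r / 2 : ℝ) : ℂ) * al‖ := norm_add_le _ _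
    _ ≤ 1 + 1 / 200 * 2 := by
        rw [norm_one, norm_mul, Complex.norm_real, Real.norm_eq_abs, abs_of_pos (by linarith)]
        exact add_le_add le_rfl (mul_le_mul (by linarith) h2 (norm_nonneg _) (by norm_num))
    _ ≤ 2 := by norm_num

private theorem c2_norm : ‖(-147 / 250 - 49 / 250 * I : ℂ)‖ ≤ 1 := by
  have : ‖(-147 / 250 - 49 / 250 * I : ℂ)‖ ≤ |(-147 / 250 - 49 / 250 * I : ℂ).re| +
    |(-147 / 250 - 49 / 250 * I : ℂ).im| := Complex.norm_le_abs_re_add_abs_im _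
  refine this.trans ?_
  simp
  norm_num [abs_of_neg, abs_of_pos]

private theorem c4_norm : ‖(-147 / 250 + 21 / 250 * I : ℂ)‖ ≤ 1 := by
  have : ‖(-147 / 250 + 21 / 250 * I : ℂ)‖ ≤ |(-147 / 250 + 21 / 250 * I : ℂ).re| +
    |(-147 / 250 + 21 / 250 * I : ℂ).im| := Complex.norm_le_abs_re_add_abs_im _
  refine this.trans ?_
  simp
  norm_num [abs_of_neg, abs_of_pos]

theorem f1_h_bounds {r t y : ℝ} (h0 : 0 < r) (h1 : r ≤ 1 / 100) (ht : |t| ≤ 1) (hy : |y| ≤ 1) :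
    ‖f1_h r t y‖ ≤ 14 * |y - t| ^ 2 ∧ ‖deriv (f1_h r t) y‖ ≤ 28 * |y - t| ∧
      ‖deriv (deriv (f1_h r t)) y‖ ≤ 28 := by
  have hl := f1_norm_lam h0 h1
  have h2 := c2_norm
  have h4 := c4_norm
  have hY : ‖(y : ℂ)‖ ≤ 1 := by rw [Complex.norm_real]; exact hy
  have hT : ‖(t : ℂ)‖ ≤ 1 := by rw [Complex.norm_real]; exact ht
  have hYT : ‖(y - t : ℂ)‖ = |y - t| := by
    rw [← Complex.ofReal_sub, Complex.norm_real, Real.norm_eq_abs]
  have hyy : ‖(y : ℂ) ^ 2‖ ≤ 1 := by rw [norm_pow]; exact pow_le_one₀ (norm_nonneg _) hY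
  have htt : ‖(t : ℂ) ^ 2‖ ≤ 1 := by rw [norm_pow]; exact pow_le_one₀ (norm_nonneg _) hT
  have hyt : ‖(y : ℂ) * t‖ ≤ 1 := by rw [norm_mul]; exact mul_le_one₀ hY (norm_nonneg _) hT
  refine ⟨?_, ?_, ?_⟩
  · rw [f1_h_eq]
    have e1 : ‖(y : ℂ) ^ 2 + 2 * y * t + 3 * t ^ 2‖ ≤ 6 := by
      have e : (y : ℂ) ^ 2 + 2 * y * t + 3 * t ^ 2 = y ^ 2 + 2 * (y * t) + 3 * t ^ 2 := by ring
      rw [e]
      refine (norm_add_le _ _).trans ?_
      have := norm_add_le ((y : ℂ) ^ 2) (2 * (y * t))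
      rw [norm_mul 2 ((y : ℂ) * t), Complex.norm_ofNat] at this
      rw [norm_mul 3 ((t : ℂ) ^ 2), Complex.norm_ofNat]
      linarith
    have e2 : ‖(-147 / 250 - 49 / 250 * I) + (-147 / 250 + 21 / 250 * I) *
        ((y : ℂ) ^ 2 + 2 * y * t + 3 * t ^ 2)‖ ≤ 7 := by
      refine (norm_add_le _ _).trans ?_
      rw [norm_mul]
      nlinarith [norm_nonneg ((y : ℂ) ^ 2 + 2 * y * t + 3 * t ^ 2)]
    rw [norm_mul, norm_mul, norm_pow, hYT]
    calc ‖lam r‖ * |y - t| ^ 2 * _ ≤ 2 * |y - t| ^ 2 * 7 := by gcongr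
      _ = _ := by ring
  · rw [f1_deriv_h_eq]
    have e1 : ‖(4 * ((y : ℂ) ^ 2 + y * t + t ^ 2))‖ ≤ 12 := by
      rw [norm_mul, Complex.norm_ofNat]
      have := (norm_add_le ((y : ℂ) ^ 2 + y * t) (t ^ 2))
      have := (norm_add_le ((y : ℂ) ^ 2) (y * t))
      linarith
    have e2 : ‖(-147 / 250 - 49 / 250 * I) * 2 + (-147 / 250 + 21 / 250 * I) *
        (4 * ((y : ℂ) ^ 2 + y * t + t ^ 2))‖ ≤ 14 := by
      refine (norm_add_le _ _).trans ?_
      rw [norm_mul, norm_mul, Complex.norm_ofNat]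
      nlinarith [norm_nonneg (4 * ((y : ℂ) ^ 2 + y * t + t ^ 2))]
    rw [norm_mul, norm_mul, hYT]
    calc ‖lam r‖ * |y - t| * _ ≤ 2 * |y - t| * 14 := by gcongr
      _ = _ := by ring
  · rw [f1_deriv2_h, f1_deriv2_GG]
    have e1 : ‖(12 * (y : ℂ) ^ 2)‖ ≤ 12 := by
      rw [norm_mul, Complex.norm_ofNat]
      linarith
    have e2 : ‖(-147 / 250 - 49 / 250 * I) * 2 + (-147 / 250 + 21 / 250 * I) *
        (12 * (y : ℂ) ^ 2)‖ ≤ 14 := by
      refine (norm_add_le _ _).trans ?_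
      rw [norm_mul, norm_mul, Complex.norm_ofNat]
      nlinarith [norm_nonneg (12 * (y : ℂ) ^ 2)]
    simp only [norm_mul]
    calc ‖lam r‖ * _ ≤ 2 * 14 := by gcongr
      _ = _ := by norm_num

/-! ### cutoffs -/

theorem f1_contDiff_deriv {E : Type*} [NormedAddCommGroup E] [NormedSpace ℝ E] {c : ℝ → E}
    (hc : ContDiff ℝ ∞ c) : ContDiff ℝ ∞ (deriv c) := by
  have := (contDiff_succ_iff_deriv (n := ∞) (f := c) (𝕜 := ℝ)).1 (by simpa using hc)
  exact this.2.2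

theorem f1_cut_deriv {c : ℝ → ℝ} {h : ℝ → ℂ} (hc : Differentiable ℝ c) (hh : Differentiable ℝ h)
    (a b : ℝ) : deriv (fun y : ℝ => ((c (a + b * y) : ℝ) : ℂ) * h y) = fun y =>
      ((b * deriv c (a + b * y) : ℝ) : ℂ) * h y + ((c (a + b * y) : ℝ) : ℂ) * deriv h y := by
  funext y
  have h1 : HasDerivAt (fun y : ℝ => a + b * y) b y := by
    have := ((hasDerivAt_id y).const_mul b).const_add a
    simpa using this
  have h2 : HasDerivAt (fun y : ℝ => c (a + b * y)) (deriv c (a + b * y) * b) y :=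
    ((hc (a + b * y)).hasDerivAt).comp y h1
  have h3 := (h2.ofReal_comp).mul (hh y).hasDerivAt
  have h4 : HasDerivAt (fun y : ℝ => ((c (a + b * y) : ℝ) : ℂ) * h y) _ y := h3
  rw [h4.deriv]
  push_cast
  ring

theorem f1_cut_deriv2 {c : ℝ → ℝ} {h : ℝ → ℂ} (hc : ContDiff ℝ ∞ c) (hh : ContDiff ℝ ∞ h)
    (a b : ℝ) : deriv (deriv (fun y : ℝ => ((c (a + b * y) : ℝ) : ℂ) * h y)) = fun y =>
      ((b * (b * deriv (deriv c) (a + b * y)) : ℝ) : ℂ) * h y +
      2 * (((b * deriv c (a + b * y) : ℝ) : ℂ) * deriv h y) +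
      ((c (a + b * y) : ℝ) : ℂ) * deriv (deriv h) y := by
  have hc1 : ContDiff ℝ ∞ (deriv c) := f1_contDiff_deriv hc
  have hh1 : ContDiff ℝ ∞ (deriv h) := f1_contDiff_deriv hh
  rw [f1_cut_deriv (hc.differentiable (by simp)) (hh.differentiable (by simp))]
  have e1 := f1_cut_deriv (c := fun t => b * deriv c t) (h := h)
    ((hc1.differentiable (by simp)).const_mul b) (hh.differentiable (by simp)) a b
  have e2 := f1_cut_deriv (c := c) (h := deriv h) (hc.differentiable (by simp))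
    (hh1.differentiable (by simp)) a b
  have hl : ContDiff ℝ ∞ (fun y : ℝ => a + b * y) := by fun_prop
  have d1 : Differentiable ℝ (fun y : ℝ => ((b * deriv c (a + b * y) : ℝ) : ℂ) * h y) :=
    ((Complex.ofRealCLM.contDiff.comp (contDiff_const.mul (hc1.comp hl))).mul hh).differentiable
      (by simp)
  have d2 : Differentiable ℝ (fun y : ℝ => ((c (a + b * y) : ℝ) : ℂ) * deriv h y) :=
    ((Complex.ofRealCLM.contDiff.comp (hc.comp hl)).mul hh1).differentiable (by simp)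
  funext y
  have e3 : deriv ((fun y : ℝ => ((b * deriv c (a + b * y) : ℝ) : ℂ) * h y) +
      fun y : ℝ => ((c (a + b * y) : ℝ) : ℂ) * deriv h y) y = _ := deriv_add (d1 y) (d2 y)
  have e4 := congrFun e1 y
  have e5 := congrFun e2 y
  have e6 : deriv (fun t => b * deriv c t) (a + b * y) = b * deriv (deriv c) (a + b * y) :=
    deriv_const_mul b ((hc1.differentiable (by simp)) _)
  have e7 : deriv (fun y : ℝ => ((b * deriv c (a + b * y) : ℝ) : ℂ) * h y +
      ((c (a + b * y) : ℝ) : ℂ) * deriv h y) y =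
      deriv ((fun y : ℝ => ((b * deriv c (a + b * y) : ℝ) : ℂ) * h y) +
      fun y : ℝ => ((c (a + b * y) : ℝ) : ℂ) * deriv h y) y := rfl
  rw [e7, e3, e4, e5]
  simp only [e6]
  ring

theorem f1_flat_right {c : ℝ → ℝ} (hc : ContDiff ℝ ∞ c) {a k : ℝ} (h : ∀ t, a ≤ t → c t = k) :
    ∀ t, a ≤ t → deriv c t = 0 := by
  have h1 : ∀ t ∈ Ioi a, deriv c t = 0 := by
    intro t ht
    have : c =ᶠ[nhds t] fun _ => k := by
      filter_upwards [Ioi_mem_nhds ht] with s hs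
      exact h s (le_of_lt hs)
    rw [this.deriv_eq, deriv_const]
  have h2 : IsClosed {t | deriv c t = 0} :=
    isClosed_eq (f1_contDiff_deriv hc).continuous continuous_const
  have h3 : closure (Ioi a) ⊆ {t | deriv c t = 0} := h2.closure_subset_iff.2 h1
  rw [closure_Ioi] at h3
  exact fun t ht => h3 ht

theorem f1_flat_left {c : ℝ → ℝ} (hc : ContDiff ℝ ∞ c) {a k : ℝ} (h : ∀ t, t ≤ a → c t = k) :
    ∀ t, t ≤ a → deriv c t = 0 := by
  have h1 : ∀ t ∈ Iio a, deriv c t = 0 := by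
    intro t ht
    have : c =ᶠ[nhds t] fun _ => k := by
      filter_upwards [Iio_mem_nhds ht] with s hs
      exact h s (le_of_lt hs)
    rw [this.deriv_eq, deriv_const]
  have h2 : IsClosed {t | deriv c t = 0} :=
    isClosed_eq (f1_contDiff_deriv hc).continuous continuous_const
  have h3 : closure (Iio a) ⊆ {t | deriv c t = 0} := h2.closure_subset_iff.2 h1
  rw [closure_Iio] at h3
  exact fun t ht => h3 ht

/-- derivatives of the cutoff `chi` -/
theorem f1_chi_flat {t : ℝ} (ht : 1 / 2 ≤ |t|) :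
    chi t = 0 ∧ deriv chi t = 0 ∧ deriv (deriv chi) t = 0 := by
  obtain ⟨h1, h2, h3, h4, h5⟩ := chi_facts
  refine ⟨h4 t ht, ?_⟩
  have r1 := f1_flat_right h1 (a := 1 / 2) (k := 0) fun t ht => h4 t (le_abs.2 (Or.inl ht))
  have r2 := f1_flat_right (f1_contDiff_deriv h1) (a := 1 / 2) (k := 0) r1
  have l1 := f1_flat_left h1 (a := -(1 / 2)) (k := 0)
    fun t ht => h4 t (le_abs.2 (Or.inr (by linarith)))
  have l2 := f1_flat_left (f1_contDiff_deriv h1) (a := -(1 / 2)) (k := 0) l1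
  rcases le_abs.1 ht with h | h
  · exact ⟨r1 t h, r2 t h⟩
  · exact ⟨l1 t (by linarith), l2 t (by linarith)⟩

/-- derivatives of the cutoff `chi1` -/
theorem f1_chi1_flat {t : ℝ} (ht : t ≤ 1 / 4 ∨ 1 / 2 ≤ t) :
    deriv chi1 t = 0 ∧ deriv (deriv chi1) t = 0 := by
  obtain ⟨h1, h2, h3, h4⟩ := chi1_facts
  have r1 := f1_flat_right h1 (a := 1 / 2) (k := 0) h4
  have r2 := f1_flat_right (f1_contDiff_deriv h1) (a := 1 / 2) (k := 0) r1
  have l1 := f1_flat_left h1 (a := 1 / 4) (k := 1) h3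
  have l2 := f1_flat_left (f1_contDiff_deriv h1) (a := 1 / 4) (k := 0) l1
  rcases ht with h | h
  · exact ⟨l1 t h, l2 t h⟩
  · exact ⟨r1 t h, r2 t h⟩

private theorem bdd_of_flat {c : ℝ → ℝ} (hc : Continuous c) (h : ∀ t, 1 / 2 ≤ |t| → c t = 0) :
    ∃ M : ℝ, ∀ t, |c t| ≤ M := by
  obtain ⟨M, hM⟩ := (isCompact_Icc (a := (-1 : ℝ)) (b := 1)).exists_bound_of_continuousOn
    hc.continuousOn
  refine ⟨max M 0, fun t => ?_⟩
  by_cases ht : 1 / 2 ≤ |t|
  · rw [h t ht, abs_zero]; exact le_max_right _ _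
  · have h1 : |t| ≤ 1 := by linarith
    exact (hM t (abs_le.1 h1)).trans (le_max_left _ _)

/-- a common bound for the derivatives of the cutoffs -/
theorem f1_exists_M : ∃ M : ℝ, 1 ≤ M ∧ ∀ t : ℝ, |chi t| ≤ M ∧ |deriv chi t| ≤ M ∧
    |deriv (deriv chi) t| ≤ M ∧ |chi1 t| ≤ M ∧ |deriv chi1 t| ≤ M ∧ |deriv (deriv chi1) t| ≤ M := by
  obtain ⟨h1, h2, -, -, -⟩ := chi_facts
  obtain ⟨k1, k2, -, -⟩ := chi1_facts
  have c1 := (f1_contDiff_deriv h1)
  have c2 := (f1_contDiff_deriv k1)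
  obtain ⟨M1, e1⟩ := bdd_of_flat c1.continuous fun t ht => (f1_chi_flat ht).2.1
  obtain ⟨M2, e2⟩ := bdd_of_flat (f1_contDiff_deriv c1).continuous
    fun t ht => (f1_chi_flat ht).2.2
  have hf : ∀ t : ℝ, 1 / 2 ≤ |t| → t ≤ 1 / 4 ∨ 1 / 2 ≤ t := fun t ht => by
    rcases le_abs.1 ht with h | h
    · exact Or.inr h
    · exact Or.inl (by linarith)
  obtain ⟨M3, e3⟩ := bdd_of_flat c2.continuous fun t ht => (f1_chi1_flat (hf t ht)).1
  obtain ⟨M4, e4⟩ := bdd_of_flat (f1_contDiff_deriv c2).continuous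
    fun t ht => (f1_chi1_flat (hf t ht)).2
  refine ⟨max 1 (max (max M1 M2) (max M3 M4)), le_max_left _ _, fun t => ⟨?_, ?_, ?_, ?_, ?_, ?_⟩⟩
  · rw [abs_of_nonneg (h2 t).1]
    exact (h2 t).2.trans (le_max_left _ _)
  · exact (e1 t).trans ((le_max_left _ _).trans ((le_max_left _ _).trans (le_max_right _ _)))
  · exact (e2 t).trans ((le_max_right _ _).trans ((le_max_left _ _).trans (le_max_right _ _)))
  · rw [abs_of_nonneg (k2 t).1]
    exact (k2 t).2.trans (le_max_left _ _)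
  · exact (e3 t).trans ((le_max_left _ _).trans ((le_max_right _ _).trans (le_max_right _ _)))
  · exact (e4 t).trans ((le_max_right _ _).trans ((le_max_right _ _).trans (le_max_right _ _)))

/-! ### positions -/

theorem f1_YY_le : YY ≤ 29 / 50 := by
  have h1 := YY_sq
  have h2 := YY_pos
  nlinarith

theorem f1_YY_ge : 57 / 100 ≤ YY := by
  have h1 := YY_sq
  have h2 := YY_pos
  nlinarith

theorem f1_PP_pos {N : ℕ} (hN : 10 ≤ N) : 0 < PP N := by
  have h2 := YY_pos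
  have : (0 : ℝ) < N := by exact_mod_cast (by omega : 0 < N)
  unfold PP; positivity

theorem f1_N_mul {N : ℕ} (hN : 10 ≤ N) : (N : ℝ) * PP N = 2 * YY := by
  have : (N : ℝ) ≠ 0 := by exact_mod_cast (by omega : N ≠ 0)
  unfold PP; field_simp

theorem f1_PP_le {N : ℕ} (hN : 10 ≤ N) : PP N ≤ 3 / 25 := by
  have h1 := f1_N_mul hN
  have h2 := f1_YY_le
  have h3 : (10 : ℝ) ≤ N := by exact_mod_cast hN
  have h4 := f1_PP_pos hN
  nlinarith

theorem f1_yj_bounds {N : ℕ} (hN : 10 ≤ N) {j : ℕ} (hj : 1 ≤ j) (hj' : j ≤ N - 1) :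
    |yj N j| ≤ YY - PP N := by
  have h1 := f1_N_mul hN
  have h4 := f1_PP_pos hN
  have h5 : (1 : ℝ) ≤ j := by exact_mod_cast hj
  have h6 : (j : ℝ) ≤ N - 1 := by
    have : j + 1 ≤ N := by omega
    have : ((j + 1 : ℕ) : ℝ) ≤ N := by exact_mod_cast this
    push_cast at this
    linarith
  rw [abs_le]
  unfold yj
  constructor <;> nlinarith

theorem f1_yj_sep {N : ℕ} (hN : 10 ≤ N) {i j : ℕ} (hij : i ≠ j) : PP N ≤ |yj N i - yj N j| := by
  have h4 := f1_PP_pos hN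
  have e : yj N i - yj N j = (i - j) * PP N := by unfold yj; ring
  rw [e, abs_mul, abs_of_pos h4]
  have : (1 : ℝ) ≤ |(i : ℝ) - j| := by
    have h : (i : ℤ) - j ≠ 0 := sub_ne_zero.2 (by exact_mod_cast hij)
    have := Int.one_le_abs h
    exact_mod_cast this
  nlinarith

/-- the `j`-th summand of `RR` -/
def f1_g (r : ℝ) (N : ℕ) (j : ℕ) (y : ℝ) : ℂ :=
  (chi ((y - yj N j) / PP N) : ℂ) * f1_h r (yj N j) y

theorem f1_RR_eq (r : ℝ) (N : ℕ) : RR r N = fun y => ∑ j ∈ Finset.Icc 1 (N - 1), f1_g r N j y := rfl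

private theorem g_eq (r : ℝ) (N j : ℕ) : f1_g r N j = fun y : ℝ =>
    ((chi (-(yj N j / PP N) + 1 / PP N * y) : ℝ) : ℂ) * f1_h r (yj N j) y := by
  funext y
  unfold f1_g
  have e : (y - yj N j) / PP N = -(yj N j / PP N) + 1 / PP N * y := by ring
  rw [e]

theorem f1_contDiff_g (r : ℝ) (N j : ℕ) : ContDiff ℝ ∞ (f1_g r N j) := by
  rw [g_eq]
  have hl : ContDiff ℝ ∞ (fun y : ℝ => -(yj N j / PP N) + 1 / PP N * y) := by fun_prop
  exact (Complex.ofRealCLM.contDiff.comp (chi_facts.1.comp hl)).mul (contDiff_f1_h r (yj N j))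

theorem f1_g_deriv (r : ℝ) (N j : ℕ) (y : ℝ) : deriv (f1_g r N j) y =
    ((1 / PP N * deriv chi ((y - yj N j) / PP N) : ℝ) : ℂ) * f1_h r (yj N j) y +
      ((chi ((y - yj N j) / PP N) : ℝ) : ℂ) * deriv (f1_h r (yj N j)) y := by
  have e : (y - yj N j) / PP N = -(yj N j / PP N) + 1 / PP N * y := by ring
  rw [g_eq, f1_cut_deriv (chi_facts.1.differentiable (by simp))
    ((contDiff_f1_h r (yj N j)).differentiable (by simp)), e]

theorem f1_g_deriv2 (r : ℝ) (N j : ℕ) (y : ℝ) : deriv (deriv (f1_g r N j)) y =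
    ((1 / PP N * (1 / PP N * deriv (deriv chi) ((y - yj N j) / PP N)) : ℝ) : ℂ) *
      f1_h r (yj N j) y +
    2 * (((1 / PP N * deriv chi ((y - yj N j) / PP N) : ℝ) : ℂ) * deriv (f1_h r (yj N j)) y) +
      ((chi ((y - yj N j) / PP N) : ℝ) : ℂ) * deriv (deriv (f1_h r (yj N j))) y := by
  have e : (y - yj N j) / PP N = -(yj N j / PP N) + 1 / PP N * y := by ring
  rw [g_eq, f1_cut_deriv2 chi_facts.1 (contDiff_f1_h r (yj N j)), e]

theorem f1_g_zero (r : ℝ) {N : ℕ} (hN : 10 ≤ N) {j : ℕ} {y : ℝ} (hy : PP N / 2 ≤ |y - yj N j|) :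
    f1_g r N j y = 0 ∧ deriv (f1_g r N j) y = 0 ∧ deriv (deriv (f1_g r N j)) y = 0 := by
  have hP := f1_PP_pos hN
  have h : 1 / 2 ≤ |(y - yj N j) / PP N| := by
    rw [abs_div, abs_of_pos hP, le_div_iff₀ hP]
    linarith
  obtain ⟨e1, e2, e3⟩ := f1_chi_flat h
  refine ⟨?_, ?_, ?_⟩
  · unfold f1_g; rw [e1]; simp
  · rw [f1_g_deriv, e1, e2]; simp
  · rw [f1_g_deriv2, e1, e2, e3]; simp

/-- bounds for a product with a cutoff -/
theorem f1_prod_bounds {M P b c0 c1 c2 : ℝ} {h0 h1 h2 : ℂ} (hP : 0 < P) (hM : 0 ≤ M)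
    (hb : |b| ≤ 1 / P) (e0 : |c0| ≤ M) (e1 : |c1| ≤ M) (e2 : |c2| ≤ M)
    (k0 : ‖h0‖ ≤ 14 * (P / 2) ^ 2) (k1 : ‖h1‖ ≤ 28 * (P / 2)) (k2 : ‖h2‖ ≤ 28) :
    ‖(c0 : ℂ) * h0‖ ≤ 60 * M * P ^ 2 ∧
    ‖((b * c1 : ℝ) : ℂ) * h0 + (c0 : ℂ) * h1‖ ≤ 60 * M * P ∧
    ‖((b * (b * c2) : ℝ) : ℂ) * h0 + 2 * (((b * c1 : ℝ) : ℂ) * h1) + (c0 : ℂ) * h2‖
      ≤ 60 * M := by
  have n0 : ‖(c0 : ℂ)‖ ≤ M := by rw [Complex.norm_real]; exact e0
  have n1 : ‖((b * c1 : ℝ) : ℂ)‖ ≤ 1 / P * M := by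
    rw [Complex.norm_real, Real.norm_eq_abs, abs_mul]
    gcongr
  have n2 : ‖((b * (b * c2) : ℝ) : ℂ)‖ ≤ 1 / P * (1 / P * M) := by
    rw [Complex.norm_real, Real.norm_eq_abs, abs_mul, abs_mul]
    gcongr
  refine ⟨?_, ?_, ?_⟩
  · rw [norm_mul]
    calc ‖(c0 : ℂ)‖ * ‖h0‖ ≤ M * (14 * (P / 2) ^ 2) := by gcongr
      _ = (7 / 2) * (M * P ^ 2) := by ring
      _ ≤ 60 * (M * P ^ 2) := by gcongr; norm_num
      _ = _ := by ring
  · refine (norm_add_le _ _).trans ?_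
    rw [norm_mul, norm_mul]
    calc _ ≤ (1 / P * M) * (14 * (P / 2) ^ 2) + M * (28 * (P / 2)) := by gcongr
      _ = (35 / 2) * (M * P) := by field_simp; ring
      _ ≤ 60 * (M * P) := by gcongr; norm_num
      _ = _ := by ring
  · refine (norm_add_le _ _).trans ((add_le_add_left (norm_add_le _ _) _).trans ?_)
    rw [norm_mul, norm_mul, norm_mul, norm_mul, Complex.norm_ofNat]
    calc _ ≤ (1 / P * (1 / P * M)) * (14 * (P / 2) ^ 2) + 2 * ((1 / P * M) * (28 * (P / 2)))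
          + M * 28 := by gcongr
      _ = (119 / 2) * M := by field_simp; ring
      _ ≤ 60 * M := by gcongr; norm_num

theorem contDiff_RR (r : ℝ) (N : ℕ) : ContDiff ℝ ∞ (RR r N) := by
  rw [f1_RR_eq]
  exact ContDiff.sum fun j _ => f1_contDiff_g r N j

theorem f1_deriv_RR (r : ℝ) (N : ℕ) :
    deriv (RR r N) = fun y => ∑ j ∈ Finset.Icc 1 (N - 1), deriv (f1_g r N j) y := by
  funext y
  rw [f1_RR_eq, deriv_fun_sum]
  exact fun j _ => (f1_contDiff_g r N j).differentiable (by simp) y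

theorem f1_deriv2_RR (r : ℝ) (N : ℕ) :
    deriv (deriv (RR r N)) = fun y => ∑ j ∈ Finset.Icc 1 (N - 1), deriv (deriv (f1_g r N j)) y := by
  funext y
  rw [f1_deriv_RR, deriv_fun_sum]
  exact fun j _ => (f1_contDiff_deriv (f1_contDiff_g r N j)).differentiable (by simp) y

/-- at each point at most one summand of `RR` is present -/
theorem f1_RR_single (r : ℝ) {N : ℕ} (hN : 10 ≤ N) {j : ℕ} (hj : 1 ≤ j) (hj' : j ≤ N - 1) {y : ℝ}
    (hy : |y - yj N j| ≤ PP N / 2) : RR r N y = f1_g r N j y ∧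
      deriv (RR r N) y = deriv (f1_g r N j) y ∧
      deriv (deriv (RR r N)) y = deriv (deriv (f1_g r N j)) y := by
  have hP := f1_PP_pos hN
  have hfar : ∀ i ∈ Finset.Icc 1 (N - 1), i ≠ j → PP N / 2 ≤ |y - yj N i| := by
    intro i _ hij
    have h1 := f1_yj_sep hN hij
    have h2 : |yj N i - yj N j| ≤ |y - yj N i| + |y - yj N j| := by
      have e : yj N i - yj N j = -(y - yj N i) + (y - yj N j) := by ring
      rw [e]
      refine (abs_add_le _ _).trans ?_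
      rw [abs_neg]
    linarith
  have hmem : j ∈ Finset.Icc 1 (N - 1) := Finset.mem_Icc.2 ⟨hj, hj'⟩
  refine ⟨?_, ?_, ?_⟩
  · rw [f1_RR_eq]
    exact Finset.sum_eq_single_of_mem j hmem fun i hi hij => (f1_g_zero r hN (hfar i hi hij)).1
  · rw [f1_deriv_RR]
    exact Finset.sum_eq_single_of_mem j hmem fun i hi hij => (f1_g_zero r hN (hfar i hi hij)).2.1
  · rw [f1_deriv2_RR]
    exact Finset.sum_eq_single_of_mem j hmem fun i hi hij => (f1_g_zero r hN (hfar i hi hij)).2.2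

theorem f1_RR_none (r : ℝ) {N : ℕ} (hN : 10 ≤ N) {y : ℝ}
    (hy : ∀ j ∈ Finset.Icc 1 (N - 1), PP N / 2 ≤ |y - yj N j|) : RR r N y = 0 ∧
      deriv (RR r N) y = 0 ∧ deriv (deriv (RR r N)) y = 0 := by
  refine ⟨?_, ?_, ?_⟩
  · rw [f1_RR_eq]
    exact Finset.sum_eq_zero fun i hi => (f1_g_zero r hN (hy i hi)).1
  · rw [f1_deriv_RR]
    exact Finset.sum_eq_zero fun i hi => (f1_g_zero r hN (hy i hi)).2.1
  · rw [f1_deriv2_RR]
    exact Finset.sum_eq_zero fun i hi => (f1_g_zero r hN (hy i hi)).2.2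

theorem f1_RR_zero' (r : ℝ) {N : ℕ} (hN : 10 ≤ N) {y : ℝ} (hy : YY - PP N / 2 ≤ |y|) :
    RR r N y = 0 ∧ deriv (RR r N) y = 0 ∧ deriv (deriv (RR r N)) y = 0 := by
  refine f1_RR_none r hN fun j hj => ?_
  rw [Finset.mem_Icc] at hj
  have h1 := f1_yj_bounds hN hj.1 hj.2
  have h2 := abs_sub_abs_le_abs_sub y (yj N j)
  linarith

theorem RR_zero {r : ℝ} {N : ℕ} (hN : 10 ≤ N) {y : ℝ} (hy : YY - PP N / 2 ≤ |y|) :
    RR r N y = 0 ∧ deriv (RR r N) y = 0 :=
  ⟨(f1_RR_zero' r hN hy).1, (f1_RR_zero' r hN hy).2.1⟩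

theorem f1_h_neg (r t y : ℝ) : f1_h r (-t) (-y) = f1_h r t y := by
  rw [f1_h_eq, f1_h_eq]
  push_cast
  ring

theorem RR_even {r : ℝ} {N : ℕ} (hN : 10 ≤ N) (y : ℝ) : RR r N (-y) = RR r N y := by
  rw [f1_RR_eq]
  refine Finset.sum_nbij' (fun j => N - j) (fun j => N - j) ?_ ?_ ?_ ?_ ?_
  · intro j hj
    rw [Finset.mem_Icc] at hj ⊢
    omega
  · intro j hj
    rw [Finset.mem_Icc] at hj ⊢
    omega
  · intro j hj
    rw [Finset.mem_Icc] at hj
    omega
  · intro j hj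
    rw [Finset.mem_Icc] at hj
    omega
  · intro j hj
    rw [Finset.mem_Icc] at hj
    have h1 : yj N (N - j) = - yj N j := by
      have h := f1_N_mul hN
      unfold yj
      rw [Nat.cast_sub (by omega)]
      linarith
    unfold f1_g
    rw [h1]
    have h2 := f1_h_neg r (-yj N j) y
    rw [neg_neg] at h2
    rw [h2, ← chi_facts.2.2.2.2 ((y - -yj N j) / PP N)]
    congr 3
    ring
theorem RR_near {r : ℝ} {N : ℕ} (hN : 10 ≤ N) {j : ℕ} (hj : 1 ≤ j) (hj' : j ≤ N - 1) {y : ℝ}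
    (hy : |y - yj N j| ≤ PP N / 4) :
    RR r N y = GG r y - GG r (yj N j) - (y - yj N j) * deriv (GG r) (yj N j) := by
  have hP := f1_PP_pos hN
  rw [(f1_RR_single r hN hj hj' (by linarith)).1, f1_g, chi_facts.2.2.1, Complex.ofReal_one, one_mul]
  · rfl
  · rw [abs_div, abs_of_pos hP, div_le_iff₀ hP]
    linarith
theorem RR_bounds : ∃ C : ℝ, ∀ r : ℝ, 0 < r → r ≤ 1 / 100 → ∀ N : ℕ, 10 ≤ N → ∀ y : ℝ,
    ‖RR r N y‖ ≤ C * PP N ^ 2 ∧ ‖deriv (RR r N) y‖ ≤ C * PP N ∧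
      ‖deriv (deriv (RR r N)) y‖ ≤ C := by
  obtain ⟨M, hM, hb⟩ := f1_exists_M
  refine ⟨60 * M, fun r h0 h1 N hN y => ?_⟩
  have hP := f1_PP_pos hN
  have hP' := f1_PP_le hN
  have hYY := f1_YY_le
  by_cases h : ∀ j ∈ Finset.Icc 1 (N - 1), PP N / 2 ≤ |y - yj N j|
  · obtain ⟨e1, e2, e3⟩ := f1_RR_none r hN h
    rw [e1, e2, e3, norm_zero]
    refine ⟨?_, ?_, ?_⟩ <;> positivity
  · push Not at h
    obtain ⟨j, hj, hy⟩ := h
    rw [Finset.mem_Icc] at hj
    obtain ⟨e1, e2, e3⟩ := f1_RR_single r hN hj.1 hj.2 hy.le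
    rw [e1, e2, e3, f1_g_deriv, f1_g_deriv2]
    have hjb := f1_yj_bounds hN hj.1 hj.2
    have hyb : |y| ≤ 1 := by
      have := abs_sub_abs_le_abs_sub y (yj N j)
      linarith
    obtain ⟨k0, k1, k2⟩ := f1_h_bounds (y := y) h0 h1 (by linarith : |yj N j| ≤ 1) hyb
    obtain ⟨b0, b1, b2, -, -, -⟩ := hb ((y - yj N j) / PP N)
    refine f1_prod_bounds hP (by linarith) (abs_of_pos (by positivity)).le b0 b1 b2
      (k0.trans ?_) (k1.trans ?_) k2
    · gcongr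
    · gcongr

/-! ### the corrected boundary values -/

theorem f1_lV_side (r y : ℝ) : GG r y - lV r (1 + y * I) = f1_h r YY y := by
  obtain ⟨a, b, c, h⟩ := lV_affine r
  obtain ⟨h1, h2⟩ := GG_lV r
  have e : ∀ y : ℝ, lV r (1 + y * I) = (a + b + c) + y * (I * (b - c)) := fun y => by
    rw [h]
    have : conj (1 + y * I : ℂ) = 1 - y * I := by simp; ring
    rw [this]; ring
  have h3 : deriv (fun y : ℝ => lV r (1 + y * I)) 0 = I * (b - c) := by
    rw [funext e]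
    have h : HasDerivAt (fun y : ℝ => (y : ℂ)) 1 0 := Complex.ofRealCLM.hasDerivAt
    have e := (h.mul_const (I * (b - c))).const_add (a + b + c)
    rw [e.deriv, one_mul]
  rw [h2 0] at h3
  unfold f1_h
  rw [e y, h1, e YY, h3]
  ring

theorem f1_lVb_side (r y : ℝ) : GG r y - lVb r (1 + y * I) = f1_h r (-YY) y := by
  obtain ⟨a, b, c, h⟩ := lVb_affine r
  obtain ⟨h1, h2⟩ := GG_lVb r
  have e : ∀ y : ℝ, lVb r (1 + y * I) = (a + b + c) + y * (I * (b - c)) := fun y => by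
    rw [h]
    have : conj (1 + y * I : ℂ) = 1 - y * I := by simp; ring
    rw [this]; ring
  have h3 : deriv (fun y : ℝ => lVb r (1 + y * I)) 0 = I * (b - c) := by
    rw [funext e]
    have h : HasDerivAt (fun y : ℝ => (y : ℂ)) 1 0 := Complex.ofRealCLM.hasDerivAt
    have e := (h.mul_const (I * (b - c))).const_add (a + b + c)
    rw [e.deriv, one_mul]
  rw [h2 0] at h3
  unfold f1_h
  rw [e y, h1, e (-YY), h3]
  ring

/-- the cutoff parts at the two corners -/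
def f1_up (r : ℝ) (N : ℕ) (y : ℝ) : ℂ := (chi1 ((YY - y) / PP N) : ℂ) * f1_h r YY y
def f1_dn (r : ℝ) (N : ℕ) (y : ℝ) : ℂ := (chi1 ((YY + y) / PP N) : ℂ) * f1_h r (-YY) y

theorem f1_GN_eq (r : ℝ) (N : ℕ) (y : ℝ) :
    GN r N y = GG r y - f1_up r N y - f1_dn r N y - RR r N y := by
  unfold GN f1_up f1_dn
  rw [f1_lV_side, f1_lVb_side]

private theorem up_eq (r : ℝ) (N : ℕ) : f1_up r N = fun y : ℝ =>
    ((chi1 (YY / PP N + (-(1 / PP N)) * y) : ℝ) : ℂ) * f1_h r YY y := by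
  funext y
  unfold f1_up
  have e : (YY - y) / PP N = YY / PP N + (-(1 / PP N)) * y := by ring
  rw [e]

private theorem dn_eq (r : ℝ) (N : ℕ) : f1_dn r N = fun y : ℝ =>
    ((chi1 (YY / PP N + (1 / PP N) * y) : ℝ) : ℂ) * f1_h r (-YY) y := by
  funext y
  unfold f1_dn
  have e : (YY + y) / PP N = YY / PP N + (1 / PP N) * y := by ring
  rw [e]

theorem f1_contDiff_up (r : ℝ) (N : ℕ) : ContDiff ℝ ∞ (f1_up r N) := by
  rw [up_eq]
  have hl : ContDiff ℝ ∞ (fun y : ℝ => YY / PP N + (-(1 / PP N)) * y) := by fun_prop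
  exact (Complex.ofRealCLM.contDiff.comp (chi1_facts.1.comp hl)).mul (contDiff_f1_h r YY)

theorem f1_contDiff_dn (r : ℝ) (N : ℕ) : ContDiff ℝ ∞ (f1_dn r N) := by
  rw [dn_eq]
  have hl : ContDiff ℝ ∞ (fun y : ℝ => YY / PP N + (1 / PP N) * y) := by fun_prop
  exact (Complex.ofRealCLM.contDiff.comp (chi1_facts.1.comp hl)).mul (contDiff_f1_h r (-YY))

theorem contDiff_GN (r : ℝ) (N : ℕ) : ContDiff ℝ ∞ (GN r N) := by
  rw [funext (f1_GN_eq r N)]
  exact (((contDiff_GG r).sub (f1_contDiff_up r N)).sub (f1_contDiff_dn r N)).sub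
    (contDiff_RR r N)

theorem GN_near_void {r : ℝ} {N : ℕ} (hN : 10 ≤ N) {j : ℕ} (hj : 1 ≤ j) (hj' : j ≤ N - 1) {y : ℝ}
    (hy : |y - yj N j| ≤ PP N / 4) :
    GN r N y = GG r (yj N j) + (y - yj N j) * deriv (GG r) (yj N j) := by
  have hP := f1_PP_pos hN
  have hb := f1_yj_bounds hN hj hj'
  rw [abs_le] at hb
  have hy' := abs_le.1 hy
  have e1 : chi1 ((YY - y) / PP N) = 0 := chi1_facts.2.2.2 _ (by
    rw [le_div_iff₀ hP]; linarith [hb.1, hb.2, hy'.1, hy'.2])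
  have e2 : chi1 ((YY + y) / PP N) = 0 := chi1_facts.2.2.2 _ (by
    rw [le_div_iff₀ hP]; linarith [hb.1, hb.2, hy'.1, hy'.2])
  unfold GN
  rw [e1, e2, RR_near hN hj hj' hy]
  push_cast
  ring
theorem GN_top {r : ℝ} {N : ℕ} (hN : 10 ≤ N) {y : ℝ} (hy : YY - PP N / 4 ≤ y) :
    GN r N y = lV r (1 + y * I) := by
  have hP := f1_PP_pos hN
  have hP' := f1_PP_le hN
  have hY := f1_YY_ge
  have e1 : chi1 ((YY - y) / PP N) = 1 := chi1_facts.2.2.1 _ (by
    rw [div_le_iff₀ hP]; linarith)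
  have e2 : chi1 ((YY + y) / PP N) = 0 := chi1_facts.2.2.2 _ (by
    rw [le_div_iff₀ hP]; linarith)
  have e3 := (RR_zero (r := r) hN (y := y) (by
    rw [abs_of_nonneg (by linarith)]; linarith)).1
  unfold GN
  rw [e1, e2, e3]
  push_cast
  ring
theorem GN_bot {r : ℝ} {N : ℕ} (hN : 10 ≤ N) {y : ℝ} (hy : y ≤ -YY + PP N / 4) :
    GN r N y = lVb r (1 + y * I) := by
  have hP := f1_PP_pos hN
  have hP' := f1_PP_le hN
  have hY := f1_YY_ge
  have e1 : chi1 ((YY - y) / PP N) = 0 := chi1_facts.2.2.2 _ (by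
    rw [le_div_iff₀ hP]; linarith)
  have e2 : chi1 ((YY + y) / PP N) = 1 := chi1_facts.2.2.1 _ (by
    rw [div_le_iff₀ hP]; linarith)
  have e3 := (RR_zero (r := r) hN (y := y) (by
    rw [abs_of_nonpos (by linarith)]; linarith)).1
  unfold GN
  rw [e1, e2, e3]
  push_cast
  ring
theorem GN_odd {r : ℝ} {N : ℕ} (hN : 10 ≤ N) (y : ℝ) :
    GN r N y - GN r N (-y) = 2 * y * I * lam r := by
  rw [f1_GN_eq, f1_GN_eq, RR_even hN]
  have h1 := GG_odd r y
  have h2 : f1_up r N (-y) = f1_dn r N y := by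
    unfold f1_up f1_dn
    have := f1_h_neg r (-YY) y
    rw [neg_neg] at this
    rw [this, sub_neg_eq_add]
  have h3 : f1_dn r N (-y) = f1_up r N y := by
    unfold f1_up f1_dn
    rw [f1_h_neg, ← sub_eq_add_neg]
  rw [h2, h3]
  linear_combination h1

private theorem affine_deriv2 {f : ℝ → ℂ} {y : ℝ} {a b : ℂ}
    (h : f =ᶠ[nhds y] fun y => a + y * b) : deriv (deriv f) y = 0 := by
  have h1 : deriv f =ᶠ[nhds y] fun _ => b := by
    filter_upwards [h.eventuallyEq_nhds] with s hs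
    rw [hs.deriv_eq]
    have h : HasDerivAt (fun y : ℝ => (y : ℂ)) 1 s := Complex.ofRealCLM.hasDerivAt
    have e := (h.mul_const b).const_add a
    rw [e.deriv, one_mul]
  rw [h1.deriv_eq, deriv_const]

theorem GN_bounds : ∃ C : ℝ, ∀ r : ℝ, 0 < r → r ≤ 1 / 100 → ∀ N : ℕ, 10 ≤ N → ∀ y : ℝ,
    ‖deriv (deriv (GN r N)) y‖ ≤ C := by
  obtain ⟨M, hM, hb⟩ := f1_exists_M
  obtain ⟨C, hC⟩ := RR_bounds
  refine ⟨28 + 60 * M + 60 * M + C, fun r h0 h1 N hN y => ?_⟩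
  have hP := f1_PP_pos hN
  have hP' := f1_PP_le hN
  have hYY := f1_YY_le
  have hYY0 := YY_pos
  have hC0 : 0 ≤ C := (norm_nonneg _).trans (hC r h0 h1 N hN y).2.2
  have hlast : 0 ≤ 28 + 60 * M + 60 * M + C := by linarith
  by_cases hy : |y| ≤ 1
  · have e : deriv (deriv (GN r N)) y = deriv (deriv (GG r)) y - deriv (deriv (f1_up r N)) y -
        deriv (deriv (f1_dn r N)) y - deriv (deriv (RR r N)) y := by
      have d1 : deriv (GN r N) = fun y => deriv (GG r) y - deriv (f1_up r N) y -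
          deriv (f1_dn r N) y - deriv (RR r N) y := by
        funext y
        rw [funext (f1_GN_eq r N)]
        have a1 := ((contDiff_GG r).differentiable (by simp) y).hasDerivAt
        have a2 := ((f1_contDiff_up r N).differentiable (by simp) y).hasDerivAt
        have a3 := ((f1_contDiff_dn r N).differentiable (by simp) y).hasDerivAt
        have a4 := ((contDiff_RR r N).differentiable (by simp) y).hasDerivAt
        exact (((a1.sub a2).sub a3).sub a4).deriv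
      rw [d1]
      have a1 := ((f1_contDiff_deriv (contDiff_GG r)).differentiable (by simp) y).hasDerivAt
      have a2 := ((f1_contDiff_deriv (f1_contDiff_up r N)).differentiable (by simp) y).hasDerivAt
      have a3 := ((f1_contDiff_deriv (f1_contDiff_dn r N)).differentiable (by simp) y).hasDerivAt
      have a4 := ((f1_contDiff_deriv (contDiff_RR r N)).differentiable (by simp) y).hasDerivAt
      exact (((a1.sub a2).sub a3).sub a4).deriv
    have b1 : ‖deriv (deriv (GG r)) y‖ ≤ 28 := by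
      rw [← f1_deriv2_h r 0]
      exact (f1_h_bounds h0 h1 (by simp) hy).2.2
    have b4 := (hC r h0 h1 N hN y).2.2
    have key : ∀ (t b : ℝ) (F : ℝ → ℂ), |t| ≤ 1 → |b| ≤ 1 / PP N →
        (F = fun y : ℝ => ((chi1 (YY / PP N + b * y) : ℝ) : ℂ) * f1_h r t y) →
        (|y - t| ≤ PP N / 2 ∨ ((YY / PP N + b * y) ≤ 1 / 4 ∨ 1 / 2 ≤ (YY / PP N + b * y))) →
        ‖deriv (deriv F) y‖ ≤ 60 * M := by
      intro t b F ht hbb hF hcase
      rw [hF, f1_cut_deriv2 chi1_facts.1 (contDiff_f1_h r t)]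
      obtain ⟨-, -, -, b0, b1, b2⟩ := hb (YY / PP N + b * y)
      obtain ⟨k0, k1, k2⟩ := f1_h_bounds (y := y) h0 h1 ht hy
      rcases hcase with hc | hc
      · exact (f1_prod_bounds hP (by linarith) hbb b0 b1 b2 (k0.trans (by gcongr))
          (k1.trans (by gcongr)) k2).2.2
      · obtain ⟨z1, z2⟩ := f1_chi1_flat hc
        beta_reduce
        rw [z1, z2]
        simp only [mul_zero, Complex.ofReal_zero, zero_mul, zero_add]
        rw [norm_mul, Complex.norm_real, Real.norm_eq_abs]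
        calc _ ≤ M * 28 := by gcongr
          _ ≤ 60 * M := by linarith
    have habs : |1 / PP N| ≤ 1 / PP N := (abs_of_pos (by positivity)).le
    have hy2 := abs_le.1 hy
    have b2 : ‖deriv (deriv (f1_up r N)) y‖ ≤ 60 * M := by
      refine key YY (-(1 / PP N)) _ (by rw [abs_of_pos hYY0]; linarith)
        (by rw [abs_neg]; exact habs) (up_eq r N) ?_
      have e : YY / PP N + -(1 / PP N) * y = (YY - y) / PP N := by ring
      rw [e, le_div_iff₀ hP, div_le_iff₀ hP, abs_le]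
      by_contra hcon
      push Not at hcon
      obtain ⟨c1, c2, c3⟩ := hcon
      by_cases h5 : -(PP N / 2) ≤ y - YY
      · have := c1 h5
        linarith
      · push Not at h5
        linarith
    have b3 : ‖deriv (deriv (f1_dn r N)) y‖ ≤ 60 * M := by
      refine key (-YY) (1 / PP N) _ (by rw [abs_neg, abs_of_pos hYY0]; linarith) habs (dn_eq r N) ?_
      have e : YY / PP N + (1 / PP N) * y = (YY + y) / PP N := by ring
      rw [e, le_div_iff₀ hP, div_le_iff₀ hP, abs_le]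
      by_contra hcon
      push Not at hcon
      obtain ⟨c1, c2, c3⟩ := hcon
      by_cases h5 : -(PP N / 2) ≤ y - -YY
      · have := c1 h5
        linarith
      · push Not at h5
        linarith
    rw [e]
    refine (norm_sub_le _ _).trans ?_
    refine (add_le_add ((norm_sub_le _ _).trans (add_le_add (norm_sub_le _ _) le_rfl)) le_rfl).trans ?_
    linarith
  · push Not at hy
    rcases lt_abs.1 hy with h | h
    · obtain ⟨a, b, c, e⟩ := lV_affine r
      have : GN r N =ᶠ[nhds y] fun y => (a + b + c) + y * (I * (b - c)) := by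
        filter_upwards [Ioi_mem_nhds h] with s hs
        have hs' : 1 < s := hs
        rw [GN_top hN (by linarith), e]
        have : conj (1 + s * I : ℂ) = 1 - s * I := by simp; ring
        rw [this]; ring
      rw [affine_deriv2 this, norm_zero]
      exact hlast
    · obtain ⟨a, b, c, e⟩ := lVb_affine r
      have h' : y < -1 := by linarith
      have : GN r N =ᶠ[nhds y] fun y => (a + b + c) + y * (I * (b - c)) := by
        filter_upwards [Iio_mem_nhds h'] with s hs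
        have hs' : s < -1 := hs
        rw [GN_bot hN (by linarith), e]
        have : conj (1 + s * I : ℂ) = 1 - s * I := by simp; ring
        rw [this]; ring
      rw [affine_deriv2 this, norm_zero]
      exact hlast

end EBC
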