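import Pool.Agent.Work.MP_ebc928_an.HexGeomA

open MeasureTheory Complex Set
open scoped ContDiff ComplexConjugate

noncomputable section
namespace EBC

private theorem gB_s3 : Real.sqrt 3 * Real.sqrt 3 = 3 := Real.mul_self_sqrt (by norm_num)

private theorem gB_s3l : (1732 / 1000 : ℝ) < Real.sqrt 3 := by
  apply Real.lt_sqrt_of_sq_lt; norm_num
private theorem gB_s3u : Real.sqrt 3 < (1733 / 1000 : ℝ) := by
  rw [Real.sqrt_lt' (by norm_num)]; norm_num

private theorem gB_zne : zt ≠ 0 := by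
  intro h
  have := norm_zt
  rw [h] at this
  simp at this

private theorem gB_zt5 : zt ^ 5 = conj zt := by
  have h : zt ^ 5 * zt = conj zt * zt := by
    rw [mul_comm (conj zt), ← pow_succ, zt_six]
    simpa using (zt_mul_conj_pow 1).symm
  exact mul_right_cancel₀ gB_zne h

private theorem gB_re (k : ℕ) (w : ℂ) : (w * conj (zt ^ k)).re = xk k w := rfl
private theorem gB_im (k : ℕ) (w : ℂ) : (w * conj (zt ^ k)).im = yk k w + (xk k w - 1) / 7 := by
  rw [yk]; ring

theorem coord_x1 (k : ℕ) (w : ℂ) : xk (k + 1) w = 1 + (xk k w - 1) * (1 / 2 + Real.sqrt 3 / 14)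
      + Real.sqrt 3 / 2 * (yk k w - YY) := by
  have h := sqrt3_mul_YY
  rw [add_comm, (xk_rot 1 k w).1]
  have h1 : xk 1 (w * conj (zt ^ k)) = (w * conj (zt ^ k)).re / 2
      + Real.sqrt 3 / 2 * (w * conj (zt ^ k)).im := by
    simp [xk, zt]; ring
  rw [h1, gB_re, gB_im]
  linear_combination (1 / 2 : ℝ) * h

theorem coord_x5 (k : ℕ) (w : ℂ) : xk (k + 5) w = 1 + (xk k w - 1) * (1 / 2 - Real.sqrt 3 / 14)
      - Real.sqrt 3 / 2 * (yk k w + YY) := by
  have h := sqrt3_mul_YY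
  rw [add_comm, (xk_rot 5 k w).1]
  have h1 : xk 5 (w * conj (zt ^ k)) = (w * conj (zt ^ k)).re / 2
      - Real.sqrt 3 / 2 * (w * conj (zt ^ k)).im := by
    rw [xk, gB_zt5]; simp [zt]; ring
  rw [h1, gB_re, gB_im]
  linear_combination (1 / 2 : ℝ) * h

theorem coord_x2 (k : ℕ) (w : ℂ) : xk (k + 2) w = xk (k + 1) w - xk k w := by
  have : conj (zt ^ (k + 2)) = conj (zt ^ (k + 1)) - conj (zt ^ k) := by
    rw [← map_sub, pow_add, zt_sq, pow_succ]; ring_nf
  rw [xk, this, mul_sub, sub_re, gB_re, gB_re]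

theorem coord_x4 (k : ℕ) (w : ℂ) : xk (k + 4) w = xk (k + 5) w - xk k w := by
  have h1 := coord_x2 (k + 4) w
  have h2 := (xk_add_six k w).1
  have h3 : xk (k + 4 + 2) w = xk (k + 6) w := rfl
  have h4 : xk (k + 4 + 1) w = xk (k + 5) w := rfl
  rw [h3, h2, h4] at h1
  linarith

theorem coord_y1 (k : ℕ) (w : ℂ) : yk (k + 1) w = -YY + (yk k w - YY) * (1 / 2 - Real.sqrt 3 / 14)
      - (xk k w - 1) * (25 * Real.sqrt 3 / 49) := by
  have h := sqrt3_mul_YY
  have h3 := gB_s3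
  have hY := YY_sq
  have e : yk (k + 1) w = (w * conj (zt ^ (k + 1))).im - (xk (k + 1) w - 1) / 7 := rfl
  rw [e, coord_x1]
  have h1 : (w * conj (zt ^ (k + 1))).im = (w * conj (zt ^ k)).im / 2
      - Real.sqrt 3 / 2 * (w * conj (zt ^ k)).re := by
    have : w * conj (zt ^ (k + 1)) = w * conj (zt ^ k) * conj zt := by
      rw [pow_succ, map_mul]; ring
    rw [this]
    simp only [mul_im, conj_re, conj_im, zt]; ring
  rw [h1, gB_re, gB_im]
  have hs : Real.sqrt 3 = 3 * YY := by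
    have : Real.sqrt 3 * (Real.sqrt 3 * YY) = Real.sqrt 3 * 1 := by rw [h]
    rw [← mul_assoc, h3] at this
    linarith
  rw [hs]; ring_nf

theorem coord_y5 (k : ℕ) (w : ℂ) : yk (k + 5) w = YY + (yk k w + YY) * (1 / 2 + Real.sqrt 3 / 14)
      + (xk k w - 1) * (25 * Real.sqrt 3 / 49) := by
  have h := sqrt3_mul_YY
  have h3 := gB_s3
  have hY := YY_sq
  have e : yk (k + 5) w = (w * conj (zt ^ (k + 5))).im - (xk (k + 5) w - 1) / 7 := rfl
  rw [e, coord_x5]
  have h1 : (w * conj (zt ^ (k + 5))).im = (w * conj (zt ^ k)).im / 2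
      + Real.sqrt 3 / 2 * (w * conj (zt ^ k)).re := by
    have : w * conj (zt ^ (k + 5)) = w * conj (zt ^ k) * zt := by
      rw [pow_add, map_mul, gB_zt5, Complex.conj_conj]; ring
    rw [this]
    simp only [mul_im, zt]; ring
  rw [h1, gB_re, gB_im]
  have hs : Real.sqrt 3 = 3 * YY := by
    have : Real.sqrt 3 * (Real.sqrt 3 * YY) = Real.sqrt 3 * 1 := by rw [h]
    rw [← mul_assoc, h3] at this
    linarith
  rw [hs]; ring_nf

/-- points with all coordinates `≤ 1 + 2r/5` are interior to the Voronoi cell -/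
theorem vor_interior {r : ℝ} (h0 : 0 < r) (h1 : r ≤ 1 / 100) {w : ℂ}
    (h : ∀ k < 6, xk k w ≤ 1 + 2 / 5 * r) (k : ℕ) :
    (w * conj (zt ^ k * lam r)).re < ‖lam r‖ ^ 2 := by
  obtain ⟨k0, hk0, hmax⟩ := exists_max w
  have hn := norm_le_xk w hmax
  have hk0' := h k0 hk0
  have hx : xk k w ≤ 1 + 2 / 5 * r := by
    rw [← (xk_mod k w).1]; exact h _ (Nat.mod_lt _ (by norm_num))
  have e1 : w * conj (zt ^ k * lam r) = (w * conj (zt ^ k)) * conj (lam r) := by
    rw [map_mul]; ring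
  have hre : (lam r).re = 1 + r / 2 := by simp [lam, al]
  have him : (lam r).im = r / 14 := by simp [lam, al]; ring
  have hL : ‖lam r‖ ^ 2 = (1 + r / 2) ^ 2 + (r / 14) ^ 2 := by
    rw [← Complex.normSq_eq_norm_sq, Complex.normSq_apply, hre, him]; ring
  have him2 : (w * conj (zt ^ k)).im ≤ 6 / 5 * (1 + 2 / 5 * r) := by
    refine (Complex.im_le_norm _).trans ?_
    rw [norm_mul, RCLike.norm_conj, norm_pow, norm_zt, one_pow, mul_one]
    refine hn.trans ?_
    linarith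
  rw [e1, mul_re, conj_re, conj_im, hre, him, hL, gB_re]
  have h3 : (w * conj (zt ^ k)).im * (r / 14) ≤ 6 / 5 * (1 + 2 / 5 * r) * (r / 14) := by
    gcongr
  have h4 : xk k w * (1 + r / 2) ≤ (1 + 2 / 5 * r) * (1 + r / 2) := by
    gcongr
  nlinarith

/-! ### the voids -/

private theorem gB_cont_xk (k : ℕ) : Continuous (xk k) :=
  Complex.continuous_re.comp (continuous_id.mul continuous_const)
private theorem gB_cont_yk (k : ℕ) : Continuous (yk k) :=
  (Complex.continuous_im.comp (continuous_id.mul continuous_const)).sub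
    (((gB_cont_xk k).sub continuous_const).div_const _)

theorem isOpen_V6 {N : ℕ} (hN : 10 ≤ N) : IsOpen (V6 N) := by
  have : V6 N = ⋃ k ∈ {k : ℕ | k < 6},
      (({w | 1 < xk k w} ∩ ⋃ j ∈ {j : ℕ | 1 ≤ j ∧ j ≤ N - 1}, {w | |yk k w - yj N j| < PP N / 4}) ∪
      ({w | YY - PP N / 8 < yk k w} ∩ {w | yk (k + 1) w < -YY + PP N / 8})) := by
    ext w
    simp only [V6, Set.mem_ofPred_eq, Set.mem_iUnion, Set.mem_union, Set.mem_inter_iff, exists_prop]
    constructor
    · rintro ⟨k, hk, h⟩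
      refine ⟨k, hk, ?_⟩
      rcases h with ⟨h1, j, h2, h3, h4⟩ | h
      · exact Or.inl ⟨h1, j, ⟨h2, h3⟩, h4⟩
      · exact Or.inr h
    · rintro ⟨k, hk, h⟩
      refine ⟨k, hk, ?_⟩
      rcases h with ⟨h1, j, ⟨h2, h3⟩, h4⟩ | h
      · exact Or.inl ⟨h1, j, h2, h3, h4⟩
      · exact Or.inr h
  rw [this]
  refine isOpen_biUnion fun k _ => IsOpen.union (IsOpen.inter ?_ ?_) (IsOpen.inter ?_ ?_)
  · exact isOpen_lt continuous_const (gB_cont_xk k)
  · refine isOpen_biUnion fun j _ => ?_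
    exact isOpen_lt (((gB_cont_yk k).sub continuous_const).abs) continuous_const
  · exact isOpen_lt continuous_const (gB_cont_yk k)
  · exact isOpen_lt (gB_cont_yk (k + 1)) continuous_const

theorem isOpen_Vd {r : ℝ} (h0 : 0 < r) (h1 : r ≤ 1 / 100) {N : ℕ} (hN : 10 ≤ N) :
    IsOpen (Vd r N) := by
  have he : (Vd r N)ᶜ = ⋃ m : ℤ × ℤ, {z | z - lat r m ∈ Vor r ∧ z - lat r m ∉ V6 N} := by
    ext z
    simp only [Vd, Set.mem_compl_iff, Set.mem_ofPred_eq, Set.mem_iUnion]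
    push Not
    rfl
  rw [← isClosed_compl_iff, he]
  apply LocallyFinite.isClosed_iUnion
  · exact (vor_locallyFinite h0).subset fun m z hz => hz.1
  · intro m
    have hc : Continuous fun z : ℂ => z - lat r m := continuous_id.sub continuous_const
    exact ((isClosed_Vor r).preimage hc).inter (((isOpen_V6 hN).isClosed_compl).preimage hc)

private theorem gB_PP_pos {N : ℕ} (hN : 10 ≤ N) : 0 < PP N := by
  have : (0 : ℝ) < N := by exact_mod_cast (by omega : 0 < N)
  have := YY_pos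
  unfold PP; positivity

private theorem gB_N_PP {N : ℕ} (hN : 10 ≤ N) : (N : ℝ) * PP N = 2 * YY := by
  have : (N : ℝ) ≠ 0 := by
    have : (0 : ℝ) < N := by exact_mod_cast (by omega : 0 < N)
    exact this.ne'
  unfold PP; field_simp

private theorem gB_PP_le {N : ℕ} (hN : 10 ≤ N) : PP N ≤ YY / 5 := by
  have h1 := gB_N_PP hN
  have h2 := gB_PP_pos hN
  have h3 : (10 : ℝ) ≤ N := by exact_mod_cast hN
  nlinarith

private theorem gB_YY : (577 / 1000 : ℝ) < YY ∧ YY < 578 / 1000 := by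
  have h := YY_sq
  have hp := YY_pos
  constructor <;> nlinarith

theorem Vd_nonempty {r : ℝ} (h0 : 0 < r) (h1 : r ≤ 1 / 100) {N : ℕ} (hN : 10 ≤ N) :
    (Vd r N).Nonempty := by
  have hP := gB_PP_pos hN
  have hPl := gB_PP_le hN
  have hY := gB_YY
  have hs1 := gB_s3l
  have hs2 := gB_s3u
  set w : ℂ := 1 + (yj N 1 : ℝ) * I + ((r / 5 : ℝ) : ℂ) * al with hw
  obtain ⟨hx, hy⟩ := coord_eq (yj N 1) (r / 5)
  rw [← hw] at hx hy
  have hyj : yj N 1 = -YY + PP N := by simp [yj]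
  have hx1 := coord_x1 0 w
  have hx5 := coord_x5 0 w
  have hx2 := coord_x2 0 w
  have hx4 := coord_x4 0 w
  have hx3 := xk_add_three 0 w
  rw [hx, hy, hyj] at hx1 hx5
  simp only [zero_add] at hx1 hx2 hx3 hx4 hx5
  have hin : ∀ k < 6, xk k w ≤ 1 + 2 / 5 * r := by
    intro k hk
    interval_cases k
    · rw [hx]; linarith
    · rw [hx1]; nlinarith
    · rw [hx2, hx1, hx]; nlinarith
    · rw [hx3, hx]; linarith
    · rw [hx4, hx5, hx]; nlinarith
    · rw [hx5]; nlinarith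
  refine ⟨w, fun m hm => ?_⟩
  have hwV : w ∈ Vor r := fun k _ => (vor_interior h0 h1 hin k).le
  by_cases hm0 : m = 0
  · subst hm0
    have : w - lat r 0 = w := by simp [lat]
    rw [this]
    refine ⟨0, by norm_num, Or.inl ⟨by rw [hx]; linarith, 1, le_refl _, by omega, ?_⟩⟩
    rw [hy, sub_self, abs_zero]; linarith
  · exfalso
    obtain ⟨k, hk, -, τ, -, hτ⟩ := vor_side h0 h1 hm0 hwV hm
    have h2 := vor_interior h0 h1 hin k
    have h3 : w * conj (zt ^ k * lam r) = ((‖lam r‖ ^ 2 : ℝ) : ℂ) * (1 + τ * I) := by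
      have hl : lam r * conj (lam r) = ((‖lam r‖ ^ 2 : ℝ) : ℂ) := by
        rw [Complex.mul_conj, Complex.normSq_eq_norm_sq]
      rw [hτ, map_mul, ← hl]
      linear_combination (lam r * conj (lam r) * (1 + τ * I)) * zt_mul_conj_pow k
    rw [h3] at h2
    simp only [mul_re, ofReal_re, ofReal_im, zero_mul, sub_zero, add_re, one_re, I_re, mul_zero,
      I_im] at h2
    simp at h2

theorem Vd_per (r : ℝ) (N : ℕ) (z : ℂ) (m : ℤ × ℤ) : z + lat r m ∈ Vd r N ↔ z ∈ Vd r N := by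
  constructor
  · intro h m' hm'
    have e : z + lat r m - lat r (m + m') = z - lat r m' := by rw [lat_add]; ring
    have := h (m + m')
    rw [e] at this
    exact this hm'
  · intro h m' hm'
    have e : z + lat r m - lat r m' = z - lat r (m' + -m) := by rw [lat_add, lat_neg]; ring
    rw [e] at hm' ⊢
    exact h _ hm'

theorem Vd_solid {r : ℝ} (h0 : 0 < r) (h1 : r ≤ 1 / 100) {N : ℕ} (hN : 10 ≤ N) (m : ℤ × ℤ) :
    Metric.ball (lat r m) (1 / 2) ∩ Vd r N = ∅ := by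
  rw [Set.eq_empty_iff_forall_notMem]
  rintro z ⟨hz, hv⟩
  have hb : z - lat r m ∈ Metric.ball (0 : ℂ) (1 / 2) := by
    simpa [dist_eq_norm] using hz
  have h6 := hv m (ball_subset_Vor h0 h1 hb)
  set w := z - lat r m
  have hw : ‖w‖ < 1 / 2 := by simpa using hb
  have hP := gB_PP_pos hN
  have hPl := gB_PP_le hN
  have hY := gB_YY
  have hcn : ∀ k, ‖w * conj (zt ^ k)‖ = ‖w‖ := fun k => by
    rw [norm_mul, RCLike.norm_conj, norm_pow, norm_zt, one_pow, mul_one]
  obtain ⟨k, hk, h | ⟨ha, hb'⟩⟩ := h6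
  · have : xk k w ≤ ‖w‖ := by
      rw [← hcn k]; exact Complex.re_le_norm _
    linarith [h.1]
  · have e1 : yk k w - yk (k + 1) w = (w * conj (zt ^ k)).im - (w * conj (zt ^ (k + 1))).im
        - ((w * conj (zt ^ k)).re - (w * conj (zt ^ (k + 1))).re) / 7 := by
      simp only [yk, xk]; ring
    have e2 : w * conj (zt ^ k) - w * conj (zt ^ (k + 1)) = -(w * conj (zt ^ (k + 2))) := by
      have : conj (zt ^ (k + 2)) = conj (zt ^ (k + 1)) - conj (zt ^ k) := by
        rw [← map_sub, pow_add, zt_sq, pow_succ]; ring_nf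
      rw [this]; ring
    have e3 : (w * conj (zt ^ k)).im - (w * conj (zt ^ (k + 1))).im
        = (-(w * conj (zt ^ (k + 2)))).im := by rw [← sub_im, e2]
    have e4 : (w * conj (zt ^ k)).re - (w * conj (zt ^ (k + 1))).re
        = (-(w * conj (zt ^ (k + 2)))).re := by rw [← sub_re, e2]
    rw [e3, e4] at e1
    have e5 := Complex.abs_im_le_norm (-(w * conj (zt ^ (k + 2))))
    have e6 := Complex.abs_re_le_norm (-(w * conj (zt ^ (k + 2))))
    rw [norm_neg, hcn] at e5 e6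
    rw [abs_le] at e5 e6
    linarith [e5.2, e6.1]

/-- classification of the solid points of the Voronoi cell -/
theorem classify {r : ℝ} (h0 : 0 < r) (h1 : r ≤ 1 / 100) {N : ℕ} (hN : 10 ≤ N) {w : ℂ}
    (hw : w ∈ Vor r) (hv : w ∉ V6 N) : (∀ k < 6, xk k w ≤ 1) ∨
      ∃ k < 6, ∃ j < N, 1 ≤ xk k w ∧ xk k w ≤ 1 + 6 / 10 * r ∧
        |yk k w - ym N j| ≤ 3 / 8 * PP N := by
  obtain ⟨k, hk, hmax⟩ := exists_max w
  by_cases hx : xk k w ≤ 1
  · exact Or.inl fun j hj => (hmax j hj).trans hx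
  right
  push Not at hx
  have hP := gB_PP_pos hN
  have hPl := gB_PP_le hN
  have hNP := gB_N_PP hN
  have hY := gB_YY
  have hs1 := gB_s3l
  have hs2 := gB_s3u
  have h3 := gB_s3
  have hle : ∀ j, xk j w ≤ xk k w := fun j => by
    rw [← (xk_mod j w).1]; exact hmax _ (Nat.mod_lt _ (by norm_num))
  have hyY1 : yk k w ≤ YY - PP N / 8 := by
    by_contra hcon
    push Not at hcon
    apply hv
    refine ⟨k, hk, Or.inr ⟨hcon, ?_⟩⟩
    have a1 := hle (k + 1)
    rw [coord_x1] at a1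
    rw [coord_y1]
    set t := yk k w - YY
    set s := xk k w - 1 with hs
    have hs0 : 0 < s := by linarith
    have a2 : Real.sqrt 3 / 2 * t ≤ s * (1 / 2 - Real.sqrt 3 / 14) := by nlinarith
    have a3 : t ≤ s := by
      by_contra hc
      push Not at hc
      nlinarith
    nlinarith
  have hyY2 : -YY + PP N / 8 ≤ yk k w := by
    by_contra hcon
    push Not at hcon
    apply hv
    refine ⟨(k + 5) % 6, Nat.mod_lt _ (by norm_num), Or.inr ⟨?_, ?_⟩⟩
    · rw [(xk_mod (k + 5) w).2]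
      have a1 := hle (k + 5)
      rw [coord_x5] at a1
      rw [coord_y5]
      set t := -(yk k w + YY) with ht
      have ht' : yk k w + YY = -t := by rw [ht]; ring
      rw [ht'] at a1 ⊢
      set s := xk k w - 1 with hs
      have hs0 : 0 < s := by linarith
      have a2 : Real.sqrt 3 / 2 * t ≤ s * (1 / 2 + Real.sqrt 3 / 14) := by nlinarith
      have a3 : t ≤ s := by
        by_contra hc
        push Not at hc
        nlinarith
      nlinarith
    · have : yk ((k + 5) % 6 + 1) w = yk k w := by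
        rw [← (xk_mod ((k + 5) % 6 + 1) w).2, ← (xk_mod k w).2]
        congr 1
        omega
      rw [this]; exact hcon
  have hj : ∀ j, 1 ≤ j → j ≤ N - 1 → PP N / 4 ≤ |yk k w - yj N j| := by
    intro j hj1 hj2
    by_contra hcon
    push Not at hcon
    exact hv ⟨k, hk, Or.inl ⟨hx, j, hj1, hj2, hcon⟩⟩
  -- the strut
  set u : ℝ := (yk k w + YY) / PP N with hu
  have huy : yk k w = -YY + u * PP N := by rw [hu]; field_simp; ring
  have hu1 : 1 / 8 ≤ u := by
    rw [hu, le_div_iff₀ hP]; linarith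
  have hu2 : u ≤ N - 1 / 8 := by
    rw [hu, div_le_iff₀ hP]
    have : ((N : ℝ) - 1 / 8) * PP N = N * PP N - PP N / 8 := by ring
    rw [this, hNP]; linarith
  have hu0 : 0 ≤ u := by linarith
  have hf1 : (⌊u⌋₊ : ℝ) ≤ u := Nat.floor_le hu0
  have hf2 : u < (⌊u⌋₊ : ℝ) + 1 := Nat.lt_floor_add_one u
  have hjN : ⌊u⌋₊ < N := by
    have : (⌊u⌋₊ : ℝ) < N := by linarith
    exact_mod_cast this
  have hgap : ∀ j : ℕ, 1 ≤ j → j ≤ N - 1 → 1 / 4 ≤ |u - j| := by
    intro j hj1 hj2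
    have := hj j hj1 hj2
    have e : yk k w - yj N j = (u - j) * PP N := by rw [huy, yj]; ring
    rw [e, abs_mul, abs_of_pos hP] at this
    by_contra hcon
    push Not at hcon
    nlinarith
  have hlow : (1 / 8 : ℝ) ≤ u - ⌊u⌋₊ := by
    rcases Nat.eq_zero_or_pos ⌊u⌋₊ with hz | hz
    · rw [hz]; push_cast; linarith
    · have := hgap _ hz (by omega)
      rw [abs_of_nonneg (by linarith)] at this
      linarith
  have hup : u - ⌊u⌋₊ ≤ (7 / 8 : ℝ) := by
    by_cases hz : ⌊u⌋₊ + 1 ≤ N - 1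
    · have := hgap _ (by omega : 1 ≤ ⌊u⌋₊ + 1) hz
      push_cast at this
      rw [abs_of_nonpos (by linarith)] at this
      linarith
    · have : ⌊u⌋₊ + 1 = N := by omega
      have h' : ((⌊u⌋₊ : ℝ)) + 1 = N := by exact_mod_cast this
      linarith
  refine ⟨k, hk, ⌊u⌋₊, hjN, hx.le, vor_xk_le h0 h1 hw k, ?_⟩
  have e : yk k w - ym N ⌊u⌋₊ = (u - ⌊u⌋₊ - 1 / 2) * PP N := by rw [huy, ym]; ring
  rw [e, abs_mul, abs_of_pos hP]
  have : |u - ⌊u⌋₊ - 1 / 2| ≤ 3 / 8 := by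
    rw [abs_le]; constructor <;> linarith
  gcongr

/-- solid points are in a tile or in a strut `(m, k, j)`, `k ∈ {0,1,2}` -/
theorem classify' {r : ℝ} (h0 : 0 < r) (h1 : r ≤ 1 / 100) {N : ℕ} (hN : 10 ≤ N) {z : ℂ}
    (hv : z ∉ Vd r N) : (∃ m, ∀ k < 6, xk k (z - lat r m) ≤ 1) ∨
      ∃ m, ∃ k < 3, ∃ j < N, 1 ≤ xk k (z - lat r m) ∧ xk k (z - lat r m) ≤ 1 + r ∧
        |yk k (z - lat r m) - ym N j| ≤ 3 / 8 * PP N := by
  have hv' : ∃ m, z - lat r m ∈ Vor r ∧ z - lat r m ∉ V6 N := by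
    by_contra hcon
    push Not at hcon
    exact hv fun m hm => hcon m hm
  obtain ⟨m, hm1, hm2⟩ := hv'
  rcases classify h0 h1 hN hm1 hm2 with h | ⟨k, hk, j, hj, hx1, hx2, hy⟩
  · exact Or.inl ⟨m, h⟩
  right
  by_cases hk3 : k < 3
  · exact ⟨m, k, hk3, j, hj, hx1, by linarith, hy⟩
  obtain ⟨u, -, hu⟩ := lat_unit r k
  obtain ⟨e1, e2⟩ := xk_opp (r := r) k (z - lat r m)
  have e3 : z - lat r m - 2 * lam r * zt ^ k = z - lat r (m + u) := by
    rw [lat_add, hu]; ring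
  rw [e3] at e1 e2
  obtain ⟨k', rfl⟩ : ∃ k', k = k' + 3 := ⟨k - 3, by omega⟩
  rw [show k' + 3 + 3 = k' + 6 by ring] at e1 e2
  rw [(xk_add_six k' _).1] at e1
  rw [(xk_add_six k' _).2] at e2
  refine ⟨m + u, k', by omega, N - 1 - j, by omega, by linarith, by linarith, ?_⟩
  have hNP := gB_N_PP hN
  have e4 : ym N (N - 1 - j) = -ym N j := by
    have : ((N - 1 - j : ℕ) : ℝ) = N - 1 - j := by
      rw [Nat.cast_sub (by omega), Nat.cast_sub (by omega)]; push_cast; ring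
    rw [ym, ym, this]; linear_combination hNP
  rw [e2, e4, show -yk (k' + 3) (z - lat r m) - -ym N j = -(yk (k' + 3) (z - lat r m) - ym N j) by ring,
    abs_neg]
  exact hy

private theorem gB_others {w : ℂ} {k i : ℕ} (hk : k < 6) (hi : i < 6) (hik : i ≠ k) :
    (i = (k + 1) % 6 ∧ xk i w = xk (k + 1) w) ∨ xk i w = xk (k + 5) w ∨ xk i w = xk (k + 2) w ∨
      xk i w = xk (k + 3) w ∨ xk i w = xk (k + 4) w := by
  have key : ∀ d, i % 6 = (k + d) % 6 → xk i w = xk (k + d) w := fun d hd => by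
    rw [← (xk_mod i w).1, hd, (xk_mod (k + d) w).1]
  have h : i % 6 = (k + 1) % 6 ∨ i % 6 = (k + 5) % 6 ∨ i % 6 = (k + 2) % 6 ∨ i % 6 = (k + 3) % 6 ∨
      i % 6 = (k + 4) % 6 := by omega
  rcases h with h | h | h | h | h
  · exact Or.inl ⟨by omega, key _ h⟩
  · exact Or.inr (Or.inl (key _ h))
  · exact Or.inr (Or.inr (Or.inl (key _ h)))
  · exact Or.inr (Or.inr (Or.inr (Or.inl (key _ h))))
  · exact Or.inr (Or.inr (Or.inr (Or.inr (key _ h))))

/-- void points of the cell: which piece they are in -/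
theorem void_side {r : ℝ} (h0 : 0 < r) (h1 : r ≤ 1 / 100) {N : ℕ} (hN : 10 ≤ N) {w : ℂ}
    (hw : w ∈ Vor r) {k : ℕ} (hk : k < 6) (hx : 1 < xk k w) {j : ℕ} (hj : 1 ≤ j) (hj' : j ≤ N - 1)
    (hy : |yk k w - yj N j| < PP N / 4) : ∀ i < 6, i ≠ k → xk i w < xk k w := by
  have hP := gB_PP_pos hN
  have hNP := gB_N_PP hN
  have hs1 := gB_s3l
  have hs2 := gB_s3u
  rw [abs_lt, yj] at hy
  have hj1 : (1 : ℝ) ≤ j := by exact_mod_cast hj
  have hj2 : (j : ℝ) ≤ N - 1 := by
    have : j + 1 ≤ N := by omega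
    have : (j : ℝ) + 1 ≤ N := by exact_mod_cast this
    linarith
  have hy1 : -YY < yk k w := by nlinarith [hy.1]
  have hy2 : yk k w < YY := by nlinarith [hy.2]
  have e1 : xk (k + 1) w < xk k w := by
    rw [coord_x1]; nlinarith
  have e5 : xk (k + 5) w < xk k w := by
    rw [coord_x5]; nlinarith
  intro i hi hik
  rcases gB_others (w := w) hk hi hik with ⟨-, h⟩ | h | h | h | h
  · rw [h]; exact e1
  · rw [h]; exact e5
  · rw [h, coord_x2]; linarith
  · rw [h, xk_add_three]; linarith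
  · rw [h, coord_x4]; linarith

theorem void_corner {r : ℝ} (h0 : 0 < r) (h1 : r ≤ 1 / 100) {N : ℕ} (hN : 10 ≤ N) {w : ℂ}
    (hw : w ∈ Vor r) {k : ℕ} (hk : k < 6) (hy : YY - PP N / 8 < yk k w)
    (hy' : yk (k + 1) w < -YY + PP N / 8) :
    ∀ i < 6, i ≠ k → i ≠ (k + 1) % 6 → xk i w < max (xk k w) (xk (k + 1) w) := by
  have hP := gB_PP_pos hN
  have hPl := gB_PP_le hN
  have hY := gB_YY
  have hs1 := gB_s3l
  have hs2 := gB_s3u
  rw [coord_y1] at hy'
  have hx1 := coord_x1 k w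
  have hx5 : xk (k + 5) w = xk k w - xk (k + 1) w := by
    have a := coord_x4 k w
    have b := xk_add_three (k + 1) w
    have c : xk (k + 1 + 3) w = xk (k + 4) w := rfl
    rw [c] at b
    linarith
  have hs : -(3 / 10) < xk k w - 1 := by
    by_contra hcon
    push Not at hcon
    nlinarith
  have hx1p : 0 < xk (k + 1) w := by
    rw [hx1]; nlinarith
  have hx0p : 0 < xk k w := by linarith
  intro i hi hik hik'
  rcases gB_others (w := w) hk hi hik with ⟨h, -⟩ | h | h | h | h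
  · exact absurd h hik'
  · rw [h, hx5]; exact lt_max_of_lt_left (by linarith)
  · rw [h, coord_x2]; exact lt_max_of_lt_right (by linarith)
  · rw [h, xk_add_three]; exact lt_max_of_lt_left (by linarith)
  · rw [h, coord_x4, hx5]; exact lt_max_of_lt_left (by linarith)

end EBC
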