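import Pool.Agent.Work.MP_ebc928_an.HexGeomA

open MeasureTheory Complex Set
open scoped ContDiff ComplexConjugate

noncomputable section
namespace EBC

private theorem gC_s3 : Real.sqrt 3 * Real.sqrt 3 = 3 := Real.mul_self_sqrt (by norm_num)

private theorem gC_s3l : (1732 / 1000 : ℝ) < Real.sqrt 3 := by
  apply Real.lt_sqrt_of_sq_lt; norm_num
private theorem gC_s3u : Real.sqrt 3 < (17325 / 10000 : ℝ) := by
  rw [Real.sqrt_lt' (by norm_num)]; norm_num

private theorem gC_zne : zt ≠ 0 := by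
  intro h
  have := norm_zt
  rw [h] at this
  simp at this

private theorem gC_zt5 : zt ^ 5 = conj zt := by
  have h : zt ^ 5 * zt = conj zt * zt := by
    rw [mul_comm (conj zt), ← pow_succ, zt_six]
    simpa using (zt_mul_conj_pow 1).symm
  exact mul_right_cancel₀ gC_zne h

private theorem gC_re (k : ℕ) (w : ℂ) : (w * conj (zt ^ k)).re = xk k w := rfl
private theorem gC_im (k : ℕ) (w : ℂ) : (w * conj (zt ^ k)).im = yk k w + (xk k w - 1) / 7 := by
  rw [yk]; ring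

private theorem gC_x1 (k : ℕ) (w : ℂ) : xk (k + 1) w = 1 + (xk k w - 1) * (1 / 2 + Real.sqrt 3 / 14)
      + Real.sqrt 3 / 2 * (yk k w - YY) := by
  have h := sqrt3_mul_YY
  rw [add_comm, (xk_rot 1 k w).1]
  have h1 : xk 1 (w * conj (zt ^ k)) = (w * conj (zt ^ k)).re / 2
      + Real.sqrt 3 / 2 * (w * conj (zt ^ k)).im := by
    simp [xk, zt]; ring
  rw [h1, gC_re, gC_im]
  linear_combination (1 / 2 : ℝ) * h

private theorem gC_x5 (k : ℕ) (w : ℂ) : xk (k + 5) w = 1 + (xk k w - 1) * (1 / 2 - Real.sqrt 3 / 14)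
      - Real.sqrt 3 / 2 * (yk k w + YY) := by
  have h := sqrt3_mul_YY
  rw [add_comm, (xk_rot 5 k w).1]
  have h1 : xk 5 (w * conj (zt ^ k)) = (w * conj (zt ^ k)).re / 2
      - Real.sqrt 3 / 2 * (w * conj (zt ^ k)).im := by
    rw [xk, gC_zt5]; simp [zt]; ring
  rw [h1, gC_re, gC_im]
  linear_combination (1 / 2 : ℝ) * h

private theorem gC_x2 (k : ℕ) (w : ℂ) : xk (k + 2) w = xk (k + 1) w - xk k w := by
  have : conj (zt ^ (k + 2)) = conj (zt ^ (k + 1)) - conj (zt ^ k) := by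
    rw [← map_sub, pow_add, zt_sq, pow_succ]; ring_nf
  rw [xk, this, mul_sub, sub_re, gC_re, gC_re]

private theorem gC_x4 (k : ℕ) (w : ℂ) : xk (k + 4) w = xk (k + 5) w - xk k w := by
  have h1 := gC_x2 (k + 4) w
  have h2 := (xk_add_six k w).1
  have h3 : xk (k + 4 + 2) w = xk (k + 6) w := rfl
  have h4 : xk (k + 4 + 1) w = xk (k + 5) w := rfl
  rw [h3, h2, h4] at h1
  linarith

/-- the coordinates of the tile at the lattice point `2 λ ζ^k (a + b ζ̄)` -/
private theorem gC_tile (r : ℝ) (z : ℂ) (k a b : ℕ) :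
    xk (k + 3) (z - 2 * lam r * zt ^ k * (a + b * conj zt))
      = a * (2 + r) + b * (1 + r / 2 + Real.sqrt 3 / 14 * r) - xk k z := by
  have e : (z - 2 * lam r * zt ^ k * (a + b * conj zt)) * conj (zt ^ (k + 3))
      = 2 * lam r * (a + b * conj zt) - z * conj (zt ^ k) := by
    rw [pow_add, zt_cube]
    simp only [mul_neg, mul_one, map_neg]
    linear_combination (2 * lam r * (a + b * conj zt)) * zt_mul_conj_pow k
  rw [xk, e, sub_re, gC_re]
  congr 1
  simp [lam, al, zt]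
  ring

private theorem gC_tile1 (r : ℝ) (z : ℂ) (k : ℕ) :
    xk (k + 3) (z - 2 * lam r * zt ^ k) = 2 + r - xk k z := by
  have := gC_tile r z k 1 0
  simp only [Nat.cast_one, Nat.cast_zero, zero_mul, add_zero, mul_one, one_mul] at this
  exact this

private theorem gC_ex_lt6 (w : ℂ) (c : ℝ) (k : ℕ) (h : c ≤ xk k w) : ∃ i < 6, c ≤ xk i w :=
  ⟨k % 6, Nat.mod_lt _ (by norm_num), by rw [(xk_mod k w).1]; exact h⟩

/-! ### separation of tiles and gaps -/

theorem sep_tile {r : ℝ} (h0 : 0 < r) (h1 : r ≤ 1 / 100) {z : ℂ} (hz : ∀ k < 6, xk k z ≤ 1)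
    {m : ℤ × ℤ} (hm : m ≠ 0) : ∃ k < 6, 1 + r ≤ xk k (z - lat r m) := by
  obtain ⟨k, a, b, hk, ha, he⟩ := lat_sector r hm
  apply gC_ex_lt6 _ _ (k + 3)
  rw [he, gC_tile]
  have ha' : (1 : ℝ) ≤ a := by exact_mod_cast ha
  have hb' : (0 : ℝ) ≤ b := Nat.cast_nonneg b
  have hs := gC_s3l
  have := hz k hk
  have hb2 : 0 ≤ (b : ℝ) * (1 + r / 2 + Real.sqrt 3 / 14 * r) := by positivity
  nlinarith

private theorem gC_sector (r : ℝ) {m : ℤ × ℤ} (hm : m ≠ 0) (k : ℕ) : ∃ (i a b : ℕ), i < 6 ∧ 1 ≤ a ∧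
    lat r m = 2 * lam r * zt ^ (k + i) * (a + b * conj zt) := by
  obtain ⟨k0, a, b, hk, ha, he⟩ := lat_sector r hm
  refine ⟨(k0 + 6 - k % 6) % 6, a, b, Nat.mod_lt _ (by norm_num), ha, ?_⟩
  have hz : ∀ n : ℕ, zt ^ n = zt ^ (n % 6) := fun n => by
    conv_lhs => rw [← Nat.div_add_mod n 6, pow_add, pow_mul, zt_six, one_pow, one_mul]
  have : zt ^ (k + (k0 + 6 - k % 6) % 6) = zt ^ k0 := by
    rw [hz (k + _), hz k0]; congr 1; omega
  rw [this]; exact he

/-- which tiles are near a gap -/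
private theorem gC_near {r : ℝ} (h0 : 0 < r) (h1 : r ≤ 1 / 100) {z : ℂ} {k : ℕ}
    (h0' : 1 ≤ xk k z) (h1' : xk k z ≤ 1 + r) (hy : |yk k z| ≤ YY)
    {m : ℤ × ℤ} (hm : m ≠ 0) :
    lat r m = 2 * lam r * zt ^ k ∨
    (lat r m = 2 * lam r * zt ^ (k + 1) ∧ 1 + 3 / 8 * r ≤ xk (k + 4) (z - lat r m)) ∨
    (lat r m = 2 * lam r * zt ^ (k + 5) ∧ 1 + 3 / 8 * r ≤ xk (k + 2) (z - lat r m)) ∨
    ∃ i < 6, 3 / 2 ≤ xk i (z - lat r m) := by
  obtain ⟨i, a, b, hi, ha, he⟩ := gC_sector r hm k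
  have ht := gC_tile r z (k + i) a b
  rw [← he] at ht
  have ha' : (1 : ℝ) ≤ a := by exact_mod_cast ha
  have hb' : (0 : ℝ) ≤ b := Nat.cast_nonneg b
  have hs := gC_s3l
  have hs2 := gC_s3u
  rw [abs_le] at hy
  have x1 := gC_x1 k z
  have x5 := gC_x5 k z
  have x2 := gC_x2 k z
  have x3 := xk_add_three k z
  have x4 := gC_x4 k z
  have x1' : xk (k + 1) z ≤ 1 + 5 / 8 * r := by rw [x1]; nlinarith
  have x5' : xk (k + 5) z ≤ 1 + 5 / 8 * r := by rw [x5]; nlinarith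
  have x2' : xk (k + 2) z ≤ 0 := by rw [x2, x1]; nlinarith
  have x4' : xk (k + 4) z ≤ 0 := by rw [x4, x5]; nlinarith
  have hb2 : 0 ≤ (b : ℝ) * (1 + r / 2 + Real.sqrt 3 / 14 * r) := by positivity
  have hb3 : 0 ≤ (b : ℝ) * (r / 2 + Real.sqrt 3 / 14 * r) := by positivity
  have big : xk (k + i) z ≤ a * (2 + r) + b * (1 + r / 2 + Real.sqrt 3 / 14 * r) - 3 / 2 →
      ∃ i < 6, 3 / 2 ≤ xk i (z - lat r m) := by
    intro h
    apply gC_ex_lt6 _ _ (k + i + 3)
    rw [ht]; linarith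
  by_cases hab : a = 1 ∧ b = 0
  · obtain ⟨rfl, rfl⟩ := hab
    have he' : lat r m = 2 * lam r * zt ^ (k + i) := by rw [he]; push_cast; ring
    push_cast at ht big
    interval_cases i
    · exact Or.inl he'
    · refine Or.inr (Or.inl ⟨he', ?_⟩)
      have : xk (k + 1 + 3) (z - lat r m) = xk (k + 4) (z - lat r m) := rfl
      rw [← this, ht]; linarith
    · exact Or.inr (Or.inr (Or.inr (big (by linarith))))
    · exact Or.inr (Or.inr (Or.inr (big (by rw [x3]; linarith))))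
    · exact Or.inr (Or.inr (Or.inr (big (by linarith))))
    · refine Or.inr (Or.inr (Or.inl ⟨he', ?_⟩))
      have : xk (k + 5 + 3) (z - lat r m) = xk (k + 2) (z - lat r m) := (xk_add_six (k + 2) _).1
      rw [← this, ht]; linarith
  · refine Or.inr (Or.inr (Or.inr (big ?_)))
    have hx : xk (k + i) z ≤ 1 + r := by
      interval_cases i
      · exact h1'
      · linarith
      · linarith
      · rw [x3]; linarith
      · linarith
      · linarith
    rcases Nat.lt_or_ge 1 a with h2 | h2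
    · have : (2 : ℝ) ≤ a := by exact_mod_cast h2
      nlinarith
    · have hb1 : 1 ≤ b := by
        by_contra hb
        exact hab ⟨by omega, by omega⟩
      have : (1 : ℝ) ≤ b := by exact_mod_cast hb1
      nlinarith

theorem sep_gap {r : ℝ} (h0 : 0 < r) (h1 : r ≤ 1 / 100) {z : ℂ} {k : ℕ} (hk : k < 6)
    (h0' : 1 ≤ xk k z) (h1' : xk k z ≤ 1 + r) (hy : |yk k z| ≤ YY)
    {m : ℤ × ℤ} (hm : m ≠ 0) (hm' : lat r m ≠ 2 * lam r * zt ^ k) :
    ∃ i < 6, 1 + 3 / 8 * r ≤ xk i (z - lat r m) := by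
  rcases gC_near h0 h1 h0' h1' hy hm with h | ⟨-, h⟩ | ⟨-, h⟩ | ⟨i, hi, h⟩
  · exact absurd h hm'
  · exact gC_ex_lt6 _ _ _ h
  · exact gC_ex_lt6 _ _ _ h
  · exact ⟨i, hi, by linarith⟩

theorem sep_tile_gap {r : ℝ} (h0 : 0 < r) (h1 : r ≤ 1 / 100) {z : ℂ}
    (hz : ∀ k < 6, xk k z ≤ 1) (m : ℤ × ℤ) {k : ℕ} (hk : k < 6)
    (h0' : 0 < xk k (z - lat r m) - 1) (h1' : xk k (z - lat r m) - 1 < r) :
    YY ≤ |yk k (z - lat r m)| := by
  by_contra hcon
  push Not at hcon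
  have hz' : ∀ k, xk k z ≤ 1 := fun k => by
    rw [← (xk_mod k z).1]; exact hz _ (Nat.mod_lt _ (by norm_num))
  by_cases hm : m = 0
  · subst hm
    have e : z - lat r 0 = z := by simp [lat]
    rw [e] at h0'
    linarith [hz' k]
  have hm2 : -m ≠ 0 := neg_ne_zero.2 hm
  by_cases hl : lat r (-m) = 2 * lam r * zt ^ k
  · have e : z = z - lat r m - 2 * lam r * zt ^ k := by rw [← hl, lat_neg]; ring
    have h2 := gC_tile1 r (z - lat r m) k
    rw [← e] at h2
    linarith [hz' (k + 3)]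
  · obtain ⟨i, hi, h⟩ := sep_gap h0 h1 hk (by linarith) (by linarith) hcon.le hm2 hl
    have e : z - lat r m - lat r (-m) = z := by rw [lat_neg]; ring
    rw [e] at h
    linarith [hz' i]

/-- a point of the gap `(0, k)` -/
private def Gp (r : ℝ) (k : ℕ) (w : ℂ) : Prop := 1 ≤ xk k w ∧ xk k w ≤ 1 + r ∧ |yk k w| < YY

private theorem Gp_opp {r : ℝ} {k : ℕ} {w : ℂ} (h : Gp r k w) :
    Gp r (k + 3) (w - 2 * lam r * zt ^ k) := by
  obtain ⟨e1, e2⟩ := xk_opp (r := r) k w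
  refine ⟨by linarith [h.2.1], by linarith [h.1], ?_⟩
  rw [e2, abs_neg]; exact h.2.2

private theorem Gp_all {r : ℝ} (h0 : 0 < r) {k : ℕ} {w : ℂ} (h : Gp r k w) (j : ℕ) :
    xk j w ≤ 1 + r := by
  have hs := gC_s3l
  have hs2 := gC_s3u
  obtain ⟨h1, h2, hy⟩ := h
  rw [abs_lt] at hy
  have x1 := gC_x1 k w
  have x5 := gC_x5 k w
  have x2 := gC_x2 k w
  have x3 := xk_add_three k w
  have x4 := gC_x4 k w
  have x1' : xk (k + 1) w ≤ 1 + r := by rw [x1]; nlinarith
  have x5' : xk (k + 5) w ≤ 1 + r := by rw [x5]; nlinarith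
  have key : ∀ d, j % 6 = (k + d) % 6 → xk j w = xk (k + d) w := fun d hd => by
    rw [← (xk_mod j w).1, hd, (xk_mod (k + d) w).1]
  have h : j % 6 = (k + 0) % 6 ∨ j % 6 = (k + 1) % 6 ∨ j % 6 = (k + 5) % 6 ∨ j % 6 = (k + 2) % 6 ∨
      j % 6 = (k + 3) % 6 ∨ j % 6 = (k + 4) % 6 := by omega
  rcases h with h | h | h | h | h | h
  · rw [key _ h]; exact h2
  · rw [key _ h]; exact x1'
  · rw [key _ h]; exact x5'
  · rw [key _ h]; linarith
  · rw [key _ h]; linarith
  · rw [key _ h]; linarith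

private theorem Gp_next {r : ℝ} {k : ℕ} {w : ℂ} (h : Gp r k w) (h' : Gp r (k + 1) w) : False := by
  have hs := gC_s3l
  have hs2 := gC_s3u
  obtain ⟨h1, h2, hy⟩ := h
  obtain ⟨h1', h2', hy'⟩ := h'
  rw [abs_lt] at hy hy'
  have x1 := gC_x1 k w
  have x5 := gC_x5 (k + 1) w
  have e : xk (k + 1 + 5) w = xk k w := (xk_add_six k w).1
  rw [e] at x5
  nlinarith

private theorem Gp_same {r : ℝ} {k k' : ℕ} {w : ℂ} (h : Gp r k w) (h' : Gp r k' w) :
    k % 6 = k' % 6 := by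
  have hs := gC_s3l
  have hs2 := gC_s3u
  obtain ⟨h1, h2, hy⟩ := id h
  rw [abs_lt] at hy
  have x1 := gC_x1 k w
  have x5 := gC_x5 k w
  have x2 := gC_x2 k w
  have x3 := xk_add_three k w
  have x4 := gC_x4 k w
  have key : ∀ d, k' % 6 = (k + d) % 6 → Gp r (k + d) w := fun d hd => by
    unfold Gp at *
    rw [← (xk_mod (k + d) w).1, ← (xk_mod (k + d) w).2, ← hd, (xk_mod k' w).1, (xk_mod k' w).2]
    exact h'
  have hc : k' % 6 = k % 6 ∨ k' % 6 = (k + 1) % 6 ∨ k' % 6 = (k + 5) % 6 ∨ k' % 6 = (k + 2) % 6 ∨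
      k' % 6 = (k + 3) % 6 ∨ k' % 6 = (k + 4) % 6 := by omega
  rcases hc with hc | hc | hc | hc | hc | hc
  · exact hc.symm
  · exact (Gp_next h (key _ hc)).elim
  · exfalso
    refine Gp_next (key _ hc) ?_
    have e := xk_add_six k w
    unfold Gp
    rw [show k + 5 + 1 = k + 6 by ring, e.1, e.2]
    exact h
  · exfalso
    have := (key _ hc).1
    rw [x2, x1] at this
    nlinarith
  · exfalso
    have := (key _ hc).1
    linarith
  · exfalso
    have := (key _ hc).1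
    rw [x4, x5] at this
    nlinarith

/-- closed gaps, with their corners cut off, are disjoint -/
theorem sep_gap_gap {r : ℝ} (h0 : 0 < r) (h1 : r ≤ 1 / 100) {z : ℂ} {k k' : ℕ} (hk : k < 3)
    (hk' : k' < 3) {m : ℤ × ℤ} (hne : m ≠ 0 ∨ k' ≠ k)
    (hx0 : 1 ≤ xk k z) (hx1 : xk k z ≤ 1 + r) (hy : |yk k z| < YY)
    (hx0' : 1 ≤ xk k' (z - lat r m)) (hx1' : xk k' (z - lat r m) ≤ 1 + r)
    (hy' : |yk k' (z - lat r m)| < YY) : False := by
  have g1 : Gp r k z := ⟨hx0, hx1, hy⟩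
  have g1' := Gp_opp g1
  have g2 : Gp r k' (z - lat r m) := ⟨hx0', hx1', hy'⟩
  have g2' := Gp_opp g2
  obtain ⟨u, hu0, hu⟩ := lat_unit r k'
  have e2 : z - lat r m - 2 * lam r * zt ^ k' = z - lat r (m + u) := by rw [lat_add, hu]; ring
  rw [e2] at g2'
  have hlam : (2 * lam r) ≠ 0 := by
    intro h
    have : (2 * lam r).re = 0 := by rw [h]; simp
    simp [lam, al] at this
    linarith
  -- classification of the tiles near the gap
  have near : ∀ n : ℤ × ℤ, (∀ j, xk j (z - lat r n) ≤ 1 + r) → n ≠ 0 →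
      lat r n ≠ 2 * lam r * zt ^ k →
      lat r n = 2 * lam r * zt ^ (k + 1) ∨ lat r n = 2 * lam r * zt ^ (k + 5) := by
    intro n hn hn0 hnk
    rcases gC_near h0 h1 hx0 hx1 hy.le hn0 with h | ⟨h, -⟩ | ⟨h, -⟩ | ⟨i, hi, h⟩
    · exact absurd h hnk
    · exact Or.inl h
    · exact Or.inr h
    · exfalso; linarith [hn i]
  -- no shared tile
  have hA0 : m ≠ 0 := by
    intro h
    subst h
    have e : z - lat r 0 = z := by simp [lat]
    rw [e] at g2
    have := Gp_same g1 g2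
    rcases hne with hne | hne
    · exact hne rfl
    · exact hne (by omega)
  have hB0 : m + u ≠ 0 := by
    intro h
    rw [h] at g2'
    have e : z - lat r 0 = z := by simp [lat]
    rw [e] at g2'
    have := Gp_same g1 g2'
    omega
  have hA1 : lat r m ≠ 2 * lam r * zt ^ k := by
    intro h
    rw [h] at g2
    have := Gp_same g1' g2
    omega
  have hB1 : lat r (m + u) ≠ 2 * lam r * zt ^ k := by
    intro h
    rw [h] at g2'
    have := Gp_same g1' g2'
    have hkk : k = k' := by omega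
    apply hA0
    apply lat_injective h0
    have h3 : lat r (m + u) = lat r m + lat r u := lat_add r m u
    rw [h, hu, ← hkk] at h3
    have h4 : lat r m = 0 := by linear_combination -h3
    rw [h4]; simp [lat]
  have hz0 : ∀ n, zt ^ n ≠ 0 := fun n => pow_ne_zero _ gC_zne
  have hu' : lat r (m + u) = lat r m + 2 * lam r * zt ^ k' := by rw [lat_add, hu]
  have hdiff : zt ^ 5 - zt = -(Real.sqrt 3 : ℂ) * I := by
    rw [gC_zt5]
    apply Complex.ext <;> simp [zt]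
    ring
  have hnn : ‖zt ^ 5 - zt‖ = Real.sqrt 3 := by
    rw [hdiff]; simp [abs_of_nonneg (Real.sqrt_nonneg 3)]
  have hs := gC_s3l
  have hnp : ∀ n, ‖zt ^ n‖ = 1 := fun n => by rw [norm_pow, norm_zt, one_pow]
  rcases near m (Gp_all h0 g2) hA0 hA1 with hA | hA <;>
    rcases near (m + u) (Gp_all h0 g2') hB0 hB1 with hB | hB
  · rw [hB, hA] at hu'
    have : 2 * lam r * zt ^ k' = 0 := by linear_combination -hu'
    exact (mul_ne_zero hlam (hz0 _)) this
  · rw [hB, hA] at hu'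
    have h5 : zt ^ k' = zt ^ k * (zt ^ 5 - zt) := by
      apply mul_left_cancel₀ hlam
      rw [pow_add, pow_add] at hu'
      linear_combination -hu'
    have h6 := congrArg norm h5
    rw [norm_mul, hnn, hnp, hnp] at h6
    linarith
  · rw [hB, hA] at hu'
    have h5 : zt ^ k' = -(zt ^ k * (zt ^ 5 - zt)) := by
      apply mul_left_cancel₀ hlam
      rw [pow_add, pow_add] at hu'
      linear_combination -hu'
    have h6 := congrArg norm h5
    rw [norm_neg, norm_mul, hnn, hnp, hnp] at h6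
    linarith
  · rw [hB, hA] at hu'
    have : 2 * lam r * zt ^ k' = 0 := by linear_combination -hu'
    exact (mul_ne_zero hlam (hz0 _)) this

end EBC
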