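import Pool.Agent.Work.MP_ebc928_an.HexF1
import Pool.Agent.Work.MP_ebc928_an.Glue
import Pool.Agent.Work.MP_ebc928_an.HexGeom

/-! Matching of the pieces; the glued function `FF`. -/

open MeasureTheory Complex Set
open scoped ContDiff ComplexConjugate

noncomputable section
namespace EBC

/-! #### auxiliary: coordinates -/

theorem hf2_xk0 (w : ℂ) : xk 0 w = w.re := by simp [xk]
theorem hf2_yk0 (w : ℂ) : yk 0 w = w.im - (w.re - 1) / 7 := by simp [yk, xk]
theorem hf2_xk1 (w : ℂ) : xk 1 w = w.re / 2 + Real.sqrt 3 / 2 * w.im := by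
  simp [xk, zt]; ring
theorem hf2_yk1 (w : ℂ) : yk 1 w = w.im / 2 - Real.sqrt 3 / 2 * w.re
    - (w.re / 2 + Real.sqrt 3 / 2 * w.im - 1) / 7 := by
  simp [yk, xk, zt]; ring
theorem hf2_xk_two (k : ℕ) (w : ℂ) : xk (k + 2) w = xk (k + 1) w - xk k w := by
  have h : zt ^ (k + 2) = zt ^ (k + 1) - zt ^ k := by
    rw [pow_add, zt_sq, pow_succ]; ring
  simp only [xk, h, map_sub, mul_sub, Complex.sub_re]
theorem hf2_cont_xk (k : ℕ) : Continuous (xk k) := by
  unfold xk
  fun_prop
theorem hf2_cont_yk (k : ℕ) : Continuous (yk k) := by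
  unfold yk xk
  fun_prop

/-- the sets for all natural indices -/
def pS (k : ℕ) (b : Bool) : Set ℂ :=
  {w | (∀ j < 6, xk j w ≤ xk k w) ∧ (if b then 1 ≤ xk k w else xk k w ≤ 1)}
def pB (r : ℝ) (N : ℕ) (b : Bool) (w : ℂ) : ℂ := if b then Fout0 r N w else Fin0 r N w
def pF (r : ℝ) (N : ℕ) (k : ℕ) (b : Bool) (w : ℂ) : ℂ := zt ^ (2 * k) * pB r N b (w * conj (zt ^ k))

theorem pS_eq (i : Fin 6 × Bool) : pieceS i = pS i.1 i.2 := rfl
theorem pF_eq (r : ℝ) (N : ℕ) (i : Fin 6 × Bool) : pieceF r N i = pF r N i.1 i.2 := rfl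

theorem pS_six (k : ℕ) (b : Bool) : pS (k + 6) b = pS k b := by
  ext w
  simp [pS, (xk_add_six k w).1]
theorem pF_six (r : ℝ) (N : ℕ) (k : ℕ) (b : Bool) : pF r N (k + 6) b = pF r N k b := by
  ext w
  have h1 : zt ^ (2 * (k + 6)) = zt ^ (2 * k) := by
    rw [mul_add, pow_add, show 2 * 6 = 6 * 2 from rfl, pow_mul zt 6 2, zt_six]; simp
  have h2 : zt ^ (k + 6) = zt ^ k := by rw [pow_add, zt_six, mul_one]
  simp only [pF, h1, h2]

theorem xk_modF2 (k : ℕ) (w : ℂ) : xk (k % 6) w = xk k w := by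
  have key : ∀ n m : ℕ, xk (m + 6 * n) w = xk m w := by
    intro n
    induction n with
    | zero => intro m; simp
    | succ n ih => intro m; rw [show m + 6 * (n + 1) = (m + 6 * n) + 6 by ring, (xk_add_six _ w).1, ih]
  conv_rhs => rw [← Nat.mod_add_div k 6]
  rw [key]
theorem pS_mod (k : ℕ) (b : Bool) : pS (k % 6) b = pS k b := by
  ext w; simp only [pS, xk_modF2, mem_ofPred_eq]
theorem pF_mod (r : ℝ) (N : ℕ) (k : ℕ) (b : Bool) : pF r N (k % 6) b = pF r N k b := by
  have key : ∀ n m : ℕ, pF r N (m + 6 * n) b = pF r N m b := by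
    intro n
    induction n with
    | zero => intro m; simp
    | succ n ih => intro m; rw [show m + 6 * (n + 1) = (m + 6 * n) + 6 by ring, pF_six, ih]
  conv_rhs => rw [← Nat.mod_add_div k 6]
  rw [key]

/-- maximality in terms of all natural indices -/
theorem pS_max {k : ℕ} {b : Bool} {w : ℂ} (h : w ∈ pS k b) (j : ℕ) : xk j w ≤ xk k w := by
  rw [← xk_modF2 j w]; exact h.1 _ (Nat.mod_lt _ (by norm_num))

theorem mem_pS_rot {k j : ℕ} {b : Bool} {w : ℂ} :
    w ∈ pS (j + k) b ↔ w * conj (zt ^ k) ∈ pS j b := by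
  constructor
  · intro h
    refine ⟨fun i _ => ?_, ?_⟩
    · rw [← (xk_rot i k w).1, ← (xk_rot j k w).1]; exact pS_max h _
    · rw [← (xk_rot j k w).1]; exact h.2
  · intro h
    refine ⟨fun i hi => ?_, ?_⟩
    · have h5 : xk (i + 5 * k) (w * conj (zt ^ k)) = xk i w := by
        rw [← (xk_rot _ k w).1, ← xk_modF2, show i + 5 * k + k = i + 6 * k by ring,
          Nat.add_mul_mod_self_left, xk_modF2]
      rw [← h5, (xk_rot j k w).1]; exact pS_max h _
    · rw [(xk_rot j k w).1]; exact h.2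

theorem pF_rot (r : ℝ) (N : ℕ) (k j : ℕ) (b : Bool) (w : ℂ) :
    pF r N (j + k) b w = zt ^ (2 * k) * pF r N j b (w * conj (zt ^ k)) := by
  simp only [pF]
  rw [show w * conj (zt ^ k) * conj (zt ^ j) = w * conj (zt ^ (j + k)) by
    rw [pow_add, map_mul]; ring, mul_add, pow_add]
  ring

/-- the sector `0` -/
theorem sector_zero {b : Bool} {w : ℂ} (h : w ∈ pS 0 b) : 0 ≤ xk 1 w ∧ xk 1 w ≤ xk 0 w := by
  have h1 := pS_max h 1
  have h5 := pS_max h 5
  have e5 : xk 5 w = xk 0 w - xk 1 w := by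
    have a := hf2_xk_two 0 w
    have c := xk_add_three 2 w
    simp only [zero_add] at a
    norm_num at c
    rw [c, a]; ring
  rw [e5] at h5
  exact ⟨by linarith, h1⟩

theorem sector_zero_iff {w : ℂ} : (∀ j < 6, xk j w ≤ xk 0 w) ↔ 0 ≤ xk 1 w ∧ xk 1 w ≤ xk 0 w := by
  have e2 : xk 2 w = xk 1 w - xk 0 w := by simpa using hf2_xk_two 0 w
  have e3 : xk 3 w = - xk 0 w := by simpa using xk_add_three 0 w
  have e4 : xk 4 w = - xk 1 w := by simpa using xk_add_three 1 w
  have e5 : xk 5 w = xk 0 w - xk 1 w := by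
    have c := xk_add_three 2 w
    norm_num at c
    rw [c, e2]; ring
  constructor
  · intro h
    have h1 := h 1 (by norm_num)
    have h5 := h 5 (by norm_num)
    exact ⟨by linarith, h1⟩
  · rintro ⟨h1, h2⟩ j hj
    interval_cases j <;> linarith

theorem isClosed_pieceS (i : Fin 6 × Bool) : IsClosed (pieceS i) := by
  rw [pS_eq]
  have : pS i.1 i.2 = (⋂ j : Fin 6, {w | xk j w ≤ xk i.1 w}) ∩
      {w | if i.2 then 1 ≤ xk i.1 w else xk i.1 w ≤ 1} := by
    ext w
    simp only [pS, mem_ofPred_eq, mem_inter_iff, mem_iInter]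
    constructor
    · rintro ⟨a, c⟩; exact ⟨fun j => a j j.2, c⟩
    · rintro ⟨a, c⟩; exact ⟨fun j hj => a ⟨j, hj⟩, c⟩
  rw [this]
  refine IsClosed.inter (isClosed_iInter fun j => isClosed_le (hf2_cont_xk _) (hf2_cont_xk _)) ?_
  cases i.2
  · simpa using isClosed_le (hf2_cont_xk _) continuous_const
  · simpa using isClosed_le continuous_const (hf2_cont_xk _)

theorem xk_combo (k : ℕ) (a b : ℝ) (z w : ℂ) : xk k (a • z + b • w) = a * xk k z + b * xk k w := by
  simp [xk, add_mul, mul_assoc]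

theorem convex_pieceS (i : Fin 6 × Bool) : Convex ℝ (pieceS i) := by
  rw [pS_eq]
  intro z hz w hw a b ha hb hab
  refine ⟨fun j hj => ?_, ?_⟩
  · rw [xk_combo, xk_combo]
    have := hz.1 j hj
    have := hw.1 j hj
    gcongr
  · have h1 := hz.2
    have h2 := hw.2
    rw [xk_combo]
    cases hb' : i.2
    · simp only [hb', Bool.false_eq_true, if_false] at h1 h2 ⊢
      calc a * xk i.1 z + b * xk i.1 w ≤ a * 1 + b * 1 := by gcongr
        _ = 1 := by linarith
    · simp only [hb', if_true] at h1 h2 ⊢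
      calc 1 = a * 1 + b * 1 := by linarith
        _ ≤ a * xk i.1 z + b * xk i.1 w := by gcongr

theorem cover_pieceS : ⋃ i, pieceS i = univ := by
  ext w
  simp only [mem_iUnion, mem_univ, iff_true]
  obtain ⟨k, hk, h⟩ := exists_max w
  rcases le_total (xk k w) 1 with h1 | h1
  · exact ⟨(⟨k, hk⟩, false), h, by simpa using h1⟩
  · exact ⟨(⟨k, hk⟩, true), h, by simpa using h1⟩

/-! #### auxiliary: vanishing first jets -/

open Asymptotics Filter

/-- `F` vanishes to first order at `w` -/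
def ZJ (F : ℂ → ℂ) (w : ℂ) : Prop := F =o[nhds w] fun z => z - w

theorem ZJ.add {F G : ℂ → ℂ} {w : ℂ} (h1 : ZJ F w) (h2 : ZJ G w) : ZJ (fun z => F z + G z) w :=
  IsLittleO.add h1 h2
theorem ZJ.neg {F : ℂ → ℂ} {w : ℂ} (h1 : ZJ F w) : ZJ (fun z => - F z) w := IsLittleO.neg_left h1
theorem ZJ.sub {F G : ℂ → ℂ} {w : ℂ} (h1 : ZJ F w) (h2 : ZJ G w) : ZJ (fun z => F z - G z) w :=
  IsLittleO.sub h1 h2
theorem ZJ.of_eventually {F : ℂ → ℂ} {w : ℂ} (h : ∀ᶠ z in nhds w, F z = 0) : ZJ F w :=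
  (isLittleO_zero _ _).congr' (by filter_upwards [h] with z hz; exact hz.symm) (EventuallyEq.refl _ _)
theorem ZJ.congr {F G : ℂ → ℂ} {w : ℂ} (h1 : ZJ F w) (h : ∀ᶠ z in nhds w, F z = G z) : ZJ G w :=
  IsLittleO.congr' h1 h (EventuallyEq.refl _ _)
theorem ZJ.mul {F G : ℂ → ℂ} {w : ℂ} (h1 : ZJ F w) (h2 : ContinuousAt G w) :
    ZJ (fun z => G z * F z) w := by
  have h3 : G =O[nhds w] fun _ => (1 : ℂ) := h2.isBigO_one ℂ
  have := h3.mul_isLittleO h1
  simpa [ZJ] using this
theorem ZJ.val {F : ℂ → ℂ} {w : ℂ} (h : ZJ F w) : F w = 0 := by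
  have h1 := h.def one_pos
  have h2 := h1.self_of_nhds
  simpa using h2
theorem ZJ.hasFDerivAt {F : ℂ → ℂ} {w : ℂ} (h : ZJ F w) : HasFDerivAt F (0 : ℂ →L[ℝ] ℂ) w := by
  rw [hasFDerivAt_iff_isLittleO]
  refine h.congr_left fun z => ?_
  simp [h.val]
theorem ZJ.of_hasFDerivAt {F : ℂ → ℂ} {w : ℂ} (h0 : F w = 0)
    (h : HasFDerivAt F (0 : ℂ →L[ℝ] ℂ) w) : ZJ F w := by
  rw [hasFDerivAt_iff_isLittleO] at h
  refine h.congr_left fun z => ?_
  simp [h0]
theorem ZJ.comp_mul {F : ℂ → ℂ} {w u : ℂ} (h : ZJ F (w * u)) : ZJ (fun z => F (z * u)) w := by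
  have ht : Tendsto (fun z : ℂ => z * u) (nhds w) (nhds (w * u)) :=
    (continuous_id.mul continuous_const).tendsto w
  have h1 := h.comp_tendsto ht
  refine h1.trans_isBigO ?_
  refine IsBigO.of_bound ‖u‖ (Eventually.of_forall fun z => ?_)
  simp only [Function.comp_apply]
  rw [← sub_mul, norm_mul, mul_comm]
theorem ZJ.comp_zt {F : ℂ → ℂ} {w u c : ℂ} (h : ZJ F (w * u)) : ZJ (fun z => c * F (z * u)) w :=
  h.comp_mul.mul continuousAt_const

/-- same first jet -/
def MJ (F G : ℂ → ℂ) (w : ℂ) : Prop := ZJ (fun z => F z - G z) w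
theorem MJ.symm {F G : ℂ → ℂ} {w : ℂ} (h : MJ F G w) : MJ G F w := by
  have := ZJ.neg h
  exact this.congr (Eventually.of_forall fun z => by ring)
theorem MJ.refl (F : ℂ → ℂ) (w : ℂ) : MJ F F w :=
  ZJ.of_eventually (Eventually.of_forall fun z => by ring)
theorem MJ.trans {F G H : ℂ → ℂ} {w : ℂ} (h : MJ F G w) (h' : MJ G H w) : MJ F H w :=
  (ZJ.add h h').congr (Eventually.of_forall fun z => by ring)
theorem MJ.val {F G : ℂ → ℂ} {w : ℂ} (h : MJ F G w) : F w = G w :=
  sub_eq_zero.mp (ZJ.val (F := fun z => F z - G z) h)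
theorem MJ.fderiv_eq {F G : ℂ → ℂ} {w : ℂ} (h : MJ F G w) (hF : DifferentiableAt ℝ F w)
    (hG : DifferentiableAt ℝ G w) : fderiv ℝ F w = fderiv ℝ G w := by
  have h1 := (ZJ.hasFDerivAt h).fderiv
  rw [fderiv_fun_sub hF hG] at h1
  exact sub_eq_zero.mp h1
theorem MJ.of_eventually {F G : ℂ → ℂ} {w : ℂ} (h : ∀ᶠ z in nhds w, F z = G z) : MJ F G w :=
  ZJ.of_eventually (by filter_upwards [h] with z hz; rw [hz, sub_self])
theorem MJ.rot {F G : ℂ → ℂ} {w u c : ℂ} (h : MJ F G (w * u)) :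
    MJ (fun z => c * F (z * u)) (fun z => c * G (z * u)) w := by
  have := ZJ.comp_zt (c := c) h
  exact this.congr (Eventually.of_forall fun z => by ring)

theorem clm_ext_al {L M : ℂ →L[ℝ] ℂ} (h1 : L I = M I) (h2 : L al = M al) : L = M := by
  have e : (1 : ℂ) = al - (1 / 7 : ℝ) • I := by
    apply Complex.ext <;> simp [al]
  have h3 : L 1 = M 1 := by rw [e, map_sub, map_sub, map_smul, map_smul, h1, h2]
  refine ContinuousLinearMap.ext fun z => ?_
  have e : z = z.re • (1 : ℂ) + z.im • I := by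
    apply Complex.ext <;> simp
  rw [e, map_add, map_add, map_smul, map_smul, map_smul, map_smul, h3, h1]

/-- two smooth functions with the same directional behaviour -/
theorem MJ.of_dirs {F G : ℂ → ℂ} {w : ℂ} (hF : DifferentiableAt ℝ F w) (hG : DifferentiableAt ℝ G w)
    (h0 : F w = G w) (hI : fderiv ℝ F w I = fderiv ℝ G w I)
    (ha : fderiv ℝ F w al = fderiv ℝ G w al) : MJ F G w := by
  refine ZJ.of_hasFDerivAt (by simp [h0]) ?_
  have := hF.hasFDerivAt.sub hG.hasFDerivAt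
  rwa [clm_ext_al hI ha, sub_self] at this

/-! #### auxiliary: the side `x₀ = 1` -/

theorem hf2_zt5 : zt ^ 5 = conj zt := by
  have h : zt ^ 5 * zt = 1 := by rw [← pow_succ, zt_six]
  have h2 : conj zt * zt = 1 := by
    have := zt_mul_conj_pow 1
    simp only [pow_one] at this
    rw [mul_comm]; exact this
  have h3 : zt ≠ 0 := by
    intro h0; rw [h0] at h2; simp at h2
  exact mul_right_cancel₀ h3 (h.trans h2.symm)
theorem hf2_yk5 (w : ℂ) : yk 5 w = w.im / 2 + Real.sqrt 3 / 2 * w.re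
    - (w.re / 2 - Real.sqrt 3 / 2 * w.im - 1) / 7 := by
  simp only [yk, xk, hf2_zt5, Complex.conj_conj]
  simp [zt]; ring

theorem hf2_PP_pos {N : ℕ} (hN : 10 ≤ N) : 0 < PP N := by
  have : (0 : ℝ) < N := by exact_mod_cast (by omega : 0 < N)
  unfold PP; have := YY_pos; positivity
theorem hf2_PP_le {N : ℕ} (hN : 10 ≤ N) : PP N ≤ YY / 5 := by
  have h : (10 : ℝ) ≤ N := by exact_mod_cast hN
  unfold PP
  rw [div_le_iff₀ (by linarith)]
  have := YY_pos
  nlinarith
theorem hf2_YY_val : YY = Real.sqrt 3 / 3 := by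
  unfold YY
  have h : Real.sqrt 3 * Real.sqrt 3 = 3 := Real.mul_self_sqrt (by norm_num)
  have h0 : Real.sqrt 3 ≠ 0 := by positivity
  rw [div_eq_div_iff h0 (by norm_num)]; linarith
theorem hf2_sqrt3 : 1.732 < Real.sqrt 3 ∧ Real.sqrt 3 < 1.7321 := by
  constructor
  · rw [Real.lt_sqrt (by norm_num)]; norm_num
  · rw [Real.sqrt_lt' (by norm_num)]; norm_num
theorem hf2_YY_bd : 0.577 < YY ∧ YY < 0.578 := by
  rw [hf2_YY_val]
  have := hf2_sqrt3
  constructor <;> linarith

theorem hf2_line_I (w : ℂ) (t : ℝ) : xk 0 (w + t • I) = xk 0 w ∧ yk 0 (w + t • I) = yk 0 w + t := by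
  simp [hf2_xk0, hf2_yk0]; ring
theorem hf2_line_al (w : ℂ) (s : ℝ) : xk 0 (w + s • al) = xk 0 w + s ∧ yk 0 (w + s • al) = yk 0 w := by
  simp [hf2_xk0, hf2_yk0, al]; ring

theorem hf2_eq_of_x {w : ℂ} (h : xk 0 w = 1) : w = 1 + (yk 0 w : ℂ) * I := by
  have := eq_of_coord 0 w
  simpa [h] using this

theorem Fout0_diff (r : ℝ) (N : ℕ) (w : ℂ) : DifferentiableAt ℝ (Fout0 r N) w :=
  (contDiff_Fout0 r N).contDiffAt.differentiableAt (by simp)
theorem Fin0_diff (r : ℝ) (N : ℕ) (w : ℂ) : DifferentiableAt ℝ (Fin0 r N) w :=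
  (contDiff_Fin0 r N).contDiffAt.differentiableAt (by simp)

theorem Fout0_al (r : ℝ) (N : ℕ) (w : ℂ) : fderiv ℝ (Fout0 r N) w al = al * lam r := by
  rw [← (Fout0_diff r N w).lineDeriv_eq_fderiv]
  unfold lineDeriv
  have : (fun t : ℝ => Fout0 r N (w + t • al)) =
      fun t : ℝ => (GN r N (yk 0 w) + ((xk 0 w - 1 : ℝ) : ℂ) * (al * lam r)) + (t : ℂ) * (al * lam r) := by
    ext t
    simp only [Fout0, (hf2_line_al w t).1, (hf2_line_al w t).2]
    push_cast; ring
  rw [this]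
  have h : HasDerivAt (fun t : ℝ => (GN r N (yk 0 w) + ((xk 0 w - 1 : ℝ) : ℂ) * (al * lam r)) +
      (t : ℂ) * (al * lam r)) (1 * (al * lam r)) 0 :=
    ((Complex.ofRealCLM.hasDerivAt (x := (0 : ℝ))).mul_const _).const_add _
  rw [h.deriv, one_mul]

theorem chi1_one {t : ℝ} (h : t ≤ 1 / 4) : chi1 t = 1 := chi1_facts.2.2.1 t h
theorem chi1_zero {t : ℝ} (h : 1 / 2 ≤ t) : chi1 t = 0 := chi1_facts.2.2.2 t h

/-- on a neighbourhood of a point of the side, `XV`, `XVb` and the last cutoff simplify -/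
theorem hf2_side_near {r : ℝ} {N : ℕ} (hN : 10 ≤ N) {w : ℂ} (hx : xk 0 w = 1) (hy : |yk 0 w| ≤ YY) :
    ∀ᶠ z in nhds w, Fin0 r N z = lam r * Phi0 z
      - chi1 ((YY - yk 0 z) / PP N) * (lam r * Phi0 z - lV r z)
      - chi1 ((YY + yk 0 z) / PP N) * (lam r * Phi0 z - lVb r z) - RR r N (yk 0 z) := by
  have hP := hf2_PP_pos hN
  have hre : w.re = 1 := by rw [← hf2_xk0]; exact hx
  have hy0 : yk 0 w = w.im := by rw [hf2_yk0, hre]; ring
  rw [hy0] at hy
  obtain ⟨hy1, hy2⟩ := abs_le.mp hy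
  have hs := hf2_sqrt3
  have hss : Real.sqrt 3 * Real.sqrt 3 = 3 := Real.mul_self_sqrt (by norm_num)
  have hYv := hf2_YY_val
  have a1 : (YY + yk 1 w) / PP N < 1 / 4 := by
    rw [div_lt_iff₀ hP]
    have : YY + yk 1 w ≤ 0 := by
      rw [hf2_yk1, hre, hYv]
      have : w.im ≤ Real.sqrt 3 / 3 := by rw [← hYv]; exact hy2
      nlinarith
    nlinarith
  have a2 : (YY - yk 5 w) / PP N < 1 / 4 := by
    rw [div_lt_iff₀ hP]
    have : YY - yk 5 w ≤ 0 := by
      rw [hf2_yk5, hre, hYv]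
      have : -(Real.sqrt 3 / 3) ≤ w.im := by rw [← hYv]; exact hy1
      nlinarith
    nlinarith
  have a3 : (1 - xk 0 w) / PP N < 1 / 4 := by rw [hx]; simp
  have c1 : Continuous fun z => (YY + yk 1 z) / PP N := by have := hf2_cont_yk 1; fun_prop
  have c2 : Continuous fun z => (YY - yk 5 z) / PP N := by have := hf2_cont_yk 5; fun_prop
  have c3 : Continuous fun z => (1 - xk 0 z) / PP N := by have := hf2_cont_xk 0; fun_prop
  filter_upwards [c1.tendsto w |>.eventually (gt_mem_nhds a1), c2.tendsto w |>.eventually (gt_mem_nhds a2),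
    c3.tendsto w |>.eventually (gt_mem_nhds a3)] with z h1 h2 h3
  simp only [Fin0, XV, XVb, chi1_one h1.le, chi1_one h2.le, chi1_one h3.le, mul_one]
  push_cast; ring

theorem side_match {r : ℝ} {N : ℕ} (hN : 10 ≤ N) {w : ℂ} (hx : xk 0 w = 1) (hy : |yk 0 w| ≤ YY) :
    MJ (Fin0 r N) (Fout0 r N) w := by
  have hw := hf2_eq_of_x hx
  have near := hf2_side_near (r := r) hN hx hy
  have hval : ∀ z, xk 0 z = 1 → Fin0 r N z = lam r * Phi0 z
      - chi1 ((YY - yk 0 z) / PP N) * (lam r * Phi0 z - lV r z)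
      - chi1 ((YY + yk 0 z) / PP N) * (lam r * Phi0 z - lVb r z) - RR r N (yk 0 z) →
      Fin0 r N z = Fout0 r N z := by
    intro z hz h
    rw [h]
    have hz' := hf2_eq_of_x hz
    simp only [Fout0, GN, GG, hz, ← hz']
    push_cast; ring
  refine MJ.of_dirs (Fin0_diff r N w) (Fout0_diff r N w) (hval w hx near.self_of_nhds) ?_ ?_
  · rw [← (Fin0_diff r N w).lineDeriv_eq_fderiv, ← (Fout0_diff r N w).lineDeriv_eq_fderiv]
    unfold lineDeriv
    apply Filter.EventuallyEq.deriv_eq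
    have ht : Tendsto (fun t : ℝ => w + t • I) (nhds 0) (nhds w) := by
      have : Continuous fun t : ℝ => w + t • I := by fun_prop
      simpa using this.tendsto 0
    filter_upwards [ht.eventually near] with t h
    exact hval _ (by rw [(hf2_line_I w t).1, hx]) h
  · rw [Fout0_al, ← (Fin0_diff r N w).lineDeriv_eq_fderiv]
    unfold lineDeriv
    have ht : Tendsto (fun t : ℝ => w + t • al) (nhds 0) (nhds w) := by
      have : Continuous fun t : ℝ => w + t • al := by fun_prop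
      simpa using this.tendsto 0
    have e : (fun t : ℝ => Fin0 r N (w + t • al)) =ᶠ[nhds 0] fun t : ℝ =>
        lam r * Phi0 (w + t • al)
      - chi1 ((YY - yk 0 w) / PP N) * (lam r * Phi0 (w + t • al) - (lV r w + t * (al * lam r)))
      - chi1 ((YY + yk 0 w) / PP N) * (lam r * Phi0 (w + t • al) - (lVb r w + t * (al * lam r)))
      - RR r N (yk 0 w) := by
      filter_upwards [ht.eventually near] with t h
      rw [h, (hf2_line_al w t).2]
      have e1 : w + t • al = w + t * al := by simp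
      rw [← lV_add_al, ← lVb_add_al, ← e1]
    rw [e.deriv_eq]
    have hPhi : HasDerivAt (fun t : ℝ => Phi0 (w + t • al)) al 0 := by
      have h1 : HasFDerivAt Phi0 (fderiv ℝ Phi0 w) w :=
        (contDiff_Phi0.contDiffAt.differentiableAt (by simp)).hasFDerivAt
      have h2 : HasDerivAt (fun t : ℝ => w + t • al) al 0 := by
        simpa using ((hasDerivAt_id (0 : ℝ)).smul_const al).const_add w
      have h3 := HasFDerivAt.comp_hasDerivAt_of_eq (0 : ℝ) h1 h2 (by simp)
      have h4 : fderiv ℝ Phi0 w al = al := by rw [hw]; exact Phi0_al _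
      rw [h4] at h3
      exact h3
    have hid : HasDerivAt (fun t : ℝ => (t : ℂ) * (al * lam r)) (1 * (al * lam r)) 0 :=
      (Complex.ofRealCLM.hasDerivAt (x := (0 : ℝ))).mul_const _
    have hA := hPhi.const_mul (lam r)
    have := (((hA.sub ((hA.sub (hid.const_add (lV r w))).const_mul
      (chi1 ((YY - yk 0 w) / PP N) : ℂ))).sub ((hA.sub (hid.const_add (lVb r w))).const_mul
      (chi1 ((YY + yk 0 w) / PP N) : ℂ)))).sub_const (RR r N (yk 0 w))
    refine (HasDerivAt.deriv this).trans ?_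
    ring

/-! #### auxiliary: the seam `x₀ = x₁` -/

/-- real coordinates of a seam point -/
theorem hf2_seam {w : ℂ} (h : xk 0 w = xk 1 w) : w.im = YY * xk 0 w := by
  rw [hf2_xk0, hf2_xk1] at h
  rw [hf2_xk0, hf2_YY_val]
  have hss : Real.sqrt 3 * Real.sqrt 3 = 3 := Real.mul_self_sqrt (by norm_num)
  have h2 : Real.sqrt 3 * w.im = w.re := by linarith
  calc w.im = (Real.sqrt 3 * Real.sqrt 3) * w.im / 3 := by rw [hss]; ring
    _ = Real.sqrt 3 * (Real.sqrt 3 * w.im) / 3 := by ring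
    _ = Real.sqrt 3 / 3 * w.re := by rw [h2]; ring
theorem hf2_seam_y0 {w : ℂ} (h : xk 0 w = xk 1 w) : yk 0 w = YY * xk 0 w + (1 - xk 0 w) / 7 := by
  rw [hf2_yk0, hf2_seam h, hf2_xk0]; ring
theorem hf2_seam_y1 {w : ℂ} (h : xk 0 w = xk 1 w) : yk 1 w = -(YY * xk 0 w) + (1 - xk 0 w) / 7 := by
  have h1 := hf2_seam h
  have h2 : w.re / 2 + Real.sqrt 3 / 2 * w.im = w.re := by rw [← hf2_xk1, ← hf2_xk0, h]
  rw [hf2_yk1, h2, h1, hf2_xk0, hf2_YY_val]
  ring
theorem hf2_seam_conj {w : ℂ} (h : xk 0 w = xk 1 w) : w - zt * conj w = 0 := by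
  have h1 := hf2_seam h
  rw [hf2_xk0] at h1
  have hss : Real.sqrt 3 * Real.sqrt 3 = 3 := Real.mul_self_sqrt (by norm_num)
  apply Complex.ext
  · simp [zt, h1, hf2_YY_val]
    linear_combination (-(1 : ℝ) / 6) * w.re * hss
  · simp [zt, h1, hf2_YY_val]
    ring

theorem XVb_rot (N : ℕ) (w : ℂ) : XVb N (w * conj zt) = XV N w := by
  have a := (xk_rot 0 1 w).2
  have b := (xk_rot 5 1 w).2
  simp only [pow_one, zero_add] at a b
  norm_num at b
  have c := (xk_add_six 0 w).2
  norm_num at c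
  simp only [XVb, XV]
  rw [← a, ← b, c, mul_comm]

theorem hf2_RR_ZJ {r : ℝ} {N : ℕ} (hN : 10 ≤ N) {w : ℂ} (k : ℕ)
    (h : 1 - xk k w ≤ PP N / 2 → YY - PP N / 2 ≤ |yk k w|) :
    ZJ (fun z => (chi1 ((1 - xk k z) / PP N) : ℂ) * RR r N (yk k z)) w := by
  have hP := hf2_PP_pos hN
  by_cases h1 : 1 - xk k w ≤ PP N / 2
  · obtain ⟨e0, e1⟩ := RR_zero (r := r) hN (h h1)
    have hd : HasDerivAt (RR r N) (deriv (RR r N) (yk k w)) (yk k w) :=
      ((contDiff_RR r N).contDiffAt.differentiableAt (by simp)).hasDerivAt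
    rw [e1] at hd
    have hRR : RR r N =o[nhds (yk k w)] fun y => y - yk k w := by
      have := hasDerivAt_iff_isLittleO.mp hd
      refine this.congr_left fun y => ?_
      simp [e0]
    have hc : Tendsto (yk k) (nhds w) (nhds (yk k w)) := (hf2_cont_yk k).tendsto w
    have h2 := hRR.comp_tendsto hc
    have hO : (fun z => yk k z - yk k w) =O[nhds w] fun z => z - w := by
      refine IsBigO.of_bound (‖(zt ^ k)‖ * 2) (Eventually.of_forall fun z => ?_)
      have e : yk k z - yk k w = ((z - w) * conj (zt ^ k)).im - ((z - w) * conj (zt ^ k)).re / 7 := by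
        simp only [yk, xk, sub_mul, Complex.sub_im, Complex.sub_re]; ring
      rw [e]
      have a1 := Complex.abs_im_le_norm ((z - w) * conj (zt ^ k))
      have a2 := Complex.abs_re_le_norm ((z - w) * conj (zt ^ k))
      have a3 : ‖(z - w) * conj (zt ^ k)‖ = ‖zt ^ k‖ * ‖z - w‖ := by
        rw [norm_mul, Complex.norm_conj, mul_comm]
      rw [a3] at a1 a2
      rw [Real.norm_eq_abs]
      have := abs_sub ((z - w) * conj (zt ^ k)).im (((z - w) * conj (zt ^ k)).re / 7)
      rw [abs_div] at this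
      have h7 : |(7 : ℝ)| = 7 := by norm_num
      rw [h7] at this
      have := norm_nonneg (zt ^ k)
      have := norm_nonneg (z - w)
      nlinarith [mul_nonneg (norm_nonneg (zt ^ k)) (norm_nonneg (z - w))]
    have h3 : ZJ (fun z => RR r N (yk k z)) w := h2.trans_isBigO hO
    refine h3.mul (G := fun z => (chi1 ((1 - xk k z) / PP N) : ℂ)) ?_
    have := chi1_facts.1.continuous
    have := hf2_cont_xk k
    exact (by fun_prop : Continuous fun z => (chi1 ((1 - xk k z) / PP N) : ℂ)).continuousAt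
  · push Not at h1
    apply ZJ.of_eventually
    have a : 1 / 2 < (1 - xk k w) / PP N := by rw [lt_div_iff₀ hP]; linarith
    have c : Continuous fun z => (1 - xk k z) / PP N := by have := hf2_cont_xk k; fun_prop
    filter_upwards [c.tendsto w |>.eventually (lt_mem_nhds a)] with z hz
    rw [chi1_zero hz.le]; simp

theorem seam_in {r : ℝ} {N : ℕ} (hN : 10 ≤ N) {w : ℂ} (hx : xk 0 w = xk 1 w) (h0 : 0 ≤ xk 0 w)
    (h1 : xk 0 w ≤ 1) : MJ (Fin0 r N) (fun z => zt ^ 2 * Fin0 r N (z * conj zt)) w := by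
  have hP := hf2_PP_pos hN
  have hP2 := hf2_PP_le hN
  obtain ⟨hY1, hY2⟩ := hf2_YY_bd
  have y0 := hf2_seam_y0 hx
  have y1 := hf2_seam_y1 hx
  obtain ⟨q, hq, hseam⟩ := Phi0_seam
  -- `XVb` vanishes near `w`
  have b1 : 1 / 2 < (YY + yk 0 w) / PP N := by
    rw [lt_div_iff₀ hP, y0]; nlinarith
  have b2 : 1 / 2 < (YY - yk 1 w) / PP N := by
    rw [lt_div_iff₀ hP, y1]; nlinarith
  have c1 : Continuous fun z => (YY + yk 0 z) / PP N := by have := hf2_cont_yk 0; fun_prop
  have c2 : Continuous fun z => (YY - yk 1 z) / PP N := by have := hf2_cont_yk 1; fun_prop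
  have eXVb : ∀ᶠ z in nhds w, XVb N z = 0 := by
    filter_upwards [c1.tendsto w |>.eventually (lt_mem_nhds b1)] with z hz
    simp only [XVb, chi1_zero hz.le, zero_mul]
  have eXV : ∀ᶠ z in nhds w, XV N (z * conj zt) = 0 := by
    filter_upwards [c2.tendsto w |>.eventually (lt_mem_nhds b2)] with z hz
    have a := (xk_rot 0 1 z).2
    simp only [pow_one, zero_add] at a
    simp only [XV, ← a, chi1_zero hz.le, zero_mul]
  have z1 : ZJ (fun z => (chi1 ((1 - xk 0 z) / PP N) : ℂ) * RR r N (yk 0 z)) w := by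
    apply hf2_RR_ZJ hN
    intro h
    rw [y0]
    refine le_trans ?_ (le_abs_self _)
    nlinarith
  have z2 : ZJ (fun z => (chi1 ((1 - xk 1 z) / PP N) : ℂ) * RR r N (yk 1 z)) w := by
    apply hf2_RR_ZJ hN
    rw [← hx]
    intro h
    rw [y1]
    refine le_trans ?_ (neg_le_abs _)
    nlinarith
  have z3 : ZJ (fun z => (z - zt * conj z) ^ 2) w := by
    have hs : w - zt * conj w = 0 := hf2_seam_conj hx
    have hO : (fun z => z - zt * conj z) =O[nhds w] fun z => z - w := by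
      refine IsBigO.of_bound 2 (Eventually.of_forall fun z => ?_)
      have e : z - zt * conj z = (z - w) - zt * conj (z - w) := by
        rw [map_sub]; linear_combination hs
      rw [e]
      calc ‖(z - w) - zt * conj (z - w)‖ ≤ ‖z - w‖ + ‖zt * conj (z - w)‖ := norm_sub_le _ _
        _ = 2 * ‖z - w‖ := by rw [norm_mul, norm_zt, Complex.norm_conj]; ring
    have ho : (fun z => z - zt * conj z) =o[nhds w] fun _ => (1 : ℂ) := by
      rw [isLittleO_one_iff]
      have : Continuous fun z : ℂ => z - zt * conj z := by fun_prop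
      simpa [hs] using this.tendsto w
    have := hO.mul_isLittleO ho
    refine (this.congr_left fun z => ?_).congr_right fun z => ?_
    · ring
    · ring
  have z4 : ZJ (fun z => ((1 - XV N z : ℝ) : ℂ) * lam r * q z * (z - zt * conj z) ^ 2) w := by
    refine z3.mul (G := fun z => ((1 - XV N z : ℝ) : ℂ) * lam r * q z) ?_
    have := chi1_facts.1.continuous
    have := hf2_cont_yk 0
    have := hf2_cont_yk 1
    have := hq.continuous
    unfold XV
    exact (by fun_prop : Continuous fun z => ((1 - (chi1 ((YY - yk 0 z) / PP N) *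
      chi1 ((YY + yk 1 z) / PP N)) : ℝ) : ℂ) * lam r * q z).continuousAt
  have z5 : ZJ (fun z => zt ^ 2 * ((chi1 ((1 - xk 1 z) / PP N) : ℂ) * RR r N (yk 1 z))) w :=
    z2.mul continuousAt_const
  have := (z4.sub z1).add z5
  refine this.congr ?_
  filter_upwards [eXVb, eXV] with z h3 h4
  have a := xk_rot 0 1 z
  simp only [pow_one, zero_add] at a
  have hl := lV_lVb r z
  have hs := hseam z
  simp only [Fin0, h3, h4, XVb_rot, ← a.1, ← a.2, hl]
  push_cast
  linear_combination (-(1 - (XV N z : ℂ)) * lam r) * hs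

/-- outside pieces near the corners -/
theorem Fout0_top {r : ℝ} {N : ℕ} (hN : 10 ≤ N) {z : ℂ} (h : YY - PP N / 4 ≤ yk 0 z) :
    Fout0 r N z = lV r z := by
  have e := eq_of_coord 0 z
  simp only [pow_zero, one_mul] at e
  conv_rhs => rw [e]
  rw [lV_add_al, Fout0, GN_top hN h]
theorem Fout0_bot {r : ℝ} {N : ℕ} (hN : 10 ≤ N) {z : ℂ} (h : yk 0 z ≤ -YY + PP N / 4) :
    Fout0 r N z = lVb r z := by
  have e := eq_of_coord 0 z
  simp only [pow_zero, one_mul] at e
  conv_rhs => rw [e]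
  rw [lVb_add_al, Fout0, GN_bot hN h]
theorem Fin0_top {r : ℝ} {N : ℕ} (hN : 10 ≤ N) {z : ℂ} (h : YY - PP N / 4 ≤ yk 0 z)
    (h' : yk 1 z ≤ -YY + PP N / 4) : Fin0 r N z = lV r z := by
  have hP := hf2_PP_pos hN
  have hP2 := hf2_PP_le hN
  have hY := YY_pos
  have a1 : chi1 ((YY - yk 0 z) / PP N) = 1 := chi1_one (by rw [div_le_iff₀ hP]; linarith)
  have a2 : chi1 ((YY + yk 1 z) / PP N) = 1 := chi1_one (by rw [div_le_iff₀ hP]; linarith)
  have a3 : chi1 ((YY + yk 0 z) / PP N) = 0 := chi1_zero (by rw [le_div_iff₀ hP]; linarith)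
  have a4 : RR r N (yk 0 z) = 0 := (RR_zero hN (le_trans (by linarith) (le_abs_self _))).1
  simp only [Fin0, XV, XVb, a1, a2, a3, a4]
  push_cast; ring
theorem Fin0_bot {r : ℝ} {N : ℕ} (hN : 10 ≤ N) {z : ℂ} (h : yk 0 z ≤ -YY + PP N / 4)
    (h' : YY - PP N / 4 ≤ yk 5 z) : Fin0 r N z = lVb r z := by
  have hP := hf2_PP_pos hN
  have hP2 := hf2_PP_le hN
  have hY := YY_pos
  have a1 : chi1 ((YY + yk 0 z) / PP N) = 1 := chi1_one (by rw [div_le_iff₀ hP]; linarith)
  have a2 : chi1 ((YY - yk 5 z) / PP N) = 1 := chi1_one (by rw [div_le_iff₀ hP]; linarith)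
  have a3 : chi1 ((YY - yk 0 z) / PP N) = 0 := chi1_zero (by rw [le_div_iff₀ hP]; linarith)
  have a4 : RR r N (yk 0 z) = 0 := (RR_zero hN (le_trans (by linarith) (neg_le_abs _))).1
  simp only [Fin0, XV, XVb, a1, a2, a3, a4]
  push_cast; ring

theorem hf2_rot_y1 (z : ℂ) : yk 0 (z * conj zt) = yk 1 z := by
  have a := (xk_rot 0 1 z).2
  simp only [pow_one, zero_add] at a
  exact a.symm
theorem hf2_rot_y5 (z : ℂ) : yk 5 (z * conj zt) = yk 0 z := by
  have b := (xk_rot 5 1 z).2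
  simp only [pow_one] at b
  norm_num at b
  have c := (xk_add_six 0 z).2
  norm_num at c
  rw [← b, c]

theorem seam_out {r : ℝ} {N : ℕ} (hN : 10 ≤ N) {w : ℂ} (hx : xk 0 w = xk 1 w) (h1 : 1 ≤ xk 0 w) :
    MJ (Fout0 r N) (fun z => zt ^ 2 * Fout0 r N (z * conj zt)) w := by
  have hP := hf2_PP_pos hN
  obtain ⟨hY1, hY2⟩ := hf2_YY_bd
  have y0 := hf2_seam_y0 hx
  have y1 := hf2_seam_y1 hx
  have b1 : YY - PP N / 4 < yk 0 w := by rw [y0]; nlinarith
  have b2 : yk 1 w < -YY + PP N / 4 := by rw [y1]; nlinarith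
  apply MJ.of_eventually
  filter_upwards [(hf2_cont_yk 0).tendsto w |>.eventually (lt_mem_nhds b1),
    (hf2_cont_yk 1).tendsto w |>.eventually (gt_mem_nhds b2)] with z h2 h3
  rw [Fout0_top hN h2.le, Fout0_bot hN (by rw [hf2_rot_y1]; exact h3.le), lV_lVb]

/-! #### matching of all pieces -/

theorem pF_diff (r : ℝ) (N : ℕ) (k : ℕ) (b : Bool) (w : ℂ) : DifferentiableAt ℝ (pF r N k b) w := by
  rw [← pF_mod]
  have := contDiff_piece r N (⟨k % 6, Nat.mod_lt _ (by norm_num)⟩, b)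
  exact this.contDiffAt.differentiableAt (by simp)

theorem pF_zero (r : ℝ) (N : ℕ) (b : Bool) : pF r N 0 b = pB r N b := by
  ext w; simp [pF]

theorem hf2_pF_fun (r : ℝ) (N : ℕ) (k j : ℕ) (b : Bool) :
    pF r N (j + k) b = fun w => zt ^ (2 * k) * pF r N j b (w * conj (zt ^ k)) := by
  ext w; exact pF_rot r N k j b w

/-- same sector -/
theorem match_same {r : ℝ} {N : ℕ} (hN : 10 ≤ N) (k : ℕ) (b b' : Bool) {w : ℂ}
    (h : w ∈ pS k b) (h' : w ∈ pS k b') : MJ (pF r N k b) (pF r N k b') w := by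
  have base : ∀ w, w ∈ pS 0 false → w ∈ pS 0 true → MJ (pF r N 0 false) (pF r N 0 true) w := by
    intro w h h'
    rw [pF_zero, pF_zero]
    have hx : xk 0 w = 1 := by
      have a := h.2
      have c := h'.2
      simp at a c
      exact le_antisymm a c
    have hs := sector_zero h
    refine side_match hN hx ?_
    have hre : w.re = 1 := by rw [← hf2_xk0]; exact hx
    have hy0 : yk 0 w = w.im := by rw [hf2_yk0, hre]; ring
    rw [hx, hf2_xk1, hre] at hs
    rw [hy0, hf2_YY_val, abs_le]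
    have hss : Real.sqrt 3 * Real.sqrt 3 = 3 := Real.mul_self_sqrt (by norm_num)
    have h3 := hf2_sqrt3
    constructor
    · by_contra hc
      push Not at hc
      nlinarith
    · by_contra hc
      push Not at hc
      nlinarith
  have gen : ∀ w, w ∈ pS k false → w ∈ pS k true → MJ (pF r N k false) (pF r N k true) w := by
    intro w h h'
    have e : k = 0 + k := (zero_add k).symm
    rw [e] at h h'
    rw [mem_pS_rot] at h h'
    have := (base _ h h').rot (c := zt ^ (2 * k))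
    rw [e, hf2_pF_fun, hf2_pF_fun]
    exact this
  cases b <;> cases b'
  · exact MJ.refl _ _
  · exact gen w h h'
  · exact (gen w h' h).symm
  · exact MJ.refl _ _

/-- consecutive sectors -/
theorem match_succ {r : ℝ} {N : ℕ} (hN : 10 ≤ N) (k : ℕ) (b b' : Bool) {w : ℂ}
    (h : w ∈ pS k b) (h' : w ∈ pS (k + 1) b') : MJ (pF r N k b) (pF r N (k + 1) b') w := by
  have base : ∀ b w, w ∈ pS 0 b → w ∈ pS 1 b → MJ (pF r N 0 b) (pF r N 1 b) w := by
    intro b w h h'
    have hx : xk 0 w = xk 1 w := le_antisymm (pS_max h' 0) (pS_max h 1)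
    have hs := sector_zero h
    have e1 : pF r N 1 b = fun z => zt ^ 2 * pB r N b (z * conj zt) := by
      ext z; simp [pF]
    rw [pF_zero, e1]
    cases b
    · have a := h.2
      simp at a
      exact seam_in hN hx (by linarith [hs.1, hs.2]) a
    · have a := h.2
      simp at a
      exact seam_out hN hx a
  have same : ∀ b, w ∈ pS k b → w ∈ pS (k + 1) b → MJ (pF r N k b) (pF r N (k + 1) b) w := by
    intro b h h'
    have e : k = 0 + k := (zero_add k).symm
    have h1 : w * conj (zt ^ k) ∈ pS 0 b := by rw [← mem_pS_rot, zero_add]; exact h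
    have h2 : w * conj (zt ^ k) ∈ pS 1 b := by rw [← mem_pS_rot, add_comm]; exact h'
    have := (base b _ h1 h2).rot (c := zt ^ (2 * k))
    have e1 := hf2_pF_fun r N k 0 b
    have e2 := hf2_pF_fun r N k 1 b
    rw [zero_add] at e1
    rw [add_comm] at e2
    rw [e1, e2]
    exact this
  -- `w` is in the other one of the two sets of the sector `k`
  have hxx : xk k w = xk (k + 1) w := le_antisymm (pS_max h' k) (pS_max h (k + 1))
  have h3 : w ∈ pS k b' := ⟨h.1, by rw [hxx]; exact h'.2⟩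
  exact (match_same hN k b b' h h3).trans (same b' h3 h')

theorem hf2_zero_mem (k : ℕ) : (0 : ℂ) ∈ pS k false := by
  refine ⟨fun j _ => by simp [xk], by simp [xk]⟩

theorem match_zero {r : ℝ} {N : ℕ} (hN : 10 ≤ N) (k : ℕ) :
    MJ (pF r N 0 false) (pF r N k false) 0 := by
  induction k with
  | zero => exact MJ.refl _ _
  | succ k ih => exact ih.trans (match_succ hN k false false (hf2_zero_mem _) (hf2_zero_mem _))

theorem hf2_eq_zero {w : ℂ} (h0 : xk 0 w = 0) (h1 : xk 1 w = 0) : w = 0 := by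
  rw [hf2_xk0] at h0
  rw [hf2_xk1, h0] at h1
  have h3 : 0 < Real.sqrt 3 := by positivity
  have : w.im = 0 := by
    have : Real.sqrt 3 * w.im = 0 := by linarith
    rcases mul_eq_zero.mp this with h | h
    · exact absurd h h3.ne'
    · exact h
  exact Complex.ext h0 this

theorem match_all {r : ℝ} {N : ℕ} (hN : 10 ≤ N) (k k' : ℕ) (b b' : Bool) {w : ℂ}
    (h : w ∈ pS k b) (h' : w ∈ pS k' b') : MJ (pF r N k b) (pF r N k' b') w := by
  -- write `k' = d + k` modulo `6`
  obtain ⟨d, hd, hd'⟩ : ∃ d < 6, (d + k) % 6 = k' % 6 := by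
    refine ⟨(k' + 5 * k) % 6, Nat.mod_lt _ (by norm_num), ?_⟩
    omega
  rw [← pS_mod, ← hd', pS_mod] at h'
  rw [← pF_mod r N k' b', ← hd', pF_mod]
  set v := w * conj (zt ^ k) with hv
  have hv0 : v ∈ pS 0 b := by rw [hv, ← mem_pS_rot, zero_add]; exact h
  have hvd : v ∈ pS d b' := by rw [hv, ← mem_pS_rot]; exact h'
  have hs := sector_zero hv0
  have hxd : xk d v = xk 0 v := le_antisymm (pS_max hv0 d) (pS_max hvd 0)
  have e2 : xk 2 v = xk 1 v - xk 0 v := by simpa using hf2_xk_two 0 v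
  have e3 : xk 3 v = - xk 0 v := by simpa using xk_add_three 0 v
  have e4 : xk 4 v = - xk 1 v := by simpa using xk_add_three 1 v
  have hzero : v = 0 → MJ (pF r N k b) (pF r N (d + k) b') w := by
    intro h0
    have hzk : zt ^ k ≠ 0 := by
      have := zt_mul_conj_pow k
      intro h; rw [h] at this; simp at this
    have hw0 : w = 0 := by
      rw [hv] at h0
      rcases mul_eq_zero.mp h0 with h1 | h1
      · exact h1
      · rw [map_eq_zero] at h1; exact absurd h1 hzk
    subst hw0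
    have m1 := match_same (r := r) hN k b false h (hf2_zero_mem k)
    have m2 := match_same (r := r) hN (d + k) b' false h' (hf2_zero_mem _)
    exact (m1.trans ((match_zero hN k).symm.trans (match_zero hN (d + k)))).trans m2.symm
  interval_cases d
  · rw [zero_add] at h' ⊢
    exact match_same hN k b b' h h'
  · rw [add_comm] at h' ⊢
    exact match_succ hN k b b' h h'
  · apply hzero
    have : xk 0 v = 0 := by linarith
    exact hf2_eq_zero this (by linarith)
  · apply hzero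
    have : xk 0 v = 0 := by linarith
    exact hf2_eq_zero this (by linarith)
  · apply hzero
    have : xk 0 v = 0 := by linarith
    exact hf2_eq_zero this (by linarith)
  · -- `k = (5 + k) + 1` modulo `6`
    have h6 : pS ((5 + k) + 1) b = pS k b := by
      rw [show 5 + k + 1 = k + 6 by ring, pS_six]
    have h7 : pF r N ((5 + k) + 1) b = pF r N k b := by
      rw [show 5 + k + 1 = k + 6 by ring, pF_six]
    rw [← h7]
    exact (match_succ hN (5 + k) b' b h' (by rw [h6]; exact h)).symm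

/-- values and first derivatives agree on the overlaps -/
theorem piece_match {r : ℝ} (h0 : 0 < r) (h1 : r ≤ 1 / 100) {N : ℕ} (hN : 10 ≤ N)
    (i j : Fin 6 × Bool) {w : ℂ} (hi : w ∈ pieceS i) (hj : w ∈ pieceS j) :
    pieceF r N i w = pieceF r N j w ∧ fderiv ℝ (pieceF r N i) w = fderiv ℝ (pieceF r N j) w := by
  rw [pF_eq, pF_eq]
  have := match_all (r := r) hN i.1 j.1 i.2 j.2 (w := w) hi hj
  exact ⟨this.val, this.fderiv_eq (pF_diff _ _ _ _ _) (pF_diff _ _ _ _ _)⟩

theorem FF_val {r : ℝ} (h0 : 0 < r) (h1 : r ≤ 1 / 100) {N : ℕ} (hN : 10 ≤ N)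
    (i : Fin 6 × Bool) {w : ℂ} (hi : w ∈ pieceS i) : FF r N w = pieceF r N i w := by
  have h : ∃ i, w ∈ pieceS i := ⟨i, hi⟩
  unfold FF glue
  rw [dif_pos h]
  exact (piece_match h0 h1 hN _ i h.choose_spec hi).1

/-- uniform `C^{1,1}` bound -/
theorem FF_glue : ∃ C : NNReal, ∀ r : ℝ, 0 < r → r ≤ 1 / 100 → ∀ N : ℕ, 10 ≤ N →
    ContDiff ℝ 1 (FF r N) ∧ LipschitzWith C (fderiv ℝ (FF r N)) ∧
      ∀ i, ∀ w ∈ pieceS i, fderiv ℝ (FF r N) w = fderiv ℝ (pieceF r N i) w := by
  obtain ⟨C, hC⟩ := piece_bounds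
  refine ⟨C, fun r h0 h1 N hN => ?_⟩
  exact c11_glue isClosed_pieceS convex_pieceS cover_pieceS
    (fun i => (contDiff_piece r N i).of_le (by simp)) (fun i z hz => FF_val h0 h1 hN i hz)
    (fun i => hC r h0 h1 N hN i) (fun i j z hz => (piece_match h0 h1 hN i j hz.1 hz.2).2)

theorem FF_eq {r : ℝ} (h0 : 0 < r) (h1 : r ≤ 1 / 100) {N : ℕ} (hN : 10 ≤ N)
    (i : Fin 6 × Bool) {w : ℂ} (hi : w ∈ pieceS i) :
    FF r N w = pieceF r N i w ∧ fderiv ℝ (FF r N) w = fderiv ℝ (pieceF r N i) w := by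
  obtain ⟨C, hC⟩ := FF_glue
  exact ⟨FF_val h0 h1 hN i hi, (hC r h0 h1 N hN).2.2 i w hi⟩

/-- uniform `C^{1,1}` bound -/
theorem FF_c11 : ∃ C : NNReal, ∀ r : ℝ, 0 < r → r ≤ 1 / 100 → ∀ N : ℕ, 10 ≤ N →
    ContDiff ℝ 1 (FF r N) ∧ LipschitzWith C (fderiv ℝ (FF r N)) := by
  obtain ⟨C, hC⟩ := FF_glue
  exact ⟨C, fun r h0 h1 N hN => ⟨(hC r h0 h1 N hN).1, (hC r h0 h1 N hN).2.1⟩⟩

theorem FF_pF {r : ℝ} (h0 : 0 < r) (h1 : r ≤ 1 / 100) {N : ℕ} (hN : 10 ≤ N) {k : ℕ} {b : Bool}
    {w : ℂ} (h : w ∈ pS k b) :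
    FF r N w = pF r N k b w ∧ fderiv ℝ (FF r N) w = fderiv ℝ (pF r N k b) w := by
  have := FF_eq h0 h1 hN (⟨k % 6, Nat.mod_lt _ (by norm_num)⟩, b) (w := w)
    (by rw [pS_eq]; simpa [pS_mod] using h)
  rw [pF_eq] at this
  simpa [pF_mod] using this

theorem exists_pS (w : ℂ) : ∃ k b, w ∈ pS k b := by
  have : w ∈ ⋃ i, pieceS i := by rw [cover_pieceS]; trivial
  obtain ⟨i, hi⟩ := mem_iUnion.mp this
  exact ⟨i.1, i.2, hi⟩

theorem FF_rot {r : ℝ} (h0 : 0 < r) (h1 : r ≤ 1 / 100) {N : ℕ} (hN : 10 ≤ N) (w : ℂ) :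
    FF r N (zt * w) = zt ^ 2 * FF r N w := by
  obtain ⟨k, b, h⟩ := exists_pS w
  have e : zt * w * conj zt = w := by
    have := zt_mul_conj_pow 1
    simp only [pow_one] at this
    linear_combination w * this
  have h' : zt * w ∈ pS (k + 1) b := by
    rw [mem_pS_rot, pow_one, e]; exact h
  rw [(FF_pF h0 h1 hN h).1, (FF_pF h0 h1 hN h').1, pF_rot r N 1 k b (zt * w)]
  simp only [pow_one, e]

/-! #### the side of the Voronoi cell -/

theorem hf2_sidept (r τ : ℝ) : (lam r * (1 + τ * I)).re = 1 + r / 2 * (1 - τ / 7) ∧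
    (lam r * (1 + τ * I)).im = τ + r / 2 * (τ + 1 / 7) := by
  constructor
  · simp [lam, al]; ring
  · simp [lam, al]; ring

/-- `FF` on (a neighbourhood of) the side `k` of the Voronoi cell -/
theorem FF_side {r : ℝ} (h0 : 0 < r) (h1 : r ≤ 1 / 100) {N : ℕ} (hN : 10 ≤ N) {τ : ℝ}
    (hτ : |τ| ≤ YY) : FF r N (lam r * (1 + τ * I)) = Fout0 r N (lam r * (1 + τ * I)) ∧
      fderiv ℝ (FF r N) (lam r * (1 + τ * I)) al = al * lam r := by
  obtain ⟨hre, him⟩ := hf2_sidept r τ
  set w := lam r * (1 + τ * I) with hw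
  obtain ⟨hτ1, hτ2⟩ := abs_le.mp hτ
  have hs := hf2_sqrt3
  have hss : Real.sqrt 3 * Real.sqrt 3 = 3 := Real.mul_self_sqrt (by norm_num)
  have hYv := hf2_YY_val
  obtain ⟨hY1, hY2⟩ := hf2_YY_bd
  have hP := hf2_PP_pos hN
  have x0 : xk 0 w = 1 + r / 2 * (1 - τ / 7) := by rw [hf2_xk0, hre]
  have x0' : 1 + r * (45 / 100) ≤ xk 0 w := by rw [x0]; nlinarith
  have hsY : Real.sqrt 3 * YY = 1 := sqrt3_mul_YY
  have x1 : 0 ≤ xk 1 w := by
    rw [hf2_xk1, hre, him]
    have e1 : -1 ≤ Real.sqrt 3 * τ := by nlinarith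
    have e2 : Real.sqrt 3 * (r / 2 * (τ + 1 / 7)) ≥ -(r / 2) := by nlinarith
    nlinarith
  by_cases hc : xk 1 w ≤ xk 0 w
  · have hm : w ∈ pS 0 true := by
      refine ⟨sector_zero_iff.mpr ⟨x1, hc⟩, ?_⟩
      simp only [if_true]; nlinarith
    have := FF_pF h0 h1 hN hm
    rw [pF_zero] at this
    refine ⟨this.1, ?_⟩
    rw [this.2]
    exact Fout0_al r N w
  · push Not at hc
    have hm : w ∈ pS 1 true := by
      have e : w ∈ pS (0 + 1) true ↔ _ := mem_pS_rot (k := 1) (j := 0)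
      rw [zero_add] at e
      rw [e]
      have r0 := (xk_rot 0 1 w).1
      have r1 := (xk_rot 1 1 w).1
      rw [zero_add] at r0
      norm_num at r1
      have e2 : xk 2 w = xk 1 w - xk 0 w := by simpa using hf2_xk_two 0 w
      simp only [pow_one] at r0 ⊢
      refine ⟨sector_zero_iff.mpr ⟨?_, ?_⟩, ?_⟩
      · rw [← r1, e2]; linarith
      · rw [← r1, ← r0, e2]; nlinarith
      · simp only [if_true]; rw [← r0]; nlinarith
    have hx1 := xk_one w
    have b1 : YY - PP N / 4 < yk 0 w := by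
      have h3 : 0 < (xk 0 w - 1) * (1 / 2 - Real.sqrt 3 / 14) := by
        apply mul_pos
        · nlinarith
        · linarith
      have h4 : 0 < Real.sqrt 3 / 2 * (yk 0 w - YY) := by nlinarith
      have h5 : 0 < yk 0 w - YY := by
        by_contra hcon
        push Not at hcon
        nlinarith
      linarith
    have b2 : yk 1 w < -YY + PP N / 4 := by
      have e1 : yk 1 w = w.im / 2 - Real.sqrt 3 / 2 * w.re - (xk 1 w - 1) / 7 := by
        rw [hf2_yk1, hf2_xk1]
      have h3 : Real.sqrt 3 = 3 * YY := by rw [hYv]; ring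
      have h4 : (xk 1 w - 1) / 7 ≥ 0 := by nlinarith
      have h5 : w.im ≤ YY + r / 2 * (YY + 1 / 7) := by rw [him]; nlinarith
      have h6 : w.re ≥ 1 + r * (45 / 100) := by rw [← hf2_xk0]; exact x0'
      have h7 : Real.sqrt 3 / 2 * w.re ≥ Real.sqrt 3 / 2 * (1 + r * (45 / 100)) := by gcongr
      rw [e1]
      nlinarith
    have ev : ∀ᶠ z in nhds w, pF r N 1 true z = Fout0 r N z := by
      filter_upwards [(hf2_cont_yk 0).tendsto w |>.eventually (lt_mem_nhds b1),
        (hf2_cont_yk 1).tendsto w |>.eventually (gt_mem_nhds b2)] with z h2 h3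
      have e1 : pF r N 1 true z = zt ^ 2 * Fout0 r N (z * conj zt) := by simp [pF, pB]
      rw [e1, Fout0_top hN h2.le, Fout0_bot hN (by rw [hf2_rot_y1]; exact h3.le), lV_lVb]
    have := FF_pF h0 h1 hN hm
    refine ⟨this.1.trans ev.self_of_nhds, ?_⟩
    rw [this.2, Filter.EventuallyEq.fderiv_eq ev]
    exact Fout0_al r N w

/-! #### the voids -/

def Aff (f : ℂ → ℂ) : Prop := ∃ a b c : ℂ, ∀ z, f z = a + b * z + c * conj z

theorem Aff.add {f g : ℂ → ℂ} (hf : Aff f) (hg : Aff g) : Aff fun z => f z + g z := by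
  obtain ⟨a, b, c, h⟩ := hf
  obtain ⟨a', b', c', h'⟩ := hg
  exact ⟨a + a', b + b', c + c', fun z => by beta_reduce; rw [h, h']; ring⟩
theorem Aff.cmul {f : ℂ → ℂ} (hf : Aff f) (k : ℂ) : Aff fun z => k * f z := by
  obtain ⟨a, b, c, h⟩ := hf
  exact ⟨k * a, k * b, k * c, fun z => by beta_reduce; rw [h]; ring⟩
theorem Aff.const (k : ℂ) : Aff fun _ => k := ⟨k, 0, 0, fun z => by simp⟩
theorem Aff.comp_mul {f : ℂ → ℂ} (hf : Aff f) (u : ℂ) : Aff fun z => f (z * u) := by
  obtain ⟨a, b, c, h⟩ := hf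
  exact ⟨a, b * u, c * conj u, fun z => by beta_reduce; rw [h, map_mul]; ring⟩
theorem Aff.re (u : ℂ) : Aff fun z => ((z * u).re : ℂ) := by
  refine ⟨0, u / 2, conj u / 2, fun z => ?_⟩
  beta_reduce
  rw [Complex.re_eq_add_conj, map_mul]; ring
theorem Aff.im (u : ℂ) : Aff fun z => ((z * u).im : ℂ) := by
  refine ⟨0, -I * u / 2, I * conj u / 2, fun z => ?_⟩
  beta_reduce
  rw [Complex.im_eq_sub_conj, map_mul]
  have hI : I * I = -1 := Complex.I_mul_I
  have h2I : (2 * I : ℂ) ≠ 0 := by simp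
  rw [div_eq_iff h2I]
  linear_combination ((z * u) - conj z * conj u) * hI
theorem Aff.xk (k : ℕ) : Aff fun z => (xk k z : ℂ) := Aff.re _
theorem Aff.yk (k : ℕ) : Aff fun z => (yk k z : ℂ) := by
  have := ((Aff.im (conj (zt ^ k))).add ((Aff.xk k).cmul (-1 / 7))).add (Aff.const (1 / 7))
  obtain ⟨a, b, c, h⟩ := this
  refine ⟨a, b, c, fun z => ?_⟩
  rw [← h]
  simp only [EBC.yk, EBC.xk]
  push_cast; ring

/-- `FF` is locally affine on the voids -/
theorem FF_flat {r : ℝ} (h0 : 0 < r) (h1 : r ≤ 1 / 100) {N : ℕ} (hN : 10 ≤ N) {w : ℂ}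
    (hw : w ∈ Vor r) (hv : w ∈ V6 N) :
    ∃ a b c : ℂ, ∀ᶠ z in nhds w, z ∈ Vor r → FF r N z = a + b * z + c * conj z := by
  have hP := hf2_PP_pos hN
  have hnear : ∀ f : ℂ → ℂ, Aff f → (∀ᶠ z in nhds w, FF r N z = f z) →
      ∃ a b c : ℂ, ∀ᶠ z in nhds w, z ∈ Vor r → FF r N z = a + b * z + c * conj z := by
    rintro f ⟨a, b, c, hf⟩ h
    refine ⟨a, b, c, ?_⟩
    filter_upwards [h] with z hz _
    rw [hz, hf]
  obtain ⟨k, hk, h⟩ := hv
  rcases h with ⟨hx, j, hj, hj', hy⟩ | ⟨hy, hy'⟩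
  · -- a void on the side `k`
    have hside := void_side h0 h1 hN hw hk hx hj hj' hy
    have aff : Aff fun z => zt ^ (2 * k) * ((GG r (yj N j) + deriv (GG r) (yj N j) * ((yk k z : ℂ)
        + (-(yj N j) : ℂ))) + (al * lam r) * ((xk k z : ℂ) + (-1 : ℂ))) :=
      (((Aff.const _).add (((Aff.yk k).add (Aff.const _)).cmul _)).add
        (((Aff.xk k).add (Aff.const _)).cmul _)).cmul _
    refine hnear _ aff ?_
    have e1 : ∀ᶠ z in nhds w, ∀ i ∈ Finset.range 6, i ≠ k → xk i z < xk k z := by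
      rw [Filter.eventually_all_finset]
      intro i hi
      by_cases hik : i = k
      · simp [hik]
      · have := hside i (Finset.mem_range.mp hi) hik
        have h2 := ((hf2_cont_xk i).sub (hf2_cont_xk k)).tendsto w |>.eventually
          (gt_mem_nhds (sub_neg.mpr this))
        filter_upwards [h2] with z hz _
        exact sub_neg.mp hz
    have e3 : ∀ᶠ z in nhds w, |yk k z - yj N j| < PP N / 4 := by
      have c : Continuous fun z => |yk k z - yj N j| := by have := hf2_cont_yk k; fun_prop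
      exact c.tendsto w |>.eventually (gt_mem_nhds hy)
    filter_upwards [e1, (hf2_cont_xk k).tendsto w |>.eventually (lt_mem_nhds hx), e3] with z h2 h3 h4
    have hm : z ∈ pS k true := by
      refine ⟨fun i hi => ?_, by simpa using h3.le⟩
      by_cases hik : i = k
      · rw [hik]
      · exact (h2 i (Finset.mem_range.mpr hi) hik).le
    rw [(FF_pF h0 h1 hN hm).1]
    have a := xk_rot 0 k z
    rw [zero_add] at a
    simp only [pF, pB, if_true, Fout0, ← a.1, ← a.2]
    rw [GN_near_void hN hj hj' h4.le]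
    push_cast; ring
  · -- a void at the corner between the sides `k` and `k+1`
    have hcor := void_corner h0 h1 hN hw hk hy hy'
    have aff : Aff fun z => zt ^ (2 * k) * lV r (z * conj (zt ^ k)) := by
      have : Aff (lV r) := lV_affine r
      exact (this.comp_mul _).cmul _
    refine hnear _ aff ?_
    have b1 : YY - PP N / 4 < yk k w := by linarith
    have b2 : yk (k + 1) w < -YY + PP N / 4 := by linarith
    have e1 : ∀ᶠ z in nhds w, ∀ i ∈ Finset.range 6, i ≠ k → i ≠ (k + 1) % 6 →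
        xk i z < max (xk k z) (xk (k + 1) z) := by
      rw [Filter.eventually_all_finset]
      intro i hi
      by_cases hik : i = k
      · simp [hik]
      by_cases hik' : i = (k + 1) % 6
      · simp [hik']
      · have := hcor i (Finset.mem_range.mp hi) hik hik'
        have cm : Continuous fun z => max (xk k z) (xk (k + 1) z) :=
          (hf2_cont_xk k).max (hf2_cont_xk (k + 1))
        have h2 := ((hf2_cont_xk i).sub cm).tendsto w |>.eventually
          (gt_mem_nhds (sub_neg.mpr this))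
        filter_upwards [h2] with z hz _ _
        exact sub_neg.mp hz
    filter_upwards [e1, (hf2_cont_yk k).tendsto w |>.eventually (lt_mem_nhds b1),
      (hf2_cont_yk (k + 1)).tendsto w |>.eventually (gt_mem_nhds b2)] with z h2 h3 h4
    have a := xk_rot 0 k z
    have c := xk_rot 1 k z
    have a' := xk_rot 0 (k + 1) z
    have c' := xk_rot 5 (k + 1) z
    rw [zero_add] at a a'
    rw [add_comm 1 k] at c
    rw [show 5 + (k + 1) = k + 6 by ring, (xk_add_six k z).1, (xk_add_six k z).2] at c'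
    have hor : (∀ i < 6, xk i z ≤ xk k z) ∨ (∀ i < 6, xk i z ≤ xk (k + 1) z) := by
      rcases le_total (xk (k + 1) z) (xk k z) with hle | hle
      · left
        intro i hi
        by_cases hik : i = k
        · rw [hik]
        by_cases hik' : i = (k + 1) % 6
        · rw [hik', xk_modF2]; exact hle
        · have := h2 i (Finset.mem_range.mpr hi) hik hik'
          rw [max_eq_left hle] at this
          exact this.le
      · right
        intro i hi
        by_cases hik : i = k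
        · rw [hik]; exact hle
        by_cases hik' : i = (k + 1) % 6
        · rw [hik', xk_modF2]
        · have := h2 i (Finset.mem_range.mpr hi) hik hik'
          rw [max_eq_right hle] at this
          exact this.le
    rcases hor with hor | hor
    · rcases le_total 1 (xk k z) with h5 | h5
      · have hm : z ∈ pS k true := ⟨hor, by simpa using h5⟩
        rw [(FF_pF h0 h1 hN hm).1]
        simp only [pF, pB, if_true]
        rw [Fout0_top hN (by rw [← a.2]; exact h3.le)]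
      · have hm : z ∈ pS k false := ⟨hor, by simpa using h5⟩
        rw [(FF_pF h0 h1 hN hm).1]
        simp only [pF, pB, Bool.false_eq_true, if_false]
        rw [Fin0_top hN (by rw [← a.2]; exact h3.le) (by rw [← c.2]; exact h4.le)]
    · have key : zt ^ (2 * (k + 1)) * lVb r (z * conj (zt ^ (k + 1))) =
          zt ^ (2 * k) * lV r (z * conj (zt ^ k)) := by
        rw [lV_lVb, pow_succ zt k, map_mul]
        ring_nf
      rcases le_total 1 (xk (k + 1) z) with h5 | h5
      · have hm : z ∈ pS (k + 1) true := ⟨hor, by simpa using h5⟩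
        rw [(FF_pF h0 h1 hN hm).1]
        simp only [pF, pB, if_true]
        rw [Fout0_bot hN (by rw [← a'.2]; exact h4.le), key]
      · have hm : z ∈ pS (k + 1) false := ⟨hor, by simpa using h5⟩
        rw [(FF_pF h0 h1 hN hm).1]
        simp only [pF, pB, Bool.false_eq_true, if_false]
        rw [Fin0_bot hN (by rw [← a'.2]; exact h4.le) (by rw [← c'.2]; exact h3.le), key]

end EBC
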