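import Pool.Agent.Work.MP_ebc928_an.HexDefs

open MeasureTheory Complex Set
open scoped ContDiff ComplexConjugate

noncomputable section
namespace EBC

private theorem sqrt3_sq : Real.sqrt 3 ^ 2 = 3 := Real.sq_sqrt (by norm_num)

theorem zt_sq : zt ^ 2 = zt - 1 := by
  have h := sqrt3_sq
  apply Complex.ext
  · simp [zt, pow_two]; nlinarith
  · simp [zt, pow_two]; ring
theorem zt_cube : zt ^ 3 = -1 := by
  linear_combination (zt + 1) * zt_sq
theorem zt_six : zt ^ 6 = 1 := by
  linear_combination (zt ^ 3 - 1) * zt_cube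
theorem conj_zt : conj zt = 1 - zt := by
  apply Complex.ext
  · simp [zt]; norm_num
  · simp [zt]
theorem norm_zt : ‖zt‖ = 1 := by
  have h : ‖zt‖ ^ 2 = 1 := by
    rw [← Complex.normSq_eq_norm_sq, Complex.normSq_apply]
    simp [zt]
    nlinarith [sqrt3_sq]
  nlinarith [norm_nonneg zt]
theorem zt_mul_conj_pow (k : ℕ) : zt ^ k * conj (zt ^ k) = 1 := by
  rw [Complex.mul_conj, Complex.normSq_eq_norm_sq, norm_pow, norm_zt]
  simp
theorem al_mul_conj : al * conj al = 50 / 49 := by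
  apply Complex.ext
  · simp [al]; norm_num
  · simp [al]
theorem YY_sq : YY ^ 2 = 1 / 3 := by
  unfold YY
  rw [div_pow, sqrt3_sq]; norm_num
theorem YY_pos : 0 < YY := by
  unfold YY; positivity
theorem sqrt3_mul_YY : Real.sqrt 3 * YY = 1 := by
  unfold YY
  have : Real.sqrt 3 ≠ 0 := by positivity
  field_simp

private theorem sqrt3_eq : Real.sqrt 3 = 3 * YY := by
  have h1 := sqrt3_mul_YY
  have h2 := YY_sq
  have h3 := YY_pos
  have : Real.sqrt 3 * YY = 3 * YY * YY := by rw [h1]; linarith [h2, pow_two YY]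
  exact mul_right_cancel₀ h3.ne' this

theorem contDiff_Phi0 : ContDiff ℝ ∞ Phi0 := by
  have hc : ContDiff ℝ ∞ (fun z : ℂ => conj z) := Complex.conjCLE.contDiff
  have hz : ContDiff ℝ ∞ (fun z : ℂ => z) := contDiff_id
  unfold Phi0
  fun_prop

/-- first order matching along the seam `arg z = π/6` (`z = ζ z̄`) -/
theorem Phi0_seam : ∃ q : ℂ → ℂ, ContDiff ℝ ∞ q ∧
    ∀ z, Phi0 z - zt ^ 2 * Phi0 (z * conj zt) = (z - zt * conj z) ^ 2 * q z := by
  refine ⟨fun z => (-16 / 375 + 49 / 500 * I) * (1 - zt) * conj z +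
    (44 / 375 + 7 / 250 * I) * zt * z + (1 / 5 - 2 / 5 * zt) * (z * conj z)
      - 1 / 10 * (1 + zt) * z ^ 2, ?_, ?_⟩
  · have hc : ContDiff ℝ ∞ (fun z : ℂ => conj z) := Complex.conjCLE.contDiff
    have hz : ContDiff ℝ ∞ (fun z : ℂ => z) := contDiff_id
    fun_prop
  · intro z
    have h1 : conj (z * conj zt) = conj z * zt := by simp
    have h2 := zt_sq
    have h3 := zt_cube
    have h4 : zt ^ 4 = - zt := by linear_combination zt * h3
    have h5 : zt ^ 5 = 1 - zt := by linear_combination zt ^ 2 * h3 - h2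
    have h6 := zt_six
    unfold Phi0
    rw [h1, conj_zt]
    beta_reduce
    generalize conj z = w
    ring_nf
    simp only [h6, h5, h4, h3, h2]
    ring

/-- derivative with respect to `z` -/
def hpPz (z : ℂ) : ℂ :=
  (141 + 7 * I) / 250 * (2 * z) +
  (88 + 21 * I) / 750 * (3 * z ^ 2 + 4 * z * conj z - conj z ^ 2 / 2) +
  (-64 + 147 * I) / 1500 * (2 * z * conj z - conj z ^ 2) -
  1 / 10 * (4 * z ^ 3 + 6 * z * conj z ^ 2 - 2 * conj z ^ 3) +
  (-2 - 14 * I) / 125 * (3 * z ^ 2 * conj z)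

def hpPw (z : ℂ) : ℂ :=
  (88 + 21 * I) / 750 * (2 * z ^ 2 - z * conj z) +
  (-64 + 147 * I) / 1500 * (z ^ 2 - 2 * z * conj z + 3 * conj z ^ 2) -
  1 / 10 * (6 * z ^ 2 * conj z - 6 * z * conj z ^ 2) +
  (-2 - 14 * I) / 125 * (z ^ 3) + (-1 - 7 * I) / 250 * (4 * conj z ^ 3)

theorem hasFDerivAt_Phi0 (z : ℂ) :
    HasFDerivAt Phi0 (hpPz z • (1 : ℂ →L[ℝ] ℂ) + hpPw z • (Complex.conjCLE : ℂ →L[ℝ] ℂ)) z := by
  have hz : HasFDerivAt (fun z : ℂ => z) (1 : ℂ →L[ℝ] ℂ) z := hasFDerivAt_id z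
  have hc : HasFDerivAt (fun z : ℂ => conj z) (Complex.conjCLE : ℂ →L[ℝ] ℂ) z :=
    Complex.conjCLE.hasFDerivAt
  have e1 := (hz.pow 2).const_mul ((141 + 7 * I) / 250)
  have e2 := ((((hz.pow 3).add (((hz.pow 2).mul hc).const_mul 2)).sub
    ((hz.mul (hc.pow 2)).const_mul (1 / 2)))).const_mul ((88 + 21 * I) / 750)
  have e3 := ((((hz.pow 2).mul hc).sub (hz.mul (hc.pow 2))).add (hc.pow 3)).const_mul
    ((-64 + 147 * I) / 1500)
  have e4 := (((hz.pow 4).add (((hz.pow 2).mul (hc.pow 2)).const_mul 3)).sub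
    ((hz.mul (hc.pow 3)).const_mul 2)).const_mul (1 / 10)
  have e5 := ((hz.pow 3).mul hc).const_mul ((-2 - 14 * I) / 125)
  have e6 := (hc.pow 4).const_mul ((-1 - 7 * I) / 250)
  have e := ((((e1.add e2).add e3).sub e4).add e5).add e6
  refine (e.congr_of_eventuallyEq (Filter.Eventually.of_forall fun z => ?_)).congr_fderiv ?_
  · simp only [Phi0, Pi.add_apply, Pi.sub_apply, Pi.mul_apply]
    ring
  · ext h
    simp [hpPz, hpPw]
    ring

theorem fderiv_Phi0 (z h : ℂ) : fderiv ℝ Phi0 z h = hpPz z * h + hpPw z * conj h := by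
  rw [(hasFDerivAt_Phi0 z).fderiv]
  simp

theorem Phi0_al (y : ℝ) : fderiv ℝ Phi0 (1 + y * I) al = al := by
  rw [fderiv_Phi0]
  have h1 : conj (1 + y * I : ℂ) = 1 - y * I := by simp; ring
  have h2 : al = 1 + I / 7 := by apply Complex.ext <;> simp [al]
  have h3 : conj al = 1 - I / 7 := by apply Complex.ext <;> simp [al]
  unfold hpPz hpPw
  rw [h1, h3, h2]
  have hI : I ^ 2 = -1 := Complex.I_sq
  have hI3 : I ^ 3 = -I := by linear_combination I * hI
  have hI4 : I ^ 4 = 1 := by linear_combination (I ^ 2 - 1) * hI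
  have hI5 : I ^ 5 = I := by linear_combination (I ^ 3 - I) * hI
  ring_nf
  simp only [hI3, hI5]
  ring

theorem Phi0_odd (y : ℝ) : Phi0 (1 + y * I) - Phi0 (1 - y * I) = 2 * y * I := by
  have h1 : conj (1 + y * I : ℂ) = 1 - y * I := by simp; ring
  have h2 : conj (1 - y * I : ℂ) = 1 + y * I := by simp
  unfold Phi0
  rw [h1, h2]
  ring

private theorem VV_eq : VV = 1 + YY * I := by
  apply Complex.ext <;> simp [VV]

private theorem conj_VV : conj VV = 1 - YY * I := by
  apply Complex.ext <;> simp [VV]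

private theorem YYc_sq : (YY : ℂ) ^ 2 = 1 / 3 := by
  have := YY_sq
  rw [← Complex.ofReal_pow, this]; norm_num

private theorem corner_const : I * al / (Real.sqrt 3 * conj al) = -((7 - 24 * I) * YY / 25) := by
  have h2 : al = 1 + I / 7 := by apply Complex.ext <;> simp [al]
  have h3 : conj al = 1 - I / 7 := by apply Complex.ext <;> simp [al]
  have hI : I ^ 2 = -1 := Complex.I_sq
  have hne : conj al ≠ 0 := by
    intro h
    have := congrArg Complex.re h
    simp [al] at this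
  have h0 : (YY : ℂ) ≠ 0 := by
    exact_mod_cast YY_pos.ne'
  rw [sqrt3_eq, div_eq_iff (by push_cast; exact mul_ne_zero (mul_ne_zero (by norm_num) h0) hne), h3, h2]
  push_cast
  linear_combination (3 / 25 * (7 - 24 * I) * (1 - I / 7)) * YYc_sq + (7 / 25) * hI

/-- the first order Taylor polynomials at the corners -/
theorem Phi0_V (h : ℂ) :
    fderiv ℝ Phi0 VV h = VV * h - I * al / (Real.sqrt 3 * conj al) * conj h := by
  rw [fderiv_Phi0, corner_const]
  have hI : I ^ 2 = -1 := Complex.I_sq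
  have hI3 : I ^ 3 = -I := by linear_combination I * hI
  have hI4 : I ^ 4 = 1 := by linear_combination (I ^ 2 - 1) * hI
  have hY2 := YYc_sq
  have hY3 : (YY : ℂ) ^ 3 = YY / 3 := by linear_combination (YY : ℂ) * hY2
  have e1 : hpPz VV = VV := by
    unfold hpPz
    rw [conj_VV, VV_eq]
    ring_nf
    simp only [hI, hI3, hI4, hY3]
    ring
  have e2 : hpPw VV = (7 - 24 * I) * YY / 25 := by
    unfold hpPw
    rw [conj_VV, VV_eq]
    ring_nf
    simp only [hI, hI3, hY3]
    ring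
  rw [e1, e2]
  ring

/-- `lV`, `lVb` are real affine -/
theorem lV_affine (r : ℝ) : ∃ a b c : ℂ, ∀ w, lV r w = a + b * w + c * conj w := by
  refine ⟨lam r * (Phi0 VV - VV * VV + I * al / (Real.sqrt 3 * conj al) * conj VV), lam r * VV,
    -(lam r * (I * al / (Real.sqrt 3 * conj al))), fun w => ?_⟩
  unfold lV
  rw [map_sub]
  ring
theorem lVb_affine (r : ℝ) : ∃ a b c : ℂ, ∀ w, lVb r w = a + b * w + c * conj w := by
  obtain ⟨a, b, c, h⟩ := lV_affine r
  refine ⟨conj (zt ^ 2) * a, conj (zt ^ 2) * b * zt, conj (zt ^ 2) * c * conj zt, fun w => ?_⟩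
  unfold lVb
  rw [h, map_mul]
  ring
theorem lV_lVb (r : ℝ) (w : ℂ) : lV r w = zt ^ 2 * lVb r (w * conj zt) := by
  unfold lVb
  have h1 : zt * (w * conj zt) = w := by
    have := zt_mul_conj_pow 1
    rw [pow_one] at this
    linear_combination w * this
  rw [h1, ← mul_assoc, zt_mul_conj_pow, one_mul]

private theorem al_ne : conj al ≠ 0 := by
  intro h
  have := congrArg Complex.re h
  simp [al] at this

private theorem VV_sub : VV - I / Real.sqrt 3 = 1 := by
  rw [VV_eq, YY]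
  push_cast
  ring

private theorem zt_VVb : zt * conj VV = VV := by
  have h3 := sqrt3_eq
  have h2 := YY_sq
  apply Complex.ext
  · simp [zt, VV, h3]; nlinarith
  · simp [zt, VV, h3]; nlinarith

/-- behaviour in the direction `al` -/
theorem lV_add_al (r : ℝ) (w : ℂ) (s : ℝ) : lV r (w + s * al) = lV r w + s * (al * lam r) := by
  have h0 := al_ne
  have h1 := VV_sub
  have hs : (Real.sqrt 3 : ℂ) ≠ 0 := by
    exact_mod_cast (by positivity : Real.sqrt 3 ≠ 0)
  have e : I * al / (Real.sqrt 3 * conj al) * conj al = I / Real.sqrt 3 * al := by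
    field_simp
  unfold lV
  have e2 : w + s * al - VV = (w - VV) + s * al := by ring
  rw [e2, map_add, map_mul, Complex.conj_ofReal]
  linear_combination (lam r * s * al) * h1 - (lam r * s) * e
theorem lVb_add_al (r : ℝ) (w : ℂ) (s : ℝ) :
    lVb r (w + s * al) = lVb r w + s * (al * lam r) := by
  have h0 := al_ne
  have h1 := VV_sub
  have hs : (Real.sqrt 3 : ℂ) ≠ 0 := by
    exact_mod_cast (by positivity : Real.sqrt 3 ≠ 0)
  have e : I * al / (Real.sqrt 3 * conj al) * conj al = I / Real.sqrt 3 * al := by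
    field_simp
  unfold lVb lV
  have e2 : zt * (w + s * al) - VV = (zt * w - VV) + s * (zt * al) := by ring
  have h2 : conj VV + I / Real.sqrt 3 = 1 := by
    have := congrArg conj h1
    simp only [map_sub, map_div₀, Complex.conj_I, Complex.conj_ofReal, map_one] at this
    linear_combination this
  have h3 : conj (zt ^ 2) * zt * VV = conj VV := by
    have := zt_mul_conj_pow 2
    linear_combination (conj VV) * this - (conj (zt ^ 2) * zt) * zt_VVb
  have h4 : conj (zt ^ 2) * conj zt = -1 := by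
    rw [← map_mul, ← pow_succ, zt_cube]; simp
  rw [e2, map_add, map_mul, map_mul, Complex.conj_ofReal]
  linear_combination (lam r * s * al) * (h3 + h2 - (I / Real.sqrt 3) * (h4))
    - (lam r * s * conj (zt ^ 2) * conj zt) * e

private theorem const_zero : I * al / (Real.sqrt 3 * conj al) * 0 = 0 := by simp

theorem hasFDerivAt_lV (r : ℝ) (w : ℂ) : HasFDerivAt (lV r)
    ((lam r * VV) • (1 : ℂ →L[ℝ] ℂ) - (lam r * (I * al / (Real.sqrt 3 * conj al))) •
      (Complex.conjCLE : ℂ →L[ℝ] ℂ)) w := by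
  have hz : HasFDerivAt (fun z : ℂ => z) (1 : ℂ →L[ℝ] ℂ) w := hasFDerivAt_id w
  have hc : HasFDerivAt (fun z : ℂ => conj z) (Complex.conjCLE : ℂ →L[ℝ] ℂ) w :=
    Complex.conjCLE.hasFDerivAt
  have e := ((hz.const_mul (lam r * VV)).sub
    (hc.const_mul (lam r * (I * al / (Real.sqrt 3 * conj al))))).const_add
      (lam r * (Phi0 VV - VV * VV + I * al / (Real.sqrt 3 * conj al) * conj VV))
  refine (e.congr_of_eventuallyEq (Filter.Eventually.of_forall fun z => ?_))
  simp only [lV, Pi.sub_apply, map_sub]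
  ring

theorem fderiv_lV (r : ℝ) (w h : ℂ) : fderiv ℝ (lV r) w h =
    lam r * (VV * h - I * al / (Real.sqrt 3 * conj al) * conj h) := by
  rw [(hasFDerivAt_lV r w).fderiv]
  simp
  ring

theorem fderiv_lVb (r : ℝ) (w h : ℂ) : fderiv ℝ (lVb r) w h =
    conj (zt ^ 2) * (lam r * (VV * (zt * h) - I * al / (Real.sqrt 3 * conj al) * conj (zt * h))) := by
  have h1 : HasFDerivAt (fun w : ℂ => zt * w) (zt • (1 : ℂ →L[ℝ] ℂ)) w :=
    (hasFDerivAt_id (𝕜 := ℝ) w).const_mul zt
  have e := ((hasFDerivAt_lV r (zt * w)).comp w h1).const_mul (conj (zt ^ 2))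
  have e2 : HasFDerivAt (lVb r) _ w := e
  rw [e2.fderiv]
  show conj (zt ^ 2) • ((lam r * VV) • (zt • h) -
    (lam r * (I * al / (Real.sqrt 3 * conj al))) • conj (zt • h)) = _
  simp only [smul_eq_mul]
  ring

theorem lV_jet (r : ℝ) : lV r VV = lam r * Phi0 VV ∧
    ∀ h, fderiv ℝ (fun w => lam r * Phi0 w) VV h = fderiv ℝ (lV r) VV h := by
  refine ⟨?_, fun h => ?_⟩
  · unfold lV
    simp
  · have e := ((hasFDerivAt_Phi0 VV).const_mul (lam r))
    rw [fderiv_lV, e.fderiv]
    have := Phi0_V h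
    rw [(hasFDerivAt_Phi0 VV).fderiv] at this
    rw [← this]
    rfl

private theorem Phi0_rot (z : ℂ) (hz : z = zt * conj z) : Phi0 z = zt ^ 2 * Phi0 (z * conj zt) := by
  obtain ⟨q, _, h⟩ := Phi0_seam
  have := h z
  rw [sub_eq_zero.2 hz] at this
  linear_combination this

private theorem VV_mul : VV * conj zt = conj VV := by
  have := zt_mul_conj_pow 1
  rw [pow_one] at this
  linear_combination (conj VV) * this - (conj zt) * zt_VVb

theorem lVb_jet (r : ℝ) : lVb r (conj VV) = lam r * Phi0 (conj VV) ∧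
    ∀ h, fderiv ℝ (fun w => lam r * Phi0 w) (conj VV) h = fderiv ℝ (lVb r) (conj VV) h := by
  have h2 := zt_mul_conj_pow 2
  refine ⟨?_, fun h => ?_⟩
  · unfold lVb
    rw [zt_VVb, (lV_jet r).1, Phi0_rot VV zt_VVb.symm, VV_mul]
    linear_combination (lam r * Phi0 (conj VV)) * h2
  · have e := ((hasFDerivAt_Phi0 (conj VV)).const_mul (lam r))
    rw [fderiv_lVb, e.fderiv, map_mul]
    have h3 : conj (zt ^ 2) * zt * VV = conj VV := by
      linear_combination (conj VV) * h2 - (conj (zt ^ 2) * zt) * zt_VVb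
    have h4 : conj (zt ^ 2) * conj zt = -1 := by
      rw [← map_mul, ← pow_succ, zt_cube]; simp
    have hI : I ^ 2 = -1 := Complex.I_sq
    have hI3 : I ^ 3 = -I := by linear_combination I * hI
    have hI4 : I ^ 4 = 1 := by linear_combination (I ^ 2 - 1) * hI
    have hY2 := YYc_sq
    have hY3 : (YY : ℂ) ^ 3 = YY / 3 := by linear_combination (YY : ℂ) * hY2
    have e1 : hpPz (conj VV) = conj VV := by
      unfold hpPz
      rw [Complex.conj_conj, conj_VV, VV_eq]
      ring_nf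
      simp only [hI, hI3, hI4, hY3]
      ring
    have e2 : hpPw (conj VV) = I * al / (Real.sqrt 3 * conj al) := by
      rw [corner_const]
      unfold hpPw
      rw [Complex.conj_conj, conj_VV, VV_eq]
      ring_nf
      simp only [hI, hI3, hY3]
      ring
    show lam r • (hpPz (conj VV) • h + hpPw (conj VV) • conj h) = _
    rw [e1, e2]
    simp only [smul_eq_mul]
    linear_combination (-lam r * h) * h3 +
      (I * al / (Real.sqrt 3 * conj al) * lam r * conj h) * h4
/-- remainders on the side -/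
theorem GG_lV (r : ℝ) : GG r YY = lV r (1 + YY * I) ∧
    ∀ y : ℝ, deriv (fun y : ℝ => lV r (1 + y * I)) y = deriv (GG r) YY := by
  refine ⟨?_, fun y => ?_⟩
  · rw [← VV_eq, (lV_jet r).1, GG, ← VV_eq]
  · have hl : ∀ y : ℝ, HasDerivAt (fun y : ℝ => (1 + y * I : ℂ)) I y := fun y => by
      have := ((Complex.ofRealCLM.hasDerivAt (x := y)).mul_const I).const_add 1
      simpa using this
    have h1 := (hasFDerivAt_lV r (1 + y * I)).comp_hasDerivAt y (hl y)
    have h2 := ((hasFDerivAt_Phi0 (1 + YY * I)).const_mul (lam r)).comp_hasDerivAt YY (hl YY)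
    have h1' : HasDerivAt (fun y : ℝ => lV r (1 + y * I)) _ y := h1
    have h2' : HasDerivAt (GG r) _ YY := h2
    rw [h1'.deriv, h2'.deriv]
    have h3 := (lV_jet r).2 I
    rw [fderiv_lV, ((hasFDerivAt_Phi0 VV).const_mul (lam r)).fderiv, VV_eq] at h3
    rw [h3, VV_eq]
    simp
    ring
theorem GG_lVb (r : ℝ) : GG r (-YY) = lVb r (1 + ((-YY : ℝ) : ℂ) * I) ∧
    ∀ y : ℝ, deriv (fun y : ℝ => lVb r (1 + y * I)) y = deriv (GG r) (-YY) := by
  have e0 : conj VV = 1 + ((-YY : ℝ) : ℂ) * I := by rw [conj_VV]; push_cast; ring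
  refine ⟨?_, fun y => ?_⟩
  · rw [← e0, (lVb_jet r).1, GG, ← e0]
  · have hl : ∀ y : ℝ, HasDerivAt (fun y : ℝ => (1 + y * I : ℂ)) I y := fun y => by
      have := ((Complex.ofRealCLM.hasDerivAt (x := y)).mul_const I).const_add 1
      simpa using this
    have hd : DifferentiableAt ℝ (lVb r) (1 + y * I) := by
      obtain ⟨a, b, c, h⟩ := lVb_affine r
      rw [funext h]
      have hz : HasFDerivAt (fun z : ℂ => z) (1 : ℂ →L[ℝ] ℂ) (1 + y * I) := hasFDerivAt_id _
      have hc : HasFDerivAt (fun z : ℂ => conj z) (Complex.conjCLE : ℂ →L[ℝ] ℂ) (1 + y * I) :=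
        Complex.conjCLE.hasFDerivAt
      exact (((hz.const_mul b).const_add a).add (hc.const_mul c)).differentiableAt
    have h1 := hd.hasFDerivAt.comp_hasDerivAt y (hl y)
    have h2 := ((hasFDerivAt_Phi0 (1 + ((-YY : ℝ) : ℂ) * I)).const_mul (lam r)).comp_hasDerivAt (-YY)
      (hl (-YY))
    have h1' : HasDerivAt (fun y : ℝ => lVb r (1 + y * I)) _ y := h1
    have h2' : HasDerivAt (GG r) _ (-YY) := h2
    rw [h1'.deriv, h2'.deriv]
    have h3 := (lVb_jet r).2 I
    rw [((hasFDerivAt_Phi0 (conj VV)).const_mul (lam r)).fderiv, e0] at h3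
    rw [h3, fderiv_lVb, fderiv_lVb]
theorem GG_odd (r : ℝ) (y : ℝ) : GG r y - GG r (-y) = 2 * y * I * lam r := by
  unfold GG
  have h := Phi0_odd y
  have e : (1 + ((-y : ℝ) : ℂ) * I) = 1 - y * I := by push_cast; ring
  rw [e]
  linear_combination lam r * h

end EBC
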