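import Pool.Agent.Work.MP_ebc928_an.HexF2

open MeasureTheory Complex Set
open scoped ContDiff ComplexConjugate

noncomputable section
namespace EBC

/-- the function in one cell -/
def HH (r : ℝ) (N : ℕ) (w : ℂ) : ℂ := FF r N w - w ^ 2 / 2

theorem HH_rot {r : ℝ} (h0 : 0 < r) (h1 : r ≤ 1 / 100) {N : ℕ} (hN : 10 ≤ N) (k : ℕ) (w : ℂ) :
    HH r N (zt ^ k * w) = zt ^ (2 * k) * HH r N w := by
  induction k generalizing w with
  | zero => simp
  | succ k ih =>
    rw [pow_succ, mul_assoc, ih]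
    have : HH r N (zt * w) = zt ^ 2 * HH r N w := by
      unfold HH; rw [FF_rot h0 h1 hN]; ring
    rw [this, show 2 * (k + 1) = 2 * k + 2 by ring, pow_add]
    ring

theorem hasFDerivAt_sq (w : ℂ) :
    HasFDerivAt (fun w : ℂ => w ^ 2 / 2) (ContinuousLinearMap.mul ℝ ℂ w) w := by
  have h : HasDerivAt (fun w : ℂ => w ^ 2 / 2) (2 * w / 2) w := by
    simpa using (hasDerivAt_pow 2 w).div_const 2
  have h2 := h.hasFDerivAt.restrictScalars ℝ
  refine h2.congr_fderiv ?_
  refine ContinuousLinearMap.ext fun v => ?_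
  simp [mul_comm]

theorem HH_diff {r : ℝ} (h0 : 0 < r) (h1 : r ≤ 1 / 100) {N : ℕ} (hN : 10 ≤ N) (w : ℂ) :
    HasFDerivAt (HH r N) (fderiv ℝ (FF r N) w - ContinuousLinearMap.mul ℝ ℂ w) w := by
  obtain ⟨C, hC⟩ := FF_c11
  have h := ((hC r h0 h1 N hN).1.contDiffAt.differentiableAt (by simp) : DifferentiableAt ℝ (FF r N) w)
  exact h.hasFDerivAt.sub (hasFDerivAt_sq w)

theorem HH_contDiff {r : ℝ} (h0 : 0 < r) (h1 : r ≤ 1 / 100) {N : ℕ} (hN : 10 ≤ N) :
    ContDiff ℝ 1 (HH r N) := by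
  obtain ⟨C, hC⟩ := FF_c11
  exact (hC r h0 h1 N hN).1.sub (by fun_prop)

theorem HH_fderiv_rot {r : ℝ} (h0 : 0 < r) (h1 : r ≤ 1 / 100) {N : ℕ} (hN : 10 ≤ N) (k : ℕ) (w v : ℂ) :
    fderiv ℝ (HH r N) (zt ^ k * w) (zt ^ k * v) = zt ^ (2 * k) * fderiv ℝ (HH r N) w v := by
  have e : (fun w => HH r N (zt ^ k * w)) = fun w => zt ^ (2 * k) * HH r N w := by
    ext w; exact HH_rot h0 h1 hN k w
  have hd : ∀ w, DifferentiableAt ℝ (HH r N) w := fun w => (HH_diff h0 h1 hN w).differentiableAt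
  have hm : HasFDerivAt (fun w : ℂ => zt ^ k * w) (ContinuousLinearMap.mul ℝ ℂ (zt ^ k)) w :=
    (ContinuousLinearMap.mul ℝ ℂ (zt ^ k)).hasFDerivAt
  have h2 := ((hd (zt ^ k * w)).hasFDerivAt.comp w hm).fderiv
  have h3 := ((hd w).hasFDerivAt.const_mul (zt ^ (2 * k))).fderiv
  have h4 : fderiv ℝ (fun w => HH r N (zt ^ k * w)) w v = fderiv ℝ (fun w => zt ^ (2 * k) * HH r N w) w v := by
    rw [e]
  have h2' : fderiv ℝ (fun w => HH r N (zt ^ k * w)) w = _ := h2
  rw [h2', h3] at h4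
  simpa using h4

theorem hf2_lam_ne {r : ℝ} (h0 : 0 < r) : lam r ≠ 0 := by
  intro h
  have := congrArg Complex.re h
  simp [lam, al] at this
  linarith

theorem clm_ext_side {r : ℝ} (h0 : 0 < r) {L M : ℂ →L[ℝ] ℂ} (h1 : L (lam r * I) = M (lam r * I))
    (h2 : L al = M al) : L = M := by
  have e : lam r * I = (-(r / 14)) • (1 : ℂ) + (1 + r / 2) • I := by
    apply Complex.ext
    · simp [lam, al]; ring
    · simp [lam, al]
  have e2 : al = (1 : ℂ) + (1 / 7 : ℝ) • I := by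
    apply Complex.ext <;> simp [al]
  rw [e2] at h2
  rw [e] at h1
  simp only [map_add, map_smul] at h1 h2
  have hI : L I = M I := by
    have : ((1 + r / 2) + r / 98) • (L I) = ((1 + r / 2) + r / 98) • (M I) := by
      have h3 : L 1 = M 1 + (1 / 7 : ℝ) • M I - (1 / 7 : ℝ) • L I := by rw [← h2]; abel
      rw [h3] at h1
      have h4 : (-(r / 14)) • (M 1 + (1 / 7 : ℝ) • M I - (1 / 7 : ℝ) • L I) + (1 + r / 2) • L I
        = (-(r / 14)) • M 1 + (-(r/98)) • M I + ((1 + r / 2) + r / 98) • L I := by module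
      rw [h4] at h1
      have h5 : (-(r / 14)) • M 1 + (1 + r / 2) • M I =
        (-(r / 14)) • M 1 + (-(r/98)) • M I + ((1 + r / 2) + r / 98) • M I := by module
      rw [h5] at h1
      exact add_left_cancel h1
    have hne : ((1 + r / 2) + r / 98) ≠ 0 := by positivity
    exact smul_right_injective ℂ hne this
  have h1' : L 1 = M 1 := by
    rw [hI] at h2
    exact add_right_cancel h2
  refine ContinuousLinearMap.ext fun z => ?_
  have e : z = z.re • (1 : ℂ) + z.im • I := by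
    apply Complex.ext <;> simp
  rw [e, map_add, map_add, map_smul, map_smul, map_smul, map_smul, h1', hI]

theorem hf2_yside (r τ : ℝ) : xk 0 (lam r * (1 + τ * I)) - 1 = r / 2 * (1 - τ / 7) ∧
    yk 0 (lam r * (1 + τ * I)) = τ * (1 + 25 * r / 49) := by
  obtain ⟨a, b⟩ := hf2_sidept r τ
  constructor
  · rw [hf2_xk0, a]; ring
  · rw [hf2_yk0, a, b]; ring

/-- equality along the side -/
theorem HH_side_val {r : ℝ} (h0 : 0 < r) (h1 : r ≤ 1 / 100) {N : ℕ} (hN : 10 ≤ N) {τ : ℝ}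
    (hτ : |τ| ≤ YY) : HH r N (lam r * (1 + τ * I)) = HH r N (-(lam r * (1 - τ * I))) := by
  have e3 : HH r N (-(lam r * (1 - τ * I))) = HH r N (lam r * (1 + ((-τ : ℝ) : ℂ) * I)) := by
    have := HH_rot h0 h1 hN 3 (lam r * (1 + ((-τ : ℝ) : ℂ) * I))
    rw [zt_cube, show zt ^ (2 * 3) = 1 from zt_six, one_mul] at this
    rw [← this]; congr 1; push_cast; ring
  rw [e3]
  have hτ' : |-τ| ≤ YY := by rwa [abs_neg]
  obtain ⟨a, b⟩ := hf2_yside r τ
  obtain ⟨a', b'⟩ := hf2_yside r (-τ)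
  have hG := GN_odd (r := r) hN (τ * (1 + 25 * r / 49))
  simp only [HH]
  rw [(FF_side h0 h1 hN hτ).1, (FF_side h0 h1 hN hτ').1]
  simp only [Fout0]
  rw [a, b, a', b', show -τ * (1 + 25 * r / 49) = -(τ * (1 + 25 * r / 49)) by ring]
  have hal : al = 1 + I / 7 := by apply Complex.ext <;> simp [al]
  have hI : I * I = -1 := Complex.I_mul_I
  rw [eq_comm, ← sub_eq_zero] at hG
  rw [← sub_eq_zero]
  simp only [lam, hal] at hG ⊢
  push_cast at hG ⊢
  linear_combination (-1 : ℂ) * hG - ((r : ℂ) * τ / 7 * (1 + r / 2 * (1 + I / 7))) * hI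

theorem hf2_tderiv {r : ℝ} (h0 : 0 < r) (h1 : r ≤ 1 / 100) {N : ℕ} (hN : 10 ≤ N) (c : ℂ) (τ : ℝ) :
    HasDerivAt (fun t : ℝ => HH r N (c + t * (lam r * I)))
      (fderiv ℝ (HH r N) (c + τ * (lam r * I)) (lam r * I)) τ := by
  have h2 : HasDerivAt (fun t : ℝ => c + t * (lam r * I)) (lam r * I) τ := by
    have := ((Complex.ofRealCLM.hasDerivAt (x := τ)).mul_const (lam r * I)).const_add c
    simpa using this
  have hd : HasFDerivAt (HH r N) (fderiv ℝ (HH r N) (c + τ * (lam r * I))) (c + τ * (lam r * I)) :=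
    (HH_diff h0 h1 hN _).differentiableAt.hasFDerivAt
  exact hd.comp_hasDerivAt τ h2

/-- equality of the derivatives along the side -/
theorem HH_side_fderiv {r : ℝ} (h0 : 0 < r) (h1 : r ≤ 1 / 100) {N : ℕ} (hN : 10 ≤ N) {τ : ℝ}
    (hτ : |τ| ≤ YY) : fderiv ℝ (HH r N) (lam r * (1 + τ * I)) =
      fderiv ℝ (HH r N) (-(lam r * (1 - τ * I))) := by
  have hY := YY_pos
  -- values of the derivative in the direction `al` on the side
  have hal : ∀ {τ : ℝ}, |τ| ≤ YY → fderiv ℝ (HH r N) (lam r * (1 + τ * I)) al =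
      -(al * lam r * τ * I) := by
    intro τ hτ
    rw [(HH_diff h0 h1 hN _).fderiv]
    simp only [sub_apply, ContinuousLinearMap.mul_apply']
    rw [(FF_side h0 h1 hN hτ).2]; ring
  have hneg : ∀ w v : ℂ, fderiv ℝ (HH r N) (-w) (-v) = fderiv ℝ (HH r N) w v := by
    intro w v
    have := HH_fderiv_rot h0 h1 hN 3 w v
    rw [zt_cube, show zt ^ (2 * 3) = 1 from zt_six, one_mul] at this
    simpa using this
  apply clm_ext_side h0
  · -- direction of the side
    set f : ℝ → ℂ := fun τ => fderiv ℝ (HH r N) (lam r + τ * (lam r * I)) (lam r * I) with hf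
    set g : ℝ → ℂ := fun τ => fderiv ℝ (HH r N) (-lam r + τ * (lam r * I)) (lam r * I) with hg
    have hfc : Continuous f := by
      have h2 := (HH_contDiff h0 h1 hN).continuous_fderiv (by simp)
      exact (h2.comp (by fun_prop : Continuous fun τ : ℝ => lam r + τ * (lam r * I))).clm_apply
        continuous_const
    have hgc : Continuous g := by
      have h2 := (HH_contDiff h0 h1 hN).continuous_fderiv (by simp)
      exact (h2.comp (by fun_prop : Continuous fun τ : ℝ => -lam r + τ * (lam r * I))).clm_apply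
        continuous_const
    have heq : EqOn f g (Ioo (-YY) YY) := by
      intro t ht
      have a1 := hf2_tderiv h0 h1 hN (lam r) t
      have a2 := hf2_tderiv h0 h1 hN (-lam r) t
      have e : (fun t : ℝ => HH r N (lam r + t * (lam r * I))) =ᶠ[nhds t]
          fun t : ℝ => HH r N (-lam r + t * (lam r * I)) := by
        filter_upwards [Ioo_mem_nhds ht.1 ht.2] with s hs
        have := HH_side_val h0 h1 hN (τ := s) (abs_le.mpr ⟨hs.1.le, hs.2.le⟩)
        have e1 : lam r + s * (lam r * I) = lam r * (1 + s * I) := by ring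
        have e2 : -lam r + s * (lam r * I) = -(lam r * (1 - s * I)) := by ring
        rw [e1, e2, this]
      exact a1.unique (a2.congr_of_eventuallyEq e)
    have hcl : EqOn f g (closure (Ioo (-YY) YY)) := heq.closure hfc hgc
    rw [closure_Ioo (by linarith)] at hcl
    have := hcl (abs_le.mp hτ)
    simp only [hf, hg] at this
    have e1 : lam r + τ * (lam r * I) = lam r * (1 + τ * I) := by ring
    have e2 : -lam r + τ * (lam r * I) = -(lam r * (1 - τ * I)) := by ring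
    rwa [e1, e2] at this
  · rw [hal hτ]
    have h2 := hneg (lam r * (1 - τ * I)) (-al)
    rw [neg_neg] at h2
    rw [h2]
    have h3 := hal (τ := -τ) (by rwa [abs_neg])
    have e : lam r * (1 - τ * I) = lam r * (1 + ((-τ : ℝ) : ℂ) * I) := by push_cast; ring
    rw [e, map_neg, h3]
    push_cast; ring

/-- matching along the sides of the Voronoi cells -/
theorem HH_match {r : ℝ} (h0 : 0 < r) (h1 : r ≤ 1 / 100) {N : ℕ} (hN : 10 ≤ N) {m : ℤ × ℤ} {w : ℂ}
    (hw : w ∈ Vor r) (hw' : w - lat r m ∈ Vor r) :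
    HH r N w = HH r N (w - lat r m) ∧
    fderiv ℝ (HH r N) w = fderiv ℝ (HH r N) (w - lat r m) := by
  by_cases hm : m = 0
  · subst hm
    have : lat r 0 = 0 := by simp [lat]
    rw [this, sub_zero]; exact ⟨rfl, rfl⟩
  obtain ⟨k, hk, hl, τ, hτ, e⟩ := vor_side h0 h1 hm hw hw'
  have e' : w - lat r m = zt ^ k * (-(lam r * (1 - τ * I))) := by rw [e, hl]; ring
  rw [e', e, HH_rot h0 h1 hN, HH_rot h0 h1 hN, HH_side_val h0 h1 hN hτ]
  refine ⟨rfl, ?_⟩
  have hz : zt ^ k * conj (zt ^ k) = 1 := zt_mul_conj_pow k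
  refine ContinuousLinearMap.ext fun v => ?_
  have ev : v = zt ^ k * (conj (zt ^ k) * v) := by rw [← mul_assoc, hz, one_mul]
  rw [ev, HH_fderiv_rot h0 h1 hN, HH_fderiv_rot h0 h1 hN, HH_side_fderiv h0 h1 hN hτ]

/-- matching along the sides of the Voronoi cells -/
theorem Xi_match {r : ℝ} (h0 : 0 < r) (h1 : r ≤ 1 / 100) {N : ℕ} (hN : 10 ≤ N) {m : ℤ × ℤ} {w : ℂ}
    (hw : w ∈ Vor r) (hw' : w - lat r m ∈ Vor r) :
    FF r N w - w ^ 2 / 2 = FF r N (w - lat r m) - (w - lat r m) ^ 2 / 2 ∧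
    fderiv ℝ (fun w => FF r N w - w ^ 2 / 2) w =
      fderiv ℝ (fun w => FF r N w - w ^ 2 / 2) (w - lat r m) :=
  HH_match h0 h1 hN hw hw'

theorem Xi_eq {r : ℝ} (h0 : 0 < r) (h1 : r ≤ 1 / 100) {N : ℕ} (hN : 10 ≤ N) {m : ℤ × ℤ} {z : ℂ}
    (hz : z - lat r m ∈ Vor r) : Xi r N z = FF r N (z - lat r m) - (z - lat r m) ^ 2 / 2 := by
  have h : ∃ m : ℤ × ℤ, z ∈ {z | z - lat r m ∈ Vor r} := ⟨m, hz⟩
  unfold Xi glue
  rw [dif_pos h]
  have hs : z - lat r h.choose ∈ Vor r := h.choose_spec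
  have e : z - lat r m - lat r (h.choose - m) = z - lat r h.choose := by
    have := lat_add r (h.choose - m) m
    rw [sub_add_cancel] at this
    rw [this]; ring
  have := (Xi_match h0 h1 hN (m := h.choose - m) hz (by rw [e]; exact hs)).1
  rw [e] at this
  exact this.symm

theorem Xi_c11 {r : ℝ} (h0 : 0 < r) (h1 : r ≤ 1 / 100) {N : ℕ} (hN : 10 ≤ N) : C11 (Xi r N) := by
  obtain ⟨C, hC⟩ := FF_c11
  have hLip : LipschitzWith (C + 1) (fderiv ℝ (HH r N)) := by
    have e : fderiv ℝ (HH r N) = fun w => fderiv ℝ (FF r N) w - ContinuousLinearMap.mul ℝ ℂ w := by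
      ext1 w; exact (HH_diff h0 h1 hN w).fderiv
    rw [e]
    refine (hC r h0 h1 N hN).2.sub ?_
    refine LipschitzWith.of_dist_le_mul fun x y => ?_
    rw [dist_eq_norm, dist_eq_norm, ← map_sub]
    simp only [NNReal.coe_one, one_mul]
    exact ContinuousLinearMap.opNorm_mul_apply_le ℝ ℂ _
  have := c11_glue_per (ι := ℤ × ℤ) (isClosed_Vor r) (convex_Vor r) (c := lat r) (vor_cover h0)
    (vor_locallyFinite h0) (F := Xi r N) (HH_contDiff h0 h1 hN)
    (fun m z hz => Xi_eq h0 h1 hN hz) hLip ?_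
  · exact ⟨this.1, _, this.2.1⟩
  · intro i j z hi hj
    have e : z - lat r i - lat r (j - i) = z - lat r j := by
      have := lat_add r (j - i) i
      rw [sub_add_cancel] at this
      rw [this]; ring
    have := (HH_match h0 h1 hN (m := j - i) hi (by rw [e]; exact hj)).2
    rw [e] at this
    exact this

theorem Xi_per {r : ℝ} (h0 : 0 < r) (h1 : r ≤ 1 / 100) {N : ℕ} (hN : 10 ≤ N) :
    PerL (2 * lam r) (2 * lam r * zt) (Xi r N) := by
  intro z
  obtain ⟨m, hm⟩ := vor_cover h0 z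
  have key : ∀ m' : ℤ × ℤ, Xi r N (z + lat r m') = Xi r N z := by
    intro m'
    have e : z + lat r m' - lat r (m + m') = z - lat r m := by rw [lat_add]; ring
    rw [Xi_eq h0 h1 hN hm, Xi_eq h0 h1 hN (m := m + m') (by rw [e]; exact hm), e]
  constructor
  · have := key (1, 0)
    rw [← this]; congr 2; simp [lat]
  · have := key (0, 1)
    rw [← this]; congr 2; simp [lat]

theorem D2_quad (a b c : ℂ) (z x y : ℂ) :
    D2 (fun z => a + b * z + c * conj z - z ^ 2 / 2) z x y = -(x * y) := by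
  have hconj : ∀ z, HasFDerivAt (fun z : ℂ => conj z) (Complex.conjCLE : ℂ →L[ℝ] ℂ) z :=
    fun z => (Complex.conjCLE : ℂ →L[ℝ] ℂ).hasFDerivAt
  have h1 : ∀ z, HasFDerivAt (fun z : ℂ => a + b * z + c * conj z - z ^ 2 / 2)
      ((ContinuousLinearMap.mul ℝ ℂ b + c • (Complex.conjCLE : ℂ →L[ℝ] ℂ)) -
        ContinuousLinearMap.mul ℝ ℂ z) z := by
    intro z
    have ha : HasFDerivAt (fun z : ℂ => b * z) (ContinuousLinearMap.mul ℝ ℂ b) z :=
      (ContinuousLinearMap.mul ℝ ℂ b).hasFDerivAt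
    exact ((ha.const_add a).add ((hconj z).const_mul c)).sub (hasFDerivAt_sq z)
  have e : fderiv ℝ (fun z : ℂ => a + b * z + c * conj z - z ^ 2 / 2) = fun z =>
      ((ContinuousLinearMap.mul ℝ ℂ b + c • (Complex.conjCLE : ℂ →L[ℝ] ℂ)) -
        ContinuousLinearMap.mul ℝ ℂ z) := by
    ext1 z; exact (h1 z).fderiv
  unfold D2
  rw [e]
  have h2 : HasFDerivAt (fun z : ℂ => ((ContinuousLinearMap.mul ℝ ℂ b +
      c • (Complex.conjCLE : ℂ →L[ℝ] ℂ)) - ContinuousLinearMap.mul ℝ ℂ z))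
      (-(ContinuousLinearMap.mul ℝ ℂ)) z :=
    (ContinuousLinearMap.mul ℝ ℂ).hasFDerivAt.const_sub _
  rw [h2.fderiv]
  simp

theorem Xi_flat {r : ℝ} (h0 : 0 < r) (h1 : r ≤ 1 / 100) {N : ℕ} (hN : 10 ≤ N) :
    Flat (Xi r N) (Vd r N) := by
  have hfr : volume (frontier (Vor r)) = 0 := (convex_Vor r).addHaar_frontier volume
  have hnull : ∀ m : ℤ × ℤ, ∀ᵐ z : ℂ, z - lat r m ∉ frontier (Vor r) := by
    intro m
    have hq : Measure.QuasiMeasurePreserving (fun z : ℂ => z - lat r m) volume volume :=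
      (measurePreserving_sub_right volume (lat r m)).quasiMeasurePreserving
    have h0 := hq.preimage_null hfr
    exact measure_eq_zero_iff_ae_notMem.mp h0
  have hall : ∀ᵐ z : ℂ, ∀ m : ℤ × ℤ, z - lat r m ∉ frontier (Vor r) := ae_all_iff.mpr hnull
  unfold Flat
  filter_upwards [hall] with z hz hv x y
  obtain ⟨m, hm⟩ := vor_cover h0 z
  have hint : z - lat r m ∈ interior (Vor r) := by
    have h3 := hz m
    rw [(isClosed_Vor r).frontier_eq] at h3
    by_contra hc
    exact h3 ⟨hm, hc⟩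
  obtain ⟨a, b, c, hF⟩ := FF_flat h0 h1 hN hm (hv m hm)
  have hcont : Filter.Tendsto (fun z : ℂ => z - lat r m) (nhds z) (nhds (z - lat r m)) :=
    (continuous_id.sub continuous_const).tendsto z
  have e1 : ∀ᶠ z' in nhds z, z' - lat r m ∈ Vor r :=
    hcont.eventually (mem_interior_iff_mem_nhds.mp hint)
  have e2 := hcont.eventually hF
  have ev : Xi r N =ᶠ[nhds z] fun z' => (a - b * lat r m - c * conj (lat r m) - lat r m ^ 2 / 2) +
      (b + lat r m) * z' + c * conj z' - z' ^ 2 / 2 := by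
    filter_upwards [e1, e2] with z' h3 h4
    rw [Xi_eq h0 h1 hN h3, h4 h3, map_sub]; ring
  have e3 := ev.fderiv (𝕜 := ℝ)
  have : D2 (Xi r N) z x y = D2 (fun z' => (a - b * lat r m - c * conj (lat r m) - lat r m ^ 2 / 2) +
      (b + lat r m) * z' + c * conj z' - z' ^ 2 / 2) z x y := by
    unfold D2
    rw [e3.fderiv_eq]
  rw [this, D2_quad]

end EBC
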