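import Pool.Agent.Work.MP_ebc928_an.Assembly
import Pool.Agent.Work.MP_ebc928_an.Gauge

open MeasureTheory Complex Set
open scoped ContDiff ComplexConjugate NNReal

noncomputable section
namespace EBC

private theorem cross {x y : ℂ} {s : ℝ} (hx : gau x ≤ s) (hy : s ≤ gau y) :
    ∃ w : ℂ, gau w = s ∧ ‖x - w‖ + ‖w - y‖ = ‖x - y‖ := by
  have hc : ContinuousOn gau (segment ℝ x y) := gau_lipschitz.continuous.continuousOn
  obtain ⟨w, hw, he⟩ := (convex_segment x y).isPreconnected.intermediate_value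
    (left_mem_segment ℝ x y) (right_mem_segment ℝ x y) hc ⟨hx, hy⟩
  refine ⟨w, he, ?_⟩
  have := dist_add_dist_of_mem_segment hw
  simpa [dist_eq_norm] using this

/-- the displacement for the content scaled by `s` -/
private def scf (ψ : ℂ → ℂ) (s : ℝ) (z : ℂ) : ℂ :=
  open Classical in
  if gau z ≤ s then cen + s⁻¹ • (hom s⁻¹ z - cen) + s⁻¹ • ψ (hom s⁻¹ z) - z
  else if gau z ≤ 1 then gfield z - z else 0

private theorem hom_inv_hom {s : ℝ} (hs : s ≠ 0) (z : ℂ) : hom s⁻¹ (hom s z) = z := by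
  rw [hom_hom, inv_mul_cancel₀ hs]; simp [hom]

private theorem hom_hom_inv {s : ℝ} (hs : s ≠ 0) (z : ℂ) : hom s (hom s⁻¹ z) = z := by
  rw [hom_hom, mul_inv_cancel₀ hs]; simp [hom]

private theorem hom_sub (s : ℝ) (x y : ℂ) : hom s x - hom s y = s • (x - y) := by
  simp only [hom, Complex.real_smul]; ring

private theorem scf_outer {ψ : ℂ → ℂ} (hψ1 : ∀ z, gau z = 1 → ψ z = 0) {s : ℝ} (hs : 0 < s)
    {z : ℂ} (hz : s ≤ gau z) :
    scf ψ s z = if gau z ≤ 1 then gfield z - z else (if s ≤ 1 then 0 else scf ψ s z) := by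
  classical
  rcases eq_or_lt_of_le hz with h | h
  · -- gau z = s
    have hg : gau (hom s⁻¹ z) = 1 := by
      rw [gau_hom (inv_nonneg.mpr hs.le), ← h, inv_mul_cancel₀ hs.ne']
    split_ifs with h1 h2
    · simp only [scf, ← h, le_refl, if_true]
      rw [hψ1 _ hg]
      have : gfield z = cen + s⁻¹ • (hom s⁻¹ z - cen) := by
        simp only [gfield, ← h, hom, Complex.real_smul]
        push_cast
        ring
      rw [this]; simp
    · exact absurd (h ▸ h2 : gau z ≤ 1) h1
    · rfl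
  · split_ifs with h1 h2
    · simp only [scf, not_le.mpr h, if_false, h1, if_true]
    · simp only [scf, not_le.mpr h, if_false, h1]
    · rfl

private theorem scf_lip {ψ : ℂ → ℂ} {K : ℝ} (hK : 0 ≤ K) (hψ : ∀ x y, ‖ψ x - ψ y‖ ≤ K * ‖x - y‖)
    (hψ1 : ∀ z, gau z = 1 → ψ z = 0) {C : ℝ} (hC : 0 < C)
    (hg : ∀ s : ℝ, 0 < s → ∀ z z' : ℂ, s ≤ gau z → s ≤ gau z' →
      ‖gfield z - gfield z'‖ ≤ C / s ^ 2 * ‖z - z'‖) {s : ℝ} (hs : 0 < s) (hs1 : s ≤ 1) :
    (∀ x y, ‖scf ψ s x - scf ψ s y‖ ≤ (s⁻¹ * s⁻¹ * (1 + K) + 1 + (C / s ^ 2 + 1)) * ‖x - y‖) ∧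
    ∀ x y, s ≤ gau x → s ≤ gau y → ‖scf ψ s x - scf ψ s y‖ ≤ (C / s ^ 2 + 1) * ‖x - y‖ := by
  classical
  have hsi : 0 < s⁻¹ := inv_pos.mpr hs
  have hL2 : 0 ≤ C / s ^ 2 + 1 := by positivity
  have hL1 : 0 ≤ s⁻¹ * s⁻¹ * (1 + K) + 1 := by positivity
  have inner : ∀ x y, gau x ≤ s → gau y ≤ s →
      ‖scf ψ s x - scf ψ s y‖ ≤ (s⁻¹ * s⁻¹ * (1 + K) + 1) * ‖x - y‖ := by
    intro x y hx hy
    simp only [scf, hx, hy, if_true]
    have : (cen + s⁻¹ • (hom s⁻¹ x - cen) + s⁻¹ • ψ (hom s⁻¹ x) - x) -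
        (cen + s⁻¹ • (hom s⁻¹ y - cen) + s⁻¹ • ψ (hom s⁻¹ y) - y) =
        s⁻¹ • (s⁻¹ • (x - y)) + s⁻¹ • (ψ (hom s⁻¹ x) - ψ (hom s⁻¹ y)) + -(x - y) := by
      simp only [hom, Complex.real_smul]; ring
    rw [this]
    have h1 : ‖s⁻¹ • (s⁻¹ • (x - y))‖ = s⁻¹ * (s⁻¹ * ‖x - y‖) := by
      rw [norm_smul, norm_smul, Real.norm_of_nonneg hsi.le]
    have h2 : ‖s⁻¹ • (ψ (hom s⁻¹ x) - ψ (hom s⁻¹ y))‖ ≤ s⁻¹ * (K * (s⁻¹ * ‖x - y‖)) := by
      rw [norm_smul, Real.norm_of_nonneg hsi.le]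
      refine mul_le_mul_of_nonneg_left ((hψ _ _).trans ?_) hsi.le
      rw [hom_sub, norm_smul, Real.norm_of_nonneg hsi.le]
    refine (norm_add_le _ _).trans ?_
    rw [norm_neg]
    refine (add_le_add_left ((norm_add_le _ _).trans (add_le_add h1.le h2)) _).trans ?_
    apply le_of_eq
    ring
  have outer : ∀ x y, s ≤ gau x → s ≤ gau y →
      ‖scf ψ s x - scf ψ s y‖ ≤ (C / s ^ 2 + 1) * ‖x - y‖ := by
    have o1 : ∀ x y, s ≤ gau x → s ≤ gau y → gau x ≤ 1 → gau y ≤ 1 →
        ‖scf ψ s x - scf ψ s y‖ ≤ (C / s ^ 2 + 1) * ‖x - y‖ := by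
      intro x y hx hy hx1 hy1
      rw [scf_outer hψ1 hs hx, scf_outer hψ1 hs hy]
      simp only [hx1, hy1, if_true]
      have : gfield x - x - (gfield y - y) = (gfield x - gfield y) + -(x - y) := by ring
      rw [this]
      refine (norm_add_le _ _).trans ?_
      rw [norm_neg]
      refine (add_le_add_left (hg s hs x y hx hy) _).trans ?_
      apply le_of_eq; ring
    have z0 : ∀ x, 1 < gau x → scf ψ s x = 0 := by
      intro x hx
      rw [scf_outer hψ1 hs (hs1.trans hx.le)]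
      simp [not_le.mpr hx, hs1]
    have z1 : ∀ x, gau x = 1 → scf ψ s x = 0 := by
      intro x hx
      rw [scf_outer hψ1 hs (by rw [hx]; exact hs1)]
      simp [hx, gfield_of_gau_one hx]
    have o2 : ∀ x y, s ≤ gau x → s ≤ gau y → gau x ≤ 1 → 1 < gau y →
        ‖scf ψ s x - scf ψ s y‖ ≤ (C / s ^ 2 + 1) * ‖x - y‖ := by
      intro x y hx hy hx1 hy1
      obtain ⟨w, hw, hd⟩ := cross hx1 hy1.le
      rw [z0 y hy1, ← z1 w hw]
      refine (o1 x w hx (by rw [hw]; exact hs1) hx1 hw.le).trans ?_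
      refine mul_le_mul_of_nonneg_left ?_ hL2
      have := norm_nonneg (w - y)
      linarith
    intro x y hx hy
    rcases le_or_gt (gau x) 1 with hx1 | hx1
    · rcases le_or_gt (gau y) 1 with hy1 | hy1
      · exact o1 x y hx hy hx1 hy1
      · exact o2 x y hx hy hx1 hy1
    · rcases le_or_gt (gau y) 1 with hy1 | hy1
      · have := o2 y x hy hx hy1 hx1
        rwa [norm_sub_rev, norm_sub_rev y x] at this
      · rw [z0 x hx1, z0 y hy1, sub_self, norm_zero]
        positivity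
  refine ⟨?_, outer⟩
  have mixed : ∀ x y, gau x ≤ s → s ≤ gau y → ‖scf ψ s x - scf ψ s y‖ ≤
      (s⁻¹ * s⁻¹ * (1 + K) + 1 + (C / s ^ 2 + 1)) * ‖x - y‖ := by
    intro x y hx hy
    obtain ⟨w, hw, hd⟩ := cross hx hy
    have e1 := inner x w hx hw.le
    have e2 := outer w y hw.ge hy
    have : scf ψ s x - scf ψ s y = (scf ψ s x - scf ψ s w) + (scf ψ s w - scf ψ s y) := by ring
    rw [this]
    refine (norm_add_le _ _).trans ((add_le_add e1 e2).trans ?_)
    rw [← hd]
    have a1 := norm_nonneg (x - w)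
    have a2 := norm_nonneg (w - y)
    nlinarith [mul_nonneg hL1 a2, mul_nonneg hL2 a1]
  intro x y
  rcases le_or_gt (gau x) s with hx | hx
  · rcases le_or_gt (gau y) s with hy | hy
    · refine (inner x y hx hy).trans ?_
      have := norm_nonneg (x - y)
      nlinarith [mul_nonneg hL2 this]
    · exact mixed x y hx hy.le
  · rcases le_or_gt (gau y) s with hy | hy
    · have := mixed y x hy hx.le
      rwa [norm_sub_rev, norm_sub_rev y x] at this
    · refine (outer x y hx.le hy.le).trans ?_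
      have := norm_nonneg (x - y)
      nlinarith [mul_nonneg hL1 this]

/-- zero outside `tri` and continuous implies zero on the boundary -/
private theorem zero_of_gau_one {ψ : ℂ → ℂ} (hc : Continuous ψ) (h0 : ∀ z ∉ tri, ψ z = 0) {z : ℂ}
    (hz : gau z = 1) : ψ z = 0 := by
  have hlim : Filter.Tendsto (fun n : ℕ => ψ (hom (1 + 1 / ((n : ℝ) + 1)) z)) Filter.atTop
      (nhds (ψ z)) := by
    have h1 : Filter.Tendsto (fun n : ℕ => (1 : ℝ) + 1 / ((n : ℝ) + 1)) Filter.atTop (nhds 1) := by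
      have := (tendsto_one_div_add_atTop_nhds_zero_nat (𝕜 := ℝ)).const_add 1
      simpa using this
    have h2 : Continuous fun s : ℝ => ψ (hom s z) := by
      have : Continuous fun s : ℝ => hom s z := by unfold hom; fun_prop
      exact hc.comp this
    have h3 := (h2.tendsto 1).comp h1
    have : hom 1 z = z := by simp [hom]
    rwa [this] at h3
  have hzero : (fun n : ℕ => ψ (hom (1 + 1 / ((n : ℝ) + 1)) z)) = fun _ => 0 := by
    funext n
    refine h0 _ ?_
    rw [mem_tri_iff_gau, gau_hom (by positivity), hz, mul_one, not_le]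
    have : (0 : ℝ) < 1 / ((n : ℝ) + 1) := by positivity
    linarith
  rw [hzero] at hlim
  exact (tendsto_nhds_unique hlim tendsto_const_nhds)

private theorem ae_hom {P : ℂ → Prop} (h : ∀ᵐ z, P z) {s : ℝ} (hs : 0 < s) :
    ∀ᵐ z, P (hom s⁻¹ z) := by
  have := (simR_hom hs).ae_image (V := {z | P z}) (V' := univ) (by
    filter_upwards [h] with z hz
    simp [hz])
  filter_upwards [this] with z hz
  have hmem : z ∈ hom s '' univ := ⟨hom s⁻¹ z, mem_univ _, hom_hom_inv hs.ne' z⟩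
  obtain ⟨p, hp, rfl⟩ := hz.mpr hmem
  rw [hom_inv_hom hs.ne']
  exact hp

private theorem scf_fderiv {ψ : ℂ → ℂ} {s : ℝ} (hs : 0 < s) {z : ℂ} (hz : gau z < s)
    (hd : DifferentiableAt ℝ ψ (hom s⁻¹ z)) :
    dv (scf ψ s) z = s⁻¹ * s⁻¹ * (2 + dv ψ (hom s⁻¹ z)) - 2 ∧
    dbar (scf ψ s) z = ((s⁻¹ * s⁻¹ : ℝ) : ℂ) * dbar ψ (hom s⁻¹ z) := by
  classical
  have hev : scf ψ s =ᶠ[nhds z]
      fun w => cen + s⁻¹ • (hom s⁻¹ w - cen) + s⁻¹ • ψ (hom s⁻¹ w) - w := by
    have : {w | gau w < s} ∈ nhds z :=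
      (isOpen_lt gau_lipschitz.continuous continuous_const).mem_nhds hz
    filter_upwards [this] with w hw
    simp only [scf, (show gau w ≤ s from le_of_lt hw), if_true]
  have hh : HasFDerivAt (fun w => hom s⁻¹ w) (s⁻¹ • ContinuousLinearMap.id ℝ ℂ) z := by
    have : HasFDerivAt (fun w : ℂ => cen + s⁻¹ • (w - cen)) (s⁻¹ • ContinuousLinearMap.id ℝ ℂ) z :=
      (((hasFDerivAt_id z).sub_const cen).const_smul s⁻¹).const_add cen
    exact this
  have h2 : HasFDerivAt (fun w => ψ (hom s⁻¹ w))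
      ((fderiv ℝ ψ (hom s⁻¹ z)).comp (s⁻¹ • ContinuousLinearMap.id ℝ ℂ)) z :=
    hd.hasFDerivAt.comp z hh
  have h3 := ((((hh.sub_const cen).const_smul s⁻¹).const_add cen).add (h2.const_smul s⁻¹)).sub
    (hasFDerivAt_id z)
  have hfd : fderiv ℝ (scf ψ s) z = s⁻¹ • (s⁻¹ • ContinuousLinearMap.id ℝ ℂ) +
      s⁻¹ • (fderiv ℝ ψ (hom s⁻¹ z)).comp (s⁻¹ • ContinuousLinearMap.id ℝ ℂ) -
      ContinuousLinearMap.id ℝ ℂ := by
    rw [hev.fderiv_eq]
    exact h3.fderiv
  constructor
  · simp only [dv, hfd]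
    simp
    ring
  · simp only [dbar, hfd]
    simp
    ring_nf
    simp
    ring

private theorem dbar_norm_le {f : ℂ → ℂ} {z : ℂ} {L : ℝ} (h : ‖fderiv ℝ f z‖ ≤ L) :
    ‖dbar f z‖ ≤ L := by
  have h1 : ‖fderiv ℝ f z 1‖ ≤ L := by
    refine ((fderiv ℝ f z).le_opNorm 1).trans ?_
    simpa using h
  have h2 : ‖fderiv ℝ f z I‖ ≤ L := by
    refine ((fderiv ℝ f z).le_opNorm I).trans ?_
    simpa using h
  rw [dbar, norm_div]
  have : ‖fderiv ℝ f z 1 + I * fderiv ℝ f z I‖ ≤ L + L := by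
    refine (norm_add_le _ _).trans (add_le_add h1 ?_)
    rw [norm_mul, Complex.norm_I, one_mul]
    exact h2
  simp only [Complex.norm_ofNat]
  linarith

private theorem measurable_dbar (f : ℂ → ℂ) : Measurable (dbar f) := by
  have h1 : Measurable fun z => fderiv ℝ f z 1 := measurable_fderiv_apply_const ℝ f 1
  have h2 : Measurable fun z => fderiv ℝ f z I := measurable_fderiv_apply_const ℝ f I
  exact (h1.add (measurable_const.mul h2)).div_const 2

/-- a cluster which is scaled down by at most a factor `1/10` still has bounded energy -/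
theorem goodA_hom {C : Set ℂ} (hC : MeasurableSet C) (hCt : C ⊆ tri) {e : ℝ} (h : GoodA C e) :
    ∃ G : ℝ, ∀ s ∈ Icc (1 / 10 : ℝ) 1, GoodA (hom s '' C) G := by
  obtain ⟨ψ, ⟨K, hK⟩, hψ0, hψd, hψe⟩ := h
  obtain ⟨C₀, hC₀, hg⟩ := gfield_lipschitz
  have hψ1 : ∀ z, gau z = 1 → ψ z = 0 := fun z hz => zero_of_gau_one hK.continuous hψ0 hz
  have hψK : ∀ x y, ‖ψ x - ψ y‖ ≤ K * ‖x - y‖ := by
    intro x y
    have := hK.dist_le_mul x y
    simpa [dist_eq_norm] using this
  set E : ℝ := ∫ z in tri \ C, 4 * ‖dbar ψ z‖ ^ 2 with hE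
  have hE0 : 0 ≤ E := integral_nonneg fun z => by positivity
  refine ⟨100 * e + 4 * (100 * C₀ + 1) ^ 2 * (1 / 8), ?_⟩
  intro s hs
  have hs0 : 0 < s := by linarith [hs.1]
  have hs1 : s ≤ 1 := hs.2
  have hsi0 : 0 < s⁻¹ := inv_pos.mpr hs0
  have hsi : s⁻¹ ≤ 10 := by
    rw [inv_le_comm₀ hs0 (by norm_num)]
    linarith [hs.1]
  obtain ⟨hL, hLo⟩ := scf_lip K.2 hψK hψ1 hC₀ hg hs0 hs1
  set L : ℝ := s⁻¹ * s⁻¹ * (1 + K) + 1 + (C₀ / s ^ 2 + 1) with hLdef
  have hL0 : 0 ≤ L := by
    have : (0 : ℝ) ≤ K := K.2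
    positivity
  have hlip : LipschitzWith ⟨L, hL0⟩ (scf ψ s) := by
    refine LipschitzWith.of_dist_le_mul fun x y => ?_
    rw [dist_eq_norm, dist_eq_norm]; exact hL x y
  -- almost everywhere statements
  have hdiff : ∀ᵐ z, z ∈ tri → z ∉ C → DifferentiableAt ℝ ψ z := by
    filter_upwards [hψd] with z hz hzt hzC
    by_contra hnd
    have h0 := hz hzt hzC
    rw [dv, fderiv_zero_of_not_differentiableAt hnd] at h0
    simp at h0
  have hlev : ∀ᵐ z : ℂ, gau z ≠ s := by
    filter_upwards [measure_eq_zero_iff_ae_notMem.mp (null_gau_level s hs0)] with z hz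
    exact hz
  have hlev1 : ∀ᵐ z : ℂ, gau z ≠ 1 := by
    filter_upwards [measure_eq_zero_iff_ae_notMem.mp (null_gau_level 1 one_pos)] with z hz
    exact hz
  have ha1 := ae_hom hψd hs0
  have ha2 := ae_hom hdiff hs0
  have hpt : ∀ z, gau z < s → hom s⁻¹ z ∈ tri := by
    intro z hz
    rw [mem_tri_iff_gau, gau_hom hsi0.le]
    calc s⁻¹ * gau z ≤ s⁻¹ * s := mul_le_mul_of_nonneg_left hz.le hsi0.le
      _ = 1 := inv_mul_cancel₀ hs0.ne'
  have hinC : ∀ z, z ∈ hom s '' C ↔ hom s⁻¹ z ∈ C := by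
    intro z
    constructor
    · rintro ⟨p, hp, rfl⟩; rwa [hom_inv_hom hs0.ne']
    · intro h; exact ⟨_, h, hom_hom_inv hs0.ne' z⟩
  refine ⟨scf ψ s, ⟨_, hlip⟩, ?_, ?_, ?_⟩
  · intro z hz
    rw [mem_tri_iff_gau, not_le] at hz
    simp only [scf, not_le.mpr hz, not_le.mpr (hs1.trans_lt hz), if_false]
  · filter_upwards [ha1, ha2, hlev, hlev1, gfield_div] with z h1 h2 h3 h4 h5 hzt hzC
    rw [hinC] at hzC
    rcases lt_or_gt_of_ne h3 with hlt | hgt
    · have hpm := hpt z hlt
      rw [(scf_fderiv hs0 hlt (h2 hpm hzC)).1, h1 hpm hzC]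
      ring
    · rw [mem_tri_iff_gau] at hzt
      have hlt1 : gau z < 1 := lt_of_le_of_ne hzt h4
      have hev : scf ψ s =ᶠ[nhds z] fun w => gfield w - w := by
        have : {w | gau w < 1} ∩ {w | s < gau w} ∈ nhds z :=
          ((isOpen_lt gau_lipschitz.continuous continuous_const).inter
            (isOpen_lt continuous_const gau_lipschitz.continuous)).mem_nhds ⟨hlt1, hgt⟩
        filter_upwards [this] with w hw
        simp only [scf, not_le.mpr (show s < gau w from hw.2), if_false,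
          (show gau w ≤ 1 from le_of_lt hw.1), if_true]
      have hfd : fderiv ℝ (scf ψ s) z = fderiv ℝ gfield z - ContinuousLinearMap.id ℝ ℂ := by
        rw [hev.fderiv_eq]
        exact (h5.1.hasFDerivAt.sub (hasFDerivAt_id z)).fderiv
      have hdv := h5.2
      simp only [dv] at hdv
      simp only [dv, hfd]
      simp
      linarith
  · -- energy
    have hbd : ∀ z, 4 * ‖dbar (scf ψ s) z‖ ^ 2 ≤ 4 * L ^ 2 := by
      intro z
      have := dbar_norm_le (norm_fderiv_le_of_lipschitz ℝ hlip (x₀ := z))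
      have h0 := norm_nonneg (dbar (scf ψ s) z)
      have h1 : ‖dbar (scf ψ s) z‖ ≤ L := this
      nlinarith
    have hmeas : Measurable fun z => 4 * ‖dbar (scf ψ s) z‖ ^ 2 :=
      measurable_const.mul ((measurable_dbar _).norm.pow_const 2)
    have hvt : volume tri < ⊤ := by rw [volume_tri]; exact ENNReal.ofReal_lt_top
    have hint : ∀ A : Set ℂ, A ⊆ tri → IntegrableOn (fun z => 4 * ‖dbar (scf ψ s) z‖ ^ 2) A := by
      intro A hA
      refine Measure.integrableOn_of_bounded (M := 4 * L ^ 2)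
        ((measure_mono hA).trans_lt hvt).ne hmeas.aestronglyMeasurable ?_
      refine ae_of_all _ fun z => ?_
      rw [Real.norm_of_nonneg (by positivity)]
      exact hbd z
    have hsplit : tri \ hom s '' C = hom s '' (tri \ C) ∪ (tri \ hom s '' tri) := by
      have hinj : Function.Injective (hom s) := (simR_hom hs0).injective
      have hst : hom s '' tri ⊆ tri := hom_image_subset hs0.le hs1
      rw [image_sdiff hinj]
      ext z
      simp only [mem_sdiff, mem_union]
      constructor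
      · rintro ⟨h1, h2⟩
        by_cases h3 : z ∈ hom s '' tri
        · exact Or.inl ⟨h3, h2⟩
        · exact Or.inr ⟨h1, h3⟩
      · rintro (⟨h1, h2⟩ | ⟨h1, h2⟩)
        · exact ⟨hst h1, h2⟩
        · exact ⟨h1, fun h' => h2 (image_mono hCt h')⟩
    have hm2 : MeasurableSet (tri \ hom s '' tri) :=
      measurableSet_tri.diff ((simR_hom hs0).measurableSet_image measurableSet_tri)
    have hm1 : MeasurableSet (hom s '' (tri \ C)) :=
      (simR_hom hs0).measurableSet_image (measurableSet_tri.diff hC)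
    have hsub1 : hom s '' (tri \ C) ⊆ tri :=
      (image_mono sdiff_subset).trans (hom_image_subset hs0.le hs1)
    rw [hsplit, setIntegral_union ?_ hm2 (hint _ hsub1) (hint _ sdiff_subset)]
    · -- inner part
      have hin : ∫ z in hom s '' (tri \ C), 4 * ‖dbar (scf ψ s) z‖ ^ 2 = s⁻¹ * s⁻¹ * E := by
        have hc1 : ∫ z in hom s '' (tri \ C), 4 * ‖dbar (scf ψ s) z‖ ^ 2 =
            ∫ z in hom s '' (tri \ C), (s⁻¹ * s⁻¹) ^ 2 * (4 * ‖dbar ψ (hom s⁻¹ z)‖ ^ 2) := by
          refine setIntegral_congr_ae hm1 ?_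
          filter_upwards [ha2, hlev] with z h2 h3 hz
          have hz' : z ∈ hom s '' tri := image_mono sdiff_subset hz
          rw [hom_image_tri hs0] at hz'
          have hlt : gau z < s := lt_of_le_of_ne hz' h3
          have hzC : hom s⁻¹ z ∉ C := by
            obtain ⟨p, hp, rfl⟩ := hz
            rw [hom_inv_hom hs0.ne']; exact hp.2
          rw [(scf_fderiv hs0 hlt (h2 (hpt z hlt) hzC)).2, norm_mul, Complex.norm_real,
            Real.norm_of_nonneg (by positivity)]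
          ring
        rw [hc1]
        have hder : ∀ x ∈ tri \ C, HasFDerivWithinAt (hom s) (s • ContinuousLinearMap.id ℝ ℂ)
            (tri \ C) x := by
          intro x _
          have : HasFDerivAt (fun w : ℂ => cen + s • (w - cen)) (s • ContinuousLinearMap.id ℝ ℂ) x :=
            (((hasFDerivAt_id x).sub_const cen).const_smul s).const_add cen
          exact this.hasFDerivWithinAt
        rw [integral_image_eq_integral_abs_det_fderiv_smul volume (measurableSet_tri.diff hC) hder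
          (simR_hom hs0).injective.injOn]
        have hdet : (s • ContinuousLinearMap.id ℝ ℂ).det = s ^ 2 := by
          rw [ContinuousLinearMap.det]
          have : ((s • ContinuousLinearMap.id ℝ ℂ : ℂ →L[ℝ] ℂ) : ℂ →ₗ[ℝ] ℂ) =
              s • (LinearMap.id : ℂ →ₗ[ℝ] ℂ) := rfl
          rw [this, LinearMap.det_smul, LinearMap.det_id, Complex.finrank_real_complex, mul_one]
        simp only [hdet, hom_inv_hom hs0.ne', smul_eq_mul, abs_of_pos (pow_pos hs0 2)]
        rw [integral_const_mul, integral_const_mul, ← hE]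
        field_simp
      rw [hin]
      have hout : ∫ z in tri \ hom s '' tri, 4 * ‖dbar (scf ψ s) z‖ ^ 2 ≤
          4 * (100 * C₀ + 1) ^ 2 * (1 / 8) := by
        have hpw : ∀ z ∈ tri \ hom s '' tri, ‖(4 * ‖dbar (scf ψ s) z‖ ^ 2 : ℝ)‖ ≤
            4 * (100 * C₀ + 1) ^ 2 := by
          intro z hz
          rw [hom_image_tri hs0] at hz
          have hgt : s < gau z := not_le.mp hz.2
          have hnb : {w | s ≤ gau w} ∈ nhds z := by
            have : {w | s < gau w} ∈ nhds z :=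
              (isOpen_lt continuous_const gau_lipschitz.continuous).mem_nhds hgt
            filter_upwards [this] with w hw
            exact le_of_lt hw
          have hl0 : 0 ≤ C₀ / s ^ 2 + 1 := by positivity
          have hlo : LipschitzOnWith ⟨C₀ / s ^ 2 + 1, hl0⟩ (scf ψ s) {w | s ≤ gau w} := by
            refine LipschitzOnWith.of_dist_le_mul fun x hx y hy => ?_
            rw [dist_eq_norm, dist_eq_norm]; exact hLo x y hx hy
          have hb := dbar_norm_le (norm_fderiv_le_of_lipschitzOn ℝ hnb hlo)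
          have hb' : ‖dbar (scf ψ s) z‖ ≤ C₀ / s ^ 2 + 1 := hb
          have hcs : C₀ / s ^ 2 ≤ 100 * C₀ := by
            rw [div_le_iff₀ (by positivity)]
            have : (1 / 10 : ℝ) ^ 2 ≤ s ^ 2 := pow_le_pow_left₀ (by norm_num) hs.1 2
            nlinarith
          rw [Real.norm_of_nonneg (by positivity)]
          have h0 := norm_nonneg (dbar (scf ψ s) z)
          have : ‖dbar (scf ψ s) z‖ ≤ 100 * C₀ + 1 := by linarith
          nlinarith
        have hfin : volume (tri \ hom s '' tri) < ⊤ := (measure_mono sdiff_subset).trans_lt hvt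
        have := norm_setIntegral_le_of_norm_le_const hfin hpw
        refine (le_abs_self _).trans (this.trans ?_)
        refine mul_le_mul_of_nonneg_left ?_ (by positivity)
        have hv : volume.real (tri \ hom s '' tri) ≤ volume.real tri :=
          measureReal_mono sdiff_subset hvt.ne
        refine hv.trans ?_
        rw [Measure.real, volume_tri, ENNReal.toReal_ofReal (by norm_num)]
      refine add_le_add ?_ hout
      have h100 : s⁻¹ * s⁻¹ ≤ 100 := by nlinarith
      have := mul_le_mul_of_nonneg_right h100 hE0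
      linarith
    · rw [Set.disjoint_left]
      rintro z hz1 ⟨_, hz2⟩
      exact hz2 (image_mono sdiff_subset hz1)

end EBC
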