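import Pool.Agent.Work.MP_ebc928_an.FluctLimit

open MeasureTheory Complex Set Filter Topology
open scoped ContDiff ComplexConjugate

noncomputable section
namespace EBC

/-! ### integration by parts for smooth periodic real functions -/

private lemma intOn_cell {E : Type*} [NormedAddCommGroup E] {g : ℂ → E}
    (hg : Continuous g) : Integrable g (volume.restrict cell) :=
  (hg.continuousOn.integrableOn_compact (isCompact_closedBall (0 : ℂ) 2)).mono_set
    cell_subset_closedBall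

private lemma ibp_real {f g : ℂ → ℝ} (hf : SmoothPer f) (hg : SmoothPer g) :
    (∫ z in cell, fderiv ℝ f z 1 * g z = - ∫ z in cell, f z * fderiv ℝ g z 1) ∧
    (∫ z in cell, fderiv ℝ f z I * g z = - ∫ z in cell, f z * fderiv ℝ g z I) := by
  have hgc : ContDiff ℝ ∞ (fun z => ((g z : ℝ) : ℂ)) := ofRealCLM.contDiff.comp hg.1
  have hgp : Per (fun z => ((g z : ℝ) : ℂ)) := hg.2.map fun x => (x : ℂ)
  have hd : ∀ z d, fderiv ℝ (fun z => ((g z : ℝ) : ℂ)) z d = ((fderiv ℝ g z d : ℝ) : ℂ) := by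
    intro z d
    have h := ofRealCLM.hasFDerivAt.comp z ((hg.1.differentiable (by simp)) z).hasFDerivAt
    have h' : fderiv ℝ (fun z => ((g z : ℝ) : ℂ)) z = _ := h.fderiv
    rw [h']
    rfl
  have h := (fluct_of_smooth hgc hgp).ibp hf
  simp only [hd, real_smul, ← ofReal_mul] at h
  rw [integral_complex_ofReal, integral_complex_ofReal, integral_complex_ofReal,
    integral_complex_ofReal] at h
  exact ⟨by exact_mod_cast h.1, by exact_mod_cast h.2⟩

private lemma det_int {φ : ℂ → ℝ} (hφ : SmoothPer φ) :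
    ∫ z in cell, D2 φ z 1 1 * D2 φ z I I = ∫ z in cell, (D2 φ z 1 I) ^ 2 := by
  have hx := smoothPer_fderiv hφ 1
  have hy := smoothPer_fderiv hφ I
  have hxy := smoothPer_D2 hφ 1 I
  have hyy := smoothPer_D2 hφ I I
  -- ∫ φ_xx φ_yy = - ∫ φ_x ∂_x φ_yy = - ∫ φ_x ∂_y φ_xy = ∫ φ_xy φ_xy
  have h1 := (ibp_real hx hyy).1
  have h2 := (ibp_real hx hxy).2
  have e1 : ∀ z, fderiv ℝ (fun w => fderiv ℝ φ w 1) z 1 = D2 φ z 1 1 := fun z =>
    (D2_eq hφ.1 z 1 1).symm
  have e2 : ∀ z, fderiv ℝ (fun w => fderiv ℝ φ w 1) z I = D2 φ z 1 I := fun z => by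
    rw [← D2_eq hφ.1, D2_symm hφ.1]
  have e3 : ∀ z, fderiv ℝ (fun w => D2 φ w I I) z 1 = fderiv ℝ (fun w => D2 φ w 1 I) z I := by
    intro z
    have hs := (smoothPer_fderiv hφ I).1
    have a1 : (fun w => D2 φ w I I) = fun w => fderiv ℝ (fun v => fderiv ℝ φ v I) w I :=
      funext fun w => D2_eq hφ.1 w I I
    have a2 : (fun w => D2 φ w 1 I) = fun w => fderiv ℝ (fun v => fderiv ℝ φ v I) w 1 :=
      funext fun w => D2_eq hφ.1 w 1 I
    rw [a1, a2, ← D2_eq hs, ← D2_eq hs, D2_symm hs]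
  simp only [e1, e3] at h1
  simp only [e2] at h2
  rw [h1, ← h2]
  congr 1
  funext z
  ring

theorem lap_isom {φ : ℂ → ℝ} (hφ : SmoothPer φ) :
    ∫ z in cell, ‖hh φ z‖ ^ 2 = ∫ z in cell, (hf φ z) ^ 2 := by
  have ca := (smoothPer_D2 hφ 1 1).1.continuous
  have cb := (smoothPer_D2 hφ I I).1.continuous
  have cc := (smoothPer_D2 hφ 1 I).1.continuous
  have e1 : ∀ z, ‖hh φ z‖ ^ 2 = (hf φ z) ^ 2 + ((D2 φ z 1 I) ^ 2 - D2 φ z 1 1 * D2 φ z I I) := by
    intro z
    have h1 : (hh φ z).re = (D2 φ z 1 1 - D2 φ z I I) / 2 := by unfold hh; simp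
    have h2 : (hh φ z).im = D2 φ z 1 I := by unfold hh; simp
    rw [Complex.sq_norm, Complex.normSq_apply, h1, h2]
    unfold hf
    ring
  simp only [e1]
  have i1 : Integrable (fun z => (hf φ z) ^ 2) (volume.restrict cell) :=
    intOn_cell (((ca.add cb).div_const 2).pow 2)
  have i2 : Integrable (fun z => (D2 φ z 1 I) ^ 2) (volume.restrict cell) :=
    intOn_cell (cc.pow 2)
  have i3 : Integrable (fun z => D2 φ z 1 1 * D2 φ z I I) (volume.restrict cell) :=
    intOn_cell (ca.mul cb)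
  have i23 : Integrable (fun z => (D2 φ z 1 I) ^ 2 - D2 φ z 1 1 * D2 φ z I I)
      (volume.restrict cell) := i2.sub i3
  rw [integral_add i1 i23, integral_sub i2 i3, det_int hφ]
  ring

/-- `∫ |∇²φ|² = 4 ∫ (½Δφ)²` -/
theorem hess_le_lap {φ : ℂ → ℝ} (hφ : SmoothPer φ) :
    ∫ z in cell, ((D2 φ z 1 1) ^ 2 + 2 * (D2 φ z 1 I) ^ 2 + (D2 φ z I I) ^ 2) =
      4 * ∫ z in cell, (hf φ z) ^ 2 := by
  have ca := (smoothPer_D2 hφ 1 1).1.continuous
  have cb := (smoothPer_D2 hφ I I).1.continuous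
  have cc := (smoothPer_D2 hφ 1 I).1.continuous
  have e1 : ∀ z, (D2 φ z 1 1) ^ 2 + 2 * (D2 φ z 1 I) ^ 2 + (D2 φ z I I) ^ 2
      = 4 * (hf φ z) ^ 2 + (2 * (D2 φ z 1 I) ^ 2 - 2 * (D2 φ z 1 1 * D2 φ z I I)) := by
    intro z
    unfold hf
    ring
  simp only [e1]
  have i1 : Integrable (fun z => (hf φ z) ^ 2) (volume.restrict cell) :=
    intOn_cell (((ca.add cb).div_const 2).pow 2)
  have i2 : Integrable (fun z => (D2 φ z 1 I) ^ 2) (volume.restrict cell) :=
    intOn_cell (cc.pow 2)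
  have i3 : Integrable (fun z => D2 φ z 1 1 * D2 φ z I I) (volume.restrict cell) :=
    intOn_cell (ca.mul cb)
  have i23 : Integrable (fun z => 2 * (D2 φ z 1 I) ^ 2 - 2 * (D2 φ z 1 1 * D2 φ z I I))
      (volume.restrict cell) := (i2.const_mul 2).sub (i3.const_mul 2)
  rw [integral_add (i1.const_mul 4) i23,
    integral_sub (i2.const_mul 2) (i3.const_mul 2), integral_const_mul, integral_const_mul,
    integral_const_mul, det_int hφ]
  ring

private lemma mean_fderiv {f : ℂ → ℝ} (hf : SmoothPer f) :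
    (∫ z in cell, fderiv ℝ f z 1 = 0) ∧ (∫ z in cell, fderiv ℝ f z I = 0) := by
  have h1 : SmoothPer (fun _ : ℂ => (1 : ℝ)) := ⟨contDiff_const, fun z => ⟨rfl, rfl⟩⟩
  have h := ibp_real hf h1
  simpa using h

theorem mean_hf_hh {φ : ℂ → ℝ} (hφ : SmoothPer φ) :
    ∫ z in cell, hf φ z = 0 ∧ ∫ z in cell, hh φ z = 0 := by
  have ca := (smoothPer_D2 hφ 1 1).1.continuous
  have cb := (smoothPer_D2 hφ I I).1.continuous
  have cc := (smoothPer_D2 hφ 1 I).1.continuous
  have m1 : ∫ z in cell, D2 φ z 1 1 = 0 := by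
    simp only [D2_eq hφ.1]
    exact (mean_fderiv (smoothPer_fderiv hφ 1)).1
  have m2 : ∫ z in cell, D2 φ z I I = 0 := by
    simp only [D2_eq hφ.1]
    exact (mean_fderiv (smoothPer_fderiv hφ I)).2
  have m3 : ∫ z in cell, D2 φ z 1 I = 0 := by
    simp only [D2_eq hφ.1]
    exact (mean_fderiv (smoothPer_fderiv hφ I)).1
  constructor
  · unfold hf
    rw [integral_div, integral_add (intOn_cell ca) (intOn_cell cb), m1, m2]
    simp
  · unfold hh
    have i1 : Integrable (fun z => (((D2 φ z 1 1 - D2 φ z I I) / 2 : ℝ) : ℂ))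
        (volume.restrict cell) :=
      intOn_cell (continuous_ofReal.comp ((ca.sub cb).div_const 2))
    have i2 : Integrable (fun z => ((D2 φ z 1 I : ℝ) : ℂ) * I) (volume.restrict cell) :=
      intOn_cell ((continuous_ofReal.comp cc).mul continuous_const)
    rw [integral_add i1 i2, integral_mul_const, integral_complex_ofReal, integral_complex_ofReal,
      integral_div, integral_sub (intOn_cell ca) (intOn_cell cb), m1, m2, m3]
    simp

/-! ### mollification of real functions -/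

/-- real mollification -/
private def molR (r : ℂ → ℝ) (f : ℂ → ℝ) (z : ℂ) : ℝ := ∫ w, r w * f (z - w)

private lemma mol_ofReal (r f : ℂ → ℝ) (z : ℂ) :
    mol r (fun z => (f z : ℂ)) z = ((molR r f z : ℝ) : ℂ) := by
  unfold mol molR
  rw [← integral_complex_ofReal]
  congr 1
  funext w
  simp

private lemma memLp_ofReal {f : ℂ → ℝ} {μ : Measure ℂ} (hf : MemLp f 2 μ) :
    MemLp (fun z => (f z : ℂ)) 2 μ := hf.ofReal

private lemma memLp_of_cont {E : Type*} [NormedAddCommGroup E] {g : ℂ → E}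
    (hg : Continuous g) : MemLp g 2 (volume.restrict cell) := by
  obtain ⟨C, hC⟩ := (isCompact_closedBall (0 : ℂ) 2).exists_bound_of_continuousOn hg.continuousOn
  refine MemLp.of_bound (hg.aestronglyMeasurable) C ?_
  rw [ae_restrict_iff' measurableSet_cell]
  exact Filter.Eventually.of_forall fun z hz => hC z (cell_subset_closedBall hz)

private lemma smoothPer_molR {ρ : ℕ → ℂ → ℝ} (hρ : Moll ρ) {f : ℂ → ℝ} (hf : Per f)
    (hm : MemLp f 2 (volume.restrict cell)) (n : ℕ) : SmoothPer (molR (ρ n) f) := by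
  have h := mol_smooth hρ (hf.map fun x => (x : ℂ)) (memLp_ofReal hm) n
  have e : molR (ρ n) f = fun z => (mol (ρ n) (fun z => (f z : ℂ)) z).re := by
    funext z
    rw [mol_ofReal]
    simp
  rw [e]
  exact ⟨reCLM.contDiff.comp h.1, h.2.map fun a => a.re⟩

private lemma fderiv_molR {ρ : ℕ → ℂ → ℝ} (hρ : Moll ρ) {f : ℂ → ℝ} (hf : SmoothPer f)
    (n : ℕ) (z e : ℂ) (he : e = 1 ∨ e = I) :
    fderiv ℝ (molR (ρ n) f) z e = molR (ρ n) (fun w => fderiv ℝ f w e) z := by
  have hfc : ContDiff ℝ ∞ (fun z => ((f z : ℝ) : ℂ)) := ofRealCLM.contDiff.comp hf.1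
  have hfp : Per (fun z => ((f z : ℝ) : ℂ)) := hf.2.map fun x => (x : ℂ)
  have hd : ∀ z d, fderiv ℝ (fun z => ((f z : ℝ) : ℂ)) z d = ((fderiv ℝ f z d : ℝ) : ℂ) := by
    intro z d
    have h := ofRealCLM.hasFDerivAt.comp z ((hf.1.differentiable (by simp)) z).hasFDerivAt
    have h' : fderiv ℝ (fun z => ((f z : ℝ) : ℂ)) z = _ := h.fderiv
    rw [h']
    rfl
  have hF := fluct_of_smooth hfc hfp
  have hw : WeakDeriv e (fun z => ((f z : ℝ) : ℂ)) (fun z => ((fderiv ℝ f z e : ℝ) : ℂ)) := by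
    rcases he with rfl | rfl
    · have := hF.wx
      simp only [hd] at this
      exact this
    · have := hF.wy
      simp only [hd] at this
      exact this
  have hli : LocallyIntegrable (fun z => ((fderiv ℝ f z e : ℝ) : ℂ)) volume :=
    (continuous_ofReal.comp (smoothPer_fderiv hf e).1.continuous).locallyIntegrable
  have h1 := mol_deriv hρ hfc.continuous.locallyIntegrable hli hw n z
  have hm := mol_smooth hρ hfp (memLp_of_cont hfc.continuous) n
  have e1 : molR (ρ n) f = fun z => (mol (ρ n) (fun z => (f z : ℂ)) z).re := by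
    funext z
    rw [mol_ofReal]
    simp
  have h2 := reCLM.hasFDerivAt.comp z ((hm.1.differentiable (by simp)) z).hasFDerivAt
  have h2' : fderiv ℝ (fun z => (mol (ρ n) (fun z => (f z : ℂ)) z).re) z = _ := h2.fderiv
  rw [e1, h2']
  change (fderiv ℝ (mol (ρ n) (fun z => (f z : ℂ))) z e).re = _
  rw [h1, mol_ofReal]
  simp

private lemma hf_molR {ρ : ℕ → ℂ → ℝ} (hρ : Moll ρ) {f : ℂ → ℝ} (hf' : SmoothPer f)
    (n : ℕ) (z : ℂ) : hf (molR (ρ n) f) z = molR (ρ n) (hf f) z := by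
  have hs := smoothPer_molR hρ hf'.2 (memLp_of_cont hf'.1.continuous) n
  have key : ∀ e : ℂ, (e = 1 ∨ e = I) → ∀ z, D2 (molR (ρ n) f) z e e
      = molR (ρ n) (fun w => D2 f w e e) z := by
    intro e he z
    rw [D2_eq hs.1]
    have h1 : (fun w => fderiv ℝ (molR (ρ n) f) w e) = molR (ρ n) (fun w => fderiv ℝ f w e) :=
      funext fun w => fderiv_molR hρ hf' n w e he
    rw [h1, fderiv_molR hρ (smoothPer_fderiv hf' e) n z e he]
    simp only [D2_eq hf'.1]
  unfold hf
  rw [key 1 (Or.inl rfl), key I (Or.inr rfl)]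
  unfold molR
  have hint : ∀ e : ℂ, Integrable (fun w => ρ n w * D2 f (z - w) e e) volume := by
    intro e
    have hc : Continuous (fun w => ρ n w * D2 f (z - w) e e) :=
      (hρ.smooth n).continuous.mul
        ((smoothPer_D2 hf' e e).1.continuous.comp (continuous_const.sub continuous_id))
    exact hc.integrable_of_hasCompactSupport ((hρ.hcs n).mul_right)
  rw [← integral_add (hint 1) (hint I), ← integral_div]
  congr 1
  funext w
  ring

/-! ### density of Laplacians -/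

private lemma normSqR_toLp {f : ℂ → ℝ} (hf : MemLp f 2 (volume.restrict cell)) :
    ‖hf.toLp f‖ ^ 2 = ∫ z in cell, (f z) ^ 2 := by
  rw [Lp.norm_toLp, hf.eLpNorm_eq_integral_rpow_norm (by norm_num) (by norm_num)]
  rw [ENNReal.toReal_ofReal (by positivity)]
  have h0 : 0 ≤ ∫ z in cell, ‖f z‖ ^ 2 := integral_nonneg fun _ => by positivity
  simp only [ENNReal.toReal_ofNat, Real.rpow_ofNat]
  rw [← Real.rpow_natCast, ← Real.rpow_mul h0]
  norm_num

private lemma normSqC_toLp {f : ℂ → ℂ} (hf : MemLp f 2 (volume.restrict cell)) :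
    ‖hf.toLp f‖ ^ 2 = ∫ z in cell, ‖f z‖ ^ 2 := by
  rw [Lp.norm_toLp, hf.eLpNorm_eq_integral_rpow_norm (by norm_num) (by norm_num)]
  rw [ENNReal.toReal_ofReal (by positivity)]
  have h0 : 0 ≤ ∫ z in cell, ‖f z‖ ^ 2 := integral_nonneg fun _ => by positivity
  simp only [ENNReal.toReal_ofNat, Real.rpow_ofNat]
  rw [← Real.rpow_natCast, ← Real.rpow_mul h0]
  norm_num

/-- periodic extension of a function on the cell -/
private def pext {α : Type*} (U : ℂ → α) (z : ℂ) : α := U (z - (⌊z.re⌋ : ℂ) - (⌊z.im⌋ : ℂ) * I)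

private lemma per_pext {α : Type*} (U : ℂ → α) : Per (pext U) := by
  intro z
  unfold pext
  constructor
  · congr 1
    simp
  · congr 1
    simp
    ring

private lemma pext_ae {α : Type*} (U : ℂ → α) : pext U =ᵐ[volume.restrict cell] U := by
  rw [Filter.EventuallyEq, ae_restrict_iff' measurableSet_cell]
  refine Filter.Eventually.of_forall ?_
  intro z hz
  have h1 : ⌊z.re⌋ = 0 := Int.floor_eq_zero_iff.2 hz.1
  have h2 : ⌊z.im⌋ = 0 := Int.floor_eq_zero_iff.2 hz.2
  unfold pext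
  rw [h1, h2]
  simp

private lemma hf_add {φ ψ : ℂ → ℝ} (hφ : SmoothPer φ) (hψ : SmoothPer ψ) (z : ℂ) :
    hf (fun z => φ z + ψ z) z = hf φ z + hf ψ z := by
  have h1 : ∀ e : ℂ, (fun w => fderiv ℝ (fun z => φ z + ψ z) w e)
      = fun w => fderiv ℝ φ w e + fderiv ℝ ψ w e := by
    intro e
    funext w
    have h : fderiv ℝ (fun z => φ z + ψ z) w = _ :=
      fderiv_add (hφ.1.differentiable (by simp) w) (hψ.1.differentiable (by simp) w)
    rw [h]
    rfl
  have h2 : ∀ e : ℂ, D2 (fun z => φ z + ψ z) z e e = D2 φ z e e + D2 ψ z e e := by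
    intro e
    rw [D2_eq (hφ.1.add hψ.1), h1, D2_eq hφ.1, D2_eq hψ.1]
    have h : fderiv ℝ (fun w => fderiv ℝ φ w e + fderiv ℝ ψ w e) z = _ :=
      fderiv_add ((smoothPer_fderiv hφ e).1.differentiable (by simp) z)
        ((smoothPer_fderiv hψ e).1.differentiable (by simp) z)
    rw [h]
    rfl
  unfold hf
  rw [h2, h2]
  ring

private lemma hf_smul {φ : ℂ → ℝ} (hφ : SmoothPer φ) (c : ℝ) (z : ℂ) :
    hf (fun z => c * φ z) z = c * hf φ z := by
  have h1 : ∀ e : ℂ, (fun w => fderiv ℝ (fun z => c * φ z) w e)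
      = fun w => c * fderiv ℝ φ w e := by
    intro e
    funext w
    have h : fderiv ℝ (fun z => c * φ z) w = _ :=
      fderiv_const_mul (hφ.1.differentiable (by simp) w) c
    rw [h]
    rfl
  have h2 : ∀ e : ℂ, D2 (fun z => c * φ z) z e e = c * D2 φ z e e := by
    intro e
    rw [D2_eq (contDiff_const.mul hφ.1), h1, D2_eq hφ.1]
    have h : fderiv ℝ (fun w => c * fderiv ℝ φ w e) z = _ :=
      fderiv_const_mul ((smoothPer_fderiv hφ e).1.differentiable (by simp) z) c
    rw [h]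
    rfl
  unfold hf
  rw [h2, h2]
  ring

private lemma hf_cont {φ : ℂ → ℝ} (hφ : SmoothPer φ) : Continuous (hf φ) := by
  unfold hf
  exact (((smoothPer_D2 hφ 1 1).1.continuous.add (smoothPer_D2 hφ I I).1.continuous).div_const 2)

/-- the space of functions `hf φ + c` in `L²` of the cell -/
private def VV : Submodule ℝ (Lp ℝ 2 (volume.restrict cell)) where
  carrier := {f | ∃ (φ : ℂ → ℝ) (c : ℝ), SmoothPer φ ∧
    (f : ℂ → ℝ) =ᵐ[volume.restrict cell] fun z => hf φ z + c}
  zero_mem' := by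
    refine ⟨fun _ => 0, 0, ⟨contDiff_const, fun z => ⟨rfl, rfl⟩⟩, ?_⟩
    refine (Lp.coeFn_zero ℝ 2 (volume.restrict cell)).trans ?_
    refine Filter.Eventually.of_forall ?_
    intro z
    simp [hf, D2]
  add_mem' := by
    rintro f g ⟨φ, c, hφ, hf1⟩ ⟨ψ, d, hψ, hg1⟩
    refine ⟨fun z => φ z + ψ z, c + d, ⟨hφ.1.add hψ.1, hφ.2.map2 hψ.2 fun a b => a + b⟩, ?_⟩
    filter_upwards [Lp.coeFn_add f g, hf1, hg1] with z h1 h2 h3
    rw [h1, Pi.add_apply, h2, h3, hf_add hφ hψ]
    ring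
  smul_mem' := by
    rintro a f ⟨φ, c, hφ, hf1⟩
    refine ⟨fun z => a * φ z, a * c, ⟨contDiff_const.mul hφ.1, hφ.2.map fun x => a * x⟩, ?_⟩
    filter_upwards [Lp.coeFn_smul a f, hf1] with z h1 h2
    rw [h1, Pi.smul_apply, h2, hf_smul hφ, smul_eq_mul]
    ring

private lemma VV_orth {k : Lp ℝ 2 (volume.restrict cell)} (hk : k ∈ VVᗮ) : k = 0 := by
  -- periodic representative
  set g : ℂ → ℝ := pext (k : ℂ → ℝ) with hg
  have hgp : Per g := per_pext _
  have hgk : g =ᵐ[volume.restrict cell] k := pext_ae _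
  have hgm : MemLp g 2 (volume.restrict cell) := (memLp_congr_ae hgk).2 (Lp.memLp k)
  have horth : ∀ (φ : ℂ → ℝ) (c : ℝ), SmoothPer φ → ∫ z in cell, g z * (hf φ z + c) = 0 := by
    intro φ c hφ
    have hm : MemLp (fun z => hf φ z + c) 2 (volume.restrict cell) :=
      memLp_of_cont ((hf_cont hφ).add continuous_const)
    have hmem : hm.toLp _ ∈ VV := ⟨φ, c, hφ, hm.coeFn_toLp⟩
    have h := (Submodule.mem_orthogonal VV k).1 hk _ hmem
    rw [L2.inner_def] at h
    rw [← h]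
    refine integral_congr_ae ?_
    filter_upwards [hm.coeFn_toLp, hgk] with z h1 h2
    rw [h1, h2]
    simp [mul_comm]
  have hmean : ∫ z in cell, g z = 0 := by
    have h := horth (fun _ => 0) 1 ⟨contDiff_const, fun z => ⟨rfl, rfl⟩⟩
    have e : ∀ z : ℂ, hf (fun _ => (0 : ℝ)) z = 0 := by intro z; simp [hf, D2]
    simpa [e] using h
  obtain ⟨ρ, hρ⟩ := exists_moll
  obtain ⟨C, hC, hpz⟩ := poincare_zero
  -- the mollifications vanish
  have hzero : ∀ n, ∫ z in cell, ‖mol (ρ n) (fun z => (g z : ℂ)) z‖ ^ 2 = 0 := by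
    intro n
    set κ := molR (ρ n) g with hκ
    have hκs : SmoothPer κ := smoothPer_molR hρ hgp hgm n
    have hκc : ContDiff ℝ ∞ (fun z => ((κ z : ℝ) : ℂ)) := ofRealCLM.contDiff.comp hκs.1
    have hκp : Per (fun z => ((κ z : ℝ) : ℂ)) := hκs.2.map fun x => (x : ℂ)
    have hmol : ∀ z, mol (ρ n) (fun z => (g z : ℂ)) z = ((κ z : ℝ) : ℂ) := fun z =>
      mol_ofReal _ _ z
    simp only [hmol]
    -- mean of κ
    have hmk : ∫ z in cell, κ z = 0 := by
      have h := integral_mol_mul hρ (hgp.map fun x => (x : ℂ)) (memLp_ofReal hgm)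
        (k := fun _ => 1) (fun z => ⟨rfl, rfl⟩) (memLp_of_cont continuous_const) n
      have h1 : ∀ z, mol (ρ n) (fun _ => (1 : ℂ)) z = 1 := by
        intro z
        unfold mol
        have : ∫ w, ρ n w • (1 : ℂ) = ((∫ w, ρ n w : ℝ) : ℂ) := by
          rw [← integral_complex_ofReal]
          congr 1
          funext w
          simp
        rw [this, hρ.int_one]
        simp
      simp only [hmol, h1, mul_one] at h
      rw [integral_complex_ofReal, integral_complex_ofReal, hmean] at h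
      exact_mod_cast h
    -- ∫ κ hf κ = 0
    have h2 : ∫ z in cell, κ z * hf κ z = 0 := by
      have hψ : SmoothPer (molR (ρ n) κ) :=
        smoothPer_molR hρ hκs.2 (memLp_of_cont hκs.1.continuous) n
      have h3 := horth _ 0 hψ
      simp only [add_zero, hf_molR hρ hκs n] at h3
      have hfp : Per (hf κ) :=
        (smoothPer_D2 hκs 1 1).2.map2 (smoothPer_D2 hκs I I).2 fun a b => (a + b) / 2
      have h4 := integral_mol_mul hρ (hgp.map fun x => (x : ℂ)) (memLp_ofReal hgm)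
        (k := fun z => ((hf κ z : ℝ) : ℂ)) (hfp.map fun x => (x : ℂ))
        (memLp_of_cont (continuous_ofReal.comp (hf_cont hκs))) n
      have e3 : ∀ z, mol (ρ n) (fun z => ((hf κ z : ℝ) : ℂ)) z
          = ((molR (ρ n) (hf κ) z : ℝ) : ℂ) := fun z => mol_ofReal _ _ z
      simp only [hmol, e3, ← ofReal_mul] at h4
      rw [integral_complex_ofReal, integral_complex_ofReal, h3] at h4
      exact_mod_cast h4
    -- gradient vanishes
    have h5 : ∫ z in cell, ((fderiv ℝ κ z 1) ^ 2 + (fderiv ℝ κ z I) ^ 2) = 0 := by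
      have a1 := (ibp_real (smoothPer_fderiv hκs 1) hκs).1
      have a2 := (ibp_real (smoothPer_fderiv hκs I) hκs).2
      simp only [← D2_eq hκs.1] at a1 a2
      have cκ := hκs.1.continuous
      have c1 := (smoothPer_D2 hκs 1 1).1.continuous
      have c2 := (smoothPer_D2 hκs I I).1.continuous
      have d1 := (smoothPer_fderiv hκs 1).1.continuous
      have d2 := (smoothPer_fderiv hκs I).1.continuous
      have e : ∀ z, κ z * hf κ z = (1/2) * (D2 κ z 1 1 * κ z) + (1/2) * (D2 κ z I I * κ z) := by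
        intro z
        unfold hf
        ring
      simp only [e] at h2
      have j1 : Integrable (fun z => D2 κ z 1 1 * κ z) (volume.restrict cell) :=
        intOn_cell (c1.mul cκ)
      have j2 : Integrable (fun z => D2 κ z I I * κ z) (volume.restrict cell) :=
        intOn_cell (c2.mul cκ)
      have j3 : Integrable (fun z => (fderiv ℝ κ z 1) ^ 2) (volume.restrict cell) :=
        intOn_cell (d1.pow 2)
      have j4 : Integrable (fun z => (fderiv ℝ κ z I) ^ 2) (volume.restrict cell) :=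
        intOn_cell (d2.pow 2)
      rw [integral_add (j1.const_mul _) (j2.const_mul _), integral_const_mul,
        integral_const_mul, a1, a2] at h2
      rw [integral_add j3 j4]
      simp only [← pow_two] at h2
      linarith
    have h6 := hpz (fun z => ((κ z : ℝ) : ℂ)) hκc hκp (by
      rw [integral_complex_ofReal, hmk]; simp)
    have hd : ∀ z d, fderiv ℝ (fun z => ((κ z : ℝ) : ℂ)) z d = ((fderiv ℝ κ z d : ℝ) : ℂ) := by
      intro z d
      have h := ofRealCLM.hasFDerivAt.comp z ((hκs.1.differentiable (by simp)) z).hasFDerivAt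
      have h' : fderiv ℝ (fun z => ((κ z : ℝ) : ℂ)) z = _ := h.fderiv
      rw [h']
      rfl
    simp only [hd] at h6
    have h7 : ∫ z in cell, (‖((fderiv ℝ κ z 1 : ℝ) : ℂ)‖ ^ 2 + ‖((fderiv ℝ κ z I : ℝ) : ℂ)‖ ^ 2)
        = 0 := by
      rw [← h5]
      congr 1
      funext z
      simp
    rw [h7, mul_zero] at h6
    exact le_antisymm h6 (integral_nonneg fun _ => by positivity)
  have ht := mol_tendsto hρ (hgp.map fun x => (x : ℂ)) (memLp_ofReal hgm)
  have hgz : ∫ z in cell, ‖(g z : ℂ)‖ ^ 2 = 0 := by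
    have hc : ∀ n, ∫ z in cell, ‖(g z : ℂ) - mol (ρ n) (fun z => (g z : ℂ)) z‖ ^ 2
        = ∫ z in cell, ‖(g z : ℂ)‖ ^ 2 := by
      intro n
      have hcont := (mol_smooth hρ (hgp.map fun x => (x : ℂ)) (memLp_ofReal hgm) n).1.continuous
      have h8 : (fun z => ‖mol (ρ n) (fun z => (g z : ℂ)) z‖ ^ 2)
          =ᵐ[volume.restrict cell] 0 := by
        have hi : Integrable (fun z => ‖mol (ρ n) (fun z => (g z : ℂ)) z‖ ^ 2)
          (volume.restrict cell) := intOn_cell (hcont.norm.pow 2)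
        exact (integral_eq_zero_iff_of_nonneg (fun _ => by positivity) hi).1 (hzero n)
      refine integral_congr_ae ?_
      filter_upwards [h8] with z hz
      have : mol (ρ n) (fun z => (g z : ℂ)) z = 0 := by
        have h9 : ‖mol (ρ n) (fun z => (g z : ℂ)) z‖ ^ 2 = 0 := hz
        simpa using h9
      rw [this, sub_zero]
    simp only [hc] at ht
    exact tendsto_nhds_unique tendsto_const_nhds ht
  have h10 : g =ᵐ[volume.restrict cell] 0 := by
    have h11 : (fun z => ‖(g z : ℂ)‖ ^ 2) =ᵐ[volume.restrict cell] 0 := by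
      have hi : Integrable (fun z => ‖(g z : ℂ)‖ ^ 2) (volume.restrict cell) :=
        (memLp_ofReal hgm).integrable_norm_pow (p := 2) (by norm_num)
      exact (integral_eq_zero_iff_of_nonneg (fun _ => by positivity) hi).1 hgz
    filter_upwards [h11] with z hz
    have h12 : ‖(g z : ℂ)‖ ^ 2 = 0 := hz
    simpa using h12
  rw [Lp.eq_zero_iff_ae_eq_zero]
  exact hgk.symm.trans h10

theorem lap_dense {g : ℂ → ℝ} (hg : Per g) (hm : MemLp g 2 (volume.restrict cell))
    (h0 : ∫ z in cell, g z = 0) : ∀ ε > 0, ∃ φ : ℂ → ℝ, SmoothPer φ ∧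
      ∫ z in cell, (g z - hf φ z) ^ 2 ≤ ε := by
  intro ε hε
  have hdense : (VV).topologicalClosure = ⊤ := by
    rw [Submodule.topologicalClosure_eq_top_iff]
    rw [Submodule.eq_bot_iff]
    intro k hk
    exact VV_orth hk
  have hmem : hm.toLp g ∈ (VV).topologicalClosure := by rw [hdense]; trivial
  rw [← SetLike.mem_coe, Submodule.topologicalClosure_coe, Metric.mem_closure_iff] at hmem
  obtain ⟨f, ⟨φ, c, hφ, hf1⟩, hd⟩ := hmem (Real.sqrt ε) (Real.sqrt_pos.2 hε)
  refine ⟨φ, hφ, ?_⟩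
  have hmφ : MemLp (hf φ) 2 (volume.restrict cell) := memLp_of_cont (hf_cont hφ)
  have hmc : MemLp (fun z => hf φ z + c) 2 (volume.restrict cell) :=
    memLp_of_cont ((hf_cont hφ).add continuous_const)
  have hfe : f = hmc.toLp _ := by
    rw [← Lp.toLp_coeFn f (Lp.memLp f)]
    exact MemLp.toLp_congr _ _ hf1
  have h1 : ∫ z in cell, (g z - (hf φ z + c)) ^ 2 < ε := by
    rw [hfe, dist_eq_norm, ← MemLp.toLp_sub] at hd
    have h2 := pow_lt_pow_left₀ hd (norm_nonneg _) two_ne_zero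
    rw [normSqR_toLp, Real.sq_sqrt hε.le] at h2
    exact h2
  have i1 : Integrable (fun z => (g z - hf φ z) ^ 2) (volume.restrict cell) := by
    have := (hm.sub hmφ).integrable_norm_pow (p := 2) (by norm_num)
    simpa using this
  have i2 : Integrable (fun z => g z - hf φ z) (volume.restrict cell) :=
    (hm.sub hmφ).integrable (by norm_num)
  have h3 : ∫ z in cell, (g z - (hf φ z + c)) ^ 2
      = (∫ z in cell, (g z - hf φ z) ^ 2) + c ^ 2 * (volume.restrict cell).real univ := by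
    have e : ∀ z, (g z - (hf φ z + c)) ^ 2
        = (g z - hf φ z) ^ 2 + (c ^ 2 - 2 * c * (g z - hf φ z)) := by
      intro z; ring
    simp only [e]
    have i3 : Integrable (fun z => c ^ 2 - 2 * c * (g z - hf φ z)) (volume.restrict cell) :=
      (integrable_const _).sub (i2.const_mul _)
    rw [integral_add i1 i3, integral_sub (integrable_const _) (i2.const_mul _),
      integral_const_mul, integral_sub (hm.integrable (by norm_num))
        (hmφ.integrable (by norm_num)), h0, (mean_hf_hh hφ).1, integral_const]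
    simp [mul_comm]
  have h4 : 0 ≤ c ^ 2 * (volume.restrict cell).real univ := by positivity
  linarith

/-! ### the Beurling transform -/

private lemma D2_subb {φ ψ : ℂ → ℝ} (hφ : SmoothPer φ) (hψ : SmoothPer ψ) (z a b : ℂ) :
    D2 (fun z => φ z - ψ z) z a b = D2 φ z a b - D2 ψ z a b := by
  have h1 : (fun w => fderiv ℝ (fun z => φ z - ψ z) w b)
      = fun w => fderiv ℝ φ w b - fderiv ℝ ψ w b := by
    funext w
    have h : fderiv ℝ (fun z => φ z - ψ z) w = _ :=
      fderiv_sub (hφ.1.differentiable (by simp) w) (hψ.1.differentiable (by simp) w)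
    rw [h]
    rfl
  rw [D2_eq (hφ.1.sub hψ.1), h1, D2_eq hφ.1, D2_eq hψ.1]
  have h : fderiv ℝ (fun w => fderiv ℝ φ w b - fderiv ℝ ψ w b) z = _ :=
    fderiv_sub ((smoothPer_fderiv hφ b).1.differentiable (by simp) z)
      ((smoothPer_fderiv hψ b).1.differentiable (by simp) z)
  rw [h]
  rfl

private lemma hf_subb {φ ψ : ℂ → ℝ} (hφ : SmoothPer φ) (hψ : SmoothPer ψ) (z : ℂ) :
    hf (fun z => φ z - ψ z) z = hf φ z - hf ψ z := by
  unfold hf
  rw [D2_subb hφ hψ, D2_subb hφ hψ]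
  ring

private lemma hh_subb {φ ψ : ℂ → ℝ} (hφ : SmoothPer φ) (hψ : SmoothPer ψ) (z : ℂ) :
    hh (fun z => φ z - ψ z) z = hh φ z - hh ψ z := by
  unfold hh
  rw [D2_subb hφ hψ, D2_subb hφ hψ, D2_subb hφ hψ]
  push_cast
  ring

private lemma hh_cont {φ : ℂ → ℝ} (hφ : SmoothPer φ) : Continuous (hh φ) := by
  unfold hh
  have ca := (smoothPer_D2 hφ 1 1).1.continuous
  have cb := (smoothPer_D2 hφ I I).1.continuous
  have cc := (smoothPer_D2 hφ 1 I).1.continuous
  exact (continuous_ofReal.comp ((ca.sub cb).div_const 2)).add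
    ((continuous_ofReal.comp cc).mul continuous_const)

/-- the complex gradient of a smooth periodic function -/
private def cgrad (φ : ℂ → ℝ) (z : ℂ) : ℂ :=
  ((fderiv ℝ φ z 1 : ℝ) : ℂ) + I * ((fderiv ℝ φ z I : ℝ) : ℂ)

private lemma cgrad_smooth {φ : ℂ → ℝ} (hφ : SmoothPer φ) : ContDiff ℝ ∞ (cgrad φ) := by
  unfold cgrad
  exact (ofRealCLM.contDiff.comp (smoothPer_fderiv hφ 1).1).add
    (contDiff_const.mul (ofRealCLM.contDiff.comp (smoothPer_fderiv hφ I).1))

private lemma cgrad_per {φ : ℂ → ℝ} (hφ : SmoothPer φ) : Per (cgrad φ) :=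
  (smoothPer_fderiv hφ 1).2.map2 (smoothPer_fderiv hφ I).2 fun a b => ((a : ℝ) : ℂ) + I * (b : ℂ)

private lemma cgrad_fderiv {φ : ℂ → ℝ} (hφ : SmoothPer φ) (z e : ℂ) :
    fderiv ℝ (cgrad φ) z e = ((D2 φ z e 1 : ℝ) : ℂ) + I * ((D2 φ z e I : ℝ) : ℂ) := by
  have h1 := ofRealCLM.hasFDerivAt.comp z
    (((smoothPer_fderiv hφ 1).1.differentiable (by simp)) z).hasFDerivAt
  have h2 := ofRealCLM.hasFDerivAt.comp z
    (((smoothPer_fderiv hφ I).1.differentiable (by simp)) z).hasFDerivAt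
  have h3 : fderiv ℝ (cgrad φ) z = _ := (h1.add (h2.const_mul I)).fderiv
  rw [h3, D2_eq hφ.1, D2_eq hφ.1]
  rfl

private lemma cgrad_x {φ : ℂ → ℝ} (hφ : SmoothPer φ) (z : ℂ) :
    fderiv ℝ (cgrad φ) z 1 = ((hf φ z : ℝ) : ℂ) + hh φ z := by
  rw [cgrad_fderiv hφ]
  unfold hf hh
  push_cast
  ring

private lemma cgrad_y {φ : ℂ → ℝ} (hφ : SmoothPer φ) (z : ℂ) :
    fderiv ℝ (cgrad φ) z I = I * (((hf φ z : ℝ) : ℂ) - hh φ z) := by
  rw [cgrad_fderiv hφ, D2_symm hφ.1 z I 1]
  unfold hf hh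
  push_cast
  linear_combination ((D2 φ z 1 I : ℝ) : ℂ) * I_sq

/-- solution of `w_z = g` (`g` real, mean zero), with `w_z̄` its Beurling transform. -/
theorem exists_w {g : ℂ → ℝ} (hg : Per g) (hm : MemLp g 2 (volume.restrict cell))
    (h0 : ∫ z in cell, g z = 0) : ∃ w wx wy : ℂ → ℂ, Fluct w wx wy ∧
      (∀ᵐ z ∂(volume.restrict cell), (wx z - I * wy z) / 2 = (g z : ℂ)) ∧
      ∫ z in cell, ‖(wx z + I * wy z) / 2‖ ^ 2 = ∫ z in cell, (g z) ^ 2 ∧
      ∀ ε > 0, ∃ φ : ℂ → ℝ, SmoothPer φ ∧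
        ∫ z in cell, ((g z - hf φ z) ^ 2 + ‖(wx z + I * wy z) / 2 - hh φ z‖ ^ 2) ≤ ε := by
  have hex : ∀ n : ℕ, ∃ φ : ℂ → ℝ, SmoothPer φ ∧
      ∫ z in cell, (g z - hf φ z) ^ 2 ≤ 1 / ((n : ℝ) + 1) := fun n =>
    lap_dense hg hm h0 _ (by positivity)
  choose φ hφ hφe using hex
  have mf : ∀ n, MemLp (hf (φ n)) 2 (volume.restrict cell) := fun n =>
    memLp_of_cont (hf_cont (hφ n))
  have mh : ∀ n, MemLp (hh (φ n)) 2 (volume.restrict cell) := fun n =>
    memLp_of_cont (hh_cont (hφ n))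
  set F : ℕ → Lp ℝ 2 (volume.restrict cell) := fun n => (mf n).toLp _ with hF
  set K : ℕ → Lp ℂ 2 (volume.restrict cell) := fun n => (mh n).toLp _ with hK
  -- `F n → g`
  have ta : Tendsto (fun n => ∫ z in cell, (g z - hf (φ n) z) ^ 2) atTop (𝓝 0) :=
    squeeze_zero (fun n => integral_nonneg fun _ => sq_nonneg _) hφe
      tendsto_one_div_add_atTop_nhds_zero_nat
  have hFg : ∀ n, ‖hm.toLp g - F n‖ ^ 2 = ∫ z in cell, (g z - hf (φ n) z) ^ 2 := by
    intro n
    have h := normSqR_toLp (hm.sub (mf n))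
    rw [MemLp.toLp_sub] at h
    exact h
  have sq_lim : ∀ {a : ℕ → ℝ}, (∀ n, 0 ≤ a n) → Tendsto (fun n => (a n) ^ 2) atTop (𝓝 0) →
      Tendsto a atTop (𝓝 0) := by
    intro a ha h
    have h2 := h.sqrt
    simpa [Real.sqrt_sq (ha _)] using h2
  have tF : Tendsto F atTop (𝓝 (hm.toLp g)) := by
    rw [tendsto_iff_norm_sub_tendsto_zero]
    refine sq_lim (fun n => norm_nonneg _) ?_
    have e : ∀ n, ‖F n - hm.toLp g‖ ^ 2 = ∫ z in cell, (g z - hf (φ n) z) ^ 2 := fun n => by
      rw [norm_sub_rev, hFg]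
    simp only [e]
    exact ta
  -- isometry
  have hnorm : ∀ n, ‖K n‖ = ‖F n‖ := by
    intro n
    have h : ‖K n‖ ^ 2 = ‖F n‖ ^ 2 := by
      rw [normSqC_toLp, normSqR_toLp, lap_isom (hφ n)]
    exact (sq_eq_sq₀ (norm_nonneg _) (norm_nonneg _)).1 h
  have hdist : ∀ m n, ‖K m - K n‖ = ‖F m - F n‖ := by
    intro m n
    have hs : SmoothPer (fun z => φ m z - φ n z) :=
      ⟨(hφ m).1.sub (hφ n).1, (hφ m).2.map2 (hφ n).2 fun a b => a - b⟩
    have h1 := normSqC_toLp ((mh m).sub (mh n))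
    have h2 := normSqR_toLp ((mf m).sub (mf n))
    rw [MemLp.toLp_sub (mh m) (mh n)] at h1
    rw [MemLp.toLp_sub (mf m) (mf n)] at h2
    have h3 := lap_isom hs
    simp only [hf_subb (hφ m) (hφ n), hh_subb (hφ m) (hφ n)] at h3
    have h : ‖K m - K n‖ ^ 2 = ‖F m - F n‖ ^ 2 := by
      rw [show K m - K n = (mh m).toLp _ - (mh n).toLp _ from rfl, h1,
        show F m - F n = (mf m).toLp _ - (mf n).toLp _ from rfl, h2]
      exact h3
    exact (sq_eq_sq₀ (norm_nonneg _) (norm_nonneg _)).1 h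
  have hcau : CauchySeq K := by
    rw [Metric.cauchySeq_iff']
    intro ε hε
    obtain ⟨N, hN⟩ := Metric.cauchySeq_iff'.1 tF.cauchySeq ε hε
    refine ⟨N, fun n hn => ?_⟩
    rw [dist_eq_norm, hdist, ← dist_eq_norm]
    exact hN n hn
  obtain ⟨L, hL⟩ := cauchySeq_tendsto_of_complete hcau
  -- periodic representative
  set H : ℂ → ℂ := pext (L : ℂ → ℂ) with hH
  have hHp : Per H := per_pext _
  have hHL : H =ᵐ[volume.restrict cell] L := pext_ae _
  have hHm : MemLp H 2 (volume.restrict cell) := (memLp_congr_ae hHL).2 (Lp.memLp L)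
  have hHt : hHm.toLp H = L := by
    rw [← Lp.toLp_coeFn L (Lp.memLp L)]
    exact MemLp.toLp_congr _ _ hHL
  have hKH : ∀ n, ‖L - K n‖ ^ 2 = ∫ z in cell, ‖H z - hh (φ n) z‖ ^ 2 := by
    intro n
    have h := normSqC_toLp (hHm.sub (mh n))
    rw [MemLp.toLp_sub hHm (mh n), hHt] at h
    exact h
  have tb : Tendsto (fun n => ∫ z in cell, ‖H z - hh (φ n) z‖ ^ 2) atTop (𝓝 0) := by
    simp only [← hKH]
    have h := tendsto_iff_norm_sub_tendsto_zero.1 hL
    have h2 := h.pow 2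
    simpa [norm_sub_rev] using h2
  have hHg : ∫ z in cell, ‖H z‖ ^ 2 = ∫ z in cell, (g z) ^ 2 := by
    rw [← normSqC_toLp hHm, ← normSqR_toLp hm, hHt]
    have h1 := hL.norm
    have h2 := tF.norm
    simp only [hnorm] at h1
    rw [tendsto_nhds_unique h1 h2]
  -- the displacement
  have ig : ∀ n, Integrable (fun z => (g z - hf (φ n) z) ^ 2) (volume.restrict cell) := by
    intro n
    have := (hm.sub (mf n)).integrable_norm_pow (p := 2) (by norm_num)
    simpa using this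
  have ih : ∀ n, Integrable (fun z => ‖H z - hh (φ n) z‖ ^ 2) (volume.restrict cell) := by
    intro n
    have := (hHm.sub (mh n)).integrable_norm_pow (p := 2) (by norm_num)
    simpa using this
  have tab : Tendsto (fun n => 2 * (∫ z in cell, (g z - hf (φ n) z) ^ 2)
      + 2 * ∫ z in cell, ‖H z - hh (φ n) z‖ ^ 2) atTop (𝓝 0) := by
    simpa using (ta.const_mul 2).add (tb.const_mul 2)
  have hgm : MemLp (fun z => (g z : ℂ)) 2 (volume.restrict cell) := memLp_ofReal hm
  have bound : ∀ (n : ℕ) (G : ℂ → ℂ), (∀ z, ‖G z‖ ^ 2 ≤ 2 * (g z - hf (φ n) z) ^ 2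
      + 2 * ‖H z - hh (φ n) z‖ ^ 2) → ∫ z in cell, ‖G z‖ ^ 2 ≤
      2 * (∫ z in cell, (g z - hf (φ n) z) ^ 2) + 2 * ∫ z in cell, ‖H z - hh (φ n) z‖ ^ 2 := by
    intro n G hG
    rw [← integral_const_mul, ← integral_const_mul,
      ← integral_add ((ig n).const_mul 2) ((ih n).const_mul 2)]
    refine integral_mono_of_nonneg (Filter.Eventually.of_forall fun _ => by positivity)
      (((ig n).const_mul 2).add ((ih n).const_mul 2)) (Filter.Eventually.of_forall hG)
  obtain ⟨w, hw⟩ := fluct_limit (v := fun n => cgrad (φ n)) (fun n => cgrad_smooth (hφ n))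
    (fun n => cgrad_per (hφ n)) (gx := fun z => (g z : ℂ) + H z)
    (gy := fun z => I * ((g z : ℂ) - H z))
    (hg.map2 hHp fun a b => (a : ℂ) + b) (hg.map2 hHp fun a b => I * ((a : ℂ) - b))
    (hgm.add hHm) ((hgm.sub hHm).const_mul I)
    (by
      refine squeeze_zero (fun n => integral_nonneg fun _ => by positivity) (fun n => ?_) tab
      refine bound n _ fun z => ?_
      rw [cgrad_x (hφ n)]
      have e : (g z : ℂ) + H z - (((hf (φ n) z : ℝ) : ℂ) + hh (φ n) z)
          = ((g z - hf (φ n) z : ℝ) : ℂ) + (H z - hh (φ n) z) := by push_cast; ring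
      rw [e]
      have h1 := norm_add_le (((g z - hf (φ n) z : ℝ) : ℂ)) (H z - hh (φ n) z)
      rw [Complex.norm_real, Real.norm_eq_abs] at h1
      have h2 := pow_le_pow_left₀ (norm_nonneg _) h1 2
      have h3 := sq_abs (g z - hf (φ n) z)
      nlinarith [sq_nonneg (|g z - hf (φ n) z| - ‖H z - hh (φ n) z‖)])
    (by
      refine squeeze_zero (fun n => integral_nonneg fun _ => by positivity) (fun n => ?_) tab
      refine bound n _ fun z => ?_
      rw [cgrad_y (hφ n)]
      have e : I * ((g z : ℂ) - H z) - I * (((hf (φ n) z : ℝ) : ℂ) - hh (φ n) z)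
          = I * (((g z - hf (φ n) z : ℝ) : ℂ) - (H z - hh (φ n) z)) := by push_cast; ring
      rw [e, norm_mul, norm_I, one_mul]
      have h1 := norm_sub_le (((g z - hf (φ n) z : ℝ) : ℂ)) (H z - hh (φ n) z)
      rw [Complex.norm_real, Real.norm_eq_abs] at h1
      have h2 := pow_le_pow_left₀ (norm_nonneg _) h1 2
      have h3 := sq_abs (g z - hf (φ n) z)
      nlinarith [sq_nonneg (|g z - hf (φ n) z| - ‖H z - hh (φ n) z‖)])
  have e1 : ∀ z, ((fun z => (g z : ℂ) + H z) z - I * (fun z => I * ((g z : ℂ) - H z)) z) / 2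
      = (g z : ℂ) := by
    intro z
    simp only
    linear_combination (-((g z : ℂ) - H z) / 2) * I_sq
  have e2 : ∀ z, ((fun z => (g z : ℂ) + H z) z + I * (fun z => I * ((g z : ℂ) - H z)) z) / 2
      = H z := by
    intro z
    simp only
    linear_combination (((g z : ℂ) - H z) / 2) * I_sq
  refine ⟨w, _, _, hw, Filter.Eventually.of_forall e1, ?_, ?_⟩
  · simp only [e2]
    exact hHg
  · intro ε hε
    have tt : Tendsto (fun n => (∫ z in cell, (g z - hf (φ n) z) ^ 2)
        + ∫ z in cell, ‖H z - hh (φ n) z‖ ^ 2) atTop (𝓝 0) := by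
      simpa using ta.add tb
    obtain ⟨n, hn⟩ := (tt.eventually (gt_mem_nhds hε)).exists
    refine ⟨φ n, hφ n, ?_⟩
    simp only [e2]
    rw [integral_add (ig n) (ih n)]
    exact hn.le

end EBC
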