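import Pool.Agent.Work.MP_ebc928_an.NeutralAux
import Pool.Agent.Work.MP_ebc928_an.Grid
import Pool.Agent.Work.MP_ebc928_an.Gauge

open MeasureTheory Complex Set
open scoped ContDiff ComplexConjugate ENNReal NNReal

noncomputable section
namespace EBC

/-! ### volumes -/

theorem nx_volume_cell : volume cell = 1 := by
  have h := Complex.volume_preserving_equiv_real_prod
  have e : cell = Complex.measurableEquivRealProd ⁻¹' (Ico (0 : ℝ) 1 ×ˢ Ico (0 : ℝ) 1) := by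
    ext z; simp [cell, Complex.measurableEquivRealProd_apply]
  rw [e, h.measure_preimage (measurableSet_Ico.prod measurableSet_Ico).nullMeasurableSet,
    Measure.volume_eq_prod, Measure.prod_prod]
  simp

section Lattice
variable {ω₁ ω₂ : ℂ}

/-- the coordinate map as a linear map -/
def neu_coordL (ω₁ ω₂ : ℂ) : ℂ →ₗ[ℝ] ℂ where
  toFun z := ⟨neu_cs ω₁ ω₂ z, neu_ct ω₁ ω₂ z⟩
  map_add' z w := by
    apply Complex.ext
    · simp [neu_cs_add]
    · simp [neu_ct_add]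
  map_smul' c z := by
    apply Complex.ext
    · simp [neu_cs, Complex.mul_im]
      ring
    · simp [neu_ct, Complex.mul_im]
      ring

theorem neu_det_coordL (hpos : 0 < (conj ω₁ * ω₂).im) :
    LinearMap.det (neu_coordL ω₁ ω₂) = ((conj ω₁ * ω₂).im)⁻¹ := by
  have hne : (conj ω₁ * ω₂).im ≠ 0 := ne_of_gt hpos
  rw [← LinearMap.det_toMatrix Complex.basisOneI, Matrix.det_fin_two]
  simp only [LinearMap.toMatrix_apply, Complex.coe_basisOneI, Matrix.cons_val_zero,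
    Matrix.cons_val_one, Complex.coe_basisOneI_repr, neu_coordL, LinearMap.coe_mk, AddHom.coe_mk, neu_cs, neu_ct]
  simp only [map_one, one_mul, Complex.conj_I, mul_one]
  set A := ((starRingEnd ℂ) ω₁ * ω₂).im with hA
  have hA' : A = ω₁.re * ω₂.im - ω₁.im * ω₂.re := by
    rw [hA]; simp [Complex.mul_im]; ring
  simp only [Complex.neg_im, Complex.mul_im, Complex.conj_re, Complex.conj_im, Complex.I_re,
    Complex.I_im, neg_mul]
  field_simp
  rw [hA']
  ring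

theorem neu_volume_par (hpos : 0 < (conj ω₁ * ω₂).im) :
    volume (par ω₁ ω₂) = ENNReal.ofReal ((conj ω₁ * ω₂).im) := by
  have e : par ω₁ ω₂ = neu_coordL ω₁ ω₂ ⁻¹' cell := by
    ext z
    rw [neu_mem_par_iff hpos]
    rfl
  rw [e, Measure.addHaar_preimage_linearMap _ (by rw [neu_det_coordL hpos]; positivity),
    neu_det_coordL hpos, inv_inv, nx_volume_cell, mul_one, abs_of_pos hpos]

theorem neu_preimage_cel (hpos : 0 < (conj ω₁ * ω₂).im) (q : ℤ × ℤ) :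
    (fun z : ℂ => z + (q.1 • ω₁ + q.2 • ω₂)) ⁻¹' neu_cel ω₁ ω₂ q = par ω₁ ω₂ := by
  ext z
  exact neu_mem_cel_iff hpos q z

theorem neu_measurableSet_par (hpos : 0 < (conj ω₁ * ω₂).im) : MeasurableSet (par ω₁ ω₂) := by
  rw [← neu_preimage_cel hpos (0, 0)]
  exact (measurable_add_const _) (neu_measurableSet_cel _)

theorem neu_volume_cel (hpos : 0 < (conj ω₁ * ω₂).im) (q : ℤ × ℤ) :
    volume (neu_cel ω₁ ω₂ q) = ENNReal.ofReal ((conj ω₁ * ω₂).im) := by
  rw [← neu_volume_par hpos, ← neu_preimage_cel hpos q, measure_preimage_add_right]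

theorem neu_setLIntegral_cel (hpos : 0 < (conj ω₁ * ω₂).im) {G : ℂ → ℝ≥0∞} (hG : PerL ω₁ ω₂ G)
    (q : ℤ × ℤ) : ∫⁻ z in neu_cel ω₁ ω₂ q, G z = ∫⁻ z in par ω₁ ω₂, G z := by
  have h := (measurePreserving_add_right (volume : Measure ℂ) (q.1 • ω₁ + q.2 • ω₂)).setLIntegral_comp_preimage_emb
    (measurableEmbedding_addRight _) G (neu_cel ω₁ ω₂ q)
  rw [neu_preimage_cel hpos q] at h
  rw [← h]
  refine lintegral_congr fun z => ?_
  exact hG.int q.1 q.2 z

end Lattice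

theorem neu_mm_shift (n a : ℝ) (z : ℂ) : a ≤ mm n z ↔ 0 ≤ mm (n - 6 * a) (z + (⟨-(2 * a), -a⟩ : ℂ)) := by
  rw [neu_le_mm_iff, neu_le_mm_iff]
  simp only [Complex.add_re, Complex.add_im]
  constructor
  · rintro ⟨h1, h2, h3⟩
    refine ⟨?_, ?_, ?_⟩ <;> linarith
  · rintro ⟨h1, h2, h3⟩
    refine ⟨?_, ?_, ?_⟩ <;> linarith

theorem neu_mem_tri_scale {n : ℝ} (hn : 0 < n) (z : ℂ) : 0 ≤ mm n z ↔ n⁻¹ • z ∈ tri := by
  rw [neu_le_mm_iff]
  unfold tri
  simp only [mem_ofPred_eq, Complex.smul_re, Complex.smul_im, smul_eq_mul]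
  have hi : 0 < n⁻¹ := by positivity
  constructor
  · rintro ⟨h1, h2, h3⟩
    refine ⟨by positivity, mul_le_mul_of_nonneg_left (by linarith) hi.le, ?_⟩
    rw [inv_mul_le_iff₀ hn]; linarith
  · rintro ⟨h1, h2, h3⟩
    rw [inv_mul_le_iff₀ hn] at h3
    have h1' : 0 ≤ z.im := by
      by_contra hc
      push Not at hc
      have := mul_neg_of_pos_of_neg hi hc
      linarith
    have h2' : z.im ≤ z.re := le_of_mul_le_mul_left h2 hi
    exact ⟨h1', by linarith, by linarith⟩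

theorem neu_volume_ntri {n : ℝ} (hn : 0 < n) :
    volume {z : ℂ | 0 ≤ mm n z} = ENNReal.ofReal (n ^ 2 / 8) := by
  have e : {z : ℂ | 0 ≤ mm n z} = (n⁻¹ • ·) ⁻¹' tri := by
    ext z
    exact neu_mem_tri_scale hn z
  rw [e, Measure.addHaar_preimage_smul _ (by positivity), volume_tri, Complex.finrank_real_complex,
    ← ENNReal.ofReal_mul (abs_nonneg _)]
  congr 1
  rw [abs_of_pos (by positivity)]
  field_simp

theorem neu_volume_mm_ge {n a : ℝ} (hn : 0 < n - 6 * a) :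
    volume {z : ℂ | a ≤ mm n z} = ENNReal.ofReal ((n - 6 * a) ^ 2 / 8) := by
  have e : {z : ℂ | a ≤ mm n z} = (fun z : ℂ => z + (⟨-(2 * a), -a⟩ : ℂ)) ⁻¹' {z : ℂ | 0 ≤ mm (n - 6 * a) z} := by
    ext z
    exact neu_mm_shift n a z
  rw [e, measure_preimage_add_right, neu_volume_ntri hn]

theorem neu_measurableSet_mm_ge (n a : ℝ) : MeasurableSet {z : ℂ | a ≤ mm n z} :=
  (isClosed_le continuous_const (neu_mm_continuous n)).measurableSet

/-- lattice point counting: the mean of a periodic nonnegative bounded function over `n • tri` -/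
theorem integral_ntri_le {ω₁ ω₂ : ℂ} (hpos : 0 < (conj ω₁ * ω₂).im) {g : ℂ → ℝ}
    (hg : PerL ω₁ ω₂ g) (h0 : ∀ z, 0 ≤ g z) {M : ℝ} (hM : ∀ z, g z ≤ M)
    (hm : AEStronglyMeasurable g volume) {a : ℝ}
    (ha : ∫ z in par ω₁ ω₂, g z ≤ a * (conj ω₁ * ω₂).im) :
    ∃ C N₀ : ℝ, 0 < N₀ ∧ ∀ n : ℝ, N₀ ≤ n →
      ∫ z in {z : ℂ | 0 ≤ mm n z}, g z ≤ a * (n ^ 2 / 8) + C * n := by
  have ha0 : 0 ≤ a := by
    have : 0 ≤ ∫ z in par ω₁ ω₂, g z := integral_nonneg fun z => h0 z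
    by_contra hc
    push Not at hc
    have := mul_neg_of_neg_of_pos hc hpos
    linarith
  set R := ‖ω₁‖ + ‖ω₂‖ with hR
  have hR0 : 0 ≤ R := by positivity
  refine ⟨a * (6 * R + 72 * R ^ 2), 1, one_pos, fun n hn => ?_⟩
  have hn0 : 0 < n := by linarith
  have hparfin : volume (par ω₁ ω₂) ≠ (⊤ : ℝ≥0∞) := by rw [neu_volume_par hpos]; exact ENNReal.ofReal_ne_top
  have hint : IntegrableOn g (par ω₁ ω₂) volume := by
    refine Measure.integrableOn_of_bounded hparfin hm (M := M) ?_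
    exact Filter.Eventually.of_forall fun z => by
      rw [Real.norm_eq_abs, abs_of_nonneg (h0 z)]; exact hM z
  have hpar : ∫⁻ z in par ω₁ ω₂, ENNReal.ofReal (g z) ≤ ENNReal.ofReal a * volume (par ω₁ ω₂) := by
    rw [← ofReal_integral_eq_lintegral_ofReal hint (Filter.Eventually.of_forall fun z => h0 z),
      neu_volume_par hpos, ← ENNReal.ofReal_mul ha0]
    exact ENNReal.ofReal_le_ofReal ha
  have hGper : PerL ω₁ ω₂ (fun z => ENNReal.ofReal (g z)) := fun z =>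
    ⟨by simp only [(hg z).1], by simp only [(hg z).2]⟩
  set T := {z : ℂ | 0 ≤ mm n z} with hT
  set T' := {z : ℂ | -(4 * R) ≤ mm n z} with hT'
  let Q := {q : ℤ × ℤ // (neu_cel ω₁ ω₂ q ∩ T).Nonempty}
  have hsub1 : T ⊆ ⋃ q : Q, neu_cel ω₁ ω₂ q.1 := by
    intro z hz
    obtain ⟨q, hq⟩ := neu_exists_cel (ω₁ := ω₁) (ω₂ := ω₂) z
    exact mem_iUnion.2 ⟨⟨q, ⟨z, hq, hz⟩⟩, hq⟩
  have hsub2 : (⋃ q : Q, neu_cel ω₁ ω₂ q.1) ⊆ T' := by
    intro z hz
    obtain ⟨⟨q, z0, hz0, hz0T⟩, hq⟩ := mem_iUnion.1 hz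
    have e1 : z - (q.1 • ω₁ + q.2 • ω₂) ∈ par ω₁ ω₂ := by
      rw [← neu_mem_cel_iff hpos q]; simpa using hq
    have e2 : z0 - (q.1 • ω₁ + q.2 • ω₂) ∈ par ω₁ ω₂ := by
      rw [← neu_mem_cel_iff hpos q]; simpa using hz0
    have e3 : ‖z0 - z‖ ≤ 2 * R := by
      have : z0 - z = (z0 - (q.1 • ω₁ + q.2 • ω₂)) - (z - (q.1 • ω₁ + q.2 • ω₂)) := by ring
      rw [this]
      refine (norm_sub_le _ _).trans ?_
      have := neu_norm_par_le e1
      have := neu_norm_par_le e2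
      linarith
    have e4 := neu_mm_lip1 n z0 z
    have e5 : 0 ≤ mm n z0 := hz0T
    show -(4 * R) ≤ mm n z
    linarith
  have hdis : Pairwise (Function.onFun Disjoint fun q : Q => neu_cel ω₁ ω₂ q.1) := by
    intro q q' hne
    exact neu_cel_disjoint (fun h => hne (Subtype.ext h))
  have hcount : Countable Q := by infer_instance
  have key : ∫⁻ z in T, ENNReal.ofReal (g z) ≤ ENNReal.ofReal a * volume T' := by
    calc ∫⁻ z in T, ENNReal.ofReal (g z)
        ≤ ∫⁻ z in ⋃ q : Q, neu_cel ω₁ ω₂ q.1, ENNReal.ofReal (g z) := lintegral_mono_set hsub1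
      _ = ∑' q : Q, ∫⁻ z in neu_cel ω₁ ω₂ q.1, ENNReal.ofReal (g z) :=
          lintegral_iUnion (fun q => neu_measurableSet_cel _) hdis _
      _ ≤ ∑' q : Q, ENNReal.ofReal a * volume (neu_cel ω₁ ω₂ q.1) := by
          refine ENNReal.tsum_le_tsum fun q => ?_
          rw [neu_setLIntegral_cel hpos hGper, neu_volume_cel hpos, ← neu_volume_par hpos]
          exact hpar
      _ = ENNReal.ofReal a * ∑' q : Q, volume (neu_cel ω₁ ω₂ q.1) := ENNReal.tsum_mul_left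
      _ = ENNReal.ofReal a * volume (⋃ q : Q, neu_cel ω₁ ω₂ q.1) := by
          rw [measure_iUnion hdis (fun q => neu_measurableSet_cel _)]
      _ ≤ ENNReal.ofReal a * volume T' := by gcongr
  rw [integral_eq_lintegral_of_nonneg_ae (Filter.Eventually.of_forall fun z => h0 z) hm.restrict]
  have hvol : volume T' = ENNReal.ofReal ((n + 24 * R) ^ 2 / 8) := by
    rw [hT', neu_volume_mm_ge (by nlinarith)]
    congr 2; ring
  rw [hvol, ← ENNReal.ofReal_mul ha0] at key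
  have h1 := ENNReal.toReal_mono ENNReal.ofReal_ne_top key
  rw [ENNReal.toReal_ofReal (by positivity)] at h1
  refine h1.trans ?_
  have h2 : (n + 24 * R) ^ 2 / 8 ≤ n ^ 2 / 8 + (6 * R + 72 * R ^ 2) * n := by
    nlinarith [mul_nonneg (sq_nonneg R) (sub_nonneg.2 hn)]
  calc a * ((n + 24 * R) ^ 2 / 8) ≤ a * (n ^ 2 / 8 + (6 * R + 72 * R ^ 2) * n) :=
        mul_le_mul_of_nonneg_left h2 ha0
    _ = _ := by ring

/-- the part of `n • tri` within distance `A` of its boundary has area `≤ C n` -/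
theorem volume_ring {A : ℝ} (hA : 0 < A) : ∃ C : ℝ, ∀ n : ℝ, 1 ≤ n →
    (volume {z : ℂ | 0 ≤ mm n z ∧ mm n z ≤ A}).toReal ≤ C * n := by
  refine ⟨3 * A, fun n hn => ?_⟩
  have hn0 : 0 < n := by linarith
  have hfin : volume {z : ℂ | 0 ≤ mm n z} ≠ (⊤ : ℝ≥0∞) := by rw [neu_volume_ntri hn0]; exact ENNReal.ofReal_ne_top
  by_cases h : 12 * A < n
  · have hsub : {z : ℂ | 0 ≤ mm n z ∧ mm n z ≤ A} ⊆
        {z : ℂ | 0 ≤ mm n z} \ {z : ℂ | 2 * A ≤ mm n z} := by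
      rintro z ⟨h1, h2⟩
      refine ⟨h1, fun h3 => ?_⟩
      have h3' : 2 * A ≤ mm n z := h3
      linarith
    have h1 := measure_mono (μ := volume) hsub
    rw [measure_sdiff (fun z hz => by
        have hz' : 2 * A ≤ mm n z := hz
        show 0 ≤ mm n z
        linarith) (neu_measurableSet_mm_ge n (2 * A)).nullMeasurableSet
        (by rw [neu_volume_mm_ge (by linarith)]; exact ENNReal.ofReal_ne_top),
      neu_volume_ntri hn0, neu_volume_mm_ge (by linarith), ← ENNReal.ofReal_sub _ (by positivity)] at h1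
    have h2 := ENNReal.toReal_mono ENNReal.ofReal_ne_top h1
    refine h2.trans ?_
    rw [ENNReal.toReal_ofReal (by nlinarith)]
    nlinarith [sq_nonneg A]
  · push Not at h
    have hsub : {z : ℂ | 0 ≤ mm n z ∧ mm n z ≤ A} ⊆ {z : ℂ | 0 ≤ mm n z} := fun z hz => hz.1
    have h2 := ENNReal.toReal_mono hfin (measure_mono hsub)
    refine h2.trans ?_
    rw [neu_volume_ntri hn0, ENNReal.toReal_ofReal (by positivity)]
    nlinarith


/-! ### the gauge field, clamped -/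

def neu_gcl (z : ℂ) : ℝ := max (1 / 2) (min (gau z) 1)
def neu_Gk (z : ℂ) : ℝ := ((neu_gcl z) ^ 2)⁻¹ - 1
def neu_Gf (z : ℂ) : ℂ := neu_Gk z • (z - cen)

theorem neu_gcl_ge (z : ℂ) : 1 / 2 ≤ neu_gcl z := le_max_left _ _
theorem neu_gcl_le (z : ℂ) : neu_gcl z ≤ 1 := max_le (by norm_num) (min_le_right _ _)

theorem neu_gcl_lip (z z' : ℂ) : |neu_gcl z - neu_gcl z'| ≤ 16 * ‖z - z'‖ := by
  have h := gau_lipschitz.dist_le_mul z z'
  rw [Real.dist_eq, dist_eq_norm] at h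
  have h1 : |neu_gcl z - neu_gcl z'| ≤ |min (gau z) 1 - min (gau z') 1| := by
    unfold neu_gcl
    have := abs_max_sub_max_le_abs (min (gau z) 1) (min (gau z') 1) (1 / 2)
    rwa [max_comm _ (1 / 2 : ℝ), max_comm _ (1 / 2 : ℝ)] at this
  have h2 : |min (gau z) 1 - min (gau z') 1| ≤ |gau z - gau z'| :=
    abs_inf_sub_inf_le_abs (gau z) (gau z') 1
  refine h1.trans (h2.trans ?_)
  simpa using h

theorem neu_Gk_lip (z z' : ℂ) : |neu_Gk z - neu_Gk z'| ≤ 512 * ‖z - z'‖ := by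
  have h1 := neu_gcl_ge z
  have h2 := neu_gcl_ge z'
  have h3 := neu_gcl_le z
  have h4 := neu_gcl_le z'
  have h5 := neu_gcl_lip z z'
  set c := neu_gcl z with hc
  set c' := neu_gcl z' with hc'
  have e : neu_Gk z - neu_Gk z' = (c' - c) * ((c' + c) * ((c ^ 2)⁻¹ * (c' ^ 2)⁻¹)) := by
    unfold neu_Gk
    rw [← hc, ← hc']
    have : c ≠ 0 := by linarith
    have : c' ≠ 0 := by linarith
    field_simp
    ring
  rw [e, abs_mul, abs_sub_comm]
  have hi1 : (c ^ 2)⁻¹ ≤ 4 := by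
    rw [inv_le_comm₀ (by positivity) (by norm_num)]
    nlinarith
  have hi2 : (c' ^ 2)⁻¹ ≤ 4 := by
    rw [inv_le_comm₀ (by positivity) (by norm_num)]
    nlinarith
  have hp1 : 0 ≤ (c ^ 2)⁻¹ := by positivity
  have hp2 : 0 ≤ (c' ^ 2)⁻¹ := by positivity
  have h6 : |(c' + c) * ((c ^ 2)⁻¹ * (c' ^ 2)⁻¹)| ≤ 32 := by
    rw [abs_of_nonneg (by positivity)]
    have h7 : (c ^ 2)⁻¹ * (c' ^ 2)⁻¹ ≤ 16 := by nlinarith
    have h8 : 0 ≤ (c ^ 2)⁻¹ * (c' ^ 2)⁻¹ := by positivity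
    nlinarith
  calc |c - c'| * |(c' + c) * ((c ^ 2)⁻¹ * (c' ^ 2)⁻¹)| ≤ (16 * ‖z - z'‖) * 32 :=
        mul_le_mul h5 h6 (abs_nonneg _) (by positivity)
    _ = 512 * ‖z - z'‖ := by ring

theorem neu_Gk_nonneg (z : ℂ) : 0 ≤ neu_Gk z := by
  unfold neu_Gk
  have h1 := neu_gcl_ge z
  have h3 := neu_gcl_le z
  have : 1 ≤ ((neu_gcl z) ^ 2)⁻¹ := by
    rw [one_le_inv₀ (by positivity)]
    nlinarith
  linarith

theorem neu_Gk_le (z : ℂ) : neu_Gk z ≤ 3 := by
  unfold neu_Gk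
  have h1 := neu_gcl_ge z
  have : ((neu_gcl z) ^ 2)⁻¹ ≤ 4 := by
    rw [inv_le_comm₀ (by positivity) (by norm_num)]
    nlinarith
  linarith

theorem neu_Gk_zero {z : ℂ} (h : 1 ≤ gau z) : neu_Gk z = 0 := by
  unfold neu_Gk neu_gcl
  rw [min_eq_right h, max_eq_right (by norm_num)]
  norm_num

theorem neu_Gk_le' {z : ℂ} {δ : ℝ} (h : 1 - δ ≤ gau z) (hδ : 0 ≤ δ) : neu_Gk z ≤ 8 * δ := by
  have h1 := neu_gcl_ge z
  have h3 := neu_gcl_le z
  have h4 : 1 - δ ≤ neu_gcl z := by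
    unfold neu_gcl
    exact le_max_of_le_right (le_min h (by linarith))
  unfold neu_Gk
  have hi1 : ((neu_gcl z) ^ 2)⁻¹ ≤ 4 := by
    rw [inv_le_comm₀ (by positivity) (by norm_num)]
    nlinarith
  have e : ((neu_gcl z) ^ 2)⁻¹ - 1 = ((neu_gcl z) ^ 2)⁻¹ * (1 - (neu_gcl z) ^ 2) := by
    have : neu_gcl z ≠ 0 := by linarith
    field_simp
  rw [e]
  have h5 : 1 - (neu_gcl z) ^ 2 ≤ 2 * δ := by nlinarith
  have h6 : 0 ≤ 1 - (neu_gcl z) ^ 2 := by nlinarith
  nlinarith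

theorem neu_norm_sub_cen_le {z : ℂ} (h : gau z ≤ 1) : ‖z - cen‖ ≤ 1 / 2 := by
  have := gau_lower z
  linarith

theorem neu_Gf_lip (z z' : ℂ) : ‖neu_Gf z - neu_Gf z'‖ ≤ 259 * ‖z - z'‖ := by
  have := nx_lip_smul (f := neu_Gk) (g := fun z => z - cen) (S := {z | gau z ≤ 1}) (a := 512) (A := 3)
    (b := 1) (B := 1 / 2) neu_Gk_lip (fun z => by rw [abs_of_nonneg (neu_Gk_nonneg z)]; exact neu_Gk_le z)
    (fun z hz => neu_Gk_zero (by
      have : ¬ gau z ≤ 1 := hz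
      linarith))
    (fun z _ z' _ => by rw [sub_sub_sub_cancel_right, one_mul])
    (fun z hz => neu_norm_sub_cen_le hz) (by norm_num) (by norm_num) (by norm_num) z z'
  unfold neu_Gf
  refine this.trans (le_of_eq ?_)
  norm_num

theorem neu_Gf_eq_near {w : ℂ} (h1 : 1 / 2 < gau w) (h2 : gau w < 1) :
    neu_Gf =ᶠ[nhds w] fun w' => gfield w' - w' := by
  have hc : Continuous gau := gau_lipschitz.continuous
  filter_upwards [(isOpen_lt continuous_const hc).mem_nhds h1,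
    (isOpen_lt hc continuous_const).mem_nhds h2] with w' hw1 hw2
  have hw1' : 1 / 2 < gau w' := hw1
  have hw2' : gau w' < 1 := hw2
  unfold neu_Gf neu_Gk neu_gcl gfield
  rw [min_eq_left hw2'.le, max_eq_right hw1'.le, sub_smul, one_smul]
  ring

/-- scaled version -/
def neu_Gn (n : ℝ) (z : ℂ) : ℂ := n • neu_Gf (n⁻¹ • z)

theorem neu_Gn_lip {n : ℝ} (hn : 0 < n) (z z' : ℂ) : ‖neu_Gn n z - neu_Gn n z'‖ ≤ 259 * ‖z - z'‖ := by
  unfold neu_Gn
  rw [← smul_sub, norm_smul, Real.norm_eq_abs, abs_of_pos hn]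
  have h := neu_Gf_lip (n⁻¹ • z) (n⁻¹ • z')
  rw [← smul_sub, norm_smul, Real.norm_eq_abs, abs_of_pos (inv_pos.2 hn)] at h
  calc n * ‖neu_Gf (n⁻¹ • z) - neu_Gf (n⁻¹ • z')‖ ≤ n * (259 * (n⁻¹ * ‖z - z'‖)) :=
        mul_le_mul_of_nonneg_left h hn.le
    _ = 259 * ‖z - z'‖ := by field_simp

theorem neu_gau_scale_ge {n A : ℝ} (hn : 0 < n) (hA : 0 ≤ A) {z : ℂ} (h : mm n z ≤ A) :
    1 - 8 * A / n ≤ gau (n⁻¹ • z) := by
  have hn' : n ≠ 0 := hn.ne'
  unfold mm at h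
  unfold gau cen
  simp only [Complex.sub_re, Complex.sub_im, Complex.smul_re, Complex.smul_im, smul_eq_mul]
  rcases min_le_iff.1 h with h | h
  · rcases min_le_iff.1 h with h | h
    · refine le_max_of_le_left (le_max_of_le_left ?_)
      have : z.im / n ≤ A / n := by gcongr
      have e : n⁻¹ * z.im = z.im / n := by ring
      rw [e, mul_div_assoc]
      linarith
    · refine le_max_of_le_left (le_max_of_le_right ?_)
      have : (n / 2 - z.re) / n ≤ A / n := by gcongr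
      have e : (n / 2 - z.re) / n = 1 / 2 - n⁻¹ * z.re := by field_simp
      rw [e] at this
      rw [mul_div_assoc]
      linarith
  · refine le_max_of_le_right ?_
    have : (z.re - z.im) / n ≤ A / n := by gcongr
    have e : (z.re - z.im) / n = n⁻¹ * z.re - n⁻¹ * z.im := by ring
    have hAn : 0 ≤ A / n := by positivity
    rw [e] at this
    rw [mul_div_assoc]
    linarith

theorem neu_gau_scale_le {n : ℝ} (hn : 0 < n) {z : ℂ} (h : 0 ≤ mm n z) : gau (n⁻¹ • z) ≤ 1 := by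
  rw [← mem_tri_iff_gau, ← neu_mem_tri_scale hn]
  exact h

theorem neu_Gn_bound {n A : ℝ} (hn : 0 < n) (hA : 0 ≤ A) {z : ℂ} (h : mm n z ≤ A) :
    ‖neu_Gn n z‖ ≤ 32 * A := by
  unfold neu_Gn neu_Gf
  by_cases h1 : gau (n⁻¹ • z) ≤ 1
  · have h2 := neu_gau_scale_ge hn hA h
    have h3 := neu_Gk_le' h2 (by positivity)
    have h4 := neu_norm_sub_cen_le h1
    rw [norm_smul, norm_smul, Real.norm_eq_abs, Real.norm_eq_abs, abs_of_pos hn,
      abs_of_nonneg (neu_Gk_nonneg _)]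
    have h5 := mul_le_mul h3 h4 (norm_nonneg _) (by positivity)
    calc n * (neu_Gk (n⁻¹ • z) * ‖n⁻¹ • z - cen‖) ≤ n * (8 * (8 * A / n) * (1 / 2)) :=
          mul_le_mul_of_nonneg_left h5 hn.le
      _ = 32 * A := by field_simp; ring
  · push Not at h1
    rw [neu_Gk_zero h1.le, zero_smul, smul_zero, norm_zero]
    positivity

theorem neu_Gn_zero {n : ℝ} (hn : 0 < n) {z : ℂ} (h : mm n z < 0) : neu_Gn n z = 0 := by
  have h1 : ¬ gau (n⁻¹ • z) ≤ 1 := by
    rw [← mem_tri_iff_gau, ← neu_mem_tri_scale hn]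
    linarith
  push Not at h1
  unfold neu_Gn neu_Gf
  rw [neu_Gk_zero h1.le, zero_smul, smul_zero]

/-! ### divergence calculus -/

theorem neu_dv_congr {f g : ℂ → ℂ} {z : ℂ} (h : f =ᶠ[nhds z] g) : dv f z = dv g z := by
  unfold dv
  rw [h.fderiv_eq]

theorem neu_dv_add {f g : ℂ → ℂ} {z : ℂ} (hf : DifferentiableAt ℝ f z) (hg : DifferentiableAt ℝ g z) :
    dv (fun z => f z + g z) z = dv f z + dv g z := by
  unfold dv
  rw [fderiv_fun_add hf hg]
  simp only [add_apply, Complex.add_re, Complex.add_im]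
  ring

theorem neu_dv_smul {f : ℂ → ℝ} {g : ℂ → ℂ} {z : ℂ} (hf : DifferentiableAt ℝ f z)
    (hg : DifferentiableAt ℝ g z) : dv (fun z => f z • g z) z
      = f z * dv g z + (fderiv ℝ f z 1 * (g z).re + fderiv ℝ f z I * (g z).im) := by
  unfold dv
  rw [fderiv_fun_smul hf hg]
  simp only [add_apply, smul_apply,
    ContinuousLinearMap.smulRight_apply, Complex.add_re, Complex.add_im, Complex.smul_re,
    Complex.smul_im, smul_eq_mul]
  ring

theorem neu_abs_dv_le {f : ℂ → ℂ} {K : ℝ} {z : ℂ} (h : ‖fderiv ℝ f z‖ ≤ K) : |dv f z| ≤ 2 * K := by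
  unfold dv
  have h1 : |(fderiv ℝ f z 1).re| ≤ K := by
    refine (Complex.abs_re_le_norm _).trans (((fderiv ℝ f z).le_opNorm 1).trans ?_)
    simpa using h
  have h2 : |(fderiv ℝ f z I).im| ≤ K := by
    refine (Complex.abs_im_le_norm _).trans (((fderiv ℝ f z).le_opNorm I).trans ?_)
    simpa using h
  exact (abs_add_le _ _).trans (by linarith)

theorem neu_norm_dbar_le {f : ℂ → ℂ} {K : ℝ} {z : ℂ} (h : ‖fderiv ℝ f z‖ ≤ K) : ‖dbar f z‖ ≤ K := by
  unfold dbar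
  have h1 : ‖fderiv ℝ f z 1‖ ≤ K := by
    refine ((fderiv ℝ f z).le_opNorm 1).trans ?_
    simpa using h
  have h2 : ‖I * fderiv ℝ f z I‖ ≤ K := by
    rw [norm_mul, Complex.norm_I, one_mul]
    refine ((fderiv ℝ f z).le_opNorm I).trans ?_
    simpa using h
  rw [norm_div]
  have h3 : ‖(2 : ℂ)‖ = 2 := by simp
  rw [h3]
  have := norm_add_le (fderiv ℝ f z 1) (I * fderiv ℝ f z I)
  linarith

theorem neu_dv_lip {f : ℂ → ℂ} {K : ℝ} (h : NeuNice K f) (z z' : ℂ) : |dv f z - dv f z'| ≤ 2 * K * ‖z - z'‖ := by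
  have h1 : ∀ v : ℂ, ‖v‖ = 1 → ‖fderiv ℝ f z v - fderiv ℝ f z' v‖ ≤ K * ‖z - z'‖ := by
    intro v hv
    have := (fderiv ℝ f z - fderiv ℝ f z').le_opNorm v
    rw [sub_apply, hv, mul_one] at this
    exact this.trans (h.lip' z z')
  have h2 := (Complex.abs_re_le_norm _).trans (h1 1 (by simp))
  have h3 := (Complex.abs_im_le_norm _).trans (h1 I (by simp))
  unfold dv
  rw [Complex.sub_re] at h2
  rw [Complex.sub_im] at h3
  calc _ = |((fderiv ℝ f z 1).re - (fderiv ℝ f z' 1).re) + ((fderiv ℝ f z I).im - (fderiv ℝ f z' I).im)| := by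
        congr 1; ring
    _ ≤ _ := (abs_add_le _ _).trans (by linarith)

end EBC
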