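import Pool.Agent.Work.MP_ebc928_an.BaseDefs
import Pool.Agent.Work.MP_ebc928_an.Grid
import Pool.Agent.Work.MP_ebc928_an.Gauge
import Pool.Agent.Work.MP_ebc928_an.NeutralAux2

open MeasureTheory Complex Set
open scoped ContDiff ComplexConjugate

noncomputable section
namespace EBC

/-- the content at scale `n` -/
def neu_contS (ω₁ ω₂ : ℂ) (Vd : Set ℂ) (p₀ : ℂ) (r₀ D n : ℝ) : Set ℂ :=
  {z | (z ∈ Vd ∧ 20 * D < mm n z) ∨
    ∃ k l : ℤ, 5 * D ≤ mm n (p₀ + k • ω₁ + l • ω₂) ∧ mm n (p₀ + k • ω₁ + l • ω₂) ≤ 30 * D ∧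
      dist z (p₀ + k • ω₁ + l • ω₂) < r₀ / 2}

theorem neu_mem_content_iff {ω₁ ω₂ : ℂ} {Vd : Set ℂ} {p₀ : ℂ} {r₀ D n : ℝ} (z : ℂ) :
    z ∈ content ω₁ ω₂ Vd p₀ r₀ D n ↔ n • z ∈ neu_contS ω₁ ω₂ Vd p₀ r₀ D n := by
  unfold content neu_contS
  simp only [mem_ofPred_eq, Complex.real_smul]

theorem neu_isOpen_contS {ω₁ ω₂ : ℂ} {Vd : Set ℂ} {p₀ : ℂ} {r₀ D n : ℝ} (hV : IsOpen Vd) :
    IsOpen (neu_contS ω₁ ω₂ Vd p₀ r₀ D n) := by
  have e : neu_contS ω₁ ω₂ Vd p₀ r₀ D n = (Vd ∩ {z | 20 * D < mm n z}) ∪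
      ⋃ (k : ℤ) (l : ℤ) (_ : 5 * D ≤ mm n (p₀ + k • ω₁ + l • ω₂) ∧
        mm n (p₀ + k • ω₁ + l • ω₂) ≤ 30 * D), Metric.ball (p₀ + k • ω₁ + l • ω₂) (r₀ / 2) := by
    ext z
    simp only [neu_contS, mem_ofPred_eq, mem_union, mem_inter_iff, mem_iUnion, Metric.mem_ball,
      exists_prop, and_assoc]
  rw [e]
  refine (hV.inter (neu_isOpen_mm_gt n _)).union ?_
  exact isOpen_iUnion fun k => isOpen_iUnion fun l => isOpen_iUnion fun _ => Metric.isOpen_ball

theorem neu_isOpen_content {ω₁ ω₂ : ℂ} {Vd : Set ℂ} {p₀ : ℂ} {r₀ D n : ℝ} (hV : IsOpen Vd) :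
    IsOpen (content ω₁ ω₂ Vd p₀ r₀ D n) := by
  have e : content ω₁ ω₂ Vd p₀ r₀ D n = (fun z : ℂ => n • z) ⁻¹' neu_contS ω₁ ω₂ Vd p₀ r₀ D n := by
    ext z; exact neu_mem_content_iff z
  rw [e]
  exact (neu_isOpen_contS hV).preimage (continuous_const_smul n)

/-- the displacement at scale `n` -/
theorem neutralA_main {ω₁ ω₂ : ℂ} {Vd : Set ℂ} {ψ Ξ : ℂ → ℂ} {p₀ : ℂ} {r₀ e J : ℝ}
    (h : IsBase ω₁ ω₂ Vd ψ Ξ p₀ r₀ e J) :
    ∃ D₀ > 0, ∀ D : ℝ, D₀ ≤ D → ∃ K N₀ : ℝ, 0 < N₀ ∧ ∀ n : ℝ, N₀ ≤ n →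
      ∃ v : ℂ → ℂ, (∀ z z', ‖v z - v z'‖ ≤ K * ‖z - z'‖) ∧ (∀ z, mm n z < 0 → v z = 0) ∧
        (∀ᵐ z, 0 ≤ mm n z → z ∉ neu_contS ω₁ ω₂ Vd p₀ r₀ D n → 2 + dv v z = 0) ∧
        (∀ z, 25 * D < mm n z → v =ᶠ[nhds z] ψ) := by
  have hr₀ := h.r₀pos
  obtain ⟨Kψ, hψ⟩ := neu_nice_of_smooth h.pos h.perψ h.smooth
  obtain ⟨Cg, Dg, hCg, hDg, hgrid⟩ := grid_corrector h.pos p₀ (r := r₀ / 2) (by positivity)
  have hKψ := hψ.nonneg
  refine ⟨r₀ + 2 * Dg + 2, by positivity, fun D hD => ?_⟩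
  have hD0 : 2 ≤ D := by linarith
  obtain ⟨K1, hχ⟩ := neu_chi_nice (a := 10 * D) (b := 10 * D) (by linarith)
  obtain ⟨K2, hχ1⟩ := neu_chi_nice (a := 20 * D) (b := 1) (by norm_num)
  have hK1 : 0 ≤ K1 := (hχ 1).nonneg
  have hK2 : 0 ≤ K2 := (hχ1 1).nonneg
  set K3 := 4 * K1 * (1 + K2) with hK3def
  have hK3 : 0 ≤ K3 := by positivity
  set Lf : ℝ := (K1 * (Kψ + 640 * D) + K1 * (Kψ + 259)) + (K1 * (Kψ + 640 * D) + K1 * (Kψ + 259))
    + (K3 * (2 + 2 * Kψ) + K3 * (2 * Kψ)) with hLf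
  set Mf : ℝ := K1 * (Kψ + 640 * D) + K1 * (Kψ + 640 * D) + K3 * (2 + 2 * Kψ) with hMf
  have hLf0 : 0 ≤ Lf := by positivity
  have hMf0 : 0 ≤ Mf := by positivity
  set Kv : ℝ := 4 * K1 * Kψ + (K1 * (640 * D) + 1 * 259) + Cg * (Lf + Mf) with hKv
  refine ⟨Kv, 16 * (20 * D) + 1, by positivity, fun n hn => ?_⟩
  have hn0 : 0 < n := by linarith [mul_pos (by norm_num : (0:ℝ) < 16) (by linarith : 0 < 20 * D)]
  have hb10 : 0 < 10 * D := by linarith
  -- objects
  set χ := neu_chi (10 * D) (10 * D) n with hχdef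
  set χ₁ := neu_chi (20 * D) 1 n with hχ1def
  have hχn : NeuNice K1 χ := hχ n
  have hχ1n : NeuNice K2 χ₁ := hχ1 n
  set V : ℂ → ℂ := fun z => ψ z - neu_Gn n z with hV
  set S : Set ℂ := {z | mm n z ≤ 20 * D} with hS
  have hVS : ∀ z ∈ S, ‖V z‖ ≤ Kψ + 640 * D := by
    intro z hz
    have h1 := neu_Gn_bound hn0 (by linarith : (0:ℝ) ≤ 20 * D) (z := z) hz
    have h2 := hψ.bd z
    refine (norm_sub_le _ _).trans ?_
    linarith
  have hVlip : ∀ z z', ‖V z - V z'‖ ≤ (Kψ + 259) * ‖z - z'‖ := by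
    intro z z'
    have h1 := neu_Gn_lip hn0 z z'
    have h2 := hψ.lip z z'
    have e1 : V z - V z' = (ψ z - ψ z') - (neu_Gn n z - neu_Gn n z') := by simp only [hV]; ring
    rw [e1]
    refine (norm_sub_le _ _).trans ?_
    linarith
  have hSz : ∀ z, z ∉ S → fderiv ℝ χ z = 0 := by
    intro z hz
    have hz' : 20 * D < mm n z := by
      have : ¬ mm n z ≤ 20 * D := hz
      linarith
    exact neu_fderiv_chi_zero hb10 (Or.inr (by linarith))
  set f : ℂ → ℝ := fun z => -((fderiv ℝ χ z 1) * (V z).re + (fderiv ℝ χ z I) * (V z).im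
    + χ z * (1 - χ₁ z) * (2 + dv ψ z)) with hf
  -- nice product
  have hprod : NeuNice K3 (fun z => χ z • (1 - χ₁ z)) := by
    have h1 : NeuNice (1 + K2) (fun z => 1 - χ₁ z) := by
      have h2 := (neu_nice_const (1 : ℝ)).add hχ1n.neg
      rw [norm_one] at h2
      have e1 : (fun z => (1 : ℝ) - χ₁ z) = fun z => (1 : ℝ) + - χ₁ z := by funext z; ring
      rw [e1]; exact h2
    exact hχn.smul h1
  have hdiv_bd : ∀ z, |2 + dv ψ z| ≤ 2 + 2 * Kψ := by
    intro z
    have := neu_abs_dv_le (hψ.bd' z)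
    refine (abs_add_le _ _).trans ?_
    rw [abs_of_pos (by norm_num : (0:ℝ) < 2)]
    linarith
  have hcomp1 : ∀ (v : ℂ), ‖v‖ = 1 → ∀ (π : ℂ → ℝ), (∀ w w', |π w - π w'| ≤ ‖w - w'‖) →
      (∀ w, |π w| ≤ ‖w‖) → (∀ z z', |fderiv ℝ χ z v * π (V z) - fderiv ℝ χ z' v * π (V z')| ≤
        (K1 * (Kψ + 640 * D) + K1 * (Kψ + 259)) * ‖z - z'‖) ∧
      ∀ z, |fderiv ℝ χ z v * π (V z)| ≤ K1 * (Kψ + 640 * D) := by
    intro v hv π hπ1 hπ2
    have h1 : ∀ z, |fderiv ℝ χ z v| ≤ K1 := fun z => by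
      have := (fderiv ℝ χ z).le_opNorm v
      rw [hv, mul_one, Real.norm_eq_abs] at this
      exact this.trans (hχn.bd' z)
    have h2 : ∀ z z', |fderiv ℝ χ z v - fderiv ℝ χ z' v| ≤ K1 * ‖z - z'‖ := fun z z' => by
      have := (fderiv ℝ χ z - fderiv ℝ χ z').le_opNorm v
      rw [hv, mul_one, Real.norm_eq_abs, sub_apply] at this
      exact this.trans (hχn.lip' z z')
    constructor
    · intro z z'
      have := nx_lip_smul (f := fun z => fderiv ℝ χ z v) (g := fun z => π (V z)) (S := S) (a := K1)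
        (A := K1) (b := Kψ + 259) (B := Kψ + 640 * D) h2 h1 (fun z hz => by rw [hSz z hz]; simp)
        (fun z _ z' _ => by
          rw [Real.norm_eq_abs]
          exact (hπ1 _ _).trans (hVlip z z'))
        (fun z hz => by
          rw [Real.norm_eq_abs]
          exact (hπ2 _).trans (hVS z hz))
        hK1 (by positivity) (by positivity) z z'
      simpa [Real.norm_eq_abs] using this
    · intro z
      by_cases hz : z ∈ S
      · rw [abs_mul]
        exact mul_le_mul (h1 z) ((hπ2 _).trans (hVS z hz)) (abs_nonneg _) hK1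
      · rw [hSz z hz]
        simp only [zero_apply, zero_mul, abs_zero]
        positivity
  have hc1 := hcomp1 1 (by simp) (fun w => w.re) (fun w w' => by
      rw [← Complex.sub_re]; exact Complex.abs_re_le_norm _) (fun w => Complex.abs_re_le_norm _)
  have hc2 := hcomp1 I (by simp) (fun w => w.im) (fun w w' => by
      rw [← Complex.sub_im]; exact Complex.abs_im_le_norm _) (fun w => Complex.abs_im_le_norm _)
  have hc3 : ∀ z z', |χ z * (1 - χ₁ z) * (2 + dv ψ z) - χ z' * (1 - χ₁ z') * (2 + dv ψ z')| ≤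
      (K3 * (2 + 2 * Kψ) + K3 * (2 * Kψ)) * ‖z - z'‖ := by
    intro z z'
    have := nx_lip_smul (f := fun z => χ z • (1 - χ₁ z)) (g := fun z => 2 + dv ψ z) (S := univ)
      (a := K3) (A := K3) (b := 2 * Kψ) (B := 2 + 2 * Kψ)
      (fun z z' => by rw [← Real.norm_eq_abs]; exact hprod.lip z z')
      (fun z => by rw [← Real.norm_eq_abs]; exact hprod.bd z)
      (fun z hz => absurd (mem_univ z) hz)
      (fun z _ z' _ => by
        rw [Real.norm_eq_abs, add_sub_add_left_eq_sub]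
        exact neu_dv_lip hψ z z')
      (fun z _ => by rw [Real.norm_eq_abs]; exact hdiv_bd z)
      hK3 (by positivity) (by positivity) z z'
    simpa [Real.norm_eq_abs, smul_eq_mul] using this
  have hc4 : ∀ z, |χ z * (1 - χ₁ z) * (2 + dv ψ z)| ≤ K3 * (2 + 2 * Kψ) := by
    intro z
    rw [abs_mul]
    have := hprod.bd z
    rw [Real.norm_eq_abs, smul_eq_mul] at this
    exact mul_le_mul this (hdiv_bd z) (abs_nonneg _) hK3
  have hf_lip : ∀ z z', |f z - f z'| ≤ Lf * ‖z - z'‖ := by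
    intro z z'
    have e1 : f z - f z' = -((fderiv ℝ χ z 1 * (V z).re - fderiv ℝ χ z' 1 * (V z').re)
      + (fderiv ℝ χ z I * (V z).im - fderiv ℝ χ z' I * (V z').im)
      + (χ z * (1 - χ₁ z) * (2 + dv ψ z) - χ z' * (1 - χ₁ z') * (2 + dv ψ z'))) := by
      simp only [hf]; ring
    rw [e1, abs_neg]
    refine (abs_add_le _ _).trans ?_
    have h1 := abs_add_le (fderiv ℝ χ z 1 * (V z).re - fderiv ℝ χ z' 1 * (V z').re)
      (fderiv ℝ χ z I * (V z).im - fderiv ℝ χ z' I * (V z').im)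
    have h2 := hc1.1 z z'
    have h3 := hc2.1 z z'
    have h4 := hc3 z z'
    rw [hLf, add_mul, add_mul]
    linarith
  have hf_bd : ∀ z, |f z| ≤ Mf := by
    intro z
    simp only [hf]
    rw [abs_neg]
    refine (abs_add_le _ _).trans ?_
    have h1 := abs_add_le (fderiv ℝ χ z 1 * (V z).re) (fderiv ℝ χ z I * (V z).im)
    have h2 := hc1.2 z
    have h3 := hc2.2 z
    have h4 := hc4 z
    rw [hMf]
    linarith
  -- vanishing of f
  have hf_zero1 : ∀ z, mm n z < 10 * D → f z = 0 := by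
    intro z hz
    simp only [hf]
    rw [hχdef, neu_fderiv_chi_zero hb10 (Or.inl hz), neu_chi_zero hb10 hz.le]
    simp
  have hf_zero2 : ∀ z, 20 * D + 1 < mm n z → f z = 0 := by
    intro z hz
    simp only [hf]
    rw [hχdef, neu_fderiv_chi_zero hb10 (Or.inr (by linarith)), hχ1def, neu_chi_one (by norm_num) hz.le]
    simp
  obtain ⟨w, hw_lip, hw_bd, hw_div, hw_zero⟩ := hgrid f (Real.toNNReal Lf) (Real.toNNReal Mf)
    (LipschitzWith.of_dist_le_mul fun z z' => by
      rw [Real.dist_eq, dist_eq_norm, Real.coe_toNNReal _ hLf0]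
      exact hf_lip z z')
    (fun z => by rw [Real.coe_toNNReal _ hMf0]; exact hf_bd z)
  rw [Real.coe_toNNReal _ hLf0, Real.coe_toNNReal _ hMf0] at hw_lip
  have hw_lip' : ∀ z z', ‖w z - w z'‖ ≤ Cg * (Lf + Mf) * ‖z - z'‖ := by
    intro z z'
    have := hw_lip.dist_le_mul z z'
    rwa [dist_eq_norm, dist_eq_norm, Real.coe_toNNReal _ (by positivity)] at this
  have hw_near : ∀ z, (∀ z', ‖z - z'‖ ≤ Dg + 1 → f z' = 0) → w =ᶠ[nhds z] fun _ => 0 := by
    intro z hz
    filter_upwards [Metric.ball_mem_nhds z one_pos] with z'' hz''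
    refine hw_zero z'' fun z' hz' => hz z' ?_
    rw [dist_eq_norm] at hz'
    rw [Metric.mem_ball, dist_comm, dist_eq_norm] at hz''
    calc ‖z - z'‖ = ‖(z - z'') + (z'' - z')‖ := by congr 1; ring
      _ ≤ ‖z - z''‖ + ‖z'' - z'‖ := norm_add_le _ _
      _ ≤ Dg + 1 := by linarith
  have hw_near1 : ∀ z, mm n z + 2 * (Dg + 1) < 10 * D → w =ᶠ[nhds z] fun _ => 0 := by
    intro z hz
    refine hw_near z fun z' hz' => hf_zero1 z' ?_
    have := neu_mm_lip1 n z' z
    rw [norm_sub_rev] at this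
    linarith
  have hw_near2 : ∀ z, 20 * D + 1 + 2 * (Dg + 1) < mm n z → w =ᶠ[nhds z] fun _ => 0 := by
    intro z hz
    refine hw_near z fun z' hz' => hf_zero2 z' ?_
    have := neu_mm_lip1 n z z'
    linarith
  -- the field
  set v : ℂ → ℂ := fun z => χ z • ψ z + ((1 - χ z) • neu_Gn n z + w z) with hv
  refine ⟨v, ?_, ?_, ?_, ?_⟩
  · -- Lipschitz
    intro z z'
    have h1 := (hχn.smul hψ).lip z z'
    have h2 := nx_lip_smul (f := fun z => 1 - χ z) (g := neu_Gn n) (S := S) (a := K1) (A := 1)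
      (b := 259) (B := 640 * D)
      (fun z z' => by
        have := hχn.lip z z'
        rw [Real.norm_eq_abs] at this
        rwa [sub_sub_sub_cancel_left, abs_sub_comm])
      (fun z => by
        rw [abs_le]
        have := neu_chi_nonneg (10 * D) (10 * D) n z
        have := neu_chi_le_one (10 * D) (10 * D) n z
        rw [hχdef]
        constructor <;> linarith)
      (fun z hz => by
        have hz' : ¬ mm n z ≤ 20 * D := hz
        push Not at hz'
        rw [hχdef, neu_chi_one hb10 (by linarith), sub_self])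
      (fun z _ z' _ => neu_Gn_lip hn0 z z')
      (fun z hz => by
        have := neu_Gn_bound hn0 (by linarith : (0:ℝ) ≤ 20 * D) (z := z) hz
        linarith)
      hK1 (by norm_num) (by positivity) z z'
    have h3 := hw_lip' z z'
    have e1 : v z - v z' = (χ z • ψ z - χ z' • ψ z') + (((1 - χ z) • neu_Gn n z - (1 - χ z') • neu_Gn n z')
      + (w z - w z')) := by simp only [hv]; abel
    rw [e1]
    refine (norm_add_le _ _).trans ?_
    have h4 := norm_add_le ((1 - χ z) • neu_Gn n z - (1 - χ z') • neu_Gn n z') (w z - w z')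
    rw [hKv, add_mul, add_mul]
    linarith
  · -- zero outside
    intro z hz
    have h1 : χ z = 0 := neu_chi_zero hb10 (by linarith)
    have h2 : w z = 0 := (hw_near1 z (by linarith)).eq_of_nhds
    simp only [hv]
    rw [h1, h2, neu_Gn_zero hn0 hz]
    simp
  · -- divergence
    have hn' : (n⁻¹ : ℝ) ≠ 0 := inv_ne_zero hn0.ne'
    have hqmp : ∀ {P : ℂ → Prop}, (∀ᵐ z, P z) → ∀ᵐ z, P ((n⁻¹ : ℝ) • z) := by
      intro P hP
      rw [ae_iff] at hP ⊢
      have : {a : ℂ | ¬ P ((n⁻¹ : ℝ) • a)} = (fun a : ℂ => (n⁻¹ : ℝ) • a) ⁻¹' {a | ¬ P a} := rfl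
      rw [this, Measure.addHaar_preimage_smul _ hn', hP, mul_zero]
    have hg1 := hqmp gfield_div
    have hnull : ∀ᵐ z : ℂ, gau z ≠ 1 := by
      rw [ae_iff]
      simpa using null_gau_level 1 one_pos
    have hg2 := hqmp hnull
    filter_upwards [hw_lip.ae_differentiableAt, hw_div, hg1, hg2] with z hz1 hz2 hz3 hz4 hz5 hz6
    have hψd : DifferentiableAt ℝ ψ z := hψ.diff z
    have hχd : DifferentiableAt ℝ χ z := hχn.diff z
    -- dv w = f
    have hdvw : dv w z = f z := by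
      by_cases hh : ∀ k l : ℤ, r₀ / 2 ≤ dist z (p₀ + k • ω₁ + l • ω₂)
      · exact hz2 hh
      · push Not at hh
        obtain ⟨k, l, hkl⟩ := hh
        have hcases : mm n (p₀ + k • ω₁ + l • ω₂) < 5 * D ∨ 30 * D < mm n (p₀ + k • ω₁ + l • ω₂) := by
          by_contra hc
          push Not at hc
          exact hz6 (Or.inr ⟨k, l, hc.1, hc.2, hkl⟩)
        rw [dist_eq_norm] at hkl
        rcases hcases with hc | hc
        · have h1 := neu_mm_lip1 n z (p₀ + k • ω₁ + l • ω₂)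
          have h2 : w =ᶠ[nhds z] fun _ => 0 := hw_near1 z (by linarith)
          have h3 : f z = 0 := hf_zero1 z (by linarith)
          rw [neu_dv_congr h2, h3]
          simp [dv]
        · have h1 := neu_mm_lip1 n (p₀ + k • ω₁ + l • ω₂) z
          rw [norm_sub_rev] at h1
          have h2 : w =ᶠ[nhds z] fun _ => 0 := hw_near2 z (by linarith)
          have h3 : f z = 0 := hf_zero2 z (by linarith)
          rw [neu_dv_congr h2, h3]
          simp [dv]
    by_cases hc : 20 * D < mm n z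
    · -- bulk
      have hzV : z ∉ Vd := fun hh => hz6 (Or.inl ⟨hh, hc⟩)
      have h1 : v =ᶠ[nhds z] fun z => ψ z + w z := by
        filter_upwards [(neu_isOpen_mm_gt n (20 * D)).mem_nhds hc] with z' hz'
        have hz'' : 20 * D < mm n z' := hz'
        have : χ z' = 1 := neu_chi_one hb10 (by linarith)
        simp only [hv]
        rw [this]
        simp
      have h2 : f z = 0 := by
        simp only [hf]
        rw [hSz z (by
          show ¬ mm n z ≤ 20 * D
          linarith), h.div0 z hzV]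
        simp
      rw [neu_dv_congr h1, neu_dv_add hψd hz1, hdvw, h2, add_zero]
      exact h.div0 z hzV
    · push Not at hc
      -- near the boundary
      have h1 : gau (n⁻¹ • z) < 1 := lt_of_le_of_ne (neu_gau_scale_le hn0 hz5) hz4
      have h2 : 1 / 2 < gau (n⁻¹ • z) := by
        have := neu_gau_scale_ge hn0 (by linarith : (0:ℝ) ≤ 20 * D) hc
        refine lt_of_lt_of_le ?_ this
        have : 8 * (20 * D) / n < 1 / 2 := by
          rw [div_lt_div_iff₀ hn0 (by norm_num)]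
          linarith
        linarith
      have h3 := neu_Gf_eq_near h2 h1
      have hGd0 : DifferentiableAt ℝ (fun w' : ℂ => gfield w' - w') (n⁻¹ • z) :=
        hz3.1.sub differentiableAt_id
      have hGd : DifferentiableAt ℝ neu_Gf (n⁻¹ • z) := hGd0.congr_of_eventuallyEq h3
      have hdvG : dv neu_Gf (n⁻¹ • z) = -2 := by
        rw [neu_dv_congr h3]
        have : dv (fun w' : ℂ => gfield w' - w') (n⁻¹ • z) = dv gfield (n⁻¹ • z) - 2 := by
          unfold dv
          have e1 := fderiv_fun_sub hz3.1 (differentiableAt_id (𝕜 := ℝ) (x := (n⁻¹ • z : ℂ)))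
          simp only [id_eq] at e1
          rw [e1, fderiv_id]
          simp only [sub_apply, ContinuousLinearMap.id_apply, Complex.sub_re, Complex.sub_im, Complex.one_re, Complex.I_im]
          ring
        rw [this, hz3.2]
        ring
      have hGnd : DifferentiableAt ℝ (neu_Gn n) z := by
        unfold neu_Gn
        exact (hGd.comp z ((differentiableAt_id (𝕜 := ℝ) (x := z)).const_smul n⁻¹)).const_smul n
      have hGnf : fderiv ℝ (neu_Gn n) z = fderiv ℝ neu_Gf (n⁻¹ • z) := by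
        have e1 : neu_Gn n = fun z => n • (fun z => neu_Gf (n⁻¹ • z)) z := rfl
        have e2 : DifferentiableAt ℝ (fun z : ℂ => neu_Gf (n⁻¹ • z)) z :=
          hGd.comp z ((differentiableAt_id (𝕜 := ℝ) (x := z)).const_smul n⁻¹)
        rw [e1, fderiv_fun_const_smul e2]
        have e3 := fderiv_comp_smul (𝕜 := ℝ) (f := neu_Gf) (x := z) (n⁻¹ : ℝ)
        rw [e3, smul_smul, mul_inv_cancel₀ hn0.ne', one_smul]
      have hdvGn : dv (neu_Gn n) z = -2 := by
        rw [← hdvG]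
        unfold dv
        rw [hGnf]
      have hχ1z : χ₁ z = 0 := neu_chi_zero (by norm_num) hc
      have h1χ : DifferentiableAt ℝ (fun z => 1 - χ z) z := (differentiableAt_const _).sub hχd
      have hfd1 : fderiv ℝ (fun z => 1 - χ z) z = - fderiv ℝ χ z := by
        rw [fderiv_const_sub]
      have hs1 : DifferentiableAt ℝ (fun z => χ z • ψ z) z := hχd.smul hψd
      have hs2 : DifferentiableAt ℝ (fun z => (1 - χ z) • neu_Gn n z) z := h1χ.smul hGnd
      have hs3 : DifferentiableAt ℝ (fun z => (1 - χ z) • neu_Gn n z + w z) z := hs2.add hz1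
      have e1 : dv v z = dv (fun z => χ z • ψ z) z + (dv (fun z => (1 - χ z) • neu_Gn n z) z + dv w z) := by
        simp only [hv]
        rw [neu_dv_add hs1 hs3, neu_dv_add hs2 hz1]
      rw [e1, neu_dv_smul hχd hψd, neu_dv_smul h1χ hGnd, hfd1, hdvGn, hdvw]
      simp only [hf, hV, hχ1z, Complex.sub_re, Complex.sub_im, neg_apply]
      ring
  · -- deep
    intro z hz
    have h1 : w =ᶠ[nhds z] fun _ => 0 := hw_near2 z (by linarith)
    filter_upwards [h1, (neu_isOpen_mm_gt n (20 * D)).mem_nhds (show 20 * D < mm n z by linarith)]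
      with z' hz1 hz2
    have hz2' : 20 * D < mm n z' := hz2
    have : χ z' = 1 := neu_chi_one hb10 (by linarith)
    simp only [hv]
    rw [this, hz1]
    simp


theorem neu_integral_le_bulk_ring {g F : ℂ → ℝ} {n A B I C₂ : ℝ} (hn0 : 0 < n) (hB : 0 ≤ B)
    (T : Set ℂ) (hT : T ⊆ {z : ℂ | 0 ≤ mm n z}) (hTm : MeasurableSet T)
    (hF0 : ∀ z, 0 ≤ F z) (hg0 : ∀ z, 0 ≤ g z) {M : ℝ} (hgM : ∀ z, g z ≤ M)
    (hgm : AEStronglyMeasurable g volume)
    (hFg : ∀ z ∈ T, A < mm n z → F z ≤ g z) (hFB : ∀ z, F z ≤ B)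
    (hI : ∫ z in {z : ℂ | 0 ≤ mm n z}, g z ≤ I)
    (hvol : (volume {z : ℂ | 0 ≤ mm n z ∧ mm n z ≤ A}).toReal ≤ C₂) :
    ∫ z in T, F z ≤ I + B * C₂ := by
  set T0 := {z : ℂ | 0 ≤ mm n z} with hT0
  have hT0m : MeasurableSet T0 := neu_measurableSet_mm_ge n 0
  have hfin : volume T0 ≠ ⊤ := by rw [hT0, neu_volume_ntri hn0]; exact ENNReal.ofReal_ne_top
  set R := {z : ℂ | 0 ≤ mm n z ∧ mm n z ≤ A} with hR
  have hRm : MeasurableSet R :=
    hT0m.inter (isClosed_le (neu_mm_continuous n) continuous_const).measurableSet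
  have hRT : R ⊆ T0 := fun z hz => hz.1
  have hgint : IntegrableOn g T0 volume := by
    refine Measure.integrableOn_of_bounded hfin hgm (M := M) ?_
    exact Filter.Eventually.of_forall fun z => by
      rw [Real.norm_eq_abs, abs_of_nonneg (hg0 z)]; exact hgM z
  have hRint : IntegrableOn (R.indicator fun _ => B) T0 volume := by
    have : IntegrableOn (fun _ : ℂ => B) T0 volume := integrableOn_const hfin
    exact this.indicator hRm
  have hsum : IntegrableOn (fun z => g z + R.indicator (fun _ => B) z) T0 volume := hgint.add hRint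
  have h1 : ∫ z in T, F z ≤ ∫ z in T, (g z + R.indicator (fun _ => B) z) := by
    refine integral_mono_of_nonneg (Filter.Eventually.of_forall fun z => hF0 z)
      (hsum.mono_set hT) ?_
    refine (ae_restrict_iff' hTm).2 (Filter.Eventually.of_forall fun z hz => ?_)
    by_cases hc : A < mm n z
    · have := hFg z hz hc
      have h2 : 0 ≤ R.indicator (fun _ => B) z := indicator_nonneg (fun _ _ => hB) z
      simp only
      linarith
    · push Not at hc
      have h2 : R.indicator (fun _ => B) z = B := indicator_of_mem (show z ∈ R from ⟨hT hz, hc⟩) _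
      have := hFB z
      have := hg0 z
      simp only
      rw [h2]
      linarith
  have h2 : ∫ z in T, (g z + R.indicator (fun _ => B) z) ≤
      ∫ z in T0, (g z + R.indicator (fun _ => B) z) := by
    refine setIntegral_mono_set hsum ?_ (LE.le.eventuallyLE hT)
    exact Filter.Eventually.of_forall fun z =>
      add_nonneg (hg0 z) (indicator_nonneg (fun _ _ => hB) z)
  have h3 : ∫ z in T0, (g z + R.indicator (fun _ => B) z) = (∫ z in T0, g z) + B * (volume R).toReal := by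
    rw [integral_add hgint hRint, setIntegral_indicator hRm, inter_eq_right.2 hRT,
      setIntegral_const]
    simp only [smul_eq_mul, Measure.real]
    ring
  have h4 : B * (volume R).toReal ≤ B * C₂ := mul_le_mul_of_nonneg_left hvol hB
  linarith

theorem neu_setIntegral_tri_scale {F : ℂ → ℝ} {n : ℝ} (hn0 : 0 < n) (s : Set ℂ) :
    ∫ z in s, F (n • z) = (n ^ 2)⁻¹ * ∫ z in {z : ℂ | n⁻¹ • z ∈ s}, F z := by
  rw [Measure.setIntegral_comp_smul_of_pos _ _ _ hn0, Complex.finrank_real_complex, smul_eq_mul]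
  congr 3
  ext z
  rw [Set.mem_smul_set_iff_inv_smul_mem₀ hn0.ne']
  rfl

/-- displacement part of the neutral inclusion -/
theorem neutralA {ω₁ ω₂ : ℂ} {Vd : Set ℂ} {ψ Ξ : ℂ → ℂ} {p₀ : ℂ} {r₀ e J : ℝ}
    (h : IsBase ω₁ ω₂ Vd ψ Ξ p₀ r₀ e J) :
    ∃ D₀ > 0, ∀ D : ℝ, D₀ ≤ D → ∃ C N₀ : ℝ, 0 < N₀ ∧ ∀ n : ℝ, N₀ ≤ n →
      GoodA (content ω₁ ω₂ Vd p₀ r₀ D n) (e / 8 + C / n) := by
  obtain ⟨D₀, hD₀, hmain⟩ := neutralA_main h
  obtain ⟨Kψ, hψ⟩ := neu_nice_of_smooth h.pos h.perψ h.smooth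
  have hKψ := hψ.nonneg
  refine ⟨D₀, hD₀, fun D hD => ?_⟩
  have hDpos : 0 < D := lt_of_lt_of_le hD₀ hD
  obtain ⟨K, N₁, hN₁, hv⟩ := hmain D hD
  set g : ℂ → ℝ := Vdᶜ.indicator (fun z => 4 * ‖dbar ψ z‖ ^ 2) with hg
  have hVm : MeasurableSet Vdᶜ := h.isOpen.measurableSet.compl
  have hdm : Continuous (fun z => 4 * ‖dbar ψ z‖ ^ 2) := by
    have h1 : Continuous (fderiv ℝ ψ) := h.smooth.continuous_fderiv (by norm_num)
    have h2 : Continuous (fun z => dbar ψ z) := by
      unfold dbar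
      exact ((h1.clm_apply continuous_const).add (continuous_const.mul (h1.clm_apply continuous_const))).div_const _
    exact continuous_const.mul (h2.norm.pow 2)
  have hgm : AEStronglyMeasurable g volume :=
    (hdm.measurable.indicator hVm).aestronglyMeasurable
  have hg0 : ∀ z, 0 ≤ g z := fun z => indicator_nonneg (fun _ _ => by positivity) z
  have hgM : ∀ z, g z ≤ 4 * Kψ ^ 2 := by
    intro z
    have h1 := neu_norm_dbar_le (hψ.bd' z)
    by_cases hz : z ∈ Vdᶜ
    · rw [hg, indicator_of_mem hz]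
      gcongr
    · rw [hg, indicator_of_notMem hz]
      positivity
  have hgper : PerL ω₁ ω₂ g := by
    have hd : PerL ω₁ ω₂ (dbar ψ) := by
      intro z
      unfold dbar
      rw [(h.perψ.fderiv z).1, (h.perψ.fderiv z).2]
      exact ⟨rfl, rfl⟩
    intro z
    have hV1 : (z + ω₁ ∈ Vdᶜ) ↔ (z ∈ Vdᶜ) := by
      rw [mem_compl_iff, mem_compl_iff, (h.perV z).1]
    have hV2 : (z + ω₂ ∈ Vdᶜ) ↔ (z ∈ Vdᶜ) := by
      rw [mem_compl_iff, mem_compl_iff, (h.perV z).2]
    simp only [hg]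
    constructor
    · by_cases hz : z ∈ Vdᶜ
      · rw [indicator_of_mem hz, indicator_of_mem (hV1.2 hz), (hd z).1]
      · rw [indicator_of_notMem hz, indicator_of_notMem (fun h' => hz (hV1.1 h'))]
    · by_cases hz : z ∈ Vdᶜ
      · rw [indicator_of_mem hz, indicator_of_mem (hV2.2 hz), (hd z).2]
      · rw [indicator_of_notMem hz, indicator_of_notMem (fun h' => hz (hV2.1 h'))]
  have hgI : ∫ z in par ω₁ ω₂, g z ≤ e * (conj ω₁ * ω₂).im := by
    rw [hg, setIntegral_indicator hVm]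
    exact h.enA
  obtain ⟨C₁, N₂, hN₂, hI⟩ := integral_ntri_le h.pos hgper hg0 hgM hgm hgI
  obtain ⟨C₂, hring⟩ := volume_ring (A := 25 * D) (by positivity)
  refine ⟨C₁ + 4 * K ^ 2 * C₂, max (max N₁ N₂) 1, by positivity, fun n hn => ?_⟩
  have hn1 : N₁ ≤ n := (le_max_left _ _).trans ((le_max_left _ _).trans hn)
  have hn2 : N₂ ≤ n := (le_max_right _ _).trans ((le_max_left _ _).trans hn)
  have hn3 : 1 ≤ n := (le_max_right _ _).trans hn
  have hn0 : 0 < n := by linarith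
  obtain ⟨v, hvlip, hvz, hvdiv, hvdeep⟩ := hv n hn1
  have hK0 : 0 ≤ K := by
    have := hvlip 1 0
    rw [sub_zero, norm_one, mul_one] at this
    exact (norm_nonneg _).trans this
  have hLW : LipschitzWith (Real.toNNReal K) v := LipschitzWith.of_dist_le_mul fun z z' => by
    rw [dist_eq_norm, dist_eq_norm, Real.coe_toNNReal _ hK0]; exact hvlip z z'
  have hvfd : ∀ z, ‖fderiv ℝ v z‖ ≤ K := fun z => by
    have := norm_fderiv_le_of_lipschitz ℝ hLW (x₀ := z)
    rwa [Real.coe_toNNReal _ hK0] at this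
  have hfdf : ∀ z, fderiv ℝ (fun z => n⁻¹ • v (n • z)) z = fderiv ℝ v (n • z) := by
    intro z
    have e3 := fderiv_comp_smul (𝕜 := ℝ) (f := v) (x := z) (n : ℝ)
    have e4 : fderiv ℝ ((n⁻¹ : ℝ) • (fun z => v (n • z))) z = (n⁻¹ : ℝ) • fderiv ℝ (fun z => v (n • z)) z := by
      rw [fderiv_const_smul_field]
      rfl
    have e5 : (fun z => n⁻¹ • v (n • z)) = (n⁻¹ : ℝ) • (fun z => v (n • z)) := rfl
    rw [e5, e4, e3, smul_smul, inv_mul_cancel₀ hn0.ne', one_smul]
  have hmem : ∀ z, z ∈ tri ↔ 0 ≤ mm n (n • z) := by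
    intro z
    rw [neu_mem_tri_scale hn0, smul_smul, inv_mul_cancel₀ hn0.ne', one_smul]
  refine ⟨fun z => n⁻¹ • v (n • z), ⟨Real.toNNReal K, ?_⟩, ?_, ?_, ?_⟩
  · refine LipschitzWith.of_dist_le_mul fun z z' => ?_
    rw [dist_eq_norm, dist_eq_norm, Real.coe_toNNReal _ hK0, ← smul_sub, norm_smul,
      Real.norm_eq_abs, abs_of_pos (inv_pos.2 hn0)]
    have := hvlip (n • z) (n • z')
    rw [← smul_sub, norm_smul, Real.norm_eq_abs, abs_of_pos hn0] at this
    calc n⁻¹ * ‖v (n • z) - v (n • z')‖ ≤ n⁻¹ * (K * (n * ‖z - z'‖)) :=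
          mul_le_mul_of_nonneg_left this (inv_pos.2 hn0).le
      _ = K * ‖z - z'‖ := by field_simp
  · intro z hz
    rw [hmem] at hz
    push Not at hz
    simp only
    rw [hvz _ hz, smul_zero]
  · have hqmp : ∀ᵐ z : ℂ, 0 ≤ mm n (n • z) → n • z ∉ neu_contS ω₁ ω₂ Vd p₀ r₀ D n → 2 + dv v (n • z) = 0 := by
      rw [ae_iff] at hvdiv ⊢
      have := Measure.addHaar_preimage_smul (volume : Measure ℂ) hn0.ne' {a : ℂ | ¬ (0 ≤ mm n a → a ∉ neu_contS ω₁ ω₂ Vd p₀ r₀ D n → 2 + dv v a = 0)}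
      rw [hvdiv, mul_zero] at this
      exact this
    filter_upwards [hqmp] with z hz h1 h2
    rw [hmem] at h1
    rw [neu_mem_content_iff] at h2
    have := hz h1 h2
    unfold dv at this ⊢
    rw [hfdf]
    exact this
  · have hcm : MeasurableSet (content ω₁ ω₂ Vd p₀ r₀ D n) := (neu_isOpen_content h.isOpen).measurableSet
    have e1 : ∀ z, 4 * ‖dbar (fun z => n⁻¹ • v (n • z)) z‖ ^ 2 = (fun z => 4 * ‖dbar v z‖ ^ 2) (n • z) := by
      intro z
      unfold dbar
      rw [hfdf]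
    simp only [e1]
    rw [neu_setIntegral_tri_scale (F := fun z => 4 * ‖dbar v z‖ ^ 2) hn0]
    set T : Set ℂ := {z : ℂ | n⁻¹ • z ∈ tri \ content ω₁ ω₂ Vd p₀ r₀ D n} with hT
    have hTm : MeasurableSet T := by
      have h1 : MeasurableSet (tri \ content ω₁ ω₂ Vd p₀ r₀ D n) := by
        refine MeasurableSet.diff ?_ hcm
        have : tri = {z : ℂ | 0 ≤ mm 1 z} := by
          ext z
          rw [mem_ofPred_eq, neu_mem_tri_scale one_pos, inv_one, one_smul]
        rw [this]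
        exact neu_measurableSet_mm_ge 1 0
      exact (measurable_const_smul (n⁻¹ : ℝ)) h1
    have hTsub : T ⊆ {z : ℂ | 0 ≤ mm n z} := by
      rintro z ⟨hz, -⟩
      rw [mem_ofPred_eq, neu_mem_tri_scale hn0]
      exact hz
    have hbound := neu_integral_le_bulk_ring (g := g) (F := fun z => 4 * ‖dbar v z‖ ^ 2) (A := 25 * D)
      (B := 4 * K ^ 2) hn0 (by positivity) T hTsub hTm (fun z => by positivity) hg0 hgM hgm
      (by
        intro z hz hd
        have h1 := hvdeep z hd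
        have h2 : dbar v z = dbar ψ z := by
          unfold dbar
          rw [h1.fderiv_eq]
        have h3 : z ∉ Vd := by
          intro h4
          have h5 := hz.2
          rw [neu_mem_content_iff, smul_smul, mul_inv_cancel₀ hn0.ne', one_smul] at h5
          exact h5 (Or.inl ⟨h4, by linarith⟩)
        rw [h2, hg, indicator_of_mem (show z ∈ Vdᶜ from h3)])
      (fun z => by
        have := neu_norm_dbar_le (hvfd z)
        gcongr)
      (hI n hn2) (hring n hn3)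
    calc (n ^ 2)⁻¹ * ∫ z in T, (fun z => 4 * ‖dbar v z‖ ^ 2) z
        ≤ (n ^ 2)⁻¹ * (e * (n ^ 2 / 8) + C₁ * n + 4 * K ^ 2 * (C₂ * n)) :=
          mul_le_mul_of_nonneg_left hbound (by positivity)
      _ = e / 8 + (C₁ + 4 * K ^ 2 * C₂) / n := by field_simp; ring

end EBC
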