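import Pool.Agent.Work.MP_ebc928_an.BaseDefs

/-! Auxiliary calculus for the neutral inclusion (`NeutralA`, `NeutralB`). -/

open MeasureTheory Complex Set
open scoped ContDiff ComplexConjugate ENNReal NNReal

noncomputable section
namespace EBC

/-! ### products of Lipschitz functions -/

section Lip
variable {E : Type*} [NormedAddCommGroup E] [NormedSpace ℝ E]

theorem nx_lip_smul {f : ℂ → ℝ} {g : ℂ → E} {S : Set ℂ} {a A b B : ℝ}
    (hf : ∀ z z', |f z - f z'| ≤ a * ‖z - z'‖) (hfb : ∀ z, |f z| ≤ A)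
    (hS : ∀ z, z ∉ S → f z = 0)
    (hg : ∀ z ∈ S, ∀ z' ∈ S, ‖g z - g z'‖ ≤ b * ‖z - z'‖)
    (hgb : ∀ z ∈ S, ‖g z‖ ≤ B) (ha : 0 ≤ a) (hb : 0 ≤ b) (hB : 0 ≤ B) (z z' : ℂ) :
    ‖f z • g z - f z' • g z'‖ ≤ (a * B + A * b) * ‖z - z'‖ := by
  have hA : 0 ≤ A := le_trans (abs_nonneg _) (hfb 0)
  have hn : 0 ≤ ‖z - z'‖ := norm_nonneg _
  have key : ∀ w w' : ℂ, w ∈ S → w' ∉ S → ‖f w • g w - f w' • g w'‖ ≤ (a * B + A * b) * ‖w - w'‖ := by
    intro w w' hw hw'
    have h0 : f w' = 0 := hS w' hw'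
    have hn' : 0 ≤ ‖w - w'‖ := norm_nonneg _
    rw [h0, zero_smul, sub_zero, norm_smul]
    have h1 : |f w| ≤ a * ‖w - w'‖ := by simpa [h0] using hf w w'
    calc ‖f w‖ * ‖g w‖ ≤ (a * ‖w - w'‖) * B := by
          rw [Real.norm_eq_abs]
          exact mul_le_mul h1 (hgb w hw) (norm_nonneg _) (by positivity)
      _ ≤ (a * B + A * b) * ‖w - w'‖ := by nlinarith [mul_nonneg (mul_nonneg hA hb) hn']
  by_cases hz : z ∈ S
  · by_cases hz' : z' ∈ S
    · have e : f z • g z - f z' • g z' = (f z - f z') • g z + f z' • (g z - g z') := by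
        rw [sub_smul, smul_sub]; abel
      rw [e]
      calc ‖(f z - f z') • g z + f z' • (g z - g z')‖
          ≤ ‖(f z - f z') • g z‖ + ‖f z' • (g z - g z')‖ := norm_add_le _ _
        _ ≤ (a * ‖z - z'‖) * B + A * (b * ‖z - z'‖) := by
            rw [norm_smul, norm_smul, Real.norm_eq_abs, Real.norm_eq_abs]
            exact add_le_add
              (mul_le_mul (hf z z') (hgb z hz) (norm_nonneg _) (by positivity))
              (mul_le_mul (hfb z') (hg z hz z' hz') (norm_nonneg _) hA)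
        _ = (a * B + A * b) * ‖z - z'‖ := by ring
    · exact key z z' hz hz'
  · by_cases hz' : z' ∈ S
    · rw [norm_sub_rev, norm_sub_rev z z']
      exact key z' z hz' hz
    · rw [hS z hz, hS z' hz']
      simp only [zero_smul, sub_zero, norm_zero]
      positivity

/-- bounded `C^{1,1}` functions with explicit constant -/
structure NeuNice (K : ℝ) (f : ℂ → E) : Prop where
  cd : ContDiff ℝ 1 f
  bd : ∀ z, ‖f z‖ ≤ K
  bd' : ∀ z, ‖fderiv ℝ f z‖ ≤ K
  lip' : ∀ z z', ‖fderiv ℝ f z - fderiv ℝ f z'‖ ≤ K * ‖z - z'‖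

theorem NeuNice.nonneg {K : ℝ} {f : ℂ → E} (h : NeuNice K f) : 0 ≤ K :=
  le_trans (norm_nonneg _) (h.bd 0)

theorem NeuNice.diff {K : ℝ} {f : ℂ → E} (h : NeuNice K f) : Differentiable ℝ f :=
  h.cd.differentiable (by norm_num)

theorem nx_lip_of_bd {f : ℂ → E} {K : ℝ} (hd : Differentiable ℝ f)
    (hb : ∀ z, ‖fderiv ℝ f z‖ ≤ K) (z z' : ℂ) : ‖f z - f z'‖ ≤ K * ‖z - z'‖ := by
  have := Convex.norm_image_sub_le_of_norm_fderiv_le (𝕜 := ℝ) (f := f) (C := K) (s := Set.univ)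
    (x := z') (y := z) (fun x _ => hd x) (fun x _ => hb x) convex_univ (mem_univ _) (mem_univ _)
  exact this

theorem NeuNice.lip {K : ℝ} {f : ℂ → E} (h : NeuNice K f) (z z' : ℂ) : ‖f z - f z'‖ ≤ K * ‖z - z'‖ :=
  nx_lip_of_bd h.diff h.bd' z z'

theorem NeuNice.mono {K L : ℝ} {f : ℂ → E} (h : NeuNice K f) (hKL : K ≤ L) : NeuNice L f where
  cd := h.cd
  bd z := (h.bd z).trans hKL
  bd' z := (h.bd' z).trans hKL
  lip' z z' := (h.lip' z z').trans (mul_le_mul_of_nonneg_right hKL (norm_nonneg _))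

theorem nx_fderiv_smul {f : ℂ → ℝ} {g : ℂ → E} (hf : Differentiable ℝ f)
    (hg : Differentiable ℝ g) (z v : ℂ) :
    fderiv ℝ (fun z => f z • g z) z v = f z • fderiv ℝ g z v + (fderiv ℝ f z v) • g z := by
  rw [fderiv_fun_smul (hf z) (hg z)]
  simp

theorem NeuNice.smul {K L : ℝ} {f : ℂ → ℝ} {g : ℂ → E} (hf : NeuNice K f) (hg : NeuNice L g) :
    NeuNice (4 * K * L) (fun z => f z • g z) where
  cd := hf.cd.smul hg.cd
  bd z := by
    have hK := hf.nonneg
    have hL := hg.nonneg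
    rw [norm_smul]
    have := mul_le_mul (hf.bd z) (hg.bd z) (norm_nonneg _) hK
    nlinarith [mul_nonneg hK hL]
  bd' z := by
    have hK := hf.nonneg
    have hL := hg.nonneg
    refine ContinuousLinearMap.opNorm_le_bound _ (by positivity) (fun v => ?_)
    rw [nx_fderiv_smul hf.diff hg.diff]
    calc ‖f z • fderiv ℝ g z v + (fderiv ℝ f z v) • g z‖
        ≤ ‖f z • fderiv ℝ g z v‖ + ‖(fderiv ℝ f z v) • g z‖ := norm_add_le _ _
      _ ≤ K * (L * ‖v‖) + (K * ‖v‖) * L := by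
          rw [norm_smul, norm_smul]
          exact add_le_add
            (mul_le_mul (hf.bd z) (((fderiv ℝ g z).le_opNorm v).trans
              (mul_le_mul_of_nonneg_right (hg.bd' z) (norm_nonneg _))) (norm_nonneg _) hK)
            (mul_le_mul (((fderiv ℝ f z).le_opNorm v).trans
              (mul_le_mul_of_nonneg_right (hf.bd' z) (norm_nonneg _))) (hg.bd z) (norm_nonneg _)
              (by positivity))
      _ ≤ 4 * K * L * ‖v‖ := by nlinarith [mul_nonneg (mul_nonneg hK hL) (norm_nonneg v)]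
  lip' z z' := by
    have hK := hf.nonneg
    have hL := hg.nonneg
    refine ContinuousLinearMap.opNorm_le_bound _ (by positivity) (fun v => ?_)
    have hv : 0 ≤ ‖v‖ := norm_nonneg _
    rw [sub_apply, nx_fderiv_smul hf.diff hg.diff,
      nx_fderiv_smul hf.diff hg.diff]
    have e1 := nx_lip_smul (f := f) (g := fun z => fderiv ℝ g z v) (S := univ) (a := K) (A := K)
      (b := L * ‖v‖) (B := L * ‖v‖)
      (fun z z' => by simpa [Real.norm_eq_abs] using hf.lip z z')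
      (fun z => by simpa [Real.norm_eq_abs] using hf.bd z) (fun z hz => absurd (mem_univ z) hz)
      (fun z _ z' _ => by
        have := (fderiv ℝ g z - fderiv ℝ g z').le_opNorm v
        rw [sub_apply] at this
        refine this.trans ?_
        calc _ ≤ (L * ‖z - z'‖) * ‖v‖ := mul_le_mul_of_nonneg_right (hg.lip' z z') hv
          _ = _ := by ring)
      (fun z _ => ((fderiv ℝ g z).le_opNorm v).trans (mul_le_mul_of_nonneg_right (hg.bd' z) hv))
      hK (by positivity) (by positivity) z z'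
    have e2 := nx_lip_smul (f := fun z => fderiv ℝ f z v) (g := g) (S := univ) (a := K * ‖v‖)
      (A := K * ‖v‖) (b := L) (B := L)
      (fun z z' => by
        have := (fderiv ℝ f z - fderiv ℝ f z').le_opNorm v
        rw [sub_apply, Real.norm_eq_abs] at this
        refine this.trans ?_
        calc _ ≤ (K * ‖z - z'‖) * ‖v‖ := mul_le_mul_of_nonneg_right (hf.lip' z z') hv
          _ = _ := by ring)
      (fun z => by
        rw [← Real.norm_eq_abs]
        exact ((fderiv ℝ f z).le_opNorm v).trans (mul_le_mul_of_nonneg_right (hf.bd' z) hv))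
      (fun z hz => absurd (mem_univ z) hz)
      (fun z _ z' _ => hg.lip z z') (fun z _ => hg.bd z) (by positivity) hL hL z z'
    calc ‖f z • fderiv ℝ g z v + (fderiv ℝ f z v) • g z
            - (f z' • fderiv ℝ g z' v + (fderiv ℝ f z' v) • g z')‖
        = ‖(f z • fderiv ℝ g z v - f z' • fderiv ℝ g z' v)
            + ((fderiv ℝ f z v) • g z - (fderiv ℝ f z' v) • g z')‖ := by congr 1; abel
      _ ≤ (K * (L * ‖v‖) + K * (L * ‖v‖)) * ‖z - z'‖ + (K * ‖v‖ * L + K * ‖v‖ * L) * ‖z - z'‖ :=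
          (norm_add_le _ _).trans (add_le_add e1 e2)
      _ = 4 * K * L * ‖z - z'‖ * ‖v‖ := by ring

theorem NeuNice.comp_sub {K : ℝ} {f : ℂ → E} (hf : NeuNice K f) (c : ℂ) :
    NeuNice K (fun z => f (z - c)) where
  cd := hf.cd.comp (contDiff_id.sub contDiff_const)
  bd z := hf.bd _
  bd' z := by
    rw [fderiv_comp_sub]
    exact hf.bd' _
  lip' z z' := by
    rw [fderiv_comp_sub, fderiv_comp_sub]
    simpa using hf.lip' (z - c) (z' - c)

theorem NeuNice.add {K L : ℝ} {f g : ℂ → E} (hf : NeuNice K f) (hg : NeuNice L g) :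
    NeuNice (K + L) (fun z => f z + g z) where
  cd := hf.cd.add hg.cd
  bd z := (norm_add_le _ _).trans (add_le_add (hf.bd z) (hg.bd z))
  bd' z := by
    rw [fderiv_fun_add (hf.diff z) (hg.diff z)]
    exact (norm_add_le _ _).trans (add_le_add (hf.bd' z) (hg.bd' z))
  lip' z z' := by
    rw [fderiv_fun_add (hf.diff z) (hg.diff z), fderiv_fun_add (hf.diff z') (hg.diff z')]
    calc _ = ‖(fderiv ℝ f z - fderiv ℝ f z') + (fderiv ℝ g z - fderiv ℝ g z')‖ := by
          congr 1; abel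
      _ ≤ K * ‖z - z'‖ + L * ‖z - z'‖ :=
          (norm_add_le _ _).trans (add_le_add (hf.lip' z z') (hg.lip' z z'))
      _ = _ := by ring

theorem NeuNice.neg {K : ℝ} {f : ℂ → E} (hf : NeuNice K f) : NeuNice K (fun z => - f z) where
  cd := hf.cd.neg
  bd z := by rw [norm_neg]; exact hf.bd z
  bd' z := by
    rw [fderiv_fun_neg, norm_neg]
    exact hf.bd' z
  lip' z z' := by
    rw [fderiv_fun_neg, fderiv_fun_neg]
    calc _ = ‖fderiv ℝ f z - fderiv ℝ f z'‖ := by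
          rw [← norm_neg]; congr 1; abel
      _ ≤ _ := hf.lip' z z'

theorem neu_nice_const (c : E) : NeuNice ‖c‖ (fun _ : ℂ => c) where
  cd := contDiff_const
  bd _ := le_rfl
  bd' z := by simp
  lip' z z' := by
    simp only [fderiv_fun_const, Pi.zero_apply, sub_self, norm_zero]
    positivity

end Lip

/-! ### steps -/

/-- the smooth step `0` for `t ≤ a`, `1` for `t ≥ a + b` -/
def neu_stpab (a b t : ℝ) : ℝ := Real.smoothTransition ((t - a) / b)

theorem neu_stpab_zero {a b t : ℝ} (hb : 0 < b) (h : t ≤ a) : neu_stpab a b t = 0 :=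
  Real.smoothTransition.zero_of_nonpos (div_nonpos_of_nonpos_of_nonneg (by linarith) hb.le)

theorem neu_stpab_one {a b t : ℝ} (hb : 0 < b) (h : a + b ≤ t) : neu_stpab a b t = 1 :=
  Real.smoothTransition.one_of_one_le (by rw [le_div_iff₀ hb]; linarith)

theorem neu_stpab_nonneg (a b t : ℝ) : 0 ≤ neu_stpab a b t := Real.smoothTransition.nonneg _
theorem neu_stpab_le_one (a b t : ℝ) : neu_stpab a b t ≤ 1 := Real.smoothTransition.le_one _

theorem neu_stpab_contDiff (a b : ℝ) : ContDiff ℝ ∞ (neu_stpab a b) := by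
  have : ContDiff ℝ ∞ Real.smoothTransition := Real.smoothTransition.contDiff
  exact this.comp ((contDiff_id.sub contDiff_const).div_const b)

theorem neu_stpab_bounds {a b : ℝ} (hb : 0 < b) : ∃ K : ℝ, 1 ≤ K ∧ (∀ t, |deriv (neu_stpab a b) t| ≤ K) ∧
    ∀ t t', |deriv (neu_stpab a b) t - deriv (neu_stpab a b) t'| ≤ K * |t - t'| := by
  have hcd := neu_stpab_contDiff a b
  have h0 : ∀ t, t ∉ Icc a (a + b) → deriv (neu_stpab a b) t = 0 := by
    intro t ht
    rw [mem_Icc, not_and_or, not_le, not_le] at ht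
    rcases ht with ht | ht
    · have : neu_stpab a b =ᶠ[nhds t] fun _ => 0 := by
        filter_upwards [Iio_mem_nhds ht] with s hs
        exact neu_stpab_zero hb (le_of_lt hs)
      rw [this.deriv_eq]; simp
    · have : neu_stpab a b =ᶠ[nhds t] fun _ => 1 := by
        filter_upwards [Ioi_mem_nhds ht] with s hs
        exact neu_stpab_one hb (le_of_lt hs)
      rw [this.deriv_eq]; simp
  have hd : ContDiff ℝ ∞ (deriv (neu_stpab a b)) := by
    have := (contDiff_infty_iff_deriv.1 hcd).2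
    exact this
  have hcs : HasCompactSupport (deriv (neu_stpab a b)) := HasCompactSupport.intro isCompact_Icc h0
  obtain ⟨C1, hC1⟩ := hd.continuous.bounded_above_of_compact_support hcs
  have hd2 : ContDiff ℝ ∞ (deriv (deriv (neu_stpab a b))) := (contDiff_infty_iff_deriv.1 hd).2
  obtain ⟨C2, hC2⟩ := hd2.continuous.bounded_above_of_compact_support hcs.deriv
  refine ⟨max 1 (max C1 C2), le_max_left _ _, fun t => ?_, fun t t' => ?_⟩
  · exact (hC1 t).trans ((le_max_left _ _).trans (le_max_right _ _))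
  · have := Convex.norm_image_sub_le_of_norm_deriv_le (f := deriv (neu_stpab a b)) (C := C2) (s := univ)
      (x := t') (y := t) (fun x _ => (hd.differentiable (by norm_num)) x) (fun x _ => hC2 x) convex_univ
      (mem_univ _) (mem_univ _)
    rw [Real.norm_eq_abs, Real.norm_eq_abs] at this
    exact this.trans (mul_le_mul_of_nonneg_right ((le_max_right _ _).trans (le_max_right _ _))
      (abs_nonneg _))

theorem neu_nice_stpab_comp {a b : ℝ} (hb : 0 < b) (ℓ : ℂ →L[ℝ] ℝ) (hℓ : ‖ℓ‖ ≤ 2) :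
    ∃ K : ℝ, NeuNice K (fun z => neu_stpab a b (ℓ z)) := by
  obtain ⟨K, hK1, hK2, hK3⟩ := neu_stpab_bounds (a := a) hb
  have hcd := neu_stpab_contDiff a b
  have hfd : ∀ z, fderiv ℝ (fun z => neu_stpab a b (ℓ z)) z = (deriv (neu_stpab a b) (ℓ z)) • ℓ := by
    intro z
    have h1 : HasDerivAt (neu_stpab a b) (deriv (neu_stpab a b) (ℓ z)) (ℓ z) :=
      ((hcd.differentiable (by norm_num)) (ℓ z)).hasDerivAt
    exact (h1.comp_hasFDerivAt z ℓ.hasFDerivAt).fderiv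
  refine ⟨4 * K, ?_, ?_, ?_, ?_⟩
  · exact (hcd.of_le (by exact_mod_cast le_top)).comp ℓ.contDiff
  · intro z
    rw [Real.norm_eq_abs, abs_of_nonneg (neu_stpab_nonneg _ _ _)]
    exact (neu_stpab_le_one _ _ _).trans (by linarith)
  · intro z
    rw [hfd, norm_smul, Real.norm_eq_abs]
    have := mul_le_mul (hK2 (ℓ z)) hℓ (norm_nonneg _) (by linarith)
    linarith
  · intro z z'
    rw [hfd, hfd, ← sub_smul, norm_smul, Real.norm_eq_abs]
    have h1 : |ℓ z - ℓ z'| ≤ 2 * ‖z - z'‖ := by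
      rw [← map_sub, ← Real.norm_eq_abs]
      exact (ℓ.le_opNorm _).trans (mul_le_mul_of_nonneg_right hℓ (norm_nonneg _))
    have hn : 0 ≤ ‖z - z'‖ := norm_nonneg _
    calc |deriv (neu_stpab a b) (ℓ z) - deriv (neu_stpab a b) (ℓ z')| * ‖ℓ‖
        ≤ (K * |ℓ z - ℓ z'|) * 2 := mul_le_mul (hK3 _ _) hℓ (norm_nonneg _) (by positivity)
      _ ≤ (K * (2 * ‖z - z'‖)) * 2 := by gcongr
      _ = 4 * K * ‖z - z'‖ := by ring

/-! ### the distance function `mm` -/

theorem neu_mm_le_im (n : ℝ) (z : ℂ) : mm n z ≤ z.im := (min_le_left _ _).trans (min_le_left _ _)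
theorem neu_mm_le_re (n : ℝ) (z : ℂ) : mm n z ≤ n / 2 - z.re :=
  (min_le_left _ _).trans (min_le_right _ _)
theorem neu_mm_le_sub (n : ℝ) (z : ℂ) : mm n z ≤ z.re - z.im := min_le_right _ _

theorem neu_le_mm_iff {a n : ℝ} {z : ℂ} : a ≤ mm n z ↔ a ≤ z.im ∧ a ≤ n / 2 - z.re ∧ a ≤ z.re - z.im := by
  unfold mm
  rw [le_min_iff, le_min_iff]
  tauto

theorem neu_mm_lip1 (n : ℝ) (z z' : ℂ) : mm n z ≤ mm n z' + 2 * ‖z - z'‖ := by
  have h1 := Complex.abs_re_le_norm (z - z')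
  have h2 := Complex.abs_im_le_norm (z - z')
  rw [Complex.sub_re] at h1
  rw [Complex.sub_im] at h2
  have h1a := abs_le.1 h1
  have h2a := abs_le.1 h2
  have h0 : 0 ≤ ‖z - z'‖ := norm_nonneg _
  have e1 := neu_mm_le_im n z
  have e2 := neu_mm_le_re n z
  have e3 := neu_mm_le_sub n z
  rw [← sub_le_iff_le_add]
  rw [neu_le_mm_iff]
  refine ⟨?_, ?_, ?_⟩ <;> linarith [h1a.1, h1a.2, h2a.1, h2a.2]

theorem neu_mm_lip (n : ℝ) (z z' : ℂ) : |mm n z - mm n z'| ≤ 2 * ‖z - z'‖ := by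
  rw [abs_le]
  have h1 := neu_mm_lip1 n z z'
  have h2 := neu_mm_lip1 n z' z
  rw [norm_sub_rev] at h2
  constructor <;> linarith

theorem neu_mm_continuous (n : ℝ) : Continuous (mm n) := by
  unfold mm
  fun_prop

theorem neu_isOpen_mm_gt (n a : ℝ) : IsOpen {z : ℂ | a < mm n z} :=
  isOpen_lt continuous_const (neu_mm_continuous n)
theorem neu_isOpen_mm_lt (n a : ℝ) : IsOpen {z : ℂ | mm n z < a} :=
  isOpen_lt (neu_mm_continuous n) continuous_const

/-! ### the cut-off `neu_chi` -/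

def neu_chi (a b n : ℝ) (z : ℂ) : ℝ :=
  neu_stpab a b z.im * (neu_stpab a b (n / 2 - z.re) * neu_stpab a b (z.re - z.im))

theorem neu_chi_zero {a b n : ℝ} {z : ℂ} (hb : 0 < b) (h : mm n z ≤ a) : neu_chi a b n z = 0 := by
  unfold neu_chi
  unfold mm at h
  rcases min_le_iff.1 h with h | h
  · rcases min_le_iff.1 h with h | h
    · rw [neu_stpab_zero hb h, zero_mul]
    · rw [neu_stpab_zero hb h, zero_mul, mul_zero]
  · rw [neu_stpab_zero hb h, mul_zero, mul_zero]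

theorem neu_chi_one {a b n : ℝ} {z : ℂ} (hb : 0 < b) (h : a + b ≤ mm n z) : neu_chi a b n z = 1 := by
  rw [neu_le_mm_iff] at h
  unfold neu_chi
  rw [neu_stpab_one hb h.1, neu_stpab_one hb h.2.1, neu_stpab_one hb h.2.2]
  norm_num

theorem neu_chi_nonneg (a b n : ℝ) (z : ℂ) : 0 ≤ neu_chi a b n z :=
  mul_nonneg (neu_stpab_nonneg _ _ _) (mul_nonneg (neu_stpab_nonneg _ _ _) (neu_stpab_nonneg _ _ _))

theorem neu_chi_le_one (a b n : ℝ) (z : ℂ) : neu_chi a b n z ≤ 1 := by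
  unfold neu_chi
  exact mul_le_one₀ (neu_stpab_le_one _ _ _) (mul_nonneg (neu_stpab_nonneg _ _ _) (neu_stpab_nonneg _ _ _))
    (mul_le_one₀ (neu_stpab_le_one _ _ _) (neu_stpab_nonneg _ _ _) (neu_stpab_le_one _ _ _))

theorem neu_chi_contDiff (a b n : ℝ) : ContDiff ℝ ∞ (neu_chi a b n) := by
  have h := neu_stpab_contDiff a b
  have hre : ContDiff ℝ ∞ (fun z : ℂ => z.re) := Complex.reCLM.contDiff
  have him : ContDiff ℝ ∞ (fun z : ℂ => z.im) := Complex.imCLM.contDiff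
  exact (h.comp him).mul ((h.comp (contDiff_const.sub hre)).mul (h.comp (hre.sub him)))

theorem neu_chi_nice {a b : ℝ} (hb : 0 < b) : ∃ K : ℝ, ∀ n : ℝ, NeuNice K (neu_chi a b n) := by
  obtain ⟨K1, h1⟩ := neu_nice_stpab_comp (a := a) hb Complex.imCLM (by rw [Complex.imCLM_norm]; norm_num)
  obtain ⟨K2, h2⟩ := neu_nice_stpab_comp (a := a) hb (-Complex.reCLM)
    (by rw [norm_neg, Complex.reCLM_norm]; norm_num)
  obtain ⟨K3, h3⟩ := neu_nice_stpab_comp (a := a) hb (Complex.reCLM - Complex.imCLM)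
    (by
      refine (norm_sub_le _ _).trans ?_
      rw [Complex.reCLM_norm, Complex.imCLM_norm]; norm_num)
  refine ⟨4 * K1 * (4 * K2 * K3), fun n => ?_⟩
  have h2' := h2.comp_sub ((n / 2 : ℝ) : ℂ)
  have := h1.smul (h2'.smul h3)
  have e : neu_chi a b n = fun z => neu_stpab a b (Complex.imCLM z) •
      (neu_stpab a b ((-Complex.reCLM) (z - ((n / 2 : ℝ) : ℂ))) •
        neu_stpab a b ((Complex.reCLM - Complex.imCLM) z)) := by
    funext z
    have e2 : (-Complex.reCLM) (z - ((n / 2 : ℝ) : ℂ)) = n / 2 - z.re := by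
      simp
    have e3 : (Complex.reCLM - Complex.imCLM) z = z.re - z.im := by simp
    rw [e2, e3]
    simp [neu_chi]
  rw [e]
  exact this

theorem neu_fderiv_chi_zero {a b n : ℝ} {z : ℂ} (hb : 0 < b) (h : mm n z < a ∨ a + b < mm n z) :
    fderiv ℝ (neu_chi a b n) z = 0 := by
  rcases h with h | h
  · have : neu_chi a b n =ᶠ[nhds z] fun _ => 0 := by
      filter_upwards [(neu_isOpen_mm_lt n a).mem_nhds h] with w hw
      exact neu_chi_zero hb (le_of_lt hw)
    rw [this.fderiv_eq]; simp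
  · have : neu_chi a b n =ᶠ[nhds z] fun _ => 1 := by
      filter_upwards [(neu_isOpen_mm_gt n (a + b)).mem_nhds h] with w hw
      exact neu_chi_one hb (le_of_lt hw)
    rw [this.fderiv_eq]; simp

/-! ### lattice coordinates -/

section Lattice
variable {ω₁ ω₂ : ℂ}

def neu_cs (ω₁ ω₂ z : ℂ) : ℝ := (conj z * ω₂).im / (conj ω₁ * ω₂).im
def neu_ct (ω₁ ω₂ z : ℂ) : ℝ := (conj ω₁ * z).im / (conj ω₁ * ω₂).im

theorem neu_cs_ct (hpos : 0 < (conj ω₁ * ω₂).im) (z : ℂ) :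
    z = neu_cs ω₁ ω₂ z • ω₁ + neu_ct ω₁ ω₂ z • ω₂ := by
  have hne : (conj ω₁ * ω₂).im ≠ 0 := ne_of_gt hpos
  unfold neu_cs neu_ct
  apply Complex.ext
  · simp only [Complex.add_re, Complex.real_smul, Complex.re_ofReal_mul]
    rw [div_mul_eq_mul_div, div_mul_eq_mul_div, ← add_div, eq_div_iff hne]
    simp only [Complex.mul_im, Complex.conj_re, Complex.conj_im]
    ring
  · simp only [Complex.add_im, Complex.real_smul, Complex.im_ofReal_mul]
    rw [div_mul_eq_mul_div, div_mul_eq_mul_div, ← add_div, eq_div_iff hne]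
    simp only [Complex.mul_im, Complex.conj_re, Complex.conj_im]
    ring

theorem neu_cs_comb (hpos : 0 < (conj ω₁ * ω₂).im) (s t : ℝ) :
    neu_cs ω₁ ω₂ (s • ω₁ + t • ω₂) = s ∧ neu_ct ω₁ ω₂ (s • ω₁ + t • ω₂) = t := by
  have hne : (conj ω₁ * ω₂).im ≠ 0 := ne_of_gt hpos
  unfold neu_cs neu_ct
  constructor
  · rw [div_eq_iff hne]
    simp [Complex.mul_im]
    ring
  · rw [div_eq_iff hne]
    simp [Complex.mul_im]
    ring

theorem neu_cs_add (z w : ℂ) : neu_cs ω₁ ω₂ (z + w) = neu_cs ω₁ ω₂ z + neu_cs ω₁ ω₂ w := by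
  unfold neu_cs; rw [map_add, add_mul, Complex.add_im, add_div]
theorem neu_ct_add (z w : ℂ) : neu_ct ω₁ ω₂ (z + w) = neu_ct ω₁ ω₂ z + neu_ct ω₁ ω₂ w := by
  unfold neu_ct; rw [mul_add, Complex.add_im, add_div]

theorem neu_zsmul_comb (k l : ℤ) : (k • ω₁ + l • ω₂ : ℂ) = ((k : ℝ) • ω₁ + (l : ℝ) • ω₂) := by
  simp

theorem neu_mem_par_iff (hpos : 0 < (conj ω₁ * ω₂).im) (z : ℂ) :
    z ∈ par ω₁ ω₂ ↔ neu_cs ω₁ ω₂ z ∈ Ico (0 : ℝ) 1 ∧ neu_ct ω₁ ω₂ z ∈ Ico (0 : ℝ) 1 := by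
  constructor
  · rintro ⟨s, t, hs, ht, rfl⟩
    rw [(neu_cs_comb hpos s t).1, (neu_cs_comb hpos s t).2]
    exact ⟨hs, ht⟩
  · rintro ⟨hs, ht⟩
    exact ⟨_, _, hs, ht, neu_cs_ct hpos z⟩

theorem neu_cs_continuous : Continuous (neu_cs ω₁ ω₂) := by
  unfold neu_cs
  have : Continuous fun z : ℂ => (conj z * ω₂).im := by
    apply Complex.continuous_im.comp
    exact (Complex.continuous_conj).mul continuous_const
  exact this.div_const _
theorem neu_ct_continuous : Continuous (neu_ct ω₁ ω₂) := by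
  unfold neu_ct
  have : Continuous fun z : ℂ => (conj ω₁ * z).im := by
    apply Complex.continuous_im.comp
    exact continuous_const.mul continuous_id
  exact this.div_const _

theorem neu_norm_par_le {z : ℂ} (hz : z ∈ par ω₁ ω₂) : ‖z‖ ≤ ‖ω₁‖ + ‖ω₂‖ := by
  obtain ⟨s, t, hs, ht, rfl⟩ := hz
  refine (norm_add_le _ _).trans ?_
  rw [norm_smul, norm_smul, Real.norm_eq_abs, Real.norm_eq_abs, abs_of_nonneg hs.1, abs_of_nonneg ht.1]
  exact add_le_add (mul_le_of_le_one_left (norm_nonneg _) hs.2.le)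
    (mul_le_of_le_one_left (norm_nonneg _) ht.2.le)

/-- the lattice translate `kω₁ + lω₂ + par` -/
def neu_cel (ω₁ ω₂ : ℂ) (q : ℤ × ℤ) : Set ℂ :=
  {z | neu_cs ω₁ ω₂ z ∈ Ico (q.1 : ℝ) (q.1 + 1) ∧ neu_ct ω₁ ω₂ z ∈ Ico (q.2 : ℝ) (q.2 + 1)}

theorem neu_measurableSet_cel (q : ℤ × ℤ) : MeasurableSet (neu_cel ω₁ ω₂ q) :=
  (neu_cs_continuous.measurable measurableSet_Ico).inter (neu_ct_continuous.measurable measurableSet_Ico)

theorem neu_mem_cel_iff (hpos : 0 < (conj ω₁ * ω₂).im) (q : ℤ × ℤ) (z : ℂ) :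
    z + (q.1 • ω₁ + q.2 • ω₂) ∈ neu_cel ω₁ ω₂ q ↔ z ∈ par ω₁ ω₂ := by
  rw [neu_mem_par_iff hpos]
  unfold neu_cel
  rw [mem_ofPred_eq, neu_cs_add, neu_ct_add, neu_zsmul_comb, (neu_cs_comb hpos _ _).1, (neu_cs_comb hpos _ _).2]
  simp only [mem_Ico]
  constructor
  · rintro ⟨⟨h1, h2⟩, h3, h4⟩
    refine ⟨⟨?_, ?_⟩, ?_, ?_⟩ <;> linarith
  · rintro ⟨⟨h1, h2⟩, h3, h4⟩
    refine ⟨⟨?_, ?_⟩, ?_, ?_⟩ <;> linarith

theorem neu_cel_disjoint : Pairwise (Function.onFun Disjoint (neu_cel ω₁ ω₂)) := by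
  intro q q' hne
  rw [Function.onFun, Set.disjoint_left]
  intro z hz hz'
  apply hne
  have h1 : q.1 = q'.1 := by
    have a1 := Int.floor_eq_iff.2 hz.1
    have a2 := Int.floor_eq_iff.2 hz'.1
    rw [← a1, ← a2]
  have h2 : q.2 = q'.2 := by
    have a1 := Int.floor_eq_iff.2 hz.2
    have a2 := Int.floor_eq_iff.2 hz'.2
    rw [← a1, ← a2]
  exact Prod.ext h1 h2

theorem neu_exists_cel (z : ℂ) : ∃ q : ℤ × ℤ, z ∈ neu_cel ω₁ ω₂ q :=
  ⟨(⌊neu_cs ω₁ ω₂ z⌋, ⌊neu_ct ω₁ ω₂ z⌋), ⟨Int.floor_le _, Int.lt_floor_add_one _⟩,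
    ⟨Int.floor_le _, Int.lt_floor_add_one _⟩⟩

theorem neu_exists_lattice (hpos : 0 < (conj ω₁ * ω₂).im) (z : ℂ) :
    ∃ q : ℤ × ℤ, z - (q.1 • ω₁ + q.2 • ω₂) ∈ par ω₁ ω₂ := by
  obtain ⟨q, hq⟩ := neu_exists_cel (ω₁ := ω₁) (ω₂ := ω₂) z
  refine ⟨q, ?_⟩
  rw [← neu_mem_cel_iff hpos q]
  simpa using hq

theorem PerL.int {α : Type*} {f : ℂ → α} (hf : PerL ω₁ ω₂ f) (k l : ℤ) (z : ℂ) :
    f (z + (k • ω₁ + l • ω₂)) = f z := by
  have h1 : ∀ (k : ℤ) (z : ℂ), f (z + k • ω₁) = f z := by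
    intro k
    have hp : Function.Periodic f ω₁ := fun z => (hf z).1
    intro z
    exact hp.zsmul k z
  have h2 : ∀ (k : ℤ) (z : ℂ), f (z + k • ω₂) = f z := by
    intro k
    have hp : Function.Periodic f ω₂ := fun z => (hf z).2
    intro z
    exact hp.zsmul k z
  rw [← add_assoc, h2, h1]

theorem PerL.bounded {E : Type*} [NormedAddCommGroup E] (hpos : 0 < (conj ω₁ * ω₂).im)
    {f : ℂ → E} (hf : PerL ω₁ ω₂ f) (hc : Continuous f) : ∃ M : ℝ, 0 ≤ M ∧ ∀ z, ‖f z‖ ≤ M := by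
  have hcomp : IsCompact (Metric.closedBall (0 : ℂ) (‖ω₁‖ + ‖ω₂‖)) := isCompact_closedBall _ _
  obtain ⟨M, hM⟩ := (hcomp.image hc).isBounded.exists_norm_le
  refine ⟨max M 0, le_max_right _ _, fun z => ?_⟩
  obtain ⟨q, hq⟩ := neu_exists_lattice hpos z
  have e : f z = f (z - (q.1 • ω₁ + q.2 • ω₂)) := by
    rw [← hf.int q.1 q.2 (z - (q.1 • ω₁ + q.2 • ω₂))]
    congr 1; ring
  rw [e]
  refine le_trans (hM _ ?_) (le_max_left _ _)
  refine ⟨_, ?_, rfl⟩
  rw [Metric.mem_closedBall, dist_zero_right]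
  exact neu_norm_par_le hq

theorem PerL.fderiv {E : Type*} [NormedAddCommGroup E] [NormedSpace ℝ E] {f : ℂ → E}
    (hf : PerL ω₁ ω₂ f) : PerL ω₁ ω₂ (fderiv ℝ f) := by
  intro z
  constructor
  · rw [← fderiv_comp_add_right]
    congr 1
    funext w
    exact (hf w).1
  · rw [← fderiv_comp_add_right]
    congr 1
    funext w
    exact (hf w).2

theorem neu_nice_of_per {E : Type*} [NormedAddCommGroup E] [NormedSpace ℝ E] {f : ℂ → E}
    (hpos : 0 < (conj ω₁ * ω₂).im) (hf : PerL ω₁ ω₂ f) (h : C11 f) : ∃ K : ℝ, NeuNice K f := by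
  obtain ⟨h1, K, hK⟩ := h
  obtain ⟨M1, hM1, hb1⟩ := hf.bounded hpos h1.continuous
  obtain ⟨M2, hM2, hb2⟩ := hf.fderiv.bounded hpos (h1.continuous_fderiv (by norm_num))
  refine ⟨max K (max M1 M2), h1, fun z => ?_, fun z => ?_, fun z z' => ?_⟩
  · exact (hb1 z).trans ((le_max_left _ _).trans (le_max_right _ _))
  · exact (hb2 z).trans ((le_max_right _ _).trans (le_max_right _ _))
  · have := hK.dist_le_mul z z'
    rw [dist_eq_norm, dist_eq_norm] at this
    exact this.trans (mul_le_mul_of_nonneg_right (le_max_left _ _) (norm_nonneg _))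

theorem neu_nice_of_smooth {E : Type*} [NormedAddCommGroup E] [NormedSpace ℝ E] {f : ℂ → E}
    (hpos : 0 < (conj ω₁ * ω₂).im) (hf : PerL ω₁ ω₂ f) (h : ContDiff ℝ ∞ f) : ∃ K : ℝ, NeuNice K f := by
  have h1 : ContDiff ℝ 1 f := h.of_le (by exact_mod_cast le_top)
  have h2 : ContDiff ℝ ∞ (_root_.fderiv ℝ f) := h.fderiv_right (by norm_num)
  obtain ⟨M1, hM1, hb1⟩ := hf.bounded hpos h1.continuous
  obtain ⟨M2, hM2, hb2⟩ := hf.fderiv.bounded hpos h2.continuous
  have h3 : ContDiff ℝ ∞ (_root_.fderiv ℝ (_root_.fderiv ℝ f)) := h2.fderiv_right (by norm_num)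
  obtain ⟨M3, hM3, hb3⟩ := hf.fderiv.fderiv.bounded hpos h3.continuous
  refine ⟨max M3 (max M1 M2), h1, fun z => ?_, fun z => ?_, fun z z' => ?_⟩
  · exact (hb1 z).trans ((le_max_left _ _).trans (le_max_right _ _))
  · exact (hb2 z).trans ((le_max_right _ _).trans (le_max_right _ _))
  · have := nx_lip_of_bd (h2.differentiable (by norm_num)) hb3 z z'
    exact this.trans (mul_le_mul_of_nonneg_right (le_max_left _ _) (norm_nonneg _))

end Lattice

end EBC
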