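import Pool.Agent.Work.MP_ebc928_an.RouteDefs

open MeasureTheory Complex Set
open scoped ContDiff ComplexConjugate

noncomputable section
namespace EBC

theorem hom_continuous_aux {C : Set ℂ} : hom 1 '' C = C := by
  have : hom 1 = id := by
    funext z; simp [hom]
  rw [this, image_id]

theorem hom_image_zero {C : Set ℂ} (hC : C.Nonempty) : hom 0 '' C = {cen} := by
  ext z
  simp only [hom, zero_smul, add_zero, mem_image, mem_singleton_iff]
  constructor
  · rintro ⟨_, _, h⟩; exact h.symm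
  · rintro rfl; obtain ⟨c, hc⟩ := hC; exact ⟨c, hc, rfl⟩

theorem cen_mem : cen ∈ tri := by
  simp only [cen, tri, mem_setOf_eq]; norm_num

theorem hom_image_measurable {C : Set ℂ} (hC : MeasurableSet C) (hne : C.Nonempty) {s : ℝ}
    (hs : 0 ≤ s) : MeasurableSet (hom s '' C) := by
  rcases eq_or_lt_of_le hs with h | h
  · rw [← h, hom_image_zero hne]; exact measurableSet_singleton _
  · exact (simR_hom h).measurableSet_image hC

theorem hom_image_tri_sub {C : Set ℂ} (hC : C ⊆ tri) {s : ℝ} (h0 : 0 ≤ s) (h1 : s ≤ 1) :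
    hom s '' C ⊆ tri := (image_mono hC).trans (hom_image_subset h0 h1)

theorem hom_comp_image (s s' : ℝ) (C : Set ℂ) : hom s '' (hom s' '' C) = hom (s * s') '' C := by
  rw [← image_comp]
  congr 1
  funext z
  exact hom_hom s s' z

/-- scaling a single cluster -/
theorem route_hom {C : Set ℂ} (hC : MeasurableSet C) (hCt : C ⊆ tri) {ρ₀ : ℝ} (h0 : 0 < ρ₀)
    (h1 : ρ₀ < 1)
    (hCsub : C ⊆ hom ρ₀ '' tri) {z₀ : ℂ} {r : ℝ} (hr : 0 < r) (hball : Metric.ball z₀ r ⊆ C)
    {G J : ℝ} (hA : ∀ s ∈ Icc (1 / 10 : ℝ) 1, GoodA (hom s '' C) G) (hJ : 1 ≤ J)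
    (hB : GoodB C J) : Route G J (hom (1 / 10) '' C) C := by
  have hne : C.Nonempty := ⟨z₀, hball (Metric.mem_ball_self hr)⟩
  let f : ℝ → ℝ := fun t => 1 / 10 + 9 / 10 * (max 0 (min t 1))
  have hf : ∀ t, f t ∈ Icc (1 / 10 : ℝ) 1 := by
    intro t
    simp only [f]
    constructor
    · have : 0 ≤ max 0 (min t 1) := le_max_left _ _
      linarith
    · have : max 0 (min t 1) ≤ 1 := max_le zero_le_one (min_le_right _ _)
      linarith
  have hfp : ∀ t, 0 < f t := fun t => by linarith [(hf t).1]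
  refine ⟨fun t => hom (f t) '' C, fun t => hom_image_measurable hC hne (hfp t).le,
    fun t => hom_image_tri_sub hCt (hfp t).le (hf t).2, fun t _ => ⟨hA _ (hf t),
      goodB_hom hJ hCt hC hB (hfp t).le (hf t).2⟩, ?_, ?_, ?_⟩
  · simp [f]
  · have : f 1 = 1 := by simp only [f]; norm_num
    dsimp only
    rw [this, hom_continuous_aux]
    simp
  · intro τ hτ hτt R hR hRt β
    have := cont_pos hC h0 h1 hCsub hr hball hτ hτt hR hRt β
    refine this.comp (f := f) ?_ (fun t _ => ⟨hfp t, (hf t).2⟩)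
    fun_prop

/-- growing a cluster from a point in an environment `E` -/
theorem route_grow {C : Set ℂ} (hC : MeasurableSet C) (hCt : C ⊆ tri) {ρ₀ : ℝ} (h0 : 0 < ρ₀)
    (h1 : ρ₀ < 1)
    (hCsub : C ⊆ hom ρ₀ '' tri) {z₀ : ℂ} {r : ℝ} (hr : 0 < r) (hball : Metric.ball z₀ r ⊆ C)
    {G J : ℝ} {σ : ℂ → ℂ} (hσ : IsSim σ) (hσt : σ '' tri ⊆ tri) {E : Set ℂ}
    (hE : MeasurableSet E) (hEt : E ⊆ tri \ σ '' triO) {z₁ : ℂ} {r₁ : ℝ} (hr₁ : 0 < r₁)
    (hball₁ : Metric.ball z₁ r₁ ⊆ E) (hA : GoodA E G)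
    (hB : ∀ s ∈ Icc (0 : ℝ) 1, GoodB (E ∪ σ '' (hom s '' C)) J) :
    Route G J E (E ∪ σ '' C) := by
  have hne : C.Nonempty := ⟨z₀, hball (Metric.mem_ball_self hr)⟩
  obtain ⟨ρ, hρ, hs⟩ := hσ.exists_simR
  let f : ℝ → ℝ := fun t => max 0 (min t 1)
  have hf : ∀ t, f t ∈ Icc (0 : ℝ) 1 := fun t =>
    ⟨le_max_left _ _, max_le zero_le_one (min_le_right _ _)⟩
  have hm : ∀ t, MeasurableSet (E ∪ σ '' (hom (f t) '' C)) := fun t =>
    hE.union (hs.measurableSet_image (hom_image_measurable hC hne (hf t).1))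
  refine ⟨fun t => E ∪ σ '' (hom (f t) '' C), hm, ?_, ?_, ?_, ?_, ?_⟩
  · intro t
    exact union_subset (fun z hz => (hEt hz).1)
      ((image_mono (hom_image_tri_sub hCt (hf t).1 (hf t).2)).trans hσt)
  · intro t _
    exact ⟨hA.mono subset_union_left hE (hm t) le_rfl, hB _ (hf t)⟩
  · have : f 0 = 0 := by simp [f]
    dsimp only
    rw [this, hom_image_zero hne, image_singleton]
    have hn : ∀ᵐ z : ℂ, z ≠ σ cen := by
      have : volume ({σ cen} : Set ℂ) = 0 := measure_singleton _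
      filter_upwards [measure_eq_zero_iff_ae_notMem.mp this] with z hz
      simpa using hz
    filter_upwards [hn] with z hz
    simp [hz]
  · have : f 1 = 1 := by simp [f]
    dsimp only
    rw [this, hom_continuous_aux]
    simp
  · intro τ hτ hτt R hR hRt β
    obtain ⟨ρ', hρ', hs'⟩ := hτ.exists_simR
    have hsub : ∀ t, R ∪ τ '' (E ∪ σ '' (hom (f t) '' C)) =
        (R ∪ τ '' E) ∪ (τ ∘ σ) '' (hom (f t) '' C) := by
      intro t
      rw [image_union, image_comp τ σ, union_assoc]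
    simp only [hsub]
    -- a ball inside `τ '' E`
    have hb : ∃ z₂ : ℂ, ∃ r₂ > 0, Metric.ball z₂ r₂ ⊆ τ '' E := by
      obtain ⟨a, b, ha, h | h⟩ := hτ
      · refine ⟨τ z₁, r₁ * ‖a‖, by positivity, fun w hw => ?_⟩
        refine ⟨(w - b) / a, hball₁ ?_, ?_⟩
        · rw [Metric.mem_ball, dist_eq_norm] at hw ⊢
          rw [h] at hw
          have : (w - b) / a - z₁ = (w - (a * z₁ + b)) / a := by field_simp; ring
          rw [this, norm_div, div_lt_iff₀ (norm_pos_iff.mpr ha)]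
          exact hw
        · rw [h]; field_simp; ring
      · refine ⟨τ z₁, r₁ * ‖a‖, by positivity, fun w hw => ?_⟩
        refine ⟨conj ((w - b) / a), hball₁ ?_, ?_⟩
        · rw [Metric.mem_ball, dist_eq_norm] at hw ⊢
          rw [h] at hw
          have : conj ((w - b) / a) - z₁ = conj ((w - (a * conj z₁ + b)) / a) := by
            have : z₁ = conj (conj z₁) := (Complex.conj_conj _).symm
            conv_lhs => rw [this]
            rw [← map_sub]
            congr 1
            field_simp; ring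
          rw [this, Complex.norm_conj, norm_div, div_lt_iff₀ (norm_pos_iff.mpr ha)]
          exact hw
        · rw [h, Complex.conj_conj]; field_simp; ring
    obtain ⟨z₂, r₂, hr₂, hb₂⟩ := hb
    have := cont_all hC h0 h1 hCsub hr hball (τ := τ ∘ σ) (hs'.comp hs).isSim
      (by rw [image_comp]; exact (image_mono hσt).trans hτt)
      (R := R ∪ τ '' E) (hR.union (hs'.measurableSet_image hE)) (by
        rw [image_comp]
        rintro z (hz | ⟨w, hw, rfl⟩)
        · exact ⟨(hRt hz).1, fun hz' => (hRt hz).2 (image_mono (sim_image_triO hσ hσt) hz')⟩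
        · refine ⟨hτt ⟨w, (hEt hw).1, rfl⟩, ?_⟩
          rintro ⟨v, hv, hvw⟩
          rw [hs'.injective hvw] at hv
          exact (hEt hw).2 hv) hr₂ (hb₂.trans subset_union_right) β
    refine this.comp (f := f) ?_ (fun t _ => hf t)
    fun_prop

theorem sub2_pair (A B : Set ℂ) : sub2 ![A, B] = t2 0 '' A ∪ t2 1 '' B := by
  ext z
  simp [sub2, Fin.exists_fin_two]

theorem sub2_const (A : Set ℂ) : (sub2 fun _ => A) = t2 0 '' A ∪ t2 1 '' A := by
  ext z
  simp [sub2, Fin.exists_fin_two]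

/-- from the two half clusters to the single cluster -/
theorem route_base {C : Set ℂ} (hC : MeasurableSet C) {ρ₀ : ℝ} (h0 : 0 < ρ₀) (h1 : ρ₀ < 1)
    (hCsub : C ⊆ hom ρ₀ '' tri) {z₀ : ℂ} {r : ℝ} (hr : 0 < r) (hball : Metric.ball z₀ r ⊆ C)
    {e J : ℝ} (hA : GoodA C e) (hJ : 1 ≤ J) (hB : GoodB C J) :
    ∃ G : ℝ, Route G J (sub2 fun _ => C) C := by
  have hCt : C ⊆ tri := hCsub.trans (hom_image_subset h0.le h1.le)
  have hne : C.Nonempty := ⟨z₀, hball (Metric.mem_ball_self hr)⟩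
  obtain ⟨G, hG⟩ := goodA_hom hC hCt hA
  refine ⟨G, ?_⟩
  have hG1 : GoodA C G := by
    have := hG 1 ⟨by norm_num, le_rfl⟩
    rwa [hom_continuous_aux] at this
  set D : Set ℂ := hom (1 / 10) '' C with hD
  have hDm : MeasurableSet D := hom_image_measurable hC hne (by norm_num)
  have hDt : D ⊆ tri := hom_image_tri_sub hCt (by norm_num) (by norm_num)
  have hDG : GoodA D G := hG _ ⟨le_rfl, by norm_num⟩
  have hDB : GoodB D J := goodB_hom hJ hCt hC hB (by norm_num) (by norm_num)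
  have hDD : D ⊆ hom (1 / 10) '' tri := image_mono hCt
  have rh : Route G J D C := route_hom hC hCt h0 h1 hCsub hr hball hG hJ hB
  have t2m : ∀ (i : Fin 2) {A : Set ℂ}, MeasurableSet A → MeasurableSet (t2 i '' A) :=
    fun i A hA => (simR_t2 i).measurableSet_image hA
  have pairA : ∀ A B : Set ℂ, MeasurableSet A → MeasurableSet B → A ⊆ tri → B ⊆ tri →
      GoodA A G → GoodA B G → GoodA (t2 0 '' A ∪ t2 1 '' B) G := by
    intro A B hA hB hAt hBt hAG hBG
    rw [← sub2_pair]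
    exact goodA_sub2 (by intro i; fin_cases i <;> simpa) (by intro i; fin_cases i <;> simpa)
      (by intro i; fin_cases i <;> simpa)
  have pairB : ∀ A B : Set ℂ, MeasurableSet A → MeasurableSet B → A ⊆ tri → B ⊆ tri →
      GoodB A J → GoodB B J → GoodB (t2 0 '' A ∪ t2 1 '' B) J := by
    intro A B hA hB hAt hBt hAG hBG
    rw [← sub2_pair]
    exact goodB_sub2 hJ (by intro i; fin_cases i <;> simpa) (by intro i; fin_cases i <;> simpa)
      (by intro i; fin_cases i <;> simpa)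
  -- step 1: `t2 0 '' C ∪ t2 1 '' C` to `t2 0 '' D ∪ t2 1 '' C`
  have disj : ∀ (i j : Fin 2), i ≠ j → ∀ {A : Set ℂ}, A ⊆ tri → t2 j '' A ⊆ tri \ t2 i '' triO := by
    intro i j hij A hAt z hz
    exact ⟨t2_sub j (image_mono hAt hz), fun h' => (t2_disj i j hij).le_bot ⟨h', image_mono hAt hz⟩⟩
  have S1 : Route G J (t2 1 '' C ∪ t2 0 '' C) (t2 1 '' C ∪ t2 0 '' D) := by
    refine rh.symm.move (simR_t2 0).isSim (t2_sub 0) (t2m 1 hC) (disj 0 1 (by decide) hCt) ?_
    intro X hX hXt hXA hXB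
    rw [union_comm]
    exact ⟨pairA X C hX hC hXt hCt hXA hG1, pairB X C hX hC hXt hCt hXB hB⟩
  have S2 : Route G J (t2 0 '' D ∪ t2 1 '' C) (t2 0 '' D ∪ t2 1 '' D) := by
    refine rh.symm.move (simR_t2 1).isSim (t2_sub 1) (t2m 0 hDm) (disj 1 0 (by decide) hDt) ?_
    intro X hX hXt hXA hXB
    exact ⟨pairA D X hDm hX hDt hXt hDG hXA, pairB D X hDm hX hDt hXt hDB hXB⟩
  -- the environment contains a ball
  have hballD : ∃ z₁ : ℂ, ∃ r₁ > 0, Metric.ball z₁ r₁ ⊆ D := by
    refine ⟨hom (1 / 10) z₀, r / 10, by positivity, fun w hw => ?_⟩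
    refine ⟨cen + (10 : ℝ) • (w - cen), hball ?_, ?_⟩
    · rw [Metric.mem_ball, dist_eq_norm] at hw ⊢
      have : cen + (10 : ℝ) • (w - cen) - z₀ = (10 : ℝ) • (w - hom (1 / 10) z₀) := by
        simp only [hom, Complex.real_smul]; push_cast; ring
      rw [this, norm_smul, Real.norm_of_nonneg (by norm_num)]
      linarith
    · simp only [hom, Complex.real_smul]; push_cast; ring
  obtain ⟨z₁, r₁, hr₁, hb₁⟩ := hballD
  have hballt2 : ∀ i : Fin 2, ∃ z₂ : ℂ, ∃ r₂ > 0, Metric.ball z₂ r₂ ⊆ t2 i '' D := by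
    intro i
    obtain ⟨a, b, ha, -, h⟩ := simR_t2 i
    rcases h with h | h
    · refine ⟨t2 i z₁, r₁ * ‖a‖, by positivity, fun w hw => ?_⟩
      refine ⟨(w - b) / a, hb₁ ?_, ?_⟩
      · rw [Metric.mem_ball, dist_eq_norm] at hw ⊢
        rw [h] at hw
        have : (w - b) / a - z₁ = (w - (a * z₁ + b)) / a := by field_simp; ring
        rw [this, norm_div, div_lt_iff₀ (norm_pos_iff.mpr ha)]
        exact hw
      · rw [h]; field_simp; ring
    · refine ⟨t2 i z₁, r₁ * ‖a‖, by positivity, fun w hw => ?_⟩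
      refine ⟨conj ((w - b) / a), hb₁ ?_, ?_⟩
      · rw [Metric.mem_ball, dist_eq_norm] at hw ⊢
        rw [h] at hw
        have : conj ((w - b) / a) - z₁ = conj ((w - (a * conj z₁ + b)) / a) := by
          have : z₁ = conj (conj z₁) := (Complex.conj_conj _).symm
          conv_lhs => rw [this]
          rw [← map_sub]
          congr 1
          field_simp; ring
        rw [this, Complex.norm_conj, norm_div, div_lt_iff₀ (norm_pos_iff.mpr ha)]
        exact hw
      · rw [h, Complex.conj_conj]; field_simp; ring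
  -- disjointness from the third cluster
  have homtri : (hom (1 / 10)) '' triO ⊆ hom (1 / 10) '' tri := image_mono triO_subset
  have hs10 : IsSim (hom (1 / 10)) := (simR_hom (by norm_num)).isSim
  have h10t : hom (1 / 10) '' tri ⊆ tri := hom_image_subset (by norm_num) (by norm_num)
  have E3 : ∀ i : Fin 2, t2 i '' D ⊆ tri \ hom (1 / 10) '' triO := by
    intro i z hz
    refine ⟨t2_sub i (image_mono hDt hz), fun h' => ?_⟩
    exact (t2_hom_disj i).le_bot ⟨image_mono hDD hz, homtri h'⟩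
  have three : ∀ s0 s1 s' : ℝ, s0 ∈ Icc (0 : ℝ) (1 / 10) → s1 ∈ Icc (0 : ℝ) (1 / 10) →
      s' ∈ Icc (0 : ℝ) (1 / 10) →
      GoodB ((t2 0 '' (hom s0 '' C) ∪ t2 1 '' (hom s1 '' C)) ∪ hom s' '' C) J := by
    intro s0 s1 s' hs0 hs1 hs'
    have := goodB_three hJ hCt hC hB (s := ![s0, s1]) (s' := s')
      (by intro i; fin_cases i <;> simp [hs0.1, hs1.1])
      (by intro i; fin_cases i; · simpa using hs0.2
          · simpa using hs1.2) hs'.1 hs'.2
    convert this using 2
    ext z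
    simp [sub2, Fin.exists_fin_two]
  have S3 : Route G J (t2 0 '' D ∪ t2 1 '' D) ((t2 0 '' D ∪ t2 1 '' D) ∪ hom (1 / 10) '' C) := by
    obtain ⟨z₂, r₂, hr₂, hb₂⟩ := hballt2 0
    refine route_grow hC hCt h0 h1 hCsub hr hball hs10 h10t ((t2m 0 hDm).union (t2m 1 hDm))
      (union_subset (E3 0) (E3 1)) hr₂ (hb₂.trans subset_union_left)
      (pairA D D hDm hDm hDt hDt hDG hDG) ?_
    intro s hs
    rw [hom_comp_image]
    exact three _ _ _ ⟨by norm_num, le_rfl⟩ ⟨by norm_num, le_rfl⟩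
      ⟨by linarith [hs.1], by linarith [hs.2]⟩
  -- similarities of the half clusters
  have hss : ∀ i : Fin 2, IsSim (t2 i ∘ hom (1 / 10)) := fun i =>
    ((simR_t2 i).comp (simR_hom (by norm_num))).isSim
  have hsst : ∀ i : Fin 2, (t2 i ∘ hom (1 / 10)) '' tri ⊆ tri := fun i => by
    rw [image_comp]; exact (image_mono h10t).trans (t2_sub i)
  have hE1 : ∀ i : Fin 2, D ⊆ tri \ (t2 i ∘ hom (1 / 10)) '' triO := by
    intro i z hz
    refine ⟨hDt hz, fun h' => ?_⟩
    rw [image_comp] at h'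
    exact (t2_hom_disj i).le_bot ⟨image_mono homtri h', hDD hz⟩
  have hE2 : ∀ i j : Fin 2, i ≠ j → t2 j '' D ⊆ tri \ (t2 i ∘ hom (1 / 10)) '' triO := by
    intro i j hij z hz
    refine ⟨t2_sub j (image_mono hDt hz), fun h' => ?_⟩
    rw [image_comp] at h'
    exact (t2_disj i j hij).le_bot
      ⟨image_mono (sim_image_triO hs10 h10t) h', image_mono hDt hz⟩
  have S4 : Route G J D (D ∪ (t2 1 ∘ hom (1 / 10)) '' C) := by
    refine route_grow hC hCt h0 h1 hCsub hr hball (hss 1) (hsst 1) hDm (hE1 1) hr₁ hb₁ hDG ?_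
    intro s hs
    have := three 0 (1 / 10 * s) (1 / 10) ⟨le_rfl, by norm_num⟩
      ⟨by linarith [hs.1], by linarith [hs.2]⟩ ⟨by norm_num, le_rfl⟩
    refine this.congr ?_
    have hn : ∀ᵐ z : ℂ, z ≠ t2 0 cen := by
      have : volume ({t2 0 cen} : Set ℂ) = 0 := measure_singleton _
      filter_upwards [measure_eq_zero_iff_ae_notMem.mp this] with z hz
      simpa using hz
    rw [hom_image_zero hne, image_singleton, image_comp, hom_comp_image]
    filter_upwards [hn] with z hz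
    simp only [mem_union, mem_singleton_iff, hz, false_or]
    tauto
  have S5 : Route G J (D ∪ t2 1 '' D) ((D ∪ t2 1 '' D) ∪ (t2 0 ∘ hom (1 / 10)) '' C) := by
    refine route_grow hC hCt h0 h1 hCsub hr hball (hss 0) (hsst 0) (hDm.union (t2m 1 hDm))
      (union_subset (hE1 0) (hE2 0 1 (by decide))) hr₁ (hb₁.trans subset_union_left)
      (hDG.mono subset_union_left hDm (hDm.union (t2m 1 hDm)) le_rfl) ?_
    intro s hs
    have := three (1 / 10 * s) (1 / 10) (1 / 10)
      ⟨by linarith [hs.1], by linarith [hs.2]⟩ ⟨by norm_num, le_rfl⟩ ⟨by norm_num, le_rfl⟩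
    convert this using 1
    rw [image_comp, hom_comp_image]
    ext z
    simp only [mem_union, hD]
    tauto
  have hc1 : (t2 1 ∘ hom (1 / 10)) '' C = t2 1 '' D := by rw [image_comp]
  have hc0 : (t2 0 ∘ hom (1 / 10)) '' C = t2 0 '' D := by rw [image_comp]
  rw [hc1] at S4
  rw [hc0] at S5
  rw [sub2_const]
  have r1 : Route G J (t2 0 '' C ∪ t2 1 '' C) (t2 0 '' D ∪ t2 1 '' C) := by
    rw [union_comm (t2 0 '' C), union_comm (t2 0 '' D)]; exact S1
  have hu : (t2 0 '' D ∪ t2 1 '' D) ∪ hom (1 / 10) '' C = (D ∪ t2 1 '' D) ∪ t2 0 '' D := by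
    ext z; simp only [mem_union, ← hD]; tauto
  rw [hu] at S3
  exact ((((r1.trans S2).trans S3).trans S5.symm).trans S4.symm).trans rh

end EBC
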