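import Pool.Agent.Work.MP_ebc928_an.HomGood
import Pool.Agent.Work.MP_ebc928_an.ContK

open MeasureTheory Complex Set
open scoped ContDiff ComplexConjugate

noncomputable section
namespace EBC

/-- A path of void contents from `V` to `V'` along which the trial energies are bounded and
the effective energies are continuous, in every environment. -/
def Route (e J : ℝ) (V V' : Set ℂ) : Prop :=
  ∃ γ : ℝ → Set ℂ, (∀ t, MeasurableSet (γ t)) ∧ (∀ t, γ t ⊆ tri) ∧
    (∀ t ∈ Icc (0 : ℝ) 1, GoodA (γ t) e ∧ GoodB (γ t) J) ∧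
    (∀ᵐ z, z ∈ γ 0 ↔ z ∈ V) ∧ (∀ᵐ z, z ∈ γ 1 ↔ z ∈ V') ∧
    ∀ τ : ℂ → ℂ, IsSim τ → τ '' tri ⊆ tri → ∀ R : Set ℂ, MeasurableSet R →
      R ⊆ tri \ τ '' triO → ∀ β : ℂ,
        ContinuousOn (fun t : ℝ => W (KS (R ∪ τ '' γ t)) 0 β) (Icc 0 1)

theorem Route.symm {e J : ℝ} {V V' : Set ℂ} (h : Route e J V V') : Route e J V' V := by
  obtain ⟨γ, h1, h2, h3, h4, h5, h6⟩ := h
  refine ⟨fun t => γ (1 - t), fun t => h1 _, fun t => h2 _, ?_, by simpa using h5,
    by simpa using h4, ?_⟩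
  · intro t ht
    exact h3 _ ⟨by linarith [ht.2], by linarith [ht.1]⟩
  · intro τ hτ hτt R hR hRt β
    have hc := h6 τ hτ hτt R hR hRt β
    exact hc.comp (f := fun t : ℝ => 1 - t) (by fun_prop)
      (fun t ht => ⟨by linarith [ht.2], by linarith [ht.1]⟩)

/-- the effective energy does not see null sets of the content -/
theorem W_KS_congr_sim {τ : ℂ → ℂ} (hτ : IsSim τ) (R : Set ℂ) {A B : Set ℂ}
    (h : ∀ᵐ z, z ∈ A ↔ z ∈ B) (α : ℝ) (β : ℂ) :
    W (KS (R ∪ τ '' A)) α β = W (KS (R ∪ τ '' B)) α β := by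
  obtain ⟨ρ, hρ, hs⟩ := hτ.exists_simR
  refine W_congr ?_ α β
  have h1 : ∀ᵐ z, z ∈ tri → (z ∈ R ∪ τ '' A ↔ z ∈ R ∪ τ '' B) := by
    filter_upwards [hs.ae_image h] with z hz _
    simp only [mem_union, hz]
  have h2 := ae_fold h1
  refine ae_restrict_of_ae ?_
  filter_upwards [h2] with z hz
  simp only [KS, mem_setOf_eq, hz]

theorem Route.trans {e J : ℝ} {V V' V'' : Set ℂ} (h : Route e J V V') (h' : Route e J V' V'') :
    Route e J V V'' := by
  obtain ⟨γ, h1, h2, h3, h4, h5, h6⟩ := h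
  obtain ⟨γ', h1', h2', h3', h4', h5', h6'⟩ := h'
  classical
  refine ⟨fun t => if t ≤ 1 / 2 then γ (2 * t) else γ' (2 * t - 1), ?_, ?_, ?_, ?_, ?_, ?_⟩
  · intro t; dsimp only; split_ifs
    · exact h1 _
    · exact h1' _
  · intro t; dsimp only; split_ifs
    · exact h2 _
    · exact h2' _
  · intro t ht; dsimp only; split_ifs with hh
    · exact h3 _ ⟨by linarith [ht.1], by linarith⟩
    · exact h3' _ ⟨by linarith, by linarith [ht.2]⟩
  · have : (0 : ℝ) ≤ 1 / 2 := by norm_num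
    simpa [this] using h4
  · have : ¬ ((1 : ℝ) ≤ 1 / 2) := by norm_num
    simp only [this, if_false]
    norm_num
    exact h5'
  · intro τ hτ hτt R hR hRt β
    have hc := h6 τ hτ hτt R hR hRt β
    have hc' := h6' τ hτ hτt R hR hRt β
    have hv : W (KS (R ∪ τ '' γ 1)) 0 β = W (KS (R ∪ τ '' γ' 0)) 0 β :=
      W_KS_congr_sim hτ R (by
        filter_upwards [h5, h4'] with z hz hz'
        rw [hz, hz']) 0 β
    have hu : Icc (0 : ℝ) 1 = Icc 0 (1 / 2) ∪ Icc (1 / 2) 1 := by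
      rw [Icc_union_Icc_eq_Icc] <;> norm_num
    rw [hu]
    refine ContinuousOn.union_of_isClosed ?_ ?_ isClosed_Icc isClosed_Icc
    · have : ContinuousOn (fun t : ℝ => W (KS (R ∪ τ '' γ (2 * t))) 0 β) (Icc 0 (1 / 2)) :=
        hc.comp (f := fun t : ℝ => 2 * t) (by fun_prop)
          (fun t ht => ⟨by linarith [ht.1], by linarith [ht.2]⟩)
      refine this.congr fun t ht => ?_
      simp only [ht.2, if_true]
    · have : ContinuousOn (fun t : ℝ => W (KS (R ∪ τ '' γ' (2 * t - 1))) 0 β) (Icc (1 / 2) 1) :=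
        hc'.comp (f := fun t : ℝ => 2 * t - 1) (by fun_prop)
          (fun t ht => ⟨by linarith [ht.1], by linarith [ht.2]⟩)
      refine this.congr fun t ht => ?_
      rcases eq_or_lt_of_le ht.1 with he | hl
      · rw [← he]
        norm_num
        exact hv
      · simp only [not_le.mpr hl, if_false]

theorem Route.mono {e e' J : ℝ} {V V' : Set ℂ} (h : Route e J V V') (he : e ≤ e') :
    Route e' J V V' := by
  obtain ⟨γ, h1, h2, h3, h4, h5, h6⟩ := h
  exact ⟨γ, h1, h2, fun t ht => ⟨(h3 t ht).1.mono subset_rfl (h1 t) (h1 t) he, (h3 t ht).2⟩,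
    h4, h5, h6⟩

/-- a similarity mapping `tri` into itself maps the open triangle into the open triangle -/
theorem sim_image_triO {τ : ℂ → ℂ} (hτ : IsSim τ) (hτt : τ '' tri ⊆ tri) :
    τ '' triO ⊆ triO := by
  rintro _ ⟨p, hp, rfl⟩
  have hopen : IsOpen triO := by
    have : triO = {z : ℂ | 0 < z.im} ∩ {z : ℂ | z.im < z.re} ∩ {z : ℂ | z.re < 1 / 2} := by
      ext z; simp only [triO, mem_setOf_eq, mem_inter_iff]; tauto
    rw [this]
    exact ((isOpen_lt continuous_const Complex.continuous_im).inter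
      (isOpen_lt Complex.continuous_im Complex.continuous_re)).inter
      (isOpen_lt Complex.continuous_re continuous_const)
  obtain ⟨ε, hε, hball⟩ := Metric.isOpen_iff.mp hopen p hp
  -- all small translates of `τ p` are in `tri`
  have key : ∃ δ > 0, ∀ w : ℂ, ‖w‖ ≤ δ → τ p + w ∈ tri := by
    obtain ⟨a, b, ha, h | h⟩ := hτ
    · refine ⟨ε / 2 * ‖a‖, by positivity, fun w hw => ?_⟩
      have hmem : p + w / a ∈ tri := by
        refine triO_subset (hball ?_)
        rw [Metric.mem_ball, dist_eq_norm, add_sub_cancel_left, norm_div,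
          div_lt_iff₀ (norm_pos_iff.mpr ha)]
        nlinarith [norm_pos_iff.mpr ha]
      have := hτt ⟨_, hmem, rfl⟩
      rw [h] at this
      rw [h]
      convert this using 1
      field_simp
      ring
    · refine ⟨ε / 2 * ‖a‖, by positivity, fun w hw => ?_⟩
      have hmem : p + conj (w / a) ∈ tri := by
        refine triO_subset (hball ?_)
        rw [Metric.mem_ball, dist_eq_norm, add_sub_cancel_left, Complex.norm_conj, norm_div,
          div_lt_iff₀ (norm_pos_iff.mpr ha)]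
        nlinarith [norm_pos_iff.mpr ha]
      have := hτt ⟨_, hmem, rfl⟩
      rw [h] at this
      rw [h]
      convert this using 1
      rw [map_add, Complex.conj_conj]
      field_simp
      ring
  obtain ⟨δ, hδ, hk⟩ := key
  have e1 := hk (-(δ : ℂ) * I) (by simp [abs_of_pos hδ])
  have e2 := hk ((δ : ℂ) * I) (by simp [abs_of_pos hδ])
  have e3 := hk ((δ : ℂ)) (by simp [abs_of_pos hδ])
  simp only [tri, mem_setOf_eq] at e1 e2 e3
  simp at e1 e2 e3
  exact ⟨by linarith [e1.1], by linarith [e2.2.1], by linarith [e3.2.2]⟩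

/-- a path moving only the content of a similar triangle -/
theorem Route.move {e J : ℝ} {V V' : Set ℂ} (h : Route e J V V') {τ : ℂ → ℂ} (hτ : IsSim τ)
    (hτt : τ '' tri ⊆ tri) {R : Set ℂ} (hR : MeasurableSet R) (hRt : R ⊆ tri \ τ '' triO)
    {e' J' : ℝ} (hA : ∀ X : Set ℂ, MeasurableSet X → X ⊆ tri → GoodA X e → GoodB X J →
      GoodA (R ∪ τ '' X) e' ∧ GoodB (R ∪ τ '' X) J') :
    Route e' J' (R ∪ τ '' V) (R ∪ τ '' V') := by
  obtain ⟨γ, h1, h2, h3, h4, h5, h6⟩ := h
  obtain ⟨ρ, hρ, hs⟩ := hτ.exists_simR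
  refine ⟨fun t => R ∪ τ '' γ t, fun t => hR.union (hs.measurableSet_image (h1 t)), ?_, ?_, ?_,
    ?_, ?_⟩
  · intro t
    exact union_subset (fun z hz => (hRt hz).1) ((image_mono (h2 t)).trans hτt)
  · intro t ht
    exact hA _ (h1 t) (h2 t) (h3 t ht).1 (h3 t ht).2
  · filter_upwards [hs.ae_image h4] with z hz
    simp only [mem_union, hz]
  · filter_upwards [hs.ae_image h5] with z hz
    simp only [mem_union, hz]
  · intro τ' hτ' hτt' R' hR' hRt' β
    obtain ⟨ρ', hρ', hs'⟩ := hτ'.exists_simR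
    have hsub : ∀ t, R' ∪ τ' '' (R ∪ τ '' γ t) = (R' ∪ τ' '' R) ∪ (τ' ∘ τ) '' γ t := by
      intro t
      rw [image_union, image_comp, union_assoc]
    simp only [hsub]
    refine h6 (τ' ∘ τ) (hs'.comp hs).isSim ?_ _ (hR'.union (hs'.measurableSet_image hR)) ?_ β
    · rw [image_comp]
      exact (image_mono hτt).trans hτt'
    · rw [image_comp]
      rintro z (hz | ⟨w, hw, rfl⟩)
      · exact ⟨(hRt' hz).1, fun hz' => (hRt' hz).2 (image_mono (sim_image_triO hτ hτt) hz')⟩
      · refine ⟨hτt' ⟨w, (hRt hw).1, rfl⟩, ?_⟩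
        rintro ⟨v, hv, hvw⟩
        rw [hs'.injective hvw] at hv
        exact (hRt hw).2 hv

end EBC
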