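import Pool.Agent.Work.MP_ebc928_an.Laplace

open MeasureTheory Complex Set Filter Topology
open scoped ContDiff ComplexConjugate

noncomputable section
namespace EBC

/-- A smooth periodic vector field `X` which is, near every point, of the form
`κ(z) (z - c₀)` for some centre `c₀`; `N1`, `N2` are the quadratic companions. -/
structure HomField (κ : ℂ → ℝ) (X : ℂ → ℂ) (N1 : ℂ → ℝ) (N2 : ℂ → ℂ) : Prop where
  sκ : ContDiff ℝ ∞ κ
  sX : ContDiff ℝ ∞ X
  s1 : ContDiff ℝ ∞ N1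
  s2 : ContDiff ℝ ∞ N2
  pκ : Per κ
  pX : Per X
  p1 : Per N1
  p2 : Per N2
  loc : ∀ z₀ : ℂ, ∃ c₀ : ℂ, ∀ᶠ z in 𝓝 z₀, X z = κ z • (z - c₀) ∧
    N1 z = κ z * ‖z - c₀‖ ^ 2 ∧ N2 z = κ z • (z - c₀) ^ 2

namespace Tr1

/-- Gaussian integer shift -/
def sh (m : ℤ × ℤ) : ℂ := m.1 + m.2 * I

theorem sh_re (m : ℤ × ℤ) : (sh m).re = m.1 := by simp [sh]
theorem sh_im (m : ℤ × ℤ) : (sh m).im = m.2 := by simp [sh]

theorem sh_inj : Function.Injective sh := by
  intro m m' h
  have h1 := congrArg Complex.re h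
  have h2 := congrArg Complex.im h
  rw [sh_re, sh_re] at h1
  rw [sh_im, sh_im] at h2
  ext
  · exact_mod_cast h1
  · exact_mod_cast h2

def shHom : ℤ × ℤ →+ ℂ where
  toFun := sh
  map_zero' := by simp [sh]
  map_add' := by intro a b; simp [sh]; ring

def GG' : AddSubgroup ℂ := shHom.range

instance : Countable GG' := by
  have : Countable (Set.range shHom) := (Set.countable_range _).to_subtype
  exact this

theorem per_one {α : Type*} {f : ℂ → α} (hf : Per f) (z : ℂ) (n : ℤ) : f (z + n) = f z := by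
  induction n using Int.induction_on with
  | zero => simp
  | succ k ih => 
    rw [← ih, ← (hf (z + ((k : ℤ) : ℂ))).1]; congr 1; push_cast; ring
  | pred k ih =>
    rw [← ih, ← (hf (z + ((-(k:ℤ) - 1 : ℤ) : ℂ))).1]; congr 1; push_cast; ring

theorem per_I {α : Type*} {f : ℂ → α} (hf : Per f) (z : ℂ) (n : ℤ) : f (z + n * I) = f z := by
  induction n using Int.induction_on with
  | zero => simp
  | succ k ih => 
    rw [← ih, ← (hf (z + ((k : ℤ) : ℂ) * I)).2]; congr 1; push_cast; ring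
  | pred k ih =>
    rw [← ih, ← (hf (z + ((-(k:ℤ) - 1 : ℤ) : ℂ) * I)).2]; congr 1; push_cast; ring

theorem per_sh {α : Type*} {f : ℂ → α} (hf : Per f) (z : ℂ) (m : ℤ × ℤ) : f (z + sh m) = f z := by
  unfold sh
  rw [← add_assoc, per_I hf, per_one hf]

theorem measurableSet_cell : MeasurableSet cell := by
  unfold cell
  exact (measurableSet_Ico.preimage Complex.measurable_re).inter
    (measurableSet_Ico.preimage Complex.measurable_im)

theorem cell_unique (z : ℂ) : ∃! m : ℤ × ℤ, z + sh m ∈ cell := by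
  refine ⟨(-⌊z.re⌋, -⌊z.im⌋), ?_, ?_⟩
  · simp only [cell, mem_setOf_eq, add_re, sh_re, add_im, sh_im, mem_Ico]
    push_cast
    refine ⟨⟨by linarith [Int.floor_le z.re], by linarith [Int.lt_floor_add_one z.re]⟩,
      ⟨by linarith [Int.floor_le z.im], by linarith [Int.lt_floor_add_one z.im]⟩⟩
  · rintro ⟨a, b⟩ h
    simp only [cell, mem_setOf_eq, add_re, sh_re, add_im, sh_im, mem_Ico] at h
    have h1 : ⌊z.re⌋ = -a := by
      rw [Int.floor_eq_iff]; push_cast; constructor <;> linarith [h.1.1, h.1.2]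
    have h2 : ⌊z.im⌋ = -b := by
      rw [Int.floor_eq_iff]; push_cast; constructor <;> linarith [h.2.1, h.2.2]
    simp [h1, h2]

theorem fund {s : Set ℂ} (hs : MeasurableSet s) (us : ∀ z, ∃! m : ℤ × ℤ, z + sh m ∈ s) :
    IsAddFundamentalDomain GG' s (volume : Measure ℂ) := by
  refine IsAddFundamentalDomain.mk' hs.nullMeasurableSet ?_
  intro z
  obtain ⟨m, hm, hu⟩ := us z
  refine ⟨⟨sh m, ⟨m, rfl⟩⟩, ?_, ?_⟩
  · show sh m + z ∈ s
    rw [add_comm]; exact hm
  · rintro ⟨g, ⟨m', rfl⟩⟩ hg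
    have : sh m' + z ∈ s := hg
    rw [add_comm] at this
    have := hu m' this
    subst this
    rfl

theorem setIntegral_fund {E : Type*} [NormedAddCommGroup E] [NormedSpace ℝ E] {s : Set ℂ}
    (hs : MeasurableSet s) (us : ∀ z, ∃! m : ℤ × ℤ, z + sh m ∈ s) {g : ℂ → E} (hg : Per g) :
    ∫ z in s, g z = ∫ z in cell, g z := by
  refine (fund hs us).setIntegral_eq (fund measurableSet_cell cell_unique) ?_
  rintro ⟨_, ⟨m, rfl⟩⟩ z
  show g (sh m + z) = g z
  rw [add_comm]
  exact per_sh hg z m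


/-! ### the change of variables -/

theorem bounded_of_per {E : Type*} [NormedAddCommGroup E] {g : ℂ → E} (hg : Continuous g)
    (hp : Per g) : ∃ M : ℝ, 0 ≤ M ∧ ∀ z, ‖g z‖ ≤ M := by
  have hK : IsCompact (Metric.closedBall (0 : ℂ) 2) := isCompact_closedBall _ _
  obtain ⟨M, hM⟩ := hK.exists_bound_of_continuousOn hg.continuousOn
  refine ⟨|M|, abs_nonneg _, fun z => ?_⟩
  obtain ⟨m, hm, -⟩ := cell_unique z
  rw [← per_sh hp z m]
  refine (hM _ ?_).trans (le_abs_self _)
  rw [mem_closedBall_zero_iff]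
  obtain ⟨⟨h1, h2⟩, ⟨h3, h4⟩⟩ := hm
  refine (Complex.norm_le_abs_re_add_abs_im _).trans ?_
  rw [abs_of_nonneg h1, abs_of_nonneg h3]
  linarith

theorem per_fderiv {E : Type*} [NormedAddCommGroup E] [NormedSpace ℝ E] {g : ℂ → E} (hp : Per g) :
    Per (fderiv ℝ g) := by
  intro z
  constructor
  · have : (fun w => g (w + 1)) = g := by ext w; exact (hp w).1
    have h2 := fderiv_comp_add_right (𝕜 := ℝ) (f := g) (x := z) (1 : ℂ)
    rw [← h2, this]
  · have : (fun w => g (w + I)) = g := by ext w; exact (hp w).2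
    have h2 := fderiv_comp_add_right (𝕜 := ℝ) (f := g) (x := z) I
    rw [← h2, this]

/-- the determinant of a real linear map of `ℂ` -/
theorem det_eq (A : ℂ →L[ℝ] ℂ) : A.det = (A 1).re * (A I).im - (A 1).im * (A I).re := by
  have h : A.det = LinearMap.det (A : ℂ →ₗ[ℝ] ℂ) := rfl
  rw [h, ← LinearMap.det_toMatrix Complex.basisOneI, Matrix.det_fin_two]
  simp [LinearMap.toMatrix_apply]
  ring

section Psi

variable {X : ℂ → ℂ} (hX : ContDiff ℝ ∞ X) (pX : Per X) {M : ℝ}
  (hM0 : 0 ≤ M) (hM : ∀ z, ‖fderiv ℝ X z‖ ≤ M) {t : ℝ} (ht : |t| * M ≤ 1 / 4)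
include hX hM ht

theorem lipX (hM0 : 0 ≤ M) (z w : ℂ) : ‖X z - X w‖ ≤ M * ‖z - w‖ := by
  have h := Convex.norm_image_sub_le_of_norm_fderiv_le (𝕜 := ℝ) (f := X) (C := M) (s := univ)
    (x := w) (y := z) (fun x _ => (hX.differentiable (by simp)).differentiableAt)
    (fun x _ => hM x) convex_univ (mem_univ _) (mem_univ _)
  exact h

theorem psi_injective (hM0 : 0 ≤ M) : Function.Injective (fun z => z + t • X z) := by
  intro z w h
  simp only at h
  have h1 : z - w = t • (X w - X z) := by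
    rw [smul_sub]; linear_combination h
  have h2 : ‖z - w‖ ≤ 1 / 4 * ‖z - w‖ := by
    calc ‖z - w‖ = |t| * ‖X w - X z‖ := by rw [h1, norm_smul, Real.norm_eq_abs]
      _ ≤ |t| * (M * ‖w - z‖) := by
          exact mul_le_mul_of_nonneg_left (lipX hX hM ht hM0 w z) (abs_nonneg _)
      _ = (|t| * M) * ‖z - w‖ := by rw [norm_sub_rev]; ring
      _ ≤ 1 / 4 * ‖z - w‖ := by exact mul_le_mul_of_nonneg_right ht (norm_nonneg _)
  have h3 : ‖z - w‖ = 0 := by linarith [norm_nonneg (z - w)]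
  exact sub_eq_zero.mp (norm_eq_zero.mp h3)

theorem psi_surjective (hM0 : 0 ≤ M) : Function.Surjective (fun z => z + t • X z) := by
  have h : ApproximatesLinearOn (fun z => z + t • X z)
      ((ContinuousLinearEquiv.refl ℝ ℂ : ℂ ≃L[ℝ] ℂ) : ℂ →L[ℝ] ℂ) univ (1 / 4 : NNReal) := by
    intro x _ y _
    have : x + t • X x - (y + t • X y) - ((ContinuousLinearEquiv.refl ℝ ℂ : ℂ ≃L[ℝ] ℂ) : ℂ →L[ℝ] ℂ) (x - y)
        = t • (X x - X y) := by
      rw [smul_sub]
      show x + t • X x - (y + t • X y) - (x - y) = _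
      ring
    simp only
    rw [this, norm_smul, Real.norm_eq_abs]
    calc |t| * ‖X x - X y‖ ≤ |t| * (M * ‖x - y‖) := by
          exact mul_le_mul_of_nonneg_left (lipX hX hM ht hM0 x y) (abs_nonneg _)
      _ = (|t| * M) * ‖x - y‖ := by ring
      _ ≤ 1 / 4 * ‖x - y‖ := by exact mul_le_mul_of_nonneg_right ht (norm_nonneg _)
      _ = ((1 / 4 : NNReal) : ℝ) * ‖x - y‖ := by push_cast; rfl
  refine h.surjective (Or.inr ?_)
  have h1 : ‖(((ContinuousLinearEquiv.refl ℝ ℂ : ℂ ≃L[ℝ] ℂ).symm : ℂ ≃L[ℝ] ℂ) : ℂ →L[ℝ] ℂ)‖₊ = 1 := by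
    show ‖ContinuousLinearMap.id ℝ ℂ‖₊ = 1
    exact ContinuousLinearMap.nnnorm_id
  rw [h1]
  rw [inv_one]
  rw [← NNReal.coe_lt_coe]; push_cast; norm_num

theorem psi_unique (hM0 : 0 ≤ M) (pX : Per X) (z : ℂ) :
    ∃! m : ℤ × ℤ, z + sh m ∈ (fun z => z + t • X z) '' cell := by
  obtain ⟨w, hw⟩ := psi_surjective hX hM ht hM0 z
  obtain ⟨m, hm, hu⟩ := cell_unique w
  have key : ∀ m' : ℤ × ℤ, (w + sh m') + t • X (w + sh m') = z + sh m' := by
    intro m'
    rw [per_sh pX]
    rw [← hw]; simp only; ring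
  refine ⟨m, ⟨w + sh m, hm, key m⟩, ?_⟩
  rintro m' ⟨v, hv, hvz⟩
  have : v = w + sh m' := psi_injective hX hM ht hM0 (hvz.trans (key m').symm)
  subst this
  exact hu m' hv

theorem change_le (hM0 : 0 ≤ M) (pX : Per X) {g : ℂ → ℝ} (hg : Per g) (hc : Measurable g)
    (hbd : ∃ B, ∀ z, ‖g z‖ ≤ B) (h0 : ∀ z, 0 ≤ g z) :
    ∫ z in cell, g (z + t • X z) ≤ (1 + 4 * (|t| * M)) * ∫ z in cell, g z := by
  have hd : ∀ z, HasFDerivAt (fun z => z + t • X z)
      (ContinuousLinearMap.id ℝ ℂ + t • fderiv ℝ X z) z := by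
    intro z
    exact (hasFDerivAt_id z).add (((hX.differentiable (by simp)) z).hasFDerivAt.const_smul t)
  have hcv := integral_image_eq_integral_abs_det_fderiv_smul (μ := (volume : Measure ℂ))
    measurableSet_cell (f := fun z => z + t • X z)
    (f' := fun z => ContinuousLinearMap.id ℝ ℂ + t • fderiv ℝ X z)
    (fun z _ => (hd z).hasFDerivWithinAt) ((psi_injective hX hM ht hM0).injOn) g
  have hcont : Continuous fun z : ℂ => z + t • X z := continuous_id.add (hX.continuous.const_smul t)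
  have himg : MeasurableSet ((fun z => z + t • X z) '' cell) :=
    measurableSet_cell.image_of_continuousOn_injOn hcont.continuousOn
      ((psi_injective hX hM ht hM0).injOn)
  rw [setIntegral_fund himg (psi_unique hX hM ht hM0 pX) hg] at hcv
  have hdet : ∀ z, 1 - 2 * (|t| * M) ≤ |(ContinuousLinearMap.id ℝ ℂ + t • fderiv ℝ X z).det| := by
    intro z
    refine le_trans ?_ (le_abs_self _)
    rw [det_eq]
    have n1 : ‖t • fderiv ℝ X z 1‖ ≤ |t| * M := by
      rw [norm_smul, Real.norm_eq_abs]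
      refine mul_le_mul_of_nonneg_left ?_ (abs_nonneg _)
      exact ((fderiv ℝ X z).le_opNorm 1).trans (by simpa using hM z)
    have n2 : ‖t • fderiv ℝ X z I‖ ≤ |t| * M := by
      rw [norm_smul, Real.norm_eq_abs]
      refine mul_le_mul_of_nonneg_left ?_ (abs_nonneg _)
      exact ((fderiv ℝ X z).le_opNorm I).trans (by simpa using hM z)
    set p := t • fderiv ℝ X z 1 with hp
    set q := t • fderiv ℝ X z I with hq
    have e1 : (ContinuousLinearMap.id ℝ ℂ + t • fderiv ℝ X z) 1 = 1 + p := by simp [hp]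
    have e2 : (ContinuousLinearMap.id ℝ ℂ + t • fderiv ℝ X z) I = I + q := by simp [hq]
    rw [e1, e2]
    simp only [add_re, one_re, add_im, I_im, one_im, I_re, zero_add]
    have b1 := (abs_le.mp ((Complex.abs_re_le_norm p).trans n1))
    have b2 := (abs_le.mp ((Complex.abs_im_le_norm q).trans n2))
    have b3 := (abs_le.mp ((Complex.abs_im_le_norm p).trans n1))
    have b4 := (abs_le.mp ((Complex.abs_re_le_norm q).trans n2))
    set s := |t| * M
    have hs0 : 0 ≤ s := by positivity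
    have : p.im * q.re ≤ s * s := by
      nlinarith [b3.1, b3.2, b4.1, b4.2]
    have h5 : (1 - s) * (1 - s) ≤ (1 + p.re) * (1 + q.im) := by
      have : 0 ≤ 1 - s := by linarith
      exact mul_le_mul (by linarith [b1.1]) (by linarith [b2.1]) this (by linarith [b1.1])
    nlinarith
  have hgc : Measurable fun z : ℂ => g (z + t • X z) := hc.comp hcont.measurable
  have hpc : Per fun z : ℂ => g (z + t • X z) := by
    intro z
    constructor
    · show g (z + 1 + t • X (z + 1)) = _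
      rw [(pX z).1, show z + 1 + t • X z = (z + t • X z) + 1 by ring, (hg _).1]
    · show g (z + I + t • X (z + I)) = _
      rw [(pX z).2, show z + I + t • X z = (z + t • X z) + I by ring, (hg _).2]
  have hfin : volume cell ≠ ⊤ := by
    have : cell ⊆ Metric.closedBall (0 : ℂ) 2 := by
      rintro w ⟨⟨h1, h2⟩, ⟨h3, h4⟩⟩
      rw [mem_closedBall_zero_iff]
      refine (Complex.norm_le_abs_re_add_abs_im _).trans ?_
      rw [abs_of_nonneg h1, abs_of_nonneg h3]
      linarith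
    exact ((measure_mono this).trans_lt measure_closedBall_lt_top).ne
  have int_of : ∀ k : ℂ → ℝ, Measurable k → (∃ B, ∀ z, ‖k z‖ ≤ B) → IntegrableOn k cell volume := by
    rintro k hk ⟨B, hB⟩
    refine Measure.integrableOn_of_bounded (M := B) hfin hk.aestronglyMeasurable ?_
    exact Filter.Eventually.of_forall hB
  obtain ⟨B, hB⟩ := hbd
  have i1 : IntegrableOn (fun z => g (z + t • X z)) cell volume :=
    int_of _ hgc ⟨B, fun z => hB _⟩
  have hdc : Continuous fun z => (ContinuousLinearMap.id ℝ ℂ + t • fderiv ℝ X z).det := by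
    have : (fun z => (ContinuousLinearMap.id ℝ ℂ + t • fderiv ℝ X z).det) = fun z =>
      (1 + t • fderiv ℝ X z 1).re * (I + t • fderiv ℝ X z I).im -
        (1 + t • fderiv ℝ X z 1).im * (I + t • fderiv ℝ X z I).re := by
      ext z; rw [det_eq]; simp
    rw [this]
    have hc1 : Continuous fun z => fderiv ℝ X z := hX.continuous_fderiv (by simp)
    have hc2 : ∀ v : ℂ, Continuous fun z => fderiv ℝ X z v := fun v => hc1.clm_apply continuous_const
    fun_prop
  have i2 : IntegrableOn (fun z => |(ContinuousLinearMap.id ℝ ℂ + t • fderiv ℝ X z).det| •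
      g (z + t • X z)) cell volume := by
    have hpd' : Per (fun z => |(ContinuousLinearMap.id ℝ ℂ + t • fderiv ℝ X z).det|) := by
      intro z
      have a1 := (per_fderiv pX z)
      constructor
      · simp only [a1.1]
      · simp only [a1.2]
    obtain ⟨B', hB'0, hB'⟩ := bounded_of_per hdc.abs hpd'
    refine int_of _ (hdc.abs.measurable.smul hgc) ⟨B' * B, fun z => ?_⟩
    rw [norm_smul]
    exact mul_le_mul (hB' z) (hB _) (norm_nonneg _) hB'0
  have h1 : (1 - 2 * (|t| * M)) * ∫ z in cell, g (z + t • X z) ≤ ∫ z in cell, g z := by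
    rw [hcv, ← integral_const_mul]
    refine integral_mono (i1.const_mul _) i2 ?_
    intro z
    exact mul_le_mul_of_nonneg_right (hdet z) (h0 _)
  have hI : 0 ≤ ∫ z in cell, g z := integral_nonneg h0
  have hI' : 0 ≤ ∫ z in cell, g (z + t • X z) := integral_nonneg fun z => h0 _
  set s := |t| * M
  have hs0 : 0 ≤ s := by positivity
  have : (1 + 4 * s) * ((1 - 2 * s) * ∫ z in cell, g (z + t • X z)) ≤
      (1 + 4 * s) * ∫ z in cell, g z := mul_le_mul_of_nonneg_left h1 (by linarith)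
  nlinarith [mul_nonneg hs0 hI', mul_nonneg (mul_nonneg hs0 hI') (by linarith : (0:ℝ) ≤ 1/4 - s)]

end Psi


/-! ### second derivatives -/

theorem D2_congr {E : Type*} [NormedAddCommGroup E] [NormedSpace ℝ E] {f g : ℂ → E} {z : ℂ}
    (h : f =ᶠ[𝓝 z] g) (a b : ℂ) : D2 f z a b = D2 g z a b := by
  unfold D2
  rw [(h.fderiv (𝕜 := ℝ)).fderiv_eq]

theorem diff_fderiv {E : Type*} [NormedAddCommGroup E] [NormedSpace ℝ E] {f : ℂ → E}
    (hf : ContDiff ℝ ∞ f) : Differentiable ℝ (fderiv ℝ f) :=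
  (hf.fderiv_right (m := ∞) (by simp)).differentiable (by simp)

theorem D2_comp {E : Type*} [NormedAddCommGroup E] [NormedSpace ℝ E] {A : ℂ → E} {Ψ : ℂ → ℂ}
    (hA : ContDiff ℝ ∞ A) (hΨ : ContDiff ℝ ∞ Ψ) (z h k : ℂ) :
    D2 (fun z => A (Ψ z)) z h k =
      D2 A (Ψ z) (fderiv ℝ Ψ z h) (fderiv ℝ Ψ z k) + fderiv ℝ A (Ψ z) (D2 Ψ z h k) := by
  have dA := hA.differentiable (by simp)
  have dΨ := hΨ.differentiable (by simp)
  have e : fderiv ℝ (fun z => A (Ψ z)) = fun z => (fderiv ℝ A (Ψ z)).comp (fderiv ℝ Ψ z) := by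
    ext1 w
    exact fderiv_comp w (dA _) (dΨ _)
  unfold D2
  rw [e]
  have h1 : HasFDerivAt (fun z => fderiv ℝ A (Ψ z))
      ((fderiv ℝ (fderiv ℝ A) (Ψ z)).comp (fderiv ℝ Ψ z)) z :=
    ((diff_fderiv hA _).hasFDerivAt).comp z (dΨ z).hasFDerivAt
  have h2 : HasFDerivAt (fderiv ℝ Ψ) (fderiv ℝ (fderiv ℝ Ψ) z) z := (diff_fderiv hΨ z).hasFDerivAt
  rw [(h1.clm_comp h2).fderiv]
  simp
  abel

theorem D2_add {E : Type*} [NormedAddCommGroup E] [NormedSpace ℝ E] {f g : ℂ → E}
    (hf : ContDiff ℝ ∞ f) (hg : ContDiff ℝ ∞ g) (z h k : ℂ) :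
    D2 (fun z => f z + g z) z h k = D2 f z h k + D2 g z h k := by
  unfold D2
  have e : fderiv ℝ (fun z => f z + g z) = fun z => fderiv ℝ f z + fderiv ℝ g z := by
    ext1 w
    exact fderiv_add (hf.differentiable (by simp) _) (hg.differentiable (by simp) _)
  rw [e, fderiv_fun_add (diff_fderiv hf _) (diff_fderiv hg _)]
  rfl

theorem D2_clm {E F : Type*} [NormedAddCommGroup E] [NormedSpace ℝ E] [NormedAddCommGroup F]
    [NormedSpace ℝ F] {f : ℂ → E} (L : E →L[ℝ] F)
    (hf : ContDiff ℝ ∞ f) (z h k : ℂ) :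
    D2 (fun z => L (f z)) z h k = L (D2 f z h k) := by
  unfold D2
  have e : fderiv ℝ (fun z => L (f z)) = fun z => L.comp (fderiv ℝ f z) := by
    ext1 w
    exact (L.hasFDerivAt.comp w (hf.differentiable (by simp) w).hasFDerivAt).fderiv
  rw [e]
  have h2 : HasFDerivAt (fderiv ℝ f) (fderiv ℝ (fderiv ℝ f) z) z := (diff_fderiv hf z).hasFDerivAt
  have h3 : HasFDerivAt (fun z => L.comp (fderiv ℝ f z))
      ((ContinuousLinearMap.compL ℝ ℂ E F L).comp (fderiv ℝ (fderiv ℝ f) z)) z :=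
    (ContinuousLinearMap.compL ℝ ℂ E F L).hasFDerivAt.comp z h2
  rw [h3.fderiv]
  rfl

/-- symmetry -/
theorem D2_symm {f : ℂ → ℝ} (hf : ContDiff ℝ ∞ f) (z h k : ℂ) : D2 f z h k = D2 f z k h := by
  have := (hf.contDiffAt (x := z)).isSymmSndFDerivAt (𝕜 := ℝ) (by
    rw [minSmoothness_of_isRCLikeNormedField]; exact WithTop.coe_le_coe.mpr le_top)
  exact this h k

/-- the quadratic part -/
def qd (a : ℝ) (b : ℂ) (z : ℂ) : ℝ := a / 2 * ‖z‖ ^ 2 + (conj b * z ^ 2).re / 2

theorem qd_eq (a : ℝ) (b z : ℂ) : qd a b z = a / 2 * (z.re ^ 2 + z.im ^ 2) +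
    (b.re * (z.re ^ 2 - z.im ^ 2) + b.im * (2 * z.re * z.im)) / 2 := by
  unfold qd
  rw [← Complex.normSq_eq_norm_sq, Complex.normSq_apply]
  simp only [pow_two, mul_re, mul_im, conj_re, conj_im]
  ring

theorem qd_hasFDerivAt (a : ℝ) (b z : ℂ) : HasFDerivAt (qd a b)
    ((a * z.re + b.re * z.re + b.im * z.im) • Complex.reCLM +
      (a * z.im - b.re * z.im + b.im * z.re) • Complex.imCLM) z := by
  have e : qd a b = fun z : ℂ => a / 2 * (z.re ^ 2 + z.im ^ 2) +
    (b.re * (z.re ^ 2 - z.im ^ 2) + b.im * (2 * z.re * z.im)) * (1 / 2) := by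
    ext z; rw [qd_eq a b z]; ring
  rw [e]
  have hr : HasFDerivAt (fun z : ℂ => z.re) Complex.reCLM z := Complex.reCLM.hasFDerivAt
  have hi : HasFDerivAt (fun z : ℂ => z.im) Complex.imCLM z := Complex.imCLM.hasFDerivAt
  have h := (((hr.pow 2).add (hi.pow 2)).const_mul (a / 2)).add
    (((((hr.pow 2).sub (hi.pow 2)).const_mul b.re).add
      (((hr.const_mul 2).mul hi).const_mul b.im)).mul_const (1 / 2))
  refine HasFDerivAt.congr_fderiv h ?_
  refine ContinuousLinearMap.ext fun w => ?_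
  simp
  ring

theorem qd_fderiv (a : ℝ) (b z v : ℂ) : fderiv ℝ (qd a b) z v =
    a * (conj z * v).re + (conj b * z * v).re := by
  rw [(qd_hasFDerivAt a b z).fderiv]
  simp
  ring

theorem qd_contDiff (a : ℝ) (b : ℂ) : ContDiff ℝ ∞ (qd a b) := by
  have e : qd a b = fun z : ℂ => a / 2 * (Complex.reCLM z ^ 2 + Complex.imCLM z ^ 2) +
    (b.re * (Complex.reCLM z ^ 2 - Complex.imCLM z ^ 2) +
      b.im * (2 * Complex.reCLM z * Complex.imCLM z)) / 2 := by ext z; exact qd_eq a b z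
  rw [e]
  fun_prop

theorem qd_D2 (a : ℝ) (b z h k : ℂ) : D2 (qd a b) z h k =
    a * (conj h * k).re + (conj b * h * k).re := by
  unfold D2
  have e : fderiv ℝ (qd a b) = fun z => ((a + b.re) * z.re + b.im * z.im) • Complex.reCLM +
      ((a - b.re) * z.im + b.im * z.re) • Complex.imCLM := by
    ext1 w
    rw [(qd_hasFDerivAt a b w).fderiv]
    congr 2 <;> ring
  rw [e]
  have hr : HasFDerivAt (fun z : ℂ => z.re) Complex.reCLM z := Complex.reCLM.hasFDerivAt
  have hi : HasFDerivAt (fun z : ℂ => z.im) Complex.imCLM z := Complex.imCLM.hasFDerivAt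
  have h1 := (((hr.const_mul (a + b.re)).add (hi.const_mul b.im)).smul_const Complex.reCLM).add
    (((hi.const_mul (a - b.re)).add (hr.const_mul b.im)).smul_const Complex.imCLM)
  have h2 : HasFDerivAt (fun z : ℂ => ((a + b.re) * z.re + b.im * z.im) • Complex.reCLM +
      ((a - b.re) * z.im + b.im * z.re) • Complex.imCLM) _ z := h1
  rw [h2.fderiv]
  simp
  ring

end Tr1
end EBC
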