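import Pool.Agent.Work.MP_ebc928_an.TransportA
import Pool.Agent.Work.MP_ebc928_an.Laplace

open MeasureTheory Complex Set Filter Topology
open scoped ContDiff ComplexConjugate

noncomputable section
namespace EBC
namespace Tr1

/-- the bilinear form with trace part `α` and deviatoric part `η` -/
def Sf (α : ℝ) (η : ℂ) (h k : ℂ) : ℝ := α * (conj h * k).re + (conj η * h * k).re

theorem Sf_bound (α : ℝ) (η h k : ℂ) : |Sf α η h k| ≤ (|α| + ‖η‖) * (‖h‖ * ‖k‖) := by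
  unfold Sf
  have h1 : |(conj h * k).re| ≤ ‖h‖ * ‖k‖ := by
    refine (Complex.abs_re_le_norm _).trans ?_
    rw [norm_mul, Complex.norm_conj]
  have h2 : |(conj η * h * k).re| ≤ ‖η‖ * (‖h‖ * ‖k‖) := by
    refine (Complex.abs_re_le_norm _).trans ?_
    rw [norm_mul, norm_mul, Complex.norm_conj, mul_assoc]
  calc |α * (conj h * k).re + (conj η * h * k).re| ≤ |α * (conj h * k).re| + |(conj η * h * k).re| :=
        abs_add_le _ _
    _ ≤ |α| * (‖h‖ * ‖k‖) + ‖η‖ * (‖h‖ * ‖k‖) := by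
        rw [abs_mul]
        exact add_le_add (mul_le_mul_of_nonneg_left h1 (abs_nonneg _)) h2
    _ = _ := by ring

theorem D2_form {φ : ℂ → ℝ} (hφ : ContDiff ℝ ∞ φ) (z h k : ℂ) :
    D2 φ z h k = Sf (hf φ z) (hh φ z) h k := by
  have hs := D2_symm hφ z
  have e1 : ∀ h k : ℂ, D2 φ z h k = h.re * k.re * D2 φ z 1 1 + h.re * k.im * D2 φ z 1 I +
      h.im * k.re * D2 φ z I 1 + h.im * k.im * D2 φ z I I := by
    intro h k
    have hh' : h = h.re • (1 : ℂ) + h.im • I := by simp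
    have hk' : k = k.re • (1 : ℂ) + k.im • I := by simp
    unfold D2
    conv_lhs => rw [hh', hk']
    simp only [map_add, map_smul, ContinuousLinearMap.add_apply, ContinuousLinearMap.smul_apply,
      smul_eq_mul]
    ring
  rw [e1 h k, hs I 1]
  unfold Sf hf hh
  simp only [mul_re, mul_im, conj_re, conj_im, add_re, add_im, ofReal_re, ofReal_im, I_re, I_im]
  ring

/-- the total stress function -/
def tot (a : ℝ) (b : ℂ) (φ : ℂ → ℝ) (z : ℂ) : ℝ := qd a b z + φ z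

theorem tot_contDiff (a : ℝ) (b : ℂ) {φ : ℂ → ℝ} (hφ : ContDiff ℝ ∞ φ) :
    ContDiff ℝ ∞ (tot a b φ) := (qd_contDiff a b).add hφ

theorem tot_D2 (a : ℝ) (b : ℂ) {φ : ℂ → ℝ} (hφ : ContDiff ℝ ∞ φ) (z h k : ℂ) :
    D2 (tot a b φ) z h k = Sf (a + hf φ z) (b + hh φ z) h k := by
  unfold tot
  rw [D2_add (qd_contDiff a b) hφ, qd_D2, D2_form hφ]
  unfold Sf
  simp only [map_add, add_mul, add_re]
  ring

theorem tot_fderiv (a : ℝ) (b : ℂ) {φ : ℂ → ℝ} (hφ : ContDiff ℝ ∞ φ) (z v : ℂ) :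
    fderiv ℝ (tot a b φ) z v = a * (conj z * v).re + (conj b * z * v).re + fderiv ℝ φ z v := by
  have : fderiv ℝ (tot a b φ) z = fderiv ℝ (qd a b) z + fderiv ℝ φ z :=
    fderiv_add ((qd_contDiff a b).differentiable (by simp) _) (hφ.differentiable (by simp) _)
  rw [this, ContinuousLinearMap.add_apply, qd_fderiv]

/-- recover trace and deviator from the second derivatives of the total function -/
theorem tr_dev (a : ℝ) (b : ℂ) {φ : ℂ → ℝ} (hφ : ContDiff ℝ ∞ φ) (z : ℂ) :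
    a + hf φ z = (D2 (tot a b φ) z 1 1 + D2 (tot a b φ) z I I) / 2 ∧
    b + hh φ z = (((D2 (tot a b φ) z 1 1 - D2 (tot a b φ) z I I) / 2 : ℝ) : ℂ)
      + ((D2 (tot a b φ) z 1 I : ℝ) : ℂ) * I := by
  rw [tot_D2 a b hφ, tot_D2 a b hφ, tot_D2 a b hφ]
  unfold Sf
  constructor
  · simp
    ring
  · apply Complex.ext
    · simp
      ring
    · simp
      ring

/-- the transported function -/
def phi' (κ : ℂ → ℝ) (X : ℂ → ℂ) (N1 : ℂ → ℝ) (N2 : ℂ → ℂ) (a : ℝ) (b : ℂ) (φ : ℂ → ℝ) (t : ℝ)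
    (z : ℂ) : ℝ := φ (z + t • X z) + (2 * t + t ^ 2 * κ z) * (a / 2 * N1 z + (conj b * N2 z).re / 2)

theorem phi'_contDiff {κ : ℂ → ℝ} {X : ℂ → ℂ} {N1 : ℂ → ℝ} {N2 : ℂ → ℂ} (hF : HomField κ X N1 N2)
    (a : ℝ) (b : ℂ) {φ : ℂ → ℝ} (hφ : ContDiff ℝ ∞ φ) (t : ℝ) :
    ContDiff ℝ ∞ (phi' κ X N1 N2 a b φ t) := by
  unfold phi'
  have h1 := hF.sκ
  have h2 := hF.sX
  have h3 := hF.s1
  have h4 := hF.s2
  have h5 : ContDiff ℝ ∞ fun z => (conj b * N2 z).re :=
    Complex.reCLM.contDiff.comp (contDiff_const.mul h4)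
  have h6 : ContDiff ℝ ∞ fun z => z + t • X z := contDiff_id.add (h2.const_smul t)
  exact (hφ.comp h6).add ((contDiff_const.add (contDiff_const.mul h1)).mul
    ((contDiff_const.mul h3).add (h5.div_const 2)))

theorem phi'_per {κ : ℂ → ℝ} {X : ℂ → ℂ} {N1 : ℂ → ℝ} {N2 : ℂ → ℂ} (hF : HomField κ X N1 N2)
    (a : ℝ) (b : ℂ) {φ : ℂ → ℝ} (hφ : Per φ) (t : ℝ) :
    Per (phi' κ X N1 N2 a b φ t) := by
  intro z
  unfold phi'
  constructor
  · rw [(hF.pX z).1, (hF.pκ z).1, (hF.p1 z).1, (hF.p2 z).1,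
      show z + 1 + t • X z = (z + t • X z) + 1 by ring, (hφ _).1]
  · rw [(hF.pX z).2, (hF.pκ z).2, (hF.p1 z).2, (hF.p2 z).2,
      show z + I + t • X z = (z + t • X z) + I by ring, (hφ _).2]

/-- local formula for the transported total function -/
theorem tot_phi' {κ : ℂ → ℝ} {X : ℂ → ℂ} {N1 : ℂ → ℝ} {N2 : ℂ → ℂ}
    (a : ℝ) (b : ℂ) {φ : ℂ → ℝ} (t : ℝ) {z c₀ : ℂ} (h1 : X z = κ z • (z - c₀))
    (h2 : N1 z = κ z * ‖z - c₀‖ ^ 2) (h3 : N2 z = κ z • (z - c₀) ^ 2) :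
    tot a b (phi' κ X N1 N2 a b φ t) z =
      tot a b φ (z + t • X z) - t * (a * (conj c₀ * X z).re + (conj b * c₀ * X z).re) := by
  unfold tot phi'
  rw [qd_eq, qd_eq, h2, h3, h1, ← Complex.normSq_eq_norm_sq, Complex.normSq_apply]
  simp only [Complex.real_smul, mul_re, mul_im, add_re, add_im, sub_re, sub_im, conj_re, conj_im,
    ofReal_re, ofReal_im, pow_two]
  ring

theorem D2_phi' {κ : ℂ → ℝ} {X : ℂ → ℂ} {N1 : ℂ → ℝ} {N2 : ℂ → ℂ} (hF : HomField κ X N1 N2)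
    (a : ℝ) (b : ℂ) {φ : ℂ → ℝ} (hφ : ContDiff ℝ ∞ φ) (t : ℝ) {z c₀ : ℂ}
    (hl : ∀ᶠ z in 𝓝 z, X z = κ z • (z - c₀) ∧
      N1 z = κ z * ‖z - c₀‖ ^ 2 ∧ N2 z = κ z • (z - c₀) ^ 2) (h k : ℂ) :
    D2 (tot a b (phi' κ X N1 N2 a b φ t)) z h k =
      Sf (a + hf φ (z + t • X z)) (b + hh φ (z + t • X z)) (h + t • fderiv ℝ X z h)
        (k + t • fderiv ℝ X z k) +
      t * (a * (conj (z + t • X z - c₀) * D2 X z h k).re +
        (conj b * (z + t • X z - c₀) * D2 X z h k).re + fderiv ℝ φ (z + t • X z) (D2 X z h k)) := by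
  have e1 : tot a b (phi' κ X N1 N2 a b φ t) =ᶠ[𝓝 z] fun z =>
      tot a b φ (z + t • X z) + (-t) * (a * (conj c₀ * X z).re + (conj b * c₀ * X z).re) := by
    filter_upwards [hl] with w hw
    rw [tot_phi' a b t hw.1 hw.2.1 hw.2.2]; ring
  rw [D2_congr e1]
  have sX := hF.sX
  have sΨ : ContDiff ℝ ∞ fun z => z + t • X z := contDiff_id.add (sX.const_smul t)
  set L : ℂ →L[ℝ] ℝ := (-t) • (a • (Complex.reCLM.comp ((ContinuousLinearMap.mul ℝ ℂ) (conj c₀))) +
    Complex.reCLM.comp ((ContinuousLinearMap.mul ℝ ℂ) (conj b * c₀))) with hL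
  have e2 : (fun z => tot a b φ (z + t • X z) +
      (-t) * (a * (conj c₀ * X z).re + (conj b * c₀ * X z).re)) =
      fun z => (tot a b φ) (z + t • X z) + L (X z) := by
    ext w; simp [hL]; ring
  have hadd := D2_add (f := fun z => (tot a b φ) (z + t • X z)) (g := fun z => L (X z))
    ((tot_contDiff a b hφ).comp sΨ) (L.contDiff.comp sX) z h k
  have hcomp := D2_comp (A := tot a b φ) (Ψ := fun z => z + t • X z) (tot_contDiff a b hφ) sΨ z h k
  rw [e2, hadd, hcomp, D2_clm L sX, tot_D2 a b hφ, tot_fderiv a b hφ]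
  have e3 : ∀ v, fderiv ℝ (fun z => z + t • X z) z v = v + t • fderiv ℝ X z v := by
    intro v
    have : HasFDerivAt (fun z => z + t • X z) (ContinuousLinearMap.id ℝ ℂ + t • fderiv ℝ X z) z :=
      (hasFDerivAt_id z).add (((sX.differentiable (by simp)) z).hasFDerivAt.const_smul t)
    rw [this.fderiv]; simp
  have e4 : D2 (fun z => z + t • X z) z h k = t • D2 X z h k := by
    unfold D2
    have : fderiv ℝ (fun z => z + t • X z) = fun z => ContinuousLinearMap.id ℝ ℂ + t • fderiv ℝ X z := by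
      ext1 w
      exact ((hasFDerivAt_id w).add
        (((sX.differentiable (by simp)) w).hasFDerivAt.const_smul t)).fderiv
    rw [this]
    have h5 : HasFDerivAt (fun z => ContinuousLinearMap.id ℝ ℂ + t • fderiv ℝ X z)
        (t • fderiv ℝ (fderiv ℝ X) z) z :=
      ((diff_fderiv sX z).hasFDerivAt.const_smul t).const_add _
    rw [h5.fderiv]; rfl
  have e5 : fderiv ℝ φ (z + t • X z) (t • D2 X z h k) =
      t * fderiv ℝ φ (z + t • X z) (D2 X z h k) := by rw [map_smul, smul_eq_mul]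
  rw [e3, e3, e4, e5]
  generalize Sf _ _ _ _ = SS
  generalize fderiv ℝ φ (z + t • X z) (D2 X z h k) = FF'
  simp only [hL, ContinuousLinearMap.smul_apply, ContinuousLinearMap.add_apply,
    ContinuousLinearMap.comp_apply, ContinuousLinearMap.mul_apply', Complex.reCLM_apply,
    smul_eq_mul, map_smul, Complex.real_smul, map_sub, map_add]
  simp only [mul_re, mul_im, add_re, add_im, sub_re, sub_im, conj_re, conj_im,
    ofReal_re, ofReal_im, map_mul, conj_ofReal]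
  ring


/-- elementary estimate of the transported deviator -/
theorem dev_bound {α : ℝ} {η : ℂ} {t M : ℝ} (hM : 0 ≤ M) (ht : |t| ≤ 1) {p q : ℂ} (hp : ‖p‖ ≤ M)
    (hq : ‖q‖ ≤ M) {B : ℝ} {x11 xII x1I : ℝ} (h11 : |x11| ≤ B) (hII : |xII| ≤ B) (h1I : |x1I| ≤ B) :
    ‖(((Sf α η (1 + t • p) (1 + t • p) + t * x11 - (Sf α η (I + t • q) (I + t • q) + t * xII)) / 2 : ℝ) : ℂ)
      + ((Sf α η (1 + t • p) (I + t • q) + t * x1I : ℝ) : ℂ) * I‖ ≤
      ‖η‖ + |t| * (2 * ((2 * M + M ^ 2) * (|α| + ‖η‖)) + 2 * B) := by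
  have key : ∀ h k x y : ℂ, ‖h‖ = 1 → ‖k‖ = 1 → ‖x‖ ≤ M → ‖y‖ ≤ M →
      |Sf α η (h + t • x) (k + t • y) - Sf α η h k| ≤ |t| * ((2 * M + M ^ 2) * (|α| + ‖η‖)) := by
    intro h k x y hh hk hx hy
    have e : Sf α η (h + t • x) (k + t • y) - Sf α η h k =
        t * (Sf α η x k + Sf α η h y + t * Sf α η x y) := by
      unfold Sf
      simp only [Complex.real_smul, map_add, map_mul, conj_ofReal, mul_re, mul_im, add_re, add_im,
        conj_re, conj_im, ofReal_re, ofReal_im]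
      ring
    rw [e, abs_mul]
    refine mul_le_mul_of_nonneg_left ?_ (abs_nonneg _)
    have s0 : 0 ≤ |α| + ‖η‖ := by positivity
    have b1 : |Sf α η x k| ≤ (|α| + ‖η‖) * M := (Sf_bound α η x k).trans
      (mul_le_mul_of_nonneg_left (by rw [hk, mul_one]; exact hx) s0)
    have b2 : |Sf α η h y| ≤ (|α| + ‖η‖) * M := (Sf_bound α η h y).trans
      (mul_le_mul_of_nonneg_left (by rw [hh, one_mul]; exact hy) s0)
    have b3 : |t * Sf α η x y| ≤ (|α| + ‖η‖) * M ^ 2 := by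
      rw [abs_mul]
      calc |t| * |Sf α η x y| ≤ 1 * ((|α| + ‖η‖) * (‖x‖ * ‖y‖)) :=
            mul_le_mul ht (Sf_bound α η x y) (abs_nonneg _) zero_le_one
        _ ≤ 1 * ((|α| + ‖η‖) * (M * M)) := by gcongr
        _ = _ := by ring
    calc |Sf α η x k + Sf α η h y + t * Sf α η x y| ≤
        |Sf α η x k| + |Sf α η h y| + |t * Sf α η x y| := abs_add_three _ _ _
      _ ≤ (|α| + ‖η‖) * M + (|α| + ‖η‖) * M + (|α| + ‖η‖) * M ^ 2 := by gcongr
      _ = _ := by ring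
  have k11 := key 1 1 p p (by simp) (by simp) hp hp
  have kII := key I I q q (by simp) (by simp) hq hq
  have k1I := key 1 I p q (by simp) (by simp) hp hq
  set K := (2 * M + M ^ 2) * (|α| + ‖η‖) with hK
  have e0 : η = (((Sf α η 1 1 - Sf α η I I) / 2 : ℝ) : ℂ) + ((Sf α η 1 I : ℝ) : ℂ) * I := by
    unfold Sf
    apply Complex.ext
    · simp
    · simp
  have e1 : (((Sf α η (1 + t • p) (1 + t • p) + t * x11 - (Sf α η (I + t • q) (I + t • q) + t * xII)) / 2 : ℝ) : ℂ)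
      + ((Sf α η (1 + t • p) (I + t • q) + t * x1I : ℝ) : ℂ) * I =
      η + (((((Sf α η (1 + t • p) (1 + t • p) - Sf α η 1 1) + t * x11 -
        ((Sf α η (I + t • q) (I + t • q) - Sf α η I I) + t * xII)) / 2 : ℝ) : ℂ)
      + (((Sf α η (1 + t • p) (I + t • q) - Sf α η 1 I) + t * x1I : ℝ) : ℂ) * I) := by
    push_cast at e0 ⊢
    linear_combination (-1 : ℂ) * e0
  rw [e1]
  refine (norm_add_le _ _).trans ?_
  gcongr
  refine (norm_add_le _ _).trans ?_
  rw [norm_mul, norm_I, mul_one, Complex.norm_real, Complex.norm_real, Real.norm_eq_abs,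
    Real.norm_eq_abs]
  have c1 : |t * x11| ≤ |t| * B := by rw [abs_mul]; gcongr
  have c2 : |t * xII| ≤ |t| * B := by rw [abs_mul]; gcongr
  have c3 : |t * x1I| ≤ |t| * B := by rw [abs_mul]; gcongr
  have d1 := abs_le.mp k11
  have d2 := abs_le.mp kII
  have d3 := abs_le.mp k1I
  have f1 := abs_le.mp c1
  have f2 := abs_le.mp c2
  have f3 := abs_le.mp c3
  have g1 : |((Sf α η (1 + t • p) (1 + t • p) - Sf α η 1 1) + t * x11 -
        ((Sf α η (I + t • q) (I + t • q) - Sf α η I I) + t * xII)) / 2| ≤ |t| * K + |t| * B := by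
    rw [abs_le]; constructor <;> linarith [d1.1, d1.2, d2.1, d2.2, f1.1, f1.2, f2.1, f2.2]
  have g2 : |(Sf α η (1 + t • p) (I + t • q) - Sf α η 1 I) + t * x1I| ≤ |t| * K + |t| * B := by
    rw [abs_le]; constructor <;> linarith [d3.1, d3.2, f3.1, f3.2]
  calc _ ≤ (|t| * K + |t| * B) + (|t| * K + |t| * B) := add_le_add g1 g2
    _ = _ := by ring

theorem sq_bound {x y T : ℝ} (hT0 : 0 ≤ T) (hT1 : T ≤ 1) (hx : 0 ≤ x) (hy : 0 ≤ y)
    {N : ℝ} (hN0 : 0 ≤ N) (hN : N ≤ x + T * y) : N ^ 2 ≤ (1 + T) * x ^ 2 + 2 * T * y ^ 2 := by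
  have h1 : N ^ 2 ≤ (x + T * y) ^ 2 := by
    have : 0 ≤ x + T * y := by positivity
    nlinarith
  have h2 : (x + T * y) ^ 2 ≤ (1 + T) * x ^ 2 + (T + T ^ 2) * y ^ 2 := by
    nlinarith [mul_nonneg hT0 (sq_nonneg (x - y))]
  have h3 : (T + T ^ 2) * y ^ 2 ≤ 2 * T * y ^ 2 := by
    have : T ^ 2 ≤ T := by nlinarith
    nlinarith [sq_nonneg y]
  linarith


/-! ### coercivity -/

theorem volume_cell : volume cell = 1 := by
  have h : cell = Complex.measurableEquivRealProd ⁻¹' (Ico (0:ℝ) 1 ×ˢ Ico (0:ℝ) 1) := by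
    ext z; simp [cell, Complex.measurableEquivRealProd]
  rw [h, Complex.volume_preserving_equiv_real_prod.measure_preimage
    ((measurableSet_Ico.prod measurableSet_Ico).nullMeasurableSet), Measure.volume_eq_prod,
    Measure.prod_prod]
  simp

theorem int_cell {k : ℂ → ℝ} (hk : Continuous k) : IntegrableOn k cell volume := by
  have : cell ⊆ Metric.closedBall (0 : ℂ) 2 := by
    rintro w ⟨⟨h1, h2⟩, ⟨h3, h4⟩⟩
    rw [mem_closedBall_zero_iff]
    refine (Complex.norm_le_abs_re_add_abs_im _).trans ?_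
    rw [abs_of_nonneg h1, abs_of_nonneg h3]
    linarith
  exact (hk.continuousOn.integrableOn_compact (isCompact_closedBall _ _)).mono_set this

theorem cont_D2 {E : Type*} [NormedAddCommGroup E] [NormedSpace ℝ E] {φ : ℂ → E}
    (hφ : ContDiff ℝ ∞ φ) (h k : ℂ) : Continuous fun z => D2 φ z h k := by
  unfold D2
  have : Continuous (fderiv ℝ (fderiv ℝ φ)) :=
    (hφ.fderiv_right (m := ∞) (by simp)).continuous_fderiv (by simp)
  exact (this.clm_apply continuous_const).clm_apply continuous_const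

theorem cont_hf {φ : ℂ → ℝ} (hφ : ContDiff ℝ ∞ φ) : Continuous (hf φ) := by
  unfold hf
  exact ((cont_D2 hφ 1 1).add (cont_D2 hφ I I)).div_const 2

theorem cont_hh {φ : ℂ → ℝ} (hφ : ContDiff ℝ ∞ φ) : Continuous (hh φ) := by
  unfold hh
  have h1 := ((cont_D2 hφ 1 1).sub (cont_D2 hφ I I)).div_const 2
  have h2 := cont_D2 hφ 1 I
  exact (Complex.continuous_ofReal.comp h1).add
    ((Complex.continuous_ofReal.comp h2).mul continuous_const)

theorem per_D2 {E : Type*} [NormedAddCommGroup E] [NormedSpace ℝ E] {φ : ℂ → E} (hp : Per φ)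
    (h k : ℂ) : Per fun z => D2 φ z h k := by
  intro z
  have := per_fderiv (per_fderiv hp) z
  constructor
  · show (fderiv ℝ (fderiv ℝ φ) (z + 1) h) k = (fderiv ℝ (fderiv ℝ φ) z h) k
    rw [this.1]
  · show (fderiv ℝ (fderiv ℝ φ) (z + I) h) k = (fderiv ℝ (fderiv ℝ φ) z h) k
    rw [this.2]

theorem per_hf {φ : ℂ → ℝ} (hp : Per φ) : Per (hf φ) := by
  intro z
  have h1 := per_D2 hp 1 1 z
  have h2 := per_D2 hp I I z
  simp only at h1 h2
  unfold hf
  rw [h1.1, h1.2, h2.1, h2.2]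
  exact ⟨rfl, rfl⟩

theorem per_hh {φ : ℂ → ℝ} (hp : Per φ) : Per (hh φ) := by
  intro z
  have h1 := per_D2 hp 1 1 z
  have h2 := per_D2 hp I I z
  have h3 := per_D2 hp 1 I z
  simp only at h1 h2 h3
  unfold hh
  rw [h1.1, h1.2, h2.1, h2.2, h3.1, h3.2]
  exact ⟨rfl, rfl⟩

theorem coercive {θ : ℝ} (hθ : 0 < θ) : ∃ C ≥ 0, ∀ (S : Set ℂ), Composite S →
    θ ≤ (volume (cell \ S)).toReal → ∀ (a : ℝ) (b : ℂ) (φ : ℂ → ℝ) (ε : ℝ), SmoothPer φ →
    ∫ z in cell \ S, ((a + hf φ z) ^ 2 + ‖b + hh φ z‖ ^ 2) ≤ ε →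
    a ^ 2 + ‖b‖ ^ 2 + (∫ z in cell, (a + hf φ z) ^ 2) +
      (∫ z in cell, ((fderiv ℝ φ z 1) ^ 2 + (fderiv ℝ φ z I) ^ 2)) ≤
      C * (ε + ∫ z in cell, ‖b + hh φ z‖ ^ 2) := by
  obtain ⟨Cp, hCp, hP⟩ := poincare_grad
  refine ⟨4 / θ + 2 + 4 * Cp, by positivity, ?_⟩
  intro S hS hvol a b φ ε hφ hε
  obtain ⟨m1, m2⟩ := mean_hf_hh hφ
  have hiso := lap_isom hφ
  have hle := hess_le_lap hφ
  have hpo := hP φ hφ
  have ihf := int_cell (cont_hf hφ.1)
  have ihf2 : IntegrableOn (fun z => (hf φ z) ^ 2) cell volume := int_cell ((cont_hf hφ.1).pow 2)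
  have ihh2 : IntegrableOn (fun z => ‖hh φ z‖ ^ 2) cell volume :=
    int_cell ((cont_hh hφ.1).norm.pow 2)
  have hfin : volume cell ≠ ⊤ := by rw [volume_cell]; simp
  -- mean of |b+hh|²
  have ihh : IntegrableOn (hh φ) cell volume := by
    have h1 := int_cell (Complex.continuous_re.comp (cont_hh hφ.1))
    have h2 := int_cell (Complex.continuous_im.comp (cont_hh hφ.1))
    have : hh φ = fun z => (((hh φ z).re : ℝ) : ℂ) + (((hh φ z).im : ℝ) : ℂ) * I := by
      ext z; simp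
    rw [this]
    exact (h1.ofReal).add (h2.ofReal.mul_const _)
  have hPb : ∫ z in cell, ‖b + hh φ z‖ ^ 2 = ‖b‖ ^ 2 + ∫ z in cell, ‖hh φ z‖ ^ 2 := by
    have e : ∀ z, ‖b + hh φ z‖ ^ 2 = ‖b‖ ^ 2 + (2 * (conj b * hh φ z).re + ‖hh φ z‖ ^ 2) := by
      intro z
      rw [← Complex.normSq_eq_norm_sq, ← Complex.normSq_eq_norm_sq, ← Complex.normSq_eq_norm_sq,
        Complex.normSq_add]
      have : (b * conj (hh φ z)).re = (conj b * hh φ z).re := by simp
      rw [this]; ring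
    simp_rw [e]
    have i1 : IntegrableOn (fun z => 2 * (conj b * hh φ z).re) cell volume :=
      int_cell (continuous_const.mul (Complex.continuous_re.comp (continuous_const.mul (cont_hh hφ.1))))
    have hc : Integrable (fun _ : ℂ => ‖b‖ ^ 2) (volume.restrict cell) := by
      rw [integrable_const_iff]; right; constructor; simpa using hfin.lt_top
    have i2 : Integrable (fun z => 2 * (conj b * hh φ z).re + ‖hh φ z‖ ^ 2) (volume.restrict cell) :=
      i1.add ihh2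
    rw [integral_add hc i2, integral_add i1 ihh2, integral_const]
    have z1 : ∫ z in cell, 2 * (conj b * hh φ z).re = 0 := by
      rw [integral_const_mul]
      have : ∫ z in cell, (conj b * hh φ z).re = (∫ z in cell, conj b * hh φ z).re := by
        have := integral_re (𝕜 := ℂ) (f := fun z => conj b * hh φ z) (μ := volume.restrict cell)
          (ihh.const_mul _)
        simpa using this
      rw [this, integral_const_mul, m2]; simp
    rw [z1]
    simp [volume_cell, Measure.real]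
  have hQa : ∫ z in cell, (a + hf φ z) ^ 2 = a ^ 2 + ∫ z in cell, (hf φ z) ^ 2 := by
    have e : ∀ z, (a + hf φ z) ^ 2 = a ^ 2 + (2 * a * hf φ z + (hf φ z) ^ 2) := by
      intro z; ring
    simp_rw [e]
    have hc : Integrable (fun _ : ℂ => a ^ 2) (volume.restrict cell) := by
      rw [integrable_const_iff]; right; constructor; simpa using hfin.lt_top
    have i1 : Integrable (fun z => 2 * a * hf φ z) (volume.restrict cell) := ihf.const_mul _
    have i2 : Integrable (fun z => 2 * a * hf φ z + (hf φ z) ^ 2) (volume.restrict cell) := i1.add ihf2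
    rw [integral_add hc i2, integral_add i1 ihf2, integral_const, integral_const_mul, m1]
    simp [volume_cell, Measure.real]
  -- bound for a
  have hmc : MeasurableSet (cell \ S) := measurableSet_cell.diff hS.meas
  have ha : a ^ 2 * θ ≤ 2 * ε + 2 * ∫ z in cell, (hf φ z) ^ 2 := by
    have h1 : a ^ 2 * θ ≤ ∫ z in cell \ S, a ^ 2 := by
      rw [integral_const]
      simp only [Measure.real, Measure.restrict_apply MeasurableSet.univ, univ_inter, smul_eq_mul]
      nlinarith [sq_nonneg a]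
    have i0 : IntegrableOn (fun z => (a + hf φ z) ^ 2 + ‖b + hh φ z‖ ^ 2) (cell \ S) volume :=
      (int_cell (((continuous_const.add (cont_hf hφ.1)).pow 2).add
        ((continuous_const.add (cont_hh hφ.1)).norm.pow 2))).mono_set diff_subset
    have h2 : ∫ z in cell \ S, a ^ 2 ≤
        ∫ z in cell \ S, (2 * ((a + hf φ z) ^ 2 + ‖b + hh φ z‖ ^ 2) + 2 * (hf φ z) ^ 2) := by
      refine integral_mono_of_nonneg (Filter.Eventually.of_forall fun z => sq_nonneg a)
        ((i0.const_mul 2).add ((ihf2.mono_set diff_subset).const_mul 2))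
        (Filter.Eventually.of_forall fun z => ?_)
      simp only
      nlinarith [sq_nonneg (a + 2 * hf φ z), sq_nonneg ‖b + hh φ z‖]
    have h3 : ∫ z in cell \ S, (2 * ((a + hf φ z) ^ 2 + ‖b + hh φ z‖ ^ 2) + 2 * (hf φ z) ^ 2) =
        2 * (∫ z in cell \ S, ((a + hf φ z) ^ 2 + ‖b + hh φ z‖ ^ 2)) +
        2 * ∫ z in cell \ S, (hf φ z) ^ 2 := by
      rw [integral_add (i0.const_mul 2) ((ihf2.mono_set diff_subset).const_mul 2),
        integral_const_mul, integral_const_mul]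
    have h4 : ∫ z in cell \ S, (hf φ z) ^ 2 ≤ ∫ z in cell, (hf φ z) ^ 2 :=
      setIntegral_mono_set ihf2 (Filter.Eventually.of_forall fun z => sq_nonneg _)
        (Filter.Eventually.of_forall fun z hz => hz.1)
    linarith
  set A2 := ∫ z in cell, (hf φ z) ^ 2 with hA2
  have hA20 : 0 ≤ A2 := integral_nonneg fun z => sq_nonneg _
  have hε0 : 0 ≤ ε := le_trans (integral_nonneg fun z => by positivity) hε
  rw [hQa, hPb, hiso]
  have ha' : a ^ 2 ≤ 2 / θ * (ε + A2) := by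
    rw [div_mul_eq_mul_div, le_div_iff₀ hθ]; linarith
  have hpo' : ∫ z in cell, ((fderiv ℝ φ z 1) ^ 2 + (fderiv ℝ φ z I) ^ 2) ≤ 4 * Cp * A2 := by
    calc _ ≤ _ := hpo
      _ = 4 * Cp * A2 := by rw [hle]; ring
  have hb0 : 0 ≤ ‖b‖ ^ 2 := sq_nonneg _
  have hθ' : 0 ≤ 4 / θ := by positivity
  have e4 : 4 / θ = 2 * (2 / θ) := by ring
  have hc0 : 0 ≤ 4 / θ * ‖b‖ ^ 2 := by positivity
  nlinarith [mul_nonneg hθ' hb0, mul_nonneg hCp.le hb0, mul_nonneg hCp.le hε0]

end Tr1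
end EBC
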