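import Pool.Agent.Work.MP_ebc928_an.FluctBasic

open MeasureTheory Complex Set Filter Topology
open scoped ContDiff ComplexConjugate ENNReal Pointwise

noncomputable section
namespace EBC

/-! ### periodic functions and lattice maps (auxiliary) -/

theorem Per.wb_add_lat {α : Type*} {f : ℂ → α} (hf : Per f) (m n : ℤ) (z : ℂ) :
    f (z + ((m : ℂ) + (n : ℂ) * I)) = f z := by
  have h1 : Function.Periodic f (1 : ℂ) := fun z => (hf z).1
  have h2 : Function.Periodic f I := fun z => (hf z).2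
  have h1' := h1.int_mul m
  have h2' := h2.int_mul n
  have h3 := h1'.add_period h2'
  rw [mul_one] at h3
  exact h3 z

theorem wb_cell_eq_fd : cell = ZSpan.fundamentalDomain Complex.basisOneI := by
  ext z
  simp only [cell, mem_ofPred_eq, ZSpan.mem_fundamentalDomain, Fin.forall_fin_two]
  simp [Complex.basisOneI]

theorem wb_measurableSet_cell₁ : MeasurableSet cell := by
  rw [wb_cell_eq_fd]
  exact ZSpan.fundamentalDomain_measurableSet _

theorem wb_volume_cell₁ : (volume : Measure ℂ) cell = 1 := by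
  have h : cell = Complex.measurableEquivRealProd ⁻¹' (Ico (0 : ℝ) 1 ×ˢ Ico (0 : ℝ) 1) := by
    ext z; simp [cell, Complex.measurableEquivRealProd_apply]
  rw [h, Complex.volume_preserving_equiv_real_prod.measure_preimage_equiv]
  rw [Measure.volume_eq_prod, Measure.prod_prod]
  simp

theorem wb_mem_span_lat (g : (Submodule.span ℤ (Set.range Complex.basisOneI)).toAddSubgroup) :
    ∃ m n : ℤ, (g : ℂ) = (m : ℂ) + (n : ℂ) * I := by
  have h := (Complex.basisOneI.mem_span_iff_repr_mem ℤ (g : ℂ)).1 g.2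
  obtain ⟨m, hm⟩ := h 0
  obtain ⟨n, hn⟩ := h 1
  refine ⟨m, n, ?_⟩
  simp [Complex.basisOneI] at hm hn
  apply Complex.ext
  · simpa using hm.symm
  · simpa using hn.symm

theorem wb_isFD_cell : IsAddFundamentalDomain (Submodule.span ℤ (Set.range Complex.basisOneI)).toAddSubgroup
    cell (volume : Measure ℂ) := by
  rw [wb_cell_eq_fd]
  exact ZSpan.isAddFundamentalDomain' _ _

theorem wb_isFD_cell_add (w : ℂ) :
    IsAddFundamentalDomain (Submodule.span ℤ (Set.range Complex.basisOneI)).toAddSubgroup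
      (w +ᵥ cell) (volume : Measure ℂ) :=
  wb_isFD_cell.vadd_of_comm w

instance wb_countable : Countable (Submodule.span ℤ (Set.range Complex.basisOneI)).toAddSubgroup := by
  choose m n hmn using fun g => wb_mem_span_lat g
  have h : Function.Injective
      (fun g : (Submodule.span ℤ (Set.range Complex.basisOneI)).toAddSubgroup => (m g, n g)) := by
    intro g g' h
    apply Subtype.ext
    have h3 : m g = m g' := congrArg Prod.fst h
    have h4 : n g = n g' := congrArg Prod.snd h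
    rw [hmn g, hmn g', h3, h4]
  exact h.countable

theorem wb_setLIntegral_cell_add {g : ℂ → ℝ≥0∞} (hg : Per g) (w : ℂ) :
    ∫⁻ z in cell, g (z + w) = ∫⁻ z in cell, g z := by
  have h1 : ∫⁻ z in cell, g (z + w) = ∫⁻ z in (w +ᵥ cell), g z := by
    have hmp : MeasurePreserving (fun z : ℂ => z + w) volume volume :=
      measurePreserving_add_right volume w
    have h := hmp.setLIntegral_comp_preimage_emb (MeasurableEquiv.addRight w).measurableEmbedding g
      (w +ᵥ cell)
    rw [← h]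
    congr 1
    congr 1
    ext z
    simp only [Set.mem_preimage, Set.mem_vadd_set_iff_neg_vadd_mem, vadd_eq_add]
    simp
  rw [h1]
  refine (wb_isFD_cell_add w).setLIntegral_eq wb_isFD_cell g ?_
  intro l z
  obtain ⟨m, n, hl⟩ := wb_mem_span_lat l
  have : l +ᵥ z = z + ((m : ℂ) + (n : ℂ) * I) := by
    rw [← hl, add_comm]; rfl
  rw [this, hg.wb_add_lat]

/-- invertible real-linear maps of the plane which map `ℤ[i]` into itself -/
structure LatMap (T : ℂ ≃L[ℝ] ℂ) : Prop where
  one : ∃ m n : ℤ, T 1 = (m : ℂ) + (n : ℂ) * I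
  I : ∃ m n : ℤ, T I = (m : ℂ) + (n : ℂ) * I

theorem LatMap.per {α : Type*} {f : ℂ → α} {T : ℂ ≃L[ℝ] ℂ} (hT : LatMap T) (hf : Per f) :
    Per (fun z => f (T z)) := by
  intro z
  obtain ⟨m, n, h1⟩ := hT.one
  obtain ⟨p, q, h2⟩ := hT.I
  simp only [map_add, h1, h2, hf.wb_add_lat, and_self]

theorem wb_setLIntegral_cell_comp {T : ℂ ≃L[ℝ] ℂ} (hT : LatMap T) {g : ℂ → ℝ≥0∞} (hg : Per g)
    (hm : Measurable g) : ∫⁻ z in cell, g (T z) = ∫⁻ z in cell, g z := by
  have hc : (volume.restrict cell) (univ : Set ℂ) = 1 := by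
    rw [Measure.restrict_apply_univ, wb_volume_cell₁]
  calc ∫⁻ z in cell, g (T z) = ∫⁻ _ in cell, ∫⁻ z in cell, g (T z) := by
        rw [lintegral_const, hc, mul_one]
    _ = ∫⁻ a in cell, ∫⁻ z in cell, g (T z + a) := by
        refine lintegral_congr (fun a => ?_)
        have h := wb_setLIntegral_cell_add (hT.per hg) (T.symm a)
        simp only [map_add, ContinuousLinearEquiv.apply_symm_apply] at h
        exact h.symm
    _ = ∫⁻ z in cell, ∫⁻ a in cell, g (T z + a) := by
        apply lintegral_lintegral_swap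
        apply Measurable.aemeasurable
        exact hm.comp ((T.continuous.measurable.comp measurable_snd).add measurable_fst)
    _ = ∫⁻ _ in cell, ∫⁻ a in cell, g a := by
        refine lintegral_congr (fun z => ?_)
        have h := wb_setLIntegral_cell_add hg (T z)
        rw [← h]
        simp only [add_comm]
    _ = ∫⁻ z in cell, g z := by
        rw [lintegral_const, hc, mul_one]

/-- reduction modulo `ℤ[i]` -/
def wbRed (z : ℂ) : ℂ := ⟨Int.fract z.re, Int.fract z.im⟩

theorem wb_measurable_redC : Measurable wbRed := by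
  have h : wbRed = fun z : ℂ => Complex.measurableEquivRealProd.symm
      (Int.fract z.re, Int.fract z.im) := by
    funext z; apply Complex.ext <;> simp [wbRed, Complex.measurableEquivRealProd]
  rw [h]
  exact Complex.measurableEquivRealProd.symm.measurable.comp
    ((measurable_fract.comp Complex.measurable_re).prodMk
      (measurable_fract.comp Complex.measurable_im))

theorem Per.wb_red {α : Type*} {f : ℂ → α} (hf : Per f) (z : ℂ) : f (EBC.wbRed z) = f z := by
  have h := hf.wb_add_lat ⌊z.re⌋ ⌊z.im⌋ (EBC.wbRed z)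
  rw [← h]
  congr 1
  apply Complex.ext
  · simp [EBC.wbRed, Int.fract_add_floor]
  · simp [EBC.wbRed, Int.fract_add_floor]

theorem wb_redC_mem (z : ℂ) : wbRed z ∈ cell :=
  ⟨⟨Int.fract_nonneg _, Int.fract_lt_one _⟩, ⟨Int.fract_nonneg _, Int.fract_lt_one _⟩⟩

theorem wb_redC_per : Per wbRed := by
  intro z
  constructor <;> apply Complex.ext <;> simp [wbRed]

theorem wb_redC_of_mem {z : ℂ} (hz : z ∈ cell) : wbRed z = z := by
  apply Complex.ext
  · exact Int.fract_eq_self.2 hz.1
  · exact Int.fract_eq_self.2 hz.2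

theorem wb_mp_redC {T : ℂ ≃L[ℝ] ℂ} (hT : LatMap T) :
    MeasurePreserving (fun z => wbRed (T z)) (volume.restrict cell) (volume.restrict cell) := by
  have hmeas : Measurable (fun z => wbRed (T z)) := wb_measurable_redC.comp T.continuous.measurable
  refine ⟨hmeas, ?_⟩
  ext A hA
  rw [Measure.map_apply hmeas hA]
  have h1 : Per (fun z => A.indicator (1 : ℂ → ℝ≥0∞) (wbRed z)) := by
    intro z
    constructor
    · simp only [(wb_redC_per z).1]
    · simp only [(wb_redC_per z).2]
  have h2 := wb_setLIntegral_cell_comp hT h1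
    ((measurable_one.indicator hA).comp wb_measurable_redC)
  have h3 : ∫⁻ z in cell, A.indicator (1 : ℂ → ℝ≥0∞) (wbRed (T z))
      = (volume.restrict cell) ((fun z => wbRed (T z)) ⁻¹' A) := by
    exact lintegral_indicator_one (μ := volume.restrict cell) (hmeas hA)
  have h4 : ∫⁻ z in cell, A.indicator (1 : ℂ → ℝ≥0∞) (wbRed z) = (volume.restrict cell) A := by
    rw [← lintegral_indicator_one hA]
    refine setLIntegral_congr_fun wb_measurableSet_cell₁ (fun z hz => ?_)
    rw [wb_redC_of_mem hz]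
  rw [← h3, h2, h4]

theorem LatMap.memLp {E : Type*} [NormedAddCommGroup E] {f : ℂ → E} {T : ℂ ≃L[ℝ] ℂ}
    (hT : LatMap T) (hf : Per f) {p : ℝ≥0∞} (h : MemLp f p (volume.restrict cell)) :
    MemLp (fun z => f (T z)) p (volume.restrict cell) := by
  have h1 := h.comp_measurePreserving (wb_mp_redC hT)
  have h2 : (f ∘ fun z => wbRed (T z)) = fun z => f (T z) := by
    funext z; exact hf.wb_red (T z)
  rwa [h2] at h1

theorem wb_map_clequiv_eq (T : ℂ ≃L[ℝ] ℂ) :
    (volume : Measure ℂ).map T = ENNReal.ofReal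
      |(LinearMap.det (T : ℂ →ₗ[ℝ] ℂ))⁻¹| • (volume : Measure ℂ) := by
  have hd : LinearMap.det (T : ℂ →ₗ[ℝ] ℂ) ≠ 0 := T.toLinearEquiv.isUnit_det'.ne_zero
  exact Measure.map_linearMap_addHaar_eq_smul_addHaar (volume : Measure ℂ) hd

theorem wb_map_clequiv_ac (T : ℂ ≃L[ℝ] ℂ) :
    (volume : Measure ℂ).map T ≪ volume := by
  rw [wb_map_clequiv_eq]
  exact Measure.smul_absolutelyContinuous

theorem LatMap.wb_aesm_iff {E : Type*} [NormedAddCommGroup E] {f : ℂ → E} {T : ℂ ≃L[ℝ] ℂ}
    (hT : LatMap T) (hf : Per f) :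
    AEStronglyMeasurable (fun z => f (T z)) (volume.restrict cell) ↔
      AEStronglyMeasurable f (volume.restrict cell) := by
  constructor
  · intro h
    have hcover : cell ⊆ ⋃ l : ℤ × ℤ, (fun z : ℂ => z + ((l.1 : ℂ) + (l.2 : ℂ) * Complex.I)) ⁻¹'
        (T '' cell) := by
      intro z _
      have h1 := hT
      set w := T.symm z with hw
      set v : ℂ := w - wbRed w with hv
      have hvv : v = ((⌊w.re⌋ : ℤ) : ℂ) + ((⌊w.im⌋ : ℤ) : ℂ) * Complex.I := by
        apply Complex.ext
        · simp [hv, wbRed]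
        · simp [hv, wbRed]
      obtain ⟨m, n, hm⟩ := hT.one
      obtain ⟨p, q, hp⟩ := hT.I
      have hTv : T v = (((⌊w.re⌋ * m + ⌊w.im⌋ * p : ℤ)) : ℂ)
          + (((⌊w.re⌋ * n + ⌊w.im⌋ * q : ℤ)) : ℂ) * Complex.I := by
        have e1 : v = (⌊w.re⌋ : ℝ) • (1 : ℂ) + (⌊w.im⌋ : ℝ) • Complex.I := by
          rw [hvv]; simp
        rw [e1, map_add, map_smul, map_smul, hm, hp]
        simp only [Complex.real_smul]
        push_cast
        ring
      refine mem_iUnion.2 ⟨(-(⌊w.re⌋ * m + ⌊w.im⌋ * p), -(⌊w.re⌋ * n + ⌊w.im⌋ * q)), ?_⟩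
      refine ⟨wbRed w, wb_redC_mem w, ?_⟩
      have e2 : wbRed w = w - v := by rw [hv]; ring
      rw [e2, map_sub, hw, ContinuousLinearEquiv.apply_symm_apply, ← hw, hTv]
      push_cast
      ring
    have hTc : AEStronglyMeasurable f (volume.restrict (T '' cell)) := by
      have h2 : MeasurePreserving T.symm (volume.restrict (T '' cell))
          ((volume.restrict (T '' cell)).map T.symm) := ⟨T.symm.continuous.measurable, rfl⟩
      have h3 : (volume.restrict (T '' cell)).map T.symm ≪ volume.restrict cell := by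
        have h6 : T '' cell = T.symm ⁻¹' cell := by
          ext z
          constructor
          · rintro ⟨w, hw, rfl⟩
            simpa using hw
          · intro hz
            exact ⟨T.symm z, hz, by simp⟩
        have hme : MeasurableEmbedding T.symm := T.symm.toHomeomorph.measurableEmbedding
        rw [h6, ← hme.restrict_map volume cell]
        exact (wb_map_clequiv_ac T.symm).restrict cell
      have h4 := (h.mono_ac h3).comp_measurePreserving h2
      have h5 : ((fun z => f (T z)) ∘ T.symm) = f := by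
        funext z; simp
      rwa [h5] at h4
    have hall : AEStronglyMeasurable f (volume.restrict
        (⋃ l : ℤ × ℤ, (fun z : ℂ => z + ((l.1 : ℂ) + (l.2 : ℂ) * Complex.I)) ⁻¹' (T '' cell))) := by
      rw [aestronglyMeasurable_iUnion_iff]
      intro l
      have h2 : MeasurePreserving (fun z : ℂ => z + ((l.1 : ℂ) + (l.2 : ℂ) * Complex.I))
          (volume.restrict ((fun z : ℂ => z + ((l.1 : ℂ) + (l.2 : ℂ) * Complex.I)) ⁻¹' (T '' cell)))
          (volume.restrict (T '' cell)) :=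
        (measurePreserving_add_right volume _).restrict_preimage_emb
          (MeasurableEquiv.addRight _).measurableEmbedding _
      have h3 := hTc.comp_measurePreserving h2
      have h4 : (f ∘ fun z : ℂ => z + ((l.1 : ℂ) + (l.2 : ℂ) * Complex.I)) = f := by
        funext z; exact hf.wb_add_lat _ _ z
      rwa [h4] at h3
    exact hall.mono_measure (Measure.restrict_mono hcover le_rfl)
  · intro h
    have h1 := h.comp_measurePreserving (wb_mp_redC hT)
    have h2 : (f ∘ fun z => wbRed (T z)) = fun z => f (T z) := by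
      funext z; exact hf.wb_red (T z)
    rwa [h2] at h1

theorem wb_setIntegral_cell_comp {E : Type*} [NormedAddCommGroup E] [NormedSpace ℝ E] {F : ℂ → E}
    (hF : Per F) {T : ℂ ≃L[ℝ] ℂ} (hT : LatMap T) :
    ∫ z in cell, F (T z) = ∫ z in cell, F z := by
  by_cases h : AEStronglyMeasurable F (volume.restrict cell)
  · have hmp := wb_mp_redC hT
    have h1 : AEStronglyMeasurable F ((volume.restrict cell).map (fun z => wbRed (T z))) := by
      rw [hmp.map_eq]; exact h
    have h2 := integral_map hmp.measurable.aemeasurable h1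
    rw [hmp.map_eq] at h2
    rw [h2]
    simp only [hF.wb_red]
  · have h' : ¬ AEStronglyMeasurable (fun z => F (T z)) (volume.restrict cell) := by
      rwa [hT.wb_aesm_iff hF]
    rw [integral_non_aestronglyMeasurable h, integral_non_aestronglyMeasurable h']


/-! ### local integrability, composition with lattice maps -/

theorem Per.wb_memLp_add {E : Type*} [NormedAddCommGroup E] {f : ℂ → E} (hf : Per f) {p : ℝ≥0∞}
    (h : MemLp f p (volume.restrict cell)) (m n : ℤ) :
    MemLp f p (volume.restrict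
      ((fun z : ℂ => z + ((m : ℂ) + (n : ℂ) * Complex.I)) ⁻¹' cell)) := by
  have h2 : MeasurePreserving (fun z : ℂ => z + ((m : ℂ) + (n : ℂ) * Complex.I))
      (volume.restrict ((fun z : ℂ => z + ((m : ℂ) + (n : ℂ) * Complex.I)) ⁻¹' cell))
      (volume.restrict cell) :=
    (measurePreserving_add_right volume _).restrict_preimage_emb
      (MeasurableEquiv.addRight _).measurableEmbedding _
  have h3 := h.comp_measurePreserving h2
  have h4 : (f ∘ fun z : ℂ => z + ((m : ℂ) + (n : ℂ) * Complex.I)) = f := by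
    funext z; exact hf.wb_add_lat _ _ z
  rwa [h4] at h3

theorem Per.wb_integrableOn_ball {E : Type*} [NormedAddCommGroup E] {f : ℂ → E} (hf : Per f)
    (h : IntegrableOn f cell) (R : ℝ) : IntegrableOn f (Metric.closedBall 0 R) := by
  obtain ⟨N, hN⟩ := exists_nat_ge (R + 1)
  have hcov : Metric.closedBall (0 : ℂ) R ⊆ ⋃ l ∈ (Finset.Icc (-(N : ℤ)) N ×ˢ Finset.Icc (-(N : ℤ)) N),
      (fun z : ℂ => z + (((l.1 : ℤ) : ℂ) + ((l.2 : ℤ) : ℂ) * Complex.I)) ⁻¹' cell := by
    intro z hz
    rw [mem_closedBall_zero_iff] at hz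
    have h1 := (Complex.abs_re_le_norm z).trans hz
    have h2 := (Complex.abs_im_le_norm z).trans hz
    rw [abs_le] at h1 h2
    simp only [mem_iUnion]
    refine ⟨(-⌊z.re⌋, -⌊z.im⌋), ?_, ?_⟩
    · simp only [Finset.mem_product, Finset.mem_Icc]
      have a1 : ⌊z.re⌋ ≤ (N : ℤ) := by
        have : (⌊z.re⌋ : ℝ) ≤ N := (Int.floor_le _).trans (by linarith)
        exact_mod_cast this
      have a2 : -(N : ℤ) ≤ ⌊z.re⌋ := by
        apply Int.le_floor.2
        push_cast
        linarith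
      have a3 : ⌊z.im⌋ ≤ (N : ℤ) := by
        have : (⌊z.im⌋ : ℝ) ≤ N := (Int.floor_le _).trans (by linarith)
        exact_mod_cast this
      have a4 : -(N : ℤ) ≤ ⌊z.im⌋ := by
        apply Int.le_floor.2
        push_cast
        linarith
      omega
    · have e : z + (((-⌊z.re⌋ : ℤ) : ℂ) + ((-⌊z.im⌋ : ℤ) : ℂ) * Complex.I) = EBC.wbRed z := by
        apply Complex.ext
        · simp [EBC.wbRed, Int.fract, sub_eq_add_neg]
        · simp [EBC.wbRed, Int.fract, sub_eq_add_neg]
      change z + (((-⌊z.re⌋ : ℤ) : ℂ) + ((-⌊z.im⌋ : ℤ) : ℂ) * Complex.I) ∈ cell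
      rw [e]
      exact wb_redC_mem z
  refine IntegrableOn.mono_set ?_ hcov
  rw [integrableOn_finset_iUnion]
  intro l _
  have h1 := hf.wb_memLp_add (memLp_one_iff_integrable.2 h) l.1 l.2
  exact memLp_one_iff_integrable.1 h1

theorem Per.wb_locallyIntegrable {E : Type*} [NormedAddCommGroup E] {f : ℂ → E} (hf : Per f)
    (h : IntegrableOn f cell) : LocallyIntegrable f := by
  rw [locallyIntegrable_iff]
  intro K hK
  obtain ⟨R, hR⟩ := hK.isBounded.subset_closedBall (0 : ℂ)
  exact (hf.wb_integrableOn_ball h R).mono_set hR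

instance wb_finite : IsFiniteMeasure (volume.restrict cell) :=
  ⟨by rw [Measure.restrict_apply_univ, wb_volume_cell₁]; exact ENNReal.one_lt_top⟩

theorem Per.wb_locallyIntegrable_of_memLp {f : ℂ → ℂ} (hf : Per f)
    (h : MemLp f 2 (volume.restrict cell)) : LocallyIntegrable f :=
  hf.wb_locallyIntegrable (h.integrable (by norm_num))

theorem wb_integrable_cc_smul {f : ℂ → ℂ} (hf : LocallyIntegrable f) {φ : ℂ → ℝ}
    (hφ : Continuous φ) (hs : HasCompactSupport φ) : Integrable (fun z => φ z • f z) :=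
  hf.integrable_smul_left_of_hasCompactSupport hφ hs

/-- composition with a lattice map -/
theorem Fluct.wb_comp {u ux uy : ℂ → ℂ} (hu : Fluct u ux uy) {T : ℂ ≃L[ℝ] ℂ} (hT : LatMap T) :
    Fluct (fun z => u (T z))
      (fun z => (T 1).re • ux (T z) + (T 1).im • uy (T z))
      (fun z => (T Complex.I).re • ux (T z) + (T Complex.I).im • uy (T z)) := by
  have hw : ∀ e : ℂ, WeakDeriv e (fun z => u (T z))
      (fun z => (T e).re • ux (T z) + (T e).im • uy (T z)) := by
    intro e φ hφ hφs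
    set ψ : ℂ → ℝ := fun w => φ (T.symm w) with hψ
    have hψc : ContDiff ℝ ∞ ψ := hφ.comp T.symm.contDiff
    have hψs : HasCompactSupport ψ := hφs.comp_homeomorph T.symm.toHomeomorph
    have hint : ∀ g : ℂ → ℂ, ∫ z, g (T z)
        = |(LinearMap.det (T : ℂ →ₗ[ℝ] ℂ))⁻¹| • ∫ z, g z := by
      intro g
      have h1 := integral_map_equiv T.toHomeomorph.toMeasurableEquiv g (μ := (volume : Measure ℂ))
      have h2 : (volume : Measure ℂ).map T.toHomeomorph.toMeasurableEquiv
          = ENNReal.ofReal |(LinearMap.det (T : ℂ →ₗ[ℝ] ℂ))⁻¹| • (volume : Measure ℂ) :=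
        wb_map_clequiv_eq T
      rw [h2, integral_smul_measure, ENNReal.toReal_ofReal (abs_nonneg _)] at h1
      exact h1.symm
    have hfd : ∀ z, fderiv ℝ φ z e = fderiv ℝ ψ (T z) (T e) := by
      intro z
      have h1 : φ = fun w => ψ (T w) := by funext w; simp [hψ]
      conv_lhs => rw [h1]
      have h2 : fderiv ℝ (fun w => ψ (T w)) z = (fderiv ℝ ψ (T z)).comp (T : ℂ →L[ℝ] ℂ) := by
        have h3 : DifferentiableAt ℝ ψ (T z) := (hψc.differentiable (by simp)) (T z)
        have h4 := h3.hasFDerivAt.comp z T.hasFDerivAt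
        exact h4.fderiv
      rw [h2]
      rfl
    have hL : ∫ z, (fderiv ℝ φ z e) • u (T z)
        = |(LinearMap.det (T : ℂ →ₗ[ℝ] ℂ))⁻¹| • ∫ z, (fderiv ℝ ψ z (T e)) • u z := by
      rw [← hint]
      simp only [hfd]
    have hR : ∫ z, φ z • ((T e).re • ux (T z) + (T e).im • uy (T z))
        = |(LinearMap.det (T : ℂ →ₗ[ℝ] ℂ))⁻¹| •
          ∫ z, ψ z • ((T e).re • ux z + (T e).im • uy z) := by
      rw [← hint]
      simp only [hψ, ContinuousLinearEquiv.symm_apply_apply]
    rw [hL, hR]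
    have hu1 := hu.wx ψ hψc hψs
    have hu2 := hu.wy ψ hψc hψs
    have lu := hu.per.wb_locallyIntegrable_of_memLp hu.mem
    have lux := hu.perx.wb_locallyIntegrable_of_memLp hu.memx
    have luy := hu.pery.wb_locallyIntegrable_of_memLp hu.memy
    have hcd : ∀ v : ℂ, Continuous (fun z => fderiv ℝ ψ z v) := fun v =>
      (hψc.continuous_fderiv (by simp)).clm_apply continuous_const
    have hcs : ∀ v : ℂ, HasCompactSupport (fun z => fderiv ℝ ψ z v) := fun v =>
      hψs.fderiv_apply ℝ v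
    have hlin : ∀ z, fderiv ℝ ψ z (T e)
        = (T e).re • fderiv ℝ ψ z 1 + (T e).im • fderiv ℝ ψ z Complex.I := by
      intro z
      have h1 : T e = (T e).re • (1 : ℂ) + (T e).im • Complex.I := by
        simp [Complex.re_add_im]
      conv_lhs => rw [h1]
      rw [map_add, map_smul, map_smul]
    have i1 : Integrable (fun z => (fderiv ℝ ψ z 1) • u z) := wb_integrable_cc_smul lu (hcd 1) (hcs 1)
    have i2 : Integrable (fun z => (fderiv ℝ ψ z Complex.I) • u z) :=
      wb_integrable_cc_smul lu (hcd _) (hcs _)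
    have i3 : Integrable (fun z => ψ z • ux z) := wb_integrable_cc_smul lux hψc.continuous hψs
    have i4 : Integrable (fun z => ψ z • uy z) := wb_integrable_cc_smul luy hψc.continuous hψs
    have e1 : ∫ z, (fderiv ℝ ψ z (T e)) • u z
        = (T e).re • (∫ z, (fderiv ℝ ψ z 1) • u z)
          + (T e).im • (∫ z, (fderiv ℝ ψ z Complex.I) • u z) := by
      rw [← integral_smul, ← integral_smul]
      have h5 := integral_add (i1.smul (T e).re) (i2.smul (T e).im)
      simp only [Pi.smul_apply] at h5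
      rw [← h5]
      refine integral_congr_ae (ae_of_all _ fun z => ?_)
      simp only [hlin, smul_eq_mul]
      simp only [add_smul, mul_smul]
    have e2 : ∫ z, ψ z • ((T e).re • ux z + (T e).im • uy z)
        = (T e).re • (∫ z, ψ z • ux z) + (T e).im • (∫ z, ψ z • uy z) := by
      rw [← integral_smul, ← integral_smul]
      have h5 := integral_add (i3.smul (T e).re) (i4.smul (T e).im)
      simp only [Pi.smul_apply] at h5
      rw [← h5]
      refine integral_congr_ae (ae_of_all _ fun z => ?_)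
      simp only [smul_add]
      rw [smul_comm (ψ z) (T e).re, smul_comm (ψ z) (T e).im]
    rw [e1, e2, hu1, hu2]
    simp only [smul_neg, smul_add]
    abel
  have hm : ∀ e : ℂ, MemLp (fun z => (T e).re • ux (T z) + (T e).im • uy (T z)) 2
      (volume.restrict cell) := fun e =>
    ((hT.memLp hu.perx hu.memx).const_smul (T e).re).add
      ((hT.memLp hu.pery hu.memy).const_smul (T e).im)
  exact
    { per := hT.per hu.per
      perx := by
        intro z
        have h1 := hT.per hu.perx z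
        have h2 := hT.per hu.pery z
        simp only at h1 h2 ⊢
        rw [h1.1, h1.2, h2.1, h2.2]
        exact ⟨rfl, rfl⟩
      pery := by
        intro z
        have h1 := hT.per hu.perx z
        have h2 := hT.per hu.pery z
        simp only at h1 h2 ⊢
        rw [h1.1, h1.2, h2.1, h2.2]
        exact ⟨rfl, rfl⟩
      mem := hT.memLp hu.per hu.mem
      memx := hm 1
      memy := hm Complex.I
      wx := hw 1
      wy := hw Complex.I }


/-! ### the energy form -/

/-- `∂_z̄` of the fluctuation is square integrable -/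
theorem Fluct.wb_memLp_dbar {u ux uy : ℂ → ℂ} (hu : Fluct u ux uy) (β : ℂ) :
    MemLp (fun z => β + (ux z + Complex.I * uy z) / 2) 2 (volume.restrict cell) := by
  have h1 : MemLp (fun z => Complex.I * uy z) 2 (volume.restrict cell) := hu.memy.const_mul _
  have h2 : MemLp (fun z => (1 / 2 : ℂ) * (ux z + Complex.I * uy z)) 2 (volume.restrict cell) :=
    (hu.memx.add h1).const_mul _
  have h3 : MemLp (fun _ : ℂ => β) 2 (volume.restrict cell) := memLp_const β
  have h4 := h3.add h2
  have h5 : ((fun _ : ℂ => β) + fun z => (1 / 2 : ℂ) * (ux z + Complex.I * uy z))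
      = fun z => β + (ux z + Complex.I * uy z) / 2 := by
    funext z
    simp only [Pi.add_apply]
    ring
  rwa [h5] at h4

theorem Fluct.wb_integrable_energy {u ux uy : ℂ → ℂ} (hu : Fluct u ux uy) (β : ℂ) :
    IntegrableOn (fun z => 4 * ‖β + (ux z + Complex.I * uy z) / 2‖ ^ 2) cell := by
  have h1 := (memLp_two_iff_integrable_sq_norm (hu.wb_memLp_dbar β).1).1 (hu.wb_memLp_dbar β)
  exact h1.const_mul 4

theorem Fluct.wb_integrable_energy₁ {u ux uy : ℂ → ℂ} (hu : Fluct u ux uy) (β : ℂ) (S : Set ℂ) :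
    IntegrableOn (fun z => 4 * ‖β + (ux z + Complex.I * uy z) / 2‖ ^ 2) (cell ∩ S) :=
  (hu.wb_integrable_energy β).mono_set inter_subset_left

theorem energy_nonneg (S : Set ℂ) (β : ℂ) (ux uy : ℂ → ℂ) : 0 ≤ energy S β ux uy := by
  unfold energy
  exact integral_nonneg (fun z => by positivity)

theorem wb_W_bddBelow (S : Set ℂ) (α : ℝ) (β : ℂ) :
    BddBelow {e | ∃ u ux uy, Adm S α u ux uy ∧ e = energy S β ux uy} := by
  refine ⟨0, ?_⟩
  rintro e ⟨u, ux, uy, _, rfl⟩
  exact energy_nonneg _ _ _ _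

theorem W_nonneg (S : Set ℂ) (α : ℝ) (β : ℂ) : 0 ≤ W S α β := by
  apply Real.sInf_nonneg
  rintro e ⟨u, ux, uy, _, rfl⟩
  exact energy_nonneg _ _ _ _

theorem W_le {S : Set ℂ} {α : ℝ} {u ux uy : ℂ → ℂ} (h : Adm S α u ux uy) (β : ℂ) :
    W S α β ≤ energy S β ux uy :=
  csInf_le (wb_W_bddBelow S α β) ⟨u, ux, uy, h, rfl⟩

/-- inf is approached -/
theorem exists_lt_of_W_lt {S : Set ℂ} {α : ℝ} {β : ℂ} (hne : ∃ u ux uy, Adm S α u ux uy) {x : ℝ}
    (hx : W S α β < x) : ∃ u ux uy, Adm S α u ux uy ∧ energy S β ux uy < x := by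
  obtain ⟨u, ux, uy, h⟩ := hne
  obtain ⟨e, ⟨v, vx, vy, hv, rfl⟩, he⟩ := exists_lt_of_csInf_lt
    (⟨_, u, ux, uy, h, rfl⟩ : {e | ∃ u ux uy, Adm S α u ux uy ∧ e = energy S β ux uy}.Nonempty) hx
  exact ⟨v, vx, vy, hv, he⟩

theorem adm_zero (S : Set ℂ) : Adm S 0 (fun _ => 0) (fun _ => 0) (fun _ => 0) :=
  ⟨fluct_zero, ae_of_all _ (fun z _ => by simp)⟩

theorem W_zero_le (S : Set ℂ) (β : ℂ) : W S 0 β ≤ 4 * ‖β‖ ^ 2 := by
  refine (W_le (adm_zero S) β).trans ?_
  have h0 : energy S β (fun _ => 0) (fun _ => 0) = ∫ _ in cell ∩ S, 4 * ‖β‖ ^ 2 := by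
    unfold energy
    refine integral_congr_ae (ae_of_all _ fun z => ?_)
    simp
  rw [h0, setIntegral_const, smul_eq_mul]
  have h1 : (volume : Measure ℂ).real (cell ∩ S) ≤ 1 := by
    rw [Measure.real]
    have h2 : (volume : Measure ℂ) (cell ∩ S) ≤ 1 := by
      rw [← wb_volume_cell₁]
      exact measure_mono inter_subset_left
    exact ENNReal.toReal_le_of_le_ofReal zero_le_one (by simpa using h2)
  calc (volume : Measure ℂ).real (cell ∩ S) * (4 * ‖β‖ ^ 2) ≤ 1 * (4 * ‖β‖ ^ 2) := by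
        gcongr
    _ = 4 * ‖β‖ ^ 2 := one_mul _

/-- more material is stiffer -/
theorem W_mono {S S' : Set ℂ} (_hS : MeasurableSet S) (_hS' : MeasurableSet S')
    (h : ∀ᵐ z ∂(volume.restrict cell), z ∈ S' → z ∈ S) (β : ℂ) : W S' 0 β ≤ W S 0 β := by
  refine le_csInf (⟨_, _, _, _, adm_zero S, rfl⟩ :
    {e | ∃ u ux uy, Adm S 0 u ux uy ∧ e = energy S β ux uy}.Nonempty) ?_
  rintro e ⟨u, ux, uy, hu, rfl⟩
  have h1 : Adm S' 0 u ux uy := by
    refine ⟨hu.1, ?_⟩
    filter_upwards [hu.2, h] with z h2 h3 h4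
    exact h2 (h3 h4)
  refine (W_le h1 β).trans ?_
  unfold energy
  apply setIntegral_mono_set (hu.1.wb_integrable_energy₁ β S)
  · exact ae_of_all _ (fun z => by positivity)
  · have h5 : ∀ᵐ z ∂(volume : Measure ℂ), z ∈ cell → (z ∈ S' → z ∈ S) :=
      (ae_restrict_iff' wb_measurableSet_cell₁).1 h
    filter_upwards [h5] with z h6 h7
    exact ⟨h7.1, h6 h7.1 h7.2⟩

/-- `W` only depends on `S` up to null sets -/
theorem W_congr {S S' : Set ℂ} (h : ∀ᵐ z ∂(volume.restrict cell), z ∈ S' ↔ z ∈ S) (α : ℝ)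
    (β : ℂ) : W S' α β = W S α β := by
  have h1 : ∀ u ux uy, Adm S' α u ux uy ↔ Adm S α u ux uy := by
    intro u ux uy
    constructor
    · rintro ⟨ha, hb⟩
      refine ⟨ha, ?_⟩
      filter_upwards [hb, h] with z h2 h3 h4
      exact h2 (h3.2 h4)
    · rintro ⟨ha, hb⟩
      refine ⟨ha, ?_⟩
      filter_upwards [hb, h] with z h2 h3 h4
      exact h2 (h3.1 h4)
  have h2 : ∀ ux uy, energy S' β ux uy = energy S β ux uy := by
    intro ux uy
    unfold energy
    apply setIntegral_congr_set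
    have h5 : ∀ᵐ z ∂(volume : Measure ℂ), z ∈ cell → (z ∈ S' ↔ z ∈ S) :=
      (ae_restrict_iff' wb_measurableSet_cell₁).1 h
    filter_upwards [h5] with z h6
    apply propext
    constructor
    · rintro ⟨h7, h8⟩
      exact ⟨h7, (h6 h7).1 h8⟩
    · rintro ⟨h7, h8⟩
      exact ⟨h7, (h6 h7).2 h8⟩
  unfold W
  simp only [h1, h2]

theorem Adm.wb_add {S : Set ℂ} {α α' : ℝ} {u ux uy v vx vy : ℂ → ℂ} (hu : Adm S α u ux uy)
    (hv : Adm S α' v vx vy) :
    Adm S (α + α') (fun z => u z + v z) (fun z => ux z + vx z) (fun z => uy z + vy z) := by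
  refine ⟨hu.1.add hv.1, ?_⟩
  filter_upwards [hu.2, hv.2] with z h1 h2 h3
  have h4 := h1 h3
  have h5 := h2 h3
  simp only [Complex.add_re, Complex.add_im]
  linarith

theorem Adm.wb_const_mul {S : Set ℂ} {α : ℝ} {u ux uy : ℂ → ℂ} (hu : Adm S α u ux uy) (c : ℝ) :
    Adm S (c * α) (fun z => (c : ℂ) * u z) (fun z => (c : ℂ) * ux z) (fun z => (c : ℂ) * uy z) := by
  refine ⟨hu.1.const_mul c, ?_⟩
  filter_upwards [hu.2] with z h1 h3
  have h4 := h1 h3
  simp only [Complex.mul_re, Complex.mul_im, Complex.ofReal_re, Complex.ofReal_im]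
  have h5 : 2 * (c * α) + (c * (ux z).re - 0 * (ux z).im) + (c * (uy z).im + 0 * (uy z).re)
      = c * (2 * α + (ux z).re + (uy z).im) := by ring
  rw [h5, h4, mul_zero]

theorem wb_energy_smul (S : Set ℂ) (β : ℂ) (ux uy : ℂ → ℂ) (c : ℝ) :
    energy S ((c : ℂ) * β) (fun z => (c : ℂ) * ux z) (fun z => (c : ℂ) * uy z)
      = c ^ 2 * energy S β ux uy := by
  unfold energy
  rw [← integral_const_mul]
  refine integral_congr_ae (ae_of_all _ fun z => ?_)
  simp only
  have h : (c : ℂ) * β + ((c : ℂ) * ux z + Complex.I * ((c : ℂ) * uy z)) / 2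
      = (c : ℂ) * (β + (ux z + Complex.I * uy z) / 2) := by ring
  rw [h, norm_mul, mul_pow, Complex.norm_real, Real.norm_eq_abs, sq_abs]
  ring

theorem wb_adm_ne {S : Set ℂ} (hne : ∃ u ux uy, Adm S 1 u ux uy) (α : ℝ) :
    ∃ u ux uy, Adm S α u ux uy := by
  obtain ⟨u, ux, uy, h⟩ := hne
  exact ⟨_, _, _, by simpa using h.wb_const_mul α⟩

theorem wb_W_smul_le {S : Set ℂ} {α : ℝ} (hne : ∃ u ux uy, Adm S α u ux uy) (β : ℂ) (c : ℝ) :
    W S (c * α) ((c : ℂ) * β) ≤ c ^ 2 * W S α β := by
  by_contra hcon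
  push Not at hcon
  rcases eq_or_lt_of_le (sq_nonneg c) with hc | hc
  · have hc0 : c = 0 := by
      rcases pow_eq_zero_iff (two_ne_zero) |>.1 hc.symm with h; exact h
    obtain ⟨u, ux, uy, h⟩ := hne
    have h1 := W_le (h.wb_const_mul c) ((c : ℂ) * β)
    rw [wb_energy_smul, hc0] at h1
    rw [hc0] at hcon
    simp only [ne_eq, OfNat.ofNat_ne_zero, not_false_eq_true, zero_pow, zero_mul] at h1 hcon
    linarith
  · have h1 : W S α β < W S (c * α) ((c : ℂ) * β) / c ^ 2 := by
      rw [lt_div_iff₀ hc]; linarith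
    obtain ⟨u, ux, uy, hu, he⟩ := exists_lt_of_W_lt hne h1
    have h2 := W_le (hu.wb_const_mul c) ((c : ℂ) * β)
    rw [wb_energy_smul] at h2
    rw [lt_div_iff₀ hc] at he
    linarith

theorem wb_W_smul {S : Set ℂ} (hne : ∃ u ux uy, Adm S 1 u ux uy) (α : ℝ) (β : ℂ) (c : ℝ)
    (hc : c ≠ 0) : W S (c * α) ((c : ℂ) * β) = c ^ 2 * W S α β := by
  apply le_antisymm (wb_W_smul_le (wb_adm_ne hne α) β c)
  have h := wb_W_smul_le (wb_adm_ne hne (c * α)) ((c : ℂ) * β) c⁻¹
  have h1 : c⁻¹ * (c * α) = α := by field_simp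
  have h2 : ((c⁻¹ : ℝ) : ℂ) * ((c : ℂ) * β) = β := by
    have : (c : ℂ) ≠ 0 := by exact_mod_cast hc
    push_cast
    field_simp
  rw [h1, h2] at h
  have h3 : 0 < c ^ 2 := by positivity
  calc c ^ 2 * W S α β ≤ c ^ 2 * (c⁻¹ ^ 2 * W S (c * α) ((c : ℂ) * β)) := by gcongr
    _ = W S (c * α) ((c : ℂ) * β) := by field_simp

theorem wb_energy_parallelogram {S : Set ℂ} {u ux uy v vx vy : ℂ → ℂ} (hu : Fluct u ux uy)
    (hv : Fluct v vx vy) (β γ : ℂ) :
    energy S (β + γ) (fun z => ux z + vx z) (fun z => uy z + vy z)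
      + energy S (β - γ) (fun z => ux z + ((-1 : ℝ) : ℂ) * vx z)
        (fun z => uy z + ((-1 : ℝ) : ℂ) * vy z)
      = 2 * energy S β ux uy + 2 * energy S γ vx vy := by
  unfold energy
  have i1 := (hu.add hv).wb_integrable_energy₁ (β + γ) S
  have i2 := (hu.add (hv.const_mul ((-1 : ℝ) : ℂ))).wb_integrable_energy₁ (β - γ) S
  have i3 := hu.wb_integrable_energy₁ β S
  have i4 := hv.wb_integrable_energy₁ γ S
  rw [← integral_add i1 i2, ← integral_const_mul, ← integral_const_mul,
    ← integral_add (i3.const_mul 2) (i4.const_mul 2)]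
  refine integral_congr_ae (ae_of_all _ fun z => ?_)
  simp only
  have e1 : β + γ + (ux z + vx z + Complex.I * (uy z + vy z)) / 2
      = (β + (ux z + Complex.I * uy z) / 2) + (γ + (vx z + Complex.I * vy z) / 2) := by ring
  have e2 : β - γ + (ux z + ((-1 : ℝ) : ℂ) * vx z
        + Complex.I * (uy z + ((-1 : ℝ) : ℂ) * vy z)) / 2
      = (β + (ux z + Complex.I * uy z) / 2) - (γ + (vx z + Complex.I * vy z) / 2) := by
    push_cast; ring
  rw [e1, e2]
  have h := parallelogram_law_with_norm ℝ (β + (ux z + Complex.I * uy z) / 2)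
    (γ + (vx z + Complex.I * vy z) / 2)
  nlinarith [h]

theorem wb_W_par_le {S : Set ℂ} {α α' : ℝ} (hne : ∃ u ux uy, Adm S 1 u ux uy) (β γ : ℂ) :
    W S (α + α') (β + γ) + W S (α - α') (β - γ) ≤ 2 * W S α β + 2 * W S α' γ := by
  refine le_of_forall_pos_le_add (fun ε hε => ?_)
  obtain ⟨u, ux, uy, hu, hue⟩ := exists_lt_of_W_lt (β := β) (wb_adm_ne hne α)
    (show W S α β < W S α β + ε / 4 by linarith)
  obtain ⟨v, vx, vy, hv, hve⟩ := exists_lt_of_W_lt (β := γ) (wb_adm_ne hne α')
    (show W S α' γ < W S α' γ + ε / 4 by linarith)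
  have h1 := W_le (hu.wb_add hv) (β + γ)
  have h2 := W_le (hu.wb_add (hv.wb_const_mul (-1))) (β - γ)
  have h3 : α + -1 * α' = α - α' := by ring
  rw [h3] at h2
  have h4 := wb_energy_parallelogram (S := S) hu.1 hv.1 β γ
  linarith

theorem wb_W_par {S : Set ℂ} (hne : ∃ u ux uy, Adm S 1 u ux uy) (α α' : ℝ) (β γ : ℂ) :
    W S (α + α') (β + γ) + W S (α - α') (β - γ) = 2 * W S α β + 2 * W S α' γ := by
  apply le_antisymm (wb_W_par_le hne β γ)
  have h := wb_W_par_le (S := S) (α := α + α') (α' := α - α') hne (β + γ) (β - γ)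
  have h1 : α + α' + (α - α') = 2 * α := by ring
  have h2 : α + α' - (α - α') = 2 * α' := by ring
  have h3 : β + γ + (β - γ) = ((2 : ℝ) : ℂ) * β := by push_cast; ring
  have h4 : β + γ - (β - γ) = ((2 : ℝ) : ℂ) * γ := by push_cast; ring
  rw [h1, h2, h3, h4, wb_W_smul hne _ _ _ two_ne_zero, wb_W_smul hne _ _ _ two_ne_zero] at h
  linarith

theorem wb_latMap_conj : LatMap Complex.conjCLE :=
  ⟨⟨1, 0, by simp⟩, ⟨0, -1, by simp⟩⟩

/-- the reflection `z ↦ i z̄` -/
def wb_swapCLE : ℂ ≃L[ℝ] ℂ :=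
  Complex.conjCLE.trans (ContinuousLinearEquiv.smulLeft (Units.mk0 Complex.I Complex.I_ne_zero))

theorem wb_swapCLE_apply (z : ℂ) : wb_swapCLE z = Complex.I * conj z := rfl

theorem wb_latMap_swap : LatMap wb_swapCLE :=
  ⟨⟨0, 1, by simp [wb_swapCLE_apply]⟩, ⟨1, 0, by simp [wb_swapCLE_apply]⟩⟩

/-- change of variables in integrals over `cell ∩ S` -/
theorem wb_setIntegral_cell_inter_comp {S : Set ℂ} (hS : Composite S) {T : ℂ ≃L[ℝ] ℂ} (hT : LatMap T)
    {F : ℂ → ℝ} (hF : Per F) :
    ∫ z in cell ∩ {z | T z ∈ S}, F (T z) = ∫ z in cell ∩ S, F z := by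
  classical
  have h1 : Per (S.indicator F) := by
    intro z
    simp only [Set.indicator, (hS.per z).1, (hS.per z).2, (hF z).1, (hF z).2, and_self]
  have h2 := wb_setIntegral_cell_comp h1 hT
  have h3 : ∫ z in cell, S.indicator F (T z) = ∫ z in cell ∩ {z | T z ∈ S}, F (T z) := by
    have h4 : MeasurableSet {z | T z ∈ S} := T.continuous.measurable hS.meas
    rw [← setIntegral_indicator h4]
    rfl
  rw [← h3, h2, setIntegral_indicator hS.meas]

theorem wb_ae_cell_comp {T : ℂ ≃L[ℝ] ℂ} (hT : LatMap T) {P : ℂ → Prop} (hP : Per P)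
    (h : ∀ᵐ z ∂(volume.restrict cell), P z) : ∀ᵐ z ∂(volume.restrict cell), P (T z) := by
  have h1 := (wb_mp_redC hT).quasiMeasurePreserving.ae h
  filter_upwards [h1] with z hz
  rwa [hP.wb_red] at hz


theorem wb_W_le_of_map {S S' : Set ℂ} {α α' : ℝ} {β β' : ℂ} (hne : ∃ u ux uy, Adm S α u ux uy)
    (h : ∀ u ux uy, Adm S α u ux uy → ∃ v vx vy, Adm S' α' v vx vy ∧
      energy S' β' vx vy ≤ energy S β ux uy) : W S' α' β' ≤ W S α β := by
  obtain ⟨u, ux, uy, hu⟩ := hne
  refine le_csInf (⟨_, _, _, _, hu, rfl⟩ :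
    {e | ∃ u ux uy, Adm S α u ux uy ∧ e = energy S β ux uy}.Nonempty) ?_
  rintro e ⟨u, ux, uy, hu, rfl⟩
  obtain ⟨v, vx, vy, hv, he⟩ := h u ux uy hu
  exact (W_le hv β').trans he

theorem Adm.wb_reflect {S : Set ℂ} (hS : Composite S) (hc : ∀ z, conj z ∈ S ↔ z ∈ S) {α : ℝ}
    {u ux uy : ℂ → ℂ} (hu : Adm S α u ux uy) :
    Adm S α (fun z => conj (u (conj z))) (fun z => conj (ux (conj z)))
      (fun z => -conj (uy (conj z))) := by
  constructor
  · have h1 := (hu.1.wb_comp wb_latMap_conj).star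
    have e1 : (fun z => conj ((Complex.conjCLE 1).re • ux (Complex.conjCLE z)
        + (Complex.conjCLE 1).im • uy (Complex.conjCLE z))) = fun z => conj (ux (conj z)) := by
      funext z; simp
    have e2 : (fun z => conj ((Complex.conjCLE Complex.I).re • ux (Complex.conjCLE z)
        + (Complex.conjCLE Complex.I).im • uy (Complex.conjCLE z)))
        = fun z => -conj (uy (conj z)) := by
      funext z; simp
    rw [e1, e2] at h1
    exact h1
  · have hP : Per (fun z => z ∈ S → 2 * α + (ux z).re + (uy z).im = 0) := by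
      intro z
      simp only [(hS.per z).1, (hS.per z).2, (hu.1.perx z).1, (hu.1.perx z).2, (hu.1.pery z).1,
        (hu.1.pery z).2, and_self]
    have h2 := wb_ae_cell_comp wb_latMap_conj hP hu.2
    filter_upwards [h2] with z hz hzS
    have h3 := hz ((hc z).2 hzS)
    simp only [Complex.conjCLE_apply] at h3
    simp only [Complex.conj_re, Complex.neg_im, Complex.conj_im, neg_neg]
    exact h3

theorem wb_W_conj_le {S : Set ℂ} (hS : Composite S) (hne : ∃ u ux uy, Adm S 1 u ux uy)
    (hc : ∀ z, conj z ∈ S ↔ z ∈ S) (α : ℝ) (β : ℂ) : W S α (conj β) ≤ W S α β := by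
  refine wb_W_le_of_map (wb_adm_ne hne α) (fun u ux uy hu => ⟨_, _, _, hu.wb_reflect hS hc, ?_⟩)
  apply le_of_eq
  have hF : Per (fun z => 4 * ‖β + (ux z + Complex.I * uy z) / 2‖ ^ 2) := by
    intro z
    simp only [(hu.1.perx z).1, (hu.1.perx z).2, (hu.1.pery z).1, (hu.1.pery z).2, and_self]
  have h1 := wb_setIntegral_cell_inter_comp hS wb_latMap_conj hF
  have h2 : {z | Complex.conjCLE z ∈ S} = S := by
    ext z; exact hc z
  rw [h2] at h1
  unfold energy
  rw [← h1]
  refine integral_congr_ae (ae_of_all _ fun z => ?_)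
  simp only [Complex.conjCLE_apply]
  have h3 : conj β + (conj (ux (conj z)) + Complex.I * -conj (uy (conj z))) / 2
      = conj (β + (ux (conj z) + Complex.I * uy (conj z)) / 2) := by
    simp only [map_add, map_div₀, map_mul, Complex.conj_I, map_ofNat]
    ring
  rw [h3, Complex.norm_conj]

theorem wb_W_conj {S : Set ℂ} (hS : Composite S) (hne : ∃ u ux uy, Adm S 1 u ux uy)
    (hc : ∀ z, conj z ∈ S ↔ z ∈ S) (α : ℝ) (β : ℂ) : W S α (conj β) = W S α β := by
  apply le_antisymm (wb_W_conj_le hS hne hc α β)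
  have h := wb_W_conj_le hS hne hc α (conj β)
  rwa [Complex.conj_conj] at h

theorem Adm.wb_swap {S : Set ℂ} (hS : Composite S) (hs : ∀ z, Complex.I * conj z ∈ S ↔ z ∈ S) {α : ℝ}
    {u ux uy : ℂ → ℂ} (hu : Adm S α u ux uy) :
    Adm S α (fun z => Complex.I * conj (u (Complex.I * conj z)))
      (fun z => Complex.I * conj (uy (Complex.I * conj z)))
      (fun z => Complex.I * conj (ux (Complex.I * conj z))) := by
  constructor
  · have h1 := (hu.1.wb_comp wb_latMap_swap).star.const_mul Complex.I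
    have e1 : (fun z => Complex.I * conj ((wb_swapCLE 1).re • ux (wb_swapCLE z)
        + (wb_swapCLE 1).im • uy (wb_swapCLE z)))
        = fun z => Complex.I * conj (uy (Complex.I * conj z)) := by
      funext z; simp [wb_swapCLE_apply]
    have e2 : (fun z => Complex.I * conj ((wb_swapCLE Complex.I).re • ux (wb_swapCLE z)
        + (wb_swapCLE Complex.I).im • uy (wb_swapCLE z)))
        = fun z => Complex.I * conj (ux (Complex.I * conj z)) := by
      funext z; simp [wb_swapCLE_apply]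
    rw [e1, e2] at h1
    exact h1
  · have hP : Per (fun z => z ∈ S → 2 * α + (ux z).re + (uy z).im = 0) := by
      intro z
      simp only [(hS.per z).1, (hS.per z).2, (hu.1.perx z).1, (hu.1.perx z).2, (hu.1.pery z).1,
        (hu.1.pery z).2, and_self]
    have h2 := wb_ae_cell_comp wb_latMap_swap hP hu.2
    filter_upwards [h2] with z hz hzS
    have h3 := hz ((hs z).2 hzS)
    simp only [wb_swapCLE_apply] at h3
    simp only [Complex.mul_re, Complex.mul_im, Complex.I_re, Complex.I_im, Complex.conj_re,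
      Complex.conj_im]
    linarith

theorem wb_W_swap_le {S : Set ℂ} (hS : Composite S) (hne : ∃ u ux uy, Adm S 1 u ux uy)
    (hs : ∀ z, Complex.I * conj z ∈ S ↔ z ∈ S) (α : ℝ) (β : ℂ) : W S α (-conj β) ≤ W S α β := by
  refine wb_W_le_of_map (wb_adm_ne hne α) (fun u ux uy hu => ⟨_, _, _, hu.wb_swap hS hs, ?_⟩)
  apply le_of_eq
  have hF : Per (fun z => 4 * ‖β + (ux z + Complex.I * uy z) / 2‖ ^ 2) := by
    intro z
    simp only [(hu.1.perx z).1, (hu.1.perx z).2, (hu.1.pery z).1, (hu.1.pery z).2, and_self]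
  have h1 := wb_setIntegral_cell_inter_comp hS wb_latMap_swap hF
  have h2 : {z | wb_swapCLE z ∈ S} = S := by
    ext z; exact hs z
  rw [h2] at h1
  unfold energy
  rw [← h1]
  refine integral_congr_ae (ae_of_all _ fun z => ?_)
  simp only [wb_swapCLE_apply]
  have h3 : -conj β + (Complex.I * conj (uy (Complex.I * conj z))
        + Complex.I * (Complex.I * conj (ux (Complex.I * conj z)))) / 2
      = -conj (β + (ux (Complex.I * conj z) + Complex.I * uy (Complex.I * conj z)) / 2) := by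
    simp only [map_add, map_div₀, map_mul, Complex.conj_I, map_ofNat]
    linear_combination (1 / 2 * conj (ux (Complex.I * conj z))) * Complex.I_sq
  rw [h3, norm_neg, Complex.norm_conj]

theorem wb_W_swap {S : Set ℂ} (hS : Composite S) (hne : ∃ u ux uy, Adm S 1 u ux uy)
    (hs : ∀ z, Complex.I * conj z ∈ S ↔ z ∈ S) (α : ℝ) (β : ℂ) : W S α (-conj β) = W S α β := by
  apply le_antisymm (wb_W_swap_le hS hne hs α β)
  have h := wb_W_swap_le hS hne hs α (-conj β)
  rwa [map_neg, Complex.conj_conj, neg_neg] at h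

/-- homogeneity, including the factor `0` -/
theorem wb_W_smul₁ {S : Set ℂ} (hne : ∃ u ux uy, Adm S 1 u ux uy) (α : ℝ) (β : ℂ) (c : ℝ) :
    W S (c * α) ((c : ℂ) * β) = c ^ 2 * W S α β := by
  by_cases hc : c = 0
  · apply le_antisymm (wb_W_smul_le (wb_adm_ne hne α) β c)
    rw [hc]
    simp only [ne_eq, OfNat.ofNat_ne_zero, not_false_eq_true, zero_pow, zero_mul]
    exact W_nonneg _ _ _
  · exact wb_W_smul hne α β c hc

/-- structure of the energy form of a composite with the symmetries `z ↦ z̄` and `z ↦ i z̄`. -/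
theorem W_iso {S : Set ℂ} (hS : Composite S) (hne : ∃ u ux uy, Adm S 1 u ux uy)
    (hc : ∀ z, conj z ∈ S ↔ z ∈ S) (hs : ∀ z, I * conj z ∈ S ↔ z ∈ S) (α : ℝ) (β : ℂ) :
    W S α β = α ^ 2 * W S 1 0 + β.re ^ 2 * W S 0 1 + β.im ^ 2 * W S 0 I := by
  have h1 := wb_W_par hne α 0 (β.re : ℂ) ((β.im : ℂ) * Complex.I)
  have h2 := wb_W_par hne α 0 0 (β.re : ℂ)
  have e1 : (β.re : ℂ) + (β.im : ℂ) * Complex.I = β := Complex.re_add_im β
  have e2 : (β.re : ℂ) - (β.im : ℂ) * Complex.I = conj β := by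
    apply Complex.ext <;> simp
  have e3 : (0 : ℂ) - (β.re : ℂ) = -conj (β.re : ℂ) := by simp
  rw [add_zero, sub_zero, e1, e2, wb_W_conj hS hne hc] at h1
  rw [add_zero, sub_zero, zero_add, e3, wb_W_swap hS hne hs] at h2
  have h3 := wb_W_smul₁ hne 0 1 β.re
  have h4 := wb_W_smul₁ hne 0 Complex.I β.im
  have h5 := wb_W_smul₁ hne 1 0 α
  rw [mul_zero, mul_one] at h3
  rw [mul_zero] at h4
  rw [mul_zero, mul_one] at h5
  rw [h5, h3] at h2
  rw [h4] at h1
  linarith

end EBC
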